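import Pool.Agent.QS2.WeightDet

/-!
# QS2: weight bound, numbers

`e : ℕ → ℕ` is the weight function, used both for the columns `(P, i)`, `(Q, i)`, `i < c`, and for
the jets `d = c - 2 rho, …, c - 1`. If `e (m + rho) ≤ e m + D` for `m < c`, the determinant is
integral up to `p ^ (rho * D + ∑ cv)`.
-/

set_option autoImplicit false

namespace QS2

open Finset

/-- the degree of a column index -/
def colDeg {c : ℕ} : Fin c ⊕ Fin c → ℕ
  | Sum.inl i => i
  | Sum.inr i => i

theorem sum_colDeg {c : ℕ} (g : ℕ → ℕ) :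
    ∑ j : Fin c ⊕ Fin c, g (colDeg j) = 2 * ∑ i ∈ range c, g i := by
  rw [Fintype.sum_sum_type]
  simp only [colDeg]
  rw [Fin.sum_univ_eq_sum_range (fun i => g i) c]
  ring

/-- the exponent -/
theorem expo_le (e : ℕ → ℕ) (he : Monotone e) {c rho D : ℕ} (hc : 2 * rho ≤ c)
    (hD : ∀ m < c, e (m + rho) ≤ e m + D) :
    e (c - rho) * (2 * rho) + ∑ j : Fin c ⊕ Fin c, (e (colDeg j) - e (c - rho))
      ≤ ∑ d : Fin (2 * rho), e (c - 2 * rho + d) + rho * D := by
  rw [sum_colDeg (fun i => e i - e (c - rho)), Fin.sum_univ_eq_sum_range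
    (fun d => e (c - 2 * rho + d)) (2 * rho)]
  have h1 : ∑ i ∈ range c, (e i - e (c - rho))
      = ∑ i ∈ range rho, (e (c - rho + i) - e (c - rho)) := by
    obtain ⟨a, ha⟩ : ∃ a, c = a + rho := ⟨c - rho, by omega⟩
    subst ha
    rw [sum_range_add, Nat.add_sub_cancel]
    have : ∑ i ∈ range a, (e i - e a) = 0 := by
      apply sum_eq_zero
      intro i hi
      have := he (le_of_lt (mem_range.1 hi))
      omega
    rw [this, zero_add]
  have h2 : ∑ i ∈ range rho, (e (c - rho + i) - e (c - rho)) + rho * e (c - rho)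
      = ∑ i ∈ range rho, e (c - rho + i) := by
    rw [← smul_eq_mul, ← card_range rho, ← sum_const, card_range, ← sum_add_distrib]
    apply sum_congr rfl
    intro i _
    have := he (show c - rho ≤ c - rho + i by omega)
    omega
  have h3 : ∑ d ∈ range (2 * rho), e (c - 2 * rho + d)
      = ∑ i ∈ range rho, e (c - 2 * rho + i) + ∑ i ∈ range rho, e (c - rho + i) := by
    rw [two_mul, sum_range_add]
    congr 1
    apply sum_congr rfl
    intro i _
    congr 1
    omega
  have h4 : ∑ i ∈ range rho, e (c - rho + i)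
      ≤ ∑ i ∈ range rho, e (c - 2 * rho + i) + rho * D := by
    have hconst : rho * D = ∑ _i ∈ range rho, D := by
      rw [sum_const, card_range, smul_eq_mul]
    rw [hconst, ← sum_add_distrib]
    apply sum_le_sum
    intro i hi
    rw [mem_range] at hi
    have := hD (c - 2 * rho + i) (by omega)
    rwa [show c - 2 * rho + i + rho = c - rho + i by omega] at this
  rw [h1, h3]
  have h5 : e (c - rho) * (2 * rho) = 2 * (rho * e (c - rho)) := by ring
  omega

/-- **weight bound for the matrix of nodes and jets** -/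
theorem det_weight_nodes {F : Type*} [Field F] (R : Subring F) {p : F} (hp : p ∈ R) (hp0 : p ≠ 0)
    {V : Type*} [Fintype V] {c rho D : ℕ} (hc : 2 * rho ≤ c)
    (M : Matrix (V ⊕ Fin (2 * rho)) (Fin c ⊕ Fin c) F)
    (ix : (Fin c ⊕ Fin c) ≃ (V ⊕ Fin (2 * rho))) (e : ℕ → ℕ) (he : Monotone e)
    (hD : ∀ m < c, e (m + rho) ≤ e m + D) (cv : V → ℕ)
    (hval : ∀ f j, p ^ cv f * M (Sum.inl f) j ∈ R)
    (hjet : ∀ d : Fin (2 * rho), ∀ j, ∃ s ∈ R,
      p ^ e (colDeg j) * M (Sum.inr d) j = p ^ e (c - 2 * rho + d) * s) :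
    p ^ (rho * D + ∑ f, cv f) * (M.submatrix ix id).det ∈ R := by
  classical
  set J : Finset (Fin c ⊕ Fin c) := univ.filter (fun r => ∃ d, ix r = Sum.inr d) with hJ
  set w : (Fin c ⊕ Fin c) → ℕ := fun r => Sum.elim (fun _ => 0)
    (fun d : Fin (2 * rho) => e (c - 2 * rho + d)) (ix r) with hw
  set cc : (Fin c ⊕ Fin c) → ℕ := fun r => Sum.elim cv (fun _ : Fin (2 * rho) => 0) (ix r) with hcc
  have hnot : ∀ r, r ∉ J → ∃ f, ix r = Sum.inl f := by
    intro r hr
    rcases h : ix r with f | d
    · exact ⟨f, rfl⟩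
    · exact absurd (mem_filter.2 ⟨mem_univ _, d, h⟩) hr
  obtain ⟨s, hs, h⟩ := det_weight R hp (M.submatrix ix id) J (fun j => e (colDeg j)) w cc
    (e (c - rho)) (by
      intro r hr j
      obtain ⟨f, hf⟩ := hnot r hr
      simp only [Matrix.submatrix_apply, id, hcc, hf, Sum.elim_inl]
      exact hval f j) (by
      intro r hr j
      obtain ⟨d, hd⟩ := (mem_filter.1 hr).2
      simp only [Matrix.submatrix_apply, id, hw, hd, Sum.elim_inr]
      exact hjet d j)
  have hJc : J.card = 2 * rho := by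
    have : J = (univ : Finset (Fin (2 * rho))).map
        ((Function.Embedding.inr : Fin (2 * rho) ↪ V ⊕ Fin (2 * rho)).trans
          ix.symm.toEmbedding) := by
      ext r
      simp only [hJ, mem_filter, mem_univ, true_and, mem_map, Function.Embedding.trans_apply,
        Function.Embedding.inr_apply, Equiv.toEmbedding_apply]
      constructor
      · rintro ⟨d, hd⟩
        exact ⟨d, by rw [← hd]; simp⟩
      · rintro ⟨d, rfl⟩
        exact ⟨d, by simp⟩
    rw [this, card_map, card_univ, Fintype.card_fin]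
  have hJw : ∑ r ∈ J, w r = ∑ d : Fin (2 * rho), e (c - 2 * rho + d) := by
    have : J = (univ : Finset (Fin (2 * rho))).map
        ((Function.Embedding.inr : Fin (2 * rho) ↪ V ⊕ Fin (2 * rho)).trans
          ix.symm.toEmbedding) := by
      ext r
      simp only [hJ, mem_filter, mem_univ, true_and, mem_map, Function.Embedding.trans_apply,
        Function.Embedding.inr_apply, Equiv.toEmbedding_apply]
      constructor
      · rintro ⟨d, hd⟩
        exact ⟨d, by rw [← hd]; simp⟩
      · rintro ⟨d, rfl⟩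
        exact ⟨d, by simp⟩
    rw [this, sum_map]
    apply sum_congr rfl
    intro d _
    simp [hw]
  have hJv : ∑ r ∈ Jᶜ, cc r = ∑ f, cv f := by
    have h1 : ∑ r ∈ Jᶜ, cc r = ∑ r, cc r := by
      apply sum_subset (subset_univ _)
      intro r _ hr
      rw [mem_compl, not_not] at hr
      obtain ⟨d, hd⟩ := (mem_filter.1 hr).2
      simp [hcc, hd]
    rw [h1, ← Equiv.sum_comp ix.symm, Fintype.sum_sum_type]
    simp [hcc]
  rw [hJc, hJw, hJv] at h
  have hexp := expo_le e he hc hD
  obtain ⟨k, hk⟩ := Nat.exists_eq_add_of_le hexp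
  set S : ℕ := ∑ d : Fin (2 * rho), e (c - 2 * rho + d) with hS
  set L : ℕ := e (c - rho) * (2 * rho) + ∑ j : Fin c ⊕ Fin c, (e (colDeg j) - e (c - rho))
    with hL
  have h6 : p ^ S * (p ^ (rho * D + ∑ f, cv f) * (M.submatrix ix id).det)
      = p ^ S * (p ^ k * s) := by
    calc p ^ S * (p ^ (rho * D + ∑ f, cv f) * (M.submatrix ix id).det)
        = p ^ (S + rho * D + ∑ f, cv f) * (M.submatrix ix id).det := by
          rw [add_assoc, pow_add p S]; ring
      _ = p ^ k * (p ^ (L + ∑ f, cv f) * (M.submatrix ix id).det) := by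
          rw [hk, ← mul_assoc, ← pow_add]
          congr 2
          ring
      _ = p ^ S * (p ^ k * s) := by rw [h]; ring
  rw [mul_left_cancel₀ (pow_ne_zero _ hp0) h6]
  exact R.mul_mem (R.pow_mem hp _) hs

/-! ## Factorials -/

open scoped Nat

/-- increments of the valuation of a factorial -/
theorem fac_diff (p : ℕ) [hp : Fact p.Prime] (m r : ℕ) :
    (p - 1) * padicValNat p (m + r)! ≤ (p - 1) * padicValNat p m ! + r
      + (p - 1) * (Nat.log p m + 1) := by
  have h1 := sub_one_mul_padicValNat_factorial (p := p) (m + r)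
  have h2 := sub_one_mul_padicValNat_factorial (p := p) m
  have h3 : (p.digits m).sum ≤ (p - 1) * (Nat.log p m + 1) := by
    rcases Nat.eq_zero_or_pos m with h0 | h0
    · subst h0; simp
    · have h4 : (p.digits m).sum ≤ (p.digits m).length • (p - 1) := by
        apply List.sum_le_card_nsmul
        intro x hx
        have := Nat.digits_lt_base hp.out.one_lt hx
        omega
      rw [Nat.length_digits p m hp.out.one_lt (by omega), smul_eq_mul, mul_comm] at h4
      exact h4
  have h5 : (p.digits m).sum ≤ m := Nat.digit_sum_le p m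
  rw [h1, h2]
  omega

/-- the weight at `p = 2` in units of `√2` -/
def e2 (i : ℕ) : ℕ := 9 * i + 2 * padicValNat 2 i !

/-- the weight at `3` for a series `v` with `v_3 (v_m) ≥ - a m` -/
def e3 (a : ℕ → ℕ) (i : ℕ) : ℕ := a i + padicValNat 3 i !

theorem padicVal_fac_mono (p : ℕ) [hp : Fact p.Prime] {m n : ℕ} (h : m ≤ n) :
    padicValNat p m ! ≤ padicValNat p n ! := by
  rw [← padicValNat_dvd_iff_le (Nat.factorial_ne_zero n)]
  exact (pow_padicValNat_dvd).trans (Nat.factorial_dvd_factorial h)

theorem e2_mono : Monotone e2 := by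
  intro m n h
  have := padicVal_fac_mono 2 h
  unfold e2
  omega

theorem e2_step {c rho : ℕ} (m : ℕ) (hm : m < c) :
    e2 (m + rho) ≤ e2 m + (11 * rho + 2 * (Nat.log 2 c + 1)) := by
  have h1 := fac_diff 2 m rho
  have h2 : Nat.log 2 m ≤ Nat.log 2 c := Nat.log_mono_right hm.le
  unfold e2
  omega

theorem e3_mono {a : ℕ → ℕ} (ha : Monotone a) : Monotone (e3 a) := by
  intro m n h
  have h1 := padicVal_fac_mono 3 h
  have h2 := ha h
  unfold e3
  omega

theorem e3_step {a : ℕ → ℕ} {c rho G : ℕ} (m : ℕ) (hm : m < c) (ha : a (m + rho) ≤ a m + G) :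
    e3 a (m + rho) ≤ e3 a m + (G + rho / 2 + Nat.log 3 c + 2) := by
  have h1 := fac_diff 3 m rho
  have h2 : Nat.log 3 m ≤ Nat.log 3 c := Nat.log_mono_right hm.le
  unfold e3
  omega

end QS2
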