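import Pool.Agent.QS2.Jet23
import Pool.Agent.QS2.WeightNum

/-! The powers of 2 and 3 in the denominator of the determinant (target (A23)). -/

set_option autoImplicit false

namespace QS2

open Finset Polynomial Pool.QS2

theorem exists_pow_mem_one (p : ℕ) [hp : Fact p.Prime] (q : ℚ) :
    ∃ k : ℕ, padicNorm p ((p : ℚ) ^ k * q) ≤ 1 := by
  refine ⟨padicValNat p q.den, ?_⟩
  have h0 : (q.den : ℚ) ≠ 0 := by exact_mod_cast q.den_ne_zero
  have hpp : (p : ℚ) ≠ 0 := by exact_mod_cast hp.out.ne_zero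
  have h1 := padicNorm_natCast_eq p q.den_ne_zero
  have h2 : padicNorm p ((p : ℚ) ^ padicValNat p q.den)
      = ((p : ℚ) ^ padicValNat p q.den)⁻¹ := by
    have h3 : padicNorm p ((p ^ padicValNat p q.den : ℕ) : ℚ) = _ :=
      padicNorm_natCast_eq p (pow_ne_zero _ hp.out.ne_zero)
    rw [padicValNat.prime_pow] at h3
    exact_mod_cast h3
  have h3 : padicNorm p (q.num : ℚ) ≤ 1 := padicNorm.of_int _
  have h4 : padicNorm p q * padicNorm p (q.den : ℚ) = padicNorm p (q.num : ℚ) := by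
    rw [← padicNorm.mul, Rat.mul_den_eq_num]
  rw [padicNorm.mul, h2, mul_comm]
  rw [h1] at h4
  rw [h4]
  exact h3

theorem exists_pow_mem (p : ℕ) [hp : Fact p.Prime] (x : K) :
    ∃ k : ℕ, (p : K) ^ k * x ∈ Op p ∧ (p : K) ^ k * star x ∈ Op p := by
  obtain ⟨k1, h1⟩ := exists_pow_mem_one p x.re
  obtain ⟨k2, h2⟩ := exists_pow_mem_one p x.im
  have hpow : ∀ (q : ℚ) (k j : ℕ), padicNorm p ((p : ℚ) ^ k * q) ≤ 1 →
      padicNorm p ((p : ℚ) ^ (k + j) * q) ≤ 1 := by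
    intro q k j h
    have e : (p : ℚ) ^ (k + j) * q = ((p ^ j : ℕ) : ℚ) * ((p : ℚ) ^ k * q) := by
      push_cast; rw [pow_add]; ring
    rw [e, padicNorm.mul]
    exact mul_le_one₀ (padicNorm.of_nat _) (padicNorm.nonneg _) h
  have hre : padicNorm p ((p : ℚ) ^ (k1 + k2) * x.re) ≤ 1 := hpow _ _ _ h1
  have him : padicNorm p ((p : ℚ) ^ (k1 + k2) * x.im) ≤ 1 := by
    rw [add_comm k1 k2]; exact hpow _ _ _ h2
  have hmul : ∀ y : K, ((p : K) ^ (k1 + k2) * y).re = (p : ℚ) ^ (k1 + k2) * y.re ∧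
      ((p : K) ^ (k1 + k2) * y).im = (p : ℚ) ^ (k1 + k2) * y.im := by
    intro y
    have e : (p : K) ^ (k1 + k2) = (((p ^ (k1 + k2) : ℕ)) : K) := by push_cast; rfl
    have r1 : ((((p ^ (k1 + k2) : ℕ)) : K)).re = ((p ^ (k1 + k2) : ℕ) : ℚ) := rfl
    have r2 : ((((p ^ (k1 + k2) : ℕ)) : K)).im = 0 := rfl
    rw [e, QuadraticAlgebra.re_mul, QuadraticAlgebra.im_mul, r1, r2]
    constructor
    · push_cast; ring
    · push_cast; ring
  refine ⟨k1 + k2, ?_, ?_⟩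
  · rw [mem_Op, (hmul x).1, (hmul x).2]
    exact ⟨hre, him⟩
  · rw [mem_Op, (hmul (star x)).1, (hmul (star x)).2, QuadraticAlgebra.re_star,
      QuadraticAlgebra.im_star]
    constructor
    · have : (p : ℚ) ^ (k1 + k2) * (x.re + 0 * x.im) = (p : ℚ) ^ (k1 + k2) * x.re := by ring
      rw [this]; exact hre
    · rw [mul_neg, padicNorm.neg]; exact him

theorem two_K_ne : (2 : K) ≠ 0 := by norm_num

theorem piData_two {v : ℕ → K} (hv : IsFormal v) (hv0 : v 0 = alpha) :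
    PiData 2 om 2 (fun m => 9 * m) v where
  mem := om_mem 2
  ne := om_ne
  pow := by rw [om_sq]; norm_num
  a0 := rfl
  mono := fun i j hij => by simp only; omega
  sup := fun i j => by omega
  growth := by
    intro m
    rcases Nat.eq_zero_or_pos m with rfl | hm
    · rw [hv0]
      exact ⟨alpha, alpha_mem 2, by simp⟩
    · exact Gd_mono_right (om_mem 2) (Nat.zero_le _) (growth_two hv hv0 m hm)

theorem piData_three {v : ℕ → K} (hv : IsFormal v) (hv0 : v 0 = alpha) :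
    PiData 3 (3 : K) 1 (fun m => 2 * m / 3) v where
  mem := by exact_mod_cast natCast_mem (Op 3) 3
  ne := by norm_num
  pow := by norm_num
  a0 := rfl
  mono := fun i j hij => by simp only; omega
  sup := fun i j => by omega
  growth := by
    intro m
    have h3m : (3 : K) ∈ Op 3 := by exact_mod_cast natCast_mem (Op 3) 3
    rcases Nat.eq_zero_or_pos m with rfl | hm
    · rw [hv0]
      exact ⟨alpha, alpha_mem 3, by simp⟩
    · exact Gd_mono_right h3m (Nat.zero_le _) (growth_three hv hv0 m hm)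

theorem XE_le {p κ : ℕ} {a : ℕ → ℕ} {kx A rho D : ℕ} (hA : rho ≤ A)
    (hD : ∀ m < A + rho, wt p κ a (m + rho) ≤ wt p κ a m + D) :
    XE p κ a kx A rho ≤ rho * D + vc p κ kx A * (2 * A) := by
  unfold XE
  have h : ∑ i ∈ range rho, (wt p κ a (A + i) - wt p κ a (A - rho + i)) ≤ rho * D := by
    rw [← card_range rho, ← smul_eq_mul, ← sum_const, card_range]
    refine sum_le_sum fun i hi => ?_
    have hi' := mem_range.1 hi
    have h1 := hD (A - rho + i) (by omega)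
    have h2 : A - rho + i + rho = A + i := by omega
    rw [h2] at h1
    omega
  omega

/-- the exponent of 2 -/
def expTwo (k A rho : ℕ) : ℕ := (XE 2 2 (fun m => 9 * m) (2 * k) A rho + 1) / 2

/-- the exponent of 3 -/
def expThree (k A rho : ℕ) : ℕ := XE 3 1 (fun m => 2 * m / 3) k A rho

theorem expTwo_le (k : ℕ) {A rho : ℕ} (hA : rho ≤ A) :
    2 * expTwo k A rho
      ≤ 11 * rho ^ 2 + (4 * k + 20) * ((A + 1) * (Nat.log 2 (A + rho + 1) + 1)) := by
  unfold expTwo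
  have hwt : ∀ i, wt 2 2 (fun m => 9 * m) i = e2 i := fun i => rfl
  have hle : XE 2 2 (fun m => 9 * m) (2 * k) A rho
      ≤ rho * (11 * rho + 2 * (Nat.log 2 (A + rho) + 1)) + vc 2 2 (2 * k) A * (2 * A) := by
    apply XE_le hA
    intro m hm
    rw [hwt, hwt]
    exact e2_step m hm
  have hlog1 : Nat.log 2 (A + rho) ≤ Nat.log 2 (A + rho + 1) := Nat.log_mono_right (by omega)
  have hlog2 : Nat.log 2 (A + 1) ≤ Nat.log 2 (A + rho + 1) := Nat.log_mono_right (by omega)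
  set L := Nat.log 2 (A + rho + 1) with hL
  have hvc : vc 2 2 (2 * k) A ≤ 2 * k + 2 * (3 * L + 1) := by
    unfold vc
    omega
  have h1 : 2 * ((XE 2 2 (fun m => 9 * m) (2 * k) A rho + 1) / 2)
      ≤ XE 2 2 (fun m => 9 * m) (2 * k) A rho + 1 := Nat.mul_div_le _ _
  have h2 : rho * (11 * rho + 2 * (Nat.log 2 (A + rho) + 1))
      ≤ 11 * rho ^ 2 + 2 * (A * (L + 1)) := by
    have : rho * (Nat.log 2 (A + rho) + 1) ≤ A * (L + 1) :=
      Nat.mul_le_mul hA (by omega)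
    nlinarith [this]
  have h3 : vc 2 2 (2 * k) A * (2 * A) ≤ (2 * k + 2 * (3 * L + 1)) * (2 * A) :=
    Nat.mul_le_mul_right _ hvc
  have h4 : (2 * k + 2 * (3 * L + 1)) * (2 * A) ≤ (4 * k + 12) * (A * (L + 1)) := by
    have e1 : (2 * k + 2 * (3 * L + 1)) * (2 * A) = (4 * k + 12 * L + 4) * A := by ring
    have e2 : (4 * k + 12) * (A * (L + 1)) = (4 * k * L + 4 * k + 12 * L + 12) * A := by ring
    rw [e1, e2]
    apply Nat.mul_le_mul_right
    have : 0 ≤ 4 * k * L := Nat.zero_le _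
    omega
  have h5 : (4 * k + 20) * ((A + 1) * (L + 1))
      = (4 * k + 20) * (A * (L + 1)) + (4 * k + 20) * (L + 1) := by ring
  have h6 : (4 * k + 20) * (A * (L + 1)) = (4 * k + 12) * (A * (L + 1)) + 8 * (A * (L + 1)) := by
    ring
  have h7 : 1 ≤ (4 * k + 20) * (L + 1) := Nat.one_le_iff_ne_zero.2 (by positivity)
  have h8 : 0 ≤ A * (L + 1) := Nat.zero_le _
  rw [h5, h6]
  omega

theorem expTwo_mem {v : ℕ → K} (hv : IsFormal v) (hv0 : v 0 = alpha) {k : ℕ} {x x' : K}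
    (hx1 : (2 : K) ^ k * x ∈ Op 2) (hx1' : (2 : K) ^ k * x' ∈ Op 2) {A rho : ℕ} (hA : rho ≤ A) :
    (2 : K) ^ expTwo k A rho * DeltaR x x' v A rho ∈ Op 2 := by
  have h := piData_two hv hv0
  have e2k : (om : K) ^ (2 * k) = (2 : K) ^ k := by rw [pow_mul, om_sq]
  have hx : om ^ (2 * k) * x ∈ Op 2 := by rw [e2k]; exact hx1
  have hx' : om ^ (2 * k) * x' ∈ Op 2 := by rw [e2k]; exact hx1'
  have key := deltaR_bound h hx hx' hA
  unfold expTwo
  have hle2 : XE 2 2 (fun m => 9 * m) (2 * k) A rho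
      ≤ 2 * ((XE 2 2 (fun m => 9 * m) (2 * k) A rho + 1) / 2) := by omega
  obtain ⟨j, hj⟩ := Nat.exists_eq_add_of_le hle2
  have e3 : (2 : K) ^ ((XE 2 2 (fun m => 9 * m) (2 * k) A rho + 1) / 2)
      = om ^ j * om ^ (XE 2 2 (fun m => 9 * m) (2 * k) A rho) := by
    rw [← pow_add, add_comm j, ← hj, pow_mul, om_sq]
  rw [e3, mul_assoc]
  exact (Op 2).mul_mem ((Op 2).pow_mem (om_mem 2) _) key

theorem expThree_le (k : ℕ) {A rho : ℕ} (hA : rho ≤ A) :
    6 * expThree k A rho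
      ≤ 7 * rho ^ 2 + (12 * k + 80) * ((A + 1) * (Nat.log 2 (A + rho + 1) + 1)) := by
  unfold expThree
  have hwt : ∀ i, wt 3 1 (fun m => 2 * m / 3) i = e3 (fun m => 2 * m / 3) i := by
    intro i
    unfold wt e3
    rw [one_mul]
  have hle : XE 3 1 (fun m => 2 * m / 3) k A rho
      ≤ rho * ((2 * rho / 3 + 1) + rho / 2 + Nat.log 3 (A + rho) + 2) + vc 3 1 k A * (2 * A) := by
    apply XE_le hA
    intro m hm
    rw [hwt, hwt]
    exact e3_step m hm (by omega)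
  have hlog0 : ∀ n, Nat.log 3 n ≤ Nat.log 2 n := fun n => Nat.log_anti_left (by norm_num) (by norm_num)
  have hlog1 : Nat.log 3 (A + rho) ≤ Nat.log 2 (A + rho + 1) :=
    (hlog0 _).trans (Nat.log_mono_right (by omega))
  have hlog2 : Nat.log 3 (A + 1) ≤ Nat.log 2 (A + rho + 1) :=
    (hlog0 _).trans (Nat.log_mono_right (by omega))
  set L := Nat.log 2 (A + rho + 1) with hL
  have hvc : vc 3 1 k A ≤ k + (3 * L + 1) := by
    unfold vc
    omega
  have h2 : 6 * (rho * ((2 * rho / 3 + 1) + rho / 2 + Nat.log 3 (A + rho) + 2))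
      ≤ 7 * rho ^ 2 + 18 * (A * (L + 1)) := by
    have e1 : 6 * ((2 * rho / 3 + 1) + rho / 2 + Nat.log 3 (A + rho) + 2)
        ≤ 7 * rho + 18 * (L + 1) := by omega
    calc 6 * (rho * ((2 * rho / 3 + 1) + rho / 2 + Nat.log 3 (A + rho) + 2))
        = rho * (6 * ((2 * rho / 3 + 1) + rho / 2 + Nat.log 3 (A + rho) + 2)) := by ring
      _ ≤ rho * (7 * rho + 18 * (L + 1)) := Nat.mul_le_mul_left _ e1
      _ = 7 * rho ^ 2 + 18 * (rho * (L + 1)) := by ring
      _ ≤ 7 * rho ^ 2 + 18 * (A * (L + 1)) := by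
          have := Nat.mul_le_mul_right (L + 1) hA
          omega
  have h3 : vc 3 1 k A * (2 * A) ≤ (k + (3 * L + 1)) * (2 * A) := Nat.mul_le_mul_right _ hvc
  have h4 : 6 * ((k + (3 * L + 1)) * (2 * A)) ≤ (12 * k + 36) * (A * (L + 1)) := by
    have e1 : 6 * ((k + (3 * L + 1)) * (2 * A)) = (12 * k + 36 * L + 12) * A := by ring
    have e2 : (12 * k + 36) * (A * (L + 1)) = (12 * k * L + 12 * k + 36 * L + 36) * A := by ring
    rw [e1, e2]
    apply Nat.mul_le_mul_right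
    have : 0 ≤ 12 * k * L := Nat.zero_le _
    omega
  have h5 : (12 * k + 80) * ((A + 1) * (L + 1))
      = (12 * k + 36) * (A * (L + 1)) + 44 * (A * (L + 1)) + (12 * k + 80) * (L + 1) := by ring
  have h8 : 0 ≤ A * (L + 1) := Nat.zero_le _
  have h9 : 0 ≤ (12 * k + 80) * (L + 1) := Nat.zero_le _
  rw [h5]
  omega

theorem expThree_mem {v : ℕ → K} (hv : IsFormal v) (hv0 : v 0 = alpha) {k : ℕ} {x x' : K}
    (hx : (3 : K) ^ k * x ∈ Op 3) (hx' : (3 : K) ^ k * x' ∈ Op 3) {A rho : ℕ} (hA : rho ≤ A) :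
    (3 : K) ^ expThree k A rho * DeltaR x x' v A rho ∈ Op 3 :=
  deltaR_bound (piData_three hv hv0) hx hx' hA

/-- (A23), prime 2, for `p`-integral `y, y'` (the form wanted by `norm_final`) -/
theorem AR_two {v : ℕ → K} (hv : IsFormal v) (hv0 : v 0 = alpha) {A rho : ℕ} (hA : rho ≤ A) :
    2 * expTwo 0 A rho ≤ 11 * rho ^ 2 + 20 * ((A + 1) * (Nat.log 2 (A + rho + 1) + 1)) ∧
    ∀ y y' : K, y ∈ Op 2 → y' ∈ Op 2 → (2 : K) ^ expTwo 0 A rho * DeltaR y y' v A rho ∈ Op 2 :=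
  ⟨by simpa using expTwo_le 0 hA, fun y y' hy hy' => expTwo_mem hv hv0
    (by simpa using hy) (by simpa using hy') hA⟩

/-- (A23), prime 3, for `p`-integral `y, y'` (the form wanted by `norm_final`) -/
theorem AR_three {v : ℕ → K} (hv : IsFormal v) (hv0 : v 0 = alpha) {A rho : ℕ} (hA : rho ≤ A) :
    6 * expThree 0 A rho ≤ 7 * rho ^ 2 + 80 * ((A + 1) * (Nat.log 2 (A + rho + 1) + 1)) ∧
    ∀ y y' : K, y ∈ Op 3 → y' ∈ Op 3 →
      (3 : K) ^ expThree 0 A rho * DeltaR y y' v A rho ∈ Op 3 :=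
  ⟨by simpa using expThree_le 0 hA, fun y y' hy hy' => expThree_mem hv hv0
    (by simpa using hy) (by simpa using hy') hA⟩

/-- (A23), prime 2: exponent at most `(11/2) rho^2 + O(A log A)` -/
theorem A_two {v : ℕ → K} (hv : IsFormal v) (hv0 : v 0 = alpha) (x : K) :
    ∃ C : ℕ, ∀ A rho : ℕ, rho ≤ A → ∃ e : ℕ,
      2 * e ≤ 11 * rho ^ 2 + C * ((A + 1) * (Nat.log 2 (A + rho + 1) + 1)) ∧
      (2 : K) ^ e * Delta x v A rho ∈ Op 2 := by
  obtain ⟨k, hk1, hk2⟩ := exists_pow_mem 2 x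
  exact ⟨4 * k + 20, fun A rho hA => ⟨expTwo k A rho, expTwo_le k hA,
    expTwo_mem hv hv0 (by simpa using hk1) (by simpa using hk2) hA⟩⟩

/-- (A23), prime 3: exponent at most `(7/6) rho^2 + O(A log A)` -/
theorem A_three {v : ℕ → K} (hv : IsFormal v) (hv0 : v 0 = alpha) (x : K) :
    ∃ C : ℕ, ∀ A rho : ℕ, rho ≤ A → ∃ e : ℕ,
      6 * e ≤ 7 * rho ^ 2 + C * ((A + 1) * (Nat.log 2 (A + rho + 1) + 1)) ∧
      (3 : K) ^ e * Delta x v A rho ∈ Op 3 := by
  obtain ⟨k, hk1, hk2⟩ := exists_pow_mem 3 x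
  exact ⟨12 * k + 80, fun A rho hA => ⟨expThree k A rho, expThree_le k hA,
    expThree_mem hv hv0 (by simpa using hk1) (by simpa using hk2) hA⟩⟩

end QS2
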