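import Pool.Agent.QS2.Defs

/-!
# Integrality of the Apéry numbers

`b_n = ∑_k C(n,k)^2 C(n+k,k)^2 c_{n,k}`; for every prime `p` the `p`-adic norm of `2 b_n` is at
most `p ^ (3 log_p n)`.
-/

set_option autoImplicit false

namespace QS2

open Finset

/-- `v_p(C(n,m)) + v_p(m) ≤ log_p n` -/
theorem padicValNat_choose_add_le (p : ℕ) [hp : Fact p.Prime] {n m : ℕ} (h2 : m ≤ n) : padicValNat p (n.choose m) + padicValNat p m ≤ Nat.log p n := by
  have hv : padicValNat p m ≤ Nat.log p n :=
    (padicValNat_le_nat_log m).trans (Nat.log_mono_right h2)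
  rw [padicValNat_choose (b := Nat.log p n + 1) h2 (Nat.lt_succ_self _)]
  have hsub : {i ∈ Ico 1 (Nat.log p n + 1) | p ^ i ≤ m % p ^ i + (n - m) % p ^ i} ⊆
      Ico (padicValNat p m + 1) (Nat.log p n + 1) := by
    intro i hi
    rw [mem_filter, mem_Ico] at hi
    rw [mem_Ico]
    refine ⟨?_, hi.1.2⟩
    by_contra hcon
    have hle : i ≤ padicValNat p m := by omega
    have hdvd : p ^ i ∣ m := (pow_dvd_pow p hle).trans pow_padicValNat_dvd
    have h0 : m % p ^ i = 0 := Nat.mod_eq_zero_of_dvd hdvd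
    have := hi.2
    rw [h0, zero_add] at this
    exact absurd (Nat.mod_lt (n - m) (pow_pos hp.out.pos i)) (not_lt.mpr this)
  have hc := card_le_card hsub
  rw [Nat.card_Ico] at hc
  omega

theorem padicNorm_natCast_eq (p : ℕ) {m : ℕ} (hm : m ≠ 0) :
    padicNorm p (m : ℚ) = ((p : ℚ) ^ padicValNat p m)⁻¹ := by
  have : (m : ℚ) ≠ 0 := by exact_mod_cast hm
  rw [padicNorm.eq_zpow_of_nonzero this, padicValRat.of_nat, zpow_neg, zpow_natCast]

/-- the binomial quotient identity -/
theorem choose_quot {n m k : ℕ} (hmk : m ≤ k) :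
    ((n + k).choose k) * (k.choose m) = ((n + k).choose (k - m)) * ((n + m).choose m) := by
  have h1 : (n + k).choose k * k.choose m = (n + k).choose m * (n + k - m).choose (k - m) :=
    Nat.choose_mul hmk
  have h2 : (n + k).choose (n + m) * (n + m).choose m =
      (n + k).choose m * (n + k - m).choose (n + m - m) :=
    Nat.choose_mul (by omega)
  have h3 : (n + k).choose (n + m) = (n + k).choose (k - m) := by
    rw [← Nat.choose_symm (by omega : k - m ≤ n + k)]
    congr 1
    omega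
  have h4 : (n + k - m).choose (k - m) = (n + k - m).choose (n + m - m) := by
    rw [← Nat.choose_symm (by omega : k - m ≤ n + k - m)]
    congr 1
    omega
  rw [h1, h4, ← h2, h3]

variable (p : ℕ) [hp : Fact p.Prime]

theorem one_le_p : (1 : ℚ) ≤ (p : ℚ) := by exact_mod_cast hp.out.one_lt.le

theorem norm_inv_cube {n m : ℕ} (h1 : 1 ≤ m) (h2 : m ≤ n) :
    padicNorm p (1 / (m : ℚ) ^ 3) ≤ (p : ℚ) ^ (3 * Nat.log p n) := by
  have hv : padicValNat p m ≤ Nat.log p n :=
    (padicValNat_le_nat_log m).trans (Nat.log_mono_right h2)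
  rw [padicNorm.div, padicNorm.one, ← Nat.cast_pow, padicNorm_natCast_eq p (by positivity),
    one_div, inv_inv, padicValNat.pow]
  exact pow_le_pow_right₀ (one_le_p p) (by omega)

theorem norm_term {n m k : ℕ} (h1 : 1 ≤ m) (h2 : m ≤ k) (h3 : k ≤ n) :
    padicNorm p (((n + k).choose k : ℚ) /
      ((m : ℚ) ^ 3 * (n.choose m) * ((n + m).choose m))) ≤ (p : ℚ) ^ (3 * Nat.log p n) := by
  have hq := choose_quot (n := n) h2
  have c1 : ((n.choose m : ℕ) : ℚ) ≠ 0 := by exact_mod_cast (Nat.choose_pos (h2.trans h3)).ne'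
  have c2 : ((k.choose m : ℕ) : ℚ) ≠ 0 := by exact_mod_cast (Nat.choose_pos h2).ne'
  have c3 : (((n + m).choose m : ℕ) : ℚ) ≠ 0 := by
    exact_mod_cast (Nat.choose_pos (by omega)).ne'
  have c4 : (m : ℚ) ≠ 0 := by exact_mod_cast (by omega : m ≠ 0)
  have he : ((n + k).choose k : ℚ) / ((m : ℚ) ^ 3 * (n.choose m) * ((n + m).choose m)) =
      ((n + k).choose (k - m) : ℕ) / ((m ^ 3 * n.choose m * k.choose m : ℕ) : ℚ) := by
    have hq' : (((n + k).choose k : ℕ) : ℚ) * (k.choose m) =
        ((n + k).choose (k - m)) * ((n + m).choose m) := by exact_mod_cast hq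
    push_cast
    field_simp
    linear_combination hq'
  have hne : m ^ 3 * n.choose m * k.choose m ≠ 0 := by
    have := Nat.choose_pos (h2.trans h3)
    have := Nat.choose_pos h2
    positivity
  rw [he, padicNorm.div, padicNorm_natCast_eq p hne, div_inv_eq_mul]
  have hv1 := padicValNat_choose_add_le p (h2.trans h3)
  have hv2 := padicValNat_choose_add_le p h2
  have hl : Nat.log p k ≤ Nat.log p n := Nat.log_mono_right h3
  have hvm : padicValNat p m ≤ Nat.log p n :=
    (padicValNat_le_nat_log m).trans (Nat.log_mono_right (h2.trans h3))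
  have hval : padicValNat p (m ^ 3 * n.choose m * k.choose m) ≤ 3 * Nat.log p n := by
    rw [padicValNat.mul (mul_ne_zero (by positivity) (Nat.choose_pos (h2.trans h3)).ne')
      (Nat.choose_pos h2).ne', padicValNat.mul (by positivity)
      (Nat.choose_pos (h2.trans h3)).ne', padicValNat.pow]
    omega
  calc padicNorm p ((n + k).choose (k - m) : ℕ) * (p : ℚ) ^ padicValNat p _
      ≤ 1 * (p : ℚ) ^ (3 * Nat.log p n) := by
        apply mul_le_mul (padicNorm.of_nat _) (pow_le_pow_right₀ (one_le_p p) hval)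
          (by positivity) (by norm_num)
    _ = _ := one_mul _

theorem norm_aperyC {n k : ℕ} (hk : k ≤ n) :
    padicNorm p (2 * ((n + k).choose k : ℚ) * aperyC n k) ≤ (p : ℚ) ^ (3 * Nat.log p n) := by
  have hpow : (0 : ℚ) ≤ (p : ℚ) ^ (3 * Nat.log p n) := by positivity
  have e : 2 * ((n + k).choose k : ℚ) * aperyC n k =
      ∑ m ∈ range n, ((2 * (n + k).choose k : ℕ) : ℚ) * (1 / ((m + 1 : ℕ) : ℚ) ^ 3) +
        ∑ m ∈ range k, ((-1) ^ m : ℤ) * (((n + k).choose k : ℚ) /
          (((m + 1 : ℕ) : ℚ) ^ 3 * (n.choose (m + 1)) * ((n + m + 1).choose (m + 1)))) := by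
    rw [aperyC, H3, mul_add, mul_sum, mul_sum]
    congr 1
    · apply sum_congr rfl
      intro m _
      push_cast
      ring
    · apply sum_congr rfl
      intro m hm
      have hm' : m + 1 ≤ k := by
        have := mem_range.mp hm
        omega
      have c1 : ((n.choose (m + 1) : ℕ) : ℚ) ≠ 0 := by
        exact_mod_cast (Nat.choose_pos (hm'.trans hk)).ne'
      have c3 : (((n + m + 1).choose (m + 1) : ℕ) : ℚ) ≠ 0 := by
        exact_mod_cast (Nat.choose_pos (by omega)).ne'
      have c4 : (m : ℚ) + 1 ≠ 0 := by positivity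
      push_cast
      field_simp
  rw [e]
  refine (padicNorm.nonarchimedean).trans (max_le ?_ ?_)
  · apply padicNorm.sum_le' _ hpow
    intro m hm
    have hm' : m + 1 ≤ n := by
      have := mem_range.mp hm
      omega
    rw [padicNorm.mul]
    calc _ ≤ 1 * (p : ℚ) ^ (3 * Nat.log p n) :=
          mul_le_mul (padicNorm.of_nat _) (norm_inv_cube p (by omega) hm')
            (padicNorm.nonneg _) (by norm_num)
      _ = _ := one_mul _
  · apply padicNorm.sum_le' _ hpow
    intro m hm
    have hm' : m + 1 ≤ k := by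
      have := mem_range.mp hm
      omega
    rw [padicNorm.mul]
    calc _ ≤ 1 * (p : ℚ) ^ (3 * Nat.log p n) :=
          mul_le_mul (padicNorm.of_int _) (norm_term p (by omega) hm' hk)
            (padicNorm.nonneg _) (by norm_num)
      _ = _ := one_mul _

/-- `|2 b_n|_p ≤ p ^ (3 log_p n)` -/
theorem norm_two_aperyB (n : ℕ) :
    padicNorm p (2 * aperyB n) ≤ (p : ℚ) ^ (3 * Nat.log p n) := by
  have hpow : (0 : ℚ) ≤ (p : ℚ) ^ (3 * Nat.log p n) := by positivity
  rw [aperyB, mul_sum]
  apply padicNorm.sum_le' _ hpow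
  intro k hk
  have hk' : k ≤ n := by
    have := mem_range.mp hk
    omega
  have e : 2 * (((n.choose k : ℚ) ^ 2 * ((n + k).choose k) ^ 2) * aperyC n k) =
      ((n.choose k ^ 2 * (n + k).choose k : ℕ) : ℚ) *
        (2 * ((n + k).choose k : ℚ) * aperyC n k) := by
    push_cast
    ring
  rw [e, padicNorm.mul]
  calc _ ≤ 1 * (p : ℚ) ^ (3 * Nat.log p n) :=
        mul_le_mul (padicNorm.of_nat _) (norm_aperyC p hk') (padicNorm.nonneg _) (by norm_num)
    _ = _ := one_mul _

/-- `|b_n|_p ≤ p ^ (3 log_p n)` for odd `p` -/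
theorem norm_aperyB (hp2 : p ≠ 2) (n : ℕ) :
    padicNorm p (aperyB n) ≤ (p : ℚ) ^ (3 * Nat.log p n) := by
  have h := norm_two_aperyB p n
  have h2 : padicNorm p 2 = 1 := by
    have h3 := (padicNorm.nat_eq_one_iff (p := p) 2).mpr (fun hd => hp2 (by
      have := (Nat.prime_dvd_prime_iff_eq hp.out Nat.prime_two).mp hd
      exact this))
    simpa using h3
  rwa [padicNorm.mul, h2, one_mul] at h

/-- `|b_n|_2 ≤ 2 ^ (3 log_2 n + 1)` -/
theorem norm_aperyB_two (n : ℕ) :
    padicNorm 2 (aperyB n) ≤ (2 : ℚ) ^ (3 * Nat.log 2 n + 1) := by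
  have h := norm_two_aperyB 2 n
  have h2 : padicNorm 2 (2 : ℚ) = 2⁻¹ := by
    have := padicNorm.padicNorm_p_of_prime (p := 2)
    simpa using this
  rw [padicNorm.mul, h2] at h
  push_cast at h
  rw [pow_succ]
  linarith

/-- the general form: `|b_n|_p ≤ p ^ (3 log_p n + 1)` -/
theorem norm_aperyB' (n : ℕ) :
    padicNorm p (aperyB n) ≤ (p : ℚ) ^ (3 * Nat.log p n + if p = 2 then 1 else 0) := by
  split_ifs with h
  · subst h
    simpa using norm_aperyB_two n
  · simpa using norm_aperyB p h n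

/-- `a_n` as a natural number -/
def aperyN (n : ℕ) : ℕ := ∑ k ∈ range (n + 1), (n.choose k) ^ 2 * ((n + k).choose k) ^ 2

theorem aperyA_eq_cast (n : ℕ) : aperyA n = (aperyN n : ℚ) := by
  rw [aperyA, aperyN]
  push_cast
  rfl

theorem norm_aperyA (n : ℕ) : padicNorm p (aperyA n) ≤ 1 := by
  rw [aperyA_eq_cast]
  exact padicNorm.of_nat _

end QS2
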