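import Pool.Agent.QS2.AperyInt

/-!
# The limit of the Apéry quotients
-/

set_option autoImplicit false

namespace QS2

open Finset Filter Topology

/-- `ζ(3)` -/
noncomputable def zeta3 : ℝ := ∑' n : ℕ, 1 / ((n : ℝ) + 1) ^ 3

theorem summable_cube : Summable (fun n : ℕ => 1 / ((n : ℝ) + 1) ^ 3) := by
  have h := (Real.summable_one_div_nat_pow (p := 3)).mpr (by norm_num)
  have h2 := (summable_nat_add_iff 1).mpr h
  refine h2.congr ?_
  intro n
  push_cast
  rfl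

theorem one_le_aperyA (n : ℕ) : 1 ≤ aperyA n := by
  rw [aperyA]
  have h := single_le_sum (f := fun k => ((n.choose k : ℚ) ^ 2 * ((n + k).choose k) ^ 2))
    (s := range (n + 1)) (fun k _ => by positivity) (mem_range.mpr (Nat.succ_pos n))
  simpa using h

theorem aperyA_pos (n : ℕ) : 0 < aperyA n := lt_of_lt_of_le one_pos (one_le_aperyA n)

theorem H3_le_two (n : ℕ) : H3 n ≤ 2 := by
  have key : ∀ n : ℕ, H3 (n + 1) ≤ 2 - 1 / ((n : ℚ) + 1) := by
    intro n
    induction n with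
    | zero =>
      simp only [H3, zero_add, range_one, sum_singleton, Nat.cast_zero]
      norm_num
    | succ n ih =>
      have h : H3 (n + 1 + 1) = H3 (n + 1) + 1 / (((n + 1 : ℕ) : ℚ) + 1) ^ 3 := by
        rw [H3, sum_range_succ]
        rfl
      rw [h]
      have hn : (0 : ℚ) ≤ n := by positivity
      have h2 : 1 / (((n + 1 : ℕ) : ℚ) + 1) ^ 3 ≤ 1 / ((n : ℚ) + 1) - 1 / (((n + 1 : ℕ) : ℚ) + 1) := by
        push_cast
        rw [div_sub_div _ _ (by positivity) (by positivity), div_le_div_iff₀ (by positivity)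
          (by positivity)]
        nlinarith [sq_nonneg ((n : ℚ))]
      linarith
  rcases n with _ | n
  · simp [H3]
  · have := key n
    have h3 : (0 : ℚ) ≤ 1 / ((n : ℚ) + 1) := by positivity
    linarith

theorem aperyC_sub (n k : ℕ) (hk : k ≤ n) : |aperyC n k - H3 n| ≤ 1 / ((n : ℚ) + 1) := by
  have e : aperyC n k - H3 n = ∑ m ∈ range k, (-1) ^ m / (2 * ((m : ℚ) + 1) ^ 3 *
      (n.choose (m + 1)) * ((n + m + 1).choose (m + 1))) := by
    rw [aperyC, H3]
    ring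
  rw [e]
  refine (abs_sum_le_sum_abs _ _).trans ?_
  have h1 : ∀ m ∈ range k, |(-1 : ℚ) ^ m / (2 * ((m : ℚ) + 1) ^ 3 *
      (n.choose (m + 1)) * ((n + m + 1).choose (m + 1)))| ≤
      1 / (2 * ((n : ℚ) + 1)) * (1 / ((m : ℚ) + 1) ^ 3) := by
    intro m hm
    have hm' : m + 1 ≤ n := by
      have := mem_range.mp hm
      omega
    have c1 : (1 : ℚ) ≤ n.choose (m + 1) := by exact_mod_cast Nat.choose_pos hm'
    have c2 : ((n : ℚ) + 1) ≤ (n + m + 1).choose (m + 1) := by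
      have h : n + 1 ≤ (n + m + 1).choose (m + 1) := by
        have h1 : (n + m + 1).choose (m + 1) = (n + m).choose m + (n + m).choose (m + 1) := by
          rw [Nat.choose_succ_succ]
        have h2 : (n + m + 1).choose (m + 1) = (n + m + 1).choose n := by
          rw [← Nat.choose_symm (by omega : m + 1 ≤ n + m + 1)]
          congr 1
          omega
        have h3 : (n + 1).choose n ≤ (n + m + 1).choose n := Nat.choose_le_choose n (by omega)
        rw [Nat.choose_succ_self_right] at h3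
        omega
      exact_mod_cast h
    have c1' : (0 : ℚ) < n.choose (m + 1) := lt_of_lt_of_le one_pos c1
    have c2' : (0 : ℚ) < (n + m + 1).choose (m + 1) :=
      lt_of_lt_of_le (by positivity : (0 : ℚ) < (n : ℚ) + 1) c2
    rw [abs_div, abs_pow, abs_neg, abs_one, one_pow, abs_of_nonneg (by positivity),
      div_mul_div_comm, mul_one, div_le_div_iff₀ (by positivity) (by positivity), one_mul,
      one_mul]
    have hm3 : (0 : ℚ) < ((m : ℚ) + 1) ^ 3 := by positivity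
    have : ((n : ℚ) + 1) ≤ (n.choose (m + 1)) * ((n + m + 1).choose (m + 1)) := by
      nlinarith
    nlinarith
  refine (sum_le_sum h1).trans ?_
  rw [← mul_sum]
  have h2 : ∑ m ∈ range k, 1 / ((m : ℚ) + 1) ^ 3 ≤ 2 := H3_le_two k
  have h3 : (0 : ℚ) < 1 / (2 * ((n : ℚ) + 1)) := by positivity
  calc 1 / (2 * ((n : ℚ) + 1)) * ∑ m ∈ range k, 1 / ((m : ℚ) + 1) ^ 3
      ≤ 1 / (2 * ((n : ℚ) + 1)) * 2 := mul_le_mul_of_nonneg_left h2 h3.le
    _ = 1 / ((n : ℚ) + 1) := by field_simp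

theorem aperyB_sub (n : ℕ) : |aperyB n - aperyA n * H3 n| ≤ aperyA n / ((n : ℚ) + 1) := by
  rw [aperyB, aperyA, sum_mul, ← sum_sub_distrib]
  refine (abs_sum_le_sum_abs _ _).trans ?_
  rw [sum_div]
  apply sum_le_sum
  intro k hk
  have hk' : k ≤ n := by
    have := mem_range.mp hk
    omega
  rw [← mul_sub, abs_mul, abs_of_nonneg (by positivity), div_eq_mul_one_div]
  exact mul_le_mul_of_nonneg_left (aperyC_sub n k hk') (by positivity)

theorem tendsto_H3 : Tendsto (fun n => ((H3 n : ℚ) : ℝ)) atTop (𝓝 zeta3) := by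
  have h := summable_cube.hasSum.tendsto_sum_nat
  refine h.congr ?_
  intro n
  rw [H3]
  push_cast
  rfl

theorem quot_sub (n : ℕ) :
    |((aperyB n : ℚ) : ℝ) / (aperyA n : ℚ) - (H3 n : ℚ)| ≤ 1 / ((n : ℝ) + 1) := by
  have h := aperyB_sub n
  have ha := aperyA_pos n
  have h2 : |aperyB n / aperyA n - H3 n| ≤ 1 / ((n : ℚ) + 1) := by
    have e : aperyB n / aperyA n - H3 n = (aperyB n - aperyA n * H3 n) / aperyA n := by
      field_simp
    rw [e, abs_div, abs_of_pos ha, div_le_iff₀ ha]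
    calc _ ≤ _ := h
      _ = _ := by ring
  have h3 := (Rat.cast_le (K := ℝ)).mpr h2
  rw [Rat.cast_abs] at h3
  push_cast at h3
  exact h3

/-- `b_n / a_n → ζ(3)` -/
theorem tendsto_quot : Tendsto (fun n => ((aperyB n : ℚ) : ℝ) / (aperyA n : ℚ)) atTop
    (𝓝 zeta3) := by
  have h1 : Tendsto (fun n : ℕ => 1 / ((n : ℝ) + 1)) atTop (𝓝 0) :=
    tendsto_one_div_add_atTop_nhds_zero_nat
  have h2 : Tendsto (fun n => ((aperyB n : ℚ) : ℝ) / (aperyA n : ℚ) - (H3 n : ℚ)) atTop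
      (𝓝 0) := squeeze_zero_norm (fun n => by rw [Real.norm_eq_abs]; exact quot_sub n) h1
  have h3 := h2.add tendsto_H3
  simpa using h3

/-- the remainder `l_n = a_n ζ(3) - b_n` -/
noncomputable def lrem (n : ℕ) : ℝ := ((aperyA n : ℚ) : ℝ) * zeta3 - ((aperyB n : ℚ) : ℝ)

/-- `l_n / a_n → 0` -/
theorem tendsto_lrem_div : Tendsto (fun n => lrem n / ((aperyA n : ℚ) : ℝ)) atTop (𝓝 0) := by
  have h : Tendsto (fun n => zeta3 - ((aperyB n : ℚ) : ℝ) / (aperyA n : ℚ)) atTop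
      (𝓝 (zeta3 - zeta3)) := tendsto_const_nhds.sub tendsto_quot
  rw [sub_self] at h
  refine h.congr ?_
  intro n
  have ha : ((aperyA n : ℚ) : ℝ) ≠ 0 := by
    have := (aperyA_pos n).ne'
    exact_mod_cast this
  rw [lrem]
  field_simp

section casorati

variable (hC : ∀ n : ℕ, aperyA n * aperyB (n + 1) - aperyA (n + 1) * aperyB n =
  6 / ((n : ℚ) + 1) ^ 3)

include hC

theorem quot_succ (n : ℕ) : aperyB (n + 1) / aperyA (n + 1) - aperyB n / aperyA n =
    6 / (((n : ℚ) + 1) ^ 3 * aperyA n * aperyA (n + 1)) := by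
  have h := hC n
  have h1 := (aperyA_pos n).ne'
  have h2 := (aperyA_pos (n + 1)).ne'
  have h3 : ((n : ℚ) + 1) ^ 3 ≠ 0 := by positivity
  rw [eq_div_iff h3] at h
  rw [div_sub_div _ _ h2 h1, div_eq_div_iff (mul_ne_zero h2 h1)
    (mul_ne_zero (mul_ne_zero h3 h1) h2)]
  linear_combination (aperyA n * aperyA (n + 1)) * h

/-- `l_n = a_n ∑_{k ≥ n} 6 / ((k+1)^3 a_k a_{k+1})` -/
theorem hasSum_lrem (n : ℕ) : HasSum (fun k : ℕ => (6 : ℝ) / (((n + k : ℕ) + 1 : ℝ) ^ 3 *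
    (aperyA (n + k) : ℚ) * (aperyA (n + k + 1) : ℚ))) (lrem n / ((aperyA n : ℚ) : ℝ)) := by
  have ha : ((aperyA n : ℚ) : ℝ) ≠ 0 := by
    have := (aperyA_pos n).ne'
    exact_mod_cast this
  have hpos : ∀ k : ℕ, 0 ≤ (6 : ℝ) / (((n + k : ℕ) + 1 : ℝ) ^ 3 *
    (aperyA (n + k) : ℚ) * (aperyA (n + k + 1) : ℚ)) := by
    intro k
    have h1 : (0 : ℝ) < ((aperyA (n + k) : ℚ) : ℝ) := by exact_mod_cast aperyA_pos (n + k)
    have h2 : (0 : ℝ) < ((aperyA (n + k + 1) : ℚ) : ℝ) := by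
      exact_mod_cast aperyA_pos (n + k + 1)
    positivity
  rw [hasSum_iff_tendsto_nat_of_nonneg hpos]
  have hpart : ∀ m : ℕ, ∑ k ∈ range m, (6 : ℝ) / (((n + k : ℕ) + 1 : ℝ) ^ 3 *
      (aperyA (n + k) : ℚ) * (aperyA (n + k + 1) : ℚ)) =
      ((aperyB (n + m) : ℚ) : ℝ) / (aperyA (n + m) : ℚ) -
        ((aperyB n : ℚ) : ℝ) / (aperyA n : ℚ) := by
    intro m
    induction m with
    | zero => simp
    | succ m ih =>
      rw [sum_range_succ, ih]
      have h := quot_succ hC (n + m)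
      have h' : ((aperyB (n + m + 1) : ℚ) : ℝ) / (aperyA (n + m + 1) : ℚ) -
          ((aperyB (n + m) : ℚ) : ℝ) / (aperyA (n + m) : ℚ) =
          6 / (((n + m : ℕ) + 1 : ℝ) ^ 3 * (aperyA (n + m) : ℚ) * (aperyA (n + m + 1) : ℚ)) := by
        exact_mod_cast congrArg (fun q : ℚ => (q : ℝ)) h
      rw [← add_assoc n m 1]
      linarith
  have hlim : Tendsto (fun m => ((aperyB (n + m) : ℚ) : ℝ) / (aperyA (n + m) : ℚ) -
        ((aperyB n : ℚ) : ℝ) / (aperyA n : ℚ)) atTop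
        (𝓝 (zeta3 - ((aperyB n : ℚ) : ℝ) / (aperyA n : ℚ))) := by
    have h1 : Tendsto (fun m => ((aperyB (m + n) : ℚ) : ℝ) / (aperyA (m + n) : ℚ)) atTop
        (𝓝 zeta3) := (tendsto_add_atTop_iff_nat n).mpr tendsto_quot
    have h2 : Tendsto (fun m => ((aperyB (n + m) : ℚ) : ℝ) / (aperyA (n + m) : ℚ)) atTop
        (𝓝 zeta3) := by
      refine h1.congr ?_
      intro m
      rw [add_comm m n]
    exact h2.sub_const _
  have e : lrem n / ((aperyA n : ℚ) : ℝ) = zeta3 - ((aperyB n : ℚ) : ℝ) / (aperyA n : ℚ) := by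
    rw [lrem]
    field_simp
  rw [e]
  exact hlim.congr (fun m => (hpart m).symm)

/-- `l_n > 0` -/
theorem lrem_pos (n : ℕ) : 0 < lrem n := by
  have h := hasSum_lrem hC n
  have hpos : ∀ k : ℕ, 0 < (6 : ℝ) / (((n + k : ℕ) + 1 : ℝ) ^ 3 *
    (aperyA (n + k) : ℚ) * (aperyA (n + k + 1) : ℚ)) := by
    intro k
    have h1 : (0 : ℝ) < ((aperyA (n + k) : ℚ) : ℝ) := by exact_mod_cast aperyA_pos (n + k)
    have h2 : (0 : ℝ) < ((aperyA (n + k + 1) : ℚ) : ℝ) := by
      exact_mod_cast aperyA_pos (n + k + 1)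
    positivity
  have h3 : 0 < lrem n / ((aperyA n : ℚ) : ℝ) := by
    have h4 := h.summable.tsum_pos (fun k => (hpos k).le) 0 (hpos 0)
    rwa [h.tsum_eq] at h4
  have ha : (0 : ℝ) < ((aperyA n : ℚ) : ℝ) := by exact_mod_cast aperyA_pos n
  have h5 := mul_pos h3 ha
  rwa [div_mul_cancel₀ _ ha.ne'] at h5

end casorati

end QS2
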