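import Pool.Agent.QS2.AperyLim

/-!
# The recurrence of the Apéry numbers
-/

set_option autoImplicit false

namespace QS2

open Finset

/-- `C(n+1,k) = C(n,k) (n+1)/(n+1-k)` -/
theorem ch1 {n k : ℕ} (hk : k ≤ n) :
    (((n + 1).choose k : ℕ) : ℚ) = (n.choose k : ℚ) * ((n : ℚ) + 1) / ((n : ℚ) + 1 - k) := by
  have h := Nat.choose_mul_succ_eq n k
  have h2 : ((n.choose k * (n + 1) : ℕ) : ℚ) = (((n + 1).choose k * (n + 1 - k) : ℕ) : ℚ) := by
    exact_mod_cast h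
  rw [Nat.cast_mul, Nat.cast_mul, Nat.cast_sub (by omega)] at h2
  push_cast at h2
  have hk' : (k : ℚ) ≤ n := by exact_mod_cast hk
  have h3 : (n : ℚ) + 1 - k ≠ 0 := by
    intro h0
    linarith
  rw [eq_div_iff h3]
  linarith

/-- `C(n+1+k,k) = C(n+k,k) (n+1+k)/(n+1)` -/
theorem ch2 (n k : ℕ) :
    (((n + 1 + k).choose k : ℕ) : ℚ) =
      ((n + k).choose k : ℚ) * ((n : ℚ) + 1 + k) / ((n : ℚ) + 1) := by
  have h := Nat.choose_mul_succ_eq (n + k) k
  have h4 : n + k + 1 - k = n + 1 := by omega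
  rw [h4] at h
  have h5 : n + k + 1 = n + 1 + k := by ring
  rw [h5] at h
  have h2 : (((n + k).choose k * (n + 1 + k) : ℕ) : ℚ) =
      (((n + 1 + k).choose k * (n + 1) : ℕ) : ℚ) := by exact_mod_cast h
  push_cast at h2
  have h3 : (n : ℚ) + 1 ≠ 0 := by positivity
  rw [eq_div_iff h3]
  linarith

/-- `C(n,k+1) = C(n,k) (n-k)/(k+1)` -/
theorem ch3 {n k : ℕ} (hk : k ≤ n) :
    ((n.choose (k + 1) : ℕ) : ℚ) = (n.choose k : ℚ) * ((n : ℚ) - k) / ((k : ℚ) + 1) := by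
  have h := Nat.choose_succ_right_eq n k
  have h2 : ((n.choose (k + 1) * (k + 1) : ℕ) : ℚ) = ((n.choose k * (n - k) : ℕ) : ℚ) := by
    exact_mod_cast h
  rw [Nat.cast_mul, Nat.cast_mul, Nat.cast_sub hk] at h2
  push_cast at h2
  have h3 : (k : ℚ) + 1 ≠ 0 := by positivity
  rw [eq_div_iff h3]
  linarith

/-- `C(n+k+1,k+1) = C(n+k,k) (n+k+1)/(k+1)` -/
theorem ch4 (n k : ℕ) :
    (((n + k + 1).choose (k + 1) : ℕ) : ℚ) =
      ((n + k).choose k : ℚ) * ((n : ℚ) + k + 1) / ((k : ℚ) + 1) := by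
  have h := Nat.add_one_mul_choose_eq (n + k) k
  have h2 : (((n + k + 1) * (n + k).choose k : ℕ) : ℚ) =
      (((n + k + 1).choose (k + 1) * (k + 1) : ℕ) : ℚ) := by exact_mod_cast h
  push_cast at h2
  have h3 : (k : ℚ) + 1 ≠ 0 := by positivity
  rw [eq_div_iff h3]
  linarith

theorem aperyC_succ (n k : ℕ) : aperyC n (k + 1) = aperyC n k +
    (-1) ^ k / (2 * ((k : ℚ) + 1) ^ 3 * (n.choose (k + 1) : ℚ) *
      ((n + k + 1).choose (k + 1) : ℚ)) := by
  rw [aperyC, aperyC, sum_range_succ]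
  ring

theorem H3_succ (n : ℕ) : H3 (n + 1) = H3 n + 1 / ((n : ℚ) + 1) ^ 3 := by
  rw [H3, H3, sum_range_succ]

theorem chpos {n k : ℕ} (hk : k ≤ n) : ((n.choose k : ℕ) : ℚ) ≠ 0 := by
  exact_mod_cast (Nat.choose_pos hk).ne'

/-- `c_{n+1,k} - c_{n,k}` -/
theorem aperyC_diff (n k : ℕ) (hk : k ≤ n) : aperyC (n + 1) k - aperyC n k =
    (-1) ^ k / (((n : ℚ) + 1) ^ 2 * ((n : ℚ) + 1 - k) * ((n + 1).choose k : ℚ) *
      ((n + 1 + k).choose k : ℚ)) := by
  induction k with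
  | zero =>
    simp only [aperyC, range_zero, sum_empty, add_zero, H3_succ, pow_zero, Nat.cast_zero,
      sub_zero, Nat.choose_zero_right, Nat.cast_one, mul_one]
    have h : (n : ℚ) + 1 ≠ 0 := by positivity
    field_simp
    ring
  | succ k ih =>
    have ih' := ih (by omega)
    have hk' : (k : ℚ) + 1 ≤ n := by exact_mod_cast hk
    have e : aperyC (n + 1) (k + 1) - aperyC n (k + 1) = (aperyC (n + 1) k - aperyC n k) +
        ((-1) ^ k / (2 * ((k : ℚ) + 1) ^ 3 * ((n + 1).choose (k + 1) : ℚ) *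
          ((n + 1 + k + 1).choose (k + 1) : ℚ)) -
         (-1) ^ k / (2 * ((k : ℚ) + 1) ^ 3 * (n.choose (k + 1) : ℚ) *
          ((n + k + 1).choose (k + 1) : ℚ))) := by
      rw [aperyC_succ, aperyC_succ]
      ring
    rw [e, ih']
    have e1 : (((n + 1 + (k + 1)).choose (k + 1) : ℕ) : ℚ) =
        ((n + 1 + k + 1).choose (k + 1) : ℕ) := by rw [← add_assoc]
    rw [e1, ch4 (n + 1) k, ch3 (n := n + 1) (k := k) (by omega), ch4 n k,
      ch3 (n := n) (k := k) (by omega), ch2 n k, ch1 (n := n) (k := k) (by omega)]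
    have hb := chpos (n := n) (k := k) (by omega)
    have hc := chpos (n := n + k) (k := k) (by omega)
    set β : ℚ := (n.choose k : ℚ) with hβ
    set γ : ℚ := ((n + k).choose k : ℚ) with hγ
    have d1 : (n : ℚ) + 1 ≠ 0 := by positivity
    have d2 : (n : ℚ) + 1 - k ≠ 0 := by
      intro h0
      linarith
    have d3 : (n : ℚ) - k ≠ 0 := by
      intro h0
      linarith
    have d4 : (k : ℚ) + 1 ≠ 0 := by positivity
    have d5 : (n : ℚ) + k + 1 ≠ 0 := by positivity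
    have d6 : (n : ℚ) + 1 + k ≠ 0 := by positivity
    have d7 : (n : ℚ) + 1 + k + 1 ≠ 0 := by positivity
    have d8 : (n : ℚ) + 1 - (k + 1) ≠ 0 := by
      intro h0
      linarith
    push_cast
    rw [pow_succ]
    have d9 : (n : ℚ) + 1 - k = n - k + 1 := by ring
    have d10 : (n : ℚ) + 1 - (k + 1) = n - k := by ring
    field_simp
    ring

/-- the summand of `a_n` -/
def tb (n k : ℕ) : ℚ := (n.choose k : ℚ) ^ 2 * ((n + k).choose k : ℚ) ^ 2

theorem tb_pos {n k : ℕ} (hk : k ≤ n) : 0 < tb n k := by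
  have h1 : (0 : ℚ) < (n.choose k : ℚ) := by exact_mod_cast Nat.choose_pos hk
  have h2 : (0 : ℚ) < ((n + k).choose k : ℚ) := by
    exact_mod_cast Nat.choose_pos (by omega : k ≤ n + k)
  rw [tb]
  positivity

theorem tb_zero {n k : ℕ} (hk : n < k) : tb n k = 0 := by
  rw [tb, Nat.choose_eq_zero_of_lt hk]
  simp

theorem aperyA_eq (n : ℕ) : aperyA n = ∑ k ∈ range (n + 1), tb n k := rfl

theorem aperyB_eq (n : ℕ) : aperyB n = ∑ k ∈ range (n + 1), tb n k * aperyC n k := rfl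

/-- certificate for `a_n`, index `n = N + 1` -/
def gA (N k : ℕ) : ℚ :=
  4 * (2 * ((N : ℚ) + 1) + 1) * ((k : ℚ) * (2 * k + 1) - (2 * ((N : ℚ) + 1) + 1) ^ 2) *
    tb (N + 1) k

/-- certificate for `b_n`, index `n = N + 1` -/
def gB (N k : ℕ) : ℚ :=
  gA N k * aperyC (N + 1) k -
    5 * (2 * ((N : ℚ) + 1) + 1) * (-1) ^ k * k / (((N : ℚ) + 1) * ((N : ℚ) + 2)) *
      ((N + 1).choose k : ℚ) * ((N + 1 + k).choose k : ℚ)

/-- the summand of the recurrence, `n = N + 1` -/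
def rA (N k : ℕ) : ℚ :=
  ((N : ℚ) + 2) ^ 3 * tb (N + 2) k - ap ((N : ℚ) + 1) * tb (N + 1) k +
    ((N : ℚ) + 1) ^ 3 * tb N k

def rB (N k : ℕ) : ℚ :=
  ((N : ℚ) + 2) ^ 3 * (tb (N + 2) k * aperyC (N + 2) k) -
    ap ((N : ℚ) + 1) * (tb (N + 1) k * aperyC (N + 1) k) +
    ((N : ℚ) + 1) ^ 3 * (tb N k * aperyC N k)

theorem gA_step (N k : ℕ) (hk : k ≤ N) : gA N (k + 1) - gA N k = rA N (k + 1) := by
  have hk' : (k : ℚ) ≤ N := by exact_mod_cast hk
  have e3 : ((N.choose (k + 1) : ℕ) : ℚ) = (N.choose k : ℚ) * ((N : ℚ) - k) / ((k : ℚ) + 1) :=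
    ch3 hk
  have e4 : (((N + (k + 1)).choose (k + 1) : ℕ) : ℚ) =
      ((N + k).choose k : ℚ) * ((N : ℚ) + k + 1) / ((k : ℚ) + 1) := by
    rw [← add_assoc]
    exact ch4 N k
  have e1 : (((N + 1).choose k : ℕ) : ℚ) =
      (N.choose k : ℚ) * ((N : ℚ) + 1) / ((N : ℚ) + 1 - k) := ch1 hk
  have e2 : (((N + 1 + k).choose k : ℕ) : ℚ) =
      ((N + k).choose k : ℚ) * ((N : ℚ) + 1 + k) / ((N : ℚ) + 1) := ch2 N k
  have e5 : (((N + 1).choose (k + 1) : ℕ) : ℚ) =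
      ((N + 1).choose k : ℚ) * ((N : ℚ) + 1 - k) / ((k : ℚ) + 1) := by
    have := ch3 (n := N + 1) (k := k) (by omega)
    push_cast at this
    exact this
  have e6 : (((N + 1 + (k + 1)).choose (k + 1) : ℕ) : ℚ) =
      ((N + 1 + k).choose k : ℚ) * ((N : ℚ) + 1 + k + 1) / ((k : ℚ) + 1) := by
    have := ch4 (N + 1) k
    push_cast at this
    rw [← add_assoc]
    exact this
  have e7 : (((N + 2).choose (k + 1) : ℕ) : ℚ) =
      ((N + 1).choose (k + 1) : ℚ) * ((N : ℚ) + 2) / ((N : ℚ) + 1 - k) := by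
    have := ch1 (n := N + 1) (k := k + 1) (by omega)
    push_cast at this
    rw [show N + 2 = N + 1 + 1 from rfl, this]
    congr 1 <;> ring
  have e8 : (((N + 2 + (k + 1)).choose (k + 1) : ℕ) : ℚ) =
      ((N + 1 + (k + 1)).choose (k + 1) : ℚ) * ((N : ℚ) + 3 + k) / ((N : ℚ) + 2) := by
    have := ch2 (N + 1) (k + 1)
    push_cast at this
    rw [show N + 2 + (k + 1) = N + 1 + 1 + (k + 1) from rfl, this]
    congr 1 <;> ring
  have d1 : (N : ℚ) + 1 ≠ 0 := by positivity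
  have d2 : (N : ℚ) + 1 - k ≠ 0 := by
    intro h0
    linarith
  have d3 : (k : ℚ) + 1 ≠ 0 := by positivity
  have d4 : (N : ℚ) + 2 ≠ 0 := by positivity
  simp only [gA, rA, tb, ap]
  rw [e7, e8, e5, e6, e3, e4, e1, e2]
  set β : ℚ := (N.choose k : ℚ)
  set γ : ℚ := ((N + k).choose k : ℚ)
  push_cast
  field_simp
  ring

/-- the first correction term -/
theorem corr1 (N k : ℕ) (hk : k ≤ N) :
    tb (N + 2) (k + 1) * (aperyC (N + 2) (k + 1) - aperyC (N + 1) (k + 1)) =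
      (-1) ^ (k + 1) * ((N + 2).choose (k + 1) : ℚ) * ((N + 2 + (k + 1)).choose (k + 1) : ℚ) /
        (((N : ℚ) + 2) ^ 2 * ((N : ℚ) + 1 - k)) := by
  have hk' : (k : ℚ) ≤ N := by exact_mod_cast hk
  have h := aperyC_diff (N + 1) (k + 1) (by omega)
  have c1 := chpos (n := N + 2) (k := k + 1) (by omega)
  have c2 := chpos (n := N + 2 + (k + 1)) (k := k + 1) (by omega)
  have d2 : (N : ℚ) + 1 - k ≠ 0 := by
    intro h0
    linarith
  have d4 : (N : ℚ) + 2 ≠ 0 := by positivity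
  rw [show N + 2 = N + 1 + 1 from rfl] at *
  rw [h, tb]
  push_cast
  have e1 : (N : ℚ) + 1 + 1 - (k + 1) = N + 1 - k := by ring
  have e2 : (N : ℚ) + 1 + 1 = N + 2 := by ring
  rw [e1, e2]
  field_simp

/-- the second correction term -/
theorem corr2 (N k : ℕ) (hk : k ≤ N) :
    tb N (k + 1) * (aperyC (N + 1) (k + 1) - aperyC N (k + 1)) =
      (-1) ^ (k + 1) * ((N + 1).choose (k + 1) : ℚ) * ((N + 1 + (k + 1)).choose (k + 1) : ℚ) *
        ((N : ℚ) - k) / (((N : ℚ) + 1) ^ 2 * ((N : ℚ) + k + 2) ^ 2) := by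
  rcases Nat.lt_or_ge k N with hlt | hge
  · have hk' : (k : ℚ) + 1 ≤ N := by exact_mod_cast hlt
    have h := aperyC_diff N (k + 1) (by omega)
    have c1 := chpos (n := N) (k := k + 1) (by omega)
    have c2 := chpos (n := N + (k + 1)) (k := k + 1) (by omega)
    have e1 : (((N + 1).choose (k + 1) : ℕ) : ℚ) =
        (N.choose (k + 1) : ℚ) * ((N : ℚ) + 1) / ((N : ℚ) - k) := by
      have := ch1 (n := N) (k := k + 1) (by omega)
      rw [this]
      push_cast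
      congr 1
      ring
    have e2 : (((N + 1 + (k + 1)).choose (k + 1) : ℕ) : ℚ) =
        ((N + (k + 1)).choose (k + 1) : ℚ) * ((N : ℚ) + k + 2) / ((N : ℚ) + 1) := by
      have := ch2 N (k + 1)
      rw [this]
      push_cast
      congr 1
      ring
    have d1 : (N : ℚ) + 1 ≠ 0 := by positivity
    have d2 : (N : ℚ) - k ≠ 0 := by
      intro h0
      linarith
    have d3 : (N : ℚ) + k + 2 ≠ 0 := by positivity
    rw [h, tb, e1, e2]
    push_cast
    have e3 : (N : ℚ) + 1 - (k + 1) = N - k := by ring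
    rw [e3]
    field_simp
  · have he : k = N := le_antisymm hk hge
    subst he
    rw [tb_zero (by omega)]
    simp

theorem gB_step (N k : ℕ) (hk : k ≤ N) : gB N (k + 1) - gB N k = rB N (k + 1) := by
  have hk' : (k : ℚ) ≤ N := by exact_mod_cast hk
  have hA := gA_step N k hk
  have h1 := corr1 N k hk
  have h2 := corr2 N k hk
  have hc := aperyC_succ (N + 1) k
  have e5 : (((N + 1).choose k : ℕ) : ℚ) =
      ((N + 1).choose (k + 1) : ℚ) * ((k : ℚ) + 1) / ((N : ℚ) + 1 - k) := by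
    have := ch3 (n := N + 1) (k := k) (by omega)
    push_cast at this
    have d2 : (N : ℚ) + 1 - k ≠ 0 := by
      intro h0
      linarith
    have d3 : (k : ℚ) + 1 ≠ 0 := by positivity
    rw [this]
    field_simp
  have e6 : (((N + 1 + k).choose k : ℕ) : ℚ) =
      ((N + 1 + (k + 1)).choose (k + 1) : ℚ) * ((k : ℚ) + 1) / ((N : ℚ) + k + 2) := by
    have := ch4 (N + 1) k
    push_cast at this
    have d2 : (N : ℚ) + k + 2 ≠ 0 := by positivity
    have d2' : (N : ℚ) + 1 + k + 1 ≠ 0 := by positivity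
    have d3 : (k : ℚ) + 1 ≠ 0 := by positivity
    rw [← add_assoc, this]
    field_simp
    ring
  have e7 : (((N + 2).choose (k + 1) : ℕ) : ℚ) =
      ((N + 1).choose (k + 1) : ℚ) * ((N : ℚ) + 2) / ((N : ℚ) + 1 - k) := by
    have := ch1 (n := N + 1) (k := k + 1) (by omega)
    push_cast at this
    rw [show N + 2 = N + 1 + 1 from rfl, this]
    congr 1 <;> ring
  have e8 : (((N + 2 + (k + 1)).choose (k + 1) : ℕ) : ℚ) =
      ((N + 1 + (k + 1)).choose (k + 1) : ℚ) * ((N : ℚ) + 3 + k) / ((N : ℚ) + 2) := by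
    have := ch2 (N + 1) (k + 1)
    push_cast at this
    rw [show N + 2 + (k + 1) = N + 1 + 1 + (k + 1) from rfl, this]
    congr 1 <;> ring
  have d1 : (N : ℚ) + 1 ≠ 0 := by positivity
  have d2 : (N : ℚ) + 1 - k ≠ 0 := by
    intro h0
    linarith
  have d3 : (k : ℚ) + 1 ≠ 0 := by positivity
  have d4 : (N : ℚ) + 2 ≠ 0 := by positivity
  have d5 : (N : ℚ) + k + 2 ≠ 0 := by positivity
  have c1 := chpos (n := N + 1) (k := k + 1) (by omega)
  have c2 := chpos (n := N + 1 + (k + 1)) (k := k + 1) (by omega)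
  have hr : rB N (k + 1) = rA N (k + 1) * aperyC (N + 1) (k + 1) +
      ((N : ℚ) + 2) ^ 3 *
        (tb (N + 2) (k + 1) * (aperyC (N + 2) (k + 1) - aperyC (N + 1) (k + 1))) -
      ((N : ℚ) + 1) ^ 3 *
        (tb N (k + 1) * (aperyC (N + 1) (k + 1) - aperyC N (k + 1))) := by
    rw [rB, rA]
    ring
  rw [hr, ← hA, h1, h2, gB, gB, hc]
  have hgA : gA N k = 4 * (2 * ((N : ℚ) + 1) + 1) *
      ((k : ℚ) * (2 * k + 1) - (2 * ((N : ℚ) + 1) + 1) ^ 2) *
      (((N + 1).choose k : ℚ) ^ 2 * ((N + 1 + k).choose k : ℚ) ^ 2) := rfl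
  have e9 : (((N + 1 + k + 1).choose (k + 1) : ℕ) : ℚ) =
      ((N + 1 + (k + 1)).choose (k + 1) : ℕ) := by rw [add_assoc]
  have hgen : ∀ x y z : ℚ, (x * (y + z) - gA N k * y) = (x - gA N k) * (y + z) + gA N k * z := by
    intro x y z
    ring
  rw [e9]
  have key : gA N k * ((-1) ^ k / (2 * ((k : ℚ) + 1) ^ 3 * ((N + 1).choose (k + 1) : ℚ) *
        ((N + 1 + (k + 1)).choose (k + 1) : ℚ))) -
      5 * (2 * ((N : ℚ) + 1) + 1) * (-1) ^ (k + 1) * ((k + 1 : ℕ) : ℚ) /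
        (((N : ℚ) + 1) * ((N : ℚ) + 2)) *
      ((N + 1).choose (k + 1) : ℚ) * ((N + 1 + (k + 1)).choose (k + 1) : ℚ) +
      5 * (2 * ((N : ℚ) + 1) + 1) * (-1) ^ k * k / (((N : ℚ) + 1) * ((N : ℚ) + 2)) *
      ((N + 1).choose k : ℚ) * ((N + 1 + k).choose k : ℚ) =
      ((N : ℚ) + 2) ^ 3 * ((-1) ^ (k + 1) * ((N + 2).choose (k + 1) : ℚ) *
        ((N + 2 + (k + 1)).choose (k + 1) : ℚ) / (((N : ℚ) + 2) ^ 2 * ((N : ℚ) + 1 - k))) -
      ((N : ℚ) + 1) ^ 3 * ((-1) ^ (k + 1) * ((N + 1).choose (k + 1) : ℚ) *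
        ((N + 1 + (k + 1)).choose (k + 1) : ℚ) *
        ((N : ℚ) - k) / (((N : ℚ) + 1) ^ 2 * ((N : ℚ) + k + 2) ^ 2)) := by
    rw [hgA, e7, e8, e5, e6]
    set β : ℚ := ((N + 1).choose (k + 1) : ℚ)
    set γ : ℚ := ((N + 1 + (k + 1)).choose (k + 1) : ℚ)
    push_cast
    rw [pow_succ]
    field_simp
    ring
  linear_combination key

theorem gA_zero (N : ℕ) : gA N 0 = rA N 0 := by
  simp only [gA, rA, tb, ap, Nat.choose_zero_right, Nat.cast_zero, Nat.cast_one]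
  ring

theorem gB_zero (N : ℕ) : gB N 0 = rB N 0 := by
  have h1 : aperyC (N + 2) 0 = aperyC (N + 1) 0 + 1 / ((N : ℚ) + 2) ^ 3 := by
    simp only [aperyC, range_zero, sum_empty, add_zero]
    rw [show N + 2 = N + 1 + 1 from rfl, H3_succ (N + 1)]
    push_cast
    congr 3
    ring
  have h2 : aperyC N 0 = aperyC (N + 1) 0 - 1 / ((N : ℚ) + 1) ^ 3 := by
    simp only [aperyC, range_zero, sum_empty, add_zero]
    rw [H3_succ N]
    ring
  have d1 : (N : ℚ) + 1 ≠ 0 := by positivity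
  have d2 : (N : ℚ) + 2 ≠ 0 := by positivity
  rw [rB, h1, h2]
  simp only [gB, gA, tb, ap, Nat.choose_zero_right, Nat.cast_zero, Nat.cast_one]
  field_simp
  ring

theorem sum_rA (N K : ℕ) (hK : K ≤ N + 1) : ∑ k ∈ range (K + 1), rA N k = gA N K := by
  induction K with
  | zero => simp [gA_zero]
  | succ K ih =>
    rw [sum_range_succ, ih (by omega), ← gA_step N K (by omega)]
    ring

theorem sum_rB (N K : ℕ) (hK : K ≤ N + 1) : ∑ k ∈ range (K + 1), rB N k = gB N K := by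
  induction K with
  | zero => simp [gB_zero]
  | succ K ih =>
    rw [sum_range_succ, ih (by omega), ← gB_step N K (by omega)]
    ring

/-- the central binomial step -/
theorem central (N : ℕ) : (((N + 2 + (N + 2)).choose (N + 2) : ℕ) : ℚ) =
    ((N + 1 + (N + 1)).choose (N + 1) : ℚ) * (2 * (2 * (N : ℚ) + 3)) / ((N : ℚ) + 2) := by
  have h1 := ch4 (N + 2) (N + 1)
  have h2 := ch2 (N + 1) (N + 1)
  have d1 : (N : ℚ) + 2 ≠ 0 := by positivity
  have e1 : N + 2 + (N + 2) = N + 2 + (N + 1) + 1 := by ring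
  rw [e1, h1, show N + 2 + (N + 1) = N + 1 + 1 + (N + 1) from rfl, h2]
  push_cast
  have d2 : (N : ℚ) + 1 + 1 ≠ 0 := by positivity
  field_simp
  ring

theorem rA_top (N : ℕ) : rA N (N + 2) = -gA N (N + 1) := by
  have h := central N
  have d1 : (N : ℚ) + 2 ≠ 0 := by positivity
  rw [rA, tb_zero (by omega : N + 1 < N + 2), tb_zero (by omega : N < N + 2), gA, tb, tb,
    Nat.choose_self, Nat.choose_self, h]
  push_cast
  field_simp
  ring

/-- the recurrence of `a_n`, `n = N + 1` -/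
theorem aperyA_rec (N : ℕ) : ((N : ℚ) + 2) ^ 3 * aperyA (N + 2) =
    ap ((N : ℚ) + 1) * aperyA (N + 1) - ((N : ℚ) + 1) ^ 3 * aperyA N := by
  have h := sum_rA N (N + 1) le_rfl
  have h2 : ∑ k ∈ range (N + 3), rA N k = 0 := by
    rw [sum_range_succ, show N + 2 = N + 1 + 1 from rfl, h, show N + 1 + 1 = N + 2 from rfl,
      rA_top]
    ring
  have h3 : ∑ k ∈ range (N + 3), tb (N + 1) k = aperyA (N + 1) := by
    rw [sum_range_succ, tb_zero (by omega : N + 1 < N + 2), add_zero, aperyA_eq]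
  have h4 : ∑ k ∈ range (N + 3), tb N k = aperyA N := by
    rw [sum_range_succ, tb_zero (by omega : N < N + 2), add_zero, sum_range_succ,
      tb_zero (by omega : N < N + 1), add_zero, aperyA_eq]
  have h5 : ∑ k ∈ range (N + 3), tb (N + 2) k = aperyA (N + 2) := rfl
  have h6 : ∑ k ∈ range (N + 3), rA N k = ((N : ℚ) + 2) ^ 3 * aperyA (N + 2) -
      ap ((N : ℚ) + 1) * aperyA (N + 1) + ((N : ℚ) + 1) ^ 3 * aperyA N := by
    simp only [rA]
    rw [sum_add_distrib, sum_sub_distrib, ← mul_sum, ← mul_sum, ← mul_sum, h3, h4, h5]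
  rw [h2] at h6
  linarith

theorem rB_top (N : ℕ) : rB N (N + 2) = -gB N (N + 1) := by
  have h := central N
  have d1 : (N : ℚ) + 2 ≠ 0 := by positivity
  have d0 : (N : ℚ) + 1 ≠ 0 := by positivity
  have hc1 := aperyC_succ (N + 2) (N + 1)
  have hc2 := aperyC_diff (N + 1) (N + 1) le_rfl
  have e1 : (((N + 1 + 1 + (N + 1)).choose (N + 1) : ℕ) : ℚ) =
      ((N + 1 + (N + 1)).choose (N + 1) : ℚ) * (2 * (N : ℚ) + 3) / ((N : ℚ) + 2) := by
    have := ch2 (N + 1) (N + 1)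
    rw [this]
    push_cast
    congr 1 <;> ring
  have e2 : (((N + 1 + 1).choose (N + 1) : ℕ) : ℚ) = (N : ℚ) + 2 := by
    rw [Nat.choose_succ_self_right]
    push_cast
    ring
  have e3 : (((N + 2 + (N + 1) + 1).choose (N + 1 + 1) : ℕ) : ℚ) =
      ((N + 1 + (N + 1)).choose (N + 1) : ℚ) * (2 * (2 * (N : ℚ) + 3)) / ((N : ℚ) + 2) := h
  have c1 := chpos (n := N + 1 + (N + 1)) (k := N + 1) (by omega)
  rw [e1, e2] at hc2
  rw [e3, show N + 1 + 1 = N + 2 from rfl, Nat.choose_self] at hc1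
  rw [show N + 1 + 1 = N + 2 from rfl] at hc2
  rw [rB, tb_zero (by omega : N + 1 < N + 2), tb_zero (by omega : N < N + 2), gB, gA, tb, tb,
    Nat.choose_self, Nat.choose_self, h, hc1]
  have hc3 : aperyC (N + 2) (N + 1) = aperyC (N + 1) (N + 1) +
      (-1) ^ (N + 1) / ((((N + 1 : ℕ) : ℚ) + 1) ^ 2 * (((N + 1 : ℕ) : ℚ) + 1 - ((N + 1 : ℕ) : ℚ)) *
        ((N : ℚ) + 2) * (((N + 1 + (N + 1)).choose (N + 1) : ℚ) * (2 * (N : ℚ) + 3) /
          ((N : ℚ) + 2))) := by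
    linear_combination hc2
  rw [hc3]
  set γ : ℚ := ((N + 1 + (N + 1)).choose (N + 1) : ℚ)
  push_cast
  have e4 : (N : ℚ) + 1 + 1 - (N + 1) = 1 := by ring
  have e5 : (N : ℚ) + 1 + 1 = N + 2 := by ring
  rw [e4, e5, pow_succ]
  have d3 : 2 * (N : ℚ) + 3 ≠ 0 := by positivity
  field_simp
  ring

/-- the recurrence of `b_n`, `n = N + 1` -/
theorem aperyB_rec (N : ℕ) : ((N : ℚ) + 2) ^ 3 * aperyB (N + 2) =
    ap ((N : ℚ) + 1) * aperyB (N + 1) - ((N : ℚ) + 1) ^ 3 * aperyB N := by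
  have h := sum_rB N (N + 1) le_rfl
  have h2 : ∑ k ∈ range (N + 3), rB N k = 0 := by
    rw [sum_range_succ, show N + 2 = N + 1 + 1 from rfl, h, show N + 1 + 1 = N + 2 from rfl,
      rB_top]
    ring
  have h3 : ∑ k ∈ range (N + 3), tb (N + 1) k * aperyC (N + 1) k = aperyB (N + 1) := by
    rw [sum_range_succ, tb_zero (by omega : N + 1 < N + 2), zero_mul, add_zero, aperyB_eq]
  have h4 : ∑ k ∈ range (N + 3), tb N k * aperyC N k = aperyB N := by
    rw [sum_range_succ, tb_zero (by omega : N < N + 2), zero_mul, add_zero, sum_range_succ,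
      tb_zero (by omega : N < N + 1), zero_mul, add_zero, aperyB_eq]
  have h5 : ∑ k ∈ range (N + 3), tb (N + 2) k * aperyC (N + 2) k = aperyB (N + 2) := rfl
  have h6 : ∑ k ∈ range (N + 3), rB N k = ((N : ℚ) + 2) ^ 3 * aperyB (N + 2) -
      ap ((N : ℚ) + 1) * aperyB (N + 1) + ((N : ℚ) + 1) ^ 3 * aperyB N := by
    simp only [rB]
    rw [sum_add_distrib, sum_sub_distrib, ← mul_sum, ← mul_sum, ← mul_sum, h3, h4, h5]
  rw [h2] at h6
  linarith

theorem aperyA_zero : aperyA 0 = 1 := by simp [aperyA]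

theorem aperyA_one : aperyA 1 = 5 := by
  norm_num [aperyA, sum_range_succ]

theorem aperyB_zero : aperyB 0 = 0 := by simp [aperyB, aperyC, H3]

theorem aperyB_one : aperyB 1 = 6 := by
  norm_num [aperyB, aperyC, H3, sum_range_succ]

/-- the Casoratian -/
theorem casoratian (n : ℕ) : aperyA n * aperyB (n + 1) - aperyA (n + 1) * aperyB n =
    6 / ((n : ℚ) + 1) ^ 3 := by
  induction n with
  | zero =>
    rw [zero_add, aperyA_zero, aperyA_one, aperyB_zero, aperyB_one]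
    norm_num
  | succ n ih =>
    have h1 := aperyA_rec n
    have h2 := aperyB_rec n
    have d1 : ((n : ℚ) + 1) ^ 3 ≠ 0 := by positivity
    have d2 : ((n : ℚ) + 2) ^ 3 ≠ 0 := by positivity
    rw [eq_div_iff d1] at ih
    have e : (((n + 1 : ℕ) : ℚ) + 1) ^ 3 = ((n : ℚ) + 2) ^ 3 := by
      push_cast
      ring
    rw [e, eq_div_iff d2, show n + 1 + 1 = n + 2 from rfl]
    linear_combination (-aperyB (n + 1)) * h1 + aperyA (n + 1) * h2 + ih

theorem aperyA_rec' (n : ℕ) (hn : 1 ≤ n) : ((n : ℚ) + 1) ^ 3 * aperyA (n + 1) =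
    ap (n : ℚ) * aperyA n - (n : ℚ) ^ 3 * aperyA (n - 1) := by
  obtain ⟨m, rfl⟩ : ∃ m, n = m + 1 := ⟨n - 1, by omega⟩
  have h := aperyA_rec m
  push_cast
  rw [show m + 1 + 1 = m + 2 from rfl,
    show (m : ℚ) + 1 + 1 = m + 2 by ring]
  exact h

theorem aperyB_rec' (n : ℕ) (hn : 1 ≤ n) : ((n : ℚ) + 1) ^ 3 * aperyB (n + 1) =
    ap (n : ℚ) * aperyB n - (n : ℚ) ^ 3 * aperyB (n - 1) := by
  obtain ⟨m, rfl⟩ : ∃ m, n = m + 1 := ⟨n - 1, by omega⟩
  have h := aperyB_rec m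
  push_cast
  rw [show m + 1 + 1 = m + 2 from rfl,
    show (m : ℚ) + 1 + 1 = m + 2 by ring]
  exact h

/-- `l_n > 0` -/
theorem lrem_pos' (n : ℕ) : 0 < lrem n := lrem_pos casoratian n

/-- `l_n / a_n = ∑ 6 / ((k+1)^3 a_k a_{k+1})` over `k ≥ n` -/
theorem hasSum_lrem' (n : ℕ) : HasSum (fun k : ℕ => (6 : ℝ) / (((n + k : ℕ) + 1 : ℝ) ^ 3 *
    (aperyA (n + k) : ℚ) * (aperyA (n + k + 1) : ℚ))) (lrem n / ((aperyA n : ℚ) : ℝ)) :=
  hasSum_lrem casoratian n

/-- the recurrence of `l_n` -/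
theorem lrem_rec (N : ℕ) : ((N : ℝ) + 2) ^ 3 * lrem (N + 2) =
    ap ((N : ℝ) + 1) * lrem (N + 1) - ((N : ℝ) + 1) ^ 3 * lrem N := by
  have h1 := congrArg (fun q : ℚ => (q : ℝ)) (aperyA_rec N)
  have h2 := congrArg (fun q : ℚ => (q : ℝ)) (aperyB_rec N)
  simp only [ap] at h1 h2 ⊢
  push_cast at h1 h2
  rw [lrem, lrem, lrem]
  linear_combination zeta3 * h1 - h2

end QS2
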