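import Pool.Agent.QS2.Link

/-!
# The square of `DeltaR`
-/

set_option autoImplicit false

namespace QS2

open Finset Polynomial Matrix
open Pool.Agent.QS2 (Lam)

theorem fullM_sq' {R : Type*} [Field R] {F : Type*} [Fintype F] {n : Type*} [Fintype n]
    [DecidableEq n] (z : F → ℤ) (u0 u1 ρ : F → R)
    (hz : Function.Injective fun f => ((z f : ℤ) : R)) (hu : ∀ f, u1 f = ρ f * u0 f) (v : ℕ → R)
    {r R0 Nc S : ℕ} (hNc : Nc = r + R0) (hS : S = r + R0 + r)
    (g : Fin S ≃ F) (e : n ≃ F ⊕ Fin R0) (f : n ≃ Fin Nc ⊕ Fin Nc) :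
    ((fullM z u0 u1 v Nc R0).submatrix e f).det ^ 2 =
      ((∏ a, u0 a) * (vandermonde fun s => ((z (g s) : ℤ) : R)).det *
        (Matrix.of fun i j : Fin Nc =>
          Lam (fun s => ((z (g s) : ℤ) : R)) (fun s => ρ (g s)) v ((i : ℕ) + j)).det *
        (∏ d : Fin R0, ((r + d).factorial : R)) *
        (∏ i ∈ range Nc, ((i.factorial : R)⁻¹)) ^ 2) ^ 2 := by
  subst hNc hS
  exact fullM_sq z u0 u1 ρ hz hu v g e f

theorem nodeZ_injective (A : ℕ) : Function.Injective (nodeZ A) := by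
  rintro (i | i) (j | j) h
  · simp only [nodeZ] at h
    congr 1
    ext
    omega
  · simp only [nodeZ] at h
    omega
  · simp only [nodeZ] at h
    omega
  · simp only [nodeZ] at h
    congr 1
    ext
    omega

/-- **The square of the determinant.** -/
theorem DeltaR_sq {R : Type*} [Field R] [CharZero R] (x x' : R) (v : ℕ → R) {A rho : ℕ}
    (h : rho ≤ A) (ρ : Nd A → R) (hρ : ∀ f, uval1 x x' A f = ρ f * uval x x' A f)
    (g : Fin (2 * A) ≃ Nd A) :
    (DeltaR x x' v A rho) ^ 2 =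
      ((∏ a, uval x x' A a) * (vandermonde fun s => ((nodeZ A (g s) : ℤ) : R)).det *
        (Matrix.of fun i j : Fin (A + rho) =>
          Lam (fun s => ((nodeZ A (g s) : ℤ) : R)) (fun s => ρ (g s)) v ((i : ℕ) + j)).det *
        (∏ d : Fin (2 * rho), ((A - rho + d).factorial : R)) *
        (∏ i ∈ range (A + rho), ((i.factorial : R)⁻¹)) ^ 2) ^ 2 := by
  unfold DeltaR bigM
  exact fullM_sq' (nodeZ A) (uval x x' A) (uval1 x x' A) ρ
    (fun a b hab => nodeZ_injective A (Int.cast_injective (α := R) hab)) hρ v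
    (r := A - rho) (R0 := 2 * rho) (by omega) (by omega) g (idx A rho) (Equiv.refl _)

end QS2
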