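import Pool.Agent.QS2.ArchR
import Pool.Agent.QS2.B.Facts
import Pool.Agent.QS2.B.EmbFacts
import Pool.Agent.QS2.B.Link

/-!
# (B): the archimedean bound for `Delta`
-/

set_option autoImplicit false

namespace QS2

open Finset

/-- **(B)** the archimedean bound, `EB = 17/4` -/
theorem arch_bound (x : K) (hx : emb x = zeta3) (hx' : star x ≠ x)
    (v : ℕ → K) (hv0 : v 0 = alpha) (hv : IsFormal v) :
    ∃ C : ℝ, ∀ A rho : ℕ, 2 ≤ A → 2 * rho ≤ A → A ≤ 2 * rho + 2 →
      |emb (Delta x v A rho)| ≤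
        Real.exp (-(17 / 4) * (A : ℝ) ^ 2 + C * A * Real.log ((A : ℝ) + 1)) := by
  obtain ⟨h1, h2⟩ := star_facts x hx'
  rw [hx] at h1
  have hne : ∀ n, (aperyA n : ℝ) * emb (star x) - aperyB n ≠ 0 := by
    intro n h
    have ha : ((aperyA n : ℚ) : ℝ) ≠ 0 := by
      have := (aperyA_pos n).ne'
      exact_mod_cast this
    refine h2 (aperyB n / aperyA n) ?_
    push_cast
    rw [eq_div_iff ha]
    linarith
  have hvR : IsFormal (fun i => (emb (v i) : ℝ)) :=
    isFormal_map_B (emb : K →ₐ[ℚ] ℝ).toRingHom v hv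
  have hvC : IsFormal (fun i => ((emb (v i) : ℝ) : ℂ)) :=
    isFormal_map_B Complex.ofRealHom _ hvR
  have h0 : |emb (v 0)| ≤ 1 := by
    rw [hv0, emb_alpha]
    have s2 := Real.sqrt_nonneg 2
    have s3 : Real.sqrt 2 * Real.sqrt 2 = 2 := Real.mul_self_sqrt (by norm_num)
    rw [abs_le]
    constructor <;> nlinarith
  obtain ⟨C, hC⟩ := Pool.Agent.QS2.DeltaR_bound (emb (star x))
    (prod_u aperyFacts (emb (star x))) hne (left_mass aperyFacts (emb (star x)) h1 hne)
    (fun i => emb (v i)) hvC h0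
  refine Pool.Agent.QS2.absorb_small (fun A rho => |emb (Delta x v A rho)|) (17 / 4) C 12 ?_
  intro A rho hA h3 h4
  rw [emb_Delta, hx]
  exact hC A rho hA h3 h4

end QS2
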