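import Mathlib

/-!
Core of the numerical certificates: the function `psi t = t log |t|`, chord and tangent
majorants on a cell, and logarithms of factorials in terms of `psi`.
-/

open Finset
open scoped Nat

namespace Pool.Agent.QS2

/-- `t log |t|` -/
noncomputable def psi (t : ℝ) : ℝ := t * Real.log t

theorem psi_zero : psi 0 = 0 := by simp [psi]

theorem psi_neg (t : ℝ) : psi (-t) = -psi t := by simp [psi]

theorem psi_chord (a b x : ℝ) (ha : 0 ≤ a) (hab : a < b) (h1 : a ≤ x) (h2 : x ≤ b) :
    psi x ≤ ((b - x) * psi a + (x - a) * psi b) / (b - a) := by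
  have hc := Real.convexOn_mul_log
  have hb : 0 < b - a := by linarith
  have w1 : 0 ≤ (b - x) / (b - a) := div_nonneg (by linarith) hb.le
  have w2 : 0 ≤ (x - a) / (b - a) := div_nonneg (by linarith) hb.le
  have w3 : (b - x) / (b - a) + (x - a) / (b - a) = 1 := by
    rw [← add_div, div_eq_one_iff_eq hb.ne']; ring
  have h := hc.2 (Set.mem_Ici.2 ha) (Set.mem_Ici.2 (ha.trans hab.le)) w1 w2 w3
  have e : ((b - x) / (b - a)) • a + ((x - a) / (b - a)) • b = x := by
    simp only [smul_eq_mul]
    field_simp
    ring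
  rw [e] at h
  simp only [smul_eq_mul] at h
  calc psi x = x * Real.log x := rfl
    _ ≤ _ := h
    _ = _ := by unfold psi; ring

theorem psi_tan (s y : ℝ) (hs : 0 < s) (hy : 0 ≤ y) : y * Real.log s + (y - s) ≤ psi y := by
  rcases hy.eq_or_lt with h | h
  · subst h
    simp only [zero_mul, psi_zero]
    linarith
  · have h1 : Real.log (s / y) ≤ s / y - 1 := Real.log_le_sub_one_of_pos (div_pos hs h)
    rw [Real.log_div hs.ne' h.ne'] at h1
    have h2 : y * (Real.log s - Real.log y) ≤ y * (s / y - 1) := mul_le_mul_of_nonneg_left h1 h.le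
    have h3 : y * (s / y - 1) = s - y := by field_simp
    unfold psi
    nlinarith

/-- affine interpolation -/
noncomputable def aff (p q u v x : ℝ) : ℝ := ((q - x) * u + (x - p) * v) / (q - p)

theorem aff_add (p q u v u' v' x : ℝ) : aff p q u v x + aff p q u' v' x =
    aff p q (u + u') (v + v') x := by unfold aff; ring

theorem aff_lin (p q β γ x : ℝ) (h : p < q) : β * x + γ = aff p q (β * p + γ) (β * q + γ) x := by
  unfold aff
  have : q - p ≠ 0 := by intro h'; linarith
  field_simp
  ring

theorem aff_mono (p q u v u' v' x : ℝ) (h : p < q) (h1 : p ≤ x) (h2 : x ≤ q) (hu : u ≤ u')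
    (hv : v ≤ v') : aff p q u v x ≤ aff p q u' v' x := by
  unfold aff
  apply div_le_div_of_nonneg_right _ (by linarith)
  nlinarith

theorem term_chord_R (a c p q x : ℝ) (ha : 0 ≤ a) (hc : c ≤ p) (hpq : p < q) (h1 : p ≤ x)
    (h2 : x ≤ q) : a * psi (x - c) ≤ aff p q (a * psi (p - c)) (a * psi (q - c)) x := by
  have h := psi_chord (p - c) (q - c) (x - c) (by linarith) (by linarith) (by linarith) (by linarith)
  have h' := mul_le_mul_of_nonneg_left h ha
  unfold aff
  calc _ ≤ _ := h'
    _ = _ := by
      rw [show q - c - (x - c) = q - x by ring, show x - c - (p - c) = x - p by ring,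
        show q - c - (p - c) = q - p by ring]
      ring

theorem term_chord_L (a c p q x : ℝ) (ha : a ≤ 0) (hc : q ≤ c) (hpq : p < q) (h1 : p ≤ x)
    (h2 : x ≤ q) : a * psi (x - c) ≤ aff p q (a * psi (p - c)) (a * psi (q - c)) x := by
  have h := psi_chord (c - q) (c - p) (c - x) (by linarith) (by linarith) (by linarith) (by linarith)
  have h' := mul_le_mul_of_nonneg_left h (neg_nonneg.2 ha)
  have e1 : psi (x - c) = -psi (c - x) := by rw [← psi_neg]; congr 1; ring
  have e2 : psi (p - c) = -psi (c - p) := by rw [← psi_neg]; congr 1; ring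
  have e3 : psi (q - c) = -psi (c - q) := by rw [← psi_neg]; congr 1; ring
  rw [e1, e2, e3]
  unfold aff
  calc a * -psi (c - x) = -a * psi (c - x) := by ring
    _ ≤ _ := h'
    _ = _ := by
      rw [show c - p - (c - x) = x - p by ring, show c - x - (c - q) = q - x by ring,
        show c - p - (c - q) = q - p by ring]
      ring

theorem tan_lin (a c p q t x : ℝ) (hpq : p < q) : a * ((x - c) * Real.log (t - c) + (x - t)) =
    aff p q (a * ((p - c) * Real.log (t - c) + (p - t)))
      (a * ((q - c) * Real.log (t - c) + (q - t))) x := by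
  have h := aff_lin p q (a * (Real.log (t - c) + 1)) (-(a * (c * Real.log (t - c) + t))) x hpq
  calc _ = a * (Real.log (t - c) + 1) * x + -(a * (c * Real.log (t - c) + t)) := by ring
    _ = _ := h
    _ = _ := by congr 1 <;> ring

theorem term_tan_R (a c p q t x : ℝ) (ha : a ≤ 0) (hc : c ≤ p) (ht : c < t) (hpq : p < q)
    (h1 : p ≤ x) : a * psi (x - c) ≤ aff p q (a * ((p - c) * Real.log (t - c) + (p - t)))
      (a * ((q - c) * Real.log (t - c) + (q - t))) x := by
  rw [← tan_lin a c p q t x hpq]
  have h := psi_tan (t - c) (x - c) (by linarith) (by linarith)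
  have e : x - c - (t - c) = x - t := by ring
  rw [e] at h
  nlinarith

theorem term_tan_L (a c p q t x : ℝ) (ha : 0 ≤ a) (hc : q ≤ c) (ht : t < c) (hpq : p < q)
    (h2 : x ≤ q) : a * psi (x - c) ≤ aff p q (a * ((p - c) * Real.log (t - c) + (p - t)))
      (a * ((q - c) * Real.log (t - c) + (q - t))) x := by
  rw [← tan_lin a c p q t x hpq]
  have h := psi_tan (c - t) (c - x) (by linarith) (by linarith)
  have e : c - x - (c - t) = t - x := by ring
  have e2 : psi (x - c) = -psi (c - x) := by rw [← psi_neg]; congr 1; ring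
  have e3 : Real.log (t - c) = Real.log (c - t) := by rw [← Real.log_neg_eq_log]; congr 1; ring
  rw [e] at h
  rw [e2, e3]
  nlinarith

/-! ### factorials -/

/-- `E y = y log |y| - y` -/
noncomputable def En (y : ℝ) : ℝ := psi y - y

theorem En_zero : En 0 = 0 := by simp [En, psi_zero]

theorem En_neg (y : ℝ) : En (-y) = -En y := by unfold En; rw [psi_neg]; ring

theorem psi_mul (N y : ℝ) (hN : 0 < N) : psi (N * y) = N * psi y + N * y * Real.log N := by
  rcases eq_or_ne y 0 with h | h
  · subst h; simp [psi_zero]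
  · unfold psi
    rw [Real.log_mul hN.ne' h]
    ring

theorem En_mul (N y : ℝ) (hN : 0 < N) : En (N * y) = N * (psi y - y) + N * y * Real.log N := by
  unfold En
  rw [psi_mul N y hN]
  ring

theorem log_fact_ge (m : ℕ) : En m ≤ Real.log (m ! : ℝ) := by
  induction m with
  | zero => simp [En, psi]
  | succ k ih =>
    have hk : (0 : ℝ) < (k : ℝ) + 1 := by positivity
    have e : Real.log ((k + 1)! : ℝ) = Real.log (k ! : ℝ) + Real.log (k + 1) := by
      rw [Nat.factorial_succ]
      push_cast
      rw [Real.log_mul hk.ne' (by positivity)]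
      ring
    rw [e]
    have h := psi_tan ((k : ℝ) + 1) k hk (Nat.cast_nonneg k)
    have h2 : En ((k + 1 : ℕ) : ℝ) = ((k : ℝ) + 1) * Real.log (k + 1) - (k + 1) := by
      unfold En psi; push_cast; ring
    rw [h2]
    unfold En at ih
    linarith

theorem log_fact_le (m : ℕ) : Real.log (m ! : ℝ) ≤ En m + 2 * Real.log (m + 1) + 1 := by
  induction m with
  | zero => simp [En, psi]
  | succ k ih =>
    have hk : (0 : ℝ) < (k : ℝ) + 1 := by positivity
    have e : Real.log ((k + 1)! : ℝ) = Real.log (k ! : ℝ) + Real.log (k + 1) := by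
      rw [Nat.factorial_succ]
      push_cast
      rw [Real.log_mul hk.ne' (by positivity)]
      ring
    rw [e]
    have h2 : En ((k + 1 : ℕ) : ℝ) = ((k : ℝ) + 1) * Real.log (k + 1) - (k + 1) := by
      unfold En psi; push_cast; ring
    rw [h2]
    -- k log k - k + log (k+1) + 1 + log (k+1) ≤ (k+1) log (k+1) - (k+1) + log (k+2) + 1
    have h3 : psi k + 1 ≤ k * Real.log (k + 1) + 1 := by
      unfold psi
      rcases Nat.eq_zero_or_pos k with h0 | h0
      · subst h0; simp
      · have : (0 : ℝ) < k := by exact_mod_cast h0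
        have := Real.log_le_log this (by linarith : (k : ℝ) ≤ k + 1)
        nlinarith
    -- stronger: k log k + (something) : k * (log (k+1) - log k) ≥ k/(k+1)
    have h4 : psi k + (k : ℝ) / (k + 1) ≤ k * Real.log (k + 1) := by
      rcases Nat.eq_zero_or_pos k with h0 | h0
      · subst h0; simp [psi]
      · have hk0 : (0 : ℝ) < k := by exact_mod_cast h0
        have h5 : Real.log ((k : ℝ) / (k + 1)) ≤ (k : ℝ) / (k + 1) - 1 :=
          Real.log_le_sub_one_of_pos (by positivity)
        rw [Real.log_div hk0.ne' hk.ne'] at h5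
        have h6 : (k : ℝ) / (k + 1) - 1 = -(1 / (k + 1)) := by field_simp; ring
        rw [h6] at h5
        have h7 : (k : ℝ) * (Real.log k - Real.log (k + 1)) ≤ k * -(1 / (k + 1)) :=
          mul_le_mul_of_nonneg_left h5 hk0.le
        have h8 : (k : ℝ) * -(1 / (k + 1)) = -((k : ℝ) / (k + 1)) := by ring
        unfold psi
        nlinarith
    have h9 : Real.log ((k : ℝ) + 1) + 1 / ((k : ℝ) + 2) ≤ Real.log (((k + 1 : ℕ) : ℝ) + 1) := by
      have h5 : Real.log (((k : ℝ) + 1) / (k + 2)) ≤ ((k : ℝ) + 1) / (k + 2) - 1 :=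
        Real.log_le_sub_one_of_pos (by positivity)
      rw [Real.log_div hk.ne' (by positivity)] at h5
      have h6 : ((k : ℝ) + 1) / (k + 2) - 1 = -(1 / (k + 2)) := by field_simp; ring
      rw [h6] at h5
      have : (((k + 1 : ℕ) : ℝ) + 1) = (k : ℝ) + 2 := by push_cast; ring
      rw [this]
      linarith
    have h10 : (k : ℝ) / (k + 1) = 1 - 1 / (k + 1) := by field_simp; ring
    have h11 : (1 : ℝ) / (k + 1) ≤ 1 := by
      rw [div_le_one hk]; linarith [Nat.cast_nonneg (α := ℝ) k]
    unfold En at ih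
    have h12 : (1 : ℝ) / (k + 1) ≤ 2 * (1 / ((k : ℝ) + 2)) := by
      rw [mul_one_div, div_le_div_iff₀ hk (by positivity)]
      linarith [Nat.cast_nonneg (α := ℝ) k]
    linarith

end Pool.Agent.QS2
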