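import Mathlib
import Pool.Agent.QS2.CertCore

/-!
The real-variable part of the energy certificate for the two-sided determinants:
`g x = 2 U(x) - Q(x)` for the density `4` on `[0,1/5]`, `2` on `[1/5,2/5]`, `1` on `[2/5,7/10]`
(total mass `3/2`), the field `7 x + int_0^1 log (x+t) + int_0^1 log |x-t|` (generated file).
-/

open Finset

set_option linter.unusedSimpArgs false

namespace Pool.Agent.QS2

/-- enclosure of a logarithm by the area hyperbolic tangent series -/
theorem logq_enc (k : ℕ) (q lo hi : ℝ) (h1 : (2 : ℝ) ^ k ≤ q)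
    (hlo : lo ≤ k * 0.6931471803 +
      2 * ∑ i ∈ range 10, ((q - 2 ^ k) / (q + 2 ^ k)) ^ (2 * i + 1) / (2 * (i : ℝ) + 1))
    (hhi : k * 0.6931471808 +
      2 * ((∑ i ∈ range 10, ((q - 2 ^ k) / (q + 2 ^ k)) ^ (2 * i + 1) / (2 * (i : ℝ) + 1)) +
        ((q - 2 ^ k) / (q + 2 ^ k)) ^ (2 * 10 + 1) / (1 - ((q - 2 ^ k) / (q + 2 ^ k)) ^ 2)) ≤ hi) :
    lo ≤ Real.log q ∧ Real.log q ≤ hi := by
  set m : ℝ := (2 : ℝ) ^ k with hm
  have hm0 : 0 < m := by positivity
  have hs : 0 < q + m := by linarith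
  have h0 : 0 ≤ (q - m) / (q + m) := div_nonneg (by linarith) hs.le
  have h2 : (q - m) / (q + m) < 1 := by
    rw [div_lt_one hs]
    linarith
  have e : (1 + (q - m) / (q + m)) / (1 - (q - m) / (q + m)) = q / m := by
    have e1 : 1 + (q - m) / (q + m) = 2 * q / (q + m) := by field_simp; ring
    have e2 : 1 - (q - m) / (q + m) = 2 * m / (q + m) := by field_simp; ring
    rw [e1, e2]
    field_simp
  have h3 := Real.log_div_le_sum_range_add h0 h2 10
  have h4 := Real.sum_range_le_log_div h0 h2 10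
  rw [e, Real.log_div (by linarith) hm0.ne'] at h3 h4
  have h5 : Real.log m = k * Real.log 2 := by
    rw [hm, Real.log_pow]
  have h6 := Real.log_two_gt_d9
  have h7 := Real.log_two_lt_d9
  have hk : (0 : ℝ) ≤ k := Nat.cast_nonneg k
  constructor <;> nlinarith

theorem log_val (s : ℝ) (A B : ℕ) (hA : 0 < A) (hB : 0 < B) (h : s = (A : ℝ) / B) :
    Real.log s = Real.log A - Real.log B := by
  rw [h, Real.log_div (by exact_mod_cast hA.ne') (by exact_mod_cast hB.ne')]

theorem log_val' (s : ℝ) (A B : ℕ) (hA : 0 < A) (hB : 0 < B) (h : s = -((A : ℝ) / B)) :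
    Real.log s = Real.log A - Real.log B := by
  rw [h, Real.log_neg_eq_log, Real.log_div (by exact_mod_cast hA.ne') (by exact_mod_cast hB.ne')]

theorem lgn_2 : 0.69314717 ≤ Real.log 2 ∧ Real.log 2 ≤ 0.69314720 :=
  logq_enc 1 2 0.69314717 0.69314720 (by norm_num) (by norm_num [sum_range_succ])
    (by norm_num [sum_range_succ])

theorem lgn_3 : 1.09861227 ≤ Real.log 3 ∧ Real.log 3 ≤ 1.09861230 :=
  logq_enc 1 3 1.09861227 1.09861230 (by norm_num) (by norm_num [sum_range_succ])
    (by norm_num [sum_range_succ])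

theorem lgn_4 : 1.38629435 ≤ Real.log 4 ∧ Real.log 4 ≤ 1.38629438 :=
  logq_enc 2 4 1.38629435 1.38629438 (by norm_num) (by norm_num [sum_range_succ])
    (by norm_num [sum_range_succ])

theorem lgn_5 : 1.60943790 ≤ Real.log 5 ∧ Real.log 5 ≤ 1.60943793 :=
  logq_enc 2 5 1.60943790 1.60943793 (by norm_num) (by norm_num [sum_range_succ])
    (by norm_num [sum_range_succ])

theorem lgn_7 : 1.94591013 ≤ Real.log 7 ∧ Real.log 7 ≤ 1.94591016 :=
  logq_enc 2 7 1.94591013 1.94591016 (by norm_num) (by norm_num [sum_range_succ])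
    (by norm_num [sum_range_succ])

theorem lgn_8 : 2.07944153 ≤ Real.log 8 ∧ Real.log 8 ≤ 2.07944156 :=
  logq_enc 3 8 2.07944153 2.07944156 (by norm_num) (by norm_num [sum_range_succ])
    (by norm_num [sum_range_succ])

theorem lgn_9 : 2.19722456 ≤ Real.log 9 ∧ Real.log 9 ≤ 2.19722459 :=
  logq_enc 3 9 2.19722456 2.19722459 (by norm_num) (by norm_num [sum_range_succ])
    (by norm_num [sum_range_succ])

theorem lgn_10 : 2.30258508 ≤ Real.log 10 ∧ Real.log 10 ≤ 2.30258511 :=
  logq_enc 3 10 2.30258508 2.30258511 (by norm_num) (by norm_num [sum_range_succ])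
    (by norm_num [sum_range_succ])

theorem lgn_11 : 2.39789526 ≤ Real.log 11 ∧ Real.log 11 ≤ 2.39789529 :=
  logq_enc 3 11 2.39789526 2.39789529 (by norm_num) (by norm_num [sum_range_succ])
    (by norm_num [sum_range_succ])

theorem lgn_13 : 2.56494934 ≤ Real.log 13 ∧ Real.log 13 ≤ 2.56494937 :=
  logq_enc 3 13 2.56494934 2.56494937 (by norm_num) (by norm_num [sum_range_succ])
    (by norm_num [sum_range_succ])

theorem lgn_16 : 2.77258871 ≤ Real.log 16 ∧ Real.log 16 ≤ 2.77258874 :=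
  logq_enc 4 16 2.77258871 2.77258874 (by norm_num) (by norm_num [sum_range_succ])
    (by norm_num [sum_range_succ])

theorem lgn_17 : 2.83321333 ≤ Real.log 17 ∧ Real.log 17 ≤ 2.83321336 :=
  logq_enc 4 17 2.83321333 2.83321336 (by norm_num) (by norm_num [sum_range_succ])
    (by norm_num [sum_range_succ])

theorem lgn_19 : 2.94443896 ≤ Real.log 19 ∧ Real.log 19 ≤ 2.94443899 :=
  logq_enc 4 19 2.94443896 2.94443899 (by norm_num) (by norm_num [sum_range_succ])
    (by norm_num [sum_range_succ])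

theorem lgn_20 : 2.99573226 ≤ Real.log 20 ∧ Real.log 20 ≤ 2.99573229 :=
  logq_enc 4 20 2.99573226 2.99573229 (by norm_num) (by norm_num [sum_range_succ])
    (by norm_num [sum_range_succ])

theorem lgn_21 : 3.04452242 ≤ Real.log 21 ∧ Real.log 21 ≤ 3.04452245 :=
  logq_enc 4 21 3.04452242 3.04452245 (by norm_num) (by norm_num [sum_range_succ])
    (by norm_num [sum_range_succ])

theorem lgn_23 : 3.13549420 ≤ Real.log 23 ∧ Real.log 23 ≤ 3.13549423 :=
  logq_enc 4 23 3.13549420 3.13549423 (by norm_num) (by norm_num [sum_range_succ])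
    (by norm_num [sum_range_succ])

theorem lgn_27 : 3.29583685 ≤ Real.log 27 ∧ Real.log 27 ≤ 3.29583688 :=
  logq_enc 4 27 3.29583685 3.29583688 (by norm_num) (by norm_num [sum_range_succ])
    (by norm_num [sum_range_succ])

theorem lgn_29 : 3.36729581 ≤ Real.log 29 ∧ Real.log 29 ≤ 3.36729584 :=
  logq_enc 4 29 3.36729581 3.36729584 (by norm_num) (by norm_num [sum_range_succ])
    (by norm_num [sum_range_succ])

theorem lgn_31 : 3.43398719 ≤ Real.log 31 ∧ Real.log 31 ≤ 3.43398722 :=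
  logq_enc 4 31 3.43398719 3.43398722 (by norm_num) (by norm_num [sum_range_succ])
    (by norm_num [sum_range_succ])

theorem lgn_37 : 3.61091790 ≤ Real.log 37 ∧ Real.log 37 ≤ 3.61091793 :=
  logq_enc 5 37 3.61091790 3.61091793 (by norm_num) (by norm_num [sum_range_succ])
    (by norm_num [sum_range_succ])

theorem lgn_39 : 3.66356163 ≤ Real.log 39 ∧ Real.log 39 ≤ 3.66356166 :=
  logq_enc 5 39 3.66356163 3.66356166 (by norm_num) (by norm_num [sum_range_succ])
    (by norm_num [sum_range_succ])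

theorem lgn_40 : 3.68887944 ≤ Real.log 40 ∧ Real.log 40 ≤ 3.68887947 :=
  logq_enc 5 40 3.68887944 3.68887947 (by norm_num) (by norm_num [sum_range_succ])
    (by norm_num [sum_range_succ])

theorem lgn_41 : 3.71357205 ≤ Real.log 41 ∧ Real.log 41 ≤ 3.71357208 :=
  logq_enc 5 41 3.71357205 3.71357208 (by norm_num) (by norm_num [sum_range_succ])
    (by norm_num [sum_range_succ])

theorem lgn_43 : 3.76120010 ≤ Real.log 43 ∧ Real.log 43 ≤ 3.76120013 :=
  logq_enc 5 43 3.76120010 3.76120013 (by norm_num) (by norm_num [sum_range_succ])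
    (by norm_num [sum_range_succ])

theorem lgn_49 : 3.89182028 ≤ Real.log 49 ∧ Real.log 49 ≤ 3.89182031 :=
  logq_enc 5 49 3.89182028 3.89182031 (by norm_num) (by norm_num [sum_range_succ])
    (by norm_num [sum_range_succ])

theorem lgn_51 : 3.93182562 ≤ Real.log 51 ∧ Real.log 51 ≤ 3.93182565 :=
  logq_enc 5 51 3.93182562 3.93182565 (by norm_num) (by norm_num [sum_range_succ])
    (by norm_num [sum_range_succ])

theorem lgn_59 : 4.07753743 ≤ Real.log 59 ∧ Real.log 59 ≤ 4.07753746 :=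
  logq_enc 5 59 4.07753743 4.07753746 (by norm_num) (by norm_num [sum_range_succ])
    (by norm_num [sum_range_succ])

theorem lgn_80 : 4.38202662 ≤ Real.log 80 ∧ Real.log 80 ≤ 4.38202665 :=
  logq_enc 6 80 4.38202662 4.38202665 (by norm_num) (by norm_num [sum_range_succ])
    (by norm_num [sum_range_succ])

theorem lgn_139 : 4.93447392 ≤ Real.log 139 ∧ Real.log 139 ≤ 4.93447395 :=
  logq_enc 7 139 4.93447392 4.93447395 (by norm_num) (by norm_num [sum_range_succ])
    (by norm_num [sum_range_succ])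


/-- `g = 2 U - Q` -/
noncomputable def gC (x : ℝ) : ℝ :=
  8 * psi (x - 0) + (-4) * psi (x - 1 / 5) + (-2) * psi (x - 2 / 5) + (-2) * psi (x - 7 / 10) +
    (-1) * psi (x - (-1)) + 1 * psi (x - 1) + (-7 * x + (-1))

theorem six_aff {p q x a1 a2 a3 a4 a5 a6 a7 b1 b2 b3 b4 b5 b6 b7 s1 s2 s3 s4 s5 s6 s7 L L' : ℝ}
    (hpq : p < q) (h1 : p ≤ x) (h2 : x ≤ q)
    (t1 : s1 ≤ aff p q a1 b1 x) (t2 : s2 ≤ aff p q a2 b2 x) (t3 : s3 ≤ aff p q a3 b3 x)
    (t4 : s4 ≤ aff p q a4 b4 x) (t5 : s5 ≤ aff p q a5 b5 x) (t6 : s6 ≤ aff p q a6 b6 x)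
    (t7 : s7 = aff p q a7 b7 x)
    (hL : a1 + a2 + a3 + a4 + a5 + a6 + a7 ≤ L) (hL' : b1 + b2 + b3 + b4 + b5 + b6 + b7 ≤ L') :
    s1 + s2 + s3 + s4 + s5 + s6 + s7 ≤ aff p q L L' x := by
  have h := aff_mono p q _ _ L L' x hpq h1 h2 hL hL'
  have e : aff p q (a1 + a2 + a3 + a4 + a5 + a6 + a7) (b1 + b2 + b3 + b4 + b5 + b6 + b7) x =
      aff p q a1 b1 x + aff p q a2 b2 x + aff p q a3 b3 x + aff p q a4 b4 x + aff p q a5 b5 x +
        aff p q a6 b6 x + aff p q a7 b7 x := by unfold aff; ring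
  linarith

theorem cellA0 (x : ℝ) (h1 : 0 ≤ x) (h2 : x ≤ (1 / 40)) :
    gC x ≤ aff 0 (1 / 40) (-3519 / 1000) (-2199 / 500) x := by
  have t1 := term_chord_R (8) (0) 0 (1 / 40) x (by norm_num) (by norm_num) (by norm_num) h1 h2
  have t2 := term_chord_L (-4) (1 / 5) 0 (1 / 40) x (by norm_num) (by norm_num) (by norm_num) h1 h2
  have t3 := term_chord_L (-2) (2 / 5) 0 (1 / 40) x (by norm_num) (by norm_num) (by norm_num) h1 h2
  have t4 := term_chord_L (-2) (7 / 10) 0 (1 / 40) x (by norm_num) (by norm_num) (by norm_num) h1 h2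
  have t5 := term_tan_R (-1) ((-1)) 0 (1 / 40) 0 x (by norm_num) (by norm_num) (by norm_num) (by norm_num) h1
  have t6 := term_tan_L (1) (1) 0 (1 / 40) 0 x (by norm_num) (by norm_num) (by norm_num) (by norm_num) h2
  have t7 := aff_lin 0 (1 / 40) (-7) (-1) x (by norm_num)
  unfold gC
  refine six_aff (by norm_num) h1 h2 t1 t2 t3 t4 t5 t6 t7 ?_ ?_
  · have e1 : psi (0 - 0) = 0 := by rw [show (0 - 0 : ℝ) = 0 by norm_num, psi_zero]
    have e2 : psi (0 - 1 / 5) = (-1 / 5) * (Real.log (1 : ℕ) - Real.log (5 : ℕ)) := by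
      unfold psi
      rw [log_val' (0 - 1 / 5) 1 5 (by norm_num) (by norm_num) (by norm_num)]
      norm_num
    have e3 : psi (0 - 2 / 5) = (-2 / 5) * (Real.log (2 : ℕ) - Real.log (5 : ℕ)) := by
      unfold psi
      rw [log_val' (0 - 2 / 5) 2 5 (by norm_num) (by norm_num) (by norm_num)]
      norm_num
    have e4 : psi (0 - 7 / 10) = (-7 / 10) * (Real.log (7 : ℕ) - Real.log (10 : ℕ)) := by
      unfold psi
      rw [log_val' (0 - 7 / 10) 7 10 (by norm_num) (by norm_num) (by norm_num)]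
      norm_num
    have e5 : Real.log (0 - (-1)) = Real.log (1 : ℕ) - Real.log (1 : ℕ) :=
      log_val (0 - (-1)) 1 1 (by norm_num) (by norm_num) (by norm_num)
    have e6 : Real.log (0 - 1) = Real.log (1 : ℕ) - Real.log (1 : ℕ) :=
      log_val' (0 - 1) 1 1 (by norm_num) (by norm_num) (by norm_num)
    rw [e1, e2, e3, e4, e5, e6]
    have l2 := lgn_2
    have l5 := lgn_5
    have l7 := lgn_7
    have l10 := lgn_10
    simp only [Nat.cast_ofNat, Nat.cast_one, Real.log_one] at *
    linarith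
  · have e1 : psi ((1 / 40) - 0) = (1 / 40) * (Real.log (1 : ℕ) - Real.log (40 : ℕ)) := by
      unfold psi
      rw [log_val ((1 / 40) - 0) 1 40 (by norm_num) (by norm_num) (by norm_num)]
      norm_num
    have e2 : psi ((1 / 40) - 1 / 5) = (-7 / 40) * (Real.log (7 : ℕ) - Real.log (40 : ℕ)) := by
      unfold psi
      rw [log_val' ((1 / 40) - 1 / 5) 7 40 (by norm_num) (by norm_num) (by norm_num)]
      norm_num
    have e3 : psi ((1 / 40) - 2 / 5) = (-3 / 8) * (Real.log (3 : ℕ) - Real.log (8 : ℕ)) := by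
      unfold psi
      rw [log_val' ((1 / 40) - 2 / 5) 3 8 (by norm_num) (by norm_num) (by norm_num)]
      norm_num
    have e4 : psi ((1 / 40) - 7 / 10) = (-27 / 40) * (Real.log (27 : ℕ) - Real.log (40 : ℕ)) := by
      unfold psi
      rw [log_val' ((1 / 40) - 7 / 10) 27 40 (by norm_num) (by norm_num) (by norm_num)]
      norm_num
    have e5 : Real.log (0 - (-1)) = Real.log (1 : ℕ) - Real.log (1 : ℕ) :=
      log_val (0 - (-1)) 1 1 (by norm_num) (by norm_num) (by norm_num)
    have e6 : Real.log (0 - 1) = Real.log (1 : ℕ) - Real.log (1 : ℕ) :=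
      log_val' (0 - 1) 1 1 (by norm_num) (by norm_num) (by norm_num)
    rw [e1, e2, e3, e4, e5, e6]
    have l3 := lgn_3
    have l7 := lgn_7
    have l8 := lgn_8
    have l27 := lgn_27
    have l40 := lgn_40
    simp only [Nat.cast_ofNat, Nat.cast_one, Real.log_one] at *
    linarith

theorem cellA1 (x : ℝ) (h1 : (1 / 40) ≤ x) (h2 : x ≤ (1 / 20)) :
    gC x ≤ aff (1 / 40) (1 / 20) (-2199 / 500) (-2491 / 500) x := by
  have t1 := term_chord_R (8) (0) (1 / 40) (1 / 20) x (by norm_num) (by norm_num) (by norm_num) h1 h2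
  have t2 := term_chord_L (-4) (1 / 5) (1 / 40) (1 / 20) x (by norm_num) (by norm_num) (by norm_num) h1 h2
  have t3 := term_chord_L (-2) (2 / 5) (1 / 40) (1 / 20) x (by norm_num) (by norm_num) (by norm_num) h1 h2
  have t4 := term_chord_L (-2) (7 / 10) (1 / 40) (1 / 20) x (by norm_num) (by norm_num) (by norm_num) h1 h2
  have t5 := term_tan_R (-1) ((-1)) (1 / 40) (1 / 20) (1 / 40) x (by norm_num) (by norm_num) (by norm_num) (by norm_num) h1
  have t6 := term_tan_L (1) (1) (1 / 40) (1 / 20) (1 / 40) x (by norm_num) (by norm_num) (by norm_num) (by norm_num) h2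
  have t7 := aff_lin (1 / 40) (1 / 20) (-7) (-1) x (by norm_num)
  unfold gC
  refine six_aff (by norm_num) h1 h2 t1 t2 t3 t4 t5 t6 t7 ?_ ?_
  · have e1 : psi ((1 / 40) - 0) = (1 / 40) * (Real.log (1 : ℕ) - Real.log (40 : ℕ)) := by
      unfold psi
      rw [log_val ((1 / 40) - 0) 1 40 (by norm_num) (by norm_num) (by norm_num)]
      norm_num
    have e2 : psi ((1 / 40) - 1 / 5) = (-7 / 40) * (Real.log (7 : ℕ) - Real.log (40 : ℕ)) := by
      unfold psi
      rw [log_val' ((1 / 40) - 1 / 5) 7 40 (by norm_num) (by norm_num) (by norm_num)]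
      norm_num
    have e3 : psi ((1 / 40) - 2 / 5) = (-3 / 8) * (Real.log (3 : ℕ) - Real.log (8 : ℕ)) := by
      unfold psi
      rw [log_val' ((1 / 40) - 2 / 5) 3 8 (by norm_num) (by norm_num) (by norm_num)]
      norm_num
    have e4 : psi ((1 / 40) - 7 / 10) = (-27 / 40) * (Real.log (27 : ℕ) - Real.log (40 : ℕ)) := by
      unfold psi
      rw [log_val' ((1 / 40) - 7 / 10) 27 40 (by norm_num) (by norm_num) (by norm_num)]
      norm_num
    have e5 : Real.log ((1 / 40) - (-1)) = Real.log (41 : ℕ) - Real.log (40 : ℕ) :=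
      log_val ((1 / 40) - (-1)) 41 40 (by norm_num) (by norm_num) (by norm_num)
    have e6 : Real.log ((1 / 40) - 1) = Real.log (39 : ℕ) - Real.log (40 : ℕ) :=
      log_val' ((1 / 40) - 1) 39 40 (by norm_num) (by norm_num) (by norm_num)
    rw [e1, e2, e3, e4, e5, e6]
    have l3 := lgn_3
    have l7 := lgn_7
    have l8 := lgn_8
    have l27 := lgn_27
    have l39 := lgn_39
    have l40 := lgn_40
    have l41 := lgn_41
    simp only [Nat.cast_ofNat, Nat.cast_one, Real.log_one] at *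
    linarith
  · have e1 : psi ((1 / 20) - 0) = (1 / 20) * (Real.log (1 : ℕ) - Real.log (20 : ℕ)) := by
      unfold psi
      rw [log_val ((1 / 20) - 0) 1 20 (by norm_num) (by norm_num) (by norm_num)]
      norm_num
    have e2 : psi ((1 / 20) - 1 / 5) = (-3 / 20) * (Real.log (3 : ℕ) - Real.log (20 : ℕ)) := by
      unfold psi
      rw [log_val' ((1 / 20) - 1 / 5) 3 20 (by norm_num) (by norm_num) (by norm_num)]
      norm_num
    have e3 : psi ((1 / 20) - 2 / 5) = (-7 / 20) * (Real.log (7 : ℕ) - Real.log (20 : ℕ)) := by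
      unfold psi
      rw [log_val' ((1 / 20) - 2 / 5) 7 20 (by norm_num) (by norm_num) (by norm_num)]
      norm_num
    have e4 : psi ((1 / 20) - 7 / 10) = (-13 / 20) * (Real.log (13 : ℕ) - Real.log (20 : ℕ)) := by
      unfold psi
      rw [log_val' ((1 / 20) - 7 / 10) 13 20 (by norm_num) (by norm_num) (by norm_num)]
      norm_num
    have e5 : Real.log ((1 / 40) - (-1)) = Real.log (41 : ℕ) - Real.log (40 : ℕ) :=
      log_val ((1 / 40) - (-1)) 41 40 (by norm_num) (by norm_num) (by norm_num)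
    have e6 : Real.log ((1 / 40) - 1) = Real.log (39 : ℕ) - Real.log (40 : ℕ) :=
      log_val' ((1 / 40) - 1) 39 40 (by norm_num) (by norm_num) (by norm_num)
    rw [e1, e2, e3, e4, e5, e6]
    have l3 := lgn_3
    have l7 := lgn_7
    have l13 := lgn_13
    have l20 := lgn_20
    have l39 := lgn_39
    have l40 := lgn_40
    have l41 := lgn_41
    simp only [Nat.cast_ofNat, Nat.cast_one, Real.log_one] at *
    linarith

theorem cellA2 (x : ℝ) (h1 : (1 / 20) ≤ x) (h2 : x ≤ (3 / 40)) :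
    gC x ≤ aff (1 / 20) (3 / 40) (-2491 / 500) (-5441 / 1000) x := by
  have t1 := term_chord_R (8) (0) (1 / 20) (3 / 40) x (by norm_num) (by norm_num) (by norm_num) h1 h2
  have t2 := term_chord_L (-4) (1 / 5) (1 / 20) (3 / 40) x (by norm_num) (by norm_num) (by norm_num) h1 h2
  have t3 := term_chord_L (-2) (2 / 5) (1 / 20) (3 / 40) x (by norm_num) (by norm_num) (by norm_num) h1 h2
  have t4 := term_chord_L (-2) (7 / 10) (1 / 20) (3 / 40) x (by norm_num) (by norm_num) (by norm_num) h1 h2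
  have t5 := term_tan_R (-1) ((-1)) (1 / 20) (3 / 40) (1 / 20) x (by norm_num) (by norm_num) (by norm_num) (by norm_num) h1
  have t6 := term_tan_L (1) (1) (1 / 20) (3 / 40) (1 / 20) x (by norm_num) (by norm_num) (by norm_num) (by norm_num) h2
  have t7 := aff_lin (1 / 20) (3 / 40) (-7) (-1) x (by norm_num)
  unfold gC
  refine six_aff (by norm_num) h1 h2 t1 t2 t3 t4 t5 t6 t7 ?_ ?_
  · have e1 : psi ((1 / 20) - 0) = (1 / 20) * (Real.log (1 : ℕ) - Real.log (20 : ℕ)) := by
      unfold psi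
      rw [log_val ((1 / 20) - 0) 1 20 (by norm_num) (by norm_num) (by norm_num)]
      norm_num
    have e2 : psi ((1 / 20) - 1 / 5) = (-3 / 20) * (Real.log (3 : ℕ) - Real.log (20 : ℕ)) := by
      unfold psi
      rw [log_val' ((1 / 20) - 1 / 5) 3 20 (by norm_num) (by norm_num) (by norm_num)]
      norm_num
    have e3 : psi ((1 / 20) - 2 / 5) = (-7 / 20) * (Real.log (7 : ℕ) - Real.log (20 : ℕ)) := by
      unfold psi
      rw [log_val' ((1 / 20) - 2 / 5) 7 20 (by norm_num) (by norm_num) (by norm_num)]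
      norm_num
    have e4 : psi ((1 / 20) - 7 / 10) = (-13 / 20) * (Real.log (13 : ℕ) - Real.log (20 : ℕ)) := by
      unfold psi
      rw [log_val' ((1 / 20) - 7 / 10) 13 20 (by norm_num) (by norm_num) (by norm_num)]
      norm_num
    have e5 : Real.log ((1 / 20) - (-1)) = Real.log (21 : ℕ) - Real.log (20 : ℕ) :=
      log_val ((1 / 20) - (-1)) 21 20 (by norm_num) (by norm_num) (by norm_num)
    have e6 : Real.log ((1 / 20) - 1) = Real.log (19 : ℕ) - Real.log (20 : ℕ) :=
      log_val' ((1 / 20) - 1) 19 20 (by norm_num) (by norm_num) (by norm_num)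
    rw [e1, e2, e3, e4, e5, e6]
    have l3 := lgn_3
    have l7 := lgn_7
    have l13 := lgn_13
    have l19 := lgn_19
    have l20 := lgn_20
    have l21 := lgn_21
    simp only [Nat.cast_ofNat, Nat.cast_one, Real.log_one] at *
    linarith
  · have e1 : psi ((3 / 40) - 0) = (3 / 40) * (Real.log (3 : ℕ) - Real.log (40 : ℕ)) := by
      unfold psi
      rw [log_val ((3 / 40) - 0) 3 40 (by norm_num) (by norm_num) (by norm_num)]
      norm_num
    have e2 : psi ((3 / 40) - 1 / 5) = (-1 / 8) * (Real.log (1 : ℕ) - Real.log (8 : ℕ)) := by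
      unfold psi
      rw [log_val' ((3 / 40) - 1 / 5) 1 8 (by norm_num) (by norm_num) (by norm_num)]
      norm_num
    have e3 : psi ((3 / 40) - 2 / 5) = (-13 / 40) * (Real.log (13 : ℕ) - Real.log (40 : ℕ)) := by
      unfold psi
      rw [log_val' ((3 / 40) - 2 / 5) 13 40 (by norm_num) (by norm_num) (by norm_num)]
      norm_num
    have e4 : psi ((3 / 40) - 7 / 10) = (-5 / 8) * (Real.log (5 : ℕ) - Real.log (8 : ℕ)) := by
      unfold psi
      rw [log_val' ((3 / 40) - 7 / 10) 5 8 (by norm_num) (by norm_num) (by norm_num)]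
      norm_num
    have e5 : Real.log ((1 / 20) - (-1)) = Real.log (21 : ℕ) - Real.log (20 : ℕ) :=
      log_val ((1 / 20) - (-1)) 21 20 (by norm_num) (by norm_num) (by norm_num)
    have e6 : Real.log ((1 / 20) - 1) = Real.log (19 : ℕ) - Real.log (20 : ℕ) :=
      log_val' ((1 / 20) - 1) 19 20 (by norm_num) (by norm_num) (by norm_num)
    rw [e1, e2, e3, e4, e5, e6]
    have l3 := lgn_3
    have l5 := lgn_5
    have l8 := lgn_8
    have l13 := lgn_13
    have l19 := lgn_19
    have l20 := lgn_20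
    have l21 := lgn_21
    have l40 := lgn_40
    simp only [Nat.cast_ofNat, Nat.cast_one, Real.log_one] at *
    linarith

theorem cellA3 (x : ℝ) (h1 : (3 / 40) ≤ x) (h2 : x ≤ (1 / 10)) :
    gC x ≤ aff (3 / 40) (1 / 10) (-5441 / 1000) (-5807 / 1000) x := by
  have t1 := term_chord_R (8) (0) (3 / 40) (1 / 10) x (by norm_num) (by norm_num) (by norm_num) h1 h2
  have t2 := term_chord_L (-4) (1 / 5) (3 / 40) (1 / 10) x (by norm_num) (by norm_num) (by norm_num) h1 h2
  have t3 := term_chord_L (-2) (2 / 5) (3 / 40) (1 / 10) x (by norm_num) (by norm_num) (by norm_num) h1 h2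
  have t4 := term_chord_L (-2) (7 / 10) (3 / 40) (1 / 10) x (by norm_num) (by norm_num) (by norm_num) h1 h2
  have t5 := term_tan_R (-1) ((-1)) (3 / 40) (1 / 10) (3 / 40) x (by norm_num) (by norm_num) (by norm_num) (by norm_num) h1
  have t6 := term_tan_L (1) (1) (3 / 40) (1 / 10) (3 / 40) x (by norm_num) (by norm_num) (by norm_num) (by norm_num) h2
  have t7 := aff_lin (3 / 40) (1 / 10) (-7) (-1) x (by norm_num)
  unfold gC
  refine six_aff (by norm_num) h1 h2 t1 t2 t3 t4 t5 t6 t7 ?_ ?_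
  · have e1 : psi ((3 / 40) - 0) = (3 / 40) * (Real.log (3 : ℕ) - Real.log (40 : ℕ)) := by
      unfold psi
      rw [log_val ((3 / 40) - 0) 3 40 (by norm_num) (by norm_num) (by norm_num)]
      norm_num
    have e2 : psi ((3 / 40) - 1 / 5) = (-1 / 8) * (Real.log (1 : ℕ) - Real.log (8 : ℕ)) := by
      unfold psi
      rw [log_val' ((3 / 40) - 1 / 5) 1 8 (by norm_num) (by norm_num) (by norm_num)]
      norm_num
    have e3 : psi ((3 / 40) - 2 / 5) = (-13 / 40) * (Real.log (13 : ℕ) - Real.log (40 : ℕ)) := by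
      unfold psi
      rw [log_val' ((3 / 40) - 2 / 5) 13 40 (by norm_num) (by norm_num) (by norm_num)]
      norm_num
    have e4 : psi ((3 / 40) - 7 / 10) = (-5 / 8) * (Real.log (5 : ℕ) - Real.log (8 : ℕ)) := by
      unfold psi
      rw [log_val' ((3 / 40) - 7 / 10) 5 8 (by norm_num) (by norm_num) (by norm_num)]
      norm_num
    have e5 : Real.log ((3 / 40) - (-1)) = Real.log (43 : ℕ) - Real.log (40 : ℕ) :=
      log_val ((3 / 40) - (-1)) 43 40 (by norm_num) (by norm_num) (by norm_num)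
    have e6 : Real.log ((3 / 40) - 1) = Real.log (37 : ℕ) - Real.log (40 : ℕ) :=
      log_val' ((3 / 40) - 1) 37 40 (by norm_num) (by norm_num) (by norm_num)
    rw [e1, e2, e3, e4, e5, e6]
    have l3 := lgn_3
    have l5 := lgn_5
    have l8 := lgn_8
    have l13 := lgn_13
    have l37 := lgn_37
    have l40 := lgn_40
    have l43 := lgn_43
    simp only [Nat.cast_ofNat, Nat.cast_one, Real.log_one] at *
    linarith
  · have e1 : psi ((1 / 10) - 0) = (1 / 10) * (Real.log (1 : ℕ) - Real.log (10 : ℕ)) := by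
      unfold psi
      rw [log_val ((1 / 10) - 0) 1 10 (by norm_num) (by norm_num) (by norm_num)]
      norm_num
    have e2 : psi ((1 / 10) - 1 / 5) = (-1 / 10) * (Real.log (1 : ℕ) - Real.log (10 : ℕ)) := by
      unfold psi
      rw [log_val' ((1 / 10) - 1 / 5) 1 10 (by norm_num) (by norm_num) (by norm_num)]
      norm_num
    have e3 : psi ((1 / 10) - 2 / 5) = (-3 / 10) * (Real.log (3 : ℕ) - Real.log (10 : ℕ)) := by
      unfold psi
      rw [log_val' ((1 / 10) - 2 / 5) 3 10 (by norm_num) (by norm_num) (by norm_num)]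
      norm_num
    have e4 : psi ((1 / 10) - 7 / 10) = (-3 / 5) * (Real.log (3 : ℕ) - Real.log (5 : ℕ)) := by
      unfold psi
      rw [log_val' ((1 / 10) - 7 / 10) 3 5 (by norm_num) (by norm_num) (by norm_num)]
      norm_num
    have e5 : Real.log ((3 / 40) - (-1)) = Real.log (43 : ℕ) - Real.log (40 : ℕ) :=
      log_val ((3 / 40) - (-1)) 43 40 (by norm_num) (by norm_num) (by norm_num)
    have e6 : Real.log ((3 / 40) - 1) = Real.log (37 : ℕ) - Real.log (40 : ℕ) :=
      log_val' ((3 / 40) - 1) 37 40 (by norm_num) (by norm_num) (by norm_num)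
    rw [e1, e2, e3, e4, e5, e6]
    have l3 := lgn_3
    have l5 := lgn_5
    have l10 := lgn_10
    have l37 := lgn_37
    have l40 := lgn_40
    have l43 := lgn_43
    simp only [Nat.cast_ofNat, Nat.cast_one, Real.log_one] at *
    linarith

theorem cellA4 (x : ℝ) (h1 : (1 / 10) ≤ x) (h2 : x ≤ (1 / 8)) :
    gC x ≤ aff (1 / 10) (1 / 8) (-5807 / 1000) (-1523 / 250) x := by
  have t1 := term_chord_R (8) (0) (1 / 10) (1 / 8) x (by norm_num) (by norm_num) (by norm_num) h1 h2
  have t2 := term_chord_L (-4) (1 / 5) (1 / 10) (1 / 8) x (by norm_num) (by norm_num) (by norm_num) h1 h2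
  have t3 := term_chord_L (-2) (2 / 5) (1 / 10) (1 / 8) x (by norm_num) (by norm_num) (by norm_num) h1 h2
  have t4 := term_chord_L (-2) (7 / 10) (1 / 10) (1 / 8) x (by norm_num) (by norm_num) (by norm_num) h1 h2
  have t5 := term_tan_R (-1) ((-1)) (1 / 10) (1 / 8) (1 / 10) x (by norm_num) (by norm_num) (by norm_num) (by norm_num) h1
  have t6 := term_tan_L (1) (1) (1 / 10) (1 / 8) (1 / 10) x (by norm_num) (by norm_num) (by norm_num) (by norm_num) h2
  have t7 := aff_lin (1 / 10) (1 / 8) (-7) (-1) x (by norm_num)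
  unfold gC
  refine six_aff (by norm_num) h1 h2 t1 t2 t3 t4 t5 t6 t7 ?_ ?_
  · have e1 : psi ((1 / 10) - 0) = (1 / 10) * (Real.log (1 : ℕ) - Real.log (10 : ℕ)) := by
      unfold psi
      rw [log_val ((1 / 10) - 0) 1 10 (by norm_num) (by norm_num) (by norm_num)]
      norm_num
    have e2 : psi ((1 / 10) - 1 / 5) = (-1 / 10) * (Real.log (1 : ℕ) - Real.log (10 : ℕ)) := by
      unfold psi
      rw [log_val' ((1 / 10) - 1 / 5) 1 10 (by norm_num) (by norm_num) (by norm_num)]
      norm_num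
    have e3 : psi ((1 / 10) - 2 / 5) = (-3 / 10) * (Real.log (3 : ℕ) - Real.log (10 : ℕ)) := by
      unfold psi
      rw [log_val' ((1 / 10) - 2 / 5) 3 10 (by norm_num) (by norm_num) (by norm_num)]
      norm_num
    have e4 : psi ((1 / 10) - 7 / 10) = (-3 / 5) * (Real.log (3 : ℕ) - Real.log (5 : ℕ)) := by
      unfold psi
      rw [log_val' ((1 / 10) - 7 / 10) 3 5 (by norm_num) (by norm_num) (by norm_num)]
      norm_num
    have e5 : Real.log ((1 / 10) - (-1)) = Real.log (11 : ℕ) - Real.log (10 : ℕ) :=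
      log_val ((1 / 10) - (-1)) 11 10 (by norm_num) (by norm_num) (by norm_num)
    have e6 : Real.log ((1 / 10) - 1) = Real.log (9 : ℕ) - Real.log (10 : ℕ) :=
      log_val' ((1 / 10) - 1) 9 10 (by norm_num) (by norm_num) (by norm_num)
    rw [e1, e2, e3, e4, e5, e6]
    have l3 := lgn_3
    have l5 := lgn_5
    have l9 := lgn_9
    have l10 := lgn_10
    have l11 := lgn_11
    simp only [Nat.cast_ofNat, Nat.cast_one, Real.log_one] at *
    linarith
  · have e1 : psi ((1 / 8) - 0) = (1 / 8) * (Real.log (1 : ℕ) - Real.log (8 : ℕ)) := by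
      unfold psi
      rw [log_val ((1 / 8) - 0) 1 8 (by norm_num) (by norm_num) (by norm_num)]
      norm_num
    have e2 : psi ((1 / 8) - 1 / 5) = (-3 / 40) * (Real.log (3 : ℕ) - Real.log (40 : ℕ)) := by
      unfold psi
      rw [log_val' ((1 / 8) - 1 / 5) 3 40 (by norm_num) (by norm_num) (by norm_num)]
      norm_num
    have e3 : psi ((1 / 8) - 2 / 5) = (-11 / 40) * (Real.log (11 : ℕ) - Real.log (40 : ℕ)) := by
      unfold psi
      rw [log_val' ((1 / 8) - 2 / 5) 11 40 (by norm_num) (by norm_num) (by norm_num)]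
      norm_num
    have e4 : psi ((1 / 8) - 7 / 10) = (-23 / 40) * (Real.log (23 : ℕ) - Real.log (40 : ℕ)) := by
      unfold psi
      rw [log_val' ((1 / 8) - 7 / 10) 23 40 (by norm_num) (by norm_num) (by norm_num)]
      norm_num
    have e5 : Real.log ((1 / 10) - (-1)) = Real.log (11 : ℕ) - Real.log (10 : ℕ) :=
      log_val ((1 / 10) - (-1)) 11 10 (by norm_num) (by norm_num) (by norm_num)
    have e6 : Real.log ((1 / 10) - 1) = Real.log (9 : ℕ) - Real.log (10 : ℕ) :=
      log_val' ((1 / 10) - 1) 9 10 (by norm_num) (by norm_num) (by norm_num)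
    rw [e1, e2, e3, e4, e5, e6]
    have l3 := lgn_3
    have l8 := lgn_8
    have l9 := lgn_9
    have l10 := lgn_10
    have l11 := lgn_11
    have l23 := lgn_23
    have l40 := lgn_40
    simp only [Nat.cast_ofNat, Nat.cast_one, Real.log_one] at *
    linarith

theorem cellA5 (x : ℝ) (h1 : (1 / 8) ≤ x) (h2 : x ≤ (3 / 20)) :
    gC x ≤ aff (1 / 8) (3 / 20) (-1523 / 250) (-311 / 50) x := by
  have t1 := term_chord_R (8) (0) (1 / 8) (3 / 20) x (by norm_num) (by norm_num) (by norm_num) h1 h2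
  have t2 := term_chord_L (-4) (1 / 5) (1 / 8) (3 / 20) x (by norm_num) (by norm_num) (by norm_num) h1 h2
  have t3 := term_chord_L (-2) (2 / 5) (1 / 8) (3 / 20) x (by norm_num) (by norm_num) (by norm_num) h1 h2
  have t4 := term_chord_L (-2) (7 / 10) (1 / 8) (3 / 20) x (by norm_num) (by norm_num) (by norm_num) h1 h2
  have t5 := term_tan_R (-1) ((-1)) (1 / 8) (3 / 20) (1 / 8) x (by norm_num) (by norm_num) (by norm_num) (by norm_num) h1
  have t6 := term_tan_L (1) (1) (1 / 8) (3 / 20) (1 / 8) x (by norm_num) (by norm_num) (by norm_num) (by norm_num) h2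
  have t7 := aff_lin (1 / 8) (3 / 20) (-7) (-1) x (by norm_num)
  unfold gC
  refine six_aff (by norm_num) h1 h2 t1 t2 t3 t4 t5 t6 t7 ?_ ?_
  · have e1 : psi ((1 / 8) - 0) = (1 / 8) * (Real.log (1 : ℕ) - Real.log (8 : ℕ)) := by
      unfold psi
      rw [log_val ((1 / 8) - 0) 1 8 (by norm_num) (by norm_num) (by norm_num)]
      norm_num
    have e2 : psi ((1 / 8) - 1 / 5) = (-3 / 40) * (Real.log (3 : ℕ) - Real.log (40 : ℕ)) := by
      unfold psi
      rw [log_val' ((1 / 8) - 1 / 5) 3 40 (by norm_num) (by norm_num) (by norm_num)]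
      norm_num
    have e3 : psi ((1 / 8) - 2 / 5) = (-11 / 40) * (Real.log (11 : ℕ) - Real.log (40 : ℕ)) := by
      unfold psi
      rw [log_val' ((1 / 8) - 2 / 5) 11 40 (by norm_num) (by norm_num) (by norm_num)]
      norm_num
    have e4 : psi ((1 / 8) - 7 / 10) = (-23 / 40) * (Real.log (23 : ℕ) - Real.log (40 : ℕ)) := by
      unfold psi
      rw [log_val' ((1 / 8) - 7 / 10) 23 40 (by norm_num) (by norm_num) (by norm_num)]
      norm_num
    have e5 : Real.log ((1 / 8) - (-1)) = Real.log (9 : ℕ) - Real.log (8 : ℕ) :=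
      log_val ((1 / 8) - (-1)) 9 8 (by norm_num) (by norm_num) (by norm_num)
    have e6 : Real.log ((1 / 8) - 1) = Real.log (7 : ℕ) - Real.log (8 : ℕ) :=
      log_val' ((1 / 8) - 1) 7 8 (by norm_num) (by norm_num) (by norm_num)
    rw [e1, e2, e3, e4, e5, e6]
    have l3 := lgn_3
    have l7 := lgn_7
    have l8 := lgn_8
    have l9 := lgn_9
    have l11 := lgn_11
    have l23 := lgn_23
    have l40 := lgn_40
    simp only [Nat.cast_ofNat, Nat.cast_one, Real.log_one] at *
    linarith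
  · have e1 : psi ((3 / 20) - 0) = (3 / 20) * (Real.log (3 : ℕ) - Real.log (20 : ℕ)) := by
      unfold psi
      rw [log_val ((3 / 20) - 0) 3 20 (by norm_num) (by norm_num) (by norm_num)]
      norm_num
    have e2 : psi ((3 / 20) - 1 / 5) = (-1 / 20) * (Real.log (1 : ℕ) - Real.log (20 : ℕ)) := by
      unfold psi
      rw [log_val' ((3 / 20) - 1 / 5) 1 20 (by norm_num) (by norm_num) (by norm_num)]
      norm_num
    have e3 : psi ((3 / 20) - 2 / 5) = (-1 / 4) * (Real.log (1 : ℕ) - Real.log (4 : ℕ)) := by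
      unfold psi
      rw [log_val' ((3 / 20) - 2 / 5) 1 4 (by norm_num) (by norm_num) (by norm_num)]
      norm_num
    have e4 : psi ((3 / 20) - 7 / 10) = (-11 / 20) * (Real.log (11 : ℕ) - Real.log (20 : ℕ)) := by
      unfold psi
      rw [log_val' ((3 / 20) - 7 / 10) 11 20 (by norm_num) (by norm_num) (by norm_num)]
      norm_num
    have e5 : Real.log ((1 / 8) - (-1)) = Real.log (9 : ℕ) - Real.log (8 : ℕ) :=
      log_val ((1 / 8) - (-1)) 9 8 (by norm_num) (by norm_num) (by norm_num)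
    have e6 : Real.log ((1 / 8) - 1) = Real.log (7 : ℕ) - Real.log (8 : ℕ) :=
      log_val' ((1 / 8) - 1) 7 8 (by norm_num) (by norm_num) (by norm_num)
    rw [e1, e2, e3, e4, e5, e6]
    have l3 := lgn_3
    have l4 := lgn_4
    have l7 := lgn_7
    have l8 := lgn_8
    have l9 := lgn_9
    have l11 := lgn_11
    have l20 := lgn_20
    simp only [Nat.cast_ofNat, Nat.cast_one, Real.log_one] at *
    linarith

theorem cellB0 (x : ℝ) (h1 : (3 / 20) ≤ x) (h2 : x ≤ (1 / 5)) :
    gC x ≤ aff (3 / 20) (1 / 5) (-311 / 50) (-311 / 50) x := by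
  have t1 := term_chord_R (8) (0) (3 / 20) (1 / 5) x (by norm_num) (by norm_num) (by norm_num) h1 h2
  have t2 := term_chord_L (-4) (1 / 5) (3 / 20) (1 / 5) x (by norm_num) (by norm_num) (by norm_num) h1 h2
  have t3 := term_chord_L (-2) (2 / 5) (3 / 20) (1 / 5) x (by norm_num) (by norm_num) (by norm_num) h1 h2
  have t4 := term_chord_L (-2) (7 / 10) (3 / 20) (1 / 5) x (by norm_num) (by norm_num) (by norm_num) h1 h2
  have t5 := term_tan_R (-1) ((-1)) (3 / 20) (1 / 5) (3 / 20) x (by norm_num) (by norm_num) (by norm_num) (by norm_num) h1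
  have t6 := term_tan_L (1) (1) (3 / 20) (1 / 5) (3 / 20) x (by norm_num) (by norm_num) (by norm_num) (by norm_num) h2
  have t7 := aff_lin (3 / 20) (1 / 5) (-7) (-1) x (by norm_num)
  unfold gC
  refine six_aff (by norm_num) h1 h2 t1 t2 t3 t4 t5 t6 t7 ?_ ?_
  · have e1 : psi ((3 / 20) - 0) = (3 / 20) * (Real.log (3 : ℕ) - Real.log (20 : ℕ)) := by
      unfold psi
      rw [log_val ((3 / 20) - 0) 3 20 (by norm_num) (by norm_num) (by norm_num)]
      norm_num
    have e2 : psi ((3 / 20) - 1 / 5) = (-1 / 20) * (Real.log (1 : ℕ) - Real.log (20 : ℕ)) := by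
      unfold psi
      rw [log_val' ((3 / 20) - 1 / 5) 1 20 (by norm_num) (by norm_num) (by norm_num)]
      norm_num
    have e3 : psi ((3 / 20) - 2 / 5) = (-1 / 4) * (Real.log (1 : ℕ) - Real.log (4 : ℕ)) := by
      unfold psi
      rw [log_val' ((3 / 20) - 2 / 5) 1 4 (by norm_num) (by norm_num) (by norm_num)]
      norm_num
    have e4 : psi ((3 / 20) - 7 / 10) = (-11 / 20) * (Real.log (11 : ℕ) - Real.log (20 : ℕ)) := by
      unfold psi
      rw [log_val' ((3 / 20) - 7 / 10) 11 20 (by norm_num) (by norm_num) (by norm_num)]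
      norm_num
    have e5 : Real.log ((3 / 20) - (-1)) = Real.log (23 : ℕ) - Real.log (20 : ℕ) :=
      log_val ((3 / 20) - (-1)) 23 20 (by norm_num) (by norm_num) (by norm_num)
    have e6 : Real.log ((3 / 20) - 1) = Real.log (17 : ℕ) - Real.log (20 : ℕ) :=
      log_val' ((3 / 20) - 1) 17 20 (by norm_num) (by norm_num) (by norm_num)
    rw [e1, e2, e3, e4, e5, e6]
    have l3 := lgn_3
    have l4 := lgn_4
    have l11 := lgn_11
    have l17 := lgn_17
    have l20 := lgn_20
    have l23 := lgn_23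
    simp only [Nat.cast_ofNat, Nat.cast_one, Real.log_one] at *
    linarith
  · have e1 : psi ((1 / 5) - 0) = (1 / 5) * (Real.log (1 : ℕ) - Real.log (5 : ℕ)) := by
      unfold psi
      rw [log_val ((1 / 5) - 0) 1 5 (by norm_num) (by norm_num) (by norm_num)]
      norm_num
    have e2 : psi ((1 / 5) - 1 / 5) = 0 := by rw [show ((1 / 5) - 1 / 5 : ℝ) = 0 by norm_num, psi_zero]
    have e3 : psi ((1 / 5) - 2 / 5) = (-1 / 5) * (Real.log (1 : ℕ) - Real.log (5 : ℕ)) := by
      unfold psi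
      rw [log_val' ((1 / 5) - 2 / 5) 1 5 (by norm_num) (by norm_num) (by norm_num)]
      norm_num
    have e4 : psi ((1 / 5) - 7 / 10) = (-1 / 2) * (Real.log (1 : ℕ) - Real.log (2 : ℕ)) := by
      unfold psi
      rw [log_val' ((1 / 5) - 7 / 10) 1 2 (by norm_num) (by norm_num) (by norm_num)]
      norm_num
    have e5 : Real.log ((3 / 20) - (-1)) = Real.log (23 : ℕ) - Real.log (20 : ℕ) :=
      log_val ((3 / 20) - (-1)) 23 20 (by norm_num) (by norm_num) (by norm_num)
    have e6 : Real.log ((3 / 20) - 1) = Real.log (17 : ℕ) - Real.log (20 : ℕ) :=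
      log_val' ((3 / 20) - 1) 17 20 (by norm_num) (by norm_num) (by norm_num)
    rw [e1, e2, e3, e4, e5, e6]
    have l2 := lgn_2
    have l5 := lgn_5
    have l17 := lgn_17
    have l20 := lgn_20
    have l23 := lgn_23
    simp only [Nat.cast_ofNat, Nat.cast_one, Real.log_one] at *
    linarith

theorem cellB1 (x : ℝ) (h1 : (1 / 5) ≤ x) (h2 : x ≤ (1 / 4)) :
    gC x ≤ aff (1 / 5) (1 / 4) (-311 / 50) (-311 / 50) x := by
  have t1 := term_chord_R (8) (0) (1 / 5) (1 / 4) x (by norm_num) (by norm_num) (by norm_num) h1 h2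
  have t2 := term_tan_R (-4) (1 / 5) (1 / 5) (1 / 4) (9 / 40) x (by norm_num) (by norm_num) (by norm_num) (by norm_num) h1
  have t3 := term_chord_L (-2) (2 / 5) (1 / 5) (1 / 4) x (by norm_num) (by norm_num) (by norm_num) h1 h2
  have t4 := term_chord_L (-2) (7 / 10) (1 / 5) (1 / 4) x (by norm_num) (by norm_num) (by norm_num) h1 h2
  have t5 := term_tan_R (-1) ((-1)) (1 / 5) (1 / 4) (9 / 40) x (by norm_num) (by norm_num) (by norm_num) (by norm_num) h1
  have t6 := term_tan_L (1) (1) (1 / 5) (1 / 4) (9 / 40) x (by norm_num) (by norm_num) (by norm_num) (by norm_num) h2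
  have t7 := aff_lin (1 / 5) (1 / 4) (-7) (-1) x (by norm_num)
  unfold gC
  refine six_aff (by norm_num) h1 h2 t1 t2 t3 t4 t5 t6 t7 ?_ ?_
  · have e1 : psi ((1 / 5) - 0) = (1 / 5) * (Real.log (1 : ℕ) - Real.log (5 : ℕ)) := by
      unfold psi
      rw [log_val ((1 / 5) - 0) 1 5 (by norm_num) (by norm_num) (by norm_num)]
      norm_num
    have e2 : Real.log ((9 / 40) - 1 / 5) = Real.log (1 : ℕ) - Real.log (40 : ℕ) :=
      log_val ((9 / 40) - 1 / 5) 1 40 (by norm_num) (by norm_num) (by norm_num)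
    have e3 : psi ((1 / 5) - 2 / 5) = (-1 / 5) * (Real.log (1 : ℕ) - Real.log (5 : ℕ)) := by
      unfold psi
      rw [log_val' ((1 / 5) - 2 / 5) 1 5 (by norm_num) (by norm_num) (by norm_num)]
      norm_num
    have e4 : psi ((1 / 5) - 7 / 10) = (-1 / 2) * (Real.log (1 : ℕ) - Real.log (2 : ℕ)) := by
      unfold psi
      rw [log_val' ((1 / 5) - 7 / 10) 1 2 (by norm_num) (by norm_num) (by norm_num)]
      norm_num
    have e5 : Real.log ((9 / 40) - (-1)) = Real.log (49 : ℕ) - Real.log (40 : ℕ) :=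
      log_val ((9 / 40) - (-1)) 49 40 (by norm_num) (by norm_num) (by norm_num)
    have e6 : Real.log ((9 / 40) - 1) = Real.log (31 : ℕ) - Real.log (40 : ℕ) :=
      log_val' ((9 / 40) - 1) 31 40 (by norm_num) (by norm_num) (by norm_num)
    rw [e1, e2, e3, e4, e5, e6]
    have l2 := lgn_2
    have l5 := lgn_5
    have l31 := lgn_31
    have l40 := lgn_40
    have l49 := lgn_49
    simp only [Nat.cast_ofNat, Nat.cast_one, Real.log_one] at *
    linarith
  · have e1 : psi ((1 / 4) - 0) = (1 / 4) * (Real.log (1 : ℕ) - Real.log (4 : ℕ)) := by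
      unfold psi
      rw [log_val ((1 / 4) - 0) 1 4 (by norm_num) (by norm_num) (by norm_num)]
      norm_num
    have e2 : Real.log ((9 / 40) - 1 / 5) = Real.log (1 : ℕ) - Real.log (40 : ℕ) :=
      log_val ((9 / 40) - 1 / 5) 1 40 (by norm_num) (by norm_num) (by norm_num)
    have e3 : psi ((1 / 4) - 2 / 5) = (-3 / 20) * (Real.log (3 : ℕ) - Real.log (20 : ℕ)) := by
      unfold psi
      rw [log_val' ((1 / 4) - 2 / 5) 3 20 (by norm_num) (by norm_num) (by norm_num)]
      norm_num
    have e4 : psi ((1 / 4) - 7 / 10) = (-9 / 20) * (Real.log (9 : ℕ) - Real.log (20 : ℕ)) := by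
      unfold psi
      rw [log_val' ((1 / 4) - 7 / 10) 9 20 (by norm_num) (by norm_num) (by norm_num)]
      norm_num
    have e5 : Real.log ((9 / 40) - (-1)) = Real.log (49 : ℕ) - Real.log (40 : ℕ) :=
      log_val ((9 / 40) - (-1)) 49 40 (by norm_num) (by norm_num) (by norm_num)
    have e6 : Real.log ((9 / 40) - 1) = Real.log (31 : ℕ) - Real.log (40 : ℕ) :=
      log_val' ((9 / 40) - 1) 31 40 (by norm_num) (by norm_num) (by norm_num)
    rw [e1, e2, e3, e4, e5, e6]
    have l3 := lgn_3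
    have l4 := lgn_4
    have l9 := lgn_9
    have l20 := lgn_20
    have l31 := lgn_31
    have l40 := lgn_40
    have l49 := lgn_49
    simp only [Nat.cast_ofNat, Nat.cast_one, Real.log_one] at *
    linarith

theorem cellB2 (x : ℝ) (h1 : (1 / 4) ≤ x) (h2 : x ≤ (7 / 20)) :
    gC x ≤ aff (1 / 4) (7 / 20) (-311 / 50) (-311 / 50) x := by
  have t1 := term_chord_R (8) (0) (1 / 4) (7 / 20) x (by norm_num) (by norm_num) (by norm_num) h1 h2
  have t2 := term_tan_R (-4) (1 / 5) (1 / 4) (7 / 20) (11 / 40) x (by norm_num) (by norm_num) (by norm_num) (by norm_num) h1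
  have t3 := term_chord_L (-2) (2 / 5) (1 / 4) (7 / 20) x (by norm_num) (by norm_num) (by norm_num) h1 h2
  have t4 := term_chord_L (-2) (7 / 10) (1 / 4) (7 / 20) x (by norm_num) (by norm_num) (by norm_num) h1 h2
  have t5 := term_tan_R (-1) ((-1)) (1 / 4) (7 / 20) (11 / 40) x (by norm_num) (by norm_num) (by norm_num) (by norm_num) h1
  have t6 := term_tan_L (1) (1) (1 / 4) (7 / 20) (11 / 40) x (by norm_num) (by norm_num) (by norm_num) (by norm_num) h2
  have t7 := aff_lin (1 / 4) (7 / 20) (-7) (-1) x (by norm_num)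
  unfold gC
  refine six_aff (by norm_num) h1 h2 t1 t2 t3 t4 t5 t6 t7 ?_ ?_
  · have e1 : psi ((1 / 4) - 0) = (1 / 4) * (Real.log (1 : ℕ) - Real.log (4 : ℕ)) := by
      unfold psi
      rw [log_val ((1 / 4) - 0) 1 4 (by norm_num) (by norm_num) (by norm_num)]
      norm_num
    have e2 : Real.log ((11 / 40) - 1 / 5) = Real.log (3 : ℕ) - Real.log (40 : ℕ) :=
      log_val ((11 / 40) - 1 / 5) 3 40 (by norm_num) (by norm_num) (by norm_num)
    have e3 : psi ((1 / 4) - 2 / 5) = (-3 / 20) * (Real.log (3 : ℕ) - Real.log (20 : ℕ)) := by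
      unfold psi
      rw [log_val' ((1 / 4) - 2 / 5) 3 20 (by norm_num) (by norm_num) (by norm_num)]
      norm_num
    have e4 : psi ((1 / 4) - 7 / 10) = (-9 / 20) * (Real.log (9 : ℕ) - Real.log (20 : ℕ)) := by
      unfold psi
      rw [log_val' ((1 / 4) - 7 / 10) 9 20 (by norm_num) (by norm_num) (by norm_num)]
      norm_num
    have e5 : Real.log ((11 / 40) - (-1)) = Real.log (51 : ℕ) - Real.log (40 : ℕ) :=
      log_val ((11 / 40) - (-1)) 51 40 (by norm_num) (by norm_num) (by norm_num)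
    have e6 : Real.log ((11 / 40) - 1) = Real.log (29 : ℕ) - Real.log (40 : ℕ) :=
      log_val' ((11 / 40) - 1) 29 40 (by norm_num) (by norm_num) (by norm_num)
    rw [e1, e2, e3, e4, e5, e6]
    have l3 := lgn_3
    have l4 := lgn_4
    have l9 := lgn_9
    have l20 := lgn_20
    have l29 := lgn_29
    have l40 := lgn_40
    have l51 := lgn_51
    simp only [Nat.cast_ofNat, Nat.cast_one, Real.log_one] at *
    linarith
  · have e1 : psi ((7 / 20) - 0) = (7 / 20) * (Real.log (7 : ℕ) - Real.log (20 : ℕ)) := by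
      unfold psi
      rw [log_val ((7 / 20) - 0) 7 20 (by norm_num) (by norm_num) (by norm_num)]
      norm_num
    have e2 : Real.log ((11 / 40) - 1 / 5) = Real.log (3 : ℕ) - Real.log (40 : ℕ) :=
      log_val ((11 / 40) - 1 / 5) 3 40 (by norm_num) (by norm_num) (by norm_num)
    have e3 : psi ((7 / 20) - 2 / 5) = (-1 / 20) * (Real.log (1 : ℕ) - Real.log (20 : ℕ)) := by
      unfold psi
      rw [log_val' ((7 / 20) - 2 / 5) 1 20 (by norm_num) (by norm_num) (by norm_num)]
      norm_num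
    have e4 : psi ((7 / 20) - 7 / 10) = (-7 / 20) * (Real.log (7 : ℕ) - Real.log (20 : ℕ)) := by
      unfold psi
      rw [log_val' ((7 / 20) - 7 / 10) 7 20 (by norm_num) (by norm_num) (by norm_num)]
      norm_num
    have e5 : Real.log ((11 / 40) - (-1)) = Real.log (51 : ℕ) - Real.log (40 : ℕ) :=
      log_val ((11 / 40) - (-1)) 51 40 (by norm_num) (by norm_num) (by norm_num)
    have e6 : Real.log ((11 / 40) - 1) = Real.log (29 : ℕ) - Real.log (40 : ℕ) :=
      log_val' ((11 / 40) - 1) 29 40 (by norm_num) (by norm_num) (by norm_num)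
    rw [e1, e2, e3, e4, e5, e6]
    have l3 := lgn_3
    have l7 := lgn_7
    have l20 := lgn_20
    have l29 := lgn_29
    have l40 := lgn_40
    have l51 := lgn_51
    simp only [Nat.cast_ofNat, Nat.cast_one, Real.log_one] at *
    linarith

theorem cellB3 (x : ℝ) (h1 : (7 / 20) ≤ x) (h2 : x ≤ (2 / 5)) :
    gC x ≤ aff (7 / 20) (2 / 5) (-311 / 50) (-311 / 50) x := by
  have t1 := term_chord_R (8) (0) (7 / 20) (2 / 5) x (by norm_num) (by norm_num) (by norm_num) h1 h2
  have t2 := term_tan_R (-4) (1 / 5) (7 / 20) (2 / 5) (2 / 5) x (by norm_num) (by norm_num) (by norm_num) (by norm_num) h1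
  have t3 := term_chord_L (-2) (2 / 5) (7 / 20) (2 / 5) x (by norm_num) (by norm_num) (by norm_num) h1 h2
  have t4 := term_chord_L (-2) (7 / 10) (7 / 20) (2 / 5) x (by norm_num) (by norm_num) (by norm_num) h1 h2
  have t5 := term_tan_R (-1) ((-1)) (7 / 20) (2 / 5) (2 / 5) x (by norm_num) (by norm_num) (by norm_num) (by norm_num) h1
  have t6 := term_tan_L (1) (1) (7 / 20) (2 / 5) (2 / 5) x (by norm_num) (by norm_num) (by norm_num) (by norm_num) h2
  have t7 := aff_lin (7 / 20) (2 / 5) (-7) (-1) x (by norm_num)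
  unfold gC
  refine six_aff (by norm_num) h1 h2 t1 t2 t3 t4 t5 t6 t7 ?_ ?_
  · have e1 : psi ((7 / 20) - 0) = (7 / 20) * (Real.log (7 : ℕ) - Real.log (20 : ℕ)) := by
      unfold psi
      rw [log_val ((7 / 20) - 0) 7 20 (by norm_num) (by norm_num) (by norm_num)]
      norm_num
    have e2 : Real.log ((2 / 5) - 1 / 5) = Real.log (1 : ℕ) - Real.log (5 : ℕ) :=
      log_val ((2 / 5) - 1 / 5) 1 5 (by norm_num) (by norm_num) (by norm_num)
    have e3 : psi ((7 / 20) - 2 / 5) = (-1 / 20) * (Real.log (1 : ℕ) - Real.log (20 : ℕ)) := by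
      unfold psi
      rw [log_val' ((7 / 20) - 2 / 5) 1 20 (by norm_num) (by norm_num) (by norm_num)]
      norm_num
    have e4 : psi ((7 / 20) - 7 / 10) = (-7 / 20) * (Real.log (7 : ℕ) - Real.log (20 : ℕ)) := by
      unfold psi
      rw [log_val' ((7 / 20) - 7 / 10) 7 20 (by norm_num) (by norm_num) (by norm_num)]
      norm_num
    have e5 : Real.log ((2 / 5) - (-1)) = Real.log (7 : ℕ) - Real.log (5 : ℕ) :=
      log_val ((2 / 5) - (-1)) 7 5 (by norm_num) (by norm_num) (by norm_num)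
    have e6 : Real.log ((2 / 5) - 1) = Real.log (3 : ℕ) - Real.log (5 : ℕ) :=
      log_val' ((2 / 5) - 1) 3 5 (by norm_num) (by norm_num) (by norm_num)
    rw [e1, e2, e3, e4, e5, e6]
    have l3 := lgn_3
    have l5 := lgn_5
    have l7 := lgn_7
    have l20 := lgn_20
    simp only [Nat.cast_ofNat, Nat.cast_one, Real.log_one] at *
    linarith
  · have e1 : psi ((2 / 5) - 0) = (2 / 5) * (Real.log (2 : ℕ) - Real.log (5 : ℕ)) := by
      unfold psi
      rw [log_val ((2 / 5) - 0) 2 5 (by norm_num) (by norm_num) (by norm_num)]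
      norm_num
    have e2 : Real.log ((2 / 5) - 1 / 5) = Real.log (1 : ℕ) - Real.log (5 : ℕ) :=
      log_val ((2 / 5) - 1 / 5) 1 5 (by norm_num) (by norm_num) (by norm_num)
    have e3 : psi ((2 / 5) - 2 / 5) = 0 := by rw [show ((2 / 5) - 2 / 5 : ℝ) = 0 by norm_num, psi_zero]
    have e4 : psi ((2 / 5) - 7 / 10) = (-3 / 10) * (Real.log (3 : ℕ) - Real.log (10 : ℕ)) := by
      unfold psi
      rw [log_val' ((2 / 5) - 7 / 10) 3 10 (by norm_num) (by norm_num) (by norm_num)]
      norm_num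
    have e5 : Real.log ((2 / 5) - (-1)) = Real.log (7 : ℕ) - Real.log (5 : ℕ) :=
      log_val ((2 / 5) - (-1)) 7 5 (by norm_num) (by norm_num) (by norm_num)
    have e6 : Real.log ((2 / 5) - 1) = Real.log (3 : ℕ) - Real.log (5 : ℕ) :=
      log_val' ((2 / 5) - 1) 3 5 (by norm_num) (by norm_num) (by norm_num)
    rw [e1, e2, e3, e4, e5, e6]
    have l2 := lgn_2
    have l3 := lgn_3
    have l5 := lgn_5
    have l7 := lgn_7
    have l10 := lgn_10
    simp only [Nat.cast_ofNat, Nat.cast_one, Real.log_one] at *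
    linarith

theorem cellB4 (x : ℝ) (h1 : (2 / 5) ≤ x) (h2 : x ≤ (9 / 20)) :
    gC x ≤ aff (2 / 5) (9 / 20) (-311 / 50) (-311 / 50) x := by
  have t1 := term_chord_R (8) (0) (2 / 5) (9 / 20) x (by norm_num) (by norm_num) (by norm_num) h1 h2
  have t2 := term_tan_R (-4) (1 / 5) (2 / 5) (9 / 20) (7 / 16) x (by norm_num) (by norm_num) (by norm_num) (by norm_num) h1
  have t3 := term_tan_R (-2) (2 / 5) (2 / 5) (9 / 20) (7 / 16) x (by norm_num) (by norm_num) (by norm_num) (by norm_num) h1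
  have t4 := term_chord_L (-2) (7 / 10) (2 / 5) (9 / 20) x (by norm_num) (by norm_num) (by norm_num) h1 h2
  have t5 := term_tan_R (-1) ((-1)) (2 / 5) (9 / 20) (7 / 16) x (by norm_num) (by norm_num) (by norm_num) (by norm_num) h1
  have t6 := term_tan_L (1) (1) (2 / 5) (9 / 20) (7 / 16) x (by norm_num) (by norm_num) (by norm_num) (by norm_num) h2
  have t7 := aff_lin (2 / 5) (9 / 20) (-7) (-1) x (by norm_num)
  unfold gC
  refine six_aff (by norm_num) h1 h2 t1 t2 t3 t4 t5 t6 t7 ?_ ?_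
  · have e1 : psi ((2 / 5) - 0) = (2 / 5) * (Real.log (2 : ℕ) - Real.log (5 : ℕ)) := by
      unfold psi
      rw [log_val ((2 / 5) - 0) 2 5 (by norm_num) (by norm_num) (by norm_num)]
      norm_num
    have e2 : Real.log ((7 / 16) - 1 / 5) = Real.log (19 : ℕ) - Real.log (80 : ℕ) :=
      log_val ((7 / 16) - 1 / 5) 19 80 (by norm_num) (by norm_num) (by norm_num)
    have e3 : Real.log ((7 / 16) - 2 / 5) = Real.log (3 : ℕ) - Real.log (80 : ℕ) :=
      log_val ((7 / 16) - 2 / 5) 3 80 (by norm_num) (by norm_num) (by norm_num)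
    have e4 : psi ((2 / 5) - 7 / 10) = (-3 / 10) * (Real.log (3 : ℕ) - Real.log (10 : ℕ)) := by
      unfold psi
      rw [log_val' ((2 / 5) - 7 / 10) 3 10 (by norm_num) (by norm_num) (by norm_num)]
      norm_num
    have e5 : Real.log ((7 / 16) - (-1)) = Real.log (23 : ℕ) - Real.log (16 : ℕ) :=
      log_val ((7 / 16) - (-1)) 23 16 (by norm_num) (by norm_num) (by norm_num)
    have e6 : Real.log ((7 / 16) - 1) = Real.log (9 : ℕ) - Real.log (16 : ℕ) :=
      log_val' ((7 / 16) - 1) 9 16 (by norm_num) (by norm_num) (by norm_num)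
    rw [e1, e2, e3, e4, e5, e6]
    have l2 := lgn_2
    have l3 := lgn_3
    have l5 := lgn_5
    have l9 := lgn_9
    have l10 := lgn_10
    have l16 := lgn_16
    have l19 := lgn_19
    have l23 := lgn_23
    have l80 := lgn_80
    simp only [Nat.cast_ofNat, Nat.cast_one, Real.log_one] at *
    linarith
  · have e1 : psi ((9 / 20) - 0) = (9 / 20) * (Real.log (9 : ℕ) - Real.log (20 : ℕ)) := by
      unfold psi
      rw [log_val ((9 / 20) - 0) 9 20 (by norm_num) (by norm_num) (by norm_num)]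
      norm_num
    have e2 : Real.log ((7 / 16) - 1 / 5) = Real.log (19 : ℕ) - Real.log (80 : ℕ) :=
      log_val ((7 / 16) - 1 / 5) 19 80 (by norm_num) (by norm_num) (by norm_num)
    have e3 : Real.log ((7 / 16) - 2 / 5) = Real.log (3 : ℕ) - Real.log (80 : ℕ) :=
      log_val ((7 / 16) - 2 / 5) 3 80 (by norm_num) (by norm_num) (by norm_num)
    have e4 : psi ((9 / 20) - 7 / 10) = (-1 / 4) * (Real.log (1 : ℕ) - Real.log (4 : ℕ)) := by
      unfold psi
      rw [log_val' ((9 / 20) - 7 / 10) 1 4 (by norm_num) (by norm_num) (by norm_num)]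
      norm_num
    have e5 : Real.log ((7 / 16) - (-1)) = Real.log (23 : ℕ) - Real.log (16 : ℕ) :=
      log_val ((7 / 16) - (-1)) 23 16 (by norm_num) (by norm_num) (by norm_num)
    have e6 : Real.log ((7 / 16) - 1) = Real.log (9 : ℕ) - Real.log (16 : ℕ) :=
      log_val' ((7 / 16) - 1) 9 16 (by norm_num) (by norm_num) (by norm_num)
    rw [e1, e2, e3, e4, e5, e6]
    have l3 := lgn_3
    have l4 := lgn_4
    have l9 := lgn_9
    have l16 := lgn_16
    have l19 := lgn_19
    have l20 := lgn_20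
    have l23 := lgn_23
    have l80 := lgn_80
    simp only [Nat.cast_ofNat, Nat.cast_one, Real.log_one] at *
    linarith

theorem cellB5 (x : ℝ) (h1 : (9 / 20) ≤ x) (h2 : x ≤ (11 / 20)) :
    gC x ≤ aff (9 / 20) (11 / 20) (-311 / 50) (-311 / 50) x := by
  have t1 := term_chord_R (8) (0) (9 / 20) (11 / 20) x (by norm_num) (by norm_num) (by norm_num) h1 h2
  have t2 := term_tan_R (-4) (1 / 5) (9 / 20) (11 / 20) (19 / 40) x (by norm_num) (by norm_num) (by norm_num) (by norm_num) h1
  have t3 := term_tan_R (-2) (2 / 5) (9 / 20) (11 / 20) (19 / 40) x (by norm_num) (by norm_num) (by norm_num) (by norm_num) h1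
  have t4 := term_chord_L (-2) (7 / 10) (9 / 20) (11 / 20) x (by norm_num) (by norm_num) (by norm_num) h1 h2
  have t5 := term_tan_R (-1) ((-1)) (9 / 20) (11 / 20) (19 / 40) x (by norm_num) (by norm_num) (by norm_num) (by norm_num) h1
  have t6 := term_tan_L (1) (1) (9 / 20) (11 / 20) (19 / 40) x (by norm_num) (by norm_num) (by norm_num) (by norm_num) h2
  have t7 := aff_lin (9 / 20) (11 / 20) (-7) (-1) x (by norm_num)
  unfold gC
  refine six_aff (by norm_num) h1 h2 t1 t2 t3 t4 t5 t6 t7 ?_ ?_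
  · have e1 : psi ((9 / 20) - 0) = (9 / 20) * (Real.log (9 : ℕ) - Real.log (20 : ℕ)) := by
      unfold psi
      rw [log_val ((9 / 20) - 0) 9 20 (by norm_num) (by norm_num) (by norm_num)]
      norm_num
    have e2 : Real.log ((19 / 40) - 1 / 5) = Real.log (11 : ℕ) - Real.log (40 : ℕ) :=
      log_val ((19 / 40) - 1 / 5) 11 40 (by norm_num) (by norm_num) (by norm_num)
    have e3 : Real.log ((19 / 40) - 2 / 5) = Real.log (3 : ℕ) - Real.log (40 : ℕ) :=
      log_val ((19 / 40) - 2 / 5) 3 40 (by norm_num) (by norm_num) (by norm_num)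
    have e4 : psi ((9 / 20) - 7 / 10) = (-1 / 4) * (Real.log (1 : ℕ) - Real.log (4 : ℕ)) := by
      unfold psi
      rw [log_val' ((9 / 20) - 7 / 10) 1 4 (by norm_num) (by norm_num) (by norm_num)]
      norm_num
    have e5 : Real.log ((19 / 40) - (-1)) = Real.log (59 : ℕ) - Real.log (40 : ℕ) :=
      log_val ((19 / 40) - (-1)) 59 40 (by norm_num) (by norm_num) (by norm_num)
    have e6 : Real.log ((19 / 40) - 1) = Real.log (21 : ℕ) - Real.log (40 : ℕ) :=
      log_val' ((19 / 40) - 1) 21 40 (by norm_num) (by norm_num) (by norm_num)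
    rw [e1, e2, e3, e4, e5, e6]
    have l3 := lgn_3
    have l4 := lgn_4
    have l9 := lgn_9
    have l11 := lgn_11
    have l20 := lgn_20
    have l21 := lgn_21
    have l40 := lgn_40
    have l59 := lgn_59
    simp only [Nat.cast_ofNat, Nat.cast_one, Real.log_one] at *
    linarith
  · have e1 : psi ((11 / 20) - 0) = (11 / 20) * (Real.log (11 : ℕ) - Real.log (20 : ℕ)) := by
      unfold psi
      rw [log_val ((11 / 20) - 0) 11 20 (by norm_num) (by norm_num) (by norm_num)]
      norm_num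
    have e2 : Real.log ((19 / 40) - 1 / 5) = Real.log (11 : ℕ) - Real.log (40 : ℕ) :=
      log_val ((19 / 40) - 1 / 5) 11 40 (by norm_num) (by norm_num) (by norm_num)
    have e3 : Real.log ((19 / 40) - 2 / 5) = Real.log (3 : ℕ) - Real.log (40 : ℕ) :=
      log_val ((19 / 40) - 2 / 5) 3 40 (by norm_num) (by norm_num) (by norm_num)
    have e4 : psi ((11 / 20) - 7 / 10) = (-3 / 20) * (Real.log (3 : ℕ) - Real.log (20 : ℕ)) := by
      unfold psi
      rw [log_val' ((11 / 20) - 7 / 10) 3 20 (by norm_num) (by norm_num) (by norm_num)]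
      norm_num
    have e5 : Real.log ((19 / 40) - (-1)) = Real.log (59 : ℕ) - Real.log (40 : ℕ) :=
      log_val ((19 / 40) - (-1)) 59 40 (by norm_num) (by norm_num) (by norm_num)
    have e6 : Real.log ((19 / 40) - 1) = Real.log (21 : ℕ) - Real.log (40 : ℕ) :=
      log_val' ((19 / 40) - 1) 21 40 (by norm_num) (by norm_num) (by norm_num)
    rw [e1, e2, e3, e4, e5, e6]
    have l3 := lgn_3
    have l11 := lgn_11
    have l20 := lgn_20
    have l21 := lgn_21
    have l40 := lgn_40
    have l59 := lgn_59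
    simp only [Nat.cast_ofNat, Nat.cast_one, Real.log_one] at *
    linarith

theorem cellB6 (x : ℝ) (h1 : (11 / 20) ≤ x) (h2 : x ≤ (7 / 10)) :
    gC x ≤ aff (11 / 20) (7 / 10) (-311 / 50) (-311 / 50) x := by
  have t1 := term_chord_R (8) (0) (11 / 20) (7 / 10) x (by norm_num) (by norm_num) (by norm_num) h1 h2
  have t2 := term_tan_R (-4) (1 / 5) (11 / 20) (7 / 10) (5 / 8) x (by norm_num) (by norm_num) (by norm_num) (by norm_num) h1
  have t3 := term_tan_R (-2) (2 / 5) (11 / 20) (7 / 10) (5 / 8) x (by norm_num) (by norm_num) (by norm_num) (by norm_num) h1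
  have t4 := term_chord_L (-2) (7 / 10) (11 / 20) (7 / 10) x (by norm_num) (by norm_num) (by norm_num) h1 h2
  have t5 := term_tan_R (-1) ((-1)) (11 / 20) (7 / 10) (5 / 8) x (by norm_num) (by norm_num) (by norm_num) (by norm_num) h1
  have t6 := term_tan_L (1) (1) (11 / 20) (7 / 10) (5 / 8) x (by norm_num) (by norm_num) (by norm_num) (by norm_num) h2
  have t7 := aff_lin (11 / 20) (7 / 10) (-7) (-1) x (by norm_num)
  unfold gC
  refine six_aff (by norm_num) h1 h2 t1 t2 t3 t4 t5 t6 t7 ?_ ?_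
  · have e1 : psi ((11 / 20) - 0) = (11 / 20) * (Real.log (11 : ℕ) - Real.log (20 : ℕ)) := by
      unfold psi
      rw [log_val ((11 / 20) - 0) 11 20 (by norm_num) (by norm_num) (by norm_num)]
      norm_num
    have e2 : Real.log ((5 / 8) - 1 / 5) = Real.log (17 : ℕ) - Real.log (40 : ℕ) :=
      log_val ((5 / 8) - 1 / 5) 17 40 (by norm_num) (by norm_num) (by norm_num)
    have e3 : Real.log ((5 / 8) - 2 / 5) = Real.log (9 : ℕ) - Real.log (40 : ℕ) :=
      log_val ((5 / 8) - 2 / 5) 9 40 (by norm_num) (by norm_num) (by norm_num)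
    have e4 : psi ((11 / 20) - 7 / 10) = (-3 / 20) * (Real.log (3 : ℕ) - Real.log (20 : ℕ)) := by
      unfold psi
      rw [log_val' ((11 / 20) - 7 / 10) 3 20 (by norm_num) (by norm_num) (by norm_num)]
      norm_num
    have e5 : Real.log ((5 / 8) - (-1)) = Real.log (13 : ℕ) - Real.log (8 : ℕ) :=
      log_val ((5 / 8) - (-1)) 13 8 (by norm_num) (by norm_num) (by norm_num)
    have e6 : Real.log ((5 / 8) - 1) = Real.log (3 : ℕ) - Real.log (8 : ℕ) :=
      log_val' ((5 / 8) - 1) 3 8 (by norm_num) (by norm_num) (by norm_num)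
    rw [e1, e2, e3, e4, e5, e6]
    have l3 := lgn_3
    have l8 := lgn_8
    have l9 := lgn_9
    have l11 := lgn_11
    have l13 := lgn_13
    have l17 := lgn_17
    have l20 := lgn_20
    have l40 := lgn_40
    simp only [Nat.cast_ofNat, Nat.cast_one, Real.log_one] at *
    linarith
  · have e1 : psi ((7 / 10) - 0) = (7 / 10) * (Real.log (7 : ℕ) - Real.log (10 : ℕ)) := by
      unfold psi
      rw [log_val ((7 / 10) - 0) 7 10 (by norm_num) (by norm_num) (by norm_num)]
      norm_num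
    have e2 : Real.log ((5 / 8) - 1 / 5) = Real.log (17 : ℕ) - Real.log (40 : ℕ) :=
      log_val ((5 / 8) - 1 / 5) 17 40 (by norm_num) (by norm_num) (by norm_num)
    have e3 : Real.log ((5 / 8) - 2 / 5) = Real.log (9 : ℕ) - Real.log (40 : ℕ) :=
      log_val ((5 / 8) - 2 / 5) 9 40 (by norm_num) (by norm_num) (by norm_num)
    have e4 : psi ((7 / 10) - 7 / 10) = 0 := by rw [show ((7 / 10) - 7 / 10 : ℝ) = 0 by norm_num, psi_zero]
    have e5 : Real.log ((5 / 8) - (-1)) = Real.log (13 : ℕ) - Real.log (8 : ℕ) :=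
      log_val ((5 / 8) - (-1)) 13 8 (by norm_num) (by norm_num) (by norm_num)
    have e6 : Real.log ((5 / 8) - 1) = Real.log (3 : ℕ) - Real.log (8 : ℕ) :=
      log_val' ((5 / 8) - 1) 3 8 (by norm_num) (by norm_num) (by norm_num)
    rw [e1, e2, e3, e4, e5, e6]
    have l3 := lgn_3
    have l7 := lgn_7
    have l8 := lgn_8
    have l9 := lgn_9
    have l10 := lgn_10
    have l13 := lgn_13
    have l17 := lgn_17
    have l40 := lgn_40
    simp only [Nat.cast_ofNat, Nat.cast_one, Real.log_one] at *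
    linarith

theorem cellB7 (x : ℝ) (h1 : (7 / 10) ≤ x) (h2 : x ≤ (4 / 5)) :
    gC x ≤ aff (7 / 10) (4 / 5) (-311 / 50) (-311 / 50) x := by
  have t1 := term_chord_R (8) (0) (7 / 10) (4 / 5) x (by norm_num) (by norm_num) (by norm_num) h1 h2
  have t2 := term_tan_R (-4) (1 / 5) (7 / 10) (4 / 5) (59 / 80) x (by norm_num) (by norm_num) (by norm_num) (by norm_num) h1
  have t3 := term_tan_R (-2) (2 / 5) (7 / 10) (4 / 5) (59 / 80) x (by norm_num) (by norm_num) (by norm_num) (by norm_num) h1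
  have t4 := term_tan_R (-2) (7 / 10) (7 / 10) (4 / 5) (59 / 80) x (by norm_num) (by norm_num) (by norm_num) (by norm_num) h1
  have t5 := term_tan_R (-1) ((-1)) (7 / 10) (4 / 5) (59 / 80) x (by norm_num) (by norm_num) (by norm_num) (by norm_num) h1
  have t6 := term_tan_L (1) (1) (7 / 10) (4 / 5) (59 / 80) x (by norm_num) (by norm_num) (by norm_num) (by norm_num) h2
  have t7 := aff_lin (7 / 10) (4 / 5) (-7) (-1) x (by norm_num)
  unfold gC
  refine six_aff (by norm_num) h1 h2 t1 t2 t3 t4 t5 t6 t7 ?_ ?_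
  · have e1 : psi ((7 / 10) - 0) = (7 / 10) * (Real.log (7 : ℕ) - Real.log (10 : ℕ)) := by
      unfold psi
      rw [log_val ((7 / 10) - 0) 7 10 (by norm_num) (by norm_num) (by norm_num)]
      norm_num
    have e2 : Real.log ((59 / 80) - 1 / 5) = Real.log (43 : ℕ) - Real.log (80 : ℕ) :=
      log_val ((59 / 80) - 1 / 5) 43 80 (by norm_num) (by norm_num) (by norm_num)
    have e3 : Real.log ((59 / 80) - 2 / 5) = Real.log (27 : ℕ) - Real.log (80 : ℕ) :=
      log_val ((59 / 80) - 2 / 5) 27 80 (by norm_num) (by norm_num) (by norm_num)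
    have e4 : Real.log ((59 / 80) - 7 / 10) = Real.log (3 : ℕ) - Real.log (80 : ℕ) :=
      log_val ((59 / 80) - 7 / 10) 3 80 (by norm_num) (by norm_num) (by norm_num)
    have e5 : Real.log ((59 / 80) - (-1)) = Real.log (139 : ℕ) - Real.log (80 : ℕ) :=
      log_val ((59 / 80) - (-1)) 139 80 (by norm_num) (by norm_num) (by norm_num)
    have e6 : Real.log ((59 / 80) - 1) = Real.log (21 : ℕ) - Real.log (80 : ℕ) :=
      log_val' ((59 / 80) - 1) 21 80 (by norm_num) (by norm_num) (by norm_num)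
    rw [e1, e2, e3, e4, e5, e6]
    have l3 := lgn_3
    have l7 := lgn_7
    have l10 := lgn_10
    have l21 := lgn_21
    have l27 := lgn_27
    have l43 := lgn_43
    have l80 := lgn_80
    have l139 := lgn_139
    simp only [Nat.cast_ofNat, Nat.cast_one, Real.log_one] at *
    linarith
  · have e1 : psi ((4 / 5) - 0) = (4 / 5) * (Real.log (4 : ℕ) - Real.log (5 : ℕ)) := by
      unfold psi
      rw [log_val ((4 / 5) - 0) 4 5 (by norm_num) (by norm_num) (by norm_num)]
      norm_num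
    have e2 : Real.log ((59 / 80) - 1 / 5) = Real.log (43 : ℕ) - Real.log (80 : ℕ) :=
      log_val ((59 / 80) - 1 / 5) 43 80 (by norm_num) (by norm_num) (by norm_num)
    have e3 : Real.log ((59 / 80) - 2 / 5) = Real.log (27 : ℕ) - Real.log (80 : ℕ) :=
      log_val ((59 / 80) - 2 / 5) 27 80 (by norm_num) (by norm_num) (by norm_num)
    have e4 : Real.log ((59 / 80) - 7 / 10) = Real.log (3 : ℕ) - Real.log (80 : ℕ) :=
      log_val ((59 / 80) - 7 / 10) 3 80 (by norm_num) (by norm_num) (by norm_num)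
    have e5 : Real.log ((59 / 80) - (-1)) = Real.log (139 : ℕ) - Real.log (80 : ℕ) :=
      log_val ((59 / 80) - (-1)) 139 80 (by norm_num) (by norm_num) (by norm_num)
    have e6 : Real.log ((59 / 80) - 1) = Real.log (21 : ℕ) - Real.log (80 : ℕ) :=
      log_val' ((59 / 80) - 1) 21 80 (by norm_num) (by norm_num) (by norm_num)
    rw [e1, e2, e3, e4, e5, e6]
    have l3 := lgn_3
    have l4 := lgn_4
    have l5 := lgn_5
    have l21 := lgn_21
    have l27 := lgn_27
    have l43 := lgn_43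
    have l80 := lgn_80
    have l139 := lgn_139
    simp only [Nat.cast_ofNat, Nat.cast_one, Real.log_one] at *
    linarith

theorem cellB8 (x : ℝ) (h1 : (4 / 5) ≤ x) (h2 : x ≤ 1) :
    gC x ≤ aff (4 / 5) 1 (-311 / 50) (-311 / 50) x := by
  have t1 := term_chord_R (8) (0) (4 / 5) 1 x (by norm_num) (by norm_num) (by norm_num) h1 h2
  have t2 := term_tan_R (-4) (1 / 5) (4 / 5) 1 (4 / 5) x (by norm_num) (by norm_num) (by norm_num) (by norm_num) h1
  have t3 := term_tan_R (-2) (2 / 5) (4 / 5) 1 (4 / 5) x (by norm_num) (by norm_num) (by norm_num) (by norm_num) h1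
  have t4 := term_tan_R (-2) (7 / 10) (4 / 5) 1 (4 / 5) x (by norm_num) (by norm_num) (by norm_num) (by norm_num) h1
  have t5 := term_tan_R (-1) ((-1)) (4 / 5) 1 (4 / 5) x (by norm_num) (by norm_num) (by norm_num) (by norm_num) h1
  have t6 := term_tan_L (1) (1) (4 / 5) 1 (4 / 5) x (by norm_num) (by norm_num) (by norm_num) (by norm_num) h2
  have t7 := aff_lin (4 / 5) 1 (-7) (-1) x (by norm_num)
  unfold gC
  refine six_aff (by norm_num) h1 h2 t1 t2 t3 t4 t5 t6 t7 ?_ ?_
  · have e1 : psi ((4 / 5) - 0) = (4 / 5) * (Real.log (4 : ℕ) - Real.log (5 : ℕ)) := by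
      unfold psi
      rw [log_val ((4 / 5) - 0) 4 5 (by norm_num) (by norm_num) (by norm_num)]
      norm_num
    have e2 : Real.log ((4 / 5) - 1 / 5) = Real.log (3 : ℕ) - Real.log (5 : ℕ) :=
      log_val ((4 / 5) - 1 / 5) 3 5 (by norm_num) (by norm_num) (by norm_num)
    have e3 : Real.log ((4 / 5) - 2 / 5) = Real.log (2 : ℕ) - Real.log (5 : ℕ) :=
      log_val ((4 / 5) - 2 / 5) 2 5 (by norm_num) (by norm_num) (by norm_num)
    have e4 : Real.log ((4 / 5) - 7 / 10) = Real.log (1 : ℕ) - Real.log (10 : ℕ) :=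
      log_val ((4 / 5) - 7 / 10) 1 10 (by norm_num) (by norm_num) (by norm_num)
    have e5 : Real.log ((4 / 5) - (-1)) = Real.log (9 : ℕ) - Real.log (5 : ℕ) :=
      log_val ((4 / 5) - (-1)) 9 5 (by norm_num) (by norm_num) (by norm_num)
    have e6 : Real.log ((4 / 5) - 1) = Real.log (1 : ℕ) - Real.log (5 : ℕ) :=
      log_val' ((4 / 5) - 1) 1 5 (by norm_num) (by norm_num) (by norm_num)
    rw [e1, e2, e3, e4, e5, e6]
    have l2 := lgn_2
    have l3 := lgn_3
    have l4 := lgn_4
    have l5 := lgn_5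
    have l9 := lgn_9
    have l10 := lgn_10
    simp only [Nat.cast_ofNat, Nat.cast_one, Real.log_one] at *
    linarith
  · have e1 : psi (1 - 0) = 1 * (Real.log (1 : ℕ) - Real.log (1 : ℕ)) := by
      unfold psi
      rw [log_val (1 - 0) 1 1 (by norm_num) (by norm_num) (by norm_num)]
      norm_num
    have e2 : Real.log ((4 / 5) - 1 / 5) = Real.log (3 : ℕ) - Real.log (5 : ℕ) :=
      log_val ((4 / 5) - 1 / 5) 3 5 (by norm_num) (by norm_num) (by norm_num)
    have e3 : Real.log ((4 / 5) - 2 / 5) = Real.log (2 : ℕ) - Real.log (5 : ℕ) :=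
      log_val ((4 / 5) - 2 / 5) 2 5 (by norm_num) (by norm_num) (by norm_num)
    have e4 : Real.log ((4 / 5) - 7 / 10) = Real.log (1 : ℕ) - Real.log (10 : ℕ) :=
      log_val ((4 / 5) - 7 / 10) 1 10 (by norm_num) (by norm_num) (by norm_num)
    have e5 : Real.log ((4 / 5) - (-1)) = Real.log (9 : ℕ) - Real.log (5 : ℕ) :=
      log_val ((4 / 5) - (-1)) 9 5 (by norm_num) (by norm_num) (by norm_num)
    have e6 : Real.log ((4 / 5) - 1) = Real.log (1 : ℕ) - Real.log (5 : ℕ) :=
      log_val' ((4 / 5) - 1) 1 5 (by norm_num) (by norm_num) (by norm_num)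
    rw [e1, e2, e3, e4, e5, e6]
    have l2 := lgn_2
    have l3 := lgn_3
    have l5 := lgn_5
    have l9 := lgn_9
    have l10 := lgn_10
    simp only [Nat.cast_ofNat, Nat.cast_one, Real.log_one] at *
    linarith

theorem cellB9 (x : ℝ) (h1 : 1 ≤ x) (h2 : x ≤ (11 / 10)) :
    gC x ≤ aff 1 (11 / 10) (-311 / 50) (-311 / 50) x := by
  have t1 := term_chord_R (8) (0) 1 (11 / 10) x (by norm_num) (by norm_num) (by norm_num) h1 h2
  have t2 := term_tan_R (-4) (1 / 5) 1 (11 / 10) 1 x (by norm_num) (by norm_num) (by norm_num) (by norm_num) h1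
  have t3 := term_tan_R (-2) (2 / 5) 1 (11 / 10) 1 x (by norm_num) (by norm_num) (by norm_num) (by norm_num) h1
  have t4 := term_tan_R (-2) (7 / 10) 1 (11 / 10) 1 x (by norm_num) (by norm_num) (by norm_num) (by norm_num) h1
  have t5 := term_tan_R (-1) ((-1)) 1 (11 / 10) 1 x (by norm_num) (by norm_num) (by norm_num) (by norm_num) h1
  have t6 := term_chord_R (1) (1) 1 (11 / 10) x (by norm_num) (by norm_num) (by norm_num) h1 h2
  have t7 := aff_lin 1 (11 / 10) (-7) (-1) x (by norm_num)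
  unfold gC
  refine six_aff (by norm_num) h1 h2 t1 t2 t3 t4 t5 t6 t7 ?_ ?_
  · have e1 : psi (1 - 0) = 1 * (Real.log (1 : ℕ) - Real.log (1 : ℕ)) := by
      unfold psi
      rw [log_val (1 - 0) 1 1 (by norm_num) (by norm_num) (by norm_num)]
      norm_num
    have e2 : Real.log (1 - 1 / 5) = Real.log (4 : ℕ) - Real.log (5 : ℕ) :=
      log_val (1 - 1 / 5) 4 5 (by norm_num) (by norm_num) (by norm_num)
    have e3 : Real.log (1 - 2 / 5) = Real.log (3 : ℕ) - Real.log (5 : ℕ) :=
      log_val (1 - 2 / 5) 3 5 (by norm_num) (by norm_num) (by norm_num)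
    have e4 : Real.log (1 - 7 / 10) = Real.log (3 : ℕ) - Real.log (10 : ℕ) :=
      log_val (1 - 7 / 10) 3 10 (by norm_num) (by norm_num) (by norm_num)
    have e5 : Real.log (1 - (-1)) = Real.log (2 : ℕ) - Real.log (1 : ℕ) :=
      log_val (1 - (-1)) 2 1 (by norm_num) (by norm_num) (by norm_num)
    have e6 : psi (1 - 1) = 0 := by rw [show (1 - 1 : ℝ) = 0 by norm_num, psi_zero]
    rw [e1, e2, e3, e4, e5, e6]
    have l2 := lgn_2
    have l3 := lgn_3
    have l4 := lgn_4
    have l5 := lgn_5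
    have l10 := lgn_10
    simp only [Nat.cast_ofNat, Nat.cast_one, Real.log_one] at *
    linarith
  · have e1 : psi ((11 / 10) - 0) = (11 / 10) * (Real.log (11 : ℕ) - Real.log (10 : ℕ)) := by
      unfold psi
      rw [log_val ((11 / 10) - 0) 11 10 (by norm_num) (by norm_num) (by norm_num)]
      norm_num
    have e2 : Real.log (1 - 1 / 5) = Real.log (4 : ℕ) - Real.log (5 : ℕ) :=
      log_val (1 - 1 / 5) 4 5 (by norm_num) (by norm_num) (by norm_num)
    have e3 : Real.log (1 - 2 / 5) = Real.log (3 : ℕ) - Real.log (5 : ℕ) :=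
      log_val (1 - 2 / 5) 3 5 (by norm_num) (by norm_num) (by norm_num)
    have e4 : Real.log (1 - 7 / 10) = Real.log (3 : ℕ) - Real.log (10 : ℕ) :=
      log_val (1 - 7 / 10) 3 10 (by norm_num) (by norm_num) (by norm_num)
    have e5 : Real.log (1 - (-1)) = Real.log (2 : ℕ) - Real.log (1 : ℕ) :=
      log_val (1 - (-1)) 2 1 (by norm_num) (by norm_num) (by norm_num)
    have e6 : psi ((11 / 10) - 1) = (1 / 10) * (Real.log (1 : ℕ) - Real.log (10 : ℕ)) := by
      unfold psi
      rw [log_val ((11 / 10) - 1) 1 10 (by norm_num) (by norm_num) (by norm_num)]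
      norm_num
    rw [e1, e2, e3, e4, e5, e6]
    have l2 := lgn_2
    have l3 := lgn_3
    have l4 := lgn_4
    have l5 := lgn_5
    have l10 := lgn_10
    have l11 := lgn_11
    simp only [Nat.cast_ofNat, Nat.cast_one, Real.log_one] at *
    linarith

theorem aff_const (p q L x : ℝ) (h : p < q) : aff p q L L x = L := by
  unfold aff
  have : q - p ≠ 0 := by intro h'; linarith
  field_simp
  ring

theorem gC_rest (x : ℝ) (h1 : 3 / 20 ≤ x) (h2 : x ≤ 11 / 10) : gC x ≤ -311 / 50 := by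
  rcases le_total x (1 / 5) with h | h
  · have := cellB0 x (by linarith) h
    rw [aff_const _ _ _ _ (by norm_num)] at this
    linarith
  rcases le_total x (1 / 4) with h | h
  · have := cellB1 x (by linarith) h
    rw [aff_const _ _ _ _ (by norm_num)] at this
    linarith
  rcases le_total x (7 / 20) with h | h
  · have := cellB2 x (by linarith) h
    rw [aff_const _ _ _ _ (by norm_num)] at this
    linarith
  rcases le_total x (2 / 5) with h | h
  · have := cellB3 x (by linarith) h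
    rw [aff_const _ _ _ _ (by norm_num)] at this
    linarith
  rcases le_total x (9 / 20) with h | h
  · have := cellB4 x (by linarith) h
    rw [aff_const _ _ _ _ (by norm_num)] at this
    linarith
  rcases le_total x (11 / 20) with h | h
  · have := cellB5 x (by linarith) h
    rw [aff_const _ _ _ _ (by norm_num)] at this
    linarith
  rcases le_total x (7 / 10) with h | h
  · have := cellB6 x (by linarith) h
    rw [aff_const _ _ _ _ (by norm_num)] at this
    linarith
  rcases le_total x (4 / 5) with h | h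
  · have := cellB7 x (by linarith) h
    rw [aff_const _ _ _ _ (by norm_num)] at this
    linarith
  rcases le_total x 1 with h | h
  · have := cellB8 x (by linarith) h
    rw [aff_const _ _ _ _ (by norm_num)] at this
    linarith
  have := cellB9 x (by linarith) h2
  rw [aff_const _ _ _ _ (by norm_num)] at this
  linarith

theorem gC_far (x : ℝ) (h : 11 / 10 ≤ x) : gC x ≤ -6 * x := by
  have hx : 0 < x := by linarith
  have a1 := psi_tan x (x - 1 / 5) hx (by linarith)
  have a2 := psi_tan x (x - 2 / 5) hx (by linarith)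
  have a3 := psi_tan x (x - 7 / 10) hx (by linarith)
  have a4 := psi_tan x (x - (-1)) hx (by linarith)
  have a5 : psi (x - 1) ≤ (x - 1) * Real.log x := by
    unfold psi
    exact mul_le_mul_of_nonneg_left (Real.log_le_log (by linarith) (by linarith)) (by linarith)
  have a6 : psi (x - 0) = x * Real.log x := by unfold psi; rw [sub_zero]
  have a7 := Real.log_le_sub_one_of_pos hx
  unfold gC
  rw [a6]
  nlinarith

/-- antiderivative of `psi x - x` -/
noncomputable def hC (c : ℝ) : ℝ := c ^ 2 / 2 * Real.log c - 3 / 4 * c ^ 2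

/-- the double integral of `log |x-y|` for the density -/
noncomputable def IC : ℝ :=
  4 * (2 * hC (1 / 5) - hC 0) + 1 * (2 * hC (2 / 5) - hC 0) + 1 * (2 * hC (7 / 10) - hC 0) +
    2 * (2 * (hC (1 / 5) + hC (2 / 5) - hC (1 / 5)) + 2 * (hC (1 / 5) + hC (7 / 10) - hC (1 / 2)) +
      1 * (hC (2 / 5) + hC (7 / 10) - hC (3 / 10)))

theorem cert_final : (2 * Real.log 2 - 3) - 2 * hC (3 / 2) + 3 / 2 * (-311 / 50) + 4 * (11461 / 80000) - IC ≤ -3316 / 1000 := by
  have z : hC 0 = 0 := by simp [hC]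
  have r0 : Real.log ((1 / 5) : ℝ) = Real.log (1 : ℕ) - Real.log (5 : ℕ) := log_val _ 1 5 (by norm_num) (by norm_num) (by norm_num)
  have r1 : Real.log ((2 / 5) : ℝ) = Real.log (2 : ℕ) - Real.log (5 : ℕ) := log_val _ 2 5 (by norm_num) (by norm_num) (by norm_num)
  have r2 : Real.log ((7 / 10) : ℝ) = Real.log (7 : ℕ) - Real.log (10 : ℕ) := log_val _ 7 10 (by norm_num) (by norm_num) (by norm_num)
  have r3 : Real.log ((1 / 2) : ℝ) = Real.log (1 : ℕ) - Real.log (2 : ℕ) := log_val _ 1 2 (by norm_num) (by norm_num) (by norm_num)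
  have r4 : Real.log ((3 / 10) : ℝ) = Real.log (3 : ℕ) - Real.log (10 : ℕ) := log_val _ 3 10 (by norm_num) (by norm_num) (by norm_num)
  have r5 : Real.log ((3 / 2) : ℝ) = Real.log (3 : ℕ) - Real.log (2 : ℕ) := log_val _ 3 2 (by norm_num) (by norm_num) (by norm_num)
  unfold IC
  rw [z]
  unfold hC
  rw [r0, r1, r2, r3, r4, r5]
  have l2 := lgn_2
  have l3 := lgn_3
  have l5 := lgn_5
  have l7 := lgn_7
  have l10 := lgn_10
  have l2' := lgn_2
  simp only [Nat.cast_ofNat, Nat.cast_one, Real.log_one] at *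
  linarith


/-- the convex piecewise linear majorant -/
noncomputable def hinge (x : ℝ) : ℝ :=
  59 / 5 * max (1 / 40 - x) 0 +
  5 * max (1 / 20 - x) 0 +
  93 / 25 * max (3 / 40 - x) 0 +
  81 / 25 * max (1 / 10 - x) 0 +
  157 / 25 * max (1 / 8 - x) 0 +
  128 / 25 * max (3 / 20 - x) 0

theorem hinge_nonneg (x : ℝ) : 0 ≤ hinge x := by
  unfold hinge
  positivity

theorem gC_hinge (x : ℝ) (h0 : 0 ≤ x) : gC x + 311 / 50 ≤ hinge x := by
  rcases le_total x (1 / 40) with h | h
  · have c := cellA0 x (by linarith) (by linarith)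
    unfold hinge
    rw [max_eq_left (by linarith : (0 : ℝ) ≤ 1 / 40 - x)]
    rw [max_eq_left (by linarith : (0 : ℝ) ≤ 1 / 20 - x)]
    rw [max_eq_left (by linarith : (0 : ℝ) ≤ 3 / 40 - x)]
    rw [max_eq_left (by linarith : (0 : ℝ) ≤ 1 / 10 - x)]
    rw [max_eq_left (by linarith : (0 : ℝ) ≤ 1 / 8 - x)]
    rw [max_eq_left (by linarith : (0 : ℝ) ≤ 3 / 20 - x)]
    have e : aff (0) (1 / 40) (-3519 / 1000) (-2199 / 500) x + 311 / 50 = 59 / 5 * (1 / 40 - x) + 5 * (1 / 20 - x) + 93 / 25 * (3 / 40 - x) + 81 / 25 * (1 / 10 - x) + 157 / 25 * (1 / 8 - x) + 128 / 25 * (3 / 20 - x) := by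
      unfold aff
      ring
    linarith
  rcases le_total x (1 / 20) with h | h
  · have c := cellA1 x (by linarith) (by linarith)
    unfold hinge
    rw [max_eq_right (by linarith : (1 / 40 : ℝ) - x ≤ 0)]
    rw [max_eq_left (by linarith : (0 : ℝ) ≤ 1 / 20 - x)]
    rw [max_eq_left (by linarith : (0 : ℝ) ≤ 3 / 40 - x)]
    rw [max_eq_left (by linarith : (0 : ℝ) ≤ 1 / 10 - x)]
    rw [max_eq_left (by linarith : (0 : ℝ) ≤ 1 / 8 - x)]
    rw [max_eq_left (by linarith : (0 : ℝ) ≤ 3 / 20 - x)]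
    have e : aff (1 / 40) (1 / 20) (-2199 / 500) (-2491 / 500) x + 311 / 50 = 5 * (1 / 20 - x) + 93 / 25 * (3 / 40 - x) + 81 / 25 * (1 / 10 - x) + 157 / 25 * (1 / 8 - x) + 128 / 25 * (3 / 20 - x) := by
      unfold aff
      ring
    linarith
  rcases le_total x (3 / 40) with h | h
  · have c := cellA2 x (by linarith) (by linarith)
    unfold hinge
    rw [max_eq_right (by linarith : (1 / 40 : ℝ) - x ≤ 0)]
    rw [max_eq_right (by linarith : (1 / 20 : ℝ) - x ≤ 0)]
    rw [max_eq_left (by linarith : (0 : ℝ) ≤ 3 / 40 - x)]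
    rw [max_eq_left (by linarith : (0 : ℝ) ≤ 1 / 10 - x)]
    rw [max_eq_left (by linarith : (0 : ℝ) ≤ 1 / 8 - x)]
    rw [max_eq_left (by linarith : (0 : ℝ) ≤ 3 / 20 - x)]
    have e : aff (1 / 20) (3 / 40) (-2491 / 500) (-5441 / 1000) x + 311 / 50 = 93 / 25 * (3 / 40 - x) + 81 / 25 * (1 / 10 - x) + 157 / 25 * (1 / 8 - x) + 128 / 25 * (3 / 20 - x) := by
      unfold aff
      ring
    linarith
  rcases le_total x (1 / 10) with h | h
  · have c := cellA3 x (by linarith) (by linarith)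
    unfold hinge
    rw [max_eq_right (by linarith : (1 / 40 : ℝ) - x ≤ 0)]
    rw [max_eq_right (by linarith : (1 / 20 : ℝ) - x ≤ 0)]
    rw [max_eq_right (by linarith : (3 / 40 : ℝ) - x ≤ 0)]
    rw [max_eq_left (by linarith : (0 : ℝ) ≤ 1 / 10 - x)]
    rw [max_eq_left (by linarith : (0 : ℝ) ≤ 1 / 8 - x)]
    rw [max_eq_left (by linarith : (0 : ℝ) ≤ 3 / 20 - x)]
    have e : aff (3 / 40) (1 / 10) (-5441 / 1000) (-5807 / 1000) x + 311 / 50 = 81 / 25 * (1 / 10 - x) + 157 / 25 * (1 / 8 - x) + 128 / 25 * (3 / 20 - x) := by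
      unfold aff
      ring
    linarith
  rcases le_total x (1 / 8) with h | h
  · have c := cellA4 x (by linarith) (by linarith)
    unfold hinge
    rw [max_eq_right (by linarith : (1 / 40 : ℝ) - x ≤ 0)]
    rw [max_eq_right (by linarith : (1 / 20 : ℝ) - x ≤ 0)]
    rw [max_eq_right (by linarith : (3 / 40 : ℝ) - x ≤ 0)]
    rw [max_eq_right (by linarith : (1 / 10 : ℝ) - x ≤ 0)]
    rw [max_eq_left (by linarith : (0 : ℝ) ≤ 1 / 8 - x)]
    rw [max_eq_left (by linarith : (0 : ℝ) ≤ 3 / 20 - x)]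
    have e : aff (1 / 10) (1 / 8) (-5807 / 1000) (-1523 / 250) x + 311 / 50 = 157 / 25 * (1 / 8 - x) + 128 / 25 * (3 / 20 - x) := by
      unfold aff
      ring
    linarith
  rcases le_total x (3 / 20) with h | h
  · have c := cellA5 x (by linarith) (by linarith)
    unfold hinge
    rw [max_eq_right (by linarith : (1 / 40 : ℝ) - x ≤ 0)]
    rw [max_eq_right (by linarith : (1 / 20 : ℝ) - x ≤ 0)]
    rw [max_eq_right (by linarith : (3 / 40 : ℝ) - x ≤ 0)]
    rw [max_eq_right (by linarith : (1 / 10 : ℝ) - x ≤ 0)]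
    rw [max_eq_right (by linarith : (1 / 8 : ℝ) - x ≤ 0)]
    rw [max_eq_left (by linarith : (0 : ℝ) ≤ 3 / 20 - x)]
    have e : aff (1 / 8) (3 / 20) (-1523 / 250) (-311 / 50) x + 311 / 50 = 128 / 25 * (3 / 20 - x) := by
      unfold aff
      ring
    linarith
  have hh := hinge_nonneg x
  rcases le_total x (11 / 10) with h' | h'
  · have := gC_rest x (by linarith) h'
    linarith
  · have := gC_far x h'
    linarith

theorem hinge_one (K : ℕ) : ∀ y : ℝ, ∑ k ∈ range K, max (y - ((k : ℝ) + 1)) 0 ≤ max y 0 ^ 2 / 2 := by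
  induction K with
  | zero => intro y; simp; positivity
  | succ K ih =>
    intro y
    rw [sum_range_succ']
    have e : ∑ k ∈ range K, max (y - (((k + 1 : ℕ) : ℝ) + 1)) 0 =
        ∑ k ∈ range K, max ((y - 1) - ((k : ℝ) + 1)) 0 := by
      apply sum_congr rfl
      intro k _
      push_cast
      congr 1
      ring
    rw [e]
    have h := ih (y - 1)
    simp only [Nat.cast_zero, zero_add]
    rcases le_total y 1 with h1 | h1
    · rw [max_eq_right (by linarith : y - 1 ≤ 0)] at h ⊢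
      have : 0 ≤ max y 0 ^ 2 / 2 := by positivity
      simp only [ne_eq, OfNat.ofNat_ne_zero, not_false_eq_true, zero_pow, zero_div] at h
      linarith
    · rw [max_eq_left (by linarith : 0 ≤ y - 1)] at h ⊢
      rw [max_eq_left (by linarith : 0 ≤ y)]
      nlinarith

theorem hinge_scale (N : ℝ) (hN : 0 < N) (t : ℝ) (ht : 0 ≤ t) (K : ℕ) :
    ∑ k ∈ range K, max (t - ((k : ℝ) + 1) / N) 0 ≤ N * (t ^ 2 / 2) := by
  have h := hinge_one K (N * t)
  rw [max_eq_left (by positivity)] at h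
  have e : ∑ k ∈ range K, max (N * t - ((k : ℝ) + 1)) 0 =
      N * ∑ k ∈ range K, max (t - ((k : ℝ) + 1) / N) 0 := by
    rw [mul_sum]
    apply sum_congr rfl
    intro k _
    rw [mul_max_of_nonneg _ _ hN.le, mul_zero]
    congr 1
    field_simp
  rw [e] at h
  have h2 : N * ∑ k ∈ range K, max (t - ((k : ℝ) + 1) / N) 0 ≤ N * (N * (t ^ 2 / 2)) := by
    nlinarith
  exact le_of_mul_le_mul_left h2 hN

theorem hinge_sum (N : ℝ) (hN : 0 < N) (K : ℕ) :
    ∑ k ∈ range K, hinge (((k : ℝ) + 1) / N) ≤ N * (11461 / 80000) := by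
  unfold hinge
  simp only [sum_add_distrib, ← mul_sum]
  have h0 := hinge_scale N hN (1 / 40) (by norm_num) K
  have h1 := hinge_scale N hN (1 / 20) (by norm_num) K
  have h2 := hinge_scale N hN (3 / 40) (by norm_num) K
  have h3 := hinge_scale N hN (1 / 10) (by norm_num) K
  have h4 := hinge_scale N hN (1 / 8) (by norm_num) K
  have h5 := hinge_scale N hN (3 / 20) (by norm_num) K
  linarith

/-- the capped part of the certificate: sum over the units of the positive part -/
theorem gC_sum (N : ℝ) (hN : 0 < N) (K : ℕ) :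
    ∑ k ∈ range K, max (gC (((k : ℝ) + 1) / N) + 311 / 50) 0 ≤ N * (11461 / 80000) := by
  refine (sum_le_sum ?_).trans (hinge_sum N hN K)
  intro k _
  exact max_le (gC_hinge _ (by positivity)) (hinge_nonneg _)

end Pool.Agent.QS2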