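import Mathlib

/-! Sums of logarithms against `Fs u = u log |u| - u` (energy part of QS2). -/

namespace Pool.QS2E

open Finset

/-- `Fs u = u log |u| - u` -/
noncomputable def Fs (u : ℝ) : ℝ := u * Real.log u - u

lemma Fs_zero : Fs 0 = 0 := by simp [Fs]

lemma Fs_neg (u : ℝ) : Fs (-u) = -Fs u := by
  unfold Fs; rw [Real.log_neg_eq_log]; ring

lemma Fs_scale (N u : ℝ) (hN : 0 < N) : Fs (N * u) = N * Fs u + N * u * Real.log N := by
  unfold Fs
  rcases eq_or_ne u 0 with h | h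
  · simp [h]
  · rw [Real.log_mul hN.ne' h]; ring

/-- convexity on `[0, ∞)` -/
lemma Fs_conv : ConvexOn ℝ (Set.Ici 0) Fs := by
  have h1 := Real.convexOn_mul_log
  have h2 : ConvexOn ℝ (Set.Ici (0:ℝ)) (fun x : ℝ => -x) :=
    (LinearMap.convexOn (-(LinearMap.id : ℝ →ₗ[ℝ] ℝ)) (convex_Ici 0))
  have h3 := h1.add h2
  refine h3.congr ?_
  intro x _
  simp [Fs, sub_eq_add_neg]

/-- chord bound -/
lemma Fs_chord {a b θ : ℝ} (ha : 0 ≤ a) (hb : 0 ≤ b) (h0 : 0 ≤ θ) (h1 : θ ≤ 1) :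
    Fs ((1 - θ) * a + θ * b) ≤ (1 - θ) * Fs a + θ * Fs b := by
  have h := Fs_conv.2 (Set.mem_Ici.2 ha) (Set.mem_Ici.2 hb) (by linarith : (0:ℝ) ≤ 1 - θ) h0 (by ring)
  simpa [smul_eq_mul] using h

/-- tangent bound -/
lemma Fs_tan {u m : ℝ} (hu : 0 ≤ u) (hm : 0 < m) : u * Real.log m - m ≤ Fs u := by
  unfold Fs
  rcases hu.eq_or_lt with h | h
  · rw [← h]; simp; linarith
  · have h1 : Real.log (m / u) ≤ m / u - 1 := Real.log_le_sub_one_of_pos (by positivity)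
    rw [Real.log_div hm.ne' h.ne'] at h1
    have h2 : u * (Real.log m - Real.log u) ≤ u * (m / u - 1) := mul_le_mul_of_nonneg_left h1 h.le
    have h3 : u * (m / u - 1) = m - u := by field_simp
    nlinarith

/-- `S n = log n!` -/
noncomputable def S (n : ℕ) : ℝ := Real.log (n.factorial : ℝ)

lemma S_succ (n : ℕ) : S (n + 1) = Real.log (n + 1) + S n := by
  unfold S
  rw [Nat.factorial_succ, Nat.cast_mul, Real.log_mul (by positivity) (by positivity)]
  push_cast; ring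

lemma S_zero : S 0 = 0 := by simp [S]

lemma S_ge (n : ℕ) : Fs n ≤ S n := by
  induction n with
  | zero => simp [Fs, S]
  | succ n ih =>
    rw [S_succ]
    have h := Fs_tan (u := (n:ℝ)) (m := (n:ℝ) + 1) (by positivity) (by positivity)
    have e : Fs ((n + 1 : ℕ) : ℝ) = ((n:ℝ) + 1) * Real.log ((n:ℝ) + 1) - ((n:ℝ) + 1) := by
      unfold Fs; push_cast; ring
    rw [e]; linarith

lemma S_le (n : ℕ) : S n ≤ Fs n + Real.log (n + 1) + 1 := by
  have key : ∀ n : ℕ, S n ≤ ((n:ℝ) + 1) * Real.log (n + 1) - n := by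
    intro n
    induction n with
    | zero => simp [S]
    | succ n ih =>
      rw [S_succ]
      have h1 : Real.log (((n:ℝ) + 1) / (n + 2)) ≤ ((n:ℝ) + 1) / (n + 2) - 1 :=
        Real.log_le_sub_one_of_pos (by positivity)
      rw [Real.log_div (by positivity) (by positivity)] at h1
      have h2 : ((n:ℝ) + 2) * (Real.log ((n:ℝ) + 1) - Real.log ((n:ℝ) + 2))
          ≤ ((n:ℝ) + 2) * (((n:ℝ) + 1) / (n + 2) - 1) :=
        mul_le_mul_of_nonneg_left h1 (by positivity)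
      have h3 : ((n:ℝ) + 2) * (((n:ℝ) + 1) / (n + 2) - 1) = -1 := by field_simp; ring
      have e : ((n + 1 : ℕ) : ℝ) + 1 = (n:ℝ) + 2 := by push_cast; ring
      rw [e]; push_cast
      nlinarith
  have h := key n
  have h4 : (n:ℝ) * Real.log (n + 1) ≤ Fs n + n + 1 := by
    unfold Fs
    rcases Nat.eq_zero_or_pos n with h0 | h0
    · subst h0; simp
    · have hn : (0:ℝ) < n := by exact_mod_cast h0
      have h1 : Real.log (((n:ℝ) + 1) / n) ≤ ((n:ℝ) + 1) / n - 1 :=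
        Real.log_le_sub_one_of_pos (by positivity)
      rw [Real.log_div (by positivity) (by positivity)] at h1
      have h2 : (n:ℝ) * (Real.log ((n:ℝ) + 1) - Real.log n) ≤ n * (((n:ℝ) + 1) / n - 1) :=
        mul_le_mul_of_nonneg_left h1 hn.le
      have h3 : (n:ℝ) * (((n:ℝ) + 1) / n - 1) = 1 := by field_simp; ring
      nlinarith
  linarith

lemma logn1 (n : ℕ) : (0:ℝ) ≤ Real.log ((n:ℝ) + 1) :=
  Real.log_nonneg (by have : (0:ℝ) ≤ n := Nat.cast_nonneg n
                      linarith)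

lemma logn3 (n : ℕ) : (0:ℝ) ≤ Real.log ((n:ℝ) + 3) :=
  Real.log_nonneg (by have : (0:ℝ) ≤ n := Nat.cast_nonneg n
                      linarith)

/-- telescoping over a block -/
lemma sum_tel (V τ : ℤ → ℝ) (h : ∀ j, V (j + 1) - V j = τ j) (k : ℤ) {a b : ℕ} (hab : a ≤ b) :
    ∑ l ∈ Finset.Ioc a b, τ (k - l) = V (k - a) - V (k - b) := by
  induction b, hab using Nat.le_induction with
  | base => simp
  | succ b hb ih =>
    rw [Finset.sum_Ioc_succ_top (by omega), ih, ← h (k - ((b + 1 : ℕ) : ℤ))]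
    have : k - ((b + 1 : ℕ) : ℤ) + 1 = k - (b : ℤ) := by push_cast; ring
    rw [this]; ring

/-- antiderivative of `log (|j| + 2)` -/
noncomputable def V2 (j : ℤ) : ℝ :=
  if 0 ≤ j then S (j + 1).toNat else Real.log 2 - S (2 - j).toNat

lemma V2_tel (j : ℤ) : V2 (j + 1) - V2 j = Real.log (|(j:ℝ)| + 2) := by
  unfold V2
  rcases lt_trichotomy j (-1) with h | h | h
  · obtain ⟨n, rfl⟩ : ∃ n : ℕ, j = -(n:ℤ) - 2 := ⟨(-j - 2).toNat, by omega⟩
    rw [if_neg (by omega), if_neg (by omega)]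
    have e1 : (2 - (-(n:ℤ) - 2 + 1)).toNat = n + 3 := by omega
    have e2 : (2 - (-(n:ℤ) - 2)).toNat = (n + 3) + 1 := by omega
    rw [e1, e2, S_succ (n + 3)]
    have e3 : |((-(n:ℤ) - 2 : ℤ) : ℝ)| = n + 2 := by
      push_cast
      rw [abs_of_nonpos (by have : (0:ℝ) ≤ n := by positivity
                            linarith)]
      ring
    rw [e3]
    have e4 : ((n + 3 : ℕ) : ℝ) + 1 = (n:ℝ) + 2 + 2 := by push_cast; ring
    rw [e4]; ring
  · subst h
    have e1 : S 1 = 0 := by simp [S]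
    have e3 : S 3 = Real.log 2 + Real.log 3 := by
      unfold S
      rw [show ((Nat.factorial 3 : ℕ) : ℝ) = 2 * 3 by norm_num [Nat.factorial],
        Real.log_mul (by norm_num) (by norm_num)]
    rw [if_pos (by norm_num), if_neg (by norm_num)]
    have e6 : ((-1:ℤ) + 1 + 1).toNat = 1 := by norm_num
    have e7 : (2 - (-1:ℤ)).toNat = 3 := by rfl
    have e8 : |(((-1:ℤ) : ℤ) : ℝ)| + 2 = 3 := by push_cast; norm_num
    rw [e6, e7, e8, e1, e3]
    ring
  · obtain ⟨n, rfl⟩ : ∃ n : ℕ, j = (n:ℤ) := ⟨j.toNat, by omega⟩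
    rw [if_pos (by omega), if_pos (by omega)]
    have e1 : ((n:ℤ) + 1 + 1).toNat = (n + 1) + 1 := by omega
    have e2 : ((n:ℤ) + 1).toNat = n + 1 := by omega
    rw [e1, e2, S_succ (n + 1)]
    have e3 : |(((n:ℤ) : ℤ) : ℝ)| = n := by simp
    rw [e3]
    have e4 : ((n + 1 : ℕ) : ℝ) + 1 = (n:ℝ) + 2 := by push_cast; ring
    rw [e4]; ring

/-- antiderivative of `log |j|` (`log 0 = 0`) -/
noncomputable def V0 (j : ℤ) : ℝ :=
  if 1 ≤ j then S (j - 1).toNat else - S (-j).toNat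

lemma V0_tel (j : ℤ) : V0 (j + 1) - V0 j = Real.log |(j:ℝ)| := by
  unfold V0
  rcases lt_trichotomy j 0 with h | h | h
  · obtain ⟨n, rfl⟩ : ∃ n : ℕ, j = -(n:ℤ) - 1 := ⟨(-j - 1).toNat, by omega⟩
    rw [if_neg (by omega), if_neg (by omega)]
    have e1 : (-(-(n:ℤ) - 1 + 1)).toNat = n := by omega
    have e2 : (-(-(n:ℤ) - 1)).toNat = n + 1 := by omega
    rw [e1, e2, S_succ n]
    have e3 : |((-(n:ℤ) - 1 : ℤ) : ℝ)| = n + 1 := by
      push_cast
      rw [abs_of_nonpos (by have : (0:ℝ) ≤ n := by positivity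
                            linarith)]
      ring
    rw [e3]; ring
  · subst h; simp [S]
  · obtain ⟨n, rfl⟩ : ∃ n : ℕ, j = (n:ℤ) + 1 := ⟨(j - 1).toNat, by omega⟩
    rw [if_pos (by omega), if_pos (by omega)]
    have e1 : ((n:ℤ) + 1 + 1 - 1).toNat = n + 1 := by omega
    have e2 : ((n:ℤ) + 1 - 1).toNat = n := by omega
    rw [e1, e2, S_succ n]
    have e3 : |((((n:ℤ) + 1 : ℤ)) : ℝ)| = n + 1 := by
      push_cast
      rw [abs_of_nonneg (by positivity)]
    rw [e3]; ring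

/-- error term -/
noncomputable def er (j : ℝ) : ℝ := 3 * Real.log (|j| + 3) + 4

lemma er_neg (j : ℝ) : er (-j) = er j := by simp [er]

lemma er_pos (j : ℝ) : 0 < er j := by
  unfold er
  have : 0 < Real.log (|j| + 3) := Real.log_pos (by have := abs_nonneg j; linarith)
  linarith

lemma er_mono {a b : ℝ} (h : |a| ≤ |b|) : er a ≤ er b := by
  unfold er
  have : Real.log (|a| + 3) ≤ Real.log (|b| + 3) :=
    Real.log_le_log (by have := abs_nonneg a; linarith) (by linarith)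
  linarith

lemma S_up (n m : ℕ) (h : m ≤ n) (d : ℕ) (hd : n ≤ m + d) :
    S n ≤ S m + d * Real.log (n + 1) := by
  induction d generalizing n with
  | zero => have : n = m := by omega
            subst this; simp
  | succ d ih =>
    rcases Nat.eq_or_lt_of_le h with h1 | h1
    · subst h1
      have : 0 ≤ ((d + 1 : ℕ) : ℝ) * Real.log ((m:ℝ) + 1) := by
        apply mul_nonneg (by positivity)
        exact Real.log_nonneg (by have : (0:ℝ) ≤ m := by positivity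
                                  linarith)
      linarith
    · obtain ⟨n', rfl⟩ : ∃ n', n = n' + 1 := ⟨n - 1, by omega⟩
      rw [S_succ]
      have h2 := ih n' (by omega) (by omega)
      have h3 : Real.log ((n':ℝ) + 1) ≤ Real.log (((n' + 1 : ℕ) : ℝ) + 1) := by
        apply Real.log_le_log (by positivity)
        push_cast; linarith
      have h4 : (d:ℝ) * Real.log ((n':ℝ) + 1) ≤ d * Real.log (((n' + 1 : ℕ) : ℝ) + 1) :=
        mul_le_mul_of_nonneg_left h3 (by positivity)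
      push_cast at h3 h4 ⊢
      linarith

lemma S_mono {m n : ℕ} (h : m ≤ n) : S m ≤ S n := by
  unfold S
  exact Real.log_le_log (by exact_mod_cast m.factorial_pos) (by exact_mod_cast Nat.factorial_le h)

lemma V2_bd (j : ℤ) : |V2 j - Fs j| ≤ 2 * er j := by
  have key : ∀ n : ℕ, ∀ d : ℕ, d ≤ 2 → S (n + d) ≤ Fs n + 3 * Real.log ((n:ℝ) + 3) + 1 := by
    intro n d hd
    have h1 := S_up (n + d) n (by omega) 2 (by omega)
    have h2 := S_le n
    have h3 : Real.log (((n + d : ℕ) : ℝ) + 1) ≤ Real.log ((n:ℝ) + 3) := by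
      apply Real.log_le_log (by positivity)
      have : (d:ℝ) ≤ 2 := by exact_mod_cast hd
      push_cast; linarith
    have h4 : Real.log ((n:ℝ) + 1) ≤ Real.log ((n:ℝ) + 3) :=
      Real.log_le_log (by positivity) (by linarith)
    push_cast at h1 h3
    linarith
  have hl2 : (0:ℝ) ≤ Real.log 2 := Real.log_nonneg (by norm_num)
  have hl2' : Real.log 2 ≤ 1 := by have := Real.log_two_lt_d9; linarith
  unfold V2 er
  split_ifs with h
  · obtain ⟨n, rfl⟩ : ∃ n : ℕ, j = (n:ℤ) := ⟨j.toNat, by omega⟩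
    have e2 : ((n:ℤ) + 1).toNat = n + 1 := by omega
    rw [e2]
    have h1 := key n 1 (by norm_num)
    have h2 := S_ge n
    have h3 := S_mono (show n ≤ n + 1 by omega)
    have e3 : |(((n:ℤ) : ℤ) : ℝ)| = n := by simp
    rw [e3]
    have e4 : Fs (((n:ℤ) : ℤ) : ℝ) = Fs (n:ℝ) := by simp
    rw [e4]
    have h5 := logn3 n
    rw [abs_le]; constructor <;> linarith
  · obtain ⟨n, rfl⟩ : ∃ n : ℕ, j = -(n:ℤ) := ⟨(-j).toNat, by omega⟩
    have e2 : (2 - -(n:ℤ)).toNat = n + 2 := by omega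
    rw [e2]
    have h1 := key n 2 (by norm_num)
    have h2 := S_ge n
    have h3 := S_mono (show n ≤ n + 2 by omega)
    have e3 : |((-(n:ℤ) : ℤ) : ℝ)| = n := by simp
    rw [e3]
    have e4 : Fs ((-(n:ℤ) : ℤ) : ℝ) = - Fs (n:ℝ) := by push_cast; exact Fs_neg _
    rw [e4]
    have h5 := logn3 n
    rw [abs_le]; constructor <;> linarith

lemma V0_bd (j : ℤ) : |V0 j - Fs j| ≤ er j := by
  unfold V0 er
  split_ifs with h
  · obtain ⟨n, rfl⟩ : ∃ n : ℕ, j = (n:ℤ) + 1 := ⟨(j - 1).toNat, by omega⟩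
    have e2 : ((n:ℤ) + 1 - 1).toNat = n := by omega
    rw [e2]
    have h1 := S_le (n + 1)
    have h2 := S_ge (n + 1)
    have h3 := S_succ n
    have e3 : |((((n:ℤ) + 1 : ℤ)) : ℝ)| = n + 1 := by
      push_cast; rw [abs_of_nonneg (by positivity)]
    rw [e3]
    have e4 : Fs ((((n:ℤ) + 1 : ℤ)) : ℝ) = Fs (((n + 1 : ℕ) : ℝ)) := by push_cast; rfl
    rw [e4]
    have h5 := logn1 n
    have h6 : Real.log ((n:ℝ) + 1) ≤ Real.log ((n:ℝ) + 1 + 3) :=
      Real.log_le_log (by positivity) (by linarith)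
    have h7 : Real.log (((n + 1 : ℕ) : ℝ) + 1) ≤ Real.log ((n:ℝ) + 1 + 3) :=
      Real.log_le_log (by positivity) (by push_cast; linarith)
    rw [abs_le]; constructor <;> linarith
  · obtain ⟨n, rfl⟩ : ∃ n : ℕ, j = -(n:ℤ) := ⟨(-j).toNat, by omega⟩
    have e2 : (- -(n:ℤ)).toNat = n := by omega
    rw [e2]
    have h1 := S_le n
    have h2 := S_ge n
    have e3 : |((-(n:ℤ) : ℤ) : ℝ)| = n := by simp
    rw [e3]
    have e4 : Fs ((-(n:ℤ) : ℤ) : ℝ) = - Fs (n:ℝ) := by push_cast; exact Fs_neg _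
    rw [e4]
    have h6 : Real.log ((n:ℝ) + 1) ≤ Real.log ((n:ℝ) + 3) :=
      Real.log_le_log (by positivity) (by linarith)
    have h5 := logn1 n
    rw [abs_le]; constructor <;> linarith

/-- upper bound of a block sum of `log (|k - l| + 2)` -/
lemma blk2_le (k : ℤ) {a b : ℕ} (hab : a ≤ b) :
    ∑ l ∈ Finset.Ioc a b, Real.log (|((k - l : ℤ) : ℝ)| + 2)
      ≤ Fs ((k:ℝ) - a) - Fs ((k:ℝ) - b) + 2 * er ((k:ℝ) - a) + 2 * er ((k:ℝ) - b) := by
  have h := sum_tel V2 (fun j => Real.log (|(j:ℝ)| + 2)) V2_tel k hab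
  rw [h]
  have h1 := (abs_le.1 (V2_bd (k - a))).2
  have h2 := (abs_le.1 (V2_bd (k - b))).1
  push_cast at h1 h2
  linarith

/-- a block sum of `log |k - l|` -/
lemma blk0 (k : ℤ) {a b : ℕ} (hab : a ≤ b) :
    |∑ l ∈ Finset.Ioc a b, Real.log |((k - l : ℤ) : ℝ)| - (Fs ((k:ℝ) - a) - Fs ((k:ℝ) - b))|
      ≤ er ((k:ℝ) - a) + er ((k:ℝ) - b) := by
  have h := sum_tel V0 (fun j => Real.log |(j:ℝ)|) V0_tel k hab
  rw [h]
  have h1 := abs_le.1 (V0_bd (k - a))
  have h2 := abs_le.1 (V0_bd (k - b))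
  push_cast at h1 h2
  rw [abs_le]; constructor <;> linarith [h1.1, h1.2, h2.1, h2.2]

/-- `HH' = Fs` -/
noncomputable def HH (u : ℝ) : ℝ := u ^ 2 * Real.log u / 2 - 3 * u ^ 2 / 4

lemma HH_neg (u : ℝ) : HH (-u) = HH u := by
  unfold HH; rw [Real.log_neg_eq_log]; ring

lemma HH_scale (N u : ℝ) (hN : 0 < N) :
    HH (N * u) = N ^ 2 * HH u + N ^ 2 * u ^ 2 * Real.log N / 2 := by
  unfold HH
  rcases eq_or_ne u 0 with h | h
  · simp [h]
  · rw [Real.log_mul hN.ne' h]; ring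

lemma HH_step_pos (n : ℕ) : |HH ((n:ℝ) + 1) - HH n - Fs ((n:ℝ) + 1)| ≤ Real.log ((n:ℝ) + 1) + 1 := by
  rcases Nat.eq_zero_or_pos n with h | h
  · subst h; norm_num [HH, Fs]
  · have hn : (1:ℝ) ≤ n := by exact_mod_cast h
    have hn0 : (0:ℝ) < n := by linarith
    have h1 : Real.log (((n:ℝ) + 1) / n) ≤ ((n:ℝ) + 1) / n - 1 :=
      Real.log_le_sub_one_of_pos (by positivity)
    have h2 : Real.log ((n:ℝ) / (n + 1)) ≤ (n:ℝ) / (n + 1) - 1 :=
      Real.log_le_sub_one_of_pos (by positivity)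
    rw [Real.log_div (by positivity) (by positivity)] at h1 h2
    set L1 := Real.log ((n:ℝ) + 1) with hL1
    set L0 := Real.log (n:ℝ) with hL0
    have hL1p : 0 ≤ L1 := Real.log_nonneg (by linarith)
    have e : HH ((n:ℝ) + 1) - HH n - Fs ((n:ℝ) + 1)
        = (n:ℝ) ^ 2 / 2 * (L1 - L0) - L1 / 2 - n / 2 + 1 / 4 := by
      unfold HH Fs; rw [← hL1, ← hL0]; ring
    rw [e]
    have h3 : (n:ℝ) ^ 2 / 2 * (L1 - L0) ≤ (n:ℝ) ^ 2 / 2 * (((n:ℝ) + 1) / n - 1) :=
      mul_le_mul_of_nonneg_left h1 (by positivity)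
    have h3' : (n:ℝ) ^ 2 / 2 * (((n:ℝ) + 1) / n - 1) = n / 2 := by field_simp; ring
    have h4 : (n:ℝ) ^ 2 / 2 * (1 - (n:ℝ) / (n + 1)) ≤ (n:ℝ) ^ 2 / 2 * (L1 - L0) :=
      mul_le_mul_of_nonneg_left (by linarith) (by positivity)
    have h4' : (n:ℝ) / 2 - 1 / 2 ≤ (n:ℝ) ^ 2 / 2 * (1 - (n:ℝ) / (n + 1)) := by
      have : (n:ℝ) ^ 2 / 2 * (1 - (n:ℝ) / (n + 1)) - ((n:ℝ) / 2 - 1 / 2) = 1 / (2 * (n + 1)) := by
        field_simp; ring
      have h5 : (0:ℝ) ≤ 1 / (2 * (n + 1)) := by positivity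
      linarith
    rw [abs_le]; constructor <;> linarith

lemma Fs_step (n : ℕ) : |Fs ((n:ℝ) + 1) - Fs n| ≤ Real.log ((n:ℝ) + 1) + 1 := by
  rcases Nat.eq_zero_or_pos n with h | h
  · subst h; norm_num [Fs]
  · have hn : (1:ℝ) ≤ n := by exact_mod_cast h
    have hn0 : (0:ℝ) < n := by linarith
    have h1 : Real.log (((n:ℝ) + 1) / n) ≤ ((n:ℝ) + 1) / n - 1 :=
      Real.log_le_sub_one_of_pos (by positivity)
    have h2 : Real.log ((n:ℝ) / (n + 1)) ≤ (n:ℝ) / (n + 1) - 1 :=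
      Real.log_le_sub_one_of_pos (by positivity)
    rw [Real.log_div (by positivity) (by positivity)] at h1 h2
    set L1 := Real.log ((n:ℝ) + 1) with hL1
    set L0 := Real.log (n:ℝ) with hL0
    have hL1p : 0 ≤ L1 := Real.log_nonneg (by linarith)
    have e : Fs ((n:ℝ) + 1) - Fs n = n * (L1 - L0) + L1 - 1 := by
      unfold Fs; rw [← hL1, ← hL0]; ring
    rw [e]
    have h3 : (n:ℝ) * (L1 - L0) ≤ n * (((n:ℝ) + 1) / n - 1) :=
      mul_le_mul_of_nonneg_left h1 (by positivity)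
    have h3' : (n:ℝ) * (((n:ℝ) + 1) / n - 1) = 1 := by field_simp; ring
    have h4 : 0 ≤ (n:ℝ) * (L1 - L0) := by
      have : (n:ℝ) / (n + 1) ≤ 1 := by rw [div_le_one (by positivity)]; linarith
      exact mul_nonneg hn0.le (by linarith)
    rw [abs_le]; constructor <;> linarith

lemma HH_step (j : ℤ) : |HH j - HH (j - 1) - Fs j| ≤ er j := by
  unfold er
  rcases lt_or_ge 0 j with h | h
  · obtain ⟨n, rfl⟩ : ∃ n : ℕ, j = (n:ℤ) + 1 := ⟨(j - 1).toNat, by omega⟩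
    have h1 := HH_step_pos n
    have e3 : |((((n:ℤ) + 1 : ℤ)) : ℝ)| = n + 1 := by
      push_cast; rw [abs_of_nonneg (by positivity)]
    rw [e3]; push_cast
    have e : (n:ℝ) + 1 - 1 = n := by ring
    rw [e]
    have h6 : Real.log ((n:ℝ) + 1) ≤ Real.log ((n:ℝ) + 1 + 3) :=
      Real.log_le_log (by positivity) (by linarith)
    have h5 := logn1 n
    linarith
  · obtain ⟨n, rfl⟩ : ∃ n : ℕ, j = -(n:ℤ) := ⟨(-j).toNat, by omega⟩
    have h1 := abs_le.1 (HH_step_pos n)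
    have h2 := abs_le.1 (Fs_step n)
    have e3 : |((-(n:ℤ) : ℤ) : ℝ)| = n := by simp
    rw [e3]; push_cast
    have e4 : -(n:ℝ) - 1 = -((n:ℝ) + 1) := by ring
    rw [e4, HH_neg, HH_neg, Fs_neg]
    have h6 : Real.log ((n:ℝ) + 1) ≤ Real.log ((n:ℝ) + 3) :=
      Real.log_le_log (by positivity) (by linarith)
    have h5 := logn1 n
    rw [abs_le]; constructor <;> linarith [h1.1, h1.2, h2.1, h2.2]

/-- a block sum of `Fs (l - c)` -/
lemma blkF (c : ℤ) (R : ℝ) {a b : ℕ} (hab : a ≤ b)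
    (hR : ∀ l ∈ Finset.Ioc a b, |((l:ℤ) - c : ℝ)| ≤ R) :
    |∑ l ∈ Finset.Ioc a b, Fs ((l:ℝ) - c) - (HH ((b:ℝ) - c) - HH ((a:ℝ) - c))|
      ≤ ((b:ℝ) - a) * er R := by
  induction b, hab using Nat.le_induction with
  | base => simp
  | succ b hb ih =>
    have ih' := ih (fun l hl => hR l (by
      rw [Finset.mem_Ioc] at hl ⊢; omega))
    rw [Finset.sum_Ioc_succ_top (by omega)]
    have h1 := HH_step ((b + 1 : ℤ) - c)
    have h2 := hR (b + 1) (by rw [Finset.mem_Ioc]; omega)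
    have h3 : er (((b + 1 : ℤ) - c : ℤ) : ℝ) ≤ er R := by
      apply er_mono
      have h4 : (0:ℝ) ≤ R := le_trans (abs_nonneg _) h2
      rw [abs_of_nonneg h4]
      push_cast at h2 ⊢
      exact h2
    have e1 : ((((b + 1 : ℤ) - c : ℤ) : ℝ)) = ((b + 1 : ℕ) : ℝ) - c := by push_cast; ring
    rw [e1] at h1 h3
    have e2 : ((b + 1 : ℕ) : ℝ) - c - 1 = (b:ℝ) - c := by push_cast; ring
    rw [e2] at h1
    have h5 := abs_le.1 (h1.trans h3)
    have h6 := abs_le.1 ih'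
    have e3 : (((b + 1 : ℕ) : ℝ) - a) * er R = ((b:ℝ) - a) * er R + er R := by push_cast; ring
    rw [e3, abs_le]
    constructor <;> linarith [h5.1, h5.2, h6.1, h6.2]

end Pool.QS2E
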