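import Pool.Agent.QS2.LowRank

/-!
# Change of basis to the Lagrange basis at reference points

For nodes `x`, reference points `z` and linear functionals `G n` (rows):
`‖det (G n (X^i))‖ * (VN z)^2 = VN x * ‖det M‖`, `M i j = ∑ n, Cm x z i n * G n (phi z j)`,
and the final bound `det_rows_bound`.
-/

namespace Pool.Agent.QS2

open Finset Matrix Polynomial

variable {N : ℕ}

/-- `phi z i = ∏_{m ≠ i} (X - z m)` -/
noncomputable def phi (z : Fin N → ℂ) (i : Fin N) : ℂ[X] := ∏ m ∈ univ.erase i, (X - C (z m))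

/-- the coefficient of `1/(x n - t)` in `p / ∏ (x m - t)` -/
noncomputable def pfr (x : Fin N → ℂ) (p : ℂ[X]) (n : Fin N) : ℂ :=
  p.eval (x n) / ∏ m ∈ univ.erase n, (x m - x n)

noncomputable def Cm (x z : Fin N → ℂ) : Matrix (Fin N) (Fin N) ℂ :=
  Matrix.of fun i n => pfr x (phi z i) n

/-- absolute value of the Vandermonde determinant -/
noncomputable def VN (v : Fin N → ℂ) : ℝ := ∏ i, ∏ j ∈ Ioi i, ‖v j - v i‖

theorem VN_eq (v : Fin N → ℂ) : VN v = ‖(vandermonde v).det‖ := by
  unfold VN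
  rw [det_vandermonde, norm_prod]
  exact prod_congr rfl (fun i _ => (norm_prod _ _).symm)

theorem VN_pos (v : Fin N → ℂ) (hv : Function.Injective v) : 0 < VN v := by
  refine prod_pos (fun i _ => prod_pos (fun j hj => ?_))
  rw [norm_pos_iff, sub_ne_zero]
  exact fun h => (mem_Ioi.mp hj).ne' (hv h)

theorem prod_off_diag (v : Fin N → ℂ) :
    ∏ k, ∏ m ∈ univ.erase k, ‖v m - v k‖ = VN v ^ 2 := by
  have h := Finset.prod_prod_Ioi_mul_eq_prod_prod_off_diag (fun i j : Fin N => ‖v i - v j‖)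
  have h1 : ∏ k, ∏ m ∈ univ.erase k, ‖v m - v k‖ = ∏ i, ∏ j ∈ ({i} : Finset (Fin N))ᶜ, ‖v j - v i‖ := by
    refine prod_congr rfl (fun k _ => ?_)
    refine prod_congr ?_ (fun _ _ => rfl)
    ext m
    simp
  rw [h1, ← h, VN, sq, ← prod_mul_distrib]
  refine prod_congr rfl (fun i _ => ?_)
  rw [← prod_mul_distrib]
  refine prod_congr rfl (fun j _ => ?_)
  rw [norm_sub_rev (v i) (v j)]

theorem phi_natDegree_lt (z : Fin N → ℂ) (i : Fin N) : (phi z i).natDegree < N := by
  unfold phi
  rw [natDegree_prod_of_monic _ _ (fun m _ => monic_X_sub_C (z m))]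
  simp only [natDegree_X_sub_C, sum_const, card_erase_of_mem (mem_univ i), card_univ,
    Fintype.card_fin, smul_eq_mul, mul_one]
  have := i.pos
  omega

theorem phi_eval (z : Fin N → ℂ) (i : Fin N) (t : ℂ) :
    (phi z i).eval t = ∏ m ∈ univ.erase i, (t - z m) := by
  unfold phi
  rw [eval_prod]
  exact prod_congr rfl (fun m _ => by simp)

/-- coefficient matrix of the Lagrange basis -/
noncomputable def Pm (z : Fin N → ℂ) : Matrix (Fin N) (Fin N) ℂ :=
  Matrix.of fun i j => (phi z j).coeff i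

theorem eval_sum_coeff (q : ℂ[X]) (hq : q.natDegree < N) (y : ℂ) :
    q.eval y = ∑ i : Fin N, y ^ (i : ℕ) * q.coeff i := by
  rw [eval_eq_sum_range' hq, ← Fin.sum_univ_eq_sum_range (fun i => q.coeff i * y ^ i) N]
  exact sum_congr rfl (fun i _ => mul_comm _ _)

theorem vander_mul_Pm (y z : Fin N → ℂ) :
    vandermonde y * Pm z = Matrix.of fun k j => (phi z j).eval (y k) := by
  ext k j
  rw [Matrix.mul_apply]
  change ∑ i, vandermonde y k i * (phi z j).coeff i = (phi z j).eval (y k)
  rw [eval_sum_coeff _ (phi_natDegree_lt z j)]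
  exact sum_congr rfl (fun i _ => by rw [vandermonde_apply])

theorem norm_det_Pm (z : Fin N → ℂ) (hz : Function.Injective z) : ‖(Pm z).det‖ = VN z := by
  have h1 : vandermonde z * Pm z = Matrix.diagonal fun k => ∏ m ∈ univ.erase k, (z k - z m) := by
    rw [vander_mul_Pm]
    ext k j
    change (phi z j).eval (z k) = _
    rw [phi_eval, Matrix.diagonal_apply]
    split_ifs with h
    · rw [h]
    · exact prod_eq_zero (mem_erase.mpr ⟨h, mem_univ k⟩) (sub_self _)
  have h2 := congrArg (fun M : Matrix (Fin N) (Fin N) ℂ => ‖M.det‖) h1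
  simp only [det_mul, norm_mul, det_diagonal, norm_prod] at h2
  rw [← VN_eq] at h2
  have h3 : ∏ k, ∏ m ∈ univ.erase k, ‖z k - z m‖ = VN z ^ 2 := by
    rw [← prod_off_diag]
    exact prod_congr rfl (fun k _ => prod_congr rfl (fun m _ => norm_sub_rev _ _))
  rw [h3, sq] at h2
  exact mul_left_cancel₀ (VN_pos z hz).ne' h2

theorem norm_det_Cm (x z : Fin N → ℂ) (hx : Function.Injective x) (hz : Function.Injective z) :
    ‖(Cm x z).det‖ * VN x = VN z := by
  have h1 : Cm x z = (Matrix.of fun k j => (phi z j).eval (x k))ᵀ *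
      Matrix.diagonal fun n => (∏ m ∈ univ.erase n, (x m - x n))⁻¹ := by
    ext i n
    rw [Matrix.mul_diagonal]
    rfl
  have h2 : ‖(Cm x z).det‖ = (VN x * VN z) * (VN x ^ 2)⁻¹ := by
    rw [h1, ← vander_mul_Pm, det_mul, det_transpose, det_mul, det_diagonal, norm_mul, norm_mul,
      ← VN_eq, norm_det_Pm z hz, norm_prod]
    congr 1
    rw [← prod_off_diag, ← prod_inv_distrib]
    exact prod_congr rfl (fun n _ => by rw [norm_inv, norm_prod])
  rw [h2]
  have := (VN_pos x hx).ne'
  field_simp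

/-- **Change of basis.** -/
theorem det_change (x z : Fin N → ℂ) (hx : Function.Injective x) (hz : Function.Injective z)
    (G : Fin N → ℂ[X] →ₗ[ℂ] ℂ) :
    ‖(Matrix.of fun i j => ∑ n, Cm x z i n * G n (phi z j)).det‖ * VN x =
      VN z ^ 2 * ‖(Matrix.of fun n i : Fin N => G n (X ^ (i : ℕ))).det‖ := by
  have h1 : (Matrix.of fun i j => ∑ n, Cm x z i n * G n (phi z j)) =
      Cm x z * ((Matrix.of fun n i : Fin N => G n (X ^ (i : ℕ))) * Pm z) := by
    ext i j
    rw [Matrix.mul_apply]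
    change ∑ n : Fin N, Cm x z i n * G n (phi z j) = ∑ n : Fin N, Cm x z i n *
      ((Matrix.of fun n i : Fin N => G n (X ^ (i : ℕ))) * Pm z) n j
    refine sum_congr rfl (fun n _ => ?_)
    congr 1
    rw [Matrix.mul_apply]
    change G n (phi z j) = ∑ i : Fin N, G n (X ^ (i : ℕ)) * (phi z j).coeff i
    conv_lhs => rw [(phi z j).as_sum_range' N (phi_natDegree_lt z j)]
    rw [map_sum, ← Fin.sum_univ_eq_sum_range (fun i => G n (monomial i ((phi z j).coeff i))) N]
    refine sum_congr rfl (fun i _ => ?_)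
    rw [← C_mul_X_pow_eq_monomial, ← smul_eq_C_mul, map_smul, smul_eq_mul, mul_comm]
  rw [h1, det_mul, det_mul, norm_mul, norm_mul, norm_det_Pm z hz]
  have h2 := norm_det_Cm x z hx hz
  calc ‖(Cm x z).det‖ * (‖(Matrix.of fun n i : Fin N => G n (X ^ (i : ℕ))).det‖ * VN z) * VN x
      = (‖(Cm x z).det‖ * VN x) * VN z *
        ‖(Matrix.of fun n i : Fin N => G n (X ^ (i : ℕ))).det‖ := by ring
    _ = _ := by rw [h2]; ring

/-- partial fractions -/
theorem partial_fractions (x : Fin N → ℂ) (hx : Function.Injective x) (p : ℂ[X])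
    (hp : p.natDegree < N) (t : ℂ) (ht : ∀ n, x n ≠ t) :
    ∑ n, pfr x p n * (x n - t)⁻¹ = p.eval t / ∏ n, (x n - t) := by
  have hN : 0 < N := lt_of_le_of_lt (Nat.zero_le _) hp
  have hdeg : p.degree < (univ : Finset (Fin N)).card := by
    rw [card_univ, Fintype.card_fin]
    exact lt_of_le_of_lt degree_le_natDegree (by exact_mod_cast hp)
  have h := Lagrange.eq_interpolate (s := univ) (v := x) hx.injOn hdeg
  have h2 := congrArg (Polynomial.eval t) h
  rw [Lagrange.interpolate_apply, eval_finsetSum] at h2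
  rw [h2, sum_div]
  refine sum_congr rfl (fun n _ => ?_)
  have e1 : (Lagrange.basis univ x n).eval t =
      (∏ m ∈ univ.erase n, (x m - t)) / ∏ m ∈ univ.erase n, (x m - x n) := by
    unfold Lagrange.basis
    rw [eval_prod, ← prod_div_distrib]
    refine prod_congr rfl (fun m hm => ?_)
    have hmn : x m - x n ≠ 0 := sub_ne_zero.mpr (fun h => (mem_erase.mp hm).1 (hx h))
    have hnm : x n - x m ≠ 0 := sub_ne_zero.mpr (fun h => (mem_erase.mp hm).1 (hx h).symm)
    unfold Lagrange.basisDivisor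
    simp only [eval_mul, eval_C, eval_sub, eval_X]
    field_simp
    ring
  have e2 : ∏ m, (x m - t) = (x n - t) * ∏ m ∈ univ.erase n, (x m - t) :=
    (mul_prod_erase univ _ (mem_univ n)).symm
  have hn : x n - t ≠ 0 := sub_ne_zero.mpr (ht n)
  have hp0 : ∏ m ∈ univ.erase n, (x m - t) ≠ 0 :=
    prod_ne_zero_iff.mpr (fun m _ => sub_ne_zero.mpr (ht m))
  have hq0 : ∏ m ∈ univ.erase n, (x m - x n) ≠ 0 :=
    prod_ne_zero_iff.mpr (fun m hm => sub_ne_zero.mpr (fun h => (mem_erase.mp hm).1 (hx h)))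
  rw [eval_mul, eval_C, e1, e2]
  unfold pfr
  field_simp

/-- the Gram matrix of a functional killed by the multiples of a monic polynomial -/
theorem rank_gram_le (B : ℂ[X] →ₗ[ℂ] ℂ) (T : ℂ[X]) (hT : T.Monic) (hB : ∀ g, B (T * g) = 0)
    (f : Fin N → ℂ[X]) :
    (Matrix.of fun i j => B (f i * f j) : Matrix (Fin N) (Fin N) ℂ).rank ≤ T.natDegree := by
  have h : (Matrix.of fun i j => B (f i * f j) : Matrix (Fin N) (Fin N) ℂ) =
      (Matrix.of fun (i : Fin N) (l : Fin T.natDegree) => (f i %ₘ T).coeff l) *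
        (Matrix.of fun (l : Fin T.natDegree) (j : Fin N) => B (X ^ (l : ℕ) * f j)) := by
    ext i j
    rw [Matrix.mul_apply]
    change B (f i * f j) = ∑ l : Fin T.natDegree, (f i %ₘ T).coeff l * B (X ^ (l : ℕ) * f j)
    have h1 : f i * f j = T * (f i /ₘ T * f j) + (f i %ₘ T) * f j := by
      conv_lhs => rw [← modByMonic_add_div (f i) T]
      ring
    rw [h1, map_add, hB, zero_add]
    by_cases hd : T.natDegree = 0
    · have hT1 : T = 1 := eq_one_of_monic_natDegree_zero hT hd
      subst hT1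
      simp
    · have h2 : (f i %ₘ T).natDegree < T.natDegree := natDegree_modByMonic_lt _ hT (by
        intro h; rw [h] at hd; simp at hd)
      conv_lhs => rw [(f i %ₘ T).as_sum_range' _ h2]
      rw [sum_mul, map_sum,
        ← Fin.sum_univ_eq_sum_range (fun l => B (monomial l ((f i %ₘ T).coeff l) * f j)) T.natDegree]
      refine sum_congr rfl (fun l _ => ?_)
      rw [← C_mul_X_pow_eq_monomial, mul_assoc, ← smul_eq_C_mul, map_smul, smul_eq_mul]
  rw [h]
  exact rank_le_of_factor _ _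

/-- low rank sum lemma with a remainder -/
theorem det_lowrank_tail {K : ℕ} (A : Fin K → Matrix (Fin N) (Fin N) ℂ)
    (E : Matrix (Fin N) (Fin N) ℂ) (c : Fin K → ℕ) (w : Fin K → ℝ) (hw : ∀ k, 0 < w k)
    (hr : ∀ k, (A k).rank ≤ c k) (hA : ∀ k i j, ‖A k i j‖ ≤ w k) (lam : ℝ)
    (hE : ∀ i j, ‖E i j‖ ≤ Real.exp lam) :
    ‖(∑ k, A k + E).det‖ ≤ (N.factorial : ℝ) * ((K : ℝ) + 1) ^ N *
      Real.exp (N * lam + ∑ k, (c k : ℝ) * max (Real.log (w k) - lam) 0) := by
  have h := det_sum_lowrank (N := N) (ι := Option (Fin K))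
    (fun o => o.elim E A) (fun o => o.elim N c) (fun o => o.elim (Real.exp lam) w)
    (by intro o; cases o with
        | none => exact Real.exp_pos _
        | some k => exact hw k)
    (by intro o; cases o with
        | none =>
          have := Matrix.rank_le_card_width E
          simpa using this
        | some k => exact hr k)
    (by intro o; cases o with
        | none => exact hE
        | some k => exact hA k) lam
  rw [Fintype.sum_option, Fintype.sum_option] at h
  simp only [Option.elim_none, Option.elim_some, Fintype.card_option, Fintype.card_fin,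
    Real.log_exp, sub_self, max_self, mul_zero, zero_add] at h
  rw [add_comm]
  push_cast at h
  exact h

/-- **Final bound**: rows `G n` (linear functionals), boxes `B k` killed by the monic `T k`. -/
theorem det_rows_bound {K : ℕ} (x z : Fin N → ℂ) (hx : Function.Injective x)
    (hz : Function.Injective z) (G : Fin N → ℂ[X] →ₗ[ℂ] ℂ) (B : Fin K → ℂ[X] →ₗ[ℂ] ℂ)
    (T : Fin K → ℂ[X]) (hT : ∀ k, (T k).Monic) (hBT : ∀ k g, B k (T k * g) = 0)
    (E : Matrix (Fin N) (Fin N) ℂ)
    (hG : ∀ i j, ∑ n, Cm x z i n * G n (phi z j) = ∑ k, B k (phi z i * phi z j) + E i j)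
    (w : Fin K → ℝ) (hw : ∀ k, 0 < w k) (hB : ∀ k i j, ‖B k (phi z i * phi z j)‖ ≤ w k) (lam : ℝ)
    (hE : ∀ i j, ‖E i j‖ ≤ Real.exp lam) :
    ‖(Matrix.of fun n i : Fin N => G n (X ^ (i : ℕ))).det‖ * VN z ^ 2 ≤
      VN x * ((N.factorial : ℝ) * ((K : ℝ) + 1) ^ N *
        Real.exp (N * lam + ∑ k, ((T k).natDegree : ℝ) * max (Real.log (w k) - lam) 0)) := by
  have h1 : (Matrix.of fun i j => ∑ n, Cm x z i n * G n (phi z j)) =
      ∑ k, (Matrix.of fun i j => B k (phi z i * phi z j)) + E := by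
    ext i j
    rw [Matrix.add_apply, Matrix.sum_apply]
    exact hG i j
  have h2 := det_change x z hx hz G
  rw [mul_comm, ← h2, h1, mul_comm]
  exact mul_le_mul_of_nonneg_left (det_lowrank_tail _ E (fun k => (T k).natDegree) w hw
    (fun k => rank_gram_le (B k) (T k) (hT k) (hBT k) _) hB lam hE) (VN_pos x hx).le

end Pool.Agent.QS2
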