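import Pool.Agent.QS2.Defs
import Pool.Agent.QS2.FacSum
import Pool.Agent.QS2.LagDet
import Pool.Agent.QS2.CertReal

/-!
# Superfactorials and the Vandermonde determinant of the two-sided nodes

* `SF_bd` : `|∑_{i<c} log i! - HH c| ≤ 3 c (log (c+1) + 1)`;
* `VN_nodes` : the Vandermonde of `1, …, A, -3, …, -A-2`;
* `D_le` : the factorials of `QS2.fullM_sq`;
* `cert_fin2` : the final constant.
-/

set_option autoImplicit false

namespace Pool.QS2E

open Finset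

/-- `∑_{i<c} log i!` -/
noncomputable def SF (c : ℕ) : ℝ := ∑ i ∈ range c, S i

lemma SF_succ (c : ℕ) : SF (c + 1) = SF c + S c := by unfold SF; rw [sum_range_succ]

lemma SF_zero : SF 0 = 0 := by simp [SF]

lemma S_nonneg (n : ℕ) : 0 ≤ S n := by
  unfold S
  exact Real.log_nonneg (by exact_mod_cast n.factorial_pos)

lemma SF_mono {a b : ℕ} (h : a ≤ b) : SF a ≤ SF b := by
  unfold SF
  exact sum_le_sum_of_subset_of_nonneg (range_mono h) (fun i _ _ => S_nonneg i)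

lemma HH_zero' : HH 0 = 0 := by simp [HH]

lemma SF_bd (c : ℕ) : |SF c - HH c| ≤ 3 * c * (Real.log ((c : ℝ) + 1) + 1) := by
  induction c with
  | zero => simp [SF_zero, HH_zero']
  | succ n ih =>
    rw [SF_succ]
    have h1 := abs_le.1 (HH_step_pos n)
    have h2 := abs_le.1 (Fs_step n)
    have h3 := S_ge n
    have h4 := S_le n
    have h5 := abs_le.1 ih
    have h6 : Real.log ((n : ℝ) + 1) ≤ Real.log (((n + 1 : ℕ) : ℝ) + 1) :=
      Real.log_le_log (by positivity) (by push_cast; linarith)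
    have h7 : 3 * (n : ℝ) * (Real.log ((n : ℝ) + 1) + 1) ≤
        3 * (n : ℝ) * (Real.log (((n + 1 : ℕ) : ℝ) + 1) + 1) :=
      mul_le_mul_of_nonneg_left (by linarith) (by positivity)
    have e : 3 * ((n + 1 : ℕ) : ℝ) * (Real.log (((n + 1 : ℕ) : ℝ) + 1) + 1) =
        3 * (n : ℝ) * (Real.log (((n + 1 : ℕ) : ℝ) + 1) + 1) +
          3 * (Real.log (((n + 1 : ℕ) : ℝ) + 1) + 1) := by push_cast; ring
    rw [e]
    have e2 : ((n + 1 : ℕ) : ℝ) = (n : ℝ) + 1 := by push_cast; ring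
    have e3 : HH ((n + 1 : ℕ) : ℝ) = HH ((n : ℝ) + 1) := by rw [e2]
    rw [e3, abs_le]
    constructor <;> linarith [h1.1, h1.2, h2.1, h2.2, h5.1, h5.2]

/-- `log (2A+4) ≤ 3 log (A+1)` -/
lemma log_le3 {A : ℕ} (hA : 1 ≤ A) {x : ℝ} (hx : 0 < x) (h : x ≤ 2 * A + 6) :
    Real.log x ≤ 3 * Real.log ((A : ℝ) + 1) := by
  have hA' : (1 : ℝ) ≤ A := by exact_mod_cast hA
  have h1 : (3 : ℝ) * Real.log ((A : ℝ) + 1) = Real.log (((A : ℝ) + 1) ^ 3) := by
    rw [Real.log_pow]; norm_num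
  rw [h1]
  apply Real.log_le_log hx
  nlinarith [mul_nonneg (sub_nonneg.2 hA') (sub_nonneg.2 hA'), mul_nonneg (sub_nonneg.2 hA')
    (mul_nonneg (sub_nonneg.2 hA') (sub_nonneg.2 hA'))]

lemma one_le_log {A : ℕ} (hA : 1 ≤ A) : 1 ≤ 2 * Real.log ((A : ℝ) + 1) := by
  have hA' : (1 : ℝ) ≤ A := by exact_mod_cast hA
  have h1 : Real.log 2 ≤ Real.log ((A : ℝ) + 1) := Real.log_le_log (by norm_num) (by linarith)
  have h2 := Real.log_two_gt_d9
  linarith

/-- one step of `HH` in a range of size `2A+6` -/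
lemma HH_step_bd {A : ℕ} (hA : 1 ≤ A) (n : ℕ) (hn : n + 1 ≤ 2 * A + 5) :
    |HH ((n : ℝ) + 1) - HH n| ≤ 50 * (A * Real.log ((A : ℝ) + 1)) := by
  have hA' : (1 : ℝ) ≤ A := by exact_mod_cast hA
  have hn' : (n : ℝ) + 1 ≤ 2 * A + 5 := by exact_mod_cast hn
  have h1 := abs_le.1 (HH_step_pos n)
  have h2 : Real.log ((n : ℝ) + 1) ≤ 3 * Real.log ((A : ℝ) + 1) :=
    log_le3 hA (by positivity) (by linarith)
  have h3 := one_le_log hA
  have h4 := logn1 n
  have h5 : Fs ((n : ℝ) + 1) = ((n : ℝ) + 1) * Real.log ((n : ℝ) + 1) - ((n : ℝ) + 1) := rfl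
  have h6 : ((n : ℝ) + 1) * Real.log ((n : ℝ) + 1) ≤
      (2 * A + 5) * (3 * Real.log ((A : ℝ) + 1)) :=
    mul_le_mul hn' h2 h4 (by linarith)
  have h7 : 0 ≤ ((n : ℝ) + 1) * Real.log ((n : ℝ) + 1) := by positivity
  have h8 : Real.log ((A : ℝ) + 1) ≤ A * Real.log ((A : ℝ) + 1) := by nlinarith
  have h9 : (2 * (A : ℝ) + 5) ≤ (2 * A + 5) * (2 * Real.log ((A : ℝ) + 1)) := by nlinarith
  have h10 : (A : ℝ) ≤ A * (2 * Real.log ((A : ℝ) + 1)) := by nlinarith
  rw [abs_le]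
  constructor <;> nlinarith [h1.1, h1.2]

lemma HH_steps_bd {A : ℕ} (hA : 1 ≤ A) (n d : ℕ) (hn : n + d ≤ 2 * A + 5) :
    |HH ((n + d : ℕ) : ℝ) - HH n| ≤ d * (50 * (A * Real.log ((A : ℝ) + 1))) := by
  induction d with
  | zero => simp
  | succ d ih =>
    have h1 := ih (by omega)
    have h2 := HH_step_bd hA (n + d) (by omega)
    have e : ((n + (d + 1) : ℕ) : ℝ) = ((n + d : ℕ) : ℝ) + 1 := by push_cast; ring
    rw [e]
    have e2 : HH (((n + d : ℕ) : ℝ) + 1) - HH n =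
        (HH (((n + d : ℕ) : ℝ) + 1) - HH ((n + d : ℕ) : ℝ)) + (HH ((n + d : ℕ) : ℝ) - HH n) := by ring
    rw [e2]
    refine (abs_add_le _ _).trans ?_
    push_cast at h1 h2 ⊢
    linarith

/-! ### factorials of `fullM_sq` -/

lemma HH_up {a b : ℝ} (ha : 0 < a) (hab : a ≤ b) (hb : b ≤ 2 * a) (hd : b - a ≤ 1) (L : ℝ)
    (hL : Real.log a ≤ L) (hL0 : 0 ≤ L) :
    HH b ≤ HH a + 3 / 2 * a * L + 2 * a := by
  have hb0 : 0 < b := lt_of_lt_of_le ha hab
  have h1 : Real.log (b / a) ≤ b / a - 1 := Real.log_le_sub_one_of_pos (by positivity)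
  rw [Real.log_div hb0.ne' ha.ne'] at h1
  have h2 : Real.log b ≤ Real.log a + (b - a) / a := by
    have : b / a - 1 = (b - a) / a := by field_simp
    linarith
  have h3 : b ^ 2 / 2 * Real.log b ≤ b ^ 2 / 2 * (Real.log a + (b - a) / a) :=
    mul_le_mul_of_nonneg_left h2 (by positivity)
  have h4 : b ^ 2 / 2 * ((b - a) / a) ≤ 2 * a := by
    rw [div_mul_div_comm, div_le_iff₀ (by positivity)]
    have h5 : b ^ 2 ≤ 4 * a ^ 2 := by nlinarith
    have h6 : b ^ 2 * (b - a) ≤ b ^ 2 * 1 := mul_le_mul_of_nonneg_left hd (by positivity)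
    nlinarith
  have h5 : (b ^ 2 - a ^ 2) / 2 * Real.log a ≤ 3 / 2 * a * L := by
    have h6 : 0 ≤ b ^ 2 - a ^ 2 := by nlinarith
    have h7 : b ^ 2 - a ^ 2 ≤ 3 * a := by nlinarith
    have h8 : (b ^ 2 - a ^ 2) / 2 * Real.log a ≤ (b ^ 2 - a ^ 2) / 2 * L :=
      mul_le_mul_of_nonneg_left hL (by linarith)
    have h9 : (b ^ 2 - a ^ 2) / 2 * L ≤ (3 * a) / 2 * L :=
      mul_le_mul_of_nonneg_right (by linarith) hL0
    linarith
  unfold HH
  have h10 : 0 ≤ b ^ 2 - a ^ 2 := by nlinarith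
  linarith

lemma HH_dn {a b : ℝ} (ha : 0 < a) (hab : a ≤ b) (hb : b ≤ 2 * a) (hd : b - a ≤ 1) :
    HH a ≤ HH b + 2 := by
  have hb0 : 0 < b := lt_of_lt_of_le ha hab
  have h1 : Real.log (a / b) ≤ a / b - 1 := Real.log_le_sub_one_of_pos (by positivity)
  rw [Real.log_div ha.ne' hb0.ne'] at h1
  have h0 : Real.log (1 / a) ≤ 1 / a - 1 := Real.log_le_sub_one_of_pos (by positivity)
  rw [Real.log_div one_ne_zero ha.ne', Real.log_one] at h0
  have h2 : Real.log a + (b - a) / b ≤ Real.log b := by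
    have : a / b - 1 = -((b - a) / b) := by field_simp; ring
    linarith
  have h3 : b ^ 2 / 2 * (Real.log a + (b - a) / b) ≤ b ^ 2 / 2 * Real.log b :=
    mul_le_mul_of_nonneg_left h2 (by positivity)
  have h4 : b ^ 2 / 2 * ((b - a) / b) = b * (b - a) / 2 := by field_simp
  have h5 : 0 ≤ (b ^ 2 - a ^ 2) / 2 := by nlinarith
  have h6 : (b ^ 2 - a ^ 2) / 2 * (1 - 1 / a) ≤ (b ^ 2 - a ^ 2) / 2 * Real.log a :=
    mul_le_mul_of_nonneg_left (by linarith) h5
  have h7 : (b ^ 2 - a ^ 2) / 2 * (1 / a) ≤ 3 / 2 := by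
    rw [div_mul_div_comm, div_le_iff₀ (by positivity)]
    nlinarith
  unfold HH
  have h8 : (b - a) * (b - a) ≥ 0 := mul_self_nonneg _
  nlinarith

lemma sum_fac_shift (m n : ℕ) : ∑ d ∈ range n, S (m + d) = SF (m + n) - SF m := by
  induction n with
  | zero => simp
  | succ n ih => rw [sum_range_succ, ih, ← add_assoc, SF_succ]; ring

/-- the factorials of `QS2.fullM_sq` -/
theorem D_le (A ρ : ℕ) (hA : 1 ≤ A) (h1 : 2 * ρ ≤ A) (h2 : A ≤ 2 * ρ + 2) :
    ∑ d ∈ range (2 * ρ), S (A - ρ + d) - 2 * ∑ i ∈ range (A + ρ), S i ≤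
      -(5 / 4) * (A : ℝ) ^ 2 * Real.log A -
        (A : ℝ) ^ 2 * (Pool.Agent.QS2.hC (3 / 2) + Pool.Agent.QS2.hC (1 / 2)) +
        100 * (A * Real.log ((A : ℝ) + 1)) := by
  have hA' : (1 : ℝ) ≤ A := by exact_mod_cast hA
  have hρ1 : 2 * (ρ : ℝ) ≤ A := by exact_mod_cast h1
  have hρ2 : (A : ℝ) ≤ 2 * ρ + 2 := by exact_mod_cast h2
  have hρ0 : (0 : ℝ) ≤ ρ := Nat.cast_nonneg _
  set L := Real.log ((A : ℝ) + 1) with hL
  have hL1 := one_le_log hA
  rw [← hL] at hL1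
  have e0 : A - ρ + 2 * ρ = A + ρ := by omega
  rw [sum_fac_shift, e0]
  change SF (A + ρ) - SF (A - ρ) - 2 * SF (A + ρ) ≤ _
  have b1 := (abs_le.1 (SF_bd (A + ρ))).1
  have b2 := (abs_le.1 (SF_bd (A - ρ))).1
  have c1 : ((A + ρ : ℕ) : ℝ) = (A : ℝ) + ρ := by push_cast; ring
  have c2 : ((A - ρ : ℕ) : ℝ) = (A : ℝ) - ρ := by rw [Nat.cast_sub (by omega)]
  rw [c1] at b1
  rw [c2] at b2
  have l1 : Real.log ((A : ℝ) + ρ + 1) ≤ 3 * L := log_le3 hA (by linarith) (by linarith)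
  have l2 : Real.log ((A : ℝ) - ρ + 1) ≤ 3 * L := log_le3 hA (by linarith) (by linarith)
  have l3 : Real.log (A : ℝ) ≤ L := Real.log_le_log (by linarith) (by linarith)
  have l4 : Real.log ((A : ℝ) + ρ) ≤ 3 * L := log_le3 hA (by linarith) (by linarith)
  -- HH (3A/2) ≤ HH (A+ρ) + ...
  have u1 := HH_up (a := (A : ℝ) + ρ) (b := A * (3 / 2)) (by linarith) (by linarith) (by linarith)
    (by linarith) (3 * L) l4 (by linarith)
  have u2 := HH_dn (a := A * (1 / 2)) (b := (A : ℝ) - ρ) (by linarith) (by linarith)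
    (by
      rcases Nat.lt_or_ge A 2 with h | h
      · have hh : A = 1 := by omega
        subst hh
        push_cast; linarith
      · have : (2 : ℝ) ≤ A := by exact_mod_cast h
        linarith) (by linarith)
  rw [HH_scale (A : ℝ) (3 / 2) (by linarith)] at u1
  rw [HH_scale (A : ℝ) (1 / 2) (by linarith)] at u2
  have f1 : HH (3 / 2) = Pool.Agent.QS2.hC (3 / 2) := by
    unfold HH Pool.Agent.QS2.hC; ring
  have f2 : HH (1 / 2) = Pool.Agent.QS2.hC (1 / 2) := by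
    unfold HH Pool.Agent.QS2.hC; ring
  rw [f1] at u1
  rw [f2] at u2
  have g1 : 3 * ((A : ℝ) + ρ) * (Real.log ((A : ℝ) + ρ + 1) + 1) ≤
      3 * (3 / 2 * A) * (3 * L + 2 * L) :=
    mul_le_mul (by linarith) (by linarith) (by
      have : 0 ≤ Real.log ((A : ℝ) + ρ + 1) := Real.log_nonneg (by linarith)
      linarith) (by linarith)
  have g2 : 3 * ((A : ℝ) - ρ) * (Real.log ((A : ℝ) - ρ + 1) + 1) ≤
      3 * A * (3 * L + 2 * L) :=
    mul_le_mul (by linarith) (by linarith) (by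
      have : 0 ≤ Real.log ((A : ℝ) - ρ + 1) := Real.log_nonneg (by linarith)
      linarith) (by linarith)
  have g3 : 3 / 2 * ((A : ℝ) + ρ) * (3 * L) ≤ 3 / 2 * (3 / 2 * A) * (3 * L) :=
    mul_le_mul_of_nonneg_right (by linarith) (by linarith)
  have g4 : 2 * ((A : ℝ) + ρ) ≤ 3 * A * (2 * L) := by nlinarith
  have g5 : (2 : ℝ) ≤ 4 * (A * L) := by nlinarith
  nlinarith

/-! ### the Vandermonde determinant of the nodes -/

lemma sum_log_shift (m n : ℕ) : ∑ j ∈ range n, Real.log ((m : ℝ) + j + 1) = S (m + n) - S m := by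
  induction n with
  | zero => simp
  | succ n ih =>
    rw [sum_range_succ, ih, ← add_assoc, S_succ]
    push_cast
    ring

lemma sum_log_refl (n : ℕ) : ∑ j ∈ range n, Real.log |(n : ℝ) - j| = S n := by
  have h := sum_log_shift 0 n
  rw [zero_add, S_zero, sub_zero] at h
  rw [← h, ← sum_range_reflect]
  refine sum_congr rfl (fun j hj => ?_)
  have hj' := mem_range.1 hj
  have e : ((n - 1 - j : ℕ) : ℝ) = (n : ℝ) - 1 - j := by
    rw [Nat.cast_sub (by omega), Nat.cast_sub (by omega)]; simp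
  rw [e]
  congr 1
  have : (0 : ℝ) ≤ j := Nat.cast_nonneg _
  have h2 : (n : ℝ) - ((n : ℝ) - 1 - j) = (j : ℝ) + 1 := by ring
  rw [h2, abs_of_nonneg (by positivity)]
  push_cast
  ring

lemma sum_rr (A : ℕ) : ∑ i ∈ range A, ∑ j ∈ range A, Real.log |(j : ℝ) - i| = 2 * SF A := by
  induction A with
  | zero => simp [SF_zero]
  | succ n ih =>
    rw [sum_range_succ]
    have e1 : ∑ i ∈ range n, ∑ j ∈ range (n + 1), Real.log |(j : ℝ) - i| =
        ∑ i ∈ range n, ∑ j ∈ range n, Real.log |(j : ℝ) - i| +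
          ∑ i ∈ range n, Real.log |(n : ℝ) - i| := by
      rw [← sum_add_distrib]
      exact sum_congr rfl (fun i _ => sum_range_succ _ _)
    rw [e1, ih, sum_range_succ, sum_log_refl, SF_succ]
    have e2 : ∑ j ∈ range n, Real.log |(j : ℝ) - n| = S n := by
      rw [← sum_log_refl n]
      exact sum_congr rfl (fun j _ => by rw [abs_sub_comm])
    rw [e2, sub_self, abs_zero, Real.log_zero]
    ring

lemma sum_rl (A : ℕ) : ∑ i ∈ range A, ∑ j ∈ range A, Real.log ((i : ℝ) + j + 4) =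
    SF (2 * A + 3) - 2 * SF (A + 3) + SF 3 := by
  have e1 : ∀ i ∈ range A, ∑ j ∈ range A, Real.log ((i : ℝ) + j + 4) =
      S (A + 3 + i) - S (3 + i) := by
    intro i _
    have h := sum_log_shift (i + 3) A
    have e2 : i + 3 + A = A + 3 + i := by ring
    have e3 : i + 3 = 3 + i := by ring
    rw [e2, e3] at h
    rw [← h]
    refine sum_congr rfl (fun j _ => ?_)
    congr 1
    push_cast; ring
  rw [sum_congr rfl e1, sum_sub_distrib, sum_fac_shift, sum_fac_shift]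
  have e4 : A + 3 + A = 2 * A + 3 := by ring
  have e5 : 3 + A = A + 3 := by ring
  rw [e4, e5]
  ring

lemma SF_three : SF 3 ≤ 1 := by
  have h : SF 3 = Real.log 2 := by
    unfold SF S
    rw [sum_range_succ, sum_range_succ, sum_range_succ]
    simp
  rw [h]
  have := Real.log_two_lt_d9
  linarith

/-- sum over all pairs of the two-sided nodes -/
lemma sum_nodes (A : ℕ) : ∑ a : QS2.Nd A, ∑ b : QS2.Nd A,
    Real.log |((QS2.nodeZ A b : ℤ) : ℝ) - ((QS2.nodeZ A a : ℤ) : ℝ)| =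
      4 * SF A + 2 * (SF (2 * A + 3) - 2 * SF (A + 3) + SF 3) := by
  rw [Fintype.sum_sum_type]
  simp only [Fintype.sum_sum_type, QS2.nodeZ]
  rw [sum_add_distrib, sum_add_distrib]
  have r1 : ∑ x : Fin A, ∑ y : Fin A,
      Real.log |((((y : ℕ) : ℤ) + 1 : ℤ) : ℝ) - ((((x : ℕ) : ℤ) + 1 : ℤ) : ℝ)| = 2 * SF A := by
    rw [← sum_rr A, ← Fin.sum_univ_eq_sum_range
      (fun i => ∑ j ∈ range A, Real.log |(j : ℝ) - i|)]
    refine sum_congr rfl (fun i _ => ?_)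
    rw [← Fin.sum_univ_eq_sum_range (fun j => Real.log |(j : ℝ) - (i : ℕ)|)]
    refine sum_congr rfl (fun j _ => ?_)
    congr 2
    push_cast; ring
  have r2 : ∑ x : Fin A, ∑ y : Fin A,
      Real.log |((-3 - ((y : ℕ) : ℤ) : ℤ) : ℝ) - ((-3 - ((x : ℕ) : ℤ) : ℤ) : ℝ)| = 2 * SF A := by
    rw [← sum_rr A, ← Fin.sum_univ_eq_sum_range
      (fun i => ∑ j ∈ range A, Real.log |(j : ℝ) - i|)]
    refine sum_congr rfl (fun i _ => ?_)
    rw [← Fin.sum_univ_eq_sum_range (fun j => Real.log |(j : ℝ) - (i : ℕ)|)]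
    refine sum_congr rfl (fun j _ => ?_)
    congr 1
    rw [abs_sub_comm]
    congr 1
    push_cast; ring
  have r3 : ∑ x : Fin A, ∑ y : Fin A,
      Real.log |((-3 - ((y : ℕ) : ℤ) : ℤ) : ℝ) - ((((x : ℕ) : ℤ) + 1 : ℤ) : ℝ)| =
        SF (2 * A + 3) - 2 * SF (A + 3) + SF 3 := by
    rw [← sum_rl A, ← Fin.sum_univ_eq_sum_range
      (fun i => ∑ j ∈ range A, Real.log ((i : ℝ) + j + 4))]
    refine sum_congr rfl (fun i _ => ?_)
    rw [← Fin.sum_univ_eq_sum_range (fun j => Real.log (((i : ℕ) : ℝ) + j + 4))]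
    refine sum_congr rfl (fun j _ => ?_)
    congr 1
    rw [abs_sub_comm, abs_of_nonneg (by push_cast; linarith [Nat.cast_nonneg (α := ℝ) (i : ℕ), Nat.cast_nonneg (α := ℝ) (j : ℕ)])]
    push_cast; ring
  have r4 : ∑ x : Fin A, ∑ y : Fin A,
      Real.log |((((y : ℕ) : ℤ) + 1 : ℤ) : ℝ) - ((-3 - ((x : ℕ) : ℤ) : ℤ) : ℝ)| =
        SF (2 * A + 3) - 2 * SF (A + 3) + SF 3 := by
    rw [← sum_rl A, ← Fin.sum_univ_eq_sum_range
      (fun i => ∑ j ∈ range A, Real.log ((i : ℝ) + j + 4))]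
    refine sum_congr rfl (fun i _ => ?_)
    rw [← Fin.sum_univ_eq_sum_range (fun j => Real.log (((i : ℕ) : ℝ) + j + 4))]
    refine sum_congr rfl (fun j _ => ?_)
    congr 1
    rw [abs_of_nonneg (by push_cast; linarith [Nat.cast_nonneg (α := ℝ) (i : ℕ), Nat.cast_nonneg (α := ℝ) (j : ℕ)])]
    push_cast; ring
  rw [r1, r2, r3, r4]
  ring

/-- an upper bound for the sum over pairs -/
lemma pairs_le (A : ℕ) (hA : 1 ≤ A) :
    4 * SF A + 2 * (SF (2 * A + 3) - 2 * SF (A + 3) + SF 3) ≤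
      2 * ((A : ℝ) ^ 2 * (2 * Real.log A + 2 * Real.log 2 - 3) +
        250 * (A * Real.log ((A : ℝ) + 1))) := by
  have hA' : (1 : ℝ) ≤ A := by exact_mod_cast hA
  set L := Real.log ((A : ℝ) + 1) with hL
  have hL1 := one_le_log hA
  rw [← hL] at hL1
  have h1 : SF A ≤ SF (A + 3) := SF_mono (by omega)
  have h2 := (abs_le.1 (SF_bd (2 * A + 3))).2
  have h3 := SF_three
  have h4 := (abs_le.1 (HH_steps_bd hA (2 * A) 3 (by omega))).2
  have h5 : Real.log (((2 * A + 3 : ℕ) : ℝ) + 1) ≤ 3 * L :=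
    log_le3 hA (by positivity) (by push_cast; linarith)
  have h6 : 3 * ((2 * A + 3 : ℕ) : ℝ) * (Real.log (((2 * A + 3 : ℕ) : ℝ) + 1) + 1) ≤
      3 * (5 * A) * (3 * L + 2 * L) :=
    mul_le_mul (by push_cast; linarith) (by linarith) (by
      have : 0 ≤ Real.log (((2 * A + 3 : ℕ) : ℝ) + 1) := Real.log_nonneg (by push_cast; linarith)
      linarith) (by linarith)
  have h7 : HH ((2 * A : ℕ) : ℝ) = (A : ℝ) ^ 2 * (2 * Real.log A + 2 * Real.log 2 - 3) := by
    have e : ((2 * A : ℕ) : ℝ) = A * 2 := by push_cast; ring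
    rw [e, HH_scale (A : ℝ) 2 (by linarith)]
    unfold HH
    ring
  have h8 : (1 : ℝ) ≤ 2 * (A * L) := by nlinarith
  have e9 : ((2 * A + 3 : ℕ) : ℝ) = ((2 * A + 3 : ℕ) : ℝ) := rfl
  rw [h7] at h4
  push_cast at h2 h4 h6 ⊢
  nlinarith

/-- **The Vandermonde determinant of the two-sided nodes** -/
theorem VN_nodes (A : ℕ) (hA : 1 ≤ A) {n : ℕ} (g : Fin n ≃ QS2.Nd A) :
    Pool.Agent.QS2.VN (fun s => (((QS2.nodeZ A (g s) : ℤ) : ℝ) : ℂ)) ≤
      Real.exp ((A : ℝ) ^ 2 * (2 * Real.log A + 2 * Real.log 2 - 3) +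
        250 * (A * Real.log ((A : ℝ) + 1))) := by
  have hinj : Function.Injective (fun s => (((QS2.nodeZ A (g s) : ℤ) : ℝ) : ℂ)) := by
    intro a b h
    have h1 : QS2.nodeZ A (g a) = QS2.nodeZ A (g b) := by
      simp only at h
      exact_mod_cast h
    apply g.injective
    rcases ha : g a with i | i <;> rcases hb : g b with j | j <;> rw [ha, hb] at h1 <;>
      simp only [QS2.nodeZ] at h1
    · congr 1; apply Fin.ext; omega
    · omega
    · omega
    · congr 1; apply Fin.ext; omega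
  have hpos := Pool.Agent.QS2.VN_pos _ hinj
  rw [← Real.log_le_iff_le_exp hpos]
  have h2 := Pool.Agent.QS2.prod_off_diag (fun s => (((QS2.nodeZ A (g s) : ℤ) : ℝ) : ℂ))
  have h3 : 2 * Real.log (Pool.Agent.QS2.VN (fun s => (((QS2.nodeZ A (g s) : ℤ) : ℝ) : ℂ))) =
      ∑ a : QS2.Nd A, ∑ b : QS2.Nd A,
        Real.log |((QS2.nodeZ A b : ℤ) : ℝ) - ((QS2.nodeZ A a : ℤ) : ℝ)| := by
    have h4 : 2 * Real.log (Pool.Agent.QS2.VN (fun s => (((QS2.nodeZ A (g s) : ℤ) : ℝ) : ℂ))) =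
        Real.log (Pool.Agent.QS2.VN (fun s => (((QS2.nodeZ A (g s) : ℤ) : ℝ) : ℂ)) ^ 2) := by
      rw [Real.log_pow]; norm_num
    rw [h4, ← h2, Real.log_prod]
    · rw [← g.sum_comp (fun a => ∑ b : QS2.Nd A,
        Real.log |((QS2.nodeZ A b : ℤ) : ℝ) - ((QS2.nodeZ A a : ℤ) : ℝ)|)]
      refine sum_congr rfl (fun k _ => ?_)
      rw [← g.sum_comp (fun b =>
        Real.log |((QS2.nodeZ A b : ℤ) : ℝ) - ((QS2.nodeZ A (g k) : ℤ) : ℝ)|)]
      rw [Real.log_prod, ← add_sum_erase univ _ (mem_univ k)]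
      · rw [sub_self, abs_zero, Real.log_zero, zero_add]
        refine sum_congr rfl (fun m _ => ?_)
        rw [← Complex.ofReal_sub, Complex.norm_real, Real.norm_eq_abs]
      · intro m hm
        rw [norm_ne_zero_iff, sub_ne_zero]
        exact fun h => (ne_of_mem_erase hm) (hinj h)
    · intro k _
      rw [prod_ne_zero_iff]
      intro m hm
      rw [norm_ne_zero_iff, sub_ne_zero]
      exact fun h => (ne_of_mem_erase hm) (hinj h)
  have h5 := pairs_le A hA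
  rw [sum_nodes] at h3
  linarith

/-- the same with the cast `ℤ → ℂ` -/
theorem VN_nodesC (A : ℕ) (hA : 1 ≤ A) {n : ℕ} (g : Fin n ≃ QS2.Nd A) :
    Pool.Agent.QS2.VN (fun s => ((QS2.nodeZ A (g s) : ℤ) : ℂ)) ≤
      Real.exp ((A : ℝ) ^ 2 * (2 * Real.log A + 2 * Real.log 2 - 3) +
        250 * (A * Real.log ((A : ℝ) + 1))) := by
  have h := VN_nodes A hA g
  simp only [Complex.ofReal_intCast] at h
  exact h

/-- the same for the real Vandermonde matrix -/
theorem det_nodes (A : ℕ) (hA : 1 ≤ A) {n : ℕ} (g : Fin n ≃ QS2.Nd A) :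
    |(Matrix.vandermonde fun s => ((QS2.nodeZ A (g s) : ℤ) : ℝ)).det| ≤
      Real.exp ((A : ℝ) ^ 2 * (2 * Real.log A + 2 * Real.log 2 - 3) +
        250 * (A * Real.log ((A : ℝ) + 1))) := by
  refine le_trans (le_of_eq ?_) (VN_nodes A hA g)
  unfold Pool.Agent.QS2.VN
  rw [Matrix.det_vandermonde, abs_prod]
  refine prod_congr rfl (fun i _ => ?_)
  rw [abs_prod]
  refine prod_congr rfl (fun j _ => ?_)
  rw [← Complex.ofReal_sub, Complex.norm_real, Real.norm_eq_abs]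

/-! ### the final constant -/

open Pool.Agent.QS2 in
theorem cert_fin2 : (2 * Real.log 2 - 3) - hC (3 / 2) - hC (1 / 2) + 3 / 2 * (-311 / 50) +
    4 * (11461 / 80000) - IC ≤ -4273 / 1000 := by
  have h := cert_final
  have r5 : Real.log ((3 / 2) : ℝ) = Real.log 3 - Real.log 2 :=
    Real.log_div (by norm_num) (by norm_num)
  have r6 : Real.log ((1 / 2) : ℝ) = - Real.log 2 := by
    rw [one_div, Real.log_inv]
  have l2 := lgn_2
  have l3 := lgn_3
  have e : hC (3 / 2) - hC (1 / 2) ≤ -(957 / 1000) := by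
    unfold hC
    rw [r5, r6]
    linarith [l2.1, l2.2, l3.1, l3.2]
  linarith

end Pool.QS2E
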