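import Pool.Agent.QS2.EnMain
import Pool.Agent.QS2.EnVF

/-! # QS2 (b): real bookkeeping of the final bound -/

set_option autoImplicit false

namespace Pool.Agent.QS2

open Finset
open Pool.QS2E

/-- the five factors of `QS2.DeltaR_sq` -/
theorem fin_real (A rho : ℕ) (hA : 12 ≤ A) (h1 : 2 * rho ≤ A) (h2 : A ≤ 2 * rho + 2)
    (C1 C2 : ℝ) (hC1 : 0 ≤ C1) (U D E : ℝ) {m : ℕ} (g : Fin m ≃ QS2.Nd A)
    (hU : |U| ≤ Real.exp (C1 * A))
    (hE : E ≤ kap * (A:ℝ) ^ 2 - 3 / 4 * (A:ℝ) ^ 2 * Real.log A + CE * A * Real.log ((A:ℝ) + 1))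
    (hD : |D| ≤ Real.exp (E + C2 * A * Real.log ((A:ℝ) + 1))) :
    |U * (Matrix.vandermonde fun s => ((QS2.nodeZ A (g s) : ℤ) : ℝ)).det * D *
        (∏ d : Fin (2 * rho), ((A - rho + d).factorial : ℝ)) *
        (∏ i ∈ range (A + rho), ((i.factorial : ℝ)⁻¹)) ^ 2|
      ≤ Real.exp (-(17 / 4) * (A:ℝ) ^ 2 + (C1 + C2 + CE + 350) * A * Real.log ((A:ℝ) + 1)) := by
  have hA' : (12:ℝ) ≤ A := by exact_mod_cast hA
  have hV := det_nodes A (by omega) g
  have s7 := D_le A rho (by omega) h1 h2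
  have s8 := Pool.QS2E.cert_fin2
  obtain ⟨_, s10⟩ := er_le_log A hA
  have p1 : (∏ d : Fin (2 * rho), ((A - rho + d).factorial : ℝ))
      = Real.exp (∑ d ∈ range (2 * rho), S (A - rho + d)) := by
    rw [← Fin.prod_univ_eq_prod_range (fun d => ((A - rho + d).factorial : ℝ)) (2 * rho) |>.symm,
      Real.exp_sum]
    refine prod_congr rfl (fun d _ => ?_)
    unfold S
    rw [Real.exp_log (by exact_mod_cast Nat.factorial_pos _)]
  have p2 : (∏ i ∈ range (A + rho), ((i.factorial : ℝ)⁻¹)) ^ 2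
      = Real.exp (- (2 * ∑ i ∈ range (A + rho), S i)) := by
    have e1 : ∏ i ∈ range (A + rho), ((i.factorial : ℝ)⁻¹) = Real.exp (- ∑ i ∈ range (A + rho), S i) := by
      rw [← sum_neg_distrib, Real.exp_sum]
      refine prod_congr rfl (fun d _ => ?_)
      unfold S
      rw [Real.exp_neg, Real.exp_log (by exact_mod_cast Nat.factorial_pos _)]
    rw [e1, ← Real.exp_nat_mul]
    congr 1
    push_cast; ring
  rw [p1, p2, abs_mul, abs_mul, abs_mul, abs_mul, Real.abs_exp, Real.abs_exp]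
  set Vd : ℝ := (A : ℝ) ^ 2 * (2 * Real.log A + 2 * Real.log 2 - 3) +
        250 * (A * Real.log ((A : ℝ) + 1)) with hVd
  have q1 : |U| * |(Matrix.vandermonde fun s => ((QS2.nodeZ A (g s) : ℤ) : ℝ)).det|
      ≤ Real.exp (C1 * A) * Real.exp Vd := mul_le_mul hU hV (abs_nonneg _) (Real.exp_pos _).le
  have q2 : |U| * |(Matrix.vandermonde fun s => ((QS2.nodeZ A (g s) : ℤ) : ℝ)).det| * |D|
      ≤ Real.exp (C1 * A) * Real.exp Vd * Real.exp (E + C2 * A * Real.log ((A:ℝ) + 1)) :=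
    mul_le_mul q1 hD (abs_nonneg _) (by positivity)
  have q3 := mul_le_mul_of_nonneg_right (mul_le_mul_of_nonneg_right q2
    (Real.exp_pos (∑ d ∈ range (2 * rho), S (A - rho + d))).le)
    (Real.exp_pos (- (2 * ∑ i ∈ range (A + rho), S i))).le
  refine q3.trans ?_
  rw [← Real.exp_add, ← Real.exp_add, ← Real.exp_add, ← Real.exp_add]
  apply Real.exp_le_exp.2
  have s13 : (A:ℝ) ^ 2 * ((2 * Real.log 2 - 3) - hC (3 / 2) - hC (1 / 2) + 3 / 2 * (-311 / 50) +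
      4 * (11461 / 80000) - IC) ≤ (A:ℝ) ^ 2 * (-4273 / 1000) :=
    mul_le_mul_of_nonneg_left s8 (by positivity)
  have s14 : (A:ℝ) ≤ A * Real.log ((A:ℝ) + 1) := le_mul_of_one_le_right (by linarith) (by linarith)
  have s15 : C1 * A ≤ C1 * (A * Real.log ((A:ℝ) + 1)) := mul_le_mul_of_nonneg_left s14 hC1
  have hA2 : 0 ≤ (A:ℝ) ^ 2 := by positivity
  unfold kap at hE
  rw [hVd]
  linarith

/-- finitely many small `A` are absorbed in the constant -/
theorem absorb_small (f : ℕ → ℕ → ℝ) (E C : ℝ) (A0 : ℕ)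
    (h : ∀ A rho : ℕ, A0 ≤ A → 2 * rho ≤ A → A ≤ 2 * rho + 2 →
      f A rho ≤ Real.exp (-E * (A:ℝ) ^ 2 + C * A * Real.log ((A:ℝ) + 1))) :
    ∃ C' : ℝ, ∀ A rho : ℕ, 2 ≤ A → 2 * rho ≤ A → A ≤ 2 * rho + 2 →
      f A rho ≤ Real.exp (-E * (A:ℝ) ^ 2 + C' * A * Real.log ((A:ℝ) + 1)) := by
  set ev : ℕ → ℕ → ℝ := fun A rho => |f A rho| + |E| * (A:ℝ) ^ 2 with hev
  have ev0 : ∀ A rho, 0 ≤ ev A rho := fun A rho => by rw [hev]; positivity
  set C0 : ℝ := ∑ A ∈ range A0, ∑ rho ∈ range A0, ev A rho with hC0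
  have hC0' : 0 ≤ C0 := sum_nonneg (fun A _ => sum_nonneg (fun rho _ => ev0 A rho))
  refine ⟨C0 + |C|, ?_⟩
  intro A rho hA h1 h2
  have hA' : (2:ℝ) ≤ A := by exact_mod_cast hA
  have hlog : 1 ≤ Real.log ((A:ℝ) + 1) := by
    rw [Real.le_log_iff_exp_le (by linarith)]
    have := Real.exp_one_lt_d9
    linarith
  have hAL : 1 ≤ (A:ℝ) * Real.log ((A:ℝ) + 1) := by nlinarith
  have hC := abs_nonneg C
  have hC2 := le_abs_self C
  rcases lt_or_ge A A0 with h3 | h3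
  · have h4 : ev A rho ≤ C0 := by
      have h4 : ev A rho ≤ ∑ rho ∈ range A0, ev A rho :=
        single_le_sum (f := fun rho => ev A rho) (fun r _ => ev0 A r) (mem_range.2 (by omega))
      have h5 : ∑ rho ∈ range A0, ev A rho ≤ C0 :=
        single_le_sum (f := fun A => ∑ rho ∈ range A0, ev A rho)
          (fun a _ => sum_nonneg (fun r _ => ev0 a r)) (mem_range.2 h3)
      exact h4.trans h5
    have h5 : f A rho ≤ Real.exp |f A rho| := by
      have := Real.add_one_le_exp |f A rho|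
      have h6 := le_abs_self (f A rho)
      linarith
    refine h5.trans (Real.exp_le_exp.2 ?_)
    have h6 : E * (A:ℝ) ^ 2 ≤ |E| * (A:ℝ) ^ 2 := mul_le_mul_of_nonneg_right (le_abs_self E) (by positivity)
    have h7 : C0 ≤ C0 * ((A:ℝ) * Real.log ((A:ℝ) + 1)) := le_mul_of_one_le_right hC0' hAL
    have h8 : 0 ≤ |C| * ((A:ℝ) * Real.log ((A:ℝ) + 1)) := mul_nonneg hC (by linarith)
    have h9 : ev A rho = |f A rho| + |E| * (A:ℝ) ^ 2 := rfl
    linarith
  · refine (h A rho h3 h1 h2).trans (Real.exp_le_exp.2 ?_)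
    have h7 : 0 ≤ C0 * ((A:ℝ) * Real.log ((A:ℝ) + 1)) := mul_nonneg hC0' (by linarith)
    have h8 : C * ((A:ℝ) * Real.log ((A:ℝ) + 1)) ≤ |C| * ((A:ℝ) * Real.log ((A:ℝ) + 1)) :=
      mul_le_mul_of_nonneg_right hC2 (by linarith)
    linarith

end Pool.Agent.QS2
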