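import Pool.Agent.QS2.Cont

/-! # QS2: bounds for the continuants in the half plane `Re z ≥ -7/10` (helper19) -/

set_option autoImplicit false

namespace Pool.Agent.QS2

open Complex

lemma pz_factor (t : ℂ) : pz t = (2 * t + 1) * (17 * t ^ 2 + 17 * t + 5) := by unfold pz; ring

lemma norm_lin_ge (t : ℂ) (ht : 0 ≤ t.re) : 2 * ‖t‖ ≤ ‖2 * t + 1‖ := by
  have h1 : (2 * ‖t‖) ^ 2 ≤ ‖2 * t + 1‖ ^ 2 := by
    rw [mul_pow, Complex.sq_norm, Complex.sq_norm, Complex.normSq_apply, Complex.normSq_apply]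
    simp only [add_re, mul_re, add_im, mul_im, one_re, one_im, re_ofNat, im_ofNat]
    nlinarith
  exact le_of_sq_le_sq h1 (norm_nonneg _)

lemma norm_quad_ge (t : ℂ) (ht : 0 ≤ t.re) : 17 * ‖t‖ ^ 2 ≤ ‖17 * t ^ 2 + 17 * t + 5‖ := by
  have h1 : (17 * ‖t‖ ^ 2) ^ 2 ≤ ‖17 * t ^ 2 + 17 * t + 5‖ ^ 2 := by
    rw [Complex.sq_norm, Complex.sq_norm, Complex.normSq_apply, Complex.normSq_apply]
    obtain ⟨x, y⟩ := t
    simp only at ht
    simp only [pow_two, add_re, mul_re, add_im, mul_im, re_ofNat, im_ofNat]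
    nlinarith [mul_nonneg ht (sq_nonneg y), mul_nonneg ht (sq_nonneg x), sq_nonneg x, sq_nonneg y,
      mul_nonneg ht ht]
  exact le_of_sq_le_sq h1 (norm_nonneg _)

lemma norm_pz_ge (t : ℂ) (ht : 0 ≤ t.re) : 34 * ‖t‖ ^ 3 ≤ ‖pz t‖ := by
  rw [pz_factor, norm_mul]
  calc 34 * ‖t‖ ^ 3 = (2 * ‖t‖) * (17 * ‖t‖ ^ 2) := by ring
    _ ≤ _ := mul_le_mul (norm_lin_ge t ht) (norm_quad_ge t ht) (by positivity) (norm_nonneg _)

/-- `e_m(z) = (z+1)^3 r_m(z)`. -/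
noncomputable def ee (m : ℕ) (z : ℂ) : ℂ := (z + 1) ^ 6 * yc m (z + 1) / yc (m + 1) z

lemma norm_ge_re (t : ℂ) {c : ℝ} (h : c ≤ t.re) : c ≤ ‖t‖ := h.trans (re_le_norm t)

lemma norm_add_one_le (t : ℂ) (c : ℝ) (hc : 0 < c) (h : c ≤ ‖t‖) : ‖t + 1‖ ≤ (1 + 1 / c) * ‖t‖ := by
  have h1 : ‖t + 1‖ ≤ ‖t‖ + 1 := by simpa using norm_add_le t 1
  have h2 : 1 ≤ ‖t‖ / c := by rwa [le_div_iff₀ hc, one_mul]
  have h3 : (1 + 1 / c) * ‖t‖ = ‖t‖ + ‖t‖ / c := by ring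
  linarith

/-- Main ratio induction. -/
theorem reg (m : ℕ) : ∀ z : ℂ, -(7 / 10) ≤ z.re →
    yc (m + 1) z ≠ 0 ∧ ‖ee m z‖ ≤ ‖z + 1‖ ^ 3 / 25 := by
  induction m with
  | zero =>
    intro z _
    refine ⟨by simp, ?_⟩
    simp only [ee, yc_zero, mul_zero, zero_div, norm_zero]
    positivity
  | succ m ih =>
    intro z hz
    have ht : (3 / 10 : ℝ) ≤ (z + 1).re := by rw [add_re, one_re]; linarith
    obtain ⟨h1, h2⟩ := ih (z + 1) (by linarith)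
    set t := z + 1 with htdef
    have hn : (3 / 10 : ℝ) ≤ ‖t‖ := norm_ge_re t ht
    have hn1 := norm_add_one_le t (3 / 10) (by norm_num) hn
    have hP := norm_pz_ge t (by linarith)
    have he : ‖ee m t‖ ≤ 4 * ‖t‖ ^ 3 := by
      refine h2.trans ?_
      have : ‖t + 1‖ ^ 3 ≤ ((1 + 1 / (3 / 10)) * ‖t‖) ^ 3 :=
        pow_le_pow_left₀ (norm_nonneg _) hn1 3
      have h3 : ((1 + 1 / (3 / 10 : ℝ)) * ‖t‖) ^ 3 ≤ 100 * ‖t‖ ^ 3 := by
        rw [mul_pow]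
        refine mul_le_mul_of_nonneg_right ?_ (by positivity)
        norm_num
      linarith
    have hd : yc (m + 2) z = yc (m + 1) t * (pz t - ee m t) := by
      rw [yc_left, ee]
      rw [show z + 2 = t + 1 by rw [htdef]; ring, ← htdef]
      field_simp
    have hpe : 25 * ‖t‖ ^ 3 ≤ ‖pz t - ee m t‖ := by
      have := norm_sub_norm_le (pz t) (ee m t)
      have hp3 : 0 ≤ ‖t‖ ^ 3 := by positivity
      linarith
    have hpos : 0 < ‖t‖ ^ 3 := by positivity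
    have hne : pz t - ee m t ≠ 0 := by
      rw [← norm_pos_iff]; linarith
    refine ⟨?_, ?_⟩
    · rw [show m + 1 + 1 = m + 2 by ring, hd]
      exact mul_ne_zero h1 hne
    · rw [ee, show m + 1 + 1 = m + 2 by ring, hd, ← htdef]
      have : t ^ 6 * yc (m + 1) t / (yc (m + 1) t * (pz t - ee m t)) = t ^ 6 / (pz t - ee m t) := by
        field_simp
      rw [this, norm_div, norm_pow, div_le_iff₀ (norm_pos_iff.mpr hne)]
      calc ‖t‖ ^ 6 = ‖t‖ ^ 3 / 25 * (25 * ‖t‖ ^ 3) := by ring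
        _ ≤ _ := mul_le_mul_of_nonneg_left hpe (by positivity)

lemma yc_ne (m : ℕ) (z : ℂ) (hz : -(7 / 10) ≤ z.re) : yc (m + 1) z ≠ 0 := (reg m z hz).1

lemma norm_ee_le (m : ℕ) (z : ℂ) (hz : -(7 / 10) ≤ z.re) : ‖ee m z‖ ≤ ‖z + 1‖ ^ 3 / 25 :=
  (reg m z hz).2

lemma yc_step (m : ℕ) (z : ℂ) (hz : -(7 / 10) ≤ z.re) :
    yc (m + 2) z = yc (m + 1) (z + 1) * (pz (z + 1) - ee m (z + 1)) := by
  have h1 := yc_ne m (z + 1) (by rw [add_re, one_re]; linarith)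
  rw [yc_left, ee]
  rw [show z + 2 = z + 1 + 1 by ring]
  field_simp

/-- One step of the lower bound, far from `0`. -/
lemma step_ge (m : ℕ) (t : ℂ) (ht : 13 / 10 ≤ t.re) : 33.7 * ‖t‖ ^ 3 ≤ ‖pz t - ee m t‖ := by
  have hn : (13 / 10 : ℝ) ≤ ‖t‖ := norm_ge_re t ht
  have hn1 := norm_add_one_le t (13 / 10) (by norm_num) hn
  have hP := norm_pz_ge t (by linarith)
  have he : ‖ee m t‖ ≤ 0.3 * ‖t‖ ^ 3 := by
    refine (norm_ee_le m t (by linarith)).trans ?_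
    have : ‖t + 1‖ ^ 3 ≤ ((1 + 1 / (13 / 10)) * ‖t‖) ^ 3 :=
      pow_le_pow_left₀ (norm_nonneg _) hn1 3
    have h3 : ((1 + 1 / (13 / 10 : ℝ)) * ‖t‖) ^ 3 ≤ 7 * ‖t‖ ^ 3 := by
      rw [mul_pow]
      refine mul_le_mul_of_nonneg_right ?_ (by positivity)
      norm_num
    have hp3 : 0 ≤ ‖t‖ ^ 3 := by positivity
    linarith
  have := norm_sub_norm_le (pz t) (ee m t)
  linarith

/-- First step of the lower bound. -/
lemma step_ge_one (m : ℕ) (t : ℂ) (ht : 3 / 10 ≤ t.re) : 25 * ‖t‖ ^ 3 ≤ ‖pz t - ee m t‖ := by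
  have hn : (3 / 10 : ℝ) ≤ ‖t‖ := norm_ge_re t ht
  have hn1 := norm_add_one_le t (3 / 10) (by norm_num) hn
  have hP := norm_pz_ge t (by linarith)
  have he : ‖ee m t‖ ≤ 4 * ‖t‖ ^ 3 := by
    refine (norm_ee_le m t (by linarith)).trans ?_
    have : ‖t + 1‖ ^ 3 ≤ ((1 + 1 / (3 / 10)) * ‖t‖) ^ 3 :=
      pow_le_pow_left₀ (norm_nonneg _) hn1 3
    have h3 : ((1 + 1 / (3 / 10 : ℝ)) * ‖t‖) ^ 3 ≤ 100 * ‖t‖ ^ 3 := by
      rw [mul_pow]
      refine mul_le_mul_of_nonneg_right ?_ (by positivity)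
      norm_num
    linarith
  have := norm_sub_norm_le (pz t) (ee m t)
  have hp3 : 0 ≤ ‖t‖ ^ 3 := by positivity
  linarith

/-- Lower bound in the far region. -/
theorem yc_ge_far (m : ℕ) : ∀ z : ℂ, 3 / 10 ≤ z.re →
    33.7 ^ m * ∏ j ∈ Finset.range m, ‖z + (j + 1)‖ ^ 3 ≤ ‖yc (m + 1) z‖ := by
  induction m with
  | zero => intro z _; simp
  | succ m ih =>
    intro z hz
    have h1 := ih (z + 1) (by rw [add_re, one_re]; linarith)
    rw [show m + 1 + 1 = m + 2 by ring, yc_step m z (by linarith), norm_mul,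
      Finset.prod_range_succ', pow_succ]
    have h2 := step_ge m (z + 1) (by rw [add_re, one_re]; linarith)
    have e1 : ∀ j : ℕ, z + 1 + ((j : ℂ) + 1) = z + (((j + 1 : ℕ) : ℂ) + 1) := by
      intro j; push_cast; ring
    simp only [e1] at h1
    have e2 : z + (((0 : ℕ) : ℂ) + 1) = z + 1 := by push_cast; ring
    rw [e2]
    calc _ = (33.7 ^ m * ∏ j ∈ Finset.range m, ‖z + (((j + 1 : ℕ) : ℂ) + 1)‖ ^ 3) *
          (33.7 * ‖z + 1‖ ^ 3) := by ring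
      _ ≤ _ := mul_le_mul h1 h2 (by positivity) (norm_nonneg _)

/-- **Lower bound** for the continuants: `Y_{m+1}`. -/
theorem yc_ge (m : ℕ) (z : ℂ) (hz : -(7 / 10) ≤ z.re) :
    25 * 33.7 ^ m * ∏ j ∈ Finset.range (m + 1), ‖z + (j + 1)‖ ^ 3 ≤ ‖yc (m + 2) z‖ := by
  have h1 := yc_ge_far m (z + 1) (by rw [add_re, one_re]; linarith)
  have h2 := step_ge_one m (z + 1) (by rw [add_re, one_re]; linarith)
  rw [yc_step m z hz, norm_mul, Finset.prod_range_succ']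
  have e1 : ∀ j : ℕ, z + 1 + ((j : ℂ) + 1) = z + (((j + 1 : ℕ) : ℂ) + 1) := by
    intro j; push_cast; ring
  simp only [e1] at h1
  have e2 : z + (((0 : ℕ) : ℂ) + 1) = z + 1 := by push_cast; ring
  rw [e2]
  calc _ = (33.7 ^ m * ∏ j ∈ Finset.range m, ‖z + (((j + 1 : ℕ) : ℂ) + 1)‖ ^ 3) *
        (25 * ‖z + 1‖ ^ 3) := by ring
    _ ≤ _ := mul_le_mul h1 h2 (by positivity) (norm_nonneg _)

end Pool.Agent.QS2
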