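import Pool.Agent.QS2.AperyRec
import Pool.Agent.QS2.Reg

/-! # QS2 (b): the convergents at the nodes

`r_M(w) = (w+1)^3 yc M (w+1) / yc (M+1) w`: at `w = n ≥ 0` it tends to `l_{n+1}/l_n`
(`right_lim`), at `w = -2-m` it is `a_m/a_{m+1}` as soon as `M ≥ m+2` (`left_val`). -/

set_option autoImplicit false

open QS2 (aperyA aperyB lrem zeta3 aperyA_rec aperyA_zero aperyA_one aperyA_pos lrem_rec lrem_pos'
  tendsto_lrem_div)

namespace Pool.Agent.QS2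

open Filter

/-! ## Right nodes -/

/-- `L_{n+1+M} = yc (M+1) n L_{n+1} - (n+1)^6 yc M (n+1) L_n`, `L_n = (n!)^3 s_n`. -/
theorem shift_rel (s : ℕ → ℂ) (hs : ∀ N : ℕ, ((N : ℂ) + 2) ^ 3 * s (N + 2) =
    pz ((N : ℂ) + 1) * s (N + 1) - ((N : ℂ) + 1) ^ 3 * s N) (n M : ℕ) :
    (((n + 1 + M).factorial : ℕ) : ℂ) ^ 3 * s (n + 1 + M) =
      yc (M + 1) (n : ℂ) * ((((n + 1).factorial : ℕ) : ℂ) ^ 3 * s (n + 1)) -
      ((n : ℂ) + 1) ^ 6 * yc M ((n : ℂ) + 1) * (((n.factorial : ℕ) : ℂ) ^ 3 * s n) := by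
  induction M using Nat.strong_induction_on with
  | _ M ih =>
    rcases M with _ | _ | M
    · simp
    · have h := hs n
      rw [zero_add, yc_one, show 1 + 1 = 0 + 2 from rfl, yc_right]
      rw [show n + 1 + 1 = n + 2 from rfl, Nat.factorial_succ (n + 1), Nat.factorial_succ n]
      simp only [yc_zero, yc_one, mul_zero, sub_zero, mul_one, zero_add, Nat.cast_zero]
      push_cast
      linear_combination (((n : ℂ) + 1) * (n.factorial : ℂ)) ^ 3 * h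
    · have h0 := ih M (by omega)
      have h1 := ih (M + 1) (by omega)
      have h := hs (n + 1 + M)
      rw [show M + 1 + 1 + 1 = (M + 1) + 2 from rfl, yc_right (M + 1) (n : ℂ),
        show M + 1 + 1 = M + 2 from rfl, yc_right M ((n : ℂ) + 1)]
      rw [show n + 1 + (M + 1) = n + 1 + M + 1 from rfl] at h1
      rw [show n + 1 + (M + 2) = n + 1 + M + 2 from rfl, Nat.factorial_succ (n + 1 + M + 1),
        Nat.factorial_succ (n + 1 + M)]
      rw [Nat.factorial_succ (n + 1 + M)] at h1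
      push_cast at h h0 h1 ⊢
      rw [show (n : ℂ) + 1 + M + 1 = n + (M + 1 + 1) by ring] at h h1 ⊢
      rw [show (n : ℂ) + 1 + ((M : ℂ) + 1) = n + (M + 1 + 1) by ring]
      linear_combination (((n : ℂ) + (M + 1 + 1)) * ((n + 1 + M).factorial : ℂ)) ^ 3 * h
        + pz ((n : ℂ) + (M + 1 + 1)) * h1 - ((n : ℂ) + (M + 1 + 1)) ^ 6 * h0

theorem yc_nat_ne (M n : ℕ) : yc (M + 1) (n : ℂ) ≠ 0 := by
  refine yc_ne M _ ?_
  rw [Complex.natCast_re]
  have : (0 : ℝ) ≤ n := Nat.cast_nonneg n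
  linarith

/-- the recurrence of `a` over `ℂ` -/
theorem aC_rec (N : ℕ) : ((N : ℂ) + 2) ^ 3 * (aperyA (N + 2) : ℂ) =
    pz ((N : ℂ) + 1) * (aperyA (N + 1) : ℂ) - ((N : ℂ) + 1) ^ 3 * (aperyA N : ℂ) := by
  have h := congrArg (fun q : ℚ => (q : ℂ)) (aperyA_rec N)
  simp only [_root_.QS2.ap] at h
  push_cast at h
  rw [h, pz]

theorem lC_rec (N : ℕ) : ((N : ℂ) + 2) ^ 3 * (lrem (N + 2) : ℂ) =
    pz ((N : ℂ) + 1) * (lrem (N + 1) : ℂ) - ((N : ℂ) + 1) ^ 3 * (lrem N : ℂ) := by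
  have h := congrArg (fun q : ℝ => (q : ℂ)) (lrem_rec N)
  simp only [_root_.QS2.ap] at h
  push_cast at h
  rw [h, pz]

/-- the convergents at the right nodes are at most `1/25` -/
theorem rM_le (n M : ℕ) :
    ‖((n : ℂ) + 1) ^ 3 * yc M ((n : ℂ) + 1) / yc (M + 1) (n : ℂ)‖ ≤ 1 / 25 := by
  have h := norm_ee_le M (n : ℂ) (by
    rw [Complex.natCast_re]
    have : (0 : ℝ) ≤ n := Nat.cast_nonneg n
    linarith)
  have hn : ((n : ℂ) + 1) ≠ 0 := Nat.cast_add_one_ne_zero n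
  have hp : 0 < ‖(n : ℂ) + 1‖ ^ 3 := by positivity
  have e : ee M (n : ℂ) = ((n : ℂ) + 1) ^ 3 *
      (((n : ℂ) + 1) ^ 3 * yc M ((n : ℂ) + 1) / yc (M + 1) (n : ℂ)) := by
    rw [ee]; ring
  rw [e, norm_mul, norm_pow] at h
  have h2 : ‖(n : ℂ) + 1‖ ^ 3 *
      ‖((n : ℂ) + 1) ^ 3 * yc M ((n : ℂ) + 1) / yc (M + 1) (n : ℂ)‖ ≤
      ‖(n : ℂ) + 1‖ ^ 3 * (1 / 25) := by linarith
  exact le_of_mul_le_mul_left h2 hp

/-- **Right nodes.** -/
theorem right_lim (n : ℕ) : Tendsto (fun M : ℕ => ((n : ℂ) + 1) ^ 3 * yc M ((n : ℂ) + 1) /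
    yc (M + 1) (n : ℂ)) atTop (nhds ((lrem (n + 1) / lrem n : ℝ) : ℂ)) := by
  set rM : ℕ → ℂ := fun M => ((n : ℂ) + 1) ^ 3 * yc M ((n : ℂ) + 1) / yc (M + 1) (n : ℂ) with hrM
  set ε : ℕ → ℂ := fun M => ((lrem (n + 1 + M) / ((aperyA (n + 1 + M) : ℚ) : ℝ) : ℝ) : ℂ) with hε
  have hn : ((n : ℂ) + 1) ≠ 0 := Nat.cast_add_one_ne_zero n
  have hl : (lrem n : ℂ) ≠ 0 := by exact_mod_cast (lrem_pos' n).ne'
  -- `l_{n+1} - r_M l_n = ε_M (a_{n+1} - r_M a_n)`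
  have key : ∀ M, (lrem (n + 1) : ℂ) - rM M * (lrem n : ℂ) =
      ε M * ((aperyA (n + 1) : ℂ) - rM M * (aperyA n : ℂ)) := by
    intro M
    have hy := yc_nat_ne M n
    have ha : ((aperyA (n + 1 + M) : ℚ) : ℂ) ≠ 0 := by
      exact_mod_cast (aperyA_pos (n + 1 + M)).ne'
    have h1 := shift_rel (fun k => (aperyA k : ℂ)) aC_rec n M
    have h2 := shift_rel (fun k => (lrem k : ℂ)) lC_rec n M
    have hf : (((n + 1 + M).factorial : ℕ) : ℂ) ≠ 0 := by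
      exact_mod_cast (Nat.factorial_pos _).ne'
    have hf0 : ((n.factorial : ℕ) : ℂ) ≠ 0 := by
      exact_mod_cast (Nat.factorial_pos _).ne'
    rw [Nat.factorial_succ n] at h1 h2
    push_cast at h1 h2
    have e : rM M * yc (M + 1) (n : ℂ) = ((n : ℂ) + 1) ^ 3 * yc M ((n : ℂ) + 1) := by
      rw [hrM]
      field_simp
    have h3 : (((n + 1 + M).factorial : ℕ) : ℂ) ^ 3 * (aperyA (n + 1 + M) : ℂ) =
        (((n : ℂ) + 1) ^ 3 * ((n.factorial : ℕ) : ℂ) ^ 3 * yc (M + 1) (n : ℂ)) *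
          ((aperyA (n + 1) : ℂ) - rM M * (aperyA n : ℂ)) := by
      rw [h1]
      linear_combination (((n : ℂ) + 1) ^ 3 * ((n.factorial : ℕ) : ℂ) ^ 3 * (aperyA n : ℂ)) * e
    have h4 : (((n + 1 + M).factorial : ℕ) : ℂ) ^ 3 * (lrem (n + 1 + M) : ℂ) =
        (((n : ℂ) + 1) ^ 3 * ((n.factorial : ℕ) : ℂ) ^ 3 * yc (M + 1) (n : ℂ)) *
          ((lrem (n + 1) : ℂ) - rM M * (lrem n : ℂ)) := by
      rw [h2]
      linear_combination (((n : ℂ) + 1) ^ 3 * ((n.factorial : ℕ) : ℂ) ^ 3 * (lrem n : ℂ)) * e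
    have h5 : ε M * ((aperyA (n + 1 + M) : ℚ) : ℂ) = (lrem (n + 1 + M) : ℂ) := by
      rw [hε]
      push_cast
      field_simp
    have hc : (((n : ℂ) + 1) ^ 3 * ((n.factorial : ℕ) : ℂ) ^ 3 * yc (M + 1) (n : ℂ)) ≠ 0 := by
      positivity
    apply mul_left_cancel₀ hc
    rw [← h4, ← h5]
    linear_combination ε M * h3
  have hεt : Tendsto ε atTop (nhds 0) := by
    have h1 : Tendsto (fun M : ℕ => lrem (n + 1 + M) / ((aperyA (n + 1 + M) : ℚ) : ℝ)) atTop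
        (nhds 0) :=
      tendsto_lrem_div.comp ((tendsto_add_atTop_nat (n + 1)).congr (fun M => Nat.add_comm _ _))
    have h2 := (Complex.continuous_ofReal.tendsto 0).comp h1
    rw [Complex.ofReal_zero] at h2
    exact h2
  have hb : ∀ M, ‖(aperyA (n + 1) : ℂ) - rM M * (aperyA n : ℂ)‖ ≤
      ‖(aperyA (n + 1) : ℂ)‖ + 1 / 25 * ‖(aperyA n : ℂ)‖ := by
    intro M
    refine (norm_sub_le _ _).trans ?_
    rw [norm_mul]
    gcongr
    exact rM_le n M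
  have h0 : Tendsto (fun M => ε M * ((aperyA (n + 1) : ℂ) - rM M * (aperyA n : ℂ))) atTop
      (nhds 0) := by
    rw [tendsto_zero_iff_norm_tendsto_zero]
    have h1 : Tendsto (fun M => ‖ε M‖ * (‖(aperyA (n + 1) : ℂ)‖ + 1 / 25 * ‖(aperyA n : ℂ)‖)) atTop
        (nhds 0) := by
      have := (hεt.norm).mul_const (‖(aperyA (n + 1) : ℂ)‖ + 1 / 25 * ‖(aperyA n : ℂ)‖)
      simpa using this
    refine squeeze_zero (fun _ => norm_nonneg _) (fun M => ?_) h1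
    rw [norm_mul]
    exact mul_le_mul_of_nonneg_left (hb M) (norm_nonneg _)
  have h1 : Tendsto (fun M => ((lrem (n + 1) : ℂ) -
      ε M * ((aperyA (n + 1) : ℂ) - rM M * (aperyA n : ℂ))) / (lrem n : ℂ)) atTop
      (nhds (((lrem (n + 1) : ℂ) - 0) / (lrem n : ℂ))) :=
    (h0.const_sub _).div_const _
  have h2 : ((lrem (n + 1) / lrem n : ℝ) : ℂ) = ((lrem (n + 1) : ℂ) - 0) / (lrem n : ℂ) := by
    push_cast
    ring
  rw [h2]
  refine h1.congr (fun M => ?_)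
  rw [← key M]
  field_simp
  ring

/-! ## Left nodes -/

/-- `yc (m+1) (-1) = (m!)^3 a_m` -/
theorem yc_neg_one (m : ℕ) : yc (m + 1) (-1 : ℂ) = ((m.factorial : ℕ) : ℂ) ^ 3 * (aperyA m : ℂ) := by
  induction m using Nat.strong_induction_on with
  | _ m ih =>
    rcases m with _ | _ | m
    · simp [aperyA_zero]
    · rw [show 0 + 1 + 1 = 0 + 2 from rfl, yc_right]
      simp only [zero_add, yc_zero, yc_one, mul_zero, sub_zero, mul_one, Nat.cast_zero,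
        Nat.factorial_one, Nat.cast_one, one_pow, one_mul, aperyA_one]
      unfold pz
      norm_num
    · have h0 := ih m (by omega)
      have h1 := ih (m + 1) (by omega)
      have h := aC_rec m
      rw [show m + 1 + 1 + 1 = (m + 1) + 2 from rfl, yc_right (m + 1) (-1 : ℂ), h1, h0]
      rw [show m + 1 + 1 = m + 2 from rfl, Nat.factorial_succ (m + 1), Nat.factorial_succ m]
      push_cast
      rw [show (-1 : ℂ) + (m + 1 + 1) = m + 1 by ring]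
      linear_combination -(((m : ℂ) + 1) * (m.factorial : ℂ)) ^ 3 * h

theorem yc_neg_one_ne (m : ℕ) : yc (m + 1) (-1 : ℂ) ≠ 0 := by
  rw [yc_neg_one]
  have h1 : ((m.factorial : ℕ) : ℂ) ≠ 0 := by exact_mod_cast (Nat.factorial_pos _).ne'
  have h2 : ((aperyA m : ℚ) : ℂ) ≠ 0 := by exact_mod_cast (aperyA_pos m).ne'
  exact mul_ne_zero (pow_ne_zero 3 h1) h2

/-- `yc (a+b+2) (-1-a) = (-1)^a yc (a+1) (-1) yc (b+2) (-1)` -/
theorem yc_neg_split (a b : ℕ) : yc (a + b + 2) (-1 - (a : ℂ)) =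
    (-1) ^ a * (yc (a + 1) (-1 : ℂ) * yc (b + 2) (-1 : ℂ)) := by
  have h := yc_split a b (0 : ℂ)
  have h1 := yc_left b (-1 : ℂ)
  rw [show (0 : ℂ) - ((a : ℂ) + 1) = -1 - a by ring] at h
  rw [h, h1]
  rw [show (-1 : ℂ) + 1 = 0 by ring, show (-1 : ℂ) + 2 = 1 by ring, show (0 : ℂ) + 1 = 1 by ring,
    show (-1 : ℂ) - 0 = -1 by ring]
  ring

theorem yc_left_ne (m M : ℕ) (h : m + 2 ≤ M) : yc (M + 1) (-2 - (m : ℂ)) ≠ 0 := by
  obtain ⟨b, rfl⟩ : ∃ b, M = m + 2 + b := ⟨M - (m + 2), by omega⟩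
  have h1 := yc_neg_split (m + 1) b
  rw [show (-1 : ℂ) - ((m + 1 : ℕ) : ℂ) = -2 - m by push_cast; ring,
    show m + 1 + b + 2 = m + 2 + b + 1 by ring] at h1
  rw [h1]
  exact mul_ne_zero (pow_ne_zero _ (by norm_num))
    (mul_ne_zero (yc_neg_one_ne (m + 1)) (yc_neg_one_ne (b + 1)))

/-- **Left nodes.** -/
theorem left_val (m M : ℕ) (h : m + 2 ≤ M) : (-1 - (m : ℂ)) ^ 3 * yc M (-1 - (m : ℂ)) /
    yc (M + 1) (-2 - (m : ℂ)) = ((aperyA m / aperyA (m + 1) : ℚ) : ℂ) := by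
  have hne := yc_left_ne m M h
  obtain ⟨b, rfl⟩ : ∃ b, M = m + 2 + b := ⟨M - (m + 2), by omega⟩
  have h1 := yc_neg_split (m + 1) b
  have h0 := yc_neg_split m b
  rw [show (-1 : ℂ) - ((m + 1 : ℕ) : ℂ) = -2 - m by push_cast; ring,
    show m + 1 + b + 2 = m + 2 + b + 1 by ring] at h1
  rw [show m + b + 2 = m + 2 + b by ring] at h0
  have ha : ((aperyA (m + 1) : ℚ) : ℂ) ≠ 0 := by exact_mod_cast (aperyA_pos (m + 1)).ne'
  rw [div_eq_iff hne, h0, h1, yc_neg_one m, yc_neg_one (m + 1), Nat.factorial_succ]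
  push_cast
  field_simp
  ring

end Pool.Agent.QS2
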