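import Pool.Agent.QS2.LamBound2
import Pool.Agent.QS2.FinReal
import Pool.Agent.QS2.NodesLim
import Pool.Agent.QS2.DeltaSq

/-!
# The archimedean bound for `DeltaR` over `ℝ`
-/

set_option autoImplicit false

namespace Pool.Agent.QS2

open Finset Filter Topology Polynomial
open _root_.QS2 (Nd nodeZ IsFormal aperyA aperyB lrem zeta3 uval uval1 DeltaR DeltaR_sq lrem_pos')
open Pool.QS2E (Gk lamE nu energy_main kap CE)

theorem map_dPi {k k' : Type*} [Field k] [Field k'] (φ : k →+* k') {S : ℕ} (x : Fin S → k)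
    (s : Fin S) : φ (dPi x s) = dPi (fun t => φ (x t)) s := by
  unfold dPi
  rw [map_prod]
  exact prod_congr rfl (fun t _ => map_sub φ _ _)

theorem map_Lam {k k' : Type*} [Field k] [Field k'] (φ : k →+* k') {S : ℕ} (x ρ : Fin S → k)
    (v : ℕ → k) (m : ℕ) :
    φ (Lam x ρ v m) = Lam (fun t => φ (x t)) (fun t => φ (ρ t)) (fun a => φ (v a)) m := by
  unfold Lam
  rw [map_sum]
  refine sum_congr rfl (fun s _ => ?_)
  rw [map_div₀, map_dPi, map_sub, map_mul, map_pow, map_sum]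
  congr 2
  exact sum_congr rfl (fun a _ => by rw [map_mul, map_pow])

/-- absolute value of `DeltaR` over `ℝ` -/
theorem abs_DeltaR (x x' : ℝ) (v : ℕ → ℝ) {A rho : ℕ} (h : rho ≤ A) (ρ : Nd A → ℝ)
    (hρ : ∀ f, uval1 x x' A f = ρ f * uval x x' A f) (g : Fin (2 * A) ≃ Nd A) :
    |DeltaR x x' v A rho| =
      |(∏ a, uval x x' A a) * (Matrix.vandermonde fun s => ((nodeZ A (g s) : ℤ) : ℝ)).det *
        (Matrix.of fun i j : Fin (A + rho) =>
          Lam (fun s => ((nodeZ A (g s) : ℤ) : ℝ)) (fun s => ρ (g s)) v ((i : ℕ) + j)).det *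
        (∏ d : Fin (2 * rho), ((A - rho + d).factorial : ℝ)) *
        (∏ i ∈ range (A + rho), ((i.factorial : ℝ)⁻¹)) ^ 2| :=
  (sq_eq_sq_iff_abs_eq_abs _ _).mp (DeltaR_sq x x' v h ρ hρ g)

theorem log_facts (A rho : ℕ) (hA : 12 ≤ A) (h1 : 2 * rho ≤ A) :
    1 ≤ Real.log ((A : ℝ) + 1) ∧
    Real.log (((A + rho).factorial : ℕ) : ℝ) ≤ 4 * A * Real.log ((A : ℝ) + 1) ∧
    ((A + rho : ℕ) : ℝ) * Real.log (7 * A + 1) ≤ 6 * A * Real.log ((A : ℝ) + 1) := by
  have hA' : (12 : ℝ) ≤ A := by exact_mod_cast hA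
  have h1' : 2 * (rho : ℝ) ≤ A := by exact_mod_cast h1
  have hL : 1 ≤ Real.log ((A : ℝ) + 1) := by
    rw [Real.le_log_iff_exp_le (by linarith)]
    have := Real.exp_one_lt_d9
    linarith
  have hN : (((A + rho : ℕ)) : ℝ) ≤ 2 * A := by push_cast; linarith
  have hN0 : (0 : ℝ) < ((A + rho : ℕ) : ℝ) := by push_cast; positivity
  refine ⟨hL, ?_, ?_⟩
  · have h2 : (((A + rho).factorial : ℕ) : ℝ) ≤ ((A + rho : ℕ) : ℝ) ^ (A + rho) := by
      exact_mod_cast Nat.factorial_le_pow (A + rho)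
    have h3 := Real.log_le_log (by exact_mod_cast Nat.factorial_pos _) h2
    rw [Real.log_pow] at h3
    have h4 : Real.log ((A + rho : ℕ) : ℝ) ≤ 2 * Real.log ((A : ℝ) + 1) := by
      have h5 : ((A + rho : ℕ) : ℝ) ≤ ((A : ℝ) + 1) ^ 2 := by nlinarith
      have h6 := Real.log_le_log hN0 h5
      rw [Real.log_pow] at h6
      push_cast at h6 ⊢
      linarith
    have h7 : 0 ≤ 2 * Real.log ((A : ℝ) + 1) := by linarith
    calc _ ≤ ((A + rho : ℕ) : ℝ) * Real.log ((A + rho : ℕ) : ℝ) := h3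
      _ ≤ ((A + rho : ℕ) : ℝ) * (2 * Real.log ((A : ℝ) + 1)) := mul_le_mul_of_nonneg_left h4 hN0.le
      _ ≤ (2 * A) * (2 * Real.log ((A : ℝ) + 1)) := mul_le_mul_of_nonneg_right hN h7
      _ = _ := by ring
  · have h4 : Real.log (7 * (A : ℝ) + 1) ≤ 3 * Real.log ((A : ℝ) + 1) := by
      have h5 : 7 * (A : ℝ) + 1 ≤ ((A : ℝ) + 1) ^ 3 := by
        have e0 : (0 : ℝ) ≤ (A : ℝ) ^ 3 := by positivity
        have e1 : 12 * (A : ℝ) ≤ A * A := mul_le_mul_of_nonneg_right hA' (by positivity)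
        nlinarith
      have h6 := Real.log_le_log (by positivity) h5
      rw [Real.log_pow] at h6
      push_cast at h6
      linarith
    have h7 : 0 ≤ 3 * Real.log ((A : ℝ) + 1) := by linarith
    calc _ ≤ ((A + rho : ℕ) : ℝ) * (3 * Real.log ((A : ℝ) + 1)) := mul_le_mul_of_nonneg_left h4 hN0.le
      _ ≤ (2 * A) * (3 * Real.log ((A : ℝ) + 1)) := mul_le_mul_of_nonneg_right hN h7
      _ = _ := by ring

/-- **The archimedean bound over `ℝ`** -/
theorem DeltaR_bound (x' : ℝ)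
    (hU : ∃ C : ℝ, 1 ≤ C ∧ ∀ A : ℕ, ∏ f, |uval zeta3 x' A f| ≤ C ^ A)
    (hne : ∀ n, (aperyA n : ℝ) * x' - aperyB n ≠ 0)
    (hmass : ∃ K1 : ℝ, 0 < K1 ∧ ∀ i : ℕ,
      |((aperyA (i + 1) / aperyA (i + 2) : ℚ) : ℝ) -
        ((aperyA (i + 1) : ℝ) * x' - aperyB (i + 1)) / ((aperyA (i + 2) : ℝ) * x' - aperyB (i + 2))|
        ≤ K1 * Real.exp (-7 * ((i : ℝ) + 3)))
    (v : ℕ → ℝ) (hvC : IsFormal (fun n => (v n : ℂ))) (hv0 : |v 0| ≤ 1) :
    ∃ C : ℝ, ∀ A rho : ℕ, 12 ≤ A → 2 * rho ≤ A → A ≤ 2 * rho + 2 →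
      |DeltaR zeta3 x' v A rho| ≤
        Real.exp (-(17 / 4) * (A : ℝ) ^ 2 + C * A * Real.log ((A : ℝ) + 1)) := by
  obtain ⟨C, hC1, hC⟩ := hU
  obtain ⟨K1, hK1, hmass⟩ := hmass
  obtain ⟨K0, hK0, hres⟩ := res_rr
  set c2 : ℝ := 300 * Real.exp 2 * K0 + 64 * K1 + 1 with hc2
  have hc2pos : 0 < c2 := by positivity
  set C2 : ℝ := 10 + 2 * |Real.log c2| with hC2
  refine ⟨Real.log C + C2 + CE + 350, ?_⟩
  intro A rho hA h1 h2
  have hA' : (12 : ℝ) ≤ A := by exact_mod_cast hA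
  obtain ⟨n, e, z, un, hn, he, hnA, hNe, hz, hsep, hF, hfar, hEn⟩ := energy_main A rho hA h1 h2
  set g : Fin (2 * A) ≃ Nd A := Fintype.equivOfCardEq (by simp; ring) with hg
  have hune : ∀ f : Nd A, uval zeta3 x' A f ≠ 0 := by
    rintro (i | i)
    · exact (lrem_pos' ((i : ℕ) + 1)).ne'
    · exact hne ((i : ℕ) + 2)
  set ρ : Nd A → ℝ := fun f => uval1 zeta3 x' A f / uval zeta3 x' A f with hρdef
  have hρ : ∀ f, uval1 zeta3 x' A f = ρ f * uval zeta3 x' A f := fun f =>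
    (div_mul_cancel₀ _ (hune f)).symm
  rw [abs_DeltaR zeta3 x' v (by omega) ρ hρ g]
  set D : ℝ := (Matrix.of fun i j : Fin (A + rho) =>
          Lam (fun s => ((nodeZ A (g s) : ℤ) : ℝ)) (fun s => ρ (g s)) v ((i : ℕ) + j)).det with hD
  set E : ℝ := ((A + rho : ℕ) : ℝ) * lamE A n + 4 * ∑ k ∈ Ioc 0 (2 * A), max (Gk A n e k - lamE A n) 0
          - 2 * Real.log (VN (fun i => (z i : ℂ))) with hE
  obtain ⟨hL, hfac, h7⟩ := log_facts A rho hA h1
  refine fin_real A rho hA h1 h2 (Real.log C) C2 (Real.log_nonneg hC1) (∏ a, uval zeta3 x' A a) D E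
    g ?_ (hEn (2 * A)) ?_
  · rw [abs_prod]
    refine (hC A).trans (le_of_eq ?_)
    rw [mul_comm, ← Real.log_pow, Real.exp_log (by positivity)]
  · -- complex version
    have hDc : (D : ℂ) = (Matrix.of fun i j : Fin (A + rho) =>
        Lam (fun s => nd A (g s)) (fun s => ((ρ (g s) : ℝ) : ℂ)) (fun a => (v a : ℂ))
          ((i : ℕ) + j)).det := by
      have h3 := RingHom.map_det Complex.ofRealHom (Matrix.of fun i j : Fin (A + rho) =>
          Lam (fun s => ((nodeZ A (g s) : ℤ) : ℝ)) (fun s => ρ (g s)) v ((i : ℕ) + j))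
      change Complex.ofRealHom D = _
      rw [hD, h3]
      congr 1
      ext i j
      rw [RingHom.mapMatrix_apply, Matrix.map_apply, Matrix.of_apply, Matrix.of_apply, map_Lam]
      congr 1
    have hbound := lam_det_bound hK0 hres hK1 (by omega : 2 ≤ A) g (fun f => ((ρ f : ℝ) : ℂ))
      (fun a => (v a : ℂ)) hvC (by simpa using hv0)
      (by
        intro i
        have h3 := right_lim ((i : ℕ) + 1)
        have h4 : ρ (Sum.inl i) = lrem ((i : ℕ) + 1 + 1) / lrem ((i : ℕ) + 1) := rfl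
        simp only [h4]
        refine h3.congr (fun M => ?_)
        unfold rM
        rw [nd_inl])
      (by
        intro i
        filter_upwards [eventually_ge_atTop ((i : ℕ) + 3)] with M hM
        have h3 := left_val ((i : ℕ) + 1) M (by omega)
        have h4 : rM M (nd A (Sum.inr i)) =
            ((aperyA ((i : ℕ) + 1) / aperyA ((i : ℕ) + 2) : ℚ) : ℂ) := by
          unfold rM
          rw [nd_inr, ← h3]
          congr 2
          · congr 1; push_cast; ring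
          · congr 1; push_cast; ring
          · push_cast; ring
        rw [h4]
        have h5 : ((ρ (Sum.inr i) : ℝ) : ℂ) -
            ((aperyA ((i : ℕ) + 1) / aperyA ((i : ℕ) + 2) : ℚ) : ℂ) =
            ((ρ (Sum.inr i) - ((aperyA ((i : ℕ) + 1) / aperyA ((i : ℕ) + 2) : ℚ) : ℝ) : ℝ) : ℂ) := by
          push_cast
          ring
        rw [h5, Complex.norm_real, Real.norm_eq_abs, abs_sub_comm]
        exact hmass i)
      n e z un hz hsep hF hfar
    rw [← hDc, Complex.norm_real, Real.norm_eq_abs] at hbound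
    have hVN : 0 < VN (fun i => (z i : ℂ)) := by
      refine VN_pos _ (fun i j h => ?_)
      by_contra hne'
      have h3 := hsep i j hne'
      have h4 : z i = z j := by
        have : (z i : ℂ) = (z j : ℂ) := h
        exact_mod_cast this
      rw [h4, sub_self, abs_zero] at h3
      norm_num at h3
    have h3 : |D| ≤ (((A + rho).factorial : ℕ) : ℝ) * (7 * A + 1) ^ (A + rho) *
        Real.exp (((A + rho : ℕ) : ℝ) * (lamE A n + Real.log c2) +
          4 * ∑ k ∈ Ioc 0 (2 * A), max (Gk A n e k - lamE A n) 0) /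
        VN (fun i => (z i : ℂ)) ^ 2 := by
      rw [le_div_iff₀ (by positivity)]
      exact hbound
    refine h3.trans ?_
    have e1 : (((A + rho).factorial : ℕ) : ℝ) =
        Real.exp (Real.log (((A + rho).factorial : ℕ) : ℝ)) :=
      (Real.exp_log (by exact_mod_cast Nat.factorial_pos _)).symm
    have e2 : (7 * (A : ℝ) + 1) ^ (A + rho) =
        Real.exp (((A + rho : ℕ) : ℝ) * Real.log (7 * A + 1)) := by
      rw [← Real.log_pow, Real.exp_log (by positivity)]
    have e3 : VN (fun i => (z i : ℂ)) ^ 2 = Real.exp (2 * Real.log (VN (fun i => (z i : ℂ)))) := by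
      rw [show (2 : ℝ) = ((2 : ℕ) : ℝ) by norm_num, ← Real.log_pow, Real.exp_log (by positivity)]
    rw [e1, e2, e3, ← Real.exp_add, ← Real.exp_add, ← Real.exp_sub]
    apply Real.exp_le_exp.mpr
    have hN : (((A + rho : ℕ)) : ℝ) ≤ 2 * A := by
      have h1' : 2 * (rho : ℝ) ≤ A := by exact_mod_cast h1
      push_cast; linarith
    have h8 : ((A + rho : ℕ) : ℝ) * Real.log c2 ≤ 2 * |Real.log c2| * A * Real.log ((A : ℝ) + 1) := by
      have a1 : Real.log c2 ≤ |Real.log c2| := le_abs_self _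
      have a0 := abs_nonneg (Real.log c2)
      calc ((A + rho : ℕ) : ℝ) * Real.log c2 ≤ ((A + rho : ℕ) : ℝ) * |Real.log c2| :=
            mul_le_mul_of_nonneg_left a1 (Nat.cast_nonneg _)
        _ ≤ (2 * A) * |Real.log c2| := mul_le_mul_of_nonneg_right hN a0
        _ = (2 * |Real.log c2| * A) * 1 := by ring
        _ ≤ (2 * |Real.log c2| * A) * Real.log ((A : ℝ) + 1) :=
            mul_le_mul_of_nonneg_left hL (by positivity)
    rw [hE, hC2]
    linarith

end Pool.Agent.QS2
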