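import Pool.Agent.QS2.Defs

/-!
# The formal solution of the Riccati equation: existence, uniqueness, symmetry
-/

set_option autoImplicit false

namespace QS2.FV

open PowerSeries

variable {F : Type*} [Field F]

/-- `1 / (n - 1)` as a power series in `1 / n` -/
noncomputable def tt (F : Type*) [Field F] : PowerSeries F :=
  PowerSeries.X * PowerSeries.mk 1

theorem tt_mul : tt F * (1 - PowerSeries.X) = PowerSeries.X := by
  unfold tt
  rw [mul_assoc, PowerSeries.mk_one_mul_one_sub_eq_one, mul_one]

theorem tt_subst : PowerSeries.HasSubst (tt F) :=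
  PowerSeries.HasSubst.of_constantCoeff_zero' (by simp [tt])

/-- `V (1 / n)` to `V (1 / (n - 1))` -/
noncomputable def sh : PowerSeries F →+* PowerSeries F :=
  (PowerSeries.substAlgHom (R := F) (S := F) (tt_subst (F := F))).toRingHom

theorem sh_apply (V : PowerSeries F) : sh V = V.subst (tt F) := by
  unfold sh
  have := PowerSeries.coe_substAlgHom (R := F) (tt_subst (F := F))
  exact congrFun this V

theorem sh_X : sh (PowerSeries.X : PowerSeries F) = tt F := by
  rw [sh_apply]
  exact PowerSeries.subst_X tt_subst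

theorem sh_C (a : F) : sh (PowerSeries.C a) = PowerSeries.C a := by
  rw [sh_apply]
  exact PowerSeries.subst_C a

/-- coefficients of the shifted series -/
theorem coeff_sh (V : PowerSeries F) (k : ℕ) :
    PowerSeries.coeff (k + 1) (sh V) =
      ∑ m ∈ Finset.range (k + 1), (k.choose m : F) * PowerSeries.coeff (m + 1) V := by
  rw [sh_apply, PowerSeries.coeff_subst' tt_subst,
    finsum_eq_sum_of_support_subset (s := Finset.range (k + 2))]
  · rw [Finset.sum_range_succ', pow_zero, PowerSeries.coeff_one, if_neg (by omega), smul_zero,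
      add_zero]
    refine Finset.sum_congr rfl fun m hm => ?_
    have hm' : m ≤ k := by
      have := Finset.mem_range.1 hm
      omega
    have e : PowerSeries.coeff (k + 1) (tt F ^ (m + 1)) = (k.choose m : F) := by
      unfold tt
      rw [mul_pow, PowerSeries.coeff_X_pow_mul', if_pos (by omega),
        PowerSeries.mk_one_pow_eq_mk_choose_add, PowerSeries.coeff_mk]
      congr 2
      omega
    rw [e, smul_eq_mul, mul_comm]
  · intro d hd
    rw [Function.mem_support] at hd
    rw [Finset.mem_coe, Finset.mem_range]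
    by_contra hcon
    apply hd
    have e : PowerSeries.coeff (k + 1) (tt F ^ d) = 0 := by
      unfold tt
      rw [mul_pow, PowerSeries.coeff_X_pow_mul', if_neg (by omega)]
    rw [e, smul_zero]

theorem sh_mk (v : ℕ → F) : sh (PowerSeries.mk v) = PowerSeries.mk (shm v) := by
  ext j
  rw [PowerSeries.coeff_mk]
  rcases j with _ | k
  · have h : PowerSeries.coeff 0 (sh (PowerSeries.mk v)) = v 0 := by
      rw [sh_apply, PowerSeries.coeff_subst' tt_subst, finsum_eq_single _ 0]
      · simp
      · intro d hd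
        have e : PowerSeries.coeff 0 (tt F ^ d) = 0 := by
          unfold tt
          rw [mul_pow, PowerSeries.coeff_X_pow_mul', if_neg (by omega)]
        rw [e, smul_zero]
    rw [h]
    simp [shm]
  · rw [coeff_sh, shm, Finset.sum_range_succ' (fun m => ((k + 1 - 1).choose (k + 1 - m) : F) * v m)]
    have e0 : ((k + 1 - 1).choose (k + 1 - 0) : F) * v 0 = 0 := by
      have : (k + 1 - 1).choose (k + 1 - 0) = 0 := Nat.choose_eq_zero_of_lt (by omega)
      rw [this]
      simp
    rw [e0, add_zero]
    refine Finset.sum_congr rfl fun m hm => ?_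
    have hm' : m ≤ k := by
      have := Finset.mem_range.1 hm
      omega
    rw [PowerSeries.coeff_mk]
    have e1 : (k + 1 - 1).choose (k + 1 - (m + 1)) = k.choose m := by
      have a1 : k + 1 - 1 = k := by omega
      have a2 : k + 1 - (m + 1) = k - m := by omega
      rw [a1, a2]
      exact Nat.choose_symm hm'
    rw [e1]

/-- the formal Riccati equation -/
def Ric (V : PowerSeries F) : Prop :=
  (1 + X) ^ 3 * V * sh V - (34 + 51 * X + 27 * X ^ 2 + 5 * X ^ 3) * sh V + 1 = 0


/-- the polynomial `34 + 51 X + 27 X ^ 2 + 5 X ^ 3` -/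
noncomputable def pX (F : Type*) [Field F] : PowerSeries F :=
  34 + 51 * X + 27 * X ^ 2 + 5 * X ^ 3

/-- the left side of the Riccati equation -/
noncomputable def Res (V : PowerSeries F) : PowerSeries F :=
  (1 + X) ^ 3 * V * sh V - pX F * sh V + 1

theorem ric_iff_res {V : PowerSeries F} : Ric V ↔ Res V = 0 := Iff.rfl

theorem coeff_mul_of_dvd {n : ℕ} {D : PowerSeries F} (h : X ^ n ∣ D) (E : PowerSeries F) :
    coeff n (D * E) = coeff n D * coeff 0 E := by
  obtain ⟨G, rfl⟩ := h
  rw [mul_assoc, coeff_X_pow_mul', if_pos le_rfl, coeff_X_pow_mul', if_pos le_rfl, Nat.sub_self]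
  simp

theorem coeff_zero_sh (V : PowerSeries F) : coeff 0 (sh V) = coeff 0 V := by
  have h := sh_mk (fun j => coeff j V)
  have e : PowerSeries.mk (fun j => coeff j V) = V := by ext j; simp
  rw [e] at h
  rw [h, coeff_mk]
  simp [shm]

theorem sh_X_pow_dvd {n : ℕ} {D : PowerSeries F} (h : X ^ n ∣ D) : X ^ n ∣ sh D := by
  obtain ⟨G, rfl⟩ := h
  rw [map_mul, map_pow, sh_X]
  refine Dvd.dvd.mul_right ?_ _
  unfold tt
  rw [mul_pow]
  exact Dvd.intro _ rfl

theorem coeff_sh_of_dvd {n : ℕ} {D : PowerSeries F} (h : X ^ n ∣ D) :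
    coeff n (sh D) = coeff n D := by
  obtain ⟨G, rfl⟩ := h
  rw [map_mul, map_pow, sh_X]
  unfold tt
  rw [mul_pow, mul_assoc, coeff_X_pow_mul', if_pos le_rfl, coeff_X_pow_mul', if_pos le_rfl,
    Nat.sub_self]
  have h1 : coeff 0 ((PowerSeries.mk 1 : PowerSeries F) ^ n * sh G) = coeff 0 (sh G) := by
    rw [coeff_zero_eq_constantCoeff, map_mul, map_pow]
    simp
  rw [h1, coeff_zero_sh]

theorem coeff_zero_pX : coeff 0 (pX F) = 34 := by
  have h : constantCoeff (34 : PowerSeries F) = 34 := map_ofNat _ 34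
  simp [pX, h]

theorem coeff_zero_one_add_X : coeff 0 ((1 + X : PowerSeries F) ^ 3) = 1 := by
  simp

/-- the effect of a perturbation of order `n` -/
theorem coeff_res_sub {n : ℕ} {V W : PowerSeries F} (h : X ^ n ∣ V - W) :
    coeff n (Res V - Res W) = coeff n (V - W) * (coeff 0 V + coeff 0 W - 34) := by
  have e : Res V - Res W = (V - W) * ((1 + X) ^ 3 * sh V) + sh (V - W) * ((1 + X) ^ 3 * W) -
      sh (V - W) * pX F := by
    unfold Res
    rw [map_sub]
    ring
  rw [e, map_sub, map_add, coeff_mul_of_dvd h, coeff_mul_of_dvd (sh_X_pow_dvd h),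
    coeff_mul_of_dvd (sh_X_pow_dvd h), coeff_sh_of_dvd h, coeff_zero_pX]
  have e1 : coeff 0 ((1 + X : PowerSeries F) ^ 3 * sh V) = coeff 0 V := by
    rw [← coeff_zero_sh V]
    simp
  have e2 : coeff 0 ((1 + X : PowerSeries F) ^ 3 * W) = coeff 0 W := by
    simp
  rw [e1, e2]
  ring

theorem res_sub_dvd {n : ℕ} {V W : PowerSeries F} (h : X ^ n ∣ V - W) :
    X ^ n ∣ Res V - Res W := by
  have e : Res V - Res W = (V - W) * ((1 + X) ^ 3 * sh V) + sh (V - W) * ((1 + X) ^ 3 * W) -
      sh (V - W) * pX F := by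
    unfold Res
    rw [map_sub]
    ring
  rw [e]
  exact dvd_sub (dvd_add (Dvd.dvd.mul_right h _) (Dvd.dvd.mul_right (sh_X_pow_dvd h) _))
    (Dvd.dvd.mul_right (sh_X_pow_dvd h) _)

/-- uniqueness -/
theorem ric_unique {V W : PowerSeries F} {a : F} (hV : Ric V) (hW : Ric W)
    (hV0 : coeff 0 V = a) (hW0 : coeff 0 W = a) (ha : 2 * a ≠ 34) : V = W := by
  have key : ∀ n : ℕ, X ^ n ∣ V - W := by
    intro n
    induction n with
    | zero => simp
    | succ n ih =>
      rw [X_pow_dvd_iff] at ih ⊢
      intro m hm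
      rcases Nat.lt_succ_iff_lt_or_eq.1 hm with h | h
      · exact ih m h
      · subst h
        have h1 := coeff_res_sub (V := V) (W := W) (X_pow_dvd_iff.2 ih)
        rw [ric_iff_res.1 hV, ric_iff_res.1 hW, sub_self, map_zero, hV0, hW0] at h1
        have h2 : a + a - 34 ≠ 0 := by
          intro h3
          apply ha
          linear_combination h3
        exact (mul_eq_zero.1 h1.symm).resolve_right h2
  have : V - W = 0 := by
    ext n
    have := X_pow_dvd_iff.1 (key (n + 1)) n (Nat.lt_succ_self n)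
    rw [this, map_zero]
  exact sub_eq_zero.1 this

/-- successive approximations of the solution -/
noncomputable def appr (a : F) : ℕ → PowerSeries F
  | 0 => C a
  | n + 1 => appr a n - C (coeff (n + 1) (Res (appr a n)) / (2 * a - 34)) * X ^ (n + 1)

theorem coeff_zero_appr (a : F) (n : ℕ) : coeff 0 (appr a n) = a := by
  induction n with
  | zero => simp [appr]
  | succ n ih =>
    unfold appr
    rw [map_sub, ih, coeff_C_mul, coeff_X_pow, if_neg (by omega)]
    simp

theorem appr_res {a : F} (h : a ^ 2 - 34 * a + 1 = 0) (ha : 2 * a ≠ 34) (n : ℕ) :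
    X ^ (n + 1) ∣ Res (appr a n) := by
  induction n with
  | zero =>
    rw [zero_add, pow_one, X_dvd_iff]
    have h1 : constantCoeff (sh (appr a 0)) = a := by
      have := coeff_zero_sh (appr a 0)
      rw [coeff_zero_appr] at this
      rwa [coeff_zero_eq_constantCoeff] at this
    have h2 : constantCoeff (appr a 0) = a := by
      have := coeff_zero_appr a 0
      rwa [coeff_zero_eq_constantCoeff] at this
    have h3 : constantCoeff (pX F) = 34 := by
      have := coeff_zero_pX (F := F)
      rwa [coeff_zero_eq_constantCoeff] at this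
    unfold Res
    rw [map_add, map_sub, map_mul, map_mul, map_mul, map_pow, h1, h2, h3]
    simp only [map_add, map_one, constantCoeff_X, add_zero, one_pow, one_mul]
    linear_combination h
  | succ n ih =>
    have hd : X ^ (n + 1) ∣ appr a (n + 1) - appr a n := by
      rw [appr]
      rw [sub_sub_cancel_left]
      exact (dvd_neg.2 (Dvd.intro_left _ rfl))
    have h2 : 2 * a - 34 ≠ 0 := sub_ne_zero.2 ha
    rw [X_pow_dvd_iff]
    intro m hm
    rcases Nat.lt_succ_iff_lt_or_eq.1 hm with hlt | heq
    · have h3 := X_pow_dvd_iff.1 (res_sub_dvd hd) m hlt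
      have h4 := X_pow_dvd_iff.1 ih m hlt
      rw [map_sub, h4, sub_zero] at h3
      exact h3
    · subst heq
      have h3 := coeff_res_sub hd
      rw [map_sub, coeff_zero_appr, coeff_zero_appr] at h3
      have h4 : coeff (n + 1) (appr a (n + 1) - appr a n) =
          - (coeff (n + 1) (Res (appr a n)) / (2 * a - 34)) := by
        rw [appr, sub_sub_cancel_left, map_neg, coeff_C_mul, coeff_X_pow, if_pos rfl, mul_one]
      rw [h4] at h3
      have h5 : a + a - 34 = 2 * a - 34 := by ring
      rw [h5, neg_mul, div_mul_cancel₀ _ h2] at h3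
      linear_combination h3

theorem appr_step (a : F) (n : ℕ) : X ^ (n + 1) ∣ appr a (n + 1) - appr a n := by
  rw [appr]
  rw [sub_sub_cancel_left]
  exact (dvd_neg.2 (Dvd.intro_left _ rfl))

theorem appr_dvd (a : F) (n k : ℕ) : X ^ (n + 1) ∣ appr a (n + k) - appr a n := by
  induction k with
  | zero => simp
  | succ k ih =>
    have e : appr a (n + (k + 1)) - appr a n =
        (appr a (n + k + 1) - appr a (n + k)) + (appr a (n + k) - appr a n) := by
      rw [← add_assoc]; ring
    rw [e]
    exact dvd_add (dvd_trans (pow_dvd_pow _ (by omega)) (appr_step a (n + k))) ih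

/-- the coefficients of the solution with constant coefficient `a` -/
noncomputable def vsol (a : F) (n : ℕ) : F := coeff n (appr a n)

theorem vsol_zero (a : F) : vsol a 0 = a := coeff_zero_appr a 0

theorem vsol_dvd (a : F) (n : ℕ) : X ^ (n + 1) ∣ PowerSeries.mk (vsol a) - appr a n := by
  rw [X_pow_dvd_iff]
  intro m hm
  rw [map_sub, coeff_mk, vsol]
  obtain ⟨k, rfl⟩ := Nat.exists_eq_add_of_le (Nat.lt_succ_iff.1 hm)
  have := X_pow_dvd_iff.1 (appr_dvd a m k) m (Nat.lt_succ_self m)
  rw [map_sub] at this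
  linear_combination -this

/-- existence -/
theorem vsol_ric {a : F} (h : a ^ 2 - 34 * a + 1 = 0) (ha : 2 * a ≠ 34) :
    Ric (PowerSeries.mk (vsol a)) := by
  rw [ric_iff_res]
  ext n
  have h1 := X_pow_dvd_iff.1 (res_sub_dvd (vsol_dvd a n)) n (Nat.lt_succ_self n)
  have h2 := X_pow_dvd_iff.1 (appr_res h ha n) n (Nat.lt_succ_self n)
  rw [map_sub, h2, sub_zero] at h1
  rw [h1, map_zero]

theorem vsol_formal {a : F} (h : a ^ 2 - 34 * a + 1 = 0) (ha : 2 * a ≠ 34) :
    IsFormal (vsol a) := by
  have h1 := vsol_ric h ha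
  unfold Ric at h1
  unfold IsFormal
  rwa [sh_mk] at h1

theorem formal_unique {v w : ℕ → F} {a : F} (hv : IsFormal v) (hw : IsFormal w)
    (hv0 : v 0 = a) (hw0 : w 0 = a) (ha : 2 * a ≠ 34) : v = w := by
  have h1 : Ric (PowerSeries.mk v) := by
    unfold Ric; rw [sh_mk]; exact hv
  have h2 : Ric (PowerSeries.mk w) := by
    unfold Ric; rw [sh_mk]; exact hw
  have h3 := ric_unique h1 h2 (a := a) (by rw [coeff_mk, hv0]) (by rw [coeff_mk, hw0]) ha
  funext n
  have := congrArg (coeff n) h3
  rwa [coeff_mk, coeff_mk] at this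

end QS2.FV
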