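import Mathlib

/-! # QS2: the continuants of the Apery recurrence (helper19)

`yc 0 = 0`, `yc 1 = 1`, `yc (M+2) z = P(z+1) yc (M+1) (z+1) - (z+2)^6 yc M (z+2)`,
`P(w) = 34 w^3 + 51 w^2 + 27 w + 5 = (2w+1)(17w^2+17w+5)`; `Y_M = yc (M+1)` has degree `3 M`.
The convergents are `r_M(z) = (z+1)^3 Y_{M-1}(z+1) / Y_M(z) = (z+1)^3 yc M (z+1) / yc (M+1) z`. -/

set_option autoImplicit false

namespace Pool.Agent.QS2

section

variable {R : Type*} [CommRing R]

/-- The Apery cubic. -/
def pz (w : R) : R := 34 * w ^ 3 + 51 * w ^ 2 + 27 * w + 5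

lemma pz_refl (w : R) : pz (-1 - w) = -pz w := by unfold pz; ring

/-- The continuants, as functions of `z`. -/
def yc : ℕ → R → R
  | 0, _ => 0
  | 1, _ => 1
  | (M + 2), z => pz (z + 1) * yc (M + 1) (z + 1) - (z + 2) ^ 6 * yc M (z + 2)

@[simp] lemma yc_zero (z : R) : yc 0 z = 0 := by rw [yc]
@[simp] lemma yc_one (z : R) : yc 1 z = 1 := by rw [yc]
lemma yc_left (M : ℕ) (z : R) :
    yc (M + 2) z = pz (z + 1) * yc (M + 1) (z + 1) - (z + 2) ^ 6 * yc M (z + 2) := by rw [yc]

/-- Right recurrence. -/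
lemma yc_right (M : ℕ) : ∀ z : R, yc (M + 2) z =
    pz (z + (M + 1)) * yc (M + 1) z - (z + (M + 1)) ^ 6 * yc M z := by
  induction M using Nat.strong_induction_on with
  | _ M ih =>
    intro z
    rcases M with _ | _ | M
    · rw [yc_left]
      simp
    · rw [yc_left, yc_left, yc_left]
      simp only [yc_zero, yc_one, mul_zero, sub_zero, mul_one, zero_add, Nat.cast_one]
      rw [show z + 1 + 1 = z + (1 + 1) by ring]
      ring
    · rw [yc_left (M + 1 + 1) z, ih (M + 1) (by omega) (z + 1), ih M (by omega) (z + 2),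
        yc_left (M + 1) z, yc_left M z]
      push_cast
      rw [show z + 1 + ((M : R) + 1 + 1) = z + ((M : R) + 1 + 1 + 1) by ring,
        show z + 2 + ((M : R) + 1) = z + ((M : R) + 1 + 1 + 1) by ring]
      ring

/-- **Splitting at an inner index.** -/
theorem yc_split (a : ℕ) : ∀ (b : ℕ) (w : R), yc (a + b + 2) (w - (a + 1)) =
    (-1) ^ a * (pz w * yc (a + 1) (-1 - w) * yc (b + 1) w
      - (w + 1) ^ 6 * yc (a + 1) (-1 - w) * yc b (w + 1)
      + w ^ 6 * yc a (-w) * yc (b + 1) w) := by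
  induction a using Nat.strong_induction_on with
  | _ a ih =>
    intro b w
    rcases a with _ | _ | a
    · rw [yc_left]
      simp only [zero_add, Nat.cast_zero, yc_zero, yc_one, sub_add_cancel, pow_zero]
      rw [show w - 1 + 2 = w + 1 by ring]
      ring
    · have h0 := ih 0 (by omega) b w
      rw [show 0 + 1 + b + 2 = (b + 1) + 2 by ring, yc_left]
      simp only [zero_add, Nat.cast_zero, Nat.cast_one, yc_zero, yc_one, pow_zero, pow_one] at h0 ⊢
      rw [show w - (1 + 1) + 1 = w - 1 by ring, show w - (1 + 1) + 2 = w by ring,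
        show b + 1 + 1 = b + 2 by ring, h0, show 1 + 1 = 0 + 2 by ring, yc_left 0]
      simp only [yc_zero, yc_one, zero_add, mul_zero, sub_zero, mul_one]
      rw [show (-1 - w + 1 : R) = -1 - (w - 1) by ring, pz_refl]
      ring
    · have h0 := ih a (by omega) b w
      have h1 := ih (a + 1) (by omega) b w
      rw [show a + 1 + 1 + b + 2 = (a + 1 + b + 1) + 2 by ring, yc_left]
      push_cast at h1 ⊢
      rw [show w - ((a : R) + 1 + 1 + 1) + 1 = w - ((a : R) + 1 + 1) by ring,
        show w - ((a : R) + 1 + 1 + 1) + 2 = w - ((a : R) + 1) by ring,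
        show a + 1 + b + 1 + 1 = a + 1 + b + 2 by ring,
        show a + 1 + b + 1 = a + b + 2 by ring, h0, h1,
        show a + 1 + 1 + 1 = (a + 1) + 2 by ring, yc_right (a + 1) (-1 - w),
        show a + 1 + 1 = a + 2 by ring, yc_right a (-w)]
      push_cast
      rw [show (-1 - w + ((a : R) + 1 + 1) : R) = -1 - (w - ((a : R) + 1 + 1)) by ring, pz_refl,
        show (-w + ((a : R) + 1) : R) = -1 - (w - ((a : R) + 1 + 1)) by ring, pz_refl]
      ring

/-- Casorati identity. -/
theorem yc_cas (m : ℕ) : ∀ z : R, yc (m + 1) (z + 1) * yc (m + 1) z - yc m (z + 1) * yc (m + 2) z =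
    ∏ j ∈ Finset.range m, (z + (j + 2)) ^ 6 := by
  induction m with
  | zero => intro z; simp
  | succ m ih =>
    intro z
    rw [Finset.prod_range_succ, ← ih z, yc_right m (z + 1), yc_right (m + 1) z]
    push_cast
    rw [show z + 1 + ((m : R) + 1) = z + ((m : R) + 1 + 1) by ring,
      show z + ((m : R) + 2) = z + ((m : R) + 1 + 1) by ring]
    ring

end

end Pool.Agent.QS2
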