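import Pool.Agent.QS2.EnZ

/-! Combined energy estimate (QS2, two-sided, cap 4). -/

namespace Pool.QS2E

open Finset
open Pool.Agent.QS2 (psi gC hC IC gC_sum gC_far VN VN_pos phi phi_eval)

lemma Gt_gC (x : ℝ) : Gt (10 * x) = 10 * gC x + 10 * Real.log 10 := by
  have s : ∀ u : ℝ, Fs (10 * u) = 10 * Fs u + 10 * u * Real.log 10 :=
    fun u => Fs_scale 10 u (by norm_num)
  have e2 : 10 * x - 2 = 10 * (x - 1 / 5) := by ring
  have e4 : 10 * x - 4 = 10 * (x - 2 / 5) := by ring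
  have e7 : 10 * x - 7 = 10 * (x - 7 / 10) := by ring
  have em : 10 * x + 10 = 10 * (x - (-1)) := by ring
  have e10 : 10 * x - 10 = 10 * (x - 1) := by ring
  unfold Gt gC
  rw [e2, e4, e7, em, e10, s, s, s, s, s, s, sub_zero]
  unfold Fs psi
  ring

lemma Gk_le' (A n e k : ℕ) (hn : 1 ≤ n) (he : e ≤ 16) (hA : 10 * n + 2 ≤ A) :
    Gk A n e k ≤ (10 * n : ℝ) * gC ((k:ℝ) / (10 * n)) + 10 * n * Real.log (10 * n)
      + 100 * er ((k:ℝ) + 30 * n) := by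
  have hn1 : (1:ℝ) ≤ n := by exact_mod_cast hn
  have hn0 : (0:ℝ) < n := by linarith
  have h := Gk_le A n e k hn he hA
  have e1 : (k:ℝ) / n = 10 * ((k:ℝ) / (10 * n)) := by field_simp
  rw [e1, Gt_gC] at h
  rw [Real.log_mul (by norm_num) hn0.ne']
  linarith

/-- the level of the effective potential -/
noncomputable def lamE (A n : ℕ) : ℝ :=
  (10 * n : ℝ) * (-311 / 50) + 10 * n * Real.log (10 * n) + 100 * er (5 * A)

lemma Gk_near (A n e k : ℕ) (hn : 1 ≤ n) (he : e ≤ 16) (hA : 10 * n + 2 ≤ A) (hk : k ≤ 2 * A) :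
    Gk A n e k - lamE A n ≤ (10 * n : ℝ) * (gC ((k:ℝ) / (10 * n)) + 311 / 50) := by
  have h := Gk_le' A n e k hn he hA
  have hA' : (10 * n + 2 : ℝ) ≤ A := by exact_mod_cast hA
  have hk' : (k : ℝ) ≤ 2 * A := by exact_mod_cast hk
  have h1 : er ((k:ℝ) + 30 * n) ≤ er (5 * A) := by
    apply er_mono
    rw [abs_of_nonneg (by positivity), abs_of_nonneg (by positivity)]
    linarith
  unfold lamE
  linarith

lemma Gk_far (A n e k : ℕ) (hn : 1 ≤ n) (he : e ≤ 16) (hA : 10 * n + 2 ≤ A) (hk : 2 * A < k) :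
    Gk A n e k ≤ lamE A n - k := by
  have h := Gk_le' A n e k hn he hA
  have hn1 : (1:ℝ) ≤ n := by exact_mod_cast hn
  have hA' : (10 * n + 2 : ℝ) ≤ A := by exact_mod_cast hA
  have hk' : (2 * A : ℝ) < k := by exact_mod_cast hk
  have hN : (0:ℝ) < 10 * n := by linarith
  have h2 : (11:ℝ) / 10 ≤ (k:ℝ) / (10 * n) := by
    rw [le_div_iff₀ hN]; linarith
  have h3 := gC_far _ h2
  have h4 : (10 * n : ℝ) * gC ((k:ℝ) / (10 * n)) ≤ -6 * k := by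
    have h5 := mul_le_mul_of_nonneg_left h3 hN.le
    have h6 : (10 * n : ℝ) * (-6 * ((k:ℝ) / (10 * n))) = -6 * k := by field_simp
    linarith
  have h7 : er ((k:ℝ) + 30 * n) - er (5 * A) ≤ 3 * ((k - 2 * A) / (5 * A)) := by
    unfold er
    rw [abs_of_nonneg (by positivity), abs_of_nonneg (by positivity)]
    have hx : (0:ℝ) < (k:ℝ) + 30 * n + 3 := by positivity
    have hy : (0:ℝ) < 5 * (A:ℝ) + 3 := by positivity
    have h8 := Real.log_le_sub_one_of_pos (div_pos hx hy)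
    rw [Real.log_div hx.ne' hy.ne'] at h8
    have h9 : ((k:ℝ) + 30 * n + 3) / (5 * A + 3) - 1 ≤ (k - 2 * A) / (5 * A) := by
      have e1 : ((k:ℝ) + 30 * n + 3) / (5 * A + 3) - 1 = ((k:ℝ) + 30 * n - 5 * A) / (5 * A + 3) := by
        field_simp; ring
      rw [e1, div_le_div_iff₀ hy (by linarith)]
      nlinarith
    linarith
  have h10 : (k - 2 * A : ℝ) / (5 * A) ≤ (k - 2 * A) / 60 := by
    apply div_le_div_of_nonneg_left (by linarith) (by norm_num) (by linarith)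
  unfold lamE
  linarith

lemma Gk_sum (A n e : ℕ) (hn : 1 ≤ n) (he : e ≤ 16) (hA : 10 * n + 2 ≤ A) (K : ℕ) :
    ∑ k ∈ Ioc 0 K, max (Gk A n e k - lamE A n) 0 ≤ (10 * n : ℝ) ^ 2 * (11461 / 80000) := by
  have hn1 : (1:ℝ) ≤ n := by exact_mod_cast hn
  have hN : (0:ℝ) < 10 * n := by linarith
  have h1 : ∀ k ∈ range K, max (Gk A n e (k + 1) - lamE A n) 0
      ≤ (10 * n : ℝ) * max (gC (((k:ℝ) + 1) / (10 * n)) + 311 / 50) 0 := by
    intro k _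
    rcases le_or_gt (k + 1) (2 * A) with h | h
    · have h2 := Gk_near A n e (k + 1) hn he hA h
      push_cast at h2
      apply max_le
      · exact h2.trans (mul_le_mul_of_nonneg_left (le_max_left _ _) hN.le)
      · exact mul_nonneg hN.le (le_max_right _ _)
    · have h2 := Gk_far A n e (k + 1) hn he hA h
      have h3 : (0:ℝ) ≤ ((k + 1 : ℕ) : ℝ) := by positivity
      apply max_le
      · exact le_trans (by linarith) (mul_nonneg hN.le (le_max_right _ _))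
      · exact mul_nonneg hN.le (le_max_right _ _)
  have e1 : ∑ k ∈ Ioc 0 K, max (Gk A n e k - lamE A n) 0
      = ∑ k ∈ range K, max (Gk A n e (k + 1) - lamE A n) 0 := by
    rw [← Finset.sum_Ioc_consecutive _ (le_refl 0) (Nat.zero_le K)]
    simp only [Ioc_self, sum_empty, zero_add]
    rw [Finset.range_eq_Ico, Finset.sum_Ico_add' (fun k => max (Gk A n e k - lamE A n) 0) 0 K 1]
    refine sum_congr ?_ (fun _ _ => rfl)
    ext x; simp only [mem_Ioc, mem_Ico]; omega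
  rw [e1]
  refine (sum_le_sum h1).trans ?_
  rw [← mul_sum]
  have h4 := gC_sum (10 * n : ℝ) hN K
  calc (10 * n : ℝ) * ∑ k ∈ range K, max (gC (((k:ℝ) + 1) / (10 * n)) + 311 / 50) 0
      ≤ (10 * n : ℝ) * ((10 * n : ℝ) * (11461 / 80000)) := mul_le_mul_of_nonneg_left h4 hN.le
    _ = _ := by ring

lemma selfE_IC : selfE = 100 * IC + 225 * Real.log 10 := by
  have s : ∀ u : ℝ, HH (10 * u) = 10 ^ 2 * HH u + 10 ^ 2 * u ^ 2 * Real.log 10 / 2 :=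
    fun u => HH_scale 10 u (by norm_num)
  have e2 : HH 2 = HH (10 * (1 / 5)) := by congr 1; norm_num
  have e4 : HH 4 = HH (10 * (2 / 5)) := by congr 1; norm_num
  have e7 : HH 7 = HH (10 * (7 / 10)) := by congr 1; norm_num
  have e5 : HH 5 = HH (10 * (1 / 2)) := by congr 1; norm_num
  have e3 : HH 3 = HH (10 * (3 / 10)) := by congr 1; norm_num
  have hh : ∀ u, HH u = hC u := by
    intro u; unfold HH hC; ring
  unfold selfE IC
  rw [e2, e4, e7, e5, e3, s, s, s, s, s, hh, hh, hh, hh, hh]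
  have z : hC 0 = 0 := by simp [hC]
  rw [z]
  ring

lemma W_lower' (n e : ℕ) (hn : 1 ≤ n) (he : e ≤ 16) :
    (10 * n : ℝ) ^ 2 * IC + 9 / 4 * (10 * n : ℝ) ^ 2 * Real.log (10 * n) - 1000 * n * er (7 * n)
      ≤ ∑ l ∈ Ioc 0 (7 * n + e), ∑ l' ∈ Ioc 0 (7 * n + e),
          (nu n e l : ℝ) * (nu n e l' : ℝ) * Real.log (|(((l:ℤ) - (l':ℤ) : ℤ) : ℝ)| - 1) := by
  have hn1 : (1:ℝ) ≤ n := by exact_mod_cast hn
  have hn0 : (0:ℝ) < n := by linarith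
  refine le_trans ?_ (W_lower n e hn he)
  rw [selfE_IC, Real.log_mul (by norm_num) hn0.ne']
  apply le_of_eq
  ring

/-- the coefficient of `A ^ 2` -/
noncomputable def kap : ℝ := 3 / 2 * (-311 / 50) + 4 * (11461 / 80000) - IC

/-- the constant of the error term -/
noncomputable def CE : ℝ := 4000 + 22 * |4 * (11461 / 80000) - IC|

lemma er_le_log (A : ℕ) (hA : 12 ≤ A) : er (5 * A) ≤ 8 * Real.log ((A:ℝ) + 1) ∧ 2 ≤ Real.log ((A:ℝ) + 1) := by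
  have hA' : (12:ℝ) ≤ A := by exact_mod_cast hA
  have h2 : 2 ≤ Real.log ((A:ℝ) + 1) := by
    rw [Real.le_log_iff_exp_le (by linarith)]
    have h3 := Real.exp_one_lt_d9
    have h4 : Real.exp 2 = Real.exp 1 * Real.exp 1 := by rw [← Real.exp_add]; norm_num
    have h5 := Real.exp_pos 1
    rw [h4]
    nlinarith
  refine ⟨?_, h2⟩
  unfold er
  rw [abs_of_nonneg (by positivity)]
  have h3 : Real.log (5 * (A:ℝ) + 3) ≤ Real.log (6 * ((A:ℝ) + 1)) :=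
    Real.log_le_log (by positivity) (by linarith)
  rw [Real.log_mul (by norm_num) (by positivity)] at h3
  have h6 : Real.log 6 ≤ 2 := by
    rw [Real.log_le_iff_le_exp (by norm_num)]
    have h3 := Real.exp_one_gt_d9
    have h4 : Real.exp 2 = Real.exp 1 * Real.exp 1 := by rw [← Real.exp_add]; norm_num
    rw [h4]
    nlinarith
  linarith

lemma energy_num (A n rho : ℕ) (hA : 12 ≤ A) (h1 : 2 * rho ≤ A) (h2 : A ≤ 2 * rho + 2)
    (hn : 1 ≤ n) (hn1 : 10 * n + 2 ≤ A) (hn2 : A ≤ 10 * n + 11) :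
    ((A + rho : ℕ) : ℝ) * lamE A n + 4 * ((10 * n : ℝ) ^ 2 * (11461 / 80000))
      - ((10 * n : ℝ) ^ 2 * IC + 9 / 4 * (10 * n : ℝ) ^ 2 * Real.log (10 * n) - 1000 * n * er (7 * n)
          - 40 * ((A + rho : ℕ) : ℝ))
      ≤ kap * (A:ℝ) ^ 2 - 3 / 4 * (A:ℝ) ^ 2 * Real.log A + CE * A * Real.log ((A:ℝ) + 1) := by
  obtain ⟨hE, hL2⟩ := er_le_log A hA
  have hEn : er (7 * n) ≤ er (5 * A) := by
    apply er_mono
    rw [abs_of_nonneg (by positivity), abs_of_nonneg (by positivity)]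
    have : (10 * n + 2 : ℝ) ≤ A := by exact_mod_cast hn1
    have hn0 : (0:ℝ) ≤ n := by positivity
    linarith
  have hE0 := er_pos (5 * (A:ℝ))
  have hA' : (12:ℝ) ≤ A := by exact_mod_cast hA
  have g1 : (2 * rho : ℝ) ≤ A := by exact_mod_cast h1
  have g2 : (A:ℝ) ≤ 2 * rho + 2 := by exact_mod_cast h2
  have g3 : (10 * n + 2 : ℝ) ≤ A := by exact_mod_cast hn1
  have g4 : (A:ℝ) ≤ 10 * n + 11 := by exact_mod_cast hn2
  have g5 : (1:ℝ) ≤ n := by exact_mod_cast hn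
  have hlogA : Real.log A ≤ Real.log ((A:ℝ) + 1) := Real.log_le_log (by linarith) (by linarith)
  have hlogA0 : 0 ≤ Real.log (A:ℝ) := Real.log_nonneg (by linarith)
  have hlogN0 : 0 ≤ Real.log (10 * (n:ℝ)) := Real.log_nonneg (by linarith)
  have hlogN : Real.log (10 * (n:ℝ)) ≤ Real.log ((A:ℝ) + 1) := Real.log_le_log (by linarith) (by linarith)
  have htan := Pool.Agent.QS2.psi_tan (A:ℝ) (10 * n) (by linarith) (by linarith)
  unfold psi at htan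
  have hc : ((A + rho : ℕ) : ℝ) = (A:ℝ) + rho := by push_cast; ring
  rw [hc]
  unfold lamE kap CE
  set a : ℝ := (A:ℝ) with ha
  set N : ℝ := 10 * (n:ℝ) with hN
  set c : ℝ := a + rho with hcc
  set L := Real.log (a + 1) with hLdef
  set lN := Real.log N with hlN
  set lA := Real.log a with hlA
  set E := er (5 * a) with hEdef
  set q : ℝ := 4 * (11461 / 80000) - IC with hq
  have hn10 : (n:ℝ) = N / 10 := by rw [hN]; ring
  have hN0 : 0 < N := by linarith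
  have aL : a * 2 ≤ a * L := mul_le_mul_of_nonneg_left hL2 (by linarith)
  -- T1
  have T1 : 3 / 2 * a ^ 2 - 18 * a ≤ c * N := by
    have c1 : 3 / 2 * a - 1 ≤ c := by linarith
    have c2 : (3 / 2 * a - 1) * (a - 11) ≤ c * N :=
      mul_le_mul c1 (by linarith) (by linarith) (by linarith)
    nlinarith
  -- T2
  have T2 : c * (N * lN) - 9 / 4 * N ^ 2 * lN ≤ - 3 / 4 * a ^ 2 * lA + 50 * (a * L) := by
    have c1 : c - 9 / 4 * N ≤ - 3 / 4 * a + 25 := by linarith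
    have c2 : 0 ≤ N * lN := mul_nonneg hN0.le hlogN0
    have c3 : (c - 9 / 4 * N) * (N * lN) ≤ (- 3 / 4 * a + 25) * (N * lN) :=
      mul_le_mul_of_nonneg_right c1 c2
    have c4 : a * lA - 22 * L ≤ N * lN := by
      have c5 : (a - N) * lA ≤ 11 * L := by
        calc (a - N) * lA ≤ 11 * lA := mul_le_mul_of_nonneg_right (by linarith) hlogA0
          _ ≤ 11 * L := by linarith
      nlinarith
    have c6 : N * lN ≤ a * L := mul_le_mul (by linarith) hlogN hlogN0 (by linarith)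
    have c7 : 3 / 4 * a * (a * lA - 22 * L) ≤ 3 / 4 * a * (N * lN) :=
      mul_le_mul_of_nonneg_left c4 (by linarith)
    have aL0 : 0 ≤ a * L := by linarith
    linarith
  -- T3
  have T3 : 100 * (c * E) ≤ 1200 * (a * L) := by
    have c1 : c * E ≤ (3 / 2 * a) * (8 * L) := mul_le_mul (by linarith) hE hE0.le (by linarith)
    linarith
  -- T4
  have T4 : q * N ^ 2 ≤ q * a ^ 2 + 22 * |q| * (a * L) := by
    have c1 : a ^ 2 - N ^ 2 ≤ 22 * a := by nlinarith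
    have c2 : 0 ≤ a ^ 2 - N ^ 2 := by nlinarith
    have c3 : -|q| * (a ^ 2 - N ^ 2) ≤ q * (a ^ 2 - N ^ 2) :=
      mul_le_mul_of_nonneg_right (neg_abs_le q) c2
    have c4 : |q| * (a ^ 2 - N ^ 2) ≤ |q| * (22 * (a * L)) := by
      apply mul_le_mul_of_nonneg_left _ (abs_nonneg q)
      linarith
    linarith
  -- T5
  have T5 : 1000 * (n:ℝ) * er (7 * n) ≤ 800 * (a * L) := by
    have c1 : (n:ℝ) * er (7 * n) ≤ (a / 10) * (8 * L) :=
      mul_le_mul (by linarith) (hEn.trans hE) (er_pos _).le (by linarith)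
    linarith
  have q1 : q * N ^ 2 = 4 * (11461 / 80000) * N ^ 2 - IC * N ^ 2 := by rw [hq]; ring
  have q2 : q * a ^ 2 = 4 * (11461 / 80000) * a ^ 2 - IC * a ^ 2 := by rw [hq]; ring
  rw [q1, q2] at T4
  have T6 : 40 * c ≤ 60 * (a * L) := by linarith
  linarith

/-- **The energy estimate.** -/
theorem energy_main (A rho : ℕ) (hA : 12 ≤ A) (h1 : 2 * rho ≤ A) (h2 : A ≤ 2 * rho + 2) :
    ∃ (n e : ℕ) (z : Fin (A + rho) → ℝ) (un : Fin (A + rho) → ℕ),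
      1 ≤ n ∧ e ≤ 16 ∧ 10 * n + 2 ≤ A ∧ A + rho = 15 * n + e ∧
      (∀ i, 1 ≤ un i ∧ |z i + un i| ≤ 1 / 4 ∧ 1 / 8 ≤ |z i + un i|) ∧
      (∀ i j, i ≠ j → 1 / 8 ≤ |z i - z j|) ∧
      (∀ F : ℕ → ℝ, ∑ i, F (un i) = ∑ l ∈ Ioc 0 (7 * n + e), (nu n e l : ℝ) * F l) ∧
      (∀ k, 2 * A < k → Gk A n e k ≤ lamE A n - k) ∧
      (∀ K, ((A + rho : ℕ) : ℝ) * lamE A n + 4 * ∑ k ∈ Ioc 0 K, max (Gk A n e k - lamE A n) 0
          - 2 * Real.log (VN (fun i => (z i : ℂ)))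
        ≤ kap * (A:ℝ) ^ 2 - 3 / 4 * (A:ℝ) ^ 2 * Real.log A + CE * A * Real.log ((A:ℝ) + 1)) := by
  obtain ⟨n, e, hn, he, hn1, hn2, hc⟩ : ∃ n e : ℕ, 1 ≤ n ∧ e ≤ 16 ∧ 10 * n + 2 ≤ A ∧ A ≤ 10 * n + 11 ∧
      A + rho = 15 * n + e := by
    refine ⟨(A - 2) / 10, A + rho - 15 * ((A - 2) / 10), ?_, ?_, ?_, ?_, ?_⟩ <;> omega
  obtain ⟨z, un, hz1, hz2, hz3⟩ := exists_z n e (A + rho) hc
  refine ⟨n, e, z, un, hn, he, hn1, hc, hz1, hz2, hz3, fun k hk => Gk_far A n e k hn he hn1 hk, ?_⟩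
  intro K
  have s1 := Gk_sum A n e hn he hn1 K
  have s2 := VN_lower n e (A + rho) z un hz1 hz2 hz3
  have s3 := W_lower' n e hn he
  have s4 := energy_num A n rho hA h1 h2 hn hn1 hn2
  linarith

section weights

variable {c : ℕ}

lemma phi_norm_le (z : Fin c → ℝ) (ξ : ℂ) (δ : ℝ) (hδ : 0 < δ) (hsep : ∀ i, δ ≤ ‖ξ - (z i : ℂ)‖) (i : Fin c) :
    ‖(phi (fun i => (z i : ℂ)) i).eval ξ‖ ≤ δ⁻¹ * ∏ m, ‖ξ - (z m : ℂ)‖ := by
  rw [phi_eval, norm_prod, ← mul_prod_erase univ (fun m => ‖ξ - (z m : ℂ)‖) (mem_univ i), ← mul_assoc]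
  have h0 : 0 ≤ ∏ m ∈ univ.erase i, ‖ξ - (z m : ℂ)‖ := prod_nonneg (fun _ _ => norm_nonneg _)
  have h1 : 1 ≤ δ⁻¹ * ‖ξ - (z i : ℂ)‖ := by
    have := mul_le_mul_of_nonneg_left (hsep i) (inv_nonneg.2 hδ.le)
    rwa [inv_mul_cancel₀ hδ.ne'] at this
  calc ∏ m ∈ univ.erase i, ‖ξ - (z m : ℂ)‖ = 1 * ∏ m ∈ univ.erase i, ‖ξ - (z m : ℂ)‖ := (one_mul _).symm
    _ ≤ _ := mul_le_mul_of_nonneg_right h1 h0

lemma phiphi_le (n e : ℕ) (z : Fin c → ℝ) (un : Fin c → ℕ)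
    (hz : ∀ i, 1 ≤ un i ∧ |z i + un i| ≤ 1 / 4 ∧ 1 / 8 ≤ |z i + un i|)
    (hF : ∀ F : ℕ → ℝ, ∑ i, F (un i) = ∑ l ∈ Ioc 0 (7 * n + e), (nu n e l : ℝ) * F l)
    (ξ : ℂ) (k : ℕ) (h1 : -(k:ℝ) - 1 ≤ ξ.re) (h2 : ξ.re ≤ -k) (h3 : |ξ.im| ≤ 1 / 2)
    (δ : ℝ) (hδ : 0 < δ) (hsep : ∀ i, δ ≤ ‖ξ - (z i : ℂ)‖) (i j : Fin c) :
    ‖(phi (fun i => (z i : ℂ)) i * phi (fun i => (z i : ℂ)) j).eval ξ‖
      ≤ (δ⁻¹) ^ 2 * Real.exp (2 * ∑ l ∈ Ioc 0 (7 * n + e), (nu n e l : ℝ) *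
        Real.log (|(((k:ℤ) - (l:ℤ) : ℤ) : ℝ)| + 2)) := by
  rw [Polynomial.eval_mul, norm_mul]
  have a := phi_norm_le z ξ δ hδ hsep
  have b := prod_z_le n e c z un hz hF ξ k h1 h2 h3
  have hb0 : 0 ≤ ∏ m, ‖ξ - (z m : ℂ)‖ := prod_nonneg (fun _ _ => norm_nonneg _)
  have hd : 0 ≤ δ⁻¹ := inv_nonneg.2 hδ.le
  have a' : ∀ i, ‖(phi (fun i => (z i : ℂ)) i).eval ξ‖ ≤ δ⁻¹ * Real.exp (∑ l ∈ Ioc 0 (7 * n + e),
      (nu n e l : ℝ) * Real.log (|(((k:ℤ) - (l:ℤ) : ℤ) : ℝ)| + 2)) := fun i =>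
    (a i).trans (mul_le_mul_of_nonneg_left b hd)
  have h4 := mul_le_mul (a' i) (a' j) (norm_nonneg _) (mul_nonneg hd (Real.exp_pos _).le)
  refine h4.trans (le_of_eq ?_)
  rw [two_mul, Real.exp_add]
  ring

/-- **Weight of a pole** in unit `k`. -/
theorem pole_weight (A n e : ℕ) (z : Fin c → ℝ) (un : Fin c → ℕ)
    (hz : ∀ i, 1 ≤ un i ∧ |z i + un i| ≤ 1 / 4 ∧ 1 / 8 ≤ |z i + un i|)
    (hF : ∀ F : ℕ → ℝ, ∑ i, F (un i) = ∑ l ∈ Ioc 0 (7 * n + e), (nu n e l : ℝ) * F l)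
    (ξ : ℂ) (k : ℕ) (h1 : |ξ.re + k + 1 / 2| ≤ 1 / 10) (h3 : |ξ.im| ≤ 1 / 2) (i j : Fin c) :
    ‖(phi (fun i => (z i : ℂ)) i * phi (fun i => (z i : ℂ)) j).eval ξ‖
      ≤ 100 * Real.exp 2 * Real.exp (Gk A n e k + 7 * k) *
        ((∏ m ∈ Ioc 0 A, ‖(m:ℂ) - ξ‖) * ∏ j ∈ Ioc 2 (A + 2), ‖(-(j:ℂ)) - ξ‖) := by
  have h6 := abs_le.1 h1
  have a := phiphi_le n e z un hz hF ξ k (by linarith [h6.1]) (by linarith [h6.2]) h3 (1 / 10)
    (by norm_num) (fun i => sep_pole ξ k h1 (z i) (un i) (hz i).2.1) i j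
  have b := nodes_lower A k ξ h1
  refine a.trans ?_
  have e1 : (((1:ℝ) / 10)⁻¹) ^ 2 = 100 := by norm_num
  rw [e1, mul_assoc, mul_assoc]
  refine mul_le_mul_of_nonneg_left ?_ (by norm_num)
  have h7 : Real.exp 2 * (Real.exp (Gk A n e k + 7 * k) *
      Real.exp (∑ m ∈ Ioc 0 A, Real.log ((m:ℝ) + k) + ∑ j ∈ Ioc 2 (A + 2), lgi ((k:ℤ) - j) - 2))
      = Real.exp (2 * ∑ l ∈ Ioc 0 (7 * n + e), (nu n e l : ℝ) *
        Real.log (|(((k:ℤ) - (l:ℤ) : ℤ) : ℝ)| + 2)) := by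
    rw [← Real.exp_add, ← Real.exp_add]
    congr 1
    unfold Gk
    ring
  rw [← h7]
  refine mul_le_mul_of_nonneg_left ?_ (Real.exp_pos _).le
  exact mul_le_mul_of_nonneg_left b (Real.exp_pos _).le

/-- **Weight of a left node** `-k`. -/
theorem node_weight (A n e : ℕ) (z : Fin c → ℝ) (un : Fin c → ℕ)
    (hz : ∀ i, 1 ≤ un i ∧ |z i + un i| ≤ 1 / 4 ∧ 1 / 8 ≤ |z i + un i|)
    (hF : ∀ F : ℕ → ℝ, ∑ i, F (un i) = ∑ l ∈ Ioc 0 (7 * n + e), (nu n e l : ℝ) * F l)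
    (k : ℕ) (i j : Fin c) :
    ‖(phi (fun i => (z i : ℂ)) i * phi (fun i => (z i : ℂ)) j).eval (-(k:ℂ))‖
      ≤ 64 * Real.exp (Gk A n e k + 7 * k) *
        ((∏ m ∈ Ioc 0 A, ‖(m:ℂ) - (-(k:ℂ))‖) *
          ∏ j ∈ (Ioc 2 (A + 2)).erase k, ‖(-(j:ℂ)) - (-(k:ℂ))‖) := by
  have a := phiphi_le n e z un hz hF (-(k:ℂ)) k (by simp) (by simp) (by simp) (1 / 8)
    (by norm_num) (fun i => sep_node k (z i) (un i) (hz i).2.1 (hz i).2.2) i j
  have b := nodes_lower' A k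
  refine a.trans ?_
  have e1 : (((1:ℝ) / 8)⁻¹) ^ 2 = 64 := by norm_num
  rw [e1, mul_assoc]
  refine mul_le_mul_of_nonneg_left ?_ (by norm_num)
  have h7 : Real.exp (Gk A n e k + 7 * k) *
      Real.exp (∑ m ∈ Ioc 0 A, Real.log ((m:ℝ) + k) + ∑ j ∈ Ioc 2 (A + 2), lgi ((k:ℤ) - j))
      = Real.exp (2 * ∑ l ∈ Ioc 0 (7 * n + e), (nu n e l : ℝ) *
        Real.log (|(((k:ℤ) - (l:ℤ) : ℤ) : ℝ)| + 2)) := by
    rw [← Real.exp_add]
    congr 1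
    unfold Gk
    ring
  rw [← h7]
  exact mul_le_mul_of_nonneg_left b (Real.exp_pos _).le

/-- geometric tail -/
lemma tail_sum (M A : ℕ) : ∑ k ∈ Ioc A M, Real.exp (-(k:ℝ)) ≤ 1 := by
  have h : ∀ M : ℕ, ∑ k ∈ Ioc 0 M, Real.exp (-(k:ℝ)) ≤ 1 - Real.exp (-(M:ℝ)) := by
    intro M
    induction M with
    | zero => simp
    | succ M ih =>
      rw [sum_Ioc_succ_top (by omega)]
      have h1 : Real.exp (-(((M + 1 : ℕ) : ℝ))) = Real.exp (-(M:ℝ)) * Real.exp (-1) := by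
        rw [← Real.exp_add]; congr 1; push_cast; ring
      have h2 : Real.exp (-1) ≤ 1 / 2 := by
        rw [Real.exp_neg, inv_le_comm₀ (Real.exp_pos 1) (by norm_num)]
        have := Real.exp_one_gt_d9
        linarith
      have h3 := Real.exp_pos (-(M:ℝ))
      rw [h1]
      nlinarith
  have h4 : ∑ k ∈ Ioc A M, Real.exp (-(k:ℝ)) ≤ ∑ k ∈ Ioc 0 M, Real.exp (-(k:ℝ)) :=
    sum_le_sum_of_subset_of_nonneg (Ioc_subset_Ioc_left (Nat.zero_le A)) (fun _ _ _ => (Real.exp_pos _).le)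
  have h5 := h M
  have h6 := Real.exp_pos (-(M:ℝ))
  linarith

end weights

end Pool.QS2E
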