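import Pool.Agent.QS2.Elim

/-!
# Change of basis in the columns

`det_basis_change`: for functionals `L a : k[X] →ₗ k`, `M a : k[X] →ₗ k` (rows), the determinant in
the basis `b i` (degree at most `i`, coefficient `ell i` in degree `i`) is `(∏ ell i)^2` times the
determinant in the basis `X^i`.
-/

namespace Pool.Agent.QS2

open Finset Matrix Polynomial

variable {k : Type*} [Field k] {c : ℕ}

/-- rows = pairs of functionals, columns = `(b i, 0)`, `(0, b i)` -/
noncomputable def pairMat {n : Type*} (L M : n → k[X] →ₗ[k] k) (b : ℕ → k[X]) (c : ℕ) :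
    Matrix n (Fin c ⊕ Fin c) k :=
  Matrix.of fun a t => match t with
    | Sum.inl i => L a (b i)
    | Sum.inr i => M a (b i)

theorem apply_basis (F : k[X] →ₗ[k] k) (p : k[X]) (hp : p.natDegree < c) :
    F p = ∑ l : Fin c, F (X ^ (l : ℕ)) * p.coeff l := by
  conv_lhs => rw [p.as_sum_range' c hp]
  rw [map_sum, ← Fin.sum_univ_eq_sum_range (fun l => F (monomial l (p.coeff l))) c]
  refine sum_congr rfl (fun l _ => ?_)
  rw [← C_mul_X_pow_eq_monomial, ← smul_eq_C_mul, map_smul, smul_eq_mul, mul_comm]

theorem det_basis_change {n : Type*} [Fintype n] [DecidableEq n] (L M : n → k[X] →ₗ[k] k)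
    (b : ℕ → k[X]) (ell : ℕ → k) (hb : ∀ i, (b i).natDegree ≤ i) (hl : ∀ i, (b i).coeff i = ell i)
    (f : n ≃ Fin c ⊕ Fin c) :
    ((pairMat L M b c).submatrix id f).det =
      (∏ i ∈ range c, ell i) ^ 2 * ((pairMat L M (fun i => X ^ i) c).submatrix id f).det := by
  set T : Matrix (Fin c) (Fin c) k := Matrix.of fun i j => (b j).coeff i with hT
  have h1 : pairMat L M b c = pairMat L M (fun i => X ^ i) c * fromBlocks T 0 0 T := by
    ext a t
    rw [Matrix.mul_apply, Fintype.sum_sum_type]
    cases t with
    | inl i =>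
      simp only [fromBlocks_apply₁₁, fromBlocks_apply₂₁, Matrix.zero_apply, mul_zero,
        sum_const_zero, add_zero]
      exact apply_basis (L a) (b i) (lt_of_le_of_lt (hb i) i.2)
    | inr i =>
      simp only [fromBlocks_apply₁₂, fromBlocks_apply₂₂, Matrix.zero_apply, mul_zero,
        sum_const_zero, zero_add]
      exact apply_basis (M a) (b i) (lt_of_le_of_lt (hb i) i.2)
  have h2 : (pairMat L M b c).submatrix id f =
      (pairMat L M (fun i => X ^ i) c).submatrix id f *
        (fromBlocks T 0 0 T).submatrix f f := by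
    rw [h1, submatrix_mul_equiv]
  have h3 : T.det = ∏ i ∈ range c, ell i := by
    have htri : T.BlockTriangular id := by
      intro i j hij
      change j < i at hij
      exact coeff_eq_zero_of_natDegree_lt (lt_of_le_of_lt (hb j) (by exact_mod_cast hij))
    rw [det_of_isUpperTriangular htri, ← Fin.prod_univ_eq_prod_range ell c]
    exact prod_congr rfl (fun i _ => hl i)
  rw [h2, det_mul, det_submatrix_equiv_self, det_fromBlocks_zero₂₁, h3]
  ring

/-- scaling of the rows -/
theorem det_row_scale {n m : Type*} [Fintype n] [DecidableEq n] (A B : Matrix n m k) (d : n → k)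
    (f : n ≃ m) (h : ∀ a t, B a t = d a * A a t) :
    (B.submatrix id f).det = (∏ a, d a) * (A.submatrix id f).det := by
  have h1 : B.submatrix id f = diagonal d * A.submatrix id f := by
    ext a t
    rw [Matrix.diagonal_mul]
    exact h a (f t)
  rw [h1, det_mul, det_diagonal]

end Pool.Agent.QS2
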