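import Pool.Agent.QS2.LagDet

/-!
# Circle integral functionals

`rowF c R rho y f = (2 pi i)⁻¹ ∮ f rho / (y - t)`, `boxF c R rho x f = (2 pi i)⁻¹ ∮ f rho / ∏ (x n - t)`.
-/

namespace Pool.Agent.QS2

open Finset Matrix Polynomial

variable {N : ℕ}

/-- the linear functional `f ↦ (2 pi i)⁻¹ ∮ f(t) g(t) dt` for `g` continuous on the circle -/
noncomputable def circF (c : ℂ) (R : ℝ) (hR : 0 ≤ R) (g : ℂ → ℂ)
    (hg : ContinuousOn g (Metric.sphere c R)) : ℂ[X] →ₗ[ℂ] ℂ where
  toFun f := (2 * Real.pi * Complex.I)⁻¹ * ∮ t in C(c, R), f.eval t * g t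
  map_add' f h := by
    have i1 : CircleIntegrable (fun t => f.eval t * g t) c R :=
      (f.continuous.continuousOn.mul hg).circleIntegrable hR
    have i2 : CircleIntegrable (fun t => h.eval t * g t) c R :=
      (h.continuous.continuousOn.mul hg).circleIntegrable hR
    rw [← mul_add, ← circleIntegral.integral_add i1 i2]
    simp only [eval_add, add_mul]
  map_smul' a f := by
    simp only [eval_smul, smul_eq_mul, RingHom.id_apply, mul_assoc]
    have : (∮ t in C(c, R), a * (f.eval t * g t)) = a * ∮ t in C(c, R), f.eval t * g t :=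
      circleIntegral.integral_const_mul a _ c R
    rw [this]
    ring

theorem circF_apply (c : ℂ) (R : ℝ) (hR : 0 ≤ R) (g : ℂ → ℂ)
    (hg : ContinuousOn g (Metric.sphere c R)) (f : ℂ[X]) :
    circF c R hR g hg f = (2 * Real.pi * Complex.I)⁻¹ * ∮ t in C(c, R), f.eval t * g t := rfl

theorem norm_circF_le (c : ℂ) (R : ℝ) (hR : 0 ≤ R) (g : ℂ → ℂ)
    (hg : ContinuousOn g (Metric.sphere c R)) (f : ℂ[X]) (b : ℝ)
    (hb : ∀ t ∈ Metric.sphere c R, ‖f.eval t * g t‖ ≤ b) : ‖circF c R hR g hg f‖ ≤ R * b := by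
  rw [circF_apply, ← smul_eq_mul]
  exact circleIntegral.norm_two_pi_i_inv_smul_integral_le_of_norm_le_const hR hb

theorem continuousOn_div_node (c : ℂ) (R : ℝ) (rho : ℂ → ℂ)
    (hrho : ContinuousOn rho (Metric.sphere c R)) (y : ℂ) (hy : y ∉ Metric.sphere c R) :
    ContinuousOn (fun t => rho t * (y - t)⁻¹) (Metric.sphere c R) := by
  refine hrho.mul (ContinuousOn.inv₀ (by fun_prop) (fun t ht => ?_))
  exact sub_ne_zero.mpr (fun h => hy (h ▸ ht))

theorem continuousOn_div_nodes (c : ℂ) (R : ℝ) (rho : ℂ → ℂ)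
    (hrho : ContinuousOn rho (Metric.sphere c R)) (x : Fin N → ℂ)
    (hx : ∀ n, x n ∉ Metric.sphere c R) :
    ContinuousOn (fun t => rho t / ∏ n, (x n - t)) (Metric.sphere c R) := by
  refine hrho.div (by fun_prop) (fun t ht => ?_)
  exact prod_ne_zero_iff.mpr (fun n _ => sub_ne_zero.mpr (fun h => hx n (h ▸ ht)))

/-- row combination of the node functionals = box functional -/
theorem sum_pf_row (c : ℂ) (R : ℝ) (hR : 0 ≤ R) (rho : ℂ → ℂ)
    (hrho : ContinuousOn rho (Metric.sphere c R)) (x : Fin N → ℂ) (hxi : Function.Injective x)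
    (hx : ∀ n, x n ∉ Metric.sphere c R) (p q : ℂ[X]) (hp : p.natDegree < N) :
    ∑ n, pfr x p n * circF c R hR _ (continuousOn_div_node c R rho hrho (x n) (hx n)) q =
      circF c R hR _ (continuousOn_div_nodes c R rho hrho x hx) (p * q) := by
  simp only [circF_apply]
  have h1 : ∀ n, pfr x p n * ((2 * Real.pi * Complex.I)⁻¹ *
      ∮ t in C(c, R), q.eval t * (rho t * (x n - t)⁻¹)) = (2 * Real.pi * Complex.I)⁻¹ *
      ∮ t in C(c, R), pfr x p n * (q.eval t * (rho t * (x n - t)⁻¹)) := by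
    intro n
    have : (∮ t in C(c, R), pfr x p n * (q.eval t * (rho t * (x n - t)⁻¹))) =
        pfr x p n * ∮ t in C(c, R), q.eval t * (rho t * (x n - t)⁻¹) :=
      circleIntegral.integral_const_mul _ _ c R
    rw [this]
    ring
  rw [sum_congr rfl (fun n _ => h1 n), ← mul_sum]
  congr 1
  rw [← circleIntegral.integral_fun_sum (fun n _ => ?_)]
  · refine circleIntegral.integral_congr hR (fun t ht => ?_)
    have h2 := partial_fractions x hxi p hp t (fun n h => hx n (h ▸ ht))
    have h3 : ∑ n, pfr x p n * (q.eval t * (rho t * (x n - t)⁻¹)) =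
        (∑ n, pfr x p n * (x n - t)⁻¹) * (q.eval t * rho t) := by
      rw [sum_mul]
      exact sum_congr rfl (fun n _ => by ring)
    simp only [h3, h2, eval_mul]
    ring
  · refine ContinuousOn.circleIntegrable hR ?_
    refine continuousOn_const.mul (q.continuous.continuousOn.mul ?_)
    exact continuousOn_div_node c R rho hrho (x n) (hx n)

/-- row combination of the node masses -/
theorem sum_pf_mass (x : Fin N → ℂ) (p q : ℂ[X]) (om : Fin N → ℂ) :
    ∑ n, pfr x p n * (om n * q.eval (x n)) =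
      ∑ n, (om n / ∏ m ∈ univ.erase n, (x m - x n)) * (p * q).eval (x n) := by
  refine sum_congr rfl (fun n _ => ?_)
  unfold pfr
  rw [eval_mul]
  ring

/-- the mass functional `f ↦ a * f(y)` -/
noncomputable def massF (y a : ℂ) : ℂ[X] →ₗ[ℂ] ℂ where
  toFun f := a * f.eval y
  map_add' f h := by rw [eval_add, mul_add]
  map_smul' b f := by
    simp only [eval_smul, smul_eq_mul, RingHom.id_apply]
    ring

theorem massF_kill (y a : ℂ) (g : ℂ[X]) : massF y a ((X - C y) * g) = 0 := by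
  change a * ((X - C y) * g).eval y = 0
  simp

/-- bound for the products of Lagrange polynomials -/
theorem norm_phi_mul_le (z : Fin N → ℂ) (i j : Fin N) (t : ℂ) (d : ℝ) (hd : 0 < d)
    (h : ∀ m, d ≤ ‖t - z m‖) :
    ‖(phi z i * phi z j).eval t‖ ≤ (∏ m, ‖t - z m‖) ^ 2 / d ^ 2 := by
  have h1 : ∀ i, ‖(phi z i).eval t‖ ≤ (∏ m, ‖t - z m‖) / d := by
    intro i
    rw [phi_eval, norm_prod, le_div_iff₀ hd, ← mul_prod_erase univ _ (mem_univ i), mul_comm]
    exact mul_le_mul_of_nonneg_right (h i) (prod_nonneg (fun _ _ => norm_nonneg _))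
  rw [eval_mul, norm_mul]
  calc ‖(phi z i).eval t‖ * ‖(phi z j).eval t‖
      ≤ ((∏ m, ‖t - z m‖) / d) * ((∏ m, ‖t - z m‖) / d) :=
        mul_le_mul (h1 i) (h1 j) (norm_nonneg _) (by positivity)
    _ = _ := by ring

end Pool.Agent.QS2
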