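import Pool.Agent.QS2.ClsLocal

/-!
# QS2, odd class rule: the interface between the modules

* `Data p v al ali half V V'` : the polynomials `V k = [y^k V]_+`, `V' k = [y^k (w+1)^3 v V]_+`
  over `O = Op p`;
* `Good p v P Q` : the scaled pairs `(P D, (X + 1)^3 * Q D)`, `D ≥ dg p + 3`;
* `colP`, `colQ`, `valM` : the columns that are not killed by the jets, and the matrix of values.
-/

set_option autoImplicit false

namespace QS2.Cls

open Polynomial Finset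

/-- the degree `3 (p - 1) / 2` of `V` (`p` odd) -/
def dg (p : ℕ) : ℕ := 3 * ((p - 1) / 2)

/-- `∑_{i < M} ⌊i / p⌋` -/
def Sfl (p M : ℕ) : ℕ := ∑ i ∈ range M, i / p

/-- the map `O_p[X] → K[X]` -/
noncomputable def toK (p : ℕ) [Fact p.Prime] : (Op p)[X] →+* K[X] :=
  mapRingHom (Op p).subtype

/-- `x` is a unit of `Op p` -/
def UnitOp (p : ℕ) [Fact p.Prime] (x : K) : Prop := x ≠ 0 ∧ x ∈ Op p ∧ x⁻¹ ∈ Op p

/-- **Data.** `V k = [y^k V]_+` and `V' k = [y^k (w+1)^3 v V]_+`, `y = w (w-1) ⋯ (w-p+1)`. -/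
structure Data (p : ℕ) [Fact p.Prime] (v : ℕ → K) (half al ali : Op p)
    (V V' : ℕ → (Op p)[X]) : Prop where
  half_eq : 2 * half = 1
  al_eq : (al : K) = alpha
  al_ali : al * ali = 1
  deg : ∀ k, (V k).natDegree ≤ dg p + p * k
  deg' : ∀ k, (V' k).natDegree ≤ dg p + 3 + p * k
  lead : ∀ k, IsUnit ((V k).coeff (dg p + p * k))
  lead' : ∀ k, (V' k).coeff (dg p + 3 + p * k) = al * (V k).coeff (dg p + p * k)
  step : ∀ k, C ((p : Op p) ^ (k + 1)) ∣ V (k + 1) - descPochhammer (Op p) p * V k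
  step' : ∀ k, C ((p : Op p) ^ (k + 1)) ∣ V' (k + 1) - descPochhammer (Op p) p * V' k
  jets : ∀ k d, 3 ≤ d →
    (pp v ((X + 1) ^ 3 * toK p (V k))).coeff d = (toK p (V' k)).coeff d
  J : ∀ k, C ((p : Op p) ^ (k + 1)) ∣ (X - C (p : Op p)) ^ k * (V' k - ap X * V k)
      + C ali * (X + C ((p : Op p) * half)) ^ 3 * X ^ k * (V k).comp (X - 1)
  J' : ∀ k, C ((p : Op p) ^ (k + 1)) ∣
      (X + C ((p : Op p) * half)) ^ 3 * X ^ k * (V' k).comp (X - 1)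
      - C al * X ^ 6 * (X - C (p : Op p)) ^ k * V k

/-- class `c` : the value combination is `h0 + h1 t + h2 t^2 + p^3 (integral)`, `t = p k` -/
def Nice (p : ℕ) [Fact p.Prime] (c : ℕ) (P Q : K[X]) : Prop :=
  ∃ h0 h1 h2 : K, h0 ∈ Op p ∧ h1 ∈ Op p ∧ h2 ∈ Op p ∧ ∀ k : ℤ, ∃ r ∈ Op p,
    P.eval ((c : K) + p * k) * (trA K c).eval ((p : K) * k)
      + Q.eval ((c : K) + p * k) * (trA K (c + 1)).eval ((p : K) * k)
      = h0 + h1 * (p * k) + h2 * (p * k) ^ 2 + p ^ 3 * r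

/-- **Good pairs** `(P D, (X + 1)^3 * Q D)`, of degree `D ≥ dg p + 3`. -/
structure Good (p : ℕ) [Fact p.Prime] (v : ℕ → K) (P Q : ℕ → K[X]) : Prop where
  degP : ∀ D, dg p + 3 ≤ D → (P D).natDegree ≤ D
  degQ : ∀ D, dg p + 3 ≤ D → (Q D).natDegree ≤ D - 3
  lead : ∀ D, dg p + 3 ≤ D → ∃ u, UnitOp p u ∧
    (p : K) ^ ((D - (dg p + 3)) / p) * (Q D).coeff (D - 3) = u ∧
    (p : K) ^ ((D - (dg p + 3)) / p) * (P D).coeff D = -(alpha * u)
  jet : ∀ D, dg p + 3 ≤ D → ∀ d, p + 2 ≤ d →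
    (P D).coeff d + (pp v ((X + 1) ^ 3 * Q D)).coeff d = 0
  intP : ∀ D, dg p + 3 ≤ D → ∀ n : ℤ, (P D).eval (n : K) ∈ Op p
  intQ : ∀ D, dg p + 3 ≤ D → ∀ n : ℤ, (Q D).eval (n : K) ∈ Op p
  nice : ∀ D, dg p + 3 ≤ D → ∀ c < p, Nice p c (P D) (Q D)

/-- `P`-part of the columns not killed by the jets: `inl D` (`D < M = A - rho`): the monomials
`(w^D, 0)` for `D < dg p + 3`, the conjugate pairs for `D ≥ dg p + 3`; `inr D`
(`D < c = A + rho`): `(0, w^D)` for `D < 3`, `(0, (w+1)^3 w^(D-3))` for `3 ≤ D < dg p + 3`, the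
pairs for `D ≥ dg p + 3`. -/
noncomputable def colP (p M c : ℕ) (P : ℕ → K[X]) : Fin M ⊕ Fin c → K[X]
  | Sum.inl D => if (D : ℕ) < dg p + 3 then X ^ (D : ℕ) else (P D).map (starRingEnd K)
  | Sum.inr D => if (D : ℕ) < dg p + 3 then 0 else P D

/-- `Q`-part of the columns, see `colP` -/
noncomputable def colQ (p M c : ℕ) (Q : ℕ → K[X]) : Fin M ⊕ Fin c → K[X]
  | Sum.inl D => if (D : ℕ) < dg p + 3 then 0 else (X + 1) ^ 3 * (Q D).map (starRingEnd K)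
  | Sum.inr D => if (D : ℕ) < 3 then X ^ (D : ℕ) else
      if (D : ℕ) < dg p + 3 then (X + 1) ^ 3 * X ^ ((D : ℕ) - 3) else (X + 1) ^ 3 * Q D

/-- the matrix of values on the columns `colP`, `colQ` -/
noncomputable def valM (p A rho : ℕ) (y y' : K) (P Q : ℕ → K[X]) :
    Matrix (Nd A) (Fin (A - rho) ⊕ Fin (A + rho)) K :=
  fun f s => (colP p (A - rho) (A + rho) P s).eval ((nodeZ A f : ℤ) : K) * uval y y' A f
    + (colQ p (A - rho) (A + rho) Q s).eval ((nodeZ A f : ℤ) : K) * uval1 y y' A f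

end QS2.Cls
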