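import Mathlib

/-! Growth of the coefficients of the formal Riccati solution at a prime element. -/

namespace Pool.QS2

open Finset

section growth

variable {F : Type*} [Field F]

/-- elements x with p^a x in p^b R -/
def Gd (R : Subring F) (p : F) (a b : ℕ) : AddSubgroup F where
  carrier := {x | ∃ r ∈ R, p ^ a * x = p ^ b * r}
  zero_mem' := ⟨0, R.zero_mem, by simp⟩
  add_mem' := by
    rintro x y ⟨r, hr, hx⟩ ⟨s, hs, hy⟩
    exact ⟨r + s, R.add_mem hr hs, by rw [mul_add, mul_add, hx, hy]⟩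
  neg_mem' := by
    rintro x ⟨r, hr, hx⟩
    exact ⟨-r, R.neg_mem hr, by rw [mul_neg, mul_neg, hx]⟩

theorem mem_Gd {R : Subring F} {p : F} {a b : ℕ} {x : F} :
    x ∈ Gd R p a b ↔ ∃ r ∈ R, p ^ a * x = p ^ b * r := Iff.rfl

theorem Gd_smul {R : Subring F} {p : F} {a b : ℕ} {c x : F} (hc : c ∈ R) (hx : x ∈ Gd R p a b) :
    c * x ∈ Gd R p a b := by
  obtain ⟨r, hr, h⟩ := hx
  exact ⟨c * r, R.mul_mem hc hr, by linear_combination c * h⟩

theorem Gd_nat {R : Subring F} {p : F} {a b : ℕ} {x : F} (n : ℕ) (hx : x ∈ Gd R p a b) :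
    (n : F) * x ∈ Gd R p a b := Gd_smul (natCast_mem R n) hx

theorem Gd_mul {R : Subring F} {p : F} {a b a' b' : ℕ} {x y : F} (hx : x ∈ Gd R p a b)
    (hy : y ∈ Gd R p a' b') : x * y ∈ Gd R p (a + a') (b + b') := by
  obtain ⟨r, hr, h⟩ := hx
  obtain ⟨s, hs, h'⟩ := hy
  refine ⟨r * s, R.mul_mem hr hs, ?_⟩
  rw [pow_add, pow_add]
  linear_combination (p ^ a' * y) * h + (p ^ b * r) * h'

theorem Gd_mono_left {R : Subring F} {p : F} (hp : p ∈ R) {a a' b : ℕ} (h : a ≤ a') {x : F}
    (hx : x ∈ Gd R p a b) : x ∈ Gd R p a' b := by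
  obtain ⟨r, hr, e⟩ := hx
  refine ⟨p ^ (a' - a) * r, R.mul_mem (R.pow_mem hp _) hr, ?_⟩
  obtain ⟨k, rfl⟩ := Nat.exists_eq_add_of_le h
  rw [Nat.add_sub_cancel_left, pow_add]
  linear_combination (p ^ k) * e

theorem Gd_mono_right {R : Subring F} {p : F} (hp : p ∈ R) {a b b' : ℕ} (h : b' ≤ b) {x : F}
    (hx : x ∈ Gd R p a b) : x ∈ Gd R p a b' := by
  obtain ⟨r, hr, e⟩ := hx
  refine ⟨p ^ (b - b') * r, R.mul_mem (R.pow_mem hp _) hr, ?_⟩
  obtain ⟨k, rfl⟩ := Nat.exists_eq_add_of_le h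
  rw [Nat.add_sub_cancel_left, e, pow_add]
  ring

theorem Gd_shift {R : Subring F} {p : F} {a b k : ℕ} {x : F}
    (hx : x ∈ Gd R p a b) : x ∈ Gd R p (a + k) (b + k) := by
  obtain ⟨r, hr, e⟩ := hx
  refine ⟨r, hr, ?_⟩
  rw [pow_add, pow_add]
  linear_combination (p ^ k) * e

/-- The shifted series coefficients: the series of v(z-1) in 1/z. -/
def shiftc (v : ℕ → F) (j : ℕ) : F := ∑ m ∈ range (j + 1), ((j - 1).choose (j - m) : F) * v m

/-- coefficient of the product of v and its shift -/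
def prodc (v : ℕ → F) (n : ℕ) : F := ∑ i ∈ range (n + 1), v i * shiftc v (n - i)

/-- the coefficient m of the Riccati identity, with the value of the truncated terms as given -/
def ricc (v : ℕ → F) (m : ℕ) : F :=
  (prodc v m + (if 1 ≤ m then 3 * prodc v (m - 1) else 0)
    + (if 2 ≤ m then 3 * prodc v (m - 2) else 0) + (if 3 ≤ m then prodc v (m - 3) else 0))
  - (34 * shiftc v m + (if 1 ≤ m then 51 * shiftc v (m - 1) else 0)
    + (if 2 ≤ m then 27 * shiftc v (m - 2) else 0) + (if 3 ≤ m then 5 * shiftc v (m - 3) else 0))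

theorem shiftc_zero (v : ℕ → F) : shiftc v 0 = v 0 := by
  simp [shiftc]

theorem prodc_zero (v : ℕ → F) : prodc v 0 = v 0 * v 0 := by
  simp [prodc, shiftc_zero]

/-- for j positive the constant term does not enter -/
theorem shiftc_pos (v : ℕ → F) {j : ℕ} (hj : 1 ≤ j) :
    shiftc v j = v j + ∑ i ∈ Ico 1 j, ((j - 1).choose (j - i) : F) * v i := by
  unfold shiftc
  rw [sum_range_succ, range_eq_Ico, sum_eq_sum_Ico_succ_bot (by omega : 0 < j)]
  have h0 : (j - 1).choose (j - 0) = 0 := Nat.choose_eq_zero_of_lt (by omega)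
  rw [h0]
  simp
  ring

theorem prodc_pos (v : ℕ → F) {n : ℕ} (hn : 1 ≤ n) :
    prodc v n = v 0 * shiftc v n + v n * v 0 + ∑ i ∈ Ico 1 n, v i * shiftc v (n - i) := by
  unfold prodc
  rw [sum_range_succ, range_eq_Ico, sum_eq_sum_Ico_succ_bot (by omega : 0 < n)]
  simp [shiftc_zero]
  ring

/-- General growth lemma. -/
theorem riccati_growth (R : Subring F) (p s : F) (a : ℕ → ℕ) (B C : ℕ) (hp : p ∈ R) (hp0 : p ≠ 0)
    (hs : s ∈ R) (u : F) (hu : u ∈ R) (hu2 : 24 * s * u = p ^ C)
    (hBC : C ≤ B)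
    (hsub : ∀ i j m, 1 ≤ i → 1 ≤ j → i + j ≤ m → a i + a j ≤ a m)
    (hmon : ∀ i m, 1 ≤ i → i ≤ m → a i ≤ a m)
    (hlin2 : ∀ i m, 1 ≤ i → i + 2 ≤ m → a i + C ≤ a m)
    (hlin1 : ∀ m, 2 ≤ m → ∃ r ∈ R, p ^ (a m) * ((m : F) - 1) = p ^ (a (m - 1) + C) * r)
    (hlin3 : ∀ m, 2 ≤ m → ∃ r ∈ R, p ^ (a m) * 3 = p ^ (a (m - 1) + C) * r)
    (α : F) (hα : α = 17 - 12 * s) (hs2 : s ^ 2 = 2)
    (h1 : 3 * α ^ 2 - 51 * α ∈ Gd R p (a 1) (B + C))
    (h2 : 3 * α ^ 2 - 27 * α ∈ Gd R p (a 2) (B + C))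
    (h3 : α ^ 2 - 5 * α ∈ Gd R p (a 3) (B + C))
    (v : ℕ → F) (hv0 : v 0 = α) (hv : ∀ m, 1 ≤ m → ricc v m = 0) :
    ∀ m, 1 ≤ m → v m ∈ Gd R p (a m) B := by
  intro m
  induction m using Nat.strong_induction_on with
  | _ m ih =>
  intro hm
  have hαR : α ∈ R := by
    rw [hα]
    exact R.sub_mem (by exact_mod_cast natCast_mem R 17)
      (R.mul_mem (by exact_mod_cast natCast_mem R 12) hs)
  -- lower shifted coefficients
  have hshift : ∀ j, 1 ≤ j → j < m → shiftc v j ∈ Gd R p (a j) B := by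
    intro j hj hjm
    rw [shiftc_pos v hj]
    refine AddSubgroup.add_mem _ (ih j hjm hj) (AddSubgroup.sum_mem _ fun i hi => ?_)
    rw [mem_Ico] at hi
    exact Gd_nat _ (Gd_mono_left hp (hmon i j hi.1 (by omega)) (ih i (by omega) hi.1))
  -- linear terms
  have hlinA : ∀ i, 1 ≤ i → i + 2 ≤ m → ∀ x ∈ Gd R p (a i) B, x ∈ Gd R p (a m) (B + C) := by
    intro i hi him x hx
    exact Gd_mono_left hp (hlin2 i m hi him) (Gd_shift hx)
  have hlin3' : ∀ x ∈ Gd R p (a (m - 1)) B, 2 ≤ m → 3 * x ∈ Gd R p (a m) (B + C) := by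
    rintro x ⟨r, hr, hx⟩ h2m
    obtain ⟨t, ht, e⟩ := hlin3 m h2m
    refine ⟨t * r, R.mul_mem ht hr, ?_⟩
    rw [pow_add] at e
    rw [pow_add]
    linear_combination x * e + (p ^ C * t) * hx
  have hlin3'' : ∀ i, 1 ≤ i → i < m → ∀ x ∈ Gd R p (a i) B, 3 * x ∈ Gd R p (a m) (B + C) := by
    intro i hi him x hx
    by_cases h : i + 2 ≤ m
    · have := hlinA i hi h x hx
      exact_mod_cast Gd_nat 3 this
    · have hi' : i = m - 1 := by omega
      subst hi'
      exact hlin3' x hx (by omega)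
  have hlin1' : 2 ≤ m → ((m : F) - 1) * v (m - 1) ∈ Gd R p (a m) (B + C) := by
    intro h2m
    obtain ⟨t, ht, e⟩ := hlin1 m h2m
    obtain ⟨r, hr, hx⟩ := ih (m - 1) (by omega) (by omega)
    refine ⟨t * r, R.mul_mem ht hr, ?_⟩
    rw [pow_add] at e
    rw [pow_add]
    linear_combination v (m - 1) * e + (p ^ C * t) * hx
  -- quadratic terms
  have hquad : ∀ n, n ≤ m → ∑ i ∈ Ico 1 n, v i * shiftc v (n - i) ∈ Gd R p (a m) (B + C) := by
    intro n hn
    refine AddSubgroup.sum_mem _ fun i hi => ?_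
    rw [mem_Ico] at hi
    have h := Gd_mul (ih i (by omega) hi.1) (hshift (n - i) (by omega) (by omega))
    exact Gd_mono_left hp (hsub i (n - i) m hi.1 (by omega) (by omega))
      (Gd_mono_right hp (by omega) h)
  -- the products of lower order, without their constant part
  have hprod : ∀ n, 1 ≤ n → n < m → 3 * prodc v n ∈ Gd R p (a m) (B + C) := by
    intro n hn hnm
    rw [prodc_pos v hn]
    have e1 := hlin3'' n hn hnm _ (hshift n hn hnm)
    have e2 := hlin3'' n hn hnm _ (ih n hnm hn)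
    have e3 := hquad n (by omega)
    have e4 : 3 * (v 0 * shiftc v n + v n * v 0 + ∑ i ∈ Ico 1 n, v i * shiftc v (n - i))
        = v 0 * (3 * shiftc v n) + v 0 * (3 * v n)
          + ((3 : ℕ) : F) * ∑ i ∈ Ico 1 n, v i * shiftc v (n - i) := by push_cast; ring
    rw [e4, hv0]
    exact AddSubgroup.add_mem _ (AddSubgroup.add_mem _ (Gd_smul hαR e1) (Gd_smul hαR e2))
      (Gd_nat 3 e3)
  have hprod3 : ∀ n, 1 ≤ n → n + 3 = m → prodc v n ∈ Gd R p (a m) (B + C) := by
    intro n hn hnm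
    rw [prodc_pos v hn, hv0]
    have e1 := hlinA n hn (by omega) _ (hshift n hn (by omega))
    have e2 := hlinA n hn (by omega) _ (ih n (by omega) hn)
    refine AddSubgroup.add_mem _ (AddSubgroup.add_mem _ (Gd_smul hαR e1) ?_) (hquad n (by omega))
    rw [mul_comm]
    exact Gd_smul hαR e2
  -- the main identity
  have key := hv m hm
  have hmain : 24 * s * v m ∈ Gd R p (a m) (B + C) := by
    have hsm := shiftc_pos v hm
    have hpm := prodc_pos v hm
    -- rest of the shifted coefficient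
    have hrest : ∑ i ∈ Ico 1 m, ((m - 1).choose (m - i) : F) * v i ∈ Gd R p (a m) (B + C) := by
      refine AddSubgroup.sum_mem _ fun i hi => ?_
      rw [mem_Ico] at hi
      by_cases h : i + 2 ≤ m
      · exact Gd_nat _ (hlinA i hi.1 h _ (ih i (by omega) hi.1))
      · have hi' : i = m - 1 := by omega
        subst hi'
        have h2m : 2 ≤ m := by omega
        have hc : (m - 1).choose (m - (m - 1)) = m - 1 := by
          have : m - (m - 1) = 1 := by omega
          rw [this, Nat.choose_one_right]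
        rw [hc]
        have := hlin1' h2m
        rwa [Nat.cast_sub (by omega : 1 ≤ m), Nat.cast_one]
    have hq := hquad m le_rfl
    -- collect
    have hcollect : 24 * s * v m
        = (α - 34) * (∑ i ∈ Ico 1 m, ((m - 1).choose (m - i) : F) * v i)
          + (∑ i ∈ Ico 1 m, v i * shiftc v (m - i))
          + ((if 1 ≤ m then 3 * prodc v (m - 1) else 0)
            + (if 2 ≤ m then 3 * prodc v (m - 2) else 0) + (if 3 ≤ m then prodc v (m - 3) else 0))
          - ((if 1 ≤ m then 51 * shiftc v (m - 1) else 0)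
            + (if 2 ≤ m then 27 * shiftc v (m - 2) else 0)
            + (if 3 ≤ m then 5 * shiftc v (m - 3) else 0)) := by
      unfold ricc at key
      rw [hpm, hsm, hv0] at key
      rw [hα] at key ⊢
      linear_combination -key
    rw [hcollect]
    have hα34 : α - 34 ∈ R := R.sub_mem hαR (by exact_mod_cast natCast_mem R 34)
    have hfirst := AddSubgroup.add_mem _ (Gd_smul hα34 hrest) hq
    -- the remaining terms
    have hrem : ((if 1 ≤ m then 3 * prodc v (m - 1) else 0)
            + (if 2 ≤ m then 3 * prodc v (m - 2) else 0) + (if 3 ≤ m then prodc v (m - 3) else 0))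
          - ((if 1 ≤ m then 51 * shiftc v (m - 1) else 0)
            + (if 2 ≤ m then 27 * shiftc v (m - 2) else 0)
            + (if 3 ≤ m then 5 * shiftc v (m - 3) else 0)) ∈ Gd R p (a m) (B + C) := by
      have c51 : ∀ n, 1 ≤ n → n < m → 51 * shiftc v n ∈ Gd R p (a m) (B + C) := by
        intro n hn hnm
        have e1 := Gd_nat 17 (hlin3'' n hn hnm _ (hshift n hn hnm))
        have e2 : (51 : F) * shiftc v n = ((17 : ℕ) : F) * (3 * shiftc v n) := by push_cast; ring
        rw [e2]; exact e1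
      have c27 : ∀ n, 1 ≤ n → n < m → 27 * shiftc v n ∈ Gd R p (a m) (B + C) := by
        intro n hn hnm
        have e1 := Gd_nat 9 (hlin3'' n hn hnm _ (hshift n hn hnm))
        have e2 : (27 : F) * shiftc v n = ((9 : ℕ) : F) * (3 * shiftc v n) := by push_cast; ring
        rw [e2]; exact e1
      have c5 : ∀ n, 1 ≤ n → n + 3 = m → 5 * shiftc v n ∈ Gd R p (a m) (B + C) := by
        intro n hn hnm
        have e1 := hlinA n hn (by omega) _ (hshift n hn (by omega))
        exact_mod_cast Gd_nat 5 e1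
      rcases (by omega : m = 1 ∨ m = 2 ∨ m = 3 ∨ 4 ≤ m) with rfl | rfl | rfl | h4
      · simp only [le_refl, if_true, Nat.sub_self, prodc_zero, shiftc_zero, hv0]
        norm_num
        have : 3 * (α * α) - 51 * α = 3 * α ^ 2 - 51 * α := by ring
        rw [this]; exact h1
      · norm_num
        rw [prodc_zero, shiftc_zero, hv0]
        have e : 3 * prodc v 1 + 3 * (α * α) - (51 * shiftc v 1 + 27 * α)
            = (3 * prodc v 1 - 51 * shiftc v 1) + (3 * α ^ 2 - 27 * α) := by ring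
        rw [e]
        exact AddSubgroup.add_mem _ (AddSubgroup.sub_mem _ (hprod 1 le_rfl (by omega))
          (c51 1 le_rfl (by omega))) h2
      · norm_num
        rw [prodc_zero, shiftc_zero, hv0]
        have e : 3 * prodc v 2 + 3 * prodc v 1 + α * α
              - (51 * shiftc v 2 + 27 * shiftc v 1 + 5 * α)
            = (3 * prodc v 2 - 51 * shiftc v 2) + (3 * prodc v 1 - 27 * shiftc v 1)
              + (α ^ 2 - 5 * α) := by ring
        rw [e]
        refine AddSubgroup.add_mem _ (AddSubgroup.add_mem _ ?_ ?_) h3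
        · exact AddSubgroup.sub_mem _ (hprod 2 (by omega) (by omega)) (c51 2 (by omega) (by omega))
        · exact AddSubgroup.sub_mem _ (hprod 1 (by omega) (by omega)) (c27 1 (by omega) (by omega))
      · rw [if_pos (by omega), if_pos (by omega), if_pos (by omega), if_pos (by omega),
          if_pos (by omega), if_pos (by omega)]
        refine AddSubgroup.sub_mem _ (AddSubgroup.add_mem _ (AddSubgroup.add_mem _ ?_ ?_) ?_)
          (AddSubgroup.add_mem _ (AddSubgroup.add_mem _ ?_ ?_) ?_)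
        · exact hprod (m - 1) (by omega) (by omega)
        · exact hprod (m - 2) (by omega) (by omega)
        · exact hprod3 (m - 3) (by omega) (by omega)
        · exact c51 (m - 1) (by omega) (by omega)
        · exact c27 (m - 2) (by omega) (by omega)
        · exact c5 (m - 3) (by omega) (by omega)
    have := AddSubgroup.add_mem _ hfirst hrem
    rwa [← add_sub_assoc] at this
  -- divide by 24 s
  obtain ⟨r, hr, e⟩ := hmain
  refine ⟨u * r, R.mul_mem hu hr, ?_⟩
  have hpC : p ^ C ≠ 0 := pow_ne_zero _ hp0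
  have : p ^ C * (p ^ a m * v m) = p ^ C * (p ^ B * (u * r)) := by
    rw [pow_add] at e
    calc p ^ C * (p ^ a m * v m) = (24 * s * u) * (p ^ a m * v m) := by rw [hu2]
      _ = u * (p ^ a m * (24 * s * v m)) := by ring
      _ = u * (p ^ B * p ^ C * r) := by rw [e]
      _ = p ^ C * (p ^ B * (u * r)) := by ring
  exact mul_left_cancel₀ hpC this

end growth

end Pool.QS2
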