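import Pool.Agent.QS2.Defs
import Pool.Agent.QS2.RicGrowth

/-! Instances of the growth lemma at the primes 2, 3 and at the primes above 3. -/

set_option autoImplicit false

namespace QS2

open Finset Pool.QS2

theorem shm_eq_shiftc {F : Type*} [Field F] (v : ℕ → F) (j : ℕ) : shm v j = shiftc v j := rfl

theorem coeff_mk_mul_mk {F : Type*} [Field F] (v : ℕ → F) (n : ℕ) :
    PowerSeries.coeff n (PowerSeries.mk v * PowerSeries.mk (shm v)) = prodc v n := by
  rw [PowerSeries.coeff_mul, Finset.Nat.sum_antidiagonal_eq_sum_range_succ_mk]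
  simp only [PowerSeries.coeff_mk]
  rfl

theorem ricc_of_isFormal {F : Type*} [Field F] {v : ℕ → F} (hv : IsFormal v) (m : ℕ)
    (hm : 1 ≤ m) : ricc v m = 0 := by
  have h := congrArg (PowerSeries.coeff m) hv
  have e : (1 + PowerSeries.X) ^ 3 * PowerSeries.mk v * PowerSeries.mk (shm v)
      - (34 + 51 * PowerSeries.X + 27 * PowerSeries.X ^ 2 + 5 * PowerSeries.X ^ 3)
      * PowerSeries.mk (shm v) + 1
      = (PowerSeries.mk v * PowerSeries.mk (shm v)
        + (3 : ℕ) • (PowerSeries.X ^ 1 * (PowerSeries.mk v * PowerSeries.mk (shm v)))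
        + (3 : ℕ) • (PowerSeries.X ^ 2 * (PowerSeries.mk v * PowerSeries.mk (shm v)))
        + PowerSeries.X ^ 3 * (PowerSeries.mk v * PowerSeries.mk (shm v)))
        - ((34 : ℕ) • PowerSeries.mk (shm v) + (51 : ℕ) • (PowerSeries.X ^ 1 * PowerSeries.mk (shm v))
        + (27 : ℕ) • (PowerSeries.X ^ 2 * PowerSeries.mk (shm v))
        + (5 : ℕ) • (PowerSeries.X ^ 3 * PowerSeries.mk (shm v))) + 1 := by
    simp only [nsmul_eq_mul]
    push_cast
    ring
  rw [e] at h
  simp only [map_add, map_sub, map_nsmul, PowerSeries.coeff_X_pow_mul', coeff_mk_mul_mk,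
    PowerSeries.coeff_mk, PowerSeries.coeff_one, map_zero] at h
  rw [if_neg (by omega : ¬ m = 0)] at h
  unfold ricc
  simp only [← shm_eq_shiftc]
  simp only [nsmul_eq_mul] at h
  push_cast at h
  rw [← h]
  split_ifs <;> ring

/-- the element `√2` of `K` -/
def om : K := ⟨0, 1⟩

theorem om_sq : om ^ 2 = 2 := by
  rw [pow_two]
  have h1 : (2 : K).re = 2 := rfl
  have h2 : (2 : K).im = 0 := rfl
  ext
  · rw [QuadraticAlgebra.re_mul, h1]; norm_num [om]
  · rw [QuadraticAlgebra.im_mul, h2]; norm_num [om]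

theorem alpha_eq : alpha = 17 - 12 * om := by
  have h1 : (17 : K).re = 17 := rfl
  have h2 : (17 : K).im = 0 := rfl
  have h3 : (12 : K).re = 12 := rfl
  have h4 : (12 : K).im = 0 := rfl
  ext
  · rw [QuadraticAlgebra.re_sub, QuadraticAlgebra.re_mul, h1, h3, h4]; norm_num [om, alpha]
  · rw [QuadraticAlgebra.im_sub, QuadraticAlgebra.im_mul, h2, h3, h4]; norm_num [om, alpha]

theorem om_ne : om ≠ 0 := by
  intro h
  have h2 := om_sq
  rw [h] at h2
  have h3 := congrArg QuadraticAlgebra.re h2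
  have h1 : (2 : K).re = 2 := rfl
  rw [h1] at h3
  norm_num at h3

theorem om_mem (p : ℕ) [Fact p.Prime] : om ∈ Op p := by
  rw [mem_Op]; simp [om]

theorem algebraMap_mem {p : ℕ} [Fact p.Prime] {q : ℚ} (hq : padicNorm p q ≤ 1) :
    algebraMap ℚ K q ∈ Op p := by
  rw [mem_Op]
  have h1 : (algebraMap ℚ K q).re = q := rfl
  have h2 : (algebraMap ℚ K q).im = 0 := rfl
  rw [h1, h2]
  simp [hq]

/-- inverses of naturals prime to `p` are `p`-integral -/
theorem inv_nat_mem {p : ℕ} [hp : Fact p.Prime] {n : ℕ} (hn : n.Coprime p) :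
    ((n : K))⁻¹ ∈ Op p := by
  have h1 : ((n : K))⁻¹ = algebraMap ℚ K ((n : ℚ)⁻¹) := by
    rw [map_inv₀, map_natCast]
  rw [h1]
  apply algebraMap_mem
  have h2 : padicNorm p (n : ℚ) = 1 := by
    rw [padicNorm.nat_eq_one_iff]
    intro h
    exact hp.out.one_lt.ne' (Nat.Coprime.eq_one_of_dvd hn.symm h)
  rw [show ((n : ℚ)⁻¹) = 1 / (n : ℚ) by simp, padicNorm.div, h2]
  simp

theorem alpha_mem (p : ℕ) [Fact p.Prime] : alpha ∈ Op p := by
  rw [alpha_eq]
  exact (Op p).sub_mem (by exact_mod_cast natCast_mem (Op p) 17)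
    ((Op p).mul_mem (by exact_mod_cast natCast_mem (Op p) 12) (om_mem p))

/-- the Riccati coefficients at `2` : `√2^(9m) v_m ∈ √2^7 O_(2)` -/
theorem growth_two {v : ℕ → K} (hv : IsFormal v) (hv0 : v 0 = alpha) :
    ∀ m, 1 ≤ m → v m ∈ Gd (Op 2) om (9 * m) 7 := by
  have h3 : (3 : K)⁻¹ ∈ Op 2 := by
    have := inv_nat_mem (p := 2) (n := 3) (by decide)
    exact_mod_cast this
  have hs : om ^ 2 = 2 := om_sq
  have key := riccati_growth (Op 2) om om (fun m => 9 * m) 7 7 (om_mem 2) om_ne (om_mem 2)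
    ((3 : K)⁻¹) h3 (by
      have h3' : (3 : K) ≠ 0 := by norm_num
      field_simp
      linear_combination (-3 * om * (om ^ 4 + 2 * om ^ 2 + 4)) * hs) le_rfl
    (by intro i j m _ _ _; omega) (by intro i m _ _; omega)
    (by intro i m _ _; omega)
    (by
      intro m hm
      refine ⟨om ^ 2 * ((m : K) - 1), (Op 2).mul_mem ((Op 2).pow_mem (om_mem 2) _)
        ((Op 2).sub_mem (natCast_mem _ m) (Op 2).one_mem), ?_⟩
      have : 9 * m = 9 * (m - 1) + 7 + 2 := by omega
      rw [this, pow_add _ (9 * (m - 1) + 7) 2]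
      ring)
    (by
      intro m hm
      refine ⟨om ^ 2 * 3, (Op 2).mul_mem ((Op 2).pow_mem (om_mem 2) _)
        (by exact_mod_cast natCast_mem (Op 2) 3), ?_⟩
      have : 9 * m = 9 * (m - 1) + 7 + 2 := by omega
      rw [this, pow_add _ (9 * (m - 1) + 7) 2]
      ring)
    alpha alpha_eq hs
    (by
      refine ⟨-9 * alpha, (Op 2).mul_mem ((Op 2).neg_mem (by exact_mod_cast natCast_mem (Op 2) 9))
        (alpha_mem 2), ?_⟩
      have e : 3 * alpha ^ 2 - 51 * alpha = -36 * om * alpha := by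
        rw [alpha_eq]; ring
      rw [e]
      linear_combination (-9 * alpha * om ^ 10 * (-2 - om ^ 2)) * hs)
    (by
      refine ⟨om ^ 4 * (3 * alpha ^ 2 - 27 * alpha), ?_, by ring⟩
      refine (Op 2).mul_mem ((Op 2).pow_mem (om_mem 2) _) ((Op 2).sub_mem
        ((Op 2).mul_mem (by exact_mod_cast natCast_mem (Op 2) 3) ((Op 2).pow_mem (alpha_mem 2) _))
        ((Op 2).mul_mem (by exact_mod_cast natCast_mem (Op 2) 27) (alpha_mem 2))))
    (by
      refine ⟨om ^ 13 * (alpha ^ 2 - 5 * alpha), ?_, by ring⟩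
      refine (Op 2).mul_mem ((Op 2).pow_mem (om_mem 2) _) ((Op 2).sub_mem
        ((Op 2).pow_mem (alpha_mem 2) _)
        ((Op 2).mul_mem (by exact_mod_cast natCast_mem (Op 2) 5) (alpha_mem 2))))
    v hv0 (fun m hm => ricc_of_isFormal hv m hm)
  exact key

/-- the Riccati coefficients at `3` : `3^⌊2m/3⌋ v_m ∈ 3 O_(3)` -/
theorem growth_three {v : ℕ → K} (hv : IsFormal v) (hv0 : v 0 = alpha) :
    ∀ m, 1 ≤ m → v m ∈ Gd (Op 3) (3 : K) (2 * m / 3) 1 := by
  have h2 : (2 : K)⁻¹ ∈ Op 3 := by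
    have := inv_nat_mem (p := 3) (n := 2) (by decide)
    exact_mod_cast this
  have h3m : (3 : K) ∈ Op 3 := by exact_mod_cast natCast_mem (Op 3) 3
  have hs : om ^ 2 = 2 := om_sq
  have key := riccati_growth (Op 3) (3 : K) om (fun m => 2 * m / 3) 1 1 h3m (by norm_num) (om_mem 3)
    (om * (2 : K)⁻¹ ^ 4) ((Op 3).mul_mem (om_mem 3) ((Op 3).pow_mem h2 _)) (by
      linear_combination (3 / 2) * hs) le_rfl
    (by intro i j m _ _ _; omega) (by intro i m _ _; omega)
    (by intro i m _ _; omega)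
    (by
      intro m hm
      by_cases h : 2 * m / 3 = 2 * (m - 1) / 3
      · obtain ⟨k, hk⟩ : ∃ k, m = 3 * k + 1 := ⟨(m - 1) / 3, by omega⟩
        refine ⟨(k : K), natCast_mem _ k, ?_⟩
        rw [h, hk, pow_succ]
        push_cast
        ring
      · have h' : 2 * m / 3 = (2 * (m - 1) / 3 + 1) + (2 * m / 3 - (2 * (m - 1) / 3 + 1)) := by
          omega
        refine ⟨3 ^ (2 * m / 3 - (2 * (m - 1) / 3 + 1)) * ((m : K) - 1),
          (Op 3).mul_mem ((Op 3).pow_mem h3m _)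
            ((Op 3).sub_mem (natCast_mem _ m) (Op 3).one_mem), ?_⟩
        conv_lhs => rw [h', pow_add]
        ring)
    (by
      intro m hm
      have h' : 2 * m / 3 = (2 * (m - 1) / 3) + (2 * m / 3 - (2 * (m - 1) / 3)) := by omega
      refine ⟨3 ^ (2 * m / 3 - (2 * (m - 1) / 3)), (Op 3).pow_mem h3m _, ?_⟩
      conv_lhs => rw [h', pow_add]
      rw [pow_succ]
      ring)
    alpha alpha_eq hs
    (by
      refine ⟨-4 * om * alpha, (Op 3).mul_mem ((Op 3).mul_mem ((Op 3).neg_mem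
        (by exact_mod_cast natCast_mem (Op 3) 4)) (om_mem 3)) (alpha_mem 3), ?_⟩
      have e : 3 * alpha ^ 2 - 51 * alpha = -36 * om * alpha := by
        rw [alpha_eq]; ring
      rw [e]
      norm_num
      ring)
    (by
      refine ⟨alpha ^ 2 - 9 * alpha, (Op 3).sub_mem ((Op 3).pow_mem (alpha_mem 3) _)
        ((Op 3).mul_mem (by exact_mod_cast natCast_mem (Op 3) 9) (alpha_mem 3)), ?_⟩
      norm_num
      ring)
    (by
      refine ⟨alpha ^ 2 - 5 * alpha, (Op 3).sub_mem ((Op 3).pow_mem (alpha_mem 3) _)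
        ((Op 3).mul_mem (by exact_mod_cast natCast_mem (Op 3) 5) (alpha_mem 3)), ?_⟩
      norm_num)
    v hv0 (fun m hm => ricc_of_isFormal hv m hm)
  exact key

/-- the Riccati coefficients at `p ≥ 5` are `p`-integral -/
theorem growth_large {p : ℕ} [hp : Fact p.Prime] (hp5 : 5 ≤ p) {v : ℕ → K} (hv : IsFormal v)
    (hv0 : v 0 = alpha) : ∀ m, v m ∈ Op p := by
  have h2 : (2 : K)⁻¹ ∈ Op p := by
    have := inv_nat_mem (p := p) (n := 2)
      ((Nat.coprime_primes Nat.prime_two hp.out).2 (by omega))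
    exact_mod_cast this
  have h3 : (3 : K)⁻¹ ∈ Op p := by
    have := inv_nat_mem (p := p) (n := 3)
      ((Nat.coprime_primes Nat.prime_three hp.out).2 (by omega))
    exact_mod_cast this
  have hs : om ^ 2 = 2 := om_sq
  have hR : ∀ x ∈ Op p, x ∈ Gd (Op p) (1 : K) 0 0 := fun x hx => ⟨x, hx, by simp⟩
  have hα := alpha_mem p
  have key := riccati_growth (Op p) (1 : K) om (fun _ => 0) 0 0 (Op p).one_mem one_ne_zero
    (om_mem p) (om * (2 : K)⁻¹ ^ 4 * (3 : K)⁻¹) ((Op p).mul_mem ((Op p).mul_mem (om_mem p)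
      ((Op p).pow_mem h2 _)) h3) (by
      linear_combination (1 / 2) * hs) le_rfl
    (by intros; simp) (by intros; simp) (by intros; simp)
    (by
      intro m hm
      refine ⟨(m : K) - 1, (Op p).sub_mem (natCast_mem _ m) (Op p).one_mem, by simp⟩)
    (by
      intro m hm
      exact ⟨3, by exact_mod_cast natCast_mem (Op p) 3, by simp⟩)
    alpha alpha_eq hs
    (hR _ ((Op p).sub_mem
        ((Op p).mul_mem (by exact_mod_cast natCast_mem (Op p) 3) ((Op p).pow_mem hα _))
        ((Op p).mul_mem (by exact_mod_cast natCast_mem (Op p) 51) hα)))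
    (hR _ ((Op p).sub_mem
        ((Op p).mul_mem (by exact_mod_cast natCast_mem (Op p) 3) ((Op p).pow_mem hα _))
        ((Op p).mul_mem (by exact_mod_cast natCast_mem (Op p) 27) hα)))
    (hR _ ((Op p).sub_mem ((Op p).pow_mem hα _)
        ((Op p).mul_mem (by exact_mod_cast natCast_mem (Op p) 5) hα)))
    v hv0 (fun m hm => ricc_of_isFormal hv m hm)
  intro m
  rcases Nat.eq_zero_or_pos m with rfl | hm
  · rw [hv0]; exact hα
  · obtain ⟨r, hr, e⟩ := key m hm
    simp only [one_pow, one_mul] at e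
    rw [e]; exact hr

end QS2
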