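import Pool.Agent.QS2.SmallP
import Pool.Agent.QS2.AperyInt
import Pool.Agent.QS2.RicInst

/-!
# Small primes, the instance `K = ℚ(√2)`, `R = Op p`
-/

set_option autoImplicit false

namespace QS2SP

open Polynomial Finset QS2

theorem ploc_Op (p : ℕ) [hp : Fact p.Prime] : PLoc (Op p) p := by
  intro n hn
  exact inv_nat_mem ((hp.out.coprime_iff_not_dvd.mpr hn).symm)

theorem ratCast_mem {p : ℕ} [hp : Fact p.Prime] {q : ℚ} {e : ℕ}
    (hq : padicNorm p q ≤ (p : ℚ) ^ e) : (p : QS2.K) ^ e * (q : QS2.K) ∈ Op p := by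
  have h1 : (p : QS2.K) ^ e * (q : QS2.K) = algebraMap ℚ QS2.K ((p : ℚ) ^ e * q) := by
    rw [map_mul, map_pow, map_natCast, eq_ratCast]
  rw [h1]
  apply QS2.algebraMap_mem
  have hp0 : (0 : ℚ) < (p : ℚ) ^ e := by
    have := hp.out.pos
    positivity
  have h2 : padicNorm p ((p : ℚ) ^ e) = ((p : ℚ) ^ e)⁻¹ := by
    have h3 : ∀ k : ℕ, padicNorm p ((p : ℚ) ^ k) = ((p : ℚ) ^ k)⁻¹ := by
      intro k
      induction k with
      | zero => simp
      | succ k ih =>
        rw [pow_succ, padicNorm.mul, ih, padicNorm.padicNorm_p_of_prime, mul_inv]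
    exact h3 e
  rw [padicNorm.mul, h2]
  calc ((p : ℚ) ^ e)⁻¹ * padicNorm p q ≤ ((p : ℚ) ^ e)⁻¹ * (p : ℚ) ^ e :=
        mul_le_mul_of_nonneg_left hq (by positivity)
    _ = 1 := inv_mul_cancel₀ hp0.ne'

theorem star_mem {p : ℕ} [Fact p.Prime] {x : QS2.K} (hx : x ∈ Op p) : star x ∈ Op p := by
  rw [mem_Op] at hx ⊢
  rw [QuadraticAlgebra.re_star, QuadraticAlgebra.im_star]
  refine ⟨?_, ?_⟩
  · simpa using hx.1
  · rw [padicNorm.neg]; exact hx.2

theorem pow_val_mul_mem {p : ℕ} [hp : Fact p.Prime] {d : ℕ} (hd : d ≠ 0) {x : QS2.K}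
    (hx : (d : QS2.K) * x ∈ Op p) : (p : QS2.K) ^ (d.factorization p) * x ∈ Op p := by
  have h1 := PLoc.inv_mem hp.out (ploc_Op p) hd (le_refl (d.factorization p))
  have h2 := (Op p).mul_mem h1 hx
  have hd0 : (d : QS2.K) ≠ 0 := Nat.cast_ne_zero.mpr hd
  have h3 : (p : QS2.K) ^ (d.factorization p) * ((d : QS2.K))⁻¹ * ((d : QS2.K) * x)
      = (p : QS2.K) ^ (d.factorization p) * x := by
    field_simp
  rwa [h3] at h2

theorem lin_mem {p : ℕ} [hp : Fact p.Prime] (hp2 : p ≠ 2) {d : ℕ} (hd : d ≠ 0) {x : QS2.K}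
    (hx : (d : QS2.K) * x ∈ Op p) {n m : ℕ} (hn : n ≤ m) :
    (p : QS2.K) ^ (3 * Nat.log p m + d.factorization p)
      * ((aperyA n : QS2.K) * x - (aperyB n : QS2.K)) ∈ Op p := by
  have h1 := pow_val_mul_mem hd hx
  have h2 : (aperyA n : QS2.K) ∈ Op p := by
    have := ratCast_mem (p := p) (q := aperyA n) (e := 0) (by
      rw [pow_zero]; exact norm_aperyA p n)
    simpa using this
  have h3 : (p : QS2.K) ^ (3 * Nat.log p m) * (aperyB n : QS2.K) ∈ Op p := by
    apply ratCast_mem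
    refine (norm_aperyB p hp2 n).trans ?_
    exact pow_le_pow_right₀ (by exact_mod_cast hp.out.one_lt.le)
      (Nat.mul_le_mul_left 3 (Nat.log_mono_right hn))
  have hpm : ∀ k : ℕ, (p : QS2.K) ^ k ∈ Op p := fun k => (Op p).pow_mem (natCast_mem _ p) k
  have e1 : (p : QS2.K) ^ (3 * Nat.log p m + d.factorization p)
      * ((aperyA n : QS2.K) * x - (aperyB n : QS2.K))
      = (p : QS2.K) ^ (3 * Nat.log p m) * (aperyA n : QS2.K)
          * ((p : QS2.K) ^ (d.factorization p) * x)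
        - (p : QS2.K) ^ (d.factorization p)
          * ((p : QS2.K) ^ (3 * Nat.log p m) * (aperyB n : QS2.K)) := by
    rw [pow_add]; ring
  rw [e1]
  exact (Op p).sub_mem ((Op p).mul_mem ((Op p).mul_mem (hpm _) h2) h1)
    ((Op p).mul_mem (hpm _) h3)

/-- Small odd primes: the determinant is `p`-integral up to `p^{O(A log_p A)}`. -/
theorem smallP_Delta {p : ℕ} [hp : Fact p.Prime] (hp2 : p ≠ 2) {d : ℕ} (hd : d ≠ 0) {x : QS2.K}
    (hx : (d : QS2.K) * x ∈ Op p) {v : ℕ → QS2.K} {f g : PowerSeries QS2.K}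
    (hv : PowerSeries.mk v * g = f) {s : ℕ} (hf : Nice (Op p) p s f) (hg : Nice (Op p) p s g)
    (hg0 : PowerSeries.coeff 0 g ≠ 0) (hg1 : (PowerSeries.coeff 0 g)⁻¹ ∈ Op p)
    (A rho : ℕ) (hA : rho ≤ A) :
    (p : QS2.K) ^ ((s * Nat.log p (A + rho) + (3 * Nat.log p (A + 1) + d.factorization p))
      * (2 * A)) * Delta x v A rho ∈ Op p := by
  have hx' : (d : QS2.K) * star x ∈ Op p := by
    have := star_mem hx
    rwa [star_mul, star_natCast, mul_comm] at this
  have hcard : Fintype.card (Nd A) = 2 * A := by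
    simp [Nd]; ring
  have h := smallP_det hp.out (ploc_Op p) hv hf hg hg0 hg1 (nodeZ A) (uval x (star x) A)
    (uval1 x (star x) A) (3 * Nat.log p (A + 1) + d.factorization p)
    (by
      rintro (i | i)
      · exact lin_mem hp2 hd hx (by omega)
      · exact lin_mem hp2 hd hx' (by omega))
    (by
      rintro (i | i)
      · exact lin_mem hp2 hd hx (by omega)
      · exact lin_mem hp2 hd hx' (by omega))
    (A + rho) (2 * rho) (by omega) (idx A rho)
  rw [hcard] at h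
  exact h

theorem lin_mem' {p : ℕ} [hp : Fact p.Prime] (hp2 : p ≠ 2) {y : QS2.K} (hy : y ∈ Op p)
    {n m : ℕ} (hn : n ≤ m) :
    (p : QS2.K) ^ (3 * Nat.log p m) * ((aperyA n : QS2.K) * y - (aperyB n : QS2.K)) ∈ Op p := by
  have h := lin_mem (p := p) hp2 (d := 1) one_ne_zero (x := y) (by simpa using hy) hn
  simpa using h

/-- Small odd primes, for arbitrary `p`-integral values `y, y'`. -/
theorem smallP_DeltaR {p : ℕ} [hp : Fact p.Prime] (hp2 : p ≠ 2) {y y' : QS2.K}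
    (hy : y ∈ Op p) (hy' : y' ∈ Op p) {v : ℕ → QS2.K} {f g : PowerSeries QS2.K}
    (hv : PowerSeries.mk v * g = f) {s : ℕ} (hf : Nice (Op p) p s f) (hg : Nice (Op p) p s g)
    (hg0 : PowerSeries.coeff 0 g ≠ 0) (hg1 : (PowerSeries.coeff 0 g)⁻¹ ∈ Op p)
    (A rho : ℕ) (hA : rho ≤ A) :
    (p : QS2.K) ^ ((s * Nat.log p (A + rho) + 3 * Nat.log p (A + 1)) * (2 * A))
      * DeltaR y y' v A rho ∈ Op p := by
  have hcard : Fintype.card (Nd A) = 2 * A := by
    simp [Nd]; ring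
  have h := smallP_det hp.out (ploc_Op p) hv hf hg hg0 hg1 (nodeZ A) (uval y y' A)
    (uval1 y y' A) (3 * Nat.log p (A + 1))
    (by
      rintro (i | i)
      · exact lin_mem' hp2 hy (by omega)
      · exact lin_mem' hp2 hy' (by omega))
    (by
      rintro (i | i)
      · exact lin_mem' hp2 hy (by omega)
      · exact lin_mem' hp2 hy' (by omega))
    (A + rho) (2 * rho) (by omega) (idx A rho)
  rw [hcard] at h
  exact h

/-- Small odd primes, arbitrary `p`-integral values `y, y'`, arbitrary loss `p ^ L`. -/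
theorem smallP_DeltaR' {p : ℕ} [hp : Fact p.Prime] (hp2 : p ≠ 2) {y y' : QS2.K}
    (hy : y ∈ Op p) (hy' : y' ∈ Op p) {v : ℕ → QS2.K} {f g : PowerSeries QS2.K}
    (hv : PowerSeries.mk v * g = f) (L A rho : ℕ)
    (hf : ∀ i : Fin (A + rho), IntR (Op p) i (C ((p : QS2.K) ^ L) * act f (chP QS2.K i)))
    (hg : ∀ i : Fin (A + rho), IntR (Op p) i (C ((p : QS2.K) ^ L) * act g (chP QS2.K i)))
    (hg0 : PowerSeries.coeff 0 g ≠ 0) (hg1 : (PowerSeries.coeff 0 g)⁻¹ ∈ Op p)
    (hA : rho ≤ A) :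
    (p : QS2.K) ^ ((L + 3 * Nat.log p (A + 1)) * (2 * A)) * DeltaR y y' v A rho ∈ Op p := by
  have hcard : Fintype.card (Nd A) = 2 * A := by
    simp [Nd]; ring
  have h := smallP_det' hp.out hv L (A + rho) hf hg hg0 hg1 (nodeZ A) (uval y y' A)
    (uval1 y y' A) (3 * Nat.log p (A + 1))
    (by
      rintro (i | i)
      · exact lin_mem' hp2 hy (by omega)
      · exact lin_mem' hp2 hy' (by omega))
    (by
      rintro (i | i)
      · exact lin_mem' hp2 hy (by omega)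
      · exact lin_mem' hp2 hy' (by omega))
    (2 * rho) (by omega) (idx A rho)
  rw [hcard] at h
  exact h

end QS2SP
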