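import Pool.Agent.QS2.ClsBase0
import Pool.Agent.QS2.ClsDefs
import Pool.Agent.QS2.SmallPInst

/-!
# QS2, class rule: `base_change`

The determinant `DeltaR` against the determinant of the values on the columns `colP`, `colQ`.
-/

set_option autoImplicit false

namespace QS2.Cls.Base

open Finset Matrix Polynomial

/-! ## units of `Op p` -/

theorem unit_mul {p : ℕ} [Fact p.Prime] {a b : K} (ha : UnitOp p a) (hb : UnitOp p b) :
    UnitOp p (a * b) := by
  refine ⟨mul_ne_zero ha.1 hb.1, (Op p).mul_mem ha.2.1 hb.2.1, ?_⟩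
  rw [mul_inv]
  exact (Op p).mul_mem ha.2.2 hb.2.2

theorem star_mem_Op {p : ℕ} [Fact p.Prime] {x : K} (hx : x ∈ Op p) :
    (starRingEnd K) x ∈ Op p := QS2SP.star_mem hx

theorem unit_star {p : ℕ} [Fact p.Prime] {a : K} (ha : UnitOp p a) :
    UnitOp p ((starRingEnd K) a) := by
  refine ⟨?_, star_mem_Op ha.2.1, ?_⟩
  · intro h
    exact ha.1 ((map_eq_zero (starRingEnd K)).mp h)
  · rw [← map_inv₀]
    exact star_mem_Op ha.2.2

theorem alpha_sub_star : alpha - (starRingEnd K) alpha = ⟨0, -24⟩ := by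
  rw [starRingEnd_apply]
  ext <;> simp [alpha] <;> norm_num

theorem alpha_sub_unit (p : ℕ) [hp : Fact p.Prime] (hp5 : 5 ≤ p) :
    UnitOp p (alpha - (starRingEnd K) alpha) := by
  rw [alpha_sub_star]
  have h48 : ¬ p ∣ 48 := by
    intro h
    have h1 : p ∣ 2 ^ 4 * 3 := by simpa using h
    rcases (Nat.Prime.dvd_mul hp.out).mp h1 with h2 | h2
    · have := (Nat.prime_dvd_prime_iff_eq hp.out Nat.prime_two).mp (hp.out.dvd_of_dvd_pow h2)
      omega
    · have := (Nat.prime_dvd_prime_iff_eq hp.out Nat.prime_three).mp h2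
      omega
  have hm : ((⟨0, -24⟩ : K)) * ⟨0, -1/48⟩ = 1 := by
    ext
    · rw [QuadraticAlgebra.re_mul, QuadraticAlgebra.re_one]
      norm_num
    · rw [QuadraticAlgebra.im_mul, QuadraticAlgebra.im_one]
      norm_num
  have hinv : ((⟨0, -24⟩ : K))⁻¹ = ⟨0, -1/48⟩ := inv_eq_of_mul_eq_one_right hm
  refine ⟨?_, ?_, ?_⟩
  · intro h
    rw [h, zero_mul] at hm
    exact zero_ne_one hm
  · rw [mem_Op]
    refine ⟨by simp, ?_⟩
    have := padicNorm.of_int (p := p) (-24)
    simpa using this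
  · rw [hinv, mem_Op]
    refine ⟨by simp, ?_⟩
    have h1 : padicNorm p (48 : ℚ) = 1 := by
      have := (padicNorm.nat_eq_one_iff (p := p) 48).mpr h48
      simpa using this
    change padicNorm p (-1/48) ≤ 1
    rw [padicNorm.div, padicNorm.neg, padicNorm.one, h1]
    norm_num

/-! ## the exponent -/

/-- exponent of the leading block of degree `D` -/
def kdf (p M : ℕ) (D : ℕ) : ℕ :=
  (if dg p + 3 ≤ D then (D - (dg p + 3)) / p else 0) +
    (if dg p + 3 ≤ D ∧ D < M then (D - (dg p + 3)) / p else 0)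

theorem sum_one (p a c : ℕ) (h : a ≤ c) :
    ∑ D ∈ range c, (if a ≤ D then (D - a) / p else 0) = Sfl p (c - a) := by
  obtain ⟨b, rfl⟩ := Nat.exists_eq_add_of_le h
  rw [sum_range_add, Nat.add_sub_cancel_left]
  have h1 : ∑ x ∈ range a, (if a ≤ x then (x - a) / p else 0) = 0 := by
    refine sum_eq_zero (fun x hx => ?_)
    rw [mem_range] at hx
    rw [if_neg (by omega)]
  rw [h1, zero_add, Sfl]
  refine sum_congr rfl (fun x _ => ?_)
  rw [if_pos (by omega), Nat.add_sub_cancel_left]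

theorem sum_kdf (p M c : ℕ) (hMc : M ≤ c) (hM : dg p + 3 ≤ M) :
    ∑ D : Fin c, kdf p M D = Sfl p (c - (dg p + 3)) + Sfl p (M - (dg p + 3)) := by
  rw [Fin.sum_univ_eq_sum_range (fun D => kdf p M D) c]
  unfold kdf
  rw [sum_add_distrib, sum_one p (dg p + 3) c (by omega)]
  congr 1
  rw [← sum_one p (dg p + 3) M hM]
  obtain ⟨b, rfl⟩ := Nat.exists_eq_add_of_le hMc
  rw [sum_range_add]
  have h1 : ∑ x ∈ range b, (if dg p + 3 ≤ M + x ∧ M + x < M then (M + x - (dg p + 3)) / p
      else 0) = 0 := by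
    refine sum_eq_zero (fun x _ => ?_)
    rw [if_neg (by omega)]
  rw [h1, add_zero]
  refine sum_congr rfl (fun x hx => ?_)
  rw [mem_range] at hx
  by_cases h : dg p + 3 ≤ x
  · rw [if_pos ⟨h, hx⟩, if_pos h]
  · rw [if_neg (by omega), if_neg h]

/-! ## the columns -/

/-- `P`-part of all the columns -/
noncomputable def fullP (p M c : ℕ) (P : ℕ → K[X]) : Fin c ⊕ Fin c → K[X]
  | Sum.inl D => if (D : ℕ) < dg p + 3 ∨ M ≤ (D : ℕ) then X ^ (D : ℕ)
      else (P D).map (starRingEnd K)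
  | Sum.inr D => if (D : ℕ) < dg p + 3 then 0 else P D

/-- `Q`-part of all the columns -/
noncomputable def fullQ (p M c : ℕ) (Q : ℕ → K[X]) : Fin c ⊕ Fin c → K[X]
  | Sum.inl D => if (D : ℕ) < dg p + 3 ∨ M ≤ (D : ℕ) then 0
      else (X + 1) ^ 3 * (Q D).map (starRingEnd K)
  | Sum.inr D => if (D : ℕ) < 3 then X ^ (D : ℕ) else
      if (D : ℕ) < dg p + 3 then (X + 1) ^ 3 * X ^ ((D : ℕ) - 3) else (X + 1) ^ 3 * Q D

theorem fullP_colIdx (p M c : ℕ) (hMc : M ≤ c) (P : ℕ → K[X]) (t : Fin M ⊕ Fin c) :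
    fullP p M c P (colIdx hMc t) = colP p M c P t := by
  rcases t with D | D
  · change (if (D : ℕ) < dg p + 3 ∨ M ≤ (D : ℕ) then X ^ (D : ℕ)
      else (P D).map (starRingEnd K)) = if (D : ℕ) < dg p + 3 then X ^ (D : ℕ)
      else (P D).map (starRingEnd K)
    have := D.2
    by_cases h : (D : ℕ) < dg p + 3
    · rw [if_pos (Or.inl h), if_pos h]
    · rw [if_neg (by omega), if_neg h]
  · rfl

theorem fullQ_colIdx (p M c : ℕ) (hMc : M ≤ c) (Q : ℕ → K[X]) (t : Fin M ⊕ Fin c) :
    fullQ p M c Q (colIdx hMc t) = colQ p M c Q t := by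
  rcases t with D | D
  · change (if (D : ℕ) < dg p + 3 ∨ M ≤ (D : ℕ) then 0
      else (X + 1) ^ 3 * (Q D).map (starRingEnd K)) = if (D : ℕ) < dg p + 3 then 0
      else (X + 1) ^ 3 * (Q D).map (starRingEnd K)
    have := D.2
    by_cases h : (D : ℕ) < dg p + 3
    · rw [if_pos (Or.inl h), if_pos h]
    · rw [if_neg (by omega), if_neg h]
  · rfl

theorem natDegree_cube : ((X + 1 : K[X]) ^ 3).natDegree = 3 := by
  have h : (X + 1 : K[X]) = X + C 1 := by simp
  rw [h, natDegree_pow, natDegree_X_add_C]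

theorem coeff_cube : ((X + 1 : K[X]) ^ 3).coeff 3 = 1 := by
  have h : ((X + 1 : K[X]) ^ 3).Monic := by
    have h : (X + 1 : K[X]) = X + C 1 := by simp
    rw [h]
    exact (monic_X_add_C 1).pow 3
  have := h.coeff_natDegree
  rwa [natDegree_cube] at this

theorem cube_natDegree {Q : K[X]} {D : ℕ} (h3 : 3 ≤ D) (hQ : Q.natDegree ≤ D - 3) :
    ((X + 1) ^ 3 * Q).natDegree ≤ D := by
  refine le_trans natDegree_mul_le ?_
  rw [natDegree_cube]
  omega

theorem cube_coeff {Q : K[X]} {D : ℕ} (h3 : 3 ≤ D) (hQ : Q.natDegree ≤ D - 3) :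
    ((X + 1) ^ 3 * Q).coeff D = Q.coeff (D - 3) := by
  have h := coeff_mul_add_eq_of_natDegree_le (f := (X + 1 : K[X]) ^ 3) (g := Q) (df := 3)
    (dg := D - 3) (le_of_eq natDegree_cube) hQ
  rw [show 3 + (D - 3) = D by omega] at h
  rw [h, coeff_cube, one_mul]

theorem map_natDegree (P : K[X]) : (P.map (starRingEnd K)).natDegree ≤ P.natDegree :=
  natDegree_map_le

theorem fullP_deg {p : ℕ} [Fact p.Prime] {v : ℕ → K} {P Q : ℕ → K[X]} (hg : Good p v P Q)
    (M c : ℕ) (t : Fin c ⊕ Fin c) : (fullP p M c P t).natDegree ≤ dgi t := by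
  rcases t with D | D
  · change (if (D : ℕ) < dg p + 3 ∨ M ≤ (D : ℕ) then X ^ (D : ℕ)
      else (P D).map (starRingEnd K)).natDegree ≤ (D : ℕ)
    split_ifs with h
    · exact natDegree_X_pow_le _
    · exact le_trans (map_natDegree _) (hg.degP D (by omega))
  · change (if (D : ℕ) < dg p + 3 then 0 else P D).natDegree ≤ (D : ℕ)
    split_ifs with h
    · simp
    · exact hg.degP D (by omega)

theorem fullQ_deg {p : ℕ} [Fact p.Prime] {v : ℕ → K} {P Q : ℕ → K[X]} (hg : Good p v P Q)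
    (M c : ℕ) (t : Fin c ⊕ Fin c) : (fullQ p M c Q t).natDegree ≤ dgi t := by
  rcases t with D | D
  · change (if (D : ℕ) < dg p + 3 ∨ M ≤ (D : ℕ) then 0
      else (X + 1) ^ 3 * (Q D).map (starRingEnd K)).natDegree ≤ (D : ℕ)
    split_ifs with h
    · simp
    · exact cube_natDegree (by omega) (le_trans (map_natDegree _) (hg.degQ D (by omega)))
  · change (if (D : ℕ) < 3 then X ^ (D : ℕ) else
      if (D : ℕ) < dg p + 3 then (X + 1) ^ 3 * X ^ ((D : ℕ) - 3)
      else (X + 1) ^ 3 * Q D).natDegree ≤ (D : ℕ)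
    split_ifs with h h'
    · exact natDegree_X_pow_le _
    · exact cube_natDegree (by omega) (natDegree_X_pow_le _)
    · exact cube_natDegree (by omega) (hg.degQ D (by omega))

theorem pp_coeff_zero (v : ℕ → K) (Q : K[X]) (d : ℕ) (hd : Q.natDegree < d) :
    (pp v Q).coeff d = 0 := by
  unfold pp
  rw [finsetSum_coeff]
  refine sum_eq_zero (fun i hi => ?_)
  rw [finsetSum_coeff]
  refine sum_eq_zero (fun m hm => ?_)
  rw [mem_range] at hi
  rw [coeff_C_mul, coeff_X_pow, if_neg (by omega), mul_zero]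

theorem col_jets {p : ℕ} [Fact p.Prime] {v : ℕ → K} {P Q : ℕ → K[X]} (hg : Good p v P Q)
    (M c : ℕ) (hM : dg p + 3 ≤ M) (hMp : p + 2 ≤ M) (t : Fin M ⊕ Fin c) (d : ℕ) (hd : M ≤ d) :
    (colP p M c P t).coeff d + (pp v (colQ p M c Q t)).coeff d = 0 := by
  rcases t with D | D
  · have hD := D.2
    change (if (D : ℕ) < dg p + 3 then X ^ (D : ℕ) else (P D).map (starRingEnd K)).coeff d +
      (pp v (if (D : ℕ) < dg p + 3 then 0
        else (X + 1) ^ 3 * (Q D).map (starRingEnd K))).coeff d = 0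
    split_ifs with h
    · rw [coeff_X_pow, if_neg (by omega), pp_coeff_zero v 0 d (by simp; omega), add_zero]
    · rw [coeff_eq_zero_of_natDegree_lt (lt_of_le_of_lt (le_trans (map_natDegree _)
        (hg.degP D (by omega))) (by omega)), pp_coeff_zero v _ d
        (lt_of_le_of_lt (cube_natDegree (by omega)
          (le_trans (map_natDegree _) (hg.degQ D (by omega)))) (by omega : (D : ℕ) < d)), add_zero]
  · change (if (D : ℕ) < dg p + 3 then 0 else P D).coeff d +
      (pp v (if (D : ℕ) < 3 then X ^ (D : ℕ) else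
      if (D : ℕ) < dg p + 3 then (X + 1) ^ 3 * X ^ ((D : ℕ) - 3)
      else (X + 1) ^ 3 * Q D)).coeff d = 0
    split_ifs with h h' h'
    · rw [coeff_zero, zero_add]
      exact pp_coeff_zero v _ d (lt_of_le_of_lt (natDegree_X_pow_le _) (by omega))
    · rw [coeff_zero, zero_add]
      exact pp_coeff_zero v _ d (lt_of_le_of_lt (cube_natDegree (by omega)
        (natDegree_X_pow_le _)) (by omega : (D : ℕ) < d))
    · exfalso; omega
    · exact hg.jet D (by omega) d (by omega)

theorem full_lead {p : ℕ} [Fact p.Prime] (hp5 : 5 ≤ p) {v : ℕ → K} {P Q : ℕ → K[X]}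
    (hg : Good p v P Q) (M c : ℕ) (D : Fin c) :
    ∃ s : K, s ≠ 0 ∧ s⁻¹ ∈ Op p ∧
      (p : K) ^ kdf p M D * leadD (fullP p M c P) (fullQ p M c Q) D = s := by
  have hPl : fullP p M c P (Sum.inl D) = if (D : ℕ) < dg p + 3 ∨ M ≤ (D : ℕ) then X ^ (D : ℕ)
      else (P D).map (starRingEnd K) := rfl
  have hPr : fullP p M c P (Sum.inr D) = if (D : ℕ) < dg p + 3 then 0 else P D := rfl
  have hQl : fullQ p M c Q (Sum.inl D) = if (D : ℕ) < dg p + 3 ∨ M ≤ (D : ℕ) then 0
      else (X + 1) ^ 3 * (Q D).map (starRingEnd K) := rfl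
  have hQr : fullQ p M c Q (Sum.inr D) = if (D : ℕ) < 3 then X ^ (D : ℕ) else
      if (D : ℕ) < dg p + 3 then (X + 1) ^ 3 * X ^ ((D : ℕ) - 3) else (X + 1) ^ 3 * Q D := rfl
  unfold leadD
  by_cases h1 : (D : ℕ) < dg p + 3
  · refine ⟨1, one_ne_zero, by simp, ?_⟩
    have hk : kdf p M D = 0 := by
      unfold kdf
      rw [if_neg (by omega), if_neg (by omega)]
    rw [if_pos (Or.inl h1)] at hPl hQl
    rw [if_pos h1] at hPr
    have h2 : (fullQ p M c Q (Sum.inr D)).coeff D = 1 := by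
      rw [hQr]
      by_cases h3 : (D : ℕ) < 3
      · rw [if_pos h3, coeff_X_pow_self]
      · rw [if_neg h3, if_pos h1, cube_coeff (by omega) (natDegree_X_pow_le _),
          coeff_X_pow_self]
    rw [h2, hPl, hPr, hQl, hk, coeff_X_pow_self, coeff_zero]
    simp
  · obtain ⟨u, hu, hq, hpp⟩ := hg.lead D (by omega)
    have h3 : ¬ (D : ℕ) < 3 := by omega
    rw [if_neg h3, if_neg h1] at hQr
    rw [if_neg h1] at hPr
    rw [hPr, hQr, cube_coeff (by omega) (hg.degQ D (by omega))]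
    by_cases h2 : M ≤ (D : ℕ)
    · refine ⟨u, hu.1, hu.2.2, ?_⟩
      have hk : kdf p M D = ((D : ℕ) - (dg p + 3)) / p := by
        unfold kdf
        rw [if_pos (by omega), if_neg (by omega), add_zero]
      rw [if_pos (Or.inr h2)] at hPl hQl
      rw [hPl, hQl, hk, coeff_X_pow_self, coeff_zero, mul_zero, sub_zero, one_mul]
      exact hq
    · have hs := unit_mul (unit_mul (alpha_sub_unit p hp5) hu) (unit_star hu)
      refine ⟨(alpha - (starRingEnd K) alpha) * u * (starRingEnd K) u, hs.1, hs.2.2, ?_⟩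
      have hk : kdf p M D = ((D : ℕ) - (dg p + 3)) / p + ((D : ℕ) - (dg p + 3)) / p := by
        unfold kdf
        rw [if_pos (by omega), if_pos (by omega)]
      have hno : ¬ ((D : ℕ) < dg p + 3 ∨ M ≤ (D : ℕ)) := by omega
      rw [if_neg hno] at hPl hQl
      rw [hPl, hQl, hk,
        cube_coeff (by omega) (le_trans (map_natDegree _) (hg.degQ D (by omega))),
        coeff_map, coeff_map, pow_add]
      set q := (p : K) ^ (((D : ℕ) - (dg p + 3)) / p) with hqdef
      have hqs : (starRingEnd K) q = q := by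
        rw [hqdef, map_pow, map_natCast]
      have e1 : q * (starRingEnd K) ((Q D).coeff ((D : ℕ) - 3)) = (starRingEnd K) u := by
        rw [← hq, map_mul, hqs]
      have e2 : q * (starRingEnd K) ((P D).coeff (D : ℕ)) =
          -((starRingEnd K) alpha * (starRingEnd K) u) := by
        rw [← map_mul, ← map_neg, ← hpp, map_mul, hqs]
      calc q * q * ((starRingEnd K) ((P D).coeff (D : ℕ)) * (Q D).coeff ((D : ℕ) - 3) -
            (P D).coeff (D : ℕ) * (starRingEnd K) ((Q D).coeff ((D : ℕ) - 3)))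
          = (q * (starRingEnd K) ((P D).coeff (D : ℕ))) * (q * (Q D).coeff ((D : ℕ) - 3)) -
            (q * (P D).coeff (D : ℕ)) * (q * (starRingEnd K) ((Q D).coeff ((D : ℕ) - 3))) := by
            ring
        _ = (alpha - (starRingEnd K) alpha) * u * (starRingEnd K) u := by
            rw [e1, e2, hq, hpp]
            ring

end QS2.Cls.Base

namespace QS2.Cls

open Finset Matrix Polynomial Base

/-- **base change** -/
theorem base_change {p : ℕ} [hp : Fact p.Prime] (hp5 : 5 ≤ p) {v : ℕ → K} {P Q : ℕ → K[X]}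
    (hg : Good p v P Q) {A rho : ℕ} (hM : dg p + 3 ≤ A - rho)
    (hc : A + rho ≤ p ^ 2) (y y' : K) (W E : ℕ)
    (hE : Sfl p (A + rho) + Sfl p (A - rho) ≤
      E + Sfl p (A + rho - (dg p + 3)) + Sfl p (A - rho - (dg p + 3)))
    (hval : ∀ e : Nd A ≃ Fin (A - rho) ⊕ Fin (A + rho),
      (p : K) ^ W * ((valM p A rho y y' P Q).submatrix id e).det ∈ Op p) :
    (p : K) ^ (W + E) * DeltaR y y' v A rho ∈ Op p := by
  have hr : rho ≤ A := by omega
  have hle : A - rho ≤ A + rho := by omega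
  have hNc : A + rho = (A - rho) + 2 * rho := by omega
  have hMp : p + 2 ≤ A - rho := by
    have : 2 * ((p - 1) / 2) = p - 1 := by
      have h2 : p % 2 = 1 := by
        rcases hp.out.eq_two_or_odd with h | h
        · omega
        · exact h
      omega
    unfold dg at hM
    omega
  have hcard : Fintype.card (Nd A) = Fintype.card (Fin (A - rho) ⊕ Fin (A + rho)) := by
    simp
    omega
  obtain ⟨e⟩ : Nonempty (Nd A ≃ Fin (A - rho) ⊕ Fin (A + rho)) := ⟨Fintype.equivOfCardEq hcard⟩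
  have hv : valG hle (nodeZ A) (uval y y' A) (uval1 y y' A) (fullP p (A - rho) (A + rho) P)
      (fullQ p (A - rho) (A + rho) Q) = valM p A rho y y' P Q := by
    refine Matrix.ext (fun f s => ?_)
    unfold valG valM
    rw [Matrix.of_apply, fullP_colIdx, fullQ_colIdx]
  have hmain := fullM_mem (O := Op p) (p := p) hp.out (QS2SP.ploc_Op p) hNc hle hc (nodeZ A)
    (uval y y' A) (uval1 y y' A) v (fullP p (A - rho) (A + rho) P)
    (fullQ p (A - rho) (A + rho) Q) (fullP_deg hg _ _) (fullQ_deg hg _ _)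
    (fun D hD => ⟨if_pos (Or.inr hD), if_pos (Or.inr hD)⟩)
    (fun t d hd _ => by
      rw [fullP_colIdx, fullQ_colIdx]
      exact col_jets hg _ _ hM hMp t d hd)
    (fun D => kdf p (A - rho) D) (fun D => full_lead hp5 hg _ _ D) (idx A rho) (Equiv.refl _)
    (Equiv.refl _) e W E (by
      rw [hv]
      exact hval e) (by
      rw [sum_kdf p _ _ hle hM]
      unfold Sfl at hE ⊢
      omega)
  exact hmain

end QS2.Cls
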