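import Pool.Agent.QS2.SPAct

/-!
# Integer valued polynomials over a `p`-local ring and divided differences
-/

set_option autoImplicit false
set_option linter.unusedSectionVars false

namespace QS2SP

open Polynomial Finset

variable {K : Type*} [Field K] [CharZero K]

/-- the binomial polynomial `C(X, k)` -/
noncomputable def chP (K : Type*) [Field K] (k : ℕ) : K[X] :=
  C ((k.factorial : K)⁻¹) * descPochhammer K k

/-- the binomial coefficient `C(x, k)` -/
noncomputable def chK (x : K) (k : ℕ) : K := (chP K k).eval x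

theorem fac_ne (k : ℕ) : (k.factorial : K) ≠ 0 := Nat.cast_ne_zero.mpr k.factorial_ne_zero

theorem chP_zero : chP K 0 = 1 := by simp [chP]

theorem chK_zero (x : K) : chK x 0 = 1 := by simp [chK, chP_zero]

theorem chP_succ (k : ℕ) : C ((k : K) + 1) * chP K (k + 1) = (X - C (k : K)) * chP K k := by
  unfold chP
  rw [descPochhammer_succ_right, Nat.factorial_succ, Nat.cast_mul, mul_inv, map_mul]
  have h : ((k : K) + 1) ≠ 0 := by exact_mod_cast Nat.succ_ne_zero k
  have h1 : (C ((k : K) + 1) : K[X]) * C (((k + 1 : ℕ) : K)⁻¹) = 1 := by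
    rw [← C_mul, Nat.cast_succ, mul_inv_cancel₀ h, C_1]
  have h2 : ((k : ℕ) : K[X]) = C (k : K) := by simp
  rw [h2]
  calc _ = (C ((k : K) + 1) * C (((k + 1 : ℕ) : K)⁻¹)) * (C ((k.factorial : K)⁻¹)
        * (descPochhammer K k * (X - C (k : K)))) := by ring
    _ = _ := by rw [h1]; ring

theorem chK_succ (x : K) (k : ℕ) : ((k : K) + 1) * chK x (k + 1) = (x - k) * chK x k := by
  have := congrArg (Polynomial.eval x) (chP_succ (K := K) k)
  simpa [chK] using this

theorem natDegree_chP (k : ℕ) : (chP K k).natDegree = k := by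
  unfold chP
  rw [natDegree_C_mul (inv_ne_zero (fac_ne k))]
  exact descPochhammer_natDegree K k

theorem coeff_chP_self (k : ℕ) : (chP K k).coeff k = ((k.factorial : K))⁻¹ := by
  unfold chP
  rw [coeff_C_mul]
  have h := monic_descPochhammer K k
  rw [Monic, leadingCoeff, descPochhammer_natDegree K k] at h
  rw [h, mul_one]

/-- divided difference of `C(w,k)` at `x` -/
noncomputable def dd (x : K) : ℕ → K[X]
  | 0 => 0
  | k + 1 => ∑ j ∈ range (k + 1),
      C (chK (x - j - 1) (k - j) * (((k : K) + 1) * (k.choose j : K))⁻¹) * chP K j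

theorem dd_succ (x : K) (k : ℕ) :
    C ((k : K) + 1) * dd x (k + 1) = chP K k + C (x - k) * dd x k := by
  have h0 : ((k : K) + 1) ≠ 0 := by exact_mod_cast Nat.succ_ne_zero k
  rw [dd, sum_range_succ, mul_add]
  have h1 : C ((k : K) + 1) * (C (chK (x - k - 1) (k - k) *
      (((k : K) + 1) * (k.choose k : K))⁻¹) * chP K k) = chP K k := by
    rw [Nat.sub_self, chK_zero, Nat.choose_self, Nat.cast_one, mul_one, one_mul, ← mul_assoc,
      ← C_mul, mul_inv_cancel₀ h0, C_1, one_mul]
  rw [h1, add_comm]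
  congr 1
  cases k with
  | zero => simp [dd]
  | succ k =>
    rw [dd, mul_sum, mul_sum]
    refine sum_congr rfl fun j hj => ?_
    rw [mem_range] at hj
    rw [← mul_assoc, ← mul_assoc, ← C_mul, ← C_mul]
    congr 2
    have hk : ((k : K) + 1) ≠ 0 := by exact_mod_cast Nat.succ_ne_zero k
    have hc1 : ((k.choose j : ℕ) : K) ≠ 0 :=
      Nat.cast_ne_zero.mpr (Nat.choose_pos (by omega)).ne'
    have hc2 : (((k + 1).choose j : ℕ) : K) ≠ 0 :=
      Nat.cast_ne_zero.mpr (Nat.choose_pos (by omega)).ne'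
    have e1 : k + 1 - j = (k - j) + 1 := by omega
    have e2 := chK_succ (x - j - 1) (k - j)
    rw [← e1] at e2
    have e3 : ((k - j : ℕ) : K) = (k : K) - j := by
      rw [Nat.cast_sub (by omega)]
    rw [e3] at e2
    have e4 : ((k.choose j : ℕ) : K) * ((k : K) + 1)
        = (((k + 1).choose j : ℕ) : K) * ((k : K) + 1 - j) := by
      have := Nat.choose_mul_succ_eq k j
      have h5 : ((k + 1 - j : ℕ) : K) = (k : K) + 1 - j := by
        rw [Nat.cast_sub (by omega)]; push_cast; ring
      rw [← h5]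
      exact_mod_cast this
    have e5 : ((k : K) - j + 1) ≠ 0 := by
      rw [← e3]; exact_mod_cast Nat.succ_ne_zero (k - j)
    push_cast
    have e6 : ((k : K) + 1 + 1) ≠ 0 := by
      have : (((k + 1 + 1 : ℕ) : K)) ≠ 0 := Nat.cast_ne_zero.mpr (by omega)
      simpa using this
    rw [mul_inv, mul_inv]
    field_simp
    have e7 : chK (x - j - 1) (k + 1 - j) * ((k : K) - j + 1)
        = (x - (k + 1)) * chK (x - j - 1) (k - j) := by
      rw [mul_comm, e2]; ring
    have e8 : (k.choose j : K) * ((k : K) + 1) = ((k + 1).choose j : K) * ((k : K) - j + 1) := by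
      rw [e4]; ring
    calc ((k : K) + 1) * chK (x - j - 1) (k + 1 - j) * (k.choose j : K)
        = chK (x - j - 1) (k + 1 - j) * ((k.choose j : K) * ((k : K) + 1)) := by ring
      _ = (chK (x - j - 1) (k + 1 - j) * ((k : K) - j + 1)) * ((k + 1).choose j : K) := by
          rw [e8]; ring
      _ = _ := by rw [e7]; ring

theorem dd_mul (x : K) (k : ℕ) : (X - C x) * dd x k = chP K k - C (chK x k) := by
  induction k with
  | zero => simp [dd, chP_zero, chK_zero]
  | succ k ih =>
    have h0 : ((k : K) + 1) ≠ 0 := by exact_mod_cast Nat.succ_ne_zero k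
    have hC : (C ((k : K) + 1) : K[X]) ≠ 0 := C_ne_zero.mpr h0
    apply mul_left_cancel₀ hC
    have e1 : C ((k : K) + 1) * ((X - C x) * dd x (k + 1))
        = (X - C x) * (C ((k : K) + 1) * dd x (k + 1)) := by ring
    rw [e1, dd_succ, mul_add]
    have e2 : (X - C x) * (C (x - k) * dd x k) = C (x - k) * ((X - C x) * dd x k) := by ring
    have e3 : C (chK x (k + 1)) * C ((k : K) + 1) = C (x - k) * C (chK x k) := by
      rw [← C_mul, ← C_mul, ← chK_succ, mul_comm]
    rw [e2, ih, mul_sub, mul_sub, chP_succ, mul_comm (C ((k : K) + 1)) (C (chK x (k + 1))), e3,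
      C_sub]
    ring

/-- `X / (1 - x X)` -/
noncomputable def cauchy (x : K) : PowerSeries K :=
  PowerSeries.X * (1 - PowerSeries.C x * PowerSeries.X)⁻¹

theorem const_ne (x : K) :
    PowerSeries.constantCoeff (1 - PowerSeries.C x * PowerSeries.X : PowerSeries K) ≠ 0 := by
  simp

theorem cauchy_mul (x : K) :
    (1 - PowerSeries.C x * PowerSeries.X) * cauchy x = PowerSeries.X := by
  unfold cauchy
  rw [mul_left_comm, PowerSeries.mul_inv_cancel _ (const_ne x), mul_one]

theorem act_cauchy (x : K) {P R : K[X]} {r : K} (h : (X - C x) * R = P - C r) :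
    act (cauchy x) P = R := by
  have hP : P = X * R - C x * R + C r := by
    have : P = (X - C x) * R + C r := by rw [h]; ring
    rw [this]; ring
  have h1 : Polynomial.divX P = R - C x * Polynomial.divX R := by
    rw [hP]
    ext d
    simp only [coeff_divX, coeff_add, coeff_sub, coeff_C_mul]
    rw [mul_comm X R, coeff_mul_X, coeff_C_succ, add_zero]
  have h2 : act (1 - PowerSeries.C x * PowerSeries.X) R = Polynomial.divX P := by
    rw [act_sub_left, act_one, act_C_mul_left, act_X, h1]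
  have h3 : act (1 - PowerSeries.C x * PowerSeries.X) (act (cauchy x) P) = Polynomial.divX P := by
    rw [← act_mul, cauchy_mul, act_X]
  have h4 : ∀ S : K[X], act ((1 - PowerSeries.C x * PowerSeries.X)⁻¹)
      (act (1 - PowerSeries.C x * PowerSeries.X) S) = S := by
    intro S
    rw [← act_mul, PowerSeries.inv_mul_cancel _ (const_ne x), act_one]
  rw [← h4 (act (cauchy x) P), h3, ← h2, h4]

theorem act_cauchy_chP (x : K) (k : ℕ) : act (cauchy x) (chP K k) = dd x k :=
  act_cauchy x (dd_mul x k)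

/-! ### local rings -/

/-- `Q` is an `R`-combination of `C(X,k)`, `k ≤ D` -/
def IntR (R : Subring K) (D : ℕ) (Q : K[X]) : Prop :=
  ∃ c : ℕ → K, (∀ k, c k ∈ R) ∧ Q = ∑ k ∈ range (D + 1), C (c k) * chP K k

theorem IntR.add {R : Subring K} {D : ℕ} {P Q : K[X]} (hP : IntR R D P) (hQ : IntR R D Q) :
    IntR R D (P + Q) := by
  obtain ⟨c, hc, rfl⟩ := hP
  obtain ⟨d, hd, rfl⟩ := hQ
  exact ⟨fun k => c k + d k, fun k => R.add_mem (hc k) (hd k), by
    rw [← sum_add_distrib]; exact sum_congr rfl fun k _ => by rw [C_add]; ring⟩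

theorem IntR.C_mul {R : Subring K} {D : ℕ} {Q : K[X]} {r : K} (hr : r ∈ R) (hQ : IntR R D Q) :
    IntR R D (C r * Q) := by
  obtain ⟨c, hc, rfl⟩ := hQ
  exact ⟨fun k => r * c k, fun k => R.mul_mem hr (hc k), by
    rw [mul_sum]; exact sum_congr rfl fun k _ => by rw [Polynomial.C_mul]; ring⟩

theorem IntR.zero (R : Subring K) (D : ℕ) : IntR R D (0 : K[X]) :=
  ⟨fun _ => 0, fun _ => R.zero_mem, by simp⟩

theorem IntR.neg {R : Subring K} {D : ℕ} {Q : K[X]} (hQ : IntR R D Q) : IntR R D (-Q) := by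
  have := IntR.C_mul (R.neg_mem R.one_mem) hQ
  simpa using this

theorem IntR.sub {R : Subring K} {D : ℕ} {P Q : K[X]} (hP : IntR R D P) (hQ : IntR R D Q) :
    IntR R D (P - Q) := by
  rw [sub_eq_add_neg]; exact hP.add hQ.neg

theorem IntR.sum {R : Subring K} {D : ℕ} {ι : Type*} (s : Finset ι) {Q : ι → K[X]}
    (h : ∀ i ∈ s, IntR R D (Q i)) : IntR R D (∑ i ∈ s, Q i) := by
  classical
  induction s using Finset.induction_on with
  | empty => simpa using IntR.zero R D
  | insert i s hi ih =>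
    rw [sum_insert hi]
    exact (h i (mem_insert_self i s)).add (ih fun j hj => h j (mem_insert_of_mem hj))

theorem IntR.mono {R : Subring K} {D E : ℕ} (hDE : D ≤ E) {Q : K[X]} (h : IntR R D Q) :
    IntR R E Q := by
  obtain ⟨c, hc, rfl⟩ := h
  refine ⟨fun k => if k < D + 1 then c k else 0, fun k => ?_, ?_⟩
  · dsimp only
    split_ifs
    · exact hc k
    · exact R.zero_mem
  · have hs : range (D + 1) ⊆ range (E + 1) := range_subset_range.mpr (by omega)
    rw [← sum_subset hs]
    · refine sum_congr rfl fun k hk => ?_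
      dsimp only
      rw [if_pos (mem_range.mp hk)]
    · intro k _ hk
      dsimp only
      rw [if_neg (by simpa using hk)]; simp

theorem IntR.chP (R : Subring K) {k D : ℕ} (hk : k ≤ D) : IntR R D (chP K k) := by
  refine ⟨fun j => if j = k then 1 else 0, fun j => ?_, ?_⟩
  · dsimp only
    split_ifs
    · exact R.one_mem
    · exact R.zero_mem
  · rw [sum_eq_single k]
    · simp
    · intro j _ hj; simp [hj]
    · intro h; simp at h; omega

theorem IntR.natDegree_le {R : Subring K} {D : ℕ} {Q : K[X]} (h : IntR R D Q) :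
    Q.natDegree ≤ D := by
  obtain ⟨c, _, rfl⟩ := h
  apply natDegree_sum_le_of_forall_le
  intro k hk
  refine (natDegree_C_mul_le _ _).trans ?_
  rw [natDegree_chP]
  exact Nat.lt_succ_iff.mp (mem_range.mp hk)

theorem natCast_mem' (R : Subring K) (n : ℕ) : (n : K) ∈ R := natCast_mem R n

theorem IntR.X_mul {R : Subring K} {D : ℕ} {Q : K[X]} (h : IntR R D Q) :
    IntR R (D + 1) (X * Q) := by
  obtain ⟨c, hc, rfl⟩ := h
  rw [mul_sum]
  apply IntR.sum
  intro k hk
  rw [mem_range] at hk
  have e : X * (C (c k) * QS2SP.chP K k)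
      = C (c k) * (C ((k : K) + 1) * QS2SP.chP K (k + 1)) + C (c k) * (C (k : K) * QS2SP.chP K k) := by
    rw [chP_succ]; ring
  rw [e]
  refine IntR.add ?_ ?_
  · exact IntR.C_mul (hc k) (IntR.C_mul (R.add_mem (natCast_mem R k) R.one_mem)
      (IntR.chP R (by omega)))
  · exact IntR.C_mul (hc k) (IntR.C_mul (natCast_mem R k) (IntR.chP R (by omega)))

/-- `p`-locality of the ring: naturals prime to `p` are invertible -/
def PLoc (R : Subring K) (p : ℕ) : Prop := ∀ n : ℕ, ¬ p ∣ n → ((n : K))⁻¹ ∈ R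

theorem PLoc.inv_mem {R : Subring K} {p : ℕ} (hp : p.Prime) (hR : PLoc R p) {n s : ℕ} (hn : n ≠ 0)
    (h : n.factorization p ≤ s) : (p : K) ^ s * ((n : K))⁻¹ ∈ R := by
  have h1 := Nat.ordProj_mul_ordCompl_eq_self n p
  have h2 : ¬ p ∣ n / p ^ n.factorization p := Nat.not_dvd_ordCompl hp hn
  have h3 : (n : K) = (p : K) ^ n.factorization p * ((n / p ^ n.factorization p : ℕ) : K) := by
    rw [← Nat.cast_pow, ← Nat.cast_mul, h1]
  have hp0 : (p : K) ≠ 0 := Nat.cast_ne_zero.mpr hp.ne_zero
  have h4 : (p : K) ^ s = (p : K) ^ (s - n.factorization p) * (p : K) ^ n.factorization p := by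
    rw [← pow_add]; congr 1; omega
  have h5 : (p : K) ^ s * ((n : K))⁻¹
      = (p : K) ^ (s - n.factorization p) * (((n / p ^ n.factorization p : ℕ) : K))⁻¹ := by
    rw [h3, mul_inv, h4]
    field_simp
  rw [h5]
  exact R.mul_mem (R.pow_mem (natCast_mem R p) _) (hR _ h2)

/-- elements which are `p`-adically approximable by integers -/
def Good (R : Subring K) (p : ℕ) (x : K) : Prop :=
  ∀ M : ℕ, ∃ n : ℤ, ∃ r ∈ R, x = n + (p : K) ^ M * r

theorem Good.add_int {R : Subring K} {p : ℕ} {x : K} (h : Good R p x) (j : ℤ) :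
    Good R p (x + j) := by
  intro M
  obtain ⟨n, r, hr, e⟩ := h M
  exact ⟨n + j, r, hr, by rw [e]; push_cast; ring⟩

theorem Good.neg {R : Subring K} {p : ℕ} {x : K} (h : Good R p x) : Good R p (-x) := by
  intro M
  obtain ⟨n, r, hr, e⟩ := h M
  exact ⟨-n, -r, R.neg_mem hr, by rw [e]; push_cast; ring⟩

theorem Good.int (R : Subring K) (p : ℕ) (n : ℤ) : Good R p (n : K) := fun _ =>
  ⟨n, 0, R.zero_mem, by simp⟩

theorem chK_eq (x : K) (k : ℕ) :
    chK x k = ((k.factorial : K))⁻¹ * ∏ i ∈ range k, (x - i) := by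
  induction k with
  | zero => simp [chK_zero]
  | succ k ih =>
    have h0 : ((k : K) + 1) ≠ 0 := by exact_mod_cast Nat.succ_ne_zero k
    apply mul_left_cancel₀ h0
    rw [chK_succ, ih, prod_range_succ, Nat.factorial_succ, Nat.cast_mul, mul_inv, Nat.cast_succ]
    field_simp

theorem chK_int_mem (R : Subring K) (n : ℤ) (k : ℕ) : chK (n : K) k ∈ R := by
  have h : ((k.factorial : ℤ)) ∣ ∏ i ∈ range k, (n - i) := by
    have h1 := Ring.descPochhammer_eq_factorial_smul_choose n k
    rw [← Polynomial.eval_eq_smeval, descPochhammer_eval_eq_prod_range] at h1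
    rw [h1]
    exact ⟨Ring.choose n k, by simp⟩
  obtain ⟨m, hm⟩ := h
  have : chK (n : K) k = ((m : ℤ) : K) := by
    rw [chK_eq]
    have h3 : (∏ i ∈ range k, ((n : K) - i)) = ((∏ i ∈ range k, (n - i) : ℤ) : K) := by
      push_cast; rfl
    rw [h3, hm]
    push_cast
    rw [← mul_assoc, inv_mul_cancel₀ (fac_ne k), one_mul]
  rw [this]
  exact intCast_mem R m

theorem Good.chK_mem {R : Subring K} {p : ℕ} (hp : p.Prime) (hR : PLoc R p) {x : K}
    (hx : Good R p x) (k : ℕ) : chK x k ∈ R := by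
  obtain ⟨n, r, hr, e⟩ := hx (k.factorial.factorization p)
  set M := k.factorial.factorization p with hM
  have h1 : ∀ m : ℕ, ∃ s ∈ R, ∏ i ∈ range m, (x - i)
      = ∏ i ∈ range m, ((n : K) - i) + (p : K) ^ M * s := by
    intro m
    induction m with
    | zero => exact ⟨0, R.zero_mem, by simp⟩
    | succ m ih =>
      obtain ⟨s, hs, es⟩ := ih
      have hn : (n : K) ∈ R := intCast_mem R n
      have hprod : ∏ i ∈ range m, ((n : K) - i) ∈ R :=
        R.prod_mem fun i _ => R.sub_mem hn (natCast_mem R i)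
      have hx' : x ∈ R := by
        rw [e]; exact R.add_mem hn (R.mul_mem (R.pow_mem (natCast_mem R p) _) hr)
      refine ⟨s * (x - m) + (∏ i ∈ range m, ((n : K) - i)) * r,
        R.add_mem (R.mul_mem hs (R.sub_mem hx' (natCast_mem R m))) (R.mul_mem hprod hr), ?_⟩
      rw [prod_range_succ, prod_range_succ, es]
      have : x - m = (n - m) + (p : K) ^ M * r := by
        conv_lhs => rw [e]
        ring
      rw [this]
      ring
  obtain ⟨s, hs, es⟩ := h1 k
  rw [chK_eq, es, mul_add, ← chK_eq, ← mul_assoc]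
  refine R.add_mem (chK_int_mem R n k) (R.mul_mem ?_ hs)
  rw [mul_comm]
  exact PLoc.inv_mem hp hR k.factorial_ne_zero le_rfl

theorem Good.half {R : Subring K} {p : ℕ} (hp : p.Prime) (hp2 : p ≠ 2) (hR : PLoc R p) :
    Good R p ((2 : K)⁻¹) := by
  intro M
  have hodd : Odd (p ^ M) := (hp.odd_of_ne_two hp2).pow
  obtain ⟨t, ht⟩ := hodd
  have h2 : ((2 : ℕ) : K)⁻¹ ∈ R := by
    apply hR
    intro h
    exact hp2 ((Nat.prime_dvd_prime_iff_eq hp Nat.prime_two).mp h)
  refine ⟨(t : ℤ) + 1, -((2 : K)⁻¹), R.neg_mem (by simpa using h2), ?_⟩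
  have h3 : (p : K) ^ M = 2 * t + 1 := by exact_mod_cast ht
  rw [h3]
  push_cast
  field_simp
  ring

/-- `p^{s log_p D} (F • Q)` is integral for integral `Q` of degree `≤ D` -/
def Nice (R : Subring K) (p s : ℕ) (F : PowerSeries K) : Prop :=
  ∀ (D : ℕ) (Q : K[X]), IntR R D Q → IntR R D (C ((p : K) ^ (s * Nat.log p D)) * act F Q)

theorem Nice.mul {R : Subring K} {p s t : ℕ} {F G : PowerSeries K} (hF : Nice R p s F)
    (hG : Nice R p t G) : Nice R p (s + t) (F * G) := by
  intro D Q hQ
  have h := hF D _ (hG D Q hQ)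
  rw [act_C_mul, ← mul_assoc, ← Polynomial.C_mul, ← pow_add, ← add_mul, ← act_mul] at h
  exact h

theorem Nice.add {R : Subring K} {p s : ℕ} {F G : PowerSeries K} (hF : Nice R p s F)
    (hG : Nice R p s G) : Nice R p s (F + G) := by
  intro D Q hQ
  rw [act_add_left, mul_add]
  exact (hF D Q hQ).add (hG D Q hQ)

theorem Nice.C_mul {R : Subring K} {p s : ℕ} {F : PowerSeries K} {r : K} (hr : r ∈ R)
    (hF : Nice R p s F) : Nice R p s (PowerSeries.C r * F) := by
  intro D Q hQ
  rw [act_C_mul_left, mul_left_comm]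
  exact IntR.C_mul hr (hF D Q hQ)

theorem Nice.mono {R : Subring K} {p s t : ℕ} (hst : s ≤ t) {F : PowerSeries K}
    (hF : Nice R p s F) : Nice R p t F := by
  intro D Q hQ
  have h := IntR.C_mul (R.pow_mem (natCast_mem R p) ((t - s) * Nat.log p D)) (hF D Q hQ)
  rw [← mul_assoc, ← Polynomial.C_mul, ← pow_add, ← add_mul, Nat.sub_add_cancel hst] at h
  exact h

theorem Nice.zero (R : Subring K) (p s : ℕ) : Nice R p s (0 : PowerSeries K) := by
  intro D Q _
  rw [act_zero_left, mul_zero]
  exact IntR.zero R D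

theorem Nice.sum {R : Subring K} {p s : ℕ} {ι : Type*} (S : Finset ι) {F : ι → PowerSeries K}
    (h : ∀ i ∈ S, Nice R p s (F i)) : Nice R p s (∑ i ∈ S, F i) := by
  classical
  induction S using Finset.induction_on with
  | empty => simpa using Nice.zero R p s
  | insert i S hi ih =>
    rw [sum_insert hi]
    exact (h i (mem_insert_self i S)).add (ih fun j hj => h j (mem_insert_of_mem hj))

theorem Nice.one (R : Subring K) (p : ℕ) : Nice R p 0 (1 : PowerSeries K) := by
  intro D Q hQ
  rw [act_one, zero_mul, pow_zero, C_1, one_mul]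
  exact hQ

theorem Nice.const {R : Subring K} {p : ℕ} {r : K} (hr : r ∈ R) :
    Nice R p 0 (PowerSeries.C r) := by
  have := Nice.C_mul hr (Nice.one R p)
  rwa [mul_one] at this

/-- it suffices to know the coefficients up to any given order -/
theorem Nice.of_trunc {R : Subring K} {p s : ℕ} {F : PowerSeries K}
    (h : ∀ D : ℕ, ∃ G, Nice R p s G ∧ ∀ k ≤ D, PowerSeries.coeff k F = PowerSeries.coeff k G) :
    Nice R p s F := by
  intro D Q hQ
  obtain ⟨G, hG, hk⟩ := h D
  rw [act_congr hQ.natDegree_le hk]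
  exact hG D Q hQ

theorem dd_int {R : Subring K} {p : ℕ} (hp : p.Prime) (hR : PLoc R p) {x : K}
    (hx : Good R p x) {k D : ℕ} (hk : k ≤ D) :
    IntR R D (C ((p : K) ^ (2 * Nat.log p D)) * dd x k) := by
  cases k with
  | zero => simpa [dd] using IntR.zero R D
  | succ k =>
    rw [dd, mul_sum]
    apply IntR.sum
    intro j hj
    rw [mem_range] at hj
    rw [← mul_assoc, ← Polynomial.C_mul]
    refine IntR.C_mul ?_ (IntR.chP R (by omega))
    have h1 : chK (x - j - 1) (k - j) ∈ R := by
      apply Good.chK_mem hp hR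
      have := hx.add_int (-(j : ℤ) - 1)
      push_cast at this
      convert this using 1
      ring
    have h2 : (p : K) ^ Nat.log p D * (((k + 1 : ℕ) : K))⁻¹ ∈ R := by
      apply PLoc.inv_mem hp hR (Nat.succ_ne_zero k)
      have h := Nat.factorization_choose_le_log (p := p) (n := k + 1) (k := 1)
      rw [Nat.choose_one_right] at h
      exact h.trans (Nat.log_mono_right hk)
    have h3 : (p : K) ^ Nat.log p D * ((k.choose j : ℕ) : K)⁻¹ ∈ R := by
      apply PLoc.inv_mem hp hR (Nat.choose_pos (by omega)).ne'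
      exact Nat.factorization_choose_le_log.trans (Nat.log_mono_right (by omega))
    have e : (p : K) ^ (2 * Nat.log p D) * (chK (x - j - 1) (k - j)
        * (((k : K) + 1) * (k.choose j : K))⁻¹)
        = chK (x - j - 1) (k - j) * ((p : K) ^ Nat.log p D * (((k + 1 : ℕ) : K))⁻¹)
          * ((p : K) ^ Nat.log p D * ((k.choose j : ℕ) : K)⁻¹) := by
      rw [two_mul, pow_add, mul_inv]
      push_cast
      ring
    rw [e]
    exact R.mul_mem (R.mul_mem h1 h2) h3

theorem Nice.cauchy {R : Subring K} {p : ℕ} (hp : p.Prime) (hR : PLoc R p) {x : K}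
    (hx : Good R p x) : Nice R p 2 (cauchy x) := by
  rintro D Q ⟨c, hc, rfl⟩
  rw [act_sum, mul_sum]
  apply IntR.sum
  intro k hk
  rw [act_C_mul, act_cauchy_chP, mul_left_comm]
  exact IntR.C_mul (hc k) (dd_int hp hR hx (Nat.lt_succ_iff.mp (mem_range.mp hk)))

theorem cauchy_zero : cauchy (0 : K) = PowerSeries.X := by
  have := cauchy_mul (0 : K)
  rwa [map_zero, zero_mul, sub_zero, one_mul] at this

theorem Nice.X {R : Subring K} {p : ℕ} (hp : p.Prime) (hR : PLoc R p) :
    Nice R p 2 (PowerSeries.X : PowerSeries K) := by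
  rw [← cauchy_zero]
  have := Good.int (K := K) R p 0
  exact Nice.cauchy hp hR (by simpa using this)

theorem lin_ne (a : K) : PowerSeries.constantCoeff
    (1 + PowerSeries.C a * PowerSeries.X : PowerSeries K) ≠ 0 := by
  simp

/-- `m! X^{m+1} / ∏_{r=0}^m (1 + (a+r) X)` : the expansion at infinity of
`m! / ((z+a)(z+a+1)...(z+a+m))` -/
noncomputable def HH (m : ℕ) (a : K) : PowerSeries K :=
  PowerSeries.C (m.factorial : K) * PowerSeries.X ^ (m + 1)
    * ∏ r ∈ range (m + 1), (1 + PowerSeries.C (a + r) * PowerSeries.X)⁻¹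

theorem HH_zero (a : K) : HH 0 a = cauchy (-a) := by
  unfold HH cauchy
  simp

theorem HH_succ (m : ℕ) (a : K) : HH (m + 1) a = HH m a - HH m (a + 1) := by
  have hne : ∀ b : K, (1 + PowerSeries.C b * PowerSeries.X : PowerSeries K)
      * (1 + PowerSeries.C b * PowerSeries.X)⁻¹ = 1 := fun b =>
    PowerSeries.mul_inv_cancel _ (lin_ne b)
  have e1 : HH m a = PowerSeries.C (m.factorial : K) * PowerSeries.X ^ (m + 1)
      * (1 + PowerSeries.C (a + (m + 1 : ℕ)) * PowerSeries.X)
      * ∏ r ∈ range (m + 2), (1 + PowerSeries.C (a + r) * PowerSeries.X)⁻¹ := by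
    rw [prod_range_succ _ (m + 1), HH]
    have := hne (a + (m + 1 : ℕ))
    calc _ = PowerSeries.C (m.factorial : K) * PowerSeries.X ^ (m + 1)
          * ((1 + PowerSeries.C (a + (m + 1 : ℕ)) * PowerSeries.X)
            * (1 + PowerSeries.C (a + (m + 1 : ℕ)) * PowerSeries.X)⁻¹)
          * ∏ r ∈ range (m + 1), (1 + PowerSeries.C (a + r) * PowerSeries.X)⁻¹ := by
          rw [this, mul_one]
      _ = _ := by ring
  have e2 : HH m (a + 1) = PowerSeries.C (m.factorial : K) * PowerSeries.X ^ (m + 1)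
      * (1 + PowerSeries.C a * PowerSeries.X)
      * ∏ r ∈ range (m + 2), (1 + PowerSeries.C (a + r) * PowerSeries.X)⁻¹ := by
    rw [prod_range_succ' _ (m + 1), HH]
    have h1 : ∏ r ∈ range (m + 1), (1 + PowerSeries.C (a + 1 + (r : K)) * PowerSeries.X)⁻¹
        = ∏ r ∈ range (m + 1),
          (1 + PowerSeries.C (a + ((r + 1 : ℕ) : K)) * PowerSeries.X)⁻¹ := by
      refine prod_congr rfl fun r _ => ?_
      congr 4
      push_cast; ring
    rw [h1]
    have := hne a
    have h0 : a + ((0 : ℕ) : K) = a := by simp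
    rw [h0]
    calc _ = PowerSeries.C (m.factorial : K) * PowerSeries.X ^ (m + 1)
          * ((1 + PowerSeries.C a * PowerSeries.X) * (1 + PowerSeries.C a * PowerSeries.X)⁻¹)
          * ∏ r ∈ range (m + 1),
            (1 + PowerSeries.C (a + ((r + 1 : ℕ) : K)) * PowerSeries.X)⁻¹ := by
          rw [this, mul_one]
      _ = _ := by ring
  rw [e1, e2, HH, Nat.factorial_succ]
  have h3 : (PowerSeries.C (((m + 1) * m.factorial : ℕ) : K) : PowerSeries K)
      = PowerSeries.C ((m + 1 : ℕ) : K) * PowerSeries.C (m.factorial : K) := by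
    rw [← map_mul]; push_cast; rfl
  rw [h3]
  have h4 : (PowerSeries.C (a + ((m + 1 : ℕ) : K)) : PowerSeries K)
      = PowerSeries.C a + PowerSeries.C ((m + 1 : ℕ) : K) := map_add _ _ _
  rw [h4]
  ring

theorem Nice.HH {R : Subring K} {p : ℕ} (hp : p.Prime) (hR : PLoc R p) (m : ℕ) :
    ∀ a : K, Good R p a → Nice R p 2 (HH m a) := by
  induction m with
  | zero =>
    intro a ha
    rw [HH_zero]
    exact Nice.cauchy hp hR ha.neg
  | succ m ih =>
    intro a ha
    rw [HH_succ, sub_eq_add_neg]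
    refine (ih a ha).add ?_
    have h1 := ih (a + 1) (by have := ha.add_int 1; simpa using this)
    have := Nice.C_mul (R.neg_mem R.one_mem) h1
    simpa using this

theorem constCoeff_HH (m : ℕ) (a : K) : PowerSeries.constantCoeff (QS2SP.HH m a) = 0 := by
  simp [QS2SP.HH]

end QS2SP
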