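import Pool.Agent.QS2.Link
import Pool.Agent.QS2.SPInt

/-!
# QS2 (class rule): change of columns by degree, with `2 x 2` leading blocks

`det_pair_change`: rows are pairs of functionals `(L a, M a)` on `k[X] × k[X]`, columns are pairs of
polynomials; a family of pairs `(P t, Q t)`, `t : Fin c ⊕ Fin c`, of degree at most `D` at
`t = inl D, inr D`, is triangular with `2 x 2` blocks (the leading coefficients).

`fullM_cols`: the determinant of `fullM` against the determinant of the values on the columns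
without jets. `fullM_mem`: the `p`-integral version.
-/

set_option autoImplicit false

namespace QS2.Cls

open Finset Matrix Polynomial
open Pool.Agent.QS2 (pairMat det_basis_change det_row_scale detsq_submatrix apply_basis)

section change

variable {k : Type*} [Field k] {c : ℕ}

/-- transition matrix of the pairs `(P t, Q t)` to the basis `(X^i, 0)`, `(0, X^i)` -/
noncomputable def trM (P Q : Fin c ⊕ Fin c → k[X]) : Matrix (Fin c ⊕ Fin c) (Fin c ⊕ Fin c) k :=
  Matrix.of fun s t => match s with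
    | Sum.inl i => (P t).coeff i
    | Sum.inr i => (Q t).coeff i

/-- the degree of an index -/
def dgi : Fin c ⊕ Fin c → Fin c := Sum.elim id id

/-- the two indices of degree `a` -/
def twoEquiv (a : Fin c) : Fin 2 ≃ {t : Fin c ⊕ Fin c // dgi t = a} where
  toFun i := if i = 0 then ⟨Sum.inl a, rfl⟩ else ⟨Sum.inr a, rfl⟩
  invFun t := match t.1 with
    | Sum.inl _ => 0
    | Sum.inr _ => 1
  left_inv i := by fin_cases i <;> rfl
  right_inv t := by
    obtain ⟨t, ht⟩ := t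
    cases t with
    | inl b => simp only [dgi, Sum.elim_inl, id] at ht; subst ht; rfl
    | inr b => simp only [dgi, Sum.elim_inr, id] at ht; subst ht; rfl

/-- the leading `2 x 2` determinant of degree `D` -/
noncomputable def leadD (P Q : Fin c ⊕ Fin c → k[X]) (D : Fin c) : k :=
  (P (Sum.inl D)).coeff D * (Q (Sum.inr D)).coeff D -
    (P (Sum.inr D)).coeff D * (Q (Sum.inl D)).coeff D

theorem det_trM (P Q : Fin c ⊕ Fin c → k[X]) (hP : ∀ t, (P t).natDegree ≤ dgi t)
    (hQ : ∀ t, (Q t).natDegree ≤ dgi t) :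
    (trM P Q).det = ∏ D : Fin c, leadD P Q D := by
  have htri : (trM P Q).BlockTriangular dgi := by
    intro s t hst
    cases s with
    | inl i =>
      exact coeff_eq_zero_of_natDegree_lt (lt_of_le_of_lt (hP t) (by exact_mod_cast hst))
    | inr i =>
      exact coeff_eq_zero_of_natDegree_lt (lt_of_le_of_lt (hQ t) (by exact_mod_cast hst))
  rw [htri.det_fintype]
  refine prod_congr rfl (fun D _ => ?_)
  rw [← det_submatrix_equiv_self (twoEquiv D), det_fin_two]
  rfl

/-- **change of columns** -/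
theorem det_pair_change {n : Type*} [Fintype n] [DecidableEq n] (L M : n → k[X] →ₗ[k] k)
    (P Q : Fin c ⊕ Fin c → k[X]) (hP : ∀ t, (P t).natDegree ≤ dgi t)
    (hQ : ∀ t, (Q t).natDegree ≤ dgi t) (f : n ≃ Fin c ⊕ Fin c) :
    ((Matrix.of fun a t => L a (P t) + M a (Q t)).submatrix id f).det =
      (∏ D : Fin c, leadD P Q D) * ((pairMat L M (fun i => X ^ i) c).submatrix id f).det := by
  have h1 : (Matrix.of fun a t => L a (P t) + M a (Q t)) =
      pairMat L M (fun i => X ^ i) c * trM P Q := by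
    ext a t
    rw [Matrix.mul_apply, Fintype.sum_sum_type]
    simp only [Matrix.of_apply]
    rw [apply_basis (L a) (P t) (lt_of_le_of_lt (hP t) (dgi t).2),
      apply_basis (M a) (Q t) (lt_of_le_of_lt (hQ t) (dgi t).2)]
    rfl
  rw [h1, ← submatrix_mul_equiv (pairMat L M (fun i => X ^ i) c) (trM P Q) id f f, det_mul,
    det_submatrix_equiv_self, det_trM P Q hP hQ, mul_comm]

end change

section cols

variable {k : Type*} [Field k] {F : Type*} [Fintype F] [DecidableEq F] {r R0 : ℕ}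

/-- the columns without jets: `inl D`, `D < r`, and all `inr D` -/
def colIdx {r Nc : ℕ} (h : r ≤ Nc) : Fin r ⊕ Fin Nc → Fin Nc ⊕ Fin Nc :=
  Sum.map (Fin.castLE h) id

/-- values of the columns without jets at the nodes -/
noncomputable def valG {r Nc : ℕ} (h : r ≤ Nc) (z : F → ℤ) (u0 u1 : F → k)
    (P Q : Fin Nc ⊕ Fin Nc → k[X]) : Matrix F (Fin r ⊕ Fin Nc) k :=
  Matrix.of fun a t => (P (colIdx h t)).eval ((z a : ℤ) : k) * u0 a +
    (Q (colIdx h t)).eval ((z a : ℤ) : k) * u1 a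

/-- enumeration of the columns -/
def colEquiv (r R0 : ℕ) : (Fin r ⊕ Fin (r + R0)) ⊕ Fin R0 ≃ Fin (r + R0) ⊕ Fin (r + R0) :=
  (Equiv.sumAssoc _ _ _).trans (((Equiv.refl _).sumCongr (Equiv.sumComm _ _)).trans
    ((Equiv.sumAssoc _ _ _).symm.trans (finSumFinEquiv.sumCongr (Equiv.refl _))))

omit [Fintype F] [DecidableEq F] in
/-- `fullM` through functionals (see `fullM_sq`) -/
theorem fullM_eq (z : F → ℤ) (u0 u1 : F → k) (v : ℕ → k) (a : F ⊕ Fin R0)
    (t : Fin (r + R0) ⊕ Fin (r + R0)) :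
    fullM z u0 u1 v (r + R0) R0 a t =
      Sum.elim (fun _ => (1 : k)) (fun d : Fin R0 => ((r + d).factorial : k)) a *
        pairMat (fun a => rowL z u0 r R0 a) (fun a => rowM z u1 v r R0 a) (binP k) (r + R0) a t := by
  have hRR : r + R0 - R0 = r := by omega
  rcases a with q | d <;> rcases t with i | i
  · change (binP k i).eval ((z q : ℤ) : k) * u0 q = _
    simp only [Sum.elim_inl, one_mul]
    rfl
  · change (binP k i).eval ((z q : ℤ) : k) * u1 q = _
    simp only [Sum.elim_inl, one_mul]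
    rfl
  · change ((r + R0 - R0 + d).factorial : k) * (binP k i).coeff (r + R0 - R0 + d) = _
    simp only [Sum.elim_inr, hRR]
    rfl
  · change ((r + R0 - R0 + d).factorial : k) * (pp v (binP k i)).coeff (r + R0 - R0 + d) = _
    simp only [Sum.elim_inr, hRR]
    congr 1
    rw [pp_coeff_of_lt v _ _ (r + R0) (lt_of_le_of_lt (binP_natDegree i) i.2)]
    rfl

/-- **the determinant of `fullM` through the values of special columns** -/
theorem fullM_cols0 [CharZero k] {n m : Type*} [Fintype n] [DecidableEq n] [Fintype m]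
    [DecidableEq m] (z : F → ℤ) (u0 u1 : F → k) (v : ℕ → k)
    (P Q : Fin (r + R0) ⊕ Fin (r + R0) → k[X]) (hP : ∀ t, (P t).natDegree ≤ dgi t)
    (hQ : ∀ t, (Q t).natDegree ≤ dgi t)
    (h4P : ∀ d : Fin R0, P (Sum.inl (Fin.natAdd r d)) = X ^ (r + (d : ℕ)))
    (h4Q : ∀ d : Fin R0, Q (Sum.inl (Fin.natAdd r d)) = 0)
    (hj : ∀ t : Fin r ⊕ Fin (r + R0), ∀ d : Fin R0,
      (P (colIdx (Nat.le_add_right r R0) t)).coeff (r + d) +
        (pp v (Q (colIdx (Nat.le_add_right r R0) t))).coeff (r + d) = 0)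
    (e : n ≃ F ⊕ Fin R0) (f : n ≃ Fin (r + R0) ⊕ Fin (r + R0)) (g : m ≃ F)
    (g' : m ≃ Fin r ⊕ Fin (r + R0)) :
    (((fullM z u0 u1 v (r + R0) R0).submatrix e f).det *
        ((∏ i ∈ range (r + R0), (i.factorial : k)) ^ 2 * ∏ D, leadD P Q D)) ^ 2 =
      ((∏ d : Fin R0, ((r + d).factorial : k)) *
        ((valG (Nat.le_add_right r R0) z u0 u1 P Q).submatrix g g').det) ^ 2 := by
  set w : F ⊕ Fin R0 ≃ Fin (r + R0) ⊕ Fin (r + R0) := e.symm.trans f with hw
  have hs1 := detsq_submatrix (fullM z u0 u1 v (r + R0) R0) e f (Equiv.refl _) w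
  -- binomial basis
  have h2 := det_row_scale (pairMat (fun a => rowL z u0 r R0 a)
    (fun a => rowM z u1 v r R0 a) (binP k) (r + R0)) (fullM z u0 u1 v (r + R0) R0)
      (fun a => Sum.elim (fun _ => (1 : k)) (fun d : Fin R0 => ((r + d).factorial : k)) a) w
      (fun a t => fullM_eq z u0 u1 v a t)
  have h3 : ∏ a : F ⊕ Fin R0, Sum.elim (fun _ : F => (1 : k))
      (fun d : Fin R0 => ((r + d).factorial : k)) a = ∏ d : Fin R0, ((r + d).factorial : k) := by
    rw [Fintype.prod_sum_type]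
    simp
  have h4 := det_basis_change (fun a => rowL z u0 r R0 a) (fun a => rowM z u1 v r R0 a)
    (binP k) (fun i => ((i.factorial : k)⁻¹)) (fun i => binP_natDegree i) (fun i => binP_coeff i) w
  -- special columns
  have h5 := det_pair_change (fun a => rowL z u0 r R0 a) (fun a => rowM z u1 v r R0 a) P Q hP hQ w
  set N : Matrix (F ⊕ Fin R0) (Fin (r + R0) ⊕ Fin (r + R0)) k :=
    Matrix.of fun a t => rowL z u0 r R0 a (P t) + rowM z u1 v r R0 a (Q t) with hN
  -- block form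
  set V := valG (Nat.le_add_right r R0) z u0 u1 P Q with hV
  set ge : (Fin r ⊕ Fin (r + R0)) ⊕ Fin R0 ≃ F ⊕ Fin R0 :=
    (g'.symm.trans g).sumCongr (Equiv.refl _) with hge
  have h6 := detsq_submatrix N (Equiv.refl _) w ge (colEquiv r R0)
  have h7 : N.submatrix ge (colEquiv r R0) =
      fromBlocks (V.submatrix (g'.symm.trans g) id)
        (Matrix.of fun a (d : Fin R0) => N (Sum.inl (g (g'.symm a))) (Sum.inl (Fin.natAdd r d)))
        0 1 := by
    ext a t
    rcases a with a | d <;> rcases t with t | d'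
    · rcases t with D | D <;> rfl
    · rfl
    · change rowL z u0 r R0 (Sum.inr d) (P (colEquiv r R0 (Sum.inl t))) +
        rowM z u1 v r R0 (Sum.inr d) (Q (colEquiv r R0 (Sum.inl t))) = 0
      have ht : colEquiv r R0 (Sum.inl t) = colIdx (Nat.le_add_right r R0) t := by
        rcases t with D | D <;> rfl
      rw [ht]
      have := hj t d
      rw [pp_coeff_of_lt v _ _ (r + R0)
        (lt_of_le_of_lt (hQ _) (dgi (colIdx (Nat.le_add_right r R0) t)).2)] at this
      exact this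
    · change rowL z u0 r R0 (Sum.inr d) (P (Sum.inl (Fin.natAdd r d'))) +
        rowM z u1 v r R0 (Sum.inr d) (Q (Sum.inl (Fin.natAdd r d'))) = (1 : Matrix _ _ k) d d'
      rw [h4P, h4Q, map_zero, add_zero]
      change (X ^ (r + (d' : ℕ)) : k[X]).coeff (r + (d : ℕ)) = _
      rw [coeff_X_pow, Matrix.one_apply]
      by_cases h : d = d'
      · rw [if_pos (by rw [h]), if_pos h]
      · rw [if_neg (by intro h'; exact h (Fin.ext (by omega))), if_neg h]
  have h8 : (N.submatrix ge (colEquiv r R0)).det = (V.submatrix (g'.symm.trans g) id).det := by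
    rw [h7, det_fromBlocks_zero₂₁, det_one, mul_one]
  have h9 : (V.submatrix (g'.symm.trans g) id).det = (V.submatrix g g').det := by
    rw [← det_submatrix_equiv_self g' (V.submatrix (g'.symm.trans g) id)]
    congr 1
    ext a t
    simp
  have h10 : (N.submatrix id w).det ^ 2 = (V.submatrix g g').det ^ 2 := by
    rw [← h9, ← h8, ← h6]
    rfl
  have h11 : (∏ i ∈ range (r + R0), (i.factorial : k)) * ∏ i ∈ range (r + R0), (i.factorial : k)⁻¹
      = 1 := by
    rw [← prod_mul_distrib]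
    refine prod_eq_one (fun i _ => mul_inv_cancel₀ ?_)
    exact Nat.cast_ne_zero.mpr i.factorial_ne_zero
  rw [mul_pow, hs1]
  have h12 : ((fullM z u0 u1 v (r + R0) R0).submatrix (Equiv.refl _) w).det =
      ((fullM z u0 u1 v (r + R0) R0).submatrix id w).det := rfl
  rw [h12, h2, h3, h4]
  set A1 := ∏ i ∈ range (r + R0), (i.factorial : k) with hA1
  set A2 := ∏ i ∈ range (r + R0), (i.factorial : k)⁻¹ with hA2
  set B1 := ∏ d : Fin R0, ((r + d).factorial : k) with hB1
  set D1 := ((pairMat (fun a => rowL z u0 r R0 a) (fun a => rowM z u1 v r R0 a)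
    (fun i => X ^ i) (r + R0)).submatrix id w).det with hD1
  set G1 := ∏ D, leadD P Q D with hG1
  calc (B1 * (A2 ^ 2 * D1)) ^ 2 * (A1 ^ 2 * G1) ^ 2
      = (A1 * A2) ^ 4 * B1 ^ 2 * (G1 * D1) ^ 2 := by ring
    _ = B1 ^ 2 * (G1 * D1) ^ 2 := by rw [h11]; ring
    _ = (B1 * (V.submatrix g g').det) ^ 2 := by
        rw [← h5, h10]
        ring

/-- the same with `Nc = r + R0` -/
theorem fullM_cols [CharZero k] {n m : Type*} [Fintype n] [DecidableEq n] [Fintype m]
    [DecidableEq m] {Nc : ℕ} (hNc : Nc = r + R0) (hle : r ≤ Nc) (z : F → ℤ) (u0 u1 : F → k)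
    (v : ℕ → k) (P Q : Fin Nc ⊕ Fin Nc → k[X]) (hP : ∀ t, (P t).natDegree ≤ dgi t)
    (hQ : ∀ t, (Q t).natDegree ≤ dgi t)
    (h4 : ∀ D : Fin Nc, r ≤ (D : ℕ) → P (Sum.inl D) = X ^ (D : ℕ) ∧ Q (Sum.inl D) = 0)
    (hj : ∀ t : Fin r ⊕ Fin Nc, ∀ d : ℕ, r ≤ d → d < Nc →
      (P (colIdx hle t)).coeff d + (pp v (Q (colIdx hle t))).coeff d = 0)
    (e : n ≃ F ⊕ Fin R0) (f : n ≃ Fin Nc ⊕ Fin Nc) (g : m ≃ F) (g' : m ≃ Fin r ⊕ Fin Nc) :
    (((fullM z u0 u1 v Nc R0).submatrix e f).det *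
        ((∏ i ∈ range Nc, (i.factorial : k)) ^ 2 * ∏ D, leadD P Q D)) ^ 2 =
      ((∏ d : Fin R0, ((r + d).factorial : k)) *
        ((valG hle z u0 u1 P Q).submatrix g g').det) ^ 2 := by
  subst hNc
  exact fullM_cols0 z u0 u1 v P Q hP hQ (fun d => (h4 _ (by simp)).1) (fun d => (h4 _ (by simp)).2)
    (fun t d => hj t _ (by omega) (by omega)) e f g g'

/-- `p^(⌊i/p⌋) / i!` is `p`-integral for `i < p^2` -/
theorem fac_inv_mem [CharZero k] {O : Subring k} {p : ℕ} (hp : p.Prime) (hR : QS2SP.PLoc O p)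
    {i : ℕ} (hi : i < p ^ 2) : (p : k) ^ (i / p) * ((i.factorial : k))⁻¹ ∈ O := by
  refine QS2SP.PLoc.inv_mem hp hR i.factorial_ne_zero (le_of_eq ?_)
  rw [Nat.factorization_factorial hp (b := 2)]
  · simp
  · rcases Nat.eq_zero_or_pos i with h | h
    · subst h; simp
    · exact Nat.log_lt_of_lt_pow h.ne' hi

theorem prod_fac_inv_mem [CharZero k] {O : Subring k} {p : ℕ} (hp : p.Prime)
    (hR : QS2SP.PLoc O p) {c : ℕ} (hc : c ≤ p ^ 2) :
    (p : k) ^ (∑ i ∈ range c, i / p) * (∏ i ∈ range c, (i.factorial : k))⁻¹ ∈ O := by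
  have h : (p : k) ^ (∑ i ∈ range c, i / p) * (∏ i ∈ range c, (i.factorial : k))⁻¹ =
      ∏ i ∈ range c, ((p : k) ^ (i / p) * ((i.factorial : k))⁻¹) := by
    rw [prod_mul_distrib, prod_inv_distrib, prod_pow_eq_pow_sum]
  rw [h]
  exact O.prod_mem (fun i hi => fac_inv_mem hp hR (lt_of_lt_of_le (mem_range.mp hi) hc))

/-- **class rule, last step**: leading blocks `p^(-kd D) * unit`, `p^W * det (values) ∈ O`,
`∑_{i<Nc} ⌊i/p⌋ + ∑_{i<r} ⌊i/p⌋ ≤ E + ∑ kd` imply `p^(W+E) * det fullM ∈ O` -/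
theorem fullM_mem [CharZero k] {n m : Type*} [Fintype n] [DecidableEq n] [Fintype m]
    [DecidableEq m] {O : Subring k} {p : ℕ} (hp : p.Prime) (hR : QS2SP.PLoc O p)
    {Nc : ℕ} (hNc : Nc = r + R0) (hle : r ≤ Nc) (hc : Nc ≤ p ^ 2) (z : F → ℤ) (u0 u1 : F → k)
    (v : ℕ → k) (P Q : Fin Nc ⊕ Fin Nc → k[X]) (hP : ∀ t, (P t).natDegree ≤ dgi t)
    (hQ : ∀ t, (Q t).natDegree ≤ dgi t)
    (h4 : ∀ D : Fin Nc, r ≤ (D : ℕ) → P (Sum.inl D) = X ^ (D : ℕ) ∧ Q (Sum.inl D) = 0)
    (hj : ∀ t : Fin r ⊕ Fin Nc, ∀ d : ℕ, r ≤ d → d < Nc →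
      (P (colIdx hle t)).coeff d + (pp v (Q (colIdx hle t))).coeff d = 0)
    (kd : Fin Nc → ℕ) (hl : ∀ D, ∃ s : k, s ≠ 0 ∧ s⁻¹ ∈ O ∧ (p : k) ^ kd D * leadD P Q D = s)
    (e : n ≃ F ⊕ Fin R0) (f : n ≃ Fin Nc ⊕ Fin Nc) (g : m ≃ F) (g' : m ≃ Fin r ⊕ Fin Nc)
    (W E : ℕ) (hdet : (p : k) ^ W * ((valG hle z u0 u1 P Q).submatrix g g').det ∈ O)
    (hE : ∑ i ∈ range Nc, i / p + ∑ i ∈ range r, i / p ≤ E + ∑ D, kd D) :
    (p : k) ^ (W + E) * ((fullM z u0 u1 v Nc R0).submatrix e f).det ∈ O := by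
  have hsq := fullM_cols hNc hle z u0 u1 v P Q hP hQ h4 hj e f g g'
  choose s hs0 hs1 hs2 using hl
  have hp0 : (p : k) ≠ 0 := Nat.cast_ne_zero.mpr hp.ne_zero
  set x := ((fullM z u0 u1 v Nc R0).submatrix e f).det with hx
  set dW := ((valG hle z u0 u1 P Q).submatrix g g').det with hdW
  set A1 := ∏ i ∈ range Nc, (i.factorial : k) with hA1
  set B1 := ∏ d : Fin R0, ((r + d).factorial : k) with hB1
  set A0 := ∏ i ∈ range r, (i.factorial : k) with hA0
  set G1 := ∏ D, leadD P Q D with hG1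
  set S1 := ∏ D, s D with hS1
  have hA1ne : A1 ≠ 0 := prod_ne_zero_iff.mpr
    (fun i _ => Nat.cast_ne_zero.mpr i.factorial_ne_zero)
  have hGS : (p : k) ^ (∑ D, kd D) * G1 = S1 := by
    rw [hG1, hS1, ← prod_pow_eq_pow_sum, ← prod_mul_distrib]
    exact prod_congr rfl (fun D _ => hs2 D)
  have hS1ne : S1 ≠ 0 := prod_ne_zero_iff.mpr (fun D _ => hs0 D)
  have hG1ne : G1 ≠ 0 := by
    intro h
    rw [h, mul_zero] at hGS
    exact hS1ne hGS.symm
  have hS1m : S1⁻¹ ∈ O := by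
    rw [hS1, ← prod_inv_distrib]
    exact O.prod_mem (fun D _ => hs1 D)
  have hG1inv : G1⁻¹ = (p : k) ^ (∑ D, kd D) * S1⁻¹ := by
    rw [← hGS]
    field_simp
  have hAB : A1 = A0 * B1 := by
    rw [hA1, hA0, hB1, hNc, prod_range_add, Fin.prod_univ_eq_prod_range
      (fun d => ((r + d).factorial : k)) R0]
  have hpm : ∀ j : ℕ, (p : k) ^ j ∈ O := fun j => O.pow_mem (natCast_mem O p) j
  have m1 := prod_fac_inv_mem (k := k) hp hR hc
  have m0 := prod_fac_inv_mem (k := k) hp hR (le_trans hle hc)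
  rw [← hA1] at m1
  rw [← hA0] at m0
  set s1 := ∑ i ∈ range Nc, i / p with hs1'
  set s0 := ∑ i ∈ range r, i / p with hs0'
  -- the value up to sign
  have key : x = B1 * dW / (A1 ^ 2 * G1) ∨ x = - (B1 * dW / (A1 ^ 2 * G1)) := by
    have hne : A1 ^ 2 * G1 ≠ 0 := mul_ne_zero (pow_ne_zero 2 hA1ne) hG1ne
    rcases sq_eq_sq_iff_eq_or_eq_neg.mp hsq with h | h
    · left
      rw [eq_div_iff hne]
      exact h
    · right
      rw [← neg_div, eq_div_iff hne]
      exact h
  have main : (p : k) ^ (W + E) * (B1 * dW / (A1 ^ 2 * G1)) ∈ O := by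
    have h1 : (p : k) ^ (W + E) * (B1 * dW / (A1 ^ 2 * G1)) =
        (p : k) ^ (E + ∑ D, kd D - (s1 + s0)) *
          ((p : k) ^ s1 * A1⁻¹) * ((p : k) ^ s0 * A0⁻¹) * S1⁻¹ * ((p : k) ^ W * dW) := by
      have h2 : (p : k) ^ (W + E) * (p : k) ^ (∑ D, kd D) =
          (p : k) ^ (E + ∑ D, kd D - (s1 + s0)) * (p : k) ^ s1 * (p : k) ^ s0 * (p : k) ^ W := by
        rw [← pow_add, ← pow_add, ← pow_add, ← pow_add]
        congr 1
        omega
      have h3 : B1 / A1 = A0⁻¹ := by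
        have hB1ne : B1 ≠ 0 := by
          intro h
          rw [h, mul_zero] at hAB
          exact hA1ne hAB
        have hA0ne : A0 ≠ 0 := by
          intro h
          rw [h, zero_mul] at hAB
          exact hA1ne hAB
        rw [hAB]
        field_simp
      calc (p : k) ^ (W + E) * (B1 * dW / (A1 ^ 2 * G1))
          = (p : k) ^ (W + E) * (B1 / A1) * A1⁻¹ * G1⁻¹ * dW := by
            field_simp
        _ = ((p : k) ^ (W + E) * (p : k) ^ (∑ D, kd D)) * (B1 / A1) * A1⁻¹ * S1⁻¹ * dW := by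
            rw [hG1inv]
            ring
        _ = _ := by
            rw [h2, h3]
            ring
    rw [h1]
    exact O.mul_mem (O.mul_mem (O.mul_mem (O.mul_mem (hpm _) m1) m0) hS1m) hdet
  rcases key with h | h
  · rw [h]; exact main
  · rw [h, mul_neg]; exact O.neg_mem main

end cols

end QS2.Cls
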