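import Pool.Agent.QS2.ClsRh

/-!
# Blocks of `p` consecutive linear factors

`rise a m = (X+a)(X+a+1)⋯(X+a+m-1)`, `HL a m = (1/2)_m / (w+a)_m` as a Laurent series in `1/w`.
With `p = 2h+1` the product `rise a h * HL a m` is a polynomial with coefficients in `R` for
`m ≤ h`, and for `m > h` it is such a polynomial times a product of factors
`p / rise (a+h+p i) p`; every block `rise (n + p s) p` is `X(X-1)⋯(X-p+1) + p z`.
-/

set_option autoImplicit false

namespace QS2.Cls

open Polynomial Finset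
open QS2.NV (phi phi_C phi_X phi_injective phi_order phi_coeff ser ser_order)

variable {F : Type*} [Field F]

/-- `(1/2)_m` -/
noncomputable def halfP (F : Type*) [Field F] (m : ℕ) : F := ∏ i ∈ range m, ((1 : F) / 2 + i)

/-- `(X+a)(X+a+1)⋯(X+a+m-1)` -/
noncomputable def rise (a : F) (m : ℕ) : F[X] := ∏ i ∈ range m, (X + C (a + (i : F)))

/-- `(1/2)_m / (w+a)_m` -/
noncomputable def HL (a : F) (m : ℕ) : LaurentSeries F :=
  HahnSeries.C (halfP F m) * (phi F (rise a m))⁻¹

/-! ## Elementary facts on `rise` -/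

theorem rise_zero (a : F) : rise a 0 = 1 := by simp [rise]

theorem rise_succ (a : F) (m : ℕ) : rise a (m + 1) = rise a m * (X + C (a + (m : F))) := by
  simp [rise, prod_range_succ]

theorem rise_one (a : F) : rise a 1 = X + C a := by simp [rise]

theorem rise_add (a : F) (m n : ℕ) : rise a (m + n) = rise a m * rise (a + (m : F)) n := by
  unfold rise
  rw [prod_range_add]
  congr 1
  refine prod_congr rfl fun i _ => ?_
  congr 2
  push_cast
  ring

theorem rise_succ' (a : F) (m : ℕ) : rise a (m + 1) = (X + C a) * rise (a + 1) m := by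
  rw [add_comm m 1, rise_add, rise_one]
  simp

theorem rise_monic (a : F) (m : ℕ) : (rise a m).Monic := by
  unfold rise
  exact monic_prod_of_monic _ _ fun i _ => monic_X_add_C _

theorem rise_ne (a : F) (m : ℕ) : rise a m ≠ 0 := (rise_monic a m).ne_zero

theorem rise_natDegree (a : F) (m : ℕ) : (rise a m).natDegree = m := by
  induction m with
  | zero => simp [rise_zero]
  | succ m ih =>
    rw [rise_succ, (rise_monic a m).natDegree_mul (monic_X_add_C _), ih, natDegree_X_add_C]

theorem rise_degree (a : F) (m : ℕ) : (rise a m).degree = (m : ℕ) := by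
  rw [degree_eq_natDegree (rise_ne a m), rise_natDegree]

theorem phi_rise_ne (a : F) (m : ℕ) : phi F (rise a m) ≠ 0 := by
  intro h
  exact rise_ne a m (phi_injective (by rw [h, map_zero]))

theorem rise_prod (a : F) (p q : ℕ) :
    rise a (p * q) = ∏ i ∈ range q, rise (a + (p : F) * (i : F)) p := by
  induction q with
  | zero => simp [rise_zero]
  | succ q ih =>
    rw [Nat.mul_succ, rise_add, ih, prod_range_succ]
    push_cast
    rfl

/-! ## Coefficients -/

theorem coeff_C_mem {R : Subring F} {r : F} (hr : r ∈ R) : ∀ i, (C r : F[X]).coeff i ∈ R := by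
  intro i
  rw [coeff_C]
  split_ifs
  · exact hr
  · exact R.zero_mem

theorem coeff_X_mem (R : Subring F) : ∀ i, (X : F[X]).coeff i ∈ R := by
  intro i
  rw [coeff_X]
  split_ifs
  · exact R.one_mem
  · exact R.zero_mem

theorem coeff_one_mem (R : Subring F) : ∀ i, (1 : F[X]).coeff i ∈ R := by
  intro i
  rw [coeff_one]
  split_ifs
  · exact R.one_mem
  · exact R.zero_mem

theorem coeff_add_mem {R : Subring F} {P Q : F[X]} (hP : ∀ i, P.coeff i ∈ R)
    (hQ : ∀ i, Q.coeff i ∈ R) : ∀ i, (P + Q).coeff i ∈ R := by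
  intro i
  rw [coeff_add]
  exact R.add_mem (hP i) (hQ i)

theorem coeff_sub_mem {R : Subring F} {P Q : F[X]} (hP : ∀ i, P.coeff i ∈ R)
    (hQ : ∀ i, Q.coeff i ∈ R) : ∀ i, (P - Q).coeff i ∈ R := by
  intro i
  rw [coeff_sub]
  exact R.sub_mem (hP i) (hQ i)

theorem coeff_mul_mem {R : Subring F} {P Q : F[X]} (hP : ∀ i, P.coeff i ∈ R)
    (hQ : ∀ i, Q.coeff i ∈ R) : ∀ i, (P * Q).coeff i ∈ R := by
  intro i
  rw [coeff_mul]
  exact R.sum_mem fun x _ => R.mul_mem (hP _) (hQ _)

theorem rise_coeff_mem {R : Subring F} {a : F} (ha : a ∈ R) (m : ℕ) :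
    ∀ i, (rise a m).coeff i ∈ R := by
  induction m with
  | zero => rw [rise_zero]; exact coeff_one_mem R
  | succ m ih =>
    rw [rise_succ]
    exact coeff_mul_mem ih (coeff_add_mem (coeff_X_mem R)
      (coeff_C_mem (R.add_mem ha (natCast_mem R m))))

/-! ## Blocks -/

/-- `X(X-1)⋯(X-m+1)` shifted by `p s` -/
theorem fall_shift (R : Subring F) (p : ℕ) {s : F} (hs : s ∈ R) (m : ℕ) :
    ∃ z : F[X], (∀ i, z.coeff i ∈ R) ∧ z.degree < (m : ℕ) ∧
      ∏ i ∈ range m, (X - C (i : F) + C ((p : F) * s)) =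
        descPochhammer F m + C (p : F) * z := by
  induction m with
  | zero => exact ⟨0, by simp [R.zero_mem], by simp, by simp⟩
  | succ m ih =>
    obtain ⟨z, hz, hd, e⟩ := ih
    have hD : ∀ i, (descPochhammer F m).coeff i ∈ R := by
      intro i
      rw [← descPochhammer_map (Int.castRingHom F) m, coeff_map]
      exact intCast_mem R _
    refine ⟨z * (X - C (m : F) + C ((p : F) * s)) + C s * descPochhammer F m, ?_, ?_, ?_⟩
    · exact coeff_add_mem (coeff_mul_mem hz (coeff_add_mem (coeff_sub_mem (coeff_X_mem R)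
        (coeff_C_mem (natCast_mem R m))) (coeff_C_mem (R.mul_mem (natCast_mem R p) hs))))
        (coeff_mul_mem (coeff_C_mem hs) hD)
    · have h1 : (z * (X - C (m : F) + C ((p : F) * s))).degree < ((m + 1 : ℕ) : WithBot ℕ) := by
        rcases eq_or_ne z 0 with h0 | h0
        · rw [h0, zero_mul, degree_zero]
          exact WithBot.bot_lt_coe _
        · have e1 : (X - C (m : F) + C ((p : F) * s)) = X - C ((m : F) - (p : F) * s) := by
            rw [C_sub]; ring
          rw [e1, degree_mul, degree_X_sub_C]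
          rw [degree_eq_natDegree h0] at hd ⊢
          have : z.natDegree < m := by exact_mod_cast hd
          exact_mod_cast (by omega : z.natDegree + 1 < m + 1)
      have h2 : (C s * descPochhammer F m).degree < ((m + 1 : ℕ) : WithBot ℕ) := by
        refine lt_of_le_of_lt (degree_le_of_natDegree_le (n := m) ?_) ?_
        · refine (natDegree_C_mul_le _ _).trans ?_
          rw [descPochhammer_natDegree]
        · exact_mod_cast Nat.lt_succ_self m
      exact lt_of_le_of_lt (degree_add_le _ _) (max_lt h1 h2)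
    · rw [prod_range_succ, e, descPochhammer_succ_right, C_mul]
      have e2 : (C (m : F) : F[X]) = (m : F[X]) := by simp
      rw [e2]
      ring

theorem rise_fall (s : F) (p : ℕ) :
    rise (s + 1 - (p : F)) p = ∏ i ∈ range p, (X - C (i : F) + C s) := by
  unfold rise
  rw [← prod_range_reflect]
  refine prod_congr rfl fun i hi => ?_
  have hi' : i < p := mem_range.1 hi
  have e : ((p - 1 - i : ℕ) : F) = (p : F) - 1 - (i : F) := by
    have h1 : (p - 1 - i) + (i + 1) = p := by omega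
    have h2 : ((p - 1 - i : ℕ) : F) + ((i : F) + 1) = (p : F) := by
      exact_mod_cast congrArg (Nat.cast (R := F)) h1
    linear_combination h2
  have e3 : s + 1 - (p : F) + ((p : F) - 1 - (i : F)) = s - (i : F) := by ring
  rw [e, e3, C_sub]
  ring

/-- **Block lemma.** A block of `p` consecutive factors starting at `n + p s`, `n` an integer, is
`X(X-1)⋯(X-p+1)` plus `p` times a polynomial of lower degree with coefficients in `R`. -/
theorem rise_block (R : Subring F) {p : ℕ} (hp : 0 < p) {s : F} (hs : s ∈ R) (n : ℤ) :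
    ∃ z : F[X], (∀ i, z.coeff i ∈ R) ∧ z.degree < (p : ℕ) ∧
      rise ((n : F) + (p : F) * s) p = descPochhammer F p + C (p : F) * z := by
  obtain ⟨q, rfl⟩ : ∃ q, p = q + 1 := ⟨p - 1, by omega⟩
  have hmem : ∀ k : ℤ, (k : F) + ((q + 1 : ℕ) : F) * s ∈ R := fun k =>
    R.add_mem (intCast_mem R k) (R.mul_mem (natCast_mem R _) hs)
  -- one step
  have step : ∀ b : F, rise (b + 1) (q + 1) =
      rise b (q + 1) + C ((q + 1 : ℕ) : F) * rise (b + 1) q := by
    intro b
    rw [rise_succ, rise_succ']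
    have e : (C (b + 1 + (q : F)) : F[X]) = C b + C ((q + 1 : ℕ) : F) := by
      rw [← C_add]
      congr 1
      push_cast
      ring
    rw [e]
    ring
  have hdeg : ∀ b : F, (rise b q).degree < ((q + 1 : ℕ) : WithBot ℕ) := by
    intro b
    rw [rise_degree]
    exact_mod_cast Nat.lt_succ_self q
  -- the statement at `n` and at `n + 1` are equivalent
  have up : ∀ b : F, b + 1 ∈ R → (∃ z : F[X], (∀ i, z.coeff i ∈ R) ∧
      z.degree < ((q + 1 : ℕ) : WithBot ℕ) ∧
      rise b (q + 1) = descPochhammer F (q + 1) + C ((q + 1 : ℕ) : F) * z) →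
      (∃ z : F[X], (∀ i, z.coeff i ∈ R) ∧ z.degree < ((q + 1 : ℕ) : WithBot ℕ) ∧
      rise (b + 1) (q + 1) = descPochhammer F (q + 1) + C ((q + 1 : ℕ) : F) * z) := by
    rintro b hb ⟨z, hz, hd, e⟩
    refine ⟨z + rise (b + 1) q, coeff_add_mem hz (rise_coeff_mem hb q),
      lt_of_le_of_lt (degree_add_le _ _) (max_lt hd (hdeg _)), ?_⟩
    rw [step, e]
    ring
  have down : ∀ b : F, b + 1 ∈ R → (∃ z : F[X], (∀ i, z.coeff i ∈ R) ∧
      z.degree < ((q + 1 : ℕ) : WithBot ℕ) ∧
      rise (b + 1) (q + 1) = descPochhammer F (q + 1) + C ((q + 1 : ℕ) : F) * z) →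
      (∃ z : F[X], (∀ i, z.coeff i ∈ R) ∧ z.degree < ((q + 1 : ℕ) : WithBot ℕ) ∧
      rise b (q + 1) = descPochhammer F (q + 1) + C ((q + 1 : ℕ) : F) * z) := by
    rintro b hb ⟨z, hz, hd, e⟩
    refine ⟨z - rise (b + 1) q, coeff_sub_mem hz (rise_coeff_mem hb q),
      lt_of_le_of_lt (degree_sub_le _ _) (max_lt hd (hdeg _)), ?_⟩
    have h1 := step b
    rw [e] at h1
    linear_combination -h1
  -- the base point
  have base : ∃ z : F[X], (∀ i, z.coeff i ∈ R) ∧ z.degree < ((q + 1 : ℕ) : WithBot ℕ) ∧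
      rise (((1 - ((q + 1 : ℕ) : ℤ) : ℤ) : F) + ((q + 1 : ℕ) : F) * s) (q + 1) =
        descPochhammer F (q + 1) + C ((q + 1 : ℕ) : F) * z := by
    obtain ⟨z, hz, hd, e⟩ := fall_shift R (q + 1) hs (q + 1)
    refine ⟨z, hz, hd, ?_⟩
    rw [← e, ← rise_fall]
    congr 1
    push_cast
    ring
  -- induction over the integers
  have key : ∀ k : ℤ, ∃ z : F[X], (∀ i, z.coeff i ∈ R) ∧
      z.degree < ((q + 1 : ℕ) : WithBot ℕ) ∧
      rise (((1 - ((q + 1 : ℕ) : ℤ) + k : ℤ) : F) + ((q + 1 : ℕ) : F) * s) (q + 1) =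
        descPochhammer F (q + 1) + C ((q + 1 : ℕ) : F) * z := by
    intro k
    induction k using Int.induction_on with
    | zero => simpa using base
    | succ k ih =>
      have e : (((1 - ((q + 1 : ℕ) : ℤ) + ((k : ℤ) + 1) : ℤ) : F) + ((q + 1 : ℕ) : F) * s) =
          (((1 - ((q + 1 : ℕ) : ℤ) + (k : ℤ) : ℤ) : F) + ((q + 1 : ℕ) : F) * s) + 1 := by
        push_cast
        ring
      rw [e]
      refine up _ ?_ ih
      rw [← e]
      exact hmem _
    | pred k ih =>
      refine down _ ?_ ?_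
      · have e : (((1 - ((q + 1 : ℕ) : ℤ) + (-(k : ℤ) - 1) : ℤ) : F) +
            ((q + 1 : ℕ) : F) * s) + 1 =
            (((1 - ((q + 1 : ℕ) : ℤ) + (-(k : ℤ)) : ℤ) : F) + ((q + 1 : ℕ) : F) * s) := by
          push_cast
          ring
        rw [e]
        exact hmem _
      · have e : (((1 - ((q + 1 : ℕ) : ℤ) + (-(k : ℤ) - 1) : ℤ) : F) +
            ((q + 1 : ℕ) : F) * s) + 1 =
            (((1 - ((q + 1 : ℕ) : ℤ) + (-(k : ℤ)) : ℤ) : F) + ((q + 1 : ℕ) : F) * s) := by
          push_cast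
          ring
        rw [e]
        exact ih
  have h := key (n - (1 - ((q + 1 : ℕ) : ℤ)))
  have e : (1 - ((q + 1 : ℕ) : ℤ) + (n - (1 - ((q + 1 : ℕ) : ℤ)))) = n := by ring
  rw [e] at h
  exact h

/-! ## The `p`-adic size of `(1/2)_m` -/

theorem pow_dvd_odd (h : ℕ) : ∀ q m : ℕ, h + (2 * h + 1) * q < m + (2 * h + 1) →
    (2 * h + 1) ^ q ∣ ∏ i ∈ range m, (2 * i + 1) := by
  intro q
  induction q with
  | zero => intro m _; simp
  | succ q ih =>
    intro m hm
    have h1 : h + (2 * h + 1) * q < m := by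
      have : (2 * h + 1) * (q + 1) = (2 * h + 1) * q + (2 * h + 1) := by ring
      omega
    have h2 : (2 * h + 1) ^ q ∣ ∏ i ∈ range (h + (2 * h + 1) * q), (2 * i + 1) :=
      ih _ (by omega)
    have h3 : (2 * h + 1) ^ (q + 1) ∣
        ∏ i ∈ range (h + (2 * h + 1) * q + 1), (2 * i + 1) := by
      rw [prod_range_succ, pow_succ]
      refine mul_dvd_mul h2 ⟨2 * q + 1, by ring⟩
    exact h3.trans (prod_dvd_prod_of_subset _ _ _
      (range_subset_range.2 (by omega)))

theorem halfP_cast [CharZero F] (m : ℕ) :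
    halfP F m = ((1 : F) / 2) ^ m * ((∏ i ∈ range m, (2 * i + 1) : ℕ) : F) := by
  unfold halfP
  rw [Nat.cast_prod, ← card_range m, ← prod_const, card_range, ← prod_mul_distrib]
  refine prod_congr rfl fun i _ => ?_
  push_cast
  ring

theorem halfP_mem [CharZero F] {R : Subring F} (h2 : (1 : F) / 2 ∈ R) (m : ℕ) :
    halfP F m ∈ R := by
  rw [halfP_cast]
  exact R.mul_mem (R.pow_mem h2 _) (natCast_mem R _)

/-- `(1/2)_m` is divisible by `p ^ q`, `q = ⌈(m-h)/p⌉`, `p = 2h+1` -/
theorem halfP_eq [CharZero F] {R : Subring F} (h2 : (1 : F) / 2 ∈ R) {h q m : ℕ}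
    (hq : h + (2 * h + 1) * q < m + (2 * h + 1)) :
    ∃ c ∈ R, halfP F m = c * ((2 * h + 1 : ℕ) : F) ^ q := by
  obtain ⟨k, hk⟩ := pow_dvd_odd h q m hq
  refine ⟨((1 : F) / 2) ^ m * (k : F), R.mul_mem (R.pow_mem h2 _) (natCast_mem R _), ?_⟩
  rw [halfP_cast, hk]
  push_cast
  ring

theorem halfP_ne [CharZero F] (m : ℕ) : halfP F m ≠ 0 := by
  rw [halfP_cast]
  refine mul_ne_zero (pow_ne_zero _ (by norm_num)) ?_
  rw [Nat.cast_ne_zero]
  exact prod_ne_zero_iff.2 fun i _ => by omega

/-! ## The terms -/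

/-- small `m` -/
theorem block_le [CharZero F] {R : Subring F} (h2 : (1 : F) / 2 ∈ R) {a : F} (ha : a ∈ R)
    {h m : ℕ} (hm : m ≤ h) :
    ∃ g : F[X], (∀ i, g.coeff i ∈ R) ∧ g.natDegree ≤ h - m ∧
      phi F (rise a h) * HL a m = phi F g := by
  refine ⟨C (halfP F m) * rise (a + (m : F)) (h - m), ?_, ?_, ?_⟩
  · exact coeff_mul_mem (coeff_C_mem (halfP_mem h2 m))
      (rise_coeff_mem (R.add_mem ha (natCast_mem R m)) _)
  · refine (natDegree_C_mul_le _ _).trans ?_
    rw [rise_natDegree]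
  · have e : rise a h = rise a m * rise (a + (m : F)) (h - m) := by
      rw [← rise_add]
      congr 1
      omega
    have hne := phi_rise_ne a m
    unfold HL
    rw [e, map_mul, map_mul, phi_C]
    field_simp

/-- large `m` -/
theorem block_gt [CharZero F] {R : Subring F} (h2 : (1 : F) / 2 ∈ R) {a : F} (ha : a ∈ R)
    {h m q : ℕ} (hq1 : m ≤ h + (2 * h + 1) * q)
    (hq2 : h + (2 * h + 1) * q < m + (2 * h + 1)) :
    ∃ c ∈ R, ∃ g : F[X], (∀ i, g.coeff i ∈ R) ∧ g.natDegree ≤ h + (2 * h + 1) * q - m ∧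
      phi F (rise a h) * HL a m = HahnSeries.C c * phi F g *
        ∏ i ∈ range q, (HahnSeries.C (((2 * h + 1 : ℕ) : F)) *
          (phi F (rise (a + (h : F) + ((2 * h + 1 : ℕ) : F) * (i : F)) (2 * h + 1)))⁻¹) := by
  obtain ⟨c, hc, e⟩ := halfP_eq (R := R) h2 hq2
  refine ⟨c, hc, rise (a + (m : F)) (h + (2 * h + 1) * q - m),
    rise_coeff_mem (R.add_mem ha (natCast_mem R m)) _, by rw [rise_natDegree], ?_⟩
  have e1 : rise a (h + (2 * h + 1) * q) =
      rise a h * ∏ i ∈ range q,
        rise (a + (h : F) + ((2 * h + 1 : ℕ) : F) * (i : F)) (2 * h + 1) := by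
    rw [rise_add, rise_prod]
  have e2 : rise a (h + (2 * h + 1) * q) =
      rise a m * rise (a + (m : F)) (h + (2 * h + 1) * q - m) := by
    rw [← rise_add]
    congr 1
    omega
  have e3 : phi F (rise a m) * phi F (rise (a + (m : F)) (h + (2 * h + 1) * q - m)) =
      phi F (rise a h) * ∏ i ∈ range q,
        phi F (rise (a + (h : F) + ((2 * h + 1 : ℕ) : F) * (i : F)) (2 * h + 1)) := by
    rw [← map_mul, ← e2, e1, map_mul, map_prod]
  have hne1 := phi_rise_ne a m
  have hne2 : ∏ i ∈ range q,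
      phi F (rise (a + (h : F) + ((2 * h + 1 : ℕ) : F) * (i : F)) (2 * h + 1)) ≠ 0 :=
    prod_ne_zero_iff.2 fun i _ => phi_rise_ne _ _
  rw [prod_mul_distrib, prod_const, card_range, prod_inv_distrib, HL, e, map_mul, map_pow]
  field_simp
  linear_combination
    (-(HahnSeries.C c : LaurentSeries F) * HahnSeries.C (((2 * h + 1 : ℕ) : F)) ^ q) * e3

/-! ## Inverses of linear factors -/

/-- `1 / (w + b)` as a power series in `X = 1 / w` -/
noncomputable def linInv (b : F) : PowerSeries F :=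
  PowerSeries.X * PowerSeries.mk fun k => (-b) ^ k

theorem linInv_mul (b : F) : (1 + PowerSeries.C b * PowerSeries.X) * linInv b = PowerSeries.X := by
  unfold linInv
  rw [mul_left_comm]
  have e : (1 + PowerSeries.C b * PowerSeries.X : PowerSeries F) *
      PowerSeries.mk (fun k => (-b) ^ k) = 1 := by
    ext n
    rw [add_mul, one_mul, map_add, mul_assoc, PowerSeries.coeff_C_mul]
    cases n with
    | zero => simp
    | succ n =>
      rw [PowerSeries.coeff_succ_X_mul, PowerSeries.coeff_mk, PowerSeries.coeff_mk,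
        PowerSeries.coeff_one, if_neg (by omega)]
      ring
  rw [e, mul_one]

theorem phi_lin (b : F) : phi F (X + C b) =
    HahnSeries.single (-1) (1 : F) * ser (1 + PowerSeries.C b * PowerSeries.X) := by
  have e : ser (1 + PowerSeries.C b * PowerSeries.X) =
      1 + HahnSeries.C b * HahnSeries.single (1 : ℤ) (1 : F) := by
    rw [ser, map_add, map_mul, map_one, HahnSeries.ofPowerSeries_C, HahnSeries.ofPowerSeries_X]
  rw [e, map_add, phi_X, phi_C, mul_add, mul_one, mul_left_comm, NV.single_three, mul_one]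

theorem phi_lin_inv (b : F) : (phi F (X + C b))⁻¹ = ser (linInv b) := by
  have h : phi F (X + C b) * ser (linInv b) = 1 := by
    rw [phi_lin, mul_assoc, ← map_mul, linInv_mul, HahnSeries.ofPowerSeries_X, NV.single_three]
  exact inv_eq_of_mul_eq_one_right h

theorem phi_lin_inv_mem {R : Subring F} {b : F} (hb : b ∈ R) : (phi F (X + C b))⁻¹ ∈ RI R := by
  rw [phi_lin_inv]
  refine ser_mem_RI fun n => ?_
  unfold linInv
  cases n with
  | zero => simp [R.zero_mem]
  | succ n =>
    rw [PowerSeries.coeff_succ_X_mul, PowerSeries.coeff_mk]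
    exact R.pow_mem (R.neg_mem hb) _

theorem phi_rise_inv (a : F) (m : ℕ) :
    (phi F (rise a m))⁻¹ = ∏ i ∈ range m, (phi F (X + C (a + (i : F))))⁻¹ := by
  unfold rise
  rw [map_prod, prod_inv_distrib]

theorem phi_rise_inv_mem {R : Subring F} {a : F} (ha : a ∈ R) (m : ℕ) :
    (phi F (rise a m))⁻¹ ∈ RI R := by
  rw [phi_rise_inv]
  exact Subring.prod_mem _ fun i _ => phi_lin_inv_mem (R.add_mem ha (natCast_mem R i))

/-- the order of `1 / (w + a)_m` -/
theorem phi_rise_inv_order (a : F) (m : ℕ) :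
    (((m : ℕ) : ℤ) : WithTop ℤ) ≤ ((phi F (rise a m))⁻¹).orderTop := by
  induction m with
  | zero =>
    rw [rise_zero, map_one, inv_one]
    have := ser_order (1 : PowerSeries F)
    rw [ser, map_one] at this
    exact_mod_cast this
  | succ m ih =>
    rw [rise_succ, map_mul, mul_inv, phi_lin_inv]
    have h1 : ((1 : ℤ) : WithTop ℤ) ≤ (ser (linInv (a + (m : F)))).orderTop := by
      unfold linInv
      rw [ser, map_mul, HahnSeries.ofPowerSeries_X]
      have h2 : ((1 : ℤ) : WithTop ℤ) ≤ (HahnSeries.single (1 : ℤ) (1 : F)).orderTop := by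
        rw [HahnSeries.orderTop_single one_ne_zero]
      have h3 := NV.le_mul h2 (ser_order (PowerSeries.mk fun k => (-(a + (m : F))) ^ k))
      rwa [← WithTop.coe_add, add_zero] at h3
    have h4 := NV.le_mul ih h1
    rw [← WithTop.coe_add] at h4
    exact_mod_cast h4

theorem HL_order (a : F) (m : ℕ) : (((m : ℕ) : ℤ) : WithTop ℤ) ≤ (HL a m).orderTop := by
  unfold HL
  have h1 : ((0 : ℤ) : WithTop ℤ) ≤ (HahnSeries.C (halfP F m) : LaurentSeries F).orderTop := by
    have := ser_order (PowerSeries.C (halfP F m))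
    rwa [ser, HahnSeries.ofPowerSeries_C] at this
  have h2 := NV.le_mul h1 (phi_rise_inv_order a m)
  rwa [← WithTop.coe_add, zero_add] at h2

/-- the power series form of `(1/2)_m / (w+a)_m` -/
theorem ser_eq_HL {a : F} {m : ℕ} {E : PowerSeries F}
    (hE : E * ∏ i ∈ range m, (1 + PowerSeries.C (a + (i : F)) * PowerSeries.X) =
      PowerSeries.C (halfP F m) * PowerSeries.X ^ m) : ser E = HL a m := by
  unfold HL
  rw [eq_mul_inv_iff_mul_eq₀ (phi_rise_ne a m)]
  have e1 : phi F (rise a m) = HahnSeries.single (-1) (1 : F) ^ m *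
      ser (∏ i ∈ range m, (1 + PowerSeries.C (a + (i : F)) * PowerSeries.X)) := by
    unfold rise
    rw [map_prod, ser, map_prod]
    conv_rhs => rw [← card_range m, ← prod_const, card_range, ← prod_mul_distrib]
    exact prod_congr rfl fun i _ => phi_lin _
  rw [e1, mul_left_comm, ← map_mul, hE, map_mul, map_pow, HahnSeries.ofPowerSeries_C,
    HahnSeries.ofPowerSeries_X, mul_left_comm, ← mul_pow, NV.single_three, one_pow, mul_one]

/-! ## `Rh` is stable under the block factors -/

theorem descP_mem_OP (R : Subring F) (m : ℕ) : descPochhammer F m ∈ OP R := by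
  intro i
  rw [← descPochhammer_map (Int.castRingHom F) m, coeff_map]
  exact intCast_mem R _

theorem rise_mem_OP {R : Subring F} {a : F} (ha : a ∈ R) (m : ℕ) : rise a m ∈ OP R :=
  rise_coeff_mem ha m

/-- `p / Y` preserves `Rh`, `Y` a block starting at `n + p s` -/
theorem rh_block {R : Subring F} {p : ℕ} (hp : 0 < p) {s : F} (hs : s ∈ R) (n : ℤ)
    {x : LaurentSeries F} (hx : Rh R p (descPochhammer F p) x) :
    Rh R p (descPochhammer F p)
      (HahnSeries.C (p : F) * (phi F (rise ((n : F) + (p : F) * s) p))⁻¹ * x) := by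
  obtain ⟨z, hz, hd, e⟩ := rise_block R hp hs n
  refine hx.div (natCast_mem R p) hz (phi_rise_inv_mem
    (R.add_mem (intCast_mem R n) (R.mul_mem (natCast_mem R p) hs)) p) ?_
  rw [← phi_C, ← map_mul, ← map_add, ← e]
  exact mul_inv_cancel₀ (phi_rise_ne _ _)

/-- multiplication by `(w+a)_h (1/2)_m / (w+a)_m` preserves `Rh`, `a = n + 1/2`, `p = 2h+1` -/
theorem rh_frac [CharZero F] {R : Subring F} (h2 : (1 : F) / 2 ∈ R) {h : ℕ} (n : ℤ) (m : ℕ)
    {x : LaurentSeries F} (hx : Rh R (2 * h + 1) (descPochhammer F (2 * h + 1)) x) :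
    Rh R (2 * h + 1) (descPochhammer F (2 * h + 1))
      (phi F (rise ((n : F) + 1 / 2) h) * HL ((n : F) + 1 / 2) m * x) := by
  have ha : (n : F) + 1 / 2 ∈ R := R.add_mem (intCast_mem R n) h2
  rcases Nat.lt_or_ge h m with hm | hm
  · obtain ⟨q, hq1, hq2⟩ : ∃ q, m ≤ h + (2 * h + 1) * q ∧
        h + (2 * h + 1) * q < m + (2 * h + 1) := by
      refine ⟨(m - h + 2 * h) / (2 * h + 1), ?_, ?_⟩
      · have h3 := Nat.div_add_mod (m - h + 2 * h) (2 * h + 1)
        have h4 := Nat.mod_lt (m - h + 2 * h) (by omega : 0 < 2 * h + 1)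
        omega
      · have h3 := Nat.div_mul_le_self (m - h + 2 * h) (2 * h + 1)
        rw [mul_comm] at h3
        omega
    obtain ⟨c, hc, g, hg, -, e⟩ := block_gt h2 ha hq1 hq2
    rw [e, mul_assoc, mul_assoc]
    refine (Rh.phi_mul ?_ hg).C_mul hc
    clear e hq1 hq2
    induction q with
    | zero => simpa using hx
    | succ q ih =>
      rw [prod_range_succ, mul_comm (∏ i ∈ range q, _), mul_assoc]
      have e1 : (n : F) + 1 / 2 + (h : F) + ((2 * h + 1 : ℕ) : F) * (q : F) =
          (n : F) + ((2 * h + 1 : ℕ) : F) * ((q : F) + 1 / 2) := by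
        push_cast
        ring
      rw [e1]
      exact rh_block (by omega) (R.add_mem (natCast_mem R q) h2) n ih
  · obtain ⟨g, hg, -, e⟩ := block_le h2 ha hm
    rw [e]
    exact hx.phi_mul hg

/-! ## The triple sum -/

/-- coefficients of the tail -/
theorem coeff_mul_of_dvd_lt {A : PowerSeries F} {k n : ℕ} (h : PowerSeries.X ^ k ∣ A)
    (hn : n < k) : PowerSeries.coeff n A = 0 := by
  rw [PowerSeries.X_pow_dvd_iff] at h
  exact h n hn

/-- **The triple sum is in `Rh`.** `a = n + 1/2`, `p = 2h+1`. -/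
theorem rh_triple [CharZero F] {R : Subring F} (h2 : (1 : F) / 2 ∈ R) {h : ℕ} (n : ℤ)
    {kap : ℕ → ℕ → ℕ → F} (hkap : ∀ i j k, kap i j k ∈ R) {E : ℕ → PowerSeries F}
    (hE : ∀ m, E m * ∏ i ∈ range m, (1 + PowerSeries.C ((n : F) + 1 / 2 + (i : F)) *
      PowerSeries.X) = PowerSeries.C (halfP F m) * PowerSeries.X ^ m)
    {S : PowerSeries F}
    (hS : ∀ l, PowerSeries.coeff l S = ∑ i ∈ range (l + 1), ∑ j ∈ range (l + 1),
      ∑ k ∈ range (l + 1), kap i j k * PowerSeries.coeff l (E i * E j * E k)) :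
    Rh R (2 * h + 1) (descPochhammer F (2 * h + 1))
      (phi F (rise ((n : F) + 1 / 2) h) ^ 3 * ser S) := by
  set y := descPochhammer F (2 * h + 1) with hy
  set e := phi F (rise ((n : F) + 1 / 2) h) with he
  have hyO : y ∈ OP R := descP_mem_OP R _
  have hp0 : (((2 * h + 1 : ℕ)) : F) ≠ 0 := by
    rw [Nat.cast_ne_zero]; omega
  -- divisibility of `E m`
  have hdv : ∀ m, PowerSeries.X ^ m ∣ E m := by
    intro m
    have hu : IsUnit (∏ i ∈ range m, (1 + PowerSeries.C ((n : F) + 1 / 2 + (i : F)) *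
        PowerSeries.X : PowerSeries F)) := by
      rw [IsUnit.prod_iff]
      intro i _
      rw [PowerSeries.isUnit_iff_constantCoeff]
      simp
    have h3 : PowerSeries.X ^ m ∣ E m * ∏ i ∈ range m,
        (1 + PowerSeries.C ((n : F) + 1 / 2 + (i : F)) * PowerSeries.X) := by
      rw [hE]
      exact Dvd.intro_left _ rfl
    exact (IsUnit.dvd_mul_right hu).1 h3
  -- the truncations
  set T : ℕ → PowerSeries F := fun N => ∑ i ∈ range (N + 1), ∑ j ∈ range (N + 1),
      ∑ k ∈ range (N + 1), PowerSeries.C (kap i j k) * (E i * E j * E k) with hT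
  have hTe : ∀ N, Rh R (2 * h + 1) y (e ^ 3 * ser (T N)) := by
    intro N
    have e1 : e ^ 3 * ser (T N) = ∑ i ∈ range (N + 1), ∑ j ∈ range (N + 1),
        ∑ k ∈ range (N + 1), HahnSeries.C (kap i j k) *
          ((e * HL ((n : F) + 1 / 2) i) * ((e * HL ((n : F) + 1 / 2) j) *
            ((e * HL ((n : F) + 1 / 2) k) * 1))) := by
      simp only [hT, ser, map_sum, mul_sum]
      refine sum_congr rfl fun i _ => ?_
      refine sum_congr rfl fun j _ => ?_
      refine sum_congr rfl fun k _ => ?_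
      rw [map_mul, map_mul, map_mul, HahnSeries.ofPowerSeries_C, ← ser_eq_HL (hE i),
        ← ser_eq_HL (hE j), ← ser_eq_HL (hE k)]
      ring
    rw [e1]
    refine Rh.sum hyO _ fun i _ => Rh.sum hyO _ fun j _ => Rh.sum hyO _ fun k _ => ?_
    exact (rh_frac h2 n i (rh_frac h2 n j (rh_frac h2 n k (Rh.one hyO)))).C_mul (hkap i j k)
  -- limits
  refine rh_of_trunc hp0 (natCast_mem R _) hyO fun N => ⟨e ^ 3 * ser (T (N + 3 * h)), hTe _, ?_⟩
  have h5 : PowerSeries.X ^ (N + 3 * h) ∣ S - T (N + 3 * h) := by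
    rw [PowerSeries.X_pow_dvd_iff]
    intro l hl
    rw [map_sub, hS, hT, sub_eq_zero]
    simp only [map_sum, PowerSeries.coeff_C_mul]
    have hz : ∀ i j k, l < i ∨ l < j ∨ l < k →
        PowerSeries.coeff l (E i * E j * E k) = 0 := by
      intro i j k hijk
      have h6 : PowerSeries.X ^ (i + j + k) ∣ E i * E j * E k := by
        rw [pow_add, pow_add]
        exact mul_dvd_mul (mul_dvd_mul (hdv i) (hdv j)) (hdv k)
      exact coeff_mul_of_dvd_lt h6 (by omega)
    have hsub : range (l + 1) ⊆ range (N + 3 * h + 1) := range_subset_range.2 (by omega)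
    have hx : ∀ G : ℕ → F, (∀ i, l < i → G i = 0) →
        ∑ i ∈ range (l + 1), G i = ∑ i ∈ range (N + 3 * h + 1), G i := by
      intro G hG
      refine sum_subset hsub fun i _ hi => hG i ?_
      rw [mem_range, not_lt] at hi
      omega
    rw [← hx]
    · refine sum_congr rfl fun i _ => ?_
      rw [← hx]
      · refine sum_congr rfl fun j _ => ?_
        refine hx _ fun k hk => ?_
        rw [hz i j k (Or.inr (Or.inr hk)), mul_zero]
      · intro j hj
        refine sum_eq_zero fun k _ => ?_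
        rw [hz i j k (Or.inr (Or.inl hj)), mul_zero]
    · intro i hi
      refine sum_eq_zero fun j _ => sum_eq_zero fun k _ => ?_
      rw [hz i j k (Or.inl hi), mul_zero]
  obtain ⟨G, hG⟩ := h5
  have e2 : e ^ 3 * ser S - e ^ 3 * ser (T (N + 3 * h)) =
      e ^ 3 * (HahnSeries.single (1 : ℤ) (1 : F) ^ (N + 3 * h) * ser G) := by
    rw [← mul_sub, ← map_sub, hG, map_mul, map_pow, HahnSeries.ofPowerSeries_X]
  rw [e2]
  have h7 : ((-((3 * h : ℕ) : ℤ) : ℤ) : WithTop ℤ) ≤ (e ^ 3).orderTop := by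
    rw [he, ← map_pow]
    refine phi_order ?_
    rw [degree_pow, rise_degree]
    exact le_of_eq (by push_cast; ring)
  have h8 : (((N + 3 * h : ℕ) : ℤ) : WithTop ℤ) ≤
      (HahnSeries.single (1 : ℤ) (1 : F) ^ (N + 3 * h) * ser G).orderTop := by
    have h9 : (((N + 3 * h : ℕ) : ℤ) : WithTop ℤ) ≤
        (HahnSeries.single (1 : ℤ) (1 : F) ^ (N + 3 * h)).orderTop := by
      rw [HahnSeries.single_pow, HahnSeries.orderTop_single (by simp)]
      simp
    have h10 := NV.le_mul h9 (ser_order G)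
    rwa [← WithTop.coe_add, add_zero] at h10
  refine le_trans ?_ (NV.le_mul h7 h8)
  rw [← WithTop.coe_add]
  exact_mod_cast (by push_cast; omega : (N : ℤ) ≤ -((3 * h : ℕ) : ℤ) + ((N + 3 * h : ℕ) : ℤ))

theorem halfP_inv (m : ℕ) : ∏ i ∈ range m, ((2 : F)⁻¹ + (i : F)) = halfP F m := by
  unfold halfP
  simp [one_div]

/-- `rh_triple` for `a = n + 1/2` in any form -/
theorem rh_triple' [CharZero F] {R : Subring F} (h2 : (1 : F) / 2 ∈ R) {h p : ℕ}
    (hp : p = 2 * h + 1) (n : ℤ) {a : F} (ha : a = (n : F) + 1 / 2)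
    {kap : ℕ → ℕ → ℕ → F} (hkap : ∀ i j k, kap i j k ∈ R) {E : ℕ → PowerSeries F}
    (hE : ∀ m, E m * ∏ i ∈ range m, (1 + PowerSeries.C (a + (i : F)) * PowerSeries.X) =
      PowerSeries.C (∏ i ∈ range m, ((2 : F)⁻¹ + (i : F))) * PowerSeries.X ^ m)
    {S : PowerSeries F}
    (hS : ∀ l, PowerSeries.coeff l S = ∑ i ∈ range (l + 1), ∑ j ∈ range (l + 1),
      ∑ k ∈ range (l + 1), kap i j k * PowerSeries.coeff l (E i * E j * E k)) :
    Rh R p (descPochhammer F p) (phi F (rise a h) ^ 3 * ser S) := by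
  subst hp
  subst ha
  refine rh_triple h2 n hkap (E := E) (fun m => ?_) hS
  rw [hE, halfP_inv]

/-- the block factor `(w+1) / (w+1+p/2)` of `v V` and `(w + p/2) / w` of `V / v(w-1)`: the
difference to `1` is an integral multiple of `p` over a block -/
theorem lin_div_eq {p : ℕ} (hp : 0 < p) (b s : F) :
    phi F (X + C b) * (phi F (X + C (b + (p : F) * s)))⁻¹ =
      1 - HahnSeries.C s * (phi F (rise (b + (p : F) * s + 1) (p - 1)) *
        (HahnSeries.C (p : F) * (phi F (rise (b + (p : F) * s) p))⁻¹)) := by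
  obtain ⟨q, rfl⟩ : ∃ q, p = q + 1 := ⟨p - 1, by omega⟩
  rw [rise_succ', Nat.add_sub_cancel, map_mul]
  have h1 : phi F (X + C (b + ((q + 1 : ℕ) : F) * s)) ≠ 0 := by
    have := phi_rise_ne (b + ((q + 1 : ℕ) : F) * s) 1
    rwa [rise_one] at this
  have h2 := phi_rise_ne (b + ((q + 1 : ℕ) : F) * s + 1) q
  have e : phi F (X + C (b + ((q + 1 : ℕ) : F) * s)) =
      phi F (X + C b) + HahnSeries.C ((q + 1 : ℕ) : F) * HahnSeries.C s := by
    rw [C_add, ← add_assoc, map_add (phi F) (X + C b), phi_C, map_mul]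
  field_simp
  rw [e]
  ring

/-- multiplication by `(w + b) / (w + b + p s)`, `b` an integer plus `p s'` -/
theorem rh_lin_div {R : Subring F} {p : ℕ} (hp : 0 < p) {s s' : F} (hs : s ∈ R) (hs' : s' ∈ R)
    (n : ℤ) {x : LaurentSeries F} (hx : Rh R p (descPochhammer F p) x) :
    Rh R p (descPochhammer F p) (phi F (X + C ((n : F) + (p : F) * s')) *
      (phi F (X + C ((n : F) + (p : F) * s' + (p : F) * s)))⁻¹ * x) := by
  have hb : (n : F) + (p : F) * s' + (p : F) * s + 1 ∈ R :=
    R.add_mem (R.add_mem (R.add_mem (intCast_mem R n) (R.mul_mem (natCast_mem R p) hs'))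
      (R.mul_mem (natCast_mem R p) hs)) R.one_mem
  rw [lin_div_eq hp]
  have h1 := rh_block hp (R.add_mem hs' hs) n hx
  have e : (n : F) + (p : F) * (s' + s) = (n : F) + (p : F) * s' + (p : F) * s := by ring
  rw [e] at h1
  have h2 := (h1.phi_mul (rise_mem_OP hb (p - 1))).C_mul hs
  have h3 := hx.sub h2
  have e3 : (1 - HahnSeries.C s * (phi F (rise ((n : F) + (p : F) * s' + (p : F) * s + 1) (p - 1)) *
      (HahnSeries.C (p : F) * (phi F (rise ((n : F) + (p : F) * s' + (p : F) * s) p))⁻¹))) * x =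
      x - HahnSeries.C s * (phi F (rise ((n : F) + (p : F) * s' + (p : F) * s + 1) (p - 1)) *
      (HahnSeries.C (p : F) * (phi F (rise ((n : F) + (p : F) * s' + (p : F) * s) p))⁻¹ * x)) := by
    ring
  rw [e3]
  exact h3

end QS2.Cls
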