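import Pool.Agent.QS2.NonVan2

/-!
# Non-vanishing, in terms of determinants
-/

set_option autoImplicit false

namespace QS2.NV

open Polynomial HahnSeries

variable {F : Type*} [Field F]

/-- coefficient of `z ^ d` in `Q (z) V (1 / z)` -/
theorem phi_mul_coeff (V : PowerSeries F) (Q : F[X]) (d : ℕ) :
    (phi F Q * ser V).coeff (-(d : ℤ)) = (pp V Q).coeff d := by
  have h := pp_spec V Q
  unfold Big at h
  rw [le_orderTop_iff_forall] at h
  have h1 := h (-(d : ℤ)) (by exact_mod_cast (by omega : -(d : ℤ) < 1))
  rw [HahnSeries.coeff_sub, phi_coeff, if_pos (by omega)] at h1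
  simp only [neg_neg, Int.toNat_natCast] at h1
  exact sub_eq_zero.1 h1

theorem pp_coeff (V : PowerSeries F) (Q : F[X]) (d : ℕ) {c : ℕ} (hQ : Q.degree < c) :
    (pp V Q).coeff d = ∑ j ∈ Finset.range c,
      if d ≤ j then Q.coeff j * PowerSeries.coeff (j - d) V else 0 := by
  have e : Q = ∑ j ∈ Finset.range c, monomial j (Q.coeff j) := by
    ext k
    rw [finsetSum_coeff]
    simp only [Polynomial.coeff_monomial]
    rw [Finset.sum_ite_eq' (Finset.range c) k]
    by_cases hk : k < c
    · rw [if_pos (Finset.mem_range.2 hk)]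
    · rw [if_neg (fun h => hk (Finset.mem_range.1 h))]
      apply coeff_eq_zero_of_degree_lt
      refine lt_of_lt_of_le hQ ?_
      exact_mod_cast (by omega : c ≤ k)
  conv_lhs => rw [e]
  rw [map_sum, finsetSum_coeff]
  refine Finset.sum_congr rfl fun j _ => ?_
  rw [pp_monomial, Polynomial.coeff_smul, mono_coeff, smul_eq_mul]
  split_ifs <;> simp

/-- the interpolation problem in terms of `P + Q V`, jets as coefficients -/
theorem sol2_of_jets {V : PowerSeries F} {u : ℤ → F} {S : Finset ℤ} {R c : ℕ} {P Q : F[X]}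
    (hRc : R ≤ c) (hPQ : P ≠ 0 ∨ Q ≠ 0) (dP : P.degree < c) (dQ : Q.degree < c)
    (node : ∀ z ∈ S, P.eval (z : F) * u z + Q.eval (z : F) * u (z + 1) = 0)
    (jet : ∀ d : ℕ, c ≤ d + R → d < c → P.coeff d + (pp V Q).coeff d = 0) :
    Sol2 V u S R c (-P) Q where
  hPQ := by
    rcases hPQ with h | h
    · left
      exact neg_ne_zero.2 h
    · right
      exact h
  dQ := dQ
  dP := by rwa [degree_neg]
  node := by
    intro z hz
    have := node z hz
    rw [eval_neg]
    linear_combination this
  jet := by
    rw [le_orderTop_iff_forall]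
    intro k hk
    have hk' : k < (R : ℤ) + 1 - c := by exact_mod_cast hk
    obtain ⟨d, rfl⟩ : ∃ d : ℕ, k = -(d : ℤ) := ⟨(-k).toNat, by omega⟩
    rw [HahnSeries.coeff_sub, phi_mul_coeff, phi_coeff, if_pos (by omega), neg_neg,
      Int.toNat_natCast, Polynomial.coeff_neg, sub_neg_eq_add]
    by_cases hd : d < c
    · rw [add_comm]
      exact jet d (by omega) hd
    · have h1 : (pp V Q).coeff d = 0 := by
        have h0 : c ≠ 0 ∨ Q = 0 := by
          rcases Nat.eq_zero_or_pos c with h0 | h0
          · right
            subst h0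
            by_contra hne
            rw [degree_eq_natDegree hne] at dQ
            exact absurd dQ (by
              rw [not_lt]
              exact_mod_cast Nat.zero_le _)
          · left
            omega
        rcases h0 with h0 | h0
        · obtain ⟨m, rfl⟩ : ∃ m, c = m + 1 := ⟨c - 1, by omega⟩
          apply coeff_eq_zero_of_degree_lt
          refine lt_of_le_of_lt (pp_degree (deg_le dQ)) ?_
          exact_mod_cast (by omega : m < d)
        · rw [h0, map_zero, Polynomial.coeff_zero]
      have h2 : P.coeff d = 0 := by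
        apply coeff_eq_zero_of_degree_lt
        refine lt_of_lt_of_le dP ?_
        exact_mod_cast (by omega : c ≤ d)
      rw [h1, h2, add_zero]

/-- the two halves of a vector as polynomials in the basis `B` -/
theorem full_det [CharZero F] {V : PowerSeries F} {u : ℤ → F} {S : Finset ℤ} {R c : ℕ}
    (hRc : R ≤ c) {B : ℕ → F[X]} (hB : ∀ i, (B i).degree = i)
    {ι κ : Type*} [Fintype ι] [Fintype κ] [DecidableEq κ]
    (A : Matrix ι κ F) (e : κ ≃ Fin c ⊕ Fin c)
    (hnode : ∀ z ∈ S, ∃ i : ι, ∃ a : F, a ≠ 0 ∧ ∀ k : κ,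
      A i k = a * Sum.elim (fun j : Fin c => (B j).eval (z : F) * u z)
        (fun j : Fin c => (B j).eval (z : F) * u (z + 1)) (e k))
    (hjet : ∀ d : ℕ, c ≤ d + R → d < c → ∃ i : ι, ∃ a : F, a ≠ 0 ∧ ∀ k : κ,
      A i k = a * Sum.elim (fun j : Fin c => (B j).coeff d)
        (fun j : Fin c => (pp V (B j)).coeff d) (e k))
    (hno : ¬ ∃ P Q : F[X], Sol2 V u S R c P Q) (w : κ → F) (hw : A.mulVec w = 0) : w = 0 := by
  classical
  by_contra hne
  apply hno
  set wp : Fin c → F := fun j => w (e.symm (Sum.inl j)) with hwp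
  set wq : Fin c → F := fun j => w (e.symm (Sum.inr j)) with hwq
  set P : F[X] := ∑ j : Fin c, C (wp j) * B j with hP
  set Q : F[X] := ∑ j : Fin c, C (wq j) * B j with hQ
  have hdeg : ∀ a : Fin c → F, (∑ j : Fin c, C (a j) * B j).degree < c := by
    intro a
    rw [degree_lt_iff_coeff_zero]
    intro k hk
    rw [finsetSum_coeff]
    refine Finset.sum_eq_zero fun i _ => ?_
    have : (B i).coeff k = 0 := by
      apply coeff_eq_zero_of_degree_lt
      rw [hB i]
      have := i.2
      exact_mod_cast (by omega : (i : ℕ) < k)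
    rw [Polynomial.coeff_C_mul, this, mul_zero]
  have hsum : ∀ f : κ → F, ∑ k : κ, f k * w k =
      ∑ j : Fin c, f (e.symm (Sum.inl j)) * wp j + ∑ j : Fin c, f (e.symm (Sum.inr j)) * wq j := by
    intro f
    rw [← Equiv.sum_comp e.symm, Fintype.sum_sum_type]
  have hPQ : P ≠ 0 ∨ Q ≠ 0 := by
    by_cases h1 : wp = 0
    · right
      apply sum_ne_zero hB
      intro h2
      apply hne
      funext k
      have := e.symm_apply_apply k
      rw [← this]
      rcases hk : e k with j | j
      · have := congrFun h1 j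
        simpa [hwp, hk] using this
      · have := congrFun h2 j
        simpa [hwq, hk] using this
    · left
      exact sum_ne_zero hB h1
  refine ⟨-P, Q, sol2_of_jets hRc hPQ (hdeg wp) (hdeg wq) ?_ ?_⟩
  · intro z hz
    obtain ⟨i, a, ha, hi⟩ := hnode z hz
    have h1 := congrFun hw i
    simp only [Matrix.mulVec, dotProduct, Pi.zero_apply] at h1
    rw [hsum (fun k => A i k)] at h1
    simp only [hi, Equiv.apply_symm_apply, Sum.elim_inl, Sum.elim_inr] at h1
    have h2 : a * (P.eval (z : F) * u z + Q.eval (z : F) * u (z + 1)) = 0 := by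
      rw [← h1, hP, hQ, eval_finsetSum, eval_finsetSum, Finset.sum_mul, Finset.sum_mul, mul_add,
        Finset.mul_sum, Finset.mul_sum]
      congr 1
      · refine Finset.sum_congr rfl fun j _ => ?_
        rw [eval_mul, eval_C]
        ring
      · refine Finset.sum_congr rfl fun j _ => ?_
        rw [eval_mul, eval_C]
        ring
    rcases mul_eq_zero.1 h2 with h3 | h3
    · exact absurd h3 ha
    · exact h3
  · intro d hd1 hd2
    obtain ⟨i, a, ha, hi⟩ := hjet d hd1 hd2
    have h1 := congrFun hw i
    simp only [Matrix.mulVec, dotProduct, Pi.zero_apply] at h1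
    rw [hsum (fun k => A i k)] at h1
    simp only [hi, Equiv.apply_symm_apply, Sum.elim_inl, Sum.elim_inr] at h1
    have h2 : a * (P.coeff d + (pp V Q).coeff d) = 0 := by
      rw [← h1, hP, hQ, map_sum, finsetSum_coeff, finsetSum_coeff, mul_add,
        Finset.mul_sum, Finset.mul_sum]
      congr 1
      · refine Finset.sum_congr rfl fun j _ => ?_
        rw [Polynomial.coeff_C_mul]
        ring
      · refine Finset.sum_congr rfl fun j _ => ?_
        rw [← smul_eq_C_mul, map_smul, Polynomial.coeff_smul, smul_eq_mul]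
        ring
    rcases mul_eq_zero.1 h2 with h3 | h3
    · exact absurd h3 ha
    · exact h3

end QS2.NV
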