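import Pool.Agent.QS2.Defs
import Pool.Agent.QS2.NonVan3

/-!
# Non-vanishing of `Delta`
-/

set_option autoImplicit false

namespace QS2

open Polynomial

namespace NV

variable {F : Type*} [Field F]

theorem shm_eq (v : ℕ → F) : shm v = vm v := rfl

theorem ric_of_formal {v : ℕ → F} (hv : IsFormal v) : Ric (PowerSeries.mk v) := by
  unfold Ric
  rw [sh_mk, ← shm_eq]
  have e34 : (PowerSeries.C (34 : F) : PowerSeries F) = 34 := map_ofNat _ 34
  have e51 : (PowerSeries.C (51 : F) : PowerSeries F) = 51 := map_ofNat _ 51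
  have e27 : (PowerSeries.C (27 : F) : PowerSeries F) = 27 := map_ofNat _ 27
  have e5 : (PowerSeries.C (5 : F) : PowerSeries F) = 5 := map_ofNat _ 5
  rw [e34, e51, e27, e5]
  exact hv

theorem pp_eq (v : ℕ → F) (Q : F[X]) : QS2.pp v Q = pp (PowerSeries.mk v) Q := by
  unfold QS2.pp
  have e : pp (PowerSeries.mk v) Q =
      ∑ i ∈ Finset.range (Q.natDegree + 1), Q.coeff i • mono (PowerSeries.mk v) i := by
    conv_lhs => rw [Q.as_sum_range' (Q.natDegree + 1) (Nat.lt_succ_self _)]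
    rw [map_sum]
    exact Finset.sum_congr rfl fun i _ => pp_monomial _ _ _
  rw [e]
  refine Finset.sum_congr rfl fun i _ => ?_
  unfold mono
  rw [Finset.smul_sum, ← Finset.sum_range_reflect]
  refine Finset.sum_congr rfl fun m hm => ?_
  have hm' : m ≤ i := by
    have := Finset.mem_range.1 hm
    omega
  rw [PowerSeries.coeff_mk, C_mul_X_pow_eq_monomial, smul_monomial, smul_eq_mul]
  have e1 : i - (i + 1 - 1 - m) = m := by omega
  have e2 : i + 1 - 1 - m = i - m := by omega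
  rw [e1, e2]

theorem binP_degree [CharZero F] (i : ℕ) : (binP F i).degree = i := by
  unfold binP
  have h1 : ((i.factorial : F)⁻¹) ≠ 0 := inv_ne_zero (by exact_mod_cast i.factorial_ne_zero)
  rw [degree_C_mul h1, degree_eq_natDegree (monic_descPochhammer F i).ne_zero,
    descPochhammer_natDegree]

/-- the solution at all integers -/
noncomputable def uz {F : Type*} [Field F] (x x' : F) (z : ℤ) : F :=
  if 0 ≤ z then (aperyA z.toNat : F) * x - (aperyB z.toNat : F)
  else (aperyA (-1 - z).toNat : F) * x' - (aperyB (-1 - z).toNat : F)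

theorem uz_of_nonneg (x x' : F) {z : ℤ} {n : ℕ} (h : z = n) :
    uz x x' z = (aperyA n : F) * x - (aperyB n : F) := by
  subst h
  unfold uz
  rw [if_pos (by omega), Int.toNat_natCast]

theorem uz_of_neg (x x' : F) {z : ℤ} {n : ℕ} (h : z = -1 - (n : ℤ)) :
    uz x x' z = (aperyA n : F) * x' - (aperyB n : F) := by
  subst h
  unfold uz
  have e : (-1 - (-1 - (n : ℤ))).toNat = n := by omega
  rw [if_neg (by omega), e]

theorem uval_eq (x x' : F) (A : ℕ) (f : Nd A) : uval x x' A f = uz x x' (nodeZ A f) := by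
  rcases f with i | i
  · have hz : nodeZ A (Sum.inl i) = ((i + 1 : ℕ) : ℤ) := by
      simp only [nodeZ]
      push_cast
      ring
    rw [uz_of_nonneg x x' hz]
    rfl
  · have hz : nodeZ A (Sum.inr i) = -1 - ((i + 2 : ℕ) : ℤ) := by
      simp only [nodeZ]
      push_cast
      ring
    rw [uz_of_neg x x' hz]
    rfl

theorem uval1_eq (x x' : F) (A : ℕ) (f : Nd A) :
    uval1 x x' A f = uz x x' (nodeZ A f + 1) := by
  rcases f with i | i
  · have hz : nodeZ A (Sum.inl i) + 1 = ((i + 2 : ℕ) : ℤ) := by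
      simp only [nodeZ]
      push_cast
      ring
    rw [uz_of_nonneg x x' hz]
    rfl
  · have hz : nodeZ A (Sum.inr i) + 1 = -1 - ((i + 1 : ℕ) : ℤ) := by
      simp only [nodeZ]
      push_cast
      ring
    rw [uz_of_neg x x' hz]
    rfl

theorem exists_node {A : ℕ} {z : ℤ} (hz : z ∈ nod A) : ∃ f : Nd A, nodeZ A f = z := by
  rw [mem_nod] at hz
  rcases hz with h | h
  · refine ⟨Sum.inl ⟨(z - 1).toNat, by omega⟩, ?_⟩
    simp only [nodeZ]
    omega
  · refine ⟨Sum.inr ⟨(-3 - z).toNat, by omega⟩, ?_⟩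
    simp only [nodeZ]
    omega

/-- the recurrence of a sequence of rational numbers -/
def RecQ (s : ℕ → ℚ) : Prop := ∀ n : ℕ, 1 ≤ n →
  ((n : ℚ) + 1) ^ 3 * s (n + 1) = ap (n : ℚ) * s n - (n : ℚ) ^ 3 * s (n - 1)

theorem recAt_uz [CharZero F] (hA : RecQ aperyA) (hB : RecQ aperyB) (x x' : F) {z : ℤ}
    (hz : 2 ≤ z ∨ z ≤ -3) : RecAt (uz x x') z := by
  have key : ∀ (y : F) (n : ℕ), 1 ≤ n →
      ((n : F) + 1) ^ 3 * ((aperyA (n + 1) : F) * y - (aperyB (n + 1) : F)) =
        (34 * (n : F) ^ 3 + 51 * (n : F) ^ 2 + 27 * (n : F) + 5) *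
          ((aperyA n : F) * y - (aperyB n : F)) -
        (n : F) ^ 3 * ((aperyA (n - 1) : F) * y - (aperyB (n - 1) : F)) := by
    intro y n hn
    have h1 := congrArg (fun t : ℚ => (t : F)) (hA n hn)
    have h2 := congrArg (fun t : ℚ => (t : F)) (hB n hn)
    simp only [ap] at h1 h2
    push_cast at h1 h2
    linear_combination y * h1 - h2
  unfold RecAt
  rcases hz with hz | hz
  · obtain ⟨n, rfl⟩ : ∃ n : ℕ, z = (n : ℤ) := ⟨z.toNat, by omega⟩
    have hn : 1 ≤ n := by omega
    have e1 : ((n : ℤ) + 1).toNat = n + 1 := by omega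
    have e2 : ((n : ℤ) - 1).toNat = n - 1 := by omega
    have e3 : ((n : ℤ)).toNat = n := by omega
    have := key x n hn
    simp only [uz]
    rw [if_pos (by omega), if_pos (by omega), if_pos (by omega), e1, e2, e3]
    simpa using this
  · obtain ⟨n, rfl⟩ : ∃ n : ℕ, z = -1 - (n : ℤ) := ⟨(-1 - z).toNat, by omega⟩
    have hn : 2 ≤ n := by omega
    have e1 : (-1 - (-1 - (n : ℤ) + 1)).toNat = n - 1 := by omega
    have e2 : (-1 - (-1 - (n : ℤ) - 1)).toNat = n + 1 := by omega
    have e3 : (-1 - (-1 - (n : ℤ))).toNat = n := by omega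
    have := key x' n (by omega)
    simp only [uz]
    rw [if_neg (by omega), if_neg (by omega), if_neg (by omega), e1, e2, e3]
    push_cast
    linear_combination -this

end NV

open NV

private theorem aperyA_pos' (n : ℕ) : 0 < aperyA n := by
  unfold aperyA
  refine Finset.sum_pos' (fun k _ => by positivity) ⟨0, by simp, by simp⟩

/-- **Non-vanishing** over any field of characteristic zero -/
theorem nonvan_DeltaR {R : Type*} [Field R] [CharZero R] {x x' : R} {v : ℕ → R}
    (hv : IsFormal v) (hA : RecQ aperyA) (hB : RecQ aperyB)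
    (hx : ∀ m : ℕ, 1 ≤ m → (aperyA m : R) * x - (aperyB m : R) ≠ 0)
    (hx' : ∀ m : ℕ, 1 ≤ m → (aperyA m : R) * x' - (aperyB m : R) ≠ 0) (M : ℕ) :
    ∃ rho A : ℕ, M ≤ rho ∧ 2 * rho ≤ A ∧ A ≤ 2 * rho + 2 ∧ DeltaR x x' v A rho ≠ 0 := by
  have hu : ∀ z : ℤ, (1 ≤ z ∨ z ≤ -3) → uz x x' z ≠ 0 := by
    intro z hz
    unfold uz
    split_ifs with h
    · exact hx _ (by omega)
    · exact hx' _ (by omega)
  obtain ⟨c, hc, hno⟩ := core2 (ric_of_formal hv) hu (fun z hz => recAt_uz hA hB x x' hz) (3 * M)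
  refine ⟨c / 3, c - c / 3, by omega, by omega, by omega, ?_⟩
  set rho := c / 3 with hrho
  set A := c - rho with hAdef
  have hcA : A + rho = c := by omega
  rw [← hcA] at hno
  intro hdet
  unfold DeltaR at hdet
  obtain ⟨w, hw0, hw⟩ := Matrix.exists_mulVec_eq_zero_iff.2 hdet
  apply hw0
  have hw' : (bigM x x' v A rho).mulVec w = 0 := by
    ext i
    have := congrFun hw ((idx A rho).symm i)
    simpa [Matrix.mulVec, dotProduct, Matrix.submatrix_apply] using this
  refine full_det (V := PowerSeries.mk v) (u := uz x x') (S := nod A) (R := 2 * rho)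
    (by omega) binP_degree (bigM x x' v A rho) (Equiv.refl _) ?_ ?_ hno w hw'
  · intro z hz
    obtain ⟨f, rfl⟩ := exists_node hz
    refine ⟨Sum.inl f, 1, one_ne_zero, ?_⟩
    rintro (k | k)
    · simp [bigM, fullM, uval_eq]
    · simp [bigM, fullM, uval1_eq]
  · intro d hd1 hd2
    have hd3 : A + rho - 2 * rho + (d - (A + rho - 2 * rho)) = d := by omega
    refine ⟨Sum.inr ⟨d - (A + rho - 2 * rho), by omega⟩, (d.factorial : R),
      by exact_mod_cast d.factorial_ne_zero, ?_⟩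
    rintro (k | k)
    · simp only [bigM, fullM, Equiv.refl_apply, Sum.elim_inl, hd3]
    · simp only [bigM, fullM, Equiv.refl_apply, Sum.elim_inr, hd3, pp_eq]

theorem K_ratCast (q : ℚ) : ((q : ℚ) : K) = ⟨q, 0⟩ := by
  have h := eq_ratCast (algebraMap ℚ (QuadraticAlgebra ℚ 2 0)) q
  rw [← h]
  rfl

theorem K_ratCast_im (q : ℚ) : ((q : ℚ) : K).im = 0 := by rw [K_ratCast]

theorem K_ratCast_re (q : ℚ) : ((q : ℚ) : K).re = q := by rw [K_ratCast]

/-- **Non-vanishing** of `Delta` for irrational `x` -/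
theorem nonvan_Delta {x : K} {v : ℕ → K} (hv : IsFormal v) (hA : RecQ aperyA)
    (hB : RecQ aperyB) (hx : x.im ≠ 0) (M : ℕ) :
    ∃ rho A : ℕ, M ≤ rho ∧ 2 * rho ≤ A ∧ A ≤ 2 * rho + 2 ∧ Delta x v A rho ≠ 0 := by
  have key : ∀ y : K, y.im ≠ 0 → ∀ m : ℕ, 1 ≤ m → (aperyA m : K) * y - (aperyB m : K) ≠ 0 := by
    intro y hy m _ h
    have h1 := congrArg QuadraticAlgebra.im h
    rw [QuadraticAlgebra.im_sub, QuadraticAlgebra.im_mul, K_ratCast_im, K_ratCast_im,
      K_ratCast_re] at h1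
    simp only [zero_mul, add_zero, mul_zero, sub_zero, QuadraticAlgebra.im_zero] at h1
    rcases mul_eq_zero.1 h1 with h2 | h2
    · exact (aperyA_pos' m).ne' h2
    · exact hy h2
  exact nonvan_DeltaR hv hA hB (key x hx) (key (star x) (by
    rw [QuadraticAlgebra.im_star]
    exact neg_ne_zero.2 hx)) M

end QS2
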