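import Pool.Agent.QS2.ClsShift
import Pool.Agent.QS2.NonVanD

/-!
# The identities (J), (J') in Laurent series from the formula for the formal solution

`v (w + 3/2)^3 S1 = α (w + 1)^3 S2`, `S1 = S(w)`, `S2 = S(w + 1)`, `S0 = S(w - 1)`,
`V = E^3 S1` with `E = ∏_{i < h} (w + 3/2 + i)`, `V' = (w + 1)^3 v V`, `p = 2 h + 1`:

* (J)  `V' = ap V - α⁻¹ (w + p/2)^3 V(w - 1)`
* (J') `(w + p/2)^3 V'(w - 1) = α w^6 V`.
-/

set_option autoImplicit false

namespace QS2.Cls

open Polynomial HahnSeries QS2.NV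

variable {F : Type*} [Field F]

/-- `w` -/
noncomputable def ww (F : Type*) [Field F] : LaurentSeries F := phi F X

theorem ww_mul : ww F * ser (PowerSeries.X) = 1 := by
  unfold ww
  rw [phi_X, ser, ofPowerSeries_X, single_mul_single]
  simp

theorem shL_ww : shL (ww F) = ww F - 1 := by
  unfold ww
  rw [shL_phi, X_comp, map_sub, map_one]

theorem phi_lin_ww (a : F) : phi F (X + Polynomial.C a) = ww F + HahnSeries.C a := by
  rw [map_add, phi_C, ww]

theorem phi_ap : phi F (ap X) = ap (ww F) := by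
  unfold ap ww
  simp only [map_add, map_mul, map_pow, map_ofNat]

/-- the Riccati equation in Laurent series -/
theorem ric_L {v : ℕ → F} (hv : IsFormal v) :
    (ww F + 1) ^ 3 * ser (PowerSeries.mk v) * shL (ser (PowerSeries.mk v))
      - ap (ww F) * shL (ser (PowerSeries.mk v)) + ww F ^ 3 = 0 := by
  have h := ric_of_formal hv
  unfold Ric at h
  have e34 : (PowerSeries.C (34 : F) : PowerSeries F) = 34 := map_ofNat _ 34
  have e51 : (PowerSeries.C (51 : F) : PowerSeries F) = 51 := map_ofNat _ 51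
  have e27 : (PowerSeries.C (27 : F) : PowerSeries F) = 27 := map_ofNat _ 27
  have e5 : (PowerSeries.C (5 : F) : PowerSeries F) = 5 := map_ofNat _ 5
  rw [e34, e51, e27, e5] at h
  have h1 := congrArg (ofPowerSeries ℤ F) h
  simp only [map_add, map_sub, map_mul, map_pow, map_one, map_zero, map_ofNat] at h1
  have h2 := ww_mul (F := F)
  rw [shL_ser]
  unfold ser at h2 ⊢
  set t := ofPowerSeries ℤ F PowerSeries.X with ht
  set a := ofPowerSeries ℤ F (PowerSeries.mk v) with ha
  set b := ofPowerSeries ℤ F (sh (PowerSeries.mk v)) with hb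
  set w := ww F with hw
  have e1 : (w + 1) ^ 3 = w ^ 3 * (1 + t) ^ 3 := by
    rw [← mul_pow, mul_add, mul_one, h2]
  have e2 : ap w = w ^ 3 * (34 + 51 * t + 27 * t ^ 2 + 5 * t ^ 3) := by
    have e3 : w ^ 3 * t = w ^ 2 := by
      calc w ^ 3 * t = w ^ 2 * (w * t) := by ring
        _ = w ^ 2 := by rw [h2, mul_one]
    have e4 : w ^ 3 * t ^ 2 = w := by
      calc w ^ 3 * t ^ 2 = w * (w * t) ^ 2 := by ring
        _ = w := by rw [h2, one_pow, mul_one]
    have e5 : w ^ 3 * t ^ 3 = 1 := by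
      rw [← mul_pow, h2, one_pow]
    unfold ap
    linear_combination -51 * e3 - 27 * e4 - 5 * e5
  rw [e1, e2]
  linear_combination w ^ 3 * h1

theorem shL_v_ne {v : ℕ → F} (hv : IsFormal v) : shL (ser (PowerSeries.mk v)) ≠ 0 := by
  intro h
  have h1 := ric_L hv
  rw [h, mul_zero, mul_zero, sub_zero, zero_add] at h1
  have h2 : ww F = 0 := pow_eq_zero_iff (by norm_num) |>.1 h1
  have h3 := ww_mul (F := F)
  rw [h2, zero_mul] at h3
  exact zero_ne_one h3

section formula

variable {v : ℕ → F} {S0 S1 S2 : PowerSeries F} {al hf : F}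

/-- the formula in Laurent series -/
theorem formula_L (hfor : PowerSeries.mk v * (1 + PowerSeries.C (3 * hf) * PowerSeries.X) ^ 3 * S1 =
      PowerSeries.C al * (1 + PowerSeries.X) ^ 3 * S2) :
    ser (PowerSeries.mk v) * (ww F + HahnSeries.C (3 * hf)) ^ 3 * ser S1 =
      HahnSeries.C al * (ww F + 1) ^ 3 * ser S2 := by
  have h1 := congrArg (ofPowerSeries ℤ F) hfor
  simp only [map_add, map_mul, map_pow, map_one, ofPowerSeries_C, map_ofNat] at h1
  have h2 := ww_mul (F := F)
  unfold ser at h2 ⊢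
  set t := ofPowerSeries ℤ F PowerSeries.X with ht
  set w := ww F with hw
  have e1 : (w + 1) ^ 3 = w ^ 3 * (1 + t) ^ 3 := by
    rw [← mul_pow, mul_add, mul_one, h2]
  have e2 : (w + HahnSeries.C (3 * hf)) ^ 3 =
      w ^ 3 * (1 + 3 * HahnSeries.C hf * t) ^ 3 := by
    rw [← mul_pow, mul_add, mul_one, map_mul, map_ofNat]
    congr 1
    linear_combination -(3 * HahnSeries.C hf) * h2
  rw [e1, e2]
  linear_combination w ^ 3 * h1

/-- the shifted formula -/
theorem formula_shL (h2f : 2 * hf = 1)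
    (hfor : PowerSeries.mk v * (1 + PowerSeries.C (3 * hf) * PowerSeries.X) ^ 3 * S1 =
      PowerSeries.C al * (1 + PowerSeries.X) ^ 3 * S2)
    (h01 : sh S1 = S0) (h12 : sh S2 = S1) :
    shL (ser (PowerSeries.mk v)) * (ww F + HahnSeries.C hf) ^ 3 * ser S0 =
      HahnSeries.C al * ww F ^ 3 * ser S1 := by
  have h := congrArg shL (formula_L hfor)
  rw [map_mul shL, map_mul shL, map_mul shL, map_mul shL, map_pow shL, map_pow shL, map_add shL,
    map_add shL, shL_ww, shL_C, shL_C, map_one shL, shL_ser S1, shL_ser S2, h01, h12] at h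
  have e1 : ww F - 1 + HahnSeries.C (3 * hf) = ww F + HahnSeries.C hf := by
    have e3 : (HahnSeries.C (3 * hf) : LaurentSeries F) = 1 + HahnSeries.C hf := by
      have : 3 * hf = 1 + hf := by linear_combination h2f
      rw [this, map_add, map_one]
    rw [e3]
    ring
  have e2 : ww F - 1 + 1 = ww F := by ring
  rw [e1, e2] at h
  exact h

variable {E : F[X]} {ph : F}

theorem E_shift (hE : E * (X + Polynomial.C hf) = (X + Polynomial.C ph) * E.comp (X - 1)) :
    phi F E * (ww F + HahnSeries.C hf) = (ww F + HahnSeries.C ph) * shL (phi F E) := by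
  have h := congrArg (phi F) hE
  rw [map_mul, map_mul, phi_lin_ww, phi_lin_ww] at h
  rw [shL_phi]
  exact h

/-- **(J')** `(w + p/2)^3 V'(w - 1) = α w^6 V` -/
theorem J'_of_formula (h2f : 2 * hf = 1)
    (hfor : PowerSeries.mk v * (1 + PowerSeries.C (3 * hf) * PowerSeries.X) ^ 3 * S1 =
      PowerSeries.C al * (1 + PowerSeries.X) ^ 3 * S2)
    (h01 : sh S1 = S0) (h12 : sh S2 = S1)
    (hE : E * (X + Polynomial.C hf) = (X + Polynomial.C ph) * E.comp (X - 1)) :
    (ww F + HahnSeries.C ph) ^ 3 *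
        shL ((ww F + 1) ^ 3 * ser (PowerSeries.mk v) * (phi F E ^ 3 * ser S1)) =
      HahnSeries.C al * ww F ^ 6 * (phi F E ^ 3 * ser S1) := by
  have h1 := formula_shL h2f hfor h01 h12
  have h2 := E_shift hE
  rw [map_mul shL, map_mul shL, map_mul shL, map_pow shL, map_pow shL, map_add shL, shL_ww,
    map_one shL, shL_ser S1, h01]
  set w := ww F
  set a := shL (ser (PowerSeries.mk v))
  set e := phi F E
  set e' := shL (phi F E)
  have h3 : (w + HahnSeries.C ph) ^ 3 * e' ^ 3 = e ^ 3 * (w + HahnSeries.C hf) ^ 3 := by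
    rw [← mul_pow, ← mul_pow, h2]
  calc (w + HahnSeries.C ph) ^ 3 * ((w - 1 + 1) ^ 3 * a * (e' ^ 3 * ser S0))
      = ((w + HahnSeries.C ph) ^ 3 * e' ^ 3) * (w ^ 3 * a * ser S0) := by ring
    _ = e ^ 3 * w ^ 3 * (a * (w + HahnSeries.C hf) ^ 3 * ser S0) := by rw [h3]; ring
    _ = HahnSeries.C al * w ^ 6 * (e ^ 3 * ser S1) := by rw [h1]; ring

/-- **(J)** `V' = ap V - α⁻¹ (w + p/2)^3 V(w - 1)` -/
theorem J_of_formula (hv : IsFormal v) {ali : F} (hal : al * ali = 1) (h2f : 2 * hf = 1)
    (hfor : PowerSeries.mk v * (1 + PowerSeries.C (3 * hf) * PowerSeries.X) ^ 3 * S1 =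
      PowerSeries.C al * (1 + PowerSeries.X) ^ 3 * S2)
    (h01 : sh S1 = S0) (h12 : sh S2 = S1)
    (hE : E * (X + Polynomial.C hf) = (X + Polynomial.C ph) * E.comp (X - 1)) :
    (ww F + 1) ^ 3 * ser (PowerSeries.mk v) * (phi F E ^ 3 * ser S1) =
      ap (ww F) * (phi F E ^ 3 * ser S1) -
        HahnSeries.C ali * (ww F + HahnSeries.C ph) ^ 3 * shL (phi F E ^ 3 * ser S1) := by
  have h1 := formula_shL h2f hfor h01 h12
  have h2 := E_shift hE
  have h4 := ric_L hv
  have h5 := shL_v_ne hv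
  rw [map_mul shL, map_pow shL, shL_ser S1, h01]
  have h6 : (HahnSeries.C ali : LaurentSeries F) * HahnSeries.C al = 1 := by
    rw [← map_mul, mul_comm, hal, map_one]
  set w := ww F
  set a := shL (ser (PowerSeries.mk v))
  set e := phi F E
  set e' := shL (phi F E)
  have h3 : (w + HahnSeries.C ph) ^ 3 * e' ^ 3 = e ^ 3 * (w + HahnSeries.C hf) ^ 3 := by
    rw [← mul_pow, ← mul_pow, h2]
  apply mul_left_cancel₀ h5
  linear_combination e ^ 3 * ser S1 * h4 + HahnSeries.C ali * a * ser S0 * h3 +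
    HahnSeries.C ali * e ^ 3 * h1 + e ^ 3 * w ^ 3 * ser S1 * h6

end formula

/-- the product `E = ∏_{i < h} (w + 3/2 + i)` -/
theorem prod_shift (hf : F) (h2f : 2 * hf = 1) (h : ℕ) :
    (∏ i ∈ Finset.range h, (X + Polynomial.C (3 * hf + i))) * (X + Polynomial.C hf) =
      (X + Polynomial.C ((2 * h + 1 : ℕ) * hf)) *
        (∏ i ∈ Finset.range h, (X + Polynomial.C (3 * hf + i))).comp (X - 1) := by
  have e1 : (∏ i ∈ Finset.range h, (X + Polynomial.C (3 * hf + i))).comp (X - 1) =
      ∏ i ∈ Finset.range h, (X + Polynomial.C (hf + i)) := by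
    rw [prod_comp]
    refine Finset.prod_congr rfl fun i _ => ?_
    rw [add_comp, X_comp, C_comp]
    have : 3 * hf + (i : F) = 1 + (hf + i) := by linear_combination h2f
    rw [this, map_add Polynomial.C 1, C_1]
    ring
  rw [e1]
  induction h with
  | zero => simp
  | succ h ih =>
    have e2 : (∏ i ∈ Finset.range h, (X + Polynomial.C (3 * hf + i))) * (X + Polynomial.C hf) =
      (X + Polynomial.C ((2 * h + 1 : ℕ) * hf)) *
        ∏ i ∈ Finset.range h, (X + Polynomial.C (hf + i)) := by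
      apply ih
      rw [prod_comp]
      refine Finset.prod_congr rfl fun i _ => ?_
      rw [add_comp, X_comp, C_comp]
      have : 3 * hf + (i : F) = 1 + (hf + i) := by linear_combination h2f
      rw [this, map_add Polynomial.C 1, C_1]
      ring
    rw [Finset.prod_range_succ, Finset.prod_range_succ]
    have e3 : ((2 * h + 1 : ℕ) : F) * hf = hf + h := by
      push_cast
      linear_combination (h : F) * h2f
    have e4 : ((2 * (h + 1) + 1 : ℕ) : F) * hf = 3 * hf + h := by
      push_cast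
      linear_combination (h : F) * h2f
    rw [e3] at e2
    rw [e4]
    linear_combination (X + Polynomial.C (3 * hf + (h : F))) * e2

end QS2.Cls
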