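import Pool.Agent.QS2.ClsShift

/-!
# The shift of the sums `∑ κ (1/2)_m (1/2)_m' (1/2)_k / ((w+a)_m (w+a)_m' (w+a)_k)`
-/

set_option autoImplicit false

namespace QS2.Cls

open Finset QS2.NV

variable {F : Type*} [Field F]

/-- `sh` preserves divisibility by powers of `X = 1 / w` -/
theorem sh_dvd {f : PowerSeries F} {n : ℕ} (h : PowerSeries.X ^ n ∣ f) :
    PowerSeries.X ^ n ∣ sh f := by
  obtain ⟨g, rfl⟩ := h
  rw [map_mul, map_pow, sh_X, tt, mul_pow, mul_assoc]
  exact Dvd.intro _ rfl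

theorem prod_ne (m : ℕ) (a : F) :
    ∏ i ∈ range m, (1 + PowerSeries.C (a + i) * PowerSeries.X : PowerSeries F) ≠ 0 := by
  rw [prod_ne_zero_iff]
  intro i _ h
  have := congrArg PowerSeries.constantCoeff h
  simp at this

/-- the shift of `c / (w + a)_m` -/
theorem sh_frac {m : ℕ} {a c : F} {f : PowerSeries F}
    (hf : f * ∏ i ∈ range m, (1 + PowerSeries.C (a + i) * PowerSeries.X) =
      PowerSeries.C c * PowerSeries.X ^ m) :
    sh f * ∏ i ∈ range m, (1 + PowerSeries.C (a - 1 + i) * PowerSeries.X) =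
      PowerSeries.C c * PowerSeries.X ^ m := by
  have h := congrArg sh hf
  rw [map_mul, map_mul, map_pow, map_prod, sh_C, sh_X] at h
  have e1 : (∏ i ∈ range m, (1 + PowerSeries.C (a - 1 + i) * PowerSeries.X : PowerSeries F)) =
      (1 - PowerSeries.X) ^ m *
        ∏ i ∈ range m, sh (1 + PowerSeries.C (a + i) * PowerSeries.X : PowerSeries F) := by
    have e2 : ((1 - PowerSeries.X : PowerSeries F)) ^ m =
        ∏ _i ∈ range m, (1 - PowerSeries.X : PowerSeries F) := by simp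
    rw [e2, ← prod_mul_distrib]
    refine prod_congr rfl fun i _ => ?_
    rw [map_add sh, map_one sh, map_mul sh, sh_C, sh_X]
    have e3 : (PowerSeries.C (a - 1 + (i : F)) : PowerSeries F) = PowerSeries.C (a + i) - 1 := by
      have : a - 1 + (i : F) = (a + i) - 1 := by ring
      rw [this, map_sub, map_one]
    rw [e3]
    linear_combination -PowerSeries.C (a + (i : F)) * tt_mul (F := F)
  have e4 : (PowerSeries.X : PowerSeries F) ^ m = tt F ^ m * (1 - PowerSeries.X) ^ m := by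
    rw [← mul_pow, tt_mul]
  rw [e1, e4]
  linear_combination (1 - PowerSeries.X) ^ m * h

/-- uniqueness of `c / (w + a)_m` -/
theorem frac_unique {m : ℕ} {a c : F} {f g : PowerSeries F}
    (hf : f * ∏ i ∈ range m, (1 + PowerSeries.C (a + i) * PowerSeries.X) =
      PowerSeries.C c * PowerSeries.X ^ m)
    (hg : g * ∏ i ∈ range m, (1 + PowerSeries.C (a + i) * PowerSeries.X) =
      PowerSeries.C c * PowerSeries.X ^ m) : f = g :=
  mul_right_cancel₀ (prod_ne m a) (hf.trans hg.symm)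

/-- `∑ κ_{m,m',k} e_m e_m' e_k` -/
noncomputable def sigF (kap : ℕ → ℕ → ℕ → F) (e : ℕ → PowerSeries F) : PowerSeries F :=
  PowerSeries.mk fun n => ∑ m ∈ range (n + 1), ∑ m' ∈ range (n + 1), ∑ k ∈ range (n + 1),
    kap m m' k * PowerSeries.coeff n (e m * e m' * e k)

/-- the partial sums -/
noncomputable def sigT (kap : ℕ → ℕ → ℕ → F) (e : ℕ → PowerSeries F) (N : ℕ) : PowerSeries F :=
  ∑ m ∈ range (N + 1), ∑ m' ∈ range (N + 1), ∑ k ∈ range (N + 1),
    PowerSeries.C (kap m m' k) * (e m * e m' * e k)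

theorem coeff_triple {e : ℕ → PowerSeries F} (he : ∀ m, PowerSeries.X ^ m ∣ e m) {n m m' k : ℕ}
    (h : n < m ∨ n < m' ∨ n < k) : PowerSeries.coeff n (e m * e m' * e k) = 0 := by
  have h1 : PowerSeries.X ^ (n + 1) ∣ e m * e m' * e k := by
    rcases h with h | h | h
    · exact Dvd.dvd.mul_right (Dvd.dvd.mul_right ((pow_dvd_pow _ (by omega)).trans (he m)) _) _
    · exact Dvd.dvd.mul_right (Dvd.dvd.mul_left ((pow_dvd_pow _ (by omega)).trans (he m')) _) _
    · exact Dvd.dvd.mul_left ((pow_dvd_pow _ (by omega)).trans (he k)) _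
  exact PowerSeries.X_pow_dvd_iff.1 h1 n (Nat.lt_succ_self n)

theorem coeff_sigT {kap : ℕ → ℕ → ℕ → F} {e : ℕ → PowerSeries F}
    (he : ∀ m, PowerSeries.X ^ m ∣ e m) {n N : ℕ} (h : n ≤ N) :
    PowerSeries.coeff n (sigT kap e N) = PowerSeries.coeff n (sigF kap e) := by
  unfold sigT sigF
  rw [PowerSeries.coeff_mk]
  simp only [map_sum, PowerSeries.coeff_C_mul]
  have hs : range (n + 1) ⊆ range (N + 1) := range_subset_range.2 (by omega)
  symm
  refine (sum_subset hs ?_).trans ?_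
  · intro m _ hm
    rw [mem_range, not_lt] at hm
    refine sum_eq_zero fun m' _ => sum_eq_zero fun k _ => ?_
    rw [coeff_triple he (Or.inl (by omega)), mul_zero]
  refine sum_congr rfl fun m _ => ?_
  refine (sum_subset hs ?_).trans ?_
  · intro m' _ hm'
    rw [mem_range, not_lt] at hm'
    refine sum_eq_zero fun k _ => ?_
    rw [coeff_triple he (Or.inr (Or.inl (by omega))), mul_zero]
  refine sum_congr rfl fun m' _ => ?_
  refine sum_subset hs ?_
  intro k _ hk
  rw [mem_range, not_lt] at hk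
  rw [coeff_triple he (Or.inr (Or.inr (by omega))), mul_zero]

theorem sigT_sub_dvd {kap : ℕ → ℕ → ℕ → F} {e : ℕ → PowerSeries F}
    (he : ∀ m, PowerSeries.X ^ m ∣ e m) (N : ℕ) :
    PowerSeries.X ^ (N + 1) ∣ sigF kap e - sigT kap e N := by
  rw [PowerSeries.X_pow_dvd_iff]
  intro n hn
  rw [map_sub, coeff_sigT he (by omega), sub_self]

theorem sh_sigT {kap : ℕ → ℕ → ℕ → F} {e e' : ℕ → PowerSeries F} (h : ∀ m, sh (e m) = e' m)
    (N : ℕ) : sh (sigT kap e N) = sigT kap e' N := by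
  unfold sigT
  simp only [map_sum, map_mul, sh_C, h]

/-- the shift of the sum -/
theorem sh_sigF {kap : ℕ → ℕ → ℕ → F} {e e' : ℕ → PowerSeries F}
    (he : ∀ m, PowerSeries.X ^ m ∣ e m) (h : ∀ m, sh (e m) = e' m) :
    sh (sigF kap e) = sigF kap e' := by
  have he' : ∀ m, PowerSeries.X ^ m ∣ e' m := fun m => by
    rw [← h]
    exact sh_dvd (he m)
  ext n
  have h1 := sh_dvd (sigT_sub_dvd (kap := kap) he n)
  rw [map_sub, sh_sigT h] at h1
  have h2 := PowerSeries.X_pow_dvd_iff.1 h1 n (Nat.lt_succ_self n)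
  rw [map_sub, sub_eq_zero] at h2
  rw [h2, coeff_sigT he' le_rfl]

/-- `X ^ m` divides `c / (w + a)_m` -/
theorem frac_dvd {m : ℕ} {a c : F} {f : PowerSeries F}
    (hf : f * ∏ i ∈ range m, (1 + PowerSeries.C (a + i) * PowerSeries.X) =
      PowerSeries.C c * PowerSeries.X ^ m) : PowerSeries.X ^ m ∣ f := by
  have h1 : IsUnit (∏ i ∈ range m, (1 + PowerSeries.C (a + i) * PowerSeries.X : PowerSeries F)) := by
    rw [PowerSeries.isUnit_iff_constantCoeff]
    simp [map_prod]
  have h2 : PowerSeries.X ^ m ∣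
      f * ∏ i ∈ range m, (1 + PowerSeries.C (a + i) * PowerSeries.X : PowerSeries F) := by
    rw [hf]
    exact Dvd.intro_left _ rfl
  exact h1.dvd_mul_right.1 h2

/-- the shift of the triple sum, in the form of `rh_triple'` -/
theorem sh_triple {kap : ℕ → ℕ → ℕ → F} {E E' : ℕ → PowerSeries F} {a : F} {c : ℕ → F}
    (hE : ∀ m, E m * ∏ i ∈ range m, (1 + PowerSeries.C (a + i) * PowerSeries.X) =
      PowerSeries.C (c m) * PowerSeries.X ^ m)
    (hE' : ∀ m, E' m * ∏ i ∈ range m, (1 + PowerSeries.C (a - 1 + i) * PowerSeries.X) =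
      PowerSeries.C (c m) * PowerSeries.X ^ m)
    {S S' : PowerSeries F}
    (hS : ∀ n, PowerSeries.coeff n S = ∑ m ∈ range (n + 1), ∑ m' ∈ range (n + 1),
      ∑ k ∈ range (n + 1), kap m m' k * PowerSeries.coeff n (E m * E m' * E k))
    (hS' : ∀ n, PowerSeries.coeff n S' = ∑ m ∈ range (n + 1), ∑ m' ∈ range (n + 1),
      ∑ k ∈ range (n + 1), kap m m' k * PowerSeries.coeff n (E' m * E' m' * E' k)) :
    sh S = S' := by
  have h1 : S = sigF kap E := by
    ext n
    rw [hS, sigF, PowerSeries.coeff_mk]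
  have h2 : S' = sigF kap E' := by
    ext n
    rw [hS', sigF, PowerSeries.coeff_mk]
  rw [h1, h2]
  exact sh_sigF (fun m => frac_dvd (hE m)) fun m => frac_unique (sh_frac (hE m)) (hE' m)

end QS2.Cls
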