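import Pool.Agent.QS2.Defs
import Pool.Agent.QS2.Basis

/-!
# The determinant of `fullM` and the Hankel determinant

`fullM_sq` : general nodes; `DeltaR_sq` : the two-sided nodes of `Defs.lean`.
-/

set_option autoImplicit false

namespace QS2

open Finset Polynomial Matrix
open Pool.Agent.QS2 (DDn Lam Full Full0 pairMat det_basis_change det_row_scale elim_full_sq
  detsq_submatrix dPi)

section pp

variable {R : Type*} [Field R]

theorem pp_coeff (v : ℕ → R) (Q : R[X]) (d : ℕ) :
    (pp v Q).coeff d = ∑ i ∈ range (Q.natDegree + 1), Q.coeff i * (if d ≤ i then v (i - d) else 0) := by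
  unfold pp
  rw [finsetSum_coeff]
  refine sum_congr rfl (fun i _ => ?_)
  rw [finsetSum_coeff]
  simp only [coeff_C_mul, coeff_X_pow]
  by_cases h : d ≤ i
  · rw [if_pos h, sum_eq_single (i - d)]
    · rw [if_pos (by omega), mul_one]
    · intro m hm hne
      rw [if_neg, mul_zero]
      have := mem_range.mp hm
      omega
    · intro hm
      exact absurd (mem_range.mpr (by omega)) hm
  · rw [if_neg h, mul_zero]
    refine sum_eq_zero (fun m hm => ?_)
    rw [if_neg, mul_zero]
    omega

theorem pp_coeff_of_lt (v : ℕ → R) (Q : R[X]) (d Nc : ℕ) (h : Q.natDegree < Nc) :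
    (pp v Q).coeff d = ∑ i ∈ range Nc, Q.coeff i * (if d ≤ i then v (i - d) else 0) := by
  rw [pp_coeff]
  refine sum_subset (fun i hi => mem_range.mpr (by have := mem_range.mp hi; omega)) ?_
  intro i _ hi
  have hi' : Q.natDegree < i := by
    by_contra hcon
    exact hi (mem_range.mpr (by omega))
  rw [coeff_eq_zero_of_natDegree_lt hi', zero_mul]

/-- `Q ↦ coefficient of z^d in Q v` for `deg Q < Nc` -/
noncomputable def jetL (v : ℕ → R) (Nc d : ℕ) : R[X] →ₗ[R] R where
  toFun Q := ∑ i ∈ range Nc, Q.coeff i * (if d ≤ i then v (i - d) else 0)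
  map_add' P Q := by
    rw [← sum_add_distrib]
    exact sum_congr rfl (fun i _ => by rw [coeff_add, add_mul])
  map_smul' a Q := by
    rw [RingHom.id_apply, smul_eq_mul, mul_sum]
    exact sum_congr rfl (fun i _ => by rw [coeff_smul, smul_eq_mul, mul_assoc])

/-- `P ↦ P(y) a` -/
noncomputable def evL (y a : R) : R[X] →ₗ[R] R where
  toFun P := P.eval y * a
  map_add' P Q := by rw [eval_add, add_mul]
  map_smul' b P := by rw [eval_smul, smul_eq_mul, smul_eq_mul, RingHom.id_apply, mul_assoc]

/-- `P ↦ coefficient` -/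
noncomputable def cfL (d : ℕ) : R[X] →ₗ[R] R := lcoeff R d

theorem binP_natDegree (i : ℕ) : (binP R i).natDegree ≤ i := by
  unfold binP
  refine (natDegree_C_mul_le _ _).trans ?_
  exact (descPochhammer_natDegree R i).le

theorem binP_coeff (i : ℕ) : (binP R i).coeff i = ((i.factorial : R)⁻¹) := by
  unfold binP
  rw [coeff_C_mul]
  have h := (monic_descPochhammer R i).coeff_natDegree
  rw [descPochhammer_natDegree] at h
  rw [h, mul_one]

end pp

section main

variable {R : Type*} [Field R] {F : Type*} [Fintype F] [DecidableEq F] {r R0 : ℕ}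

/-- the row functionals (without the factorials of the jets) -/
noncomputable def rowL (z : F → ℤ) (u0 : F → R) (r R0 : ℕ) : F ⊕ Fin R0 → R[X] →ₗ[R] R
  | Sum.inl f => evL ((z f : ℤ) : R) (u0 f)
  | Sum.inr d => cfL (r + d)

noncomputable def rowM (z : F → ℤ) (u1 : F → R) (v : ℕ → R) (r R0 : ℕ) :
    F ⊕ Fin R0 → R[X] →ₗ[R] R
  | Sum.inl f => evL ((z f : ℤ) : R) (u1 f)
  | Sum.inr d => jetL v (r + R0) (r + d)

omit [DecidableEq F] in
/-- **The full matrix and the Hankel determinant** (general nodes, `card F = r + R0 + r`). -/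
theorem fullM_sq {n : Type*} [Fintype n] [DecidableEq n] (z : F → ℤ) (u0 u1 ρ : F → R)
    (hz : Function.Injective fun f => ((z f : ℤ) : R)) (hu : ∀ f, u1 f = ρ f * u0 f) (v : ℕ → R)
    (g : Fin (r + R0 + r) ≃ F) (e : n ≃ F ⊕ Fin R0) (f : n ≃ Fin (r + R0) ⊕ Fin (r + R0)) :
    ((fullM z u0 u1 v (r + R0) R0).submatrix e f).det ^ 2 =
      ((∏ a, u0 a) * (vandermonde fun s => ((z (g s) : ℤ) : R)).det *
        (Matrix.of fun i j : Fin (r + R0) =>
          Lam (fun s => ((z (g s) : ℤ) : R)) (fun s => ρ (g s)) v ((i : ℕ) + j)).det *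
        (∏ d : Fin R0, ((r + d).factorial : R)) *
        (∏ i ∈ range (r + R0), ((i.factorial : R)⁻¹)) ^ 2) ^ 2 := by
  -- relabel the rows by the columns
  set f' : Fin (r + R0) ⊕ Fin (r + R0) ≃ Fin (r + R0) ⊕ Fin (r + R0) := Equiv.refl _ with hf'
  set e' : Fin (r + R0) ⊕ Fin (r + R0) ≃ F ⊕ Fin R0 := (f.symm.trans e) with he'
  rw [detsq_submatrix _ e f e' f']
  -- fullM through functionals
  have h1 : (fullM z u0 u1 v (r + R0) R0).submatrix e' f' =
      (Matrix.of fun a t => Sum.elim (fun _ => (1 : R)) (fun d : Fin R0 => ((r + d).factorial : R))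
        (e' a) * pairMat (fun a => rowL z u0 r R0 (e' a)) (fun a => rowM z u1 v r R0 (e' a))
          (binP R) (r + R0) a t).submatrix id f' := by
    ext a t
    rw [submatrix_apply, submatrix_apply]
    have hRR : r + R0 - R0 = r := by omega
    rcases he : e' a with q | d <;> rcases t with i | i
    · change (binP R i).eval ((z q : ℤ) : R) * u0 q = _
      simp only [Matrix.of_apply, id, he, Sum.elim_inl, one_mul]
      change _ = rowL z u0 r R0 (e' a) (binP R i)
      rw [he]
      rfl
    · change (binP R i).eval ((z q : ℤ) : R) * u1 q = _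
      simp only [Matrix.of_apply, id, he, Sum.elim_inl, one_mul]
      change _ = rowM z u1 v r R0 (e' a) (binP R i)
      rw [he]
      rfl
    · change ((r + R0 - R0 + d).factorial : R) * (binP R i).coeff (r + R0 - R0 + d) = _
      simp only [Matrix.of_apply, id, he, Sum.elim_inr, hRR]
      congr 1
      change _ = rowL z u0 r R0 (e' a) (binP R i)
      rw [he]
      rfl
    · change ((r + R0 - R0 + d).factorial : R) * (pp v (binP R i)).coeff (r + R0 - R0 + d) = _
      simp only [Matrix.of_apply, id, he, Sum.elim_inr, hRR]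
      congr 1
      change _ = rowM z u1 v r R0 (e' a) (binP R i)
      rw [he, pp_coeff_of_lt v _ _ (r + R0) (lt_of_le_of_lt (binP_natDegree i) i.2)]
      rfl
  have h2 := det_row_scale (pairMat (fun a => rowL z u0 r R0 (e' a))
    (fun a => rowM z u1 v r R0 (e' a)) (binP R) (r + R0)) (Matrix.of fun a t =>
      Sum.elim (fun _ => (1 : R)) (fun d : Fin R0 => ((r + d).factorial : R))
        (e' a) * pairMat (fun a => rowL z u0 r R0 (e' a)) (fun a => rowM z u1 v r R0 (e' a))
          (binP R) (r + R0) a t) (fun a => Sum.elim (fun _ => (1 : R))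
            (fun d : Fin R0 => ((r + d).factorial : R)) (e' a)) f' (fun _ _ => rfl)
  have h3 : ∏ a, Sum.elim (fun _ => (1 : R)) (fun d : Fin R0 => ((r + d).factorial : R)) (e' a) =
      ∏ d : Fin R0, ((r + d).factorial : R) := by
    rw [e'.prod_comp (fun a => Sum.elim (fun _ => (1 : R))
      (fun d : Fin R0 => ((r + d).factorial : R)) a), Fintype.prod_sum_type]
    simp
  have h4 := det_basis_change (fun a => rowL z u0 r R0 (e' a)) (fun a => rowM z u1 v r R0 (e' a))
    (binP R) (fun i => ((i.factorial : R)⁻¹)) (fun i => binP_natDegree i) (fun i => binP_coeff i) f'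
  -- monomial basis = Full
  have h5 : ((pairMat (fun a => rowL z u0 r R0 (e' a)) (fun a => rowM z u1 v r R0 (e' a))
      (fun i => X ^ i) (r + R0)).submatrix id f') =
      (Full (fun s => ((z (g s) : ℤ) : R)) (fun s => u0 (g s)) (fun s => u1 (g s)) v).submatrix
        (e'.trans (Equiv.sumCongr g.symm (Equiv.refl _))) f' := by
    ext a t
    rw [submatrix_apply, submatrix_apply]
    rcases he : e' a with q | d <;> rcases t with i | i
    · change rowL z u0 r R0 (e' a) (X ^ (i : ℕ)) = Full _ _ _ _ (Sum.map g.symm id (e' a)) (Sum.inl i)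
      rw [he]
      change (X ^ (i : ℕ) : R[X]).eval ((z q : ℤ) : R) * u0 q =
        ((z (g (g.symm q)) : ℤ) : R) ^ (i : ℕ) * u0 (g (g.symm q))
      rw [Equiv.apply_symm_apply, eval_pow, eval_X]
    · change rowM z u1 v r R0 (e' a) (X ^ (i : ℕ)) = Full _ _ _ _ (Sum.map g.symm id (e' a)) (Sum.inr i)
      rw [he]
      change (X ^ (i : ℕ) : R[X]).eval ((z q : ℤ) : R) * u1 q =
        ((z (g (g.symm q)) : ℤ) : R) ^ (i : ℕ) * u1 (g (g.symm q))
      rw [Equiv.apply_symm_apply, eval_pow, eval_X]
    · change rowL z u0 r R0 (e' a) (X ^ (i : ℕ)) = Full _ _ _ _ (Sum.map g.symm id (e' a)) (Sum.inl i)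
      rw [he]
      change (X ^ (i : ℕ) : R[X]).coeff (r + d) = if (i : ℕ) = r + d then 1 else 0
      rw [coeff_X_pow]
      simp only [eq_comm]
    · change rowM z u1 v r R0 (e' a) (X ^ (i : ℕ)) = Full _ _ _ _ (Sum.map g.symm id (e' a)) (Sum.inr i)
      rw [he]
      change ∑ l ∈ range (r + R0), (X ^ (i : ℕ) : R[X]).coeff l *
        (if r + d ≤ l then v (l - (r + d)) else 0) = if r + d ≤ (i : ℕ) then v (i - (r + d)) else 0
      rw [sum_eq_single (i : ℕ)]
      · rw [coeff_X_pow, if_pos rfl, one_mul]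
      · intro l _ hl
        rw [coeff_X_pow, if_neg hl, zero_mul]
      · intro hi
        exact absurd (mem_range.mpr i.2) hi
  have h6 := elim_full_sq (fun s => ((z (g s) : ℤ) : R)) (fun s => u0 (g s)) (fun s => u1 (g s))
    (fun s => ρ (g s)) (fun a b h => g.injective (hz h)) (fun s => hu (g s)) v
    (e'.trans (Equiv.sumCongr g.symm (Equiv.refl _))) f'
  have h7 : ∏ s, u0 (g s) = ∏ a, u0 a := g.prod_comp u0
  rw [h1, h2, h3, h4, h5]
  rw [h7] at h6
  rw [mul_pow, mul_pow, h6]
  ring

end main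

end QS2
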