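import Pool.Agent.QS2.ClsDefs
import Pool.Agent.QS2.Link

/-!
# QS2, odd class rule: good pairs from the data

`good_of_data` : `P_D = -p^{-k} w^r V'_k`, `Q_D = p^{-k} w^r V_k`, `D = dg p + 3 + p k + r`.
-/

set_option autoImplicit false

namespace QS2.Cls

open Polynomial Finset

variable {p : ℕ} [hp : Fact p.Prime]

/-! ## Units of `Op p` -/

theorem isUnit_intCast {m : ℤ} (hm : ¬ (p : ℤ) ∣ m) : IsUnit ((m : ℤ) : Op p) := by
  have hn : padicNorm p (m : ℚ) = 1 := (padicNorm.int_eq_one_iff m).2 hm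
  have hm0 : (m : ℚ) ≠ 0 := by
    intro h
    rw [h, padicNorm.zero] at hn
    exact zero_ne_one hn
  have hx : (⟨(m : ℚ)⁻¹, 0⟩ : K) ∈ Op p := by
    rw [mem_Op]
    refine ⟨?_, ?_⟩
    · change padicNorm p ((m : ℚ)⁻¹) ≤ 1
      rw [← one_div, padicNorm.div, hn, padicNorm.one]
      norm_num
    · change padicNorm p 0 ≤ 1
      rw [padicNorm.zero]
      exact zero_le_one
  refine IsUnit.of_mul_eq_one (⟨_, hx⟩ : Op p) ?_
  apply Subtype.ext
  change ((m : ℤ) : K) * (⟨(m : ℚ)⁻¹, 0⟩ : K) = 1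
  apply QuadraticAlgebra.ext
  · simp [hm0]
    rfl
  · simp
    rfl

theorem isUnit_sub {c : ℕ} (h1 : 1 ≤ c) (h2 : c < p) : IsUnit ((c : Op p) - p) := by
  have h : ¬ (p : ℤ) ∣ ((c : ℤ) - p) := by
    intro h
    have h3 : (p : ℤ) ∣ c := by
      have := dvd_add h (dvd_refl (p : ℤ))
      rwa [sub_add_cancel] at this
    have h4 : p ∣ c := by exact_mod_cast h3
    exact absurd (Nat.le_of_dvd h1 h4) (by omega)
  have := isUnit_intCast h
  push_cast at this
  exact this

theorem unitOp_of_isUnit {x : Op p} (h : IsUnit x) : UnitOp p (x : K) := by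
  obtain ⟨y, hy⟩ := h.exists_right_inv
  have hy' : (x : K) * (y : K) = 1 := by
    have := congrArg (fun z : Op p => (z : K)) hy
    simpa using this
  have hx : (x : K) ≠ 0 := left_ne_zero_of_mul_eq_one hy'
  refine ⟨hx, x.2, ?_⟩
  rw [inv_eq_of_mul_eq_one_right hy']
  exact y.2

/-! ## The map `toK` -/

theorem toK_coeff (F : (Op p)[X]) (n : ℕ) : (toK p F).coeff n = ((F.coeff n : Op p) : K) := by
  unfold toK
  rw [coe_mapRingHom, coeff_map]
  rfl

theorem toK_eval (F : (Op p)[X]) (a : Op p) : (toK p F).eval (a : K) = ((F.eval a : Op p) : K) := by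
  unfold toK
  rw [coe_mapRingHom]
  exact eval_map_apply (Op p).subtype a

theorem toK_natDegree (F : (Op p)[X]) : (toK p F).natDegree ≤ F.natDegree := by
  unfold toK
  rw [coe_mapRingHom]
  exact natDegree_map_le

theorem map_apG {R S : Type*} [CommRing R] [CommRing S] (f : R →+* S) (w : R[X]) :
    (ap w).map f = ap (w.map f) := by
  unfold ap
  simp only [Polynomial.map_add, Polynomial.map_mul, Polynomial.map_pow, Polynomial.map_ofNat]

theorem trA_mapG {R S : Type*} [CommRing R] [CommRing S] (f : R →+* S) (j : ℕ) :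
    (trA R j).map f = trA S j := by
  induction j using Nat.twoStepInduction with
  | zero => simp [trA]
  | one => simp [trA, map_apG]
  | more j h1 h2 =>
    rw [trA, trA, Polynomial.map_sub, Polynomial.map_mul, Polynomial.map_mul, map_apG, h1, h2]
    simp only [Polynomial.map_add, Polynomial.map_X, Polynomial.map_natCast, Polynomial.map_pow]

theorem trA_eval (j : ℕ) (a : Op p) :
    (trA K j).eval (a : K) = (((trA (Op p) j).eval a : Op p) : K) := by
  rw [← trA_mapG (Op p).subtype j]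
  exact eval_map_apply (Op p).subtype a

/-! ## `descPochhammer` -/

theorem descPochhammer_comp_sub_one (hp1 : 1 ≤ p) (O : Type*) [CommRing O] :
    ∃ z : O[X], (descPochhammer O p).comp (X - 1) = (X - C (p : O)) * z := by
  obtain ⟨q, rfl⟩ : ∃ q, p = q + 1 := ⟨p - 1, by omega⟩
  refine ⟨(descPochhammer O q).comp (X - 1), ?_⟩
  rw [descPochhammer_succ_right, mul_comp, sub_comp, X_comp, natCast_comp]
  push_cast
  simp only [C_add, C_1, map_natCast]
  ring

theorem dvd_descPochhammer_eval (n : ℤ) :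
    ((p : ℕ) : Op p) ∣ (descPochhammer (Op p) p).eval (n : Op p) := by
  rw [descPochhammer_eval_eq_prod_range]
  have hp0 : 0 < (p : ℤ) := by exact_mod_cast hp.out.pos
  have h1 := Int.emod_nonneg n hp0.ne'
  have h2 := Int.emod_lt_of_pos n hp0
  have hj : (n % p).toNat ∈ range p := by
    rw [mem_range]
    omega
  refine Dvd.dvd.trans ?_ (Finset.dvd_prod_of_mem _ hj)
  have h3 : n - ((n % p).toNat : ℤ) = p * (n / p) := by
    have := Int.emod_add_mul_ediv n p
    rw [Int.toNat_of_nonneg h1]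
    linarith
  refine ⟨((n / p : ℤ) : Op p), ?_⟩
  have h4 := congrArg (fun z : ℤ => ((z : ℤ) : Op p)) h3
  push_cast at h4
  exact h4

/-! ## Consequences of `step` -/

theorem fil_comp_of_step {V : ℕ → (Op p)[X]}
    (step : ∀ k, C ((p : Op p) ^ (k + 1)) ∣ V (k + 1) - descPochhammer (Op p) p * V k)
    (k : ℕ) : ∀ m, k ≤ m → Fil (p : Op p) m k ((V k).comp (X - 1)) := by
  induction k with
  | zero => intro m _; exact Fil.any _
  | succ k ih =>
    intro m hm
    obtain ⟨E, hE⟩ := step k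
    obtain ⟨z, hz⟩ := descPochhammer_comp_sub_one hp.out.one_le (Op p)
    have e1 : V (k + 1) = descPochhammer (Op p) p * V k + C ((p : Op p) ^ (k + 1)) * E := by
      rw [← hE]; ring
    have e2 : (V (k + 1)).comp (X - 1) = ((X - C (p : Op p)) * z) * (V k).comp (X - 1)
        + C ((p : Op p) ^ (k + 1)) * E.comp (X - 1) := by
      rw [e1, add_comp, mul_comp, mul_comp, C_comp, hz]
    rw [e2]
    refine Fil.add ?_ ?_
    · have h1 : Fil (p : Op p) m 1 ((X - C (p : Op p)) * z) :=
        (Fil.vX.sub Fil.Cp).mul_right z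
      have := h1.mul (ih m (by omega))
      rwa [add_comm] at this
    · refine Fil.mul_right _ ?_
      rw [C_pow]
      have := (Fil.Cp (p := (p : Op p)) (k := m)).pow (k + 1)
      rwa [mul_one] at this

theorem dvd_eval_of_step {V : ℕ → (Op p)[X]}
    (step : ∀ k, C ((p : Op p) ^ (k + 1)) ∣ V (k + 1) - descPochhammer (Op p) p * V k)
    (n : ℤ) (k : ℕ) : (p : Op p) ^ k ∣ (V k).eval (n : Op p) := by
  induction k with
  | zero => rw [pow_zero]; exact one_dvd _
  | succ k ih =>
    obtain ⟨E, hE⟩ := step k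
    have e1 : V (k + 1) = descPochhammer (Op p) p * V k + C ((p : Op p) ^ (k + 1)) * E := by
      rw [← hE]; ring
    rw [e1, eval_add, eval_mul, eval_mul, eval_C]
    refine dvd_add ?_ (dvd_mul_right _ _)
    rw [pow_succ']
    exact mul_dvd_mul (dvd_descPochhammer_eval n) ih

/-! ## Values -/

theorem eval_of_fil {F : (Op p)[X]} {k : ℕ} (h : Fil (p : Op p) k (k + 3) F) :
    ∃ g0 g1 g2 : Op p, ∀ m : Op p, ∃ r : Op p,
      F.eval ((p : Op p) * m) = (p : Op p) ^ k *
        (g0 + g1 * ((p : Op p) * m) + g2 * ((p : Op p) * m) ^ 2 + (p : Op p) ^ 3 * r) := by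
  have h0 : ∀ i, i ≤ 2 → (p : Op p) ^ k ∣ F.coeff i := fun i hi =>
    (pow_dvd_pow _ (by omega)).trans (h i)
  obtain ⟨g0, hg0⟩ := h0 0 (by omega)
  obtain ⟨g1, hg1⟩ := h0 1 (by omega)
  obtain ⟨g2, hg2⟩ := h0 2 (by omega)
  refine ⟨g0, g1, g2, fun m => ?_⟩
  have hrest : (p : Op p) ^ (k + 3) ∣
      ∑ i ∈ range (F.natDegree + 1), F.coeff (3 + i) * ((p : Op p) * m) ^ (3 + i) := by
    refine dvd_sum fun i _ => ?_
    have h1 := mul_dvd_mul (h (3 + i)) (pow_dvd_pow_of_dvd (dvd_mul_right (p : Op p) m) (3 + i))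
    rw [← pow_add] at h1
    exact (pow_dvd_pow _ (by omega)).trans h1
  obtain ⟨r, hr⟩ := hrest
  refine ⟨r, ?_⟩
  rw [eval_eq_sum_range' (n := 3 + (F.natDegree + 1)) (by omega), Finset.sum_range_add, hr]
  simp only [Finset.sum_range_succ, Finset.sum_range_zero, hg0, hg1, hg2]
  ring

/-! ## Jets -/

theorem pp_coeff_shift (v : ℕ → K) (F : K[X]) (a : K) (r d : ℕ) (h : r ≤ d) :
    (pp v (C a * (X ^ r * F))).coeff d = a * (pp v F).coeff (d - r) := by
  have h1 : (C a * (X ^ r * F)).natDegree < r + (F.natDegree + 1) := by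
    have h2 : (C a * (X ^ r * F)).natDegree ≤ (X ^ r * F).natDegree := natDegree_C_mul_le _ _
    have h3 : (X ^ r * F).natDegree ≤ (X ^ r : K[X]).natDegree + F.natDegree := natDegree_mul_le
    rw [natDegree_X_pow] at h3
    omega
  rw [pp_coeff_of_lt _ _ _ _ h1, Finset.sum_range_add, pp_coeff, mul_sum]
  have h4 : ∑ i ∈ range r, (C a * (X ^ r * F)).coeff i * (if d ≤ i then v (i - d) else 0) = 0 := by
    refine sum_eq_zero fun i hi => ?_
    rw [mem_range] at hi
    rw [if_neg (by omega), mul_zero]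
  rw [h4, zero_add]
  refine sum_congr rfl fun i _ => ?_
  rw [coeff_C_mul, add_comm r i, coeff_X_pow_mul]
  by_cases hd : d ≤ i + r
  · rw [if_pos hd, if_pos (by omega)]
    have : i + r - d = i - (d - r) := by omega
    rw [this]
    ring
  · rw [if_neg hd, if_neg (by omega)]
    ring

/-! ## The good pairs -/

/-- the level of `D` -/
def kD (p D : ℕ) : ℕ := (D - (dg p + 3)) / p

/-- the rest of `D` -/
def rD (p D : ℕ) : ℕ := (D - (dg p + 3)) % p

theorem kr_eq (p D : ℕ) (hD : dg p + 3 ≤ D) : D = rD p D + (dg p + 3 + p * kD p D) := by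
  have := Nat.mod_add_div (D - (dg p + 3)) p
  unfold kD rD
  omega

/-- `P_D` -/
noncomputable def PG (p : ℕ) [Fact p.Prime] (V' : ℕ → (Op p)[X]) (D : ℕ) : K[X] :=
  C (-((p : K) ^ kD p D)⁻¹) * (X ^ rD p D * toK p (V' (kD p D)))

/-- `Q_D` -/
noncomputable def QG (p : ℕ) [Fact p.Prime] (V : ℕ → (Op p)[X]) (D : ℕ) : K[X] :=
  C (((p : K) ^ kD p D)⁻¹) * (X ^ rD p D * toK p (V (kD p D)))

theorem pK_ne_zero : (p : K) ≠ 0 := by
  exact_mod_cast hp.out.ne_zero

theorem natDegree_PQ {F : (Op p)[X]} {a : K} {r n : ℕ} (h : F.natDegree ≤ n) :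
    (C a * (X ^ r * toK p F)).natDegree ≤ r + n := by
  have h2 : (C a * (X ^ r * toK p F)).natDegree ≤ (X ^ r * toK p F).natDegree :=
    natDegree_C_mul_le _ _
  have h3 : (X ^ r * toK p F).natDegree ≤ (X ^ r : K[X]).natDegree + (toK p F).natDegree :=
    natDegree_mul_le
  rw [natDegree_X_pow] at h3
  have h4 := toK_natDegree F
  omega

theorem int_of_dvd {F : (Op p)[X]} {k r : ℕ} {a : K} (ha : a * (p : K) ^ k ∈ Op p) (n : ℤ)
    (h : (p : Op p) ^ k ∣ F.eval (n : Op p)) :
    (C a * (X ^ r * toK p F)).eval (n : K) ∈ Op p := by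
  obtain ⟨g, hg⟩ := h
  have h1 : (toK p F).eval (n : K) = (p : K) ^ k * (g : K) := by
    have := toK_eval F (n : Op p)
    rw [hg] at this
    push_cast at this
    exact this
  rw [eval_mul, eval_C, eval_mul, eval_pow, eval_X, h1]
  have h2 : a * ((n : K) ^ r * ((p : K) ^ k * (g : K))) =
      (a * (p : K) ^ k) * ((n : K) ^ r * (g : K)) := by ring
  rw [h2]
  exact (Op p).mul_mem ha ((Op p).mul_mem ((Op p).pow_mem (intCast_mem (Op p) n) r) g.2)

/-- **good pairs from the data** -/
theorem good_of_data {v : ℕ → K} {half al ali : Op p} {V V' : ℕ → (Op p)[X]}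
    (hd : Data p v half al ali V V') : ∃ P Q, Good p v P Q := by
  have hp0 : (p : K) ≠ 0 := pK_ne_zero
  have hinv : ∀ k, ((p : K) ^ k)⁻¹ * (p : K) ^ k = 1 := fun k =>
    inv_mul_cancel₀ (pow_ne_zero _ hp0)
  refine ⟨PG p V', QG p V, ?_, ?_, ?_, ?_, ?_, ?_, ?_⟩
  · -- degP
    intro D hD
    have h1 := natDegree_PQ (a := -((p : K) ^ kD p D)⁻¹) (r := rD p D) (hd.deg' (kD p D))
    have h2 := kr_eq p D hD
    unfold PG
    omega
  · -- degQ
    intro D hD
    have h1 := natDegree_PQ (a := ((p : K) ^ kD p D)⁻¹) (r := rD p D) (hd.deg (kD p D))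
    have h2 := kr_eq p D hD
    unfold QG
    omega
  · -- lead
    intro D hD
    have h2 := kr_eq p D hD
    refine ⟨(((V (kD p D)).coeff (dg p + p * kD p D) : Op p) : K),
      unitOp_of_isUnit (hd.lead _), ?_, ?_⟩
    · change (p : K) ^ kD p D * (QG p V D).coeff (D - 3) = _
      have e1 : D - 3 = (dg p + p * kD p D) + rD p D := by omega
      unfold QG
      rw [e1, coeff_C_mul, coeff_X_pow_mul, toK_coeff, ← mul_assoc, mul_comm ((p : K) ^ _),
        hinv, one_mul]
    · change (p : K) ^ kD p D * (PG p V' D).coeff D = _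
      have e1 : D = (dg p + 3 + p * kD p D) + rD p D := by omega
      have e2 : (PG p V' D).coeff D = -((p : K) ^ kD p D)⁻¹ *
          (((V' (kD p D)).coeff (dg p + 3 + p * kD p D) : Op p) : K) := by
        unfold PG
        conv_lhs => rw [show ((C (-((p : K) ^ kD p D)⁻¹) *
          (X ^ rD p D * toK p (V' (kD p D))) : K[X])).coeff D =
          ((C (-((p : K) ^ kD p D)⁻¹) * (X ^ rD p D * toK p (V' (kD p D))) : K[X])).coeff
            ((dg p + 3 + p * kD p D) + rD p D) from by rw [← e1]]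
        rw [coeff_C_mul, coeff_X_pow_mul, toK_coeff]
      rw [e2, hd.lead']
      push_cast
      rw [hd.al_eq]
      have := hinv (kD p D)
      linear_combination (-(alpha * (((V (kD p D)).coeff (dg p + p * kD p D) : Op p) : K))) * this
  · -- jet
    intro D hD d hd2
    have hr : rD p D < p := Nat.mod_lt _ hp.out.pos
    have e1 : (X + 1) ^ 3 * QG p V D = C (((p : K) ^ kD p D)⁻¹) *
        (X ^ rD p D * ((X + 1) ^ 3 * toK p (V (kD p D)))) := by
      unfold QG
      ring
    have e3 : (PG p V' D).coeff d = -((p : K) ^ kD p D)⁻¹ *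
        (toK p (V' (kD p D))).coeff (d - rD p D) := by
      unfold PG
      have e4 : d = (d - rD p D) + rD p D := by omega
      conv_lhs => rw [e4]
      rw [coeff_C_mul, coeff_X_pow_mul]
    rw [e1, pp_coeff_shift _ _ _ _ _ (by omega), hd.jets _ _ (by omega), e3]
    ring
  · -- intP
    intro D hD n
    refine int_of_dvd (k := kD p D) ?_ n (dvd_eval_of_step hd.step' n _)
    rw [neg_mul, hinv]
    exact (Op p).neg_mem (Op p).one_mem
  · -- intQ
    intro D hD n
    refine int_of_dvd (k := kD p D) ?_ n (dvd_eval_of_step hd.step n _)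
    rw [hinv]
    exact (Op p).one_mem
  · -- nice
    intro D hD c hc
    set k := kD p D with hk
    have hF : Fil (p : Op p) k (k + 3) ((X + C (c : Op p)) ^ rD p D * Yc (V k) (V' k) c) := by
      refine Fil.mul_left _ ?_
      exact local_fil (half := half) hd.al_ali
        (hd.J k) (hd.J' k) (fil_comp_of_step hd.step k k le_rfl)
        (fun c h1 h2 => isUnit_sub h1 h2) c hc
    obtain ⟨g0, g1, g2, hg⟩ := eval_of_fil hF
    refine ⟨g0, g1, g2, g0.2, g1.2, g2.2, fun m => ?_⟩
    obtain ⟨r, hr⟩ := hg (m : Op p)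
    refine ⟨r, r.2, ?_⟩
    have hr2 := congrArg (fun z : Op p => (z : K)) hr
    have hV : (toK p (V k)).eval ((c : K) + p * m) =
        (((V k).eval ((c : Op p) + p * m) : Op p) : K) := by
      have := toK_eval (V k) ((c : Op p) + p * m)
      push_cast at this
      exact this
    have hV' : (toK p (V' k)).eval ((c : K) + p * m) =
        (((V' k).eval ((c : Op p) + p * m) : Op p) : K) := by
      have := toK_eval (V' k) ((c : Op p) + p * m)
      push_cast at this
      exact this
    have hA : ∀ j, (trA K j).eval ((p : K) * m) =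
        (((trA (Op p) j).eval ((p : Op p) * m) : Op p) : K) := by
      intro j
      have := trA_eval (p := p) j ((p : Op p) * (m : Op p))
      push_cast at this
      exact this
    have e5 : (Yc (V k) (V' k) c).eval ((p : Op p) * m) =
        (trA (Op p) (c + 1)).eval ((p : Op p) * m) * (V k).eval ((c : Op p) + p * m)
        - (trA (Op p) c).eval ((p : Op p) * m) * (V' k).eval ((c : Op p) + p * m) := by
      unfold Yc
      rw [eval_sub, eval_mul, eval_mul, eval_comp, eval_comp]
      simp only [eval_add, eval_X, eval_natCast]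
      rw [add_comm ((p : Op p) * m) (c : Op p)]
    rw [eval_mul, eval_pow, eval_add, eval_X, eval_C, e5] at hr2
    push_cast at hr2
    unfold PG QG
    rw [← hk]
    simp only [eval_mul, eval_C, eval_pow, eval_X, hV, hV', hA]
    have h6 := hinv k
    linear_combination ((p : K) ^ k)⁻¹ * hr2 +
      ((g0 : K) + (g1 : K) * ((p : K) * (m : K)) + (g2 : K) * ((p : K) * (m : K)) ^ 2
        + (p : K) ^ 3 * (r : K)) * h6

end QS2.Cls
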