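import Mathlib

/-!
# QS2, class rule: low-rank determinant lemma

If `T = B + X * diag (1 / d k) * Y` with `B`, `X`, `Y`, `d` over a subring `R` of a field, then
`(∏ k, d k) * det T ∈ R` (Schur complement). Special cases: four groups of rows
(`det_four`), and value rows sorted by classes (`det_classes`).
-/

set_option autoImplicit false

namespace QS2.Cls

open Matrix Finset

variable {F : Type*} [Field F]

/-- a determinant with entries in a subring lies in the subring -/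
theorem det_mem_of_entries (R : Subring F) {ι : Type*} [Fintype ι] [DecidableEq ι]
    (M : Matrix ι ι F) (h : ∀ i j, M i j ∈ R) : M.det ∈ R := by
  rw [Matrix.det_apply']
  apply R.sum_mem
  intro σ _
  exact R.mul_mem (intCast_mem R _) (R.prod_mem (fun i _ => h _ _))

/-- **low-rank lemma** -/
theorem det_lowrank_mem (R : Subring F) {ι κ : Type*} [Fintype ι] [DecidableEq ι] [Fintype κ]
    [DecidableEq κ] (B : Matrix ι ι F) (X : Matrix ι κ F) (Y : Matrix κ ι F) (d : κ → F)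
    (hd : ∀ k, d k ≠ 0) (hdR : ∀ k, d k ∈ R) (hB : ∀ i j, B i j ∈ R) (hX : ∀ i k, X i k ∈ R)
    (hY : ∀ k i, Y k i ∈ R) :
    (∏ k, d k) * (B + X * Matrix.diagonal (fun k => (d k)⁻¹) * Y).det ∈ R := by
  have hinv : Matrix.diagonal d * Matrix.diagonal (fun k => (d k)⁻¹) = 1 := by
    rw [Matrix.diagonal_mul_diagonal]
    rw [← Matrix.diagonal_one]
    congr 1
    funext k
    exact mul_inv_cancel₀ (hd k)
  have hinv' : Matrix.diagonal (fun k => (d k)⁻¹) * Matrix.diagonal d = 1 := by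
    rw [Matrix.diagonal_mul_diagonal]
    rw [← Matrix.diagonal_one]
    congr 1
    funext k
    exact inv_mul_cancel₀ (hd k)
  let I : Invertible (Matrix.diagonal d) := ⟨_, hinv', hinv⟩
  have h1 := Matrix.det_fromBlocks₁₁ (Matrix.diagonal d) (-Y) X B
  have h2 : (⅟(Matrix.diagonal d) : Matrix κ κ F) = Matrix.diagonal (fun k => (d k)⁻¹) := rfl
  rw [h2, Matrix.det_diagonal, Matrix.mul_neg, sub_neg_eq_add] at h1
  rw [← h1]
  apply det_mem_of_entries
  rintro (a | a) (b | b)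
  · simp only [Matrix.fromBlocks_apply₁₁, Matrix.diagonal_apply]
    split_ifs
    · exact hdR _
    · exact R.zero_mem
  · simp only [Matrix.fromBlocks_apply₁₂, Matrix.neg_apply]
    exact R.neg_mem (hY _ _)
  · simpa using hX _ _
  · simpa using hB _ _

/-- four groups: `T = p⁻³ X₀F₀ + p⁻² X₁F₁ + p⁻¹ X₂F₂ + p⁻³ X₅F₅ + B` -/
theorem det_four (R : Subring F) {p : F} (hp : p ∈ R) (hp0 : p ≠ 0) {ι : Type*} [Fintype ι]
    [DecidableEq ι] (np n5 : ℕ) (T B : Matrix ι ι F) (X0 X1 X2 : Matrix ι (Fin np) F)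
    (F0 F1 F2 : Matrix (Fin np) ι F) (X5 : Matrix ι (Fin n5) F) (F5 : Matrix (Fin n5) ι F)
    (hX0 : ∀ i k, X0 i k ∈ R) (hX1 : ∀ i k, X1 i k ∈ R) (hX2 : ∀ i k, X2 i k ∈ R)
    (hX5 : ∀ i k, X5 i k ∈ R) (hF0 : ∀ k i, F0 k i ∈ R) (hF1 : ∀ k i, F1 k i ∈ R)
    (hF2 : ∀ k i, F2 k i ∈ R) (hF5 : ∀ k i, F5 k i ∈ R) (hB : ∀ i j, B i j ∈ R)
    (hT : ∀ i j, p ^ 3 * T i j = ∑ k, X0 i k * F0 k j + p * ∑ k, X1 i k * F1 k j
      + p ^ 2 * ∑ k, X2 i k * F2 k j + ∑ k, X5 i k * F5 k j + p ^ 3 * B i j) :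
    p ^ (6 * np + 3 * n5) * T.det ∈ R := by
  set X : Matrix ι ((Fin np ⊕ Fin np) ⊕ (Fin np ⊕ Fin n5)) F := Matrix.of fun i k =>
    Sum.elim (Sum.elim (X0 i) (X1 i)) (Sum.elim (X2 i) (X5 i)) k with hXd
  set Y : Matrix ((Fin np ⊕ Fin np) ⊕ (Fin np ⊕ Fin n5)) ι F := Matrix.of fun k i =>
    Sum.elim (Sum.elim (fun k => F0 k i) (fun k => F1 k i))
      (Sum.elim (fun k => F2 k i) (fun k => F5 k i)) k with hYd
  set d : ((Fin np ⊕ Fin np) ⊕ (Fin np ⊕ Fin n5)) → F :=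
    Sum.elim (Sum.elim (fun _ => p ^ 3) (fun _ => p ^ 2))
      (Sum.elim (fun _ => p) (fun _ => p ^ 3)) with hdd
  have h := det_lowrank_mem R B X Y d
    (by rintro ((k | k) | (k | k)) <;> simp [hdd, hp0])
    (by
      rintro ((k | k) | (k | k)) <;> simp only [hdd, Sum.elim_inl, Sum.elim_inr]
      · exact R.pow_mem hp _
      · exact R.pow_mem hp _
      · exact hp
      · exact R.pow_mem hp _)
    hB
    (by
      rintro i ((k | k) | (k | k))
      · exact hX0 _ _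
      · exact hX1 _ _
      · exact hX2 _ _
      · exact hX5 _ _)
    (by
      rintro ((k | k) | (k | k)) i
      · exact hF0 _ _
      · exact hF1 _ _
      · exact hF2 _ _
      · exact hF5 _ _)
  have hprod : ∏ k, d k = p ^ (6 * np + 3 * n5) := by
    rw [Fintype.prod_sum_type, Fintype.prod_sum_type, Fintype.prod_sum_type]
    simp only [hdd, Sum.elim_inl, Sum.elim_inr, prod_const, card_univ, Fintype.card_fin]
    ring
  have hTe : B + X * Matrix.diagonal (fun k => (d k)⁻¹) * Y = T := by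
    ext i j
    have hp3 : p ^ 3 ≠ 0 := pow_ne_zero _ hp0
    apply mul_left_cancel₀ hp3
    rw [hT i j]
    rw [Matrix.add_apply, Matrix.mul_assoc, Matrix.mul_apply]
    simp only [Matrix.diagonal_mul, Fintype.sum_sum_type, hXd, hYd, hdd, Matrix.of_apply,
      Sum.elim_inl, Sum.elim_inr]
    have e0 : ∑ x, X0 i x * ((p ^ 3)⁻¹ * F0 x j) = (p ^ 3)⁻¹ * ∑ x, X0 i x * F0 x j := by
      rw [mul_sum]; exact sum_congr rfl (fun _ _ => by ring)
    have e1 : ∑ x, X1 i x * ((p ^ 2)⁻¹ * F1 x j) = (p ^ 2)⁻¹ * ∑ x, X1 i x * F1 x j := by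
      rw [mul_sum]; exact sum_congr rfl (fun _ _ => by ring)
    have e2 : ∑ x, X2 i x * (p⁻¹ * F2 x j) = p⁻¹ * ∑ x, X2 i x * F2 x j := by
      rw [mul_sum]; exact sum_congr rfl (fun _ _ => by ring)
    have e5 : ∑ x, X5 i x * ((p ^ 3)⁻¹ * F5 x j) = (p ^ 3)⁻¹ * ∑ x, X5 i x * F5 x j := by
      rw [mul_sum]; exact sum_congr rfl (fun _ _ => by ring)
    rw [e0, e1, e2, e5]
    field_simp
    ring
  rw [hprod, hTe] at h
  exact h

/-- value rows sorted by classes -/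
theorem det_classes (R : Subring F) {p : F} (hp : p ∈ R) (hp0 : p ≠ 0) {ι : Type*} [Fintype ι]
    [DecidableEq ι] (np n5 : ℕ) (T : Matrix ι ι F) (cl : ι → Fin np) (x0 x1 x2 : ι → F)
    (F0 F1 F2 : Fin np → ι → F) (x5 : ι → Fin n5 → F) (F5 : Fin n5 → ι → F) (B : ι → ι → F)
    (hx0 : ∀ i, x0 i ∈ R) (hx1 : ∀ i, x1 i ∈ R) (hx2 : ∀ i, x2 i ∈ R)
    (hx5 : ∀ i k, x5 i k ∈ R) (hF0 : ∀ k i, F0 k i ∈ R) (hF1 : ∀ k i, F1 k i ∈ R)
    (hF2 : ∀ k i, F2 k i ∈ R) (hF5 : ∀ k i, F5 k i ∈ R) (hB : ∀ i j, B i j ∈ R)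
    (hT : ∀ i j, p ^ 3 * T i j = x0 i * F0 (cl i) j + p * (x1 i * F1 (cl i) j)
      + p ^ 2 * (x2 i * F2 (cl i) j) + ∑ k, x5 i k * F5 k j + p ^ 3 * B i j) :
    p ^ (6 * np + 3 * n5) * T.det ∈ R := by
  have hs : ∀ (x : ι → F) (G : Fin np → ι → F) (i j : ι),
      ∑ k, (if cl i = k then x i else 0) * G k j = x i * G (cl i) j := by
    intro x G i j
    simp [ite_mul]
  have hm : ∀ (x : ι → F), (∀ i, x i ∈ R) → ∀ i k, (if cl i = k then x i else 0) ∈ R := by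
    intro x hx i k
    split_ifs
    · exact hx i
    · exact R.zero_mem
  apply det_four R hp hp0 np n5 T (Matrix.of B)
    (Matrix.of fun i k => if cl i = k then x0 i else 0)
    (Matrix.of fun i k => if cl i = k then x1 i else 0)
    (Matrix.of fun i k => if cl i = k then x2 i else 0)
    (Matrix.of F0) (Matrix.of F1) (Matrix.of F2) (Matrix.of x5) (Matrix.of F5)
    (fun i k => hm x0 hx0 i k) (fun i k => hm x1 hx1 i k) (fun i k => hm x2 hx2 i k)
    hx5 hF0 hF1 hF2 hF5 hB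
  intro i j
  simp only [Matrix.of_apply, hs]
  exact hT i j

end QS2.Cls
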