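import Pool.Agent.QS2.ClsDefs

/-!
# QS2, class rule: `Nice` for integral pairs and for the conjugate pairs
-/

set_option autoImplicit false

namespace QS2.Cls

open Polynomial Finset

variable (p : ℕ) [hp : Fact p.Prime]

theorem starN_mem_Op {x : K} (hx : x ∈ Op p) : star x ∈ Op p := by
  rw [mem_Op] at hx ⊢
  refine ⟨?_, ?_⟩
  · rw [QuadraticAlgebra.re_star]
    simpa using hx.1
  · rw [QuadraticAlgebra.im_star, padicNorm.neg]
    exact hx.2

theorem star_natCast' (n : ℕ) : star (n : K) = (n : K) := by
  exact map_natCast (starRingEnd K) n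

theorem star_intCast' (n : ℤ) : star (n : K) = (n : K) := by
  exact map_intCast (starRingEnd K) n

/-- value of the conjugate polynomial at a point fixed by the conjugation -/
theorem eval_map_star (P : K[X]) {x : K} (hx : star x = x) :
    (P.map (starRingEnd K)).eval x = star (P.eval x) := by
  have h := Polynomial.eval_map_apply (f := starRingEnd K) (p := P) (x := x)
  rw [starRingEnd_apply, starRingEnd_apply, hx] at h
  exact h

/-- the values at the integers of the conjugate polynomial -/
theorem int_star {P : K[X]} (h : ∀ n : ℤ, P.eval (n : K) ∈ Op p) (n : ℤ) :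
    (P.map (starRingEnd K)).eval (n : K) ∈ Op p := by
  rw [eval_map_star P (star_intCast' n)]
  exact starN_mem_Op p (h n)

theorem comp_add_toK (P : (Op p)[X]) (c : ℕ) :
    (toK p (P.comp (X + (c : (Op p)[X])))) = (toK p P).comp (X + (c : K[X])) := by
  unfold toK
  rw [coe_mapRingHom, Polynomial.map_comp]
  congr 1
  simp

/-- the transfer polynomials have integral coefficients -/
theorem toK_trA (c : ℕ) : toK p (trA (Op p) c) = trA K c := by
  have hX : toK p (X : (Op p)[X]) = X := by simp [toK]
  have hap : ∀ q : (Op p)[X], toK p (ap q) = ap (toK p q) := by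
    intro q
    simp only [ap, map_add, map_mul, map_pow, map_ofNat]
  induction c using Nat.strong_induction_on with
  | _ c ih =>
    rcases c with _ | _ | j
    · simp [trA]
    · rw [trA, trA, hap, hX]
    · rw [trA, trA, map_sub, map_mul, map_mul, map_pow, hap, map_add, hX, map_natCast,
        ih (j + 1) (by omega), ih j (by omega)]

/-- Taylor expansion of an integral polynomial at `0` to the order `3` -/
theorem taylor3 (F : (Op p)[X]) : ∃ h0 h1 h2 : K, h0 ∈ Op p ∧ h1 ∈ Op p ∧ h2 ∈ Op p ∧
    ∀ k : ℤ, ∃ r ∈ Op p, (toK p F).eval ((p : K) * k) =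
      h0 + h1 * (p * k) + h2 * (p * k) ^ 2 + p ^ 3 * r := by
  refine ⟨(F.coeff 0 : K), (F.divX.coeff 0 : K), (F.divX.divX.coeff 0 : K),
    (F.coeff 0).2, (F.divX.coeff 0).2, (F.divX.divX.coeff 0).2, fun k => ?_⟩
  have hpk : ((p : Op p) * (k : Op p) : Op p).1 = (p : K) * k := by simp
  have hev : ∀ G : (Op p)[X], (toK p G).eval ((p : K) * k) = ((G.eval ((p : Op p) * k) : Op p) : K) := by
    intro G
    have h := Polynomial.eval_map_apply (f := (Op p).subtype) (p := G) (x := ((p : Op p) * k))
    have h2 : (Op p).subtype ((p : Op p) * k) = (p : K) * k := by simp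
    rw [h2] at h
    exact h
  refine ⟨((k : Op p) ^ 3 * F.divX.divX.divX.eval ((p : Op p) * k) : Op p), Subtype.property _, ?_⟩
  have e : F = C (F.coeff 0) + X * (C (F.divX.coeff 0) + X * (C (F.divX.divX.coeff 0)
      + X * F.divX.divX.divX)) := by
    have e1 := X_mul_divX_add F
    have e2 := X_mul_divX_add F.divX
    have e3 := X_mul_divX_add F.divX.divX
    linear_combination -e1 - X * e2 - X ^ 2 * e3
  rw [hev]
  have h1 : F.eval ((p : Op p) * k) = F.coeff 0 + F.divX.coeff 0 * (p * k)
      + F.divX.divX.coeff 0 * (p * k) ^ 2 + p ^ 3 * (k ^ 3 * F.divX.divX.divX.eval ((p : Op p) * k)) := by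
    conv_lhs => rw [e]
    simp only [eval_add, eval_mul, eval_C, eval_X]
    ring
  rw [h1]
  push_cast
  ring

/-- **integral pairs are nice** -/
theorem nice_toK (c : ℕ) (P Q : (Op p)[X]) : Nice p c (toK p P) (toK p Q) := by
  obtain ⟨h0, h1, h2, m0, m1, m2, h⟩ := taylor3 p
    (P.comp (X + (c : (Op p)[X])) * trA (Op p) c + Q.comp (X + (c : (Op p)[X])) * trA (Op p) (c + 1))
  refine ⟨h0, h1, h2, m0, m1, m2, fun k => ?_⟩
  obtain ⟨r, hr, e⟩ := h k
  refine ⟨r, hr, ?_⟩
  rw [← e, map_add, map_mul, map_mul, comp_add_toK, comp_add_toK, toK_trA, toK_trA, eval_add,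
    eval_mul, eval_mul, eval_comp, eval_comp, eval_add, eval_X, eval_natCast,
    add_comm (c : K) ((p : K) * k)]

theorem nice_X_pow (c i : ℕ) : Nice p c (X ^ i) 0 := by
  have := nice_toK p c (X ^ i) 0
  simpa [toK] using this

theorem nice_zero_X_pow (c i : ℕ) : Nice p c 0 (X ^ i) := by
  have := nice_toK p c 0 (X ^ i)
  simpa [toK] using this

theorem nice_zero (c : ℕ) : Nice p c 0 0 := by
  have := nice_toK p c 0 0
  simpa [toK] using this

variable {p}

/-- the conjugate of a nice pair is nice -/
theorem Nice.star {c : ℕ} {P Q : K[X]} (h : Nice p c P Q) :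
    Nice p c (P.map (starRingEnd K)) (Q.map (starRingEnd K)) := by
  obtain ⟨h0, h1, h2, m0, m1, m2, h⟩ := h
  refine ⟨Star.star h0, Star.star h1, Star.star h2, starN_mem_Op p m0, starN_mem_Op p m1,
    starN_mem_Op p m2, fun k => ?_⟩
  obtain ⟨r, hr, e⟩ := h k
  refine ⟨Star.star r, starN_mem_Op p hr, ?_⟩
  have hpk : Star.star ((p : K) * k) = (p : K) * k := by
    rw [star_mul', star_natCast', star_intCast']
  have hcpk : Star.star ((c : K) + p * k) = (c : K) + p * k := by
    rw [star_add, hpk, star_natCast']
  have htr : ∀ j, Star.star ((trA K j).eval ((p : K) * k)) = (trA K j).eval ((p : K) * k) := by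
    intro j
    have h3 : (trA K j).map (starRingEnd K) = trA K j := by
      have hap : ∀ q : K[X], (ap q).map (starRingEnd K) = ap (q.map (starRingEnd K)) := by
        intro q
        have : ∀ q : K[X], (mapRingHom (starRingEnd K)) (ap q) =
            ap ((mapRingHom (starRingEnd K)) q) := by
          intro q
          simp only [ap, map_add, map_mul, map_pow, map_ofNat]
        exact this q
      induction j using Nat.strong_induction_on with
      | _ j ih =>
        rcases j with _ | _ | j
        · simp [trA]
        · rw [trA, hap, map_X]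
        · rw [trA, Polynomial.map_sub, Polynomial.map_mul, Polynomial.map_mul,
            Polynomial.map_pow, hap, Polynomial.map_add, map_X, Polynomial.map_natCast,
            ih (j + 1) (by omega), ih j (by omega)]
    have h4 := eval_map_star (trA K j) hpk
    rw [h3] at h4
    exact h4.symm
  have e1 : Star.star (P.eval ((c : K) + p * k) * (trA K c).eval ((p : K) * k)
      + Q.eval ((c : K) + p * k) * (trA K (c + 1)).eval ((p : K) * k)) =
      (P.map (starRingEnd K)).eval ((c : K) + p * k) * (trA K c).eval ((p : K) * k)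
      + (Q.map (starRingEnd K)).eval ((c : K) + p * k) * (trA K (c + 1)).eval ((p : K) * k) := by
    rw [star_add, star_mul', star_mul', htr, htr, ← eval_map_star P hcpk, ← eval_map_star Q hcpk]
  rw [← e1, e]
  simp only [star_add, star_mul', star_pow, star_natCast', star_intCast']

end QS2.Cls
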