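import Pool.Agent.QS2.ClsTrans
import Pool.Agent.QS2.ClsNice
import Pool.Agent.QS2.ClsLow

/-!
# QS2, class rule: the determinant of the value rows

`rows_det` : `p^(6p+9)` times the determinant of the values on the columns `colP`, `colQ`
(those not killed by the jets) is `p`-integral.
-/

set_option autoImplicit false

namespace QS2.Cls

open Polynomial Finset QS2 QS2.NV

variable {p : ℕ} [hp : Fact p.Prime]

/-- the columns `(0, w^D)`, `D < 3` -/
def isC5 {M c : ℕ} : Fin M ⊕ Fin c → Prop
  | Sum.inl _ => False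
  | Sum.inr D => (D : ℕ) < 3

instance {M c : ℕ} (s : Fin M ⊕ Fin c) : Decidable (isC5 s) := by
  rcases s with D | D
  · exact instDecidableFalse
  · exact Nat.decLt _ _

/-- the reduced `Q`-part: `colQ = (X + 1)^3 * colR` outside `isC5` -/
noncomputable def colR (p M c : ℕ) (Q : ℕ → K[X]) : Fin M ⊕ Fin c → K[X]
  | Sum.inl D => if (D : ℕ) < dg p + 3 then 0 else (Q D).map (starRingEnd K)
  | Sum.inr D => if (D : ℕ) < 3 then 0 else
      if (D : ℕ) < dg p + 3 then X ^ ((D : ℕ) - 3) else Q D

omit hp in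
theorem colQ_eq {M c : ℕ} {Q : ℕ → K[X]} {s : Fin M ⊕ Fin c} (h : ¬ isC5 s) :
    colQ p M c Q s = (X + 1) ^ 3 * colR p M c Q s := by
  rcases s with D | D
  · simp only [colQ, colR]
    split_ifs <;> simp
  · have hD : ¬ (D : ℕ) < 3 := h
    simp only [colQ, colR, if_neg hD]
    split_ifs <;> rfl

theorem eval_X_pow_mem (i : ℕ) (n : ℤ) : ((X : K[X]) ^ i).eval (n : K) ∈ Op p := by
  rw [eval_pow, eval_X]
  exact (Op p).pow_mem (int_mem n) i

theorem colP_mem {v : ℕ → K} {P Q : ℕ → K[X]} (hg : Good p v P Q) {M c : ℕ}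
    (s : Fin M ⊕ Fin c) (n : ℤ) : (colP p M c P s).eval (n : K) ∈ Op p := by
  rcases s with D | D
  · simp only [colP]
    split_ifs with h
    · exact eval_X_pow_mem _ n
    · exact int_star p (hg.intP D (by omega)) n
  · simp only [colP]
    split_ifs with h
    · rw [eval_zero]; exact (Op p).zero_mem
    · exact hg.intP D (by omega) n

theorem colR_mem {v : ℕ → K} {P Q : ℕ → K[X]} (hg : Good p v P Q) {M c : ℕ}
    (s : Fin M ⊕ Fin c) (n : ℤ) : (colR p M c Q s).eval (n : K) ∈ Op p := by
  rcases s with D | D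
  · simp only [colR]
    split_ifs with h
    · rw [eval_zero]; exact (Op p).zero_mem
    · exact int_star p (hg.intQ D (by omega)) n
  · simp only [colR]
    split_ifs with h h'
    · rw [eval_zero]; exact (Op p).zero_mem
    · exact eval_X_pow_mem _ n
    · exact hg.intQ D (by omega) n

theorem col_nice {v : ℕ → K} {P Q : ℕ → K[X]} (hg : Good p v P Q) {M c : ℕ}
    (s : Fin M ⊕ Fin c) {b : ℕ} (hb : b < p) : Nice p b (colP p M c P s) (colR p M c Q s) := by
  rcases s with D | D
  · simp only [colP, colR]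
    split_ifs with h
    · exact nice_X_pow p b _
    · exact (hg.nice D (by omega) b hb).star
  · simp only [colP, colR]
    have hd : ∀ h : (D : ℕ) < 3, (D : ℕ) < dg p + 3 := fun h => by omega
    split_ifs with h1 h2 h2
    · exact nice_zero p b
    · exact nice_zero_X_pow p b _
    · exact absurd (hd h2) h1
    · exact hg.nice D (by omega) b hb

theorem nodeZ_bounds {A : ℕ} (f : Nd A) :
    (1 ≤ nodeZ A f ∧ nodeZ A f ≤ A) ∨ (-2 - (A : ℤ) ≤ nodeZ A f ∧ nodeZ A f ≤ -3) := by
  rcases f with i | i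
  · left
    have := i.2
    simp only [nodeZ]
    omega
  · right
    have := i.2
    simp only [nodeZ]
    omega

/-- class and quotient of a node -/
theorem node_split {A rho : ℕ} (hA : A + rho + p + 3 ≤ p ^ 2) (f : Nd A) :
    ∃ (c : Fin p) (k : ℤ), nodeZ A f = p * k + (c : ℕ) ∧ -(p : ℤ) < k ∧ k < p ∧
      (0 ≤ k ∨ (p * k : ℤ) + (c : ℕ) ≤ -2) := by
  have hpz : (0 : ℤ) < p := by exact_mod_cast hp.out.pos
  have hA' : (A : ℤ) + rho + p + 3 ≤ (p : ℤ) ^ 2 := by exact_mod_cast hA
  have hb := nodeZ_bounds f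
  have hzd := Int.emod_add_mul_ediv (nodeZ A f) p
  have hm0 : 0 ≤ nodeZ A f % p := Int.emod_nonneg _ hpz.ne'
  have hm1 : nodeZ A f % p < p := Int.emod_lt_of_pos _ hpz
  obtain ⟨c, hc⟩ := Int.eq_ofNat_of_zero_le hm0
  have hcp : c < p := by rw [hc] at hm1; exact_mod_cast hm1
  rw [hc] at hzd hm1
  set z := nodeZ A f
  set k := z / p
  refine ⟨⟨c, hcp⟩, k, by simp only; linarith, ?_, ?_, ?_⟩
  · by_contra h
    have h' : k ≤ -(p : ℤ) := not_lt.mp h
    have : (p : ℤ) * k ≤ p * (-p) := mul_le_mul_of_nonneg_left h' hpz.le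
    rcases hb with hb | hb <;> nlinarith
  · by_contra h
    have h' : (p : ℤ) ≤ k := not_lt.mp h
    have : (p : ℤ) * p ≤ p * k := mul_le_mul_of_nonneg_left h' hpz.le
    rcases hb with hb | hb <;> nlinarith
  · rcases hb with hb | hb
    · left
      by_contra h
      have h' : k ≤ -1 := by omega
      have : (p : ℤ) * k ≤ p * (-1) := mul_le_mul_of_nonneg_left h' hpz.le
      nlinarith
    · right
      simp only
      linarith

/-- **The determinant of the value rows.** -/
theorem rows_det {v : ℕ → K} {P Q : ℕ → K[X]} (hp5 : 5 ≤ p) (hg : Good p v P Q) {A rho : ℕ}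
    {y y' : K} (hy : y ∈ Op p) (hy' : y' ∈ Op p) (hA : A + rho + p + 3 ≤ p ^ 2)
    (e : Nd A ≃ Fin (A - rho) ⊕ Fin (A + rho)) :
    (p : K) ^ (6 * p + 9) * ((valM p A rho y y' P Q).submatrix id e).det ∈ Op p := by
  have hp2 : p ≠ 2 := by omega
  have hpz : (0 : ℤ) < p := by exact_mod_cast hp.out.pos
  have hA' : (A : ℤ) + rho + p + 3 ≤ (p : ℤ) ^ 2 := by exact_mod_cast hA
  have hpK : (p : K) ∈ Op p := natCast_mem _ p
  have hp0 : (p : K) ≠ 0 := Nat.cast_ne_zero.mpr hp.out.ne_zero
  choose cl kk hz hk1 hk2 hk3 using fun f : Nd A => node_split (p := p) (rho := rho) hA f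
  choose h0 h1 h2 m0 m1 m2 hn using fun (s : Fin (A - rho) ⊕ Fin (A + rho)) (b : Fin p) =>
    col_nice hg s b.2
  -- third cube of the value at the next node
  have hu1 : ∀ f : Nd A, (p : K) ^ 3 * uval1 y y' A f ∈ Op p := by
    intro f
    rw [uval1_eq]
    have hb := nodeZ_bounds f
    apply p3_uz_mem hp2 hy hy' <;> rcases hb with hb | hb <;> nlinarith
  have hzK : ∀ f : Nd A, ((cl f : ℕ) : K) + p * (kk f) = ((nodeZ A f : ℤ) : K) := by
    intro f
    rw [hz f]
    push_cast
    ring
  -- the decomposition of one entry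
  have hrow : ∀ (f : Nd A) (s : Fin (A - rho) ⊕ Fin (A + rho)), ∃ B ∈ Op p,
      (p : K) ^ 3 * ((colP p (A - rho) (A + rho) P s).eval ((nodeZ A f : ℤ) : K) * uval y y' A f
        + ((X + 1) ^ 3 * colR p (A - rho) (A + rho) Q s).eval ((nodeZ A f : ℤ) : K)
          * uval1 y y' A f) =
      xrow p y y' (cl f) (kk f) * h0 s (cl f)
        + p * ((kk f * xrow p y y' (cl f) (kk f)) * h1 s (cl f))
        + p ^ 2 * ((kk f ^ 2 * xrow p y y' (cl f) (kk f)) * h2 s (cl f)) + p ^ 3 * B := by
    intro f s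
    obtain ⟨r, hr, hG⟩ := hn s (cl f) (kk f)
    have hP := colP_mem hg s (nodeZ A f)
    have hQ := colR_mem hg s (nodeZ A f)
    rw [← hzK f] at hP hQ
    have := nice_value (p := p) hp2 hy hy' (cl f).2 (hk1 f) (hk2 f) (hk3 f) hP hQ hr hG
    rw [uval_eq, uval1_eq, ← hzK f, hz f]
    exact this
  choose B hB hBe using hrow
  have hx : ∀ f : Nd A, xrow p y y' (cl f) (kk f) ∈ Op p := fun f =>
    xrow_mem hp2 hy hy' (cl f).2 (hk1 f) (hk2 f)
  refine det_classes (Op p) hpK hp0 p 3 _ cl (fun f => xrow p y y' (cl f) (kk f))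
    (fun f => kk f * xrow p y y' (cl f) (kk f)) (fun f => kk f ^ 2 * xrow p y y' (cl f) (kk f))
    (fun b j => if isC5 (e j) then 0 else h0 (e j) b)
    (fun b j => if isC5 (e j) then 0 else h1 (e j) b)
    (fun b j => if isC5 (e j) then 0 else h2 (e j) b)
    (fun f k => ((nodeZ A f : ℤ) : K) ^ (k : ℕ) * ((p : K) ^ 3 * uval1 y y' A f))
    (fun k j => match e j with
      | Sum.inl _ => 0
      | Sum.inr D => if (D : ℕ) = (k : ℕ) then 1 else 0)
    (fun f j => if isC5 (e j) then 0 else B f (e j))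
    hx (fun f => (Op p).mul_mem (int_mem _) (hx f))
    (fun f => (Op p).mul_mem ((Op p).pow_mem (int_mem _) 2) (hx f))
    (fun f k => (Op p).mul_mem ((Op p).pow_mem (int_mem _) _) (hu1 f)) ?_ ?_ ?_ ?_ ?_ ?_
  · intro b j
    split_ifs
    · exact (Op p).zero_mem
    · exact m0 _ _
  · intro b j
    split_ifs
    · exact (Op p).zero_mem
    · exact m1 _ _
  · intro b j
    split_ifs
    · exact (Op p).zero_mem
    · exact m2 _ _
  · intro k j
    rcases e j with D | D
    · exact (Op p).zero_mem
    · dsimp only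
      split_ifs
      · exact (Op p).one_mem
      · exact (Op p).zero_mem
  · intro f j
    split_ifs
    · exact (Op p).zero_mem
    · exact hB _ _
  · intro f j
    rw [Matrix.submatrix_apply, id_eq, valM]
    by_cases h5 : isC5 (e j)
    · simp only [if_pos h5, mul_zero, add_zero, zero_add]
      rcases he : e j with D | D
      · rw [he] at h5
        exact absurd h5 (by simp [isC5])
      · rw [he] at h5
        have hD : (D : ℕ) < 3 := h5
        have hD' : (D : ℕ) < dg p + 3 := by omega
        simp only [colP, colQ, if_pos hD, if_pos hD', eval_zero, zero_mul, zero_add, eval_pow,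
          eval_X]
        rw [Finset.sum_eq_single (⟨(D : ℕ), hD⟩ : Fin 3)]
        · simp only [if_true, mul_one]
          ring
        · intro k _ hk
          rw [if_neg, mul_zero]
          intro h
          apply hk
          ext
          exact h.symm
        · intro h
          exact absurd (Finset.mem_univ _) h
    · simp only [if_neg h5]
      rw [colQ_eq h5, hBe f (e j)]
      have hs : ∑ k : Fin 3, ((nodeZ A f : ℤ) : K) ^ (k : ℕ) * ((p : K) ^ 3 * uval1 y y' A f) *
          (match e j with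
            | Sum.inl _ => 0
            | Sum.inr D => if (D : ℕ) = (k : ℕ) then (1 : K) else 0) = 0 := by
        apply Finset.sum_eq_zero
        intro k _
        rcases he : e j with D | D
        · dsimp only
          rw [mul_zero]
        · dsimp only
          rw [he] at h5
          have hD : ¬ (D : ℕ) < 3 := h5
          rw [if_neg, mul_zero]
          have := k.2
          omega
      rw [hs]
      ring

end QS2.Cls
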