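import Mathlib

/-!
# QS2: `ζ(3) ∉ ℚ(√2)`: common definitions

* `aperyA`, `aperyB` : the Apéry numbers (`a_n`, `b_n`, `b_1 = 6`) as explicit sums in `ℚ`;
* `K = ℚ(√2)`, `emb : K →+* ℝ` (`ω ↦ √2`), `star` is the conjugation;
* `IsFormal v` : `v : ℕ → R` is the coefficient sequence of the formal solution in `1/z` of the
  Riccati equation of the Apéry recurrence;
* `pp v Q` : polynomial part of `Q(z) * ∑ v_m z^{-m}`;
* `fullM` : the matrix (nodes and jets), `Delta n` its determinant for the two-sided nodes.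
-/

set_option autoImplicit false

namespace QS2

open Finset Polynomial

/-! ## Apéry numbers -/

/-- `a_n = ∑_k C(n,k)^2 C(n+k,k)^2` -/
def aperyA (n : ℕ) : ℚ :=
  ∑ k ∈ range (n + 1), ((n.choose k : ℚ) ^ 2 * ((n + k).choose k : ℚ) ^ 2)

/-- `∑_{m=1}^n 1/m^3` -/
def H3 (n : ℕ) : ℚ := ∑ m ∈ range n, 1 / ((m : ℚ) + 1) ^ 3

/-- `c_{n,k}` of Apéry -/
def aperyC (n k : ℕ) : ℚ :=
  H3 n + ∑ m ∈ range k,
    (-1 : ℚ) ^ m / (2 * ((m : ℚ) + 1) ^ 3 * (n.choose (m + 1) : ℚ) *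
      ((n + m + 1).choose (m + 1) : ℚ))

/-- `b_n = ∑_k C(n,k)^2 C(n+k,k)^2 c_{n,k}` -/
def aperyB (n : ℕ) : ℚ :=
  ∑ k ∈ range (n + 1), ((n.choose k : ℚ) ^ 2 * ((n + k).choose k : ℚ) ^ 2) * aperyC n k

/-- the Apéry polynomial `34 w^3 + 51 w^2 + 27 w + 5` -/
def ap {R : Type*} [CommRing R] (w : R) : R := 34 * w ^ 3 + 51 * w ^ 2 + 27 * w + 5

/-! ## The field -/

/-- `ℚ(√2)` -/
abbrev K : Type := QuadraticAlgebra ℚ 2 0

instance factK : Fact (∀ r : ℚ, r ^ 2 ≠ 2 + 0 * r) := by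
  constructor
  intro r h
  have h1 : (r : ℝ) ^ 2 = 2 := by
    have : r ^ 2 = 2 := by linarith
    exact_mod_cast this
  have h2 : Irrational (√2) := irrational_sqrt_two
  have h3 : |(r : ℝ)| = √2 := by
    rw [← Real.sqrt_sq_eq_abs, h1]
  apply h2
  refine ⟨|r|, ?_⟩
  push_cast
  exact h3

/-- the real embedding with `ω ↦ √2` -/
noncomputable def emb : K →ₐ[ℚ] ℝ :=
  QuadraticAlgebra.lift ⟨√2, by
    rw [Real.mul_self_sqrt (by norm_num)]
    simp⟩

theorem emb_apply (z : K) : emb z = z.re + z.im * √2 := by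
  simp [emb, QuadraticAlgebra.lift, Algebra.smul_def]
  rfl

theorem emb_star (z : K) : emb (star z) = z.re - z.im * √2 := by
  rw [emb_apply, QuadraticAlgebra.re_star, QuadraticAlgebra.im_star]
  push_cast
  ring

/-- `α = (√2 - 1)^4 = 17 - 12 √2` -/
def alpha : K := ⟨17, -12⟩

/-- the subring of `p`-integral elements `a + b √2`, `a, b ∈ ℤ_(p)` -/
def Op (p : ℕ) [hp : Fact p.Prime] : Subring K where
  carrier := {x | padicNorm p x.re ≤ 1 ∧ padicNorm p x.im ≤ 1}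
  mul_mem' := by
    rintro x y ⟨hx1, hx2⟩ ⟨hy1, hy2⟩
    have h2 : padicNorm p 2 ≤ 1 := by
      have := padicNorm.of_int (p := p) 2
      simpa using this
    have hm : ∀ a b : ℚ, padicNorm p a ≤ 1 → padicNorm p b ≤ 1 → padicNorm p (a * b) ≤ 1 := by
      intro a b ha hb
      rw [padicNorm.mul]
      exact mul_le_one₀ ha (padicNorm.nonneg _) hb
    have ha : ∀ a b : ℚ, padicNorm p a ≤ 1 → padicNorm p b ≤ 1 → padicNorm p (a + b) ≤ 1 := by
      intro a b ha hb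
      exact (padicNorm.nonarchimedean).trans (max_le ha hb)
    constructor
    · rw [QuadraticAlgebra.re_mul]
      exact ha _ _ (hm _ _ hx1 hy1) (hm _ _ (hm _ _ h2 hx2) hy2)
    · rw [QuadraticAlgebra.im_mul]
      refine ha _ _ (ha _ _ (hm _ _ hx1 hy2) (hm _ _ hx2 hy1)) (hm _ _ (hm _ _ ?_ hx2) hy2)
      simp
  one_mem' := by
    change padicNorm p (1 : ℚ) ≤ 1 ∧ padicNorm p (0 : ℚ) ≤ 1
    simp
  add_mem' := by
    rintro x y ⟨hx1, hx2⟩ ⟨hy1, hy2⟩
    have ha : ∀ a b : ℚ, padicNorm p a ≤ 1 → padicNorm p b ≤ 1 → padicNorm p (a + b) ≤ 1 := by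
      intro a b ha hb
      exact (padicNorm.nonarchimedean).trans (max_le ha hb)
    exact ⟨by rw [QuadraticAlgebra.re_add]; exact ha _ _ hx1 hy1,
      by rw [QuadraticAlgebra.im_add]; exact ha _ _ hx2 hy2⟩
  zero_mem' := by simp
  neg_mem' := by
    rintro x ⟨hx1, hx2⟩
    exact ⟨by rw [QuadraticAlgebra.re_neg, padicNorm.neg]; exact hx1,
      by rw [QuadraticAlgebra.im_neg, padicNorm.neg]; exact hx2⟩

theorem mem_Op {p : ℕ} [Fact p.Prime] {x : K} :
    x ∈ Op p ↔ padicNorm p x.re ≤ 1 ∧ padicNorm p x.im ≤ 1 := Iff.rfl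

/-! ## The formal series -/

/-- coefficients of `v(z-1)` in powers of `1/z`, for `v(z) = ∑ v_m z^{-m}` -/
def shm {R : Type*} [CommRing R] (v : ℕ → R) (j : ℕ) : R :=
  ∑ m ∈ range (j + 1), (((j - 1).choose (j - m) : ℕ) : R) * v m

/-- `v` is a formal solution of `(z+1)^3 v(z) v(z-1) - ap(z) v(z-1) + z^3 = 0` -/
def IsFormal {R : Type*} [CommRing R] (v : ℕ → R) : Prop :=
  (1 + PowerSeries.X) ^ 3 * PowerSeries.mk v * PowerSeries.mk (shm v)
    - (34 + 51 * PowerSeries.X + 27 * PowerSeries.X ^ 2 + 5 * PowerSeries.X ^ 3)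
      * PowerSeries.mk (shm v) + 1 = 0

/-- polynomial part of `Q(z) ∑ v_m z^{-m}` -/
noncomputable def pp {R : Type*} [CommRing R] (v : ℕ → R) (Q : R[X]) : R[X] :=
  ∑ i ∈ range (Q.natDegree + 1), ∑ m ∈ range (i + 1), C (Q.coeff i * v m) * X ^ (i - m)

/-- the binomial polynomial `C(X, i)` -/
noncomputable def binP (R : Type*) [Field R] (i : ℕ) : R[X] :=
  C ((i.factorial : R)⁻¹) * descPochhammer R i

/-! ## The matrix

Rows: nodes `z f` with values `(u0 f, u1 f)`, then `R0` jets; columns: `P` and `Q` in the basis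
`C(X,i)`, `i < Nc`. -/

/-- the matrix of nodes and jets -/
noncomputable def fullM {R : Type*} [Field R] {F : Type*} (z : F → ℤ) (u0 u1 : F → R)
    (v : ℕ → R) (Nc R0 : ℕ) : Matrix (F ⊕ Fin R0) (Fin Nc ⊕ Fin Nc) R
  | Sum.inl f, Sum.inl i => (binP R i).eval ((z f : ℤ) : R) * u0 f
  | Sum.inl f, Sum.inr i => (binP R i).eval ((z f : ℤ) : R) * u1 f
  | Sum.inr d, Sum.inl i => ((Nc - R0 + d).factorial : R) * (binP R i).coeff (Nc - R0 + d)
  | Sum.inr d, Sum.inr i => ((Nc - R0 + d).factorial : R) * (pp v (binP R i)).coeff (Nc - R0 + d)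

/-- index type of the two-sided nodes -/
abbrev Nd (A : ℕ) : Type := Fin A ⊕ Fin A

/-- right nodes `1, …, A`, left nodes `-3, …, -2-A` (that is `-2-m`, `m = 1, …, A`) -/
def nodeZ (A : ℕ) : Nd A → ℤ
  | Sum.inl i => (i : ℤ) + 1
  | Sum.inr i => -3 - (i : ℤ)

/-- value `u(z)` at the node `z` : `a_m x - b_m` at `z = m`, `a_{m+1} x' - b_{m+1}` at
`z = -2-m` -/
def uval {R : Type*} [Field R] (x x' : R) (A : ℕ) : Nd A → R
  | Sum.inl i => (aperyA (i + 1) : R) * x - (aperyB (i + 1) : R)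
  | Sum.inr i => (aperyA (i + 2) : R) * x' - (aperyB (i + 2) : R)

/-- value `u(z+1)` : `a_{m+1} x - b_{m+1}` at `z = m`, `a_m x' - b_m` at `z = -2-m` -/
def uval1 {R : Type*} [Field R] (x x' : R) (A : ℕ) : Nd A → R
  | Sum.inl i => (aperyA (i + 2) : R) * x - (aperyB (i + 2) : R)
  | Sum.inr i => (aperyA (i + 1) : R) * x' - (aperyB (i + 1) : R)

/-- a fixed identification of the row and column indices -/
noncomputable def idx (A rho : ℕ) :
    (Fin (A + rho) ⊕ Fin (A + rho)) ≃ (Nd A ⊕ Fin (2 * rho)) :=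
  Fintype.equivOfCardEq (by simp; ring)

/-- the matrix: `A` right nodes, `A` left nodes, `2 rho` jets, columns `P`, `Q` of degree
`< A + rho` -/
noncomputable def bigM {R : Type*} [Field R] (x x' : R) (v : ℕ → R) (A rho : ℕ) :
    Matrix (Nd A ⊕ Fin (2 * rho)) (Fin (A + rho) ⊕ Fin (A + rho)) R :=
  fullM (nodeZ A) (uval x x' A) (uval1 x x' A) v (A + rho) (2 * rho)

/-- the determinant, over any field `R` -/
noncomputable def DeltaR {R : Type*} [Field R] (x x' : R) (v : ℕ → R) (A rho : ℕ) : R :=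
  ((bigM x x' v A rho).submatrix (idx A rho) id).det

/-- the determinant for `x ∈ K` (used for `2 * rho ≤ A ≤ 2 * rho + 2`) -/
noncomputable def Delta (x : K) (v : ℕ → K) (A rho : ℕ) : K := DeltaR x (star x) v A rho

/-! ## Change of field -/

theorem map_binP {R S : Type*} [Field R] [Field S] (φ : R →+* S) (i : ℕ) :
    (binP R i).map φ = binP S i := by
  simp [binP, Polynomial.map_mul]

end QS2
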