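import Pool.Agent.QS2.PrimesA
import Pool.Agent.QS2.Defs
import Pool.Agent.D23.Arith
import Pool.Agent.PNT.Main

/-!
# QS2, module PRIMES: the sum over the primes

`n = rho`, nodes `2n ≤ A ≤ 2n + 2` on each side, `2n` jets, columns of degree `< A + n`.
-/

set_option autoImplicit false

open Finset Filter Topology

namespace QS2

/-- the class rule for the middle primes, `d = 3 (p - 1) / 2`, `M = A - n` -/
noncomputable def ruleM (n A p : ℕ) : ℝ :=
  (SF p (A + n) : ℝ) - SF p (A + n - 3 - 3 * (p - 1) / 2) + SF p (A - n)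
    - SF p (A - n - 3 - 3 * (p - 1) / 2) + 6 * p + 9

/-- the crude rule for the large primes -/
noncomputable def ruleL (n A p : ℕ) : ℝ :=
  6 * max (2 * (n : ℝ) - p) 0 + SF p (A + n) - 2 * SF p A + SF p (A - n)

theorem ruleM_le {n A p : ℕ} (h1 : 2 * n ≤ A) (h2 : A ≤ 2 * n + 2) (hp : 2 ≤ p)
    (hpn : 3 * p + 10 ≤ 2 * n) : ruleM n A p ≤ 6 * n + 5 / 2 * p + 6 * ((n : ℝ) / p) + 14 := by
  unfold ruleM
  have ed : ∀ m : ℕ, m - 3 - 3 * (p - 1) / 2 = m - (3 * (p - 1) / 2 + 3) := by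
    intro m; omega
  rw [ed, ed]
  set d : ℕ := 3 * (p - 1) / 2 + 3 with hd
  have hd1 : 2 * d ≤ 3 * p + 3 := by omega
  have hd2 : 3 * p + 2 ≤ 2 * d := by omega
  have hdc : d ≤ A + n := by omega
  have hdM : d ≤ A - n := by omega
  have hp0 : 0 < p := by omega
  have e1 := SF_upper hp0 (A + n)
  have e2 := SF_lower hp0 (A + n - d)
  have e3 := SF_upper hp0 (A - n)
  have e4 := SF_lower hp0 (A - n - d)
  have c1 : ((A + n - d : ℕ) : ℝ) = (A : ℝ) + n - d := by
    rw [Nat.cast_sub hdc]; push_cast; ring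
  have c2 : ((A - n : ℕ) : ℝ) = (A : ℝ) - n := by
    rw [Nat.cast_sub (by omega)]
  have c3 : ((A - n - d : ℕ) : ℝ) = (A : ℝ) - n - d := by
    rw [Nat.cast_sub hdM, c2]
  rw [c1] at e2
  rw [c2] at e3
  rw [c3] at e4
  push_cast at e1
  have hpr : (2 : ℝ) ≤ p := by exact_mod_cast hp
  have hd1r : 2 * (d : ℝ) ≤ 3 * p + 3 := by exact_mod_cast hd1
  have hd2r : 3 * (p : ℝ) + 2 ≤ 2 * d := by exact_mod_cast hd2
  have hAr : (A : ℝ) ≤ 2 * n + 2 := by exact_mod_cast h2
  have hA0 : (0 : ℝ) ≤ A := Nat.cast_nonneg A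
  have hdr : (0 : ℝ) ≤ d := Nat.cast_nonneg d
  -- the parabola part
  have key : ((A : ℝ) + n) ^ 2 / (2 * p) - ((A : ℝ) + n) / 2 + p / 8
      - (((A : ℝ) + n - d) ^ 2 / (2 * p) - ((A : ℝ) + n - d) / 2)
      + (((A : ℝ) - n) ^ 2 / (2 * p) - ((A : ℝ) - n) / 2 + p / 8)
      - (((A : ℝ) - n - d) ^ 2 / (2 * p) - ((A : ℝ) - n - d) / 2)
      = (2 * A * d - d ^ 2) / p - d + p / 4 := by
    field_simp
    ring
  have hq : (2 * (A : ℝ) * d - d ^ 2) / p ≤ 3 * A + 3 * (A / p) - 9 / 4 * p - 3 := by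
    rw [div_le_iff₀ (by linarith)]
    have : (3 * (A : ℝ) + 3 * (A / p) - 9 / 4 * p - 3) * p = 3 * A * p + 3 * A - 9 / 4 * p ^ 2
        - 3 * p := by
      field_simp
    rw [this]
    nlinarith [mul_nonneg (by linarith : (0 : ℝ) ≤ 3 * p + 3 - 2 * d) hA0,
      mul_nonneg (by linarith : (0 : ℝ) ≤ 2 * d - 3 * p - 2)
        (by linarith : (0 : ℝ) ≤ 2 * d + 3 * p + 2)]
  have hAp : (A : ℝ) / p ≤ 2 * (n / p) + 1 := by
    rw [div_le_iff₀ (by linarith)]
    have : (2 * ((n : ℝ) / p) + 1) * p = 2 * n + p := by field_simp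
    rw [this]
    linarith
  linarith

theorem SF_shift_le {p M δ a : ℕ} (hδ : δ ≤ 2) (h : (M + δ) / p ≤ a) :
    SF p (M + δ) ≤ SF p M + 2 * a := by
  refine (SF_add_le p M δ).trans ?_
  gcongr

theorem ruleL_le_aux {n A p : ℕ} (hn : 100 ≤ n) (h1 : 2 * n ≤ A) (h2 : A ≤ 2 * n + 2)
    (hp : 33 * n < 50 * p) : ruleL n A p ≤
      6 * max (2 * (n : ℝ) - p) 0 + SF p (3 * n) - 2 * SF p (2 * n) + SF p n + 10 := by
  obtain ⟨δ, rfl⟩ := Nat.exists_eq_add_of_le h1
  have hδ : δ ≤ 2 := by omega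
  have hp0 : 0 < p := by omega
  have e1 : SF p (2 * n + δ + n) ≤ SF p (3 * n) + 2 * 4 := by
    have : 2 * n + δ + n = 3 * n + δ := by ring
    rw [this]
    refine SF_shift_le hδ ?_
    have : (3 * n + δ) / p < 5 := by
      rw [Nat.div_lt_iff_lt_mul hp0]
      omega
    omega
  have e2 : SF p (2 * n) ≤ SF p (2 * n + δ) := SF_mono p (by omega)
  have e3 : SF p (2 * n + δ - n) ≤ SF p n + 2 * 1 := by
    have : 2 * n + δ - n = n + δ := by omega
    rw [this]
    refine SF_shift_le hδ ?_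
    have : (n + δ) / p < 2 := by
      rw [Nat.div_lt_iff_lt_mul hp0]
      omega
    omega
  have e1' : (SF p (2 * n + δ + n) : ℝ) ≤ SF p (3 * n) + 8 := by exact_mod_cast e1
  have e2' : (SF p (2 * n) : ℝ) ≤ SF p (2 * n + δ) := by exact_mod_cast e2
  have e3' : (SF p (2 * n + δ - n) : ℝ) ≤ SF p n + 2 := by exact_mod_cast e3
  unfold ruleL
  linarith

/-- any quotient gives a lower bound -/
theorem SF_ge {p : ℕ} (hp : 0 < p) (M k : ℕ) :
    2 * (k : ℝ) * M - p * (k : ℝ) * ((k : ℝ) + 1) ≤ 2 * (SF p M : ℝ) := by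
  rw [SF_exact hp]
  have hp' : (0 : ℝ) < p := by exact_mod_cast hp
  have h1 : M / p * p ≤ M := Nat.div_mul_le_self M p
  have h2 : M < (M / p + 1) * p := by
    have := Nat.lt_div_mul_add hp (a := M)
    nlinarith
  set q : ℕ := M / p with hq
  have h1' : (q : ℝ) * p ≤ M := by exact_mod_cast h1
  have h2' : (M : ℝ) ≤ ((q : ℝ) + 1) * p := by exact_mod_cast h2.le
  rcases Nat.lt_or_ge q k with h | h
  · have h3 : (q : ℝ) + 1 ≤ k := by exact_mod_cast h
    nlinarith [mul_nonneg (sub_nonneg.mpr h3) (sub_nonneg.mpr h2'),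
      mul_nonneg (mul_nonneg (sub_nonneg.mpr h3) (by linarith : (0 : ℝ) ≤ (k : ℝ) - q)) hp'.le]
  · have h3 : (k : ℝ) ≤ q := by exact_mod_cast h
    have h4 : (k : ℝ) = q ∨ (k : ℝ) + 1 ≤ q := by
      rcases h.eq_or_lt with h5 | h5
      · left; exact_mod_cast h5
      · right; exact_mod_cast h5
    rcases h4 with h4 | h4
    · rw [h4]
    · nlinarith [mul_nonneg (sub_nonneg.mpr h3) (sub_nonneg.mpr h1'),
        mul_nonneg (mul_nonneg (sub_nonneg.mpr h3) (by linarith : (0 : ℝ) ≤ (q : ℝ) - k - 1)) hp'.le]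

theorem ruleL_z {n A p : ℕ} (hn : 100 ≤ n) (h1 : 2 * n ≤ A) (h2 : A ≤ 2 * n + 2)
    (hp : 33 * n < 50 * p) (hp2 : 4 * p ≤ 3 * n) : ruleL n A p ≤ 17 * n - 11 * p + 10 := by
  refine (ruleL_le_aux hn h1 h2 hp).trans ?_
  have hpr : 4 * (p : ℝ) ≤ 3 * n := by exact_mod_cast hp2
  have hnr : (100 : ℝ) ≤ n := by exact_mod_cast hn
  rw [max_eq_left (by linarith)]
  have e1 := SF_of_div (p := p) (M := 3 * n) (k := 4) (by omega) (by omega)
  have e2 := SF_ge (p := p) (by omega) (2 * n) 2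
  have e3 := SF_of_div (p := p) (M := n) (k := 1) (by omega) (by omega)
  push_cast at e1 e2 e3
  linarith

theorem ruleL_a {n A p : ℕ} (hn : 100 ≤ n) (h1 : 2 * n ≤ A) (h2 : A ≤ 2 * n + 2)
    (hp : 3 * n < 4 * p) (hp2 : 2 * p ≤ 3 * n) : ruleL n A p ≤ 14 * n - 7 * p + 10 := by
  refine (ruleL_le_aux hn h1 h2 (by omega)).trans ?_
  have hpr : 2 * (p : ℝ) ≤ 3 * n := by exact_mod_cast hp2
  have hnr : (100 : ℝ) ≤ n := by exact_mod_cast hn
  rw [max_eq_left (by linarith)]
  rcases Nat.lt_or_ge n p with h | h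
  · have e1 := SF_of_div (p := p) (M := 3 * n) (k := 2) (by omega) (by omega)
    have e2 := SF_of_div (p := p) (M := 2 * n) (k := 1) (by omega) (by omega)
    have e3 := SF_of_div (p := p) (M := n) (k := 0) (by omega) (by omega)
    push_cast at e1 e2 e3
    linarith
  · have e1 := SF_of_div (p := p) (M := 3 * n) (k := 3) (by omega) (by omega)
    have e2 := SF_of_div (p := p) (M := 2 * n) (k := 2) (by omega) (by omega)
    have e3 := SF_of_div (p := p) (M := n) (k := 1) (by omega) (by omega)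
    push_cast at e1 e2 e3
    linarith

theorem ruleL_b {n A p : ℕ} (hn : 100 ≤ n) (h1 : 2 * n ≤ A) (h2 : A ≤ 2 * n + 2)
    (hp : 3 * n < 2 * p) (hp2 : p ≤ 2 * n) : ruleL n A p ≤ 11 * n - 5 * p + 10 := by
  refine (ruleL_le_aux hn h1 h2 (by omega)).trans ?_
  have hpr : (p : ℝ) ≤ 2 * n := by exact_mod_cast hp2
  rw [max_eq_left (by linarith)]
  have e1 := SF_of_div (p := p) (M := 3 * n) (k := 1) (by omega) (by omega)
  have e2 := SF_of_div (p := p) (M := 2 * n) (k := 1) (by omega) (by omega)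
  have e3 := SF_of_div (p := p) (M := n) (k := 0) (by omega) (by omega)
  push_cast at e1 e2 e3
  linarith

theorem ruleL_c {n A p : ℕ} (hn : 100 ≤ n) (h1 : 2 * n ≤ A) (h2 : A ≤ 2 * n + 2)
    (hp : 2 * n < p) (hp2 : p ≤ 3 * n) : ruleL n A p ≤ 3 * n - p + 10 := by
  refine (ruleL_le_aux hn h1 h2 (by omega)).trans ?_
  have hpr : 2 * (n : ℝ) ≤ p := by exact_mod_cast hp.le
  rw [max_eq_right (by linarith)]
  have e1 := SF_of_div (p := p) (M := 3 * n) (k := 1) (by omega) (by omega)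
  have e2 := SF_of_div (p := p) (M := 2 * n) (k := 0) (by omega) (by omega)
  have e3 := SF_of_div (p := p) (M := n) (k := 0) (by omega) (by omega)
  push_cast at e1 e2 e3
  linarith

theorem ruleL_d {n A p : ℕ} (hn : 100 ≤ n) (h1 : 2 * n ≤ A) (h2 : A ≤ 2 * n + 2)
    (hp : 3 * n < p) : ruleL n A p ≤ 10 := by
  refine (ruleL_le_aux hn h1 h2 (by omega)).trans ?_
  have hpr : 3 * (n : ℝ) ≤ p := by exact_mod_cast hp.le
  have hnr : (100 : ℝ) ≤ n := by exact_mod_cast hn
  rw [max_eq_right (by linarith)]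
  have e1 := SF_of_div (p := p) (M := 3 * n) (k := 0) (by omega) (by omega)
  have e2 := SF_of_div (p := p) (M := 2 * n) (k := 0) (by omega) (by omega)
  have e3 := SF_of_div (p := p) (M := n) (k := 0) (by omega) (by omega)
  push_cast at e1 e2 e3
  linarith

/-- **The p-adic input** for the exponents `e n A p`, `n ≥ n0`: everything that the prime sum
needs. -/
structure PRule (e : ℕ → ℕ → ℕ → ℕ) (K C n0 : ℕ) : Prop where
  two : ∀ n A : ℕ, n0 ≤ n → 2 * n ≤ A → A ≤ 2 * n + 2 →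
    (e n A 2 : ℝ) ≤ 11 / 2 * (n : ℝ) ^ 2 + C * n * Real.log (n + 2)
  small : ∀ n A p : ℕ, n0 ≤ n → 2 * n ≤ A → A ≤ 2 * n + 2 → p.Prime → p ≠ 2 → p ^ 2 ≤ K * n →
    (e n A p : ℝ) * Real.log p ≤ C * n * Real.log (n + 2)
  mid : ∀ n A p : ℕ, n0 ≤ n → 2 * n ≤ A → A ≤ 2 * n + 2 → p.Prime → p ≠ 2 → K * n < p ^ 2 →
    3 * p + 10 ≤ 2 * n → (e n A p : ℝ) ≤ ruleM n A p + C * ((n : ℝ) / p + 1)
  large : ∀ n A p : ℕ, n0 ≤ n → 2 * n ≤ A → A ≤ 2 * n + 2 → p.Prime → p ≠ 2 → K * n < p ^ 2 →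
    2 * n < 3 * p + 10 → p ≤ A + n → (e n A p : ℝ) ≤ ruleL n A p + C

/-- the items of the prime sum -/
noncomputable def itemsP (ε : ℝ) : List (ℝ × ℝ × ℝ × ℝ) :=
  [(6 + ε, 5 / 2, 0, 33 / 50), (17, -11, 33 / 50, 3 / 4), (14, -7, 3 / 4, 3 / 2),
    (11, -5, 3 / 2, 2), (3, -1, 2, 3)]

theorem itemsP_sum (ε : ℝ) :
    ((itemsP ε).map Pool.Agent.D23.ival).sum = 11.5553 + 33 / 50 * ε := by
  simp [itemsP, Pool.Agent.D23.ival]
  ring

theorem itemsP_ok {ε : ℝ} (hε : 0 ≤ ε) : ∀ x ∈ itemsP ε, 0 ≤ x.2.2.1 ∧ x.2.2.1 ≤ x.2.2.2 ∧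
    0 ≤ x.1 + x.2.1 * x.2.2.1 ∧ 0 ≤ x.1 + x.2.1 * x.2.2.2 := by
  intro x hx
  simp only [itemsP, List.mem_cons, List.not_mem_nil, or_false] at hx
  rcases hx with rfl | rfl | rfl | rfl | rfl
  · refine ⟨by norm_num, by norm_num, ?_, ?_⟩ <;> · simp only; nlinarith
  · norm_num
  · norm_num
  · norm_num
  · norm_num

theorem log_small (C : ℝ) (hC : 0 ≤ C) {η : ℝ} (hη : 0 < η) :
    ∀ᶠ n : ℕ in atTop, C * Real.log ((n : ℝ) + 2) ≤ η * n := by
  have h1 : Tendsto (fun n : ℕ => (n : ℝ) + 2) atTop atTop :=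
    tendsto_atTop_add_const_right _ _ tendsto_natCast_atTop_atTop
  have h2 := (Real.isLittleO_log_id_atTop.comp_tendsto h1).bound
    (show 0 < η / (2 * (C + 1)) by positivity)
  filter_upwards [h2, eventually_ge_atTop 2] with n hn hn2
  have hnr : (2 : ℝ) ≤ n := by exact_mod_cast hn2
  simp only [Function.comp_apply, id_eq, Real.norm_eq_abs] at hn
  rw [abs_of_nonneg (Real.log_nonneg (by linarith)), abs_of_nonneg (by linarith)] at hn
  calc C * Real.log ((n : ℝ) + 2) ≤ C * (η / (2 * (C + 1)) * (n + 2)) :=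
        mul_le_mul_of_nonneg_left hn hC
    _ = (C / (C + 1)) * (η * ((n + 2) / 2)) := by field_simp
    _ ≤ 1 * (η * n) := by
        refine mul_le_mul ?_ ?_ (by positivity) (by norm_num)
        · rw [div_le_one (by linarith)]; linarith
        · exact mul_le_mul_of_nonneg_left (by linarith) hη.le
    _ = η * n := one_mul _

theorem sqrt_small (C : ℝ) {η : ℝ} (hη : 0 < η) :
    ∀ᶠ n : ℕ in atTop, C * Real.sqrt n ≤ η * n := by
  have h1 : Tendsto (fun n : ℕ => Real.sqrt (n : ℝ)) atTop atTop :=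
    Real.tendsto_sqrt_atTop.comp tendsto_natCast_atTop_atTop
  filter_upwards [h1.eventually_ge_atTop (C / η)] with n hn
  rw [div_le_iff₀ hη] at hn
  have h2 : Real.sqrt (n : ℝ) * Real.sqrt n = n := Real.mul_self_sqrt (Nat.cast_nonneg n)
  calc C * Real.sqrt n ≤ (Real.sqrt n * η) * Real.sqrt n :=
        mul_le_mul_of_nonneg_right hn (Real.sqrt_nonneg _)
    _ = η * (Real.sqrt n * Real.sqrt n) := by ring
    _ = η * n := by rw [h2]

/-- **The prime sum.** -/
theorem primes_sum {e : ℕ → ℕ → ℕ → ℕ} {K C n0 : ℕ} (hK : 1 ≤ K) (h : PRule e K C n0) :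
    ∀ᶠ n : ℕ in atTop, ∀ A : ℕ, 2 * n ≤ A → A ≤ 2 * n + 2 →
      ∑ p ∈ (range (A + n + 1)).filter Nat.Prime, (e n A p : ℝ) * Real.log p ≤
        15.38 * (n : ℝ) ^ 2 := by
  classical
  set C' : ℝ := 4 * C + 22 + Real.sqrt K with hC'
  have hCr : (0 : ℝ) ≤ C := Nat.cast_nonneg C
  have hC0 : (0 : ℝ) ≤ C' := by positivity
  filter_upwards [Pool.Agent.D23.psum Pool.Agent.PNT.theta_asymp (itemsP 0.005) (itemsP_ok (by norm_num))
      (show (0 : ℝ) ≤ 14 + 3 * C by positivity) hC0 (show (0 : ℝ) < 0.001 by norm_num),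
    sqrt_small (C + 6) (show (0 : ℝ) < 0.005 by norm_num), log_small C hCr (show (0 : ℝ) < 0.001 by norm_num),
    eventually_ge_atTop 1000, eventually_ge_atTop K, eventually_ge_atTop n0]
    with n hsum hsq hlg hn hnK hn0 A hA1 hA2
  have hnr : (1000 : ℝ) ≤ n := by exact_mod_cast hn
  have hn1 : 100 ≤ n := by omega
  have hlogn : 0 ≤ Real.log n := Real.log_natCast_nonneg n
  have hlog2 : ∀ x : ℝ, 0 < x → x ≤ (n : ℝ) ^ 2 → Real.log x ≤ 2 * Real.log n := by
    intro x hx hx2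
    have := Real.log_le_log hx hx2
    rwa [Real.log_pow, Nat.cast_ofNat] at this
  set Q := (range (A + n + 1)).filter Nat.Prime with hQ
  set P := Q.erase 2 with hP
  set R := P.filter (fun p => p ^ 2 ≤ K * n ∨ 3 * n < p) with hR
  have hmemP : ∀ p ∈ P, p.Prime ∧ p ≠ 2 ∧ p ≤ A + n := by
    intro p hp
    rw [hP, mem_erase, hQ, mem_filter, mem_range] at hp
    exact ⟨hp.2.2, hp.1, by omega⟩
  have h2Q : 2 ∈ Q := by
    rw [hQ, mem_filter, mem_range]
    exact ⟨by omega, Nat.prime_two⟩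
  have hmain := hsum P R (fun p => (e n A p : ℝ)) (fun p hp => (hmemP p hp).1) ?_ ?_ ?_
  · have h2 := h.two n A hn0 hA1 hA2
    rw [← Finset.add_sum_erase Q _ h2Q]
    have h3 : (e n A 2 : ℝ) * Real.log 2 ≤ (11 / 2 * (n : ℝ) ^ 2 + 0.001 * n * n) * 0.6931471808 := by
      refine mul_le_mul ?_ Real.log_two_lt_d9.le (Real.log_nonneg (by norm_num)) (by positivity)
      refine h2.trans ?_
      have : (C : ℝ) * n * Real.log ((n : ℝ) + 2) = (C * Real.log ((n : ℝ) + 2)) * n := by ring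
      rw [this]
      have h4 := mul_le_mul_of_nonneg_right hlg (by linarith : (0 : ℝ) ≤ n)
      linarith
    rw [itemsP_sum] at hmain
    have h5 : ((2 : ℕ) : ℝ) = 2 := by norm_num
    rw [h5]
    nlinarith [hmain, h3]
  · intro p hp
    obtain ⟨hpp, hp2, hpA⟩ := hmemP p hp
    by_cases hpR : p ^ 2 ≤ K * n ∨ 3 * n < p
    · left
      rw [hR, mem_filter]
      exact ⟨hp, hpR⟩
    right
    push Not at hpR
    obtain ⟨hpK, hp3⟩ := hpR
    have hp0 : 2 ≤ p := hpp.two_le
    have hpr : (2 : ℝ) ≤ p := by exact_mod_cast hp0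
    have hg : (10 : ℝ) + C ≤ 14 + 3 * C := by linarith
    rcases Nat.lt_or_ge (2 * n) (3 * p + 10) with h0 | h0
    · have h1 : 33 * n < 50 * p := by omega
      have hlg : (e n A p : ℝ) ≤ ruleL n A p + C := h.large n A p hn0 hA1 hA2 hpp hp2 hpK
        h0 hpA
      rcases Nat.lt_or_ge (3 * n) (2 * p) with h2 | h2
      · rcases Nat.lt_or_ge (2 * n) p with h3 | h3
        · refine ⟨(3, -1, 2, 3), by simp [itemsP], ?_, ?_, ?_⟩
          · have := ruleL_c hn1 hA1 hA2 h3 hp3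
            simp only
            linarith
          · simp only
            exact_mod_cast h3
          · simp only
            exact_mod_cast hp3
        · refine ⟨(11, -5, 3 / 2, 2), by simp [itemsP], ?_, ?_, ?_⟩
          · have := ruleL_b hn1 hA1 hA2 h2 h3
            simp only
            linarith
          · simp only
            have : 3 * (n : ℝ) < 2 * p := by exact_mod_cast h2
            linarith
          · simp only
            exact_mod_cast h3
      · rcases Nat.lt_or_ge (3 * n) (4 * p) with h3 | h3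
        · refine ⟨(14, -7, 3 / 4, 3 / 2), by simp [itemsP], ?_, ?_, ?_⟩
          · have := ruleL_a hn1 hA1 hA2 h3 h2
            simp only
            linarith
          · simp only
            have : 3 * (n : ℝ) < 4 * p := by exact_mod_cast h3
            linarith
          · simp only
            have : 2 * (p : ℝ) ≤ 3 * n := by exact_mod_cast h2
            linarith
        · refine ⟨(17, -11, 33 / 50, 3 / 4), by simp [itemsP], ?_, ?_, ?_⟩
          · have := ruleL_z hn1 hA1 hA2 h1 h3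
            simp only
            linarith
          · simp only
            have : 33 * (n : ℝ) < 50 * p := by exact_mod_cast h1
            linarith
          · simp only
            have : 4 * (p : ℝ) ≤ 3 * n := by exact_mod_cast h3
            linarith
    · have h2 := (h.mid n A p hn0 hA1 hA2 hpp hp2 hpK (by omega)).trans
          (add_le_add_left (ruleM_le hA1 hA2 hp0 (by omega)) _)
      rcases Nat.lt_or_ge (33 * n) (50 * p) with h1 | h1
      · refine ⟨(17, -11, 33 / 50, 3 / 4), by simp [itemsP], ?_, ?_, ?_⟩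
        · have h3 : (n : ℝ) / p ≤ 2 := by
            rw [div_le_iff₀ (by linarith)]
            have : 33 * (n : ℝ) < 50 * p := by exact_mod_cast h1
            linarith
          have h4 : 3 * (p : ℝ) + 10 ≤ 2 * n := by exact_mod_cast h0
          have h5 := mul_le_mul_of_nonneg_left h3 hCr
          simp only
          nlinarith
        · simp only
          have : 33 * (n : ℝ) < 50 * p := by exact_mod_cast h1
          linarith
        · simp only
          have : 3 * (p : ℝ) + 10 ≤ 2 * n := by exact_mod_cast h0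
          linarith
      · refine ⟨(6 + 0.005, 5 / 2, 0, 33 / 50), by simp [itemsP], ?_, ?_, ?_⟩
        · have h3 : (n : ℝ) / p ≤ Real.sqrt n := by
            rw [div_le_iff₀ (by linarith)]
            have h4 : Real.sqrt (n : ℝ) ≤ p := by
              rw [Real.sqrt_le_left (by linarith)]
              have h5 : n ≤ p ^ 2 := by nlinarith
              exact_mod_cast h5
            have h6 : Real.sqrt (n : ℝ) * Real.sqrt n = n := Real.mul_self_sqrt (Nat.cast_nonneg n)
            nlinarith [Real.sqrt_nonneg (n : ℝ)]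
          have h7 : ((C : ℝ) + 6) * ((n : ℝ) / p) ≤ 0.005 * n := by
            have := mul_le_mul_of_nonneg_left h3 (by linarith : (0 : ℝ) ≤ (C : ℝ) + 6)
            linarith
          simp only
          linarith
        · simp only
          linarith
        · simp only
          have : 50 * (p : ℝ) ≤ 33 * n := by exact_mod_cast h1
          linarith
  · -- the number of exceptional primes
    have h1 : R ⊆ (Ioc 0 (Nat.sqrt (K * n))) ∪ {3 * n + 1, 3 * n + 2} := by
      intro p hp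
      rw [hR, mem_filter] at hp
      obtain ⟨hpP, hp'⟩ := hp
      obtain ⟨hpp, hp2, hpA⟩ := hmemP p hpP
      rw [mem_union, mem_Ioc]
      rcases hp' with h1 | h1
      · left
        refine ⟨hpp.pos, ?_⟩
        rw [Nat.le_sqrt']
        exact h1
      · right
        simp only [mem_insert, mem_singleton]
        omega
    have h2 : R.card ≤ Nat.sqrt (K * n) + 2 := by
      refine (card_le_card h1).trans ((card_union_le _ _).trans ?_)
      refine add_le_add ?_ ?_
      · rw [Nat.card_Ioc]; omega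
      · exact card_le_two
    have h3 : (Nat.sqrt (K * n) : ℝ) ≤ Real.sqrt ((K * n : ℕ) : ℝ) := Real.nat_sqrt_le_real_sqrt
    rw [Nat.cast_mul, Real.sqrt_mul (Nat.cast_nonneg K)] at h3
    have h4 : (R.card : ℝ) ≤ (Nat.sqrt (K * n) : ℝ) + 2 := by exact_mod_cast h2
    have h5 : (1 : ℝ) ≤ Real.sqrt n := by
      rw [Real.one_le_sqrt]
      linarith
    have h6 := Real.sqrt_nonneg (K : ℝ)
    rw [hC']
    nlinarith
  · intro p hp
    rw [hR, mem_filter] at hp
    obtain ⟨hpP, hp'⟩ := hp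
    obtain ⟨hpp, hp2, hpA⟩ := hmemP p hpP
    have hnl : 0 ≤ (n : ℝ) * Real.log n := by positivity
    have h6 := Real.sqrt_nonneg (K : ℝ)
    rcases hp' with h1 | h1
    · refine (h.small n A p hn0 hA1 hA2 hpp hp2 h1).trans ?_
      have h2 : Real.log ((n : ℝ) + 2) ≤ 2 * Real.log n := hlog2 _ (by linarith) (by nlinarith)
      have h3 : (C : ℝ) * n * Real.log (n + 2) ≤ C * n * (2 * Real.log n) :=
        mul_le_mul_of_nonneg_left h2 (by positivity)
      refine h3.trans ?_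
      rw [hC']
      nlinarith
    · have h2 := (h.large n A p hn0 hA1 hA2 hpp hp2 (by nlinarith) (by omega) hpA).trans
        (add_le_add_left (ruleL_d hn1 hA1 hA2 h1) _)
      have hpr : (1 : ℝ) ≤ p := by exact_mod_cast hpp.one_lt.le
      have hpA' : (p : ℝ) ≤ 3 * n + 2 := by
        have : p ≤ 3 * n + 2 := by omega
        exact_mod_cast this
      have h3 : Real.log p ≤ 2 * Real.log n := hlog2 _ (by linarith) (by nlinarith)
      have h4 : (e n A p : ℝ) * Real.log p ≤ (10 + C) * (2 * Real.log n) :=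
        mul_le_mul h2 h3 (Real.log_natCast_nonneg p) (by positivity)
      refine h4.trans ?_
      have h5 : Real.log n ≤ (n : ℝ) * Real.log n := by nlinarith
      rw [hC']
      nlinarith

theorem filter_prime_Ioc (N : ℕ) :
    (Ioc 0 N).filter Nat.Prime = (range (N + 1)).filter Nat.Prime := by
  ext p
  simp only [mem_filter, mem_Ioc, mem_range]
  constructor
  · rintro ⟨⟨_, h2⟩, h3⟩
    exact ⟨by omega, h3⟩
  · rintro ⟨h2, h3⟩
    exact ⟨⟨h3.pos, by omega⟩, h3⟩

/-- **The prime sum**, in the form used by `norm_final`. -/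
theorem primes_sum_Ioc {e : ℕ → ℕ → ℕ → ℕ} {K C n0 : ℕ} (hK : 1 ≤ K) (h : PRule e K C n0) :
    ∀ᶠ n : ℕ in atTop, ∀ A : ℕ, 2 * n ≤ A → A ≤ 2 * n + 2 →
      ∑ p ∈ (Ioc 0 (A + n)).filter Nat.Prime, (e n A p : ℝ) * Real.log p ≤
        15.38 * (n : ℝ) ^ 2 := by
  filter_upwards [primes_sum hK h] with n hn A h1 h2
  rw [filter_prime_Ioc]
  exact hn A h1 h2

end QS2
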