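import Pool.Agent.QS2.RuleL
import Pool.Agent.QS2.Primes
import Pool.Agent.QS2.A23

/-!
# QS2: the exponent `e n A p`

For every prime `p` an exponent `eExp s cls n A p` with `p ^ e * DeltaR y y' v A n ∈ Op p` for
`p`-integral `y, y'`: `p = 2` (`expTwo`), small odd primes (`SmallRule`), the class rule
(`ClsRule`) for `8 n < p ^ 2`, `3 p + 10 ≤ 2 n`, and `eGen` for the large primes.
-/

set_option autoImplicit false

open Finset Filter Topology

namespace QS2

/-! ## The exponent of the class rule -/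

/-- the exponent of the class rule -/
def clsE (n A p : ℕ) : ℕ :=
  (SF p (A + n) - SF p (A + n - 3 - 3 * (p - 1) / 2)) +
    (SF p (A - n) - SF p (A - n - 3 - 3 * (p - 1) / 2)) + 6 * p + 9

theorem clsE_eq (n A p : ℕ) : (clsE n A p : ℝ) = ruleM n A p := by
  have m1 : SF p (A + n - 3 - 3 * (p - 1) / 2) ≤ SF p (A + n) := SF_mono p (by omega)
  have m2 : SF p (A - n - 3 - 3 * (p - 1) / 2) ≤ SF p (A - n) := SF_mono p (by omega)
  unfold clsE ruleM
  push_cast [Nat.cast_sub m1, Nat.cast_sub m2]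
  ring

/-! ## Hypotheses -/

/-- the class rule, with exponent `cls n A p` -/
structure ClsRule (v : ℕ → K) (cls : ℕ → ℕ → ℕ → ℕ) (C1 n1 : ℕ) : Prop where
  le : ∀ n A p : ℕ, n1 ≤ n → 2 * n ≤ A → A ≤ 2 * n + 2 → p.Prime → 5 ≤ p → 8 * n < p ^ 2 →
    3 * p + 10 ≤ 2 * n → (cls n A p : ℝ) ≤ ruleM n A p + C1 * ((n : ℝ) / p + 1)
  mem : ∀ (n A p : ℕ) [Fact p.Prime], n1 ≤ n → 2 * n ≤ A → A ≤ 2 * n + 2 → 5 ≤ p →
    8 * n < p ^ 2 → 3 * p + 10 ≤ 2 * n → ∀ y y' : K, y ∈ Op p → y' ∈ Op p →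
    (p : K) ^ cls n A p * DeltaR y y' v A n ∈ Op p

/-- the rule for small odd primes -/
def SmallRule (v : ℕ → K) (s : ℕ) : Prop :=
  ∀ (n A p : ℕ) [Fact p.Prime], p ≠ 2 → n ≤ A → ∀ y y' : K, y ∈ Op p → y' ∈ Op p →
    (p : K) ^ ((s * Nat.log p (A + n) + 3 * Nat.log p (A + 1)) * (2 * A)) * DeltaR y y' v A n ∈ Op p

/-- the hypotheses `ClsRule` from the class rule in the form of `ClsMain` -/
theorem clsRule_of {v : ℕ → K} (h : ∀ (A rho p : ℕ) [Fact p.Prime], 5 ≤ p → rho ≤ A →
    A + rho + p + 3 ≤ p ^ 2 → 3 * ((p - 1) / 2) + 3 ≤ A - rho → ∀ y y' : K, y ∈ Op p → y' ∈ Op p →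
    (p : K) ^ clsE rho A p * DeltaR y y' v A rho ∈ Op p) : ClsRule v clsE 0 0 where
  le := by
    intro n A p _ _ _ _ _ _ _
    rw [clsE_eq]
    push_cast
    linarith
  mem := by
    intro n A p hp _ h1 h2 h5 h3 h4 y y' hy hy'
    refine h A n p h5 (by omega) ?_ (by omega) y y' hy hy'
    nlinarith

/-- **the exponent** -/
def eExp (s : ℕ) (cls : ℕ → ℕ → ℕ → ℕ) (n A p : ℕ) : ℕ :=
  if p = 2 then expTwo 0 A n
  else if A + n < p then 0
  else if p ^ 2 ≤ 8 * n then (s * Nat.log p (A + n) + 3 * Nat.log p (A + 1)) * (2 * A)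
  else if 3 * p + 10 ≤ 2 * n then cls n A p
  else eGen p A n

theorem eExp_zero {s : ℕ} {cls : ℕ → ℕ → ℕ → ℕ} {n A p : ℕ} (hn : 1 ≤ n) (h1 : 2 * n ≤ A)
    (h : A + n < p) : eExp s cls n A p = 0 := by
  unfold eExp
  rw [if_neg (by omega), if_pos h]

theorem eGen_zero {n A p : ℕ} [hp : Fact p.Prime] (hn : 1 ≤ n) (h : A + n < p) :
    eGen p A n = 0 := by
  unfold eGen
  have h1 : ∑ i ∈ range n, (padicValNat p (A + i).factorial
      - padicValNat p (A - n + i).factorial) = 0 := by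
    refine sum_eq_zero fun i hi => ?_
    have hi' := mem_range.1 hi
    have hpp : p ≤ p ^ 2 := Nat.le_self_pow (by norm_num) p
    rw [padicVal_fac_of_lt (p := p) (n := A + i) (by omega),
      Nat.div_eq_of_lt (by omega : A + i < p)]
    simp
  have h2 : ∑ i ∈ range A, rowc p i = 0 := by
    refine sum_eq_zero fun i hi => ?_
    have hi' := mem_range.1 hi
    unfold rowc
    rw [Nat.log_of_lt (by omega), mul_zero]
  rw [h1, h2]

/-- **integrality** for every prime -/
theorem eExp_mem {v : ℕ → K} (hv : IsFormal v) (hv0 : v 0 = alpha) {s : ℕ}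
    {cls : ℕ → ℕ → ℕ → ℕ} {C1 n1 : ℕ} (hs : SmallRule v s) (hc : ClsRule v cls C1 n1) {n A : ℕ}
    (hn1 : n1 ≤ n) (hn : 2 ≤ n) (h1 : 2 * n ≤ A) (h2 : A ≤ 2 * n + 2) (p : ℕ) [hp : Fact p.Prime]
    (y y' : K) (hy : y ∈ Op p) (hy' : y' ∈ Op p) :
    (p : K) ^ eExp s cls n A p * DeltaR y y' v A n ∈ Op p := by
  unfold eExp
  split_ifs with c1 c2 c3 c4
  · subst c1
    have := (AR_two hv hv0 (A := A) (rho := n) (by omega)).2 y y' hy hy'
    exact_mod_cast this
  · have h5 : 5 ≤ p := by omega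
    have := delta_boundL h5 hv hv0 hy hy' (A := A) (rho := n) (by omega)
    rwa [eGen_zero (by omega) c2] at this
  · exact hs n A p c1 (by omega) y y' hy hy'
  · have h5 : 5 ≤ p := by
      by_contra hlt
      have hp2 := hp.out.two_le
      interval_cases p
      · exact c1 rfl
      · omega
      · exact absurd hp.out (by norm_num)
    exact hc.mem n A p hn1 h1 h2 h5 (by omega) c4 y y' hy hy'
  · have h5 : 5 ≤ p := by
      by_contra hlt
      have hp2 := hp.out.two_le
      interval_cases p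
      · exact c1 rfl
      · omega
      · exact absurd hp.out (by norm_num)
    exact delta_boundL h5 hv hv0 hy hy' (by omega)

theorem natlog_mul_log_le {p m : ℕ} (hp : 1 < p) (hm : 1 ≤ m) :
    (Nat.log p m : ℝ) * Real.log p ≤ Real.log m := by
  rw [← Real.log_pow]
  apply Real.log_le_log
  · have : (0 : ℝ) < p := by exact_mod_cast (by omega : 0 < p)
    positivity
  · exact_mod_cast Nat.pow_log_le_self p (by omega)

theorem log_le_two {n m : ℕ} (hm : 1 ≤ m) (h : m ≤ 3 * n + 2) :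
    Real.log m ≤ 2 * Real.log (n + 2) := by
  have h1 : Real.log (((n : ℝ) + 2) ^ 2) = 2 * Real.log (n + 2) := by
    rw [Real.log_pow]; norm_num
  rw [← h1]
  apply Real.log_le_log
  · exact_mod_cast (by omega : 0 < m)
  · have : (m : ℝ) ≤ 3 * n + 2 := by exact_mod_cast h
    have hn0 : (0 : ℝ) ≤ n := Nat.cast_nonneg n
    nlinarith

/-- **the numerical side** -/
theorem eExp_PRule {v : ℕ → K} {s : ℕ} {cls : ℕ → ℕ → ℕ → ℕ} {C1 n1 : ℕ}
    (hc : ClsRule v cls C1 n1) : PRule (eExp s cls) 8 (400 + 16 * (s + 3) + C1) (n1 + 2) := by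
  have hlog : ∀ n : ℕ, 2 ≤ n → 1 ≤ Real.log ((n : ℝ) + 2) := by
    intro n hn
    have h1 : Real.log (Real.exp 1) ≤ Real.log ((n : ℝ) + 2) := by
      apply Real.log_le_log (Real.exp_pos 1)
      have := Real.exp_one_lt_d9
      have hn' : (2 : ℝ) ≤ n := by exact_mod_cast hn
      linarith
    rwa [Real.log_exp] at h1
  constructor
  · -- p = 2
    intro n A hn hA1 hA2
    have h0 : eExp s cls n A 2 = expTwo 0 A n := by simp [eExp]
    rw [h0]
    have h1 := expTwo_le 0 (A := A) (rho := n) (by omega)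
    have h2 : ((2 * expTwo 0 A n : ℕ) : ℝ) ≤
        ((11 * n ^ 2 + (4 * 0 + 20) * ((A + 1) * (Nat.log 2 (A + n + 1) + 1)) : ℕ) : ℝ) := by
      exact_mod_cast h1
    push_cast at h2
    have hn' : 2 ≤ n := by omega
    have hnr : (2 : ℝ) ≤ n := by exact_mod_cast hn'
    have hL := hlog n hn'
    have h3 : (Nat.log 2 (A + n + 1) : ℝ) * Real.log 2 ≤ 3 * Real.log (n + 2) := by
      have a1 := natlog_mul_log_le (p := 2) (m := A + n + 1) (by norm_num) (by omega)
      have a2 : Real.log ((A + n + 1 : ℕ) : ℝ) ≤ 3 * Real.log (n + 2) := by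
        have b1 : Real.log (((n : ℝ) + 2) ^ 3) = 3 * Real.log (n + 2) := by
          rw [Real.log_pow]; norm_num
        rw [← b1]
        apply Real.log_le_log
        · exact_mod_cast (by omega : 0 < A + n + 1)
        · have b2 : ((A + n + 1 : ℕ) : ℝ) ≤ 3 * n + 3 := by
            exact_mod_cast (by omega : A + n + 1 ≤ 3 * n + 3)
          nlinarith [sq_nonneg ((n : ℝ) + 2)]
      push_cast at a1 a2
      linarith
    have h4 : (0.69 : ℝ) ≤ Real.log 2 := by
      have := Real.log_two_gt_d9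
      linarith
    have hlognn : (0 : ℝ) ≤ (Nat.log 2 (A + n + 1) : ℝ) := Nat.cast_nonneg _
    have h5 : (Nat.log 2 (A + n + 1) : ℝ) ≤ 5 * Real.log (n + 2) := by
      nlinarith
    have h6 : ((A : ℝ) + 1) ≤ 4 * n := by
      have : (A : ℝ) ≤ 2 * n + 2 := by exact_mod_cast hA2
      linarith
    have h7 : ((A : ℝ) + 1) * ((Nat.log 2 (A + n + 1) : ℝ) + 1) ≤ 4 * n * (6 * Real.log (n + 2)) := by
      apply mul_le_mul h6 _ (by positivity) (by positivity)
      linarith
    have h8 : (0 : ℝ) ≤ (n : ℝ) * Real.log (n + 2) := by positivity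
    have hs0 : (0 : ℝ) ≤ s := Nat.cast_nonneg s
    have hC0 : (0 : ℝ) ≤ C1 := Nat.cast_nonneg C1
    push_cast
    nlinarith [mul_nonneg hs0 h8, mul_nonneg hC0 h8]
  · -- small
    intro n A p hn hA1 hA2 hpp hp2 hK
    have hn' : 2 ≤ n := by omega
    have hnr : (2 : ℝ) ≤ n := by exact_mod_cast hn'
    have hL := hlog n hn'
    have hp1 := hpp.one_lt
    have hlt : ¬ A + n < p := by
      intro hlt
      have : p * p ≤ 8 * n := by nlinarith
      nlinarith
    have h0 : eExp s cls n A p =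
        (s * Nat.log p (A + n) + 3 * Nat.log p (A + 1)) * (2 * A) := by
      unfold eExp
      rw [if_neg hp2, if_neg hlt, if_pos hK]
    rw [h0]
    have a1 := natlog_mul_log_le (p := p) (m := A + n) hp1 (by omega)
    have a2 := natlog_mul_log_le (p := p) (m := A + 1) hp1 (by omega)
    have b1 := log_le_two (n := n) (m := A + n) (by omega) (by omega)
    have b2 := log_le_two (n := n) (m := A + 1) (by omega) (by omega)
    have hs0 : (0 : ℝ) ≤ s := Nat.cast_nonneg s
    have c1 : (s : ℝ) * ((Nat.log p (A + n) : ℝ) * Real.log p) ≤ s * (2 * Real.log (n + 2)) :=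
      mul_le_mul_of_nonneg_left (a1.trans b1) hs0
    have c2 : ((Nat.log p (A + 1) : ℝ) * Real.log p) ≤ 2 * Real.log (n + 2) := a2.trans b2
    have hAr : (A : ℝ) ≤ 4 * n := by
      have : (A : ℝ) ≤ 2 * n + 2 := by exact_mod_cast hA2
      linarith
    have hA0 : (0 : ℝ) ≤ A := Nat.cast_nonneg A
    have e1 : (((s * Nat.log p (A + n) + 3 * Nat.log p (A + 1)) * (2 * A) : ℕ) : ℝ) * Real.log p =
        (s * ((Nat.log p (A + n) : ℝ) * Real.log p) + 3 * ((Nat.log p (A + 1) : ℝ) * Real.log p))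
          * (2 * A) := by
      push_cast
      ring
    rw [e1]
    have e2 : (s * ((Nat.log p (A + n) : ℝ) * Real.log p) +
        3 * ((Nat.log p (A + 1) : ℝ) * Real.log p)) * (2 * A) ≤
        (s * (2 * Real.log (n + 2)) + 3 * (2 * Real.log (n + 2))) * (2 * (4 * n)) := by
      apply mul_le_mul (by linarith) (by linarith) (by positivity)
      positivity
    refine e2.trans ?_
    have h8 : (0 : ℝ) ≤ (n : ℝ) * Real.log (n + 2) := by positivity
    have hC0 : (0 : ℝ) ≤ C1 := Nat.cast_nonneg C1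
    push_cast
    nlinarith [mul_nonneg hs0 h8, mul_nonneg hC0 h8]
  · -- mid
    intro n A p hn hA1 hA2 hpp hp2 hK h3
    have hn' : 2 ≤ n := by omega
    have h5 : 5 ≤ p := by
      by_contra hlt
      have hp2' := hpp.two_le
      interval_cases p
      · exact hp2 rfl
      · omega
      · exact absurd hpp (by norm_num)
    have h0 : eExp s cls n A p = cls n A p := by
      unfold eExp
      rw [if_neg hp2, if_neg (by omega), if_neg (by omega), if_pos h3]
    rw [h0]
    refine (hc.le n A p (by omega) hA1 hA2 hpp h5 hK h3).trans ?_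
    have hq : (0 : ℝ) ≤ (n : ℝ) / p + 1 := by positivity
    have hs0 : (0 : ℝ) ≤ s := Nat.cast_nonneg s
    push_cast
    nlinarith [mul_nonneg hs0 hq]
  · -- large
    intro n A p hn hA1 hA2 hpp hp2 hK h3 hpA
    have hn' : 2 ≤ n := by omega
    have : Fact p.Prime := ⟨hpp⟩
    have h0 : eExp s cls n A p = eGen p A n := by
      unfold eExp
      rw [if_neg hp2, if_neg (by omega), if_neg (by omega), if_neg (by omega)]
    rw [h0]
    have h4 := eGen_le (p := p) hA1 hA2 (by omega) (by omega)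
    unfold ruleL
    have hs0 : (0 : ℝ) ≤ s := Nat.cast_nonneg s
    have hC0 : (0 : ℝ) ≤ C1 := Nat.cast_nonneg C1
    push_cast
    nlinarith

end QS2
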