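import Pool.Agent.QS2.ClsNumM
import Pool.Agent.QS2.Expo
import Pool.Agent.QS2.ClsGood
import Pool.Agent.QS2.ClsRows
import Pool.Agent.QS2.ClsBase

/-!
# QS2, odd class rule: the assembly in the form used by `Expo`
-/

set_option autoImplicit false

namespace QS2.Cls

open Polynomial Finset

theorem clsE_eq_eCls {p : ℕ} (hp : p % 2 = 1) (rho A : ℕ) : clsE rho A p = eCls A rho p := by
  have h : ((clsE rho A p : ℕ) : ℝ) = ((eCls A rho p : ℕ) : ℝ) := by
    rw [clsE_eq, eCls_eq_ruleM hp]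
  exact_mod_cast h

/-- the shape of `data_exists` -/
def DataStmt (p : ℕ) [Fact p.Prime] (v : ℕ → K) : Prop :=
  ∃ (half al ali : Op p) (V V' : ℕ → (Op p)[X]), Data p v half al ali V V'

/-- **The class rule** (from the data). -/
theorem class_rule_of_data {p : ℕ} [hp : Fact p.Prime] (hp5 : 5 ≤ p) {v : ℕ → K}
    (hdata : DataStmt p v) {y y' : K} (hy : y ∈ Op p) (hy' : y' ∈ Op p) {A rho : ℕ}
    (hA : A + rho + p + 3 ≤ p ^ 2) (hM : dg p + 3 ≤ A - rho) :
    (p : K) ^ (clsE rho A p) * DeltaR y y' v A rho ∈ Op p := by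
  have hodd : p % 2 = 1 := by
    rcases hp.out.eq_two_or_odd with h | h
    · omega
    · exact h
  obtain ⟨half, al, ali, V, V', hd⟩ := hdata
  obtain ⟨P, Q, hg⟩ := good_of_data hd
  have h := base_change hp5 hg hM (by omega) y y' (6 * p + 9) _ (eCls_spec A rho p)
    (fun e => rows_det hp5 hg hy hy' hA e)
  rw [clsE_eq_eCls hodd]
  exact h

/-- the class rule in the form of `clsRule_of` -/
theorem clsRule_of_data {v : ℕ → K}
    (hdata : ∀ (p : ℕ) [Fact p.Prime], 5 ≤ p → DataStmt p v) : ClsRule v clsE 0 0 :=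
  clsRule_of fun _ _ p _ hp5 _ hA hM _ _ hy hy' =>
    class_rule_of_data hp5 (hdata p hp5) hy hy' hA hM

end QS2.Cls
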