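import Pool.Agent.QS2.SymTri
import Pool.Agent.QS2.ClsSig
import Pool.Agent.QS2.FormalV

/-!
# The symmetric formula for the formal solution of the Apéry recurrence

For every odd prime `p` there are `p`-integral `κ_{m,m',k} ∈ ℚ(√2)`, `κ_{0,0,0}` a unit, with
`v (1 + (3/2) X)^3 Σ(3/2) = α (1 + X)^3 Σ(5/2)`, `X = 1/z`, where
`Σ(a) = ∑ κ_{m,m',k} (1/2)_m (1/2)_m' (1/2)_k / ((z+a)_m (z+a)_m' (z+a)_k)`.
-/

set_option autoImplicit false

namespace QS2.Sym

open PowerSeries Finset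

section MapLemmas

variable {S T : Type*} [CommRing S] [CommRing T] (f : S →+* T)

theorem map_geo (c : S) : PowerSeries.map f (geo c) = geo (f c) := by
  ext n
  rw [coeff_map, geo, geo, coeff_mk, coeff_mk, map_pow, map_neg]

theorem map_fr (a : S) (m : ℕ) : PowerSeries.map f (fr a m) = fr (f a) m := by
  induction m with
  | zero => rw [fr, fr, map_one]
  | succ m ih => rw [fr, fr, map_mul, map_mul, map_geo, ih, map_X, map_add, map_natCast]

theorem map_hp (hf : S) (m : ℕ) : f (hp hf m) = hp (f hf) m := by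
  induction m with
  | zero => rw [hp, hp, map_one]
  | succ m ih => rw [hp, hp, map_mul, map_add, map_natCast, ih]

theorem map_EE (hf a : S) (m : ℕ) : PowerSeries.map f (EE hf a m) = EE (f hf) (f a) m := by
  rw [EE, EE, map_mul, map_C, map_fr, map_hp]

end MapLemmas

/-- `√2` in `ℚ(√2)` -/
def om : K := ⟨0, 1⟩

theorem om_sq : om ^ 2 = 2 := by
  rw [pow_two]
  ext
  · rw [QuadraticAlgebra.re_mul]
    simp [om, QuadraticAlgebra.re_ofNat]
  · rw [QuadraticAlgebra.im_mul]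
    simp [om, QuadraticAlgebra.im_ofNat]

theorem alpha_eq : alpha = (om - 1) ^ 4 := by
  have h : alpha = 17 - 12 * om := by
    ext
    · simp [alpha, om, QuadraticAlgebra.re_ofNat, QuadraticAlgebra.im_ofNat]
    · simp [alpha, om, QuadraticAlgebra.re_ofNat, QuadraticAlgebra.im_ofNat]
  rw [h]
  linear_combination (-(om ^ 2) + 4 * om - 8) * om_sq

theorem om_mem (p : ℕ) [Fact p.Prime] : om ∈ Op p := by
  rw [mem_Op]
  simp [om]

theorem half_mem {p : ℕ} [hp : Fact p.Prime] (hp2 : p ≠ 2) : (2 : K)⁻¹ ∈ Op p := by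
  have h2 : (2 : K)⁻¹ = ⟨(2 : ℚ)⁻¹, 0⟩ := by
    rw [inv_eq_iff_eq_inv]
    apply eq_inv_of_mul_eq_one_left
    ext
    · rw [QuadraticAlgebra.re_mul]
      simp [QuadraticAlgebra.re_ofNat, QuadraticAlgebra.re_one]
    · rw [QuadraticAlgebra.im_mul]
      simp [QuadraticAlgebra.im_ofNat, QuadraticAlgebra.im_one]
  rw [mem_Op, h2]
  have h3 : padicNorm p (2 : ℚ) = 1 := by
    have h4 : ¬ p ∣ 2 := fun h => hp2 ((Nat.prime_dvd_prime_iff_eq hp.out Nat.prime_two).1 h)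
    have := (padicNorm.nat_eq_one_iff (p := p) 2).2 h4
    simpa using this
  constructor
  · have h5 : padicNorm p ((2 : ℚ)⁻¹) = (padicNorm p 2)⁻¹ := by
      have h6 : padicNorm p ((2 : ℚ)⁻¹) * padicNorm p 2 = 1 := by
        rw [← padicNorm.mul]
        norm_num
      exact eq_inv_of_mul_eq_one_left h6
    change padicNorm p ((2 : ℚ)⁻¹) ≤ 1
    rw [h5, h3, inv_one]
  · simp

/-- `(1/2)_m / (z+a)_m` over `K` -/
noncomputable abbrev EK (a : K) (m : ℕ) : PowerSeries K := EE (2 : K)⁻¹ a m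

theorem EK_prod (a : K) (m : ℕ) :
    EK a m * ∏ i ∈ range m, (1 + C (a + (i : K)) * X) =
      C (∏ i ∈ range m, ((2 : K)⁻¹ + (i : K))) * X ^ m := by
  rw [← hp_prod]
  exact EE_prod a m

theorem coeff_sigF (kap : ℕ → ℕ → ℕ → K) (e : ℕ → PowerSeries K) (n : ℕ) :
    coeff n (Cls.sigF kap e) = ∑ m ∈ range (n + 1), ∑ m' ∈ range (n + 1),
      ∑ k ∈ range (n + 1), kap m m' k * coeff n (e m * e m' * e k) := by
  rw [Cls.sigF, coeff_mk]

theorem sh_eq (V : PowerSeries K) : FV.sh V = NV.sh V := by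
  rw [FV.sh_apply, NV.sh_apply]
  rfl

/-- the shift of `Σ(a)` -/
theorem sh_sig (kap : ℕ → ℕ → ℕ → K) {a b : K} (hab : b = a - 1) :
    FV.sh (Cls.sigF kap (EK a)) = Cls.sigF kap (EK b) := by
  subst hab
  rw [sh_eq]
  exact Cls.sh_triple (EK_prod a) (EK_prod (a - 1)) (coeff_sigF kap _) (coeff_sigF kap _)

/-- **the three-term relation over `ℚ(√2)`** -/
theorem exists_kap {p : ℕ} [hp : Fact p.Prime] (hp2 : p ≠ 2) :
    ∃ kap : ℕ → ℕ → ℕ → K, (∀ m m' k, kap m m' k ∈ Op p) ∧ kap 0 0 0 ≠ 0 ∧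
      (kap 0 0 0)⁻¹ ∈ Op p ∧
      C alpha * (1 + X) ^ 6 * Cls.sigF kap (EK (5 * 2⁻¹)) -
        (34 + 51 * X + 27 * X ^ 2 + 5 * X ^ 3) * (1 + C (3 * 2⁻¹) * X) ^ 3 *
          Cls.sigF kap (EK (3 * 2⁻¹)) +
        C alpha⁻¹ * (1 + C (3 * 2⁻¹) * X) ^ 3 * (1 + C 2⁻¹ * X) ^ 3 *
          Cls.sigF kap (EK 2⁻¹) = 0 := by
  let hfO : Op p := ⟨(2 : K)⁻¹, half_mem hp2⟩
  let wO : Op p := ⟨om, om_mem p⟩
  have h2 : 2 * hfO = 1 := by
    apply Subtype.ext
    change (2 : K) * (2 : K)⁻¹ = 1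
    exact mul_inv_cancel₀ (by norm_num)
  have hw : wO ^ 2 = 2 := by
    apply Subtype.ext
    change om ^ 2 = (2 : K)
    exact om_sq
  obtain ⟨d⟩ := exists_dat h2 hw
  have hal : alpha * (om + 1) ^ 4 = 1 := by
    rw [alpha_eq]
    have e : (om - 1) ^ 4 * (om + 1) ^ 4 = (om ^ 2 - 1) ^ 4 := by ring
    rw [e, om_sq]
    norm_num
  have hk : ((d.kap 0 0 0 : Op p) : K) * ((((wO + 1) ^ 2 * wO : Op p)) : K) = 1 := by
    have := congrArg (Subtype.val) d.kap_zero_mul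
    exact this
  refine ⟨fun m m' k => (d.kap m m' k : K), fun m m' k => (d.kap m m' k).2, ?_, ?_, ?_⟩
  · exact left_ne_zero_of_mul_eq_one hk
  · rw [inv_eq_of_mul_eq_one_right hk]
    exact ((wO + 1) ^ 2 * wO : Op p).2
  · have h := congrArg (PowerSeries.map (Op p).subtype) d.three_term
    have hS : ∀ a : Op p, PowerSeries.map (Op p).subtype (d.Sg a) =
        Cls.sigF (fun m m' k => (d.kap m m' k : K)) (EK (a : K)) := by
      intro a
      ext n : 1
      rw [coeff_map, d.coeff_Sg, coeff_sigF, map_sum]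
      refine Finset.sum_congr rfl fun m _ => ?_
      rw [map_sum]
      refine Finset.sum_congr rfl fun m' _ => ?_
      rw [map_sum]
      refine Finset.sum_congr rfl fun k _ => ?_
      rw [map_mul, ← coeff_map]
      have e9 : PowerSeries.map (Op p).subtype (EE hfO a m * EE hfO a m' * EE hfO a k) =
          EK (a : K) m * EK (a : K) m' * EK (a : K) k := by
        rw [map_mul, map_mul, map_EE, map_EE, map_EE]
        rfl
      rw [e9]
      rfl
    simp only [map_add, map_sub, map_mul, map_pow, map_one, map_zero, map_C, map_X, hS,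
      map_ofNat] at h
    have e1 : (Op p).subtype hfO = (2 : K)⁻¹ := rfl
    have e2 : (Op p).subtype wO = om := rfl
    have e3 : ((hfO + 1 : Op p) : K) = 3 * 2⁻¹ := by
      change (2 : K)⁻¹ + 1 = 3 * 2⁻¹
      norm_num
    have e4 : ((hfO + 1 + 1 : Op p) : K) = 5 * 2⁻¹ := by
      change (2 : K)⁻¹ + 1 + 1 = 5 * 2⁻¹
      norm_num
    have e5 : ((hfO : Op p) : K) = 2⁻¹ := rfl
    rw [e1, e2, e3, e4, e5] at h
    have c1 : (C alpha : PowerSeries K) = (C om - 1) ^ 4 := by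
      rw [alpha_eq, map_pow, map_sub, map_one]
    have c2 : (C alpha⁻¹ : PowerSeries K) = (C om + 1) ^ 4 := by
      rw [inv_eq_of_mul_eq_one_right hal, map_pow, map_add, map_one]
    have c3 : (C (3 * 2⁻¹) : PowerSeries K) = C 2⁻¹ + 1 := by
      have : (3 * 2⁻¹ : K) = 2⁻¹ + 1 := by norm_num
      rw [this, map_add, map_one]
    rw [c1, c2, c3]
    exact h

theorem const_ne {F : PowerSeries K} (h : coeff 0 F ≠ 0) : F ≠ 0 := by
  rintro rfl
  exact h (map_zero _)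

theorem coeff_zero_sig (kap : ℕ → ℕ → ℕ → K) (a : K) :
    coeff 0 (Cls.sigF kap (EK a)) = kap 0 0 0 := by
  rw [coeff_sigF]
  simp [EE, hp, fr_zero]

/-- from the three-term relation to the formula for `v` -/
theorem formula_of_three {kap : ℕ → ℕ → ℕ → K} (hk : kap 0 0 0 ≠ 0)
    (h3 : C alpha * (1 + X) ^ 6 * Cls.sigF kap (EK (5 * 2⁻¹)) -
        (34 + 51 * X + 27 * X ^ 2 + 5 * X ^ 3) * (1 + C (3 * 2⁻¹) * X) ^ 3 *
          Cls.sigF kap (EK (3 * 2⁻¹)) +
        C alpha⁻¹ * (1 + C (3 * 2⁻¹) * X) ^ 3 * (1 + C 2⁻¹ * X) ^ 3 *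
          Cls.sigF kap (EK 2⁻¹) = 0) {v : ℕ → K} (hv : IsFormal v) (hv0 : v 0 = alpha) :
    PowerSeries.mk v * ((1 + C (3 * 2⁻¹) * X) ^ 3 * Cls.sigF kap (EK (3 * 2⁻¹))) =
      C alpha * (1 + X) ^ 3 * Cls.sigF kap (EK (5 * 2⁻¹)) := by
  set S5 := Cls.sigF kap (EK (5 * 2⁻¹)) with hS5
  set S3 := Cls.sigF kap (EK (3 * 2⁻¹)) with hS3
  set S1 := Cls.sigF kap (EK 2⁻¹) with hS1
  have s53 : FV.sh S5 = S3 := sh_sig kap (by norm_num)
  have s31 : FV.sh S3 = S1 := sh_sig kap (by norm_num)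
  have z5 : coeff 0 S5 = kap 0 0 0 := coeff_zero_sig kap _
  have z3 : coeff 0 S3 = kap 0 0 0 := coeff_zero_sig kap _
  have z1 : coeff 0 S1 = kap 0 0 0 := coeff_zero_sig kap _
  have n3 : S3 ≠ 0 := const_ne (by rw [z3]; exact hk)
  have n1 : S1 ≠ 0 := const_ne (by rw [z1]; exact hk)
  have hal : alpha ≠ 0 := by
    intro h
    have := congrArg QuadraticAlgebra.re h
    simp [alpha] at this
  have l3 : (1 + C (3 * 2⁻¹) * X : PowerSeries K) ≠ 0 := const_ne (by simp)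
  have l1 : (1 + C 2⁻¹ * X : PowerSeries K) ≠ 0 := const_ne (by simp)
  set D3 := (1 + C (3 * 2⁻¹) * X) ^ 3 * S3 with hD3
  have hD0 : constantCoeff D3 ≠ 0 := by
    rw [hD3, map_mul, ← coeff_zero_eq_constantCoeff, z3]
    simpa using hk
  set V := C alpha * (1 + X) ^ 3 * S5 * D3⁻¹ with hV
  have hVD : V * D3 = C alpha * (1 + X) ^ 3 * S5 := by
    rw [hV, mul_assoc, PowerSeries.inv_mul_cancel _ hD0, mul_one]
  have hsV : FV.sh V * ((1 + C 2⁻¹ * X) ^ 3 * S1) = C alpha * S3 := by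
    have h := congrArg FV.sh hVD
    rw [hD3] at h
    simp only [map_mul, map_pow, map_add, map_one, FV.sh_X, FV.sh_C, s53, s31] at h
    have ht := FV.tt_mul (F := K)
    have hc : (3 : PowerSeries K) * C 2⁻¹ = C 2⁻¹ + 1 := by
      have e3 : (3 : PowerSeries K) = C 3 := (map_ofNat C 3).symm
      have : (3 * 2⁻¹ : K) = 2⁻¹ + 1 := by norm_num
      rw [e3, ← map_mul, this, map_add, map_one]
    have hc3 : (C (3 : K) : PowerSeries K) * C 2⁻¹ = C 2⁻¹ + 1 := by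
      have : (3 * 2⁻¹ : K) = 2⁻¹ + 1 := by norm_num
      rw [← map_mul, this, map_add, map_one]
    have e1 : (1 + C 3 * C 2⁻¹ * FV.tt K) * (1 - X) = 1 + C 2⁻¹ * X := by
      rw [hc3]
      linear_combination (C 2⁻¹ + 1) * ht
    have e2 : (1 + FV.tt K) * (1 - X) = 1 := by
      linear_combination ht
    have e3 : (1 + C 2⁻¹ * X : PowerSeries K) ^ 3 =
        (1 + C 3 * C 2⁻¹ * FV.tt K) ^ 3 * (1 - X) ^ 3 := by
      rw [← mul_pow, e1]
    have e4 : (1 + FV.tt K) ^ 3 * (1 - X) ^ 3 = 1 := by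
      rw [← mul_pow, e2, one_pow]
    rw [e3]
    linear_combination (1 - X) ^ 3 * h + (C alpha * S3) * e4
  have hRic : FV.Ric V := by
    unfold FV.Ric
    have hne : D3 * ((1 + C 2⁻¹ * X) ^ 3 * S1) ≠ 0 :=
      mul_ne_zero (mul_ne_zero (pow_ne_zero _ l3) n3) (mul_ne_zero (pow_ne_zero _ l1) n1)
    apply mul_left_cancel₀ hne
    rw [mul_zero]
    have ha : (C alpha * C alpha⁻¹ : PowerSeries K) = 1 := by
      rw [← map_mul, mul_inv_cancel₀ hal, map_one]
    rw [hD3] at hVD ⊢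
    linear_combination ((1 + X) ^ 3 * (FV.sh V * ((1 + C 2⁻¹ * X) ^ 3 * S1))) * hVD +
      ((1 + X) ^ 3 * (C alpha * (1 + X) ^ 3 * S5) - (34 + 51 * X + 27 * X ^ 2 + 5 * X ^ 3) *
        ((1 + C (3 * 2⁻¹) * X) ^ 3 * S3)) * hsV + (C alpha * S3) * h3 -
      (S3 * (1 + C (3 * 2⁻¹) * X) ^ 3 * (1 + C 2⁻¹ * X) ^ 3 * S1) * ha
  have hV0 : coeff 0 V = alpha := by
    have h := congrArg (coeff 0) hVD
    rw [hD3] at h
    simp only [coeff_zero_eq_constantCoeff, map_mul, map_pow, map_add, map_one] at h z3 z5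
    rw [z3, z5] at h
    simp only [constantCoeff_C, constantCoeff_X, mul_zero, add_zero, one_pow, one_mul,
      mul_one] at h
    rw [coeff_zero_eq_constantCoeff]
    exact mul_right_cancel₀ hk h
  have hRv : FV.Ric (PowerSeries.mk v) := by
    unfold FV.Ric
    rw [FV.sh_mk]
    exact hv
  have hne : 2 * alpha ≠ 34 := by
    intro h
    have := congrArg QuadraticAlgebra.im h
    simp [alpha, QuadraticAlgebra.re_ofNat, QuadraticAlgebra.im_ofNat] at this
  have hfin : PowerSeries.mk v = V :=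
    FV.ric_unique hRv hRic (a := alpha) (by rw [coeff_mk, hv0]) hV0 hne
  rw [hfin]
  exact hVD

/-- **The symmetric formula** : for every odd prime `p`, the formal solution `v` is the quotient
of two triple sums with `p`-integral coefficients. -/
theorem sym_formula {p : ℕ} [Fact p.Prime] (hp2 : p ≠ 2) {v : ℕ → K} (hv : IsFormal v)
    (hv0 : v 0 = alpha) :
    ∃ kap : ℕ → ℕ → ℕ → K, (∀ m m' k, kap m m' k ∈ Op p) ∧ kap 0 0 0 ≠ 0 ∧
      (kap 0 0 0)⁻¹ ∈ Op p ∧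
      PowerSeries.mk v * ((1 + C (3 * 2⁻¹) * X) ^ 3 * Cls.sigF kap (EK (3 * 2⁻¹))) =
        C alpha * (1 + X) ^ 3 * Cls.sigF kap (EK (5 * 2⁻¹)) := by
  obtain ⟨kap, h1, h2, h3, h4⟩ := exists_kap hp2
  exact ⟨kap, h1, h2, h3, formula_of_three h2 h4 hv hv0⟩

end QS2.Sym
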