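import Pool.Agent.QS2.ClsData
import Pool.Agent.QS2.ClsMain
import Pool.Agent.QS2.Sym

/-!
# QS2, odd class rule: `data_exists`
-/

set_option autoImplicit false

namespace QS2.Cls

open Polynomial QS2.NV
open HahnSeries hiding C

variable {p : ℕ} [hp : Fact p.Prime]

/-- the fraction `(1/2)_m X^m / ∏ (1 + (a+i) X)` -/
noncomputable def Efam (a : K) (m : ℕ) : PowerSeries K :=
  PowerSeries.C (∏ i ∈ Finset.range m, ((2 : K)⁻¹ + (i : K))) * PowerSeries.X ^ m *
    ∏ i ∈ Finset.range m, (1 + PowerSeries.C (a + (i : K)) * PowerSeries.X)⁻¹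

theorem Efam_spec (a : K) (m : ℕ) :
    Efam a m * ∏ i ∈ Finset.range m, (1 + PowerSeries.C (a + (i : K)) * PowerSeries.X) =
      PowerSeries.C (∏ i ∈ Finset.range m, ((2 : K)⁻¹ + (i : K))) * PowerSeries.X ^ m := by
  unfold Efam
  rw [mul_assoc, ← Finset.prod_mul_distrib]
  have h : ∏ i ∈ Finset.range m, ((1 + PowerSeries.C (a + (i : K)) * PowerSeries.X)⁻¹ *
      (1 + PowerSeries.C (a + (i : K)) * PowerSeries.X) : PowerSeries K) = 1 := by
    refine Finset.prod_eq_one fun i _ => ?_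
    apply PowerSeries.inv_mul_cancel
    simp
  rw [h, mul_one]

/-- `Data` from the formula, stated for `a = 3/2, 5/2` only -/
theorem data_of_sym (h2 : p ≠ 2) {v : ℕ → K} (hv0 : v 0 = alpha) (hv : IsFormal v)
    {kap : ℕ → ℕ → ℕ → K} (hkap : ∀ i j k, kap i j k ∈ Op p) (hk0 : kap 0 0 0 ≠ 0)
    (hk0' : (kap 0 0 0)⁻¹ ∈ Op p) {E3 E5 : ℕ → PowerSeries K}
    (hE3 : ∀ m, E3 m * ∏ i ∈ Finset.range m,
        (1 + PowerSeries.C ((3 / 2 : K) + (i : K)) * PowerSeries.X) =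
      PowerSeries.C (∏ i ∈ Finset.range m, ((2 : K)⁻¹ + (i : K))) * PowerSeries.X ^ m)
    (hE5 : ∀ m, E5 m * ∏ i ∈ Finset.range m,
        (1 + PowerSeries.C ((5 / 2 : K) + (i : K)) * PowerSeries.X) =
      PowerSeries.C (∏ i ∈ Finset.range m, ((2 : K)⁻¹ + (i : K))) * PowerSeries.X ^ m)
    {S3 S5 : PowerSeries K}
    (hS3 : ∀ l, PowerSeries.coeff l S3 = ∑ i ∈ Finset.range (l + 1),
      ∑ j ∈ Finset.range (l + 1), ∑ k ∈ Finset.range (l + 1),
        kap i j k * PowerSeries.coeff l (E3 i * E3 j * E3 k))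
    (hS5 : ∀ l, PowerSeries.coeff l S5 = ∑ i ∈ Finset.range (l + 1),
      ∑ j ∈ Finset.range (l + 1), ∑ k ∈ Finset.range (l + 1),
        kap i j k * PowerSeries.coeff l (E5 i * E5 j * E5 k))
    (hfor : PowerSeries.mk v * (1 + PowerSeries.C (3 / 2) * PowerSeries.X) ^ 3 * S3 =
      PowerSeries.C alpha * (1 + PowerSeries.X) ^ 3 * S5) :
    DataStmt p v := by
  have e3 : ∀ m, Efam (3 / 2) m = E3 m := fun m => frac_unique (Efam_spec (3 / 2) m) (hE3 m)
  have e5 : ∀ m, Efam (5 / 2) m = E5 m := fun m => frac_unique (Efam_spec (5 / 2) m) (hE5 m)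
  set S : K → PowerSeries K := fun a => sigF kap (Efam a) with hS
  have hSc : ∀ a l, PowerSeries.coeff l (S a) = ∑ i ∈ Finset.range (l + 1),
      ∑ j ∈ Finset.range (l + 1), ∑ k ∈ Finset.range (l + 1),
        kap i j k * PowerSeries.coeff l (Efam a i * Efam a j * Efam a k) := by
    intro a l
    rw [hS]
    simp only [sigF, PowerSeries.coeff_mk]
  have s3 : S (3 / 2) = S3 := by
    refine PowerSeries.ext fun l => ?_
    rw [hSc, hS3]
    simp only [e3]
  have s5 : S (5 / 2) = S5 := by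
    refine PowerSeries.ext fun l => ?_
    rw [hSc, hS5]
    simp only [e5]
  refine data_of_formula h2 hv0 hv hkap hk0 hk0' Efam_spec hSc ?_
  rw [s3, s5]
  exact hfor

/-- **`data_exists`** -/
theorem data_exists (hp5 : 5 ≤ p) {v : ℕ → K} (hv0 : v 0 = alpha) (hv : IsFormal v) :
    DataStmt p v := by
  have h2 : p ≠ 2 := by omega
  obtain ⟨kap, hkap, hk0, hk0', hfor⟩ := QS2.Sym.sym_formula (p := p) h2 hv hv0
  have e3 : (3 * 2⁻¹ : K) = 3 / 2 := by ring
  have e5 : (5 * 2⁻¹ : K) = 5 / 2 := by ring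
  rw [e3, e5] at hfor
  refine data_of_sym h2 hv0 hv hkap hk0 hk0' (QS2.Sym.EK_prod (3 / 2)) (QS2.Sym.EK_prod (5 / 2))
    (fun l => QS2.Sym.coeff_sigF _ _ _) (fun l => QS2.Sym.coeff_sigF _ _ _) ?_
  rw [mul_assoc]
  exact hfor

end QS2.Cls
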