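import Pool.Agent.QS2.ClsDefs

/-!
# QS2, odd class rule: the exponent
-/

set_option autoImplicit false

namespace QS2.Cls

open Finset

/-- the exponent of the class rule: `c = A + rho`, `M = A - rho` -/
def eCls (A rho p : ℕ) : ℕ :=
  6 * p + 9 + ((Sfl p (A + rho) - Sfl p (A + rho - (dg p + 3)))
    + (Sfl p (A - rho) - Sfl p (A - rho - (dg p + 3))))

theorem Sfl_mono (p : ℕ) {M N : ℕ} (h : M ≤ N) : Sfl p M ≤ Sfl p N :=
  Finset.sum_le_sum_of_subset (Finset.range_mono h)

theorem eCls_spec (A rho p : ℕ) :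
    Sfl p (A + rho) + Sfl p (A - rho) ≤
      ((Sfl p (A + rho) - Sfl p (A + rho - (dg p + 3)))
        + (Sfl p (A - rho) - Sfl p (A - rho - (dg p + 3))))
      + Sfl p (A + rho - (dg p + 3)) + Sfl p (A - rho - (dg p + 3)) := by
  have h1 := Sfl_mono p (show A + rho - (dg p + 3) ≤ A + rho by omega)
  have h2 := Sfl_mono p (show A - rho - (dg p + 3) ≤ A - rho by omega)
  omega

end QS2.Cls
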