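import Pool.Agent.QS2.Defs

/-!
# QS2, odd class rule: the local lemma (**)

`Fil p k n F`: the coefficient of `t^i` is divisible by `p^{min(k+1, (n-i)^+)}`, i.e.
`F ∈ (p, t)^n + p^{k+1}`.  The pair `(-V'_k, V_k)` satisfies `(J)`, `(J')` modulo `p^{k+1}`; then
`Y_c(t) = A_{c+1}(t) V_k(c+t) - A_c(t) V'_k(c+t)` lies in `Fil p k (k+3)` for all `c < p`.
-/

set_option autoImplicit false

namespace QS2.Cls

open Polynomial Finset

section Fil

variable {O : Type*} [CommRing O]

/-- `F ∈ (p, t)^n + p^{k+1}` -/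
def Fil (p : O) (k n : ℕ) (F : O[X]) : Prop :=
  ∀ i, p ^ (min (k + 1) (n - i)) ∣ F.coeff i

variable {p : O} {k n m : ℕ} {F G : O[X]}

theorem Fil.mono (h : Fil p k n F) (hm : m ≤ n) : Fil p k m F := fun i =>
  (pow_dvd_pow p (by omega)).trans (h i)

theorem Fil.zero : Fil p k n (0 : O[X]) := fun i => by simp

theorem Fil.add (hF : Fil p k n F) (hG : Fil p k n G) : Fil p k n (F + G) := fun i => by
  rw [coeff_add]; exact dvd_add (hF i) (hG i)

theorem Fil.neg (hF : Fil p k n F) : Fil p k n (-F) := fun i => by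
  rw [coeff_neg]; exact (hF i).neg_right

theorem Fil.sub (hF : Fil p k n F) (hG : Fil p k n G) : Fil p k n (F - G) := by
  rw [sub_eq_add_neg]; exact hF.add hG.neg

theorem Fil.sum {ι : Type*} (s : Finset ι) (f : ι → O[X]) (h : ∀ i ∈ s, Fil p k n (f i)) :
    Fil p k n (∑ i ∈ s, f i) := fun j => by
  rw [finsetSum_coeff]
  exact dvd_sum fun i hi => h i hi j

theorem Fil.any (F : O[X]) : Fil p k 0 F := fun i => by simp

theorem Fil.mul (hF : Fil p k n F) (hG : Fil p k m G) : Fil p k (n + m) (F * G) := fun i => by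
  rw [coeff_mul]
  refine dvd_sum fun x hx => ?_
  have hx := Finset.HasAntidiagonal.mem_antidiagonal.mp hx
  have h := mul_dvd_mul (hF x.1) (hG x.2)
  rw [← pow_add] at h
  exact (pow_dvd_pow p (by omega)).trans h

theorem Fil.mul_left (G : O[X]) (hF : Fil p k n F) : Fil p k n (G * F) := by
  have := (Fil.any (p := p) (k := k) G).mul hF
  rwa [zero_add] at this

theorem Fil.mul_right (G : O[X]) (hF : Fil p k n F) : Fil p k n (F * G) := by
  rw [mul_comm]; exact hF.mul_left G

theorem Fil.pow (hF : Fil p k n F) (j : ℕ) : Fil p k (j * n) (F ^ j) := by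
  induction j with
  | zero => simpa using Fil.any (1 : O[X])
  | succ j ih =>
    rw [pow_succ]
    exact (ih.mul hF).mono (by rw [Nat.succ_mul])

theorem Fil.vX : Fil p k 1 (X : O[X]) := fun i => by
  rcases Nat.eq_zero_or_pos i with rfl | hi
  · simp
  · have : 1 - i = 0 := by omega
    simp [this]

theorem Fil.Cp : Fil p k 1 (C p : O[X]) := fun i => by
  rcases Nat.eq_zero_or_pos i with rfl | hi
  · simp
  · have : 1 - i = 0 := by omega
    simp [this]

theorem Fil.Cmul_p (a : O) : Fil p k 1 (C (p * a) : O[X]) := by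
  rw [C_mul]; exact Fil.Cp.mul_right _

/-- multiples of `p^{k+1}` are in every `Fil` -/
theorem Fil.of_dvd (h : C (p ^ (k + 1)) ∣ F) : Fil p k n F := fun i => by
  rw [C_dvd_iff_dvd_coeff] at h
  exact (pow_dvd_pow p (min_le_left _ _)).trans (h i)

theorem Fil.congr (hF : Fil p k n F) (h : C (p ^ (k + 1)) ∣ G - F) : Fil p k n G := by
  have := hF.add (Fil.of_dvd (n := n) h)
  rwa [add_sub_cancel] at this

/-- cancellation of `t - p` -/
theorem Fil.cancel_sub (h : Fil p k (n + 1) ((X - C p) * F)) : Fil p k n F := by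
  -- downward induction
  have key : ∀ d i, F.natDegree < i + d → p ^ (min (k + 1) (n - i)) ∣ F.coeff i := by
    intro d
    induction d with
    | zero =>
      intro i hi
      rw [coeff_eq_zero_of_natDegree_lt (by omega)]
      exact dvd_zero _
    | succ d ih =>
      intro i hi
      have h1 := ih (i + 1) (by omega)
      have h2 := h (i + 1)
      rw [sub_mul, coeff_sub, coeff_X_mul, coeff_C_mul] at h2
      have e1 : n + 1 - (i + 1) = n - i := by omega
      rw [e1] at h2
      have h3 : p ^ (min (k + 1) (n - i)) ∣ p * F.coeff (i + 1) := by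
        have := mul_dvd_mul_left p h1
        rw [← pow_succ'] at this
        exact (pow_dvd_pow p (by omega)).trans this
      have := dvd_add h2 h3
      rwa [sub_add_cancel] at this
  intro i
  exact key (F.natDegree + 1) i (by omega)

theorem Fil.cancel_sub_pow (j : ℕ) (h : Fil p k (n + j) ((X - C p) ^ j * F)) : Fil p k n F := by
  induction j with
  | zero => simpa using h
  | succ j ih =>
    apply ih
    rw [pow_succ', mul_assoc] at h
    exact Fil.cancel_sub (n := n + j) h

/-- cancellation of `t + u`, `u` a unit -/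
theorem Fil.cancel_unit {u : O} (hu : IsUnit u) (h : Fil p k n ((X + C u) * F)) :
    Fil p k n F := by
  intro i
  induction i with
  | zero =>
    have h0 := h 0
    rw [add_mul, coeff_add, coeff_X_mul_zero, coeff_C_mul, zero_add] at h0
    exact (hu.dvd_mul_left).mp h0
  | succ i ih =>
    have h0 := h (i + 1)
    rw [add_mul, coeff_add, coeff_X_mul, coeff_C_mul] at h0
    have h1 : p ^ (min (k + 1) (n - (i + 1))) ∣ F.coeff i :=
      (pow_dvd_pow p (by omega)).trans ih
    have h2 := dvd_sub h0 h1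
    rw [add_sub_cancel_left] at h2
    exact (hu.dvd_mul_left).mp h2

theorem Fil.cancel_unit_pow {u : O} (hu : IsUnit u) (j : ℕ)
    (h : Fil p k n ((X + C u) ^ j * F)) : Fil p k n F := by
  induction j with
  | zero => simpa using h
  | succ j ih =>
    apply ih
    rw [pow_succ', mul_assoc] at h
    exact Fil.cancel_unit hu h

end Fil

/-! ## The transfer polynomials -/

/-- `A_0 = 1`, `A_1 = ap(t)`, `A_{j+1} = ap(t+j) A_j - (t+j)^6 A_{j-1}` -/
noncomputable def trA (O : Type*) [CommRing O] : ℕ → O[X]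
  | 0 => 1
  | 1 => ap X
  | (j + 2) => ap (X + ((j + 1 : ℕ) : O[X])) * trA O (j + 1)
      - (X + ((j + 1 : ℕ) : O[X])) ^ 6 * trA O j

/-- `B_0 = 0`, `B_1 = -1`, `B_{j+1} = ap(t+j) B_j - (t+j)^6 B_{j-1}` -/
noncomputable def trB (O : Type*) [CommRing O] : ℕ → O[X]
  | 0 => 0
  | 1 => -1
  | (j + 2) => ap (X + ((j + 1 : ℕ) : O[X])) * trB O (j + 1)
      - (X + ((j + 1 : ℕ) : O[X])) ^ 6 * trB O j

variable {O : Type*} [CommRing O]

/-- `Y_c(t) = A_{c+1}(t) V(c+t) - A_c(t) V'(c+t)` -/
noncomputable def Yc (V V' : O[X]) (c : ℕ) : O[X] :=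
  trA O (c + 1) * V.comp (X + (c : O[X])) - trA O c * V'.comp (X + (c : O[X]))

theorem comp_ap (q : O[X]) : (ap (X : O[X])).comp q = ap q := by
  simp only [ap, add_comp, mul_comp, pow_comp, X_comp]
  norm_num [ofNat_comp]

/-- **Local lemma (**).** -/
theorem local_fil {p : ℕ} {k : ℕ} {half al ali : O} (hal : al * ali = 1) {V V' : O[X]}
    (hJ : C ((p : O) ^ (k + 1)) ∣ (X - C (p : O)) ^ k * (V' - ap X * V)
      + C ali * (X + C ((p : O) * half)) ^ 3 * X ^ k * V.comp (X - 1))
    (hJ' : C ((p : O) ^ (k + 1)) ∣ (X + C ((p : O) * half)) ^ 3 * X ^ k * V'.comp (X - 1)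
      - C al * X ^ 6 * (X - C (p : O)) ^ k * V)
    (hV : Fil (p : O) k k (V.comp (X - 1)))
    (hu : ∀ c : ℕ, 1 ≤ c → c < p → IsUnit ((c : O) - p)) :
    ∀ c, c < p → Fil (p : O) k (k + 3) (Yc V V' c) := by
  intro c
  induction c with
  | zero =>
    intro _
    obtain ⟨E, hE⟩ := hJ
    have h3 : Fil (p : O) k 3 ((X + C ((p : O) * half)) ^ 3) :=
      (((Fil.vX).add (Fil.Cmul_p half)).pow 3).mono (by omega)
    have hXk : Fil (p : O) k k ((X : O[X]) ^ k) := ((Fil.vX).pow k).mono (by omega)
    have h4 : Fil (p : O) k (3 + k + k)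
        (C ali * (X + C ((p : O) * half)) ^ 3 * X ^ k * V.comp (X - 1)) := by
      refine Fil.mul (Fil.mul ?_ hXk) hV
      exact h3.mul_left _
    have h5 : Fil (p : O) k (3 + k + k) ((X - C (p : O)) ^ k * Yc V V' 0) := by
      refine h4.congr ⟨-E, ?_⟩
      have e1 : Yc V V' 0 = ap X * V - V' := by
        simp [Yc, trA]
      rw [e1]
      linear_combination -hE
    have h6 := Fil.cancel_sub_pow (n := 3 + k) k h5
    exact h6.mono (by omega)
  | succ c ih =>
    intro hc
    have ih' := ih (by omega)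
    have hJc := hJ
    have hJc' := hJ'
    obtain ⟨E1, hE1⟩ := hJ
    obtain ⟨E2, hE2⟩ := hJ'
    -- compose with `X + (c+1)`
    set w : O[X] := X + ((c + 1 : ℕ) : O[X]) with hw
    have hw1 : ((X : O[X]) - 1).comp w = X + (c : O[X]) := by
      rw [sub_comp, X_comp, one_comp, hw]
      push_cast
      ring
    have g1 : (w - C (p : O)) ^ k * (V'.comp w - ap w * V.comp w)
        + C ali * (w + C ((p : O) * half)) ^ 3 * w ^ k * V.comp (X + (c : O[X]))
        = C ((p : O) ^ (k + 1)) * E1.comp w := by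
      have := congrArg (fun q : O[X] => q.comp w) hE1
      simpa only [add_comp, mul_comp, sub_comp, pow_comp, X_comp, C_comp, comp_ap, comp_assoc,
        hw1, one_comp] using this
    have g2 : (w + C ((p : O) * half)) ^ 3 * w ^ k * V'.comp (X + (c : O[X]))
        - C al * w ^ 6 * (w - C (p : O)) ^ k * V.comp w
        = C ((p : O) ^ (k + 1)) * E2.comp w := by
      have := congrArg (fun q : O[X] => q.comp w) hE2
      simpa only [add_comp, mul_comp, sub_comp, pow_comp, X_comp, C_comp, comp_ap, comp_assoc,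
        hw1, one_comp] using this
    have hal' : (C al : O[X]) * C ali = 1 := by rw [← C_mul, hal, C_1]
    have hrec : trA O (c + 2) = ap w * trA O (c + 1) - w ^ 6 * trA O c := by
      rw [trA]
    have key : (w - C (p : O)) ^ k * Yc V V' (c + 1)
        = C ali * (w + C ((p : O) * half)) ^ 3 * w ^ k * Yc V V' c
          + C ((p : O) ^ (k + 1)) * (C ali * trA O c * E2.comp w - trA O (c + 1) * E1.comp w) := by
      have e1 : Yc V V' (c + 1) = trA O (c + 2) * V.comp w - trA O (c + 1) * V'.comp w := rfl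
      have e2 : Yc V V' c = trA O (c + 1) * V.comp (X + (c : O[X]))
        - trA O c * V'.comp (X + (c : O[X])) := rfl
      rw [e1, e2, hrec]
      linear_combination (-(trA O (c + 1))) * g1 + (C ali * trA O c) * g2
        - (w ^ 6 * trA O c * (w - C (p : O)) ^ k * V.comp w) * (- hal')
    have h7 : Fil (p : O) k (k + 3) ((w - C (p : O)) ^ k * Yc V V' (c + 1)) := by
      refine (ih'.mul_left (C ali * (w + C ((p : O) * half)) ^ 3 * w ^ k)).congr ?_
      rw [key]
      exact ⟨_, by rw [add_sub_cancel_left]⟩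
    have e3 : w - C (p : O) = X + C (((c + 1 : ℕ) : O) - p) := by
      rw [hw, C_sub]
      simp
      ring
    rw [e3] at h7
    exact Fil.cancel_unit_pow (hu (c + 1) (by omega) hc) k h7

/-- the hypothesis `hV` for `V_k = ∑_{j ≤ k} f_j p^j y^{k-j}`, where `y(w-1) = (w-p) z(w)` -/
theorem fil_of_sum {p : O} {k : ℕ} (f : ℕ → O[X]) (y z : O[X])
    (hy : y.comp (X - 1) = (X - C p) * z) :
    Fil p k k ((∑ j ∈ range (k + 1), f j * C (p ^ j) * y ^ (k - j)).comp (X - 1)) := by
  rw [Polynomial.sum_comp]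
  refine Fil.sum _ _ fun j hj => ?_
  rw [mem_range] at hj
  rw [mul_comp, mul_comp, pow_comp, hy, C_comp]
  have h1 : Fil p k j (C (p ^ j) : O[X]) := by
    rw [C_pow]; exact ((Fil.Cp).pow j).mono (by omega)
  have h2 : Fil p k (k - j) (((X - C p) * z) ^ (k - j)) :=
    ((((Fil.vX).sub Fil.Cp).mul_right z).pow (k - j)).mono (by omega)
  have h3 := (h1.mul_left ((f j).comp (X - 1))).mul h2
  exact h3.mono (by omega)

end QS2.Cls
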