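import Pool.Agent.QS2.ClsRh
import Pool.Agent.QS2.ClsLocal
import Pool.Agent.QS2.NonVanD

/-!
# The congruences `(J_k)`, `(J'_k)` for the polynomials `V_k`, `V'_k`

From the identities `(J)`, `(J')` for the Laurent series `V`, `V'` in `Rh` we deduce the
hypotheses of `local_fil`, the degrees and leading coefficients, and the statement on the jets.
-/

set_option autoImplicit false

namespace QS2.Cls

open Polynomial QS2.NV
open HahnSeries hiding C

variable {F : Type*} [Field F] {O : Subring F}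

/-- a polynomial with coefficients in `O` comes from `O[X]` -/
theorem exists_lift {P : F[X]} (h : P ∈ OP O) : ∃ Q : O[X], Q.map O.subtype = P := by
  have h1 : P ∈ Polynomial.lifts O.subtype := by
    rw [Polynomial.lifts_iff_coeff_lifts]
    intro n
    exact ⟨⟨P.coeff n, h n⟩, rfl⟩
  exact (Polynomial.mem_lifts _).1 h1

/-- the lift to `O[X]` -/
noncomputable def lif (P : F[X]) (h : P ∈ OP O) : O[X] := (exists_lift h).choose

theorem lif_map {P : F[X]} (h : P ∈ OP O) : (lif P h).map O.subtype = P :=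
  (exists_lift h).choose_spec

theorem lif_coeff {P : F[X]} (h : P ∈ OP O) (n : ℕ) : (((lif P h).coeff n : O) : F) = P.coeff n := by
  have := congrArg (fun Q : F[X] => Q.coeff n) (lif_map h)
  simpa [Polynomial.coeff_map] using this

theorem map_inj {A B : O[X]} (h : A.map O.subtype = B.map O.subtype) : A = B :=
  Polynomial.map_injective _ (Subring.subtype_injective O) h

/-- divisibility in `O[X]` from `F[X]` -/
theorem dvd_of_map {A : O[X]} {q : O} {S : F[X]} (hS : S ∈ OP O)
    (h : A.map O.subtype = Polynomial.C (q : F) * S) : Polynomial.C q ∣ A := by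
  refine ⟨lif S hS, map_inj ?_⟩
  rw [h, Polynomial.map_mul, Polynomial.map_C, lif_map hS]
  rfl

theorem mem_of_map (A : O[X]) : A.map O.subtype ∈ OP O := by
  intro n
  rw [Polynomial.coeff_map]
  exact (A.coeff n).2

/-- a polynomial which is `q` times an integral Laurent series -/
theorem eq_of_phi {A : F[X]} {q : F} {s : LaurentSeries F} (hs : s ∈ RI O)
    (h : NV.phi F A = HahnSeries.C q * s) :
    A = Polynomial.C q * plus s ∧ plus s ∈ OP O := by
  refine ⟨?_, plus_mem hs⟩
  rw [← plus_C_mul, ← h, plus_phi]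

/-- the hypotheses on the shift `w ↦ w - 1` of Laurent series -/
structure IsShift (O : Subring F) (sL : LaurentSeries F →+* LaurentSeries F) : Prop where
  phi : ∀ P : F[X], sL (NV.phi F P) = NV.phi F (P.comp (X - 1))
  ri : ∀ x, x ∈ RI O → sL x ∈ RI O

theorem IsShift.C {sL : LaurentSeries F →+* LaurentSeries F} (h : IsShift O sL) (a : F) :
    sL (HahnSeries.C a) = HahnSeries.C a := by
  rw [← phi_C, h.phi, C_comp, phi_C]

variable {p : ℕ} {y : F[X]} {V V' : LaurentSeries F} {sL : LaurentSeries F →+* LaurentSeries F}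

theorem alg1 {R : Type*} [CommRing R] {W P B Y Yc q r r' sr Vk Vk' Vkc V V' sV A al : R} (k : ℕ)
    (e : Y ^ k * V = Vk + q * r) (e' : Y ^ k * V' = Vk' + q * r')
    (es : Yc ^ k * sV = Vkc + q * sr) (hz : W * Yc = (W - P) * Y)
    (hJ : V' = A * V - al * B ^ 3 * sV) :
    (W - P) ^ k * (Vk' - A * Vk) + al * B ^ 3 * W ^ k * Vkc =
      q * ((W - P) ^ k * A * r - (W - P) ^ k * r' - al * B ^ 3 * W ^ k * sr) := by
  have hz' : W ^ k * Yc ^ k = (W - P) ^ k * Y ^ k := by
    rw [← mul_pow, ← mul_pow, hz]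
  linear_combination (-(W - P) ^ k) * e' + ((W - P) ^ k * A) * e
      - (al * B ^ 3 * W ^ k) * es + (al * B ^ 3 * sV) * hz' + ((W - P) ^ k * Y ^ k) * hJ

theorem alg2 {R : Type*} [CommRing R] {W P B Y Yc q r sr' Vk Vk'c V sV' al : R} (k : ℕ)
    (e : Y ^ k * V = Vk + q * r)
    (es : Yc ^ k * sV' = Vk'c + q * sr') (hz : W * Yc = (W - P) * Y)
    (hJ : B ^ 3 * sV' = al * W ^ 6 * V) :
    B ^ 3 * W ^ k * Vk'c - al * W ^ 6 * (W - P) ^ k * Vk =
      q * (al * W ^ 6 * (W - P) ^ k * r - B ^ 3 * W ^ k * sr') := by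
  have hz' : W ^ k * Yc ^ k = (W - P) ^ k * Y ^ k := by
    rw [← mul_pow, ← mul_pow, hz]
  linear_combination (-(B ^ 3 * W ^ k)) * es + (B ^ 3 * sV') * hz'
      + (al * W ^ 6 * (W - P) ^ k) * e + ((W - P) ^ k * Y ^ k) * hJ

/-- `T = q s` in Laurent series gives divisibility in `O[X]` -/
theorem dvd_of_phi {A : O[X]} {q : O} {s : LaurentSeries F} (hs : s ∈ RI O)
    (h : NV.phi F (A.map O.subtype) = HahnSeries.C (q : F) * s) : Polynomial.C q ∣ A := by
  obtain ⟨h1, h2⟩ := eq_of_phi hs h
  exact dvd_of_map h2 h1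

theorem map_ap : (ap (X : O[X])).map O.subtype = (ap X : F[X]) := by
  simp [ap]

/-- **(J_k)** -/
theorem Jk (hs : IsShift O sL) (hyz : X * y.comp (X - 1) = (X - C (p : F)) * y)
    (hV : Rh O p y V) (hV' : Rh O p y V') {half ali : O}
    (hJ : V' = NV.phi F (ap X) * V - HahnSeries.C (ali : F) *
      NV.phi F (X + C ((p : F) * half)) ^ 3 * sL V) (k : ℕ)
    {A A' : O[X]} (hA : A.map O.subtype = Vk y V k) (hA' : A'.map O.subtype = Vk y V' k) :
    C ((p : O) ^ (k + 1)) ∣ (X - C (p : O)) ^ k * (A' - ap X * A)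
      + C ali * (X + C ((p : O) * half)) ^ 3 * X ^ k * A.comp (X - 1) := by
  obtain ⟨r, hr, -, e⟩ := Vk_spec hV k
  obtain ⟨r', hr', -, e'⟩ := Vk_spec hV' k
  have hsh := congrArg sL e
  rw [map_mul, map_add, map_mul, map_pow, hs.phi, hs.phi, hs.C] at hsh
  have hz := congrArg (NV.phi F) hyz
  rw [map_mul, map_mul, map_sub, phi_C] at hz
  have key := alg1 k e e' hsh hz hJ
  have hm : ∀ Q : O[X], NV.phi F (Q.map O.subtype) ∈ RI O := fun Q =>
    phi_mem_RI.2 (mem_of_map Q)
  have h1 := (RI O).sub_mem ((RI O).sub_mem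
      ((RI O).mul_mem (hm ((X - C (p : O)) ^ k * ap X)) hr)
      ((RI O).mul_mem (hm ((X - C (p : O)) ^ k)) hr'))
      ((RI O).mul_mem (hm (C ali * (X + C ((p : O) * half)) ^ 3 * X ^ k)) (hs.ri _ hr))
  refine dvd_of_phi h1 ?_
  simp only [Polynomial.map_mul, Polynomial.map_sub, Polynomial.map_pow, Polynomial.map_add,
    Polynomial.map_comp, Polynomial.map_X, Polynomial.map_C, hA, hA', Polynomial.map_one, map_ap,
    Subring.subtype_apply, Subring.coe_mul, Subring.coe_natCast, Subring.coe_pow, map_mul (NV.phi F),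
    map_sub (NV.phi F), map_pow (NV.phi F), map_add (NV.phi F), phi_C] at key ⊢
  exact key

/-- **(J'_k)** -/
theorem Jk' (hs : IsShift O sL) (hyz : X * y.comp (X - 1) = (X - C (p : F)) * y)
    (hV : Rh O p y V) (hV' : Rh O p y V') {half al : O}
    (hJ' : NV.phi F (X + C ((p : F) * half)) ^ 3 * sL V' =
      HahnSeries.C (al : F) * NV.phi F X ^ 6 * V) (k : ℕ)
    {A A' : O[X]} (hA : A.map O.subtype = Vk y V k) (hA' : A'.map O.subtype = Vk y V' k) :
    C ((p : O) ^ (k + 1)) ∣ (X + C ((p : O) * half)) ^ 3 * X ^ k * A'.comp (X - 1)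
      - C al * X ^ 6 * (X - C (p : O)) ^ k * A := by
  obtain ⟨r, hr, -, e⟩ := Vk_spec hV k
  obtain ⟨r', hr', -, e'⟩ := Vk_spec hV' k
  have hsh := congrArg sL e'
  rw [map_mul, map_add, map_mul, map_pow, hs.phi, hs.phi, hs.C] at hsh
  have hz := congrArg (NV.phi F) hyz
  rw [map_mul, map_mul, map_sub, phi_C] at hz
  have key := alg2 k e hsh hz hJ'
  have hm : ∀ Q : O[X], NV.phi F (Q.map O.subtype) ∈ RI O := fun Q =>
    phi_mem_RI.2 (mem_of_map Q)
  have h1 := (RI O).sub_mem
      ((RI O).mul_mem (hm (C al * X ^ 6 * (X - C (p : O)) ^ k)) hr)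
      ((RI O).mul_mem (hm ((X + C ((p : O) * half)) ^ 3 * X ^ k)) (hs.ri _ hr'))
  refine dvd_of_phi h1 ?_
  simp only [Polynomial.map_mul, Polynomial.map_sub, Polynomial.map_pow, Polynomial.map_add,
    Polynomial.map_comp, Polynomial.map_X, Polynomial.map_C, hA, hA', Polynomial.map_one,
    Subring.subtype_apply, Subring.coe_mul, Subring.coe_natCast, Subring.coe_pow, map_mul (NV.phi F),
    map_sub (NV.phi F), map_pow (NV.phi F), map_add (NV.phi F), phi_C] at key ⊢
  exact key

/-! ## `V_k` as a sum -/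

/-- `V_k = ∑_{j ≤ k} f_j p^j y^{k-j}` over `O[X]` -/
theorem exists_f (hy : y ∈ OP O) (hym : y.Monic) (hV : Rh O p y V) (hpO : (p : F) ∈ O) :
    ∃ f : ℕ → O[X], (∀ j, 1 ≤ j → (f j).degree < y.degree) ∧
      ∀ k, (∑ j ∈ Finset.range (k + 1), f j * C ((p : O) ^ j) * (lif y hy) ^ (k - j)).map O.subtype
        = Vk y V k := by
  choose g hg hd he using fun k => Vk_succ hy hym hV k
  have h0 : Vk y V 0 ∈ OP O := Vk_mem hy (hV.mem_RI hpO) 0
  refine ⟨fun j => Nat.casesOn j (lif (Vk y V 0) h0) fun i => lif (g i) (hg i), ?_, ?_⟩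
  · intro j hj
    obtain ⟨i, rfl⟩ := Nat.exists_eq_succ_of_ne_zero (by omega : j ≠ 0)
    have h1 : (lif (g i) (hg i)).degree = (g i).degree := by
      conv_rhs => rw [← lif_map (hg i)]
      exact (degree_map_eq_of_injective (Subring.subtype_injective O) _).symm
    change (lif (g i) (hg i)).degree < y.degree
    rw [h1]
    exact hd i
  · intro k
    induction k with
    | zero =>
      simp [lif_map]
    | succ k ih =>
      rw [Finset.sum_range_succ, he k, ← ih]
      rw [Nat.sub_self, pow_zero, mul_one, Polynomial.map_add, Polynomial.map_mul,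
        Polynomial.map_C]
      change _ + (lif (g k) (hg k)).map O.subtype * _ = _
      rw [lif_map]
      congr 1
      · rw [Polynomial.map_sum, Polynomial.map_sum, Finset.mul_sum]
        refine Finset.sum_congr rfl fun j hj => ?_
        rw [Finset.mem_range] at hj
        have e1 : k + 1 - j = (k - j) + 1 := by omega
        rw [e1, pow_succ]
        simp only [Polynomial.map_mul, Polynomial.map_pow, lif_map]
        ring
      · simp only [map_pow, map_natCast]
        ring

/-! ## Degrees -/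

/-- degree and leading coefficient of a product by a monic polynomial -/
theorem coeff_monic_mul {P : F[X]} (hP : P.Monic) {x : LaurentSeries F} {a : ℕ}
    (hx : ∀ n : ℤ, n < -(a : ℤ) → x.coeff n = 0) :
    (∀ n : ℤ, n < -((a + P.natDegree : ℕ) : ℤ) → (NV.phi F P * x).coeff n = 0) ∧
      (NV.phi F P * x).coeff (-((a + P.natDegree : ℕ) : ℤ)) = x.coeff (-(a : ℤ)) := by
  have hxo : ((-(a : ℤ) : ℤ) : WithTop ℤ) ≤ x.orderTop := by
    rw [le_orderTop_iff_forall]
    intro j hj
    exact hx j (by exact_mod_cast hj)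
  constructor
  · intro n hn
    have h1 := le_mul (phi_order (F := F) (P := P) (D := P.natDegree) degree_le_natDegree) hxo
    rw [← WithTop.coe_add, le_orderTop_iff_forall] at h1
    apply h1
    exact_mod_cast (by push_cast at hn; omega : n < -(P.natDegree : ℤ) + -(a : ℤ))
  · by_cases h0 : P.natDegree = 0
    · have : P = 1 := by
        rw [hP.natDegree_eq_zero] at h0
        exact h0
      rw [this]
      simp
    · have e : P = X ^ P.natDegree + P.eraseLead := by
        conv_lhs => rw [← P.eraseLead_add_monomial_natDegree_leadingCoeff]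
        rw [hP.leadingCoeff, add_comm, monomial_one_right_eq_X_pow]
      have hd : P.eraseLead.degree ≤ ((P.natDegree - 1 : ℕ) : WithBot ℕ) := by
        refine degree_le_natDegree.trans ?_
        exact_mod_cast eraseLead_natDegree_le P
      have h2 := le_mul (phi_order hd) hxo
      rw [← WithTop.coe_add, le_orderTop_iff_forall] at h2
      have e2 : NV.phi F P * x = NV.phi F (X ^ P.natDegree) * x + NV.phi F P.eraseLead * x := by
        conv_lhs => rw [e]
        rw [map_add]
        ring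
      rw [e2, HahnSeries.coeff_add, h2 _ (by
        exact_mod_cast (by push_cast; omega : -((a + P.natDegree : ℕ) : ℤ) <
          -((P.natDegree - 1 : ℕ) : ℤ) + -(a : ℤ))), add_zero,
        ← monomial_one_right_eq_X_pow, phi_monomial, coeff_single_mul, one_mul]
      congr 1
      push_cast
      ring

/-- degree and leading coefficient of `V_k` -/
theorem Vk_degree (hym : y.Monic) {a : ℕ} (hx : ∀ n : ℤ, n < -(a : ℤ) → V.coeff n = 0) (k : ℕ) :
    (Vk y V k).natDegree ≤ a + k * y.natDegree ∧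
      (Vk y V k).coeff (a + k * y.natDegree) = V.coeff (-(a : ℤ)) := by
  have h1 := coeff_monic_mul (hym.pow k) hx
  rw [hym.natDegree_pow] at h1
  constructor
  · rw [natDegree_le_iff_coeff_eq_zero]
    intro N hN
    unfold Vk
    rw [plus_coeff, ← map_pow]
    exact h1.1 _ (by omega)
  · unfold Vk
    rw [plus_coeff, ← map_pow]
    exact h1.2

/-! ## The jets -/

/-- the jets of the pair `(-V'_k, (w+1)^3 V_k)` vanish in the degrees `≥ 3` -/
theorem jets {v : ℕ → F} (hV : Rh O p y V) (hV' : Rh O p y V')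
    (h : V' = NV.phi F ((X + 1) ^ 3) * ser (PowerSeries.mk v) * V) (k : ℕ) {d : ℕ} (hd : 3 ≤ d) :
    (QS2.pp v ((X + 1) ^ 3 * Vk y V k)).coeff d = (Vk y V' k).coeff d := by
  obtain ⟨r, hr, hn, e⟩ := Vk_spec hV k
  obtain ⟨r', hr', hn', e'⟩ := Vk_spec hV' k
  have h1 := pp_spec (PowerSeries.mk v) ((X + 1) ^ 3 * Vk y V k)
  unfold Big at h1
  have h2 := neg_of_order h1
  have e2 : NV.phi F ((X + 1) ^ 3 * Vk y V k) * ser (PowerSeries.mk v) =
      NV.phi F (Vk y V' k) + HahnSeries.C ((p : F) ^ (k + 1)) *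
        (r' - NV.phi F ((X + 1) ^ 3) * (ser (PowerSeries.mk v) * r)) := by
    rw [map_mul]
    linear_combination (-(NV.phi F ((X + 1) ^ 3) * ser (PowerSeries.mk v))) * e + e' -
      NV.phi F y ^ k * h
  have h3 := h2 (-(d : ℤ)) (by omega)
  rw [e2, HahnSeries.coeff_sub, HahnSeries.coeff_add, phi_coeff, phi_coeff, if_pos (by omega),
    if_pos (by omega), coeff_C_mul, HahnSeries.coeff_sub, hn' _ (by omega)] at h3
  have h4 : (NV.phi F ((X + 1) ^ 3) * (ser (PowerSeries.mk v) * r)).coeff (-(d : ℤ)) = 0 := by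
    have hneg : Neg (ser (PowerSeries.mk v) * r) := by
      apply neg_of_order
      have := le_mul (ser_order (PowerSeries.mk v)) hn.order
      rwa [← WithTop.coe_add, zero_add] at this
    have hdeg : (((X : F[X]) + 1) ^ 3).degree ≤ ((3 : ℕ) : WithBot ℕ) := by
      refine degree_le_natDegree.trans ?_
      have : (((X : F[X]) + 1) ^ 3).natDegree ≤ 3 * 1 := by
        refine natDegree_pow_le_of_le 3 ?_
        rw [← C_1]
        exact (natDegree_X_add_C _).le
      exact_mod_cast this
    exact coeff_phi_mul_neg hdeg hneg (by omega)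
  rw [h4, sub_zero, mul_zero, add_zero] at h3
  rw [pp_eq]
  have e3 : (- -(d : ℤ)).toNat = d := by omega
  rw [e3] at h3
  linear_combination -h3

end QS2.Cls
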