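import Pool.Agent.QS2.ClsExp
import Pool.Agent.QS2.Primes

/-!
# QS2, odd class rule: the exponent `eCls` and `ruleM`
-/

set_option autoImplicit false

namespace QS2.Cls

open Finset

theorem Sfl_eq (p M : ℕ) : Sfl p M = SF p M := rfl

/-- the exponent of the class rule is `ruleM` (`p` odd) -/
theorem eCls_eq_ruleM {p : ℕ} (hp : p % 2 = 1) (n A : ℕ) :
    (eCls A n p : ℝ) = ruleM n A p := by
  have ed : 3 * (p - 1) / 2 = 3 * ((p - 1) / 2) := by omega
  have e1 : A + n - (dg p + 3) = A + n - 3 - 3 * (p - 1) / 2 := by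
    rw [dg, ed]; omega
  have e2 : A - n - (dg p + 3) = A - n - 3 - 3 * (p - 1) / 2 := by
    rw [dg, ed]; omega
  have h1 := SF_mono p (show A + n - 3 - 3 * (p - 1) / 2 ≤ A + n by omega)
  have h2 := SF_mono p (show A - n - 3 - 3 * (p - 1) / 2 ≤ A - n by omega)
  unfold eCls ruleM
  rw [e1, e2, Sfl_eq, Sfl_eq, Sfl_eq, Sfl_eq]
  push_cast [Nat.cast_sub h1, Nat.cast_sub h2]
  ring

end QS2.Cls
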