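import Pool.Agent.QS2.NonVan

/-!
# The ring `O[w][[p / y]]` without expansions

`L = LaurentSeries F` in `X = 1 / w`, `O` a subring of `F`, `y` a monic polynomial over `O`.
`Rh O p y` is the set of the Laurent series `x` over `O` such that `y ^ k * x` is congruent to a
polynomial modulo `p ^ (k + 1)` for all `k`.
-/

set_option autoImplicit false

namespace QS2.Cls

open Polynomial HahnSeries QS2.NV

variable {F : Type*} [Field F] (O : Subring F)

/-- Laurent series with coefficients in `O` -/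
def RI : Subring (LaurentSeries F) where
  carrier := {x | ∀ n, x.coeff n ∈ O}
  mul_mem' := by
    intro a b ha hb n
    rw [HahnSeries.coeff_mul]
    exact Subring.sum_mem O fun i _ => O.mul_mem (ha _) (hb _)
  one_mem' := by
    intro n
    rw [HahnSeries.coeff_one]
    split_ifs
    · exact O.one_mem
    · exact O.zero_mem
  add_mem' := by
    intro a b ha hb n
    rw [HahnSeries.coeff_add]
    exact O.add_mem (ha _) (hb _)
  zero_mem' := by
    intro n
    rw [HahnSeries.coeff_zero]
    exact O.zero_mem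
  neg_mem' := by
    intro a ha n
    rw [HahnSeries.coeff_neg]
    exact O.neg_mem (ha _)

/-- polynomials with coefficients in `O` -/
def OP : Subring F[X] where
  carrier := {P | ∀ n, P.coeff n ∈ O}
  mul_mem' := by
    intro a b ha hb n
    rw [Polynomial.coeff_mul]
    exact Subring.sum_mem O fun i _ => O.mul_mem (ha _) (hb _)
  one_mem' := by
    intro n
    rw [Polynomial.coeff_one]
    split_ifs
    · exact O.one_mem
    · exact O.zero_mem
  add_mem' := by
    intro a b ha hb n
    rw [Polynomial.coeff_add]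
    exact O.add_mem (ha _) (hb _)
  zero_mem' := by
    intro n
    rw [Polynomial.coeff_zero]
    exact O.zero_mem
  neg_mem' := by
    intro a ha n
    rw [Polynomial.coeff_neg]
    exact O.neg_mem (ha _)

variable {O}

theorem mem_RI {x : LaurentSeries F} : x ∈ RI O ↔ ∀ n, x.coeff n ∈ O := Iff.rfl

theorem mem_OP {P : F[X]} : P ∈ OP O ↔ ∀ n, P.coeff n ∈ O := Iff.rfl

theorem C_mem_RI {a : F} (ha : a ∈ O) : (HahnSeries.C a : LaurentSeries F) ∈ RI O := by
  intro n
  rw [HahnSeries.C_apply, HahnSeries.coeff_single]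
  split_ifs
  · exact ha
  · exact O.zero_mem

theorem C_mem_OP {a : F} (ha : a ∈ O) : (Polynomial.C a : F[X]) ∈ OP O := by
  intro n
  rw [Polynomial.coeff_C]
  split_ifs
  · exact ha
  · exact O.zero_mem

theorem X_mem_OP : (X : F[X]) ∈ OP O := by
  intro n
  rw [Polynomial.coeff_X]
  split_ifs
  · exact O.one_mem
  · exact O.zero_mem

theorem phi_mem_RI {P : F[X]} : phi F P ∈ RI O ↔ P ∈ OP O := by
  constructor
  · intro h n
    have := h (-(n : ℤ))
    rw [phi_coeff, if_pos (by omega)] at this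
    simpa using this
  · intro h n
    rw [phi_coeff]
    split_ifs
    · exact h _
    · exact O.zero_mem

theorem ser_mem_RI {V : PowerSeries F} (h : ∀ n, PowerSeries.coeff n V ∈ O) :
    ser V ∈ RI O := by
  intro n
  by_cases hn : 0 ≤ n
  · obtain ⟨m, rfl⟩ := Int.eq_ofNat_of_zero_le hn
    rw [ser, HahnSeries.ofPowerSeries_apply_coeff]
    exact h m
  · have h1 := ser_order V
    rw [le_orderTop_iff_forall] at h1
    rw [h1 n (by exact_mod_cast (by omega : n < 0))]
    exact O.zero_mem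

/-! ## The polynomial part -/

/-- the polynomial part of a Laurent series in `1 / w` -/
noncomputable def plus (x : LaurentSeries F) : F[X] :=
  ∑ i ∈ Finset.range ((-x.order).toNat + 1), monomial i (x.coeff (-(i : ℤ)))

theorem plus_coeff (x : LaurentSeries F) (k : ℕ) : (plus x).coeff k = x.coeff (-(k : ℤ)) := by
  unfold plus
  rw [finsetSum_coeff]
  simp only [Polynomial.coeff_monomial]
  rw [Finset.sum_ite_eq' (Finset.range _) k]
  split_ifs with h
  · rfl
  · rw [Finset.mem_range, not_lt] at h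
    symm
    apply HahnSeries.coeff_eq_zero_of_lt_order
    omega

/-- `x` has negative degree -/
def Neg (x : LaurentSeries F) : Prop := ∀ n : ℤ, n ≤ 0 → x.coeff n = 0

theorem neg_sub_plus (x : LaurentSeries F) : Neg (x - phi F (plus x)) := by
  intro n hn
  rw [HahnSeries.coeff_sub, phi_coeff, if_pos hn, plus_coeff]
  have : (-(((-n).toNat : ℕ) : ℤ)) = n := by omega
  rw [this, sub_self]

theorem plus_add (x z : LaurentSeries F) : plus (x + z) = plus x + plus z := by
  ext k
  simp [plus_coeff]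

theorem plus_sub (x z : LaurentSeries F) : plus (x - z) = plus x - plus z := by
  ext k
  simp [plus_coeff]

theorem plus_phi (P : F[X]) : plus (phi F P) = P := by
  ext k
  rw [plus_coeff, phi_coeff, if_pos (by omega)]
  simp

theorem plus_neg {x : LaurentSeries F} (h : Neg x) : plus x = 0 := by
  ext k
  rw [plus_coeff, h _ (by omega), Polynomial.coeff_zero]

theorem plus_eq {x : LaurentSeries F} {P : F[X]} (h : Neg (x - phi F P)) : plus x = P := by
  have h1 := plus_neg h
  rw [plus_sub, plus_phi, sub_eq_zero] at h1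
  exact h1

theorem plus_mem {x : LaurentSeries F} (h : x ∈ RI O) : plus x ∈ OP O := by
  intro n
  rw [plus_coeff]
  exact h _

theorem coeff_C_mul (a : F) (x : LaurentSeries F) (n : ℤ) :
    (HahnSeries.C a * x).coeff n = a * x.coeff n := by
  rw [HahnSeries.C_mul_eq_smul, HahnSeries.coeff_smul, smul_eq_mul]

theorem plus_C_mul (a : F) (x : LaurentSeries F) :
    plus (HahnSeries.C a * x) = Polynomial.C a * plus x := by
  ext k
  rw [plus_coeff, coeff_C_mul, Polynomial.coeff_C_mul, plus_coeff]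

theorem Neg.order {x : LaurentSeries F} (h : Neg x) : ((1 : ℤ) : WithTop ℤ) ≤ x.orderTop := by
  rw [le_orderTop_iff_forall]
  intro j hj
  exact h j (by have : j < 1 := by exact_mod_cast hj
                omega)

theorem neg_of_order {x : LaurentSeries F} (h : ((1 : ℤ) : WithTop ℤ) ≤ x.orderTop) : Neg x := by
  rw [le_orderTop_iff_forall] at h
  intro n hn
  exact h n (by exact_mod_cast (by omega : n < 1))

theorem Neg.add {x z : LaurentSeries F} (hx : Neg x) (hz : Neg z) : Neg (x + z) := by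
  intro n hn
  rw [HahnSeries.coeff_add, hx n hn, hz n hn, add_zero]

theorem Neg.sub {x z : LaurentSeries F} (hx : Neg x) (hz : Neg z) : Neg (x - z) := by
  intro n hn
  rw [HahnSeries.coeff_sub, hx n hn, hz n hn, sub_zero]

/-- coefficients of a product of a polynomial of degree `≤ D` and a series of negative degree -/
theorem coeff_phi_mul_neg {P : F[X]} {D : ℕ} (hP : P.degree ≤ D) {x : LaurentSeries F}
    (hx : Neg x) {n : ℤ} (hn : n ≤ -(D : ℤ)) : (phi F P * x).coeff n = 0 := by
  have h1 := le_mul (phi_order hP) hx.order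
  have h2 : ((n + 1 : ℤ) : WithTop ℤ) ≤ (phi F P * x).orderTop := by
    refine le_trans ?_ h1
    rw [← WithTop.coe_add]
    exact_mod_cast (by omega : n + 1 ≤ -(D : ℤ) + 1)
  rw [le_orderTop_iff_forall] at h2
  exact h2 n (by exact_mod_cast (by omega : n < n + 1))

/-! ## The set `Rh` -/

variable (O)

/-- `y ^ k * x` is a polynomial modulo `p ^ (k + 1)`, for all `k` -/
def Rh (p : ℕ) (y : F[X]) (x : LaurentSeries F) : Prop :=
  ∀ k : ℕ, ∃ P ∈ OP O, ∃ r ∈ RI O,
    phi F y ^ k * x = phi F P + HahnSeries.C ((p : F) ^ (k + 1)) * r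

variable {O}
variable {p : ℕ} {y : F[X]}

theorem Rh.mem_RI (hpO : (p : F) ∈ O) {x : LaurentSeries F} (h : Rh O p y x) : x ∈ RI O := by
  obtain ⟨P, hP, r, hr, e⟩ := h 0
  rw [pow_zero, one_mul] at e
  rw [e]
  exact (RI O).add_mem (phi_mem_RI.2 hP) ((RI O).mul_mem (C_mem_RI (O.pow_mem hpO _)) hr)

theorem Rh.phi_mul {x : LaurentSeries F} (h : Rh O p y x) {Q : F[X]} (hQ : Q ∈ OP O) :
    Rh O p y (phi F Q * x) := by
  intro k
  obtain ⟨P, hP, r, hr, e⟩ := h k
  refine ⟨Q * P, (OP O).mul_mem hQ hP, phi F Q * r, (RI O).mul_mem (phi_mem_RI.2 hQ) hr, ?_⟩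
  rw [map_mul]
  linear_combination phi F Q * e

theorem Rh.add {x z : LaurentSeries F} (hx : Rh O p y x) (hz : Rh O p y z) :
    Rh O p y (x + z) := by
  intro k
  obtain ⟨P, hP, r, hr, e⟩ := hx k
  obtain ⟨P', hP', r', hr', e'⟩ := hz k
  refine ⟨P + P', (OP O).add_mem hP hP', r + r', (RI O).add_mem hr hr', ?_⟩
  rw [map_add]
  linear_combination e + e'

theorem Rh.neg {x : LaurentSeries F} (hx : Rh O p y x) : Rh O p y (-x) := by
  intro k
  obtain ⟨P, hP, r, hr, e⟩ := hx k
  refine ⟨-P, (OP O).neg_mem hP, -r, (RI O).neg_mem hr, ?_⟩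
  rw [map_neg]
  linear_combination -e

theorem Rh.sub {x z : LaurentSeries F} (hx : Rh O p y x) (hz : Rh O p y z) :
    Rh O p y (x - z) := by
  rw [sub_eq_add_neg]
  exact hx.add hz.neg

theorem Rh.C_mul {x : LaurentSeries F} (h : Rh O p y x) {a : F} (ha : a ∈ O) :
    Rh O p y (HahnSeries.C a * x) := by
  rw [← phi_C]
  exact h.phi_mul (C_mem_OP ha)

theorem Rh.phi (hy : y ∈ OP O) {Q : F[X]} (hQ : Q ∈ OP O) : Rh O p y (phi F Q) := by
  intro k
  refine ⟨y ^ k * Q, (OP O).mul_mem ((OP O).pow_mem hy k) hQ, 0, (RI O).zero_mem, ?_⟩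
  rw [map_mul, map_pow, mul_zero, add_zero]

theorem Rh.one (hy : y ∈ OP O) : Rh O p y 1 := by
  have := Rh.phi (p := p) hy (OP O).one_mem
  rwa [map_one] at this

theorem Rh.sum {ι : Type*} (hy : y ∈ OP O) (s : Finset ι) {x : ι → LaurentSeries F}
    (h : ∀ i ∈ s, Rh O p y (x i)) : Rh O p y (∑ i ∈ s, x i) := by
  classical
  induction s using Finset.induction_on with
  | empty =>
    rw [Finset.sum_empty]
    have := Rh.phi (p := p) hy (OP O).zero_mem
    rwa [map_zero] at this
  | insert i s hi ih =>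
    rw [Finset.sum_insert hi]
    exact (h i (Finset.mem_insert_self i s)).add
      (ih fun j hj => h j (Finset.mem_insert_of_mem hj))

/-- **key lemma**: multiplication by `p / Y`, where `Y = y + p z` -/
theorem Rh.div {x : LaurentSeries F} (h : Rh O p y x) (hpO : (p : F) ∈ O) {z : F[X]}
    (hz : z ∈ OP O) {u : LaurentSeries F} (hu : u ∈ RI O)
    (hY : (NV.phi F y + HahnSeries.C (p : F) * NV.phi F z) * u = 1) :
    Rh O p y (HahnSeries.C (p : F) * u * x) := by
  intro k
  induction k with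
  | zero =>
    refine ⟨0, (OP O).zero_mem, u * x, (RI O).mul_mem hu (h.mem_RI hpO), ?_⟩
    rw [map_zero]
    simp only [pow_zero, zero_add, pow_one]
    ring
  | succ k ih =>
    obtain ⟨P, hP, r, hr, e⟩ := ih
    obtain ⟨P', hP', r', hr', e'⟩ := h k
    refine ⟨Polynomial.C (p : F) * P' - Polynomial.C (p : F) * z * P,
      (OP O).sub_mem ((OP O).mul_mem (C_mem_OP hpO) hP')
        ((OP O).mul_mem ((OP O).mul_mem (C_mem_OP hpO) hz) hP),
      r' - NV.phi F z * r, (RI O).sub_mem hr' ((RI O).mul_mem (phi_mem_RI.2 hz) hr), ?_⟩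
    have e2 : (HahnSeries.C ((p : F) ^ (k + 1 + 1)) : LaurentSeries F) =
        HahnSeries.C (p : F) * HahnSeries.C ((p : F) ^ (k + 1)) := by
      rw [← map_mul, ← pow_succ']
    rw [e2, map_sub, map_mul, map_mul, map_mul, phi_C]
    rw [pow_succ]
    linear_combination HahnSeries.C (p : F) * e' - HahnSeries.C (p : F) * NV.phi F z * e +
      HahnSeries.C (p : F) * NV.phi F y ^ k * x * hY

/-- coefficientwise form of the condition -/
theorem rh_iff (hp0 : (p : F) ≠ 0) (hpO : (p : F) ∈ O) (hy : y ∈ OP O) {x : LaurentSeries F} :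
    Rh O p y x ↔ x ∈ RI O ∧ ∀ (k : ℕ) (n : ℤ), 0 < n →
      ((p : F) ^ (k + 1))⁻¹ * (NV.phi F y ^ k * x).coeff n ∈ O := by
  constructor
  · intro h
    refine ⟨h.mem_RI hpO, fun k n hn => ?_⟩
    obtain ⟨P, hP, r, hr, e⟩ := h k
    rw [e, HahnSeries.coeff_add, phi_coeff, if_neg (by omega), zero_add, coeff_C_mul, ← mul_assoc,
      inv_mul_cancel₀ (pow_ne_zero _ hp0), one_mul]
    exact hr n
  · rintro ⟨h0, h⟩ k
    have hm : NV.phi F y ^ k * x ∈ RI O :=
      (RI O).mul_mem ((RI O).pow_mem (phi_mem_RI.2 hy) k) h0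
    refine ⟨plus (NV.phi F y ^ k * x), plus_mem hm,
      HahnSeries.C ((p : F) ^ (k + 1))⁻¹ *
        (NV.phi F y ^ k * x - NV.phi F (plus (NV.phi F y ^ k * x))), ?_, ?_⟩
    · intro n
      rw [coeff_C_mul, HahnSeries.coeff_sub, phi_coeff]
      split_ifs with hn
      · rw [plus_coeff]
        have : (-(((-n).toNat : ℕ) : ℤ)) = n := by omega
        rw [this, sub_self, mul_zero]
        exact O.zero_mem
      · rw [sub_zero]
        exact h k n (by omega)
    · rw [← mul_assoc, ← map_mul, mul_inv_cancel₀ (pow_ne_zero _ hp0), map_one, one_mul]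
      ring

/-- limits -/
theorem rh_of_trunc (hp0 : (p : F) ≠ 0) (hpO : (p : F) ∈ O) (hy : y ∈ OP O)
    {x : LaurentSeries F}
    (h : ∀ N : ℕ, ∃ z, Rh O p y z ∧ ((N : ℤ) : WithTop ℤ) ≤ (x - z).orderTop) :
    Rh O p y x := by
  rw [rh_iff hp0 hpO hy]
  constructor
  · intro n
    obtain ⟨z, hz, ho⟩ := h (n + 1).toNat
    rw [le_orderTop_iff_forall] at ho
    have h1 := ho n (by exact_mod_cast (by omega : n < ((n + 1).toNat : ℤ)))
    rw [HahnSeries.coeff_sub, sub_eq_zero] at h1
    rw [h1]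
    exact hz.mem_RI hpO n
  · intro k n hn
    obtain ⟨z, hz, ho⟩ := h (n + 1 + k * y.natDegree).toNat
    have h2 := (rh_iff hp0 hpO hy).1 hz
    have h3 := h2.2 k n hn
    have h4 : ((n + 1 : ℤ) : WithTop ℤ) ≤ (NV.phi F y ^ k * (x - z)).orderTop := by
      have h5 : (y ^ k).degree ≤ ((k * y.natDegree : ℕ) : WithBot ℕ) := by
        refine (degree_le_natDegree).trans ?_
        exact_mod_cast natDegree_pow_le
      have h6 := le_mul (phi_order h5) ho
      rw [map_pow] at h6
      refine le_trans ?_ h6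
      rw [← WithTop.coe_add]
      have : n + 1 ≤ -((k * y.natDegree : ℕ) : ℤ) +
          ((n + 1 + (k : ℤ) * (y.natDegree : ℤ)).toNat : ℤ) := by
        push_cast
        have := Int.self_le_toNat (n + 1 + (k : ℤ) * (y.natDegree : ℤ))
        omega
      exact_mod_cast this
    rw [le_orderTop_iff_forall] at h4
    have h7 := h4 n (by exact_mod_cast (by omega : n < n + 1))
    have h8 : NV.phi F y ^ k * (x - z) = NV.phi F y ^ k * x - NV.phi F y ^ k * z := by ring
    rw [h8, HahnSeries.coeff_sub, sub_eq_zero] at h7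
    rw [h7]
    exact h3

/-! ## The polynomials `V_k` -/

/-- the polynomial part of `y ^ k * V` -/
noncomputable def Vk (y : F[X]) (V : LaurentSeries F) (k : ℕ) : F[X] := plus (NV.phi F y ^ k * V)

theorem Vk_spec {V : LaurentSeries F} (hV : Rh O p y V) (k : ℕ) :
    ∃ r ∈ RI O, Neg r ∧ NV.phi F y ^ k * V =
      NV.phi F (Vk y V k) + HahnSeries.C ((p : F) ^ (k + 1)) * r := by
  obtain ⟨P, hP, r, hr, e⟩ := hV k
  refine ⟨r - NV.phi F (plus r), (RI O).sub_mem hr (phi_mem_RI.2 (plus_mem hr)),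
    neg_sub_plus r, ?_⟩
  have h1 : Vk y V k = P + Polynomial.C ((p : F) ^ (k + 1)) * plus r := by
    unfold Vk
    rw [e, plus_add, plus_phi, plus_C_mul]
  rw [e, h1, map_add, map_mul, phi_C]
  ring

theorem Vk_mem (hy : y ∈ OP O) {V : LaurentSeries F} (hV : V ∈ RI O) (k : ℕ) :
    Vk y V k ∈ OP O :=
  plus_mem ((RI O).mul_mem ((RI O).pow_mem (phi_mem_RI.2 hy) k) hV)

/-- `V_{k+1} = y V_k + p ^ (k+1) f` with `deg f < deg y` -/
theorem Vk_succ (hy : y ∈ OP O) (hym : y.Monic) {V : LaurentSeries F}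
    (hV : Rh O p y V) (k : ℕ) :
    ∃ f ∈ OP O, f.degree < y.degree ∧
      Vk y V (k + 1) = y * Vk y V k + Polynomial.C ((p : F) ^ (k + 1)) * f := by
  obtain ⟨r, hr, hn, e⟩ := Vk_spec hV k
  refine ⟨plus (NV.phi F y * r), plus_mem ((RI O).mul_mem (phi_mem_RI.2 hy) hr), ?_, ?_⟩
  · rw [degree_eq_natDegree hym.ne_zero, degree_lt_iff_coeff_zero]
    intro m hm
    rw [plus_coeff]
    exact coeff_phi_mul_neg degree_le_natDegree hn (by
      have : y.natDegree ≤ m := by exact_mod_cast hm
      omega)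
  · unfold Vk at e ⊢
    rw [pow_succ']
    have h1 : NV.phi F y * NV.phi F y ^ k * V =
        NV.phi F (y * plus (NV.phi F y ^ k * V)) +
          HahnSeries.C ((p : F) ^ (k + 1)) * (NV.phi F y * r) := by
      rw [map_mul]
      linear_combination NV.phi F y * e
    rw [h1, plus_add, plus_phi, plus_C_mul]

end QS2.Cls
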