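import Pool.Agent.QS2.ClsRh

/-!
# The shift `w ↦ w - 1` on Laurent series in `1 / w`

`shL : LaurentSeries F →+* LaurentSeries F` is the ring homomorphism with `shL w = w - 1`,
`w = single (-1) 1`. It extends `QS2.NV.sh`, is `P ↦ P (w - 1)` on polynomials, and preserves
integrality of the coefficients, the order, the polynomial part.
-/

set_option autoImplicit false

namespace QS2.Cls

open Polynomial HahnSeries QS2.NV

variable {F : Type*} [Field F]

theorem single_mem_RI {O : Subring F} (k : ℤ) {a : F} (ha : a ∈ O) :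
    (single k a : LaurentSeries F) ∈ RI O := by
  intro n
  rw [coeff_single]
  split_ifs
  · exact ha
  · exact O.zero_mem

theorem ser_coeff (V : PowerSeries F) (n : ℤ) :
    (ser V).coeff n = if 0 ≤ n then PowerSeries.coeff n.toNat V else 0 := by
  by_cases h : 0 ≤ n
  · rw [if_pos h]
    have e : n = ((n.toNat : ℕ) : ℤ) := (Int.toNat_of_nonneg h).symm
    conv_lhs => rw [e]
    exact ofPowerSeries_apply_coeff V n.toNat
  · rw [if_neg h]
    have h1 := ser_order V
    rw [le_orderTop_iff_forall] at h1
    exact h1 n (by exact_mod_cast (by omega : n < 0))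

/-! ## Every Laurent series is `w ^ D` times a power series -/

/-- the power series `x / w ^ D` -/
noncomputable def psr (D : ℤ) (x : LaurentSeries F) : PowerSeries F :=
  PowerSeries.mk fun n => x.coeff ((n : ℤ) - D)

theorem eq_single_mul {D : ℤ} {x : LaurentSeries F} (h : ((-D : ℤ) : WithTop ℤ) ≤ x.orderTop) :
    x = single (-D) 1 * ser (psr D x) := by
  ext n
  rw [coeff_single_mul, ser_coeff, one_mul]
  rw [le_orderTop_iff_forall] at h
  split_ifs with h0
  · rw [psr, PowerSeries.coeff_mk]
    congr 1
    omega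
  · exact h n (by exact_mod_cast (by omega : n < -D))

theorem exists_order (x : LaurentSeries F) :
    ∃ D : ℕ, ((-(D : ℤ) : ℤ) : WithTop ℤ) ≤ x.orderTop := by
  by_cases hx : x = 0
  · exact ⟨0, by rw [hx]; simp⟩
  · refine ⟨(-x.order).toNat, ?_⟩
    rw [← order_eq_orderTop_of_ne_zero hx]
    exact_mod_cast (by omega : -((-x.order).toNat : ℤ) ≤ x.order)

/-! ## The shift -/

theorem ser_tt_ne : ser (tt F) ≠ 0 := by
  intro h
  have h1 : tt F = 0 := by
    apply ofPowerSeries_injective (Γ := ℤ)
    rw [map_zero]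
    exact h
  have h2 := tt_mul (F := F)
  rw [h1, zero_mul] at h2
  exact PowerSeries.X_ne_zero h2.symm

theorem shL_aux (y : Submonoid.powers (PowerSeries.X : PowerSeries F)) :
    IsUnit (((ofPowerSeries ℤ F).comp sh) y) := by
  obtain ⟨y, n, hn⟩ := y
  rw [isUnit_iff_ne_zero]
  simp only at hn
  subst hn
  rw [map_pow]
  apply pow_ne_zero
  rw [RingHom.comp_apply, sh_X]
  exact ser_tt_ne

/-- the shift `w ↦ w - 1` -/
noncomputable def shL : LaurentSeries F →+* LaurentSeries F :=
  IsLocalization.lift (M := Submonoid.powers (PowerSeries.X : PowerSeries F))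
    (g := (ofPowerSeries ℤ F).comp sh) shL_aux

theorem shL_ser (V : PowerSeries F) : shL (ser V) = ser (sh V) :=
  IsLocalization.lift_eq (M := Submonoid.powers (PowerSeries.X : PowerSeries F)) shL_aux V

theorem shL_C (a : F) : shL (HahnSeries.C a : LaurentSeries F) = HahnSeries.C a := by
  have h := shL_ser (PowerSeries.C a : PowerSeries F)
  rw [sh_C, ser, ofPowerSeries_C] at h
  exact h

theorem ser_tt_mul : ser (tt F) * (single (-1 : ℤ) (1 : F) - 1) = 1 := by
  have h1 := congrArg (ofPowerSeries ℤ F) (tt_mul (F := F))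
  rw [map_mul, map_sub, map_one, ofPowerSeries_X] at h1
  have h2 : (single (1 : ℤ) (1 : F) : LaurentSeries F) * single (-1 : ℤ) (1 : F) = 1 := by
    rw [single_mul_single]
    simp
  have e : (single (-1 : ℤ) (1 : F) - 1 : LaurentSeries F) =
      single (-1 : ℤ) (1 : F) * (1 - single (1 : ℤ) (1 : F)) := by
    rw [mul_sub, mul_one, mul_comm (single (-1 : ℤ) (1 : F)) (single (1 : ℤ) (1 : F)), h2]
  rw [e]
  calc ser (tt F) * (single (-1 : ℤ) (1 : F) * (1 - single (1 : ℤ) (1 : F)))
      = (ofPowerSeries ℤ F (tt F) * (1 - single (1 : ℤ) (1 : F))) * single (-1 : ℤ) (1 : F) := by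
        rw [ser]
        ring
    _ = 1 := by rw [h1, h2]

theorem shL_w : shL (single (-1 : ℤ) (1 : F)) = single (-1 : ℤ) (1 : F) - 1 := by
  have h2 : (single (-1 : ℤ) (1 : F) : LaurentSeries F) * ser (PowerSeries.X) = 1 := by
    rw [ser, ofPowerSeries_X, single_mul_single]
    simp
  have h3 := congrArg shL h2
  rw [map_mul shL, map_one shL, shL_ser, sh_X] at h3
  have h4 := ser_tt_mul (F := F)
  have h5 : ser (tt F) * shL (single (-1 : ℤ) (1 : F)) =
      ser (tt F) * (single (-1 : ℤ) (1 : F) - 1) := by
    rw [h4, mul_comm, h3]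
  exact mul_left_cancel₀ ser_tt_ne h5

/-- the shift on polynomials -/
theorem shL_phi (P : F[X]) : shL (phi F P) = phi F (P.comp (X - 1)) := by
  have h : shL.comp (phi F) = (phi F).comp (Polynomial.compRingHom (X - 1)) := by
    apply Polynomial.ringHom_ext
    · intro a
      simp only [RingHom.comp_apply, phi_C, shL_C, coe_compRingHom_apply, C_comp]
    · simp only [RingHom.comp_apply, phi_X, shL_w, coe_compRingHom_apply, X_comp, map_sub, map_one]
  exact congrArg (fun f => f P) h

theorem shL_injective : Function.Injective (shL (F := F)) := (shL (F := F)).injective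

/-- the shift of the inverse of a polynomial -/
theorem shL_phi_inv (P : F[X]) : shL ((phi F P)⁻¹) = (phi F (P.comp (X - 1)))⁻¹ := by
  rw [map_inv₀, shL_phi]

/-- the shift on the linear factors `w + a` -/
theorem shL_lin (a : F) :
    shL (phi F (X + Polynomial.C a)) = phi F (X + Polynomial.C (a - 1)) := by
  rw [shL_phi]
  congr 1
  rw [add_comp, X_comp, C_comp, C_sub, C_1]
  ring

theorem coeff_zero_sh (V : PowerSeries F) : PowerSeries.coeff 0 (sh V) = PowerSeries.coeff 0 V := by
  have h : V = PowerSeries.C (PowerSeries.coeff 0 V) +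
      PowerSeries.X * PowerSeries.mk fun n => PowerSeries.coeff (n + 1) V := by
    ext n
    rcases n with _ | n
    · simp
    · rw [map_add, PowerSeries.coeff_C, if_neg (Nat.succ_ne_zero n), zero_add,
        PowerSeries.coeff_succ_X_mul, PowerSeries.coeff_mk]
  conv_lhs => rw [h]
  rw [map_add, map_mul, sh_C, sh_X, map_add, tt, mul_assoc, PowerSeries.coeff_zero_X_mul, add_zero,
    PowerSeries.coeff_C, if_pos rfl]

theorem coeff_sh_mem {O : Subring F} {V : PowerSeries F} (h : ∀ n, PowerSeries.coeff n V ∈ O)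
    (n : ℕ) : PowerSeries.coeff n (sh V) ∈ O := by
  rcases n with _ | n
  · rw [coeff_zero_sh]
    exact h 0
  · rw [coeff_sh]
    exact O.sum_mem fun m _ => O.mul_mem (natCast_mem O _) (h _)

/-- the shift preserves integrality -/
theorem shL_mem_RI {O : Subring F} {x : LaurentSeries F} (h : x ∈ RI O) : shL x ∈ RI O := by
  obtain ⟨D, hD⟩ := exists_order x
  rw [eq_single_mul hD, map_mul, shL_ser]
  have e : (single (-(D : ℤ)) (1 : F) : LaurentSeries F) = (single (-1 : ℤ) (1 : F)) ^ D := by
    rw [single_pow]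
    simp
  rw [e, map_pow, shL_w]
  apply (RI O).mul_mem
  · apply (RI O).pow_mem
    exact (RI O).sub_mem (single_mem_RI _ O.one_mem) (RI O).one_mem
  · apply ser_mem_RI
    apply coeff_sh_mem
    intro n
    rw [psr, PowerSeries.coeff_mk]
    exact h _

theorem comp_mem_OP {O : Subring F} {P : F[X]} (h : P ∈ OP O) : P.comp (X - 1) ∈ OP O := by
  rw [← phi_mem_RI, ← shL_phi]
  exact shL_mem_RI (phi_mem_RI.2 h)

theorem le_pow {a : LaurentSeries F} {k : ℤ} (ha : (k : WithTop ℤ) ≤ a.orderTop) (n : ℕ) :
    ((n * k : ℤ) : WithTop ℤ) ≤ (a ^ n).orderTop := by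
  induction n with
  | zero => simp
  | succ n ih =>
    have := le_mul ih ha
    rw [pow_succ]
    refine le_trans ?_ this
    rw [← WithTop.coe_add]
    exact_mod_cast (by push_cast; linarith : ((n + 1 : ℕ) : ℤ) * k ≤ n * k + k)

/-- the shift preserves lower bounds of the order -/
theorem shL_order {k : ℤ} {x : LaurentSeries F} (h : (k : WithTop ℤ) ≤ x.orderTop) :
    (k : WithTop ℤ) ≤ (shL x).orderTop := by
  have h' : ((-(-k) : ℤ) : WithTop ℤ) ≤ x.orderTop := by rwa [neg_neg]
  rw [eq_single_mul h', map_mul, shL_ser]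
  have key : (k : WithTop ℤ) ≤ (shL (single (-(-k)) (1 : F))).orderTop := by
    rcases le_total 0 k with hk | hk
    · obtain ⟨n, rfl⟩ := Int.eq_ofNat_of_zero_le hk
      have e : (single (-(-(n : ℤ))) (1 : F) : LaurentSeries F) = ser (PowerSeries.X) ^ n := by
        rw [ser, ofPowerSeries_X, single_pow]
        simp
      rw [e, map_pow, shL_ser, sh_X]
      have h1 : ((1 : ℤ) : WithTop ℤ) ≤ (ser (tt F)).orderTop := by
        rw [le_orderTop_iff_forall]
        intro j hj
        have hj' : j < 1 := by exact_mod_cast hj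
        rw [ser_coeff]
        split_ifs with h0
        · have : j = 0 := by omega
          subst this
          simp [tt]
        · rfl
      have := le_pow h1 n
      rwa [mul_one] at this
    · obtain ⟨n, hn⟩ := Int.eq_ofNat_of_zero_le (by omega : 0 ≤ -k)
      have e : (single (-(-k)) (1 : F) : LaurentSeries F) = (single (-1 : ℤ) (1 : F)) ^ n := by
        rw [single_pow, hn]
        simp
      rw [e, map_pow, shL_w]
      have h1 : ((-1 : ℤ) : WithTop ℤ) ≤
          (single (-1 : ℤ) (1 : F) - 1 : LaurentSeries F).orderTop := by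
        apply le_sub
        · exact orderTop_single_le
        · rw [orderTop_one]
          exact_mod_cast (by omega : (-1 : ℤ) ≤ 0)
      have h2 := le_pow h1 n
      have e2 : (n : ℤ) * -1 = k := by omega
      rwa [e2] at h2
  have := le_mul key (ser_order (sh (psr (-k) x)))
  rwa [← WithTop.coe_add, add_zero] at this

theorem Neg.shL {x : LaurentSeries F} (h : Neg x) : Neg (shL x) :=
  neg_of_order (shL_order h.order)

/-- the polynomial part commutes with the shift -/
theorem plus_shL (x : LaurentSeries F) : plus (shL x) = (plus x).comp (X - 1) := by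
  apply plus_eq
  rw [← shL_phi, ← map_sub]
  exact (neg_sub_plus x).shL

end QS2.Cls
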