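import Mathlib

/-!
# QS2: sums of floors

`SF p M = ∑_{i<M} ⌊i/p⌋` against the parabola `M²/(2p) - M/2`, and exact formulas.
-/

set_option autoImplicit false

namespace QS2

open Finset

/-- `∑_{i<M} ⌊i/p⌋` -/
def SF (p M : ℕ) : ℕ := ∑ i ∈ range M, i / p

theorem SF_zero (p : ℕ) : SF p 0 = 0 := by simp [SF]

theorem SF_succ (p M : ℕ) : SF p (M + 1) = SF p M + M / p := by
  simp [SF, sum_range_succ]

/-- exact formula, doubled: `2 S = 2 k M - p k (k+1)`, `k = ⌊M/p⌋` -/
theorem SF_exact {p : ℕ} (hp : 0 < p) (M : ℕ) :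
    2 * (SF p M : ℝ) = 2 * ((M / p : ℕ) : ℝ) * M - p * ((M / p : ℕ) : ℝ) * (((M / p : ℕ) : ℝ) + 1) := by
  induction M with
  | zero => simp [SF_zero]
  | succ M ih =>
    rw [SF_succ]
    push_cast
    rw [mul_add, ih]
    by_cases h : p ∣ M + 1
    · have h1 : (M + 1) / p = M / p + 1 := Nat.succ_div_of_dvd h
      obtain ⟨k, hk⟩ := h
      have h2 : (M + 1) / p = k := by rw [hk]; exact Nat.mul_div_cancel_left k hp
      have h3 : ((M / p : ℕ) : ℝ) = k - 1 := by
        have : k = M / p + 1 := by omega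
        rw [this]; push_cast; ring
      have h4 : (M : ℝ) + 1 = p * k := by exact_mod_cast hk
      rw [h2, h3]
      have h5 : (M : ℝ) = p * k - 1 := by linarith
      rw [h5]
      ring
    · have h1 : (M + 1) / p = M / p := Nat.succ_div_of_not_dvd h
      rw [h1]
      ring

/-- the exact formula for a given quotient -/
theorem SF_of_div {p M k : ℕ} (h1 : k * p ≤ M) (h2 : M < (k + 1) * p) :
    2 * (SF p M : ℝ) = 2 * (k : ℝ) * M - p * (k : ℝ) * ((k : ℝ) + 1) := by
  have hp : 0 < p := by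
    rcases Nat.eq_zero_or_pos p with h | h
    · subst h; omega
    · exact h
  have h3 : M / p = k := by
    apply Nat.div_eq_of_lt_le
    · linarith
    · linarith
  rw [SF_exact hp, h3]

/-- lower bound by the parabola -/
theorem SF_lower {p : ℕ} (hp : 0 < p) (M : ℕ) :
    (M : ℝ) ^ 2 / (2 * p) - M / 2 ≤ SF p M := by
  have h := SF_exact hp M
  set k : ℝ := ((M / p : ℕ) : ℝ) with hk
  have hp' : (0 : ℝ) < p := by exact_mod_cast hp
  have h1 : k * p ≤ M := by
    rw [hk]; exact_mod_cast Nat.div_mul_le_self M p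
  have h2 : (M : ℝ) ≤ (k + 1) * p := by
    rw [hk]
    have : M ≤ (M / p + 1) * p := by
      have := Nat.lt_div_mul_add hp (a := M)
      nlinarith
    exact_mod_cast this
  rw [div_sub_div _ _ (by positivity) (by norm_num), div_le_iff₀ (by positivity)]
  have h3 : 0 ≤ ((M : ℝ) - k * p) * ((k + 1) * p - M) :=
    mul_nonneg (by linarith) (by linarith)
  nlinarith

/-- upper bound by the parabola -/
theorem SF_upper {p : ℕ} (hp : 0 < p) (M : ℕ) :
    (SF p M : ℝ) ≤ (M : ℝ) ^ 2 / (2 * p) - M / 2 + p / 8 := by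
  have h := SF_exact hp M
  set k : ℝ := ((M / p : ℕ) : ℝ) with hk
  have hp' : (0 : ℝ) < p := by exact_mod_cast hp
  have e : (M : ℝ) ^ 2 / (2 * p) - M / 2 + p / 8 = (4 * (M : ℝ) ^ 2 - 4 * M * p + p ^ 2) / (8 * p) := by
    field_simp
    ring
  rw [e, le_div_iff₀ (by positivity)]
  nlinarith [sq_nonneg (2 * (M : ℝ) - (2 * k + 1) * p)]

theorem SF_mono (p : ℕ) {M M' : ℕ} (h : M ≤ M') : SF p M ≤ SF p M' := by
  unfold SF
  exact sum_le_sum_of_subset (range_subset_range.mpr h)

/-- a shift of the length -/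
theorem SF_add_le (p M δ : ℕ) : SF p (M + δ) ≤ SF p M + δ * ((M + δ) / p) := by
  induction δ with
  | zero => simp
  | succ δ ih =>
    rw [← add_assoc, SF_succ]
    have h1 : (M + δ) / p ≤ (M + δ + 1) / p := Nat.div_le_div_right (by omega)
    calc SF p (M + δ) + (M + δ) / p ≤ SF p M + δ * ((M + δ) / p) + (M + δ) / p :=
          Nat.add_le_add_right ih _
      _ ≤ SF p M + δ * ((M + δ + 1) / p) + (M + δ + 1) / p := by gcongr
      _ = SF p M + (δ + 1) * ((M + δ + 1) / p) := by ring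

end QS2
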