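import Pool.Agent.QS2.Jet23
import Pool.Agent.QS2.PrimesA

/-!
# QS2: the rule for the large primes

`p ≥ 5`, `A + rho < p ^ 2`: the exponent of `p` in the denominator of the determinant is at most
`∑_{i<rho} (⌊(A+i)/p⌋ - ⌊(A-rho+i)/p⌋) + 6 (A + 2 - p)`.
-/

set_option autoImplicit false

namespace QS2

open Finset Polynomial Pool.QS2

theorem piData_large {p : ℕ} [hp : Fact p.Prime] (hp5 : 5 ≤ p) {v : ℕ → K} (hv : IsFormal v)
    (hv0 : v 0 = alpha) : PiData p (p : K) 1 (fun _ => 0) v where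
  mem := natCast_mem _ p
  ne := by exact_mod_cast hp.out.ne_zero
  pow := pow_one _
  a0 := rfl
  mono := fun _ _ _ => le_rfl
  sup := fun _ _ => le_rfl
  growth := fun m => ⟨v m, growth_large hp5 hv hv0 m, by simp⟩

/-- cost of the value row with index `i` (right node `i + 1`, left node `-3 - i`) -/
def rowc (p i : ℕ) : ℕ := 3 * Nat.log p (i + 2)

theorem aperyB_mem' {p : ℕ} [hp : Fact p.Prime] (hp2 : p ≠ 2) {n m : ℕ} (hn : n ≤ m) :
    (p : K) ^ (3 * Nat.log p m) * ((aperyB n : ℚ) : K) ∈ Op p := by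
  rw [algQ]
  have e : ((p : K) ^ (3 * Nat.log p m)) * algebraMap ℚ K (aperyB n)
      = algebraMap ℚ K ((p : ℚ) ^ (3 * Nat.log p m) * aperyB n) := by
    rw [map_mul, map_pow, map_natCast]
  rw [e]
  apply algebraMap_mem
  rw [padicNorm.mul]
  have h1 : padicNorm p ((p : ℚ) ^ (3 * Nat.log p m))
      = ((p : ℚ) ^ (3 * Nat.log p m))⁻¹ := by
    have h2 : padicNorm p ((p ^ (3 * Nat.log p m) : ℕ) : ℚ) = _ :=
      padicNorm_natCast_eq p (pow_ne_zero _ hp.out.ne_zero)
    rw [padicValNat.prime_pow] at h2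
    exact_mod_cast h2
  have h3 := norm_aperyB p hp2 n
  have hp1 : (1 : ℚ) ≤ (p : ℚ) := by exact_mod_cast hp.out.one_lt.le
  have h4 : (p : ℚ) ^ (3 * Nat.log p n) ≤ (p : ℚ) ^ (3 * Nat.log p m) := by
    apply pow_le_pow_right₀ hp1
    exact Nat.mul_le_mul_left 3 (Nat.log_mono_right hn)
  rw [h1]
  have hpos : (0 : ℚ) < (p : ℚ) ^ (3 * Nat.log p m) := by positivity
  rw [inv_mul_le_iff₀ hpos, mul_one]
  exact h3.trans h4

theorem valu_mem' {p : ℕ} [hp : Fact p.Prime] (hp2 : p ≠ 2) {y : K} (hy : y ∈ Op p)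
    {n n' m : ℕ} (hn' : n' ≤ m) :
    (p : K) ^ (3 * Nat.log p m) * (((aperyA n : ℚ) : K) * y - ((aperyB n' : ℚ) : K)) ∈ Op p := by
  have hpm : (p : K) ∈ Op p := natCast_mem _ p
  rw [mul_sub]
  refine (Op p).sub_mem ((Op p).mul_mem ((Op p).pow_mem hpm _) ((Op p).mul_mem ?_ hy))
    (aperyB_mem' hp2 hn')
  rw [algQ]
  exact algebraMap_mem (norm_aperyA p n)

/-- the exponent -/
def eGen (p A rho : ℕ) : ℕ :=
  ∑ i ∈ range rho, (padicValNat p (A + i).factorial - padicValNat p (A - rho + i).factorial) +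
    2 * ∑ i ∈ range A, rowc p i

/-- **the rule for `p ≥ 5`** (useful for large `p`) -/
theorem delta_boundL {p : ℕ} [hp : Fact p.Prime] (hp5 : 5 ≤ p) {v : ℕ → K} (hv : IsFormal v)
    (hv0 : v 0 = alpha) {y y' : K} (hy : y ∈ Op p) (hy' : y' ∈ Op p) {A rho : ℕ}
    (hA : rho ≤ A) : (p : K) ^ (eGen p A rho) * DeltaR y y' v A rho ∈ Op p := by
  classical
  have h := piData_large hp5 hv hv0
  have hp2 : p ≠ 2 := by omega
  set c := A + rho with hc
  set T : Matrix (Fin c ⊕ Fin c) (Fin c ⊕ Fin c) K :=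
    (bigM y y' v A rho).submatrix (idx A rho) id with hT
  let f : Fin (2 * rho) ↪ (Fin c ⊕ Fin c) :=
    ⟨fun d => (idx A rho).symm (Sum.inr d), fun d d' hdd => by
      have := (idx A rho).symm.injective hdd
      exact Sum.inr_injective this⟩
  have hf : ∀ d, f d = (idx A rho).symm (Sum.inr d) := fun _ => rfl
  set J : Finset (Fin c ⊕ Fin c) := univ.map f with hJ
  have hJcard : J.card = 2 * rho := by rw [hJ, card_map, card_univ, Fintype.card_fin]
  have hmemJ : ∀ r, r ∈ J ↔ ∃ d, idx A rho r = Sum.inr d := by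
    intro r
    rw [hJ, mem_map]
    constructor
    · rintro ⟨d, _, rfl⟩
      exact ⟨d, by rw [hf]; simp⟩
    · rintro ⟨d, hd⟩
      exact ⟨d, mem_univ _, by rw [hf, ← hd]; simp⟩
  let ix : Fin c ⊕ Fin c → ℕ := Sum.elim (fun i : Fin c => (i : ℕ)) (fun i : Fin c => (i : ℕ))
  let e : Fin c ⊕ Fin c → ℕ := fun j => wt p 1 (fun _ => 0) (ix j)
  let w : Fin c ⊕ Fin c → ℕ := fun r =>
    Sum.elim (fun _ : Nd A => 0)
      (fun d : Fin (2 * rho) => wt p 1 (fun _ => 0) (c - 2 * rho + (d : ℕ))) (idx A rho r)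
  let ng : Nd A → ℕ := Sum.elim (fun i : Fin A => rowc p i) (fun i : Fin A => rowc p i)
  let cr : Fin c ⊕ Fin c → ℕ := fun r =>
    Sum.elim ng (fun _ : Fin (2 * rho) => 0) (idx A rho r)
  have hval : ∀ r, r ∉ J → ∀ j, (p : K) ^ (cr r) * T r j ∈ Op p := by
    intro r hr j
    have hr' : ∃ g : Nd A, idx A rho r = Sum.inl g := by
      rcases hir : idx A rho r with g | d
      · exact ⟨g, rfl⟩
      · exact absurd ((hmemJ r).2 ⟨d, hir⟩) hr
    obtain ⟨g, hg⟩ := hr'
    have hcr : cr r = ng g := by simp [cr, hg]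
    rw [hcr]
    have hentry : ∀ (i : ℕ) (u : K), (p : K) ^ (ng g) * u ∈ Op p →
        (p : K) ^ (ng g) * ((binP K i).eval (((nodeZ A g : ℤ)) : K) * u) ∈ Op p := by
      intro i u hu
      obtain ⟨cc, hcc⟩ := binP_eval_int i (nodeZ A g)
      rw [hcc]
      have : (p : K) ^ (ng g) * ((cc : K) * u) = (cc : K) * ((p : K) ^ (ng g) * u) := by ring
      rw [this]
      exact (Op p).mul_mem (intCast_mem _ _) hu
    have hu0 : (p : K) ^ (ng g) * uval y y' A g ∈ Op p := by
      rcases g with g | g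
      · exact valu_mem' hp2 hy (by omega)
      · exact valu_mem' hp2 hy' (by omega)
    have hu1 : (p : K) ^ (ng g) * uval1 y y' A g ∈ Op p := by
      rcases g with g | g
      · exact valu_mem' hp2 hy (by omega)
      · exact valu_mem' hp2 hy' (by omega)
    simp only [hT, Matrix.submatrix_apply, id, hg, bigM]
    rcases j with i | i
    · exact hentry _ _ hu0
    · exact hentry _ _ hu1
  have hjet : ∀ r, r ∈ J → ∀ j, ∃ s ∈ Op p, (p : K) ^ (e j) * T r j = (p : K) ^ (w r) * s := by
    intro r hr j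
    obtain ⟨d, hd⟩ := (hmemJ r).1 hr
    simp only [hT, Matrix.submatrix_apply, id, hd, bigM]
    have hw : w r = wt p 1 (fun _ => 0) (c - 2 * rho + (d : ℕ)) := by simp [w, hd]
    rw [hw]
    rcases j with i | i
    · exact jetP h _ _
    · exact jetQ h _ _
  obtain ⟨s, hs, key⟩ := det_weight (Op p) h.mem T J e w cr
    (wt p 1 (fun _ => 0) A) hval hjet
  have hD : T.det = DeltaR y y' v A rho := rfl
  rw [hD] at key
  set W := wt p 1 (fun _ => 0) with hWdef
  have hW : ∑ r ∈ J, w r = ∑ d ∈ range (2 * rho), W (c - 2 * rho + d) := by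
    rw [hJ, sum_map, ← Fin.sum_univ_eq_sum_range (fun d => W (c - 2 * rho + d))]
    refine sum_congr rfl fun d _ => ?_
    simp [w, hf, hWdef]
  have hmono : Monotone W := wt_mono h
  have hE : ∑ j, (e j - W A) = 2 * ∑ i ∈ range rho, (W (A + i) - W A) := by
    rw [Fintype.sum_sum_type]
    have h1 : ∀ g : Fin c → ℕ, (∀ i, g i = W (i : ℕ) - W A) →
        ∑ i, g i = ∑ i ∈ range rho, (W (A + i) - W A) := by
      intro g hg
      rw [sum_congr rfl (fun i _ => hg i),
        Fin.sum_univ_eq_sum_range (fun i => W i - W A), hc, sum_range_add]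
      have h0 : ∑ i ∈ range A, (W i - W A) = 0 := by
        refine sum_eq_zero fun i hi => ?_
        have := hmono (mem_range.1 hi).le
        omega
      rw [h0, zero_add]
    rw [h1 (fun i => e (Sum.inl i) - W A) (fun i => rfl),
      h1 (fun i => e (Sum.inr i) - W A) (fun i => rfl)]
    ring
  have hC : ∑ r ∈ Jᶜ, cr r = 2 * ∑ i ∈ range A, rowc p i := by
    have h0 : ∑ r ∈ J, cr r = 0 := by
      refine sum_eq_zero fun r hr => ?_
      obtain ⟨d, hd⟩ := (hmemJ r).1 hr
      simp [cr, hd]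
    have h1 : ∑ r, cr r = ∑ r ∈ Jᶜ, cr r := by
      rw [← sum_compl_add_sum J, h0, add_zero]
    rw [← h1]
    have h2 : ∑ r, cr r = ∑ r : Nd A ⊕ Fin (2 * rho), Sum.elim ng (fun _ => 0) r :=
      Equiv.sum_comp (idx A rho) (fun r => Sum.elim ng (fun _ : Fin (2 * rho) => 0) r)
    rw [h2, Fintype.sum_sum_type]
    simp only [Sum.elim_inl, Sum.elim_inr, sum_const_zero, add_zero]
    rw [Fintype.sum_sum_type]
    simp only [ng, Sum.elim_inl, Sum.elim_inr]
    rw [Fin.sum_univ_eq_sum_range (fun i => rowc p i)]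
    ring
  have hexp : W A * J.card + ∑ j, (e j - W A) + ∑ r ∈ Jᶜ, cr r
      = ∑ r ∈ J, w r + (∑ i ∈ range rho, (W (A + i) - W (A - rho + i)) +
        2 * ∑ i ∈ range A, rowc p i) := by
    rw [hW, hE, hC, hJcard]
    have hsplit : range (2 * rho) = range (rho + rho) := by congr 1; omega
    rw [hsplit, sum_range_add]
    have h1 : ∑ d ∈ range rho, W (c - 2 * rho + (rho + d)) = ∑ d ∈ range rho, W (A + d) := by
      refine sum_congr rfl fun d _ => ?_
      congr 1; omega
    have h2 : ∑ d ∈ range rho, W (c - 2 * rho + d) = ∑ d ∈ range rho, W (A - rho + d) := by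
      refine sum_congr rfl fun d _ => ?_
      congr 1; omega
    rw [h1, h2]
    have h3 : ∑ i ∈ range rho, (W (A + i) - W A) + rho * W A = ∑ i ∈ range rho, W (A + i) := by
      rw [← smul_eq_mul rho, ← card_range rho, ← sum_const, card_range, ← sum_add_distrib]
      refine sum_congr rfl fun i _ => ?_
      have := hmono (Nat.le_add_right A i)
      omega
    have h4 : ∑ i ∈ range rho, (W (A + i) - W (A - rho + i))
        + ∑ i ∈ range rho, W (A - rho + i) = ∑ i ∈ range rho, W (A + i) := by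
      rw [← sum_add_distrib]
      refine sum_congr rfl fun i _ => ?_
      have := hmono (show A - rho + i ≤ A + i by omega)
      omega
    have h5 : W A * (2 * rho) = 2 * (rho * W A) := by ring
    rw [h5]
    omega
  have hWfac : ∀ i, W i = padicValNat p i.factorial := by
    intro i
    rw [hWdef]
    unfold wt
    ring
  rw [hexp, pow_add] at key
  simp only [hWfac] at key
  have hne : (p : K) ^ (∑ r ∈ J, w r) ≠ 0 := pow_ne_zero _ h.ne
  have : (p : K) ^ (eGen p A rho) * DeltaR y y' v A rho = s := by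
    apply mul_left_cancel₀ hne
    unfold eGen
    linear_combination key
  rw [this]; exact hs

/-- for `n < p ^ 2` the valuation of `n!` is `⌊n/p⌋` -/
theorem padicVal_fac_of_lt {p : ℕ} [hp : Fact p.Prime] {n : ℕ} (h : n < p ^ 2) :
    padicValNat p n.factorial = n / p := by
  have h1 : Nat.log p n < 2 := by
    rcases Nat.eq_zero_or_pos n with rfl | hn
    · simp
    · exact Nat.log_lt_of_lt_pow hn.ne' h
  rw [padicValNat_factorial h1]
  simp

theorem SF_split (p a b : ℕ) : SF p (a + b) = SF p a + ∑ i ∈ range b, (a + i) / p := by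
  unfold SF
  rw [sum_range_add]

theorem sum_rowc_le {p A : ℕ} (hp : 2 ≤ p) (h : A + 1 < p ^ 2) :
    ∑ i ∈ range A, rowc p i ≤ 3 * (A + 2 - p) := by
  have h1 : ∀ i ∈ range A, rowc p i ≤ if p - 2 ≤ i then 3 else 0 := by
    intro i hi
    have hi' := mem_range.1 hi
    unfold rowc
    split_ifs with hc
    · have : Nat.log p (i + 2) < 2 := Nat.log_lt_of_lt_pow (by omega) (by omega)
      omega
    · have : Nat.log p (i + 2) = 0 := Nat.log_of_lt (by omega)
      omega
  refine (sum_le_sum h1).trans ?_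
  rw [← sum_filter, sum_const, smul_eq_mul, mul_comm]
  refine Nat.mul_le_mul_left 3 ?_
  have h2 : (range A).filter (fun i => p - 2 ≤ i) ⊆ Ico (p - 2) A := by
    intro i hi
    rw [mem_filter, mem_range] at hi
    rw [mem_Ico]
    exact ⟨hi.2, hi.1⟩
  refine (card_le_card h2).trans ?_
  rw [Nat.card_Ico]
  omega

/-- the exponent against `ruleL` of the prime sum -/
theorem eGen_le {p : ℕ} [hp : Fact p.Prime] {n A : ℕ} (h1 : 2 * n ≤ A) (h2 : A ≤ 2 * n + 2)
    (hn : 1 ≤ n) (hp2 : A + n < p ^ 2) :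
    (eGen p A n : ℝ) ≤ 6 * max (2 * (n : ℝ) - p) 0 + SF p (A + n) - 2 * SF p A
      + SF p (A - n) + 24 := by
  have e1 : ∑ i ∈ range n, (padicValNat p (A + i).factorial
      - padicValNat p (A - n + i).factorial) + SF p A + SF p A = SF p (A + n) + SF p (A - n) := by
    have a1 := SF_split p A n
    have a2 := SF_split p (A - n) n
    rw [Nat.sub_add_cancel (by omega : n ≤ A)] at a2
    have a3 : ∑ i ∈ range n, (padicValNat p (A + i).factorial
        - padicValNat p (A - n + i).factorial) + ∑ i ∈ range n, (A - n + i) / p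
        = ∑ i ∈ range n, (A + i) / p := by
      rw [← sum_add_distrib]
      refine sum_congr rfl fun i hi => ?_
      have hi' := mem_range.1 hi
      rw [padicVal_fac_of_lt (p := p) (n := A + i) (by omega),
        padicVal_fac_of_lt (p := p) (n := A - n + i) (by omega)]
      have : (A - n + i) / p ≤ (A + i) / p := Nat.div_le_div_right (by omega)
      omega
    omega
  have e2 := sum_rowc_le (p := p) (A := A) hp.out.two_le (by omega)
  have e1' : ((∑ i ∈ range n, (padicValNat p (A + i).factorial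
      - padicValNat p (A - n + i).factorial) : ℕ) : ℝ) + SF p A + SF p A
      = SF p (A + n) + SF p (A - n) := by exact_mod_cast e1
  have e2' : ((∑ i ∈ range A, rowc p i : ℕ) : ℝ) ≤ 3 * ((A + 2 - p : ℕ) : ℝ) := by
    exact_mod_cast e2
  have e3 : ((A + 2 - p : ℕ) : ℝ) ≤ max (2 * (n : ℝ) - p) 0 + 4 := by
    rcases Nat.lt_or_ge (A + 2) p with h | h
    · rw [Nat.sub_eq_zero_of_le h.le]
      have := le_max_right (2 * (n : ℝ) - p) 0
      push_cast
      linarith
    · rw [Nat.cast_sub h]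
      have := le_max_left (2 * (n : ℝ) - p) 0
      have hA : (A : ℝ) ≤ 2 * n + 2 := by exact_mod_cast h2
      push_cast
      linarith
  unfold eGen
  push_cast at e1' e2' ⊢
  linarith

end QS2
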