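import Pool.Agent.QS2.NonVanD
import Pool.Agent.QS2.AperyRec
import Pool.Agent.QS2.RuleL
import Pool.Agent.QS2.ClsDefs

/-!
# QS2, class rule: transfer and integrality of the values (helper19)

`uz x x' z` is the solution of the Apéry recurrence at all integers (right side with `x`, left side
with `x'`).  For a multiple `t = p k` of `p` and `j < p`

`D_j(t) u(t+j) = A_j(t) u(t) + B_j(t) m_k`,   `p^3 u(pk) ∈ Op p`,  `m_k ∈ Op p`,

with `m_k = (pk)^3 u(pk-1)` for `k ≠ 0` and `m_0 = 6`, and `D_j(t)` is a unit.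
-/

set_option autoImplicit false

namespace QS2.Cls

open Finset Polynomial NV

section Trans

variable {R : Type*} [CommRing R]

/-- `D_j = ∏_{i=1}^j (t+i)^3`. -/
def trD (t : R) (j : ℕ) : R := ∏ i ∈ range j, (t + (i + 1 : ℕ)) ^ 3

@[simp] theorem trD_zero (t : R) : trD t 0 = 1 := by simp [trD]

theorem trD_succ (t : R) (j : ℕ) : trD t (j + 1) = trD t j * (t + (j + 1 : ℕ)) ^ 3 := by
  rw [trD, prod_range_succ]; rfl

theorem eval_ap (q : R[X]) (t : R) : (ap q).eval t = ap (q.eval t) := by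
  simp only [ap, eval_add, eval_mul, eval_pow]
  norm_num [eval_ofNat]

@[simp] theorem trA_zero_eval (t : R) : (trA R 0).eval t = 1 := by simp [trA]

@[simp] theorem trA_one_eval (t : R) : (trA R 1).eval t = ap t := by
  rw [trA, eval_ap, eval_X]

theorem trA_succ_eval (t : R) (j : ℕ) : (trA R (j + 2)).eval t =
    ap (t + (j + 1 : ℕ)) * (trA R (j + 1)).eval t - (t + (j + 1 : ℕ)) ^ 6 * (trA R j).eval t := by
  rw [trA, eval_sub, eval_mul, eval_mul, eval_pow, eval_ap]
  simp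

@[simp] theorem trB_zero_eval (t : R) : (trB R 0).eval t = 0 := by simp [trB]

@[simp] theorem trB_one_eval (t : R) : (trB R 1).eval t = -1 := by simp [trB]

theorem trB_succ_eval (t : R) (j : ℕ) : (trB R (j + 2)).eval t =
    ap (t + (j + 1 : ℕ)) * (trB R (j + 1)).eval t - (t + (j + 1 : ℕ)) ^ 6 * (trB R j).eval t := by
  rw [trB, eval_sub, eval_mul, eval_mul, eval_pow, eval_ap]
  simp

/-- Casoratian of `A_j`, `B_j` -/
theorem cas_eval (t : R) (j : ℕ) :
    (trA R j).eval t * (trB R (j + 1)).eval t - (trA R (j + 1)).eval t * (trB R j).eval t =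
      -(trD t j) ^ 2 := by
  induction j with
  | zero => simp
  | succ j ih =>
    rw [trB_succ_eval, trA_succ_eval, trD_succ]
    linear_combination (t + (j + 1 : ℕ)) ^ 6 * ih

/-- **Transfer** with a general first step. -/
theorem transfer' (u : ℤ → R) (t : ℤ) (m : R)
    (h0 : ((t : R) + 1) ^ 3 * u (t + 1) = ap (t : R) * u t - m) (j : ℕ)
    (h : ∀ i : ℕ, 1 ≤ i → i < j → (((t + i : ℤ) : R) + 1) ^ 3 * u (t + i + 1) =
      ap ((t + i : ℤ) : R) * u (t + i) - ((t + i : ℤ) : R) ^ 3 * u (t + i - 1)) :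
    trD (t : R) j * u (t + j) = (trA R j).eval (t : R) * u t + (trB R j).eval (t : R) * m := by
  induction j using Nat.strong_induction_on with
  | _ j ih =>
    rcases j with _ | _ | j
    · simp
    · simp only [trA_one_eval, trB_one_eval, trD_succ, trD_zero, zero_add]
      push_cast
      linear_combination h0
    · have h1 := ih (j + 1) (by omega) fun i hi hi' => h i hi (by omega)
      have h2 := ih j (by omega) fun i hi hi' => h i hi (by omega)
      have h3 := h (j + 1) (by omega) (by omega)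
      have e0 : t + ((j + 1 + 1 : ℕ) : ℤ) = t + ((j + 1 : ℕ) : ℤ) + 1 := by push_cast; ring
      have e1 : t + ((j + 1 : ℕ) : ℤ) - 1 = t + (j : ℤ) := by push_cast; ring
      rw [e1] at h3
      rw [e0, trA_succ_eval, trB_succ_eval]
      have d2 := trD_succ (t : R) (j + 1)
      have d1 := trD_succ (t : R) j
      have c1 : (((t + ((j + 1 : ℕ) : ℤ) : ℤ) : R)) = (t : R) + ((j + 1 : ℕ) : R) := by
        push_cast; ring
      have c2 : ((t : R) + ((j + 1 + 1 : ℕ) : R)) = ((t : R) + ((j + 1 : ℕ) : R)) + 1 := by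
        push_cast; ring
      rw [c1] at h3
      rw [d2, c2]
      set s : R := (t : R) + ((j + 1 : ℕ) : R) with hs
      linear_combination trD (t : R) (j + 1) * h3 + ap s * h1 - s ^ 6 * h2 -
        s ^ 3 * u (t + j) * d1

/-- **Transfer.** -/
theorem transfer (u : ℤ → R) (t : ℤ) (j : ℕ)
    (h : ∀ i : ℕ, i < j → (((t + i : ℤ) : R) + 1) ^ 3 * u (t + i + 1) =
      ap ((t + i : ℤ) : R) * u (t + i) - ((t + i : ℤ) : R) ^ 3 * u (t + i - 1)) :
    trD (t : R) j * u (t + j) =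
      (trA R j).eval (t : R) * u t + (trB R j).eval (t : R) * ((t : R) ^ 3 * u (t - 1)) := by
  rcases Nat.eq_zero_or_pos j with rfl | hj
  · simp
  · refine transfer' u t _ ?_ j fun i _ hi => h i hi
    have := h 0 hj
    simpa using this

end Trans

section Rec

variable {F : Type*} [Field F] [CharZero F]

theorem recQ_A : RecQ aperyA := fun n hn => aperyA_rec' n hn
theorem recQ_B : RecQ aperyB := fun n hn => aperyB_rec' n hn

/-- the recurrence of `uz` at all `z ≠ 0, -1` -/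
theorem uz_rec (x x' : F) {z : ℤ} (hz : 1 ≤ z ∨ z ≤ -2) :
    ((z : F) + 1) ^ 3 * uz x x' (z + 1) = ap (z : F) * uz x x' z - (z : F) ^ 3 * uz x x' (z - 1) := by
  have key : ∀ (y : F) (n : ℕ), 1 ≤ n →
      ((n : F) + 1) ^ 3 * ((aperyA (n + 1) : F) * y - (aperyB (n + 1) : F)) =
        ap (n : F) * ((aperyA n : F) * y - (aperyB n : F)) -
        (n : F) ^ 3 * ((aperyA (n - 1) : F) * y - (aperyB (n - 1) : F)) := by
    intro y n hn
    have h1 := congrArg (fun t : ℚ => (t : F)) (recQ_A n hn)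
    have h2 := congrArg (fun t : ℚ => (t : F)) (recQ_B n hn)
    simp only [ap] at h1 h2 ⊢
    push_cast at h1 h2
    linear_combination y * h1 - h2
  rcases hz with hz | hz
  · obtain ⟨n, rfl⟩ : ∃ n : ℕ, z = (n : ℤ) := ⟨z.toNat, by omega⟩
    have hn : 1 ≤ n := by omega
    rw [uz_of_nonneg x x' (z := (n : ℤ) + 1) (n := n + 1) (by push_cast; ring),
      uz_of_nonneg x x' (z := (n : ℤ)) (n := n) rfl,
      uz_of_nonneg x x' (z := (n : ℤ) - 1) (n := n - 1) (by omega)]
    have := key x n hn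
    simpa using this
  · obtain ⟨n, rfl⟩ : ∃ n : ℕ, z = -1 - (n : ℤ) := ⟨(-1 - z).toNat, by omega⟩
    have hn : 1 ≤ n := by omega
    rw [uz_of_neg x x' (z := -1 - (n : ℤ) + 1) (n := n - 1) (by omega),
      uz_of_neg x x' (z := -1 - (n : ℤ)) (n := n) rfl,
      uz_of_neg x x' (z := -1 - (n : ℤ) - 1) (n := n + 1) (by push_cast; ring)]
    have := key x' n hn
    simp only [ap] at this ⊢
    push_cast
    linear_combination -this

omit [CharZero F] in
/-- first step at `0` -/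
theorem uz_one (x x' : F) : uz x x' 1 = 5 * uz x x' 0 - 6 := by
  rw [uz_of_nonneg x x' (z := 1) (n := 1) rfl, uz_of_nonneg x x' (z := 0) (n := 0) rfl,
    aperyA_zero, aperyA_one, aperyB_zero, aperyB_one]
  push_cast
  ring

/-- the second coordinate at a multiple `t` of `p` -/
noncomputable def muz (x x' : F) (t : ℤ) : F :=
  if t = 0 then 6 else (t : F) ^ 3 * uz x x' (t - 1)

/-- **Transfer for `uz`**, right side and left side -/
theorem uz_transfer (x x' : F) (t : ℤ) (j : ℕ) (ht : 0 ≤ t ∨ t + j ≤ -1) :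
    trD (t : F) j * uz x x' (t + j) =
      (trA F j).eval (t : F) * uz x x' t + (trB F j).eval (t : F) * muz x x' t := by
  rcases eq_or_ne t 0 with rfl | ht0
  · refine transfer' (uz x x') 0 _ ?_ j fun i hi hi' => ?_
    · rw [muz, if_pos rfl]
      have := uz_one x x'
      simp only [zero_add, Int.cast_zero, ap]
      rw [this]
      ring
    · exact uz_rec x x' (Or.inl (by omega))
  · rw [muz, if_neg ht0]
    refine transfer (uz x x') t j fun i hi => ?_
    exact uz_rec x x' (by omega)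

end Rec

section Int

variable {p : ℕ} [hp : Fact p.Prime]

theorem int_mem (z : ℤ) : (z : K) ∈ Op p := intCast_mem _ z

theorem eval_mem {S : Subring K} {t : K} (ht : t ∈ S) (q : ℤ[X]) :
    (q.map (Int.castRingHom K)).eval t ∈ S := by
  rw [eval_map, eval₂_eq_sum_range]
  exact S.sum_mem fun i _ => S.mul_mem (intCast_mem S _) (S.pow_mem ht _)

theorem trA_map {R S : Type*} [CommRing R] [CommRing S] (φ : R →+* S) :
    ∀ j, (trA R j).map φ = trA S j
  | 0 => by simp [trA]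
  | 1 => by simp [trA, ap]
  | (j + 2) => by
    rw [trA, trA, Polynomial.map_sub, Polynomial.map_mul, Polynomial.map_mul,
      trA_map φ (j + 1), trA_map φ j]
    simp [ap]

theorem trB_map {R S : Type*} [CommRing R] [CommRing S] (φ : R →+* S) :
    ∀ j, (trB R j).map φ = trB S j
  | 0 => by simp [trB]
  | 1 => by simp [trB]
  | (j + 2) => by
    rw [trB, trB, Polynomial.map_sub, Polynomial.map_mul, Polynomial.map_mul,
      trB_map φ (j + 1), trB_map φ j]
    simp [ap]

/-- `u(z)` is `p`-integral for `-p ≤ z < p` -/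
theorem uz_mem_small (hp2 : p ≠ 2) {x x' : K} (hx : x ∈ Op p) (hx' : x' ∈ Op p) {z : ℤ}
    (h1 : -(p : ℤ) ≤ z) (h2 : z < p) : uz x x' z ∈ Op p := by
  rcases le_or_gt 0 z with hz | hz
  · obtain ⟨n, rfl⟩ : ∃ n : ℕ, z = (n : ℤ) := ⟨z.toNat, by omega⟩
    rw [uz_of_nonneg x x' (n := n) rfl]
    have h := valu_mem' (p := p) hp2 hx (n := n) (n' := n) (m := n) le_rfl
    rw [Nat.log_of_lt (by omega : n < p)] at h
    simpa using h
  · obtain ⟨n, rfl⟩ : ∃ n : ℕ, z = -1 - (n : ℤ) := ⟨(-1 - z).toNat, by omega⟩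
    rw [uz_of_neg x x' (n := n) rfl]
    have h := valu_mem' (p := p) hp2 hx' (n := n) (n' := n) (m := n) le_rfl
    rw [Nat.log_of_lt (by omega : n < p)] at h
    simpa using h

/-- `p^3 u(z)` is `p`-integral for `-p^2 ≤ z < p^2` -/
theorem p3_uz_mem (hp2 : p ≠ 2) {x x' : K} (hx : x ∈ Op p) (hx' : x' ∈ Op p) {z : ℤ}
    (h1 : -(p : ℤ) ^ 2 ≤ z) (h2 : z < (p : ℤ) ^ 2) : (p : K) ^ 3 * uz x x' z ∈ Op p := by
  have hpK : (p : K) ∈ Op p := natCast_mem _ p
  have key : ∀ (y : K), y ∈ Op p → ∀ n : ℕ, n < p ^ 2 →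
      (p : K) ^ 3 * (((aperyA n : ℚ) : K) * y - ((aperyB n : ℚ) : K)) ∈ Op p := by
    intro y hy n hn
    have h := valu_mem' (p := p) hp2 hy (n := n) (n' := n) (m := n) le_rfl
    have hlog : Nat.log p n ≤ 1 := by
      rcases Nat.eq_zero_or_pos n with rfl | hn0
      · simp
      · have := Nat.log_lt_of_lt_pow hn0.ne' hn
        omega
    have e : (p : K) ^ 3 * (((aperyA n : ℚ) : K) * y - ((aperyB n : ℚ) : K)) =
        (p : K) ^ (3 - 3 * Nat.log p n) * ((p : K) ^ (3 * Nat.log p n) *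
          (((aperyA n : ℚ) : K) * y - ((aperyB n : ℚ) : K))) := by
      rw [← mul_assoc, ← pow_add]
      congr 2
      omega
    rw [e]
    exact (Op p).mul_mem ((Op p).pow_mem hpK _) h
  rcases le_or_gt 0 z with hz | hz
  · obtain ⟨n, rfl⟩ : ∃ n : ℕ, z = (n : ℤ) := ⟨z.toNat, by omega⟩
    rw [uz_of_nonneg x x' (n := n) rfl]
    exact key x hx n (by exact_mod_cast h2)
  · obtain ⟨n, rfl⟩ : ∃ n : ℕ, z = -1 - (n : ℤ) := ⟨(-1 - z).toNat, by omega⟩
    rw [uz_of_neg x x' (n := n) rfl]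
    refine key x' hx' n ?_
    have : (n : ℤ) < (p : ℤ) ^ 2 := by linarith
    exact_mod_cast this

/-- `m_k = (pk)^3 u(pk-1)` (`m_0 = 6`) is `p`-integral for `|k| < p` -/
theorem muz_mem (hp2 : p ≠ 2) {x x' : K} (hx : x ∈ Op p) (hx' : x' ∈ Op p) {k : ℤ}
    (h1 : -(p : ℤ) < k) (h2 : k < p) : muz x x' (p * k) ∈ Op p := by
  unfold muz
  split_ifs with h
  · exact_mod_cast natCast_mem (Op p) 6
  · have hp0 : (0 : ℤ) < p := by exact_mod_cast hp.out.pos
    have h3 := p3_uz_mem (p := p) hp2 hx hx' (z := p * k - 1) (by nlinarith) (by nlinarith)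
    have e : (((p * k : ℤ) : ℤ) : K) ^ 3 * uz x x' (p * k - 1) =
        (k : K) ^ 3 * ((p : K) ^ 3 * uz x x' (p * k - 1)) := by
      push_cast
      ring
    rw [e]
    exact (Op p).mul_mem ((Op p).pow_mem (int_mem k) _) h3

/-- integers prime to `p` are units of `Op p` -/
theorem inv_int_mem {z : ℤ} (hz : ¬ (p : ℤ) ∣ z) : ((z : K))⁻¹ ∈ Op p := by
  have e : ((z : K))⁻¹ = algebraMap ℚ K ((z : ℚ)⁻¹) := by
    rw [map_inv₀, map_intCast]
  rw [e]
  apply algebraMap_mem
  have hz0 : (z : ℚ) ≠ 0 := by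
    intro h
    exact hz (by rw [Int.cast_eq_zero.1 h]; exact dvd_zero _)
  have h1 : padicNorm p (z : ℚ) * padicNorm p ((z : ℚ)⁻¹) = 1 := by
    rw [← padicNorm.mul, mul_inv_cancel₀ hz0, padicNorm.one]
  rw [(padicNorm.int_eq_one_iff z).2 hz, one_mul] at h1
  exact h1.le

/-- `D_j(pk)` is a unit of `Op p` for `j < p` -/
theorem trD_mem (k : ℤ) (j : ℕ) : trD (((p * k : ℤ) : ℤ) : K) j ∈ Op p := by
  unfold trD
  exact (Op p).prod_mem fun i _ => (Op p).pow_mem
    ((Op p).add_mem (int_mem _) (natCast_mem _ _)) _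

omit hp in
theorem not_dvd_add {k : ℤ} {i : ℕ} (h1 : 1 ≤ i) (h2 : i < p) : ¬ (p : ℤ) ∣ (p * k + i : ℤ) := by
  intro h
  have h3 : (p : ℤ) ∣ (i : ℤ) := by
    have := dvd_sub h (dvd_mul_right (p : ℤ) k)
    simpa using this
  have h4 := Nat.le_of_dvd h1 (Int.natCast_dvd_natCast.1 h3)
  omega

theorem trD_inv_mem (k : ℤ) {j : ℕ} (hj : j < p) : (trD (((p * k : ℤ) : ℤ) : K) j)⁻¹ ∈ Op p := by
  unfold trD
  rw [← Finset.prod_inv_distrib]
  refine (Op p).prod_mem fun i hi => ?_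
  rw [mem_range] at hi
  rw [← inv_pow]
  refine (Op p).pow_mem ?_ _
  have := inv_int_mem (p := p) (not_dvd_add (p := p) (k := k) (i := i + 1) (by omega) (by omega))
  simpa using this

omit hp in
theorem trD_ne (k : ℤ) {j : ℕ} (hj : j < p) : trD (((p * k : ℤ) : ℤ) : K) j ≠ 0 := by
  unfold trD
  refine Finset.prod_ne_zero_iff.2 fun i hi => ?_
  rw [mem_range] at hi
  refine pow_ne_zero _ ?_
  have h0 : (p * k + (i + 1 : ℕ) : ℤ) ≠ 0 := fun h =>
    not_dvd_add (p := p) (k := k) (i := i + 1) (by omega) (by omega) (by rw [h]; exact dvd_zero _)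
  have : ((p * k + (i + 1 : ℕ) : ℤ) : K) ≠ 0 := by exact_mod_cast h0
  simpa using this

/-- `p^3 u(pk)` is `p`-integral for `|k| < p` -/
theorem p3_uz_mul_mem (hp2 : p ≠ 2) {x x' : K} (hx : x ∈ Op p) (hx' : x' ∈ Op p) {k : ℤ}
    (h1 : -(p : ℤ) < k) (h2 : k < p) : (p : K) ^ 3 * uz x x' (p * k) ∈ Op p := by
  have hp0 : (0 : ℤ) < p := by exact_mod_cast hp.out.pos
  exact p3_uz_mem hp2 hx hx' (by nlinarith) (by nlinarith)

/-- **Value rows**, class `c < p`, `n = c + pk`. -/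
theorem row_value {x x' : K} {k : ℤ} {c : ℕ} (hk : 0 ≤ k ∨ (p * k : ℤ) + c ≤ -2) (P Q : K) :
    trD ((p : K) * k) c * (P * uz x x' (p * k + c) +
        ((c : K) + p * k + 1) ^ 3 * Q * uz x x' (p * k + c + 1)) =
      (P * (trA K c).eval ((p : K) * k) + Q * (trA K (c + 1)).eval ((p : K) * k)) *
          uz x x' (p * k)
        + (P * (trB K c).eval ((p : K) * k) + Q * (trB K (c + 1)).eval ((p : K) * k)) *
          muz x x' (p * k) := by
  have hp0 : (0 : ℤ) < p := by exact_mod_cast hp.out.pos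
  have hcase : 0 ≤ (p * k : ℤ) ∨ (p * k : ℤ) + ((c + 1 : ℕ) : ℤ) ≤ -1 := by
    rcases hk with hk | hk
    · exact Or.inl (mul_nonneg hp0.le hk)
    · right
      push_cast
      linarith
  have h1 := uz_transfer x x' (p * k : ℤ) (c + 1) hcase
  have h0 := uz_transfer x x' (p * k : ℤ) c (by
    rcases hcase with h | h
    · exact Or.inl h
    · right; push_cast at h; linarith)
  have e1 : (p * k : ℤ) + ((c + 1 : ℕ) : ℤ) = p * k + c + 1 := by push_cast; ring
  have e2 : ((p * k : ℤ) : K) = (p : K) * k := by push_cast; ring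
  rw [e1, e2] at h1
  rw [e2] at h0
  have d := trD_succ ((p : K) * k) c
  rw [d] at h1
  push_cast at h1
  linear_combination P * h0 + Q * h1

theorem trD_mem' (k : ℤ) (j : ℕ) : trD ((p : K) * k) j ∈ Op p := by
  have := trD_mem (p := p) k j
  push_cast at this
  exact this

theorem trD_inv_mem' (k : ℤ) {j : ℕ} (hj : j < p) : (trD ((p : K) * k) j)⁻¹ ∈ Op p := by
  have := trD_inv_mem (p := p) k hj
  push_cast at this
  exact this

theorem trD_ne' (k : ℤ) {j : ℕ} (hj : j < p) : trD ((p : K) * k) j ≠ 0 := by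
  have := trD_ne (p := p) k hj
  push_cast at this
  exact this

theorem trA_eval_mem {t : K} (ht : t ∈ Op p) (j : ℕ) : (trA K j).eval t ∈ Op p := by
  rw [← trA_map (Int.castRingHom K) j]
  exact eval_mem ht _

theorem trB_eval_mem {t : K} (ht : t ∈ Op p) (j : ℕ) : (trB K j).eval t ∈ Op p := by
  rw [← trB_map (Int.castRingHom K) j]
  exact eval_mem ht _

/-- coefficient of the rank one terms of the value row `n = c + pk` -/
noncomputable def xrow (p : ℕ) (x x' : K) (c : ℕ) (k : ℤ) : K :=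
  (trD ((p : K) * k) c)⁻¹ * ((p : K) ^ 3 * uz x x' (p * k))

theorem xrow_mem (hp2 : p ≠ 2) {x x' : K} (hx : x ∈ Op p) (hx' : x' ∈ Op p) {c : ℕ} (hc : c < p)
    {k : ℤ} (h1 : -(p : ℤ) < k) (h2 : k < p) : xrow p x x' c k ∈ Op p :=
  (Op p).mul_mem (trD_inv_mem' k hc) (p3_uz_mul_mem hp2 hx hx' h1 h2)

/-- **Value of a nice pair** at `n = c + pk`: rank one terms plus an integral term. -/
theorem nice_value (hp2 : p ≠ 2) {x x' : K} (hx : x ∈ Op p) (hx' : x' ∈ Op p) {c : ℕ}
    (hc : c < p) {k : ℤ} (h1 : -(p : ℤ) < k) (h2 : k < p)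
    (hk : 0 ≤ k ∨ (p * k : ℤ) + c ≤ -2) {P Q : K[X]}
    (hP : P.eval ((c : K) + p * k) ∈ Op p) (hQ : Q.eval ((c : K) + p * k) ∈ Op p)
    {h0' h1' h2' r : K} (hr : r ∈ Op p)
    (h : P.eval ((c : K) + p * k) * (trA K c).eval ((p : K) * k)
      + Q.eval ((c : K) + p * k) * (trA K (c + 1)).eval ((p : K) * k)
      = h0' + h1' * (p * k) + h2' * (p * k) ^ 2 + p ^ 3 * r) :
    ∃ B ∈ Op p, (p : K) ^ 3 * (P.eval ((c : K) + p * k) * uz x x' (p * k + c) +
        ((X + 1) ^ 3 * Q).eval ((c : K) + p * k) * uz x x' (p * k + c + 1)) =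
      xrow p x x' c k * h0' + p * ((k * xrow p x x' c k) * h1')
        + p ^ 2 * ((k ^ 2 * xrow p x x' c k) * h2') + p ^ 3 * B := by
  have hpk : (p : K) * k ∈ Op p := (Op p).mul_mem (natCast_mem _ p) (int_mem k)
  have hne := trD_ne' (p := p) k hc
  refine ⟨r * xrow p x x' c k + (trD ((p : K) * k) c)⁻¹ *
    ((P.eval ((c : K) + p * k) * (trB K c).eval ((p : K) * k)
      + Q.eval ((c : K) + p * k) * (trB K (c + 1)).eval ((p : K) * k)) * muz x x' (p * k)),
    ?_, ?_⟩
  · refine (Op p).add_mem ((Op p).mul_mem hr (xrow_mem hp2 hx hx' hc h1 h2)) ?_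
    refine (Op p).mul_mem (trD_inv_mem' k hc) ((Op p).mul_mem ?_ (muz_mem hp2 hx hx' h1 h2))
    exact (Op p).add_mem ((Op p).mul_mem hP (trB_eval_mem hpk _))
      ((Op p).mul_mem hQ (trB_eval_mem hpk _))
  · have key := row_value (p := p) (x := x) (x' := x') (k := k) (c := c) hk
      (P.eval ((c : K) + p * k)) (Q.eval ((c : K) + p * k))
    rw [h] at key
    have e3 : ((X + 1) ^ 3 * Q).eval ((c : K) + p * k) =
        ((c : K) + p * k + 1) ^ 3 * Q.eval ((c : K) + p * k) := by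
      simp
    rw [e3]
    apply mul_left_cancel₀ hne
    have hx0 : trD ((p : K) * k) c * xrow p x x' c k = (p : K) ^ 3 * uz x x' (p * k) := by
      rw [xrow, mul_inv_cancel_left₀ hne]
    have hi : trD ((p : K) * k) c * (trD ((p : K) * k) c)⁻¹ = 1 := mul_inv_cancel₀ hne
    set m := muz x x' (p * k)
    set T := P.eval ((c : K) + p * k) * (trB K c).eval ((p : K) * k)
      + Q.eval ((c : K) + p * k) * (trB K (c + 1)).eval ((p : K) * k)
    linear_combination (p : K) ^ 3 * key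
      - (h0' + p * k * h1' + p ^ 2 * k ^ 2 * h2' + p ^ 3 * r) * hx0
      - (p : K) ^ 3 * T * m * hi

end Int

end QS2.Cls
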