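import Pool.Agent.QS2.ClsDefs

/-!
# QS2, odd class rule: small lemmas for the base change

* `unit_mul`, `unit_star`, `alpha_sub_unit` : units of `Op p`;
* `sum_kd` : the sum of the exponents of the scaled columns.
-/

set_option autoImplicit false

namespace QS2.Cls

open Polynomial Finset

section Units

variable {p : ℕ} [Fact p.Prime]

theorem unit_mul {a b : K} (ha : UnitOp p a) (hb : UnitOp p b) : UnitOp p (a * b) := by
  refine ⟨mul_ne_zero ha.1 hb.1, (Op p).mul_mem ha.2.1 hb.2.1, ?_⟩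
  rw [mul_inv]
  exact (Op p).mul_mem ha.2.2 hb.2.2

theorem star_mem_Op {a : K} (ha : a ∈ Op p) : starRingEnd K a ∈ Op p := by
  rw [mem_Op] at ha ⊢
  have h1 : (starRingEnd K a).re = a.re := by
    rw [starRingEnd_apply, QuadraticAlgebra.re_star]
    simp
  have h2 : (starRingEnd K a).im = -a.im := by
    rw [starRingEnd_apply, QuadraticAlgebra.im_star]
  rw [h1, h2, padicNorm.neg]
  exact ha

theorem unit_star {a : K} (ha : UnitOp p a) : UnitOp p (starRingEnd K a) := by
  refine ⟨?_, star_mem_Op ha.2.1, ?_⟩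
  · intro h
    exact ha.1 ((map_eq_zero (starRingEnd K)).1 h)
  · rw [← map_inv₀]
    exact star_mem_Op ha.2.2

theorem unit_pow {a : K} (ha : UnitOp p a) (n : ℕ) : UnitOp p (a ^ n) := by
  refine ⟨pow_ne_zero _ ha.1, (Op p).pow_mem ha.2.1 n, ?_⟩
  rw [← inv_pow]
  exact (Op p).pow_mem ha.2.2 n

theorem unit_one : UnitOp p (1 : K) :=
  ⟨one_ne_zero, (Op p).one_mem, by rw [inv_one]; exact (Op p).one_mem⟩

theorem unit_neg {a : K} (ha : UnitOp p a) : UnitOp p (-a) := by
  refine ⟨neg_ne_zero.2 ha.1, (Op p).neg_mem ha.2.1, ?_⟩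
  rw [inv_neg]
  exact (Op p).neg_mem ha.2.2

theorem unit_prod {ι : Type*} (s : Finset ι) (f : ι → K) (h : ∀ i ∈ s, UnitOp p (f i)) :
    UnitOp p (∏ i ∈ s, f i) := by
  classical
  induction s using Finset.induction_on with
  | empty => rw [Finset.prod_empty]; exact unit_one
  | insert a s ha ih =>
    rw [Finset.prod_insert ha]
    exact unit_mul (h a (Finset.mem_insert_self a s))
      (ih (fun i hi => h i (Finset.mem_insert_of_mem hi)))

/-- `alpha - star alpha = -24 √2` is a unit for `p ≥ 5` -/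
theorem alpha_sub_unit (p : ℕ) [Fact p.Prime] (hp5 : 5 ≤ p) :
    UnitOp p (alpha - starRingEnd K alpha) := by
  have hp : p.Prime := Fact.out
  have h0 : alpha - starRingEnd K alpha = (⟨0, -24⟩ : K) := by
    rw [starRingEnd_apply]
    ext
    · rw [QuadraticAlgebra.re_sub, QuadraticAlgebra.re_star]
      simp [alpha]
    · rw [QuadraticAlgebra.im_sub, QuadraticAlgebra.im_star]
      simp only [alpha]
      norm_num
  have h1 : (⟨0, -24⟩ : K) * ⟨0, -1 / 48⟩ = 1 := by
    ext
    · rw [QuadraticAlgebra.re_mul, QuadraticAlgebra.re_one]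
      norm_num
    · rw [QuadraticAlgebra.im_mul, QuadraticAlgebra.im_one]
      norm_num
  have hinv : (⟨0, -24⟩ : K)⁻¹ = ⟨0, -1 / 48⟩ := inv_eq_of_mul_eq_one_right h1
  have hne : (⟨0, -24⟩ : K) ≠ 0 := left_ne_zero_of_mul_eq_one h1
  have hpd : ¬ p ∣ 48 := by
    intro h
    have h2 : p ∣ 2 ^ 4 * 3 := by simpa using h
    rcases (Nat.Prime.dvd_mul hp).1 h2 with h3 | h3
    · have := Nat.le_of_dvd (by norm_num) (hp.dvd_of_dvd_pow h3)
      omega
    · have := Nat.le_of_dvd (by norm_num) h3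
      omega
  have h48 : padicNorm p (48 : ℚ) = 1 := by
    have := (padicNorm.nat_eq_one_iff (p := p) 48).2 hpd
    simpa using this
  rw [h0]
  refine ⟨hne, ?_, ?_⟩
  · rw [mem_Op]
    constructor
    · simp
    · have := padicNorm.of_int (p := p) (-24)
      simpa using this
  · rw [hinv, mem_Op]
    constructor
    · simp
    · change padicNorm p (-1 / 48 : ℚ) ≤ 1
      rw [padicNorm.div, h48]
      simp

end Units

/-! ## Sums of the exponents -/

theorem sum_shift_ind (p a N : ℕ) :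
    ∑ D ∈ range N, (if a ≤ D then (D - a) / p else 0) = Sfl p (N - a) := by
  unfold Sfl
  rcases Nat.lt_or_ge N a with h | h
  · rw [Nat.sub_eq_zero_of_le h.le, Finset.range_zero, Finset.sum_empty]
    refine Finset.sum_eq_zero (fun D hD => ?_)
    rw [if_neg]
    have := Finset.mem_range.1 hD
    omega
  · obtain ⟨m, rfl⟩ := Nat.exists_eq_add_of_le h
    rw [Nat.add_sub_cancel_left, Finset.sum_range_add]
    rw [Finset.sum_eq_zero (s := range a), zero_add]
    · refine Finset.sum_congr rfl (fun D _ => ?_)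
      rw [if_pos (Nat.le_add_right a D), Nat.add_sub_cancel_left]
    · intro D hD
      rw [if_neg]
      have := Finset.mem_range.1 hD
      omega

theorem sum_kd (p M c : ℕ) (hMc : M ≤ c) (_hM : dg p + 3 ≤ M) :
    ∑ D : Fin c, ((if dg p + 3 ≤ (D : ℕ) then ((D : ℕ) - (dg p + 3)) / p else 0)
      + (if dg p + 3 ≤ (D : ℕ) ∧ (D : ℕ) < M then ((D : ℕ) - (dg p + 3)) / p else 0))
      = Sfl p (M - (dg p + 3)) + Sfl p (c - (dg p + 3)) := by
  rw [Fin.sum_univ_eq_sum_range (fun D => (if dg p + 3 ≤ D then (D - (dg p + 3)) / p else 0)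
      + (if dg p + 3 ≤ D ∧ D < M then (D - (dg p + 3)) / p else 0)) c]
  rw [Finset.sum_add_distrib, sum_shift_ind, add_comm]
  congr 1
  rw [← sum_shift_ind p (dg p + 3) M]
  obtain ⟨m, rfl⟩ := Nat.exists_eq_add_of_le hMc
  rw [Finset.sum_range_add]
  have h2 : ∑ x ∈ range m, (if dg p + 3 ≤ M + x ∧ M + x < M then (M + x - (dg p + 3)) / p else 0)
      = 0 := by
    refine Finset.sum_eq_zero (fun D _ => ?_)
    rw [if_neg]
    omega
  rw [h2, add_zero]
  refine Finset.sum_congr rfl (fun D hD => ?_)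
  have hD' := Finset.mem_range.1 hD
  by_cases h : dg p + 3 ≤ D
  · rw [if_pos h, if_pos ⟨h, hD'⟩]
  · rw [if_neg h, if_neg (fun h' => h h'.1)]

end QS2.Cls
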