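import Pool.Agent.QS2.CountStep

/-!
The denominator of order `M` has exactly three roots in each disc around `-k - 1/2`,
`1 ≤ k ≤ M`.
-/

namespace Pool.QS2

open Real Polynomial Filter

/-- the points outside all discs of radius `0.44` -/
def Good (z : ℂ) : Prop := ∀ k : ℕ, 1 ≤ k → 11 / 25 ≤ ‖z + k + 1 / 2‖

lemma good_of_annulus {z : ℂ} {j : ℤ} (h1 : 9 / 20 ≤ ‖z + j + 1 / 2‖)
    (h2 : ‖z + j + 1 / 2‖ ≤ 11 / 20) : Good z := by
  intro k hk
  by_cases hkj : (k : ℤ) = j
  · subst hkj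
    push_cast at h1
    linarith
  · have h3 : (1 : ℝ) ≤ ‖((k : ℂ) - (j : ℂ))‖ := by
      have : ((k : ℂ) - (j : ℂ)) = (((k : ℤ) - j : ℤ) : ℂ) := by push_cast; ring
      rw [this, Complex.norm_intCast]
      have h4 : (k : ℤ) - j ≠ 0 := sub_ne_zero.2 hkj
      exact_mod_cast Int.one_le_abs h4
    have h5 : ‖((k : ℂ) - (j : ℂ))‖ ≤ ‖z + k + 1 / 2‖ + ‖z + j + 1 / 2‖ := by
      have := norm_sub_le (z + k + 1 / 2) (z + j + 1 / 2)
      rwa [show z + k + 1 / 2 - (z + j + 1 / 2) = (k : ℂ) - j by ring] at this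
    linarith

lemma good_of_disc {z : ℂ} (h : ‖z + 1 / 2‖ ≤ 11 / 20) : Good z := by
  intro k hk
  have h3 : (1 : ℝ) ≤ ‖(k : ℂ)‖ := by
    rw [Complex.norm_natCast]
    exact_mod_cast hk
  have h5 : ‖(k : ℂ)‖ ≤ ‖z + k + 1 / 2‖ + ‖z + 1 / 2‖ := by
    have := norm_sub_le (z + k + 1 / 2) (z + 1 / 2)
    rwa [show z + k + 1 / 2 - (z + 1 / 2) = (k : ℂ) by ring] at this
  linarith

theorem count_main (B : ℕ → ℂ[X]) (r : ℕ → ℂ → ℂ) (hB : ∀ M, B M ≠ 0)
    (h0 : (B 0).roots = 0)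
    (hG : ∀ M z, Good z → (B M).eval z ≠ 0 ∧ ‖r M z‖ ≤ 1 / 5)
    (hrec : ∀ M z, (B M).eval (z + 1) ≠ 0 → (B (M + 1)).eval z = (B M).eval (z + 1) *
      ((2 * (z + 1) + 1) * (17 * (z + 1) ^ 2 + 17 * (z + 1) + 5) - (z + 2) ^ 3 * r M (z + 1))) :
    ∀ M k : ℕ, 1 ≤ k → cnt (B M).roots (-(k : ℂ) - 1 / 2) (9 / 20) = if k ≤ M then 3 else 0 := by
  intro M
  induction M with
  | zero =>
    intro k hk
    rw [h0, if_neg (by omega)]
    rfl
  | succ M ih =>
    intro k hk
    have hstep : cnt (B (M + 1)).roots (-(k : ℂ) - 1 / 2) (9 / 20) =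
        cnt (B M).roots (-(k : ℂ) - 1 / 2 + 1) (9 / 20) +
          cnt rootsP (-(k : ℂ) - 1 / 2 + 1) (9 / 20) := by
      refine count_step (hB M) (hB (M + 1)) ?_ ?_ ?_ ?_
      · intro z h1 h2
        refine (hG (M + 1) z (good_of_annulus (j := k) ?_ ?_)).1
        · push_cast
          rwa [show z + k + 1 / 2 = z - (-(k : ℂ) - 1 / 2) by ring]
        · push_cast
          rwa [show z + k + 1 / 2 = z - (-(k : ℂ) - 1 / 2) by ring]
      · intro z h1 h2
        refine (hG M z (good_of_annulus (j := (k : ℤ) - 1) ?_ ?_)).1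
        · push_cast
          rwa [show z + (k - 1) + 1 / 2 = z - (-(k : ℂ) - 1 / 2 + 1) by ring]
        · push_cast
          rwa [show z + (k - 1) + 1 / 2 = z - (-(k : ℂ) - 1 / 2 + 1) by ring]
      · intro b hb
        have hb' := norm_rootsP hb
        rcases Nat.eq_or_lt_of_le hk with h | h
        · left
          rw [← h]
          rw [show b - (-((1 : ℕ) : ℂ) - 1 / 2 + 1) = b + 1 / 2 by push_cast; ring]
          linarith
        · right
          have h3 : (1 : ℝ) ≤ ‖((k : ℂ) - 1)‖ := by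
            have : ((k : ℂ) - 1) = (((k : ℤ) - 1 : ℤ) : ℂ) := by push_cast; ring
            rw [this, Complex.norm_intCast]
            have h4 : (k : ℤ) - 1 ≠ 0 := by omega
            exact_mod_cast Int.one_le_abs h4
          have h5 : ‖((k : ℂ) - 1)‖ ≤ ‖b - (-(k : ℂ) - 1 / 2 + 1)‖ + ‖b + 1 / 2‖ := by
            have := norm_sub_le (b - (-(k : ℂ) - 1 / 2 + 1)) (b + 1 / 2)
            rwa [show b - (-(k : ℂ) - 1 / 2 + 1) - (b + 1 / 2) = (k : ℂ) - 1 by ring] at this
          linarith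
      · intro z hz
        have hzz : 9 / 20 ≤ ‖z - (-(k : ℂ) - 1 / 2)‖ ∧ ‖z - (-(k : ℂ) - 1 / 2)‖ ≤ 11 / 20 := by
          rcases hz with h | h <;> rw [h] <;> norm_num
        have hgood1 : Good (z + 1) := by
          refine good_of_annulus (j := (k : ℤ) - 1) ?_ ?_
          · push_cast
            rw [show z + 1 + (k - 1) + 1 / 2 = z - (-(k : ℂ) - 1 / 2) by ring]
            exact hzz.1
          · push_cast
            rw [show z + 1 + (k - 1) + 1 / 2 = z - (-(k : ℂ) - 1 / 2) by ring]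
            exact hzz.2
        obtain ⟨g1, g2⟩ := hG M (z + 1) hgood1
        have hr := hrec M z g1
        -- the distance from `z + 1` to `-1/2`
        have hx : 9 / 20 ≤ ‖z + 1 + 1 / 2‖ := by
          rcases Nat.eq_or_lt_of_le hk with h | h
          · have h6 := hzz.1
            rw [← h] at h6
            rwa [show z - (-((1 : ℕ) : ℂ) - 1 / 2) = z + 1 + 1 / 2 by push_cast; ring] at h6
          · have h3 : (1 : ℝ) ≤ ‖((k : ℂ) - 1)‖ := by
              have : ((k : ℂ) - 1) = (((k : ℤ) - 1 : ℤ) : ℂ) := by push_cast; ring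
              rw [this, Complex.norm_intCast]
              have h4 : (k : ℤ) - 1 ≠ 0 := by omega
              exact_mod_cast Int.one_le_abs h4
            have h5 : ‖((k : ℂ) - 1)‖ ≤ ‖z - (-(k : ℂ) - 1 / 2)‖ + ‖z + 1 + 1 / 2‖ := by
              have := norm_sub_le (z - (-(k : ℂ) - 1 / 2)) (z + 1 + 1 / 2)
              rwa [show z - (-(k : ℂ) - 1 / 2) - (z + 1 + 1 / 2) = (k : ℂ) - 1 by ring] at this
            linarith [hzz.2]
        set Pz := (2 * (z + 1) + 1) * (17 * (z + 1) ^ 2 + 17 * (z + 1) + 5) with hPz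
        have hP1 : 2 * ‖z + 1 + 1 / 2‖ * (17 * ‖z + 1 + 1 / 2‖ ^ 2 - 3 / 4) ≤ ‖Pz‖ :=
          normP_ge (z + 1)
        have hrb := ratio_bound hx
        have hPpos : 0 < ‖Pz‖ := by
          refine lt_of_lt_of_le ?_ hP1
          have : (9 / 20 : ℝ) ^ 2 ≤ ‖z + 1 + 1 / 2‖ ^ 2 := by gcongr
          have h7 : 0 < 17 * ‖z + 1 + 1 / 2‖ ^ 2 - 3 / 4 := by nlinarith
          have h8 : 0 < ‖z + 1 + 1 / 2‖ := by linarith
          positivity
        have hPne : Pz ≠ 0 := norm_pos_iff.1 hPpos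
        refine ⟨(z + 2) ^ 3 * r M (z + 1) / Pz, ?_, ?_⟩
        · rw [norm_div, div_le_iff₀ hPpos, norm_mul, norm_pow]
          have h9 : ‖z + 2‖ ≤ ‖z + 1 + 1 / 2‖ + 1 / 2 := by
            have := norm_add_le (z + 1 + 1 / 2) (1 / 2 : ℂ)
            rw [show z + 1 + 1 / 2 + 1 / 2 = z + 2 by ring] at this
            norm_num at this ⊢
            linarith
          calc ‖z + 2‖ ^ 3 * ‖r M (z + 1)‖ ≤ (‖z + 1 + 1 / 2‖ + 1 / 2) ^ 3 * (1 / 5) := by
                gcongr
            _ ≤ 71 / 1000 * (2 * ‖z + 1 + 1 / 2‖ * (17 * ‖z + 1 + 1 / 2‖ ^ 2 - 3 / 4)) := hrb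
            _ ≤ 71 / 1000 * ‖Pz‖ := by gcongr
        · rw [hr]
          field_simp
    rw [hstep]
    rcases Nat.eq_or_lt_of_le hk with h | h
    · -- k = 1
      rw [← h]
      have e1 : (-((1 : ℕ) : ℂ) - 1 / 2 + 1) = -1 / 2 := by push_cast; ring
      rw [e1, if_pos (by omega)]
      have z1 : cnt (B M).roots (-1 / 2) (9 / 20) = 0 := by
        unfold cnt
        rw [Multiset.countP_eq_zero]
        intro a ha hlt
        refine (hG M a (good_of_disc ?_)).1 (isRoot_of_mem_roots ha)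
        rw [show a - -1 / 2 = a + 1 / 2 by ring] at hlt
        linarith
      have z2 : cnt rootsP (-1 / 2) (9 / 20) = 3 := by
        have : cnt rootsP (-1 / 2) (9 / 20) = Multiset.card rootsP := by
          unfold cnt
          rw [Multiset.countP_eq_card]
          intro a ha
          rw [show a - -1 / 2 = a + 1 / 2 by ring]
          have := norm_rootsP ha
          linarith
        rw [this]
        simp [rootsP]
      rw [z1, z2]
    · -- k ≥ 2
      have e1 : (-(k : ℂ) - 1 / 2 + 1) = -((k - 1 : ℕ) : ℂ) - 1 / 2 := by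
        rw [Nat.cast_sub hk]
        push_cast
        ring
      rw [e1, ih (k - 1) (by omega)]
      have z2 : cnt rootsP (-((k - 1 : ℕ) : ℂ) - 1 / 2) (9 / 20) = 0 := by
        unfold cnt
        rw [Multiset.countP_eq_zero]
        intro a ha hlt
        have ha' := norm_rootsP ha
        have h3 : (1 : ℝ) ≤ ‖((k - 1 : ℕ) : ℂ)‖ := by
          rw [Complex.norm_natCast]
          have : 1 ≤ k - 1 := by omega
          exact_mod_cast this
        have h5 : ‖((k - 1 : ℕ) : ℂ)‖ ≤ ‖a - (-((k - 1 : ℕ) : ℂ) - 1 / 2)‖ + ‖a + 1 / 2‖ := by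
          have := norm_sub_le (a - (-((k - 1 : ℕ) : ℂ) - 1 / 2)) (a + 1 / 2)
          rwa [show a - (-((k - 1 : ℕ) : ℂ) - 1 / 2) - (a + 1 / 2) = ((k - 1 : ℕ) : ℂ) by ring]
            at this
        linarith
      rw [z2, add_zero]
      by_cases hkM : k ≤ M + 1
      · rw [if_pos (by omega), if_pos hkM]
      · rw [if_neg (by omega), if_neg hkM]

end Pool.QS2
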