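import Pool.Agent.QS2.RootCount

/-!
One step of the count of the roots of the denominators of the convergents.
-/

namespace Pool.QS2

open Real Polynomial Filter

lemma cnt_map_sub_one (s : Multiset ℂ) (c : ℂ) (r : ℝ) :
    cnt (s.map (fun b => b - 1)) c r = cnt s (c + 1) r := by
  unfold cnt
  rw [Multiset.countP_map, Multiset.countP_eq_card_filter]
  congr 2
  ext x
  rw [show x - 1 - c = x - (c + 1) by ring]

lemma cnt_add (s t : Multiset ℂ) (c : ℂ) (r : ℝ) : cnt (s + t) c r = cnt s c r + cnt t c r := by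
  unfold cnt
  exact Multiset.countP_add _ _ _

lemma eval_roots (B : ℂ[X]) (z : ℂ) :
    B.eval z = B.leadingCoeff * (B.roots.map (fun a => z - a)).prod := by
  have h := (IsAlgClosed.splits B).eval_eq_prod_roots z
  exact h

/-- the roots of `(2w+1)(17w^2+17w+5)` -/
noncomputable def rootsP : Multiset ℂ :=
  {(-1 / 2 : ℂ), -1 / 2 + Real.sqrt (3 / 68) * Complex.I, -1 / 2 - Real.sqrt (3 / 68) * Complex.I}

lemma prod_rootsP (z : ℂ) :
    (2 * z + 1) * (17 * z ^ 2 + 17 * z + 5) = 34 * (rootsP.map (fun a => z - a)).prod := by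
  have h : ((Real.sqrt (3 / 68) : ℝ) : ℂ) * (Real.sqrt (3 / 68) : ℝ) = 3 / 68 := by
    rw [← Complex.ofReal_mul, Real.mul_self_sqrt (by norm_num)]
    norm_num
  have hI : Complex.I * Complex.I = -1 := Complex.I_mul_I
  simp only [rootsP, Multiset.insert_eq_cons, Multiset.map_cons, Multiset.map_singleton,
    Multiset.prod_cons, Multiset.prod_singleton]
  have e : (z - (-1 / 2 + (Real.sqrt (3 / 68) : ℝ) * Complex.I)) *
      (z - (-1 / 2 - (Real.sqrt (3 / 68) : ℝ) * Complex.I)) = (z + 1 / 2) ^ 2 + 3 / 68 := by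
    have : ((Real.sqrt (3 / 68) : ℝ) * Complex.I) * ((Real.sqrt (3 / 68) : ℝ) * Complex.I) =
        -(3 / 68 : ℂ) := by
      calc _ = (((Real.sqrt (3 / 68) : ℝ) : ℂ) * (Real.sqrt (3 / 68) : ℝ)) *
          (Complex.I * Complex.I) := by ring
        _ = _ := by rw [h, hI]; ring
    linear_combination -this
  rw [e]
  ring

lemma norm_rootsP {b : ℂ} (hb : b ∈ rootsP) : ‖b + 1 / 2‖ < 1 / 4 := by
  simp only [rootsP, Multiset.insert_eq_cons, Multiset.mem_cons, Multiset.mem_singleton] at hb
  have hs : Real.sqrt (3 / 68) < 1 / 4 := by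
    rw [Real.sqrt_lt' (by norm_num)]
    norm_num
  have hs0 : 0 ≤ Real.sqrt (3 / 68) := Real.sqrt_nonneg _
  rcases hb with rfl | rfl | rfl
  · norm_num
  · rw [show (-1 / 2 + (Real.sqrt (3 / 68) : ℝ) * Complex.I + 1 / 2 : ℂ) =
      (Real.sqrt (3 / 68) : ℝ) * Complex.I by ring, norm_mul, Complex.norm_I, mul_one,
      Complex.norm_real, Real.norm_of_nonneg hs0]
    exact hs
  · rw [show (-1 / 2 - (Real.sqrt (3 / 68) : ℝ) * Complex.I + 1 / 2 : ℂ) =
      -((Real.sqrt (3 / 68) : ℝ) * Complex.I) by ring, norm_neg, norm_mul, Complex.norm_I, mul_one,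
      Complex.norm_real, Real.norm_of_nonneg hs0]
    exact hs


/-- the elementary inequality behind the count: the correction term is at most `0.071` of `P` -/
lemma ratio_bound {x : ℝ} (hx : 9 / 20 ≤ x) :
    (x + 1 / 2) ^ 3 * (1 / 5) ≤ 71 / 1000 * (2 * x * (17 * x ^ 2 - 3 / 4)) := by
  nlinarith [mul_nonneg (sub_nonneg.2 hx) (sub_nonneg.2 hx),
    mul_nonneg (mul_nonneg (sub_nonneg.2 hx) (sub_nonneg.2 hx)) (sub_nonneg.2 hx)]

lemma normP_ge (z : ℂ) : 2 * ‖z + 1 / 2‖ * (17 * ‖z + 1 / 2‖ ^ 2 - 3 / 4) ≤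
    ‖(2 * z + 1) * (17 * z ^ 2 + 17 * z + 5)‖ := by
  have e1 : (2 * z + 1) * (17 * z ^ 2 + 17 * z + 5) =
      2 * (z + 1 / 2) * (17 * (z + 1 / 2) ^ 2 + 3 / 4) := by ring
  rw [e1, norm_mul, norm_mul]
  have e2 : 17 * ‖z + 1 / 2‖ ^ 2 - 3 / 4 ≤ ‖17 * (z + 1 / 2) ^ 2 + 3 / 4‖ := by
    have := norm_sub_norm_le (17 * (z + 1 / 2) ^ 2) (-(3 / 4 : ℂ))
    rw [sub_neg_eq_add, norm_neg, norm_mul, norm_pow] at this
    norm_num at this ⊢
    linarith
  have e3 : ‖(2 : ℂ)‖ = 2 := by norm_num
  rw [e3]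
  have : 0 ≤ 2 * ‖z + 1 / 2‖ := by positivity
  exact mul_le_mul_of_nonneg_left e2 this

/-- One step of the count. `B'` is the denominator of order `M+1`, `B` the one of order `M`,
`q` the relative correction. -/
theorem count_step {B B' : ℂ[X]} (hB : B ≠ 0) (hB' : B' ≠ 0) {c : ℂ}
    (hz' : ∀ z, 9 / 20 ≤ ‖z - c‖ → ‖z - c‖ ≤ 11 / 20 → B'.eval z ≠ 0)
    (hz : ∀ z, 9 / 20 ≤ ‖z - (c + 1)‖ → ‖z - (c + 1)‖ ≤ 11 / 20 → B.eval z ≠ 0)
    (hc : ∀ b ∈ rootsP, ‖b - (c + 1)‖ < 9 / 20 ∨ 11 / 20 < ‖b - (c + 1)‖)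
    (hclose : ∀ z, (‖z - c‖ = 9 / 20 ∨ ‖z - c‖ = 11 / 20) → ∃ q : ℂ, ‖q‖ ≤ 71 / 1000 ∧
      B'.eval z = ((2 * (z + 1) + 1) * (17 * (z + 1) ^ 2 + 17 * (z + 1) + 5)) *
        B.eval (z + 1) * (1 - q)) :
    cnt B'.roots c (9 / 20) = cnt B.roots (c + 1) (9 / 20) + cnt rootsP (c + 1) (9 / 20) := by
  have hlB : B.leadingCoeff ≠ 0 := leadingCoeff_ne_zero.2 hB
  have hlB' : B'.leadingCoeff ≠ 0 := leadingCoeff_ne_zero.2 hB'
  have h1 : cnt B'.roots c (9 / 20) = cnt ((B.roots + rootsP).map (fun b => b - 1)) c (9 / 20) := by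
    refine cnt_eq_of_close (r₁ := 9 / 20) (r₂ := 11 / 20) (by norm_num) (by norm_num) ?_ ?_
      (Real.log ‖34 * B.leadingCoeff‖ - Real.log ‖B'.leadingCoeff‖) (4 / 50) ?_ ?_
    · intro a ha
      by_contra hcon
      push Not at hcon
      exact hz' a hcon.1 hcon.2 (isRoot_of_mem_roots ha)
    · intro a ha
      rw [Multiset.mem_map] at ha
      obtain ⟨b, hb, rfl⟩ := ha
      rw [show b - 1 - c = b - (c + 1) by ring]
      rw [Multiset.mem_add] at hb
      rcases hb with hb | hb
      · by_contra hcon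
        push Not at hcon
        exact hz b hcon.1 hcon.2 (isRoot_of_mem_roots hb)
      · exact hc b hb
    · have : (2 * (4 / 50) : ℝ) < Real.log (11 / 20 / (9 / 20)) := by
        rw [Real.lt_log_iff_exp_lt (by norm_num)]
        have := Real.exp_bound' (x := 4 / 25) (by norm_num) (by norm_num) (n := 3) (by norm_num)
        have h2 : (2 * (4 / 50) : ℝ) = 4 / 25 := by norm_num
        rw [h2]
        refine this.trans_lt ?_
        simp [Finset.sum_range_succ, Nat.factorial]
        norm_num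
      exact this
    · intro z hzc
      obtain ⟨q, hq, hq2⟩ := hclose z hzc
      have hzz : 9 / 20 ≤ ‖z - c‖ ∧ ‖z - c‖ ≤ 11 / 20 := by
        rcases hzc with h | h <;> rw [h] <;> norm_num
      have hB'z := hz' z hzz.1 hzz.2
      rw [eval_roots B'] at hB'z
      have n1 : (B'.roots.map (fun a => z - a)).prod ≠ 0 := right_ne_zero_of_mul hB'z
      have e1 : (((B.roots + rootsP).map (fun b => b - 1)).map (fun a => z - a)).prod =
          (B.roots.map (fun a => z + 1 - a)).prod * (rootsP.map (fun a => z + 1 - a)).prod := by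
        rw [Multiset.map_map, Multiset.map_add, Multiset.prod_add]
        congr 2
        · apply Multiset.map_congr rfl
          intro x _
          simp only [Function.comp_apply]
          ring
        · apply Multiset.map_congr rfl
          intro x _
          simp only [Function.comp_apply]
          ring
      have e2 : B'.leadingCoeff * (B'.roots.map (fun a => z - a)).prod =
          34 * B.leadingCoeff * ((B.roots.map (fun a => z + 1 - a)).prod *
            (rootsP.map (fun a => z + 1 - a)).prod) * (1 - q) := by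
        rw [← eval_roots B', hq2, prod_rootsP (z + 1), eval_roots B (z + 1)]
        ring
      rw [e1]
      set X := (B'.roots.map (fun a => z - a)).prod
      set Y := (B.roots.map (fun a => z + 1 - a)).prod * (rootsP.map (fun a => z + 1 - a)).prod
      have hne : 34 * B.leadingCoeff * Y * (1 - q) ≠ 0 := by
        rw [← e2]
        exact mul_ne_zero hlB' n1
      have hY : Y ≠ 0 := by
        intro h0
        rw [h0] at hne
        simp at hne
      have h1q : (1 - q) ≠ 0 := right_ne_zero_of_mul hne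
      have e3 : Real.log ‖X‖ - Real.log ‖Y‖ -
          (Real.log ‖34 * B.leadingCoeff‖ - Real.log ‖B'.leadingCoeff‖) = Real.log ‖1 - q‖ := by
        have := congrArg (fun t => Real.log ‖t‖) e2
        simp only [norm_mul] at this
        rw [Real.log_mul (norm_ne_zero_iff.2 hlB') (norm_ne_zero_iff.2 n1),
          Real.log_mul (by
            rw [← norm_mul, ← norm_mul, norm_ne_zero_iff]
            exact left_ne_zero_of_mul hne) (norm_ne_zero_iff.2 h1q),
          Real.log_mul (by
            rw [← norm_mul, norm_ne_zero_iff]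
            exact mul_ne_zero (by norm_num) hlB) (norm_ne_zero_iff.2 hY)] at this
        have e5 : ‖34 * B.leadingCoeff‖ = ‖(34 : ℂ)‖ * ‖B.leadingCoeff‖ := norm_mul _ _
        rw [e5]
        linarith
      rw [e3, abs_le]
      have b1 : 929 / 1000 ≤ ‖1 - q‖ := by
        have := norm_sub_norm_le (1 : ℂ) q
        rw [norm_one] at this
        linarith
      have b2 : ‖1 - q‖ ≤ 1071 / 1000 := by
        have := norm_sub_le (1 : ℂ) q
        rw [norm_one] at this
        linarith
      have hpos : 0 < ‖1 - q‖ := norm_pos_iff.2 h1q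
      constructor
      · rw [Real.le_log_iff_exp_le hpos]
        refine le_trans ?_ b1
        have := Real.one_sub_le_exp_neg (4 / 50)
        have h5 : Real.exp (-(4 / 50)) ≤ 929 / 1000 := by
          rw [Real.exp_neg, inv_le_comm₀ (Real.exp_pos _) (by norm_num)]
          have := Real.quadratic_le_exp_of_nonneg (x := 4 / 50) (by norm_num)
          refine le_trans ?_ this
          norm_num
        exact h5
      · have := Real.log_le_sub_one_of_pos hpos
        linarith
  rw [h1, cnt_map_sub_one, cnt_add]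

end Pool.QS2
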