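import Pool.Agent.QS2.Glue

/-!
# QS2: denominators of `x`

`x ∈ K` need not be `p`-integral for the finitely many primes `p` dividing its denominator.
`integrality_x`: if `p ^ e * DeltaR y y'` is `p`-integral for all `p`-integral `y, y'`, then
`p ^ (e + O(A)) * Delta x` is `p`-integral, where the `O(A)` is only present for the finitely many
primes `p ≤ B(x)`.
-/

set_option autoImplicit false

namespace QS2

open Finset Polynomial

theorem prod_erase_eq {F : Type*} [Field F] (m i : ℕ) (hi : i ≤ m) :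
    ∏ j ∈ (range (m + 1)).erase i, ((i : F) - (j : F)) =
      (-1) ^ (m - i) * (i.factorial : F) * ((m - i).factorial : F) := by
  have h1 : (range (m + 1)).erase i = range i ∪ Ico (i + 1) (m + 1) := by
    ext j
    simp only [mem_erase, mem_range, mem_union, mem_Ico]
    omega
  have h2 : Disjoint (range i) (Ico (i + 1) (m + 1)) := by
    rw [Finset.disjoint_left]
    intro j hj hj'
    rw [mem_range] at hj
    rw [mem_Ico] at hj'
    omega
  rw [h1, prod_union h2]
  have h3 : ∏ j ∈ range i, ((i : F) - (j : F)) = (i.factorial : F) := by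
    rw [← prod_range_reflect, ← prod_range_add_one_eq_factorial, Nat.cast_prod]
    apply prod_congr rfl
    intro j hj
    rw [mem_range] at hj
    have h4 : i - 1 - j + (j + 1) = i := by omega
    have h5 : ((i : ℕ) : F) = ((i - 1 - j : ℕ) : F) + (j + 1 : ℕ) := by
      rw [← Nat.cast_add, h4]
    rw [h5]
    ring
  have h6 : ∏ j ∈ Ico (i + 1) (m + 1), ((i : F) - (j : F)) =
      (-1) ^ (m - i) * ((m - i).factorial : F) := by
    rw [prod_Ico_eq_prod_range, show m + 1 - (i + 1) = m - i by omega,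
      ← prod_range_add_one_eq_factorial, Nat.cast_prod]
    have h7 : ((-1 : F)) ^ (m - i) = ∏ j ∈ range (m - i), (-1 : F) := by
      rw [prod_const, card_range]
    rw [h7, ← prod_mul_distrib]
    apply prod_congr rfl
    intro j _
    push_cast
    ring
  rw [h3, h6]
  ring

/-- values of a polynomial of degree `≤ m` at `x` from the values at `0, …, m` -/
theorem lagrange_mem (S : Subring K) (f : K[X]) (m : ℕ) (hf : f.natDegree ≤ m) (c : K)
    (hv : ∀ i : ℕ, c * f.eval (i : K) ∈ S) (d x : K) (hd : d ∈ S) (hx : d * x ∈ S) :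
    d ^ m * (m.factorial : K) * (c * f.eval x) ∈ S := by
  have hinj : Set.InjOn (fun i : ℕ => (i : K)) (range (m + 1) : Finset ℕ) := by
    intro a _ b _ hab
    have hab' : ((a : ℕ) : K) = (b : K) := hab
    exact Nat.cast_injective hab'
  have hdeg : f.degree < #(range (m + 1)) := by
    rw [card_range]
    refine lt_of_le_of_lt degree_le_natDegree ?_
    exact_mod_cast Nat.lt_succ_of_le hf
  have h1 := Lagrange.eq_interpolate hinj hdeg
  have h2 : f.eval x = ∑ i ∈ range (m + 1), f.eval (i : K) *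
      ∏ j ∈ (range (m + 1)).erase i, (((i : K) - (j : K))⁻¹ * (x - (j : K))) := by
    conv_lhs => rw [h1]
    rw [Lagrange.interpolate_apply, eval_finsetSum]
    apply sum_congr rfl
    intro i _
    rw [eval_mul, eval_C, Lagrange.basis, eval_prod]
    congr 1
    apply prod_congr rfl
    intro j _
    rw [Lagrange.basisDivisor, eval_mul, eval_C, eval_sub, eval_X, eval_C]
  rw [h2, mul_sum, mul_sum]
  apply S.sum_mem
  intro i hi
  have him : i ≤ m := by
    rw [mem_range] at hi
    omega
  have hcard : #((range (m + 1)).erase i) = m := by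
    rw [card_erase_of_mem hi, card_range]
    rfl
  have hfac : ((m.factorial : ℕ) : K) = ((m.choose i : ℕ) : K) * (i.factorial : K) *
      ((m - i).factorial : K) := by
    rw [← Nat.choose_mul_factorial_mul_factorial him]
    push_cast
    ring
  have hi0 : (i.factorial : K) ≠ 0 := Nat.cast_ne_zero.mpr (Nat.factorial_ne_zero _)
  have hmi0 : ((m - i).factorial : K) ≠ 0 := Nat.cast_ne_zero.mpr (Nat.factorial_ne_zero _)
  have h3 : d ^ m * (m.factorial : K) * (c * (f.eval (i : K) *
      ∏ j ∈ (range (m + 1)).erase i, (((i : K) - (j : K))⁻¹ * (x - (j : K))))) =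
      (c * f.eval (i : K)) * ((-1) ^ (m - i) * ((m.choose i : ℕ) : K)) *
        ∏ j ∈ (range (m + 1)).erase i, (d * x - d * (j : K)) := by
    rw [prod_mul_distrib, prod_inv_distrib, prod_erase_eq m i him]
    have h4 : ∏ j ∈ (range (m + 1)).erase i, (d * x - d * (j : K)) =
        d ^ m * ∏ j ∈ (range (m + 1)).erase i, (x - (j : K)) := by
      have hpow : d ^ m = ∏ _j ∈ (range (m + 1)).erase i, d := by rw [prod_const, hcard]
      rw [hpow, ← prod_mul_distrib]
      apply prod_congr rfl
      intro j _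
      ring
    rw [h4, hfac]
    have h5 : ((-1 : K) ^ (m - i) * (i.factorial : K) * ((m - i).factorial : K))⁻¹ =
        (-1) ^ (m - i) * (i.factorial : K)⁻¹ * ((m - i).factorial : K)⁻¹ := by
      rw [mul_inv, mul_inv, ← inv_pow, inv_neg, inv_one]
    rw [h5]
    field_simp
  rw [h3]
  apply S.mul_mem
  · apply S.mul_mem (hv i)
    exact S.mul_mem (S.pow_mem (S.neg_mem S.one_mem) _) (natCast_mem S _)
  · apply S.prod_mem
    intro j _
    exact S.sub_mem hx (S.mul_mem hd (natCast_mem S j))

/-! ## `DeltaR` as a polynomial in `x` and in `x'` -/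

/-- coefficient matrix of `x` -/
noncomputable def mX (A rho : ℕ) : Matrix (Nd A ⊕ Fin (2 * rho)) (Fin (A + rho) ⊕ Fin (A + rho)) K
  | Sum.inl (Sum.inl f), Sum.inl i =>
      (binP K i).eval ((nodeZ A (Sum.inl f) : ℤ) : K) * (aperyA (f + 1) : K)
  | Sum.inl (Sum.inl f), Sum.inr i =>
      (binP K i).eval ((nodeZ A (Sum.inl f) : ℤ) : K) * (aperyA (f + 2) : K)
  | _, _ => 0

/-- coefficient matrix of `x'` -/
noncomputable def mX' (A rho : ℕ) : Matrix (Nd A ⊕ Fin (2 * rho)) (Fin (A + rho) ⊕ Fin (A + rho)) K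
  | Sum.inl (Sum.inr f), Sum.inl i =>
      (binP K i).eval ((nodeZ A (Sum.inr f) : ℤ) : K) * (aperyA (f + 2) : K)
  | Sum.inl (Sum.inr f), Sum.inr i =>
      (binP K i).eval ((nodeZ A (Sum.inr f) : ℤ) : K) * (aperyA (f + 1) : K)
  | _, _ => 0

theorem bigM_x (x x' : K) (v : ℕ → K) (A rho : ℕ) :
    bigM x x' v A rho = x • mX A rho + bigM 0 x' v A rho := by
  refine Matrix.ext fun a t => ?_
  rw [Matrix.add_apply, Matrix.smul_apply, smul_eq_mul]
  rcases a with (f | f) | d <;> rcases t with i | i <;>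
    simp only [bigM, fullM, mX, uval, uval1] <;> ring

theorem bigM_x' (x x' : K) (v : ℕ → K) (A rho : ℕ) :
    bigM x x' v A rho = x' • mX' A rho + bigM x 0 v A rho := by
  refine Matrix.ext fun a t => ?_
  rw [Matrix.add_apply, Matrix.smul_apply, smul_eq_mul]
  rcases a with (f | f) | d <;> rcases t with i | i <;>
    simp only [bigM, fullM, mX', uval, uval1] <;> ring

theorem det_lin_poly {n : Type*} [Fintype n] [DecidableEq n] (P Q : Matrix n n K) :
    ∃ f : K[X], f.natDegree ≤ Fintype.card n ∧ ∀ x : K, f.eval x = (x • P + Q).det := by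
  refine ⟨_, Polynomial.natDegree_det_X_add_C_le P Q, ?_⟩
  intro x
  rw [← coe_evalRingHom, RingHom.map_det]
  congr 1
  refine Matrix.ext fun i j => ?_
  rw [RingHom.mapMatrix_apply, Matrix.map_apply, Matrix.add_apply, Matrix.smul_apply,
    Matrix.add_apply, Matrix.smul_apply, Matrix.map_apply, Matrix.map_apply, smul_eq_mul,
    smul_eq_mul, coe_evalRingHom, eval_add, eval_mul, eval_X, eval_C, eval_C]

theorem DeltaR_poly_x (x' : K) (v : ℕ → K) (A rho : ℕ) :
    ∃ f : K[X], f.natDegree ≤ 2 * (A + rho) ∧ ∀ x : K, f.eval x = DeltaR x x' v A rho := by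
  obtain ⟨f, h1, h2⟩ := det_lin_poly ((mX A rho).submatrix (idx A rho) id)
    ((bigM 0 x' v A rho).submatrix (idx A rho) id)
  refine ⟨f, ?_, ?_⟩
  · refine h1.trans ?_
    simp
    omega
  · intro x
    rw [h2, DeltaR, bigM_x x]
    rfl

theorem DeltaR_poly_x' (x : K) (v : ℕ → K) (A rho : ℕ) :
    ∃ f : K[X], f.natDegree ≤ 2 * (A + rho) ∧ ∀ x' : K, f.eval x' = DeltaR x x' v A rho := by
  obtain ⟨f, h1, h2⟩ := det_lin_poly ((mX' A rho).submatrix (idx A rho) id)
    ((bigM x 0 v A rho).submatrix (idx A rho) id)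
  refine ⟨f, ?_, ?_⟩
  · refine h1.trans ?_
    simp
    omega
  · intro x'
    rw [h2, DeltaR, bigM_x' x x']
    rfl

/-- integrality at all natural numbers implies integrality at `x, x'` with denominator `d` -/
theorem denom_mem (S : Subring K) (v : ℕ → K) (A rho : ℕ) (c d x x' : K)
    (hv : ∀ i j : ℕ, c * DeltaR (i : K) (j : K) v A rho ∈ S) (hd : d ∈ S) (hx : d * x ∈ S)
    (hx' : d * x' ∈ S) :
    (d ^ (2 * (A + rho)) * ((2 * (A + rho)).factorial : K)) ^ 2 * (c * DeltaR x x' v A rho) ∈
      S := by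
  set m := 2 * (A + rho) with hm
  have h1 : ∀ i : ℕ, d ^ m * (m.factorial : K) * (c * DeltaR (i : K) x' v A rho) ∈ S := by
    intro i
    obtain ⟨f, hf1, hf2⟩ := DeltaR_poly_x' (i : K) v A rho
    have h2 := lagrange_mem S f m hf1 c (fun j => by rw [hf2]; exact hv i j) d x' hd hx'
    rwa [hf2] at h2
  obtain ⟨f, hf1, hf2⟩ := DeltaR_poly_x x' v A rho
  have h3 := lagrange_mem S f m hf1 (d ^ m * (m.factorial : K) * c)
    (fun i => by rw [hf2, mul_assoc]; exact h1 i) d x hd hx
  rw [hf2] at h3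
  have h4 : (d ^ m * (m.factorial : K)) ^ 2 * (c * DeltaR x x' v A rho) =
      d ^ m * (m.factorial : K) * (d ^ m * (m.factorial : K) * c * DeltaR x x' v A rho) := by
    ring
  rw [h4]
  exact h3

/-! ## From factorials to powers of `p` -/

theorem mem_Op_of_coprime_mul (p : ℕ) [hp : Fact p.Prime] (u : ℕ) (hu : ¬ p ∣ u) (z : K)
    (h : (u : K) * z ∈ Op p) : z ∈ Op p := by
  have hn : padicNorm p (u : ℚ) = 1 := by
    rw [padicNorm.nat_eq_one_iff]
    exact hu
  have hre : ((u : K) * z).re = (u : ℚ) * z.re := by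
    simp [QuadraticAlgebra.re_mul]
  have him : ((u : K) * z).im = (u : ℚ) * z.im := by
    simp [QuadraticAlgebra.im_mul]
  rw [mem_Op, hre, him, padicNorm.mul, padicNorm.mul, hn, one_mul, one_mul] at h
  exact h

theorem pow_mem_of_factorial (p : ℕ) [hp : Fact p.Prime] (m : ℕ) (z : K)
    (h : ((m.factorial : K)) * z ∈ Op p) : (p : K) ^ m * z ∈ Op p := by
  have h0 : m.factorial ≠ 0 := Nat.factorial_ne_zero m
  have h1 : (m.factorial).factorization p ≤ m := by
    have h2 : (m.factorial).factorization p = padicValNat p (m.factorial) :=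
      Nat.factorization_def _ hp.out
    rw [h2]
    have h3 := sub_one_mul_padicValNat_factorial (p := p) m
    have h4 : 1 ≤ p - 1 := by
      have := hp.out.two_le
      omega
    calc padicValNat p m.factorial = 1 * padicValNat p m.factorial := by rw [one_mul]
      _ ≤ (p - 1) * padicValNat p m.factorial := Nat.mul_le_mul_right _ h4
      _ = m - (p.digits m).sum := h3
      _ ≤ m := Nat.sub_le _ _
  have h5 : p ^ (m.factorial).factorization p * (m.factorial / p ^ (m.factorial).factorization p) =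
      m.factorial := Nat.ordProj_mul_ordCompl_eq_self m.factorial p
  have h6 : ¬ p ∣ m.factorial / p ^ (m.factorial).factorization p :=
    Nat.not_dvd_ordCompl hp.out h0
  have h7 : (p : K) ^ (m.factorial).factorization p * z ∈ Op p := by
    apply mem_Op_of_coprime_mul p _ h6
    have h8 : ((m.factorial / p ^ (m.factorial).factorization p : ℕ) : K) *
        ((p : K) ^ (m.factorial).factorization p * z) = (m.factorial : K) * z := by
      conv_rhs => rw [← h5]
      push_cast
      ring
    rw [h8]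
    exact h
  have h9 : (p : K) ^ m * z = (p : K) ^ (m - (m.factorial).factorization p) *
      ((p : K) ^ (m.factorial).factorization p * z) := by
    rw [← mul_assoc, ← pow_add, Nat.sub_add_cancel h1]
  rw [h9]
  exact (Op p).mul_mem ((Op p).pow_mem (natCast_mem_Op p p) _) h7

/-- transfer with `d = p ^ k` -/
theorem denom_pow (p : ℕ) [hp : Fact p.Prime] (v : ℕ → K) (A rho e k : ℕ) (x x' : K)
    (hv : ∀ i j : ℕ, (p : K) ^ e * DeltaR (i : K) (j : K) v A rho ∈ Op p)
    (hx : (p : K) ^ k * x ∈ Op p) (hx' : (p : K) ^ k * x' ∈ Op p) :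
    (p : K) ^ (e + (4 * k + 4) * (A + rho)) * DeltaR x x' v A rho ∈ Op p := by
  have h1 := denom_mem (Op p) v A rho ((p : K) ^ e) ((p : K) ^ k) x x' hv
    ((Op p).pow_mem (natCast_mem_Op p p) _) hx hx'
  set m := 2 * (A + rho) with hm
  have h2 : (((p : K) ^ k) ^ m * (m.factorial : K)) ^ 2 * ((p : K) ^ e * DeltaR x x' v A rho) =
      (m.factorial : K) * ((m.factorial : K) *
        ((p : K) ^ (e + 2 * k * m) * DeltaR x x' v A rho)) := by
    rw [pow_add]
    ring
  rw [h2] at h1
  have h3 := pow_mem_of_factorial p m _ h1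
  have h4 : (p : K) ^ m * ((m.factorial : K) *
      ((p : K) ^ (e + 2 * k * m) * DeltaR x x' v A rho)) =
      (m.factorial : K) * ((p : K) ^ m *
        ((p : K) ^ (e + 2 * k * m) * DeltaR x x' v A rho)) := by
    ring
  rw [h4] at h3
  have h5 := pow_mem_of_factorial p m _ h3
  have h6 : (p : K) ^ m * ((p : K) ^ m * ((p : K) ^ (e + 2 * k * m) * DeltaR x x' v A rho)) =
      (p : K) ^ (e + (4 * k + 4) * (A + rho)) * DeltaR x x' v A rho := by
    have h7 : e + (4 * k + 4) * (A + rho) = m + (m + (e + 2 * k * m)) := by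
      rw [hm]
      ring
    rw [h7, pow_add (p : K) m, pow_add (p : K) m]
    ring
  rwa [h6] at h5

/-- denominators of an element of `K` -/
theorem exists_denom (x : K) : ∃ B : ℕ, 0 < B ∧ ∀ (p : ℕ) [Fact p.Prime],
    (B < p → x ∈ Op p ∧ star x ∈ Op p) ∧
      ((p : K) ^ B * x ∈ Op p ∧ (p : K) ^ B * star x ∈ Op p) := by
  set d : ℕ := x.re.den * x.im.den with hd
  have hd0 : 0 < d := Nat.mul_pos x.re.den_pos x.im.den_pos
  -- `d * x` has integral coordinates
  have hre : ∃ a : ℤ, (d : ℚ) * x.re = a := by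
    refine ⟨x.re.num * x.im.den, ?_⟩
    have h1 : x.re * x.re.den = x.re.num := Rat.mul_den_eq_num x.re
    rw [hd]
    push_cast
    rw [← h1]
    ring
  have him : ∃ b : ℤ, (d : ℚ) * x.im = b := by
    refine ⟨x.im.num * x.re.den, ?_⟩
    have h1 : x.im * x.im.den = x.im.num := Rat.mul_den_eq_num x.im
    rw [hd]
    push_cast
    rw [← h1]
    ring
  obtain ⟨a, ha⟩ := hre
  obtain ⟨b, hb⟩ := him
  have hint : ∀ (p : ℕ) [Fact p.Prime] (z : ℤ), padicNorm p (z : ℚ) ≤ 1 :=
    fun p _ z => padicNorm.of_int z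
  have hdx : ∀ (p : ℕ) [Fact p.Prime], (d : K) * x ∈ Op p ∧ (d : K) * star x ∈ Op p := by
    intro p hp
    constructor
    · rw [mem_Op]
      have h1 : ((d : K) * x).re = (d : ℚ) * x.re := by simp [QuadraticAlgebra.re_mul]
      have h2 : ((d : K) * x).im = (d : ℚ) * x.im := by simp [QuadraticAlgebra.im_mul]
      rw [h1, h2, ha, hb]
      exact ⟨hint p a, hint p b⟩
    · rw [mem_Op]
      have h1 : ((d : K) * star x).re = (d : ℚ) * x.re := by
        simp [QuadraticAlgebra.re_mul, QuadraticAlgebra.re_star, QuadraticAlgebra.im_star]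
      have h2 : ((d : K) * star x).im = -((d : ℚ) * x.im) := by
        simp [QuadraticAlgebra.im_mul, QuadraticAlgebra.re_star, QuadraticAlgebra.im_star]
      rw [h1, h2, ha, hb, padicNorm.neg]
      exact ⟨hint p a, hint p b⟩
  refine ⟨d, hd0, ?_⟩
  intro p hp
  obtain ⟨h1, h2⟩ := hdx p
  constructor
  · intro hpd
    have h3 : ¬ p ∣ d := by
      intro h
      exact absurd (Nat.le_of_dvd hd0 h) (by omega)
    exact ⟨mem_Op_of_coprime_mul p d h3 x h1, mem_Op_of_coprime_mul p d h3 _ h2⟩
  · have h4 : p ^ d.factorization p * (d / p ^ d.factorization p) = d :=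
      Nat.ordProj_mul_ordCompl_eq_self d p
    have h5 : ¬ p ∣ d / p ^ d.factorization p := Nat.not_dvd_ordCompl hp.out hd0.ne'
    have h6 : d.factorization p ≤ d := (Nat.factorization_lt p hd0.ne').le
    have key : ∀ z : K, (d : K) * z ∈ Op p → (p : K) ^ d * z ∈ Op p := by
      intro z hz
      have h7 : (p : K) ^ d.factorization p * z ∈ Op p := by
        apply mem_Op_of_coprime_mul p _ h5
        have h8 : ((d / p ^ d.factorization p : ℕ) : K) * ((p : K) ^ d.factorization p * z) =
            (d : K) * z := by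
          conv_rhs => rw [← h4]
          push_cast
          ring
        rw [h8]
        exact hz
      have h9 : (p : K) ^ d * z = (p : K) ^ (d - d.factorization p) *
          ((p : K) ^ d.factorization p * z) := by
        rw [← mul_assoc, ← pow_add, Nat.sub_add_cancel h6]
      rw [h9]
      exact (Op p).mul_mem ((Op p).pow_mem (natCast_mem_Op p p) _) h7
    exact ⟨key x h1, key _ h2⟩

/-- the interface: integrality for all `p`-integral `y, y'` implies integrality for `x`, with an
additional `O(A)` at the primes `p ≤ B` -/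
theorem integrality_x (x : K) : ∃ B k : ℕ, ∀ (v : ℕ → K) (A rho : ℕ) (e : ℕ → ℕ),
    (∀ (p : ℕ) [Fact p.Prime] (y y' : K), y ∈ Op p → y' ∈ Op p →
      (p : K) ^ e p * DeltaR y y' v A rho ∈ Op p) →
    ∀ (p : ℕ) [Fact p.Prime],
      (p : K) ^ (e p + if p ≤ B then k * (A + rho) else 0) * Delta x v A rho ∈ Op p := by
  obtain ⟨B, hB0, hB⟩ := exists_denom x
  refine ⟨B, 4 * B + 4, ?_⟩
  intro v A rho e h p hp
  obtain ⟨h1, h2, h3⟩ := hB p
  by_cases hpB : p ≤ B
  · rw [if_pos hpB]
    exact denom_pow p v A rho (e p) B x (star x)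
      (fun i j => h p (i : K) (j : K) (natCast_mem_Op p i) (natCast_mem_Op p j)) h2 h3
  · rw [if_neg hpB, add_zero]
    obtain ⟨h4, h5⟩ := h1 (by omega)
    exact h p x (star x) h4 h5

/-- the cost of the additional powers is `O(A)` -/
theorem extra_sum (B k : ℕ) : ∃ C : ℝ, 0 ≤ C ∧ ∀ N c : ℕ,
    ∑ p ∈ (Ioc 0 N).filter Nat.Prime,
      (((if p ≤ B then k * c else 0) : ℕ) : ℝ) * Real.log p ≤ C * c := by
  refine ⟨k * ∑ p ∈ (Ioc 0 B).filter Nat.Prime, Real.log p, ?_, ?_⟩
  · apply mul_nonneg (Nat.cast_nonneg k)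
    apply sum_nonneg
    intro p hp
    apply Real.log_nonneg
    exact_mod_cast (mem_filter.mp hp).2.one_lt.le
  intro N c
  have h1 : ∀ p ∈ (Ioc 0 N).filter Nat.Prime,
      (((if p ≤ B then k * c else 0) : ℕ) : ℝ) * Real.log p =
        if p ≤ B then (k : ℝ) * c * Real.log p else 0 := by
    intro p _
    split_ifs
    · push_cast
      ring
    · simp
  rw [sum_congr rfl h1, ← sum_filter]
  have h2 : ∑ p ∈ ((Ioc 0 N).filter Nat.Prime).filter (fun p => p ≤ B),
      (k : ℝ) * c * Real.log p ≤ ∑ p ∈ (Ioc 0 B).filter Nat.Prime, (k : ℝ) * c * Real.log p := by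
    apply sum_le_sum_of_subset_of_nonneg
    · intro p hp
      rw [mem_filter, mem_filter, mem_Ioc] at hp
      rw [mem_filter, mem_Ioc]
      exact ⟨⟨hp.1.1.1, hp.2⟩, hp.1.2⟩
    · intro p hp _
      apply mul_nonneg (by positivity)
      apply Real.log_nonneg
      exact_mod_cast (mem_filter.mp hp).2.one_lt.le
  refine h2.trans (le_of_eq ?_)
  rw [← mul_sum]
  ring

/-- the complete glue: from the exponents `e p` (for all `p`-integral `y, y'`) to the norm
inequality for `Delta x`, with an error `O(A)` depending only on `x` -/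
theorem norm_final (x : K) : ∃ C : ℝ, 0 ≤ C ∧ ∀ (v : ℕ → K) (A rho N : ℕ) (e : ℕ → ℕ),
    (∀ p, p.Prime → N < p → e p = 0) →
    (∀ (p : ℕ) [Fact p.Prime] (y y' : K), y ∈ Op p → y' ∈ Op p →
      (p : K) ^ e p * DeltaR y y' v A rho ∈ Op p) →
    Delta x v A rho ≠ 0 →
    0 ≤ 2 * (∑ p ∈ (Ioc 0 N).filter Nat.Prime, (e p : ℝ) * Real.log p) + C * (A + rho : ℕ)
      + Real.log |emb (Delta x v A rho)| + Real.log |emb (star (Delta x v A rho))| := by
  obtain ⟨B, k, hx⟩ := integrality_x x
  obtain ⟨C, hC0, hC⟩ := extra_sum B k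
  refine ⟨2 * C, by positivity, ?_⟩
  intro v A rho N e h0 he hD
  have h1 := glue_norm (Delta x v A rho) hD
    (fun p => e p + if p ≤ B then k * (A + rho) else 0) (max N B) (by
      intro p hp hlt
      have h2 : N < p := lt_of_le_of_lt (le_max_left _ _) hlt
      have h3 : ¬ p ≤ B := by
        have := lt_of_le_of_lt (le_max_right N B) hlt
        omega
      rw [h0 p hp h2, if_neg h3]) (hx v A rho e he)
  have h2 : ∑ p ∈ (Ioc 0 (max N B)).filter Nat.Prime,
      (((e p + if p ≤ B then k * (A + rho) else 0) : ℕ) : ℝ) * Real.log p =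
      ∑ p ∈ (Ioc 0 N).filter Nat.Prime, (e p : ℝ) * Real.log p +
      ∑ p ∈ (Ioc 0 (max N B)).filter Nat.Prime,
        (((if p ≤ B then k * (A + rho) else 0) : ℕ) : ℝ) * Real.log p := by
    have h3 : ∑ p ∈ (Ioc 0 N).filter Nat.Prime, (e p : ℝ) * Real.log p =
        ∑ p ∈ (Ioc 0 (max N B)).filter Nat.Prime, (e p : ℝ) * Real.log p := by
      apply sum_subset
      · intro p hp
        rw [mem_filter, mem_Ioc] at hp ⊢
        exact ⟨⟨hp.1.1, hp.1.2.trans (le_max_left _ _)⟩, hp.2⟩
      · intro p hp hp'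
        rw [mem_filter, mem_Ioc] at hp
        have h4 : N < p := by
          by_contra h5
          exact hp' (mem_filter.mpr ⟨mem_Ioc.mpr ⟨hp.1.1, by omega⟩, hp.2⟩)
        rw [h0 p hp.2 h4]
        simp
    rw [h3, ← sum_add_distrib]
    apply sum_congr rfl
    intro p _
    push_cast
    ring
  rw [h2] at h1
  have h3 := hC (max N B) (A + rho)
  linarith

end QS2
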