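import Mathlib

/-!
# Elimination: the full matrix (nodes and jets) against the Hankel determinant

`S = r + R + r` nodes, `R` jets, `c = r + R` columns for `P` and for `Q`.
`elim_sq`: `(det Full)^2 * (V x)^2 ...` see the statement.
-/

namespace Pool.Agent.QS2

open Finset Matrix Polynomial

section signs

variable {k : Type*} [Field k]

/-- the square of the determinant does not depend on the enumeration of rows and columns -/
theorem detsq_submatrix {m m' n n' : Type*} [Fintype n] [DecidableEq n] [Fintype n']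
    [DecidableEq n'] (M : Matrix m m' k) (e : n ≃ m) (f : n ≃ m') (e' : n' ≃ m) (f' : n' ≃ m') :
    (M.submatrix e f).det ^ 2 = (M.submatrix e' f').det ^ 2 := by
  set g : n' ≃ n := e'.trans e.symm with hg
  set τ : Equiv.Perm n := (g.symm.trans f').trans f.symm with hτ
  have h1 : (M.submatrix e' f').det = ((M.submatrix e f).submatrix id τ).det := by
    have h2 : (M.submatrix e f).submatrix id τ = (M.submatrix e' f').submatrix g.symm g.symm := by
      ext i j
      simp [hg, hτ]
    rw [h2, det_submatrix_equiv_self]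
  rw [h1, det_permute', mul_pow]
  rcases Int.units_eq_one_or (Equiv.Perm.sign τ) with h | h <;> simp [h]

end signs

section dd

variable {k : Type*} [Field k] {S : ℕ}

/-- `∏_{t ≠ s} (x s - x t)` -/
def dPi (x : Fin S → k) (s : Fin S) : k := ∏ t ∈ univ.erase s, (x s - x t)

theorem dPi_ne (x : Fin S → k) (hx : Function.Injective x) (s : Fin S) : dPi x s ≠ 0 :=
  prod_ne_zero_iff.mpr (fun _ ht => sub_ne_zero.mpr (fun h => (mem_erase.mp ht).1 (hx h).symm))

/-- the top divided difference reads off the coefficient of degree `S - 1` -/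
theorem dd_eval (x : Fin S → k) (hx : Function.Injective x) (f : k[X]) (hf : f.natDegree < S) :
    ∑ s, f.eval (x s) / dPi x s = f.coeff (S - 1) := by
  have hdeg : f.degree < (univ : Finset (Fin S)).card := by
    rw [card_univ, Fintype.card_fin]
    exact lt_of_le_of_lt degree_le_natDegree (by exact_mod_cast hf)
  have h := Lagrange.eq_interpolate (s := univ) (v := x) hx.injOn hdeg
  rw [Lagrange.interpolate_apply] at h
  have h2 := congrArg (fun p => p.coeff (S - 1)) h
  simp only [finsetSum_coeff, coeff_C_mul] at h2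
  rw [h2]
  refine sum_congr rfl (fun s _ => ?_)
  have e1 : Lagrange.basis univ x s = C (dPi x s)⁻¹ * ∏ t ∈ univ.erase s, (X - C (x t)) := by
    unfold Lagrange.basis Lagrange.basisDivisor dPi
    rw [prod_mul_distrib, ← prod_inv_distrib, map_prod]
  have e2 : (∏ t ∈ univ.erase s, (X - C (x t))).coeff (S - 1) = 1 := by
    have hm : (∏ t ∈ univ.erase s, (X - C (x t))).Monic :=
      monic_prod_of_monic _ _ (fun t _ => monic_X_sub_C (x t))
    have hd : (∏ t ∈ univ.erase s, (X - C (x t))).natDegree = S - 1 := by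
      rw [natDegree_prod_of_monic _ _ (fun t _ => monic_X_sub_C (x t))]
      simp [card_erase_of_mem]
    rw [← hd]
    exact hm.coeff_natDegree
  rw [e1, coeff_C_mul, e2]
  field_simp

/-- divided difference of `w ^ n` -/
def DDn (x : Fin S → k) (n : ℕ) : k := ∑ s, x s ^ n / dPi x s

theorem DDn_zero (x : Fin S → k) (hx : Function.Injective x) (n : ℕ) (hn : n + 1 < S) :
    DDn x n = 0 := by
  have h := dd_eval x hx (X ^ n) (by rw [natDegree_X_pow]; omega)
  simp only [eval_pow, eval_X] at h
  unfold DDn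
  rw [h, coeff_X_pow, if_neg (by omega)]

theorem DDn_one (x : Fin S → k) (hx : Function.Injective x) (n : ℕ) (hn : n + 1 = S) :
    DDn x n = 1 := by
  have h := dd_eval x hx (X ^ n) (by rw [natDegree_X_pow]; omega)
  simp only [eval_pow, eval_X] at h
  unfold DDn
  rw [h, coeff_X_pow, if_pos (by omega)]

/-- the square of the product of all `dPi` -/
theorem prod_dPi_sq (x : Fin S → k) :
    (∏ s, dPi x s) ^ 2 = (vandermonde x).det ^ 4 := by
  have h := Finset.prod_prod_Ioi_mul_eq_prod_prod_off_diag (fun i j : Fin S => x j - x i)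
  have h1 : ∏ s, dPi x s = ∏ i, ∏ j ∈ ({i} : Finset (Fin S))ᶜ, (x i - x j) := by
    refine prod_congr rfl (fun s _ => ?_)
    unfold dPi
    refine prod_congr ?_ (fun _ _ => rfl)
    ext m
    simp
  have h2 : ∏ i, ∏ j ∈ Ioi i, ((x i - x j) * (x j - x i)) =
      (-1) ^ (∑ i : Fin S, (Ioi i).card) * (vandermonde x).det ^ 2 := by
    rw [det_vandermonde, sq, ← prod_mul_distrib, ← prod_pow_eq_pow_sum, ← prod_mul_distrib]
    refine prod_congr rfl (fun i _ => ?_)
    rw [← prod_mul_distrib, ← prod_const, ← prod_mul_distrib]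
    exact prod_congr rfl (fun j _ => by ring)
  rw [h1, ← h, h2, mul_pow, ← pow_mul, ← pow_mul, mul_comm _ 2, pow_mul, neg_one_sq, one_pow,
    one_mul]

end dd

section elim

variable {k : Type*} [Field k] {r R : ℕ}

/-- `Lam m = sum_s (x^m rho - [w^m v]_+(x)) / prod_{t ≠ s} (x s - x t)` -/
def Lam {S : ℕ} (x : Fin S → k) (ρ : Fin S → k) (v : ℕ → k) (m : ℕ) : k :=
  ∑ s, (x s ^ m * ρ s - ∑ a ∈ range (m + 1), v a * x s ^ (m - a)) / dPi x s

theorem Lam_eq {S : ℕ} (x : Fin S → k) (ρ : Fin S → k) (v : ℕ → k) (m : ℕ) :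
    Lam x ρ v m = ∑ s, x s ^ m * ρ s / dPi x s - ∑ a ∈ range (m + 1), v a * DDn x (m - a) := by
  unfold Lam DDn
  simp only [sub_div, sum_sub_distrib]
  congr 1
  simp only [sum_div, mul_sum]
  rw [sum_comm]
  exact sum_congr rfl (fun a _ => sum_congr rfl (fun s _ => by ring))

/-- the matrix of the problem, nodes normalised to `u = 1` -/
def Full0 (x ρ : Fin (r + R + r) → k) (v : ℕ → k) :
    Matrix (Fin (r + R + r) ⊕ Fin R) (Fin (r + R) ⊕ Fin (r + R)) k :=
  Matrix.of fun a b => match a, b with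
    | Sum.inl s, Sum.inl i => x s ^ (i : ℕ)
    | Sum.inl s, Sum.inr i => x s ^ (i : ℕ) * ρ s
    | Sum.inr κ, Sum.inl i => if (i : ℕ) = r + κ then 1 else 0
    | Sum.inr κ, Sum.inr i => if r + κ ≤ (i : ℕ) then v (i - (r + κ)) else 0

/-- row transformation -/
def LL (x : Fin (r + R + r) → k) :
    Matrix (Fin (r + R) ⊕ (Fin r ⊕ Fin R)) (Fin (r + R + r) ⊕ Fin R) k :=
  Matrix.of fun a b => match a, b with
    | Sum.inl j, Sum.inl s => x s ^ (j : ℕ) / dPi x s
    | Sum.inl j, Sum.inr κ => - DDn x (r + κ + j)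
    | Sum.inr (Sum.inl m), Sum.inl s => x s ^ (r + R + r - 1 - (m : ℕ)) / dPi x s
    | Sum.inr (Sum.inl _), Sum.inr _ => 0
    | Sum.inr (Sum.inr _), Sum.inl _ => 0
    | Sum.inr (Sum.inr κ), Sum.inr κ' => if κ = κ' then 1 else 0

theorem prod_00 (x ρ : Fin (r + R + r) → k) (hx : Function.Injective x) (v : ℕ → k)
    (j i : Fin (r + R)) : (LL x * Full0 x ρ v) (Sum.inl j) (Sum.inl i) = 0 := by
  rw [Matrix.mul_apply, Fintype.sum_sum_type]
  change ∑ s, x s ^ (j : ℕ) / dPi x s * x s ^ (i : ℕ) +
    ∑ κ : Fin R, - DDn x (r + κ + j) * (if (i : ℕ) = r + κ then 1 else 0) = 0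
  have h1 : ∑ s, x s ^ (j : ℕ) / dPi x s * x s ^ (i : ℕ) = DDn x (i + j) := by
    unfold DDn
    exact sum_congr rfl (fun s _ => by rw [pow_add]; ring)
  rw [h1]
  by_cases hi : (i : ℕ) < r
  · rw [DDn_zero x hx _ (by have := j.2; omega), zero_add]
    refine sum_eq_zero (fun κ _ => ?_)
    rw [if_neg (by omega), mul_zero]
  · have hiR : (i : ℕ) - r < R := by have := i.2; omega
    rw [sum_eq_single (⟨(i : ℕ) - r, hiR⟩ : Fin R)]
    · have : r + ((i : ℕ) - r) = i := by omega
      rw [if_pos (by simp [this])]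
      simp [this]
    · intro κ _ hκ
      rw [if_neg, mul_zero]
      intro h
      apply hκ
      ext
      simp only
      omega
    · intro h
      exact absurd (mem_univ _) h

theorem prod_01 (x ρ : Fin (r + R + r) → k) (hx : Function.Injective x) (v : ℕ → k)
    (j i : Fin (r + R)) :
    (LL x * Full0 x ρ v) (Sum.inl j) (Sum.inr i) = Lam x ρ v (j + i) := by
  rw [Matrix.mul_apply, Fintype.sum_sum_type, Lam_eq]
  change ∑ s, x s ^ (j : ℕ) / dPi x s * (x s ^ (i : ℕ) * ρ s) +
    ∑ κ : Fin R, - DDn x (r + κ + j) *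
      (if r + κ ≤ (i : ℕ) then v (i - (r + κ)) else 0) = _
  have h1 : ∑ s, x s ^ (j : ℕ) / dPi x s * (x s ^ (i : ℕ) * ρ s) =
      ∑ s, x s ^ ((j : ℕ) + i) * ρ s / dPi x s :=
    sum_congr rfl (fun s _ => by rw [pow_add]; ring)
  rw [h1, sub_eq_add_neg]
  congr 1
  rw [Fin.sum_univ_eq_sum_range (fun κ => - DDn x (r + κ + j) *
      (if r + κ ≤ (i : ℕ) then v (i - (r + κ)) else 0)) R]
  have h2 : ∀ κ ∈ range R, - DDn x (r + κ + j) *
      (if r + κ ≤ (i : ℕ) then v (i - (r + κ)) else 0) =
      -(if r + κ ≤ (i : ℕ) then v (i - (r + κ)) * DDn x (r + κ + j) else 0) := by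
    intro κ _
    split_ifs <;> ring
  rw [sum_congr rfl h2, sum_neg_distrib, neg_inj, ← sum_filter]
  -- reindex a = i - (r + κ)
  have h3 : ∑ a ∈ range ((j : ℕ) + i + 1), v a * DDn x ((j : ℕ) + i - a) =
      ∑ a ∈ (range ((j : ℕ) + i + 1)).filter (fun a => r + a ≤ (i : ℕ)),
        v a * DDn x ((j : ℕ) + i - a) := by
    rw [sum_filter]
    refine sum_congr rfl (fun a ha => ?_)
    split_ifs with h
    · rfl
    · rw [DDn_zero x hx _ (by have := j.2; have := mem_range.mp ha; omega), mul_zero]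
  rw [h3]
  refine sum_bij' (fun κ _ => (i : ℕ) - (r + κ)) (fun a _ => (i : ℕ) - (r + a)) ?_ ?_ ?_ ?_ ?_
  · intro κ hκ
    simp only [mem_filter, mem_range] at hκ ⊢
    omega
  · intro a ha
    have hi := i.2
    simp only [mem_filter, mem_range] at ha ⊢
    omega
  · intro κ hκ
    simp only [mem_filter, mem_range] at hκ
    omega
  · intro a ha
    simp only [mem_filter, mem_range] at ha
    omega
  · intro κ hκ
    simp only [mem_filter, mem_range] at hκ
    have : (j : ℕ) + i - ((i : ℕ) - (r + κ)) = r + κ + j := by omega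
    rw [this]

/-- the lower left block -/
def GG (x : Fin (r + R + r) → k) : Matrix (Fin r ⊕ Fin R) (Fin (r + R)) k :=
  Matrix.of fun a i => match a with
    | Sum.inl m => DDn x (r + R + r - 1 - (m : ℕ) + i)
    | Sum.inr κ => if (i : ℕ) = r + κ then 1 else 0

theorem prod_10 (x ρ : Fin (r + R + r) → k) (v : ℕ → k)
    (a : Fin r ⊕ Fin R) (i : Fin (r + R)) :
    (LL x * Full0 x ρ v) (Sum.inr a) (Sum.inl i) = GG x a i := by
  rw [Matrix.mul_apply, Fintype.sum_sum_type]
  cases a with
  | inl m =>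
    change ∑ s, x s ^ (r + R + r - 1 - (m : ℕ)) / dPi x s * x s ^ (i : ℕ) +
      ∑ κ : Fin R, (0 : k) * _ = DDn x (r + R + r - 1 - (m : ℕ) + i)
    simp only [zero_mul, sum_const_zero, add_zero]
    unfold DDn
    exact sum_congr rfl (fun s _ => by rw [pow_add]; ring)
  | inr κ =>
    change ∑ s, (0 : k) * _ + ∑ κ' : Fin R, (if κ = κ' then (1 : k) else 0) *
      (if (i : ℕ) = r + κ' then 1 else 0) = if (i : ℕ) = r + κ then 1 else 0
    simp only [zero_mul, sum_const_zero, zero_add]
    rw [sum_eq_single κ]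
    · rw [if_pos rfl, one_mul]
    · intro κ' _ hk
      rw [if_neg (Ne.symm hk), zero_mul]
    · intro h
      exact absurd (mem_univ _) h

theorem det_GG (x : Fin (r + R + r) → k) (hx : Function.Injective x) :
    ((GG x).submatrix (finSumFinEquiv.symm : Fin (r + R) ≃ Fin r ⊕ Fin R) id).det = 1 := by
  have hdiag : ∀ i : Fin (r + R),
      ((GG x).submatrix (finSumFinEquiv.symm : Fin (r + R) ≃ Fin r ⊕ Fin R) id) i i = 1 := by
    intro i
    refine Fin.addCases (fun m => ?_) (fun κ => ?_) i
    · simp only [submatrix_apply, finSumFinEquiv_symm_apply_castAdd, id]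
      change DDn x (r + R + r - 1 - (m : ℕ) + (Fin.castAdd R m : ℕ)) = 1
      refine DDn_one x hx _ ?_
      have := m.2
      simp only [Fin.val_castAdd]
      omega
    · simp only [submatrix_apply, finSumFinEquiv_symm_apply_natAdd, id]
      change (if (Fin.natAdd r κ : ℕ) = r + κ then (1 : k) else 0) = 1
      simp
  have htri : ((GG x).submatrix (finSumFinEquiv.symm : Fin (r + R) ≃ Fin r ⊕ Fin R) id).BlockTriangular
      id := by
    intro i j hij
    change j < i at hij
    refine Fin.addCases (fun m hm => ?_) (fun κ hκ => ?_) i hij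
    · simp only [submatrix_apply, finSumFinEquiv_symm_apply_castAdd, id]
      change DDn x (r + R + r - 1 - (m : ℕ) + (j : ℕ)) = 0
      refine DDn_zero x hx _ ?_
      have h1 : (j : ℕ) < m := by
        have := Fin.lt_def.mp hm
        simpa using this
      have := m.2
      omega
    · simp only [submatrix_apply, finSumFinEquiv_symm_apply_natAdd, id]
      change (if (j : ℕ) = r + κ then (1 : k) else 0) = 0
      rw [if_neg]
      have := Fin.lt_def.mp hκ
      simp only [Fin.val_natAdd] at this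
      omega
  rw [det_of_isUpperTriangular htri]
  exact prod_eq_one (fun i _ => hdiag i)

/-- enumeration of the rows of `LL` by its columns -/
def eRow : Fin (r + R + r) ⊕ Fin R ≃ Fin (r + R) ⊕ (Fin r ⊕ Fin R) :=
  ((finSumFinEquiv.symm.trans (Equiv.sumCongr (Equiv.refl _) Fin.revPerm)).sumCongr
    (Equiv.refl _)).trans (Equiv.sumAssoc _ _ _)

theorem det_LL_sq (x : Fin (r + R + r) → k) (hx : Function.Injective x) :
    ((LL x).submatrix (eRow : Fin (r + R + r) ⊕ Fin R ≃ _) (Equiv.refl _)).det ^ 2 *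
      (vandermonde x).det ^ 2 = 1 := by
  have h1 : (LL x).submatrix (eRow : Fin (r + R + r) ⊕ Fin R ≃ _) (Equiv.refl _) =
      fromBlocks ((vandermonde x)ᵀ * diagonal fun s => (dPi x s)⁻¹)
        (Matrix.of fun l κ => (LL x) (eRow (Sum.inl l)) (Sum.inr κ)) 0 1 := by
    ext a b
    cases a with
    | inl l =>
      cases b with
      | inl s =>
        rw [submatrix_apply, fromBlocks_apply₁₁, Matrix.mul_diagonal]
        refine Fin.addCases (fun j => ?_) (fun m => ?_) l
        · have e : (eRow (Sum.inl (Fin.castAdd r j)) : Fin (r + R) ⊕ (Fin r ⊕ Fin R)) =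
              Sum.inl j := by simp [eRow]
          rw [e]
          change x s ^ (j : ℕ) / dPi x s = x s ^ ((Fin.castAdd r j : Fin (r + R + r)) : ℕ) * (dPi x s)⁻¹
          rw [Fin.val_castAdd, div_eq_mul_inv]
        · have e : (eRow (Sum.inl (Fin.natAdd (r + R) m)) : Fin (r + R) ⊕ (Fin r ⊕ Fin R)) =
              Sum.inr (Sum.inl (Fin.rev m)) := by simp [eRow]
          rw [e]
          change x s ^ (r + R + r - 1 - ((Fin.rev m : Fin r) : ℕ)) / dPi x s =
            x s ^ ((Fin.natAdd (r + R) m : Fin (r + R + r)) : ℕ) * (dPi x s)⁻¹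
          rw [Fin.val_natAdd, Fin.val_rev, div_eq_mul_inv]
          have : r + R + r - 1 - (r - (m + 1)) = r + R + m := by have := m.2; omega
          rw [this]
      | inr κ => rfl
    | inr κ =>
      have e : (eRow (Sum.inr κ) : Fin (r + R) ⊕ (Fin r ⊕ Fin R)) = Sum.inr (Sum.inr κ) := by
        simp [eRow]
      cases b with
      | inl s =>
        rw [submatrix_apply, e]
        rfl
      | inr κ' =>
        rw [submatrix_apply, e]
        change (if κ = κ' then (1 : k) else 0) = (1 : Matrix (Fin R) (Fin R) k) κ κ'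
        rw [Matrix.one_apply]
  have hV : (vandermonde x).det ≠ 0 := det_vandermonde_ne_zero_iff.mpr hx
  have h2 := prod_dPi_sq x
  have h3 : (∏ s, dPi x s) ^ 2 ≠ 0 := by rw [h2]; exact pow_ne_zero _ hV
  rw [h1, det_fromBlocks_zero₂₁, det_one, mul_one, det_mul, det_transpose, det_diagonal,
    prod_inv_distrib, mul_pow, inv_pow, h2]
  field_simp

/-- **Elimination identity** (up to sign), nodes normalised to `u = 1`. -/
theorem elim_sq {n : Type*} [Fintype n] [DecidableEq n] (x ρ : Fin (r + R + r) → k)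
    (hx : Function.Injective x) (v : ℕ → k) (e : n ≃ Fin (r + R + r) ⊕ Fin R)
    (f : n ≃ Fin (r + R) ⊕ Fin (r + R)) :
    ((Full0 x ρ v).submatrix e f).det ^ 2 =
      ((vandermonde x).det *
        (Matrix.of fun i j : Fin (r + R) => Lam x ρ v ((i : ℕ) + j)).det) ^ 2 := by
  -- enumeration of the rows of the product by the columns
  set g : Fin (r + R) ⊕ Fin (r + R) ≃ Fin (r + R) ⊕ (Fin r ⊕ Fin R) :=
    Equiv.sumCongr (Equiv.refl _) finSumFinEquiv.symm with hg
  set sw : Fin (r + R) ⊕ Fin (r + R) ≃ Fin (r + R) ⊕ Fin (r + R) := Equiv.sumComm _ _ with hsw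
  -- the product matrix
  have h1 : ((LL x * Full0 x ρ v).submatrix g sw).det =
      (Matrix.of fun i j : Fin (r + R) => Lam x ρ v ((i : ℕ) + j)).det := by
    have h2 : (LL x * Full0 x ρ v).submatrix g sw =
        fromBlocks (Matrix.of fun i j : Fin (r + R) => Lam x ρ v ((i : ℕ) + j)) 0
          (Matrix.of fun i j => (LL x * Full0 x ρ v) (Sum.inr (finSumFinEquiv.symm i)) (Sum.inr j))
          ((GG x).submatrix (finSumFinEquiv.symm : Fin (r + R) ≃ Fin r ⊕ Fin R) id) := by
      ext a b
      cases a with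
      | inl j =>
        cases b with
        | inl i => exact prod_01 x ρ hx v j i
        | inr i => exact prod_00 x ρ hx v j i
      | inr j =>
        cases b with
        | inl i => rfl
        | inr i => exact prod_10 x ρ v (finSumFinEquiv.symm j) i
    rw [h2, det_fromBlocks_zero₁₂, det_GG x hx, mul_one]
  -- multiplicativity
  set e0 : Fin (r + R) ⊕ Fin (r + R) ≃ Fin (r + R + r) ⊕ Fin R := g.trans eRow.symm with he0
  have h3 : (LL x * Full0 x ρ v).submatrix g sw =
      (LL x).submatrix g e0 * (Full0 x ρ v).submatrix e0 sw := by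
    rw [submatrix_mul_equiv]
  have h4 : ((LL x).submatrix g e0).det ^ 2 =
      ((LL x).submatrix (eRow : Fin (r + R + r) ⊕ Fin R ≃ _) (Equiv.refl _)).det ^ 2 :=
    detsq_submatrix _ _ _ _ _
  have h5 := det_LL_sq x hx
  have h6 := congrArg (fun M : Matrix _ _ k => M.det ^ 2) h3
  simp only [det_mul, mul_pow] at h6
  rw [h1, h4, detsq_submatrix (Full0 x ρ v) e0 sw e f] at h6
  rw [mul_pow, h6, ← mul_assoc, mul_comm ((vandermonde x).det ^ 2), h5, one_mul]

/-- the matrix of the problem with general node values `(u, u')` -/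
def Full (x u u' : Fin (r + R + r) → k) (v : ℕ → k) :
    Matrix (Fin (r + R + r) ⊕ Fin R) (Fin (r + R) ⊕ Fin (r + R)) k :=
  Matrix.of fun a b => match a, b with
    | Sum.inl s, Sum.inl i => x s ^ (i : ℕ) * u s
    | Sum.inl s, Sum.inr i => x s ^ (i : ℕ) * u' s
    | Sum.inr κ, Sum.inl i => if (i : ℕ) = r + κ then 1 else 0
    | Sum.inr κ, Sum.inr i => if r + κ ≤ (i : ℕ) then v (i - (r + κ)) else 0

/-- **Elimination identity.** `(det Full)^2 = (∏ u * V * det H)^2`. -/
theorem elim_full_sq {n : Type*} [Fintype n] [DecidableEq n] (x u u' ρ : Fin (r + R + r) → k)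
    (hx : Function.Injective x) (hu : ∀ s, u' s = ρ s * u s) (v : ℕ → k)
    (e : n ≃ Fin (r + R + r) ⊕ Fin R) (f : n ≃ Fin (r + R) ⊕ Fin (r + R)) :
    ((Full x u u' v).submatrix e f).det ^ 2 =
      ((∏ s, u s) * (vandermonde x).det *
        (Matrix.of fun i j : Fin (r + R) => Lam x ρ v ((i : ℕ) + j)).det) ^ 2 := by
  have h1 : (Full x u u' v).submatrix e f =
      diagonal (fun a => Sum.elim u (fun _ => (1 : k)) (e a)) * (Full0 x ρ v).submatrix e f := by
    ext a b
    rw [Matrix.diagonal_mul, submatrix_apply, submatrix_apply]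
    rcases e a with s | κ <;> rcases f b with i | i
    · change x s ^ (i : ℕ) * u s = u s * x s ^ (i : ℕ)
      ring
    · change x s ^ (i : ℕ) * u' s = u s * (x s ^ (i : ℕ) * ρ s)
      rw [hu]
      ring
    · exact (one_mul _).symm
    · exact (one_mul _).symm
  have h2 : ∏ a, Sum.elim u (fun _ => (1 : k)) (e a) = ∏ s, u s := by
    rw [e.prod_comp (fun a => Sum.elim u (fun _ => (1 : k)) a), Fintype.prod_sum_type]
    simp
  rw [h1, det_mul, det_diagonal, h2, mul_pow, elim_sq x ρ hx v e f]
  ring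

end elim

end Pool.Agent.QS2
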