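import Pool.Agent.QS2.FacSum

/-! Discrete energy part of QS2 (two-sided nodes, cap 4): reference multiplicities `nu`,
lower bound of the self-energy, upper bound of the effective potential. -/

namespace Pool.QS2E

open Finset

/-- multiplicity of reference points in unit `l` -/
def nu (n e l : ℕ) : ℕ :=
  (if l ≤ 2 * n then 2 else 0) + (if l ≤ 4 * n then 1 else 0) + (if l ≤ 7 * n + e then 1 else 0)

lemma nu_le (n e l : ℕ) : nu n e l ≤ 4 := by unfold nu; split_ifs <;> omega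

lemma sum_ind (F : ℕ → ℝ) {b L : ℕ} (h : b ≤ L) :
    ∑ l ∈ Ioc 0 L, (if l ≤ b then (1:ℝ) else 0) * F l = ∑ l ∈ Ioc 0 b, F l := by
  have h1 : Ioc 0 b ⊆ Ioc 0 L := Ioc_subset_Ioc_right h
  rw [← sum_subset h1 (f := fun l => (if l ≤ b then (1:ℝ) else 0) * F l)]
  · refine sum_congr rfl (fun l hl => ?_)
    rw [mem_Ioc] at hl
    rw [if_pos hl.2, one_mul]
  · intro l hl hl2
    rw [mem_Ioc] at hl hl2
    rw [if_neg (by omega), zero_mul]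

lemma sum_nu (n e : ℕ) (F : ℕ → ℝ) :
    ∑ l ∈ Ioc 0 (7 * n + e), (nu n e l : ℝ) * F l
      = 2 * ∑ l ∈ Ioc 0 (2 * n), F l + ∑ l ∈ Ioc 0 (4 * n), F l + ∑ l ∈ Ioc 0 (7 * n + e), F l := by
  rw [← sum_ind F (show 2 * n ≤ 7 * n + e by omega), ← sum_ind F (show 4 * n ≤ 7 * n + e by omega),
    ← sum_ind F (le_refl (7 * n + e)), mul_sum, ← sum_add_distrib, ← sum_add_distrib]
  refine sum_congr rfl (fun l _ => ?_)
  unfold nu
  split_ifs <;> push_cast <;> ring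

lemma sum_nu_card (n e : ℕ) : ∑ l ∈ Ioc 0 (7 * n + e), nu n e l = 15 * n + e := by
  have h := sum_nu n e (fun _ => 1)
  simp only [mul_one, sum_const, Nat.card_Ioc, nsmul_eq_mul, Nat.sub_zero] at h
  have h2 : ((∑ l ∈ Ioc 0 (7 * n + e), nu n e l : ℕ) : ℝ) = ((15 * n + e : ℕ) : ℝ) := by
    push_cast at h ⊢
    linarith
  exact_mod_cast h2

/-- antiderivative of `log (|j| - 1)` -/
noncomputable def V1 (j : ℤ) : ℝ :=
  if 1 ≤ j then S (j - 2).toNat else - S (-j - 1).toNat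

lemma V1_tel (j : ℤ) : V1 (j + 1) - V1 j = Real.log (|(j:ℝ)| - 1) := by
  unfold V1
  rcases lt_trichotomy j 0 with h | h | h
  · obtain ⟨n, rfl⟩ : ∃ n : ℕ, j = -(n:ℤ) - 1 := ⟨(-j - 1).toNat, by omega⟩
    rw [if_neg (by omega), if_neg (by omega)]
    have e3 : |((-(n:ℤ) - 1 : ℤ) : ℝ)| - 1 = n := by
      push_cast
      rw [abs_of_nonpos (by have : (0:ℝ) ≤ n := by positivity
                            linarith)]
      ring
    rw [e3]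
    have e2 : (-(-(n:ℤ) - 1) - 1).toNat = n := by omega
    rw [e2]
    rcases Nat.eq_zero_or_pos n with h0 | h0
    · subst h0
      simp [S]
    · obtain ⟨m, rfl⟩ : ∃ m, n = m + 1 := ⟨n - 1, by omega⟩
      have e1 : (-(-((m + 1 : ℕ):ℤ) - 1 + 1) - 1).toNat = m := by omega
      rw [e1, S_succ m]
      push_cast; ring
  · subst h; simp [S]
  · obtain ⟨n, rfl⟩ : ∃ n : ℕ, j = (n:ℤ) + 1 := ⟨(j - 1).toNat, by omega⟩
    rw [if_pos (by omega), if_pos (by omega)]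
    have e1 : ((n:ℤ) + 1 + 1 - 2).toNat = n := by omega
    rw [e1]
    have e3 : |((((n:ℤ) + 1 : ℤ)) : ℝ)| - 1 = n := by
      push_cast
      rw [abs_of_nonneg (by positivity)]; ring
    rw [e3]
    rcases Nat.eq_zero_or_pos n with h0 | h0
    · subst h0
      simp [S]
    · obtain ⟨m, rfl⟩ : ∃ m, n = m + 1 := ⟨n - 1, by omega⟩
      have e2 : (((m + 1 : ℕ):ℤ) + 1 - 2).toNat = m := by omega
      rw [e2, S_succ m]
      push_cast; ring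

lemma S_lo (n : ℕ) (d : ℕ) (hd : d ≤ n) : Fs n - d * Real.log (n + 1) ≤ S (n - d) := by
  have h1 := S_up n (n - d) (by omega) d (by omega)
  have h2 := S_ge n
  linarith

lemma V1_bd (j : ℤ) : |V1 j - Fs j| ≤ er j := by
  unfold V1 er
  split_ifs with h
  · obtain ⟨n, rfl⟩ : ∃ n : ℕ, j = (n:ℤ) + 1 := ⟨(j - 1).toNat, by omega⟩
    have e2 : ((n:ℤ) + 1 - 2).toNat = n + 1 - 2 := by omega
    rw [e2]
    have e3 : |((((n:ℤ) + 1 : ℤ)) : ℝ)| = n + 1 := by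
      push_cast; rw [abs_of_nonneg (by positivity)]
    rw [e3]
    have e4 : Fs ((((n:ℤ) + 1 : ℤ)) : ℝ) = Fs (((n + 1 : ℕ) : ℝ)) := by push_cast; rfl
    rw [e4]
    have h1 := S_le (n + 1)
    have h2 := S_ge (n + 1)
    have h3 := S_mono (show n + 1 - 2 ≤ n + 1 by omega)
    have h4 := S_up (n + 1) (n + 1 - 2) (by omega) 2 (by omega)
    have h7 : Real.log (((n + 1 : ℕ) : ℝ) + 1) ≤ Real.log ((n:ℝ) + 1 + 3) :=
      Real.log_le_log (by positivity) (by push_cast; linarith)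
    have h5 := logn1 n
    have h6 : Real.log ((n:ℝ) + 1) ≤ Real.log ((n:ℝ) + 1 + 3) :=
      Real.log_le_log (by positivity) (by linarith)
    push_cast at h1 h2 h3 h4 h7 ⊢
    rw [abs_le]; constructor <;> linarith
  · obtain ⟨n, rfl⟩ : ∃ n : ℕ, j = -(n:ℤ) := ⟨(-j).toNat, by omega⟩
    have e2 : (- -(n:ℤ) - 1).toNat = n - 1 := by omega
    rw [e2]
    have e3 : |((-(n:ℤ) : ℤ) : ℝ)| = n := by simp
    rw [e3]
    have e4 : Fs ((-(n:ℤ) : ℤ) : ℝ) = - Fs (n:ℝ) := by push_cast; exact Fs_neg _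
    rw [e4]
    have h1 := S_le n
    have h2 := S_ge n
    have h3 := S_mono (show n - 1 ≤ n by omega)
    have h4 := S_up n (n - 1) (by omega) 1 (by omega)
    have h6 : Real.log ((n:ℝ) + 1) ≤ Real.log ((n:ℝ) + 3) :=
      Real.log_le_log (by positivity) (by linarith)
    have h5 := logn1 n
    push_cast at h4
    rw [abs_le]; constructor <;> linarith

/-- a block sum of `log (|k - l| - 1)` -/
lemma blk1 (k : ℤ) {a b : ℕ} (hab : a ≤ b) :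
    |∑ l ∈ Finset.Ioc a b, Real.log (|((k - l : ℤ) : ℝ)| - 1) - (Fs ((k:ℝ) - a) - Fs ((k:ℝ) - b))|
      ≤ er ((k:ℝ) - a) + er ((k:ℝ) - b) := by
  have h := sum_tel V1 (fun j => Real.log (|(j:ℝ)| - 1)) V1_tel k hab
  rw [h]
  have h1 := abs_le.1 (V1_bd (k - a))
  have h2 := abs_le.1 (V1_bd (k - b))
  push_cast at h1 h2
  rw [abs_le]; constructor <;> linarith [h1.1, h1.2, h2.1, h2.2]

/-- one-sided distance `log` : `log i` for `i ≥ 1`, `log (-i-1)` otherwise -/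
noncomputable def lgi (i : ℤ) : ℝ := if 1 ≤ i then Real.log (i:ℝ) else Real.log (-(i:ℝ) - 1)

noncomputable def V3 (j : ℤ) : ℝ :=
  if 1 ≤ j then S (j - 1).toNat else - S (-j - 1).toNat

lemma V3_tel (j : ℤ) : V3 (j + 1) - V3 j = lgi j := by
  unfold V3 lgi
  rcases lt_trichotomy j 0 with h | h | h
  · obtain ⟨n, rfl⟩ : ∃ n : ℕ, j = -(n:ℤ) - 1 := ⟨(-j - 1).toNat, by omega⟩
    rw [if_neg (by omega), if_neg (by omega), if_neg (by omega)]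
    have e3 : -(((-(n:ℤ) - 1 : ℤ)) : ℝ) - 1 = n := by push_cast; ring
    rw [e3]
    have e2 : (-(-(n:ℤ) - 1) - 1).toNat = n := by omega
    rw [e2]
    rcases Nat.eq_zero_or_pos n with h0 | h0
    · subst h0
      simp [S]
    · obtain ⟨m, rfl⟩ : ∃ m, n = m + 1 := ⟨n - 1, by omega⟩
      have e1 : (-(-((m + 1 : ℕ):ℤ) - 1 + 1) - 1).toNat = m := by omega
      rw [e1, S_succ m]
      push_cast; ring
  · subst h; simp [S]
  · obtain ⟨n, rfl⟩ : ∃ n : ℕ, j = (n:ℤ) + 1 := ⟨(j - 1).toNat, by omega⟩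
    rw [if_pos (by omega), if_pos (by omega), if_pos (by omega)]
    have e1 : ((n:ℤ) + 1 + 1 - 1).toNat = n + 1 := by omega
    have e2 : ((n:ℤ) + 1 - 1).toNat = n := by omega
    rw [e1, e2, S_succ n]
    push_cast; ring

lemma V3_bd (j : ℤ) : |V3 j - Fs j| ≤ er j := by
  unfold V3 er
  split_ifs with h
  · obtain ⟨n, rfl⟩ : ∃ n : ℕ, j = (n:ℤ) + 1 := ⟨(j - 1).toNat, by omega⟩
    have e2 : ((n:ℤ) + 1 - 1).toNat = n := by omega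
    rw [e2]
    have e3 : |((((n:ℤ) + 1 : ℤ)) : ℝ)| = n + 1 := by
      push_cast; rw [abs_of_nonneg (by positivity)]
    rw [e3]
    have e4 : Fs ((((n:ℤ) + 1 : ℤ)) : ℝ) = Fs (((n + 1 : ℕ) : ℝ)) := by push_cast; rfl
    rw [e4]
    have h1 := S_le (n + 1)
    have h2 := S_ge (n + 1)
    have h3 := S_mono (show n ≤ n + 1 by omega)
    have h4 := S_up (n + 1) n (by omega) 1 (by omega)
    have h7 : Real.log (((n + 1 : ℕ) : ℝ) + 1) ≤ Real.log ((n:ℝ) + 1 + 3) :=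
      Real.log_le_log (by positivity) (by push_cast; linarith)
    have h5 := logn1 n
    have h6 : Real.log ((n:ℝ) + 1) ≤ Real.log ((n:ℝ) + 1 + 3) :=
      Real.log_le_log (by positivity) (by linarith)
    push_cast at h1 h2 h3 h4 h7 ⊢
    rw [abs_le]; constructor <;> linarith
  · obtain ⟨n, rfl⟩ : ∃ n : ℕ, j = -(n:ℤ) := ⟨(-j).toNat, by omega⟩
    have e2 : (- -(n:ℤ) - 1).toNat = n - 1 := by omega
    rw [e2]
    have e3 : |((-(n:ℤ) : ℤ) : ℝ)| = n := by simp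
    rw [e3]
    have e4 : Fs ((-(n:ℤ) : ℤ) : ℝ) = - Fs (n:ℝ) := by push_cast; exact Fs_neg _
    rw [e4]
    have h1 := S_le n
    have h2 := S_ge n
    have h3 := S_mono (show n - 1 ≤ n by omega)
    have h4 := S_up n (n - 1) (by omega) 1 (by omega)
    have h6 : Real.log ((n:ℝ) + 1) ≤ Real.log ((n:ℝ) + 3) :=
      Real.log_le_log (by positivity) (by linarith)
    have h5 := logn1 n
    push_cast at h4
    rw [abs_le]; constructor <;> linarith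

/-- a block sum of `lgi` -/
lemma blk3 (k : ℤ) {a b : ℕ} (hab : a ≤ b) :
    |∑ l ∈ Finset.Ioc a b, lgi (k - l) - (Fs ((k:ℝ) - a) - Fs ((k:ℝ) - b))|
      ≤ er ((k:ℝ) - a) + er ((k:ℝ) - b) := by
  have h := sum_tel V3 lgi V3_tel k hab
  rw [h]
  have h1 := abs_le.1 (V3_bd (k - a))
  have h2 := abs_le.1 (V3_bd (k - b))
  push_cast at h1 h2
  rw [abs_le]; constructor <;> linarith [h1.1, h1.2, h2.1, h2.2]

lemma lgi_nonneg (i : ℤ) : 0 ≤ lgi i := by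
  unfold lgi
  split_ifs with h
  · exact Real.log_nonneg (by exact_mod_cast h)
  · rcases lt_trichotomy i (-1) with h1 | h1 | h1
    · apply Real.log_nonneg
      have : (i:ℝ) ≤ -2 := by exact_mod_cast (by omega : i ≤ -2)
      linarith
    · subst h1; norm_num
    · have : i = 0 := by omega
      subst this; norm_num

lemma tau_nonneg (i : ℤ) : 0 ≤ Real.log (|(i:ℝ)| - 1) := by
  rcases eq_or_ne i 0 with h | h
  · subst h; norm_num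
  · rcases le_or_gt 2 |i| with h1 | h1
    · apply Real.log_nonneg
      have : (2:ℝ) ≤ |(i:ℝ)| := by exact_mod_cast h1
      linarith
    · have h2 : |i| = 1 := by
        have := abs_pos.2 h
        omega
      have : |(i:ℝ)| = 1 := by exact_mod_cast h2
      rw [this]; norm_num

lemma HH_zero : HH 0 = 0 := by simp [HH]

/-- double block sums of `log (|l - l'| - 1)` from below -/
lemma dbl_lower (b b' : ℕ) (R : ℝ) (hb : (b:ℝ) ≤ R) (hb' : (b':ℝ) ≤ R) :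
    HH b + HH b' - HH ((b:ℝ) - b') - 4 * b * er R
      ≤ ∑ l ∈ Ioc 0 b, ∑ l' ∈ Ioc 0 b', Real.log (|(((l:ℤ) - (l':ℤ) : ℤ) : ℝ)| - 1) := by
  have hR0 : (0:ℝ) ≤ R := le_trans (by positivity) hb
  have inner : ∀ l ∈ Ioc 0 b, Fs ((l:ℝ) - ((0:ℤ):ℝ)) - Fs ((l:ℝ) - ((b':ℤ):ℝ)) - 2 * er R
      ≤ ∑ l' ∈ Ioc 0 b', Real.log (|(((l:ℤ) - (l':ℤ) : ℤ) : ℝ)| - 1) := by
    intro l hl
    rw [mem_Ioc] at hl
    have hl1 : (l:ℝ) ≤ b := by exact_mod_cast hl.2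
    have hl0 : (0:ℝ) ≤ l := by positivity
    have hb0 : (0:ℝ) ≤ b' := by positivity
    have h := (abs_le.1 (blk1 (l:ℤ) (Nat.zero_le b'))).1
    have h1 : er (((l:ℤ):ℝ) - ((0:ℕ):ℝ)) ≤ er R := by
      apply er_mono
      rw [abs_of_nonneg hR0]
      push_cast
      rw [abs_of_nonneg (by linarith)]; linarith
    have h2 : er (((l:ℤ):ℝ) - (b':ℝ)) ≤ er R := by
      apply er_mono
      rw [abs_of_nonneg hR0]
      push_cast
      rw [abs_le]; constructor <;> linarith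
    push_cast at h h1 h2 ⊢
    linarith
  refine le_trans ?_ (sum_le_sum inner)
  rw [sum_sub_distrib, sum_sub_distrib, sum_const, Nat.card_Ioc, nsmul_eq_mul, Nat.sub_zero]
  have h3 := abs_le.1 (blkF 0 R (Nat.zero_le b) (by
    intro l hl
    rw [mem_Ioc] at hl
    have hl1 : (l:ℝ) ≤ b := by exact_mod_cast hl.2
    have hl0 : (0:ℝ) ≤ l := by positivity
    push_cast
    rw [abs_of_nonneg (by linarith)]; linarith))
  have h4 := abs_le.1 (blkF (b':ℤ) R (Nat.zero_le b) (by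
    intro l hl
    rw [mem_Ioc] at hl
    have hl1 : (l:ℝ) ≤ b := by exact_mod_cast hl.2
    have hl0 : (0:ℝ) ≤ l := by positivity
    have hb0 : (0:ℝ) ≤ b' := by positivity
    push_cast
    rw [abs_le]; constructor <;> linarith))
  have e1 : (((0:ℕ):ℝ) - ((b':ℤ):ℝ)) = -(b':ℝ) := by push_cast; ring
  rw [e1, HH_neg] at h4
  have e2 : (((0:ℕ):ℝ) - ((0:ℤ):ℝ)) = 0 := by push_cast; ring
  rw [e2, HH_zero] at h3
  have e3 : ((b:ℝ) - ((0:ℤ):ℝ)) = b := by push_cast; ring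
  rw [e3] at h3
  have e4 : ((b:ℝ) - ((b':ℤ):ℝ)) = (b:ℝ) - b' := by push_cast; ring
  rw [e4] at h4
  have e5 : ((b:ℝ) - ((0:ℕ):ℝ)) = b := by push_cast; ring
  rw [e5] at h3 h4
  push_cast at h3 h4 ⊢
  linarith [h3.1, h4.2]

/-- the self-energy of the reference measure from below -/
noncomputable def selfE : ℝ :=
  8 * HH 2 + 2 * HH 4 + 2 * HH 7
    + 4 * (HH 2 + HH 4 - HH 2) + 4 * (HH 2 + HH 7 - HH 5) + 2 * (HH 4 + HH 7 - HH 3)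

lemma W_lower (n e : ℕ) (hn : 1 ≤ n) (he : e ≤ 16) :
    (n:ℝ) ^ 2 * selfE + 225 / 2 * (n:ℝ) ^ 2 * (2 * Real.log n) - 1000 * n * er (7 * n)
      ≤ ∑ l ∈ Ioc 0 (7 * n + e), ∑ l' ∈ Ioc 0 (7 * n + e),
          (nu n e l : ℝ) * (nu n e l' : ℝ) * Real.log (|(((l:ℤ) - (l':ℤ) : ℤ) : ℝ)| - 1) := by
  have hn0 : (0:ℝ) < n := by exact_mod_cast hn
  set τ : ℕ → ℕ → ℝ := fun l l' => Real.log (|(((l:ℤ) - (l':ℤ) : ℤ) : ℝ)| - 1) with hτ
  have τnn : ∀ l l', 0 ≤ τ l l' := fun l l' => tau_nonneg _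
  -- lower multiplicity with `7 n`
  have step : ∀ (b : ℕ), b ≤ 7 * n → ∀ (f : ℕ → ℝ), (∀ l, 0 ≤ f l) →
      ∑ l ∈ Ioc 0 (7 * n), f l ≤ ∑ l ∈ Ioc 0 (7 * n + e), f l := by
    intro b _ f hf
    exact sum_le_sum_of_subset_of_nonneg (Ioc_subset_Ioc_right (by omega)) (fun i _ _ => hf i)
  have e1 : ∑ l ∈ Ioc 0 (7 * n + e), ∑ l' ∈ Ioc 0 (7 * n + e),
          (nu n e l : ℝ) * (nu n e l' : ℝ) * τ l l'
      = ∑ l ∈ Ioc 0 (7 * n + e), (nu n e l : ℝ) *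
          (2 * ∑ l' ∈ Ioc 0 (2 * n), τ l l' + ∑ l' ∈ Ioc 0 (4 * n), τ l l'
            + ∑ l' ∈ Ioc 0 (7 * n + e), τ l l') := by
    refine sum_congr rfl (fun l _ => ?_)
    rw [← sum_nu n e (fun l' => τ l l'), mul_sum]
    refine sum_congr rfl (fun l' _ => ?_)
    ring
  rw [e1, sum_nu n e]
  have mono1 : ∀ l, 2 * ∑ l' ∈ Ioc 0 (2 * n), τ l l' + ∑ l' ∈ Ioc 0 (4 * n), τ l l'
            + ∑ l' ∈ Ioc 0 (7 * n), τ l l' ≤ 2 * ∑ l' ∈ Ioc 0 (2 * n), τ l l' + ∑ l' ∈ Ioc 0 (4 * n), τ l l'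
            + ∑ l' ∈ Ioc 0 (7 * n + e), τ l l' := by
    intro l
    have := step 0 (by omega) (fun l' => τ l l') (fun l' => τnn l l')
    linarith
  have nn1 : ∀ l, 0 ≤ 2 * ∑ l' ∈ Ioc 0 (2 * n), τ l l' + ∑ l' ∈ Ioc 0 (4 * n), τ l l'
            + ∑ l' ∈ Ioc 0 (7 * n + e), τ l l' := by
    intro l
    have h1 : 0 ≤ ∑ l' ∈ Ioc 0 (2 * n), τ l l' := sum_nonneg (fun i _ => τnn l i)
    have h2 : 0 ≤ ∑ l' ∈ Ioc 0 (4 * n), τ l l' := sum_nonneg (fun i _ => τnn l i)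
    have h3 : 0 ≤ ∑ l' ∈ Ioc 0 (7 * n + e), τ l l' := sum_nonneg (fun i _ => τnn l i)
    linarith
  have big : ∀ b : ℕ, ∑ l ∈ Ioc 0 b, (2 * ∑ l' ∈ Ioc 0 (2 * n), τ l l' + ∑ l' ∈ Ioc 0 (4 * n), τ l l'
            + ∑ l' ∈ Ioc 0 (7 * n), τ l l')
      ≤ ∑ l ∈ Ioc 0 b, (2 * ∑ l' ∈ Ioc 0 (2 * n), τ l l' + ∑ l' ∈ Ioc 0 (4 * n), τ l l'
            + ∑ l' ∈ Ioc 0 (7 * n + e), τ l l') := fun b => sum_le_sum (fun l _ => mono1 l)
  have s1 := big (2 * n)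
  have s2 := big (4 * n)
  have s3 := big (7 * n)
  have s4 := step 0 (by omega) _ nn1
  have split : ∀ b : ℕ, ∑ l ∈ Ioc 0 b, (2 * ∑ l' ∈ Ioc 0 (2 * n), τ l l' + ∑ l' ∈ Ioc 0 (4 * n), τ l l'
            + ∑ l' ∈ Ioc 0 (7 * n), τ l l')
      = 2 * ∑ l ∈ Ioc 0 b, ∑ l' ∈ Ioc 0 (2 * n), τ l l' + ∑ l ∈ Ioc 0 b, ∑ l' ∈ Ioc 0 (4 * n), τ l l'
        + ∑ l ∈ Ioc 0 b, ∑ l' ∈ Ioc 0 (7 * n), τ l l' := by
    intro b
    rw [sum_add_distrib, sum_add_distrib, mul_sum]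
  rw [split] at s1 s2 s3
  have R2 : ((2 * n : ℕ) : ℝ) ≤ 7 * n := by push_cast; linarith
  have R4 : ((4 * n : ℕ) : ℝ) ≤ 7 * n := by push_cast; linarith
  have R7 : ((7 * n : ℕ) : ℝ) ≤ 7 * n := by push_cast; linarith
  have d22 : HH ((2 * n : ℕ) : ℝ) + HH ((2 * n : ℕ) : ℝ) - HH (((2 * n : ℕ) : ℝ) - ((2 * n : ℕ) : ℝ))
      - 4 * ((2 * n : ℕ) : ℝ) * er (7 * n) ≤ ∑ l ∈ Ioc 0 (2 * n), ∑ l' ∈ Ioc 0 (2 * n), τ l l' :=
    dbl_lower (2 * n) (2 * n) (7 * n) R2 R2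
  have d24 : HH ((2 * n : ℕ) : ℝ) + HH ((4 * n : ℕ) : ℝ) - HH (((2 * n : ℕ) : ℝ) - ((4 * n : ℕ) : ℝ))
      - 4 * ((2 * n : ℕ) : ℝ) * er (7 * n) ≤ ∑ l ∈ Ioc 0 (2 * n), ∑ l' ∈ Ioc 0 (4 * n), τ l l' :=
    dbl_lower (2 * n) (4 * n) (7 * n) R2 R4
  have d27 : HH ((2 * n : ℕ) : ℝ) + HH ((7 * n : ℕ) : ℝ) - HH (((2 * n : ℕ) : ℝ) - ((7 * n : ℕ) : ℝ))
      - 4 * ((2 * n : ℕ) : ℝ) * er (7 * n) ≤ ∑ l ∈ Ioc 0 (2 * n), ∑ l' ∈ Ioc 0 (7 * n), τ l l' :=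
    dbl_lower (2 * n) (7 * n) (7 * n) R2 R7
  have d42 : HH ((4 * n : ℕ) : ℝ) + HH ((2 * n : ℕ) : ℝ) - HH (((4 * n : ℕ) : ℝ) - ((2 * n : ℕ) : ℝ))
      - 4 * ((4 * n : ℕ) : ℝ) * er (7 * n) ≤ ∑ l ∈ Ioc 0 (4 * n), ∑ l' ∈ Ioc 0 (2 * n), τ l l' :=
    dbl_lower (4 * n) (2 * n) (7 * n) R4 R2
  have d44 : HH ((4 * n : ℕ) : ℝ) + HH ((4 * n : ℕ) : ℝ) - HH (((4 * n : ℕ) : ℝ) - ((4 * n : ℕ) : ℝ))
      - 4 * ((4 * n : ℕ) : ℝ) * er (7 * n) ≤ ∑ l ∈ Ioc 0 (4 * n), ∑ l' ∈ Ioc 0 (4 * n), τ l l' :=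
    dbl_lower (4 * n) (4 * n) (7 * n) R4 R4
  have d47 : HH ((4 * n : ℕ) : ℝ) + HH ((7 * n : ℕ) : ℝ) - HH (((4 * n : ℕ) : ℝ) - ((7 * n : ℕ) : ℝ))
      - 4 * ((4 * n : ℕ) : ℝ) * er (7 * n) ≤ ∑ l ∈ Ioc 0 (4 * n), ∑ l' ∈ Ioc 0 (7 * n), τ l l' :=
    dbl_lower (4 * n) (7 * n) (7 * n) R4 R7
  have d72 : HH ((7 * n : ℕ) : ℝ) + HH ((2 * n : ℕ) : ℝ) - HH (((7 * n : ℕ) : ℝ) - ((2 * n : ℕ) : ℝ))
      - 4 * ((7 * n : ℕ) : ℝ) * er (7 * n) ≤ ∑ l ∈ Ioc 0 (7 * n), ∑ l' ∈ Ioc 0 (2 * n), τ l l' :=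
    dbl_lower (7 * n) (2 * n) (7 * n) R7 R2
  have d74 : HH ((7 * n : ℕ) : ℝ) + HH ((4 * n : ℕ) : ℝ) - HH (((7 * n : ℕ) : ℝ) - ((4 * n : ℕ) : ℝ))
      - 4 * ((7 * n : ℕ) : ℝ) * er (7 * n) ≤ ∑ l ∈ Ioc 0 (7 * n), ∑ l' ∈ Ioc 0 (4 * n), τ l l' :=
    dbl_lower (7 * n) (4 * n) (7 * n) R7 R4
  have d77 : HH ((7 * n : ℕ) : ℝ) + HH ((7 * n : ℕ) : ℝ) - HH (((7 * n : ℕ) : ℝ) - ((7 * n : ℕ) : ℝ))
      - 4 * ((7 * n : ℕ) : ℝ) * er (7 * n) ≤ ∑ l ∈ Ioc 0 (7 * n), ∑ l' ∈ Ioc 0 (7 * n), τ l l' :=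
    dbl_lower (7 * n) (7 * n) (7 * n) R7 R7
  have sc : ∀ c : ℝ, HH ((n:ℝ) * c) = (n:ℝ) ^ 2 * HH c + (n:ℝ) ^ 2 * c ^ 2 * Real.log n / 2 :=
    fun c => HH_scale n c hn0
  have a2 : HH ((2 * n : ℕ) : ℝ) = (n:ℝ) ^ 2 * HH 2 + (n:ℝ) ^ 2 * 2 ^ 2 * Real.log n / 2 := by
    rw [← sc 2]; congr 1; push_cast; ring
  have a4 : HH ((4 * n : ℕ) : ℝ) = (n:ℝ) ^ 2 * HH 4 + (n:ℝ) ^ 2 * 4 ^ 2 * Real.log n / 2 := by
    rw [← sc 4]; congr 1; push_cast; ring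
  have a7 : HH ((7 * n : ℕ) : ℝ) = (n:ℝ) ^ 2 * HH 7 + (n:ℝ) ^ 2 * 7 ^ 2 * Real.log n / 2 := by
    rw [← sc 7]; congr 1; push_cast; ring
  have z0 : ∀ b : ℕ, HH (((b:ℕ):ℝ) - ((b:ℕ):ℝ)) = 0 := by intro b; rw [sub_self]; exact HH_zero
  have b24 : HH (((2 * n : ℕ) : ℝ) - ((4 * n : ℕ) : ℝ)) = (n:ℝ) ^ 2 * HH 2 + (n:ℝ) ^ 2 * 2 ^ 2 * Real.log n / 2 := by
    rw [← sc 2, ← HH_neg]; congr 1; push_cast; ring
  have b42 : HH (((4 * n : ℕ) : ℝ) - ((2 * n : ℕ) : ℝ)) = (n:ℝ) ^ 2 * HH 2 + (n:ℝ) ^ 2 * 2 ^ 2 * Real.log n / 2 := by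
    rw [← sc 2]; congr 1; push_cast; ring
  have b27 : HH (((2 * n : ℕ) : ℝ) - ((7 * n : ℕ) : ℝ)) = (n:ℝ) ^ 2 * HH 5 + (n:ℝ) ^ 2 * 5 ^ 2 * Real.log n / 2 := by
    rw [← sc 5, ← HH_neg]; congr 1; push_cast; ring
  have b72 : HH (((7 * n : ℕ) : ℝ) - ((2 * n : ℕ) : ℝ)) = (n:ℝ) ^ 2 * HH 5 + (n:ℝ) ^ 2 * 5 ^ 2 * Real.log n / 2 := by
    rw [← sc 5]; congr 1; push_cast; ring
  have b47 : HH (((4 * n : ℕ) : ℝ) - ((7 * n : ℕ) : ℝ)) = (n:ℝ) ^ 2 * HH 3 + (n:ℝ) ^ 2 * 3 ^ 2 * Real.log n / 2 := by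
    rw [← sc 3, ← HH_neg]; congr 1; push_cast; ring
  have b74 : HH (((7 * n : ℕ) : ℝ) - ((4 * n : ℕ) : ℝ)) = (n:ℝ) ^ 2 * HH 3 + (n:ℝ) ^ 2 * 3 ^ 2 * Real.log n / 2 := by
    rw [← sc 3]; congr 1; push_cast; ring
  rw [z0, a2] at d22
  rw [z0, a4] at d44
  rw [z0, a7] at d77
  rw [b24, a2, a4] at d24
  rw [b42, a2, a4] at d42
  rw [b27, a2, a7] at d27
  rw [b72, a2, a7] at d72
  rw [b47, a4, a7] at d47
  rw [b74, a4, a7] at d74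
  have her := er_pos (7 * (n:ℝ))
  have hne : 0 ≤ (n:ℝ) * er (7 * n) := by positivity
  unfold selfE
  have c2 : ((2 * n : ℕ) : ℝ) = 2 * n := by push_cast; ring
  have c4 : ((4 * n : ℕ) : ℝ) = 4 * n := by push_cast; ring
  have c7 : ((7 * n : ℕ) : ℝ) = 7 * n := by push_cast; ring
  rw [c2] at d22 d24 d27
  rw [c4] at d42 d44 d47
  rw [c7] at d72 d74 d77
  linarith [d22, d24, d27, d42, d44, d47, d72, d74, d77, s1, s2, s3, s4, hne]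

/-- effective potential of a particle in unit `k` (without masses of size `e^{O(log)}`) -/
noncomputable def Gk (A n e k : ℕ) : ℝ :=
  2 * ∑ l ∈ Ioc 0 (7 * n + e), (nu n e l : ℝ) * Real.log (|(((k:ℤ) - (l:ℤ) : ℤ) : ℝ)| + 2)
    - ∑ m ∈ Ioc 0 A, Real.log ((m:ℝ) + k)
    - ∑ j ∈ Ioc 2 (A + 2), lgi ((k:ℤ) - j)
    - 7 * k

/-- the limit potential -/
noncomputable def Gt (y : ℝ) : ℝ :=
  8 * Fs y - 4 * Fs (y - 2) - 2 * Fs (y - 4) - 2 * Fs (y - 7) - Fs (y + 10) + Fs (y - 10) - 7 * y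

lemma Gk_le (A n e k : ℕ) (hn : 1 ≤ n) (he : e ≤ 16) (hA : 10 * n + 2 ≤ A) :
    Gk A n e k ≤ n * Gt ((k:ℝ) / n) + 10 * n * Real.log n + 100 * er ((k:ℝ) + 30 * n) := by
  have hn1 : (1:ℝ) ≤ n := by exact_mod_cast hn
  have hn0 : (0:ℝ) < n := by linarith
  have hk0 : (0:ℝ) ≤ k := by positivity
  have he' : (e:ℝ) ≤ 16 := by exact_mod_cast he
  set E := er ((k:ℝ) + 30 * n) with hE
  have hEpos : 0 < E := er_pos _
  have erle : ∀ x : ℝ, |x| ≤ k + 30 * n → er x ≤ E := by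
    intro x hx
    apply er_mono
    rw [abs_of_nonneg (by positivity : (0:ℝ) ≤ (k:ℝ) + 30 * n)]
    exact hx
  have logle : ∀ x : ℝ, 0 < x → x ≤ k + 30 * n → Real.log x ≤ E := by
    intro x hx0 hx
    have h1 : Real.log x ≤ Real.log (|(k:ℝ) + 30 * n| + 3) := by
      apply Real.log_le_log hx0
      rw [abs_of_nonneg (by positivity)]
      linarith
    have h2 : 0 ≤ Real.log (|(k:ℝ) + 30 * n| + 3) :=
      Real.log_nonneg (by have := abs_nonneg ((k:ℝ) + 30 * n); linarith)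
    rw [hE]; unfold er
    linarith
  -- prefix sums
  have P : ∀ b : ℕ, (b:ℝ) ≤ 7 * n → ∑ l ∈ Ioc 0 b, Real.log (|(((k:ℤ) - (l:ℤ) : ℤ) : ℝ)| + 2)
      ≤ Fs k - Fs ((k:ℝ) - b) + 4 * E := by
    intro b hb
    have h := blk2_le (k:ℤ) (Nat.zero_le b)
    have hb0 : (0:ℝ) ≤ b := by positivity
    have h1 := erle (((k:ℤ):ℝ) - ((0:ℕ):ℝ)) (by
      push_cast; rw [abs_of_nonneg (by linarith)]; linarith)
    have h2 := erle (((k:ℤ):ℝ) - (b:ℝ)) (by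
      push_cast; rw [abs_le]; constructor <;> linarith)
    have e1 : (((k:ℤ):ℝ) - ((0:ℕ):ℝ)) = k := by push_cast; ring
    have e2 : (((k:ℤ):ℝ) - (b:ℝ)) = (k:ℝ) - b := by push_cast; ring
    rw [e1] at h1
    rw [e2] at h2
    rw [e1, e2] at h
    linarith
  have c2 : ((2 * n : ℕ) : ℝ) = 2 * n := by push_cast; ring
  have c4 : ((4 * n : ℕ) : ℝ) = 4 * n := by push_cast; ring
  have c7 : ((7 * n : ℕ) : ℝ) = 7 * n := by push_cast; ring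
  have P2 := P (2 * n) (by rw [c2]; linarith)
  have P4 := P (4 * n) (by rw [c4]; linarith)
  have P7 := P (7 * n) (by rw [c7])
  rw [c2] at P2
  rw [c4] at P4
  rw [c7] at P7
  have P7e : ∑ l ∈ Ioc 0 (7 * n + e), Real.log (|(((k:ℤ) - (l:ℤ) : ℤ) : ℝ)| + 2)
      ≤ Fs k - Fs ((k:ℝ) - 7 * n) + 20 * E := by
    have h1 : ∑ l ∈ Ioc 0 (7 * n + e), Real.log (|(((k:ℤ) - (l:ℤ) : ℤ) : ℝ)| + 2)
        = ∑ l ∈ Ioc 0 (7 * n), Real.log (|(((k:ℤ) - (l:ℤ) : ℤ) : ℝ)| + 2)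
          + ∑ l ∈ Ioc (7 * n) (7 * n + e), Real.log (|(((k:ℤ) - (l:ℤ) : ℤ) : ℝ)| + 2) := by
      rw [← sum_union]
      · congr 1
        ext x; simp only [mem_union, mem_Ioc]; omega
      · rw [disjoint_left]; intro x; simp only [mem_Ioc]; omega
    have h2 : ∑ l ∈ Ioc (7 * n) (7 * n + e), Real.log (|(((k:ℤ) - (l:ℤ) : ℤ) : ℝ)| + 2)
        ≤ ∑ l ∈ Ioc (7 * n) (7 * n + e), E := by
      refine sum_le_sum (fun l hl => ?_)
      rw [mem_Ioc] at hl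
      have hl2 : (l:ℝ) ≤ 7 * n + e := by exact_mod_cast hl.2
      have hl0 : (0:ℝ) ≤ l := by positivity
      apply logle _ (by positivity)
      push_cast
      have : |(k:ℝ) - l| ≤ k + l := by rw [abs_le]; constructor <;> linarith
      linarith
    rw [sum_const, Nat.card_Ioc, nsmul_eq_mul] at h2
    have h3 : ((7 * n + e - 7 * n : ℕ) : ℝ) * E ≤ 16 * E := by
      have : 7 * n + e - 7 * n = e := by omega
      rw [this]
      exact mul_le_mul_of_nonneg_right he' hEpos.le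
    rw [h1]; linarith
  have Sn := sum_nu n e (fun l => Real.log (|(((k:ℤ) - (l:ℤ) : ℤ) : ℝ)| + 2))
  -- right nodes
  have R1 : Fs ((k:ℝ) + 10 * n) - Fs k - 2 * E ≤ ∑ m ∈ Ioc 0 A, Real.log ((m:ℝ) + k) := by
    have h1 : ∑ m ∈ Ioc 0 (10 * n), Real.log ((m:ℝ) + k) ≤ ∑ m ∈ Ioc 0 A, Real.log ((m:ℝ) + k) := by
      refine sum_le_sum_of_subset_of_nonneg (Ioc_subset_Ioc_right (by omega)) (fun m hm _ => ?_)
      rw [mem_Ioc] at hm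
      apply Real.log_nonneg
      have : (1:ℝ) ≤ m := by exact_mod_cast hm.1
      linarith
    have h := (abs_le.1 (blk0 (-(k:ℤ)) (Nat.zero_le (10 * n)))).1
    have e0 : ∑ l ∈ Ioc 0 (10 * n), Real.log |((-(k:ℤ) - (l:ℤ) : ℤ) : ℝ)|
        = ∑ m ∈ Ioc 0 (10 * n), Real.log ((m:ℝ) + k) := by
      refine sum_congr rfl (fun l _ => ?_)
      congr 1
      push_cast
      have hl0 : (0:ℝ) ≤ l := by positivity
      rw [abs_of_nonpos (by linarith)]; ring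
    rw [e0] at h
    have e1 : (((-(k:ℤ) : ℤ) : ℝ) - ((0:ℕ):ℝ)) = -(k:ℝ) := by push_cast; ring
    have e2 : (((-(k:ℤ) : ℤ) : ℝ) - ((10 * n : ℕ):ℝ)) = -((k:ℝ) + 10 * n) := by push_cast; ring
    rw [e1, e2, Fs_neg, Fs_neg, er_neg, er_neg] at h
    have h3 := erle (k:ℝ) (by rw [abs_of_nonneg hk0]; linarith)
    have h4 := erle ((k:ℝ) + 10 * n) (by rw [abs_of_nonneg (by linarith)]; linarith)
    linarith
  -- left nodes
  have R2 : Fs (k:ℝ) - Fs ((k:ℝ) - 10 * n) - 4 * E ≤ ∑ j ∈ Ioc 2 (A + 2), lgi ((k:ℤ) - j) := by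
    have h1 : ∑ j ∈ Ioc 2 (10 * n), lgi ((k:ℤ) - j) ≤ ∑ j ∈ Ioc 2 (A + 2), lgi ((k:ℤ) - j) :=
      sum_le_sum_of_subset_of_nonneg (Ioc_subset_Ioc_right (by omega)) (fun m _ _ => lgi_nonneg _)
    have h2 : ∑ j ∈ Ioc 0 (10 * n), lgi ((k:ℤ) - j)
        = ∑ j ∈ Ioc (0:ℕ) 2, lgi ((k:ℤ) - (j:ℕ)) + ∑ j ∈ Ioc 2 (10 * n), lgi ((k:ℤ) - j) := by
      rw [← sum_union]
      · congr 1
        ext x; simp only [mem_union, mem_Ioc]; omega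
      · rw [disjoint_left]; intro x; simp only [mem_Ioc]; omega
    have h3 : ∑ j ∈ Ioc (0:ℕ) 2, lgi ((k:ℤ) - (j:ℕ)) ≤ ∑ j ∈ Ioc (0:ℕ) 2, E := by
      refine sum_le_sum (fun j hj => ?_)
      rw [mem_Ioc] at hj
      unfold lgi
      split_ifs with hh
      · apply logle _ (by exact_mod_cast hh)
        push_cast
        have hj0 : (0:ℝ) ≤ j := by positivity
        linarith
      · rcases lt_trichotomy ((k:ℤ) - j) (-1) with h5 | h5 | h5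
        · apply logle
          · have : ((((k:ℤ) - j : ℤ)) : ℝ) ≤ -2 := by exact_mod_cast (by omega : (k:ℤ) - j ≤ -2)
            linarith
          · push_cast
            have hj2 : (j:ℝ) ≤ 2 := by exact_mod_cast hj.2
            linarith
        · rw [h5]; norm_num; exact hEpos.le
        · have : (k:ℤ) - j = 0 := by omega
          rw [this]; norm_num; exact hEpos.le
    rw [sum_const, Nat.card_Ioc, nsmul_eq_mul] at h3
    have h := (abs_le.1 (blk3 (k:ℤ) (Nat.zero_le (10 * n)))).1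
    have e1 : (((k:ℤ) : ℝ) - ((0:ℕ):ℝ)) = (k:ℝ) := by push_cast; ring
    have e2 : (((k:ℤ) : ℝ) - ((10 * n : ℕ):ℝ)) = (k:ℝ) - 10 * n := by push_cast; ring
    rw [e1, e2] at h
    have h5 := erle (k:ℝ) (by rw [abs_of_nonneg hk0]; linarith)
    have h6 := erle ((k:ℝ) - 10 * n) (by rw [abs_le]; constructor <;> linarith)
    have h7 : (((2 - 0 : ℕ)) : ℝ) * E = 2 * E := by norm_num
    rw [h7] at h3
    linarith
  -- scaling
  have sc : ∀ b : ℝ, Fs ((k:ℝ) - b * n) = n * Fs ((k:ℝ) / n - b) + (k - b * n) * Real.log n := by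
    intro b
    have h := Fs_scale n ((k:ℝ) / n - b) hn0
    have e1 : (n:ℝ) * ((k:ℝ) / n - b) = k - b * n := by field_simp
    rw [e1] at h
    exact h
  have s0 := sc 0
  have s2 := sc 2
  have s4 := sc 4
  have s7 := sc 7
  have s10 := sc 10
  have sm := sc (-10)
  have e0 : (k:ℝ) - 0 * n = k := by ring
  have e0' : (k:ℝ) / n - 0 = k / n := by ring
  rw [e0, e0'] at s0
  have em : (k:ℝ) - (-10) * n = k + 10 * n := by ring
  have em' : (k:ℝ) / n - (-10) = k / n + 10 := by ring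
  rw [em, em'] at sm
  have hk : (n:ℝ) * ((k:ℝ) / n) = k := by field_simp
  unfold Gk Gt
  rw [Sn]
  rw [s0] at P2 P4 P7e R1 R2
  rw [s2] at P2
  rw [s4] at P4
  rw [s7] at P7e
  rw [sm] at R1
  rw [s10] at R2
  have hk7 : 7 * (k:ℝ) = n * (7 * ((k:ℝ) / n)) := by rw [← hk]; field_simp
  nlinarith [P2, P4, P7e, R1, R2, hEpos]

end Pool.QS2E
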