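import Pool.Agent.QS2.EnMain

/-! Weights of the right nodes (QS2, phase 2: measure). -/

set_option autoImplicit false

namespace Pool.QS2E

open Finset
open Pool.Agent.QS2 (phi phi_eval)

lemma S_ge_log (A : ℕ) : (A:ℝ) * Real.log A - A ≤ S A := S_ge A

/-- `log ((m-1)! (A-m)!)` from below -/
lemma split_fact (A m : ℕ) (hm : 1 ≤ m) (hmA : m ≤ A) :
    (A:ℝ) * Real.log A - 3 * A ≤ S (m - 1) + S (A - m) := by
  have h1 : ((A - 1).choose (m - 1)) * (m - 1).factorial * (A - m).factorial = (A - 1).factorial := by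
    have := Nat.choose_mul_factorial_mul_factorial (show m - 1 ≤ A - 1 by omega)
    have e : A - 1 - (m - 1) = A - m := by omega
    rw [e] at this
    exact this
  have h2 : (A - 1).choose (m - 1) ≤ 2 ^ (A - 1) := Nat.choose_le_two_pow _ _
  have h3 : (A - 1).factorial ≤ 2 ^ (A - 1) * ((m - 1).factorial * (A - m).factorial) := by
    rw [← h1, mul_assoc]
    exact Nat.mul_le_mul_right _ h2
  have h4 : A.factorial ≤ A * (2 ^ (A - 1) * ((m - 1).factorial * (A - m).factorial)) := by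
    have e : A = (A - 1) + 1 := by omega
    calc A.factorial = A * (A - 1).factorial := by
          conv_lhs => rw [e, Nat.factorial_succ]
          rw [← e]
      _ ≤ _ := Nat.mul_le_mul_left _ h3
  have hA0 : (0:ℝ) < A := by exact_mod_cast (by omega : 0 < A)
  have h5 : S A ≤ Real.log A + ((A - 1 : ℕ) : ℝ) * Real.log 2 + (S (m - 1) + S (A - m)) := by
    unfold S
    have h6 : (A.factorial : ℝ) ≤ (A:ℝ) * (2 ^ (A - 1) * (((m - 1).factorial : ℝ) * ((A - m).factorial : ℝ))) := by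
      exact_mod_cast h4
    have h7 := Real.log_le_log (by exact_mod_cast A.factorial_pos) h6
    have f1 : (0:ℝ) < ((m - 1).factorial : ℝ) := by exact_mod_cast Nat.factorial_pos _
    have f2 : (0:ℝ) < ((A - m).factorial : ℝ) := by exact_mod_cast Nat.factorial_pos _
    rw [Real.log_mul hA0.ne' (by positivity), Real.log_mul (by positivity) (by positivity),
      Real.log_mul f1.ne' f2.ne', Real.log_pow] at h7
    linarith
  have h8 := S_ge_log A
  have h9 : Real.log A ≤ A - 1 := Real.log_le_sub_one_of_pos hA0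
  have h10 : ((A - 1 : ℕ) : ℝ) * Real.log 2 ≤ A := by
    have e : ((A - 1 : ℕ) : ℝ) = (A:ℝ) - 1 := by rw [Nat.cast_sub (by omega)]; simp
    have := Real.log_two_lt_d9
    have h11 : (1:ℝ) ≤ A := by exact_mod_cast (by omega : 1 ≤ A)
    rw [e]
    nlinarith
  linarith

/-- the right nodes other than `m` -/
lemma right_prod (A m : ℕ) (hm : m ∈ Ioc 0 A) :
    Real.exp ((A:ℝ) * Real.log A - 3 * A) ≤ ∏ m' ∈ (Ioc 0 A).erase m, ‖(m':ℂ) - (m:ℂ)‖ := by
  rw [mem_Ioc] at hm
  refine (Real.exp_le_exp.2 (split_fact A m hm.1 hm.2)).trans ?_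
  have e1 : (Ioc 0 A).erase m = Ioc 0 (m - 1) ∪ Ioc m A := by
    ext x; simp only [mem_erase, mem_Ioc, mem_union]; omega
  have e2 : Disjoint (Ioc 0 (m - 1)) (Ioc m A) := by
    rw [disjoint_left]; intro x; simp only [mem_Ioc]; omega
  rw [e1, prod_union e2, Real.exp_add]
  have hS : ∀ k : ℕ, Real.exp (S k) = (k.factorial : ℝ) := by
    intro k; unfold S; rw [Real.exp_log (by exact_mod_cast k.factorial_pos)]
  have a1 : ∏ m' ∈ Ioc 0 (m - 1), ‖(m':ℂ) - (m:ℂ)‖ = ((m - 1).factorial : ℝ) := by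
    have h : ∀ k : ℕ, k < m → ∏ m' ∈ Ioc 0 k, ‖(m':ℂ) - (m:ℂ)‖ * 1 =
        ((m - 1).factorial : ℝ) / ((m - 1 - k).factorial : ℝ) := by
      intro k
      induction k with
      | zero =>
        intro _
        have : (((m - 1).factorial : ℝ)) ≠ 0 := by exact_mod_cast Nat.factorial_ne_zero _
        simp [this]
      | succ k ih =>
        intro hk
        rw [prod_Ioc_succ_top (by omega), ih (by omega)]
        have e3 : ‖(((k + 1 : ℕ)) : ℂ) - (m:ℂ)‖ = ((m - 1 - k : ℕ) : ℝ) := by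
          have : (((k + 1 : ℕ)) : ℂ) - (m:ℂ) = -(((m - 1 - k : ℕ) : ℝ) : ℂ) := by
            have h9 : ((m - 1 - k : ℕ) : ℝ) = (m:ℝ) - 1 - k := by
              rw [Nat.cast_sub (by omega), Nat.cast_sub (by omega)]; simp
            rw [h9]; push_cast; ring
          rw [this, norm_neg, Complex.norm_real, Real.norm_eq_abs, abs_of_nonneg (by positivity)]
        rw [e3]
        have e4 : m - 1 - k = (m - 1 - (k + 1)) + 1 := by omega
        have f1 : (((m - 1 - (k + 1)).factorial : ℝ)) ≠ 0 := by exact_mod_cast Nat.factorial_ne_zero _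
        have f2 : (((m - 1 - (k + 1) + 1 : ℕ)) : ℝ) ≠ 0 := by positivity
        rw [e4, Nat.factorial_succ]
        push_cast
        push_cast at f2
        field_simp
    have := h (m - 1) (by omega)
    simp only [mul_one, Nat.sub_self, Nat.factorial_zero, Nat.cast_one, div_one] at this
    exact this
  have a2 : ∏ m' ∈ Ioc m A, ‖(m':ℂ) - (m:ℂ)‖ = ((A - m).factorial : ℝ) := by
    have h : ∀ k : ℕ, ∏ m' ∈ Ioc m (m + k), ‖(m':ℂ) - (m:ℂ)‖ = (k.factorial : ℝ) := by
      intro k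
      induction k with
      | zero => simp
      | succ k ih =>
        rw [← add_assoc, prod_Ioc_succ_top (by omega), ih]
        have e3 : ‖(((m + k + 1 : ℕ)) : ℂ) - (m:ℂ)‖ = ((k + 1 : ℕ) : ℝ) := by
          have : (((m + k + 1 : ℕ)) : ℂ) - (m:ℂ) = (((k + 1 : ℕ) : ℝ) : ℂ) := by push_cast; ring
          rw [this, Complex.norm_real, Real.norm_eq_abs, abs_of_nonneg (by positivity)]
        rw [e3, Nat.factorial_succ]
        push_cast; ring
    have := h (A - m)
    have e3 : m + (A - m) = A := by omega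
    rw [e3] at this
    exact this
  rw [a1, a2, hS, hS]

/-- the left nodes seen from a right node -/
lemma left_prod (A m : ℕ) :
    Real.exp ((A:ℝ) * Real.log A - A) ≤ ∏ j ∈ Ioc 2 (A + 2), ‖(-(j:ℂ)) - (m:ℂ)‖ := by
  refine (Real.exp_le_exp.2 (S_ge_log A)).trans ?_
  have hS : Real.exp (S A) = (A.factorial : ℝ) := by
    unfold S; rw [Real.exp_log (by exact_mod_cast A.factorial_pos)]
  rw [hS]
  have h : ∀ k : ℕ, (k.factorial : ℝ) ≤ ∏ j ∈ Ioc 2 (k + 2), ‖(-(j:ℂ)) - (m:ℂ)‖ := by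
    intro k
    induction k with
    | zero => simp
    | succ k ih =>
      have e1 : k + 1 + 2 = (k + 2) + 1 := by ring
      rw [e1, prod_Ioc_succ_top (by omega), Nat.factorial_succ]
      have e3 : ‖(-(((k + 2 + 1 : ℕ)) : ℂ)) - (m:ℂ)‖ = (k:ℝ) + 3 + m := by
        have : (-(((k + 2 + 1 : ℕ)) : ℂ)) - (m:ℂ) = -(((k:ℝ) + 3 + m : ℝ) : ℂ) := by push_cast; ring
        rw [this, norm_neg, Complex.norm_real, Real.norm_eq_abs, abs_of_nonneg (by positivity)]
      rw [e3]
      push_cast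
      have hm0 : (0:ℝ) ≤ m := by positivity
      have hk0 : (0:ℝ) ≤ k := by positivity
      calc ((k:ℝ) + 1) * (k.factorial : ℝ) ≤ ((k:ℝ) + 3 + m) * ∏ j ∈ Ioc 2 (k + 2), ‖(-(j:ℂ)) - (m:ℂ)‖ :=
            mul_le_mul (by linarith) ih (by positivity) (by positivity)
        _ = _ := by ring
  exact h A

/-- all units are at most `7 n + e` -/
lemma un_le (n e c : ℕ) (un : Fin c → ℕ)
    (hF : ∀ F : ℕ → ℝ, ∑ i, F (un i) = ∑ l ∈ Ioc 0 (7 * n + e), (nu n e l : ℝ) * F l) (i : Fin c) :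
    un i ≤ 7 * n + e := by
  by_contra hcon
  have h := hF (fun l => if 7 * n + e < l then (1:ℝ) else 0)
  have h0 : ∑ l ∈ Ioc 0 (7 * n + e), (nu n e l : ℝ) * (if 7 * n + e < l then (1:ℝ) else 0) = 0 := by
    refine sum_eq_zero (fun l hl => ?_)
    rw [mem_Ioc] at hl
    rw [if_neg (by omega), mul_zero]
  rw [h0] at h
  have h1 : (1:ℝ) ≤ ∑ i, (if 7 * n + e < un i then (1:ℝ) else 0) := by
    have h2 := single_le_sum (f := fun i => (if 7 * n + e < un i then (1:ℝ) else 0))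
      (fun k _ => by split_ifs <;> norm_num) (mem_univ i)
    rw [if_pos (by omega)] at h2
    exact h2
  linarith

/-- **Weight of a right node** `m`. -/
theorem right_weight (A rho n e : ℕ) (hA : 12 ≤ A) (h1 : 2 * rho ≤ A) (h2 : A ≤ 2 * rho + 2)
    (he : e ≤ 16) (hn1 : 10 * n + 2 ≤ A) (hc : A + rho = 15 * n + e)
    (z : Fin (A + rho) → ℝ) (un : Fin (A + rho) → ℕ)
    (hz : ∀ i, 1 ≤ un i ∧ |z i + un i| ≤ 1 / 4 ∧ 1 / 8 ≤ |z i + un i|)
    (hF : ∀ F : ℕ → ℝ, ∑ i, F (un i) = ∑ l ∈ Ioc 0 (7 * n + e), (nu n e l : ℝ) * F l)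
    (m : ℕ) (hm : m ∈ Ioc 0 A) (i j : Fin (A + rho)) :
    ‖(phi (fun i => (z i : ℂ)) i * phi (fun i => (z i : ℂ)) j).eval (m:ℂ)‖
      ≤ Real.exp (lamE A n + 40 * A) *
        ((∏ m' ∈ (Ioc 0 A).erase m, ‖(m':ℂ) - (m:ℂ)‖) *
          ∏ j ∈ Ioc 2 (A + 2), ‖(-(j:ℂ)) - (m:ℂ)‖) := by
  have hun : ∀ i, un i ≤ 7 * n + e := un_le n e _ un hF
  have hA' : (12:ℝ) ≤ A := by exact_mod_cast hA
  have hmA := mem_Ioc.1 hm
  have hm' : (m:ℝ) ≤ A := by exact_mod_cast hmA.2
  have hm0 : (1:ℝ) ≤ m := by exact_mod_cast hmA.1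
  have g1 : (2 * rho : ℝ) ≤ A := by exact_mod_cast h1
  have g3 : (10 * n + 2 : ℝ) ≤ A := by exact_mod_cast hn1
  have hn2 : A ≤ 10 * n + 11 := by omega
  have g4 : (A:ℝ) ≤ 10 * n + 11 := by exact_mod_cast hn2
  have ge : (e:ℝ) ≤ 16 := by exact_mod_cast he
  have hlogA0 : 0 ≤ Real.log (A:ℝ) := Real.log_nonneg (by linarith)
  -- upper bound of the polynomials
  have a1 : ∀ i, ‖(phi (fun i => (z i : ℂ)) i).eval (m:ℂ)‖ ≤ Real.exp ((3 / 2 * A) * (Real.log A + 2)) := by
    intro i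
    rw [phi_eval, norm_prod]
    have b1 : ∀ k ∈ univ.erase i, ‖(m:ℂ) - (z k : ℂ)‖ ≤ Real.exp (Real.log A + 2) := by
      intro k _
      have e1 : (m:ℂ) - (z k : ℂ) = (((m:ℝ) - z k : ℝ) : ℂ) := by push_cast; ring
      rw [e1, Complex.norm_real, Real.norm_eq_abs]
      have hk := abs_le.1 (hz k).2.1
      have hu : (un k : ℝ) ≤ 7 * n + e := by exact_mod_cast hun k
      have hu1 : (1:ℝ) ≤ un k := by exact_mod_cast (hz k).1
      have b2 : |(m:ℝ) - z k| ≤ 4 * A := by
        rw [abs_le]; constructor <;> linarith [hk.1, hk.2]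
      refine b2.trans ?_
      rw [Real.exp_add, Real.exp_log (by linarith)]
      have h3 : (4:ℝ) ≤ Real.exp 2 := by
        have h4 := Real.exp_one_gt_d9
        have h5 : Real.exp 2 = Real.exp 1 * Real.exp 1 := by rw [← Real.exp_add]; norm_num
        rw [h5]; nlinarith
      nlinarith
    refine (prod_le_prod (fun _ _ => norm_nonneg _) b1).trans ?_
    rw [prod_const, ← Real.exp_nat_mul]
    apply Real.exp_le_exp.2
    have b3 : ((#(univ.erase i : Finset (Fin (A + rho))) : ℕ) : ℝ) ≤ 3 / 2 * A := by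
      have b4 : #(univ.erase i : Finset (Fin (A + rho))) ≤ A + rho := by
        rw [card_erase_of_mem (mem_univ i), card_univ, Fintype.card_fin]; omega
      have b5 : ((#(univ.erase i : Finset (Fin (A + rho))) : ℕ) : ℝ) ≤ ((A + rho : ℕ) : ℝ) := by
        exact_mod_cast b4
      push_cast at b5
      linarith
    exact mul_le_mul_of_nonneg_right b3 (by linarith)
  rw [Polynomial.eval_mul, norm_mul]
  have a2 := mul_le_mul (a1 i) (a1 j) (norm_nonneg _) (Real.exp_pos _).le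
  refine a2.trans ?_
  have r1 := right_prod A m hm
  have r2 := left_prod A m
  have r3 := mul_le_mul r1 r2 (Real.exp_pos _).le (prod_nonneg (fun _ _ => norm_nonneg _))
  refine le_trans ?_ (mul_le_mul_of_nonneg_left r3 (Real.exp_pos _).le)
  rw [← Real.exp_add, ← Real.exp_add, ← Real.exp_add]
  apply Real.exp_le_exp.2
  -- lower bound of lamE
  have htan := Pool.Agent.QS2.psi_tan (A:ℝ) (10 * n) (by linarith) (by linarith)
  unfold Pool.Agent.QS2.psi at htan
  have hE := er_pos (5 * (A:ℝ))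
  have l1 : (A - 10 * n) * Real.log (A:ℝ) ≤ 11 * Real.log A :=
    mul_le_mul_of_nonneg_right (by linarith) hlogA0
  have l2 : Real.log (A:ℝ) ≤ A - 1 := Real.log_le_sub_one_of_pos (by linarith)
  unfold lamE
  nlinarith

end Pool.QS2E
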