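import Pool.Agent.QS2.EnDisc
import Pool.Agent.QS2.CertReal
import Pool.Agent.QS2.LagDet

/-! Reference points and the combined energy estimate (QS2, two-sided, cap 4). -/

namespace Pool.QS2E

open Finset

noncomputable def off (o : ℕ) : ℝ :=
  if o = 0 then 1 / 8 else if o = 1 then -(1 / 8) else if o = 2 then 1 / 4 else -(1 / 4)

lemma off_abs (o : ℕ) : |off o| ≤ 1 / 4 ∧ 1 / 8 ≤ |off o| := by
  unfold off
  split_ifs <;> (try rw [abs_neg]) <;> rw [abs_of_nonneg (by norm_num)] <;> norm_num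

lemma off_sep {o o' : ℕ} (h : o < 4) (h' : o' < 4) (hne : o ≠ o') : 1 / 8 ≤ |off o - off o'| := by
  interval_cases o <;> interval_cases o' <;> simp_all [off] <;> norm_num [abs_le, le_abs]

def PP (n e : ℕ) : Finset ((_ : ℕ) × ℕ) := (Ioc 0 (7 * n + e)).sigma (fun l => range (nu n e l))

lemma PP_card (n e : ℕ) : (PP n e).card = 15 * n + e := by
  unfold PP
  rw [card_sigma]
  simp only [card_range]
  exact sum_nu_card n e

/-- the reference points -/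
theorem exists_z (n e c : ℕ) (hc : c = 15 * n + e) :
    ∃ (z : Fin c → ℝ) (un : Fin c → ℕ),
      (∀ i, 1 ≤ un i ∧ |z i + un i| ≤ 1 / 4 ∧ 1 / 8 ≤ |z i + un i|) ∧
      (∀ i j, i ≠ j → 1 / 8 ≤ |z i - z j|) ∧
      (∀ F : ℕ → ℝ, ∑ i, F (un i) = ∑ l ∈ Ioc 0 (7 * n + e), (nu n e l : ℝ) * F l) := by
  have hcard : (PP n e).card = c := by rw [PP_card, hc]
  let E := (PP n e).equivFinOfCardEq hcard
  refine ⟨fun i => -((E.symm i).1.1 : ℝ) + off (E.symm i).1.2, fun i => (E.symm i).1.1, ?_, ?_, ?_⟩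
  · intro i
    have hm := (E.symm i).2
    unfold PP at hm
    rw [mem_sigma, mem_Ioc] at hm
    have e1 : -((E.symm i).1.1 : ℝ) + off (E.symm i).1.2 + ((E.symm i).1.1 : ℝ) = off (E.symm i).1.2 := by
      ring
    rw [e1]
    exact ⟨hm.1.1, off_abs _⟩
  · intro i j hij
    have hi := (E.symm i).2
    have hj := (E.symm j).2
    unfold PP at hi hj
    rw [mem_sigma, mem_Ioc, mem_range] at hi hj
    have hne : E.symm i ≠ E.symm j := fun h => hij (E.symm.injective h)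
    by_cases h : (E.symm i).1.1 = (E.symm j).1.1
    · have h2 : (E.symm i).1.2 ≠ (E.symm j).1.2 := by
        intro h2
        apply hne
        apply Subtype.ext
        exact Sigma.ext h (heq_of_eq h2)
      have e1 : -((E.symm i).1.1 : ℝ) + off (E.symm i).1.2 - (-((E.symm j).1.1 : ℝ) + off (E.symm j).1.2)
          = off (E.symm i).1.2 - off (E.symm j).1.2 := by rw [h]; ring
      rw [e1]
      exact off_sep (lt_of_lt_of_le hi.2 (nu_le _ _ _)) (lt_of_lt_of_le hj.2 (nu_le _ _ _)) h2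
    · have h1 := abs_le.1 (off_abs (E.symm i).1.2).1
      have h2 := abs_le.1 (off_abs (E.symm j).1.2).1
      rcases lt_or_gt_of_ne h with h3 | h3
      · have h4 : ((E.symm i).1.1 : ℝ) + 1 ≤ (E.symm j).1.1 := by exact_mod_cast h3
        rw [le_abs]; left; linarith [h1.1, h1.2, h2.1, h2.2]
      · have h4 : ((E.symm j).1.1 : ℝ) + 1 ≤ (E.symm i).1.1 := by exact_mod_cast h3
        rw [le_abs]; right; linarith [h1.1, h1.2, h2.1, h2.2]
  · intro F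
    have h1 : ∑ i : Fin c, F ((E.symm i).1.1) = ∑ p : (PP n e : Finset _), F (p.1.1) :=
      Equiv.sum_comp E.symm (fun p => F (p.1.1))
    rw [h1]
    have h2 : ∑ p : (PP n e : Finset _), F (p.1.1) = ∑ p ∈ PP n e, F p.1 :=
      Finset.sum_coe_sort (PP n e) (fun p => F p.1)
    rw [h2]
    unfold PP
    rw [sum_sigma]
    refine sum_congr rfl (fun l _ => ?_)
    change ∑ _s ∈ range (nu n e l), F l = (nu n e l : ℝ) * F l
    rw [sum_const, card_range, nsmul_eq_mul]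

/-- number of reference points near a unit -/
lemma near_card (n e k : ℕ) :
    ∑ l ∈ Ioc 0 (7 * n + e), (nu n e l : ℝ) * (if |((l:ℤ) - (k:ℤ) : ℤ)| ≤ 1 then (1:ℝ) else 0) ≤ 12 := by
  have h1 : ∑ l ∈ Ioc 0 (7 * n + e), (nu n e l : ℝ) * (if |((l:ℤ) - (k:ℤ) : ℤ)| ≤ 1 then (1:ℝ) else 0)
      ≤ ∑ l ∈ Ioc 0 (7 * n + e), (if |((l:ℤ) - (k:ℤ) : ℤ)| ≤ 1 then (4:ℝ) else 0) := by
    refine sum_le_sum (fun l _ => ?_)
    have := nu_le n e l
    have h2 : (nu n e l : ℝ) ≤ 4 := by exact_mod_cast this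
    split_ifs
    · linarith
    · simp
  refine h1.trans ?_
  rw [← sum_filter, sum_const, nsmul_eq_mul]
  have h3 : #((Ioc 0 (7 * n + e)).filter (fun l : ℕ => |((l:ℤ) - (k:ℤ) : ℤ)| ≤ 1)) ≤ #(Icc (k - 1) (k + 1)) := by
    apply card_le_card
    intro l hl
    rw [mem_filter, mem_Ioc] at hl
    rw [mem_Icc]
    have := abs_le.1 hl.2
    omega
  rw [Nat.card_Icc] at h3
  have h4 : ((#((Ioc 0 (7 * n + e)).filter (fun l : ℕ => |((l:ℤ) - (k:ℤ) : ℤ)| ≤ 1)) : ℕ) : ℝ) ≤ 3 := by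
    exact_mod_cast h3.trans (by omega)
  linarith

open Pool.Agent.QS2 in
/-- lower bound of the Vandermonde of the reference points -/
theorem VN_lower (n e c : ℕ) (z : Fin c → ℝ) (un : Fin c → ℕ)
    (h1 : ∀ i, 1 ≤ un i ∧ |z i + un i| ≤ 1 / 4 ∧ 1 / 8 ≤ |z i + un i|)
    (h2 : ∀ i j, i ≠ j → 1 / 8 ≤ |z i - z j|)
    (h3 : ∀ F : ℕ → ℝ, ∑ i, F (un i) = ∑ l ∈ Ioc 0 (7 * n + e), (nu n e l : ℝ) * F l) :
    ∑ l ∈ Ioc 0 (7 * n + e), ∑ l' ∈ Ioc 0 (7 * n + e),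
          (nu n e l : ℝ) * (nu n e l' : ℝ) * Real.log (|(((l:ℤ) - (l':ℤ) : ℤ) : ℝ)| - 1)
      - 40 * c ≤ 2 * Real.log (VN (fun i => (z i : ℂ))) := by
  have hinj : Function.Injective (fun i => (z i : ℂ)) := by
    intro i j hij
    by_contra hne
    have := h2 i j hne
    have h4 : z i = z j := Complex.ofReal_injective hij
    rw [h4, sub_self, abs_zero] at this
    norm_num at this
  have hV := VN_pos _ hinj
  have hl8 : Real.log 8 ≤ 3 := by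
    have : (8:ℝ) = 2 ^ 3 := by norm_num
    rw [this, Real.log_pow]
    have := Real.log_two_lt_d9
    push_cast; linarith
  have e1 : 2 * Real.log (VN (fun i => (z i : ℂ)))
      = ∑ k, ∑ m ∈ univ.erase k, Real.log ‖((z m : ℂ)) - (z k : ℂ)‖ := by
    have h5 := prod_off_diag (fun i => (z i : ℂ))
    have h6 : Real.log (VN (fun i => (z i : ℂ)) ^ 2) = 2 * Real.log (VN (fun i => (z i : ℂ))) := by
      rw [Real.log_pow]; push_cast; ring
    rw [← h6, ← h5, Real.log_prod]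
    · refine sum_congr rfl (fun k _ => ?_)
      rw [Real.log_prod]
      intro m hm
      rw [norm_ne_zero_iff, sub_ne_zero]
      exact fun h => (mem_erase.1 hm).1 (hinj h)
    · intro k _
      rw [prod_ne_zero_iff]
      intro m hm
      rw [norm_ne_zero_iff, sub_ne_zero]
      exact fun h => (mem_erase.1 hm).1 (hinj h)
  rw [e1]
  -- pairwise bound
  have pw : ∀ k m : Fin c, m ≠ k →
      Real.log (|(((un k:ℤ) - (un m:ℤ) : ℤ) : ℝ)| - 1)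
        - 3 * (if |((un m:ℤ) - (un k:ℤ) : ℤ)| ≤ 1 then (1:ℝ) else 0)
      ≤ Real.log ‖((z m : ℂ)) - (z k : ℂ)‖ := by
    intro k m hmk
    have e2 : ‖((z m : ℂ)) - (z k : ℂ)‖ = |z m - z k| := by
      rw [← Complex.ofReal_sub, Complex.norm_real, Real.norm_eq_abs]
    rw [e2]
    have hk := abs_le.1 (h1 k).2.1
    have hm := abs_le.1 (h1 m).2.1
    split_ifs with hh
    · have h8 : Real.log (|(((un k:ℤ) - (un m:ℤ) : ℤ) : ℝ)| - 1) = 0 := by
        have h9 : |((un k:ℤ) - (un m:ℤ) : ℤ)| ≤ 1 := by rw [abs_sub_comm]; exact hh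
        have h10 : |((un k:ℤ) - (un m:ℤ) : ℤ)| = 0 ∨ |((un k:ℤ) - (un m:ℤ) : ℤ)| = 1 := by
          have := abs_nonneg ((un k:ℤ) - (un m:ℤ) : ℤ)
          omega
        rcases h10 with h10 | h10
        · have : |(((un k:ℤ) - (un m:ℤ) : ℤ) : ℝ)| = 0 := by exact_mod_cast h10
          rw [this]; norm_num
        · have : |(((un k:ℤ) - (un m:ℤ) : ℤ) : ℝ)| = 1 := by exact_mod_cast h10
          rw [this]; norm_num
      rw [h8]
      have h11 := h2 m k hmk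
      have h12 : Real.log (1 / 8) ≤ Real.log |z m - z k| := Real.log_le_log (by norm_num) h11
      rw [Real.log_div (by norm_num) (by norm_num), Real.log_one] at h12
      linarith
    · have h9 : 2 ≤ |((un k:ℤ) - (un m:ℤ) : ℤ)| := by
        rw [abs_sub_comm]; omega
      have h10 : (2:ℝ) ≤ |(((un k:ℤ) - (un m:ℤ) : ℤ) : ℝ)| := by exact_mod_cast h9
      rw [mul_zero, sub_zero]
      apply Real.log_le_log (by linarith)
      have h13 : |(((un k:ℤ) - (un m:ℤ) : ℤ) : ℝ)| = |(un k:ℝ) - un m| := by push_cast; rfl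
      rw [h13]
      have h14 : |(un k:ℝ) - un m| ≤ |z m - z k| + |(z k + un k) - (z m + un m)| := by
        have : (un k:ℝ) - un m = (z m - z k) + ((z k + un k) - (z m + un m)) := by ring
        rw [this]; exact abs_add_le _ _
      have h15 : |(z k + un k) - (z m + un m)| ≤ 1 := by
        rw [abs_le]; constructor <;> linarith [hk.1, hk.2, hm.1, hm.2]
      linarith
  have row : ∀ k : Fin c,
      ∑ m, Real.log (|(((un k:ℤ) - (un m:ℤ) : ℤ) : ℝ)| - 1) - 36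
        ≤ ∑ m ∈ univ.erase k, Real.log ‖((z m : ℂ)) - (z k : ℂ)‖ := by
    intro k
    have h4 : ∑ m ∈ univ.erase k, (Real.log (|(((un k:ℤ) - (un m:ℤ) : ℤ) : ℝ)| - 1)
        - 3 * (if |((un m:ℤ) - (un k:ℤ) : ℤ)| ≤ 1 then (1:ℝ) else 0))
        ≤ ∑ m ∈ univ.erase k, Real.log ‖((z m : ℂ)) - (z k : ℂ)‖ :=
      sum_le_sum (fun m hm => pw k m (mem_erase.1 hm).1)
    refine le_trans ?_ h4
    have h5 : ∑ m, (Real.log (|(((un k:ℤ) - (un m:ℤ) : ℤ) : ℝ)| - 1)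
        - 3 * (if |((un m:ℤ) - (un k:ℤ) : ℤ)| ≤ 1 then (1:ℝ) else 0))
        ≤ ∑ m ∈ univ.erase k, (Real.log (|(((un k:ℤ) - (un m:ℤ) : ℤ) : ℝ)| - 1)
        - 3 * (if |((un m:ℤ) - (un k:ℤ) : ℤ)| ≤ 1 then (1:ℝ) else 0)) := by
      rw [← add_sum_erase univ _ (mem_univ k)]
      simp
    refine le_trans ?_ h5
    rw [sum_sub_distrib, ← mul_sum]
    have h6 := near_card n e (un k)
    have h7 := h3 (fun l => (if |((l:ℤ) - (un k:ℤ) : ℤ)| ≤ 1 then (1:ℝ) else 0))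
    rw [← h7] at h6
    linarith
  have tot : ∑ k : Fin c, (∑ m, Real.log (|(((un k:ℤ) - (un m:ℤ) : ℤ) : ℝ)| - 1) - 36)
      ≤ ∑ k, ∑ m ∈ univ.erase k, Real.log ‖((z m : ℂ)) - (z k : ℂ)‖ := sum_le_sum (fun k _ => row k)
  refine le_trans ?_ tot
  rw [sum_sub_distrib, sum_const, card_univ, Fintype.card_fin, nsmul_eq_mul]
  have h8 : ∑ k : Fin c, ∑ m : Fin c, Real.log (|(((un k:ℤ) - (un m:ℤ) : ℤ) : ℝ)| - 1)
      = ∑ l ∈ Ioc 0 (7 * n + e), ∑ l' ∈ Ioc 0 (7 * n + e),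
          (nu n e l : ℝ) * (nu n e l' : ℝ) * Real.log (|(((l:ℤ) - (l':ℤ) : ℤ) : ℝ)| - 1) := by
    have h9 : ∀ k : Fin c, ∑ m : Fin c, Real.log (|(((un k:ℤ) - (un m:ℤ) : ℤ) : ℝ)| - 1)
        = ∑ l' ∈ Ioc 0 (7 * n + e), (nu n e l' : ℝ) * Real.log (|(((un k:ℤ) - (l':ℤ) : ℤ) : ℝ)| - 1) :=
      fun k => h3 (fun l' => Real.log (|(((un k:ℤ) - (l':ℤ) : ℤ) : ℝ)| - 1))
    rw [sum_congr rfl (fun k _ => h9 k)]
    rw [h3 (fun l => ∑ l' ∈ Ioc 0 (7 * n + e), (nu n e l' : ℝ) * Real.log (|(((l:ℤ) - (l':ℤ) : ℤ) : ℝ)| - 1))]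
    refine sum_congr rfl (fun l _ => ?_)
    rw [mul_sum]
    refine sum_congr rfl (fun l' _ => ?_)
    ring
  rw [h8]
  have : (0:ℝ) ≤ c := by positivity
  linarith

/-- distance from a particle in unit `k` to a reference point in unit `l` -/
lemma dist_z (ξ : ℂ) (k : ℕ) (h1 : -(k:ℝ) - 1 ≤ ξ.re) (h2 : ξ.re ≤ -k) (h3 : |ξ.im| ≤ 1 / 2)
    (zi : ℝ) (l : ℕ) (h : |zi + l| ≤ 1 / 4) :
    ‖ξ - (zi : ℂ)‖ ≤ |(((k:ℤ) - (l:ℤ) : ℤ) : ℝ)| + 2 := by
  have h4 := Complex.norm_le_abs_re_add_abs_im (ξ - (zi : ℂ))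
  simp only [Complex.sub_re, Complex.ofReal_re, Complex.sub_im, Complex.ofReal_im, sub_zero] at h4
  have h5 := abs_le.1 h
  have h6 : |ξ.re - zi| ≤ |(((k:ℤ) - (l:ℤ) : ℤ) : ℝ)| + 5 / 4 := by
    push_cast
    have h7 : (k:ℝ) - l ≤ |(k:ℝ) - l| := le_abs_self _
    have h8 : -((k:ℝ) - l) ≤ |(k:ℝ) - l| := neg_le_abs _
    rw [abs_le]; constructor <;> linarith [h5.1, h5.2]
  linarith

theorem prod_z_le (n e c : ℕ) (z : Fin c → ℝ) (un : Fin c → ℕ)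
    (hz : ∀ i, 1 ≤ un i ∧ |z i + un i| ≤ 1 / 4 ∧ 1 / 8 ≤ |z i + un i|)
    (hF : ∀ F : ℕ → ℝ, ∑ i, F (un i) = ∑ l ∈ Ioc 0 (7 * n + e), (nu n e l : ℝ) * F l)
    (ξ : ℂ) (k : ℕ) (h1 : -(k:ℝ) - 1 ≤ ξ.re) (h2 : ξ.re ≤ -k) (h3 : |ξ.im| ≤ 1 / 2) :
    ∏ i, ‖ξ - (z i : ℂ)‖ ≤ Real.exp (∑ l ∈ Ioc 0 (7 * n + e), (nu n e l : ℝ) *
      Real.log (|(((k:ℤ) - (l:ℤ) : ℤ) : ℝ)| + 2)) := by
  rw [← hF (fun l => Real.log (|(((k:ℤ) - (l:ℤ) : ℤ) : ℝ)| + 2)), Real.exp_sum]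
  refine prod_le_prod (fun i _ => norm_nonneg _) (fun i _ => ?_)
  rw [Real.exp_log (by have := abs_nonneg (((k:ℤ) - (un i:ℤ) : ℤ) : ℝ); linarith)]
  exact dist_z ξ k h1 h2 h3 (z i) (un i) (hz i).2.1

/-- reference points keep distance `1/10` from the discs of poles -/
lemma sep_pole (ξ : ℂ) (k : ℕ) (h1 : |ξ.re + k + 1 / 2| ≤ 1 / 10)
    (zi : ℝ) (l : ℕ) (h : |zi + l| ≤ 1 / 4) : 1 / 10 ≤ ‖ξ - (zi : ℂ)‖ := by
  have h4 := Complex.abs_re_le_norm (ξ - (zi : ℂ))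
  simp only [Complex.sub_re, Complex.ofReal_re] at h4
  refine le_trans ?_ h4
  have h5 := abs_le.1 h
  have h6 := abs_le.1 h1
  rcases le_or_gt l k with h7 | h7
  · have h8 : (l:ℝ) ≤ k := by exact_mod_cast h7
    rw [le_abs]; right; linarith [h5.1, h5.2, h6.1, h6.2]
  · have h8 : (k:ℝ) + 1 ≤ l := by exact_mod_cast h7
    rw [le_abs]; left; linarith [h5.1, h5.2, h6.1, h6.2]

/-- reference points keep distance `1/8` from the integers -/
lemma sep_node (k : ℕ) (zi : ℝ) (l : ℕ) (h : |zi + l| ≤ 1 / 4) (h' : 1 / 8 ≤ |zi + l|) :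
    1 / 8 ≤ ‖(-(k:ℂ)) - (zi : ℂ)‖ := by
  have e1 : ‖(-(k:ℂ)) - (zi : ℂ)‖ = |(-(k:ℝ)) - zi| := by
    rw [← Complex.ofReal_natCast, ← Complex.ofReal_neg, ← Complex.ofReal_sub, Complex.norm_real,
      Real.norm_eq_abs]
  rw [e1]
  have h5 := abs_le.1 h
  rcases lt_trichotomy l k with h7 | h7 | h7
  · have h8 : (l:ℝ) + 1 ≤ k := by exact_mod_cast h7
    rw [le_abs]; right; linarith [h5.1, h5.2]
  · subst h7
    have : -(l:ℝ) - zi = -(zi + l) := by ring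
    rw [this, abs_neg]; exact h'
  · have h8 : (k:ℝ) + 1 ≤ l := by exact_mod_cast h7
    rw [le_abs]; left; linarith [h5.1, h5.2]

/-- right nodes from below -/
lemma right_lower (ξ : ℂ) (k m : ℕ) (hm : 1 ≤ m) (h2 : ξ.re ≤ -k) :
    Real.exp (Real.log ((m:ℝ) + k)) ≤ ‖(m:ℂ) - ξ‖ := by
  have hm' : (1:ℝ) ≤ m := by exact_mod_cast hm
  have hk : (0:ℝ) ≤ k := by positivity
  rw [Real.exp_log (by linarith)]
  have h4 := Complex.abs_re_le_norm ((m:ℂ) - ξ)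
  simp only [Complex.sub_re, Complex.natCast_re] at h4
  refine le_trans ?_ h4
  rw [le_abs]; left; linarith

/-- left nodes from below, for a pole -/
lemma left_lower (ξ : ℂ) (k j : ℕ) (h1 : |ξ.re + k + 1 / 2| ≤ 1 / 10) :
    Real.exp (lgi ((k:ℤ) - j) - (if j = k ∨ j = k + 1 then 1 else 0)) ≤ ‖(-(j:ℂ)) - ξ‖ := by
  have h6 := abs_le.1 h1
  have h4 := Complex.abs_re_le_norm ((-(j:ℂ)) - ξ)
  simp only [Complex.sub_re, Complex.neg_re, Complex.natCast_re] at h4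
  refine le_trans ?_ h4
  unfold lgi
  split_ifs with a b b
  · omega
  · have h7 : ((j:ℝ)) + 1 ≤ k := by exact_mod_cast (by omega : j + 1 ≤ k)
    push_cast
    rw [sub_zero, Real.exp_log (by linarith)]
    rw [le_abs]; left; linarith [h6.1, h6.2]
  · have h8 : Real.exp (Real.log (-(((k:ℤ) - j : ℤ) : ℝ) - 1) - 1) ≤ 2 / 5 := by
      have h9 : Real.log (-(((k:ℤ) - j : ℤ) : ℝ) - 1) = 0 := by
        rcases b with b | b
        · subst b; norm_num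
        · subst b; push_cast; norm_num
      rw [h9, zero_sub, Real.exp_neg]
      have := Real.exp_one_gt_d9
      rw [inv_le_comm₀ (Real.exp_pos 1) (by norm_num)]
      linarith
    refine h8.trans ?_
    rcases b with b | b
    · subst b
      rw [le_abs]; left; linarith [h6.1, h6.2]
    · have h9 : (j:ℝ) = k + 1 := by rw [b]; push_cast; ring
      rw [h9, le_abs]; right; linarith [h6.1, h6.2]
  · have h7 : ((k:ℝ)) + 2 ≤ j := by
      have : k + 2 ≤ j := by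
        rcases Nat.lt_or_ge j (k + 2) with c | c
        · exfalso; apply b; omega
        · exact c
      exact_mod_cast this
    push_cast
    rw [sub_zero, Real.exp_log (by linarith)]
    rw [le_abs]; right; linarith [h6.1, h6.2]

/-- left nodes from below, for a left node -/
lemma left_lower' (k j : ℕ) (h1 : j ≠ k) :
    Real.exp (lgi ((k:ℤ) - j)) ≤ ‖(-(j:ℂ)) - (-(k:ℂ))‖ := by
  have e1 : ‖(-(j:ℂ)) - (-(k:ℂ))‖ = |(k:ℝ) - j| := by
    have : (-(j:ℂ)) - (-(k:ℂ)) = (((k:ℝ) - j : ℝ) : ℂ) := by push_cast; ring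
    rw [this, Complex.norm_real, Real.norm_eq_abs]
  rw [e1]
  unfold lgi
  split_ifs with a
  · have h7 : ((j:ℝ)) + 1 ≤ k := by exact_mod_cast (by omega : j + 1 ≤ k)
    push_cast
    rw [Real.exp_log (by linarith)]
    exact le_abs_self _
  · have h7 : ((k:ℝ)) + 1 ≤ j := by exact_mod_cast (by omega : k + 1 ≤ j)
    push_cast
    rcases h7.eq_or_lt with h8 | h8
    · have : -((k:ℝ) - j) - 1 = 0 := by linarith
      rw [this, Real.log_zero, Real.exp_zero, le_abs]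
      right; linarith
    · rw [Real.exp_log (by linarith), le_abs]
      right; linarith

/-- all nodes from below, for a pole in unit `k` -/
theorem nodes_lower (A k : ℕ) (ξ : ℂ) (h1 : |ξ.re + k + 1 / 2| ≤ 1 / 10) :
    Real.exp (∑ m ∈ Ioc 0 A, Real.log ((m:ℝ) + k) + ∑ j ∈ Ioc 2 (A + 2), lgi ((k:ℤ) - j) - 2)
      ≤ (∏ m ∈ Ioc 0 A, ‖(m:ℂ) - ξ‖) * ∏ j ∈ Ioc 2 (A + 2), ‖(-(j:ℂ)) - ξ‖ := by
  have h6 := abs_le.1 h1
  have hre : ξ.re ≤ -k := by linarith [h6.2]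
  have a1 : Real.exp (∑ m ∈ Ioc 0 A, Real.log ((m:ℝ) + k)) ≤ ∏ m ∈ Ioc 0 A, ‖(m:ℂ) - ξ‖ := by
    rw [Real.exp_sum]
    refine prod_le_prod (fun i _ => (Real.exp_pos _).le) (fun m hm => ?_)
    rw [mem_Ioc] at hm
    exact right_lower ξ k m hm.1 hre
  have a2 : Real.exp (∑ j ∈ Ioc 2 (A + 2), (lgi ((k:ℤ) - j) - (if j = k ∨ j = k + 1 then 1 else 0)))
      ≤ ∏ j ∈ Ioc 2 (A + 2), ‖(-(j:ℂ)) - ξ‖ := by
    rw [Real.exp_sum]
    exact prod_le_prod (fun i _ => (Real.exp_pos _).le) (fun j _ => left_lower ξ k j h1)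
  have a3 : ∑ j ∈ Ioc 2 (A + 2), (if j = k ∨ j = k + 1 then (1:ℝ) else 0) ≤ 2 := by
    rw [← sum_filter, sum_const, nsmul_eq_mul, mul_one]
    have : #{j ∈ Ioc 2 (A + 2) | j = k ∨ j = k + 1} ≤ #({k, k + 1} : Finset ℕ) := by
      apply card_le_card
      intro j hj
      rw [mem_filter] at hj
      simp only [mem_insert, mem_singleton]
      exact hj.2
    have h9 := this.trans (card_le_two)
    exact_mod_cast h9
  rw [sum_sub_distrib] at a2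
  have a4 : Real.exp (∑ m ∈ Ioc 0 A, Real.log ((m:ℝ) + k) + ∑ j ∈ Ioc 2 (A + 2), lgi ((k:ℤ) - j) - 2)
      ≤ Real.exp (∑ m ∈ Ioc 0 A, Real.log ((m:ℝ) + k)) * Real.exp (∑ j ∈ Ioc 2 (A + 2), lgi ((k:ℤ) - j)
        - ∑ j ∈ Ioc 2 (A + 2), (if j = k ∨ j = k + 1 then (1:ℝ) else 0)) := by
    rw [← Real.exp_add]
    apply Real.exp_le_exp.2
    linarith
  refine a4.trans ?_
  exact mul_le_mul a1 a2 (Real.exp_pos _).le (prod_nonneg (fun i _ => norm_nonneg _))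

/-- all other nodes from below, for the left node `-k` -/
theorem nodes_lower' (A k : ℕ) :
    Real.exp (∑ m ∈ Ioc 0 A, Real.log ((m:ℝ) + k) + ∑ j ∈ Ioc 2 (A + 2), lgi ((k:ℤ) - j))
      ≤ (∏ m ∈ Ioc 0 A, ‖(m:ℂ) - (-(k:ℂ))‖) *
        ∏ j ∈ (Ioc 2 (A + 2)).erase k, ‖(-(j:ℂ)) - (-(k:ℂ))‖ := by
  have a1 : Real.exp (∑ m ∈ Ioc 0 A, Real.log ((m:ℝ) + k)) ≤ ∏ m ∈ Ioc 0 A, ‖(m:ℂ) - (-(k:ℂ))‖ := by
    rw [Real.exp_sum]
    refine prod_le_prod (fun i _ => (Real.exp_pos _).le) (fun m hm => ?_)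
    rw [mem_Ioc] at hm
    exact right_lower (-(k:ℂ)) k m hm.1 (by simp)
  have a2 : Real.exp (∑ j ∈ (Ioc 2 (A + 2)).erase k, lgi ((k:ℤ) - j))
      ≤ ∏ j ∈ (Ioc 2 (A + 2)).erase k, ‖(-(j:ℂ)) - (-(k:ℂ))‖ := by
    rw [Real.exp_sum]
    exact prod_le_prod (fun i _ => (Real.exp_pos _).le)
      (fun j hj => left_lower' k j (mem_erase.1 hj).1)
  have a3 : ∑ j ∈ (Ioc 2 (A + 2)).erase k, lgi ((k:ℤ) - j) = ∑ j ∈ Ioc 2 (A + 2), lgi ((k:ℤ) - j) := by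
    apply sum_erase
    rw [sub_self]
    unfold lgi
    norm_num
  rw [a3] at a2
  rw [Real.exp_add]
  exact mul_le_mul a1 a2 (Real.exp_pos _).le (prod_nonneg (fun i _ => norm_nonneg _))

end Pool.QS2E
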