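import Pool.Agent.QS2.Reg

/-! # QS2: the factor `F` of the splitting and its size on the small discs (helper19) -/

set_option autoImplicit false

namespace Pool.Agent.QS2

open Complex

/-- `F(w) = P(w) - e_b(w) + e_a(-1-w)`. -/
noncomputable def FF (a b : ℕ) (w : ℂ) : ℂ := pz w - ee b w + ee a (-1 - w)

/-- `Y_{a+b+1}(w-(a+1)) = (-1)^a Y_a(-1-w) Y_b(w) F(w)`. -/
theorem split_FF (a b : ℕ) (w : ℂ) (h1 : -(7 / 10) ≤ w.re) (h2 : w.re ≤ -(3 / 10)) :
    yc (a + b + 2) (w - (a + 1)) = (-1) ^ a * yc (a + 1) (-1 - w) * yc (b + 1) w * FF a b w := by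
  have n1 := yc_ne a (-1 - w) (by rw [sub_re, neg_re, one_re]; linarith)
  have n2 := yc_ne b w h1
  have e1 : yc (b + 1) w * ee b w = (w + 1) ^ 6 * yc b (w + 1) := by
    rw [ee]; field_simp
  have e2 : yc (a + 1) (-1 - w) * ee a (-1 - w) = w ^ 6 * yc a (-w) := by
    rw [ee, show -1 - w + 1 = -w by ring, show (-w) ^ 6 = w ^ 6 by ring]; field_simp
  rw [yc_split, FF]
  linear_combination (-1) ^ a * yc (a + 1) (-1 - w) * e1 - (-1) ^ a * yc (b + 1) w * e2

/-- The three centres. -/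
noncomputable def cen : Fin 3 → ℂ := ![-(1 / 2), -(1 / 2) + (21 / 100) * I, -(1 / 2) - (21 / 100) * I]

lemma cen_re (j : Fin 3) : (cen j).re = -(1 / 2) := by
  fin_cases j <;> simp [cen]

lemma cen_im_le (j : Fin 3) : |(cen j).im| ≤ 21 / 100 := by
  fin_cases j <;> simp [cen] <;> norm_num [abs_le]

lemma norm_cen_add_half (j : Fin 3) : ‖cen j + 1 / 2‖ ≤ 21 / 100 := by
  have h := norm_le_abs_re_add_abs_im (cen j + 1 / 2)
  have h1 : (cen j + 1 / 2).re = 0 := by
    rw [add_re, cen_re]; norm_num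
  have h2 : (cen j + 1 / 2).im = (cen j).im := by
    simp
  rw [h1, h2, abs_zero, zero_add] at h
  exact h.trans (cen_im_le j)

lemma re_bounds {j : Fin 3} {w : ℂ} (hw : ‖w - cen j‖ ≤ 1 / 10) :
    -(6 / 10) ≤ w.re ∧ w.re ≤ -(4 / 10) := by
  have h1 := (abs_le.mp ((abs_re_le_norm (w - cen j)).trans hw))
  rw [sub_re, cen_re] at h1
  constructor <;> linarith [h1.1, h1.2]

lemma norm_w_le {j : Fin 3} {w : ℂ} (hw : ‖w - cen j‖ ≤ 1 / 10) : ‖w‖ ≤ 643 / 1000 := by
  have hc : ‖cen j‖ ≤ 543 / 1000 := by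
    have h : ‖cen j‖ ^ 2 ≤ (543 / 1000) ^ 2 := by
      rw [Complex.sq_norm, normSq_apply, cen_re]
      have := cen_im_le j
      have h2 : (cen j).im * (cen j).im ≤ (21 / 100) * (21 / 100) := by
        have := abs_mul_abs_self (cen j).im
        rw [← this]
        exact mul_le_mul (cen_im_le j) (cen_im_le j) (abs_nonneg _) (by norm_num)
      norm_num at h2 ⊢
      linarith
    exact le_of_sq_le_sq h (by norm_num)
  have : ‖w‖ ≤ ‖w - cen j‖ + ‖cen j‖ := by
    have := norm_add_le (w - cen j) (cen j)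
    simpa using this
  linarith

lemma norm_w_add_one_le {j : Fin 3} {w : ℂ} (hw : ‖w - cen j‖ ≤ 1 / 10) : ‖w + 1‖ ≤ 643 / 1000 := by
  have hc : ‖cen j + 1‖ ≤ 543 / 1000 := by
    have h : ‖cen j + 1‖ ^ 2 ≤ (543 / 1000) ^ 2 := by
      rw [Complex.sq_norm, normSq_apply, add_re, cen_re, add_im, one_re, one_im, add_zero]
      have h2 : (cen j).im * (cen j).im ≤ (21 / 100) * (21 / 100) := by
        have := abs_mul_abs_self (cen j).im
        rw [← this]
        exact mul_le_mul (cen_im_le j) (cen_im_le j) (abs_nonneg _) (by norm_num)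
      norm_num at h2 ⊢
      linarith
    exact le_of_sq_le_sq h (by norm_num)
  have : ‖w + 1‖ ≤ ‖w - cen j‖ + ‖cen j + 1‖ := by
    have := norm_add_le (w - cen j) (cen j + 1)
    have e : w - cen j + (cen j + 1) = w + 1 := by ring
    rwa [e] at this
  linarith

lemma ee_small (b : ℕ) {j : Fin 3} {w : ℂ} (hw : ‖w - cen j‖ ≤ 1 / 10) : ‖ee b w‖ ≤ 107 / 10000 := by
  obtain ⟨h1, h2⟩ := re_bounds hw
  have h3 := norm_ee_le b w (by linarith)
  have h4 : ‖w + 1‖ ^ 3 ≤ (643 / 1000) ^ 3 := pow_le_pow_left₀ (norm_nonneg _) (norm_w_add_one_le hw) 3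
  norm_num at h4
  linarith

lemma ee_small' (a : ℕ) {j : Fin 3} {w : ℂ} (hw : ‖w - cen j‖ ≤ 1 / 10) :
    ‖ee a (-1 - w)‖ ≤ 107 / 10000 := by
  obtain ⟨h1, h2⟩ := re_bounds hw
  have h3 := norm_ee_le a (-1 - w) (by rw [sub_re, neg_re, one_re]; linarith)
  rw [show -1 - w + 1 = -w by ring, norm_neg] at h3
  have h4 : ‖w‖ ^ 3 ≤ (643 / 1000) ^ 3 := pow_le_pow_left₀ (norm_nonneg _) (norm_w_le hw) 3
  norm_num at h4
  linarith

lemma pz_shift (s u : ℂ) : pz (-(1 / 2) + s + u) =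
    (34 * s ^ 3 + 3 / 2 * s) + u * ((102 * s ^ 2 + 3 / 2) + 102 * s * u + 34 * u ^ 2) := by
  unfold pz; ring

/-- `|P|` on the three circles. -/
lemma pz_circle {j : Fin 3} {w : ℂ} (hw : ‖w - cen j‖ = 1 / 10) : 514 / 10000 ≤ ‖pz w‖ := by
  obtain ⟨u, rfl⟩ : ∃ u, w = cen j + u := ⟨w - cen j, by ring⟩
  rw [add_sub_cancel_left] at hw
  have key : ∀ s : ℂ, ‖34 * s ^ 3 + 3 / 2 * s‖ ≤ 2 / 10000 → 3754 / 10000 ≤ ‖(102 * s ^ 2 + 3 / 2) +
      102 * s * u + 34 * u ^ 2‖ + (3754 / 10000 - 5160 / 10000) →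
      514 / 10000 ≤ ‖pz (-(1 / 2) + s + u)‖ := by
    intro s h1 h2
    rw [pz_shift]
    have h3 := norm_sub_norm_le (u * ((102 * s ^ 2 + 3 / 2) + 102 * s * u + 34 * u ^ 2))
      (-(34 * s ^ 3 + 3 / 2 * s))
    rw [norm_mul, hw, norm_neg, sub_neg_eq_add, add_comm (u * _)] at h3
    linarith
  fin_cases j
  · have := key 0 (by simp; norm_num) (by
      have h3 := norm_sub_norm_le (3 / 2 : ℂ) (-(34 * u ^ 2))
      rw [norm_neg, norm_mul, norm_pow, hw, sub_neg_eq_add] at h3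
      have e : (102 * (0 : ℂ) ^ 2 + 3 / 2) + 102 * 0 * u + 34 * u ^ 2 = 3 / 2 + 34 * u ^ 2 := by ring
      rw [e]
      norm_num at h3 ⊢
      linarith)
    simpa [cen] using this
  · have := key ((21 / 100) * I) (by
        have e : 34 * ((21 / 100) * I) ^ 3 + 3 / 2 * ((21 / 100) * I) = ((126 / 1000000 : ℝ) : ℂ) * I := by
          push_cast
          linear_combination (34 * (21 / 100) ^ 3 * I : ℂ) * I_sq
        rw [e, norm_mul, norm_I, mul_one, norm_real, Real.norm_of_nonneg (by norm_num)]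
        norm_num) (by
      have e : (102 * ((21 / 100) * I) ^ 2 + 3 / 2) + 102 * ((21 / 100) * I) * u + 34 * u ^ 2 =
          ((-(29982 / 10000) : ℝ) : ℂ) - (-((((2142 / 100) : ℝ) : ℂ) * I * u) - 34 * u ^ 2) := by
        push_cast
        linear_combination (102 * (21 / 100) ^ 2 : ℂ) * I_sq
      rw [e]
      have h3 := norm_sub_norm_le ((-(29982 / 10000) : ℝ) : ℂ) (-((((2142 / 100) : ℝ) : ℂ) * I * u) - 34 * u ^ 2)
      have h4 := norm_sub_le (-((((2142 / 100) : ℝ) : ℂ) * I * u)) (34 * u ^ 2)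
      rw [norm_neg, norm_mul, norm_mul, norm_I, norm_mul, norm_pow, hw, norm_real,
        Real.norm_of_nonneg (by norm_num)] at h4
      rw [norm_real, norm_neg, Real.norm_of_nonneg (by norm_num)] at h3
      norm_num at h3 h4 ⊢
      linarith)
    simpa [cen] using this
  · have := key (-((21 / 100) * I)) (by
        have e : 34 * (-((21 / 100) * I)) ^ 3 + 3 / 2 * (-((21 / 100) * I)) = -(((126 / 1000000 : ℝ) : ℂ) * I) := by
          push_cast
          linear_combination (-34 * (21 / 100) ^ 3 * I : ℂ) * I_sq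
        rw [e, norm_neg, norm_mul, norm_I, mul_one, norm_real, Real.norm_of_nonneg (by norm_num)]
        norm_num) (by
      have e : (102 * (-((21 / 100) * I)) ^ 2 + 3 / 2) + 102 * (-((21 / 100) * I)) * u + 34 * u ^ 2 =
          ((-(29982 / 10000) : ℝ) : ℂ) - ((((2142 / 100) : ℝ) : ℂ) * I * u - 34 * u ^ 2) := by
        push_cast
        linear_combination (102 * (21 / 100) ^ 2 : ℂ) * I_sq
      rw [e]
      have h3 := norm_sub_norm_le ((-(29982 / 10000) : ℝ) : ℂ) ((((2142 / 100) : ℝ) : ℂ) * I * u - 34 * u ^ 2)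
      have h4 := norm_sub_le ((((2142 / 100) : ℝ) : ℂ) * I * u) (34 * u ^ 2)
      rw [norm_mul, norm_mul, norm_I, norm_mul, norm_pow, hw, norm_real,
        Real.norm_of_nonneg (by norm_num)] at h4
      rw [norm_real, norm_neg, Real.norm_of_nonneg (by norm_num)] at h3
      norm_num at h3 h4 ⊢
      linarith)
    simpa [cen, sub_eq_add_neg] using this

/-- `|F| ≥ 3/100` on the circles. -/
theorem FF_circle (a b : ℕ) {j : Fin 3} {w : ℂ} (hw : ‖w - cen j‖ = 1 / 10) :
    3 / 100 ≤ ‖FF a b w‖ := by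
  have h1 := pz_circle hw
  have h2 := ee_small b hw.le
  have h3 := ee_small' a hw.le
  have h4 := norm_sub_norm_le (pz w) (ee b w - ee a (-1 - w))
  have h5 := norm_sub_le (ee b w) (ee a (-1 - w))
  have e : pz w - (ee b w - ee a (-1 - w)) = FF a b w := by rw [FF]; ring
  rw [e] at h4
  linarith

/-- `|F| ≤ 14/1000` at the centres. -/
theorem FF_centre (a b : ℕ) (j : Fin 3) : ‖FF a b (cen j)‖ ≤ 14 / 1000 := by
  have hp : ‖pz (cen j)‖ ≤ 2 / 10000 := by
    fin_cases j
    · have : pz (cen ⟨0, by norm_num⟩) = 0 := by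
        simp only [cen, pz]
        norm_num
      rw [this, norm_zero]; norm_num
    · have : pz (cen ⟨1, by norm_num⟩) = ((126 / 1000000 : ℝ) : ℂ) * I := by
        have e : cen ⟨1, by norm_num⟩ = -(1 / 2) + (21 / 100) * I + 0 := by simp [cen]
        rw [e, pz_shift]
        push_cast
        linear_combination (34 * (21 / 100) ^ 3 * I : ℂ) * I_sq
      rw [this, norm_mul, norm_I, mul_one, norm_real, Real.norm_of_nonneg (by norm_num)]
      norm_num
    · have : pz (cen ⟨2, by norm_num⟩) = -(((126 / 1000000 : ℝ) : ℂ) * I) := by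
        have e : cen ⟨2, by norm_num⟩ = -(1 / 2) + -((21 / 100) * I) + 0 := by
          simp [cen, sub_eq_add_neg]
        rw [e, pz_shift]
        push_cast
        linear_combination (-34 * (21 / 100) ^ 3 * I : ℂ) * I_sq
      rw [this, norm_neg, norm_mul, norm_I, mul_one, norm_real, Real.norm_of_nonneg (by norm_num)]
      norm_num
  have hre : (cen j).re = -(1 / 2) := cen_re j
  have hc : ‖cen j + 1‖ ≤ 543 / 1000 := by
    have h : ‖cen j + 1‖ ^ 2 ≤ (543 / 1000) ^ 2 := by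
      rw [Complex.sq_norm, normSq_apply, add_re, cen_re, add_im, one_re, one_im, add_zero]
      have h2 : (cen j).im * (cen j).im ≤ (21 / 100) * (21 / 100) := by
        rw [← abs_mul_abs_self (cen j).im]
        exact mul_le_mul (cen_im_le j) (cen_im_le j) (abs_nonneg _) (by norm_num)
      norm_num at h2 ⊢
      linarith
    exact le_of_sq_le_sq h (by norm_num)
  have hc' : ‖cen j‖ ≤ 543 / 1000 := by
    have h : ‖cen j‖ ^ 2 ≤ (543 / 1000) ^ 2 := by
      rw [Complex.sq_norm, normSq_apply, cen_re]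
      have h2 : (cen j).im * (cen j).im ≤ (21 / 100) * (21 / 100) := by
        rw [← abs_mul_abs_self (cen j).im]
        exact mul_le_mul (cen_im_le j) (cen_im_le j) (abs_nonneg _) (by norm_num)
      norm_num at h2 ⊢
      linarith
    exact le_of_sq_le_sq h (by norm_num)
  have h1 := norm_ee_le b (cen j) (by rw [hre]; norm_num)
  have h2 := norm_ee_le a (-1 - cen j) (by rw [sub_re, neg_re, one_re, hre]; norm_num)
  rw [show -1 - cen j + 1 = -cen j by ring, norm_neg] at h2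
  have h3 : ‖cen j + 1‖ ^ 3 ≤ (543 / 1000) ^ 3 := pow_le_pow_left₀ (norm_nonneg _) hc 3
  have h4 : ‖cen j‖ ^ 3 ≤ (543 / 1000) ^ 3 := pow_le_pow_left₀ (norm_nonneg _) hc' 3
  have h5 := norm_add_le (pz (cen j) - ee b (cen j)) (ee a (-1 - cen j))
  have h6 := norm_sub_le (pz (cen j)) (ee b (cen j))
  have e : pz (cen j) - ee b (cen j) + ee a (-1 - cen j) = FF a b (cen j) := by rw [FF]
  rw [e] at h5
  norm_num at h3 h4
  linarith

end Pool.Agent.QS2
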