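import Pool.Agent.QS2.FormalDet

/-!
# The formal solution over `ℚ(√2)` and the symmetry of `Delta`

* `exists_formal`: there is a formal solution with leading coefficient `alpha`; it is unique
  (`formal_unique_K`);
* `Delta_star`: `Delta = ± alpha ^ (2 rho) * star Delta`.
-/

set_option autoImplicit false

namespace QS2

theorem alpha_quad : alpha ^ 2 - 34 * alpha + 1 = 0 := by
  have h34 : (34 : K) = ⟨34, 0⟩ := rfl
  have h1 : (1 : K) = ⟨1, 0⟩ := rfl
  rw [pow_two, h34, h1]
  ext <;> simp [alpha] <;> norm_num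

theorem two_alpha_ne : 2 * alpha ≠ 34 := by
  intro h
  have h2 : (2 : K) = ⟨2, 0⟩ := rfl
  have h34 : (34 : K) = ⟨34, 0⟩ := rfl
  rw [h2, h34] at h
  have := congrArg QuadraticAlgebra.im h
  simp [alpha] at this

theorem star_alpha_mul : star alpha * alpha = 1 := by
  have h1 : (1 : K) = ⟨1, 0⟩ := rfl
  rw [h1]
  ext <;> simp [alpha] <;> norm_num

theorem alpha_ne_zero : alpha ≠ 0 := right_ne_zero_of_mul_eq_one star_alpha_mul

theorem exists_formal : ∃ v : ℕ → K, IsFormal v ∧ v 0 = alpha :=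
  ⟨FV.vsol alpha, FV.vsol_formal alpha_quad two_alpha_ne, FV.vsol_zero alpha⟩

theorem formal_unique_K {v w : ℕ → K} (hv : IsFormal v) (hw : IsFormal w)
    (hv0 : v 0 = alpha) (hw0 : w 0 = alpha) : v = w :=
  FV.formal_unique hv hw hv0 hw0 two_alpha_ne

/-- the symmetry of the formal solution -/
theorem formal_sym {v : ℕ → K} (hv : IsFormal v) (hv0 : v 0 = alpha) :
    PowerSeries.mk v * FV.st (PowerSeries.mk fun n => star (v n)) = 1 := by
  have h1 : FV.Ric (PowerSeries.mk v) := by
    unfold FV.Ric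
    rw [FV.sh_mk]
    exact hv
  have h2 := FV.sym_of_ric (starRingEnd K) h1 (a := alpha) (by rw [PowerSeries.coeff_mk, hv0])
    star_alpha_mul two_alpha_ne
  have h3 : PowerSeries.map (starRingEnd K) (PowerSeries.mk v) =
      PowerSeries.mk fun n => star (v n) := by
    refine PowerSeries.ext fun n => ?_
    rw [PowerSeries.coeff_map, PowerSeries.coeff_mk, PowerSeries.coeff_mk, starRingEnd_apply]
  rw [h3] at h2
  exact h2

theorem nodeZ_swap (A : ℕ) (f : Nd A) : nodeZ A f.swap = -2 - nodeZ A f := by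
  rcases f with i | i
  · change -3 - (i : ℤ) = -2 - ((i : ℤ) + 1)
    ring
  · change (i : ℤ) + 1 = -2 - (-3 - (i : ℤ))
    ring

theorem uval_swap (x : K) (A : ℕ) (f : Nd A) :
    starRingEnd K (uval x (star x) A f.swap) = uval1 x (star x) A f := by
  rcases f with i | i
  · simp [uval, uval1, starRingEnd_apply]
  · simp [uval, uval1, starRingEnd_apply]

theorem uval1_swap (x : K) (A : ℕ) (f : Nd A) :
    starRingEnd K (uval1 x (star x) A f.swap) = uval x (star x) A f := by
  rcases f with i | i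
  · simp [uval, uval1, starRingEnd_apply]
  · simp [uval, uval1, starRingEnd_apply]

/-- the symmetry of the determinant -/
theorem Delta_star (x : K) {v : ℕ → K} (hv : IsFormal v) (hv0 : v 0 = alpha) {A rho : ℕ}
    (h : rho ≤ A) :
    ∃ ε : K, (ε = 1 ∨ ε = -1) ∧
      Delta x v A rho = ε * (alpha ^ (2 * rho) * star (Delta x v A rho)) := by
  have h1 := FV.det_sym (starRingEnd K) (σ := fun f : Nd A => f.swap)
    (fun f => Sum.swap_swap f) (nodeZ A) (nodeZ_swap A) (uval x (star x) A) (uval1 x (star x) A)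
    (uval_swap x A) (uval1_swap x A) (v := v) (formal_sym hv hv0) (c := A + rho) (R := 2 * rho)
    (by omega) (idx A rho)
  have h2 : Delta x v A rho ^ 2 = (alpha ^ (2 * rho) * star (Delta x v A rho)) ^ 2 := by
    rw [hv0] at h1
    exact h1
  rcases sq_eq_sq_iff_eq_or_eq_neg.1 h2 with h3 | h3
  · exact ⟨1, Or.inl rfl, by rw [one_mul]; exact h3⟩
  · exact ⟨-1, Or.inr rfl, by rw [neg_one_mul]; exact h3⟩

/-- the real conjugates: `|emb (star Delta)| = alpha ^ (-2 rho) |emb Delta|` -/
theorem abs_emb_star_Delta (x : K) {v : ℕ → K} (hv : IsFormal v) (hv0 : v 0 = alpha) {A rho : ℕ}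
    (h : rho ≤ A) :
    |emb (Delta x v A rho)| = |emb alpha| ^ (2 * rho) * |emb (star (Delta x v A rho))| := by
  obtain ⟨ε, hε, h1⟩ := Delta_star x hv hv0 h
  conv_lhs => rw [h1]
  rw [map_mul, map_mul, map_pow, abs_mul, abs_mul, abs_pow]
  rcases hε with rfl | rfl
  · simp
  · simp

end QS2
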