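import Pool.Agent.QS2.Denom
import Pool.Agent.QS2.FormalK
import Pool.Agent.QS2.NonVanD
import Pool.Agent.QS2.Primes

/-!
# QS2: the final inequality

Everything together: the norm of the cleared determinant would be a positive integer smaller
than `1`.
-/

set_option autoImplicit false

namespace QS2

open Finset Filter

theorem fin0_alpha : emb alpha = 17 - 12 * √2 := by
  rw [emb_apply]
  simp only [alpha]
  push_cast
  ring

theorem fin0_alpha_pos : 0 < emb alpha := by
  rw [fin0_alpha]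
  have h1 : √2 < 17 / 12 := by
    rw [Real.sqrt_lt' (by norm_num)]
    norm_num
  linarith

/-- **the final inequality** -/
theorem final_core {x : K} (hx : x.im ≠ 0) (hA : NV.RecQ aperyA) (hB : NV.RecQ aperyB)
    {v : ℕ → K} (hv : IsFormal v) (hv0 : v 0 = alpha) {E S : ℝ} (hES : S < 4 * E)
    (harch : ∃ C : ℝ, ∀ A rho : ℕ, 2 ≤ A → 2 * rho ≤ A → A ≤ 2 * rho + 2 →
      |emb (Delta x v A rho)| ≤ Real.exp (- E * (A : ℝ) ^ 2 + C * A * Real.log (A + 1)))
    (e : ℕ → ℕ → ℕ → ℕ)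
    (hsum : ∀ᶠ n : ℕ in atTop, ∀ A : ℕ, 2 * n ≤ A → A ≤ 2 * n + 2 →
      ∑ p ∈ (Ioc 0 (A + n)).filter Nat.Prime, (e n A p : ℝ) * Real.log p ≤ S * (n : ℝ) ^ 2)
    (h0 : ∀ᶠ n : ℕ in atTop, ∀ A : ℕ, 2 * n ≤ A → A ≤ 2 * n + 2 →
      ∀ p : ℕ, p.Prime → A + n < p → e n A p = 0)
    (hint : ∀ᶠ n : ℕ in atTop, ∀ A : ℕ, 2 * n ≤ A → A ≤ 2 * n + 2 →
      ∀ (p : ℕ) [Fact p.Prime] (y y' : K), y ∈ Op p → y' ∈ Op p →
        (p : K) ^ e n A p * DeltaR y y' v A n ∈ Op p) : False := by
  obtain ⟨C1, hC1, hn⟩ := norm_final x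
  obtain ⟨C2, hC2⟩ := harch
  set D : ℝ := max C2 0 with hD
  have hD0 : 0 ≤ D := le_max_right _ _
  have hDC : C2 ≤ D := le_max_left _ _
  set C3 : ℝ := |Real.log (emb alpha)| with hC3
  have hC30 : 0 ≤ C3 := abs_nonneg _
  -- the negative quantity
  have hlog := log_small (8 * D) (by positivity) (show (0 : ℝ) < (8 * E - 2 * S) / 2 by linarith)
  have hlin : ∀ᶠ n : ℕ in atTop, 5 * C1 + 2 * C3 + 8 * D + 1 + 8 * |E| ≤ (8 * E - 2 * S) / 2 * n := by
    have h2 : Tendsto (fun n : ℕ => (8 * E - 2 * S) / 2 * (n : ℝ)) atTop atTop :=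
      Tendsto.const_mul_atTop (by linarith) tendsto_natCast_atTop_atTop
    exact h2.eventually_ge_atTop _
  obtain ⟨n0, hn0⟩ := eventually_atTop.1 (hsum.and (h0.and (hint.and (hlog.and (hlin.and
    (eventually_ge_atTop 1))))))
  obtain ⟨n, A, hnn, h1, h2, hne⟩ := nonvan_Delta hv hA hB hx n0
  obtain ⟨g1, g2, g3, g4, g5, g6⟩ := hn0 n hnn
  have key := hn v A n (A + n) (e n A) (g2 A h1 h2) (fun p _ y y' hy hy' => g3 A h1 h2 p y y' hy hy')
    hne
  have hs := g1 A h1 h2
  have hA2 : 2 ≤ A := by omega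
  have harc := hC2 A n hA2 h1 h2
  have hL : Real.log |emb (Delta x v A n)| ≤ - E * (A : ℝ) ^ 2 + C2 * A * Real.log (A + 1) := by
    have h3 : 0 < |emb (Delta x v A n)| := abs_pos.2 (emb_ne_zero hne)
    have h4 := Real.log_le_log h3 harc
    rwa [Real.log_exp] at h4
  have hstar : Real.log |emb (star (Delta x v A n))| =
      Real.log |emb (Delta x v A n)| - 2 * n * Real.log (emb alpha) := by
    have h3 := abs_emb_star_Delta x hv hv0 (show n ≤ A by omega)
    have h4 : |emb (star (Delta x v A n))| ≠ 0 := by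
      apply abs_ne_zero.2
      apply emb_ne_zero
      intro h5
      exact hne (star_eq_zero.1 h5)
    rw [h3, Real.log_mul (pow_ne_zero _ (abs_ne_zero.2 fin0_alpha_pos.ne')) h4, Real.log_pow,
      Real.log_abs (emb alpha)]
    push_cast
    ring
  have hAr : (2 : ℝ) * n ≤ A := by exact_mod_cast h1
  have hAr2 : (A : ℝ) ≤ 2 * n + 2 := by exact_mod_cast h2
  have hnr : (1 : ℝ) ≤ n := by exact_mod_cast g6
  -- bound of the logarithm
  have hlogA : Real.log (A + 1) ≤ 1 + Real.log (n + 2) := by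
    have h5 : Real.log ((A : ℝ) + 1) ≤ Real.log (2 * ((n : ℝ) + 2)) := by
      apply Real.log_le_log (by positivity)
      linarith
    rw [Real.log_mul (by norm_num) (by positivity)] at h5
    have h6 : Real.log 2 ≤ 1 := by
      have := Real.log_two_lt_d9
      linarith
    linarith
  have hlogA0 : 0 ≤ Real.log ((A : ℝ) + 1) := Real.log_nonneg (by linarith)
  have hterm : C2 * A * Real.log (A + 1) ≤ 4 * n * (D * (1 + Real.log (n + 2))) := by
    calc C2 * A * Real.log (A + 1) ≤ D * A * Real.log (A + 1) := by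
          apply mul_le_mul_of_nonneg_right _ hlogA0
          exact mul_le_mul_of_nonneg_right hDC (by positivity)
      _ ≤ D * (4 * n) * (1 + Real.log (n + 2)) := by
          apply mul_le_mul _ hlogA hlogA0 (by positivity)
          apply mul_le_mul_of_nonneg_left _ hD0
          linarith
      _ = _ := by ring
  have hsq : - E * (A : ℝ) ^ 2 ≤ - E * (4 * (n : ℝ) ^ 2) ∨ E < 0 := by
    rcases le_or_gt 0 E with h | h
    · left
      have : (4 : ℝ) * (n : ℝ) ^ 2 ≤ (A : ℝ) ^ 2 := by nlinarith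
      nlinarith
    · exact Or.inr h
  have hAn : ((A + n : ℕ) : ℝ) ≤ 5 * n := by
    push_cast
    linarith
  rw [hstar] at key
  have hal : - (2 * (n : ℝ) * Real.log (emb alpha)) ≤ 2 * n * C3 := by
    have := neg_abs_le (Real.log (emb alpha))
    nlinarith
  rcases hsq with hsq | hEneg
  · have hmain : 0 ≤ 2 * (S * (n : ℝ) ^ 2) + C1 * (5 * n) +
        2 * (- E * (4 * (n : ℝ) ^ 2) + 4 * n * (D * (1 + Real.log (n + 2)))) + 2 * n * C3 := by
      have h7 : C1 * ((A + n : ℕ) : ℝ) ≤ C1 * (5 * n) := mul_le_mul_of_nonneg_left hAn hC1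
      linarith
    have h8 : (n : ℝ) * (5 * C1 + 2 * C3 + 8 * D + 1 + 8 * |E|) ≤ n * ((8 * E - 2 * S) / 2 * n) :=
      mul_le_mul_of_nonneg_left g5 (by linarith)
    have h9 : (n : ℝ) * (8 * D * Real.log ((n : ℝ) + 2)) ≤ n * ((8 * E - 2 * S) / 2 * n) :=
      mul_le_mul_of_nonneg_left g4 (by linarith)
    have h10 : 0 ≤ |E| := abs_nonneg _
    nlinarith
  · -- impossible: `S ≥ 0`
    have hSn : 0 ≤ S * (n : ℝ) ^ 2 := by
      refine le_trans ?_ hs
      apply Finset.sum_nonneg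
      intro p hp
      apply mul_nonneg (Nat.cast_nonneg _)
      exact Real.log_natCast_nonneg p
    have hS0 : 0 ≤ S := by
      by_contra h
      push Not at h
      have : 0 < (n : ℝ) ^ 2 := by positivity
      nlinarith
    linarith

end QS2
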