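import Pool.Agent.QS2.Final0
import Pool.Agent.QS2.Expo
import Pool.Agent.QS2.AperyRec

/-!
# QS2: the assembly, up to the archimedean bound, the class rule and the rule for small primes
-/

set_option autoImplicit false

namespace QS2

open Finset Filter

theorem recQ_A : NV.RecQ aperyA := aperyA_rec'

theorem recQ_B : NV.RecQ aperyB := aperyB_rec'

/-- the assembly, for one `x ∈ K` -/
theorem final_one {x : K} (hx : x.im ≠ 0) {v : ℕ → K} (hv : IsFormal v) (hv0 : v 0 = alpha)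
    (harch : ∃ C : ℝ, ∀ A rho : ℕ, 2 ≤ A → 2 * rho ≤ A → A ≤ 2 * rho + 2 →
      |emb (Delta x v A rho)| ≤ Real.exp (- (17 / 4) * (A : ℝ) ^ 2 + C * A * Real.log (A + 1)))
    {s : ℕ} (hs : SmallRule v s) {cls : ℕ → ℕ → ℕ → ℕ} {C1 n1 : ℕ} (hc : ClsRule v cls C1 n1) :
    False := by
  refine final_core hx recQ_A recQ_B hv hv0 (E := 17 / 4) (S := 15.38) (by norm_num) harch
    (eExp s cls) (primes_sum_Ioc (K := 8) (by norm_num) (eExp_PRule hc)) ?_ ?_
  · filter_upwards [eventually_ge_atTop 1] with n hn A h1 _ p _ h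
    exact eExp_zero hn h1 h
  · filter_upwards [eventually_ge_atTop 2, eventually_ge_atTop n1] with n hn hn1 A h1 h2 p _ y y' hy hy'
    exact eExp_mem hv hv0 hs hc hn1 hn h1 h2 p y y' hy hy'

/-- the assembly for a real number `t` in place of `ζ(3)` -/
theorem ne_of_rules {t : ℝ} (hirr : Irrational t)
    (harch : ∀ x : K, emb x = t → star x ≠ x → ∀ v : ℕ → K, v 0 = alpha → IsFormal v →
      ∃ C : ℝ, ∀ A rho : ℕ, 2 ≤ A → 2 * rho ≤ A → A ≤ 2 * rho + 2 →
      |emb (Delta x v A rho)| ≤ Real.exp (- (17 / 4) * (A : ℝ) ^ 2 + C * A * Real.log (A + 1)))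
    (hsmall : ∀ v : ℕ → K, v 0 = alpha → IsFormal v → ∃ s, SmallRule v s)
    (hcls : ∀ v : ℕ → K, v 0 = alpha → IsFormal v → ∃ (cls : ℕ → ℕ → ℕ → ℕ) (C1 n1 : ℕ),
      ClsRule v cls C1 n1) (a b : ℚ) : t ≠ a + b * √2 := by
  intro h
  by_cases hb : b = 0
  · apply hirr
    refine ⟨a, ?_⟩
    rw [h, hb]
    simp
  · obtain ⟨v, hv, hv0⟩ := exists_formal
    have hstar : star (⟨a, b⟩ : K) ≠ ⟨a, b⟩ := by
      intro h1
      have h2 := congrArg QuadraticAlgebra.im h1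
      rw [QuadraticAlgebra.im_star] at h2
      simp only at h2
      apply hb
      linarith
    obtain ⟨s, hs⟩ := hsmall v hv0 hv
    obtain ⟨cls, C1, n1, hc⟩ := hcls v hv0 hv
    refine final_one (x := ⟨a, b⟩) hb hv hv0 (harch ⟨a, b⟩ ?_ hstar v hv0 hv) hs hc
    rw [emb_apply, h]

end QS2
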