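import Pool.Agent.QS2.Defs

/-!
# QS2: from `ζ(3) ∉ ℚ(√2)` to linear independence of `1, √2, ζ(3), √2 ζ(3)`
-/

set_option autoImplicit false

namespace QS2

theorem emb_mk (a b : ℚ) : emb (⟨a, b⟩ : K) = a + b * √2 := emb_apply _

/-- if the real number `s` is not in `ℚ(√2)` then `1, √2, s, √2 s` are linearly independent over
the rationals -/
theorem linInd_of_not_mem {s : ℝ} (H : ∀ x : K, emb x ≠ s) (a b c d : ℚ)
    (h : (a : ℝ) + b * √2 + (c + d * √2) * s = 0) : a = 0 ∧ b = 0 ∧ c = 0 ∧ d = 0 := by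
  rw [← emb_mk, ← emb_mk] at h
  have hy : (⟨c, d⟩ : K) = 0 := by
    by_contra hy
    apply H (-(⟨a, b⟩ : K) / ⟨c, d⟩)
    have h1 : emb (⟨c, d⟩ : K) ≠ 0 := (map_ne_zero_iff emb emb.toRingHom.injective).2 hy
    rw [map_div₀, map_neg, div_eq_iff h1]
    linarith
  have hz : (⟨a, b⟩ : K) = 0 := by
    rw [hy, map_zero, zero_mul, add_zero] at h
    exact (map_eq_zero_iff emb emb.toRingHom.injective).1 h
  have h1 := congrArg QuadraticAlgebra.re hy
  have h2 := congrArg QuadraticAlgebra.im hy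
  have h3 := congrArg QuadraticAlgebra.re hz
  have h4 := congrArg QuadraticAlgebra.im hz
  exact ⟨h3, h4, h1, h2⟩

end QS2
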