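import Pool.Agent.QS2.AperyRec
import Pool.Agent.PNT.Main

/-!
# QS2: `ζ(3)` is irrational (Apéry), needed to exclude `b = 0` in `ζ(3) = a + b √2`
-/

set_option autoImplicit false

namespace QS2

open Finset Filter Topology

namespace Irr

/-! ## Decay of the remainders -/

theorem aperyA_mono : Monotone aperyA := by
  refine monotone_nat_of_le_succ fun n => ?_
  unfold aperyA
  rw [sum_range_succ _ (n + 1)]
  refine le_add_of_le_of_nonneg (Finset.sum_le_sum fun k _ => ?_) (by positivity)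
  have h1 : (n.choose k : ℚ) ≤ ((n + 1).choose k : ℚ) := by
    exact_mod_cast Nat.choose_le_choose k (Nat.le_succ n)
  have h2 : ((n + k).choose k : ℚ) ≤ ((n + 1 + k).choose k : ℚ) := by
    exact_mod_cast Nat.choose_le_choose k (by omega)
  gcongr

theorem lrem_bdd : ∃ C : ℝ, ∀ n, lrem n ≤ C := by
  refine ⟨6 * ∑' k : ℕ, 1 / ((k : ℝ) + 1) ^ 3, fun n => ?_⟩
  have han : (0 : ℝ) < ((aperyA n : ℚ) : ℝ) := by exact_mod_cast aperyA_pos n
  have h := (hasSum_lrem' n).mul_left ((aperyA n : ℚ) : ℝ)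
  have e : ((aperyA n : ℚ) : ℝ) * (lrem n / ((aperyA n : ℚ) : ℝ)) = lrem n := by
    field_simp
  rw [e] at h
  have hs : HasSum (fun k : ℕ => 6 * (1 / ((k : ℝ) + 1) ^ 3))
      (6 * ∑' k : ℕ, 1 / ((k : ℝ) + 1) ^ 3) := (summable_cube.hasSum).mul_left 6
  refine hasSum_le (fun k => ?_) h hs
  have h1 : (1 : ℝ) ≤ ((aperyA (n + k + 1) : ℚ) : ℝ) := by exact_mod_cast one_le_aperyA _
  have h2 : ((aperyA n : ℚ) : ℝ) ≤ ((aperyA (n + k) : ℚ) : ℝ) := by
    exact_mod_cast aperyA_mono (by omega : n ≤ n + k)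
  have h3 : (0 : ℝ) < ((aperyA (n + k) : ℚ) : ℝ) := lt_of_lt_of_le han h2
  have h4 : ((k : ℝ) + 1) ^ 3 ≤ (((n + k : ℕ) : ℝ) + 1) ^ 3 := by
    refine pow_le_pow_left₀ (by positivity) ?_ 3
    push_cast
    have : (0 : ℝ) ≤ n := Nat.cast_nonneg n
    linarith
  have h5 : (0 : ℝ) < ((k : ℝ) + 1) ^ 3 := by positivity
  have h6 : (0 : ℝ) < (((n + k : ℕ) : ℝ) + 1) ^ 3 := by positivity
  rw [mul_div_assoc', mul_one_div, div_le_div_iff₀ (by positivity) h5]
  have h7 : ((aperyA n : ℚ) : ℝ) * ((k : ℝ) + 1) ^ 3 ≤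
      ((aperyA (n + k) : ℚ) : ℝ) * (((n + k : ℕ) : ℝ) + 1) ^ 3 :=
    mul_le_mul h2 h4 h5.le h3.le
  have h8 : 0 ≤ ((aperyA (n + k) : ℚ) : ℝ) * (((n + k : ℕ) : ℝ) + 1) ^ 3 := by positivity
  calc ((aperyA n : ℚ) : ℝ) * 6 * ((k : ℝ) + 1) ^ 3
      = 6 * (((aperyA n : ℚ) : ℝ) * ((k : ℝ) + 1) ^ 3) := by ring
    _ ≤ 6 * ((((aperyA (n + k) : ℚ) : ℝ) * (((n + k : ℕ) : ℝ) + 1) ^ 3) *
        ((aperyA (n + k + 1) : ℚ) : ℝ)) := by
      refine mul_le_mul_of_nonneg_left ?_ (by norm_num)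
      exact h7.trans (le_mul_of_one_le_right h8 h1)
    _ = _ := by ring

/-- growth step -/
theorem step (n : ℕ) (h : lrem n < 31 * lrem (n + 1)) : 3 * lrem (n + 1) < lrem (n + 2) := by
  have h1 := lrem_rec n
  have h3 := lrem_pos' (n + 1)
  have hn : (0 : ℝ) ≤ n := Nat.cast_nonneg n
  have h4 : ((n : ℝ) + 1) ^ 3 * lrem n ≤ ((n : ℝ) + 1) ^ 3 * (31 * lrem (n + 1)) :=
    mul_le_mul_of_nonneg_left h.le (by positivity)
  have h6 : (0 : ℝ) < 42 * ((n : ℝ) + 1) ^ 2 + 18 * ((n : ℝ) + 1) + 2 := by positivity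
  have h7 := mul_pos h6 h3
  have h5 : ((n : ℝ) + 2) ^ 3 * (3 * lrem (n + 1)) < ((n : ℝ) + 2) ^ 3 * lrem (n + 2) := by
    unfold ap at h1
    nlinarith [h1, h4, h7]
  exact lt_of_mul_lt_mul_left h5 (by positivity)

theorem ratio (n : ℕ) : 31 * lrem (n + 1) ≤ lrem n := by
  by_contra hc
  rw [not_le] at hc
  have h1 := lrem_pos' (n + 1)
  have key : ∀ k : ℕ, lrem (n + k) < 31 * lrem (n + k + 1) ∧
      3 ^ k * lrem (n + 1) ≤ lrem (n + k + 1) := by
    intro k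
    induction k with
    | zero => exact ⟨by simpa using hc, by simp⟩
    | succ k ih =>
      have h2 := step (n + k) ih.1
      have h3 := lrem_pos' (n + k + 1)
      have e1 : n + (k + 1) = n + k + 1 := by ring
      have e2 : n + (k + 1) + 1 = n + k + 2 := by ring
      rw [e2, e1]
      constructor
      · linarith
      · calc (3 : ℝ) ^ (k + 1) * lrem (n + 1) = 3 * (3 ^ k * lrem (n + 1)) := by ring
          _ ≤ 3 * lrem (n + k + 1) := by linarith [ih.2]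
          _ ≤ lrem (n + k + 2) := h2.le
  obtain ⟨C, hC⟩ := lrem_bdd
  have ht : Tendsto (fun k : ℕ => (3 : ℝ) ^ k * lrem (n + 1)) atTop atTop :=
    (tendsto_pow_atTop_atTop_of_one_lt (by norm_num)).atTop_mul_const h1
  obtain ⟨k, hk⟩ := (ht.eventually (eventually_gt_atTop C)).exists
  have h4 := (key k).2
  have h5 := hC (n + k + 1)
  linarith

theorem lrem_le (n : ℕ) : lrem n ≤ lrem 0 * (1 / 31) ^ n := by
  induction n with
  | zero => simp
  | succ n ih =>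
    have := ratio n
    rw [pow_succ]
    linarith

/-! ## Integrality -/

theorem int_of_padic (q : ℚ) (h : ∀ (p : ℕ) [Fact p.Prime], padicNorm p q ≤ 1) :
    ∃ z : ℤ, q = z := by
  refine ⟨q.num, ?_⟩
  have hden : q.den = 1 := by
    by_contra hne
    obtain ⟨p, hp, hpd⟩ := Nat.exists_prime_and_dvd hne
    have : Fact p.Prime := ⟨hp⟩
    have hnum : ¬ (p : ℤ) ∣ q.num := by
      intro hd
      have h1 : p ∣ q.num.natAbs := Int.natCast_dvd.1 hd
      have h2 := Nat.dvd_gcd h1 hpd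
      have h3 : Nat.gcd q.num.natAbs q.den = 1 := q.reduced
      rw [h3] at h2
      exact hp.one_lt.ne' (Nat.dvd_one.1 h2)
    have h1 : padicNorm p (q.num : ℚ) = 1 := (padicNorm.int_eq_one_iff q.num).2 hnum
    have h2 : padicNorm p (q.den : ℚ) < 1 := (padicNorm.nat_lt_one_iff q.den).2 hpd
    have h3 : padicNorm p q * padicNorm p (q.den : ℚ) = 1 := by
      rw [← padicNorm.mul, Rat.mul_den_eq_num, h1]
    have h4 := h p
    have h5 : 0 ≤ padicNorm p (q.den : ℚ) := padicNorm.nonneg _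
    nlinarith
  conv_lhs => rw [← Rat.num_div_den q, hden]
  simp

theorem norm_lcm (p : ℕ) [hp : Fact p.Prime] (n : ℕ) :
    padicNorm p (Nat.lcmUpto n : ℚ) = ((p : ℚ) ^ Nat.log p n)⁻¹ := by
  have h0 : ((Nat.lcmUpto n : ℕ) : ℚ) ≠ 0 := by
    exact_mod_cast Nat.lcmUpto_ne_zero n
  rw [padicNorm.eq_zpow_of_nonzero h0, padicValRat.of_nat, zpow_neg, zpow_natCast,
    ← Nat.factorization_def _ hp.out, Nat.factorization_lcmUpto n hp.out]

theorem int_b (n : ℕ) : ∃ z : ℤ, (Nat.lcmUpto n : ℚ) ^ 3 * (2 * aperyB n) = z := by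
  apply int_of_padic
  intro p hp
  have h1 := norm_two_aperyB p n
  have h2 : padicNorm p ((Nat.lcmUpto n : ℚ) ^ 3) = (((p : ℚ) ^ Nat.log p n)⁻¹) ^ 3 := by
    rw [pow_succ, pow_two, padicNorm.mul, padicNorm.mul, norm_lcm]
    ring
  have hp0 : (0 : ℚ) < (p : ℚ) := by exact_mod_cast hp.out.pos
  rw [padicNorm.mul, h2]
  calc (((p : ℚ) ^ Nat.log p n)⁻¹) ^ 3 * padicNorm p (2 * aperyB n)
      ≤ (((p : ℚ) ^ Nat.log p n)⁻¹) ^ 3 * (p : ℚ) ^ (3 * Nat.log p n) :=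
        mul_le_mul_of_nonneg_left h1 (by positivity)
    _ = 1 := by
      rw [mul_comm 3 (Nat.log p n), pow_mul, ← mul_pow, inv_mul_cancel₀ (by positivity), one_pow]

theorem lcm_le : ∀ᶠ n : ℕ in atTop, (Nat.lcmUpto n : ℝ) ^ 3 ≤ Real.exp (33 / 10 * n) := by
  have h := Pool.Agent.PNT.psi_asymp.comp (tendsto_natCast_atTop_atTop (R := ℝ))
  have h1 : ∀ᶠ n : ℕ in atTop, Chebyshev.psi (n : ℝ) / (n : ℝ) < 11 / 10 :=
    h.eventually (gt_mem_nhds (by norm_num))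
  filter_upwards [h1, eventually_ge_atTop 1] with n hn hn1
  have hn0 : (0 : ℝ) < n := by exact_mod_cast hn1
  rw [div_lt_iff₀ hn0, Chebyshev.psi_eq_log_lcmUpto] at hn
  have h0 : (0 : ℝ) < Nat.lcmUpto n := by exact_mod_cast Nat.lcmUpto_pos n
  have h2 : (Nat.lcmUpto n : ℝ) ≤ Real.exp (11 / 10 * n) := by
    rw [← Real.log_le_iff_le_exp h0]
    exact hn.le
  calc (Nat.lcmUpto n : ℝ) ^ 3 ≤ (Real.exp (11 / 10 * n)) ^ 3 := pow_le_pow_left₀ h0.le h2 3
    _ = Real.exp (33 / 10 * n) := by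
      rw [← Real.exp_nat_mul]
      congr 1
      push_cast
      ring

end Irr

open Irr in
/-- **Apéry's theorem** -/
theorem irrational_zeta3 : Irrational zeta3 := by
  rintro ⟨r, hr⟩
  set q : ℕ := r.den with hq
  have hq0 : 0 < q := r.den_pos
  -- the integers `2 q D^3 l_n`
  have hint : ∀ n : ℕ, 1 ≤ 2 * (q : ℝ) * (Nat.lcmUpto n : ℝ) ^ 3 * lrem n := by
    intro n
    obtain ⟨z, hz⟩ := int_b n
    have hqr : (q : ℚ) * r = r.num := by
      rw [mul_comm]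
      exact Rat.mul_den_eq_num r
    have e : 2 * (q : ℝ) * (Nat.lcmUpto n : ℝ) ^ 3 * lrem n =
        ((2 * (Nat.lcmUpto n : ℤ) ^ 3 * (aperyN n : ℤ) * r.num - q * z : ℤ) : ℝ) := by
      have e1 : 2 * (q : ℚ) * (Nat.lcmUpto n : ℚ) ^ 3 * (aperyA n * r - aperyB n) =
        ((2 * (Nat.lcmUpto n : ℤ) ^ 3 * (aperyN n : ℤ) * r.num - q * z : ℤ) : ℚ) := by
        push_cast
        rw [← hz, ← hqr, ← aperyA_eq_cast]
        ring
      have e2 : lrem n = ((aperyA n * r - aperyB n : ℚ) : ℝ) := by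
        rw [lrem, ← hr]
        push_cast
        ring
      rw [e2]
      exact_mod_cast congrArg (fun t : ℚ => (t : ℝ)) e1
    have hpos : 0 < 2 * (q : ℝ) * (Nat.lcmUpto n : ℝ) ^ 3 * lrem n := by
      have h1 := lrem_pos' n
      have h2 : (0 : ℝ) < Nat.lcmUpto n := by exact_mod_cast Nat.lcmUpto_pos n
      have h3 : (0 : ℝ) < q := by exact_mod_cast hq0
      positivity
    rw [e] at hpos ⊢
    exact_mod_cast hpos
  have hlim : Tendsto (fun n : ℕ => 2 * (q : ℝ) * lrem 0 * (Real.exp (33 / 10) * (1 / 31)) ^ n)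
      atTop (𝓝 (2 * (q : ℝ) * lrem 0 * 0)) := by
    refine (tendsto_pow_atTop_nhds_zero_of_lt_one (by positivity) ?_).const_mul _
    have h1 : Real.exp (33 / 10) < 31 := by
      have h2 := Real.exp_one_lt_d9
      have h3 : Real.exp (33 / 10) = Real.exp 1 ^ 3 * Real.exp (3 / 10) := by
        rw [← Real.exp_nat_mul, ← Real.exp_add]
        norm_num
      have h4 : Real.exp (3 / 10) ≤ 1.35 := by
        have h5 := Real.exp_bound' (x := 3 / 10) (by norm_num) (by norm_num) (n := 4) (by norm_num)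
        refine h5.trans ?_
        norm_num [Finset.sum_range_succ, Nat.factorial]
      have h6 : Real.exp 1 ^ 3 < 2.7182818286 ^ 3 :=
        pow_lt_pow_left₀ h2 (Real.exp_pos 1).le (by norm_num)
      rw [h3]
      calc Real.exp 1 ^ 3 * Real.exp (3 / 10) ≤ 2.7182818286 ^ 3 * 1.35 :=
            mul_le_mul h6.le h4 (Real.exp_pos _).le (by positivity)
        _ < 31 := by norm_num
    rw [mul_one_div, div_lt_one (by norm_num)]
    exact h1
  rw [mul_zero] at hlim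
  have h2 : ∀ᶠ n : ℕ in atTop,
      2 * (q : ℝ) * lrem 0 * (Real.exp (33 / 10) * (1 / 31)) ^ n < 1 :=
    hlim.eventually (gt_mem_nhds one_pos)
  obtain ⟨n, hn1, hn2⟩ := (h2.and lcm_le).exists
  have h3 := hint n
  have h4 : 2 * (q : ℝ) * (Nat.lcmUpto n : ℝ) ^ 3 * lrem n ≤
      2 * (q : ℝ) * lrem 0 * (Real.exp (33 / 10) * (1 / 31)) ^ n := by
    have h5 := lrem_le n
    have h6 := lrem_pos' n
    have h7 : (0 : ℝ) < q := by exact_mod_cast hq0
    have e : (Real.exp (33 / 10) * (1 / 31)) ^ n = Real.exp (33 / 10 * n) * (1 / 31) ^ n := by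
      rw [mul_pow, ← Real.exp_nat_mul]
      congr 2
      ring
    rw [e]
    calc 2 * (q : ℝ) * (Nat.lcmUpto n : ℝ) ^ 3 * lrem n
        ≤ 2 * (q : ℝ) * Real.exp (33 / 10 * n) * (lrem 0 * (1 / 31) ^ n) := by
          refine mul_le_mul (mul_le_mul_of_nonneg_left hn2 (by positivity)) h5 h6.le ?_
          positivity
      _ = _ := by ring
  linarith

end QS2
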