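import Pool.Agent.QS2.Final1
import Pool.Agent.QS2.Final2
import Pool.Agent.QS2.ClsMain
import Pool.Agent.QS2.Irr

/-!
# QS2: `ζ(3) ∉ ℚ(√2)` from the archimedean bound, the data of the class rule and the rule for
small primes
-/

set_option autoImplicit false

namespace QS2

/-- `ζ(3) ∉ ℚ(√2)`, from the three remaining inputs -/
theorem emb_ne_zeta3_of
    (harch : ∀ x : K, emb x = zeta3 → star x ≠ x → ∀ v : ℕ → K, v 0 = alpha → IsFormal v →
      ∃ C : ℝ, ∀ A rho : ℕ, 2 ≤ A → 2 * rho ≤ A → A ≤ 2 * rho + 2 →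
      |emb (Delta x v A rho)| ≤ Real.exp (- (17 / 4) * (A : ℝ) ^ 2 + C * A * Real.log (A + 1)))
    (hdata : ∀ v : ℕ → K, v 0 = alpha → IsFormal v → ∀ (p : ℕ) [Fact p.Prime], 5 ≤ p →
      Cls.DataStmt p v)
    (hsmall : ∀ v : ℕ → K, v 0 = alpha → IsFormal v → ∃ s, SmallRule v s) (x : K) :
    emb x ≠ zeta3 := by
  intro hx
  refine ne_of_rules irrational_zeta3 harch hsmall (fun v hv0 hv => ⟨clsE, 0, 0,
    Cls.clsRule_of_data fun p _ h5 => hdata v hv0 hv p h5⟩) x.re x.im ?_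
  rw [← hx, emb_apply]

end QS2
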