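import Pool.Agent.QS2.SmallPInst

/-!
# Sums of products of three fractions `(1/2)_m / (z+a)_m` are `Nice`
-/

set_option autoImplicit false

namespace QS2SP

open Polynomial Finset QS2

section gen

variable {K : Type*} [Field K] [CharZero K]

/-- `(1/2)_m` -/
noncomputable def poch (K : Type*) [Field K] (m : ℕ) : K := ∏ i ∈ range m, ((2 : K)⁻¹ + i)

theorem poch_eq (m : ℕ) : poch K m = (-1) ^ m * (m.factorial : K) * chK (-(2 : K)⁻¹) m := by
  rw [chK_eq]
  have h1 : ∏ i ∈ range m, (-(2 : K)⁻¹ - i) = (-1) ^ m * poch K m := by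
    rw [poch]
    have h2 : ((-1 : K)) ^ m = ∏ _i ∈ range m, (-1 : K) := by simp
    rw [h2, ← prod_mul_distrib]
    exact prod_congr rfl fun i _ => by ring
  rw [h1]
  have h3 : ((-1 : K) ^ m) * (-1) ^ m = 1 := by
    rw [← mul_pow]; simp
  have h4 := fac_ne (K := K) m
  calc poch K m = ((-1 : K) ^ m * (-1) ^ m) * ((m.factorial : K) * (m.factorial : K)⁻¹)
        * poch K m := by rw [h3, mul_inv_cancel₀ h4]; ring
    _ = _ := by ring

theorem poch_div_mem {R : Subring K} {p : ℕ} (hp : p.Prime) (hp2 : p ≠ 2) (hR : PLoc R p)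
    (k : ℕ) : poch K (k + 1) * ((k.factorial : K))⁻¹ ∈ R := by
  have h1 : poch K (k + 1) * ((k.factorial : K))⁻¹
      = (-1) ^ (k + 1) * ((k + 1 : ℕ) : K) * chK (-(2 : K)⁻¹) (k + 1) := by
    rw [poch_eq, Nat.factorial_succ]
    have := fac_ne (K := K) k
    push_cast
    field_simp
  rw [h1]
  exact R.mul_mem (R.mul_mem (R.pow_mem (R.neg_mem R.one_mem) _) (natCast_mem R _))
    ((Good.half hp hp2 hR).neg.chK_mem hp hR _)

theorem Nice.frac {R : Subring K} {p : ℕ} (hp : p.Prime) (hp2 : p ≠ 2) (hR : PLoc R p)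
    {a : K} (ha : Good R p a) (m : ℕ) {F : PowerSeries K}
    (hF : F * ∏ i ∈ range m, (1 + PowerSeries.C (a + i) * PowerSeries.X)
      = PowerSeries.C (poch K m) * PowerSeries.X ^ m) : Nice R p 2 F := by
  cases m with
  | zero =>
    have : F = 1 := by simpa [poch] using hF
    rw [this]
    exact (Nice.one R p).mono (by norm_num)
  | succ k =>
    have h1 : F = PowerSeries.C (poch K (k + 1) * ((k.factorial : K))⁻¹) * QS2SP.HH k a := by
      have h2 : (∏ i ∈ range (k + 1), (1 + PowerSeries.C (a + i) * PowerSeries.X : PowerSeries K))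
          * ∏ i ∈ range (k + 1), (1 + PowerSeries.C (a + i) * PowerSeries.X)⁻¹ = 1 := by
        rw [← prod_mul_distrib]
        exact prod_eq_one fun i _ => PowerSeries.mul_inv_cancel _ (lin_ne _)
      have h3 : (PowerSeries.C (poch K (k + 1) * ((k.factorial : K))⁻¹) : PowerSeries K)
          * PowerSeries.C (k.factorial : K) = PowerSeries.C (poch K (k + 1)) := by
        rw [← map_mul]
        congr 1
        have := fac_ne (K := K) k
        field_simp
      calc F = F * ((∏ i ∈ range (k + 1), (1 + PowerSeries.C (a + i) * PowerSeries.X))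
            * ∏ i ∈ range (k + 1), (1 + PowerSeries.C (a + i) * PowerSeries.X)⁻¹) := by
            rw [h2, mul_one]
        _ = (F * ∏ i ∈ range (k + 1), (1 + PowerSeries.C (a + i) * PowerSeries.X))
            * ∏ i ∈ range (k + 1), (1 + PowerSeries.C (a + i) * PowerSeries.X)⁻¹ := by ring
        _ = (PowerSeries.C (poch K (k + 1) * ((k.factorial : K))⁻¹)
            * PowerSeries.C (k.factorial : K)) * PowerSeries.X ^ (k + 1)
            * ∏ i ∈ range (k + 1), (1 + PowerSeries.C (a + i) * PowerSeries.X)⁻¹ := by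
            rw [hF, h3]
        _ = _ := by rw [QS2SP.HH]; ring
    rw [h1]
    exact Nice.C_mul (poch_div_mem hp hp2 hR k) (Nice.HH hp hR k a ha)

/-- the triple sum -/
theorem Nice.triple {R : Subring K} {p : ℕ} (hp : p.Prime) (hp2 : p ≠ 2) (hR : PLoc R p)
    {a : K} (ha : Good R p a) {E : ℕ → PowerSeries K}
    (hE : ∀ m, E m * ∏ i ∈ range m, (1 + PowerSeries.C (a + i) * PowerSeries.X)
      = PowerSeries.C (poch K m) * PowerSeries.X ^ m)
    {kap : ℕ → ℕ → ℕ → K} (hkap : ∀ m m' k, kap m m' k ∈ R) {S : PowerSeries K}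
    (hS : ∀ n, PowerSeries.coeff n S = ∑ m ∈ range (n + 1), ∑ m' ∈ range (n + 1),
      ∑ k ∈ range (n + 1), kap m m' k * PowerSeries.coeff n (E m * E m' * E k)) :
    Nice R p 6 S := by
  have hN : ∀ m, Nice R p 2 (E m) := fun m => Nice.frac hp hp2 hR ha m (hE m)
  -- order of `E m`
  have hord : ∀ m n : ℕ, ∀ G : PowerSeries K, n < m → PowerSeries.coeff n (E m * G) = 0 := by
    intro m n G hnm
    have h2 : (∏ i ∈ range m, (1 + PowerSeries.C (a + i) * PowerSeries.X : PowerSeries K))
        * ∏ i ∈ range m, (1 + PowerSeries.C (a + i) * PowerSeries.X)⁻¹ = 1 := by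
      rw [← prod_mul_distrib]
      exact prod_eq_one fun i _ => PowerSeries.mul_inv_cancel _ (lin_ne _)
    have h1 : E m * G = PowerSeries.X ^ m * (PowerSeries.C (poch K m)
        * (∏ i ∈ range m, (1 + PowerSeries.C (a + i) * PowerSeries.X)⁻¹) * G) := by
      calc E m * G = (E m * ∏ i ∈ range m, (1 + PowerSeries.C (a + i) * PowerSeries.X))
            * (∏ i ∈ range m, (1 + PowerSeries.C (a + i) * PowerSeries.X)⁻¹) * G := by
            rw [mul_assoc (E m), h2, mul_one]
        _ = _ := by rw [hE m]; ring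
    rw [h1, PowerSeries.coeff_X_pow_mul', if_neg (by omega)]
  apply Nice.of_trunc
  intro D
  refine ⟨∑ m ∈ range (D + 1), ∑ m' ∈ range (D + 1), ∑ k ∈ range (D + 1),
    PowerSeries.C (kap m m' k) * (E m * E m' * E k), ?_, ?_⟩
  · refine Nice.sum _ fun m _ => Nice.sum _ fun m' _ => Nice.sum _ fun k _ => ?_
    have h1 : Nice R p (2 + 2 + 2) (E m * E m' * E k) := ((hN m).mul (hN m')).mul (hN k)
    exact Nice.mono (by norm_num) (Nice.C_mul (hkap m m' k) h1)
  · intro n hn
    rw [hS n]
    simp only [map_sum, PowerSeries.coeff_C_mul]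
    have hsub : range (n + 1) ⊆ range (D + 1) := range_subset_range.mpr (by omega)
    have hz1 : ∀ m m' k, n < m → PowerSeries.coeff n (E m * E m' * E k) = 0 := by
      intro m m' k h
      rw [mul_assoc]; exact hord m n _ h
    have hz2 : ∀ m m' k, n < m' → PowerSeries.coeff n (E m * E m' * E k) = 0 := by
      intro m m' k h
      rw [mul_comm (E m), mul_assoc]; exact hord m' n _ h
    have hz3 : ∀ m m' k, n < k → PowerSeries.coeff n (E m * E m' * E k) = 0 := by
      intro m m' k h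
      rw [mul_comm]; exact hord k n _ h
    have s3 : ∀ m m', ∑ k ∈ range (D + 1), kap m m' k * PowerSeries.coeff n (E m * E m' * E k)
        = ∑ k ∈ range (n + 1), kap m m' k * PowerSeries.coeff n (E m * E m' * E k) := by
      intro m m'
      symm
      apply sum_subset hsub
      intro k _ hk
      rw [hz3 m m' k (by simpa [Nat.lt_succ_iff] using hk), mul_zero]
    have s2 : ∀ m, ∑ m' ∈ range (D + 1), ∑ k ∈ range (n + 1),
        kap m m' k * PowerSeries.coeff n (E m * E m' * E k)
        = ∑ m' ∈ range (n + 1), ∑ k ∈ range (n + 1),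
        kap m m' k * PowerSeries.coeff n (E m * E m' * E k) := by
      intro m
      symm
      apply sum_subset hsub
      intro m' _ hm'
      exact sum_eq_zero fun k _ => by
        rw [hz2 m m' k (by simpa [Nat.lt_succ_iff] using hm'), mul_zero]
    have s1 : ∑ m ∈ range (D + 1), ∑ m' ∈ range (n + 1), ∑ k ∈ range (n + 1),
        kap m m' k * PowerSeries.coeff n (E m * E m' * E k)
        = ∑ m ∈ range (n + 1), ∑ m' ∈ range (n + 1), ∑ k ∈ range (n + 1),
        kap m m' k * PowerSeries.coeff n (E m * E m' * E k) := by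
      symm
      apply sum_subset hsub
      intro m _ hm
      exact sum_eq_zero fun m' _ => sum_eq_zero fun k _ => by
        rw [hz1 m m' k (by simpa [Nat.lt_succ_iff] using hm), mul_zero]
    rw [← s1]
    refine sum_congr rfl fun m _ => ?_
    rw [← s2]
    exact sum_congr rfl fun m' _ => (s3 m m').symm

theorem Nice.pow {R : Subring K} {p s : ℕ} {F : PowerSeries K} (hF : Nice R p s F) (n : ℕ) :
    Nice R p (n * s) (F ^ n) := by
  induction n with
  | zero => simpa using Nice.one R p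
  | succ n ih =>
    rw [pow_succ, add_mul, one_mul]
    exact ih.mul hF

theorem Nice.lin {R : Subring K} {p : ℕ} (hp : p.Prime) (hR : PLoc R p) {b : K} (hb : b ∈ R) :
    Nice R p 2 (1 + PowerSeries.C b * PowerSeries.X : PowerSeries K) :=
  ((Nice.one R p).mono (by norm_num)).add (Nice.C_mul hb (Nice.X hp hR))

end gen

/-- helper48's form of the input: the three-fold sum formula gives `p`-integrality for every odd
prime `p`, at all levels. -/
theorem smallP_sym {p : ℕ} [hp : Fact p.Prime] (hp2 : p ≠ 2) {y y' : QS2.K}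
    (hy : y ∈ Op p) (hy' : y' ∈ Op p) {v : ℕ → QS2.K}
    {kap : ℕ → ℕ → ℕ → QS2.K} (hkap : ∀ m m' k, kap m m' k ∈ Op p)
    (hk0 : kap 0 0 0 ≠ 0) (hk1 : (kap 0 0 0)⁻¹ ∈ Op p)
    {E3 E5 : ℕ → PowerSeries QS2.K}
    (hE3 : ∀ m, E3 m * ∏ i ∈ range m, (1 + PowerSeries.C (3 * (2 : QS2.K)⁻¹ + i) * PowerSeries.X)
      = PowerSeries.C (poch QS2.K m) * PowerSeries.X ^ m)
    (hE5 : ∀ m, E5 m * ∏ i ∈ range m, (1 + PowerSeries.C (5 * (2 : QS2.K)⁻¹ + i) * PowerSeries.X)
      = PowerSeries.C (poch QS2.K m) * PowerSeries.X ^ m)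
    {S3 S5 : PowerSeries QS2.K}
    (hS3 : ∀ n, PowerSeries.coeff n S3 = ∑ m ∈ range (n + 1), ∑ m' ∈ range (n + 1),
      ∑ k ∈ range (n + 1), kap m m' k * PowerSeries.coeff n (E3 m * E3 m' * E3 k))
    (hS5 : ∀ n, PowerSeries.coeff n S5 = ∑ m ∈ range (n + 1), ∑ m' ∈ range (n + 1),
      ∑ k ∈ range (n + 1), kap m m' k * PowerSeries.coeff n (E5 m * E5 m' * E5 k))
    (hv : PowerSeries.mk v * ((1 + PowerSeries.C (3 * (2 : QS2.K)⁻¹) * PowerSeries.X) ^ 3 * S3)
      = PowerSeries.C alpha * (1 + PowerSeries.X) ^ 3 * S5)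
    (A rho : ℕ) (hA : rho ≤ A) :
    (p : QS2.K) ^ ((12 * Nat.log p (A + rho) + 3 * Nat.log p (A + 1)) * (2 * A))
      * DeltaR y y' v A rho ∈ Op p := by
  have hR := ploc_Op p
  have hhalf : Good (Op p) p ((2 : QS2.K)⁻¹) := Good.half hp.out hp2 hR
  have h3 : Good (Op p) p (3 * (2 : QS2.K)⁻¹) := by
    have := hhalf.add_int 1
    convert this using 1
    push_cast
    norm_num
  have h5 : Good (Op p) p (5 * (2 : QS2.K)⁻¹) := by
    have := hhalf.add_int 2
    convert this using 1
    push_cast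
    norm_num
  have hN3 := Nice.triple hp.out hp2 hR h3 hE3 hkap hS3
  have hN5 := Nice.triple hp.out hp2 hR h5 hE5 hkap hS5
  have h2m : (2 : QS2.K)⁻¹ ∈ Op p := by
    have : ((2 : ℕ) : QS2.K)⁻¹ ∈ Op p := hR 2 (by
      intro h
      exact hp2 ((Nat.prime_dvd_prime_iff_eq hp.out Nat.prime_two).mp h))
    simpa using this
  have h3m : 3 * (2 : QS2.K)⁻¹ ∈ Op p := by
    refine (Op p).mul_mem ?_ h2m
    exact_mod_cast natCast_mem (Op p) 3
  have hg : Nice (Op p) p 12
      ((1 + PowerSeries.C (3 * (2 : QS2.K)⁻¹) * PowerSeries.X) ^ 3 * S3) := by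
    have := ((Nice.lin hp.out hR h3m).pow 3).mul hN3
    exact Nice.mono (by norm_num) this
  have hf : Nice (Op p) p 12 (PowerSeries.C alpha * (1 + PowerSeries.X) ^ 3 * S5) := by
    have h1 : Nice (Op p) p 2 (1 + PowerSeries.X : PowerSeries QS2.K) := by
      have := Nice.lin hp.out hR (b := (1 : QS2.K)) (Op p).one_mem
      simpa using this
    have := Nice.C_mul (alpha_mem p) ((h1.pow 3).mul hN5)
    rw [← mul_assoc] at this
    exact Nice.mono (by norm_num) this
  have hc0 : PowerSeries.coeff 0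
      ((1 + PowerSeries.C (3 * (2 : QS2.K)⁻¹) * PowerSeries.X) ^ 3 * S3) = kap 0 0 0 := by
    have h00 : E3 0 = 1 := by simpa [poch] using hE3 0
    have h1 := hS3 0
    simp only [zero_add, range_one, sum_singleton, h00, mul_one, PowerSeries.coeff_one,
      if_pos] at h1
    rw [PowerSeries.coeff_zero_eq_constantCoeff_apply] at h1 ⊢
    rw [map_mul, h1]
    simp
  refine smallP_DeltaR hp2 hy hy' hv hf hg ?_ ?_ A rho hA
  · rw [hc0]; exact hk0
  · rw [hc0]; exact hk1

end QS2SP
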