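import Pool.Agent.QS2.Final3
import Pool.Agent.QS2.ClsDataEx
import Pool.Agent.QS2.Sym
import Pool.Agent.QS2.SmallPSym

/-!
# QS2: the `p`-adic side is complete

`ζ(3) ∉ ℚ(√2)` from the archimedean bound alone.
-/

set_option autoImplicit false

namespace QS2

open Finset

/-- the data of the class rule -/
theorem data_all {v : ℕ → K} (hv0 : v 0 = alpha) (hv : IsFormal v) (p : ℕ) [Fact p.Prime]
    (h5 : 5 ≤ p) : Cls.DataStmt p v := by
  have hp2 : p ≠ 2 := by omega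
  obtain ⟨kap, h1, h2, h3, h4⟩ := Sym.sym_formula hp2 hv hv0
  refine Cls.data_of_sym hp2 hv0 hv h1 h2 h3 (E3 := Sym.EK (3 * 2⁻¹)) (E5 := Sym.EK (5 * 2⁻¹))
    (fun m => ?_) (fun m => ?_) (Sym.coeff_sigF kap _) (Sym.coeff_sigF kap _) ?_
  · rw [div_eq_mul_inv]
    exact Sym.EK_prod _ m
  · rw [div_eq_mul_inv]
    exact Sym.EK_prod _ m
  · rw [div_eq_mul_inv, mul_assoc]
    exact h4

/-- the rule for small odd primes -/
theorem smallRule_all {v : ℕ → K} (hv0 : v 0 = alpha) (hv : IsFormal v) : SmallRule v 12 := by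
  intro n A p _ hp2 hA y y' hy hy'
  obtain ⟨kap, h1, h2, h3, h4⟩ := Sym.sym_formula hp2 hv hv0
  exact QS2SP.smallP_sym hp2 hy hy' h1 h2 h3 (E3 := Sym.EK (3 * 2⁻¹)) (E5 := Sym.EK (5 * 2⁻¹))
    (fun m => Sym.EK_prod _ m) (fun m => Sym.EK_prod _ m) (Sym.coeff_sigF kap _)
    (Sym.coeff_sigF kap _) h4 A n hA

/-- `ζ(3) ∉ ℚ(√2)`, from the archimedean bound -/
theorem emb_ne_zeta3_of_arch
    (harch : ∀ x : K, emb x = zeta3 → star x ≠ x → ∀ v : ℕ → K, v 0 = alpha → IsFormal v →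
      ∃ C : ℝ, ∀ A rho : ℕ, 2 ≤ A → 2 * rho ≤ A → A ≤ 2 * rho + 2 →
      |emb (Delta x v A rho)| ≤ Real.exp (- (17 / 4) * (A : ℝ) ^ 2 + C * A * Real.log (A + 1)))
    (x : K) : emb x ≠ zeta3 :=
  emb_ne_zeta3_of harch (fun _ hv0 hv p _ h5 => data_all hv0 hv p h5)
    (fun _ hv0 hv => ⟨12, smallRule_all hv0 hv⟩) x

end QS2
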