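import Pool.Agent.QS2.Final4
import Pool.Agent.QS2.ArchR
import Pool.Agent.QS2.B.Nodes
import Pool.Agent.QS2.B.Facts
import Pool.Agent.QS2.B.Link
import Pool.Agent.QS2.B.EmbFacts

/-!
# QS2: `ζ(3) ∉ ℚ(√2)`
-/

set_option autoImplicit false

namespace QS2

open Finset

/-- the archimedean bound -/
theorem arch_zeta3 (x : K) (hx : emb x = zeta3) (hx' : star x ≠ x) (v : ℕ → K)
    (hv0 : v 0 = alpha) (hv : IsFormal v) :
    ∃ C : ℝ, ∀ A rho : ℕ, 2 ≤ A → 2 * rho ≤ A → A ≤ 2 * rho + 2 →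
      |emb (Delta x v A rho)| ≤ Real.exp (- (17 / 4) * (A : ℝ) ^ 2 + C * A * Real.log (A + 1)) := by
  obtain ⟨h1, h2⟩ := star_facts x hx'
  rw [hx] at h1
  have hne : ∀ n, (aperyA n : ℝ) * emb (star x) - aperyB n ≠ 0 := by
    intro n h
    have ha : (0 : ℝ) < (aperyA n : ℝ) := by exact_mod_cast aperyA_pos n
    apply h2 (aperyB n / aperyA n)
    push_cast
    rw [eq_div_iff ha.ne']
    linarith
  have hfR : IsFormal (fun n => emb (v n)) := isFormal_map_B (emb : K →ₐ[ℚ] ℝ).toRingHom v hv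
  have hfC : IsFormal (fun n => ((emb (v n) : ℝ) : ℂ)) := isFormal_map_B Complex.ofRealHom _ hfR
  have hv0' : |emb (v 0)| ≤ 1 := by
    rw [hv0, emb_alpha, abs_le]
    have h3 : √2 < 17 / 12 := by
      rw [Real.sqrt_lt' (by norm_num)]
      norm_num
    have h4 : 4 / 3 < √2 := by
      apply Real.lt_sqrt_of_sq_lt
      norm_num
    constructor <;> linarith
  obtain ⟨C, hC⟩ := Pool.Agent.QS2.DeltaR_bound (emb (star x)) (prod_u aperyFacts _) hne
    (left_mass aperyFacts _ h1 hne) (fun n => emb (v n)) hfC hv0'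
  refine Pool.Agent.QS2.absorb_small (fun A rho => |emb (Delta x v A rho)|) (17 / 4) C 12 ?_
  intro A rho hA h3 h4
  have h5 := hC A rho hA h3 h4
  rw [emb_Delta, hx]
  exact h5

/-- **`ζ(3) ∉ ℚ(√2)`** -/
theorem emb_ne_zeta3 (x : K) : emb x ≠ zeta3 := emb_ne_zeta3_of_arch arch_zeta3 x

end QS2
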