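import Pool.Agent.QS2.FormalSym

/-!
# The symmetry `n -> -2 - n` of the determinant
-/

set_option autoImplicit false

namespace QS2.FV

open Finset Matrix

variable {F : Type*} [Field F]

/-! ## Binomial polynomials -/

theorem binP_eval_nat [CharZero F] (i n : ℕ) :
    (binP F i).eval (n : F) = (n.choose i : F) := by
  unfold binP
  rw [Polynomial.eval_mul, Polynomial.eval_C, descPochhammer_eval_eq_descFactorial,
    Nat.descFactorial_eq_factorial_mul_choose, Nat.cast_mul, inv_mul_cancel_left₀]
  exact Nat.cast_ne_zero.2 (Nat.factorial_ne_zero i)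

theorem binP_eval_neg [CharZero F] (i n : ℕ) :
    (binP F i).eval (-2 - (n : F)) = (-1) ^ i * ((n + 1 + i).choose i : F) := by
  have h1 : (-2 - (n : F)) - (i : F) + 1 = -(((n + 1 + i : ℕ) : F)) := by
    push_cast; ring
  unfold binP
  rw [Polynomial.eval_mul, Polynomial.eval_C, descPochhammer_eval_eq_ascPochhammer, h1,
    ascPochhammer_eval_neg_eq_descPochhammer, descPochhammer_eval_eq_descFactorial,
    Nat.descFactorial_eq_factorial_mul_choose, Nat.cast_mul, mul_left_comm,
    inv_mul_cancel_left₀]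
  exact Nat.cast_ne_zero.2 (Nat.factorial_ne_zero i)

/-- coefficients of `C(-2-X, i)` in the binomial basis -/
noncomputable def cc (F : Type*) [Field F] (i j : ℕ) : F :=
  if j ≤ i then (-1) ^ i * ((i + 1).choose (i - j) : F) else 0

theorem binP_comp [CharZero F] (i : ℕ) :
    (binP F i).comp (-2 - Polynomial.X) =
      ∑ j ∈ range (i + 1), Polynomial.C (cc F i j) * binP F j := by
  apply Polynomial.eq_of_infinite_eval_eq
  have hinf : (Set.range (fun n : ℕ => (n : F))).Infinite :=
    Set.infinite_range_of_injective Nat.cast_injective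
  refine hinf.mono ?_
  rintro _ ⟨n, rfl⟩
  rw [Set.mem_ofPred_eq, Polynomial.eval_comp, Polynomial.eval_sub, Polynomial.eval_X,
    Polynomial.eval_neg, Polynomial.eval_ofNat, binP_eval_neg, Polynomial.eval_finsetSum]
  have h2 : (n + 1 + i).choose i = ∑ j ∈ range (i + 1), n.choose j * (i + 1).choose (i - j) := by
    have := Nat.add_choose_eq n (i + 1) i
    rw [Finset.Nat.sum_antidiagonal_eq_sum_range_succ_mk] at this
    rw [← this]
    congr 1
    ring
  rw [h2]
  push_cast
  rw [mul_sum]
  refine sum_congr rfl fun j hj => ?_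
  have hj' : j ≤ i := Nat.lt_succ_iff.1 (mem_range.1 hj)
  rw [Polynomial.eval_mul, Polynomial.eval_C, binP_eval_nat, cc, if_pos hj']
  ring

theorem binP_comp' [CharZero F] {i c : ℕ} (h : i < c) :
    (binP F i).comp (-2 - Polynomial.X) =
      ∑ j : Fin c, Polynomial.C (cc F i j) * binP F j := by
  rw [binP_comp, Fin.sum_univ_eq_sum_range (fun j => Polynomial.C (cc F i j) * binP F j) c]
  refine sum_subset (range_subset_range.2 h) ?_
  intro j _ hj
  have : ¬ j ≤ i := fun h1 => hj (mem_range.2 (Nat.lt_succ_of_le h1))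
  rw [cc, if_neg this, map_zero, zero_mul]

theorem binP_natDegree_le (i : ℕ) : (binP F i).natDegree ≤ i := by
  unfold binP
  refine (Polynomial.natDegree_C_mul_le _ _).trans ?_
  rw [descPochhammer_natDegree]

/-! ## Reversed polynomials -/

/-- `X ^ D * f (1 / X)` -/
noncomputable def rv (D : ℕ) : Polynomial F →+ PowerSeries F where
  toFun f := ((Polynomial.reflect D f : Polynomial F) : PowerSeries F)
  map_zero' := by simp
  map_add' f g := by simp [Polynomial.reflect_add]

theorem rv_apply (D : ℕ) (f : Polynomial F) :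
    rv D f = ((Polynomial.reflect D f : Polynomial F) : PowerSeries F) := rfl

theorem coeff_rv {D k : ℕ} (f : Polynomial F) (hk : k ≤ D) :
    PowerSeries.coeff k (rv D f) = f.coeff (D - k) := by
  rw [rv_apply, Polynomial.coeff_coe, Polynomial.coeff_reflect, Polynomial.revAt_le hk]

theorem rv_C_mul (D : ℕ) (a : F) (f : Polynomial F) :
    rv D (Polynomial.C a * f) = PowerSeries.C a * rv D f := by
  rw [rv_apply, rv_apply, Polynomial.reflect_C_mul, Polynomial.coe_mul, Polynomial.coe_C]

theorem rv_sum {ι : Type*} (D : ℕ) (t : Finset ι) (a : ι → F) (f : ι → Polynomial F) :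
    rv D (∑ j ∈ t, Polynomial.C (a j) * f j) = ∑ j ∈ t, PowerSeries.C (a j) * rv D (f j) := by
  rw [map_sum]
  exact sum_congr rfl fun j _ => rv_C_mul D _ _

theorem reflect_lin_pow (n : ℕ) :
    Polynomial.reflect n ((-2 - Polynomial.X : Polynomial F) ^ n) =
      (-1 - 2 * Polynomial.X) ^ n := by
  have hd : ∀ n : ℕ, ((-2 - Polynomial.X : Polynomial F) ^ n).natDegree ≤ n := by
    intro n
    refine (Polynomial.natDegree_pow_le).trans ?_
    have h1 : (-2 - Polynomial.X : Polynomial F).natDegree ≤ 1 := by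
      refine (Polynomial.natDegree_sub_le _ _).trans ?_
      have : (-2 : Polynomial F).natDegree = 0 := by
        rw [Polynomial.natDegree_neg, Polynomial.natDegree_ofNat]
      rw [this]
      exact max_le (Nat.zero_le _) Polynomial.natDegree_X_le
    calc n * (-2 - Polynomial.X : Polynomial F).natDegree ≤ n * 1 := Nat.mul_le_mul_left _ h1
      _ = n := mul_one n
  have h2 : Polynomial.reflect 1 (-2 - Polynomial.X : Polynomial F) = -1 - 2 * Polynomial.X := by
    rw [Polynomial.reflect_sub, Polynomial.reflect_one_X, Polynomial.reflect_neg]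
    have e : (2 : Polynomial F) = Polynomial.C 2 := (map_ofNat Polynomial.C 2).symm
    rw [e, Polynomial.reflect_C]
    ring
  induction n with
  | zero =>
    rw [pow_zero, pow_zero, Polynomial.reflect_one, pow_zero]
  | succ n ih =>
    have h3 : (-2 - Polynomial.X : Polynomial F).natDegree ≤ 1 := by
      have := hd 1
      rwa [pow_one] at this
    rw [pow_succ, Polynomial.reflect_mul _ _ (hd n) h3, ih, h2, pow_succ]

theorem st_X_pow (n : ℕ) : st ((PowerSeries.X : PowerSeries F) ^ n) = tau F ^ n := by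
  rw [map_pow, st_X]

theorem rv_X_pow {D n : ℕ} (h : n ≤ D) :
    rv D ((-2 - Polynomial.X : Polynomial F) ^ n) =
      (-1) ^ D * (1 + 2 * PowerSeries.X) ^ D * tau F ^ (D - n) := by
  have hd : ((-2 - Polynomial.X : Polynomial F) ^ n).natDegree ≤ n := by
    refine (Polynomial.natDegree_pow_le).trans ?_
    have h1 : (-2 - Polynomial.X : Polynomial F).natDegree ≤ 1 := by
      refine (Polynomial.natDegree_sub_le _ _).trans ?_
      have : (-2 : Polynomial F).natDegree = 0 := by
        rw [Polynomial.natDegree_neg, Polynomial.natDegree_ofNat]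
      rw [this]
      exact max_le (Nat.zero_le _) Polynomial.natDegree_X_le
    calc n * (-2 - Polynomial.X : Polynomial F).natDegree ≤ n * 1 := Nat.mul_le_mul_left _ h1
      _ = n := mul_one n
  have h1 : Polynomial.reflect D ((-2 - Polynomial.X : Polynomial F) ^ n) =
      (-1 - 2 * Polynomial.X) ^ n * Polynomial.X ^ (D - n) := by
    have := Polynomial.reflect_mul ((-2 - Polynomial.X : Polynomial F) ^ n) 1 hd
      (G := D - n) (by simp)
    rw [mul_one, Nat.add_sub_cancel' h, reflect_lin_pow, Polynomial.reflect_one] at this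
    exact this
  have h4 : ((2 : Polynomial F) : PowerSeries F) = 2 := by
    have e : (2 : Polynomial F) = Polynomial.C 2 := (map_ofNat Polynomial.C 2).symm
    rw [e, Polynomial.coe_C]
    exact map_ofNat _ 2
  have h2 : rv D ((-2 - Polynomial.X : Polynomial F) ^ n) =
      (-1 - 2 * PowerSeries.X) ^ n * PowerSeries.X ^ (D - n) := by
    rw [rv_apply, h1, Polynomial.coe_mul, Polynomial.coe_pow, Polynomial.coe_pow,
      Polynomial.coe_X, Polynomial.coe_sub, Polynomial.coe_neg, Polynomial.coe_one,
      Polynomial.coe_mul, Polynomial.coe_X, h4]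
  have h3 : (1 + 2 * PowerSeries.X) ^ D * tau F ^ (D - n) =
      (1 + 2 * PowerSeries.X) ^ n * (-PowerSeries.X) ^ (D - n) := by
    have e : D = n + (D - n) := (Nat.add_sub_cancel' h).symm
    calc (1 + 2 * PowerSeries.X) ^ D * tau F ^ (D - n)
        = (1 + 2 * PowerSeries.X) ^ n * (tau F * (1 + 2 * PowerSeries.X)) ^ (D - n) := by
          conv_lhs => rw [e]
          rw [mul_pow, pow_add]
          simp only [Nat.add_sub_cancel_left]
          ring
      _ = _ := by rw [tau_mul]
  rw [h2, mul_assoc, h3, neg_pow PowerSeries.X (D - n)]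
  have h5 : ((-1 : PowerSeries F)) ^ D * (-1) ^ (D - n) = (-1) ^ n := by
    have e : D + (D - n) = n + 2 * (D - n) := by omega
    rw [← pow_add, e, pow_add, pow_mul]
    simp
  have h6 : (-1 - 2 * PowerSeries.X : PowerSeries F) = -1 * (1 + 2 * PowerSeries.X) := by ring
  rw [h6, mul_pow, ← h5]
  ring

theorem rv_comp {D : ℕ} {f : Polynomial F} (h : f.natDegree ≤ D) :
    rv D (f.comp (-2 - Polynomial.X)) =
      (-1) ^ D * (1 + 2 * PowerSeries.X) ^ D * st (rv D f) := by
  refine Polynomial.induction_with_natDegree_le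
    (fun f => rv D (f.comp (-2 - Polynomial.X)) =
      (-1) ^ D * (1 + 2 * PowerSeries.X) ^ D * st (rv D f)) D ?_ ?_ ?_ f h
  · simp
  · intro n r _ hn
    rw [Polynomial.mul_comp, Polynomial.C_comp, Polynomial.X_pow_comp, rv_C_mul, rv_X_pow hn,
      rv_C_mul, rv_apply, Polynomial.reflect_monomial, Polynomial.revAt_le hn, Polynomial.coe_pow,
      Polynomial.coe_X, map_mul, st_C, st_X_pow]
    ring
  · intro f g _ _ hf hg
    rw [Polynomial.add_comp, map_add, map_add, map_add, hf, hg]
    ring

/-! ## The polynomial part -/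

theorem coeff_pp (v : ℕ → F) {Q : Polynomial F} {D m : ℕ} (hQ : Q.natDegree ≤ D) (hm : m ≤ D) :
    (pp v Q).coeff m = PowerSeries.coeff (D - m) (rv D Q * PowerSeries.mk v) := by
  have h1 : (pp v Q).coeff m =
      ∑ i ∈ range (D + 1), if m ≤ i then Q.coeff i * v (i - m) else 0 := by
    have e1 : (pp v Q).coeff m = ∑ i ∈ range (Q.natDegree + 1),
        if m ≤ i then Q.coeff i * v (i - m) else 0 := by
      unfold pp
      rw [Polynomial.finsetSum_coeff]
      refine sum_congr rfl fun i _ => ?_
      rw [Polynomial.finsetSum_coeff]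
      simp only [Polynomial.coeff_C_mul_X_pow]
      split_ifs with hmi
      · rw [sum_eq_single (i - m)]
        · rw [if_pos (by omega)]
        · intro b hb hne
          rw [if_neg]
          have := mem_range.1 hb
          omega
        · intro hb
          exact absurd (mem_range.2 (by omega)) hb
      · refine sum_eq_zero fun k _ => ?_
        rw [if_neg (by omega)]
    rw [e1]
    refine sum_subset (range_subset_range.2 (by omega)) ?_
    intro i _ hi
    have : Q.coeff i = 0 := Polynomial.coeff_eq_zero_of_natDegree_lt (by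
      have := mt mem_range.2 hi
      omega)
    rw [this, zero_mul]
    simp
  rw [h1, PowerSeries.coeff_mul, Finset.Nat.sum_antidiagonal_eq_sum_range_succ_mk,
    ← sum_range_reflect]
  have h2 : ∑ j ∈ range (D - m).succ, PowerSeries.coeff j (rv D Q) *
      PowerSeries.coeff (D - m - j) (PowerSeries.mk v) =
      ∑ j ∈ range (D - m).succ, if m ≤ D + 1 - 1 - j then
        Q.coeff (D + 1 - 1 - j) * v (D + 1 - 1 - j - m) else 0 := by
    refine sum_congr rfl fun j hj => ?_
    have hj' := mem_range.1 hj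
    rw [coeff_rv Q (by omega), PowerSeries.coeff_mk, if_pos (by omega)]
    congr 2
    omega
  simp only at h2 ⊢
  rw [h2]
  symm
  refine sum_subset (range_subset_range.2 (by omega)) ?_
  intro i hi hi2
  have h3 := mem_range.1 hi
  have h4 := mt mem_range.2 hi2
  rw [if_neg (by omega)]

/-! ## The triangular map of the jets -/

theorem coeff_mul_st (k : ℕ) (H G : PowerSeries F) :
    PowerSeries.coeff k (H * st G) =
      ∑ l ∈ range (k + 1), PowerSeries.coeff l G * PowerSeries.coeff k (H * tau F ^ l) := by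
  set G1 : PowerSeries F := ∑ l ∈ range (k + 1),
    PowerSeries.C (PowerSeries.coeff l G) * PowerSeries.X ^ l with hG1
  have hd : (PowerSeries.X : PowerSeries F) ^ (k + 1) ∣ G - G1 := by
    rw [PowerSeries.X_pow_dvd_iff]
    intro m hm
    rw [map_sub, hG1, map_sum]
    simp only [PowerSeries.coeff_C_mul, PowerSeries.coeff_X_pow]
    rw [sum_eq_single m]
    · simp
    · intro b _ hb
      rw [if_neg (Ne.symm hb), mul_zero]
    · intro h
      exact absurd (mem_range.2 hm) h
  obtain ⟨W, hW⟩ := hd
  have h1 : G = G1 + PowerSeries.X ^ (k + 1) * W := by rw [← hW]; ring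
  have h2 : PowerSeries.coeff k (H * (tau F ^ (k + 1) * st W)) = 0 := by
    have h3 : (PowerSeries.X : PowerSeries F) ^ (k + 1) ∣ H * (tau F ^ (k + 1) * st W) := by
      refine Dvd.dvd.mul_left (Dvd.dvd.mul_right (pow_dvd_pow_of_dvd ?_ _) _) _
      unfold tau
      exact dvd_neg.2 (Dvd.intro _ rfl)
    exact PowerSeries.X_pow_dvd_iff.1 h3 k (Nat.lt_succ_self k)
  have h4 : st G = ∑ l ∈ range (k + 1), PowerSeries.C (PowerSeries.coeff l G) * tau F ^ l +
      tau F ^ (k + 1) * st W := by
    conv_lhs => rw [h1]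
    rw [map_add, map_mul, st_X_pow, hG1, map_sum]
    congr 1
    refine sum_congr rfl fun l _ => ?_
    rw [map_mul, st_C, st_X_pow]
  rw [h4, mul_add, map_add, h2, add_zero, mul_sum, map_sum]
  refine sum_congr rfl fun l _ => ?_
  rw [mul_left_comm, PowerSeries.coeff_C_mul]

theorem coeff_mul_tau_pow_of_lt {k l : ℕ} (h : k < l) (H : PowerSeries F) :
    PowerSeries.coeff k (H * tau F ^ l) = 0 := by
  have h3 : (PowerSeries.X : PowerSeries F) ^ l ∣ H * tau F ^ l := by
    refine Dvd.dvd.mul_left (pow_dvd_pow_of_dvd ?_ _) _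
    unfold tau
    exact dvd_neg.2 (Dvd.intro _ rfl)
  exact PowerSeries.X_pow_dvd_iff.1 h3 k h

theorem coeff_mul_tau_pow_self (k : ℕ) (H : PowerSeries F) :
    PowerSeries.coeff k (H * tau F ^ k) = (-1) ^ k * PowerSeries.coeff 0 H := by
  have h1 : H * tau F ^ k = PowerSeries.X ^ k * ((-1) ^ k * (H * ((1 + 2 * PowerSeries.X)⁻¹) ^ k)) := by
    unfold tau
    rw [neg_pow, mul_pow]
    ring
  rw [h1, PowerSeries.coeff_X_pow_mul', if_pos le_rfl, Nat.sub_self]
  simp only [PowerSeries.coeff_zero_eq_constantCoeff, map_mul, map_pow, map_neg, map_one]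
  simp

/-! ## The matrices -/

/-- the change of the columns `(P, Q) -> (Q(-2-z), P(-2-z))` -/
noncomputable def colM (F : Type*) [Field F] (c : ℕ) : Matrix (Fin c ⊕ Fin c) (Fin c ⊕ Fin c) F :=
  fromBlocks 0 (Matrix.of fun j i : Fin c => cc F i j) (Matrix.of fun j i : Fin c => cc F i j) 0

/-- the transformation of the jets -/
noncomputable def jetM (V : PowerSeries F) (c R : ℕ) : Matrix (Fin R) (Fin R) F :=
  Matrix.of fun d e : Fin R => ((c - R + d).factorial : F) * ((c - R + e).factorial : F)⁻¹ *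
    PowerSeries.coeff (R - 1 - d)
      ((-1) ^ (c - 1) * (1 + 2 * PowerSeries.X) ^ (c - 1) * V * tau F ^ (R - 1 - e))

/-- the transformation of the rows -/
noncomputable def rowM {N : Type*} [DecidableEq N] (σ : N → N) (V : PowerSeries F) (c R : ℕ) :
    Matrix (N ⊕ Fin R) (N ⊕ Fin R) F :=
  fromBlocks (Matrix.of fun f g => if σ f = g then 1 else 0) 0 0 (jetM V c R)

/-- the series of a column -/
noncomputable def colG (V : PowerSeries F) (c : ℕ) : Fin c ⊕ Fin c → PowerSeries F
  | Sum.inl i => rv (c - 1) (binP F i)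
  | Sum.inr i => rv (c - 1) (binP F i) * V

theorem fullM_jet {N : Type*} (z : N → ℤ) (u0 u1 : N → F) (v : ℕ → F) {c R : ℕ} (hR : R ≤ c)
    (d : Fin R) (t : Fin c ⊕ Fin c) :
    fullM z u0 u1 v c R (Sum.inr d) t = ((c - R + d).factorial : F) *
      PowerSeries.coeff (R - 1 - d) (colG (PowerSeries.mk v) c t) := by
  have hd := d.2
  rcases t with i | i
  · have hi := i.2
    have e : (binP F i).coeff (c - R + d) =
        PowerSeries.coeff (R - 1 - d) (rv (c - 1) (binP F i)) := by
      rw [coeff_rv _ (by omega)]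
      congr 1
      omega
    change ((c - R + d).factorial : F) * (binP F i).coeff (c - R + d) = _
    rw [e]
    rfl
  · have hi := i.2
    have e : (pp v (binP F i)).coeff (c - R + d) =
        PowerSeries.coeff (R - 1 - d) (rv (c - 1) (binP F i) * PowerSeries.mk v) := by
      rw [coeff_pp v (D := c - 1) ((binP_natDegree_le _).trans (by omega)) (by omega)]
      have e2 : c - 1 - (c - R + (d : ℕ)) = R - 1 - d := by omega
      rw [e2]
    change ((c - R + d).factorial : F) * (pp v (binP F i)).coeff (c - R + d) = _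
    rw [e]
    rfl

/-- the columns after the change -/
theorem colG_change [CharZero F] {V W : PowerSeries F} (h : V * st W = 1) {c : ℕ}
    (t : Fin c ⊕ Fin c) :
    ∑ t', PowerSeries.C (colM F c t' t) * colG V c t' =
      (-1) ^ (c - 1) * (1 + 2 * PowerSeries.X) ^ (c - 1) * V * st (colG W c t) := by
  rw [Fintype.sum_sum_type]
  rcases t with i | i
  · have hi := i.2
    have e1 : ∑ j : Fin c, PowerSeries.C (colM F c (Sum.inl j) (Sum.inl i)) *
        colG V c (Sum.inl j) = 0 := by
      refine sum_eq_zero fun j _ => ?_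
      simp [colM]
    have e2 : ∑ j : Fin c, PowerSeries.C (colM F c (Sum.inr j) (Sum.inl i)) *
        colG V c (Sum.inr j) = rv (c - 1) ((binP F i).comp (-2 - Polynomial.X)) * V := by
      rw [binP_comp' hi, rv_sum, sum_mul]
      refine sum_congr rfl fun j _ => ?_
      simp only [colM, fromBlocks_apply₂₁, Matrix.of_apply, colG]
      ring
    rw [e1, e2, zero_add, rv_comp ((binP_natDegree_le _).trans (by omega))]
    simp only [colG]
    ring
  · have hi := i.2
    have e1 : ∑ j : Fin c, PowerSeries.C (colM F c (Sum.inr j) (Sum.inr i)) *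
        colG V c (Sum.inr j) = 0 := by
      refine sum_eq_zero fun j _ => ?_
      simp [colM]
    have e2 : ∑ j : Fin c, PowerSeries.C (colM F c (Sum.inl j) (Sum.inr i)) *
        colG V c (Sum.inl j) = rv (c - 1) ((binP F i).comp (-2 - Polynomial.X)) := by
      rw [binP_comp' hi, rv_sum]
      refine sum_congr rfl fun j _ => ?_
      simp only [colM, fromBlocks_apply₁₂, Matrix.of_apply, colG]
    rw [e1, e2, add_zero, rv_comp ((binP_natDegree_le _).trans (by omega))]
    simp only [colG, map_mul]
    linear_combination (-((-1) ^ (c - 1) * (1 + 2 * PowerSeries.X) ^ (c - 1) *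
      st (rv (c - 1) (binP F i)))) * h

theorem jet_row {N : Type*} [Fintype N] [DecidableEq N] [CharZero F] (z : N → ℤ) (u0 u1 w0 w1 : N → F)
    {v w : ℕ → F} (h : PowerSeries.mk v * st (PowerSeries.mk w) = 1) {c R : ℕ} (hR : R ≤ c)
    (d : Fin R) (t : Fin c ⊕ Fin c) :
    (fullM z u0 u1 v c R * colM F c) (Sum.inr d) t =
      ∑ e : Fin R, jetM (PowerSeries.mk v) c R d e * fullM z w0 w1 w c R (Sum.inr e) t := by
  have hd := d.2
  have h1 : (fullM z u0 u1 v c R * colM F c) (Sum.inr d) t = ((c - R + d).factorial : F) *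
      PowerSeries.coeff (R - 1 - d) (∑ t', PowerSeries.C (colM F c t' t) *
        colG (PowerSeries.mk v) c t') := by
    rw [Matrix.mul_apply, map_sum, mul_sum]
    refine sum_congr rfl fun t' _ => ?_
    rw [fullM_jet z u0 u1 v hR, PowerSeries.coeff_C_mul]
    ring
  rw [h1, colG_change h, coeff_mul_st, mul_sum]
  have h2 : R - 1 - (d : ℕ) + 1 = R - d := by omega
  rw [h2]
  have h3 : ∀ e : Fin R, jetM (PowerSeries.mk v) c R d e * fullM z w0 w1 w c R (Sum.inr e) t =
      ((c - R + d).factorial : F) * (PowerSeries.coeff (R - 1 - e) (colG (PowerSeries.mk w) c t) *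
        PowerSeries.coeff (R - 1 - d) ((-1) ^ (c - 1) * (1 + 2 * PowerSeries.X) ^ (c - 1) *
          PowerSeries.mk v * tau F ^ (R - 1 - e))) := by
    intro e
    rw [fullM_jet z w0 w1 w hR, jetM, Matrix.of_apply]
    have h4 : ((c - R + e).factorial : F) ≠ 0 := Nat.cast_ne_zero.2 (Nat.factorial_ne_zero _)
    field_simp
  rw [sum_congr rfl fun e _ => h3 e]
  rw [Fin.sum_univ_eq_sum_range (fun e => ((c - R + d).factorial : F) *
    (PowerSeries.coeff (R - 1 - e) (colG (PowerSeries.mk w) c t) *
        PowerSeries.coeff (R - 1 - d) ((-1) ^ (c - 1) * (1 + 2 * PowerSeries.X) ^ (c - 1) *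
          PowerSeries.mk v * tau F ^ (R - 1 - e)))) R]
  rw [← sum_range_reflect (fun e => ((c - R + d).factorial : F) *
    (PowerSeries.coeff (R - 1 - e) (colG (PowerSeries.mk w) c t) *
        PowerSeries.coeff (R - 1 - d) ((-1) ^ (c - 1) * (1 + 2 * PowerSeries.X) ^ (c - 1) *
          PowerSeries.mk v * tau F ^ (R - 1 - e)))) R]
  have h8 : ∑ j ∈ range R, ((c - R + d).factorial : F) *
    (PowerSeries.coeff (R - 1 - (R - 1 - j)) (colG (PowerSeries.mk w) c t) *
        PowerSeries.coeff (R - 1 - d) ((-1) ^ (c - 1) * (1 + 2 * PowerSeries.X) ^ (c - 1) *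
          PowerSeries.mk v * tau F ^ (R - 1 - (R - 1 - j)))) =
      ∑ j ∈ range R, ((c - R + d).factorial : F) *
    (PowerSeries.coeff j (colG (PowerSeries.mk w) c t) *
        PowerSeries.coeff (R - 1 - d) ((-1) ^ (c - 1) * (1 + 2 * PowerSeries.X) ^ (c - 1) *
          PowerSeries.mk v * tau F ^ j)) := by
    refine sum_congr rfl fun j hj => ?_
    have h5 : R - 1 - (R - 1 - j) = j := by
      have := mem_range.1 hj
      omega
    rw [h5]
  rw [h8]
  refine sum_subset (range_subset_range.2 (by omega)) ?_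
  intro l hl1 hl2
  have h6 := mem_range.1 hl1
  have h7 := mt mem_range.2 hl2
  rw [coeff_mul_tau_pow_of_lt (by omega), mul_zero, mul_zero]

theorem node_row {N : Type*} [Fintype N] [CharZero F] (s : F →+* F) (σ : N → N)
    (z : N → ℤ) (hz : ∀ f, z (σ f) = -2 - z f) (u0 u1 : N → F) (h0 : ∀ f, s (u0 (σ f)) = u1 f)
    (h1 : ∀ f, s (u1 (σ f)) = u0 f) (v : ℕ → F) {c R : ℕ} (f : N) (t : Fin c ⊕ Fin c) :
    (fullM z u0 u1 v c R * colM F c) (Sum.inl f) t = s (fullM z u0 u1 v c R (Sum.inl (σ f)) t) := by
  have hs : ∀ i : ℕ, s ((binP F i).eval ((z (σ f) : ℤ) : F)) =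
      ((binP F i).comp (-2 - Polynomial.X)).eval ((z f : ℤ) : F) := by
    intro i
    rw [← Polynomial.eval_map_apply, map_binP, map_intCast, hz f, Polynomial.eval_comp]
    congr 1
    rw [Polynomial.eval_sub, Polynomial.eval_neg, Polynomial.eval_ofNat, Polynomial.eval_X]
    push_cast
    ring
  rw [Matrix.mul_apply, Fintype.sum_sum_type]
  rcases t with i | i
  · have hi := i.2
    have e1 : ∑ j : Fin c, fullM z u0 u1 v c R (Sum.inl f) (Sum.inl j) *
        colM F c (Sum.inl j) (Sum.inl i) = 0 := by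
      refine sum_eq_zero fun j _ => ?_
      simp [colM]
    have e3 : fullM z u0 u1 v c R (Sum.inl (σ f)) (Sum.inl i) =
      (binP F i).eval ((z (σ f) : ℤ) : F) * u0 (σ f) := rfl
    rw [e1, zero_add, e3, map_mul, h0, hs, binP_comp' hi, Polynomial.eval_finsetSum, sum_mul]
    refine sum_congr rfl fun j _ => ?_
    simp only [colM, fromBlocks_apply₂₁, Matrix.of_apply, Polynomial.eval_mul, Polynomial.eval_C]
    change (binP F j).eval ((z f : ℤ) : F) * u1 f * cc F i j = _
    ring
  · have hi := i.2
    have e1 : ∑ j : Fin c, fullM z u0 u1 v c R (Sum.inl f) (Sum.inr j) *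
        colM F c (Sum.inr j) (Sum.inr i) = 0 := by
      refine sum_eq_zero fun j _ => ?_
      simp [colM]
    have e3 : fullM z u0 u1 v c R (Sum.inl (σ f)) (Sum.inr i) =
      (binP F i).eval ((z (σ f) : ℤ) : F) * u1 (σ f) := rfl
    rw [e1, add_zero, e3, map_mul, h1, hs, binP_comp' hi, Polynomial.eval_finsetSum, sum_mul]
    refine sum_congr rfl fun j _ => ?_
    simp only [colM, fromBlocks_apply₁₂, Matrix.of_apply, Polynomial.eval_mul, Polynomial.eval_C]
    change (binP F j).eval ((z f : ℤ) : F) * u0 f * cc F i j = _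
    ring

theorem map_jet {N : Type*} (s : F →+* F) (z : N → ℤ) (u0 u1 : N → F) (v : ℕ → F) {c R : ℕ}
    (hR : R ≤ c) (d : Fin R) (t : Fin c ⊕ Fin c) :
    s (fullM z u0 u1 v c R (Sum.inr d) t) =
      fullM z u0 u1 (fun n => s (v n)) c R (Sum.inr d) t := by
  rw [fullM_jet z u0 u1 v hR, fullM_jet z u0 u1 (fun n => s (v n)) hR, map_mul, map_natCast,
    ← PowerSeries.coeff_map]
  congr 2
  have hb : ∀ i : ℕ, PowerSeries.map s (rv (c - 1) (binP F i)) = rv (c - 1) (binP F i) := by
    intro i
    rw [rv_apply, ← Polynomial.polynomial_map_coe, ← Polynomial.reflect_map, map_binP]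
  have hv : PowerSeries.map s (PowerSeries.mk v) = PowerSeries.mk (fun n => s (v n)) := by
    ext n
    simp
  rcases t with i | i
  · exact hb i
  · simp only [colG, map_mul, hb, hv]

/-- the main identity of matrices -/
theorem fullM_sym {N : Type*} [Fintype N] [DecidableEq N] [CharZero F] (s : F →+* F) (σ : N → N)
    (z : N → ℤ) (hz : ∀ f, z (σ f) = -2 - z f) (u0 u1 : N → F) (h0 : ∀ f, s (u0 (σ f)) = u1 f)
    (h1 : ∀ f, s (u1 (σ f)) = u0 f) {v : ℕ → F}
    (hv : PowerSeries.mk v * st (PowerSeries.mk fun n => s (v n)) = 1) {c R : ℕ} (hR : R ≤ c) :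
    fullM z u0 u1 v c R * colM F c =
      rowM σ (PowerSeries.mk v) c R * (fullM z u0 u1 v c R).map s := by
  ext r t
  rcases r with f | d
  · rw [node_row s σ z hz u0 u1 h0 h1, Matrix.mul_apply, Fintype.sum_sum_type]
    have e1 : ∑ e : Fin R, rowM σ (PowerSeries.mk v) c R (Sum.inl f) (Sum.inr e) *
        (fullM z u0 u1 v c R).map s (Sum.inr e) t = 0 := by
      refine sum_eq_zero fun j _ => ?_
      simp [rowM]
    rw [e1, add_zero, sum_eq_single (σ f)]
    · simp [rowM]
    · intro g _ hg
      simp [rowM, Ne.symm hg]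
    · intro h
      exact absurd (mem_univ _) h
  · rw [jet_row z u0 u1 u0 u1 hv hR, Matrix.mul_apply, Fintype.sum_sum_type]
    have e1 : ∑ f : N, rowM σ (PowerSeries.mk v) c R (Sum.inr d) (Sum.inl f) *
        (fullM z u0 u1 v c R).map s (Sum.inl f) t = 0 := by
      refine sum_eq_zero fun j _ => ?_
      simp [rowM]
    rw [e1, zero_add]
    refine sum_congr rfl fun e _ => ?_
    rw [Matrix.map_apply, map_jet s z u0 u1 v hR]
    simp [rowM]

/-! ## The determinants of the transformations -/

theorem det_B (c : ℕ) : (Matrix.of fun j i : Fin c => cc F i j).det ^ 2 = 1 := by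
  have htri : (Matrix.of fun j i : Fin c => cc F i j).IsUpperTriangular := by
    intro i j hij
    change j < i at hij
    rw [Matrix.of_apply, cc, if_neg]
    exact not_le.2 hij
  rw [det_of_isUpperTriangular htri, ← prod_pow]
  refine prod_eq_one fun i _ => ?_
  rw [Matrix.of_apply, cc, if_pos le_rfl, Nat.sub_self, Nat.choose_zero_right, Nat.cast_one,
    mul_one, ← pow_mul, mul_comm, pow_mul]
  simp

theorem det_colM (c : ℕ) : (colM F c).det ^ 2 = 1 := by
  set B := Matrix.of fun j i : Fin c => cc F i j with hB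
  have h1 : colM F c * colM F c = fromBlocks (B * B) 0 0 (B * B) := by
    unfold colM
    rw [← hB, fromBlocks_multiply]
    simp
  have h2 : B.det ^ 2 = 1 := det_B c
  rw [pow_two, ← det_mul, h1, det_fromBlocks_zero₂₁, det_mul]
  linear_combination (B.det ^ 2 + 1) * h2

theorem det_jetM [CharZero F] (V : PowerSeries F) (c R : ℕ) :
    (jetM V c R).det ^ 2 = (PowerSeries.coeff 0 V ^ R) ^ 2 := by
  have htri : (jetM V c R).IsUpperTriangular := by
    intro i j hij
    change j < i at hij
    have := i.2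
    have h1 : (j : ℕ) < i := hij
    rw [jetM, Matrix.of_apply, coeff_mul_tau_pow_of_lt (by omega), mul_zero]
  rw [det_of_isUpperTriangular htri, ← prod_pow, ← pow_mul, mul_comm R 2, pow_mul]
  rw [← Fin.prod_const R (PowerSeries.coeff 0 V ^ 2)]
  refine prod_congr rfl fun i _ => ?_
  have h4 : ((c - R + i).factorial : F) ≠ 0 := Nat.cast_ne_zero.2 (Nat.factorial_ne_zero _)
  rw [jetM, Matrix.of_apply, mul_inv_cancel₀ h4, one_mul, coeff_mul_tau_pow_self]
  have h5 : PowerSeries.coeff 0 ((-1) ^ (c - 1) * (1 + 2 * PowerSeries.X) ^ (c - 1) * V) =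
      (-1) ^ (c - 1) * PowerSeries.coeff 0 V := by
    simp only [PowerSeries.coeff_zero_eq_constantCoeff, map_mul, map_pow, map_neg, map_one]
    simp
  rw [h5, mul_pow, mul_pow, ← pow_mul, ← pow_mul, mul_comm _ 2, mul_comm _ 2, pow_mul, pow_mul]
  simp

theorem det_rowM {N : Type*} [Fintype N] [DecidableEq N] [CharZero F] {σ : N → N}
    (hσ : ∀ f, σ (σ f) = f) (V : PowerSeries F) (c R : ℕ) :
    (rowM σ V c R).det ^ 2 = (PowerSeries.coeff 0 V ^ R) ^ 2 := by
  have h1 : (Matrix.of fun f g => if σ f = g then (1 : F) else 0).det ^ 2 = 1 := by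
    rw [pow_two, ← det_mul]
    have : (Matrix.of fun f g => if σ f = g then (1 : F) else 0) *
        (Matrix.of fun f g => if σ f = g then (1 : F) else 0) = 1 := by
      ext f g
      rw [Matrix.mul_apply, sum_eq_single (σ f)]
      · simp [Matrix.one_apply, hσ f]
      · intro b _ hb
        simp [Ne.symm hb]
      · intro h
        exact absurd (mem_univ _) h
    rw [this, det_one]
  unfold rowM
  rw [det_fromBlocks_zero₂₁, mul_pow, h1, one_mul, det_jetM]

/-- the symmetry of the determinant -/
theorem det_sym {N : Type*} [Fintype N] [DecidableEq N] [CharZero F] (s : F →+* F) {σ : N → N}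
    (hσ : ∀ f, σ (σ f) = f)
    (z : N → ℤ) (hz : ∀ f, z (σ f) = -2 - z f) (u0 u1 : N → F) (h0 : ∀ f, s (u0 (σ f)) = u1 f)
    (h1 : ∀ f, s (u1 (σ f)) = u0 f) {v : ℕ → F}
    (hv : PowerSeries.mk v * st (PowerSeries.mk fun n => s (v n)) = 1) {c R : ℕ} (hR : R ≤ c)
    (e : (Fin c ⊕ Fin c) ≃ (N ⊕ Fin R)) :
    ((fullM z u0 u1 v c R).submatrix e id).det ^ 2 =
      (v 0 ^ R * s (((fullM z u0 u1 v c R).submatrix e id).det)) ^ 2 := by
  have h2 := fullM_sym s σ z hz u0 u1 h0 h1 hv hR
  have h3 : ((fullM z u0 u1 v c R * colM F c).submatrix e id).det =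
      ((rowM σ (PowerSeries.mk v) c R * (fullM z u0 u1 v c R).map s).submatrix e id).det := by
    rw [h2]
  have h4 : (fullM z u0 u1 v c R * colM F c).submatrix e id =
      (fullM z u0 u1 v c R).submatrix e id * colM F c := by
    ext i j
    simp [Matrix.mul_apply]
  have h5 : (rowM σ (PowerSeries.mk v) c R * (fullM z u0 u1 v c R).map s).submatrix e id =
      (rowM σ (PowerSeries.mk v) c R).submatrix e e *
        ((fullM z u0 u1 v c R).map s).submatrix e id := by
    rw [submatrix_mul_equiv]
  rw [h4, h5, det_mul, det_mul, det_submatrix_equiv_self] at h3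
  have h6 : (((fullM z u0 u1 v c R).map s).submatrix e id).det =
      s (((fullM z u0 u1 v c R).submatrix e id).det) := by
    rw [RingHom.map_det]
    rfl
  rw [h6] at h3
  have h7 := congrArg (fun x => x ^ 2) h3
  simp only [mul_pow, det_colM, det_rowM hσ, mul_one, PowerSeries.coeff_mk] at h7
  rw [h7, mul_pow]

end QS2.FV
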