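import Pool.Agent.QS2.FormalV

/-!
# The formal solution of the Riccati equation: the symmetry `n -> -2 - n`
-/

set_option autoImplicit false

namespace QS2.FV

open PowerSeries

variable {F : Type*} [Field F]

/-- `1 / (-2 - n)` as a power series in `1 / n` -/
noncomputable def tau (F : Type*) [Field F] : PowerSeries F := -(X * (1 + 2 * X)⁻¹)

/-- `1 / (-1 - n)` as a power series in `1 / n` -/
noncomputable def rho (F : Type*) [Field F] : PowerSeries F := -(X * (1 + X)⁻¹)

theorem cc_one_add : constantCoeff (1 + X : PowerSeries F) ≠ 0 := by simp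

theorem cc_one_add_two : constantCoeff (1 + 2 * X : PowerSeries F) ≠ 0 := by simp

theorem tau_mul : tau F * (1 + 2 * X) = -X := by
  unfold tau
  rw [neg_mul, mul_assoc, PowerSeries.inv_mul_cancel _ cc_one_add_two, mul_one]

theorem rho_mul : rho F * (1 + X) = -X := by
  unfold rho
  rw [neg_mul, mul_assoc, PowerSeries.inv_mul_cancel _ cc_one_add, mul_one]

theorem tau_subst : HasSubst (tau F) := HasSubst.of_constantCoeff_zero' (by simp [tau])

theorem rho_subst : HasSubst (rho F) := HasSubst.of_constantCoeff_zero' (by simp [rho])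

/-- `V (1 / n)` to `V (1 / (-2 - n))` -/
noncomputable def st : PowerSeries F →+* PowerSeries F :=
  (substAlgHom (R := F) (S := F) (tau_subst (F := F))).toRingHom

/-- `V (1 / n)` to `V (1 / (-1 - n))` -/
noncomputable def sr : PowerSeries F →+* PowerSeries F :=
  (substAlgHom (R := F) (S := F) (rho_subst (F := F))).toRingHom

theorem st_apply (V : PowerSeries F) : st V = V.subst (tau F) :=
  congrFun (coe_substAlgHom (R := F) (tau_subst (F := F))) V

theorem sr_apply (V : PowerSeries F) : sr V = V.subst (rho F) :=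
  congrFun (coe_substAlgHom (R := F) (rho_subst (F := F))) V

theorem st_X : st (X : PowerSeries F) = tau F := by
  rw [st_apply]; exact subst_X tau_subst

theorem sr_X : sr (X : PowerSeries F) = rho F := by
  rw [sr_apply]; exact subst_X rho_subst

theorem st_C (a : F) : st (C a : PowerSeries F) = C a := by
  rw [st_apply]; exact subst_C a

theorem sr_C (a : F) : sr (C a : PowerSeries F) = C a := by
  rw [sr_apply]; exact subst_C a

theorem two_eq_C : (2 : PowerSeries F) = C 2 := (map_ofNat C 2).symm

theorem eq_of_mul_one_add {A B : PowerSeries F} (h : A * (1 + X) = B * (1 + X)) : A = B := by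
  have h1 : (1 + X : PowerSeries F) ≠ 0 := by
    intro h0
    exact cc_one_add (by rw [h0, map_zero])
  exact mul_right_cancel₀ h1 h

theorem eq_of_mul_one_add_two {A B : PowerSeries F} (h : A * (1 + 2 * X) = B * (1 + 2 * X)) :
    A = B := by
  have h1 : (1 + 2 * X : PowerSeries F) ≠ 0 := by
    intro h0
    exact cc_one_add_two (by rw [h0, map_zero])
  exact mul_right_cancel₀ h1 h

/-- `sh` after the substitution at `-1 - n` -/
theorem tt_subst_rho : (tt F).subst (rho F) = tau F := by
  rw [← sr_apply]
  have h1 : sr (tt F) * (1 - rho F) = rho F := by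
    have := congrArg sr (tt_mul (F := F))
    rw [map_mul, map_sub, map_one, sr_X] at this
    exact this
  have h2 : (1 - rho F) * (1 + X) = 1 + 2 * X := by
    rw [sub_mul, rho_mul]; ring
  apply eq_of_mul_one_add_two
  rw [← h2, ← mul_assoc, h1, rho_mul, h2, tau_mul]

theorem tau_subst_tt : (tau F).subst (tt F) = rho F := by
  rw [← sh_apply]
  have h1 : sh (tau F) * (1 + 2 * tt F) = - tt F := by
    have := congrArg sh (tau_mul (F := F))
    rw [map_mul, map_add, map_mul, map_neg, map_one, sh_X, map_ofNat] at this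
    exact this
  have h2 : (1 + 2 * tt F) * (1 - X) = 1 + X := by
    have := tt_mul (F := F)
    linear_combination 2 * this
  apply eq_of_mul_one_add
  rw [← h2, ← mul_assoc, h1, h2, rho_mul, neg_mul, tt_mul]

theorem sr_sh (V : PowerSeries F) : sr (sh V) = st V := by
  rw [sr_apply, sh_apply, st_apply, subst_comp_subst_apply tt_subst rho_subst, tt_subst_rho]

theorem sh_st (V : PowerSeries F) : sh (st V) = sr V := by
  rw [sr_apply, sh_apply, st_apply, subst_comp_subst_apply tau_subst tt_subst, tau_subst_tt]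

theorem coeff_zero_st (V : PowerSeries F) : coeff 0 (st V) = coeff 0 V := by
  obtain ⟨W, hW⟩ : (X : PowerSeries F) ∣ V - C (coeff 0 V) := by
    rw [X_dvd_iff, map_sub, constantCoeff_C, coeff_zero_eq_constantCoeff, sub_self]
  have h1 : V = C (coeff 0 V) + X * W := by rw [← hW]; ring
  have h2 : st V = C (coeff 0 V) + tau F * st W := by
    conv_lhs => rw [h1]
    rw [map_add, map_mul, st_C, st_X]
  rw [h2, map_add, coeff_zero_C]
  have h3 : coeff 0 (tau F * st W) = 0 := by
    rw [coeff_zero_eq_constantCoeff, map_mul]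
    simp [tau]
  rw [h3, add_zero]

theorem map_sh (s : F →+* F) (V : PowerSeries F) : map s (sh V) = sh (map s V) := by
  ext n
  rcases n with _ | n
  · rw [coeff_map, coeff_zero_sh, coeff_zero_sh, coeff_map]
  · rw [coeff_map, coeff_sh, coeff_sh, map_sum]
    refine Finset.sum_congr rfl fun m _ => ?_
    rw [map_mul, map_natCast, coeff_map]

theorem map_pX (s : F →+* F) : map s (pX F) = pX F := by
  unfold pX
  simp only [map_add, map_mul, map_pow, map_X, map_ofNat]

theorem ric_map (s : F →+* F) {V : PowerSeries F} (h : Ric V) : Ric (map s V) := by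
  rw [ric_iff_res] at h ⊢
  have h1 := congrArg (map s) h
  rw [map_zero] at h1
  rw [← h1]
  unfold Res
  rw [map_add, map_sub, map_mul, map_mul, map_mul, map_pow, map_add, map_one, map_sh, map_pX,
    map_X]

theorem sr_pX : (1 + X) ^ 3 * sr (pX F) = pX F := by
  have h : rho F * (1 + X) = -X := rho_mul
  unfold pX
  simp only [map_add, map_mul, map_pow, sr_X, map_ofNat]
  have e : (1 + X) ^ 3 * (34 + 51 * rho F + 27 * rho F ^ 2 + 5 * rho F ^ 3) =
      34 * (1 + X) ^ 3 + 51 * (rho F * (1 + X)) * (1 + X) ^ 2 +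
      27 * (rho F * (1 + X)) ^ 2 * (1 + X) + 5 * (rho F * (1 + X)) ^ 3 := by ring
  rw [e, h]
  ring

/-- the symmetric form of the Riccati equation -/
theorem ric_sym {V : PowerSeries F} (h : Ric V) :
    sr V * st V - pX F * st V + (1 + X) ^ 3 = 0 := by
  rw [ric_iff_res] at h
  have h1 := congrArg sr h
  unfold Res at h1
  rw [map_zero, map_add, map_sub, map_mul, map_mul, map_mul, map_pow, map_add, map_one, sr_X,
    sr_sh] at h1
  have h2 : (1 + rho F) * (1 + X) = 1 := by
    rw [add_mul, rho_mul]; ring
  have h3 : (1 + rho F) ^ 3 * (1 + X) ^ 3 = 1 := by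
    rw [← mul_pow, h2, one_pow]
  have h4 := sr_pX (F := F)
  linear_combination (1 + X) ^ 3 * h1 - sr V * st V * h3 + st V * h4

/-- the symmetry `V (1 / n) * V' (1 / (-2 - n)) = 1` -/
theorem sym_of_ric {V : PowerSeries F} {a : F} (s : F →+* F) (hV : Ric V)
    (hV0 : coeff 0 V = a) (hs : s a * a = 1) (ha : 2 * a ≠ 34) :
    V * st (map s V) = 1 := by
  have hc : coeff 0 (st (map s V)) = s a := by
    rw [coeff_zero_st, coeff_map, hV0]
  have hsa : s a ≠ 0 := left_ne_zero_of_mul_eq_one hs
  have hc' : constantCoeff (st (map s V)) ≠ 0 := by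
    rw [← coeff_zero_eq_constantCoeff, hc]; exact hsa
  set T := st (map s V) with hT
  have h1 : T * T⁻¹ = 1 := PowerSeries.mul_inv_cancel _ hc'
  have h2 : sr (map s V) * sh T⁻¹ = 1 := by
    have := congrArg sh h1
    rw [map_mul, map_one, hT, sh_st] at this
    exact this
  have h3 := ric_sym (ric_map s hV)
  rw [← hT] at h3
  have hW : Ric T⁻¹ := by
    rw [ric_iff_res]
    unfold Res
    linear_combination T⁻¹ * sh T⁻¹ * h3 - (sh T⁻¹ * sr (map s V)) * h1 +
      sh T⁻¹ * pX F * h1 - h2
  have hW0 : coeff 0 T⁻¹ = a := by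
    have h4 : s a * coeff 0 T⁻¹ = 1 := by
      have := congrArg (coeff 0) h1
      rw [coeff_zero_eq_constantCoeff, map_mul, ← coeff_zero_eq_constantCoeff, hc] at this
      simpa using this
    have h5 : s a * coeff 0 T⁻¹ = s a * a := by rw [h4, hs]
    exact mul_left_cancel₀ hsa h5
  have h6 := ric_unique hV hW hV0 hW0 ha
  rw [h6]
  rw [mul_comm]
  exact h1

end QS2.FV
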