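import Pool.Agent.QS2.Defs

/-!
# QS2: from local integrality to a global multiplier, and the norm inequality
-/

set_option autoImplicit false

namespace QS2

open Finset

/-- a rational number with all `p`-adic norms `≤ 1` is an integer -/
theorem exists_int_of_padicNorm (q : ℚ) (h : ∀ (p : ℕ) [Fact p.Prime], padicNorm p q ≤ 1) :
    ∃ m : ℤ, q = m := by
  by_cases hden : q.den = 1
  · exact ⟨q.num, ((Rat.den_eq_one_iff q).mp hden).symm⟩
  exfalso
  obtain ⟨p, hp, hpd⟩ := Nat.exists_prime_and_dvd hden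
  have : Fact p.Prime := ⟨hp⟩
  have hq0 : q ≠ 0 := by
    rintro rfl
    exact hden rfl
  have hnum : ¬ (p : ℤ) ∣ q.num := by
    intro hd
    have h1 : p ∣ q.num.natAbs := Int.natCast_dvd.mp hd
    have h2 : p ∣ Nat.gcd q.num.natAbs q.den := Nat.dvd_gcd h1 hpd
    have h3 : Nat.gcd q.num.natAbs q.den = 1 := q.reduced
    rw [h3] at h2
    exact hp.one_lt.ne' (Nat.dvd_one.mp h2)
  have h1 := h p
  have h2 : q = (q.num : ℚ) / ((q.den : ℤ) : ℚ) := by
    rw [Int.cast_natCast]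
    exact (Rat.num_div_den q).symm
  have h3 : padicNorm p (q.num : ℚ) = 1 := by
    rw [padicNorm.int_eq_one_iff]
    exact hnum
  have h4 : padicNorm p ((q.den : ℤ) : ℚ) < 1 := by
    rw [padicNorm.int_lt_one_iff]
    exact_mod_cast hpd
  have h5 : padicNorm p ((q.den : ℤ) : ℚ) ≠ 0 := by
    apply padicNorm.nonzero
    exact_mod_cast q.den_nz
  have h6 : 0 < padicNorm p ((q.den : ℤ) : ℚ) :=
    lt_of_le_of_ne (padicNorm.nonneg _) (Ne.symm h5)
  rw [h2, padicNorm.div, h3] at h1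
  have h7 : 1 < 1 / padicNorm p ((q.den : ℤ) : ℚ) := by
    rw [lt_div_iff₀ h6]
    linarith
  linarith

/-- the multiplier `∏_{p ≤ N} p ^ (e p)` -/
def Mprod (e : ℕ → ℕ) (N : ℕ) : ℕ := ∏ p ∈ (Ioc 0 N).filter Nat.Prime, p ^ e p

theorem Mprod_pos (e : ℕ → ℕ) (N : ℕ) : 0 < Mprod e N := by
  apply Finset.prod_pos
  intro p hp
  exact pow_pos (mem_filter.mp hp).2.pos _

theorem log_Mprod (e : ℕ → ℕ) (N : ℕ) :
    Real.log (Mprod e N) = ∑ p ∈ (Ioc 0 N).filter Nat.Prime, (e p : ℝ) * Real.log p := by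
  unfold Mprod
  rw [Nat.cast_prod, Real.log_prod]
  · apply Finset.sum_congr rfl
    intro p _
    rw [Nat.cast_pow, Real.log_pow]
  · intro p hp
    have := (mem_filter.mp hp).2.pos
    positivity

theorem pow_dvd_Mprod (e : ℕ → ℕ) (N : ℕ) (h0 : ∀ p, p.Prime → N < p → e p = 0) {p : ℕ}
    (hp : p.Prime) : p ^ e p ∣ Mprod e N := by
  by_cases hN : p ≤ N
  · exact Finset.dvd_prod_of_mem (fun p => p ^ e p)
      (mem_filter.mpr ⟨mem_Ioc.mpr ⟨hp.pos, hN⟩, hp⟩)
  · rw [h0 p hp (by omega), pow_zero]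
    exact one_dvd _

theorem natCast_mem_Op (p : ℕ) [Fact p.Prime] (m : ℕ) : (m : K) ∈ Op p :=
  natCast_mem (Op p) m

/-- an element of `K` that is `p`-integral for all `p` has integral coordinates -/
theorem exists_int_of_mem_Op (z : K) (h : ∀ (p : ℕ) [Fact p.Prime], z ∈ Op p) :
    ∃ m1 m2 : ℤ, z = ⟨m1, m2⟩ := by
  obtain ⟨m1, h1⟩ := exists_int_of_padicNorm z.re (fun p _ => (mem_Op.mp (h p)).1)
  obtain ⟨m2, h2⟩ := exists_int_of_padicNorm z.im (fun p _ => (mem_Op.mp (h p)).2)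
  exact ⟨m1, m2, QuadraticAlgebra.ext h1 h2⟩

/-- the gluing -/
theorem glue (D : K) (e : ℕ → ℕ) (N : ℕ) (h0 : ∀ p, p.Prime → N < p → e p = 0)
    (h : ∀ (p : ℕ) [Fact p.Prime], (p : K) ^ e p * D ∈ Op p) :
    ∃ m1 m2 : ℤ, (Mprod e N : K) * D = ⟨m1, m2⟩ := by
  apply exists_int_of_mem_Op
  intro p hp
  obtain ⟨c, hc⟩ := pow_dvd_Mprod e N h0 hp.out
  have h1 : (Mprod e N : K) * D = (c : K) * ((p : K) ^ e p * D) := by
    rw [hc]
    push_cast
    ring
  rw [h1]
  exact (Op p).mul_mem (natCast_mem_Op p c) (h p)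

theorem emb_ne_zero {z : K} (h : z ≠ 0) : emb z ≠ 0 :=
  fun h0 => h ((map_eq_zero emb.toRingHom).mp h0)

theorem emb_star_ne_zero {z : K} (h : z ≠ 0) : emb (star z) ≠ 0 := by
  apply emb_ne_zero
  intro h4
  apply h
  rw [← star_star z, h4, star_zero]

/-- the norm of an element with integral coordinates -/
theorem one_le_norm (z : K) (m1 m2 : ℤ) (hz : z = ⟨m1, m2⟩) (h0 : z ≠ 0) :
    1 ≤ |emb z| * |emb (star z)| := by
  have h1 : emb z * emb (star z) = ((m1 ^ 2 - 2 * m2 ^ 2 : ℤ) : ℝ) := by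
    rw [emb_apply, emb_star, hz]
    push_cast
    have : (√2 : ℝ) ^ 2 = 2 := Real.sq_sqrt (by norm_num)
    linear_combination (-(m2 : ℝ) ^ 2) * this
  have h2 : emb z ≠ 0 := emb_ne_zero h0
  have h3 : emb (star z) ≠ 0 := emb_star_ne_zero h0
  have h4 : (m1 ^ 2 - 2 * m2 ^ 2 : ℤ) ≠ 0 := by
    intro h
    rw [h, Int.cast_zero] at h1
    rcases mul_eq_zero.mp h1 with h5 | h5
    · exact h2 h5
    · exact h3 h5
  rw [← abs_mul, h1, ← Int.cast_abs]
  exact_mod_cast Int.one_le_abs h4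

/-- the norm inequality for `D` with multiplier `M` -/
theorem norm_ineq (D : K) (M : ℕ) (hM : 0 < M) (hD : D ≠ 0)
    (h : ∃ m1 m2 : ℤ, (M : K) * D = ⟨m1, m2⟩) :
    0 ≤ 2 * Real.log M + Real.log |emb D| + Real.log |emb (star D)| := by
  obtain ⟨m1, m2, hm⟩ := h
  have hMK : (M : K) ≠ 0 := by
    intro h0
    have : emb (M : K) = 0 := by rw [h0, map_zero]
    rw [map_natCast] at this
    have : M = 0 := by exact_mod_cast this
    omega
  have h1 := one_le_norm ((M : K) * D) m1 m2 hm (mul_ne_zero hMK hD)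
  have hM' : (0 : ℝ) < M := by exact_mod_cast hM
  have h2 : emb D ≠ 0 := emb_ne_zero hD
  have h3 : emb (star D) ≠ 0 := emb_star_ne_zero hD
  have h4 : |emb ((M : K) * D)| = M * |emb D| := by
    rw [map_mul, map_natCast, abs_mul, abs_of_pos hM']
  have h5 : |emb (star ((M : K) * D))| = M * |emb (star D)| := by
    rw [star_mul', map_mul, abs_mul]
    have : star (M : K) = (M : K) := star_natCast M
    rw [this, map_natCast, abs_of_pos hM']
  rw [h4, h5] at h1
  have h6 := Real.log_le_log one_pos h1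
  have h7 : 0 < |emb D| := abs_pos.mpr h2
  have h8 : 0 < |emb (star D)| := abs_pos.mpr h3
  rw [Real.log_one, Real.log_mul (by positivity) (by positivity),
    Real.log_mul (by positivity) (by positivity), Real.log_mul (by positivity) (by positivity)]
    at h6
  linarith

/-- gluing and norm inequality together -/
theorem glue_norm (D : K) (hD : D ≠ 0) (e : ℕ → ℕ) (N : ℕ)
    (h0 : ∀ p, p.Prime → N < p → e p = 0)
    (h : ∀ (p : ℕ) [Fact p.Prime], (p : K) ^ e p * D ∈ Op p) :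
    0 ≤ 2 * (∑ p ∈ (Ioc 0 N).filter Nat.Prime, (e p : ℝ) * Real.log p)
      + Real.log |emb D| + Real.log |emb (star D)| := by
  rw [← log_Mprod]
  exact norm_ineq D _ (Mprod_pos e N) hD (glue D e N h0 h)

end QS2
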