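import Pool.Agent.QS2.Box

/-!
# Hankel determinants of a functional and reference points (no cap)

`det_gram_change`: `‖det B(phi_i phi_j)‖ = VN z ^ 2 * ‖det B(X^(i+j))‖`;
`hankel_bound`: if all `‖B(phi_i phi_j)‖ ≤ W` then `‖det B(X^(i+j))‖ * VN z ^ 2 ≤ N! * W ^ N`.
-/

namespace Pool.Agent.QS2

open Finset Matrix Polynomial

variable {N : ℕ}

theorem apply_phi_left (B : ℂ[X] →ₗ[ℂ] ℂ) (z : Fin N → ℂ) (i : Fin N) (g : ℂ[X]) :
    B (phi z i * g) = ∑ l : Fin N, (phi z i).coeff l * B (X ^ (l : ℕ) * g) := by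
  conv_lhs => rw [(phi z i).as_sum_range' N (phi_natDegree_lt z i)]
  rw [sum_mul, map_sum,
    ← Fin.sum_univ_eq_sum_range (fun l => B (monomial l ((phi z i).coeff l) * g)) N]
  refine sum_congr rfl (fun l _ => ?_)
  rw [← C_mul_X_pow_eq_monomial, mul_assoc, ← smul_eq_C_mul, map_smul, smul_eq_mul]

/-- **Congruence.** -/
theorem det_gram_change (z : Fin N → ℂ) (hz : Function.Injective z) (B : ℂ[X] →ₗ[ℂ] ℂ) :
    ‖(Matrix.of fun i j => B (phi z i * phi z j) : Matrix (Fin N) (Fin N) ℂ).det‖ =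
      VN z ^ 2 * ‖(Matrix.of fun i j : Fin N => B (X ^ ((i : ℕ) + (j : ℕ)))).det‖ := by
  have h1 : (Matrix.of fun i j => B (phi z i * phi z j) : Matrix (Fin N) (Fin N) ℂ) =
      (Pm z)ᵀ * (Matrix.of fun i j : Fin N => B (X ^ ((i : ℕ) + (j : ℕ)))) * Pm z := by
    ext i j
    rw [Matrix.mul_apply]
    change B (phi z i * phi z j) = ∑ m : Fin N,
      ((Pm z)ᵀ * (Matrix.of fun i j : Fin N => B (X ^ ((i : ℕ) + (j : ℕ))))) i m * (phi z j).coeff m
    rw [mul_comm, apply_phi_left]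
    refine sum_congr rfl (fun m _ => ?_)
    rw [Matrix.mul_apply, mul_comm (X ^ (m : ℕ)), apply_phi_left, mul_comm]
    congr 1
    refine sum_congr rfl (fun l _ => ?_)
    rw [← pow_add]
    rfl
  rw [h1, det_mul, det_mul, det_transpose, norm_mul, norm_mul, norm_det_Pm z hz]
  ring

/-- **Hankel bound without cap.** -/
theorem hankel_bound (z : Fin N → ℂ) (hz : Function.Injective z) (B : ℂ[X] →ₗ[ℂ] ℂ) (W : ℝ)
    (hB : ∀ i j, ‖B (phi z i * phi z j)‖ ≤ W) :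
    ‖(Matrix.of fun i j : Fin N => B (X ^ ((i : ℕ) + (j : ℕ)))).det‖ * VN z ^ 2 ≤
      (N.factorial : ℝ) * W ^ N := by
  rw [mul_comm, ← det_gram_change z hz B]
  have h := norm_det_le_rows (Matrix.of fun i j => B (phi z i * phi z j)) (fun _ => W) hB
  simpa using h

/-- **Hankel bound with caps.** -/
theorem hankel_bound_cap {K : ℕ} (z : Fin N → ℂ) (hz : Function.Injective z) (B : ℂ[X] →ₗ[ℂ] ℂ)
    (Bk : Fin K → ℂ[X] →ₗ[ℂ] ℂ) (T : Fin K → ℂ[X]) (hT : ∀ k, (T k).Monic)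
    (hBT : ∀ k g, Bk k (T k * g) = 0) (w : Fin K → ℝ) (hw : ∀ k, 0 < w k)
    (hB : ∀ k i j, ‖Bk k (phi z i * phi z j)‖ ≤ w k) (lam : ℝ)
    (hE : ∀ i j, ‖B (phi z i * phi z j) - ∑ k, Bk k (phi z i * phi z j)‖ ≤ Real.exp lam) :
    ‖(Matrix.of fun i j : Fin N => B (X ^ ((i : ℕ) + (j : ℕ)))).det‖ * VN z ^ 2 ≤
      (N.factorial : ℝ) * ((K : ℝ) + 1) ^ N *
        Real.exp (N * lam + ∑ k, ((T k).natDegree : ℝ) * max (Real.log (w k) - lam) 0) := by
  have h1 : (Matrix.of fun i j => B (phi z i * phi z j) : Matrix (Fin N) (Fin N) ℂ) =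
      ∑ k, (Matrix.of fun i j => Bk k (phi z i * phi z j)) +
        (Matrix.of fun i j => B (phi z i * phi z j) - ∑ k, Bk k (phi z i * phi z j)) := by
    ext i j
    rw [Matrix.add_apply, Matrix.sum_apply]
    change B (phi z i * phi z j) = ∑ k, Bk k (phi z i * phi z j) +
      (B (phi z i * phi z j) - ∑ k, Bk k (phi z i * phi z j))
    ring
  rw [mul_comm, ← det_gram_change z hz B, h1]
  exact det_lowrank_tail _ _ (fun k => (T k).natDegree) w hw
    (fun k => rank_gram_le (Bk k) (T k) (hT k) (hBT k) _) hB lam hE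

end Pool.Agent.QS2
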