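import Mathlib

/-!
# QS2: weight bound for a determinant with two kinds of rows

`F` a field, `R` a subring, `p ∈ R`. Rows outside `J` are `R`-integral up to `p ^ (c r)`; the
entries of the rows of `J` are bounded by (weight of the column) minus (weight of the row). Then
the determinant is bounded by the sum of the `|J|` largest column weights minus the sum of the row
weights. Only the Leibniz expansion is used.
-/

set_option autoImplicit false

namespace QS2

open Finset

/-- product of elements with `p ^ a * x ∈ R` -/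
theorem prod_weight {F : Type*} [Field F] (R : Subring F) {p : F} {ι : Type*} (s : Finset ι)
    (a b : ι → ℕ) (x : ι → F) (h : ∀ i ∈ s, ∃ y ∈ R, p ^ a i * x i = p ^ b i * y) :
    ∃ y ∈ R, p ^ (∑ i ∈ s, a i) * ∏ i ∈ s, x i = p ^ (∑ i ∈ s, b i) * y := by
  classical
  induction s using Finset.induction_on with
  | empty => exact ⟨1, R.one_mem, by simp⟩
  | insert i s hi ih =>
    obtain ⟨y, hy, h1⟩ := ih (fun j hj => h j (mem_insert_of_mem hj))
    obtain ⟨z, hz, h2⟩ := h i (mem_insert_self i s)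
    refine ⟨z * y, R.mul_mem hz hy, ?_⟩
    rw [sum_insert hi, sum_insert hi, prod_insert hi, pow_add, pow_add]
    calc p ^ a i * p ^ (∑ i ∈ s, a i) * (x i * ∏ i ∈ s, x i)
        = (p ^ a i * x i) * (p ^ (∑ i ∈ s, a i) * ∏ i ∈ s, x i) := by ring
      _ = (p ^ b i * z) * (p ^ (∑ i ∈ s, b i) * y) := by rw [h1, h2]
      _ = p ^ b i * p ^ (∑ i ∈ s, b i) * (z * y) := by ring

/-- the weight bound for one permutation -/
theorem sum_perm_le {ι : Type*} [Fintype ι] [DecidableEq ι] (J : Finset ι) (e : ι → ℕ) (lam : ℕ)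
    (σ : Equiv.Perm ι) :
    ∑ i ∈ univ.filter (fun i => σ i ∈ J), e i ≤ lam * J.card + ∑ j, (e j - lam) := by
  have hc : (univ.filter (fun i => σ i ∈ J)).card = J.card := by
    have : univ.filter (fun i => σ i ∈ J) = J.map σ.symm.toEmbedding := by
      ext i
      simp only [mem_filter, mem_univ, true_and, mem_map, Equiv.toEmbedding_apply]
      constructor
      · intro h
        exact ⟨σ i, h, by simp⟩
      · rintro ⟨r, hr, rfl⟩
        simpa using hr
    rw [this, card_map]
  calc ∑ i ∈ univ.filter (fun i => σ i ∈ J), e i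
      ≤ ∑ i ∈ univ.filter (fun i => σ i ∈ J), (lam + (e i - lam)) := by
        apply sum_le_sum
        intro i _
        omega
    _ = lam * J.card + ∑ i ∈ univ.filter (fun i => σ i ∈ J), (e i - lam) := by
        rw [sum_add_distrib, sum_const, hc, smul_eq_mul, mul_comm]
    _ ≤ lam * J.card + ∑ j, (e j - lam) := by
        gcongr
        exact subset_univ _

/-- **weight bound for determinants** -/
theorem det_weight {F : Type*} [Field F] (R : Subring F) {p : F} (hp : p ∈ R) {ι : Type*}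
    [Fintype ι] [DecidableEq ι] (T : Matrix ι ι F) (J : Finset ι) (e w c : ι → ℕ) (lam : ℕ)
    (hval : ∀ r, r ∉ J → ∀ j, p ^ c r * T r j ∈ R)
    (hjet : ∀ r ∈ J, ∀ j, ∃ s ∈ R, p ^ e j * T r j = p ^ w r * s) :
    ∃ s ∈ R, p ^ (lam * J.card + ∑ j, (e j - lam) + ∑ r ∈ Jᶜ, c r) * T.det
      = p ^ (∑ r ∈ J, w r) * s := by
  have key : ∀ σ : Equiv.Perm ι, ∃ s ∈ R,
      p ^ (lam * J.card + ∑ j, (e j - lam) + ∑ r ∈ Jᶜ, c r) * (∏ i, T (σ i) i)
        = p ^ (∑ r ∈ J, w r) * s := by
    intro σ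
    have h1 : ∃ y ∈ R, p ^ (∑ i, (if σ i ∈ J then e i else c (σ i))) * ∏ i, T (σ i) i
        = p ^ (∑ i, (if σ i ∈ J then w (σ i) else 0)) * y := by
      apply prod_weight R univ
      intro i _
      by_cases h : σ i ∈ J
      · simp only [if_pos h]
        exact hjet _ h i
      · simp only [if_neg h]
        exact ⟨p ^ c (σ i) * T (σ i) i, hval _ h i, by simp⟩
    obtain ⟨y, hy, h2⟩ := h1
    have h3 : ∑ i, (if σ i ∈ J then w (σ i) else 0) = ∑ r ∈ J, w r := by
      rw [Equiv.sum_comp σ (fun r => if r ∈ J then w r else 0), sum_ite_mem, univ_inter]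
    have h4 : ∑ i, (if σ i ∈ J then e i else c (σ i))
        = ∑ i ∈ univ.filter (fun i => σ i ∈ J), e i + ∑ r ∈ Jᶜ, c r := by
      rw [sum_ite]
      congr 1
      have : univ.filter (fun i => ¬ σ i ∈ J) = Jᶜ.map σ.symm.toEmbedding := by
        ext i
        simp only [mem_filter, mem_univ, true_and, mem_map, Equiv.toEmbedding_apply, mem_compl]
        constructor
        · intro h
          exact ⟨σ i, h, by simp⟩
        · rintro ⟨r, hr, rfl⟩
          simpa using hr
      rw [this, sum_map]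
      simp
    have h5 := sum_perm_le J e lam σ
    obtain ⟨d, hd⟩ := Nat.exists_eq_add_of_le h5
    refine ⟨p ^ d * y, R.mul_mem (R.pow_mem hp _) hy, ?_⟩
    rw [h3, h4] at h2
    rw [hd]
    calc p ^ (∑ i ∈ univ.filter (fun i => σ i ∈ J), e i + d + ∑ r ∈ Jᶜ, c r) * ∏ i, T (σ i) i
        = p ^ d * (p ^ (∑ i ∈ univ.filter (fun i => σ i ∈ J), e i + ∑ r ∈ Jᶜ, c r)
            * ∏ i, T (σ i) i) := by
          rw [show ∑ i ∈ univ.filter (fun i => σ i ∈ J), e i + d + ∑ r ∈ Jᶜ, c r
            = d + (∑ i ∈ univ.filter (fun i => σ i ∈ J), e i + ∑ r ∈ Jᶜ, c r) by ring, pow_add]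
          ring
      _ = p ^ (∑ r ∈ J, w r) * (p ^ d * y) := by rw [h2]; ring
  choose s hs h using key
  refine ⟨∑ σ : Equiv.Perm ι, ((Equiv.Perm.sign σ : ℤ) : F) * s σ, ?_, ?_⟩
  · apply R.sum_mem
    intro σ _
    exact R.mul_mem (intCast_mem R _) (hs σ)
  · rw [Matrix.det_apply', mul_sum, mul_sum]
    apply sum_congr rfl
    intro σ _
    calc _ = ((Equiv.Perm.sign σ : ℤ) : F)
          * (p ^ (lam * J.card + ∑ j, (e j - lam) + ∑ r ∈ Jᶜ, c r) * ∏ i, T (σ i) i) := by ring
      _ = _ := by rw [h σ]; ring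

end QS2
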