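import Pool.Agent.QS2.RicInst
import Pool.Agent.QS2.WeightDet
import Pool.Agent.QS2.AperyInt
import Pool.Agent.QS2.Link

/-! The minor bound for the determinant at one prime, from the growth of the series `v`. -/

set_option autoImplicit false

namespace QS2

open Finset Polynomial Pool.QS2

/-- data: `π^κ = p`, weights `a`, and the growth of `v` -/
structure PiData (p : ℕ) [Fact p.Prime] (π : K) (κ : ℕ) (a : ℕ → ℕ) (v : ℕ → K) : Prop where
  mem : π ∈ Op p
  ne : π ≠ 0
  pow : π ^ κ = (p : K)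
  a0 : a 0 = 0
  mono : Monotone a
  sup : ∀ i j, a i + a j ≤ a (i + j)
  growth : ∀ m, v m ∈ Gd (Op p) π (a m) 0

section

variable {p : ℕ} [hp : Fact p.Prime] {π : K} {κ : ℕ} {a : ℕ → ℕ} {v : ℕ → K}

/-- column (and row) weight -/
def wt (p κ : ℕ) (a : ℕ → ℕ) (i : ℕ) : ℕ := a i + κ * padicValNat p i.factorial

theorem fact_split (h : PiData p π κ a v) (i : ℕ) :
    ∃ m : ℕ, m.Coprime p ∧ (i.factorial : K) = π ^ (κ * padicValNat p i.factorial) * m := by
  have hi : i.factorial ≠ 0 := i.factorial_ne_zero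
  refine ⟨i.factorial / p ^ (i.factorial.factorization p),
    (Nat.coprime_ordCompl hp.out hi).symm, ?_⟩
  have h1 := Nat.ordProj_mul_ordCompl_eq_self i.factorial p
  rw [pow_mul, h.pow, ← Nat.factorization_def _ hp.out]
  conv_lhs => rw [← h1]
  push_cast
  rfl

theorem wt_mono (h : PiData p π κ a v) : Monotone (wt p κ a) := by
  intro i j hij
  unfold wt
  have h1 := h.mono hij
  have h2 : padicValNat p i.factorial ≤ padicValNat p j.factorial := by
    apply (padicValNat_dvd_iff_le (Nat.factorial_ne_zero j)).1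
    exact (pow_padicValNat_dvd).trans (Nat.factorial_dvd_factorial hij)
  have h3 := Nat.mul_le_mul_left κ h2
  omega

theorem entry_bound (h : PiData p π κ a v) {i D : ℕ} {y : K}
    (hy : y ∈ Gd (Op p) π (a i) (a D)) :
    ∃ s ∈ Op p, π ^ (wt p κ a i) * ((D.factorial : K) * ((i.factorial : K)⁻¹ * y))
      = π ^ (wt p κ a D) * s := by
  obtain ⟨r, hr, hy⟩ := hy
  obtain ⟨mi, hmi, ei⟩ := fact_split h i
  obtain ⟨mD, hmD, eD⟩ := fact_split h D
  have hinv := inv_nat_mem hmi
  refine ⟨(mi : K)⁻¹ * (mD : K) * r, (Op p).mul_mem ((Op p).mul_mem hinv (natCast_mem _ mD)) hr, ?_⟩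
  have hi0 : (i.factorial : K) ≠ 0 := by exact_mod_cast i.factorial_ne_zero
  have hmi0 : (mi : K) ≠ 0 := by
    intro h0
    rw [h0, mul_zero] at ei
    exact hi0 ei
  have e1 : π ^ (κ * padicValNat p i.factorial) * (i.factorial : K)⁻¹ = (mi : K)⁻¹ := by
    rw [ei, mul_inv]
    have : π ^ (κ * padicValNat p i.factorial) ≠ 0 := pow_ne_zero _ h.ne
    field_simp
  unfold wt
  rw [pow_add, pow_add, eD]
  linear_combination (π ^ a i * (π ^ (κ * padicValNat p D.factorial) * (mD : K)) * y) * e1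
    + ((mi : K)⁻¹ * (π ^ (κ * padicValNat p D.factorial) * (mD : K))) * hy

theorem binP_coeff_eq (i D : ℕ) :
    (binP K i).coeff D = ((i.factorial : K)⁻¹) * (((descPochhammer ℤ i).coeff D : ℤ) : K) := by
  unfold binP
  rw [coeff_C_mul, ← descPochhammer_map (Int.castRingHom K) i, coeff_map]
  rfl

theorem binP_eval_int (i : ℕ) (z : ℤ) : ∃ c : ℤ, (binP K i).eval ((z : ℤ) : K) = (c : K) := by
  refine ⟨Ring.choose z i, ?_⟩
  unfold binP
  rw [eval_mul, eval_C, ← descPochhammer_eval_cast]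
  have h1 := Ring.descPochhammer_eq_factorial_smul_choose z i
  rw [← Polynomial.eval_eq_smeval] at h1
  rw [h1, nsmul_eq_mul]
  push_cast
  have hi0 : (i.factorial : K) ≠ 0 := by exact_mod_cast i.factorial_ne_zero
  field_simp

theorem jetP (h : PiData p π κ a v) (i D : ℕ) :
    ∃ s ∈ Op p, π ^ (wt p κ a i) * ((D.factorial : K) * (binP K i).coeff D)
      = π ^ (wt p κ a D) * s := by
  by_cases hD : D ≤ i
  · rw [binP_coeff_eq]
    apply entry_bound h
    refine ⟨π ^ (a i - a D) * (((descPochhammer ℤ i).coeff D : ℤ) : K),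
      (Op p).mul_mem ((Op p).pow_mem h.mem _) (intCast_mem _ _), ?_⟩
    rw [← mul_assoc, ← pow_add, Nat.add_sub_cancel' (h.mono hD)]
  · refine ⟨0, (Op p).zero_mem, ?_⟩
    rw [coeff_eq_zero_of_natDegree_lt ((binP_natDegree i).trans_lt (by omega))]
    simp

theorem jetQ (h : PiData p π κ a v) (i D : ℕ) :
    ∃ s ∈ Op p, π ^ (wt p κ a i) * ((D.factorial : K) * (pp v (binP K i)).coeff D)
      = π ^ (wt p κ a D) * s := by
  rw [pp_coeff_of_lt v (binP K i) D (i + 1) ((binP_natDegree i).trans_lt (by omega))]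
  have e : ∑ j ∈ range (i + 1), (binP K i).coeff j * (if D ≤ j then v (j - D) else 0)
      = (i.factorial : K)⁻¹ * ∑ j ∈ range (i + 1),
        (((descPochhammer ℤ i).coeff j : ℤ) : K) * (if D ≤ j then v (j - D) else 0) := by
    rw [mul_sum]
    refine sum_congr rfl fun j _ => ?_
    rw [binP_coeff_eq]; ring
  rw [e]
  apply entry_bound h
  refine AddSubgroup.sum_mem _ fun j hj => ?_
  have hj' : j ≤ i := by have := mem_range.1 hj; omega
  refine Gd_smul (intCast_mem _ _) ?_
  split_ifs with hDj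
  · obtain ⟨r, hr, e⟩ := h.growth (j - D)
    have hle : a D + a (j - D) ≤ a i := by
      have h1 := h.sup D (j - D)
      rw [Nat.add_sub_cancel' hDj] at h1
      exact h1.trans (h.mono hj')
    obtain ⟨k, hk⟩ := Nat.exists_eq_add_of_le hle
    refine ⟨π ^ k * r, (Op p).mul_mem ((Op p).pow_mem h.mem _) hr, ?_⟩
    rw [pow_zero, one_mul] at e
    rw [hk, pow_add, pow_add]
    linear_combination (π ^ a D * π ^ k) * e
  · exact AddSubgroup.zero_mem _

/-- cost of a value row -/
def vc (p κ kx A : ℕ) : ℕ := kx + κ * (3 * Nat.log p (A + 1) + 1)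

theorem algQ (q : ℚ) : ((q : ℚ) : K) = algebraMap ℚ K q := (eq_ratCast (algebraMap ℚ K) q).symm

theorem aperyB_mem (h : PiData p π κ a v) {n A : ℕ} (hn : n ≤ A + 1) :
    π ^ (κ * (3 * Nat.log p (A + 1) + 1)) * ((aperyB n : ℚ) : K) ∈ Op p := by
  rw [pow_mul, h.pow, algQ]
  have e : ((p : K) ^ (3 * Nat.log p (A + 1) + 1)) * algebraMap ℚ K (aperyB n)
      = algebraMap ℚ K ((p : ℚ) ^ (3 * Nat.log p (A + 1) + 1) * aperyB n) := by
    rw [map_mul, map_pow, map_natCast]
  rw [e]
  apply algebraMap_mem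
  rw [padicNorm.mul]
  have h1 : padicNorm p ((p : ℚ) ^ (3 * Nat.log p (A + 1) + 1))
      = ((p : ℚ) ^ (3 * Nat.log p (A + 1) + 1))⁻¹ := by
    have h2 : padicNorm p ((p ^ (3 * Nat.log p (A + 1) + 1) : ℕ) : ℚ) = _ :=
      padicNorm_natCast_eq p (pow_ne_zero _ hp.out.ne_zero)
    rw [padicValNat.prime_pow] at h2
    exact_mod_cast h2
  have h3 := norm_aperyB' p n
  have hp1 : (1 : ℚ) ≤ (p : ℚ) := by exact_mod_cast hp.out.one_lt.le
  have h4 : (p : ℚ) ^ (3 * Nat.log p n + if p = 2 then 1 else 0)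
      ≤ (p : ℚ) ^ (3 * Nat.log p (A + 1) + 1) := by
    apply pow_le_pow_right₀ hp1
    have := Nat.log_mono_right (b := p) hn
    split_ifs <;> omega
  rw [h1]
  have hpos : (0 : ℚ) < (p : ℚ) ^ (3 * Nat.log p (A + 1) + 1) := by positivity
  rw [inv_mul_le_iff₀ hpos, mul_one]
  exact h3.trans h4

theorem valu_mem (h : PiData p π κ a v) {y : K} {kx : ℕ} (hy : π ^ kx * y ∈ Op p) {n n' A : ℕ}
    (hn' : n' ≤ A + 1) :
    π ^ (vc p κ kx A) * (((aperyA n : ℚ) : K) * y - ((aperyB n' : ℚ) : K)) ∈ Op p := by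
  unfold vc
  rw [pow_add]
  have e : π ^ kx * π ^ (κ * (3 * Nat.log p (A + 1) + 1))
      * (((aperyA n : ℚ) : K) * y - ((aperyB n' : ℚ) : K))
      = π ^ (κ * (3 * Nat.log p (A + 1) + 1)) * ((aperyA n : ℚ) : K) * (π ^ kx * y)
        - π ^ kx * (π ^ (κ * (3 * Nat.log p (A + 1) + 1)) * ((aperyB n' : ℚ) : K)) := by ring
  rw [e]
  refine (Op p).sub_mem ((Op p).mul_mem ((Op p).mul_mem ((Op p).pow_mem h.mem _) ?_) hy)
    ((Op p).mul_mem ((Op p).pow_mem h.mem _) (aperyB_mem h hn'))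
  rw [algQ]
  exact algebraMap_mem (norm_aperyA p n)

/-- the total exponent -/
def XE (p κ : ℕ) (a : ℕ → ℕ) (kx A rho : ℕ) : ℕ :=
  ∑ i ∈ range rho, (wt p κ a (A + i) - wt p κ a (A - rho + i)) + vc p κ kx A * (2 * A)

theorem deltaR_bound (h : PiData p π κ a v) {x x' : K} {kx : ℕ} (hx : π ^ kx * x ∈ Op p)
    (hx' : π ^ kx * x' ∈ Op p) {A rho : ℕ} (hA : rho ≤ A) :
    π ^ (XE p κ a kx A rho) * DeltaR x x' v A rho ∈ Op p := by
  classical
  set c := A + rho with hc
  set T : Matrix (Fin c ⊕ Fin c) (Fin c ⊕ Fin c) K :=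
    (bigM x x' v A rho).submatrix (idx A rho) id with hT
  let f : Fin (2 * rho) ↪ (Fin c ⊕ Fin c) :=
    ⟨fun d => (idx A rho).symm (Sum.inr d), fun d d' hdd => by
      have := (idx A rho).symm.injective hdd
      exact Sum.inr_injective this⟩
  have hf : ∀ d, f d = (idx A rho).symm (Sum.inr d) := fun _ => rfl
  set J : Finset (Fin c ⊕ Fin c) := univ.map f with hJ
  have hJcard : J.card = 2 * rho := by rw [hJ, card_map, card_univ, Fintype.card_fin]
  have hmemJ : ∀ r, r ∈ J ↔ ∃ d, idx A rho r = Sum.inr d := by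
    intro r
    rw [hJ, mem_map]
    constructor
    · rintro ⟨d, _, rfl⟩
      exact ⟨d, by rw [hf]; simp⟩
    · rintro ⟨d, hd⟩
      exact ⟨d, mem_univ _, by rw [hf, ← hd]; simp⟩
  let ix : Fin c ⊕ Fin c → ℕ := Sum.elim (fun i : Fin c => (i : ℕ)) (fun i : Fin c => (i : ℕ))
  let e : Fin c ⊕ Fin c → ℕ := fun j => wt p κ a (ix j)
  let w : Fin c ⊕ Fin c → ℕ := fun r =>
    Sum.elim (fun _ : Nd A => 0) (fun d : Fin (2 * rho) => wt p κ a (c - 2 * rho + (d : ℕ)))
      (idx A rho r)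
  have hval : ∀ r, r ∉ J → ∀ j, π ^ (vc p κ kx A) * T r j ∈ Op p := by
    intro r hr j
    have hr' : ∃ g : Nd A, idx A rho r = Sum.inl g := by
      rcases hir : idx A rho r with g | d
      · exact ⟨g, rfl⟩
      · exact absurd ((hmemJ r).2 ⟨d, hir⟩) hr
    obtain ⟨g, hg⟩ := hr'
    have hentry : ∀ (i : ℕ) (u : K), π ^ (vc p κ kx A) * u ∈ Op p →
        π ^ (vc p κ kx A) * ((binP K i).eval (((nodeZ A g : ℤ)) : K) * u) ∈ Op p := by
      intro i u hu
      obtain ⟨cc, hcc⟩ := binP_eval_int i (nodeZ A g)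
      rw [hcc]
      have : π ^ (vc p κ kx A) * ((cc : K) * u) = (cc : K) * (π ^ (vc p κ kx A) * u) := by ring
      rw [this]
      exact (Op p).mul_mem (intCast_mem _ _) hu
    have hu0 : π ^ (vc p κ kx A) * uval x x' A g ∈ Op p := by
      rcases g with g | g
      · exact valu_mem h hx (by have := g.isLt; omega)
      · exact valu_mem h hx' (by have := g.isLt; omega)
    have hu1 : π ^ (vc p κ kx A) * uval1 x x' A g ∈ Op p := by
      rcases g with g | g
      · exact valu_mem h hx (by have := g.isLt; omega)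
      · exact valu_mem h hx' (by have := g.isLt; omega)
    simp only [hT, Matrix.submatrix_apply, id, hg, bigM]
    rcases j with i | i
    · exact hentry _ _ hu0
    · exact hentry _ _ hu1
  have hjet : ∀ r, r ∈ J → ∀ j, ∃ s ∈ Op p, π ^ (e j) * T r j = π ^ (w r) * s := by
    intro r hr j
    obtain ⟨d, hd⟩ := (hmemJ r).1 hr
    simp only [hT, Matrix.submatrix_apply, id, hd, bigM]
    have hw : w r = wt p κ a (c - 2 * rho + (d : ℕ)) := by simp [w, hd]
    rw [hw]
    rcases j with i | i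
    · exact jetP h _ _
    · exact jetQ h _ _

  obtain ⟨s, hs, key⟩ := det_weight (Op p) h.mem T J e w (fun _ => vc p κ kx A)
    (wt p κ a A) hval hjet
  have hD : T.det = DeltaR x x' v A rho := rfl
  rw [hD] at key
  have hW : ∑ r ∈ J, w r = ∑ d ∈ range (2 * rho), wt p κ a (c - 2 * rho + d) := by
    rw [hJ, sum_map, ← Fin.sum_univ_eq_sum_range (fun d => wt p κ a (c - 2 * rho + d))]
    refine sum_congr rfl fun d _ => ?_
    simp [w, hf]
  have hE : ∑ j, (e j - wt p κ a A) = 2 * ∑ i ∈ range rho, (wt p κ a (A + i) - wt p κ a A) := by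
    rw [Fintype.sum_sum_type]
    have h1 : ∀ g : Fin c → ℕ, (∀ i, g i = wt p κ a (i : ℕ) - wt p κ a A) →
        ∑ i, g i = ∑ i ∈ range rho, (wt p κ a (A + i) - wt p κ a A) := by
      intro g hg
      rw [sum_congr rfl (fun i _ => hg i),
        Fin.sum_univ_eq_sum_range (fun i => wt p κ a i - wt p κ a A), hc, sum_range_add]
      have h0 : ∑ i ∈ range A, (wt p κ a i - wt p κ a A) = 0 := by
        refine sum_eq_zero fun i hi => ?_
        have := wt_mono h (mem_range.1 hi).le
        omega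
      rw [h0, zero_add]
    rw [h1 (fun i => e (Sum.inl i) - wt p κ a A) (fun i => rfl),
      h1 (fun i => e (Sum.inr i) - wt p κ a A) (fun i => rfl)]
    ring
  have hC : ∑ r ∈ Jᶜ, vc p κ kx A = vc p κ kx A * (2 * A) := by
    rw [sum_const, smul_eq_mul, card_compl, hJcard, Fintype.card_sum, Fintype.card_fin, mul_comm]
    congr 1
    omega
  -- the exponents
  have hexp : wt p κ a A * J.card + ∑ j, (e j - wt p κ a A) + ∑ r ∈ Jᶜ, vc p κ kx A
      = ∑ r ∈ J, w r + XE p κ a kx A rho := by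
    rw [hW, hE, hC, hJcard]
    have hsplit : range (2 * rho) = range (rho + rho) := by congr 1; omega
    rw [hsplit, sum_range_add]
    have h1 : ∑ d ∈ range rho, wt p κ a (c - 2 * rho + (rho + d))
        = ∑ d ∈ range rho, wt p κ a (A + d) := by
      refine sum_congr rfl fun d _ => ?_
      congr 1; omega
    have h2 : ∑ d ∈ range rho, wt p κ a (c - 2 * rho + d)
        = ∑ d ∈ range rho, wt p κ a (A - rho + d) := by
      refine sum_congr rfl fun d _ => ?_
      congr 1; omega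
    rw [h1, h2]
    unfold XE
    have h3 : ∑ i ∈ range rho, (wt p κ a (A + i) - wt p κ a A) + rho * wt p κ a A
        = ∑ i ∈ range rho, wt p κ a (A + i) := by
      rw [← smul_eq_mul rho, ← card_range rho, ← sum_const, card_range, ← sum_add_distrib]
      refine sum_congr rfl fun i _ => ?_
      have := wt_mono h (Nat.le_add_right A i)
      omega
    have h4 : ∑ i ∈ range rho, (wt p κ a (A + i) - wt p κ a (A - rho + i))
        + ∑ i ∈ range rho, wt p κ a (A - rho + i) = ∑ i ∈ range rho, wt p κ a (A + i) := by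
      rw [← sum_add_distrib]
      refine sum_congr rfl fun i _ => ?_
      have := wt_mono h (show A - rho + i ≤ A + i by omega)
      omega
    have h5 : wt p κ a A * (2 * rho) = 2 * (rho * wt p κ a A) := by ring
    rw [h5]
    omega
  rw [hexp, pow_add] at key
  have hne : π ^ (∑ r ∈ J, w r) ≠ 0 := pow_ne_zero _ h.ne
  have : π ^ (XE p κ a kx A rho) * DeltaR x x' v A rho = s := by
    apply mul_left_cancel₀ hne
    linear_combination key
  rw [this]; exact hs

theorem delta_bound (h : PiData p π κ a v) {x : K} {kx : ℕ} (hx : π ^ kx * x ∈ Op p)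
    (hx' : π ^ kx * star x ∈ Op p) {A rho : ℕ} (hA : rho ≤ A) :
    π ^ (XE p κ a kx A rho) * Delta x v A rho ∈ Op p :=
  deltaR_bound h hx hx' hA

end

end QS2
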