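import Pool.Agent.QS2.Hankel

/-!
# Hankel determinants of limits of sums of particles
-/

namespace Pool.Agent.QS2

open Finset Matrix Polynomial Filter Topology

variable {N : ℕ}

theorem massF_apply (y a : ℂ) (f : ℂ[X]) : massF y a f = a * f.eval y := rfl

/-- the determinant of a limit of matrices -/
theorem hankel_limit (h : ℕ → ℂ) (B : ℕ → ℂ[X] →ₗ[ℂ] ℂ)
    (hlim : ∀ m, Tendsto (fun M => B M (X ^ m)) atTop (𝓝 (h m))) (C V : ℝ)
    (hb : ∀ᶠ M in atTop,
      ‖(Matrix.of fun i j : Fin N => B M (X ^ ((i : ℕ) + (j : ℕ)))).det‖ * V ≤ C) :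
    ‖(Matrix.of fun i j : Fin N => h ((i : ℕ) + (j : ℕ))).det‖ * V ≤ C := by
  have h1 : Tendsto (fun M => (Matrix.of fun i j : Fin N => B M (X ^ ((i : ℕ) + (j : ℕ)))).det) atTop
      (𝓝 (Matrix.of fun i j : Fin N => h ((i : ℕ) + (j : ℕ))).det) := by
    simp only [Matrix.det_apply]
    refine tendsto_finsetSum _ (fun σ _ => ?_)
    refine Tendsto.const_smul ?_ _
    refine tendsto_finsetProd _ (fun i _ => ?_)
    exact hlim _
  have h2 : Tendsto (fun M => ‖(Matrix.of fun i j : Fin N => B M (X ^ ((i : ℕ) + (j : ℕ)))).det‖ * V)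
      atTop (𝓝 (‖(Matrix.of fun i j : Fin N => h ((i : ℕ) + (j : ℕ))).det‖ * V)) :=
    h1.norm.mul_const V
  exact le_of_tendsto h2 hb

/-- **Particles.** `h m = lim_M (sum_k a_k xi_k^m + E_M(X^m))`, the particles `k < K` have weights
`w k`, the remainder `E_M` is bounded by `exp lam` in the Lagrange basis. -/
theorem particles_bound {K : ℕ} (z : Fin N → ℂ) (hz : Function.Injective z) (h : ℕ → ℂ)
    (ξ a : ℕ → Fin K → ℂ) (E : ℕ → ℂ[X] →ₗ[ℂ] ℂ)
    (hlim : ∀ m, Tendsto (fun M => ∑ k, a M k * ξ M k ^ m + E M (X ^ m)) atTop (𝓝 (h m)))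
    (w : Fin K → ℝ) (hw : ∀ k, 0 < w k) (lam : ℝ)
    (hb : ∀ᶠ M in atTop, ∀ k i j, ‖a M k‖ * ‖(phi z i * phi z j).eval (ξ M k)‖ ≤ w k)
    (hE : ∀ᶠ M in atTop, ∀ i j, ‖E M (phi z i * phi z j)‖ ≤ Real.exp lam) :
    ‖(Matrix.of fun i j : Fin N => h ((i : ℕ) + (j : ℕ))).det‖ * VN z ^ 2 ≤
      (N.factorial : ℝ) * ((K : ℝ) + 1) ^ N *
        Real.exp (N * lam + ∑ k, max (Real.log (w k) - lam) 0) := by
  refine hankel_limit h (fun M => ∑ k, massF (ξ M k) (a M k) + E M) ?_ _ _ ?_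
  · intro m
    refine (hlim m).congr (fun M => ?_)
    rw [LinearMap.add_apply, LinearMap.sum_apply]
    congr 1
    refine sum_congr rfl (fun k _ => ?_)
    rw [massF_apply, eval_pow, eval_X]
  · filter_upwards [hb, hE] with M hbM hEM
    have h1 := hankel_bound_cap z hz (∑ k, massF (ξ M k) (a M k) + E M)
      (fun k => massF (ξ M k) (a M k)) (fun k => X - C (ξ M k)) (fun k => monic_X_sub_C _)
      (fun k g => massF_kill _ _ g) w hw
      (fun k i j => by rw [massF_apply, norm_mul]; exact hbM k i j) lam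
      (fun i j => by
        rw [LinearMap.add_apply, LinearMap.sum_apply, add_sub_cancel_left]
        exact hEM i j)
    simpa using h1

end Pool.Agent.QS2
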