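import Pool.Agent.QS2.RootsB

/-!
The roots of `Y_M = yc (M+1)`: exactly one in each of the `3 M` small discs, all simple, and the
partial fraction of the convergent `r_M(z) = (z+1)^3 yc M (z+1) / yc (M+1) z`.
-/

set_option autoImplicit false

namespace Pool.Agent.QS2

open Polynomial Finset

lemma exists_xi (M : ℕ) (p : Fin M × Fin 3) :
    ∃ z : ℂ, ‖z + (p.1 + 1) - cen p.2‖ < 1 / 10 ∧ yc (M + 1) z = 0 := by
  obtain ⟨⟨i, hi⟩, j⟩ := p
  obtain ⟨w, h1, h2⟩ := exists_root i (M - 1 - i) j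
  refine ⟨w - (i + 1), ?_, ?_⟩
  · simpa using h1
  · rwa [show i + (M - 1 - i) + 2 = M + 1 by omega] at h2

/-- the root of `Y_M` in the disc `p` -/
noncomputable def xi (M : ℕ) (p : Fin M × Fin 3) : ℂ := (exists_xi M p).choose

lemma xi_near (M : ℕ) (p : Fin M × Fin 3) : ‖xi M p + (p.1 + 1) - cen p.2‖ < 1 / 10 :=
  (exists_xi M p).choose_spec.1

lemma xi_root (M : ℕ) (p : Fin M × Fin 3) : yc (M + 1) (xi M p) = 0 :=
  (exists_xi M p).choose_spec.2

lemma cen_im_sep {i j : Fin 3} (h : i ≠ j) : 21 / 100 ≤ |(cen i).im - (cen j).im| := by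
  fin_cases i <;> fin_cases j <;> simp [cen] at h ⊢ <;> norm_num [abs_of_nonneg, abs_of_neg]

lemma xi_inj (M : ℕ) : Function.Injective (xi M) := by
  intro p q h
  have hp := xi_near M p
  have hq := xi_near M q
  rw [h] at hp
  have key : ‖((p.1 : ℕ) : ℂ) - ((q.1 : ℕ) : ℂ) - (cen p.2 - cen q.2)‖ < 1 / 5 := by
    have := norm_sub_le (xi M q + (p.1 + 1) - cen p.2) (xi M q + (q.1 + 1) - cen q.2)
    rw [show xi M q + (((p.1 : ℕ) : ℂ) + 1) - cen p.2 - (xi M q + (((q.1 : ℕ) : ℂ) + 1) - cen q.2) =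
      ((p.1 : ℕ) : ℂ) - ((q.1 : ℕ) : ℂ) - (cen p.2 - cen q.2) by ring] at this
    linarith
  have hre := (Complex.abs_re_le_norm _).trans_lt key
  have him := (Complex.abs_im_le_norm _).trans_lt key
  simp only [Complex.sub_re, Complex.natCast_re, cen_re, sub_self, sub_zero, Complex.sub_im,
    Complex.natCast_im, zero_sub, abs_neg] at hre him
  have h2 : p.2 = q.2 := by
    by_contra hne
    have := cen_im_sep hne
    linarith
  have h1 : p.1 = q.1 := by
    have : |(((p.1 : ℕ) : ℤ) - ((q.1 : ℕ) : ℤ))| < 1 := by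
      have : |(((p.1 : ℕ) : ℝ) - ((q.1 : ℕ) : ℝ))| < 1 := by linarith
      exact_mod_cast this
    rw [Int.abs_lt_one_iff] at this
    apply Fin.ext
    omega
  exact Prod.ext h1 h2

lemma ycP_ne (M : ℕ) : ycP (M + 1) ≠ 0 := by
  intro h
  have h1 := eval_ycP (M + 1) 0
  rw [h, eval_zero] at h1
  exact yc_ne M 0 (by simp; norm_num) h1.symm

lemma roots_ycP (M : ℕ) : (ycP (M + 1)).roots = (univ.image (xi M)).val := by
  have hsub : (univ.image (xi M)).val ≤ (ycP (M + 1)).roots := by
    rw [Multiset.le_iff_subset (univ.image (xi M)).nodup]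
    intro z hz
    rw [Finset.mem_val, Finset.mem_image] at hz
    obtain ⟨p, _, rfl⟩ := hz
    rw [mem_roots (ycP_ne M), IsRoot, eval_ycP]
    exact xi_root M p
  symm
  apply Multiset.eq_of_le_of_card_le hsub
  rw [Finset.card_val, Finset.card_image_of_injective _ (xi_inj M), Finset.card_univ,
    Fintype.card_prod, Fintype.card_fin, Fintype.card_fin]
  have h1 := card_roots' (ycP (M + 1))
  have h2 := natDegree_ycP M
  omega

lemma natDegree_ycP_eq (M : ℕ) : (ycP (M + 1)).natDegree = 3 * M := by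
  apply le_antisymm (natDegree_ycP M)
  have h1 := card_roots' (ycP (M + 1))
  rw [roots_ycP, Finset.card_val, Finset.card_image_of_injective _ (xi_inj M), Finset.card_univ,
    Fintype.card_prod, Fintype.card_fin, Fintype.card_fin] at h1
  omega

/-- the leading coefficient of `Y_M` -/
noncomputable def lcY (M : ℕ) : ℂ := (ycP (M + 1)).leadingCoeff

lemma lcY_ne (M : ℕ) : lcY M ≠ 0 := leadingCoeff_ne_zero.2 (ycP_ne M)

lemma ycP_eq (M : ℕ) : ycP (M + 1) = C (lcY M) * ∏ p : Fin M × Fin 3, (X - C (xi M p)) := by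
  have h := (IsAlgClosed.splits (ycP (M + 1))).eq_prod_roots
  rw [roots_ycP] at h
  have h2 : ((univ.image (xi M)).val.map fun a => X - C a).prod =
      ∏ p : Fin M × Fin 3, (X - C (xi M p)) := by
    rw [← Finset.prod_image (f := fun z => X - C z) (g := xi M) (s := univ)
      (fun a _ b _ hab => xi_inj M hab)]
    rfl
  rw [h2] at h
  exact h

lemma yc_eq_prod (M : ℕ) (z : ℂ) : yc (M + 1) z = lcY M * ∏ p : Fin M × Fin 3, (z - xi M p) := by
  rw [← eval_ycP, ycP_eq, eval_mul, eval_C, eval_prod]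
  simp

lemma xi_unique (M : ℕ) {z : ℂ} (h : yc (M + 1) z = 0) : ∃ p, z = xi M p := by
  rw [yc_eq_prod, mul_eq_zero, Finset.prod_eq_zero_iff] at h
  rcases h with h | ⟨p, _, hp⟩
  · exact absurd h (lcY_ne M)
  · exact ⟨p, sub_eq_zero.1 hp⟩

/-- the product over the other roots -/
lemma deriv_eq (M : ℕ) (p : Fin M × Fin 3) : (derivative (ycP (M + 1))).eval (xi M p) =
    lcY M * ∏ q ∈ univ.erase p, (xi M p - xi M q) := by
  rw [ycP_eq, derivative_C_mul, eval_mul, eval_C, derivative_prod_finset, eval_finsetSum,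
    Finset.sum_eq_single p]
  · rw [eval_mul, eval_prod]
    simp
  · intro q _ hq
    rw [eval_mul, eval_prod]
    have : ∏ j ∈ univ.erase q, eval (xi M p) (X - C (xi M j)) = 0 := by
      apply Finset.prod_eq_zero (Finset.mem_erase.2 ⟨Ne.symm hq, mem_univ p⟩)
      simp
    rw [this, zero_mul]
  · intro h
    exact absurd (mem_univ p) h

lemma deriv_ne (M : ℕ) (p : Fin M × Fin 3) : (derivative (ycP (M + 1))).eval (xi M p) ≠ 0 := by
  rw [deriv_eq]
  refine mul_ne_zero (lcY_ne M) (Finset.prod_ne_zero_iff.2 ?_)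
  intro q hq
  rw [Finset.mem_erase] at hq
  rw [sub_ne_zero]
  intro h
  exact hq.1 (xi_inj M h.symm)

/-- the numerator `(X+1)^3 yc M (X+1)` of the convergent -/
noncomputable def numP (M : ℕ) : ℂ[X] := (X + 1) ^ 3 * yc M (X + 1)

lemma eval_numP (M : ℕ) (z : ℂ) : (numP M).eval z = (z + 1) ^ 3 * yc M (z + 1) := by
  have := map_yc (evalRingHom z) M (X + 1 : ℂ[X])
  simp only [coe_evalRingHom, eval_add, eval_X, eval_one] at this
  rw [numP, eval_mul, this]
  simp

lemma natDegree_numP (M : ℕ) : (numP M).natDegree ≤ 3 * M := by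
  rcases M with _ | M
  · simp [numP]
  · rw [numP]
    refine natDegree_mul_le.trans ?_
    have h1 : ((X + 1 : ℂ[X]) ^ 3).natDegree ≤ 3 := by compute_degree
    have h2 := natDegree_yc M 1
    rw [C_1] at h2
    omega

/-- the residues of the convergent -/
noncomputable def rr (M : ℕ) (p : Fin M × Fin 3) : ℂ :=
  (xi M p + 1) ^ 3 * yc M (xi M p + 1) / (derivative (ycP (M + 1))).eval (xi M p)

/-- the value of the convergent at infinity -/
noncomputable def al (M : ℕ) : ℂ := (numP M).coeff (3 * M) / lcY M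

/-- **Partial fraction of the convergent.** -/
theorem pf (M : ℕ) {z : ℂ} (hz : yc (M + 1) z ≠ 0) :
    (z + 1) ^ 3 * yc M (z + 1) / yc (M + 1) z = al M + ∑ p : Fin M × Fin 3, rr M p / (z - xi M p) := by
  classical
  set G : ℂ[X] := numP M - C (al M) * ycP (M + 1) with hG
  have hdeg : G.degree < (univ : Finset (Fin M × Fin 3)).card := by
    rw [Finset.card_univ, Fintype.card_prod, Fintype.card_fin, Fintype.card_fin]
    rw [show M * 3 = 3 * M by ring, degree_lt_iff_coeff_zero]
    intro m hm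
    rcases Nat.eq_or_lt_of_le hm with h | h
    · rw [← h, hG, coeff_sub, coeff_C_mul, al]
      have : (ycP (M + 1)).coeff (3 * M) = lcY M := by
        rw [lcY, leadingCoeff, natDegree_ycP_eq]
      rw [this, div_mul_cancel₀ _ (lcY_ne M), sub_self]
    · apply coeff_eq_zero_of_natDegree_lt
      refine lt_of_le_of_lt (natDegree_sub_le _ _) (max_lt ?_ ?_)
      · exact (natDegree_numP M).trans_lt h
      · refine lt_of_le_of_lt (natDegree_C_mul_le _ _) ?_
        exact (natDegree_ycP M).trans_lt h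
  have hinj : Set.InjOn (xi M) ((univ : Finset (Fin M × Fin 3)) : Set (Fin M × Fin 3)) :=
    fun a _ b _ hab => xi_inj M hab
  have hinterp := Lagrange.eq_interpolate hinj hdeg
  have hx : ∀ p ∈ (univ : Finset (Fin M × Fin 3)), z ≠ xi M p := by
    intro p _ h
    exact hz (h ▸ xi_root M p)
  have hev : G.eval z = ∑ p : Fin M × Fin 3, (numP M).eval (xi M p) *
      (∏ q ∈ univ.erase p, (xi M p - xi M q))⁻¹ * ((∏ q : Fin M × Fin 3, (z - xi M q)) / (z - xi M p)) := by
    rw [hinterp, Lagrange.eval_interpolate_not_at_node _ hx, Finset.mul_sum]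
    refine Finset.sum_congr rfl fun p _ => ?_
    rw [Lagrange.eval_nodal, Lagrange.nodalWeight, Finset.prod_inv_distrib]
    have : G.eval (xi M p) = (numP M).eval (xi M p) := by
      rw [hG, eval_sub, eval_mul, eval_C, eval_ycP, xi_root, mul_zero, sub_zero]
    rw [this, div_eq_mul_inv]
    ring
  have hY := yc_eq_prod M z
  have hprod : ∏ q : Fin M × Fin 3, (z - xi M q) ≠ 0 := by
    intro h0
    rw [h0, mul_zero] at hY
    exact hz hY
  have hGz : G.eval z = (z + 1) ^ 3 * yc M (z + 1) - al M * yc (M + 1) z := by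
    rw [hG, eval_sub, eval_mul, eval_C, eval_numP, eval_ycP]
  rw [div_eq_iff hz, add_mul, Finset.sum_mul, ← sub_eq_iff_eq_add', ← hGz, hev]
  refine Finset.sum_congr rfl fun p _ => ?_
  rw [rr, deriv_eq, eval_numP, hY]
  have h1 : z - xi M p ≠ 0 := sub_ne_zero.2 (hx p (mem_univ p))
  have h2 : ∏ q ∈ univ.erase p, (xi M p - xi M q) ≠ 0 := by
    rw [Finset.prod_ne_zero_iff]
    intro q hq h
    rw [Finset.mem_erase] at hq
    exact hq.1 (xi_inj M (sub_eq_zero.1 h).symm)
  have h3 := lcY_ne M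
  field_simp

end Pool.Agent.QS2
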