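import Pool.Agent.QS2.Res
import Pool.Agent.QS2.Roots

/-!
The residue bound for the residues `rr M p` of the convergents.
-/

set_option autoImplicit false

namespace Pool.Agent.QS2

open Polynomial Finset

/-- two discs: an approximate coincidence forces equality of the indices -/
lemma idx_eq {M : ℕ} {p q : Fin M × Fin 3} {z : ℂ}
    (hp : ‖z + (p.1 + 1) - cen p.2‖ ≤ 1 / 10) (hq : ‖z + (q.1 + 1) - cen q.2‖ < 1 / 10) : p = q := by
  have key : ‖((p.1 : ℕ) : ℂ) - ((q.1 : ℕ) : ℂ) - (cen p.2 - cen q.2)‖ < 1 / 5 := by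
    have := norm_sub_le (z + (p.1 + 1) - cen p.2) (z + (q.1 + 1) - cen q.2)
    rw [show z + (((p.1 : ℕ) : ℂ) + 1) - cen p.2 - (z + (((q.1 : ℕ) : ℂ) + 1) - cen q.2) =
      ((p.1 : ℕ) : ℂ) - ((q.1 : ℕ) : ℂ) - (cen p.2 - cen q.2) by ring] at this
    linarith
  have hre := (Complex.abs_re_le_norm _).trans_lt key
  have him := (Complex.abs_im_le_norm _).trans_lt key
  simp only [Complex.sub_re, Complex.natCast_re, cen_re, sub_self, sub_zero, Complex.sub_im,
    Complex.natCast_im, zero_sub, abs_neg] at hre him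
  have h2 : p.2 = q.2 := by
    by_contra hne
    have := cen_im_sep hne
    linarith
  have h1 : p.1 = q.1 := by
    have : |(((p.1 : ℕ) : ℤ) - ((q.1 : ℕ) : ℤ))| < 1 := by
      have : |(((p.1 : ℕ) : ℝ) - ((q.1 : ℕ) : ℝ))| < 1 := by linarith
      exact_mod_cast this
    rw [Int.abs_lt_one_iff] at this
    apply Fin.ext
    omega
  exact Prod.ext h1 h2

/-- the root in the closed disc `p` is `xi M p` -/
lemma xi_unique_disc (M : ℕ) (p : Fin M × Fin 3) {z : ℂ} (h : yc (M + 1) z = 0)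
    (hz : ‖z + (p.1 + 1) - cen p.2‖ ≤ 1 / 10) : z = xi M p := by
  obtain ⟨q, rfl⟩ := xi_unique M h
  rw [idx_eq hz (xi_near M q)]

/-- **Bound of the residues.** -/
theorem res_rr : ∃ K0 : ℝ, 0 < K0 ∧ ∀ (M : ℕ) (p : Fin M × Fin 3),
    ‖rr M p‖ ≤ K0 * Real.exp (-7 * (((p.1 : ℕ) : ℝ) + 1)) := by
  obtain ⟨K0, hK, h⟩ := res_bound
  refine ⟨K0, hK, ?_⟩
  intro M p
  have hM : (p.1 : ℕ) + (M - 1 - p.1) + 1 = M := by
    have := p.1.2
    omega
  have hfac : ∀ w : ℂ, yc (M + 1) (w - (p.1 + 1)) = (w - (xi M p + (p.1 + 1))) *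
      (lcY M * ∏ q ∈ univ.erase p, (w - (p.1 + 1) - xi M q)) := by
    intro w
    rw [yc_eq_prod, ← Finset.mul_prod_erase univ _ (mem_univ p)]
    ring
  have key := h p.1 (M - 1 - p.1) p.2 (xi M p + (p.1 + 1))
    (fun w => lcY M * ∏ q ∈ univ.erase p, (w - (p.1 + 1) - xi M q)) (xi_near M p)
    (Differentiable.diffContOnCl (by fun_prop)) (by
      intro w hw
      refine mul_ne_zero (lcY_ne M) (Finset.prod_ne_zero_iff.2 ?_)
      intro q hq h0
      rw [Finset.mem_erase] at hq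
      apply hq.1
      symm
      refine idx_eq (z := xi M q) ?_ (xi_near M q)
      have e : xi M q + (p.1 + 1) = w := by linear_combination -h0
      rw [e]
      exact hw) (by
      intro w _
      rw [show (p.1 : ℕ) + (M - 1 - p.1) + 2 = M + 1 by omega]
      exact hfac w)
  have e1 : xi M p + (((p.1 : ℕ) : ℂ) + 1) - ((p.1 : ℕ) : ℂ) = xi M p + 1 := by ring
  have e2 : lcY M * ∏ q ∈ univ.erase p, (xi M p + (((p.1 : ℕ) : ℂ) + 1) - (((p.1 : ℕ) : ℂ) + 1) -
      xi M q) = (derivative (ycP (M + 1))).eval (xi M p) := by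
    rw [deriv_eq]
    congr 1
    refine Finset.prod_congr rfl fun q _ => ?_
    ring
  rw [hM, e1, e2] at key
  exact key

end Pool.Agent.QS2
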