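import Pool.Agent.QS2.RatSeries
import Pool.Agent.QS2.Particles
import Pool.Agent.QS2.ResRR
import Pool.Agent.QS2.EnMain

/-!
# The bound for the Hankel determinant of `Lam` (particles: poles and left nodes)
-/

set_option autoImplicit false

namespace Pool.Agent.QS2

open Finset Filter Topology Polynomial
open _root_.QS2 (Nd nodeZ IsFormal)
open Pool.QS2E (Gk lamE nu)

theorem particles_bound' {N : ℕ} {P : Type*} [Fintype P] (z : Fin N → ℂ)
    (hz : Function.Injective z) (h : ℕ → ℂ) (ξ a : ℕ → P → ℂ) (E : ℕ → ℂ[X] →ₗ[ℂ] ℂ)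
    (hlim : ∀ m, Tendsto (fun M => ∑ k, a M k * ξ M k ^ m + E M (X ^ m)) atTop (𝓝 (h m)))
    (w : P → ℝ) (hw : ∀ k, 0 < w k) (lam : ℝ)
    (hb : ∀ᶠ M in atTop, ∀ k i j, ‖a M k‖ * ‖(phi z i * phi z j).eval (ξ M k)‖ ≤ w k)
    (hE : ∀ᶠ M in atTop, ∀ i j, ‖E M (phi z i * phi z j)‖ ≤ Real.exp lam) :
    ‖(Matrix.of fun i j : Fin N => h ((i : ℕ) + (j : ℕ))).det‖ * VN z ^ 2 ≤
      (N.factorial : ℝ) * ((Fintype.card P : ℝ) + 1) ^ N *
        Real.exp (N * lam + ∑ k, max (Real.log (w k) - lam) 0) := by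
  set e := Fintype.equivFin P with he
  have h1 := particles_bound z hz h (fun M k => ξ M (e.symm k)) (fun M k => a M (e.symm k)) E
    (by
      intro m
      refine (hlim m).congr (fun M => ?_)
      congr 1
      exact (e.symm.sum_comp (fun k => a M k * ξ M k ^ m)).symm)
    (fun k => w (e.symm k)) (fun k => hw _) lam
    (by
      filter_upwards [hb] with M hM k i j
      exact hM _ i j) hE
  rw [e.symm.sum_comp (fun k => max (Real.log (w k) - lam) 0)] at h1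
  exact h1

/-- convergents -/
noncomputable def rM (M : ℕ) (z : ℂ) : ℂ := (z + 1) ^ 3 * yc M (z + 1) / yc (M + 1) z

section nodes

/-- the nodes as complex numbers -/
noncomputable def nd (A : ℕ) (a : Nd A) : ℂ := ((nodeZ A a : ℤ) : ℂ)

theorem nd_inl (A : ℕ) (i : Fin A) : nd A (Sum.inl i) = (((i : ℕ) + 1 : ℕ) : ℂ) := by
  unfold nd nodeZ
  push_cast
  rfl

theorem nd_inr (A : ℕ) (i : Fin A) : nd A (Sum.inr i) = -(((i : ℕ) + 3 : ℕ) : ℂ) := by
  unfold nd nodeZ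
  push_cast
  ring

theorem nd_injective (A : ℕ) : Function.Injective (nd A) := by
  intro a b h
  unfold nd at h
  have h1 : nodeZ A a = nodeZ A b := by exact_mod_cast h
  rcases a with i | i <;> rcases b with j | j <;> simp only [nodeZ] at h1
  · congr 1; apply Fin.ext; omega
  · omega
  · omega
  · congr 1; apply Fin.ext; omega

theorem prod_fin_Ioc (F : ℕ → ℝ) (A : ℕ) :
    ∏ i : Fin A, F ((i : ℕ) + 1) = ∏ m ∈ Ioc 0 A, F m := by
  rw [Fin.prod_univ_eq_prod_range (fun i => F (i + 1)) A]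
  induction A with
  | zero => simp
  | succ A ih => rw [prod_range_succ, ih, prod_Ioc_succ_top (Nat.zero_le A)]

theorem prod_fin_Ioc2 (F : ℕ → ℝ) (A : ℕ) :
    ∏ i : Fin A, F ((i : ℕ) + 3) = ∏ m ∈ Ioc 2 (A + 2), F m := by
  rw [Fin.prod_univ_eq_prod_range (fun i => F (i + 3)) A]
  induction A with
  | zero => simp
  | succ A ih =>
    rw [prod_range_succ, ih, show A + 1 + 2 = A + 2 + 1 by ring,
      prod_Ioc_succ_top (by omega : 2 ≤ A + 2)]

theorem node_prod {A S : ℕ} (g : Fin S ≃ Nd A) (ξ : ℂ) :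
    ∏ s, ‖ξ - nd A (g s)‖ =
      (∏ m ∈ Ioc 0 A, ‖(m : ℂ) - ξ‖) * ∏ j ∈ Ioc 2 (A + 2), ‖(-(j : ℂ)) - ξ‖ := by
  rw [g.prod_comp (fun a => ‖ξ - nd A a‖), Fintype.prod_sum_type,
    ← prod_fin_Ioc (fun m => ‖(m : ℂ) - ξ‖) A, ← prod_fin_Ioc2 (fun m => ‖(-(m : ℂ)) - ξ‖) A]
  congr 1
  · refine prod_congr rfl (fun i _ => ?_)
    rw [nd_inl, norm_sub_rev]
  · refine prod_congr rfl (fun i _ => ?_)
    rw [nd_inr, norm_sub_rev]

theorem node_prod_erase {A S : ℕ} (g : Fin S ≃ Nd A) (i : Fin A) :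
    ‖dPi (fun s => nd A (g s)) (g.symm (Sum.inr i))‖ =
      (∏ m ∈ Ioc 0 A, ‖(m : ℂ) - (-(((i : ℕ) + 3 : ℕ) : ℂ))‖) *
        ∏ j ∈ (Ioc 2 (A + 2)).erase ((i : ℕ) + 3), ‖(-(j : ℂ)) - (-(((i : ℕ) + 3 : ℕ) : ℂ))‖ := by
  classical
  set k : ℕ := (i : ℕ) + 3 with hk
  set F : Nd A → ℝ := fun a => if a = Sum.inr i then 1 else ‖nd A a - nd A (Sum.inr i)‖ with hF
  have h1 : ‖dPi (fun s => nd A (g s)) (g.symm (Sum.inr i))‖ = ∏ s, F (g s) := by
    unfold dPi
    rw [norm_prod, ← prod_erase (s := univ) (f := fun s => F (g s)) (a := g.symm (Sum.inr i))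
      (by simp [hF])]
    refine prod_congr rfl (fun t ht => ?_)
    have hne : g t ≠ Sum.inr i := by
      intro h
      exact (mem_erase.mp ht).1 (by rw [← h, Equiv.symm_apply_apply])
    simp only [hF, if_neg hne]
    rw [Equiv.apply_symm_apply, norm_sub_rev]
  rw [h1, g.prod_comp F, Fintype.prod_sum_type]
  congr 1
  · rw [← prod_fin_Ioc (fun m => ‖(m : ℂ) - (-(k : ℂ))‖) A]
    refine prod_congr rfl (fun j _ => ?_)
    simp only [hF]
    rw [if_neg (by simp), nd_inl, nd_inr]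
  · set G : ℕ → ℝ := fun j => if j = k then 1 else ‖(-(j : ℂ)) - (-(k : ℂ))‖ with hG
    have h2 : ∏ j ∈ (Ioc 2 (A + 2)).erase k, ‖(-(j : ℂ)) - (-(k : ℂ))‖ = ∏ j ∈ Ioc 2 (A + 2), G j := by
      rw [← prod_erase (s := Ioc 2 (A + 2)) (f := G) (a := k) (by simp [hG])]
      refine prod_congr rfl (fun j hj => ?_)
      simp only [hG]
      rw [if_neg (mem_erase.mp hj).1]
    rw [h2, ← prod_fin_Ioc2 G A]
    refine prod_congr rfl (fun j _ => ?_)
    simp only [hF, hG]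
    by_cases hji : j = i
    · subst hji
      simp [hk]
    · have h3 : (Sum.inr j : Nd A) ≠ Sum.inr i := by
        intro h
        exact hji (Sum.inr.inj h)
      have h4 : ((j : ℕ) + 3) ≠ k := by
        intro h
        exact hji (Fin.ext (by omega))
      rw [if_neg h3, if_neg h4, nd_inr, nd_inr]

end nodes

section poles

theorem xi_re {M : ℕ} (p : Fin M × Fin 3) :
    |(xi M p).re + (((p.1 : ℕ) + 1 : ℕ) : ℝ) + 1 / 2| ≤ 1 / 10 := by
  have h := xi_near M p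
  have h1 := (Complex.abs_re_le_norm _).trans h.le
  simp only [Complex.sub_re, Complex.add_re, Complex.natCast_re, Complex.one_re, cen_re] at h1
  push_cast
  rw [show (xi M p).re + ((p.1 : ℕ) + 1 : ℝ) + 1 / 2 =
    (xi M p).re + ((p.1 : ℕ) + 1) - -(1 / 2) by ring]
  exact h1

theorem xi_im {M : ℕ} (p : Fin M × Fin 3) : |(xi M p).im| ≤ 1 / 2 := by
  have h := xi_near M p
  have h1 := (Complex.abs_im_le_norm _).trans h.le
  simp only [Complex.sub_im, Complex.add_im, Complex.natCast_im, Complex.one_im, add_zero] at h1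
  have h2 := cen_im_le p.2
  have h3 : |(xi M p).im| ≤ |(xi M p).im - (cen p.2).im| + |(cen p.2).im| := by
    have := abs_add_le ((xi M p).im - (cen p.2).im) ((cen p.2).im)
    rwa [sub_add_cancel] at this
  linarith

theorem xi_ne_int {M : ℕ} (p : Fin M × Fin 3) (m : ℤ) : xi M p ≠ (m : ℂ) := by
  intro h
  have h1 := xi_re p
  rw [h, Complex.intCast_re] at h1
  have h2 := abs_le.mp h1
  have e1 : -(6 / 10 : ℝ) ≤ ((m + ((p.1 : ℕ) + 1 : ℕ) : ℤ) : ℝ) := by push_cast; push_cast at h2; linarith [h2.1]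
  have e2 : ((m + ((p.1 : ℕ) + 1 : ℕ) : ℤ) : ℝ) ≤ -(4 / 10 : ℝ) := by push_cast; push_cast at h2; linarith [h2.2]
  have e3 : (-1 : ℤ) < m + ((p.1 : ℕ) + 1 : ℕ) := by
    have : ((-1 : ℤ) : ℝ) < ((m + ((p.1 : ℕ) + 1 : ℕ) : ℤ) : ℝ) := by push_cast; push_cast at e1; linarith
    exact_mod_cast this
  have e4 : m + ((p.1 : ℕ) + 1 : ℕ) < (0 : ℤ) := by
    have : ((m + ((p.1 : ℕ) + 1 : ℕ) : ℤ) : ℝ) < ((0 : ℤ) : ℝ) := by push_cast; push_cast at e2; linarith
    exact_mod_cast this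
  omega

/-- `Lam` of the convergent -/
theorem Lam_VM {A : ℕ} (hA : 0 < A) (g : Fin (2 * A) ≃ Nd A) (ρ : Nd A → ℂ) (M : ℕ)
    (hY : ∀ a : Nd A, yc (M + 1) (nd A a) ≠ 0) (m : ℕ) :
    Lam (fun s => nd A (g s)) (fun s => ρ (g s)) (VM M) m =
      ∑ p : Fin M × Fin 3, (- rr M p / ∏ s, (xi M p - nd A (g s))) * xi M p ^ m +
        ∑ a : Nd A, ((ρ a - rM M (nd A a)) / dPi (fun s => nd A (g s)) (g.symm a)) * nd A a ^ m := by
  unfold VM
  rw [Lam_rational (fun s => nd A (g s)) (fun s => ρ (g s))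
    (fun a b h => g.injective (nd_injective A h)) (by omega) (al M) (xi M) (rr M)
    (fun j s => xi_ne_int j _) m]
  congr 1
  rw [← g.sum_comp (fun a => ((ρ a - rM M (nd A a)) / dPi (fun s => nd A (g s)) (g.symm a)) *
    nd A a ^ m)]
  refine sum_congr rfl (fun s _ => ?_)
  rw [Equiv.symm_apply_apply]
  unfold rM
  rw [pf M (hY (g s))]

end poles

end Pool.Agent.QS2
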