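import Pool.Agent.QS2.Elim

/-!
# `Lam` for the series of a rational function with simple poles
-/

namespace Pool.Agent.QS2

open Finset Matrix Polynomial

variable {k : Type*} [Field k] {S : ℕ}

theorem sum_inv_dPi (x : Fin S → k) (hx : Function.Injective x) (hS : 0 < S) (y : k)
    (hy : ∀ s, y ≠ x s) : ∑ s, (x s - y)⁻¹ / dPi x s = - (∏ s, (y - x s))⁻¹ := by
  have hne : (univ : Finset (Fin S)).Nonempty := ⟨⟨0, hS⟩, mem_univ _⟩
  have h := Lagrange.sum_basis (s := univ) (v := x) hx.injOn hne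
  have h2 := congrArg (Polynomial.eval y) h
  rw [eval_finsetSum, eval_one] at h2
  have hP : ∏ s, (y - x s) ≠ 0 := prod_ne_zero_iff.mpr (fun s _ => sub_ne_zero.mpr (hy s))
  have h3 : ∀ s, (Lagrange.basis univ x s).eval y =
      - ((x s - y)⁻¹ / dPi x s) * ∏ t, (y - x t) := by
    intro s
    have e1 : (Lagrange.basis univ x s).eval y = (∏ t ∈ univ.erase s, (y - x t)) / dPi x s := by
      unfold Lagrange.basis dPi
      rw [eval_prod, ← prod_div_distrib]
      refine prod_congr rfl (fun t ht => ?_)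
      have hst : x s - x t ≠ 0 := sub_ne_zero.mpr (fun h => (mem_erase.mp ht).1 (hx h).symm)
      unfold Lagrange.basisDivisor
      simp only [eval_mul, eval_C, eval_sub, eval_X]
      field_simp
    have hys : y - x s ≠ 0 := sub_ne_zero.mpr (hy s)
    have hsy : x s - y ≠ 0 := sub_ne_zero.mpr (hy s).symm
    have hd := dPi_ne x hx s
    rw [e1, ← mul_prod_erase univ (fun t => y - x t) (mem_univ s)]
    field_simp
    ring
  rw [sum_congr rfl (fun s _ => h3 s), ← sum_mul] at h2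
  have h4 : (∑ s, -((x s - y)⁻¹ / dPi x s)) = (∏ s, (y - x s))⁻¹ :=
    eq_inv_of_mul_eq_one_left h2
  rw [← h4, ← sum_neg_distrib]
  exact sum_congr rfl (fun s _ => (neg_neg _).symm)

/-- coefficients of `al + ∑ res/(w - ξ)` in `1/w` -/
def ratSer {J : Type*} [Fintype J] (al : k) (ξ res : J → k) (a : ℕ) : k :=
  if a = 0 then al else ∑ j, res j * ξ j ^ (a - 1)

/-- **`Lam` of a rational function.** -/
theorem Lam_rational (x ρ : Fin S → k) (hx : Function.Injective x) (hS : 0 < S) (al : k)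
    {J : Type*} [Fintype J] (ξ res : J → k) (hξ : ∀ j s, ξ j ≠ x s) (m : ℕ) :
    Lam x ρ (ratSer al ξ res) m =
      ∑ j, (- res j / ∏ s, (ξ j - x s)) * ξ j ^ m +
        ∑ s, ((ρ s - (al + ∑ j, res j / (x s - ξ j))) / dPi x s) * x s ^ m := by
  have h1 : ∀ s, ∑ a ∈ range (m + 1), ratSer al ξ res a * x s ^ (m - a) =
      al * x s ^ m + ∑ j, res j * ((x s ^ m - ξ j ^ m) / (x s - ξ j)) := by
    intro s
    have h0 : ratSer al ξ res 0 * x s ^ (m - 0) = al * x s ^ m := by simp [ratSer]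
    rw [sum_range_succ', h0, add_comm]
    congr 1
    · have h2 : ∀ a ∈ range m, ratSer al ξ res (a + 1) * x s ^ (m - (a + 1)) =
          ∑ j, res j * (ξ j ^ a * x s ^ (m - 1 - a)) := by
        intro a _
        unfold ratSer
        rw [if_neg (Nat.succ_ne_zero a), Nat.add_sub_cancel, sum_mul]
        refine sum_congr rfl (fun j _ => ?_)
        have : m - (a + 1) = m - 1 - a := by omega
        rw [this, mul_assoc]
      rw [sum_congr rfl h2, sum_comm]
      refine sum_congr rfl (fun j _ => ?_)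
      rw [← mul_sum]
      congr 1
      have hne : x s - ξ j ≠ 0 := sub_ne_zero.mpr (hξ j s).symm
      rw [eq_div_iff hne]
      have h3 := (Commute.all (ξ j) (x s)).geom_sum₂_mul m
      have h4 : ∑ a ∈ range m, ξ j ^ a * x s ^ (m - 1 - a) = ∑ i ∈ range m, ξ j ^ i * x s ^ (m - 1 - i) := rfl
      have : (∑ a ∈ range m, ξ j ^ a * x s ^ (m - 1 - a)) * (ξ j - x s) = ξ j ^ m - x s ^ m := h3
      calc (∑ a ∈ range m, ξ j ^ a * x s ^ (m - 1 - a)) * (x s - ξ j)
          = -((∑ a ∈ range m, ξ j ^ a * x s ^ (m - 1 - a)) * (ξ j - x s)) := by ring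
        _ = x s ^ m - ξ j ^ m := by rw [this]; ring
  unfold Lam
  have h5 : ∀ s, (x s ^ m * ρ s - ∑ a ∈ range (m + 1), ratSer al ξ res a * x s ^ (m - a)) / dPi x s =
      ((ρ s - (al + ∑ j, res j / (x s - ξ j))) / dPi x s) * x s ^ m +
        ∑ j, res j * ξ j ^ m * ((x s - ξ j)⁻¹ / dPi x s) := by
    intro s
    rw [h1 s]
    have h6 : ∑ j, res j * ((x s ^ m - ξ j ^ m) / (x s - ξ j)) =
        (∑ j, res j / (x s - ξ j)) * x s ^ m - ∑ j, res j * ξ j ^ m * (x s - ξ j)⁻¹ := by
      rw [sum_mul, ← sum_sub_distrib]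
      exact sum_congr rfl (fun j _ => by rw [div_eq_mul_inv, div_eq_mul_inv]; ring)
    have h7 : ∑ j, res j * ξ j ^ m * ((x s - ξ j)⁻¹ / dPi x s) =
        (∑ j, res j * ξ j ^ m * (x s - ξ j)⁻¹) / dPi x s := by
      rw [sum_div]
      exact sum_congr rfl (fun j _ => by ring)
    rw [h6, h7]
    ring
  rw [sum_congr rfl (fun s _ => h5 s), sum_add_distrib, add_comm]
  congr 1
  rw [sum_comm]
  refine sum_congr rfl (fun j _ => ?_)
  rw [← mul_sum, sum_inv_dPi x hx hS (ξ j) (hξ j)]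
  rw [div_eq_mul_inv]
  ring

end Pool.Agent.QS2
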