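import Mathlib

/-! Rational bounds for the logarithms of small primes (used by the energy certificate of QS2). -/

namespace Pool.QS2E

open Finset

/-- two-sided bound for `log ((1+y)/(1-y))` -/
theorem log_ratio_bd {y : ℝ} (h0 : 0 ≤ y) (h1 : y < 1) :
    2 * (y + y ^ 3 / 3 + y ^ 5 / 5) ≤ Real.log (1 + y) - Real.log (1 - y) ∧
    Real.log (1 + y) - Real.log (1 - y) ≤
      2 * (y + y ^ 3 / 3 + y ^ 5 / 5) + 2 / 7 * y ^ 7 / (1 - y ^ 2) := by
  have hy : |y| < 1 := by rwa [abs_of_nonneg h0]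
  have h := Real.hasSum_log_sub_log_of_abs_lt_one hy
  have h3 := (hasSum_nat_add_iff' 3).mpr h
  have hs : ∑ i ∈ range 3, (2 : ℝ) * (1 / (2 * (i : ℝ) + 1)) * y ^ (2 * i + 1) =
      2 * (y + y ^ 3 / 3 + y ^ 5 / 5) := by
    simp only [sum_range_succ, sum_range_zero]
    norm_num
    ring
  rw [hs] at h3
  have h4 : 0 ≤ Real.log (1 + y) - Real.log (1 - y) - 2 * (y + y ^ 3 / 3 + y ^ 5 / 5) :=
    h3.nonneg (fun i => by positivity)
  have hy2 : y ^ 2 < 1 := by nlinarith
  have hg : HasSum (fun k : ℕ => 2 / 7 * y ^ 7 * (y ^ 2) ^ k) (2 / 7 * y ^ 7 * (1 - y ^ 2)⁻¹) :=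
    (hasSum_geometric_of_lt_one (by positivity) hy2).mul_left _
  have h5 := hasSum_le (f := fun n : ℕ => (2 : ℝ) * (1 / (2 * ((n + 3 : ℕ) : ℝ) + 1)) * y ^ (2 * (n + 3) + 1))
    (fun n => by
      have e : y ^ (2 * (n + 3) + 1) = y ^ 7 * (y ^ 2) ^ n := by
        rw [← pow_mul, ← pow_add]; congr 1; ring
      change (2 : ℝ) * (1 / (2 * ((n + 3 : ℕ) : ℝ) + 1)) * y ^ (2 * (n + 3) + 1) ≤ 2 / 7 * y ^ 7 * (y ^ 2) ^ n
      rw [e]
      have h6 : (1 : ℝ) / (2 * ((n + 3 : ℕ) : ℝ) + 1) ≤ 1 / 7 := by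
        apply one_div_le_one_div_of_le (by norm_num)
        push_cast
        have : (0 : ℝ) ≤ n := Nat.cast_nonneg n
        linarith
      have h7 : 0 ≤ y ^ 7 * (y ^ 2) ^ n := by positivity
      nlinarith) h3 hg
  have e2 : 2 / 7 * y ^ 7 * (1 - y ^ 2)⁻¹ = 2 / 7 * y ^ 7 / (1 - y ^ 2) :=
    (div_eq_mul_inv _ _).symm
  rw [e2] at h5
  constructor <;> linarith

/-- bound for `log a - log b`, `y = (a-b)/(a+b)` -/
theorem log_sub_bd (a b : ℝ) (hb : 0 < b) (hab : b ≤ a) (y : ℝ) (hy : y * (a + b) = a - b) :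
    2 * (y + y ^ 3 / 3 + y ^ 5 / 5) ≤ Real.log a - Real.log b ∧
    Real.log a - Real.log b ≤
      2 * (y + y ^ 3 / 3 + y ^ 5 / 5) + 2 / 7 * y ^ 7 / (1 - y ^ 2) := by
  have hs : 0 < a + b := by linarith
  have h0 : 0 ≤ y := by
    by_contra hc
    have : y * (a + b) < 0 := mul_neg_of_neg_of_pos (not_le.mp hc) hs
    linarith
  have h1 : y < 1 := by
    by_contra hc
    have : 1 * (a + b) ≤ y * (a + b) := mul_le_mul_of_nonneg_right (not_lt.mp hc) hs.le
    linarith
  have ha : a = (1 + y) * ((a + b) / 2) := by linarith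
  have hb' : b = (1 - y) * ((a + b) / 2) := by linarith
  have e : Real.log a - Real.log b = Real.log (1 + y) - Real.log (1 - y) := by
    have e1 : Real.log a = Real.log (1 + y) + Real.log ((a + b) / 2) := by
      conv_lhs => rw [ha]
      rw [Real.log_mul (by linarith) (by linarith)]
    have e2 : Real.log b = Real.log (1 - y) + Real.log ((a + b) / 2) := by
      conv_lhs => rw [hb']
      rw [Real.log_mul (by linarith) (by linarith)]
    rw [e1, e2]; ring
  rw [e]
  exact log_ratio_bd h0 h1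

theorem log2_bd : 0.69314718 < Real.log 2 ∧ Real.log 2 < 0.69314719 :=
  ⟨by linarith [Real.log_two_gt_d9], by linarith [Real.log_two_lt_d9]⟩

theorem log4_eq : Real.log 4 = 2 * Real.log 2 := by
  rw [show (4:ℝ) = 2 ^ 2 by norm_num, Real.log_pow]; push_cast; ring

theorem log8_eq : Real.log 8 = 3 * Real.log 2 := by
  rw [show (8:ℝ) = 2 ^ 3 by norm_num, Real.log_pow]; push_cast; ring

theorem log3_bd : 1.0986084 < Real.log 3 ∧ Real.log 3 < 1.0986125 := by
  have h := log_sub_bd 3 2 (by norm_num) (by norm_num) (1 / 5) (by norm_num)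
  have h2 := log2_bd
  norm_num at h
  constructor <;> linarith [h.1, h.2, h2.1, h2.2]

theorem log5_bd : 1.6094377 < Real.log 5 ∧ Real.log 5 < 1.6094381 := by
  have h := log_sub_bd 5 4 (by norm_num) (by norm_num) (1 / 9) (by norm_num)
  have h2 := log2_bd
  rw [log4_eq] at h
  norm_num at h
  constructor <;> linarith [h.1, h.2, h2.1, h2.2]

theorem log7_bd : 1.9459100 < Real.log 7 ∧ Real.log 7 < 1.9459103 := by
  have h := log_sub_bd 8 7 (by norm_num) (by norm_num) (1 / 15) (by norm_num)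
  have h2 := log2_bd
  rw [log8_eq] at h
  norm_num at h
  constructor <;> linarith [h.1, h.2, h2.1, h2.2]

theorem log10_eq : Real.log 10 = Real.log 2 + Real.log 5 := by
  rw [show (10:ℝ) = 2 * 5 by norm_num, Real.log_mul (by norm_num) (by norm_num)]

theorem log11_bd : 2.3978949 < Real.log 11 ∧ Real.log 11 < 2.3978956 := by
  have h := log_sub_bd 11 10 (by norm_num) (by norm_num) (1 / 21) (by norm_num)
  have h2 := log2_bd
  have h5 := log5_bd
  rw [log10_eq] at h
  norm_num at h
  constructor <;> linarith [h.1, h.2, h2.1, h2.2, h5.1, h5.2]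

theorem log12_eq : Real.log 12 = 2 * Real.log 2 + Real.log 3 := by
  rw [show (12:ℝ) = 2 ^ 2 * 3 by norm_num, Real.log_mul (by norm_num) (by norm_num)]
  simp only [Real.log_pow]
  push_cast; ring

theorem log13_bd : 2.5649453 < Real.log 13 ∧ Real.log 13 < 2.5649497 := by
  have h := log_sub_bd 13 12 (by norm_num) (by norm_num) (1 / 25) (by norm_num)
  have h2 := log2_bd
  have h3 := log3_bd
  rw [log12_eq] at h
  norm_num at h
  constructor <;> linarith [h.1, h.2, h2.1, h2.2, h3.1, h3.2]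

theorem log16_eq : Real.log 16 = 4 * Real.log 2 := by
  rw [show (16:ℝ) = 2 ^ 4 by norm_num]
  simp only [Real.log_pow]
  push_cast; ring

theorem log17_bd : 2.8332132 < Real.log 17 ∧ Real.log 17 < 2.8332135 := by
  have h := log_sub_bd 17 16 (by norm_num) (by norm_num) (1 / 33) (by norm_num)
  have h2 := log2_bd
  rw [log16_eq] at h
  norm_num at h
  constructor <;> linarith [h.1, h.2, h2.1, h2.2]

theorem log18_eq : Real.log 18 = Real.log 2 + 2 * Real.log 3 := by
  rw [show (18:ℝ) = 2 * 3 ^ 2 by norm_num, Real.log_mul (by norm_num) (by norm_num)]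
  simp only [Real.log_pow]
  push_cast; ring

theorem log19_bd : 2.9444311 < Real.log 19 ∧ Real.log 19 < 2.9444396 := by
  have h := log_sub_bd 19 18 (by norm_num) (by norm_num) (1 / 37) (by norm_num)
  have h2 := log2_bd
  have h3 := log3_bd
  rw [log18_eq] at h
  norm_num at h
  constructor <;> linarith [h.1, h.2, h2.1, h2.2, h3.1, h3.2]

theorem log24_eq : Real.log 24 = 3 * Real.log 2 + Real.log 3 := by
  rw [show (24:ℝ) = 2 ^ 3 * 3 by norm_num, Real.log_mul (by norm_num) (by norm_num)]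
  simp only [Real.log_pow]
  push_cast; ring

theorem log23_bd : 3.1354902 < Real.log 23 ∧ Real.log 23 < 3.1354946 := by
  have h := log_sub_bd 24 23 (by norm_num) (by norm_num) (1 / 47) (by norm_num)
  have h2 := log2_bd
  have h3 := log3_bd
  rw [log24_eq] at h
  norm_num at h
  constructor <;> linarith [h.1, h.2, h2.1, h2.2, h3.1, h3.2]

theorem log28_eq : Real.log 28 = 2 * Real.log 2 + Real.log 7 := by
  rw [show (28:ℝ) = 2 ^ 2 * 7 by norm_num, Real.log_mul (by norm_num) (by norm_num)]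
  simp only [Real.log_pow]
  push_cast; ring

theorem log29_bd : 3.3672955 < Real.log 29 ∧ Real.log 29 < 3.3672961 := by
  have h := log_sub_bd 29 28 (by norm_num) (by norm_num) (1 / 57) (by norm_num)
  have h2 := log2_bd
  have h7 := log7_bd
  rw [log28_eq] at h
  norm_num at h
  constructor <;> linarith [h.1, h.2, h2.1, h2.2, h7.1, h7.2]

theorem log30_eq : Real.log 30 = Real.log 2 + Real.log 3 + Real.log 5 := by
  rw [show (30:ℝ) = 2 * 3 * 5 by norm_num, Real.log_mul (by norm_num) (by norm_num), Real.log_mul (by norm_num) (by norm_num)]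

theorem log31_bd : 3.4339830 < Real.log 31 ∧ Real.log 31 < 3.4339878 := by
  have h := log_sub_bd 31 30 (by norm_num) (by norm_num) (1 / 61) (by norm_num)
  have h2 := log2_bd
  have h3 := log3_bd
  have h5 := log5_bd
  rw [log30_eq] at h
  norm_num at h
  constructor <;> linarith [h.1, h.2, h2.1, h2.2, h3.1, h3.2, h5.1, h5.2]

theorem log36_eq : Real.log 36 = 2 * Real.log 2 + 2 * Real.log 3 := by
  rw [show (36:ℝ) = 2 ^ 2 * 3 ^ 2 by norm_num, Real.log_mul (by norm_num) (by norm_num)]
  simp only [Real.log_pow]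
  push_cast; ring

theorem log37_bd : 3.6109100 < Real.log 37 ∧ Real.log 37 < 3.6109185 := by
  have h := log_sub_bd 37 36 (by norm_num) (by norm_num) (1 / 73) (by norm_num)
  have h2 := log2_bd
  have h3 := log3_bd
  rw [log36_eq] at h
  norm_num at h
  constructor <;> linarith [h.1, h.2, h2.1, h2.2, h3.1, h3.2]

theorem log6_eq : Real.log 6 = Real.log 2 + Real.log 3 := by
  rw [show (6:ℝ) = 2 * 3 by norm_num, Real.log_mul (by norm_num) (by norm_num)]

theorem log9_eq : Real.log 9 = 2 * Real.log 3 := by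
  rw [show (9:ℝ) = 3 ^ 2 by norm_num]
  simp only [Real.log_pow]
  push_cast; ring

theorem log14_eq : Real.log 14 = Real.log 2 + Real.log 7 := by
  rw [show (14:ℝ) = 2 * 7 by norm_num, Real.log_mul (by norm_num) (by norm_num)]

theorem log15_eq : Real.log 15 = Real.log 3 + Real.log 5 := by
  rw [show (15:ℝ) = 3 * 5 by norm_num, Real.log_mul (by norm_num) (by norm_num)]

theorem log20_eq : Real.log 20 = 2 * Real.log 2 + Real.log 5 := by
  rw [show (20:ℝ) = 2 ^ 2 * 5 by norm_num, Real.log_mul (by norm_num) (by norm_num)]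
  simp only [Real.log_pow]
  push_cast; ring

theorem log21_eq : Real.log 21 = Real.log 3 + Real.log 7 := by
  rw [show (21:ℝ) = 3 * 7 by norm_num, Real.log_mul (by norm_num) (by norm_num)]

theorem log22_eq : Real.log 22 = Real.log 2 + Real.log 11 := by
  rw [show (22:ℝ) = 2 * 11 by norm_num, Real.log_mul (by norm_num) (by norm_num)]

theorem log25_eq : Real.log 25 = 2 * Real.log 5 := by
  rw [show (25:ℝ) = 5 ^ 2 by norm_num]
  simp only [Real.log_pow]
  push_cast; ring

theorem log26_eq : Real.log 26 = Real.log 2 + Real.log 13 := by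
  rw [show (26:ℝ) = 2 * 13 by norm_num, Real.log_mul (by norm_num) (by norm_num)]

theorem log27_eq : Real.log 27 = 3 * Real.log 3 := by
  rw [show (27:ℝ) = 3 ^ 3 by norm_num]
  simp only [Real.log_pow]
  push_cast; ring

theorem log32_eq : Real.log 32 = 5 * Real.log 2 := by
  rw [show (32:ℝ) = 2 ^ 5 by norm_num]
  simp only [Real.log_pow]
  push_cast; ring

theorem log33_eq : Real.log 33 = Real.log 3 + Real.log 11 := by
  rw [show (33:ℝ) = 3 * 11 by norm_num, Real.log_mul (by norm_num) (by norm_num)]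

theorem log34_eq : Real.log 34 = Real.log 2 + Real.log 17 := by
  rw [show (34:ℝ) = 2 * 17 by norm_num, Real.log_mul (by norm_num) (by norm_num)]

theorem log35_eq : Real.log 35 = Real.log 5 + Real.log 7 := by
  rw [show (35:ℝ) = 5 * 7 by norm_num, Real.log_mul (by norm_num) (by norm_num)]

theorem log38_eq : Real.log 38 = Real.log 2 + Real.log 19 := by
  rw [show (38:ℝ) = 2 * 19 by norm_num, Real.log_mul (by norm_num) (by norm_num)]

theorem log39_eq : Real.log 39 = Real.log 3 + Real.log 13 := by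
  rw [show (39:ℝ) = 3 * 13 by norm_num, Real.log_mul (by norm_num) (by norm_num)]

theorem log40_eq : Real.log 40 = 3 * Real.log 2 + Real.log 5 := by
  rw [show (40:ℝ) = 2 ^ 3 * 5 by norm_num, Real.log_mul (by norm_num) (by norm_num)]
  simp only [Real.log_pow]
  push_cast; ring

end Pool.QS2E
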