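import Mathlib

/-!
# Determinants of sums of low rank matrices

`det_sum_lowrank`: if `A k` has rank at most `c k` and entries bounded by `w k`, then
`|det (∑ k, A k)| ≤ N! * K ^ N * exp (N * lam + ∑ k, c k * max (log (w k) - lam) 0)` for all `lam`.
-/

namespace Pool.Agent.QS2

open Finset Matrix

/-- Leibniz bound with row weights -/
theorem norm_det_le_rows {N : ℕ} (A : Matrix (Fin N) (Fin N) ℂ) (w : Fin N → ℝ)
    (hA : ∀ i j, ‖A i j‖ ≤ w i) : ‖A.det‖ ≤ (N.factorial : ℝ) * ∏ i, w i := by
  rw [← Matrix.det_transpose, Matrix.det_apply]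
  refine (norm_sum_le _ _).trans ?_
  have h : ∀ σ ∈ (univ : Finset (Equiv.Perm (Fin N))),
      ‖Equiv.Perm.sign σ • ∏ i, Aᵀ (σ i) i‖ ≤ ∏ i, w i := by
    intro σ _
    have h1 : ‖Equiv.Perm.sign σ • ∏ i, Aᵀ (σ i) i‖ = ∏ i, ‖A i (σ i)‖ := by
      rw [Units.smul_def, zsmul_eq_mul, norm_mul, norm_prod]
      have : ‖((Equiv.Perm.sign σ : ℤ) : ℂ)‖ = 1 := by
        rcases Int.units_eq_one_or (Equiv.Perm.sign σ) with h | h <;> simp [h]
      rw [this, one_mul]
      rfl
    rw [h1]
    exact prod_le_prod (fun i _ => norm_nonneg _) (fun i _ => hA i _)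
  refine (sum_le_sum h).trans ?_
  rw [sum_const, card_univ, Fintype.card_perm, Fintype.card_fin, nsmul_eq_mul]

/-- more rows than the rank: the determinant vanishes -/
theorem det_eq_zero_of_rows {N : ℕ} (B A : Matrix (Fin N) (Fin N) ℂ) (s : Finset (Fin N))
    (hs : ∀ i ∈ s, B i = A i) (hc : A.rank < s.card) : B.det = 0 := by
  by_contra hdet
  have hu : IsUnit B := (Matrix.isUnit_iff_isUnit_det B).mpr (isUnit_iff_ne_zero.mpr hdet)
  have hli : LinearIndependent ℂ B.row := Matrix.linearIndependent_rows_iff_isUnit.mpr hu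
  have hli2 : LinearIndependent ℂ (fun i : s => A.row (i : Fin N)) := by
    have h := hli.comp (fun i : s => (i : Fin N)) Subtype.val_injective
    have e : (B.row ∘ fun i : s => (i : Fin N)) = fun i : s => A.row (i : Fin N) := by
      funext i
      exact hs i i.2
    rwa [e] at h
  have h1 := finrank_span_eq_card hli2
  have h2 : Submodule.span ℂ (Set.range fun i : s => A.row (i : Fin N)) ≤
      Submodule.span ℂ (Set.range A.row) := by
    apply Submodule.span_mono
    rintro _ ⟨i, rfl⟩
    exact ⟨i, rfl⟩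
  have h3 := Submodule.finrank_mono h2
  rw [h1, ← Matrix.rank_eq_finrank_span_row, Fintype.card_coe] at h3
  omega

/-- expansion of the determinant of a sum of matrices along the rows -/
theorem det_sum_expand {N : ℕ} {ι : Type*} [Fintype ι] [DecidableEq ι]
    (A : ι → Matrix (Fin N) (Fin N) ℂ) :
    (∑ k, A k).det = ∑ f : Fin N → ι, (Matrix.of fun i => A (f i) i).det := by
  have h := (Matrix.detRowAlternating (n := Fin N) (R := ℂ)).toMultilinearMap.map_sum
    (fun (i : Fin N) (k : ι) => A k i)
  have e : (∑ k, A k).det = (Matrix.detRowAlternating (n := Fin N) (R := ℂ)).toMultilinearMap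
      (fun i => ∑ k, A k i) := by
    change _ = Matrix.det _
    congr 1
    ext i j
    rw [Matrix.sum_apply, Finset.sum_apply]
  rw [e, h]
  rfl

/-- **Low rank sum lemma.** -/
theorem det_sum_lowrank {N : ℕ} {ι : Type*} [Fintype ι] [DecidableEq ι]
    (A : ι → Matrix (Fin N) (Fin N) ℂ) (c : ι → ℕ) (w : ι → ℝ) (hw : ∀ k, 0 < w k)
    (hr : ∀ k, (A k).rank ≤ c k) (hA : ∀ k i j, ‖A k i j‖ ≤ w k) (lam : ℝ) :
    ‖(∑ k, A k).det‖ ≤ (N.factorial : ℝ) * (Fintype.card ι : ℝ) ^ N *
      Real.exp (N * lam + ∑ k, (c k : ℝ) * max (Real.log (w k) - lam) 0) := by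
  rw [det_sum_expand]
  refine (norm_sum_le _ _).trans ?_
  have key : ∀ f ∈ (univ : Finset (Fin N → ι)),
      ‖(Matrix.of fun i => A (f i) i).det‖ ≤ (N.factorial : ℝ) *
        Real.exp (N * lam + ∑ k, (c k : ℝ) * max (Real.log (w k) - lam) 0) := by
    intro f _
    by_cases h : ∀ k, (univ.filter fun i => f i = k).card ≤ c k
    · have h1 := norm_det_le_rows (Matrix.of fun i => A (f i) i) (fun i => w (f i))
        (fun i j => hA (f i) i j)
      refine h1.trans ?_
      have h2 : ∏ i, w (f i) = Real.exp (∑ i, Real.log (w (f i))) := by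
        rw [Real.exp_sum]
        exact prod_congr rfl (fun i _ => (Real.exp_log (hw _)).symm)
      rw [h2]
      refine mul_le_mul_of_nonneg_left (Real.exp_le_exp.mpr ?_) (by positivity)
      have h3 : ∑ i, Real.log (w (f i)) ≤ ∑ i : Fin N, (lam + max (Real.log (w (f i)) - lam) 0) := by
        refine sum_le_sum (fun i _ => ?_)
        have := le_max_left (Real.log (w (f i)) - lam) 0
        linarith
      refine h3.trans ?_
      rw [sum_add_distrib, sum_const, card_univ, Fintype.card_fin, nsmul_eq_mul]
      have h4 : ∑ i : Fin N, max (Real.log (w (f i)) - lam) 0 =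
          ∑ k, ((univ.filter fun i => f i = k).card : ℝ) * max (Real.log (w k) - lam) 0 := by
        rw [← sum_fiberwise_of_maps_to (s := univ) (t := univ) (g := f) (fun i _ => mem_univ _)]
        refine sum_congr rfl (fun k _ => ?_)
        rw [← nsmul_eq_mul, ← sum_const]
        refine sum_congr rfl (fun i hi => ?_)
        rw [(mem_filter.mp hi).2]
      rw [h4]
      gcongr with k _
      exact h k
    · push Not at h
      obtain ⟨k, hk⟩ := h
      have h0 : (Matrix.of fun i => A (f i) i).det = 0 := by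
        refine det_eq_zero_of_rows _ (A k) (univ.filter fun i => f i = k) ?_
          (lt_of_le_of_lt (hr k) hk)
        intro i hi
        have : f i = k := (mem_filter.mp hi).2
        change A (f i) i = A k i
        rw [this]
      rw [h0, norm_zero]
      positivity
  refine (sum_le_sum key).trans ?_
  rw [sum_const, card_univ, Fintype.card_fun, Fintype.card_fin, nsmul_eq_mul]
  push_cast
  apply le_of_eq
  ring

/-- a matrix that factors through `Fin c` has rank at most `c` -/
theorem rank_le_of_factor {N c : ℕ} (U : Matrix (Fin N) (Fin c) ℂ) (V : Matrix (Fin c) (Fin N) ℂ) :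
    (U * V).rank ≤ c := by
  refine (Matrix.rank_mul_le_left U V).trans ?_
  have := Matrix.rank_le_card_width U
  simpa using this

end Pool.Agent.QS2
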