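import Mathlib

/-!
# The Riccati equation of the Apery recurrence has no rational solution
-/

set_option autoImplicit false

namespace QS2

open Polynomial

section Rat

variable {F : Type*} [Field F]

/-- `34 n^3 + 51 n^2 + 27 n + 5` -/
noncomputable def aq (R : Type*) [Semiring R] : R[X] :=
  C 34 * X ^ 3 + C 51 * X ^ 2 + C 27 * X + C 5

theorem coeff_taylor_pred {f : F[X]} {e : ℕ} (hf : f.natDegree ≤ e + 1) (r : F) :
    (taylor r f).coeff e = f.coeff e + r * ((e : F) + 1) * f.coeff (e + 1) := by
  rw [taylor_coeff]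
  have h1 : (hasseDeriv e f).natDegree < 2 := by
    have := natDegree_hasseDeriv_le f e
    omega
  rw [eval_eq_sum_range' h1, Finset.sum_range_succ, Finset.sum_range_one, hasseDeriv_coeff,
    hasseDeriv_coeff]
  have h2 : (0 + e).choose e = 1 := by simp
  have h3 : (1 + e).choose e = e + 1 := by
    rw [add_comm 1 e]
    exact Nat.choose_succ_self_right e
  rw [h2, h3, zero_add, add_comm 1 e]
  push_cast
  ring

theorem coeff_taylor_top {f : F[X]} {d : ℕ} (hf : f.natDegree ≤ d) (r : F) :
    (taylor r f).coeff d = f.coeff d := by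
  rw [taylor_coeff]
  have h1 : (hasseDeriv d f).natDegree < 1 := by
    have := natDegree_hasseDeriv_le f d
    omega
  rw [eval_eq_sum_range' h1, Finset.sum_range_one, hasseDeriv_coeff]
  have h2 : (0 + d).choose d = 1 := by simp
  rw [h2, zero_add]
  simp

/-- no polynomial solution of the linearised equation -/
theorem no_poly [CharZero F] {q : F[X]} (hq : q ≠ 0) {c : F}
    (h : C (c ^ 2) * (X + 1) ^ 3 * taylor 1 q + X ^ 3 * taylor (-1) q = C c * aq F * q) :
    False := by
  set d := q.natDegree with hd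
  have hl : q.coeff d ≠ 0 := by
    rw [hd, coeff_natDegree]
    exact leadingCoeff_ne_zero.2 hq
  have n1 : (taylor 1 q).natDegree = d := natDegree_taylor q 1
  have n2 : (taylor (-1) q).natDegree = d := natDegree_taylor q (-1)
  have t1 := coeff_taylor_top (le_of_eq hd.symm) (1 : F)
  have t2 := coeff_taylor_top (le_of_eq hd.symm) (-1 : F)
  set u := taylor 1 q with hu
  set w := taylor (-1) q with hw
  have hbig : ∀ f : F[X], f.natDegree = d → ∀ k, d < k → f.coeff k = 0 := by
    intro f hf k hk
    exact coeff_eq_zero_of_natDegree_lt (by omega)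
  have e1 : C (c ^ 2) * (X + 1) ^ 3 * u + X ^ 3 * w =
      C (c ^ 2) * (X ^ 3 * u) + C (3 * c ^ 2) * (X ^ 2 * u) + C (3 * c ^ 2) * (X ^ 1 * u) +
        C (c ^ 2) * u + X ^ 3 * w := by
    simp only [C_mul]
    have : (C (3 : F)) = (3 : F[X]) := rfl
    rw [this]
    ring
  have e2 : C c * aq F * q = C (34 * c) * (X ^ 3 * q) + C (51 * c) * (X ^ 2 * q) +
      C (27 * c) * (X ^ 1 * q) + C (5 * c) * q := by
    unfold aq
    simp only [C_mul]
    ring
  rw [e1, e2] at h
  -- top coefficient
  have c3 := congrArg (fun f => coeff f (d + 3)) h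
  simp only [coeff_add, coeff_C_mul, coeff_X_pow_mul', Nat.le_add_left, if_true,
    Nat.add_sub_cancel] at c3
  rw [hbig u n1 (d + 3 - 2) (by omega), hbig u n1 (d + 3 - 1) (by omega),
    hbig u n1 (d + 3) (by omega), hbig q rfl (d + 3 - 2) (by omega),
    hbig q rfl (d + 3 - 1) (by omega), hbig q rfl (d + 3) (by omega), t1, t2] at c3
  have hA : c ^ 2 + 1 = 34 * c := by
    have : (c ^ 2 + 1 - 34 * c) * q.coeff d = 0 := by linear_combination c3
    rcases mul_eq_zero.1 this with h0 | h0
    · linear_combination h0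
    · exact absurd h0 hl
  -- next coefficient
  have c2 := congrArg (fun f => coeff f (d + 2)) h
  simp only [coeff_add, coeff_C_mul, coeff_X_pow_mul', Nat.le_add_left, if_true,
    Nat.add_sub_cancel] at c2
  rw [hbig u n1 (d + 2 - 1) (by omega), hbig u n1 (d + 2) (by omega),
    hbig q rfl (d + 2 - 1) (by omega), hbig q rfl (d + 2) (by omega), t1] at c2
  have hB : ((d : F) + 3 / 2) * (c ^ 2 - 1) = 0 := by
    rcases Nat.eq_zero_or_pos d with h0 | h0
    · rw [if_neg (by omega), if_neg (by omega), if_neg (by omega)] at c2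
      have : (((d : F) + 3 / 2) * (c ^ 2 - 1)) * q.coeff d = 0 := by
        rw [h0] at c2 ⊢
        push_cast
        linear_combination c2 - 3 / 2 * q.coeff 0 * hA
      rcases mul_eq_zero.1 this with h1 | h1
      · exact h1
      · exact absurd h1 hl
    · obtain ⟨e, he⟩ : ∃ e, d = e + 1 := ⟨d - 1, by omega⟩
      rw [if_pos (by omega), if_pos (by omega), if_pos (by omega)] at c2
      have k1 : d + 2 - 3 = e := by omega
      rw [k1] at c2
      have s1 := coeff_taylor_pred (f := q) (e := e) (by omega) 1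
      have s2 := coeff_taylor_pred (f := q) (e := e) (by omega) (-1)
      rw [← hu] at s1
      rw [← hw] at s2
      rw [s1, s2, ← he] at c2
      have hde : (d : F) = (e : F) + 1 := by rw [he]; push_cast; ring
      have : (((d : F) + 3 / 2) * (c ^ 2 - 1)) * q.coeff d = 0 := by
        rw [hde]
        linear_combination c2 - (q.coeff e + 3 / 2 * q.coeff d) * hA
      rcases mul_eq_zero.1 this with h1 | h1
      · exact h1
      · exact absurd h1 hl
  have hC : c ^ 2 = 1 := by
    rcases mul_eq_zero.1 hB with h1 | h1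
    · exfalso
      have : ((2 * d + 3 : ℕ) : F) = 0 := by
        push_cast
        linear_combination 2 * h1
      exact absurd (Nat.cast_eq_zero.1 this) (by omega)
    · linear_combination h1
  have h2 : (2 : F) = 34 * c := by rw [← hA, hC]; norm_num
  have h3 : (2 : F) ^ 2 = (34 * c) ^ 2 := by rw [← h2]
  rw [mul_pow, hC] at h3
  norm_num at h3

theorem prime_X_add_one : Prime (X + 1 : F[X]) := by
  have h := prime_X_sub_C (-1 : F)
  have e : (X - C (-1) : F[X]) = X + 1 := by simp
  rwa [e] at h

theorem taylor_eq_comp (r : F) (f : F[X]) : taylor r f = f.comp (X + C r) := by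
  rw [taylor_apply]

/-- the Riccati equation has no rational solution -/
theorem no_rat [CharZero F] {p q : F[X]} (hq : q ≠ 0) (hc : IsCoprime p q)
    (h : (X + 1) ^ 3 * p * taylor (-1) p - aq F * taylor (-1) p * q +
      X ^ 3 * q * taylor (-1) q = 0) : False := by
  set p1 := taylor (-1) p with hp1
  set q1 := taylor (-1) q with hq1
  have hq10 : q1 ≠ 0 := by
    rw [hq1]
    exact (taylor_eq_zero _ _).not.2 hq
  have hp0 : p ≠ 0 := by
    rintro rfl
    rw [hp1, map_zero] at h
    have h2 : X ^ 3 * q * q1 = 0 := by linear_combination h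
    exact mul_ne_zero (mul_ne_zero (pow_ne_zero 3 X_ne_zero) hq) hq10 h2
  have hp10 : p1 ≠ 0 := by
    rw [hp1]
    exact (taylor_eq_zero _ _).not.2 hp0
  have hc1 : IsCoprime p1 q1 := hc.map (taylorAlgHom (-1 : F)).toRingHom
  have d1 : q ∣ (X + 1) ^ 3 * p1 := by
    have h2 : q ∣ p * ((X + 1) ^ 3 * p1) := ⟨aq F * p1 - X ^ 3 * q1, by linear_combination h⟩
    exact hc.symm.dvd_of_dvd_mul_left h2
  have d2 : p1 ∣ X ^ 3 * q := by
    have h2 : p1 ∣ q1 * (X ^ 3 * q) := ⟨aq F * q - (X + 1) ^ 3 * p, by linear_combination h⟩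
    exact hc1.dvd_of_dvd_mul_left h2
  obtain ⟨a, ha⟩ := d1
  obtain ⟨b, hb⟩ := d2
  have hab : a * b = X ^ 3 * (X + 1) ^ 3 := by
    have h2 : (q * p1) * (a * b) = (q * p1) * (X ^ 3 * (X + 1) ^ 3) := by
      linear_combination -(b * p1) * ha - ((X + 1) ^ 3 * p1) * hb
    exact mul_left_cancel₀ (mul_ne_zero hq hp10) h2
  have i1 : a * p + X ^ 3 * q1 = aq F * p1 := by
    have h2 : q * (a * p + X ^ 3 * q1) = q * (aq F * p1) := by
      linear_combination h - p * ha
    exact mul_left_cancel₀ hq h2
  have i2 : (X + 1) ^ 3 * p + b * q1 = aq F * q := by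
    have h2 : p1 * ((X + 1) ^ 3 * p + b * q1) = p1 * (aq F * q) := by
      linear_combination h - q1 * hb
    exact mul_left_cancel₀ hp10 h2
  have ha0 : a ≠ 0 := by
    rintro rfl
    rw [zero_mul] at hab
    exact mul_ne_zero (pow_ne_zero 3 X_ne_zero) (pow_ne_zero 3 prime_X_add_one.ne_zero) hab.symm
  have n1 : p1.natDegree = p.natDegree := natDegree_taylor p (-1)
  have n2 : q1.natDegree = q.natDegree := natDegree_taylor q (-1)
  have nX : ((X + 1 : F[X]) ^ 3).natDegree = 3 := by
    rw [natDegree_pow]
    have : (X + 1 : F[X]).natDegree = 1 := by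
      have := natDegree_X_add_C (1 : F)
      simpa using this
    rw [this]
  have nq : (aq F).natDegree = 3 := by
    unfold aq
    compute_degree!
  have na : q.natDegree + a.natDegree = 3 + p.natDegree := by
    have := congrArg natDegree ha
    rw [natDegree_mul (pow_ne_zero 3 prime_X_add_one.ne_zero) hp10, natDegree_mul hq ha0, nX,
      n1] at this
    omega
  have naq0 : aq F ≠ 0 := by
    intro h0
    rw [h0] at nq
    simp at nq
  have m1 : (a * p).natDegree = a.natDegree + p.natDegree := natDegree_mul ha0 hp0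
  have m2 : (X ^ 3 * q1).natDegree = 3 + q.natDegree := by
    rw [natDegree_mul (pow_ne_zero 3 X_ne_zero) hq10, natDegree_X_pow, n2]
  have m3 : (a * p + X ^ 3 * q1).natDegree = 3 + p.natDegree := by
    rw [i1, natDegree_mul naq0 hp10, nq, n1]
  have hdeg : p.natDegree = q.natDegree := by
    rcases lt_trichotomy p.natDegree q.natDegree with h0 | h0 | h0
    · exfalso
      rw [natDegree_add_eq_right_of_natDegree_lt (by omega), m2] at m3
      omega
    · exact h0
    · exfalso
      rw [natDegree_add_eq_left_of_natDegree_lt (by omega), m1] at m3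
      omega
  have na3 : a.natDegree = 3 := by omega
  obtain ⟨a1, a2, h1, h2, h12⟩ := exists_dvd_and_dvd_of_dvd_mul (Dvd.intro b hab)
  obtain ⟨i, -, hi⟩ := (dvd_prime_pow prime_X 3).1 h1
  obtain ⟨j, -, hj⟩ := (dvd_prime_pow prime_X_add_one 3).1 h2
  have hass : Associated (X ^ i * (X + 1) ^ j) a := by
    rw [h12]
    exact (hi.mul_mul hj).symm
  obtain ⟨u, hu⟩ := hass
  obtain ⟨k, hk0, hk⟩ := Polynomial.isUnit_iff.1 u.isUnit
  rw [← hk] at hu
  have hk1 : k ≠ 0 := hk0.ne_zero
  have hij : i + j = 3 := by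
    have := congrArg natDegree hu
    rw [natDegree_mul_C hk1, natDegree_mul (pow_ne_zero _ X_ne_zero)
      (pow_ne_zero _ prime_X_add_one.ne_zero), natDegree_X_pow, natDegree_pow, na3] at this
    have e : (X + 1 : F[X]).natDegree = 1 := by
      have := natDegree_X_add_C (1 : F)
      simpa using this
    rw [e] at this
    omega
  have hcan : (X + 1) ^ i * p1 = q * X ^ i * C k := by
    have e3 : (X + 1 : F[X]) ^ 3 = (X + 1) ^ j * (X + 1) ^ i := by
      rw [← pow_add]
      congr 1
      omega
    have : (X + 1) ^ j * ((X + 1) ^ i * p1) = (X + 1) ^ j * (q * X ^ i * C k) := by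
      rw [← mul_assoc, ← e3, ha, ← hu]
      ring
    exact mul_left_cancel₀ (pow_ne_zero _ prime_X_add_one.ne_zero) this
  rcases Nat.eq_zero_or_pos i with h0 | h0
  · subst h0
    rw [pow_zero, pow_zero, one_mul, mul_one] at hcan
    have hj3 : j = 3 := by omega
    rw [hj3, pow_zero, one_mul] at hu
    have hp : p = C k * taylor 1 q := by
      have e : p = taylor 1 p1 := by
        rw [hp1, taylor_taylor]
        simp
      rw [e, hcan, taylor_mul, taylor_C, mul_comm]
    have hbk : C k * b = X ^ 3 := by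
      have : (X + 1) ^ 3 * (C k * b) = (X + 1) ^ 3 * X ^ 3 := by
        rw [← mul_assoc, hu, hab]
        ring
      exact mul_left_cancel₀ (pow_ne_zero _ prime_X_add_one.ne_zero) this
    refine no_poly hq (c := k) ?_
    rw [← hq1]
    have e5 : C k * ((X + 1) ^ 3 * p + b * q1) = C k * (aq F * q) := by rw [i2]
    rw [hp] at e5
    rw [C_pow]
    linear_combination e5 - q1 * hbk
  · have hX1 : (X + 1 : F[X]) ∣ q * X ^ i * C k := by
      rw [← hcan]
      exact Dvd.dvd.mul_right (dvd_pow_self _ (by omega)) _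
    have hq2 : (X + 1 : F[X]) ∣ q := by
      rcases prime_X_add_one.dvd_or_dvd hX1 with h3 | h3
      · rcases prime_X_add_one.dvd_or_dvd h3 with h4 | h4
        · exact h4
        · exfalso
          have h5 := prime_X_add_one.dvd_of_dvd_pow h4
          obtain ⟨t, ht⟩ := h5
          have := congrArg (eval (-1)) ht
          simp at this
      · exfalso
        obtain ⟨t, ht⟩ := h3
        have := congrArg (eval (-1)) ht
        simp at this
        exact hk1 this
    have hp2 : (X + 1 : F[X]) ∣ p := by
      have h5 : (X : F[X]) ∣ (X + 1) ^ i * p1 := by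
        rw [hcan]
        exact Dvd.dvd.mul_right (Dvd.dvd.mul_left (dvd_pow_self _ (by omega)) _) _
      have h6 : (X : F[X]) ∣ p1 := by
        rcases prime_X.dvd_or_dvd h5 with h7 | h7
        · exfalso
          have h8 := prime_X.dvd_of_dvd_pow h7
          obtain ⟨t, ht⟩ := h8
          have := congrArg (eval 0) ht
          simp at this
        · exact h7
      rw [X_dvd_iff, hp1, taylor_coeff_zero] at h6
      have e : (X + 1 : F[X]) = X - C (-1) := by simp
      rw [e]
      exact dvd_iff_isRoot.2 h6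
    exact prime_X_add_one.not_isUnit (hc.isUnit_of_dvd' hp2 hq2)

end Rat

end QS2
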