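import Pool.Agent.QS2.NoRat

/-!
# Non-vanishing of infinitely many determinants
-/

set_option autoImplicit false

namespace QS2.NV

open Polynomial HahnSeries

variable {F : Type*} [Field F]

/-- a polynomial in `n` as a Laurent series in `1 / n` -/
noncomputable def phi (F : Type*) [Field F] : F[X] →+* LaurentSeries F :=
  eval₂RingHom (HahnSeries.C) (single (-1) 1)

theorem phi_monomial (n : ℕ) (a : F) :
    phi F (monomial n a) = single (-(n : ℤ)) a := by
  simp only [phi, coe_eval₂RingHom, eval₂_monomial]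
  rw [single_pow, one_pow, C_apply, single_mul_single]
  simp

theorem phi_C (a : F) : phi F (C a) = HahnSeries.C a := by
  simp [phi]

theorem phi_X : phi F X = single (-1) 1 := by
  simp [phi]

theorem phi_coeff (P : F[X]) (j : ℤ) :
    (phi F P).coeff j = if j ≤ 0 then P.coeff (-j).toNat else 0 := by
  induction P using Polynomial.induction_on' with
  | add p q hp hq =>
    rw [map_add, HahnSeries.coeff_add, hp, hq]
    split_ifs <;> simp
  | monomial n a =>
    rw [phi_monomial, coeff_single, Polynomial.coeff_monomial]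
    by_cases hj : j ≤ 0
    · rw [if_pos hj]
      by_cases h : j = -(n : ℤ)
      · rw [if_pos h, if_pos (by omega)]
      · rw [if_neg h, if_neg (by omega)]
    · rw [if_neg hj, if_neg (by omega)]

theorem phi_injective : Function.Injective (phi F) := by
  intro p q h
  ext k
  have := congrArg (fun f => HahnSeries.coeff f (-(k : ℤ))) h
  simp only [phi_coeff] at this
  rw [if_pos (by omega)] at this
  simpa using this

theorem phi_order {P : F[X]} {D : ℕ} (h : P.degree ≤ D) :
    ((-(D : ℤ) : ℤ) : WithTop ℤ) ≤ (phi F P).orderTop := by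
  rw [le_orderTop_iff_forall]
  intro j hj
  have hj' : j < -(D : ℤ) := by exact_mod_cast hj
  rw [phi_coeff, if_pos (by omega)]
  apply coeff_eq_zero_of_degree_lt
  refine lt_of_le_of_lt h ?_
  have : D < (-j).toNat := by omega
  exact_mod_cast this

theorem degree_of_order {P : F[X]} {D : ℕ}
    (h : ((-(D : ℤ) : ℤ) : WithTop ℤ) ≤ (phi F P).orderTop) : P.degree ≤ D := by
  rw [le_orderTop_iff_forall] at h
  rw [degree_le_iff_coeff_zero]
  intro m hm
  have hm' : D < m := by exact_mod_cast hm
  have := h (-(m : ℤ)) (by exact_mod_cast (by omega : -(m : ℤ) < -(D : ℤ)))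
  rw [phi_coeff, if_pos (by omega)] at this
  simpa using this

theorem le_sub {a b : LaurentSeries F} {k : WithTop ℤ} (ha : k ≤ a.orderTop)
    (hb : k ≤ b.orderTop) : k ≤ (a - b).orderTop := by
  rw [le_orderTop_iff_forall] at ha hb ⊢
  intro j hj
  rw [HahnSeries.coeff_sub, ha j hj, hb j hj, sub_zero]

theorem le_add {a b : LaurentSeries F} {k : WithTop ℤ} (ha : k ≤ a.orderTop)
    (hb : k ≤ b.orderTop) : k ≤ (a + b).orderTop := by
  rw [le_orderTop_iff_forall] at ha hb ⊢
  intro j hj
  rw [HahnSeries.coeff_add, ha j hj, hb j hj, add_zero]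

theorem le_mul {a b : LaurentSeries F} {j k : WithTop ℤ} (ha : j ≤ a.orderTop)
    (hb : k ≤ b.orderTop) : j + k ≤ (a * b).orderTop :=
  (add_le_add ha hb).trans orderTop_add_le_mul

/-- a power series in `1 / n` -/
noncomputable abbrev ser (V : PowerSeries F) : LaurentSeries F := ofPowerSeries ℤ F V

/-- polynomial part of `n ^ j * V (1 / n)` -/
noncomputable def mono (V : PowerSeries F) (j : ℕ) : F[X] :=
  ∑ i ∈ Finset.range (j + 1), monomial i (PowerSeries.coeff (j - i) V)

theorem mono_coeff (V : PowerSeries F) (j k : ℕ) :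
    (mono V j).coeff k = if k ≤ j then PowerSeries.coeff (j - k) V else 0 := by
  unfold mono
  rw [finsetSum_coeff]
  simp only [Polynomial.coeff_monomial]
  rw [Finset.sum_ite_eq' (Finset.range (j + 1)) k]
  simp only [Finset.mem_range, Nat.lt_succ_iff]

/-- polynomial part of `Q (n) * V (1 / n)` -/
noncomputable def pp (V : PowerSeries F) : F[X] →ₗ[F] F[X] :=
  lsum fun j => LinearMap.toSpanSingleton F F[X] (mono V j)

theorem pp_monomial (V : PowerSeries F) (j : ℕ) (a : F) :
    pp V (monomial j a) = a • mono V j := by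
  unfold pp
  rw [lsum_apply, sum_monomial_index _ _ (by simp)]
  rfl

/-- `Q V - P = O (1 / n)` -/
def Big (V : PowerSeries F) (P Q : F[X]) : Prop :=
  ((1 : ℤ) : WithTop ℤ) ≤ (phi F Q * ser V - phi F P).orderTop

theorem pp_spec (V : PowerSeries F) (Q : F[X]) : Big V (pp V Q) Q := by
  unfold Big
  induction Q using Polynomial.induction_on' with
  | add p q hp hq =>
    have e : phi F (p + q) * ser V - phi F (pp V (p + q)) =
        (phi F p * ser V - phi F (pp V p)) + (phi F q * ser V - phi F (pp V q)) := by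
      rw [map_add, map_add, map_add]
      ring
    rw [e]
    exact le_add hp hq
  | monomial j a =>
    rw [le_orderTop_iff_forall]
    intro k hk
    have hk' : k < 1 := by exact_mod_cast hk
    rw [HahnSeries.coeff_sub, phi_monomial, coeff_single_mul, pp_monomial, phi_coeff,
      if_pos (by omega), Polynomial.coeff_smul, mono_coeff, smul_eq_mul]
    by_cases h : (-k).toNat ≤ j
    · rw [if_pos h]
      have e : k - -(j : ℤ) = ((j - (-k).toNat : ℕ) : ℤ) := by omega
      rw [e, ofPowerSeries_apply_coeff, sub_self]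
    · rw [if_neg h]
      have e : (ser V).coeff (k - -(j : ℤ)) = 0 := by
        rw [ser, ofPowerSeries_apply]
        apply embDomain_of_notMem_range
        rintro ⟨x, hx⟩
        simp at hx
        omega
      rw [e]
      simp

theorem pp_unique {V : PowerSeries F} {P Q : F[X]} (h : Big V P Q) : P = pp V Q := by
  have h1 := pp_spec V Q
  unfold Big at h h1
  have h2 := le_sub h1 h
  have e : phi F Q * ser V - phi F (pp V Q) - (phi F Q * ser V - phi F P) =
      phi F (P - pp V Q) := by
    rw [map_sub]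
    ring
  rw [e, le_orderTop_iff_forall] at h2
  have h3 : P - pp V Q = 0 := by
    ext k
    have := h2 (-(k : ℤ)) (by exact_mod_cast (by omega : -(k : ℤ) < 1))
    rw [phi_coeff, if_pos (by omega)] at this
    simpa using this
  exact sub_eq_zero.1 h3

theorem ser_order (V : PowerSeries F) : ((0 : ℤ) : WithTop ℤ) ≤ (ser V).orderTop := by
  rw [le_orderTop_iff_forall]
  intro j hj
  have hj' : j < 0 := by exact_mod_cast hj
  rw [ser, ofPowerSeries_apply]
  apply embDomain_of_notMem_range
  rintro ⟨x, hx⟩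
  simp at hx
  omega

theorem pp_degree {V : PowerSeries F} {Q : F[X]} {D : ℕ} (h : Q.degree ≤ D) :
    (pp V Q).degree ≤ D := by
  apply degree_of_order
  have h1 := pp_spec V Q
  unfold Big at h1
  have h2 := le_mul (phi_order h) (ser_order V)
  have h3 : ((-(D : ℤ) : ℤ) : WithTop ℤ) ≤ (phi F Q * ser V - phi F (pp V Q)).orderTop :=
    le_trans (by exact_mod_cast (by omega : -(D : ℤ) ≤ 1)) h1
  have h4 : ((-(D : ℤ) : ℤ) : WithTop ℤ) ≤ (phi F Q * ser V).orderTop := by
    refine le_trans ?_ h2
    rw [← WithTop.coe_add, add_zero]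
  have := le_sub h4 h3
  have e : phi F Q * ser V - (phi F Q * ser V - phi F (pp V Q)) = phi F (pp V Q) := by ring
  rwa [e] at this

/-! ## The shift -/

/-- `1 / (n - 1)` as a power series in `1 / n` -/
noncomputable def tt (F : Type*) [Field F] : PowerSeries F :=
  PowerSeries.X * PowerSeries.mk 1

theorem tt_mul : tt F * (1 - PowerSeries.X) = PowerSeries.X := by
  unfold tt
  rw [mul_assoc, PowerSeries.mk_one_mul_one_sub_eq_one, mul_one]

theorem tt_subst : PowerSeries.HasSubst (tt F) :=
  PowerSeries.HasSubst.of_constantCoeff_zero' (by simp [tt])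

/-- `V (1 / n)` to `V (1 / (n - 1))` -/
noncomputable def sh : PowerSeries F →+* PowerSeries F :=
  (PowerSeries.substAlgHom (R := F) (S := F) (tt_subst (F := F))).toRingHom

theorem sh_apply (V : PowerSeries F) : sh V = V.subst (tt F) := by
  unfold sh
  have := PowerSeries.coe_substAlgHom (R := F) (tt_subst (F := F))
  exact congrFun this V

theorem sh_X : sh (PowerSeries.X : PowerSeries F) = tt F := by
  rw [sh_apply]
  exact PowerSeries.subst_X tt_subst

theorem sh_C (a : F) : sh (PowerSeries.C a) = PowerSeries.C a := by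
  rw [sh_apply]
  exact PowerSeries.subst_C a

/-- coefficients of the shifted series -/
theorem coeff_sh (V : PowerSeries F) (k : ℕ) :
    PowerSeries.coeff (k + 1) (sh V) =
      ∑ m ∈ Finset.range (k + 1), (k.choose m : F) * PowerSeries.coeff (m + 1) V := by
  rw [sh_apply, PowerSeries.coeff_subst' tt_subst,
    finsum_eq_sum_of_support_subset (s := Finset.range (k + 2))]
  · rw [Finset.sum_range_succ', pow_zero, PowerSeries.coeff_one, if_neg (by omega), smul_zero,
      add_zero]
    refine Finset.sum_congr rfl fun m hm => ?_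
    have hm' : m ≤ k := by
      have := Finset.mem_range.1 hm
      omega
    have e : PowerSeries.coeff (k + 1) (tt F ^ (m + 1)) = (k.choose m : F) := by
      unfold tt
      rw [mul_pow, PowerSeries.coeff_X_pow_mul', if_pos (by omega),
        PowerSeries.mk_one_pow_eq_mk_choose_add, PowerSeries.coeff_mk]
      congr 2
      omega
    rw [e, smul_eq_mul, mul_comm]
  · intro d hd
    rw [Function.mem_support] at hd
    rw [Finset.mem_coe, Finset.mem_range]
    by_contra hcon
    apply hd
    have e : PowerSeries.coeff (k + 1) (tt F ^ d) = 0 := by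
      unfold tt
      rw [mul_pow, PowerSeries.coeff_X_pow_mul', if_neg (by omega)]
    rw [e, smul_zero]

/-- `X ^ D * f (1 / X)` -/
noncomputable def rv (D : ℕ) (f : F[X]) : PowerSeries F :=
  ∑ j ∈ Finset.range (D + 1), PowerSeries.C (f.coeff j) * PowerSeries.X ^ (D - j)

theorem single_mul_pow (D j : ℕ) (hj : j ≤ D) :
    (single (D : ℤ) (1 : F) : LaurentSeries F) * (single (-1 : ℤ) (1 : F)) ^ j =
      (single (1 : ℤ) (1 : F)) ^ (D - j) := by
  rw [single_pow, single_pow, single_mul_single]
  simp only [one_pow, mul_one, nsmul_eq_mul, mul_neg]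
  have e : (D : ℤ) + -(j : ℤ) = ((D - j : ℕ) : ℤ) := by
    push_cast [Nat.cast_sub hj]
    ring
  rw [e]

theorem ser_rv {D : ℕ} {f : F[X]} (h : f.natDegree ≤ D) :
    ser (rv D f) = single (D : ℤ) (1 : F) * phi F f := by
  have e : phi F f = ∑ j ∈ Finset.range (D + 1),
      HahnSeries.C (f.coeff j) * (single (-1 : ℤ) (1 : F)) ^ j := by
    conv_lhs => rw [as_sum_range_C_mul_X_pow' f (Nat.lt_succ_of_le h)]
    rw [map_sum]
    refine Finset.sum_congr rfl fun j _ => ?_
    simp [phi]
  rw [e, Finset.mul_sum]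
  unfold rv
  rw [ser, map_sum]
  refine Finset.sum_congr rfl fun j hj => ?_
  have hj' : j ≤ D := by
    have := Finset.mem_range.1 hj
    omega
  rw [map_mul, map_pow, ofPowerSeries_C, ofPowerSeries_X, ← single_mul_pow D j hj']
  ring

theorem ser_sh_rv {D : ℕ} {f : F[X]} (h : f.natDegree ≤ D) :
    ser ((1 - PowerSeries.X) ^ D * sh (rv D f)) =
      single (D : ℤ) (1 : F) * phi F (taylor (-1) f) := by
  have e1 : (1 - PowerSeries.X) ^ D * sh (rv D f) =
      ∑ j ∈ Finset.range (D + 1), PowerSeries.C (f.coeff j) *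
        (PowerSeries.X ^ (D - j) * (1 - PowerSeries.X) ^ j) := by
    unfold rv
    rw [map_sum, Finset.mul_sum]
    refine Finset.sum_congr rfl fun j hj => ?_
    have hj' : j ≤ D := by
      have := Finset.mem_range.1 hj
      omega
    rw [map_mul, map_pow, sh_X, sh_C]
    have e2 : (1 - PowerSeries.X : PowerSeries F) ^ D =
        (1 - PowerSeries.X) ^ (D - j) * (1 - PowerSeries.X) ^ j := by
      rw [← _root_.pow_add]
      congr 1
      omega
    have e3 : (tt F) ^ (D - j) * (1 - PowerSeries.X) ^ (D - j) = PowerSeries.X ^ (D - j) := by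
      rw [← mul_pow, tt_mul]
    rw [e2, ← e3]
    ring
  have e4 : phi F (taylor (-1) f) = ∑ j ∈ Finset.range (D + 1),
      HahnSeries.C (f.coeff j) * (single (-1 : ℤ) (1 : F) - 1) ^ j := by
    conv_lhs => rw [as_sum_range_C_mul_X_pow' f (Nat.lt_succ_of_le h)]
    rw [map_sum, map_sum]
    refine Finset.sum_congr rfl fun j _ => ?_
    have e6 : (HahnSeries.C (-1 : F) : LaurentSeries F) = -1 := by
      rw [map_neg, map_one]
    rw [taylor_mul, taylor_C, taylor_X_pow, map_mul, map_pow, map_add, phi_C, phi_C, phi_X,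
      e6, ← sub_eq_add_neg]
  rw [e1, e4, Finset.mul_sum, ser, map_sum]
  refine Finset.sum_congr rfl fun j hj => ?_
  have hj' : j ≤ D := by
    have := Finset.mem_range.1 hj
    omega
  have e5 : (single (-1 : ℤ) (1 : F) - 1 : LaurentSeries F) =
      single (-1 : ℤ) (1 : F) * (1 - single (1 : ℤ) (1 : F)) := by
    rw [mul_sub, mul_one, single_mul_single]
    simp
  rw [map_mul, map_mul, map_pow, map_pow, map_sub, map_one, ofPowerSeries_C, ofPowerSeries_X,
    ← single_mul_pow D j hj', e5, mul_pow]
  ring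

theorem shift_eq {V : PowerSeries F} {p q : F[X]} (h : phi F q * ser V = phi F p) :
    phi F (taylor (-1) q) * ser (sh V) = phi F (taylor (-1) p) := by
  set D := max p.natDegree q.natDegree with hD
  have h1 : rv D q * V = rv D p := by
    apply ofPowerSeries_injective (Γ := ℤ)
    rw [map_mul]
    have a1 := ser_rv (F := F) (D := D) (f := q) (le_max_right _ _)
    have a2 := ser_rv (F := F) (D := D) (f := p) (le_max_left _ _)
    unfold ser at a1 a2 h
    rw [a1, a2, mul_assoc, h]
  have h2 : sh (rv D q) * sh V = sh (rv D p) := by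
    rw [← map_mul, h1]
  have h3 : ser ((1 - PowerSeries.X) ^ D * sh (rv D q)) * ser (sh V) =
      ser ((1 - PowerSeries.X) ^ D * sh (rv D p)) := by
    rw [← h2, ← mul_assoc]
    unfold ser
    rw [map_mul (ofPowerSeries ℤ F) (_ * _)]
  rw [ser_sh_rv (le_max_right _ _), ser_sh_rv (le_max_left _ _), mul_assoc] at h3
  have h4 : (single (D : ℤ) (1 : F) : LaurentSeries F) ≠ 0 := by
    intro h0
    have := congrArg (fun f => HahnSeries.coeff f (D : ℤ)) h0
    simp at this
  exact mul_left_cancel₀ h4 h3

/-! ## Pairs -/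

/-- the formal Riccati equation -/
def Ric (V : PowerSeries F) : Prop :=
  (1 + PowerSeries.X) ^ 3 * V * sh V -
    (PowerSeries.C 34 + PowerSeries.C 51 * PowerSeries.X + PowerSeries.C 27 * PowerSeries.X ^ 2 +
      PowerSeries.C 5 * PowerSeries.X ^ 3) * sh V + 1 = 0

/-- the Riccati equation for a rational function `p / q` -/
def RicPoly (p q : F[X]) : Prop :=
  (X + 1) ^ 3 * p * taylor (-1) p - aq F * taylor (-1) p * q + X ^ 3 * q * taylor (-1) q = 0

theorem single_three : (single (-1 : ℤ) (1 : F) : LaurentSeries F) * single (1 : ℤ) (1 : F) = 1 := by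
  rw [single_mul_single]
  simp

theorem ric_of_series {V : PowerSeries F} (hV : Ric V) {p q : F[X]}
    (h : phi F q * ser V = phi F p) : RicPoly p q := by
  have h1 := shift_eq h
  unfold Ric at hV
  have h2 := congrArg (ofPowerSeries ℤ F) hV
  simp only [map_add, map_sub, map_mul, map_pow, map_one, map_zero, ofPowerSeries_C,
    ofPowerSeries_X] at h2
  unfold RicPoly
  apply phi_injective
  simp only [map_add, map_sub, map_mul, map_pow, map_one, map_zero, phi_X, aq, phi_C]
  rw [← h1, ← h]
  unfold ser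
  set T : LaurentSeries F := single (-1 : ℤ) (1 : F) with hT
  set S : LaurentSeries F := single (1 : ℤ) (1 : F) with hS
  have hTS : T * S = 1 := single_three
  set Q := phi F q
  set Q1 := phi F (taylor (-1) q)
  set W := ofPowerSeries ℤ F V
  set W1 := ofPowerSeries ℤ F (sh V)
  have k1 : T ^ 3 * (1 + S) ^ 3 = (T + 1) ^ 3 := by
    rw [← mul_pow, mul_add, mul_one, hTS]
  have k2 : T ^ 3 * (HahnSeries.C 34 + HahnSeries.C 51 * S + HahnSeries.C 27 * S ^ 2 +
      HahnSeries.C 5 * S ^ 3) = HahnSeries.C 34 * T ^ 3 + HahnSeries.C 51 * T ^ 2 +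
        HahnSeries.C 27 * T + HahnSeries.C 5 := by
    linear_combination (HahnSeries.C 51 * T ^ 2 + HahnSeries.C 27 * T * (T * S + 1) +
      HahnSeries.C 5 * ((T * S) ^ 2 + T * S + 1)) * hTS
  rw [← k2, ← k1]
  linear_combination (T ^ 3 * Q * Q1) * h2

/-- `l` solves the recurrence -/
def Rec (l : ℕ → F) : Prop := ∀ n : ℕ, 1 ≤ n →
  ((n : F) + 1) ^ 3 * l (n + 1) =
    (34 * (n : F) ^ 3 + 51 * (n : F) ^ 2 + 27 * (n : F) + 5) * l n - (n : F) ^ 3 * l (n - 1)

/-- `(P, Q)` solves the interpolation problem with `N` nodes and `N` jets -/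
structure Sol (V : PowerSeries F) (l : ℕ → F) (N : ℕ) (P Q : F[X]) : Prop where
  hQ : Q ≠ 0
  dQ : Q.degree < N
  dP : P.degree < N
  node : ∀ n : ℕ, 1 ≤ n → n ≤ N → Q.eval (n : F) * l (n + 1) = P.eval (n : F) * l n
  jet : Big V P Q

theorem eq_zero_of_nodes [CharZero F] {E : F[X]} {N : ℕ} (hd : E.degree < N)
    (h : ∀ n : ℕ, 1 ≤ n → n ≤ N → E.eval (n : F) = 0) : E = 0 := by
  refine eq_zero_of_degree_lt_of_eval_index_eq_zero (s := Finset.Icc 1 N)
    (v := fun n : ℕ => (n : F)) (fun a _ b _ hab => Nat.cast_injective hab) ?_ ?_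
  · rw [Nat.card_Icc, Nat.add_sub_cancel]
    exact hd
  · intro n hn
    rw [Finset.mem_Icc] at hn
    exact h n hn.1 hn.2

theorem deg_le {P : F[X]} {m : ℕ} (h : P.degree < ((m + 1 : ℕ) : WithBot ℕ)) :
    P.degree ≤ (m : WithBot ℕ) := by
  rw [degree_le_iff_coeff_zero]
  intro k hk
  apply coeff_eq_zero_of_degree_lt
  refine lt_of_lt_of_le h ?_
  have : m < k := by exact_mod_cast hk
  exact_mod_cast (by omega : m + 1 ≤ k)

theorem Sol.cross [CharZero F] {V : PowerSeries F} {l : ℕ → F} (hl : ∀ n, 1 ≤ n → l n ≠ 0)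
    {N : ℕ} {P Q P' Q' : F[X]} (h : Sol V l N P Q) (h' : Sol V l (N + 1) P' Q') :
    P * Q' = P' * Q := by
  obtain ⟨m, rfl⟩ : ∃ m, N = m + 1 := by
    refine ⟨N - 1, ?_⟩
    have h1 := h.dQ
    rcases Nat.eq_zero_or_pos N with h0 | h0
    · subst h0
      exfalso
      exact h.hQ (degree_eq_bot.1 (Nat.WithBot.lt_zero_iff.1 (by exact_mod_cast h1)))
    · omega
  have d1 : Q.degree ≤ (m : ℕ) := deg_le h.dQ
  have d2 : Q'.degree ≤ ((m + 1 : ℕ)) := deg_le h'.dQ
  have j1 := h.jet
  have j2 := h'.jet
  unfold Big at j1 j2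
  have a1 := le_mul (phi_order d1) j2
  have a2 := le_mul (phi_order d2) j1
  have hE : P * Q' - P' * Q = 0 := by
    apply eq_zero_of_nodes (N := m + 1)
    · have h3 : ((-(m : ℤ) : ℤ) : WithTop ℤ) ≤ (phi F (P * Q' - P' * Q)).orderTop := by
        have e : phi F (P * Q' - P' * Q) = phi F Q * (phi F Q' * ser V - phi F P') -
            phi F Q' * (phi F Q * ser V - phi F P) := by
          rw [map_sub, map_mul, map_mul]
          ring
        rw [e]
        apply le_sub
        · refine le_trans ?_ a1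
          rw [← WithTop.coe_add]
          exact_mod_cast (by omega : -(m : ℤ) ≤ -(m : ℤ) + 1)
        · refine le_trans ?_ a2
          rw [← WithTop.coe_add]
          exact_mod_cast (by push_cast; omega : -(m : ℤ) ≤ -((m + 1 : ℕ) : ℤ) + 1)
      have := degree_of_order h3
      refine lt_of_le_of_lt this ?_
      exact_mod_cast Nat.lt_succ_self m
    · intro n hn1 hn2
      have b1 := h.node n hn1 hn2
      have b2 := h'.node n hn1 (by omega)
      rw [eval_sub, eval_mul, eval_mul]
      have : l n * (P.eval (n : F) * Q'.eval (n : F) - P'.eval (n : F) * Q.eval (n : F)) = 0 := by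
        linear_combination Q.eval (n : F) * b2 - Q'.eval (n : F) * b1
      rcases mul_eq_zero.1 this with h0 | h0
      · exact absurd h0 (hl n hn1)
      · exact h0
  exact sub_eq_zero.1 hE

theorem ric_of_nodes [CharZero F] {l : ℕ → F} (hl : ∀ n, 1 ≤ n → l n ≠ 0) (hr : Rec l)
    {p q : F[X]} {n0 : ℕ} (h : ∀ n : ℕ, n0 ≤ n → q.eval (n : F) * l (n + 1) =
      p.eval (n : F) * l n) : RicPoly p q := by
  unfold RicPoly
  set E : F[X] := (X + 1) ^ 3 * p * taylor (-1) p - aq F * taylor (-1) p * q +
    X ^ 3 * q * taylor (-1) q with hE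
  by_contra hne
  have hinf : Set.Infinite {x : F | E.eval x = 0} := by
    refine Set.Infinite.mono (s := (fun n : ℕ => (n : F)) '' Set.Ici (n0 + 2)) ?_ ?_
    · rintro _ ⟨n, hn, rfl⟩
      rw [Set.mem_Ici] at hn
      obtain ⟨m, rfl⟩ : ∃ m, n = m + 1 := ⟨n - 1, by omega⟩
      have b1 := h (m + 1) (by omega)
      have b2 := h m (by omega)
      have b3 := hr (m + 1) (by omega)
      rw [Nat.add_sub_cancel] at b3
      have c1 : ((m + 1 : ℕ) : F) + -1 = (m : F) := by push_cast; ring
      have t1 : (taylor (-1) p).eval ((m + 1 : ℕ) : F) = p.eval (m : F) := by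
        rw [taylor_eval, c1]
      have t2 : (taylor (-1) q).eval ((m + 1 : ℕ) : F) = q.eval (m : F) := by
        rw [taylor_eval, c1]
      have h1 := hl m (by omega)
      have h2 := hl (m + 1) (by omega)
      show E.eval ((m + 1 : ℕ) : F) = 0
      rw [hE]
      simp only [eval_add, eval_sub, eval_mul, eval_pow, eval_X, eval_one, aq, eval_C, t1, t2]
      set z : F := ((m + 1 : ℕ) : F) with hz
      have key : (l m * l (m + 1)) * ((z + 1) ^ 3 * p.eval z * p.eval (m : F) -
          (34 * z ^ 3 + 51 * z ^ 2 + 27 * z + 5) * p.eval (m : F) * q.eval z +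
          z ^ 3 * q.eval z * q.eval (m : F)) = 0 := by
        linear_combination (-(z + 1) ^ 3 * p.eval (m : F) * l m) * b1 +
          (-(z + 1) ^ 3 * q.eval z * l (m + 2) +
            (34 * z ^ 3 + 51 * z ^ 2 + 27 * z + 5) * q.eval z * l (m + 1)) * b2 +
          (q.eval z * q.eval (m : F) * l (m + 1)) * b3
      rcases mul_eq_zero.1 key with h0 | h0
      · exact absurd h0 (mul_ne_zero h1 h2)
      · exact h0
    · exact (Set.Ici_infinite _).image (Nat.cast_injective.injOn)
  exact hne (eq_zero_of_infinite_isRoot E hinf)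

theorem reduced (a : F[X]) {b : F[X]} (hb : b ≠ 0) :
    ∃ g p q : F[X], a = g * p ∧ b = g * q ∧ IsCoprime p q ∧ g ≠ 0 ∧ q ≠ 0 := by
  obtain ⟨p, q, g, hrel, hP, hQ⟩ := UniqueFactorizationMonoid.exists_reduced_factors' a b hb
  refine ⟨g, p, q, hP.symm, hQ.symm, hrel.isCoprime, ?_, ?_⟩
  · rintro rfl
    rw [zero_mul] at hQ
    exact hb hQ.symm
  · rintro rfl
    rw [mul_zero] at hQ
    exact hb hQ.symm

/-- for infinitely many `N` the interpolation problem has no solution -/
theorem core [CharZero F] {V : PowerSeries F} (hV : Ric V) {l : ℕ → F}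
    (hl : ∀ n, 1 ≤ n → l n ≠ 0) (hr : Rec l) (M : ℕ) :
    ∃ N, M ≤ N ∧ ¬ ∃ P Q : F[X], Sol V l N P Q := by
  classical
  by_contra hcon
  push Not at hcon
  have hsol : ∀ k : ℕ, ∃ P Q : F[X], Sol V l (M + k) P Q := fun k => hcon (M + k) (by omega)
  choose P Q hS using hsol
  have hstep : ∀ k, P k * Q (k + 1) = P (k + 1) * Q k := fun k => (hS k).cross hl (hS (k + 1))
  have hall : ∀ k, P k * Q 0 = P 0 * Q k := by
    intro k
    induction k with
    | zero => rfl
    | succ k ih =>
      have : Q k * (P (k + 1) * Q 0) = Q k * (P 0 * Q (k + 1)) := by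
        linear_combination Q (k + 1) * ih - Q 0 * hstep k
      exact mul_left_cancel₀ (hS k).hQ this
  -- reduced form
  have hQ0 := (hS 0).hQ
  obtain ⟨g, p, q, eP, eQ, hcop, hg0, hq0⟩ := reduced (P 0) hQ0
  have hred : ∀ k, P k * q = p * Q k := by
    intro k
    have : g * (P k * q) = g * (p * Q k) := by
      have := hall k
      rw [eP, eQ] at this
      linear_combination this
    exact mul_left_cancel₀ hg0 this
  have hs : ∀ k, ∃ s : F[X], Q k = q * s ∧ P k = p * s := by
    intro k
    have h1 : q ∣ p * Q k := ⟨P k, by rw [← hred k]; ring⟩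
    obtain ⟨s, hs⟩ := hcop.symm.dvd_of_dvd_mul_left h1
    refine ⟨s, hs, ?_⟩
    have : q * P k = q * (p * s) := by
      have := hred k
      rw [hs] at this
      linear_combination this
    exact mul_left_cancel₀ hq0 this
  choose s hsQ hsP using hs
  have hs0 : ∀ k, s k ≠ 0 := by
    intro k h0
    have := hsQ k
    rw [h0, mul_zero] at this
    exact (hS k).hQ this
  refine no_rat hq0 hcop ?_
  by_cases hcase : phi F q * ser V = phi F p
  · exact ric_of_series hV hcase
  · -- the order of `q V - p` bounds the degrees of the `s k`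
    set E : LaurentSeries F := phi F q * ser V - phi F p with hE
    have hE0 : E ≠ 0 := sub_ne_zero.2 hcase
    have hord : E.orderTop = ((E.order : ℤ) : WithTop ℤ) :=
      (order_eq_orderTop_of_ne_zero hE0).symm
    have hdeg : ∀ k, ((s k).natDegree : ℤ) + 1 ≤ E.order := by
      intro k
      have j := (hS k).jet
      unfold Big at j
      have e : phi F (Q k) * ser V - phi F (P k) = phi F (s k) * E := by
        rw [hsQ k, hsP k, map_mul, map_mul, hE]
        ring
      have o1 : (phi F (s k)).orderTop ≤ ((-((s k).natDegree : ℤ) : ℤ) : WithTop ℤ) := by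
        apply orderTop_le_of_coeff_ne_zero
        rw [phi_coeff, if_pos (by omega)]
        simp only [neg_neg, Int.toNat_natCast, coeff_natDegree]
        exact leadingCoeff_ne_zero.2 (hs0 k)
      rw [e, orderTop_mul, hord] at j
      have j2 := j.trans (add_le_add_left o1 _)
      rw [← WithTop.coe_add] at j2
      have j3 : (1 : ℤ) ≤ -((s k).natDegree : ℤ) + E.order := by exact_mod_cast j2
      omega
    -- bad nodes are roots of `s k`
    have hbad : Set.Finite {n : ℕ | 1 ≤ n ∧ q.eval (n : F) * l (n + 1) ≠ p.eval (n : F) * l n} := by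
      by_contra hinf
      obtain ⟨t, ht, hc⟩ := Set.Infinite.exists_subset_card_eq hinf (E.order.toNat + 1)
      obtain ⟨k, hk⟩ : ∃ k, ∀ n ∈ t, n ≤ M + k := by
        refine ⟨t.sup id, fun n hn => ?_⟩
        have := Finset.le_sup (f := id) hn
        simp only [id] at this
        omega
      have hroots : ∀ n ∈ t, (s k).eval (n : F) = 0 := by
        intro n hn
        obtain ⟨hn1, hn2⟩ := ht hn
        have h3 := (hS k).node n hn1 (hk n hn)
        rw [hsQ k, hsP k, eval_mul, eval_mul] at h3
        have h4 : (s k).eval (n : F) * (q.eval (n : F) * l (n + 1) - p.eval (n : F) * l n) = 0 := by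
          linear_combination h3
        rcases mul_eq_zero.1 h4 with h0 | h0
        · exact h0
        · exact absurd (sub_eq_zero.1 h0) hn2
      have hz : s k = 0 := by
        refine eq_zero_of_degree_lt_of_eval_index_eq_zero (s := t)
          (v := fun n : ℕ => (n : F)) (fun a _ b _ hab => Nat.cast_injective hab) ?_ hroots
        rw [degree_eq_natDegree (hs0 k), hc]
        have := hdeg k
        exact_mod_cast (by omega : (s k).natDegree < E.order.toNat + 1)
      exact hs0 k hz
    obtain ⟨n0, hn0⟩ := hbad.bddAbove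
    refine ric_of_nodes hl hr (n0 := n0 + 1) fun n hn => ?_
    by_contra hne
    have := hn0 ⟨by omega, hne⟩
    omega

/-! ## Determinants -/

/-- coefficients of `V (1 / (n - 1))` -/
noncomputable def vm (v : ℕ → F) (j : ℕ) : F :=
  ∑ m ∈ Finset.range (j + 1), ((j - 1).choose (j - m) : F) * v m

theorem sh_mk (v : ℕ → F) : sh (PowerSeries.mk v) = PowerSeries.mk (vm v) := by
  ext j
  rw [PowerSeries.coeff_mk]
  rcases j with _ | k
  · have h : PowerSeries.coeff 0 (sh (PowerSeries.mk v)) = v 0 := by
      rw [sh_apply, PowerSeries.coeff_subst' tt_subst, finsum_eq_single _ 0]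
      · simp
      · intro d hd
        have e : PowerSeries.coeff 0 (tt F ^ d) = 0 := by
          unfold tt
          rw [mul_pow, PowerSeries.coeff_X_pow_mul', if_neg (by omega)]
        rw [e, smul_zero]
    rw [h]
    simp [vm]
  · rw [coeff_sh, vm, Finset.sum_range_succ' (fun m => ((k + 1 - 1).choose (k + 1 - m) : F) * v m)]
    have e0 : ((k + 1 - 1).choose (k + 1 - 0) : F) * v 0 = 0 := by
      have : (k + 1 - 1).choose (k + 1 - 0) = 0 := Nat.choose_eq_zero_of_lt (by omega)
      rw [this]
      simp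
    rw [e0, add_zero]
    refine Finset.sum_congr rfl fun m hm => ?_
    have hm' : m ≤ k := by
      have := Finset.mem_range.1 hm
      omega
    rw [PowerSeries.coeff_mk]
    have e1 : (k + 1 - 1).choose (k + 1 - (m + 1)) = k.choose m := by
      have a1 : k + 1 - 1 = k := by omega
      have a2 : k + 1 - (m + 1) = k - m := by omega
      rw [a1, a2]
      exact Nat.choose_symm hm'
    rw [e1]

/-- `v` is a formal solution of the Riccati equation -/
def IsFormalSol (v : ℕ → F) : Prop :=
  (1 + PowerSeries.X) ^ 3 * PowerSeries.mk v * PowerSeries.mk (vm v) -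
    (PowerSeries.C 34 + PowerSeries.C 51 * PowerSeries.X + PowerSeries.C 27 * PowerSeries.X ^ 2 +
      PowerSeries.C 5 * PowerSeries.X ^ 3) * PowerSeries.mk (vm v) + 1 = 0

/-- the matrix of the problem for a family `B` of polynomials -/
noncomputable def matB (V : PowerSeries F) (l : ℕ → F) (B : ℕ → F[X]) (N : ℕ) :
    Matrix (Fin N) (Fin N) F := Matrix.of fun n i =>
  (B i).eval (((n : ℕ) + 1 : ℕ) : F) * l ((n : ℕ) + 2) -
    (pp V (B i)).eval (((n : ℕ) + 1 : ℕ) : F) * l ((n : ℕ) + 1)

theorem sum_ne_zero {B : ℕ → F[X]} (hB : ∀ i, (B i).degree = i) {N : ℕ} {c : Fin N → F}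
    (hc : c ≠ 0) : ∑ i : Fin N, C (c i) * B i ≠ 0 := by
  classical
  obtain ⟨i0, hi0⟩ := Function.ne_iff.1 hc
  have hne : (Finset.univ.filter fun i : Fin N => c i ≠ 0).Nonempty :=
    ⟨i0, by simpa using hi0⟩
  set j := (Finset.univ.filter fun i : Fin N => c i ≠ 0).max' hne with hj
  have hj1 : c j ≠ 0 := by
    have := Finset.max'_mem _ hne
    rw [← hj] at this
    simpa using this
  have hj2 : ∀ i : Fin N, j < i → c i = 0 := by
    intro i hi
    by_contra h0
    have hm : i ∈ Finset.univ.filter fun i : Fin N => c i ≠ 0 := by simpa using h0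
    have := Finset.le_max' _ i hm
    rw [← hj] at this
    exact absurd (lt_of_lt_of_le hi this) (lt_irrefl _)
  intro h0
  have h1 := congrArg (fun f => Polynomial.coeff f (j : ℕ)) h0
  simp only [finsetSum_coeff, Polynomial.coeff_C_mul, Polynomial.coeff_zero] at h1
  rw [Finset.sum_eq_single j] at h1
  · rcases mul_eq_zero.1 h1 with h2 | h2
    · exact hj1 h2
    · have h3 : (B j).natDegree = (j : ℕ) := natDegree_eq_of_degree_eq_some (hB j)
      have h4 : (B j).leadingCoeff = 0 := by
        rw [Polynomial.leadingCoeff, h3]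
        exact h2
      rw [Polynomial.leadingCoeff_eq_zero] at h4
      have := hB j
      rw [h4, degree_zero] at this
      exact absurd this (by simp)
  · intro i _ hij
    rcases lt_or_gt_of_ne hij with h2 | h2
    · have : (B i).coeff (j : ℕ) = 0 := by
        apply coeff_eq_zero_of_degree_lt
        rw [hB i]
        exact_mod_cast h2
      rw [this, mul_zero]
    · rw [hj2 i h2, zero_mul]
  · intro h2
    exact absurd (Finset.mem_univ j) h2

/-- for infinitely many `N` the determinant is not zero -/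
theorem det_ne_zero [CharZero F] {V : PowerSeries F} (hV : Ric V) {l : ℕ → F}
    (hl : ∀ n, 1 ≤ n → l n ≠ 0) (hr : Rec l) {B : ℕ → F[X]} (hB : ∀ i, (B i).degree = i) (M : ℕ) :
    ∃ N, M ≤ N ∧ (matB V l B N).det ≠ 0 := by
  obtain ⟨N, hN, hno⟩ := core hV hl hr M
  refine ⟨N, hN, fun hdet => hno ?_⟩
  obtain ⟨c, hc, hmul⟩ := Matrix.exists_mulVec_eq_zero_iff.2 hdet
  set Q : F[X] := ∑ i : Fin N, C (c i) * B i with hQ
  have hQ0 : Q ≠ 0 := sum_ne_zero hB hc
  have dQ : Q.degree < N := by
    rw [degree_lt_iff_coeff_zero]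
    intro k hk
    rw [hQ, finsetSum_coeff]
    refine Finset.sum_eq_zero fun i _ => ?_
    have : (B i).coeff k = 0 := by
      apply coeff_eq_zero_of_degree_lt
      rw [hB i]
      have := i.2
      exact_mod_cast (by omega : (i : ℕ) < k)
    rw [Polynomial.coeff_C_mul, this, mul_zero]
  have hN0 : 0 < N := by
    rcases Nat.eq_zero_or_pos N with h0 | h0
    · subst h0
      exact absurd (_root_.funext fun i : Fin 0 => i.elim0) hc
    · exact h0
  obtain ⟨m, rfl⟩ : ∃ m, N = m + 1 := ⟨N - 1, by omega⟩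
  refine ⟨pp V Q, Q, hQ0, dQ, ?_, ?_, pp_spec V Q⟩
  · refine lt_of_le_of_lt (pp_degree (deg_le dQ)) ?_
    exact_mod_cast Nat.lt_succ_self m
  · intro n hn1 hn2
    have h1 := congrFun hmul ⟨n - 1, by omega⟩
    have e1 : (n - 1 : ℕ) + 1 = n := by omega
    have e2 : (n - 1 : ℕ) + 2 = n + 1 := by omega
    simp only [Matrix.mulVec, dotProduct, matB, Matrix.of_apply, Pi.zero_apply, e1, e2] at h1
    have h2 : Q.eval (n : F) = ∑ i : Fin (m + 1), c i * (B i).eval (n : F) := by
      rw [hQ, eval_finsetSum]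
      refine Finset.sum_congr rfl fun i _ => ?_
      rw [eval_mul, eval_C]
    have h3 : (pp V Q).eval (n : F) = ∑ i : Fin (m + 1), c i * (pp V (B i)).eval (n : F) := by
      rw [hQ, map_sum, eval_finsetSum]
      refine Finset.sum_congr rfl fun i _ => ?_
      rw [← smul_eq_C_mul, map_smul, eval_smul, smul_eq_mul]
    rw [h2, h3, Finset.sum_mul, Finset.sum_mul]
    have h4 : (∑ i : Fin (m + 1), c i * (B i).eval (n : F) * l (n + 1)) -
        ∑ i : Fin (m + 1), c i * (pp V (B i)).eval (n : F) * l n = 0 := by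
      rw [← Finset.sum_sub_distrib, ← h1]
      refine Finset.sum_congr rfl fun i _ => ?_
      ring
    exact sub_eq_zero.1 h4

theorem pp_X_pow_eval (v : ℕ → F) (i : ℕ) (x : F) :
    (pp (PowerSeries.mk v) (X ^ i)).eval x = ∑ m ∈ Finset.range (i + 1), v m * x ^ (i - m) := by
  rw [← monomial_one_right_eq_X_pow, pp_monomial, one_smul, mono, eval_finsetSum,
    ← Finset.sum_range_reflect]
  refine Finset.sum_congr rfl fun m hm => ?_
  have hm' : m ≤ i := by
    have := Finset.mem_range.1 hm
    omega
  rw [eval_monomial, PowerSeries.coeff_mk]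
  have e1 : i - (i + 1 - 1 - m) = m := by omega
  have e2 : i + 1 - 1 - m = i - m := by omega
  rw [e1, e2]

/-- **Non-vanishing**, in the normal form with the powers of `n` -/
theorem nonvan [CharZero F] {v : ℕ → F} (hv : IsFormalSol v) {l : ℕ → F}
    (hl : ∀ n, 1 ≤ n → l n ≠ 0) (hr : Rec l) (M : ℕ) :
    ∃ N, M ≤ N ∧ (Matrix.of fun (n i : Fin N) =>
      (((n : ℕ) + 1 : ℕ) : F) ^ (i : ℕ) * l ((n : ℕ) + 2) -
        (∑ m ∈ Finset.range ((i : ℕ) + 1), v m * (((n : ℕ) + 1 : ℕ) : F) ^ ((i : ℕ) - m)) *
          l ((n : ℕ) + 1)).det ≠ 0 := by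
  have hV : Ric (PowerSeries.mk v) := by
    unfold Ric
    rw [sh_mk]
    exact hv
  obtain ⟨N, hN, hd⟩ := det_ne_zero hV hl hr (B := fun i => X ^ i) (fun i => degree_X_pow i) M
  refine ⟨N, hN, ?_⟩
  convert hd using 2
  ext n i
  simp only [matB, Matrix.of_apply, pp_X_pow_eval, eval_pow, eval_X]

end QS2.NV
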