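import Pool.Agent.QS2.NonVan

/-!
# Non-vanishing along a chain of configurations

A configuration is a finite set `S` of integer nodes, a number `R` of jets and a number `c` of
columns, with `2 * c = #S + R`.
-/

set_option autoImplicit false

namespace QS2.NV

open Polynomial HahnSeries

variable {F : Type*} [Field F]

theorem phi_order' {P : F[X]} {m : ℕ} (h : P.degree < m) :
    (((1 : ℤ) - m : ℤ) : WithTop ℤ) ≤ (phi F P).orderTop := by
  rw [le_orderTop_iff_forall]
  intro j hj
  have hj' : j < (1 : ℤ) - m := by exact_mod_cast hj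
  rw [phi_coeff]
  split_ifs with h0
  · apply coeff_eq_zero_of_degree_lt
    refine lt_of_lt_of_le h ?_
    have : m ≤ (-j).toNat := by omega
    exact_mod_cast this
  · rfl

theorem degree_of_order' {P : F[X]} {m : ℕ}
    (h : (((1 : ℤ) - m : ℤ) : WithTop ℤ) ≤ (phi F P).orderTop) : P.degree < m := by
  rw [le_orderTop_iff_forall] at h
  rw [degree_lt_iff_coeff_zero]
  intro k hk
  have := h (-(k : ℤ)) (by exact_mod_cast (by omega : -(k : ℤ) < 1 - m))
  rw [phi_coeff, if_pos (by omega)] at this
  simpa using this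

/-- `(P, Q)` solves the interpolation problem for the configuration `(S, R, c)` -/
structure Sol2 (V : PowerSeries F) (u : ℤ → F) (S : Finset ℤ) (R c : ℕ) (P Q : F[X]) : Prop where
  hPQ : P ≠ 0 ∨ Q ≠ 0
  dQ : Q.degree < c
  dP : P.degree < c
  node : ∀ n ∈ S, Q.eval (n : F) * u (n + 1) = P.eval (n : F) * u n
  jet : (((R : ℤ) + 1 - c : ℤ) : WithTop ℤ) ≤ (phi F Q * ser V - phi F P).orderTop

theorem eq_zero_of_nodes' [CharZero F] {E : F[X]} {S : Finset ℤ} (hd : E.degree < S.card)
    (h : ∀ n ∈ S, E.eval (n : F) = 0) : E = 0 :=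
  eq_zero_of_degree_lt_of_eval_index_eq_zero (s := S) (v := fun n : ℤ => (n : F))
    (fun _ _ _ _ hab => Int.cast_injective hab) hd h

theorem Sol2.Q_ne [CharZero F] {V : PowerSeries F} {u : ℤ → F} {S : Finset ℤ} {R c : ℕ}
    (hu : ∀ n ∈ S, u n ≠ 0) (hc : 2 * c = S.card + R) {P Q : F[X]} (h : Sol2 V u S R c P Q) :
    Q ≠ 0 := by
  intro hQ
  have hP : P = 0 := by
    apply eq_zero_of_nodes' (S := S)
    · have j := h.jet
      rw [hQ, map_zero, zero_mul, zero_sub] at j
      apply degree_of_order'
      rw [le_orderTop_iff_forall] at j ⊢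
      intro k hk
      have hk' : k < (1 : ℤ) - S.card := by exact_mod_cast hk
      have := j k (by exact_mod_cast (by omega : k < (R : ℤ) + 1 - c))
      rw [HahnSeries.coeff_neg, neg_eq_zero] at this
      exact this
    · intro n hn
      have := h.node n hn
      rw [hQ, eval_zero, zero_mul] at this
      rcases mul_eq_zero.1 this.symm with h0 | h0
      · exact h0
      · exact absurd h0 (hu n hn)
  rcases h.hPQ with h0 | h0
  · exact h0 hP
  · exact h0 hQ

theorem Sol2.cross [CharZero F] {V : PowerSeries F} {u : ℤ → F} {S S' : Finset ℤ} {R R' c : ℕ}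
    (hu : ∀ n ∈ S, u n ≠ 0) (hc : 2 * c = S.card + R) (hS : S ⊆ S') (hR : R ≤ R')
    {P Q P' Q' : F[X]} (h : Sol2 V u S R c P Q) (h' : Sol2 V u S' R' (c + 1) P' Q') :
    P * Q' = P' * Q := by
  have a1 := le_mul (phi_order' h.dQ) h'.jet
  have a2 := le_mul (phi_order' h'.dQ) h.jet
  have hE : P * Q' - P' * Q = 0 := by
    apply eq_zero_of_nodes' (S := S)
    · apply degree_of_order'
      have e : phi F (P * Q' - P' * Q) = phi F Q * (phi F Q' * ser V - phi F P') -
          phi F Q' * (phi F Q * ser V - phi F P) := by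
        rw [map_sub, map_mul, map_mul]
        ring
      rw [e]
      apply le_sub
      · refine le_trans ?_ a1
        rw [← WithTop.coe_add]
        exact_mod_cast (by push_cast; omega :
          (1 : ℤ) - S.card ≤ (1 : ℤ) - c + ((R' : ℤ) + 1 - ((c + 1 : ℕ) : ℤ)))
      · refine le_trans ?_ a2
        rw [← WithTop.coe_add]
        exact_mod_cast (by push_cast; omega :
          (1 : ℤ) - S.card ≤ (1 : ℤ) - ((c + 1 : ℕ) : ℤ) + ((R : ℤ) + 1 - c))
    · intro n hn
      have b1 := h.node n hn
      have b2 := h'.node n (hS hn)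
      rw [eval_sub, eval_mul, eval_mul]
      have : u n * (P.eval (n : F) * Q'.eval (n : F) - P'.eval (n : F) * Q.eval (n : F)) = 0 := by
        linear_combination Q.eval (n : F) * b2 - Q'.eval (n : F) * b1
      rcases mul_eq_zero.1 this with h0 | h0
      · exact absurd h0 (hu n hn)
      · exact h0
  exact sub_eq_zero.1 hE

/-- the recurrence at the integer `n` -/
def RecAt (u : ℤ → F) (n : ℤ) : Prop :=
  ((n : F) + 1) ^ 3 * u (n + 1) =
    (34 * (n : F) ^ 3 + 51 * (n : F) ^ 2 + 27 * (n : F) + 5) * u n - (n : F) ^ 3 * u (n - 1)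

theorem ric_of_int [CharZero F] {u : ℤ → F} {p q : F[X]} {G : Set ℤ} (hG : G.Infinite)
    (h1 : ∀ n ∈ G, u n ≠ 0 ∧ u (n - 1) ≠ 0) (h2 : ∀ n ∈ G, RecAt u n)
    (h3 : ∀ n ∈ G, q.eval (n : F) * u (n + 1) = p.eval (n : F) * u n)
    (h4 : ∀ n ∈ G, q.eval ((n - 1 : ℤ) : F) * u n = p.eval ((n - 1 : ℤ) : F) * u (n - 1)) :
    RicPoly p q := by
  unfold RicPoly
  set E : F[X] := (X + 1) ^ 3 * p * taylor (-1) p - aq F * taylor (-1) p * q +
    X ^ 3 * q * taylor (-1) q with hE
  by_contra hne
  have hinf : Set.Infinite {x : F | E.eval x = 0} := by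
    refine Set.Infinite.mono (s := (fun n : ℤ => (n : F)) '' G) ?_ ?_
    · rintro _ ⟨n, hn, rfl⟩
      have b1 := h3 n hn
      have b2 := h4 n hn
      have b3 := h2 n hn
      unfold RecAt at b3
      have c1 : (n : F) + -1 = ((n - 1 : ℤ) : F) := by push_cast; ring
      have t1 : (taylor (-1) p).eval (n : F) = p.eval ((n - 1 : ℤ) : F) := by
        rw [taylor_eval, c1]
      have t2 : (taylor (-1) q).eval (n : F) = q.eval ((n - 1 : ℤ) : F) := by
        rw [taylor_eval, c1]
      show E.eval (n : F) = 0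
      rw [hE]
      simp only [eval_add, eval_sub, eval_mul, eval_pow, eval_X, eval_one, aq, eval_C, t1, t2]
      set z : F := (n : F) with hz
      set pm := p.eval ((n - 1 : ℤ) : F) with hpm
      set qm := q.eval ((n - 1 : ℤ) : F) with hqm
      have key : (u (n - 1) * u n) * ((z + 1) ^ 3 * p.eval z * pm -
          (34 * z ^ 3 + 51 * z ^ 2 + 27 * z + 5) * pm * q.eval z +
          z ^ 3 * q.eval z * qm) = 0 := by
        linear_combination (-(z + 1) ^ 3 * pm * u (n - 1)) * b1 +
          (-(z + 1) ^ 3 * q.eval z * u (n + 1) +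
            (34 * z ^ 3 + 51 * z ^ 2 + 27 * z + 5) * q.eval z * u n) * b2 +
          (q.eval z * qm * u n) * b3
      rcases mul_eq_zero.1 key with h0 | h0
      · exact absurd h0 (mul_ne_zero (h1 n hn).2 (h1 n hn).1)
      · exact h0
    · exact hG.image (Int.cast_injective.injOn)
  exact hne (eq_zero_of_infinite_isRoot E hinf)

/-- the nodes `1, ..., A` and `-2 - m`, `1 ≤ m ≤ A` -/
noncomputable def nod (A : ℕ) : Finset ℤ := Finset.Icc 1 (A : ℤ) ∪ Finset.Icc (-2 - (A : ℤ)) (-3)

theorem nod_disj (A : ℕ) : Disjoint (Finset.Icc 1 (A : ℤ)) (Finset.Icc (-2 - (A : ℤ)) (-3)) := by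
  rw [Finset.disjoint_left]
  intro z hz hz2
  rw [Finset.mem_Icc] at hz hz2
  omega

theorem card_nod (A : ℕ) : (nod A).card = 2 * A := by
  unfold nod
  rw [Finset.card_union_of_disjoint (nod_disj A), Int.card_Icc, Int.card_Icc]
  omega

theorem mem_nod {A : ℕ} {z : ℤ} : z ∈ nod A ↔ (1 ≤ z ∧ z ≤ A) ∨ (-2 - (A : ℤ) ≤ z ∧ z ≤ -3) := by
  unfold nod
  rw [Finset.mem_union, Finset.mem_Icc, Finset.mem_Icc]

theorem nod_mono {A B : ℕ} (h : A ≤ B) : nod A ⊆ nod B := by
  intro z hz
  rw [mem_nod] at hz ⊢
  omega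

/-- nodes whose left neighbour is a node -/
noncomputable def prs (A : ℕ) : Finset ℤ := Finset.Icc 2 (A : ℤ) ∪ Finset.Icc (-1 - (A : ℤ)) (-3)

theorem mem_prs {A : ℕ} {z : ℤ} : z ∈ prs A ↔ (2 ≤ z ∧ z ≤ A) ∨ (-1 - (A : ℤ) ≤ z ∧ z ≤ -3) := by
  unfold prs
  rw [Finset.mem_union, Finset.mem_Icc, Finset.mem_Icc]

theorem card_prs (A : ℕ) : 2 * A ≤ (prs A).card + 2 := by
  unfold prs
  rw [Finset.card_union_of_disjoint, Int.card_Icc, Int.card_Icc]
  · omega
  · rw [Finset.disjoint_left]
    intro z hz hz2
    rw [Finset.mem_Icc] at hz hz2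
    omega

/-- **Non-vanishing along the symmetric chain**: `c` columns, `2 * (c / 3)` jets,
`c - c / 3` nodes on each side. -/
theorem core2 [CharZero F] {V : PowerSeries F} (hV : Ric V) {u : ℤ → F}
    (hu : ∀ z : ℤ, (1 ≤ z ∨ z ≤ -3) → u z ≠ 0) (hr : ∀ z : ℤ, (2 ≤ z ∨ z ≤ -3) → RecAt u z)
    (M : ℕ) : ∃ c, M ≤ c ∧ ¬ ∃ P Q : F[X], Sol2 V u (nod (c - c / 3)) (2 * (c / 3)) c P Q := by
  classical
  by_contra hcon
  push Not at hcon
  have hsol : ∀ k : ℕ, ∃ P Q : F[X],
      Sol2 V u (nod (M + k - (M + k) / 3)) (2 * ((M + k) / 3)) (M + k) P Q :=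
    fun k => hcon (M + k) (by omega)
  choose P Q hS using hsol
  have hun : ∀ A : ℕ, ∀ z ∈ nod A, u z ≠ 0 := by
    intro A z hz
    rw [mem_nod] at hz
    exact hu z (by omega)
  have hcc : ∀ c : ℕ, 2 * c = (nod (c - c / 3)).card + 2 * (c / 3) := by
    intro c
    rw [card_nod]
    omega
  have hQ : ∀ k, Q k ≠ 0 := fun k => (hS k).Q_ne (hun _) (hcc _)
  have hstep : ∀ k, P k * Q (k + 1) = P (k + 1) * Q k := by
    intro k
    refine (hS k).cross (S' := nod (M + (k + 1) - (M + (k + 1)) / 3))
      (R' := 2 * ((M + (k + 1)) / 3)) (hun _) (hcc _) (nod_mono (by omega)) (by omega) ?_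
    exact hS (k + 1)
  have hall : ∀ k, P k * Q 0 = P 0 * Q k := by
    intro k
    induction k with
    | zero => rfl
    | succ k ih =>
      have : Q k * (P (k + 1) * Q 0) = Q k * (P 0 * Q (k + 1)) := by
        linear_combination Q (k + 1) * ih - Q 0 * hstep k
      exact mul_left_cancel₀ (hQ k) this
  obtain ⟨g, p, q, eP, eQ, hcop, hg0, hq0⟩ := reduced (P 0) (hQ 0)
  have hred : ∀ k, P k * q = p * Q k := by
    intro k
    have : g * (P k * q) = g * (p * Q k) := by
      have := hall k
      rw [eP, eQ] at this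
      linear_combination this
    exact mul_left_cancel₀ hg0 this
  have hs : ∀ k, ∃ s : F[X], Q k = q * s ∧ P k = p * s := by
    intro k
    have h1 : q ∣ p * Q k := ⟨P k, by rw [← hred k]; ring⟩
    obtain ⟨s, hs⟩ := hcop.symm.dvd_of_dvd_mul_left h1
    refine ⟨s, hs, ?_⟩
    have : q * P k = q * (p * s) := by
      have := hred k
      rw [hs] at this
      linear_combination this
    exact mul_left_cancel₀ hq0 this
  choose s hsQ hsP using hs
  have hs0 : ∀ k, s k ≠ 0 := by
    intro k h0
    have := hsQ k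
    rw [h0, mul_zero] at this
    exact hQ k this
  refine no_rat hq0 hcop ?_
  by_cases hcase : phi F q * ser V = phi F p
  · exact ric_of_series hV hcase
  · set E : LaurentSeries F := phi F q * ser V - phi F p with hE
    have hE0 : E ≠ 0 := sub_ne_zero.2 hcase
    have hord : E.orderTop = ((E.order : ℤ) : WithTop ℤ) :=
      (order_eq_orderTop_of_ne_zero hE0).symm
    have hdeg : ∀ k, ((s k).natDegree : ℤ) + 1 + 2 * ((M + k) / 3 : ℕ) ≤ (M + k : ℕ) + E.order := by
      intro k
      have j := (hS k).jet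
      have e : phi F (Q k) * ser V - phi F (P k) = phi F (s k) * E := by
        rw [hsQ k, hsP k, map_mul, map_mul, hE]
        ring
      have o1 : (phi F (s k)).orderTop ≤ ((-((s k).natDegree : ℤ) : ℤ) : WithTop ℤ) := by
        apply orderTop_le_of_coeff_ne_zero
        rw [phi_coeff, if_pos (by omega)]
        simp only [neg_neg, Int.toNat_natCast, coeff_natDegree]
        exact leadingCoeff_ne_zero.2 (hs0 k)
      rw [e, orderTop_mul, hord] at j
      have j2 := j.trans (add_le_add_left o1 _)
      rw [← WithTop.coe_add] at j2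
      have j3 := WithTop.coe_le_coe.1 j2
      push_cast at j3 ⊢
      linarith
    set good : ℤ → Prop := fun z => q.eval (z : F) * u (z + 1) = p.eval (z : F) * u z with hgood
    have hbad : ∀ k, (((nod (M + k - (M + k) / 3)).filter fun z => ¬ good z).card : ℤ) ≤
        (s k).natDegree := by
      intro k
      by_contra hlt
      push Not at hlt
      have hz : s k = 0 := by
        refine eq_zero_of_nodes' (S := (nod (M + k - (M + k) / 3)).filter fun z => ¬ good z) ?_ ?_
        · rw [degree_eq_natDegree (hs0 k)]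
          exact_mod_cast hlt
        · intro z hz
          rw [Finset.mem_filter] at hz
          have h3 := (hS k).node z hz.1
          rw [hsQ k, hsP k, eval_mul, eval_mul] at h3
          have h4 : (s k).eval (z : F) * (q.eval (z : F) * u (z + 1) - p.eval (z : F) * u z) =
              0 := by
            linear_combination h3
          rcases mul_eq_zero.1 h4 with h0 | h0
          · exact h0
          · exact absurd (sub_eq_zero.1 h0) hz.2
      exact hs0 k hz
    set G : Set ℤ := {z | (2 ≤ z ∨ z ≤ -3) ∧ good z ∧ good (z - 1)} with hG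
    have hcount : ∀ k, (2 * ((M + k) / 3 : ℕ) : ℤ) - 2 * E.order ≤
        (((prs (M + k - (M + k) / 3)).filter fun z => good z ∧ good (z - 1)).card : ℤ) := by
      intro k
      set A := M + k - (M + k) / 3 with hA
      set bad := (nod A).filter fun z => ¬ good z with hb
      have h1 : prs A ⊆ ((prs A).filter fun z => good z ∧ good (z - 1)) ∪
          (bad ∪ bad.image fun z => z + 1) := by
        intro z hz
        rw [Finset.mem_union]
        by_cases h2 : good z ∧ good (z - 1)
        · left
          rw [Finset.mem_filter]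
          exact ⟨hz, h2⟩
        · right
          rw [mem_prs] at hz
          rw [Finset.mem_union]
          by_cases h3 : good z
          · right
            rw [Finset.mem_image]
            refine ⟨z - 1, ?_, by ring⟩
            rw [hb, Finset.mem_filter, mem_nod]
            refine ⟨by omega, fun h4 => h2 ⟨h3, h4⟩⟩
          · left
            rw [hb, Finset.mem_filter, mem_nod]
            exact ⟨by omega, h3⟩
      have h2 := Finset.card_le_card h1
      have h3 := Finset.card_union_le ((prs A).filter fun z => good z ∧ good (z - 1))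
        (bad ∪ bad.image fun z => z + 1)
      have h4 := Finset.card_union_le bad (bad.image fun z => z + 1)
      have h5 : (bad.image fun z => z + 1).card ≤ bad.card := Finset.card_image_le
      have h6 := card_prs A
      have h7 : ((bad.card : ℕ) : ℤ) ≤ (s k).natDegree := hbad k
      have h8 := hdeg k
      omega
    have hGinf : G.Infinite := by
      intro hfin
      set k := 3 * (hfin.toFinset.card + E.order.toNat + 1) with hk
      have h1 := hcount k
      have h2 : ((prs (M + k - (M + k) / 3)).filter fun z => good z ∧ good (z - 1)) ⊆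
          hfin.toFinset := by
        intro z hz
        rw [Finset.mem_filter, mem_prs] at hz
        rw [Set.Finite.mem_toFinset]
        exact ⟨by omega, hz.2⟩
      have h3 := Finset.card_le_card h2
      omega
    refine ric_of_int (u := u) hGinf ?_ ?_ ?_ ?_
    · rintro z ⟨hz, -, -⟩
      exact ⟨hu z (by omega), hu (z - 1) (by omega)⟩
    · rintro z ⟨hz, -, -⟩
      exact hr z hz
    · rintro z ⟨-, hz, -⟩
      exact hz
    · rintro z ⟨-, -, hz⟩
      have e : z - 1 + 1 = z := by ring
      have hz' : q.eval ((z - 1 : ℤ) : F) * u (z - 1 + 1) = p.eval ((z - 1 : ℤ) : F) * u (z - 1) :=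
        hz
      rwa [e] at hz'

end QS2.NV
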