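import Pool.Agent.QS2.Defs

/-!
# Convergence of the coefficients of the convergents to the formal solution
-/

set_option autoImplicit false

namespace Pool.Agent.QS2

open Finset Filter Topology PowerSeries
open _root_.QS2 (shm IsFormal)

theorem tend_zero_of_contr (x e : ℕ → ℝ) (hx : ∀ M, 0 ≤ x M) (he : Tendsto e atTop (𝓝 0))
    (h : ∀ᶠ M in atTop, x (M + 1) ≤ x M / 2 + e M) : Tendsto x atTop (𝓝 0) := by
  rw [Metric.tendsto_atTop]
  intro ε hε
  have h1 : ∀ᶠ M in atTop, e M < ε / 4 := he.eventually (gt_mem_nhds (by linarith))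
  obtain ⟨M0, hM0⟩ := eventually_atTop.mp (h.and h1)
  have h2 : ∀ n, x (M0 + n) ≤ x M0 / 2 ^ n + ε / 2 := by
    intro n
    induction n with
    | zero => simp; linarith
    | succ n ih =>
      have h3 := (hM0 (M0 + n) (by omega)).1
      have h4 := (hM0 (M0 + n) (by omega)).2
      rw [show M0 + (n + 1) = M0 + n + 1 by ring]
      have : x M0 / 2 ^ (n + 1) = x M0 / 2 ^ n / 2 := by rw [pow_succ]; field_simp
      rw [this]
      linarith
  have h3 : Tendsto (fun n : ℕ => x M0 / 2 ^ n) atTop (𝓝 0) := by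
    have := (tendsto_pow_atTop_nhds_zero_of_lt_one (r := (1 / 2 : ℝ)) (by norm_num)
      (by norm_num)).const_mul (x M0)
    simp only [mul_zero] at this
    refine this.congr (fun n => ?_)
    rw [one_div, inv_pow, div_eq_mul_inv]
  obtain ⟨n0, hn0⟩ := eventually_atTop.mp (h3.eventually (gt_mem_nhds (by linarith : (0:ℝ) < ε / 2)))
  refine ⟨M0 + n0, fun M hM => ?_⟩
  obtain ⟨n, rfl⟩ := Nat.exists_eq_add_of_le hM
  have h5 := h2 (n0 + n)
  have h6 := hn0 (n0 + n) (by omega)
  rw [Real.dist_eq, sub_zero, abs_of_nonneg (hx _)]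
  rw [show M0 + n0 + n = M0 + (n0 + n) by ring]
  linarith

theorem c0mul (f g : PowerSeries ℂ) : coeff 0 (f * g) = coeff 0 f * coeff 0 g := by
  simp only [coeff_zero_eq_constantCoeff, map_mul]

theorem coeff_mk_mul (f g : ℕ → ℂ) (a : ℕ) :
    coeff a (PowerSeries.mk f * PowerSeries.mk g) = ∑ i ∈ range (a + 1), f i * g (a - i) := by
  rw [coeff_mul, Finset.Nat.sum_antidiagonal_eq_sum_range_succ_mk]
  simp

/-- product of two sequences of series whose lower coefficients tend to `0` -/
theorem prod_tend (f g : ℕ → ℕ → ℂ) (a : ℕ)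
    (hf : ∀ i < a + 1, Tendsto (fun M => f M i) atTop (𝓝 0))
    (hg : ∀ i < a + 1, Tendsto (fun M => g M i) atTop (𝓝 0)) :
    Tendsto (fun M => coeff (a + 1) (PowerSeries.mk (f M) * PowerSeries.mk (g M)) -
      (f M 0 * g M (a + 1) + f M (a + 1) * g M 0)) atTop (𝓝 0) := by
  have h1 : ∀ M, coeff (a + 1) (PowerSeries.mk (f M) * PowerSeries.mk (g M)) -
      (f M 0 * g M (a + 1) + f M (a + 1) * g M 0) = ∑ i ∈ range a, f M (i + 1) * g M (a - i) := by
    intro M
    rw [coeff_mk_mul, sum_range_succ, sum_range_succ']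
    simp only [Nat.sub_zero, Nat.sub_self]
    have : ∀ i ∈ range a, f M (i + 1) * g M (a + 1 - (i + 1)) = f M (i + 1) * g M (a - i) := by
      intro i _
      rw [Nat.add_sub_add_right]
    rw [sum_congr rfl this]
    ring
  refine Tendsto.congr (fun M => (h1 M).symm) ?_
  have h2 : (0 : ℂ) = ∑ i ∈ range a, (0 : ℂ) * 0 := by simp
  rw [h2]
  refine tendsto_finsetSum _ (fun i hi => ?_)
  have := mem_range.mp hi
  exact (hf (i + 1) (by omega)).mul (hg (a - i) (by omega))

/-- product with a fixed series -/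
theorem prod_fix (G : PowerSeries ℂ) (g : ℕ → ℕ → ℂ) (a : ℕ)
    (hg : ∀ i < a, Tendsto (fun M => g M i) atTop (𝓝 0)) :
    Tendsto (fun M => coeff a (G * PowerSeries.mk (g M)) - coeff 0 G * g M a) atTop (𝓝 0) := by
  have h1 : ∀ M, coeff a (G * PowerSeries.mk (g M)) - coeff 0 G * g M a =
      ∑ i ∈ range a, coeff (i + 1) G * g M (a - (i + 1)) := by
    intro M
    rw [coeff_mul, Finset.Nat.sum_antidiagonal_eq_sum_range_succ_mk, sum_range_succ']
    simp
  refine Tendsto.congr (fun M => (h1 M).symm) ?_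
  have h2 : (0 : ℂ) = ∑ i ∈ range a, coeff (i + 1) G * 0 := by simp
  rw [h2]
  refine tendsto_finsetSum _ (fun i hi => ?_)
  have := mem_range.mp hi
  exact (hg (a - (i + 1)) (by omega)).const_mul _

theorem shm_lt (g : ℕ → ℕ → ℂ) (a : ℕ)
    (hg : ∀ i < a, Tendsto (fun M => g M i) atTop (𝓝 0)) (i : ℕ) (hi : i < a) :
    Tendsto (fun M => shm (g M) i) atTop (𝓝 0) := by
  have h2 : (0 : ℂ) = ∑ m ∈ range (i + 1), (((i - 1).choose (i - m) : ℕ) : ℂ) * 0 := by simp
  rw [h2]
  refine tendsto_finsetSum _ (fun m hm => ?_)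
  have := mem_range.mp hm
  exact (hg m (by omega)).const_mul _

theorem shm_eq' (g : ℕ → ℕ → ℂ) (a : ℕ)
    (hg : ∀ i < a, Tendsto (fun M => g M i) atTop (𝓝 0)) :
    Tendsto (fun M => shm (g M) a - g M a) atTop (𝓝 0) := by
  have h1 : ∀ M, shm (g M) a - g M a = ∑ m ∈ range a, (((a - 1).choose (a - m) : ℕ) : ℂ) * g M m := by
    intro M
    unfold shm
    rw [sum_range_succ]
    simp
  refine Tendsto.congr (fun M => (h1 M).symm) ?_
  have h2 : (0 : ℂ) = ∑ m ∈ range a, (((a - 1).choose (a - m) : ℕ) : ℂ) * 0 := by simp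
  rw [h2]
  refine tendsto_finsetSum _ (fun m hm => ?_)
  have := mem_range.mp hm
  exact (hg m (by omega)).const_mul _

theorem shm_sub (f g : ℕ → ℂ) (j : ℕ) : shm (fun a => f a - g a) j = shm f j - shm g j := by
  unfold shm
  rw [← sum_sub_distrib]
  exact sum_congr rfl (fun m _ => by ring)

theorem shm_zero (f : ℕ → ℂ) : shm f 0 = f 0 := by
  simp [shm]

/-- `34 + 51 X + 27 X^2 + 5 X^3` -/
noncomputable def qX : PowerSeries ℂ := 34 + 51 * X + 27 * X ^ 2 + 5 * X ^ 3

theorem qX_zero : coeff 0 qX = 34 := by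
  unfold qX
  simp only [coeff_zero_eq_constantCoeff, map_add, map_mul, map_pow, constantCoeff_X, mul_zero,
    add_zero, ne_eq, OfNat.ofNat_ne_zero, not_false_eq_true, zero_pow]
  exact map_ofNat _ 34

/-- **Convergence of coefficients.** -/
theorem coeff_tendsto (V : ℕ → ℕ → ℂ) (v : ℕ → ℂ) (hv : IsFormal v) (hv0 : ‖v 0‖ ≤ 1)
    (hV0 : ‖V 0 0‖ ≤ 1)
    (hrec : ∀ M, PowerSeries.mk (shm (V (M + 1))) *
      (qX - (1 + X) ^ 3 * PowerSeries.mk (V M)) = 1) (a : ℕ) :
    Tendsto (fun M => V M a) atTop (𝓝 (v a)) := by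
  -- constant coefficients
  have h0 : ∀ M, V (M + 1) 0 * (34 - V M 0) = 1 := by
    intro M
    have h := congrArg (coeff 0) (hrec M)
    rw [c0mul] at h
    simp only [coeff_mk, shm_zero, map_sub, qX_zero] at h
    rw [c0mul] at h
    simp only [coeff_mk, coeff_one, if_true] at h
    have h3 : (coeff 0) ((1 + X) ^ 3 : PowerSeries ℂ) = 1 := by simp
    rw [h3, one_mul] at h
    exact h
  have hVf : ∀ M, ‖V M 0‖ ≤ 1 := by
    intro M
    induction M with
    | zero => exact hV0
    | succ M ih =>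
      have h1 := congrArg norm (h0 M)
      rw [norm_mul, norm_one] at h1
      have h2 : (33 : ℝ) ≤ ‖34 - V M 0‖ := by
        have := norm_sub_norm_le (34 : ℂ) (V M 0)
        have h34 : ‖(34 : ℂ)‖ = 34 := by norm_num
        linarith
      nlinarith [norm_nonneg (V (M + 1) 0)]
  -- equation for v
  have hveq : PowerSeries.mk (shm v) * (qX - (1 + X) ^ 3 * PowerSeries.mk v) = 1 := by
    unfold IsFormal at hv
    unfold qX
    linear_combination -hv
  have hv1 : v 0 * (34 - v 0) = 1 := by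
    have h := congrArg (coeff 0) hveq
    rw [c0mul] at h
    simp only [coeff_mk, shm_zero, map_sub, qX_zero] at h
    rw [c0mul] at h
    simp only [coeff_mk, coeff_one, if_true] at h
    have h3 : (coeff 0) ((1 + X) ^ 3 : PowerSeries ℂ) = 1 := by simp
    rw [h3, one_mul] at h
    exact h
  have h34v : (33 : ℝ) ≤ ‖34 - v 0‖ := by
    have := norm_sub_norm_le (34 : ℂ) (v 0)
    have h34 : ‖(34 : ℂ)‖ = 34 := by norm_num
    linarith
  have hvs : ‖v 0‖ ≤ 1 / 33 := by
    have h1 := congrArg norm hv1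
    rw [norm_mul, norm_one] at h1
    rw [le_div_iff₀ (by norm_num)]
    nlinarith [norm_nonneg (v 0)]
  -- differences
  set δ : ℕ → ℕ → ℂ := fun M a => V M a - v a with hδ
  have hmk : ∀ M, PowerSeries.mk (δ M) = PowerSeries.mk (V M) - PowerSeries.mk v := by
    intro M; ext n; simp [hδ]
  have hmks : ∀ M, PowerSeries.mk (shm (δ M)) = PowerSeries.mk (shm (V M)) - PowerSeries.mk (shm v) := by
    intro M; ext n
    rw [map_sub, coeff_mk, coeff_mk, coeff_mk]
    exact shm_sub _ _ _
  set D : PowerSeries ℂ := qX - (1 + X) ^ 3 * PowerSeries.mk v with hD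
  set G : PowerSeries ℂ := PowerSeries.mk (shm v) * (1 + X) ^ 3 with hG
  have hD0 : coeff 0 D = 34 - v 0 := by
    rw [hD, map_sub, qX_zero, c0mul]
    simp
  have hG0 : coeff 0 G = v 0 := by
    rw [hG, c0mul]
    simp [shm_zero]
  have key : ∀ M, D * PowerSeries.mk (shm (δ (M + 1))) -
      PowerSeries.mk (shm (δ (M + 1))) * ((1 + X) ^ 3 * PowerSeries.mk (δ M)) =
      G * PowerSeries.mk (δ M) := by
    intro M
    have h1 := hrec M
    rw [hmks, hmk, hD, hG]
    linear_combination h1 - hveq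
  have hδ0 : Tendsto (fun M => δ M 0) atTop (𝓝 0) := by
    rw [tendsto_zero_iff_norm_tendsto_zero]
    refine tend_zero_of_contr _ (fun _ => 0) (fun M => norm_nonneg _) tendsto_const_nhds
      (Eventually.of_forall (fun M => ?_))
    have h1 : δ (M + 1) 0 * (34 - V M 0) = v 0 * δ M 0 := by
      simp only [hδ]
      linear_combination h0 M - hv1
    have h2 := congrArg norm h1
    rw [norm_mul, norm_mul] at h2
    have h3 : (33 : ℝ) ≤ ‖34 - V M 0‖ := by
      have := norm_sub_norm_le (34 : ℂ) (V M 0)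
      have h34 : ‖(34 : ℂ)‖ = 34 := by norm_num
      have := hVf M
      linarith
    have h4 : 0 ≤ ‖δ M 0‖ := norm_nonneg _
    have h5 : 0 ≤ ‖δ (M + 1) 0‖ := norm_nonneg _
    nlinarith
  have main : ∀ a, Tendsto (fun M => δ M a) atTop (𝓝 0) := by
    intro a
    induction a using Nat.strong_induction_on with
    | _ a ih =>
    rcases a with _ | a
    · exact hδ0
    · set H : ℕ → ℕ → ℂ := fun M i => coeff i ((1 + X) ^ 3 * PowerSeries.mk (δ M)) with hH
      have hHmk : ∀ M, PowerSeries.mk (H M) = (1 + X) ^ 3 * PowerSeries.mk (δ M) := by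
        intro M; ext n; simp [hH]
      have h13 : (coeff 0) ((1 + X) ^ 3 : PowerSeries ℂ) = 1 := by simp
      have hHlt : ∀ i < a + 1, Tendsto (fun M => H M i) atTop (𝓝 0) := by
        intro i hi
        have h1 := prod_fix ((1 + X) ^ 3) δ i (fun b hb => ih b (by omega))
        have h2 := (ih i hi)
        have h3 := h1.add h2
        simp only [add_zero, h13, one_mul, sub_add_cancel] at h3
        exact h3
      have hHa : Tendsto (fun M => H M (a + 1) - δ M (a + 1)) atTop (𝓝 0) := by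
        have h1 := prod_fix ((1 + X) ^ 3) δ (a + 1) (fun b hb => ih b (by omega))
        simp only [h13, one_mul] at h1
        exact h1
      have ihs : ∀ i < a + 1, Tendsto (fun M => δ (M + 1) i) atTop (𝓝 0) := fun i hi =>
        (ih i hi).comp (tendsto_add_atTop_nat 1)
      have hSlt : ∀ i < a + 1, Tendsto (fun M => shm (δ (M + 1)) i) atTop (𝓝 0) := fun i hi =>
        shm_lt (fun M => δ (M + 1)) (a + 1) ihs i hi
      have hSa : Tendsto (fun M => shm (δ (M + 1)) (a + 1) - δ (M + 1) (a + 1)) atTop (𝓝 0) :=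
        shm_eq' (fun M => δ (M + 1)) (a + 1) ihs
      have hA := prod_fix D (fun M => shm (δ (M + 1))) (a + 1) hSlt
      have hB := prod_tend (fun M => shm (δ (M + 1))) H a hSlt hHlt
      have hC := prod_fix G δ (a + 1) (fun b hb => ih b (by omega))
      -- the error
      set err : ℕ → ℂ := fun M => δ (M + 1) (a + 1) * (34 - v 0 - δ M 0) -
        δ M (a + 1) * (v 0 + δ (M + 1) 0) with herr
      have hE : Tendsto err atTop (𝓝 0) := by
        have e0 : Tendsto (fun M => δ M 0) atTop (𝓝 0) := hδ0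
        have e1 : Tendsto (fun M => δ (M + 1) 0) atTop (𝓝 0) := hδ0.comp (tendsto_add_atTop_nat 1)
        have c1 := ((((hC.sub hA).add hB)).sub (hSa.mul_const (34 - v 0))).add
          ((e1.mul hHa).add (hSa.mul e0))
        simp only [zero_mul, mul_zero, add_zero, sub_self] at c1
        refine c1.congr (fun M => ?_)
        have hk := congrArg (coeff (a + 1)) (key M)
        rw [map_sub, ← hHmk M] at hk
        simp only [hD0, hG0, herr]
        have hs0 : shm (δ (M + 1)) 0 = δ (M + 1) 0 := shm_zero _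
        have hH0 : H M 0 = δ M 0 := by
          simp only [hH]
          rw [c0mul, h13, one_mul, coeff_mk]
        rw [hs0, hH0]
        linear_combination -hk
      rw [tendsto_zero_iff_norm_tendsto_zero]
      have hE' : Tendsto (fun M => ‖err M‖) atTop (𝓝 0) := tendsto_zero_iff_norm_tendsto_zero.mp hE
      refine tend_zero_of_contr _ (fun M => ‖err M‖) (fun M => norm_nonneg _) hE' ?_
      have f0 : ∀ᶠ M in atTop, ‖δ M 0‖ < 1 / 4 := by
        have := (tendsto_zero_iff_norm_tendsto_zero.mp hδ0).eventually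
          (gt_mem_nhds (by norm_num : (0:ℝ) < 1 / 4))
        exact this
      have f1 : ∀ᶠ M in atTop, ‖δ (M + 1) 0‖ < 1 / 4 := by
        have := (tendsto_zero_iff_norm_tendsto_zero.mp (hδ0.comp (tendsto_add_atTop_nat 1))).eventually
          (gt_mem_nhds (by norm_num : (0:ℝ) < 1 / 4))
        exact this
      filter_upwards [f0, f1] with M g0 g1
      have h1 : δ (M + 1) (a + 1) * (34 - v 0 - δ M 0) =
          err M + δ M (a + 1) * (v 0 + δ (M + 1) 0) := by
        simp only [herr]; ring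
      have h2 := congrArg norm h1
      rw [norm_mul] at h2
      have h3 : (1 : ℝ) ≤ ‖34 - v 0 - δ M 0‖ := by
        have := norm_sub_norm_le (34 - v 0) (δ M 0)
        linarith
      have h4 : ‖err M + δ M (a + 1) * (v 0 + δ (M + 1) 0)‖ ≤
          ‖err M‖ + ‖δ M (a + 1)‖ * (‖v 0‖ + ‖δ (M + 1) 0‖) := by
        refine (norm_add_le _ _).trans ?_
        rw [norm_mul]
        have := norm_add_le (v 0) (δ (M + 1) 0)
        have h5 : 0 ≤ ‖δ M (a + 1)‖ := norm_nonneg _
        nlinarith
      have h5 : 0 ≤ ‖δ M (a + 1)‖ := norm_nonneg _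
      have h6 : 0 ≤ ‖δ (M + 1) (a + 1)‖ := norm_nonneg _
      have h7 : ‖δ M (a + 1)‖ * (‖v 0‖ + ‖δ (M + 1) 0‖) ≤ ‖δ M (a + 1)‖ * (1 / 2) :=
        mul_le_mul_of_nonneg_left (by linarith) h5
      nlinarith
  have h := (main a).add_const (v a)
  simp only [hδ, sub_add_cancel, zero_add] at h
  exact h

end Pool.Agent.QS2
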