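import Pool.Agent.QS2.LamRat
import Pool.Agent.QS2.SerLim
import Pool.Agent.QS2.Roots

/-!
# The series of the convergents satisfy the Riccati recursion
-/

set_option autoImplicit false

namespace Pool.Agent.QS2

open Finset Filter Topology
open _root_.QS2 (shm IsFormal)

section laurent

open PowerSeries

/-- the Laurent series field -/
abbrev LF : Type := LaurentSeries ℂ

noncomputable def cc : ℂ →+* LF := HahnSeries.C
noncomputable def tt : LF := HahnSeries.single (1 : ℤ) (1 : ℂ)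
noncomputable def ww : LF := HahnSeries.single (-1 : ℤ) (1 : ℂ)
noncomputable def ser : PowerSeries ℂ →+* LF := HahnSeries.ofPowerSeries ℤ ℂ

theorem ww_mul_tt : ww * tt = 1 := by
  unfold ww tt
  rw [HahnSeries.single_mul_single]
  simp

theorem ser_X : ser X = tt := HahnSeries.ofPowerSeries_X
theorem ser_C (c : ℂ) : ser (C c) = cc c := HahnSeries.ofPowerSeries_C c
theorem ser_inj : Function.Injective ser := HahnSeries.ofPowerSeries_injective

theorem ww_ne (c : ℂ) : ww ≠ cc c := by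
  intro h
  have h1 : (1 : LF) = cc c * tt := by rw [← h, ww_mul_tt]
  have h2 : ser 1 = ser (C c * X) := by rw [map_one, map_mul, ser_C, ser_X]; exact h1
  have h3 := ser_inj h2
  have h4 := congrArg constantCoeff h3
  simp at h4

theorem ww_sub_ne (c : ℂ) : ww - 1 ≠ cc c := by
  intro h
  refine ww_ne (c + 1) ?_
  rw [map_add, map_one, ← h]
  ring

theorem mk_geom (ξ : ℂ) : (1 - C ξ * X) * PowerSeries.mk (fun a => ξ ^ a) = 1 := by
  ext n
  rw [sub_mul, one_mul, map_sub, mul_assoc, coeff_C_mul]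
  rcases n with _ | n
  · simp
  · rw [coeff_succ_X_mul, coeff_mk, coeff_mk, coeff_one, if_neg (Nat.succ_ne_zero n), pow_succ]
    ring

theorem ser_geom (ξ : ℂ) : ser (X * PowerSeries.mk (fun a => ξ ^ a)) = 1 / (ww - cc ξ) := by
  have h0 : ww - cc ξ ≠ 0 := sub_ne_zero.mpr (ww_ne ξ)
  rw [eq_div_iff h0]
  have h1 := congrArg ser (mk_geom ξ)
  rw [map_mul, map_sub, map_one, map_mul, ser_C, ser_X] at h1
  rw [map_mul, ser_X]
  linear_combination h1 + (ser (PowerSeries.mk fun a => ξ ^ a)) * ww_mul_tt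

theorem mk_ratSer (al : ℂ) {J : Type*} [Fintype J] (ξ res : J → ℂ) :
    PowerSeries.mk (ratSer al ξ res) =
      C al + ∑ j, C (res j) * (X * PowerSeries.mk (fun a => ξ j ^ a)) := by
  ext n
  rw [map_add, map_sum, coeff_mk, coeff_C]
  rcases n with _ | n
  · rw [if_pos rfl]
    have : ∀ j : J, coeff 0 (C (res j) * (X * PowerSeries.mk (fun a => ξ j ^ a))) = 0 := by
      intro j
      simp
    rw [sum_congr rfl (fun j _ => this j)]
    simp [ratSer]
  · rw [if_neg (Nat.succ_ne_zero n), zero_add]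
    unfold ratSer
    rw [if_neg (Nat.succ_ne_zero n), Nat.add_sub_cancel]
    refine sum_congr rfl (fun j _ => ?_)
    rw [coeff_C_mul, coeff_succ_X_mul, coeff_mk]

theorem ser_ratSer (al : ℂ) {J : Type*} [Fintype J] (ξ res : J → ℂ) :
    ser (PowerSeries.mk (ratSer al ξ res)) = cc al + ∑ j, cc (res j) / (ww - cc (ξ j)) := by
  rw [mk_ratSer, map_add, ser_C, map_sum]
  congr 1
  refine sum_congr rfl (fun j _ => ?_)
  rw [map_mul, ser_C, ser_geom]
  ring

theorem shm_ratSer (al : ℂ) {J : Type*} [Fintype J] (ξ res : J → ℂ) :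
    shm (ratSer al ξ res) = ratSer al (fun j => ξ j + 1) res := by
  funext n
  rcases n with _ | n
  · simp [shm, ratSer]
  · unfold shm
    rw [sum_range_succ']
    simp only [Nat.add_sub_cancel, Nat.add_sub_add_right]
    have h1 : ∀ m, ratSer al ξ res (m + 1) = ∑ j, res j * ξ j ^ m := by
      intro m
      unfold ratSer
      rw [if_neg (Nat.succ_ne_zero m), Nat.add_sub_cancel]
    have h2 : ratSer al (fun j => ξ j + 1) res (n + 1) = ∑ j, res j * (ξ j + 1) ^ n := by
      unfold ratSer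
      rw [if_neg (Nat.succ_ne_zero n), Nat.add_sub_cancel]
    have h3 : n.choose (n + 1 - 0) = 0 := Nat.choose_eq_zero_of_lt (by omega)
    rw [h2, h3, Nat.cast_zero, zero_mul, add_zero]
    simp only [h1, mul_sum]
    rw [sum_comm]
    refine sum_congr rfl (fun j _ => ?_)
    rw [add_pow, mul_sum]
    refine sum_congr rfl (fun m hm => ?_)
    have hm' : m ≤ n := by have := mem_range.mp hm; omega
    rw [Nat.choose_symm hm', one_pow]
    ring

end laurent

section pfrac

open Polynomial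

/-- the partial fraction as a polynomial identity -/
theorem numP_eq (M : ℕ) : numP M = C (al M) * ycP (M + 1) +
    ∑ p : Fin M × Fin 3, C (rr M p * lcY M) * ∏ q ∈ univ.erase p, (X - C (xi M q)) := by
  classical
  refine Polynomial.eq_of_infinite_eval_eq _ _ ?_
  have hfin : (Set.range (xi M)).Finite := Set.finite_range _
  refine Set.Infinite.mono ?_ (hfin.infinite_compl)
  intro z hz
  have hz' : ∀ p, z ≠ xi M p := fun p h => hz ⟨p, h.symm⟩
  have hY : yc (M + 1) z ≠ 0 := by
    intro h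
    obtain ⟨p, hp⟩ := xi_unique M h
    exact hz' p hp
  have h1 := pf M hY
  rw [div_eq_iff hY] at h1
  change (numP M).eval z = _
  rw [eval_numP, h1, eval_add, eval_mul, eval_C, eval_ycP, add_mul, eval_finsetSum, sum_mul]
  congr 1
  refine sum_congr rfl (fun p _ => ?_)
  rw [eval_mul, eval_C, eval_prod, yc_eq_prod, ← mul_prod_erase univ _ (mem_univ p)]
  have h2 : z - xi M p ≠ 0 := sub_ne_zero.mpr (hz' p)
  simp only [eval_sub, eval_X, eval_C]
  field_simp

/-- the partial fraction in any field -/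
theorem pf_field {F : Type*} [Field F] (ι : ℂ →+* F) (W : F) (hW : ∀ c, W ≠ ι c) (M : ℕ) :
    yc (M + 1) W ≠ 0 ∧ (W + 1) ^ 3 * yc M (W + 1) / yc (M + 1) W =
      ι (al M) + ∑ p : Fin M × Fin 3, ι (rr M p) / (W - ι (xi M p)) := by
  have hX : (eval₂RingHom ι W) X = W := by simp
  have hY : (eval₂RingHom ι W) (ycP (M + 1)) = yc (M + 1) W := by
    unfold ycP
    rw [map_yc, hX]
  have hprod : yc (M + 1) W = ι (lcY M) * ∏ p : Fin M × Fin 3, (W - ι (xi M p)) := by
    rw [← hY, ycP_eq, map_mul, map_prod]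
    simp
  have hlc : ι (lcY M) ≠ 0 := by
    rw [Ne, map_eq_zero]
    exact lcY_ne M
  have hne : ∀ p, W - ι (xi M p) ≠ 0 := fun p => sub_ne_zero.mpr (hW _)
  have hYne : yc (M + 1) W ≠ 0 := by
    rw [hprod]
    exact mul_ne_zero hlc (prod_ne_zero_iff.mpr (fun p _ => hne p))
  refine ⟨hYne, ?_⟩
  have hN : (eval₂RingHom ι W) (numP M) = (W + 1) ^ 3 * yc M (W + 1) := by
    unfold numP
    rw [map_mul, map_pow, map_yc, map_add, hX, map_one]
  rw [div_eq_iff hYne, ← hN, numP_eq, map_add, map_mul, hY, map_sum, add_mul, sum_mul]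
  congr 1
  · simp
  · refine sum_congr rfl (fun p _ => ?_)
    rw [map_mul, map_prod, hprod, ← mul_prod_erase univ _ (mem_univ p)]
    have h2 := hne p
    simp only [coe_eval₂RingHom, eval₂_C, map_mul, eval₂_sub, eval₂_X]
    field_simp

end pfrac

section main

open PowerSeries

/-- the series of the convergents -/
noncomputable def VM (M : ℕ) : ℕ → ℂ := ratSer (al M) (xi M) (rr M)

theorem ser_VM (M : ℕ) : ser (PowerSeries.mk (VM M)) =
    (ww + 1) ^ 3 * yc M (ww + 1) / yc (M + 1) ww := by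
  unfold VM
  rw [ser_ratSer, (pf_field cc ww ww_ne M).2]

theorem ser_shm_VM (M : ℕ) : ser (PowerSeries.mk (shm (VM M))) =
    ww ^ 3 * yc M ww / yc (M + 1) (ww - 1) := by
  unfold VM
  rw [shm_ratSer, ser_ratSer]
  have h := (pf_field cc (ww - 1) ww_sub_ne M).2
  rw [sub_add_cancel] at h
  rw [h]
  congr 1
  refine sum_congr rfl (fun p _ => ?_)
  rw [map_add, map_one]
  congr 1
  ring

theorem VM_rec (M : ℕ) : PowerSeries.mk (shm (VM (M + 1))) *
    (qX - (1 + X) ^ 3 * PowerSeries.mk (VM M)) = 1 := by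
  refine ser_inj ?_
  have hnum : ∀ n : ℕ, ser ((n : PowerSeries ℂ)) = (n : LF) := fun n => map_natCast ser n
  have h34 : ser qX = 34 + 51 * tt + 27 * tt ^ 2 + 5 * tt ^ 3 := by
    unfold qX
    simp only [map_add, map_mul, map_pow, ser_X, map_ofNat]
  rw [map_mul, map_sub, h34, map_mul, map_pow, map_add, map_one, ser_X, ser_VM, ser_shm_VM]
  have h1 := (pf_field cc ww ww_ne M).1
  have h2 := (pf_field cc (ww - 1) ww_sub_ne (M + 1)).1
  have h3 := yc_left M (ww - 1)
  rw [sub_add_cancel, show ww - 1 + 2 = ww + 1 by ring] at h3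
  have ht : tt ≠ 0 := right_ne_zero_of_mul_eq_one ww_mul_tt
  have hw : ww = 1 / tt := by
    rw [eq_div_iff ht]; exact ww_mul_tt
  rw [div_mul_eq_mul_div, div_eq_one_iff_eq h2]
  rw [show M + 1 + 1 = M + 2 by ring, h3]
  have h5 : ww ^ 3 * (34 + 51 * tt + 27 * tt ^ 2 + 5 * tt ^ 3) = pz ww := by
    unfold pz
    linear_combination (51 * ww ^ 2 + 27 * ww * (ww * tt + 1) + 5 * ((ww * tt) ^ 2 + ww * tt + 1)) *
      ww_mul_tt
  have h6 : ww ^ 3 * (1 + tt) ^ 3 = (ww + 1) ^ 3 := by
    rw [← mul_pow]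
    congr 1
    linear_combination ww_mul_tt
  calc ww ^ 3 * yc (M + 1) ww * (34 + 51 * tt + 27 * tt ^ 2 + 5 * tt ^ 3 -
        (1 + tt) ^ 3 * ((ww + 1) ^ 3 * yc M (ww + 1) / yc (M + 1) ww))
      = (ww ^ 3 * (34 + 51 * tt + 27 * tt ^ 2 + 5 * tt ^ 3)) * yc (M + 1) ww -
        (ww ^ 3 * (1 + tt) ^ 3) * (ww + 1) ^ 3 * yc M (ww + 1) := by
        field_simp
    _ = _ := by
        rw [h5, h6]
        ring

theorem VM_zero : VM 0 0 = 0 := by
  have h := VM_rec 0
  unfold VM ratSer
  rw [if_pos rfl]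
  unfold al numP
  simp

/-- **The coefficients of the convergents tend to the formal solution.** -/
theorem VM_tendsto (v : ℕ → ℂ) (hv : IsFormal v) (hv0 : ‖v 0‖ ≤ 1) (a : ℕ) :
    Tendsto (fun M => VM M a) atTop (𝓝 (v a)) :=
  coeff_tendsto VM v hv hv0 (by rw [VM_zero]; simp) VM_rec a

end main

end Pool.Agent.QS2
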