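import Pool.Agent.QS2.FF

/-! # QS2: bound of the residues (helper19) -/

set_option autoImplicit false

namespace Pool.Agent.QS2

open Complex Metric

lemma yc_differentiable (m : ℕ) : Differentiable ℂ (fun z : ℂ => yc m z) := by
  induction m using Nat.strong_induction_on with
  | _ m ih =>
    rcases m with _ | _ | m
    · simp only [yc_zero]; exact differentiable_const _
    · simp only [zero_add, yc_one]; exact differentiable_const _
    · have h1 := (ih (m + 1) (by omega)).comp (differentiable_id.add_const (1 : ℂ))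
      have h2 := (ih m (by omega)).comp (differentiable_id.add_const (2 : ℂ))
      have hp : Differentiable ℂ (fun z : ℂ => pz (z + 1)) := by
        unfold pz; fun_prop
      have e : (fun z : ℂ => yc (m + 1 + 1) z) =
          fun z => pz (z + 1) * yc (m + 1) (z + 1) - (z + 2) ^ 6 * yc m (z + 2) := by
        funext z; exact yc_left m z
      rw [e]
      refine (hp.mul h1).sub (Differentiable.mul (by fun_prop) h2)

/-- The numerator factor. -/
noncomputable def qq : ℕ → ℂ → ℂ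
  | 0, _ => 1
  | (a + 1), w => -(-1) ^ a * w ^ 6 * ∏ j ∈ Finset.range a, (-1 - w + (j + 2)) ^ 6

lemma cross_id (a b : ℕ) (w : ℂ) :
    yc (a + b + 1) (w - a) * yc (a + 1) (-1 - w) + yc a (-1 - w) * yc (a + b + 2) (w - (a + 1)) =
      yc (b + 1) w * qq a w := by
  rcases a with _ | a
  · simp [qq]
  · have h1 := yc_split a b w
    have h2 := yc_split (a + 1) b w
    have h3 := yc_cas a (-1 - w)
    rw [show a + 1 + b + 1 = a + b + 2 by ring]
    push_cast at h1 h2 h3 ⊢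
    rw [h1, h2, qq, ← h3]
    rw [show -1 - w + 1 = -w by ring]
    ring

lemma qq_le (a : ℕ) {j : Fin 3} {w : ℂ} (hw : ‖w - cen j‖ ≤ 1 / 10) :
    ‖qq a w‖ * 33.7 ^ (2 * a) ≤ 2 * ‖yc (a + 1) (-1 - w)‖ ^ 2 := by
  obtain ⟨h1, h2⟩ := re_bounds hw
  rcases a with _ | a
  · simp [qq]
  · have hz : -(7 / 10) ≤ (-1 - w).re := by rw [sub_re, neg_re, one_re]; linarith
    have h3 := yc_ge a (-1 - w) hz
    have e : ‖qq (a + 1) w‖ = (‖w‖ ^ 3 * ∏ j ∈ Finset.range a, ‖-1 - w + (j + 2)‖ ^ 3) ^ 2 := by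
      rw [qq, norm_mul, norm_mul, norm_neg, norm_pow, norm_neg, norm_one, one_pow, one_mul,
        norm_pow, norm_prod, mul_pow, ← pow_mul, ← Finset.prod_pow]
      congr 1
      refine Finset.prod_congr rfl fun i _ => ?_
      rw [norm_pow, ← pow_mul]
    have e2 : ∏ j ∈ Finset.range (a + 1), ‖-1 - w + ((j : ℂ) + 1)‖ ^ 3 =
        ‖w‖ ^ 3 * ∏ j ∈ Finset.range a, ‖-1 - w + (j + 2)‖ ^ 3 := by
      rw [Finset.prod_range_succ', mul_comm]
      congr 1
      · rw [show -1 - w + (((0 : ℕ) : ℂ) + 1) = -w by push_cast; ring, norm_neg]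
      · refine Finset.prod_congr rfl fun i _ => ?_
        congr 2
        push_cast; ring
    rw [e2] at h3
    rw [e]
    set p := ‖w‖ ^ 3 * ∏ j ∈ Finset.range a, ‖-1 - w + ((j : ℂ) + 2)‖ ^ 3 with hp
    have hp0 : 0 ≤ p := by rw [hp]; positivity
    have h4 : (25 * 33.7 ^ a * p) ^ 2 ≤ ‖yc (a + 2) (-1 - w)‖ ^ 2 :=
      pow_le_pow_left₀ (by positivity) h3 2
    rw [show a + 1 + 1 = a + 2 by ring]
    have e3 : p ^ 2 * 33.7 ^ (2 * (a + 1)) = (33.7 ^ 2 / 625) * (25 * 33.7 ^ a * p) ^ 2 := by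
      rw [show (33.7 : ℝ) ^ (2 * (a + 1)) = (33.7 ^ a) ^ 2 * 33.7 ^ 2 by
        rw [mul_add, pow_add, mul_comm 2 a, pow_mul]]
      generalize (33.7 : ℝ) ^ a = x
      ring
    rw [e3]
    have h5 : (33.7 ^ 2 / 625 : ℝ) ≤ 2 := by norm_num
    calc _ ≤ 2 * (25 * 33.7 ^ a * p) ^ 2 := mul_le_mul_of_nonneg_right h5 (by positivity)
      _ ≤ _ := by linarith

/-- Polynomial times geometric. -/
lemma geo_bound : ∃ B : ℝ, 0 < B ∧ ∀ a : ℕ, ((a : ℝ) + 1) ^ 3 / 33.7 ^ (2 * a) ≤ B * Real.exp (-7 * (a + 1)) := by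
  have hq : (Real.exp 7 / 33.7 ^ 2) < 1 := by
    rw [div_lt_one (by positivity)]
    have h := Real.exp_one_lt_d9
    have : Real.exp 7 = Real.exp 1 ^ 7 := by rw [← Real.exp_nat_mul]; norm_num
    rw [this]
    calc Real.exp 1 ^ 7 < 2.7182818286 ^ 7 := pow_lt_pow_left₀ h (Real.exp_pos _).le (by norm_num)
      _ < 33.7 ^ 2 := by norm_num
  set q : ℝ := Real.exp 7 / 33.7 ^ 2 with hqd
  have hq0 : 0 < q := by positivity
  have ht := tendsto_pow_const_mul_const_pow_of_abs_lt_one 3 (r := q) (by rw [abs_of_pos hq0]; exact hq)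
  obtain ⟨B, hB⟩ := ht.bddAbove_range
  have hB' : ∀ n : ℕ, (n : ℝ) ^ 3 * q ^ n ≤ B := fun n => hB ⟨n, rfl⟩
  have hBp : 0 < B := lt_of_lt_of_le (by positivity) (hB' 1)
  refine ⟨B * (Real.exp 7 / q), by positivity, fun a => ?_⟩
  have h1 := hB' (a + 1)
  have e1 : Real.exp (-7 * (a + 1)) = (Real.exp 7)⁻¹ ^ (a + 1) := by
    rw [← Real.exp_neg, ← Real.exp_nat_mul]; congr 1; push_cast; ring
  have e2 : ((a : ℝ) + 1) ^ 3 / 33.7 ^ (2 * a) =
      (((a + 1 : ℕ) : ℝ) ^ 3 * q ^ (a + 1)) * (Real.exp 7 / q) * (Real.exp 7)⁻¹ ^ (a + 1) := by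
    have hx : Real.exp 7 ≠ 0 := (Real.exp_pos 7).ne'
    push_cast
    rw [pow_succ q a, hqd, div_pow, pow_mul, inv_pow, pow_succ (Real.exp 7) a]
    have hy : Real.exp 7 ^ a ≠ 0 := pow_ne_zero _ hx
    field_simp
  rw [e1, e2]
  have h2 : 0 ≤ (Real.exp 7 / q) * (Real.exp 7)⁻¹ ^ (a + 1) := by positivity
  nlinarith [mul_le_mul_of_nonneg_right h1 h2]

/-- **Residue bound.** -/
theorem res_bound : ∃ K0 : ℝ, 0 < K0 ∧ ∀ (a b : ℕ) (j : Fin 3) (w0 : ℂ) (H : ℂ → ℂ),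
    ‖w0 - cen j‖ < 1 / 10 → DiffContOnCl ℂ H (ball (cen j) (1 / 10)) →
    (∀ w, ‖w - cen j‖ ≤ 1 / 10 → H w ≠ 0) →
    (∀ w, ‖w - cen j‖ ≤ 1 / 10 → yc (a + b + 2) (w - (a + 1)) = (w - w0) * H w) →
    ‖(w0 - a) ^ 3 * yc (a + b + 1) (w0 - a) / H w0‖ ≤ K0 * Real.exp (-7 * (a + 1)) := by
  obtain ⟨B, hB0, hB⟩ := geo_bound
  refine ⟨B * 14, by positivity, ?_⟩
  intro a b j w0 H hw0 hHd hH0 hfac
  set h : ℂ → ℂ := fun w => ((w - a) ^ 3 * yc (a + b + 1) (w - a) +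
    (w - a) ^ 3 * yc a (-1 - w) / yc (a + 1) (-1 - w) * yc (a + b + 2) (w - (a + 1))) / H w with hh
  have hval : h w0 = (w0 - a) ^ 3 * yc (a + b + 1) (w0 - a) / H w0 := by
    simp only [hh]
    rw [hfac w0 hw0.le, sub_self, zero_mul, mul_zero, add_zero]
  rw [← hval]
  have hcl : closure (ball (cen j) (1 / 10)) = closedBall (cen j) (1 / 10) :=
    closure_ball _ (by norm_num)
  have hfr : frontier (ball (cen j) (1 / 10)) = sphere (cen j) (1 / 10) :=
    frontier_ball _ (by norm_num)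
  have hne : ∀ w, ‖w - cen j‖ ≤ 1 / 10 → yc (a + 1) (-1 - w) ≠ 0 := fun w hw => by
    obtain ⟨h1, h2⟩ := re_bounds hw
    exact yc_ne a _ (by rw [sub_re, neg_re, one_re]; linarith)
  have hd : DiffContOnCl ℂ h (ball (cen j) (1 / 10)) := by
    have d1 : Differentiable ℂ (fun w : ℂ => (w - a) ^ 3 * yc (a + b + 1) (w - a)) :=
      Differentiable.mul (by fun_prop)
        ((yc_differentiable (a + b + 1)).comp (differentiable_id.sub_const (a : ℂ)))
    have d2 : Differentiable ℂ (fun w : ℂ => yc (a + 1) (-1 - w)) :=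
      (yc_differentiable (a + 1)).comp (differentiable_id.const_sub (-1 : ℂ))
    have d3 : Differentiable ℂ (fun w : ℂ => (w - a) ^ 3 * yc a (-1 - w)) :=
      Differentiable.mul (by fun_prop)
        ((yc_differentiable a).comp (differentiable_id.const_sub (-1 : ℂ)))
    have d4 : Differentiable ℂ (fun w : ℂ => yc (a + b + 2) (w - (a + 1))) :=
      (yc_differentiable (a + b + 2)).comp (differentiable_id.sub_const ((a : ℂ) + 1))
    have d5 : DiffContOnCl ℂ (fun w : ℂ => (yc (a + 1) (-1 - w))⁻¹) (ball (cen j) (1 / 10)) :=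
      d2.diffContOnCl.inv fun w hw => by
        rw [hcl, mem_closedBall, dist_eq_norm] at hw
        exact hne w hw
    have d6 : DiffContOnCl ℂ (fun w : ℂ => (H w)⁻¹) (ball (cen j) (1 / 10)) :=
      hHd.inv fun w hw => by
        rw [hcl, mem_closedBall, dist_eq_norm] at hw
        exact hH0 w hw
    have d7 : DiffContOnCl ℂ (fun w : ℂ => ((w - a) ^ 3 * yc (a + b + 1) (w - a) +
        (w - a) ^ 3 * yc a (-1 - w) * (yc (a + 1) (-1 - w))⁻¹ * yc (a + b + 2) (w - (a + 1))) *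
        (H w)⁻¹) (ball (cen j) (1 / 10)) :=
      (d1.diffContOnCl.add ((d3.diffContOnCl.smul d5).smul d4.diffContOnCl)).smul d6
    exact d7
  refine norm_le_of_forall_mem_frontier_norm_le isBounded_ball hd ?_
    (subset_closure (by rwa [mem_ball, dist_eq_norm]))
  intro w hw
  rw [hfr, mem_sphere, dist_eq_norm] at hw
  have hre := re_bounds hw.le
  have hy := hne w hw.le
  have hF := FF_circle a b hw
  have hF0 : FF a b w ≠ 0 := by rw [← norm_pos_iff]; linarith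
  have hyb : yc (b + 1) w ≠ 0 := yc_ne b w (by linarith [hre.1])
  have hsp := split_FF a b w (by linarith [hre.1]) (by linarith [hre.2])
  have hww : w - w0 ≠ 0 := by
    intro h0
    have : w = w0 := sub_eq_zero.mp h0
    rw [← this, hw] at hw0
    exact lt_irrefl _ hw0
  have hH := hfac w hw.le
  have hHw := hH0 w hw.le
  have hcross := cross_id a b w
  have hs : ((-1 : ℂ)) ^ a ≠ 0 := pow_ne_zero _ (by norm_num)
  have key : h w * ((-1) ^ a * yc (a + 1) (-1 - w) ^ 2 * FF a b w) =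
      (w - a) ^ 3 * qq a w * (w - w0) := by
    have e1 : (w - w0) * H w = (-1) ^ a * yc (a + 1) (-1 - w) * yc (b + 1) w * FF a b w := by
      rw [← hH, hsp]
    have e2 : h w * H w * yc (a + 1) (-1 - w) = (w - a) ^ 3 * (yc (b + 1) w * qq a w) := by
      simp only [hh]
      rw [← hcross]
      field_simp
    have e3 : yc (b + 1) w * (h w * ((-1) ^ a * yc (a + 1) (-1 - w) ^ 2 * FF a b w)) =
        yc (b + 1) w * ((w - a) ^ 3 * qq a w * (w - w0)) := by
      calc _ = h w * yc (a + 1) (-1 - w) * ((-1) ^ a * yc (a + 1) (-1 - w) * yc (b + 1) w * FF a b w) := by ring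
        _ = (w - w0) * (h w * H w * yc (a + 1) (-1 - w)) := by rw [← e1]; ring
        _ = _ := by rw [e2]; ring
    exact mul_left_cancel₀ hyb e3
  have hnorm := congrArg norm key
  rw [norm_mul, norm_mul, norm_mul, norm_mul, norm_mul, norm_pow, norm_pow, norm_pow, norm_neg,
    norm_one, one_pow, one_mul] at hnorm
  have hq := qq_le a hw.le
  have hwa : ‖w - a‖ ≤ (a : ℝ) + 1 := by
    have h1 := norm_sub_le w (a : ℂ)
    have h2 := norm_w_le hw.le
    rw [norm_natCast] at h1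
    linarith
  have hwa3 : ‖w - a‖ ^ 3 ≤ ((a : ℝ) + 1) ^ 3 := pow_le_pow_left₀ (norm_nonneg _) hwa 3
  have hw2 : ‖w - w0‖ ≤ 2 / 10 := by
    have e : w - w0 = (w - cen j) - (w0 - cen j) := by ring
    rw [e]
    have := norm_sub_le (w - cen j) (w0 - cen j)
    linarith
  have hBa := hB a
  have hyp : 0 < ‖yc (a + 1) (-1 - w)‖ := norm_pos_iff.mpr hy
  set Yn := ‖yc (a + 1) (-1 - w)‖ with hYn
  have h337 : (0 : ℝ) < 33.7 ^ (2 * a) := by positivity
  -- ‖h‖ * Y² * ‖F‖ ≤ (a+1)³ * 2 Y² / 33.7^(2a) * 0.2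
  have s1 : ‖qq a w‖ ≤ 2 * Yn ^ 2 / 33.7 ^ (2 * a) := by
    rw [le_div_iff₀ h337]; exact hq
  have s2 : ‖h w‖ * (Yn ^ 2 * ‖FF a b w‖) ≤
      ((a : ℝ) + 1) ^ 3 * (2 * Yn ^ 2 / 33.7 ^ (2 * a)) * (2 / 10) := by
    rw [hnorm]
    gcongr
  have s3 : ‖h w‖ * (Yn ^ 2 * (3 / 100)) ≤ ‖h w‖ * (Yn ^ 2 * ‖FF a b w‖) := by
    gcongr
  have s4 : ‖h w‖ * (3 / 100) ≤ ((a : ℝ) + 1) ^ 3 / 33.7 ^ (2 * a) * (4 / 10) := by
    have hY2 : 0 < Yn ^ 2 := by positivity
    have : (‖h w‖ * (3 / 100)) * Yn ^ 2 ≤ (((a : ℝ) + 1) ^ 3 / 33.7 ^ (2 * a) * (4 / 10)) * Yn ^ 2 := by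
      calc _ = ‖h w‖ * (Yn ^ 2 * (3 / 100)) := by ring
        _ ≤ _ := s3.trans s2
        _ = _ := by ring
    exact le_of_mul_le_mul_right this hY2
  have hexp : 0 < Real.exp (-7 * ((a : ℝ) + 1)) := Real.exp_pos _
  nlinarith

end Pool.Agent.QS2
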