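import Mathlib

/-!
Counting the roots of a complex polynomial in a disc by circle averages of `log |B|`
(no winding numbers).
-/

namespace Pool.QS2

open Real Polynomial Filter

/-- circle average of `log |prod (z - a)|`, no root on the circle -/
theorem avg_prod (s : Multiset ℂ) (c : ℂ) {R : ℝ} (hR : 0 < R) (h : ∀ a ∈ s, ‖a - c‖ ≠ R) :
    CircleIntegrable (fun z => Real.log ‖(s.map (fun a => z - a)).prod‖) c R ∧
    circleAverage (fun z => Real.log ‖(s.map (fun a => z - a)).prod‖) c R =
      (s.map (fun a => Real.log R + Real.posLog (R⁻¹ * ‖c - a‖))).sum := by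
  induction s using Multiset.induction_on with
  | empty => simp [circleIntegrable_const, circleAverage_const]
  | cons a s ih =>
    obtain ⟨i1, i2⟩ := ih (fun b hb => h b (Multiset.mem_cons_of_mem hb))
    have ha := h a (Multiset.mem_cons_self a s)
    have j1 : CircleIntegrable (fun z => Real.log ‖z - a‖) c R :=
      MeromorphicOn.circleIntegrable_log_norm (f := fun z => z - a) (fun z _ => by fun_prop)
    have hcongr : Set.EqOn (fun z => Real.log ‖((a ::ₘ s).map (fun a => z - a)).prod‖)
        ((fun z => Real.log ‖z - a‖) + fun z => Real.log ‖(s.map (fun a => z - a)).prod‖)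
        (Metric.sphere c |R|) := by
      intro z hz
      rw [abs_of_pos hR, mem_sphere_iff_norm] at hz
      simp only [Multiset.map_cons, Multiset.prod_cons, norm_mul, Pi.add_apply]
      rw [Real.log_mul]
      · rw [norm_ne_zero_iff, sub_ne_zero]
        rintro rfl
        exact ha hz
      · rw [norm_ne_zero_iff]
        intro h0
        rw [Multiset.prod_eq_zero_iff, Multiset.mem_map] at h0
        obtain ⟨b, hb, hb0⟩ := h0
        rw [sub_eq_zero] at hb0
        subst hb0
        exact h z (Multiset.mem_cons_of_mem hb) hz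
    constructor
    · exact (circleIntegrable_congr hcongr).2 (j1.add i1)
    · rw [circleAverage_congr_sphere hcongr, circleAverage_add j1 i1, i2,
        circleAverage_log_norm_sub_const_eq_log_radius_add_posLog hR.ne']
      simp

/-- number of elements of the multiset in the open disc -/
noncomputable def cnt (s : Multiset ℂ) (c : ℂ) (r : ℝ) : ℕ :=
  Multiset.countP (fun a => ‖a - c‖ < r) s

/-- difference of two circle averages = number of roots inside times log of the ratio -/
theorem sum_diff (s : Multiset ℂ) (c : ℂ) {r₁ r₂ : ℝ} (h1 : 0 < r₁) (h12 : r₁ < r₂)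
    (h : ∀ a ∈ s, ‖a - c‖ < r₁ ∨ r₂ < ‖a - c‖) :
    (s.map (fun a => Real.log r₂ + Real.posLog (r₂⁻¹ * ‖c - a‖))).sum -
      (s.map (fun a => Real.log r₁ + Real.posLog (r₁⁻¹ * ‖c - a‖))).sum =
      cnt s c r₁ * Real.log (r₂ / r₁) := by
  classical
  induction s using Multiset.induction_on with
  | empty => simp [cnt]
  | cons a s ih =>
    have ih' := ih (fun b hb => h b (Multiset.mem_cons_of_mem hb))
    have ha := h a (Multiset.mem_cons_self a s)
    simp only [Multiset.map_cons, Multiset.sum_cons]
    have h2 : 0 < r₂ := h1.trans h12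
    have key : (Real.log r₂ + Real.posLog (r₂⁻¹ * ‖c - a‖)) -
        (Real.log r₁ + Real.posLog (r₁⁻¹ * ‖c - a‖)) =
        (if ‖a - c‖ < r₁ then 1 else 0) * Real.log (r₂ / r₁) := by
      rw [norm_sub_rev c a]
      rcases ha with ha | ha
      · have e1 : Real.posLog (r₂⁻¹ * ‖a - c‖) = 0 := by
          rw [Real.posLog_eq_zero_iff, abs_of_nonneg (by positivity)]
          rw [inv_mul_le_iff₀ h2]
          linarith
        have e2 : Real.posLog (r₁⁻¹ * ‖a - c‖) = 0 := by
          rw [Real.posLog_eq_zero_iff, abs_of_nonneg (by positivity)]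
          rw [inv_mul_le_iff₀ h1]
          linarith
        rw [e1, e2, if_pos ha, Real.log_div h2.ne' h1.ne']
        ring
      · have hpos : 0 < ‖a - c‖ := by linarith
        have e1 : Real.posLog (r₂⁻¹ * ‖a - c‖) = Real.log (r₂⁻¹ * ‖a - c‖) := by
          apply Real.posLog_eq_log
          rw [abs_of_nonneg (by positivity), ← div_eq_inv_mul, one_le_div h2]
          exact ha.le
        have e2 : Real.posLog (r₁⁻¹ * ‖a - c‖) = Real.log (r₁⁻¹ * ‖a - c‖) := by
          apply Real.posLog_eq_log
          rw [abs_of_nonneg (by positivity), ← div_eq_inv_mul, one_le_div h1]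
          linarith
        rw [e1, e2, if_neg (by linarith), Real.log_mul (by positivity) hpos.ne',
          Real.log_mul (by positivity) hpos.ne', Real.log_inv, Real.log_inv]
        ring
    have hc : (cnt (a ::ₘ s) c r₁ : ℝ) = (if ‖a - c‖ < r₁ then 1 else 0) + cnt s c r₁ := by
      unfold cnt
      rw [Multiset.countP_cons]
      push_cast
      ring
    rw [hc]
    linarith

/-- two products without roots in a closed annulus which are close on the two boundary circles
have the same number of roots in the disc -/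
theorem cnt_eq_of_close {s t : Multiset ℂ} {c : ℂ} {r₁ r₂ : ℝ} (h1 : 0 < r₁) (h12 : r₁ < r₂)
    (hs : ∀ a ∈ s, ‖a - c‖ < r₁ ∨ r₂ < ‖a - c‖) (ht : ∀ a ∈ t, ‖a - c‖ < r₁ ∨ r₂ < ‖a - c‖)
    (κ η : ℝ) (hη : 2 * η < Real.log (r₂ / r₁))
    (hclose : ∀ z, (‖z - c‖ = r₁ ∨ ‖z - c‖ = r₂) →
      |Real.log ‖(s.map (fun a => z - a)).prod‖ - Real.log ‖(t.map (fun a => z - a)).prod‖ - κ|
        ≤ η) :
    cnt s c r₁ = cnt t c r₁ := by
  have h2 : 0 < r₂ := h1.trans h12
  have ne1 : ∀ {u : Multiset ℂ}, (∀ a ∈ u, ‖a - c‖ < r₁ ∨ r₂ < ‖a - c‖) →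
      (∀ a ∈ u, ‖a - c‖ ≠ r₁) ∧ (∀ a ∈ u, ‖a - c‖ ≠ r₂) := by
    intro u hu
    constructor
    · intro a ha h0
      rcases hu a ha with h | h <;> linarith
    · intro a ha h0
      rcases hu a ha with h | h <;> linarith
  have avg : ∀ r, 0 < r → (∀ a ∈ s, ‖a - c‖ ≠ r) → (∀ a ∈ t, ‖a - c‖ ≠ r) →
      (∀ z, ‖z - c‖ = r → |Real.log ‖(s.map (fun a => z - a)).prod‖ -
        Real.log ‖(t.map (fun a => z - a)).prod‖ - κ| ≤ η) →
      |(s.map (fun a => Real.log r + Real.posLog (r⁻¹ * ‖c - a‖))).sum -
        (t.map (fun a => Real.log r + Real.posLog (r⁻¹ * ‖c - a‖))).sum - κ| ≤ η := by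
    intro r hr as at' hz
    obtain ⟨i1, i2⟩ := avg_prod s c hr as
    obtain ⟨j1, j2⟩ := avg_prod t c hr at'
    rw [← i2, ← j2, ← circleAverage_sub i1 j1]
    have e : circleAverage ((fun z => Real.log ‖(s.map (fun a => z - a)).prod‖) -
        fun z => Real.log ‖(t.map (fun a => z - a)).prod‖) c r - κ =
        circleAverage (((fun z => Real.log ‖(s.map (fun a => z - a)).prod‖) -
        fun z => Real.log ‖(t.map (fun a => z - a)).prod‖) - fun _ => κ) c r := by
      rw [circleAverage_sub (i1.sub j1) (circleIntegrable_const κ c r), circleAverage_const]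
    rw [e, abs_le]
    have ci := (i1.sub j1).sub (circleIntegrable_const κ c r)
    constructor
    · have := circleAverage_mono (circleIntegrable_const (-η) c r) ci (by
        intro z hz'
        rw [abs_of_pos hr, mem_sphere_iff_norm] at hz'
        exact (abs_le.1 (hz z hz')).1)
      rwa [circleAverage_const] at this
    · have := circleAverage_mono ci (circleIntegrable_const η c r) (by
        intro z hz'
        rw [abs_of_pos hr, mem_sphere_iff_norm] at hz'
        exact (abs_le.1 (hz z hz')).2)
      rwa [circleAverage_const] at this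
  have a1 := avg r₁ h1 (ne1 hs).1 (ne1 ht).1 (fun z hz => hclose z (Or.inl hz))
  have a2 := avg r₂ h2 (ne1 hs).2 (ne1 ht).2 (fun z hz => hclose z (Or.inr hz))
  have d1 := sum_diff s c h1 h12 hs
  have d2 := sum_diff t c h1 h12 ht
  have hl : 0 < Real.log (r₂ / r₁) := Real.log_pos (by rw [one_lt_div h1]; exact h12)
  have hd : |((cnt s c r₁ : ℝ) - cnt t c r₁) * Real.log (r₂ / r₁)| ≤ 2 * η := by
    rw [sub_mul, ← d1, ← d2]
    rw [abs_le] at a1 a2 ⊢
    constructor <;> linarith
  rw [abs_mul, abs_of_pos hl] at hd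
  have hlt : |(cnt s c r₁ : ℝ) - cnt t c r₁| < 1 := by
    by_contra hcon
    push Not at hcon
    nlinarith
  have : |((cnt s c r₁ : ℤ) - (cnt t c r₁ : ℤ))| < 1 := by exact_mod_cast hlt
  rw [Int.abs_lt_one_iff] at this
  omega

end Pool.QS2
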