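import Pool.Agent.QS2.Cont

/-!
The roots of the continuants `Y_M = yc (M+1)`: one in each of the `3 M` small discs of radius
`1/10` around `-k - 1/2`, `-k - 1/2 ± i √(3/68)`, `1 ≤ k ≤ M`.
-/

set_option autoImplicit false

namespace Pool.Agent.QS2

open Polynomial

lemma map_pz {R S : Type*} [CommRing R] [CommRing S] (f : R →+* S) (z : R) :
    f (pz z) = pz (f z) := by
  simp only [pz, map_add, map_mul, map_pow, map_ofNat]

lemma map_yc {R S : Type*} [CommRing R] [CommRing S] (f : R →+* S) (M : ℕ) :
    ∀ z : R, f (yc M z) = yc M (f z) := by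
  induction M using Nat.strong_induction_on with
  | _ M ih =>
    intro z
    rcases M with _ | _ | M
    · simp
    · simp
    · rw [yc_left, yc_left, map_sub, map_mul, map_mul, map_pow, map_pz, ih (M + 1) (by omega),
        ih M (by omega)]
      simp only [map_add, map_one, map_ofNat]

/-- `Y_M` as a polynomial -/
noncomputable def ycP (m : ℕ) : ℂ[X] := yc m (X : ℂ[X])

lemma eval_ycP (m : ℕ) (z : ℂ) : (ycP m).eval z = yc m z := by
  have := map_yc (evalRingHom z) m (X : ℂ[X])
  simpa [ycP] using this

lemma natDegree_yc (m : ℕ) : ∀ c : ℂ, (yc (m + 1) (X + C c)).natDegree ≤ 3 * m := by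
  induction m using Nat.strong_induction_on with
  | _ m ih =>
    intro c
    rcases m with _ | _ | m
    · simp
    · rw [yc_left]
      simp only [yc_zero, yc_one, mul_one, mul_zero, sub_zero, zero_add]
      unfold pz
      compute_degree
    · rw [yc_left]
      have h1 : (yc (m + 1 + 1) (X + C c + 1)).natDegree ≤ 3 * (m + 1) := by
        have := ih (m + 1) (by omega) (c + 1)
        rwa [show (X + C (c + 1) : ℂ[X]) = X + C c + 1 by simp [add_assoc]] at this
      have h2 : (yc (m + 1) (X + C c + 2)).natDegree ≤ 3 * m := by
        have := ih m (by omega) (c + 2)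
        rwa [show (X + C (c + 2) : ℂ[X]) = X + C c + 2 by
          rw [C_add, add_assoc]; rfl] at this
      refine (natDegree_sub_le _ _).trans (max_le ?_ ?_)
      · refine (natDegree_mul_le).trans ?_
        have : (pz (X + C c + 1 : ℂ[X])).natDegree ≤ 3 := by
          unfold pz
          compute_degree
        omega
      · refine (natDegree_mul_le).trans ?_
        have : ((X + C c + 2 : ℂ[X]) ^ 6).natDegree ≤ 6 := by
          compute_degree
        omega

lemma natDegree_ycP (m : ℕ) : (ycP (m + 1)).natDegree ≤ 3 * m := by
  have := natDegree_yc m 0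
  simpa [ycP] using this

end Pool.Agent.QS2
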