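import Pool.Agent.QS2.FF
import Pool.Agent.QS2.RootsA

/-!
Existence of a root of the continuant in each small disc.
-/

set_option autoImplicit false

namespace Pool.Agent.QS2

open Polynomial

lemma differentiable_yc (m : ℕ) : Differentiable ℂ (fun z : ℂ => yc m z) := by
  have : (fun z : ℂ => yc m z) = fun z => (ycP m).eval z := by
    funext z
    rw [eval_ycP]
  rw [this]
  exact (ycP m).differentiable

/-- a root in the small disc -/
theorem exists_root (a b : ℕ) (j : Fin 3) :
    ∃ w : ℂ, ‖w - cen j‖ < 1 / 10 ∧ yc (a + b + 2) (w - (a + 1)) = 0 := by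
  by_contra hcon
  push Not at hcon
  have hreg : ∀ w : ℂ, ‖w - cen j‖ ≤ 1 / 10 → yc (a + b + 2) (w - (a + 1)) ≠ 0 := by
    intro w hw
    rcases lt_or_eq_of_le hw with h | h
    · exact hcon w h
    · obtain ⟨r1, r2⟩ := re_bounds hw
      rw [split_FF a b w (by linarith) (by linarith)]
      have n1 := yc_ne b w (by linarith)
      have n2 := yc_ne a (-1 - w) (by
        rw [Complex.sub_re, Complex.neg_re, Complex.one_re]
        linarith)
      have n3 := FF_circle a b h
      refine mul_ne_zero (mul_ne_zero (mul_ne_zero (by simp) n2) n1) ?_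
      rw [← norm_pos_iff]
      linarith
  set g : ℂ → ℂ := fun w => ((-1) ^ a * yc (a + 1) (-1 - w) * yc (b + 1) w) /
    yc (a + b + 2) (w - (a + 1)) with hg
  have hgF : ∀ w : ℂ, ‖w - cen j‖ ≤ 1 / 10 → ‖g w‖ * ‖FF a b w‖ = 1 := by
    intro w hw
    obtain ⟨r1, r2⟩ := re_bounds hw
    have e := split_FF a b w (by linarith) (by linarith)
    have n := hreg w hw
    rw [← norm_mul, hg]
    simp only
    rw [div_mul_eq_mul_div, ← e, div_self n, norm_one]
  have hd : DiffContOnCl ℂ g (Metric.ball (cen j) (1 / 10)) := by
    apply DifferentiableOn.diffContOnCl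
    rw [closure_ball _ (by norm_num)]
    intro w hw
    rw [mem_closedBall_iff_norm] at hw
    apply DifferentiableAt.differentiableWithinAt
    have d1 : DifferentiableAt ℂ (fun w : ℂ => yc (a + 1) (-1 - w)) w :=
      ((differentiable_yc (a + 1)).comp (differentiable_const (-1 : ℂ) |>.sub differentiable_id)) w
    have d2 : DifferentiableAt ℂ (fun w : ℂ => yc (b + 1) w) w := (differentiable_yc (b + 1)) w
    have d3 : DifferentiableAt ℂ (fun w : ℂ => yc (a + b + 2) (w - (a + 1))) w :=
      ((differentiable_yc (a + b + 2)).comp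
        (differentiable_id.sub (differentiable_const ((a : ℂ) + 1)))) w
    exact (((differentiableAt_const _).mul d1).mul d2).div d3 (hreg w hw)
  have hmax := Complex.norm_le_of_forall_mem_frontier_norm_le Metric.isBounded_ball hd
    (C := 100 / 3) (by
      intro z hz
      rw [frontier_ball _ (by norm_num), mem_sphere_iff_norm] at hz
      have h1 := hgF z hz.le
      have h2 := FF_circle a b hz
      have h3 := norm_nonneg (g z)
      nlinarith) (z := cen j) (by
      apply subset_closure
      exact Metric.mem_ball_self (by norm_num))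
  have h1 := hgF (cen j) (by simp)
  have h2 := FF_centre a b j
  have h3 := norm_nonneg (g (cen j))
  nlinarith

end Pool.Agent.QS2
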