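import Mathlib

/-!
# The action of power series in `1/w` on polynomials in `w` (polynomial part of the product)

`act F Q` is the polynomial part of `Q(w) * F(1/w)`.  `K[w]` is a module over `K⟦X⟧`, `X` acting
as `Polynomial.divX`.
-/

set_option autoImplicit false

namespace QS2SP

open Polynomial Finset

variable {K : Type*} [Field K]

/-- polynomial part of `Q(w) F(1/w)` -/
noncomputable def act (F : PowerSeries K) (Q : K[X]) : K[X] :=
  ∑ k ∈ range (Q.natDegree + 1), C (PowerSeries.coeff k F) * Polynomial.divX^[k] Q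

theorem coeff_divX_iter (Q : K[X]) (k d : ℕ) :
    (Polynomial.divX^[k] Q).coeff d = Q.coeff (d + k) := by
  induction k generalizing d with
  | zero => simp
  | succ k ih =>
    rw [Function.iterate_succ_apply', coeff_divX, ih]
    congr 1; omega

theorem act_coeff (F : PowerSeries K) (Q : K[X]) (d : ℕ) {N : ℕ} (hN : Q.natDegree < N) :
    (act F Q).coeff d = ∑ k ∈ range N, PowerSeries.coeff k F * Q.coeff (d + k) := by
  unfold act
  rw [finsetSum_coeff]
  simp only [coeff_C_mul, coeff_divX_iter]
  apply sum_subset
  · intro k hk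
    simp only [mem_range] at hk ⊢
    omega
  · intro k _ hk
    simp only [mem_range, not_lt] at hk
    rw [coeff_eq_zero_of_natDegree_lt (by omega), mul_zero]

theorem act_natDegree_le (F : PowerSeries K) (Q : K[X]) : (act F Q).natDegree ≤ Q.natDegree := by
  rw [natDegree_le_iff_coeff_eq_zero]
  intro d hd
  rw [act_coeff F Q d (Nat.lt_succ_self _)]
  apply sum_eq_zero
  intro k _
  rw [coeff_eq_zero_of_natDegree_lt (by omega), mul_zero]

theorem act_add (F : PowerSeries K) (P Q : K[X]) : act F (P + Q) = act F P + act F Q := by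
  ext d
  have h1 : P.natDegree < max (max P.natDegree Q.natDegree) (P + Q).natDegree + 1 := by
    have := le_max_left P.natDegree Q.natDegree
    omega
  have h2 : Q.natDegree < max (max P.natDegree Q.natDegree) (P + Q).natDegree + 1 := by
    have := le_max_right P.natDegree Q.natDegree
    omega
  have h3 : (P + Q).natDegree < max (max P.natDegree Q.natDegree) (P + Q).natDegree + 1 := by
    omega
  rw [coeff_add, act_coeff F P d h1, act_coeff F Q d h2, act_coeff F (P + Q) d h3,
    ← sum_add_distrib]
  exact sum_congr rfl fun k _ => by rw [coeff_add]; ring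

theorem act_C_mul (F : PowerSeries K) (c : K) (Q : K[X]) : act F (C c * Q) = C c * act F Q := by
  ext d
  have h1 : (C c * Q).natDegree < Q.natDegree + 1 := by
    have := natDegree_C_mul_le c Q
    omega
  rw [act_coeff F _ d h1, coeff_C_mul, act_coeff F Q d (Nat.lt_succ_self _), mul_sum]
  exact sum_congr rfl fun k _ => by rw [coeff_C_mul]; ring

theorem act_zero (F : PowerSeries K) : act F 0 = 0 := by
  have := act_C_mul F 0 0
  simpa using this

theorem act_sum {ι : Type*} (F : PowerSeries K) (s : Finset ι) (Q : ι → K[X]) :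
    act F (∑ i ∈ s, Q i) = ∑ i ∈ s, act F (Q i) := by
  classical
  induction s using Finset.induction_on with
  | empty => simp [act_zero]
  | insert i s hi ih => rw [sum_insert hi, sum_insert hi, act_add, ih]

theorem act_add_left (F G : PowerSeries K) (Q : K[X]) : act (F + G) Q = act F Q + act G Q := by
  ext d
  rw [coeff_add, act_coeff F Q d (Nat.lt_succ_self _), act_coeff G Q d (Nat.lt_succ_self _),
    act_coeff _ Q d (Nat.lt_succ_self _), ← sum_add_distrib]
  exact sum_congr rfl fun k _ => by rw [map_add]; ring

theorem act_neg_left (F : PowerSeries K) (Q : K[X]) : act (-F) Q = - act F Q := by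
  ext d
  rw [coeff_neg, act_coeff F Q d (Nat.lt_succ_self _), act_coeff _ Q d (Nat.lt_succ_self _),
    ← sum_neg_distrib]
  exact sum_congr rfl fun k _ => by rw [map_neg]; ring

theorem act_sub_left (F G : PowerSeries K) (Q : K[X]) : act (F - G) Q = act F Q - act G Q := by
  rw [sub_eq_add_neg, act_add_left, act_neg_left, ← sub_eq_add_neg]

theorem act_C_mul_left (c : K) (F : PowerSeries K) (Q : K[X]) :
    act (PowerSeries.C c * F) Q = C c * act F Q := by
  ext d
  rw [coeff_C_mul, act_coeff F Q d (Nat.lt_succ_self _), act_coeff _ Q d (Nat.lt_succ_self _),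
    mul_sum]
  exact sum_congr rfl fun k _ => by rw [PowerSeries.coeff_C_mul]; ring

theorem act_zero_left (Q : K[X]) : act 0 Q = 0 := by
  have := act_C_mul_left (0 : K) 0 Q
  simpa using this

theorem act_sum_left {ι : Type*} (s : Finset ι) (F : ι → PowerSeries K) (Q : K[X]) :
    act (∑ i ∈ s, F i) Q = ∑ i ∈ s, act (F i) Q := by
  classical
  induction s using Finset.induction_on with
  | empty => simp [act_zero_left]
  | insert i s hi ih => rw [sum_insert hi, sum_insert hi, act_add_left, ih]

/-- only the coefficients of index `≤ deg Q` matter -/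
theorem act_congr {F G : PowerSeries K} {Q : K[X]} {N : ℕ} (hQ : Q.natDegree ≤ N)
    (h : ∀ k ≤ N, PowerSeries.coeff k F = PowerSeries.coeff k G) : act F Q = act G Q := by
  ext d
  have hN : Q.natDegree < N + 1 := by omega
  rw [act_coeff F Q d hN, act_coeff G Q d hN]
  exact sum_congr rfl fun k hk => by rw [h k (by simpa [Nat.lt_succ_iff] using hk)]

theorem act_one (Q : K[X]) : act 1 Q = Q := by
  ext d
  rw [act_coeff 1 Q d (Nat.lt_succ_self _), sum_eq_single 0]
  · simp
  · intro k _ hk
    simp [PowerSeries.coeff_one, hk]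
  · intro h; simp at h

theorem act_C (c : K) (Q : K[X]) : act (PowerSeries.C c) Q = C c * Q := by
  have := act_C_mul_left c 1 Q
  rwa [mul_one, act_one] at this

theorem act_X (Q : K[X]) : act PowerSeries.X Q = Polynomial.divX Q := by
  ext d
  rw [act_coeff _ Q d (by omega : Q.natDegree < Q.natDegree + 2), sum_eq_single 1]
  · simp
  · intro k _ hk
    simp [PowerSeries.coeff_X, hk]
  · intro h; simp at h

theorem act_mul (F G : PowerSeries K) (Q : K[X]) : act (F * G) Q = act F (act G Q) := by
  ext d
  set N := Q.natDegree + 1 with hN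
  have hQ : Q.natDegree < N := Nat.lt_succ_self _
  have hG : (act G Q).natDegree < N := lt_of_le_of_lt (act_natDegree_le G Q) hQ
  rw [act_coeff _ Q d hQ, act_coeff F _ d hG]
  have h1 : ∀ a ∈ range N, PowerSeries.coeff a F * (act G Q).coeff (d + a)
      = ∑ b ∈ range N, PowerSeries.coeff a F * PowerSeries.coeff b G * Q.coeff (d + a + b) := by
    intro a _
    rw [act_coeff G Q _ hQ, mul_sum]
    exact sum_congr rfl fun b _ => by ring
  rw [sum_congr rfl h1]
  have h2 : ∀ k ∈ range N, PowerSeries.coeff k (F * G) * Q.coeff (d + k)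
      = ∑ p ∈ antidiagonal k,
        PowerSeries.coeff p.1 F * PowerSeries.coeff p.2 G * Q.coeff (d + p.1 + p.2) := by
    intro k _
    rw [PowerSeries.coeff_mul, sum_mul]
    refine sum_congr rfl fun p hp => ?_
    rw [HasAntidiagonal.mem_antidiagonal] at hp
    rw [← hp]
    congr 2; omega
  rw [sum_congr rfl h2, ← sum_product', sum_sigma']
  symm
  -- pairs with sum `≥ N` contribute zero
  have h3 : ∑ x ∈ range N ×ˢ range N,
      PowerSeries.coeff x.1 F * PowerSeries.coeff x.2 G * Q.coeff (d + x.1 + x.2)
      = ∑ x ∈ (range N ×ˢ range N).filter (fun x => x.1 + x.2 < N),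
      PowerSeries.coeff x.1 F * PowerSeries.coeff x.2 G * Q.coeff (d + x.1 + x.2) := by
    symm
    apply sum_subset (filter_subset _ _)
    intro x hx hx'
    simp only [mem_filter, not_and, not_lt] at hx'
    have := hx' hx
    rw [coeff_eq_zero_of_natDegree_lt (by omega), mul_zero]
  rw [h3]
  refine sum_bij' (fun x _ => (⟨x.1 + x.2, x⟩ : Σ _ : ℕ, ℕ × ℕ)) (fun y _ => y.2) ?_ ?_ ?_ ?_ ?_
  · intro x hx
    simp only [mem_filter, mem_product, mem_range] at hx
    simp only [mem_sigma, mem_range, HasAntidiagonal.mem_antidiagonal]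
    exact ⟨hx.2, trivial⟩
  · rintro ⟨k, x⟩ hy
    simp only [mem_sigma, mem_range, HasAntidiagonal.mem_antidiagonal] at hy
    simp only [mem_filter, mem_product, mem_range]
    omega
  · intro x _
    rfl
  · rintro ⟨k, x⟩ hy
    simp only [mem_sigma, mem_range, HasAntidiagonal.mem_antidiagonal] at hy
    obtain ⟨_, h⟩ := hy
    subst h
    rfl
  · intro x _
    rfl

end QS2SP
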