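import Pool.Agent.QS2.Defs
import Pool.Agent.QS2.SPInt

/-!
# Small primes: all levels

`smallP_det` : if `v * g = f` with `f`, `g` `Nice` (for instance integral combinations of products
of `m!/((z+a)...(z+a+m))`) and `g(∞)` a unit, then the determinant of nodes and jets is `p`-integral
up to `p^{O(log_p Nc)}` per node.
-/

set_option autoImplicit false
set_option linter.unusedSectionVars false

namespace QS2SP

open Polynomial Finset QS2

variable {K : Type*} [Field K] [CharZero K]

theorem chP_eq_binP (i : ℕ) : chP K i = binP K i := rfl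

theorem pp_eq_act (v : ℕ → K) (Q : K[X]) : pp v Q = act (PowerSeries.mk v) Q := by
  ext d
  rw [act_coeff _ Q d (Nat.lt_succ_self _), pp, finsetSum_coeff]
  have h1 : ∀ i ∈ range (Q.natDegree + 1),
      (∑ m ∈ range (i + 1), C (Q.coeff i * v m) * X ^ (i - m)).coeff d
      = if d ≤ i then Q.coeff i * v (i - d) else 0 := by
    intro i _
    rw [finsetSum_coeff]
    simp only [coeff_C_mul, coeff_X_pow]
    split_ifs with hd
    · rw [sum_eq_single (i - d)]
      · rw [if_pos (by omega), mul_one]
      · intro m hm hne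
        rw [mem_range] at hm
        rw [if_neg (by omega), mul_zero]
      · intro h
        exact absurd (mem_range.mpr (by omega)) h
    · apply sum_eq_zero
      intro m _
      rw [if_neg (by omega), mul_zero]
  rw [sum_congr rfl h1]
  have h2 : ∑ k ∈ range (Q.natDegree + 1), PowerSeries.coeff k (PowerSeries.mk v) * Q.coeff (d + k)
      = ∑ k ∈ (range (Q.natDegree + 1)).filter (fun k => d + k < Q.natDegree + 1),
        PowerSeries.coeff k (PowerSeries.mk v) * Q.coeff (d + k) := by
    symm
    apply sum_subset (filter_subset _ _)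
    intro k hk hk'
    simp only [mem_filter, not_and, not_lt] at hk'
    rw [coeff_eq_zero_of_natDegree_lt (by have := hk' hk; omega), mul_zero]
  have h3 : ∑ i ∈ range (Q.natDegree + 1), (if d ≤ i then Q.coeff i * v (i - d) else 0)
      = ∑ i ∈ (range (Q.natDegree + 1)).filter (fun i => d ≤ i), Q.coeff i * v (i - d) := by
    rw [sum_filter]
  rw [h2, h3]
  refine sum_bij' (fun i _ => i - d) (fun k _ => d + k) ?_ ?_ ?_ ?_ ?_
  · intro i hi
    simp only [mem_filter, mem_range] at hi ⊢
    omega
  · intro k hk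
    simp only [mem_filter, mem_range] at hk ⊢
    omega
  · intro i hi
    simp only [mem_filter, mem_range] at hi
    omega
  · intro k _
    omega
  · intro i hi
    simp only [mem_filter, mem_range] at hi
    rw [PowerSeries.coeff_mk, show d + (i - d) = i by omega]
    ring

theorem IntR.eval_int {R : Subring K} {D : ℕ} {Q : K[X]} (h : IntR R D Q) (n : ℤ) :
    Q.eval (n : K) ∈ R := by
  obtain ⟨c, hc, rfl⟩ := h
  rw [eval_finsetSum]
  apply R.sum_mem
  intro k _
  rw [eval_mul, eval_C]
  exact R.mul_mem (hc k) (chK_int_mem R n k)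

theorem fac_mul_chP (i : ℕ) : C (i.factorial : K) * chP K i = descPochhammer K i := by
  rw [chP, ← mul_assoc, ← C_mul, mul_inv_cancel₀ (fac_ne i), C_1, one_mul]

theorem descP_coeff_mem (R : Subring K) (i d : ℕ) : (descPochhammer K i).coeff d ∈ R := by
  have h : (descPochhammer K i) = (descPochhammer ℤ i).map (Int.castRingHom K) := by
    rw [descPochhammer_map]
  rw [h, coeff_map]
  exact intCast_mem R _

/-- The determinant bound, with an arbitrary loss `p ^ L`. -/
theorem smallP_det' {R : Subring K} {p : ℕ} (hp : p.Prime)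
    {v : ℕ → K} {f g : PowerSeries K} (hv : PowerSeries.mk v * g = f) (L Nc : ℕ)
    (hf : ∀ i : Fin Nc, IntR R i (C ((p : K) ^ L) * act f (chP K i)))
    (hg : ∀ i : Fin Nc, IntR R i (C ((p : K) ^ L) * act g (chP K i)))
    (hg0 : PowerSeries.coeff 0 g ≠ 0) (hg1 : (PowerSeries.coeff 0 g)⁻¹ ∈ R)
    {F : Type*} [Fintype F] [DecidableEq F] (z : F → ℤ) (u0 u1 : F → K) (b : ℕ)
    (hu0 : ∀ i, (p : K) ^ b * u0 i ∈ R) (hu1 : ∀ i, (p : K) ^ b * u1 i ∈ R)
    (R0 : ℕ) (hR0 : R0 ≤ Nc) (e : (Fin Nc ⊕ Fin Nc) ≃ (F ⊕ Fin R0)) :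
    (p : K) ^ ((L + b) * Fintype.card F)
      * ((fullM z u0 u1 v Nc R0).submatrix e id).det ∈ R := by
  classical
  have hp0 : (p : K) ≠ 0 := Nat.cast_ne_zero.mpr hp.ne_zero
  have hpm : ∀ k : ℕ, (p : K) ^ k ∈ R := fun k => R.pow_mem (natCast_mem R p) k
  -- integral coefficients
  have hcof : ∀ (G : PowerSeries K),
      (∀ i : Fin Nc, IntR R i (C ((p : K) ^ L) * act G (chP K i))) →
      ∀ i : Fin Nc, ∃ c : ℕ → K, (∀ k, c k ∈ R) ∧
      (∀ k, (i : ℕ) < k → c k = 0) ∧
      C ((p : K) ^ L) * act G (chP K i) = ∑ k : Fin Nc, C (c k) * chP K k := by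
    intro G hG i
    obtain ⟨c, hc, h⟩ := hG i
    refine ⟨fun k => if k < (i : ℕ) + 1 then c k else 0, fun k => ?_, fun k hk => ?_, ?_⟩
    · dsimp only
      split_ifs
      · exact hc k
      · exact R.zero_mem
    · dsimp only
      rw [if_neg (by omega)]
    · rw [h]
      rw [Fin.sum_univ_eq_sum_range (fun k => C (if k < (i : ℕ) + 1 then c k else 0) * chP K k)
        Nc]
      have hs : range ((i : ℕ) + 1) ⊆ range Nc := range_subset_range.mpr (by omega)
      rw [← sum_subset hs]
      · refine sum_congr rfl fun k hk => ?_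
        rw [if_pos (mem_range.mp hk)]
      · intro k _ hk
        rw [if_neg (by simpa using hk)]
        simp
  choose cf hcf1 hcf2 hcf3 using hcof f hf
  choose cg hcg1 hcg2 hcg3 using hcof g hg
  -- diagonal coefficients of `g`
  have hdiag : ∀ i : Fin Nc, cg i i = (p : K) ^ L * PowerSeries.coeff 0 g := by
    intro i
    have h1 := congrArg (fun P => P.coeff (i : ℕ)) (hcg3 i)
    simp only [coeff_C_mul, finsetSum_coeff] at h1
    rw [act_coeff g _ _ (Nat.lt_succ_self _)] at h1
    rw [sum_eq_single i] at h1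
    · rw [sum_eq_single 0] at h1
      · rw [add_zero, coeff_chP_self] at h1
        have hf := fac_ne (K := K) (i : ℕ)
        field_simp at h1
        rw [← h1]
      · intro k _ hk
        rw [coeff_eq_zero_of_natDegree_lt (by rw [natDegree_chP]; omega), mul_zero]
      · intro h; simp at h
    · intro k _ hk
      rcases lt_or_gt_of_ne hk with h | h
      · rw [coeff_eq_zero_of_natDegree_lt (by rw [natDegree_chP]; exact h), mul_zero]
      · rw [hcg2 i k h, zero_mul]
    · intro h; exact absurd (mem_univ i) h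
  -- scaling of the `P` columns
  set t : Fin Nc → K := fun i => if Nc - R0 ≤ (i : ℕ) then ((i : ℕ).factorial : K) else 1 with ht
  set T : Matrix (Fin Nc ⊕ Fin Nc) (Fin Nc ⊕ Fin Nc) K :=
    Matrix.fromBlocks (Matrix.diagonal t) (Matrix.of fun k i => - cf i k) 0
      (Matrix.of fun k i => cg i k) with hT
  have hdetT : T.det = (∏ i, t i) * ((p : K) ^ L * PowerSeries.coeff 0 g) ^ Nc := by
    rw [hT, Matrix.det_fromBlocks_zero₂₁, Matrix.det_diagonal]
    congr 1
    rw [Matrix.det_of_isUpperTriangular]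
    · simp only [Matrix.of_apply]
      rw [prod_congr rfl fun i _ => hdiag i]
      simp
    · intro k i hik
      simp only [id_eq] at hik
      rw [Matrix.of_apply]
      exact hcg2 i k hik
  set M := (fullM z u0 u1 v Nc R0).submatrix e id with hM
  -- row scaling
  set sc : F ⊕ Fin R0 → K := fun r => match r with
    | Sum.inl _ => ((p : K) ^ b)⁻¹
    | Sum.inr d => ((Nc - R0 + (d : ℕ)).factorial : K) with hsc
  -- the product `M * T` has integral rows after scaling
  have hsum : ∀ r i, (M * T) r (Sum.inr i) = ∑ k, M r (Sum.inl k) * (- cf i k)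
      + ∑ k, M r (Sum.inr k) * cg i k := by
    intro r i
    rw [Matrix.mul_apply, Fintype.sum_sum_type]
    simp [hT]
  have hsum' : ∀ r i, (M * T) r (Sum.inl i) = M r (Sum.inl i) * t i := by
    intro r i
    rw [Matrix.mul_apply, Fintype.sum_sum_type]
    simp [hT, Matrix.diagonal_apply]
  have hentry : ∀ r c, ∃ n ∈ R, (M * T) r c = sc (e r) * n := by
    intro r c
    rcases c with i | i
    · rw [hsum']
      have hMr : M r (Sum.inl i) = fullM z u0 u1 v Nc R0 (e r) (Sum.inl i) := rfl
      rw [hMr]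
      rcases e r with f' | d
      · refine ⟨t i * (chK ((z f' : ℤ) : K) i * ((p : K) ^ b * u0 f')), ?_, ?_⟩
        · refine R.mul_mem ?_ (R.mul_mem (chK_int_mem R _ _) (hu0 f'))
          rw [ht]
          dsimp only
          split_ifs
          · exact natCast_mem R _
          · exact R.one_mem
        · have hpb : (p : K) ^ b ≠ 0 := pow_ne_zero _ hp0
          change chK ((z f' : ℤ) : K) i * u0 f' * t i = ((p : K) ^ b)⁻¹ * _
          field_simp
      · refine ⟨(C (t i) * chP K i).coeff (Nc - R0 + d), ?_, ?_⟩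
        · rw [ht]
          dsimp only
          split_ifs with h
          · rw [fac_mul_chP]
            exact descP_coeff_mem R _ _
          · rw [C_1, one_mul, coeff_eq_zero_of_natDegree_lt (by rw [natDegree_chP]; omega)]
            exact R.zero_mem
        · rw [coeff_C_mul]
          change ((Nc - R0 + (d : ℕ)).factorial : K) * (chP K i).coeff (Nc - R0 + d) * t i
            = ((Nc - R0 + (d : ℕ)).factorial : K) * _
          ring
    · rw [hsum]
      have hMr : ∀ x, M r x = fullM z u0 u1 v Nc R0 (e r) x := fun _ => rfl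
      simp only [hMr]
      rcases e r with f' | d
      · refine ⟨∑ k : Fin Nc, chK ((z f' : ℤ) : K) k * ((p : K) ^ b * u0 f') * (- cf i k)
          + ∑ k : Fin Nc, chK ((z f' : ℤ) : K) k * ((p : K) ^ b * u1 f') * cg i k, ?_, ?_⟩
        · refine R.add_mem (R.sum_mem fun k _ => ?_) (R.sum_mem fun k _ => ?_)
          · exact R.mul_mem (R.mul_mem (chK_int_mem R _ _) (hu0 f')) (R.neg_mem (hcf1 i k))
          · exact R.mul_mem (R.mul_mem (chK_int_mem R _ _) (hu1 f')) (hcg1 i k)
        · have hpb : (p : K) ^ b ≠ 0 := pow_ne_zero _ hp0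
          change ∑ k : Fin Nc, chK ((z f' : ℤ) : K) k * u0 f' * (- cf i k)
            + ∑ k : Fin Nc, chK ((z f' : ℤ) : K) k * u1 f' * cg i k = ((p : K) ^ b)⁻¹ * _
          rw [mul_add, mul_sum, mul_sum]
          congr 1
          · exact sum_congr rfl fun k _ => by field_simp
          · exact sum_congr rfl fun k _ => by field_simp
      · refine ⟨0, R.zero_mem, ?_⟩
        rw [mul_zero]
        change ∑ k : Fin Nc, ((Nc - R0 + (d : ℕ)).factorial : K) * (chP K k).coeff (Nc - R0 + d)
            * (- cf i k)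
          + ∑ k : Fin Nc, ((Nc - R0 + (d : ℕ)).factorial : K)
            * (pp v (chP K k)).coeff (Nc - R0 + d) * cg i k = 0
        have h1 := congrArg (fun P => P.coeff (Nc - R0 + (d : ℕ))) (hcf3 i)
        have h2 : C ((p : K) ^ L) * act (PowerSeries.mk v) (act g (chP K i))
            = ∑ k : Fin Nc, C (cg i k) * act (PowerSeries.mk v) (chP K k) := by
          rw [← act_C_mul, hcg3 i, act_sum]
          exact sum_congr rfl fun k _ => act_C_mul _ _ _
        rw [← act_mul, hv] at h2
        have h3 := congrArg (fun P => P.coeff (Nc - R0 + (d : ℕ))) h2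
        simp only [coeff_C_mul, finsetSum_coeff] at h1 h3
        rw [h1] at h3
        have e1 : ∑ k : Fin Nc, ((Nc - R0 + (d : ℕ)).factorial : K)
            * (chP K k).coeff (Nc - R0 + d) * (- cf i k)
            = - ((Nc - R0 + (d : ℕ)).factorial : K)
              * ∑ k : Fin Nc, cf i k * (chP K k).coeff (Nc - R0 + d) := by
          rw [mul_sum]
          exact sum_congr rfl fun k _ => by ring
        have e2 : ∑ k : Fin Nc, ((Nc - R0 + (d : ℕ)).factorial : K)
            * (pp v (chP K k)).coeff (Nc - R0 + d) * cg i k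
            = ((Nc - R0 + (d : ℕ)).factorial : K)
              * ∑ k : Fin Nc, cg i k * (act (PowerSeries.mk v) (chP K k)).coeff (Nc - R0 + d) := by
          rw [mul_sum]
          exact sum_congr rfl fun k _ => by rw [pp_eq_act]; ring
        rw [e1, e2, h3]
        ring
  choose N hN hMN using hentry
  have hMN' : M * T = Matrix.of fun r c => sc (e r) * N r c := by
    ext r c
    rw [hMN r c, Matrix.of_apply]
  have hdetN : (Matrix.of N : Matrix _ _ K).det ∈ R := by
    rw [Matrix.det_apply]
    refine R.sum_mem fun σ _ => ?_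
    have h1 : ∏ i, (Matrix.of N : Matrix _ _ K) (σ i) i ∈ R := R.prod_mem fun i _ => hN _ _
    rcases Int.units_eq_one_or (Equiv.Perm.sign σ) with h | h
    · rw [h, one_smul]; exact h1
    · rw [h, Units.neg_smul, one_smul]; exact R.neg_mem h1
  have hdet1 := congrArg Matrix.det hMN'
  rw [Matrix.det_mul, hdetT] at hdet1
  have hdet2 : (Matrix.of fun r c => sc (e r) * N r c).det
      = (∏ r, sc (e r)) * (Matrix.of N).det := Matrix.det_mul_column (fun r => sc (e r)) (Matrix.of N)
  rw [hdet2, Equiv.prod_comp e sc, Fintype.prod_sum_type] at hdet1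
  -- the product of the jet scalings equals the product of the column scalings
  have hprod : ∏ i, t i = ∏ d : Fin R0, ((Nc - R0 + (d : ℕ)).factorial : K) := by
    rw [ht, Fin.prod_univ_eq_prod_range (fun i => if Nc - R0 ≤ i then (i.factorial : K) else 1) Nc,
      Fin.prod_univ_eq_prod_range (fun d => ((Nc - R0 + d).factorial : K)) R0]
    have hNc : Nc = (Nc - R0) + R0 := by omega
    conv_lhs => rw [hNc, prod_range_add]
    rw [prod_eq_one (s := range (Nc - R0)), one_mul]
    · refine prod_congr rfl fun d _ => ?_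
      rw [if_pos (by omega)]
    · intro i hi
      rw [mem_range] at hi
      rw [if_neg (by omega)]
  have hcard : 2 * Nc = Fintype.card F + R0 := by
    have := Fintype.card_congr e
    simp only [Fintype.card_sum, Fintype.card_fin] at this
    omega
  set G0 := PowerSeries.coeff 0 g with hG0
  set Pf := ∏ d : Fin R0, ((Nc - R0 + (d : ℕ)).factorial : K) with hPf
  have hPf0 : Pf ≠ 0 := Finset.prod_ne_zero_iff.mpr fun d _ => fac_ne _
  rw [hprod] at hdet1
  have e3 : ∏ f' : F, sc (Sum.inl f') = ((p : K) ^ (b * Fintype.card F))⁻¹ := by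
    simp only [hsc, prod_const, card_univ]
    rw [inv_pow, ← pow_mul]
  rw [e3] at hdet1
  have hpb : (p : K) ^ (b * Fintype.card F) ≠ 0 := pow_ne_zero _ hp0
  have hkey : (p : K) ^ (L * Nc + b * Fintype.card F) * M.det
      = (G0⁻¹) ^ Nc * (Matrix.of N).det := by
    have h5 : M.det * (Pf * ((p : K) ^ L * G0) ^ Nc) * (p : K) ^ (b * Fintype.card F)
        = Pf * (Matrix.of N).det := by
      rw [hdet1]
      field_simp
    have h6 : Pf * (M.det * ((p : K) ^ L * G0) ^ Nc * (p : K) ^ (b * Fintype.card F))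
        = Pf * (Matrix.of N).det := by
      rw [← h5]; ring
    have h7 := mul_left_cancel₀ hPf0 h6
    rw [← h7, mul_pow, ← pow_mul, pow_add, inv_pow]
    have hg0' : G0 ^ Nc ≠ 0 := pow_ne_zero _ hg0
    field_simp
  have hexp : (L + b) * Fintype.card F = L * (Fintype.card F - Nc) + (L * Nc + b * Fintype.card F) := by
    have : Nc ≤ Fintype.card F := by omega
    obtain ⟨q, hq⟩ := Nat.exists_eq_add_of_le this
    rw [hq, Nat.add_sub_cancel_left]
    ring
  rw [hexp, pow_add, mul_assoc, hkey]
  exact R.mul_mem (hpm _) (R.mul_mem (R.pow_mem hg1 _) hdetN)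

/-- The determinant bound. -/
theorem smallP_det {R : Subring K} {p : ℕ} (hp : p.Prime) (_hR : PLoc R p)
    {v : ℕ → K} {f g : PowerSeries K} (hv : PowerSeries.mk v * g = f) {s : ℕ}
    (hf : Nice R p s f) (hg : Nice R p s g) (hg0 : PowerSeries.coeff 0 g ≠ 0)
    (hg1 : (PowerSeries.coeff 0 g)⁻¹ ∈ R)
    {F : Type*} [Fintype F] [DecidableEq F] (z : F → ℤ) (u0 u1 : F → K) (b : ℕ)
    (hu0 : ∀ i, (p : K) ^ b * u0 i ∈ R) (hu1 : ∀ i, (p : K) ^ b * u1 i ∈ R)
    (Nc R0 : ℕ) (hR0 : R0 ≤ Nc) (e : (Fin Nc ⊕ Fin Nc) ≃ (F ⊕ Fin R0)) :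
    (p : K) ^ ((s * Nat.log p Nc + b) * Fintype.card F)
      * ((fullM z u0 u1 v Nc R0).submatrix e id).det ∈ R := by
  have key : ∀ G : PowerSeries K, Nice R p s G → ∀ i : Fin Nc,
      IntR R i (C ((p : K) ^ (s * Nat.log p Nc)) * act G (chP K i)) := by
    intro G hG i
    have hle : s * Nat.log p i ≤ s * Nat.log p Nc :=
      Nat.mul_le_mul_left s (Nat.log_mono_right i.2.le)
    have h := IntR.C_mul (R.pow_mem (natCast_mem R p) (s * Nat.log p Nc - s * Nat.log p i))
      (hG i (chP K i) (IntR.chP R le_rfl))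
    rwa [← mul_assoc, ← C_mul, ← pow_add, Nat.sub_add_cancel hle] at h
  exact smallP_det' hp hv _ Nc (key f hf) (key g hg) hg0 hg1 z u0 u1 b hu0 hu1 R0 hR0 e

end QS2SP
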