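import Pool.Agent.QS2.SmallPSym
import Pool.Agent.QS2.Expo
import Pool.Agent.QS2.Sym

/-!
# The small odd primes: `SmallRule v 12` for the formal solution `v`
-/

set_option autoImplicit false

namespace QS2

open PowerSeries Finset

/-- all odd primes, all levels: `p ^ (12 log_p (A + n) + 3 log_p (A + 1)) (2 A)) * DeltaR` is
`p`-integral -/
theorem smallRule_ex {v : ℕ → K} (hv0 : v 0 = alpha) (hv : IsFormal v) : SmallRule v 12 := by
  intro n A p hp hp2 hA y y' hy hy'
  obtain ⟨kap, hk, hk0, hk1, hfor⟩ := Sym.sym_formula (p := p) hp2 hv hv0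
  exact QS2SP.smallP_sym hp2 hy hy' hk hk0 hk1 (Sym.EK_prod (3 * 2⁻¹)) (Sym.EK_prod (5 * 2⁻¹))
    (Sym.coeff_sigF kap _) (Sym.coeff_sigF kap _) hfor A n hA

end QS2
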