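import Mathlib

/-!
# Ring identities in `y = q^2`, `s`, and their inverses
-/

set_option autoImplicit false
set_option linter.unusedVariables false

namespace QS2.Sym

variable {R : Type*} [CommRing R] (y yi s si hf : R)

theorem alg_f (hy : y * yi = 1) (hs : s ^ 2 = 1 + y ^ 2) (h3 : 2 * hf = 1)
    (hsi : s * si = 1) :
    ((hf * si - hf * yi) * (s - 1) + (s - y) * (hf * si)) * yi + (s - y) * (s - 1) * (-(hf * yi ^ 3)) =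
      hf * ((s - y) * (s - 1) * yi) * ((1 - y) * si * yi ^ 2) := by
  have hu : IsUnit (s ^ 4 * y ^ 4) :=
    ((IsUnit.of_mul_eq_one _ hsi).pow 4).mul ((IsUnit.of_mul_eq_one _ hy).pow 4)
  apply hu.mul_left_cancel
  linear_combination (-hf*s^3*y^4*yi - hf*s^3*y^5*yi - hf*s^3*y^5*yi^3 + hf*s^3*y^6*yi^3 + 2*hf*s^4*y^4*yi +
      hf*s^4*y^4*yi^3 - hf*s^4*y^6*yi^3 - hf*s^5*y^4*yi^3 + hf*s^5*y^5*yi^3) * hsi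
    + (-hf*s^3*y^2 - hf*s^3*y^3*yi - hf*s^3*y^4 + hf*s^3*y^4*yi - hf*s^3*y^4*yi^2 +
      hf*s^3*y^5*yi^2 + hf*s^4*y + hf*s^4*y^2*yi + hf*s^4*y^3 + hf*s^4*y^3*yi^2 - hf*s^4*y^4*yi
      - hf*s^4*y^4*yi^2 - hf*s^4*y^5*yi^2 + hf*s^5*y^2 + hf*s^5*y^3*yi + 2*hf*s^5*y^4*yi^2 -
      hf*s^6*y - hf*s^6*y^2*yi - hf*s^6*y^3*yi^2) * hy
    + (hf*s^3*y^2 - hf*s^4*y) * hs

theorem alg_m (hy : y * yi = 1) (hs : s ^ 2 = 1 + y ^ 2) (h3 : 2 * hf = 1)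
    (hsi : s * si = 1) :
    (-(hf * si ^ 3)) * ((s + y) * (s + 1) * yi) + si * (((hf * si + hf * yi) * (s + 1) + (s + y) * (hf * si)) * yi + (s + y) * (s + 1) * (-(hf * yi ^ 3))) =
      si * ((s + y) * (s + 1) * yi) * (-(hf * si ^ 2) - (1 - y) * hf * si * yi ^ 2) := by
  have hu : IsUnit (s ^ 4 * y ^ 4) :=
    ((IsUnit.of_mul_eq_one _ hsi).pow 4).mul ((IsUnit.of_mul_eq_one _ hy).pow 4)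
  apply hu.mul_left_cancel
  linear_combination (hf*s^2*y^4*yi + hf*s^2*y^5*yi + hf*s^2*y^5*yi^3 - hf*s^2*y^6*yi^3 + hf*s^3*si*y^4*yi +
      hf*s^3*si*y^5*yi + hf*s^3*si*y^5*yi^3 - hf*s^3*si*y^6*yi^3 + 2*hf*s^3*y^4*yi +
      hf*s^3*y^4*yi^2 + hf*s^3*y^4*yi^3 - hf*s^3*y^5*yi^3 - hf*s^3*y^6*yi^3 + 2*hf*s^4*si*y^4*yi
      + hf*s^4*si*y^4*yi^3 - hf*s^4*si*y^6*yi^3 + hf*s^4*y^4*yi^2 - 2*hf*s^4*y^5*yi^3 +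
      hf*s^5*si*y^4*yi^3 - hf*s^5*si*y^5*yi^3 - hf*s^5*y^4*yi^3) * hsi
    + (hf*s^2*y^2 + hf*s^2*y^3*yi + hf*s^2*y^4 - hf*s^2*y^4*yi + hf*s^2*y^4*yi^2 -
      hf*s^2*y^5*yi^2 + hf*s^3*y + hf*s^3*y^2*yi + hf*s^3*y^3 + hf*s^3*y^3*yi^2 - hf*s^3*y^4*yi
      - hf*s^3*y^4*yi^2 - hf*s^3*y^5*yi^2 - hf*s^4*y^2 - hf*s^4*y^3*yi - 2*hf*s^4*y^4*yi^2 -
      hf*s^5*y - hf*s^5*y^2*yi - hf*s^5*y^3*yi^2) * hy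
    + (-hf*s^2*y^2 - hf*s^3*y) * hs

theorem alg_Z (hy : y * yi = 1) (hs : s ^ 2 = 1 + y ^ 2) (h3 : 2 * hf = 1)
    (hsi : s * si = 1) :
    2 * (s + y) * (hf * si + hf * yi) =
      si * yi * (s + y) ^ 2 := by
  have hu : IsUnit (s ^ 4 * y ^ 4) :=
    ((IsUnit.of_mul_eq_one _ hsi).pow 4).mul ((IsUnit.of_mul_eq_one _ hy).pow 4)
  apply hu.mul_left_cancel
  linear_combination (2*hf*s^3*y^5 + 2*hf*s^4*y^4 - s^3*y^6*yi - 2*s^4*y^5*yi - s^5*y^4*yi) * hsi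
    + (2*hf*s^4*y^4 + 2*hf*s^5*y^3 - s^3*y^5 - 2*s^4*y^4 - s^5*y^3) * hy
    + (2*hf*s*y^3 + 4*hf*s*y^5 + 4*hf*s^2*y^4 + 2*hf*s^3*y^3 + 4*hf*y^4 + 4*hf*y^6 - s*y^3 -
      2*s*y^5 - 2*s^2*y^4 - s^3*y^3 - 2*y^4 - 2*y^6) * hs
    + (s*y^3 + 3*s*y^5 + 2*s*y^7 + 2*y^4 + 4*y^6 + 2*y^8) * h3

theorem alg_ZY (hy : y * yi = 1) (hs : s ^ 2 = 1 + y ^ 2) (h3 : 2 * hf = 1)
    (hsi : s * si = 1) :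
    2 * (s + 1) * (hf * si) * yi ^ 2 + (s + 1) ^ 2 * (2 * yi * (-(hf * yi ^ 3))) =
      -(si * yi ^ 2 * ((s + 1) ^ 2 * yi ^ 2)) := by
  have hu : IsUnit (s ^ 4 * y ^ 4) :=
    ((IsUnit.of_mul_eq_one _ hsi).pow 4).mul ((IsUnit.of_mul_eq_one _ hy).pow 4)
  apply hu.mul_left_cancel
  linear_combination (2*hf*s^3*y^4*yi^2 + 2*hf*s^4*y^4*yi^2 + s^3*y^4*yi^4 + 2*s^4*y^4*yi^4 + s^5*y^4*yi^4) * hsi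
    + (2*hf*s^3*y^2 + 2*hf*s^3*y^3*yi - 2*hf*s^4 - 2*hf*s^4*y*yi + 2*hf*s^4*y^2 -
      2*hf*s^4*y^2*yi^2 + 2*hf*s^4*y^3*yi - 2*hf*s^4*y^3*yi^3 - 4*hf*s^5 - 4*hf*s^5*y*yi -
      4*hf*s^5*y^2*yi^2 - 4*hf*s^5*y^3*yi^3 - 2*hf*s^6 - 2*hf*s^6*y*yi - 2*hf*s^6*y^2*yi^2 -
      2*hf*s^6*y^3*yi^3 + s^3 + s^3*y*yi + s^3*y^2*yi^2 + s^3*y^3*yi^3 + 2*s^4 + 2*s^4*y*yi +
      2*s^4*y^2*yi^2 + 2*s^4*y^3*yi^3 + s^5 + s^5*y*yi + s^5*y^2*yi^2 + s^5*y^3*yi^3) * hy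
    + (2 - 4*hf - 4*hf*s - 2*hf*s*y^2 - 4*hf*s^2 - 4*hf*s^3 - 2*hf*s^4 - 4*hf*y^2 + 2*s + s*y^2 +
      2*s^2 + s^3 + 2*y^2) * hs
    + (-2 - 2*s - 3*s*y^2 - s*y^4 - 4*y^2 - 2*y^4) * h3

theorem alg_y2 (hy : y * yi = 1) (hs : s ^ 2 = 1 + y ^ 2) (h3 : 2 * hf = 1)
    (hsi : s * si = 1) :
    2 * y * (hf * yi) =
      1 := by
  have hu : IsUnit (s ^ 4 * y ^ 4) :=
    ((IsUnit.of_mul_eq_one _ hsi).pow 4).mul ((IsUnit.of_mul_eq_one _ hy).pow 4)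
  apply hu.mul_left_cancel
  linear_combination (2*hf*s^4*y^4) * hy
    + (2*hf*s^2*y^4 + 2*hf*y^4 + 2*hf*y^6 - s^2*y^4 - y^4 - y^6) * hs
    + (y^4 + 2*y^6 + y^8) * h3

theorem alg_yi2 (hy : y * yi = 1) (hs : s ^ 2 = 1 + y ^ 2) (h3 : 2 * hf = 1)
    (hsi : s * si = 1) :
    2 * yi * (-(hf * yi ^ 3)) =
      -(yi ^ 4) := by
  have hu : IsUnit (s ^ 4 * y ^ 4) :=
    ((IsUnit.of_mul_eq_one _ hsi).pow 4).mul ((IsUnit.of_mul_eq_one _ hy).pow 4)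
  apply hu.mul_left_cancel
  linear_combination (-2*hf*s^4 - 2*hf*s^4*y*yi - 2*hf*s^4*y^2*yi^2 - 2*hf*s^4*y^3*yi^3 + s^4 + s^4*y*yi +
      s^4*y^2*yi^2 + s^4*y^3*yi^3) * hy
    + (1 - 2*hf - 2*hf*s^2 - 2*hf*y^2 + s^2 + y^2) * hs
    + (-1 - 2*y^2 - y^4) * h3

theorem alg_omX (hy : y * yi = 1) (hs : s ^ 2 = 1 + y ^ 2) (h3 : 2 * hf = 1)
    (hsi : s * si = 1) :
    -(hf ^ 2 * (2 * (s - y) * (hf * si - hf * yi) * (yi * si) + (s - y) ^ 2 * ((-(hf * yi ^ 3)) * si + yi * (-(hf * si ^ 3))))) =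
      hf ^ 3 * yi ^ 3 * si ^ 3 := by
  have hu : IsUnit (s ^ 4 * y ^ 4) :=
    ((IsUnit.of_mul_eq_one _ hsi).pow 4).mul ((IsUnit.of_mul_eq_one _ hy).pow 4)
  apply hu.mul_left_cancel
  linear_combination (-hf^3*s*y^4*yi^3 + hf^3*s*y^6*yi - hf^3*s^2*si*y^4*yi^3 + hf^3*s^2*si*y^6*yi -
      hf^3*s^3*si^2*y^4*yi^3 + hf^3*s^3*si^2*y^6*yi - hf^3*s^3*y^4*yi - 2*hf^3*s^3*y^5*yi^2 +
      hf^3*s^3*y^6*yi^3 - hf^3*s^4*si*y^4*yi - 2*hf^3*s^4*si^2*y^5*yi + 2*hf^3*s^4*y^4*yi^2 -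
      2*hf^3*s^4*y^5*yi^3 + hf^3*s^5*si^2*y^4*yi + hf^3*s^5*y^4*yi^3) * hsi
    + (-hf^3*s*y - hf^3*s*y^2*yi - hf^3*s*y^3*yi^2 + hf^3*s*y^5 - 2*hf^3*s^3*y^3 -
      hf^3*s^3*y^4*yi + hf^3*s^3*y^5*yi^2 - 2*hf^3*s^4*y^4*yi^2 + hf^3*s^5*y + hf^3*s^5*y^2*yi +
      hf^3*s^5*y^3*yi^2) * hy
    + (hf^3*s*y - hf^3*s*y^3 + hf^3*s^3*y) * hs

theorem alg_omY (hy : y * yi = 1) (hs : s ^ 2 = 1 + y ^ 2) (h3 : 2 * hf = 1)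
    (hsi : s * si = 1) :
    -(hf ^ 2 * (2 * (s - 1) * (hf * si) * si + (s - 1) ^ 2 * (-(hf * si ^ 3)))) =
      -(hf ^ 3 * si ^ 3 * y ^ 2) := by
  have hu : IsUnit (s ^ 4 * y ^ 4) :=
    ((IsUnit.of_mul_eq_one _ hsi).pow 4).mul ((IsUnit.of_mul_eq_one _ hy).pow 4)
  apply hu.mul_left_cancel
  linear_combination (hf^3*s*y^4 + hf^3*s*y^6 + hf^3*s^2*si*y^4 + hf^3*s^2*si*y^6 + hf^3*s^3*si^2*y^4 +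
      hf^3*s^3*si^2*y^6 - hf^3*s^3*y^4 - hf^3*s^4*si*y^4 - 2*hf^3*s^4*si^2*y^4 +
      hf^3*s^5*si^2*y^4) * hsi
    + (-hf^3*s*y^4) * hs

theorem alg_omX1 (hy : y * yi = 1) (hs : s ^ 2 = 1 + y ^ 2) (h3 : 2 * hf = 1)
    (hsi : s * si = 1) :
    -(hf ^ 2 * (s - y) ^ 2 * (yi * si)) - 1 =
      -(hf ^ 2 * (s + y) ^ 2 * (yi * si)) := by
  have hu : IsUnit (s ^ 4 * y ^ 4) :=
    ((IsUnit.of_mul_eq_one _ hsi).pow 4).mul ((IsUnit.of_mul_eq_one _ hy).pow 4)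
  apply hu.mul_left_cancel
  linear_combination (4*hf^2*s^4*y^5*yi) * hsi
    + (4*hf^2*s^4*y^4) * hy
    + (4*hf^2*s^2*y^4 + 4*hf^2*y^4 + 4*hf^2*y^6 - s^2*y^4 - y^4 - y^6) * hs
    + (2*hf*y^4 + 4*hf*y^6 + 2*hf*y^8 + y^4 + 2*y^6 + y^8) * h3

theorem alg_omY1 (hy : y * yi = 1) (hs : s ^ 2 = 1 + y ^ 2) (h3 : 2 * hf = 1)
    (hsi : s * si = 1) :
    -(hf ^ 2 * (s - 1) ^ 2 * si) - 1 =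
      -(hf ^ 2 * (s + 1) ^ 2 * si) := by
  have hu : IsUnit (s ^ 4 * y ^ 4) :=
    ((IsUnit.of_mul_eq_one _ hsi).pow 4).mul ((IsUnit.of_mul_eq_one _ hy).pow 4)
  apply hu.mul_left_cancel
  linear_combination (4*hf^2*s^4*y^4) * hsi
    + (4*hf^2*s^2*y^4 + 4*hf^2*y^4 + 4*hf^2*y^6 - s^2*y^4 - y^4 - y^6) * hs
    + (2*hf*y^4 + 4*hf*y^6 + 2*hf*y^8 + y^4 + 2*y^6 + y^8) * h3

theorem alg_lamX (hy : y * yi = 1) (hs : s ^ 2 = 1 + y ^ 2) (h3 : 2 * hf = 1)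
    (hsi : s * si = 1) :
    hf ^ 3 * yi ^ 3 * si ^ 3 =
      -(hf ^ 2 * (s - y) ^ 2 * (yi * si)) * (-(hf * (s + y) ^ 2 * yi ^ 2 * si ^ 2)) := by
  have hu : IsUnit (s ^ 4 * y ^ 4) :=
    ((IsUnit.of_mul_eq_one _ hsi).pow 4).mul ((IsUnit.of_mul_eq_one _ hy).pow 4)
  apply hu.mul_left_cancel
  linear_combination (hf^3*s*y^4*yi^3 - hf^3*s*y^8*yi^3 + hf^3*s^2*si*y^4*yi^3 - hf^3*s^2*si*y^8*yi^3 +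
      hf^3*s^3*si^2*y^4*yi^3 - hf^3*s^3*si^2*y^8*yi^3 + 2*hf^3*s^3*y^6*yi^3 +
      2*hf^3*s^4*si*y^6*yi^3 + 2*hf^3*s^5*si^2*y^6*yi^3 - hf^3*s^5*y^4*yi^3 -
      hf^3*s^6*si*y^4*yi^3 - hf^3*s^7*si^2*y^4*yi^3) * hsi
    + (hf^3*s*y + hf^3*s*y^2*yi + hf^3*s*y^3*yi^2 - hf^3*s*y^5 - hf^3*s*y^6*yi - hf^3*s*y^7*yi^2
      + 2*hf^3*s^3*y^3 + 2*hf^3*s^3*y^4*yi + 2*hf^3*s^3*y^5*yi^2 - hf^3*s^5*y - hf^3*s^5*y^2*yi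
      - hf^3*s^5*y^3*yi^2) * hy
    + (-hf^3*s*y + hf^3*s*y^3 - hf^3*s^3*y) * hs

theorem alg_muX (hy : y * yi = 1) (hs : s ^ 2 = 1 + y ^ 2) (h3 : 2 * hf = 1)
    (hsi : s * si = 1) :
    hf ^ 3 * yi ^ 3 * si ^ 3 =
      -(hf ^ 2 * (s + y) ^ 2 * (yi * si)) * (-(hf * (s - y) ^ 2 * yi ^ 2 * si ^ 2)) := by
  have hu : IsUnit (s ^ 4 * y ^ 4) :=
    ((IsUnit.of_mul_eq_one _ hsi).pow 4).mul ((IsUnit.of_mul_eq_one _ hy).pow 4)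
  apply hu.mul_left_cancel
  linear_combination (hf^3*s*y^4*yi^3 - hf^3*s*y^8*yi^3 + hf^3*s^2*si*y^4*yi^3 - hf^3*s^2*si*y^8*yi^3 +
      hf^3*s^3*si^2*y^4*yi^3 - hf^3*s^3*si^2*y^8*yi^3 + 2*hf^3*s^3*y^6*yi^3 +
      2*hf^3*s^4*si*y^6*yi^3 + 2*hf^3*s^5*si^2*y^6*yi^3 - hf^3*s^5*y^4*yi^3 -
      hf^3*s^6*si*y^4*yi^3 - hf^3*s^7*si^2*y^4*yi^3) * hsi
    + (hf^3*s*y + hf^3*s*y^2*yi + hf^3*s*y^3*yi^2 - hf^3*s*y^5 - hf^3*s*y^6*yi - hf^3*s*y^7*yi^2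
      + 2*hf^3*s^3*y^3 + 2*hf^3*s^3*y^4*yi + 2*hf^3*s^3*y^5*yi^2 - hf^3*s^5*y - hf^3*s^5*y^2*yi
      - hf^3*s^5*y^3*yi^2) * hy
    + (-hf^3*s*y + hf^3*s*y^3 - hf^3*s^3*y) * hs

theorem alg_lamY (hy : y * yi = 1) (hs : s ^ 2 = 1 + y ^ 2) (h3 : 2 * hf = 1)
    (hsi : s * si = 1) :
    -(hf ^ 3 * si ^ 3 * y ^ 2) =
      -(hf ^ 2 * (s - 1) ^ 2 * si) * (hf * si ^ 2 * ((s + 1) ^ 2 * yi ^ 2)) := by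
  have hu : IsUnit (s ^ 4 * y ^ 4) :=
    ((IsUnit.of_mul_eq_one _ hsi).pow 4).mul ((IsUnit.of_mul_eq_one _ hy).pow 4)
  apply hu.mul_left_cancel
  linear_combination (hf^3*s*y^4*yi^2 - hf^3*s*y^6 + hf^3*s^2*si*y^4*yi^2 - hf^3*s^2*si*y^6 +
      hf^3*s^3*si^2*y^4*yi^2 - hf^3*s^3*si^2*y^6 - 2*hf^3*s^3*y^4*yi^2 - 2*hf^3*s^4*si*y^4*yi^2
      - 2*hf^3*s^5*si^2*y^4*yi^2 + hf^3*s^5*y^4*yi^2 + hf^3*s^6*si*y^4*yi^2 +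
      hf^3*s^7*si^2*y^4*yi^2) * hsi
    + (hf^3*s*y^2 + hf^3*s*y^3*yi - 2*hf^3*s^3*y^2 - 2*hf^3*s^3*y^3*yi + hf^3*s^5*y^2 +
      hf^3*s^5*y^3*yi) * hy
    + (-hf^3*s*y^2 + hf^3*s*y^4 + hf^3*s^3*y^2) * hs

theorem alg_muY (hy : y * yi = 1) (hs : s ^ 2 = 1 + y ^ 2) (h3 : 2 * hf = 1)
    (hsi : s * si = 1) :
    -(hf ^ 3 * si ^ 3 * y ^ 2) =
      -(hf ^ 2 * (s + 1) ^ 2 * si) * (hf * si ^ 2 * ((s - 1) ^ 2 * yi ^ 2)) := by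
  have hu : IsUnit (s ^ 4 * y ^ 4) :=
    ((IsUnit.of_mul_eq_one _ hsi).pow 4).mul ((IsUnit.of_mul_eq_one _ hy).pow 4)
  apply hu.mul_left_cancel
  linear_combination (hf^3*s*y^4*yi^2 - hf^3*s*y^6 + hf^3*s^2*si*y^4*yi^2 - hf^3*s^2*si*y^6 +
      hf^3*s^3*si^2*y^4*yi^2 - hf^3*s^3*si^2*y^6 - 2*hf^3*s^3*y^4*yi^2 - 2*hf^3*s^4*si*y^4*yi^2
      - 2*hf^3*s^5*si^2*y^4*yi^2 + hf^3*s^5*y^4*yi^2 + hf^3*s^6*si*y^4*yi^2 +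
      hf^3*s^7*si^2*y^4*yi^2) * hsi
    + (hf^3*s*y^2 + hf^3*s*y^3*yi - 2*hf^3*s^3*y^2 - 2*hf^3*s^3*y^3*yi + hf^3*s^5*y^2 +
      hf^3*s^5*y^3*yi) * hy
    + (-hf^3*s*y^2 + hf^3*s*y^4 + hf^3*s^3*y^2) * hs

theorem alg_ZF (hy : y * yi = 1) (hs : s ^ 2 = 1 + y ^ 2) (h3 : 2 * hf = 1)
    (hsi : s * si = 1) :
    ((s - y) * (s - 1) * yi) ^ 2 * ((s + y) ^ 2 * ((s + 1) ^ 2 * yi ^ 2)) =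
      1 := by
  have hu : IsUnit (s ^ 4 * y ^ 4) :=
    ((IsUnit.of_mul_eq_one _ hsi).pow 4).mul ((IsUnit.of_mul_eq_one _ hy).pow 4)
  apply hu.mul_left_cancel
  linear_combination (s^4*y^4 + s^4*y^5*yi + s^4*y^6*yi^2 + s^4*y^7*yi^3 - 2*s^6*y^2 - 2*s^6*y^3*yi - 2*s^6*y^4
      - 2*s^6*y^4*yi^2 - 2*s^6*y^5*yi - 2*s^6*y^5*yi^3 - 2*s^6*y^6*yi^2 - 2*s^6*y^7*yi^3 + s^8 +
      s^8*y*yi + 4*s^8*y^2 + s^8*y^2*yi^2 + 4*s^8*y^3*yi + s^8*y^3*yi^3 + s^8*y^4 +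
      4*s^8*y^4*yi^2 + s^8*y^5*yi + 4*s^8*y^5*yi^3 + s^8*y^6*yi^2 + s^8*y^7*yi^3 - 2*s^10 -
      2*s^10*y*yi - 2*s^10*y^2 - 2*s^10*y^2*yi^2 - 2*s^10*y^3*yi - 2*s^10*y^3*yi^3 -
      2*s^10*y^4*yi^2 - 2*s^10*y^5*yi^3 + s^12 + s^12*y*yi + s^12*y^2*yi^2 + s^12*y^3*yi^3) * hy
    + (2*s^6*y^2 - s^8 - s^8*y^2 + s^10) * hs

end QS2.Sym
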