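import Pool.Agent.QS2.SymRel
import Pool.Agent.QS2.SymAlg

/-!
# Square roots of power series, and the elements `q, s, ρ`

`q^4 = 1 + h`, `s^2 = 2 + h`, `F = ((s - q^2)(s - 1)/q^2)^2 = α (1 - h^2 ρ^{-2} / (4w))`.
-/

set_option autoImplicit false

namespace QS2.Sym

open PowerSeries Finset

section Sqrt

variable {S : Type*} [CommRing S]

/-- coefficients of the square root of a power series with constant term `1` -/
noncomputable def sqc (hf : S) (g : ℕ → S) : ℕ → S
  | 0 => 1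
  | n + 1 => hf * (g (n + 1) - ∑ i : Fin n, sqc hf g (i + 1) * sqc hf g (n - i))
decreasing_by
  all_goals have := i.2
  all_goals omega

theorem exists_sqrt {hf : S} (h2 : 2 * hf = 1) (g : PowerSeries S) (hg : coeff 0 g = 1) :
    ∃ r : PowerSeries S, r ^ 2 = g ∧ coeff 0 r = 1 := by
  refine ⟨PowerSeries.mk (sqc hf fun n => coeff n g), ?_, ?_⟩
  · ext n
    rcases n with _ | n
    · have h0 : sqc hf (fun n => coeff n g) 0 = 1 := by rw [sqc]
      rw [hg, coeff_zero_eq_constantCoeff, map_pow, ← coeff_zero_eq_constantCoeff, coeff_mk, h0,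
        one_pow]
    · rw [pow_two, coeff_mul, Finset.Nat.sum_antidiagonal_eq_sum_range_succ
        (fun i j => coeff i (PowerSeries.mk (sqc hf fun n => coeff n g)) *
          coeff j (PowerSeries.mk (sqc hf fun n => coeff n g))) (n + 1),
        Finset.sum_range_succ, Finset.sum_range_succ']
      simp only [coeff_mk, Nat.sub_self, Nat.sub_zero]
      have e : ∑ k ∈ range n, sqc hf (fun n => coeff n g) (k + 1) *
          sqc hf (fun n => coeff n g) (n + 1 - (k + 1)) =
          ∑ i : Fin n, sqc hf (fun n => coeff n g) (i + 1) * sqc hf (fun n => coeff n g) (n - i) := by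
        rw [Finset.sum_range]
        refine Finset.sum_congr rfl fun i _ => ?_
        congr 2
        omega
      rw [e]
      have h0 : sqc hf (fun n => coeff n g) 0 = 1 := by rw [sqc]
      have h1 : sqc hf (fun n => coeff n g) (n + 1) = hf * (coeff (n + 1) g -
          ∑ i : Fin n, sqc hf (fun n => coeff n g) (i + 1) *
            sqc hf (fun n => coeff n g) (n - i)) := by rw [sqc]
      rw [h0]
      generalize (∑ i : Fin n, sqc hf (fun n => coeff n g) (i + 1) *
            sqc hf (fun n => coeff n g) (n - i)) = z at *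
      rw [h1]
      linear_combination (coeff (n + 1) g - z) * h2
  · rw [coeff_mk, sqc]

theorem exists_inv (r : PowerSeries S) (h : coeff 0 r = 1) :
    ∃ ri : PowerSeries S, r * ri = 1 ∧ coeff 0 ri = 1 := by
  refine ⟨invOfUnit r 1, mul_invOfUnit r 1 (by simpa using h), ?_⟩
  rw [coeff_zero_eq_constantCoeff, constantCoeff_invOfUnit]
  simp

end Sqrt

/-- the data `q, s, ρ` -/
structure Dat (S : Type*) [CommRing S] (hf w : S) where
  q : PowerSeries S
  qi : PowerSeries S
  s : PowerSeries S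
  si : PowerSeries S
  rho : PowerSeries S
  rhoi : PowerSeries S
  h2 : 2 * hf = 1
  hw : w ^ 2 = 2
  hq : q ^ 4 = 1 + X
  hq0 : coeff 0 q = 1
  hqi : q * qi = 1
  hs : s ^ 2 = 2 + X
  hs0 : coeff 0 s = w
  hsi : s * si = 1
  hrho : rho * rhoi = 1
  hrho0 : coeff 0 rho = 1
  hF : ((s - q ^ 2) * (s - 1) * qi ^ 2) ^ 2 =
    C ((w - 1) ^ 4) * (1 - C (w * hf ^ 3) * X ^ 2 * rhoi ^ 2)

section Exists

variable {S : Type*} [CommRing S] {hf w : S}

theorem C_two : (C (2 : S) : PowerSeries S) = 2 := map_ofNat C 2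

theorem C_h2 (h2 : 2 * hf = 1) : 2 * (C hf : PowerSeries S) = 1 := by
  rw [← C_two, ← map_mul, h2, map_one]

theorem deriv_X : derivative S (X : PowerSeries S) = 1 := by
  ext n
  rw [coeff_derivative, coeff_X, coeff_one]
  rcases n with _ | n
  · simp
  · rw [if_neg (by omega), if_neg (by omega), zero_mul]

theorem deriv_C (c : S) : derivative S (C c : PowerSeries S) = 0 := by
  have h := deriv_C_mul c (1 : PowerSeries S)
  rwa [mul_one, deriv_one, mul_zero] at h

/-- the derivative of an inverse -/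
theorem deriv_inv {u v : PowerSeries S} (h : u * v = 1) :
    derivative S v = - (v ^ 2 * derivative S u) := by
  have h1 := congrArg (derivative S) h
  rw [deriv_mul, deriv_one] at h1
  linear_combination v * h1 - (derivative S v) * h

theorem deriv_sq (u : PowerSeries S) : derivative S (u ^ 2) = 2 * u * derivative S u := by
  rw [pow_two, deriv_mul]
  ring

theorem deriv_q (h2 : 2 * hf = 1) {q qi : PowerSeries S} (hq : q ^ 4 = 1 + X)
    (hqi : q * qi = 1) : derivative S q = C hf ^ 2 * qi ^ 3 := by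
  have h1 := congrArg (derivative S) hq
  have e : q ^ 4 = (q ^ 2) ^ 2 := by ring
  rw [e, deriv_sq, deriv_sq, map_add, deriv_one, deriv_X, zero_add] at h1
  have h3 := C_h2 h2
  have e3 : q ^ 3 * qi ^ 3 = 1 := by
    linear_combination (q ^ 2 * qi ^ 2 + q * qi + 1) * hqi
  linear_combination (C hf ^ 2 * qi ^ 3) * h1 - (4 * C hf ^ 2 * derivative S q) * e3
    - (derivative S q) * (2 * C hf + 1) * h3

theorem deriv_s (h2 : 2 * hf = 1) {s si : PowerSeries S} (hs : s ^ 2 = 2 + X)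
    (hsi : s * si = 1) : derivative S s = C hf * si := by
  have h1 := congrArg (derivative S) hs
  have e2 : derivative S (2 : PowerSeries S) = 0 := by
    rw [← C_two, deriv_C]
  rw [deriv_sq, map_add, e2, deriv_X, zero_add] at h1
  have h3 := C_h2 h2
  linear_combination (C hf * si) * h1 - (2 * C hf * derivative S s) * hsi
    - (derivative S s) * h3

end Exists

section Derivs

variable {R : Type*} [CommRing R] {hf : R} {q qi s si : PowerSeries R}

theorem rel_y (hqi : q * qi = 1) : q ^ 2 * qi ^ 2 = 1 := by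
  linear_combination (q * qi + 1) * hqi

theorem rel_s (hq : q ^ 4 = 1 + X) (hs : s ^ 2 = 2 + X) : s ^ 2 = 1 + (q ^ 2) ^ 2 := by
  linear_combination hs - hq

theorem deriv_y (h2 : 2 * hf = 1) (hq : q ^ 4 = 1 + X) (hqi : q * qi = 1) :
    derivative R (q ^ 2) = C hf * qi ^ 2 := by
  rw [deriv_sq, deriv_q h2 hq hqi]
  linear_combination (2 * C hf ^ 2 * qi ^ 2) * hqi + (C hf * qi ^ 2) * C_h2 h2

theorem deriv_yi (h2 : 2 * hf = 1) (hq : q ^ 4 = 1 + X) (hqi : q * qi = 1) :
    derivative R (qi ^ 2) = -(C hf * (qi ^ 2) ^ 3) := by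
  rw [deriv_inv (rel_y hqi), deriv_y h2 hq hqi]
  ring

theorem deriv_si (h2 : 2 * hf = 1) (hs : s ^ 2 = 2 + X) (hsi : s * si = 1) :
    derivative R si = -(C hf * si ^ 3) := by
  rw [deriv_inv hsi, deriv_s h2 hs hsi]
  ring

/-- `f' = f (1 - y) / (2 s y^2)` -/
theorem deriv_f (h2 : 2 * hf = 1) (hq : q ^ 4 = 1 + X)
    (hqi : q * qi = 1) (hs : s ^ 2 = 2 + X) (hsi : s * si = 1) :
    derivative R ((s - q ^ 2) * (s - 1) * qi ^ 2) =
      C hf * ((s - q ^ 2) * (s - 1) * qi ^ 2) * ((1 - q ^ 2) * si * (qi ^ 2) ^ 2) := by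
  rw [← alg_f (q ^ 2) (qi ^ 2) s si (C hf) (rel_y hqi) (rel_s hq hs) (C_h2 h2) hsi]
  rw [deriv_mul, deriv_mul, map_sub, map_sub, deriv_one, deriv_y h2 hq hqi, deriv_yi h2 hq hqi,
    deriv_s h2 hs hsi]
  ring

/-- `F' = F (1 - y) / (s y^2)` -/
theorem deriv_F (h2 : 2 * hf = 1) (hq : q ^ 4 = 1 + X)
    (hqi : q * qi = 1) (hs : s ^ 2 = 2 + X) (hsi : s * si = 1) :
    derivative R (((s - q ^ 2) * (s - 1) * qi ^ 2) ^ 2) =
      ((s - q ^ 2) * (s - 1) * qi ^ 2) ^ 2 * ((1 - q ^ 2) * si * (qi ^ 2) ^ 2) := by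
  rw [deriv_sq, deriv_f h2 hq hqi hs hsi]
  linear_combination (((s - q ^ 2) * (s - 1) * qi ^ 2) ^ 2 *
    ((1 - q ^ 2) * si * (qi ^ 2) ^ 2)) * C_h2 h2

end Derivs

section Exists2

variable {S : Type*} [CommRing S] {hf w : S}

theorem coeff_one_mul_of {A B : PowerSeries S} (h : coeff 0 A = 0) :
    coeff 1 (A * B) = coeff 1 A * coeff 0 B := by
  rw [coeff_mul, Finset.Nat.sum_antidiagonal_eq_sum_range_succ
    (fun i j => coeff i A * coeff j B) 1]
  simp [Finset.sum_range_succ, h]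

/-- the data exist over every ring in which `2` is invertible and `2` is a square -/
theorem exists_dat (h2 : 2 * hf = 1) (hw : w ^ 2 = 2) : Nonempty (Dat S hf w) := by
  obtain ⟨p, hp, hp0⟩ := exists_sqrt h2 (1 + X : PowerSeries S) (by simp)
  obtain ⟨q, hq, hq0⟩ := exists_sqrt h2 p hp0
  obtain ⟨r, hr, hr0⟩ := exists_sqrt h2 (1 + C hf * X : PowerSeries S) (by simp)
  obtain ⟨qi, hqi, hqi0⟩ := exists_inv q hq0
  obtain ⟨ri, hri, hri0⟩ := exists_inv r hr0
  have h3 := C_h2 h2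
  have hwC : (C w : PowerSeries S) ^ 2 = 2 := by rw [← map_pow, hw, C_two]
  have hq4 : q ^ 4 = 1 + X := by
    have : q ^ 4 = (q ^ 2) ^ 2 := by ring
    rw [this, hq, hp]
  set s : PowerSeries S := C w * r with hsdef
  set si : PowerSeries S := C (w * hf) * ri with hsidef
  have hs : s ^ 2 = 2 + X := by
    rw [hsdef, mul_pow, hwC, hr]
    linear_combination X * h3
  have hsi : s * si = 1 := by
    rw [hsdef, hsidef, map_mul]
    linear_combination (C w ^ 2 * C hf) * hri + C hf * hwC + h3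
  have hs0 : coeff 0 s = w := by
    rw [hsdef, coeff_C_mul, hr0, mul_one]
  have hsi0 : coeff 0 si = w * hf := by
    rw [hsidef, coeff_C_mul, hri0, mul_one]
  set F : PowerSeries S := ((s - q ^ 2) * (s - 1) * qi ^ 2) ^ 2 with hFdef
  have hF0 : coeff 0 F = (w - 1) ^ 4 := by
    rw [coeff_zero_eq_constantCoeff] at hq0 hqi0 hs0 ⊢
    rw [hFdef]
    simp only [map_pow, map_mul, map_sub, map_one, hq0, hqi0, hs0]
    ring
  have hDF : derivative S F = (1 - q ^ 2) * (F * (si * (qi ^ 2) ^ 2)) := by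
    rw [hFdef, deriv_F h2 hq4 hqi hs hsi]
    ring
  have hy0 : coeff 0 (1 - q ^ 2) = 0 := by
    rw [coeff_zero_eq_constantCoeff] at hq0 ⊢
    simp [hq0]
  have hF1 : coeff 1 F = 0 := by
    have h := coeff_derivative F 0
    rw [hDF] at h
    have e : coeff 0 ((1 - q ^ 2) * (F * (si * (qi ^ 2) ^ 2))) = 0 := by
      rw [coeff_zero_eq_constantCoeff] at hy0 ⊢
      rw [map_mul, hy0, zero_mul]
    rw [e] at h
    simpa using h.symm
  have hF2 : coeff 2 F = - (hf ^ 3 * (w - 1) ^ 4 * w) := by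
    have h := coeff_derivative F 1
    rw [hDF, coeff_one_mul_of hy0] at h
    have e1 : coeff 1 (1 - q ^ 2) = - hf := by
      have h4 := coeff_derivative (q ^ 2) 0
      rw [deriv_y h2 hq4 hqi, coeff_C_mul] at h4
      have h5 : coeff 0 (qi ^ 2) = 1 := by
        rw [coeff_zero_eq_constantCoeff] at hqi0 ⊢
        rw [map_pow, hqi0, one_pow]
      rw [h5] at h4
      rw [map_sub, coeff_one, if_neg (by omega)]
      simp only [Nat.cast_zero, zero_add, mul_one] at h4
      rw [← h4, zero_sub]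
    have e2 : coeff 0 (F * (si * (qi ^ 2) ^ 2)) = (w - 1) ^ 4 * (w * hf) := by
      rw [coeff_zero_eq_constantCoeff] at hqi0 hF0 hsi0 ⊢
      simp only [map_mul, map_pow, hqi0, hF0, hsi0]
      ring
    rw [e1, e2] at h
    push_cast at h
    linear_combination (-hf) * h - (coeff 2 F) * h2
  have hal : (w + 1) ^ 4 * (w - 1) ^ 4 = 1 := by
    have : (w + 1) ^ 4 * (w - 1) ^ 4 = (w ^ 2 - 1) ^ 4 := by ring
    rw [this, hw]
    norm_num
  have hdvd : (X : PowerSeries S) ^ 2 ∣ C (4 * w) * (1 - C ((w + 1) ^ 4) * F) := by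
    rw [X_pow_dvd_iff]
    intro m hm
    rw [coeff_C_mul, map_sub, coeff_C_mul]
    interval_cases m
    · rw [hF0, coeff_one, if_pos rfl, hal, sub_self, mul_zero]
    · rw [hF1, coeff_one, if_neg (by omega)]
      simp
  obtain ⟨g, hg⟩ := hdvd
  have hg0 : coeff 0 g = 1 := by
    have h := congrArg (coeff 2) hg
    rw [coeff_C_mul, map_sub, coeff_C_mul, coeff_one, if_neg (by omega), hF2,
      coeff_X_pow_mul', if_pos le_rfl, Nat.sub_self] at h
    rw [← h]
    linear_combination (4 * w ^ 2 * hf ^ 3) * hal + (4 * hf ^ 3) * hw + (4 * hf ^ 2 + 2 * hf + 1) * h2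
  obtain ⟨rhoi, hrhoi, hrhoi0⟩ := exists_sqrt h2 g hg0
  obtain ⟨rho, hrho, hrho0⟩ := exists_inv rhoi hrhoi0
  refine ⟨⟨q, qi, s, si, rho, rhoi, h2, hw, hq4, hq0, hqi, hs, hs0, hsi, ?_, hrho0, ?_⟩⟩
  · rw [mul_comm]
    exact hrho
  · rw [← hFdef]
    have e1 : X ^ 2 * rhoi ^ 2 = C (4 * w) * (1 - C ((w + 1) ^ 4) * F) := by
      rw [hrhoi, hg]
    have e2 : C (w * hf ^ 3) * X ^ 2 * rhoi ^ 2 = C (w * hf ^ 3) * (X ^ 2 * rhoi ^ 2) := by ring
    rw [e2, e1]
    have hal' : (C w + 1 : PowerSeries S) ^ 4 * (C w - 1) ^ 4 = 1 := by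
      have := congrArg (C : S → PowerSeries S) hal
      simpa only [map_mul, map_pow, map_add, map_sub, map_one] using this
    simp only [map_mul, map_pow, map_add, map_sub, map_one, map_ofNat]
    linear_combination (4 * C hf ^ 3 * (C w - 1) ^ 4 * (1 - (C w + 1) ^ 4 * F)) * hwC +
      ((C w - 1) ^ 4 * (1 - (C w + 1) ^ 4 * F) * (4 * C hf ^ 2 + 2 * C hf + 1)) * h3 - F * hal'

end Exists2

end QS2.Sym
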