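import Mathlib

/-!
# The pointwise (certificate) identity

Pure ring identities behind the symmetric formula; `y = √t`, `s = √(1+t)`.
-/

set_option autoImplicit false

namespace QS2.Sym

variable {R : Type*} [CommRing R] (y yi s hf x : R)

theorem id_ac (hy : y * yi = 1) (hs : s ^ 2 = 1 + y ^ 2) (h2 : 2 * hf = 1) :
    ((1 + x) * (1 - y) * s + x * (hf ^ 2 * s ^ 2 - y ^ 2 * hf - (1 - y) * hf * s)) * ((5 + 2 * x) * (y ^ 2 - yi ^ 2)) + ((5 + 2 * x) * (s ^ 2 * x * (y ^ 2 + yi ^ 2) + (y ^ 2 - yi ^ 2) * (hf ^ 2 * (s + y) ^ 2 * (2 + x) - hf ^ 2 * y ^ 2 * ((s + 1) ^ 2 * yi ^ 2) * (2 + x)))) - hf * (1 - 3 * y ^ 2) * ((s + 1) ^ 2 * yi ^ 2) * (hf ^ 2 * y ^ 2 * ((s - 1) ^ 2 * yi ^ 2) * 4) + hf *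 (3 * yi ^ 2 - 1) * (s + y) ^ 2 * (hf ^ 2 * (s - y) ^ 2 * 4) =
      s ^ 2 * ((1 + x) * (2 + x) * (1 + 2 * y ^ 2) * (1 + 2 * yi ^ 2) - (17 + 17 * x + 5 * x ^ 2)) := by
  linear_combination (15 + 14*hf^2*x*y^2 + 9*hf^2*x*y^2*yi^4 - 9*hf^2*x*y^4*yi^2 - 14*hf^2*x*yi^2 +
      4*hf^2*x^2*y^2 + 2*hf^2*x^2*y^2*yi^4 - 2*hf^2*x^2*y^4*yi^2 - 4*hf^2*x^2*yi^2 + 10*hf^2*y^2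
      + 10*hf^2*y^2*yi^4 - 10*hf^2*y^4*yi^2 - 10*hf^2*yi^2 - 4*hf^3 - 4*hf^3*s^2 -
      4*hf^3*s^2*y^2*yi^4 + 12*hf^3*s^2*y^4*yi^4 + 12*hf^3*s^2*yi^2 + 4*hf^3*y^2 -
      12*hf^3*y^2*yi^2 + 4*hf^3*y^2*yi^4 - 16*hf^3*y^4*yi^4 + 12*hf^3*y^6*yi^4 + 12*hf^3*yi^2 +
      14*x - x*y^2 - 12*x*y^2*yi^2 - x*yi^2 + 4*x^2 - 4*x^2*y^2*yi^2 - 4*y^2 - 8*y^2*yi^2 -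
      4*yi^2) * hs
    + (-12 - 5*hf*s*x*yi - 2*hf*s*x^2*yi + 5*hf*x + 5*hf*x*y*yi + 2*hf*x^2 + 2*hf*x^2*y*yi -
      10*hf^2 + 18*hf^2*s*x*y*yi^3 - 18*hf^2*s*x*y^2 - 18*hf^2*s*x*y^3*yi - 18*hf^2*s*x*yi +
      18*hf^2*s*x*yi^2 + 4*hf^2*s*x^2*y*yi^3 - 4*hf^2*s*x^2*y^2 - 4*hf^2*s*x^2*y^3*yi -
      4*hf^2*s*x^2*yi + 4*hf^2*s*x^2*yi^2 + 20*hf^2*s*y*yi^3 - 20*hf^2*s*y^2 - 20*hf^2*s*y^3*yi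
      - 20*hf^2*s*yi + 20*hf^2*s*yi^2 - 14*hf^2*x - 14*hf^2*x*y*yi + 18*hf^2*x*y*yi^3 -
      18*hf^2*x*y^2 + 9*hf^2*x*y^2*yi^2 - 18*hf^2*x*y^3*yi + 9*hf^2*x*y^3*yi^3 - 9*hf^2*x*y^4 -
      9*hf^2*x*y^5*yi + 18*hf^2*x*yi^2 - 4*hf^2*x^2 - 4*hf^2*x^2*y*yi + 4*hf^2*x^2*y*yi^3 -
      4*hf^2*x^2*y^2 + 2*hf^2*x^2*y^2*yi^2 - 4*hf^2*x^2*y^3*yi + 2*hf^2*x^2*y^3*yi^3 -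
      2*hf^2*x^2*y^4 - 2*hf^2*x^2*y^5*yi + 4*hf^2*x^2*yi^2 - 10*hf^2*y*yi + 20*hf^2*y*yi^3 -
      20*hf^2*y^2 + 10*hf^2*y^2*yi^2 - 20*hf^2*y^3*yi + 10*hf^2*y^3*yi^3 - 10*hf^2*y^4 -
      10*hf^2*y^5*yi + 20*hf^2*yi^2 - 4*hf^3*y^2 - 4*hf^3*y^3*yi + 12*hf^3*y^4 - 4*hf^3*y^4*yi^2
      + 12*hf^3*y^5*yi - 4*hf^3*y^5*yi^3 + 12*hf^3*y^6*yi^2 + 12*hf^3*y^7*yi^3 + 7*s*x*yi +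
      2*s*x^2*yi + 5*s*yi - 13*x - 13*x*y*yi - 12*x*y^2 - 12*x*y^3*yi - 4*x^2 - 4*x^2*y*yi -
      4*x^2*y^2 - 4*x^2*y^3*yi - 12*y*yi - 8*y^2 - 8*y^3*yi) * hy
    + (-3 - 6*hf - 9*hf*s*x*y^2 + 9*hf*s*x*y^3 - 9*hf*s*x*yi + 9*hf*s*x*yi^2 - 2*hf*s*x^2*y^2 +
      2*hf*s*x^2*y^3 - 2*hf*s*x^2*yi + 2*hf*s*x^2*yi^2 - 10*hf*s*y^2 + 10*hf*s*y^3 - 10*hf*s*yi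
      + 10*hf*s*yi^2 - 7*hf*x - 2*hf*x*y^2 + 7*hf*x*y^4 + 2*hf*x*yi^2 - 2*hf*x^2 + 2*hf*x^2*y^4
      - 6*hf*y^2 + 8*hf*y^4 + 8*hf*yi^2 - 2*hf^2 - 2*hf^2*y^2 + 6*hf^2*y^4 + 6*hf^2*yi^2 -
      7*s*x*y^2 + 7*s*x*y^3 - 7*s*x*yi + 7*s*x*yi^2 - 2*s*x^2*y^2 + 2*s*x^2*y^3 - 2*s*x^2*yi +
      2*s*x^2*yi^2 - 5*s*y^2 + 5*s*y^3 - 5*s*yi + 5*s*yi^2 - x - x*y^2 + x*y^4 + x*yi^2 - 3*y^2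
      + 4*y^4 + 4*yi^2) * h2

theorem id_ad (hy : y * yi = 1) (hs : s ^ 2 = 1 + y ^ 2) (h2 : 2 * hf = 1) :
    ((1 + x) * (1 - y) * s + x * (hf ^ 2 * s ^ 2 - y ^ 2 * hf - (1 - y) * hf * s)) * ((2 + x) * hf * (1 - 3 * y ^ 2) * ((s + 1) ^ 2 * yi ^ 2)) + (5 + 2 * x) * (y ^ 2 - yi ^ 2) * (hf ^ 2 * y ^ 2 * ((s + 1) ^ 2 * yi ^ 2) * (2 + x)) + hf * ((2 + x) * x * s ^ 2 * (-3 * y ^ 2) * ((s + 1) ^ 2 * yi ^ 2) - (2 + x) * x * (1 - 3 * y ^ 2) * s * ((s + 1) ^ 2 * yi ^ 2) + (1 - 3 * y ^ 2) * ((s + 1) ^ 2 * yi ^ 2) * ((2 + x) * (hf ^ 2 * (s + y) ^ 2 * (2 + x)) + hf ^ 2 * y ^ 2 * ((s - 1) ^ 2 * yi ^ 2) * (4 - x ^ 2))) =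
      s ^ 2 * ((1 + x) * (2 + x) * (1 + 2 * y ^ 2) * (-(hf * ((s + 1) ^ 2 * yi ^ 2)))) := by
  linear_combination (-3*hf*s*x*y*yi^2 - 3*hf*s*x*y^2*yi^2 + 9*hf*s*x*y^3*yi^2 + 7*hf*s*x*yi^2 - hf*s*x^2*y*yi^2
      - 2*hf*s*x^2*y^2*yi^2 + 3*hf*s*x^2*y^3*yi^2 + 2*hf*s*x^2*yi^2 - 2*hf*s*y*yi^2 +
      2*hf*s*y^2*yi^2 + 6*hf*s*y^3*yi^2 + 6*hf*s*yi^2 + 3*hf*s^2*x*yi^2 - hf*s^2*x^2*y^2*yi^2 +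
      hf*s^2*x^2*yi^2 + 4*hf*s^2*y^2*yi^2 + 2*hf*s^2*yi^2 - 6*hf*x*y*yi^2 - 3*hf*x*y^2*yi^2 +
      18*hf*x*y^3*yi^2 + 8*hf*x*yi^2 - 2*hf*x^2*y*yi^2 - hf*x^2*y^2*yi^2 + 6*hf*x^2*y^3*yi^2 -
      hf*x^2*y^4*yi^2 + 2*hf*x^2*yi^2 - 4*hf*y*yi^2 - 2*hf*y^2*yi^2 + 12*hf*y^3*yi^2 +
      4*hf*y^4*yi^2 + 8*hf*yi^2 + 2*hf^2*s*x*y*yi^2 + 6*hf^2*s*x*y^2*yi^2 - 6*hf^2*s*x*y^3*yi^2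
      - 2*hf^2*s*x*yi^2 + hf^2*s*x^2*y*yi^2 + 3*hf^2*s*x^2*y^2*yi^2 - 3*hf^2*s*x^2*y^3*yi^2 -
      hf^2*s*x^2*yi^2 + 4*hf^2*x*y*yi^2 + 10*hf^2*x*y^2*yi^2 - 9*hf^2*x*y^2*yi^4 -
      12*hf^2*x*y^3*yi^2 + 15*hf^2*x*y^4*yi^2 - 4*hf^2*x*yi^2 + 2*hf^2*x^2*y*yi^2 +
      5*hf^2*x^2*y^2*yi^2 - 2*hf^2*x^2*y^2*yi^4 - 6*hf^2*x^2*y^3*yi^2 + 5*hf^2*x^2*y^4*yi^2 -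
      2*hf^2*x^2*yi^2 - 10*hf^2*y^2*yi^4 + 10*hf^2*y^4*yi^2 + 8*hf^3*s*x*y*yi^2 -
      36*hf^3*s*x*y^2*yi^2 - 24*hf^3*s*x*y^3*yi^2 + 12*hf^3*s*x*yi^2 + 2*hf^3*s*x^2*y*yi^2 -
      12*hf^3*s*x^2*y^2*yi^2 - 6*hf^3*s*x^2*y^3*yi^2 + 4*hf^3*s*x^2*yi^2 + 8*hf^3*s*y*yi^2 -
      24*hf^3*s*y^2*yi^2 - 24*hf^3*s*y^3*yi^2 + 8*hf^3*s*yi^2 - 18*hf^3*s^2*x*y^2*yi^2 +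
      6*hf^3*s^2*x*yi^2 - 6*hf^3*s^2*x^2*y^2*yi^2 - hf^3*s^2*x^2*y^2*yi^4 +
      3*hf^3*s^2*x^2*y^4*yi^4 + 2*hf^3*s^2*x^2*yi^2 - 12*hf^3*s^2*y^2*yi^2 + 4*hf^3*s^2*y^2*yi^4
      - 12*hf^3*s^2*y^4*yi^4 + 4*hf^3*s^2*yi^2 + 16*hf^3*x*y*yi^2 - 26*hf^3*x*y^2*yi^2 -
      48*hf^3*x*y^3*yi^2 - 30*hf^3*x*y^4*yi^2 + 12*hf^3*x*yi^2 + 4*hf^3*x^2*y*yi^2 -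
      9*hf^3*x^2*y^2*yi^2 + hf^3*x^2*y^2*yi^4 - 12*hf^3*x^2*y^3*yi^2 - 9*hf^3*x^2*y^4*yi^2 -
      4*hf^3*x^2*y^4*yi^4 + 3*hf^3*x^2*y^6*yi^4 + 4*hf^3*x^2*yi^2 + 16*hf^3*y*yi^2 -
      16*hf^3*y^2*yi^2 - 4*hf^3*y^2*yi^4 - 48*hf^3*y^3*yi^2 - 24*hf^3*y^4*yi^2 +
      16*hf^3*y^4*yi^4 - 12*hf^3*y^6*yi^4 + 8*hf^3*yi^2) * hs
    + (6*hf + 2*hf*s + hf*s*x + 15*hf*s*x*y + hf*s*x*y*yi - 3*hf*s*x*y^2 + 15*hf*s*x*y^2*yi +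
      9*hf*s*x*y^3 - 3*hf*s*x*y^3*yi + 9*hf*s*x*y^4*yi - 6*hf*s*x*yi + 5*hf*s*x^2*y -
      2*hf*s*x^2*y^2 + 5*hf*s*x^2*y^2*yi + 3*hf*s*x^2*y^3 - 2*hf*s*x^2*y^3*yi +
      3*hf*s*x^2*y^4*yi - 2*hf*s*x^2*yi + 10*hf*s*y + 2*hf*s*y*yi + 2*hf*s*y^2 + 10*hf*s*y^2*yi
      + 6*hf*s*y^3 + 2*hf*s*y^3*yi + 6*hf*s*y^4*yi - 4*hf*s*yi + 5*hf*x + 12*hf*x*y +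
      5*hf*x*y*yi - 3*hf*x*y^2 + 12*hf*x*y^2*yi + 18*hf*x*y^3 - 3*hf*x*y^3*yi + 18*hf*x*y^4*yi -
      6*hf*x*yi + hf*x^2 + 4*hf*x^2*y + hf*x^2*y*yi - 2*hf*x^2*y^2 + 4*hf*x^2*y^2*yi +
      6*hf*x^2*y^3 - 2*hf*x^2*y^3*yi - hf*x^2*y^4 + 6*hf*x^2*y^4*yi - hf*x^2*y^5*yi -
      2*hf*x^2*yi + 8*hf*y + 6*hf*y*yi + 2*hf*y^2 + 8*hf*y^2*yi + 12*hf*y^3 + 2*hf*y^3*yi +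
      4*hf*y^4 + 12*hf*y^4*yi + 4*hf*y^5*yi - 4*hf*yi - 10*hf^2 + 6*hf^2*s*x - 10*hf^2*s*x*y +
      6*hf^2*s*x*y*yi - 18*hf^2*s*x*y*yi^3 + 36*hf^2*s*x*y^2 - 10*hf^2*s*x*y^2*yi -
      6*hf^2*s*x*y^3 + 36*hf^2*s*x*y^3*yi - 6*hf^2*s*x*y^4*yi + 4*hf^2*s*x*yi - 18*hf^2*s*x*yi^2
      + 3*hf^2*s*x^2 - 5*hf^2*s*x^2*y + 3*hf^2*s*x^2*y*yi - 4*hf^2*s*x^2*y*yi^3 +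
      13*hf^2*s*x^2*y^2 - 5*hf^2*s*x^2*y^2*yi - 3*hf^2*s*x^2*y^3 + 13*hf^2*s*x^2*y^3*yi -
      3*hf^2*s*x^2*y^4*yi + 2*hf^2*s*x^2*yi - 4*hf^2*s*x^2*yi^2 - 20*hf^2*s*y*yi^3 +
      20*hf^2*s*y^2 + 20*hf^2*s*y^3*yi - 20*hf^2*s*yi^2 - 5*hf^2*x - 8*hf^2*x*y - 5*hf^2*x*y*yi
      - 18*hf^2*x*y*yi^3 + 40*hf^2*x*y^2 - 8*hf^2*x*y^2*yi - 9*hf^2*x*y^2*yi^2 - 12*hf^2*x*y^3 +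
      40*hf^2*x*y^3*yi - 9*hf^2*x*y^3*yi^3 + 15*hf^2*x*y^4 - 12*hf^2*x*y^4*yi + 15*hf^2*x*y^5*yi
      + 4*hf^2*x*yi - 18*hf^2*x*yi^2 - 4*hf^2*x^2*y - 4*hf^2*x^2*y*yi^3 + 15*hf^2*x^2*y^2 -
      4*hf^2*x^2*y^2*yi - 2*hf^2*x^2*y^2*yi^2 - 6*hf^2*x^2*y^3 + 15*hf^2*x^2*y^3*yi -
      2*hf^2*x^2*y^3*yi^3 + 5*hf^2*x^2*y^4 - 6*hf^2*x^2*y^4*yi + 5*hf^2*x^2*y^5*yi +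
      2*hf^2*x^2*yi - 4*hf^2*x^2*yi^2 - 10*hf^2*y*yi - 20*hf^2*y*yi^3 + 20*hf^2*y^2 -
      10*hf^2*y^2*yi^2 + 20*hf^2*y^3*yi - 10*hf^2*y^3*yi^3 + 10*hf^2*y^4 + 10*hf^2*y^5*yi -
      20*hf^2*yi^2 - 4*hf^3 - 8*hf^3*s - 16*hf^3*s*x - 40*hf^3*s*x*y - 16*hf^3*s*x*y*yi -
      60*hf^3*s*x*y^2 - 40*hf^3*s*x*y^2*yi - 24*hf^3*s*x*y^3 - 60*hf^3*s*x*y^3*yi -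
      24*hf^3*s*x*y^4*yi + 16*hf^3*s*x*yi - 6*hf^3*s*x^2 - 10*hf^3*s*x^2*y - 6*hf^3*s*x^2*y*yi -
      18*hf^3*s*x^2*y^2 - 10*hf^3*s*x^2*y^2*yi - 6*hf^3*s*x^2*y^3 - 18*hf^3*s*x^2*y^3*yi -
      6*hf^3*s*x^2*y^4*yi + 4*hf^3*s*x^2*yi - 40*hf^3*s*y - 8*hf^3*s*y*yi - 48*hf^3*s*y^2 -
      40*hf^3*s*y^2*yi - 24*hf^3*s*y^3 - 48*hf^3*s*y^3*yi - 24*hf^3*s*y^4*yi + 16*hf^3*s*yi -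
      10*hf^3*x - 32*hf^3*x*y - 10*hf^3*x*y*yi - 68*hf^3*x*y^2 - 32*hf^3*x*y^2*yi -
      48*hf^3*x*y^3 - 68*hf^3*x*y^3*yi - 30*hf^3*x*y^4 - 48*hf^3*x*y^4*yi - 30*hf^3*x*y^5*yi +
      16*hf^3*x*yi - 4*hf^3*x^2 - 8*hf^3*x^2*y - 4*hf^3*x^2*y*yi - 22*hf^3*x^2*y^2 -
      8*hf^3*x^2*y^2*yi - 12*hf^3*x^2*y^3 - 22*hf^3*x^2*y^3*yi - 6*hf^3*x^2*y^4 -
      12*hf^3*x^2*y^4*yi - hf^3*x^2*y^4*yi^2 - 6*hf^3*x^2*y^5*yi - hf^3*x^2*y^5*yi^3 +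
      3*hf^3*x^2*y^6*yi^2 + 3*hf^3*x^2*y^7*yi^3 + 4*hf^3*x^2*yi - 32*hf^3*y - 4*hf^3*y*yi -
      48*hf^3*y^2 - 32*hf^3*y^2*yi - 48*hf^3*y^3 - 48*hf^3*y^3*yi - 36*hf^3*y^4 - 48*hf^3*y^4*yi
      + 4*hf^3*y^4*yi^2 - 36*hf^3*y^5*yi + 4*hf^3*y^5*yi^3 - 12*hf^3*y^6*yi^2 - 12*hf^3*y^7*yi^3
      + 16*hf^3*yi) * hy
    + (-6*hf - 2*hf*s - hf*s*x - 15*hf*s*x*y + 3*hf*s*x*y^2 - 9*hf*s*x*y^3 + 6*hf*s*x*yi -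
      8*hf*s*x*yi^2 - 5*hf*s*x^2*y + 2*hf*s*x^2*y^2 - 3*hf*s*x^2*y^3 + 2*hf*s*x^2*yi -
      2*hf*s*x^2*yi^2 - 10*hf*s*y - 2*hf*s*y^2 - 6*hf*s*y^3 + 4*hf*s*yi - 8*hf*s*yi^2 - 5*hf*x -
      12*hf*x*y + 3*hf*x*y^2 - 18*hf*x*y^3 + 6*hf*x*yi - 8*hf*x*yi^2 - hf*x^2 - 4*hf*x^2*y +
      2*hf*x^2*y^2 - 6*hf*x^2*y^3 + hf*x^2*y^4 + 2*hf*x^2*yi - 2*hf*x^2*yi^2 - 8*hf*y - 2*hf*y^2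
      - 12*hf*y^3 - 4*hf*y^4 + 4*hf*yi - 8*hf*yi^2 - 2*hf^2 - 4*hf^2*s - 8*hf^2*s*x -
      20*hf^2*s*x*y - 30*hf^2*s*x*y^2 - 12*hf^2*s*x*y^3 + 8*hf^2*s*x*yi + 6*hf^2*s*x*yi^2 -
      3*hf^2*s*x^2 - 5*hf^2*s*x^2*y - 9*hf^2*s*x^2*y^2 - 3*hf^2*s*x^2*y^3 + 2*hf^2*s*x^2*yi +
      2*hf^2*s*x^2*yi^2 - 20*hf^2*s*y - 24*hf^2*s*y^2 - 12*hf^2*s*y^3 + 8*hf^2*s*yi +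
      4*hf^2*s*yi^2 - 5*hf^2*x - 16*hf^2*x*y - 34*hf^2*x*y^2 - 24*hf^2*x*y^3 - 15*hf^2*x*y^4 +
      8*hf^2*x*yi + 6*hf^2*x*yi^2 - 2*hf^2*x^2 - 4*hf^2*x^2*y - 11*hf^2*x^2*y^2 - 6*hf^2*x^2*y^3
      - 3*hf^2*x^2*y^4 + 2*hf^2*x^2*yi + 2*hf^2*x^2*yi^2 - 16*hf^2*y - 24*hf^2*y^2 - 24*hf^2*y^3
      - 18*hf^2*y^4 + 8*hf^2*yi + 4*hf^2*yi^2) * h2

theorem id_bc (hy : y * yi = 1) (hs : s ^ 2 = 1 + y ^ 2) (h2 : 2 * hf = 1) :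
    ((1 + x) * (1 - y) * s + x * (hf ^ 2 * s ^ 2 - y ^ 2 * hf - (1 - y) * hf * s)) * ((2 + x) * hf * (3 * yi ^ 2 - 1) * (s + y) ^ 2) - (5 + 2 * x) * (y ^ 2 - yi ^ 2) * (hf ^ 2 * (s + y) ^ 2 * (2 + x)) + hf * ((2 + x) * x * s ^ 2 * (-3 * yi ^ 2) * (s + y) ^ 2 + (2 + x) * x * (3 * yi ^ 2 - 1) * (y * s * (s + y) ^ 2) - (3 * yi ^ 2 - 1) * (s + y) ^ 2 * (hf ^ 2 * (s - y) ^ 2 * (4 - x ^ 2) + (2 + x) * (hf ^ 2 * y ^ 2 * ((s + 1) ^ 2 * yi ^ 2) * (2 + x)))) =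
      s ^ 2 * ((1 + x) * (2 + x) * (1 + 2 * yi ^ 2) * (-(hf * (s + y) ^ 2))) := by
  linear_combination (2*hf - 2*hf*s - 3*hf*s*x + 7*hf*s*x*y - 3*hf*s*x*y*yi^2 + 9*hf*s*x*yi^2 - hf*s*x^2 +
      2*hf*s*x^2*y - 2*hf*s*x^2*y*yi^2 + 3*hf*s*x^2*yi^2 + 6*hf*s*y + 2*hf*s*y*yi^2 +
      6*hf*s*yi^2 + 2*hf*s^2 + 3*hf*s^2*x + hf*s^2*x^2 - hf*s^2*x^2*yi^2 + 4*hf*s^2*yi^2 +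
      3*hf*x - 6*hf*x*y + 18*hf*x*y*yi^2 + 8*hf*x*y^2 - 6*hf*x*y^2*yi^2 + hf*x^2 - 2*hf*x^2*y +
      6*hf*x^2*y*yi^2 + 2*hf*x^2*y^2 - 2*hf*x^2*y^2*yi^2 - hf*x^2*yi^2 - 4*hf*y + 12*hf*y*yi^2 +
      8*hf*y^2 - 4*hf*y^2*yi^2 + 4*hf*yi^2 + 2*hf^2*s*x - 2*hf^2*s*x*y + 6*hf^2*s*x*y*yi^2 -
      6*hf^2*s*x*yi^2 + hf^2*s*x^2 - hf^2*s*x^2*y + 3*hf^2*s*x^2*y*yi^2 - 3*hf^2*s*x^2*yi^2 +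
      4*hf^2*x*y - 12*hf^2*x*y*yi^2 - 11*hf^2*x*y^2 + 6*hf^2*x*y^2*yi^2 + 9*hf^2*x*yi^2 +
      2*hf^2*x^2*y - 6*hf^2*x^2*y*yi^2 - 3*hf^2*x^2*y^2 + 3*hf^2*x^2*y^2*yi^2 + 2*hf^2*x^2*yi^2
      - 10*hf^2*y^2 + 10*hf^2*yi^2 + 4*hf^3 - 4*hf^3*s*x*y + 12*hf^3*s*x*y*yi^2 +
      8*hf^3*s*x*y^2*yi^2 - 24*hf^3*s*x*y^2*yi^4 + 8*hf^3*s*x*y^3*yi^2 - 24*hf^3*s*x*y^3*yi^4 -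
      2*hf^3*s*x^2*y + 6*hf^3*s*x^2*y*yi^2 + 2*hf^3*s*x^2*y^2*yi^2 - 6*hf^3*s*x^2*y^2*yi^4 +
      2*hf^3*s*x^2*y^3*yi^2 - 6*hf^3*s*x^2*y^3*yi^4 + 8*hf^3*s*y^2*yi^2 - 24*hf^3*s*y^2*yi^4 +
      8*hf^3*s*y^3*yi^2 - 24*hf^3*s*y^3*yi^4 + 4*hf^3*s^2 - 2*hf^3*s^2*x + 4*hf^3*s^2*x*y^2*yi^2
      - 12*hf^3*s^2*x*y^2*yi^4 + 6*hf^3*s^2*x*yi^2 - 2*hf^3*s^2*x^2 + hf^3*s^2*x^2*y^2*yi^2 -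
      3*hf^3*s^2*x^2*y^2*yi^4 + 6*hf^3*s^2*x^2*yi^2 + 4*hf^3*s^2*y^2*yi^2 - 12*hf^3*s^2*y^2*yi^4
      - 12*hf^3*s^2*yi^2 - 2*hf^3*x - 4*hf^3*x*y^2 + 20*hf^3*x*y^2*yi^2 - 24*hf^3*x*y^2*yi^4 +
      16*hf^3*x*y^3*yi^2 - 48*hf^3*x*y^3*yi^4 + 8*hf^3*x*y^4*yi^2 - 24*hf^3*x*y^4*yi^4 +
      6*hf^3*x*yi^2 - 2*hf^3*x^2 - hf^3*x^2*y^2 + 5*hf^3*x^2*y^2*yi^2 - 6*hf^3*x^2*y^2*yi^4 +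
      4*hf^3*x^2*y^3*yi^2 - 12*hf^3*x^2*y^3*yi^4 + 2*hf^3*x^2*y^4*yi^2 - 6*hf^3*x^2*y^4*yi^4 +
      6*hf^3*x^2*yi^2 - 4*hf^3*y^2 + 20*hf^3*y^2*yi^2 - 24*hf^3*y^2*yi^4 + 16*hf^3*y^3*yi^2 -
      48*hf^3*y^3*yi^4 + 8*hf^3*y^4*yi^2 - 24*hf^3*y^4*yi^4 - 12*hf^3*yi^2) * hs
    + (12*hf*s + 18*hf*s*x - 6*hf*s*x*y + 18*hf*s*x*y*yi - 6*hf*s*x*y^2*yi - 3*hf*s*x*yi +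
      6*hf*s*x^2 - 2*hf*s*x^2*y + 6*hf*s*x^2*y*yi - 2*hf*s*x^2*y^2*yi - 2*hf*s*x^2*yi - 4*hf*s*y
      + 12*hf*s*y*yi - 4*hf*s*y^2*yi + 2*hf*s*yi - 6*hf*x + 18*hf*x*y - 6*hf*x*y*yi - 6*hf*x*y^2
      + 18*hf*x*y^2*yi - 6*hf*x*y^3*yi + 18*hf*x*yi - 3*hf*x^2 + 6*hf*x^2*y - 3*hf*x^2*y*yi -
      2*hf*x^2*y^2 + 6*hf*x^2*y^2*yi - 2*hf*x^2*y^3*yi + 6*hf*x^2*yi + 12*hf*y - 4*hf*y^2 +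
      12*hf*y^2*yi - 4*hf*y^3*yi + 12*hf*yi + 20*hf^2 - 12*hf^2*s*x - 12*hf^2*s*x*y*yi +
      24*hf^2*s*x*yi - 6*hf^2*s*x^2 - 6*hf^2*s*x^2*y*yi + 7*hf^2*s*x^2*yi + 20*hf^2*s*yi +
      24*hf^2*x - 12*hf^2*x*y + 24*hf^2*x*y*yi - 12*hf^2*x*y^2*yi - 12*hf^2*x*yi + 7*hf^2*x^2 -
      6*hf^2*x^2*y + 7*hf^2*x^2*y*yi - 6*hf^2*x^2*y^2*yi - 6*hf^2*x^2*yi + 20*hf^2*y*yi -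
      52*hf^3 - 40*hf^3*s - 40*hf^3*s*x + 4*hf^3*s*x*y - 40*hf^3*s*x*y*yi - 48*hf^3*s*x*y*yi^2 -
      24*hf^3*s*x*y*yi^3 + 16*hf^3*s*x*y^2 + 4*hf^3*s*x*y^2*yi - 48*hf^3*s*x*y^2*yi^2 -
      48*hf^3*s*x*y^2*yi^3 + 8*hf^3*s*x*y^3 + 16*hf^3*s*x*y^3*yi - 24*hf^3*s*x*y^3*yi^2 -
      48*hf^3*s*x*y^3*yi^3 + 8*hf^3*s*x*y^4*yi - 24*hf^3*s*x*y^4*yi^3 - 36*hf^3*s*x*yi -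
      24*hf^3*s*x*yi^2 - 10*hf^3*s*x^2 + 4*hf^3*s*x^2*y - 10*hf^3*s*x^2*y*yi -
      12*hf^3*s*x^2*y*yi^2 - 6*hf^3*s*x^2*y*yi^3 + 4*hf^3*s*x^2*y^2 + 4*hf^3*s*x^2*y^2*yi -
      12*hf^3*s*x^2*y^2*yi^2 - 12*hf^3*s*x^2*y^2*yi^3 + 2*hf^3*s*x^2*y^3 + 4*hf^3*s*x^2*y^3*yi -
      6*hf^3*s*x^2*y^3*yi^2 - 12*hf^3*s*x^2*y^3*yi^3 + 2*hf^3*s*x^2*y^4*yi -
      6*hf^3*s*x^2*y^4*yi^3 - 6*hf^3*s*x^2*yi - 6*hf^3*s*x^2*yi^2 - 8*hf^3*s*y - 40*hf^3*s*y*yi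
      - 48*hf^3*s*y*yi^2 - 24*hf^3*s*y*yi^3 + 16*hf^3*s*y^2 - 8*hf^3*s*y^2*yi -
      48*hf^3*s*y^2*yi^2 - 48*hf^3*s*y^2*yi^3 + 8*hf^3*s*y^3 + 16*hf^3*s*y^3*yi -
      24*hf^3*s*y^3*yi^2 - 48*hf^3*s*y^3*yi^3 + 8*hf^3*s*y^4*yi - 24*hf^3*s*y^4*yi^3 -
      48*hf^3*s*yi - 24*hf^3*s*yi^2 - 34*hf^3*x - 32*hf^3*x*y - 34*hf^3*x*y*yi -
      48*hf^3*x*y*yi^2 - 24*hf^3*x*y*yi^3 + 8*hf^3*x*y^2 - 32*hf^3*x*y^2*yi - 60*hf^3*x*y^2*yi^2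
      - 48*hf^3*x*y^2*yi^3 + 16*hf^3*x*y^3 + 8*hf^3*x*y^3*yi - 48*hf^3*x*y^3*yi^2 -
      60*hf^3*x*y^3*yi^3 + 8*hf^3*x*y^4 + 16*hf^3*x*y^4*yi - 24*hf^3*x*y^4*yi^2 -
      48*hf^3*x*y^4*yi^3 + 8*hf^3*x*y^5*yi - 24*hf^3*x*y^5*yi^3 - 48*hf^3*x*yi - 24*hf^3*x*yi^2
      - 4*hf^3*x^2 - 8*hf^3*x^2*y - 4*hf^3*x^2*y*yi - 12*hf^3*x^2*y*yi^2 - 6*hf^3*x^2*y*yi^3 +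
      5*hf^3*x^2*y^2 - 8*hf^3*x^2*y^2*yi - 15*hf^3*x^2*y^2*yi^2 - 12*hf^3*x^2*y^2*yi^3 +
      4*hf^3*x^2*y^3 + 5*hf^3*x^2*y^3*yi - 12*hf^3*x^2*y^3*yi^2 - 15*hf^3*x^2*y^3*yi^3 +
      2*hf^3*x^2*y^4 + 4*hf^3*x^2*y^4*yi - 6*hf^3*x^2*y^4*yi^2 - 12*hf^3*x^2*y^4*yi^3 +
      2*hf^3*x^2*y^5*yi - 6*hf^3*x^2*y^5*yi^3 - 12*hf^3*x^2*yi - 6*hf^3*x^2*yi^2 - 32*hf^3*y -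
      52*hf^3*y*yi - 48*hf^3*y*yi^2 - 24*hf^3*y*yi^3 - 4*hf^3*y^2 - 32*hf^3*y^2*yi -
      60*hf^3*y^2*yi^2 - 48*hf^3*y^2*yi^3 + 16*hf^3*y^3 - 4*hf^3*y^3*yi - 48*hf^3*y^3*yi^2 -
      60*hf^3*y^3*yi^3 + 8*hf^3*y^4 + 16*hf^3*y^4*yi - 24*hf^3*y^4*yi^2 - 48*hf^3*y^4*yi^3 +
      8*hf^3*y^5*yi - 24*hf^3*y^5*yi^3 - 48*hf^3*yi - 24*hf^3*yi^2) * hy
    + (-2*hf - 10*hf*s - 15*hf*s*x - hf*s*x*y + 6*hf*s*x*y^2 - 8*hf*s*x*y^3 + 3*hf*s*x*yi -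
      9*hf*s*x*yi^2 - 5*hf*s*x^2 + 2*hf*s*x^2*y^2 - 2*hf*s*x^2*y^3 + 2*hf*s*x^2*yi -
      3*hf*s*x^2*yi^2 - 2*hf*s*y + 4*hf*s*y^2 - 8*hf*s*y^3 - 2*hf*s*yi - 6*hf*s*yi^2 + 3*hf*x -
      12*hf*x*y - 5*hf*x*y^2 + 6*hf*x*y^3 - 8*hf*x*y^4 - 18*hf*x*yi + 2*hf*x^2 - 4*hf*x^2*y -
      hf*x^2*y^2 + 2*hf*x^2*y^3 - 2*hf*x^2*y^4 - 6*hf*x^2*yi + hf*x^2*yi^2 - 8*hf*y - 6*hf*y^2 +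
      4*hf*y^3 - 8*hf*y^4 - 12*hf*yi - 4*hf*yi^2 - 24*hf^2 - 20*hf^2*s - 20*hf^2*s*x +
      8*hf^2*s*x*y^2 + 2*hf^2*s*x*y^3 - 18*hf^2*s*x*yi - 12*hf^2*s*x*yi^2 - 5*hf^2*s*x^2 +
      hf^2*s*x^2*y + 2*hf^2*s*x^2*y^2 - 3*hf^2*s*x^2*yi - 3*hf^2*s*x^2*yi^2 - 4*hf^2*s*y +
      8*hf^2*s*y^2 + 4*hf^2*s*y^3 - 24*hf^2*s*yi - 12*hf^2*s*yi^2 - 18*hf^2*x - 16*hf^2*x*y +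
      hf^2*x*y^2 + 8*hf^2*x*y^3 + 2*hf^2*x*y^4 - 24*hf^2*x*yi - 9*hf^2*x*yi^2 - 3*hf^2*x^2 -
      4*hf^2*x^2*y + hf^2*x^2*y^2 + 2*hf^2*x^2*y^3 - 6*hf^2*x^2*yi - 16*hf^2*y - 2*hf^2*y^2 +
      8*hf^2*y^3 + 4*hf^2*y^4 - 24*hf^2*yi - 18*hf^2*yi^2) * h2

theorem id_bd (hy : y * yi = 1) (hs : s ^ 2 = 1 + y ^ 2) (h2 : 2 * hf = 1) :
    -(hf * (1 - 3 * y ^ 2) * ((s + 1) ^ 2 * yi ^ 2) * ((2 + x) * (hf ^ 2 * (s + y) ^ 2 * (2 + x)))) + hf * (3 * yi ^ 2 - 1) * (s + y) ^ 2 * ((2 + x) * (hf ^ 2 * y ^ 2 * ((s + 1) ^ 2 * yi ^ 2) * (2 + x))) =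
      s ^ 2 * ((1 + x) * (2 + x) * (hf ^ 2 * (s + y) ^ 2 * ((s + 1) ^ 2 * yi ^ 2)) + (2 + x) * hf ^ 2 * (s + y) ^ 2 * ((s + 1) ^ 2 * yi ^ 2)) := by
  linear_combination (-16*hf^2*s*x*y*yi^2 - 16*hf^2*s*x*y^2*yi^2 - 8*hf^2*s*x*y^3*yi^2 - 8*hf^2*s*x*yi^2 -
      4*hf^2*s*x^2*y*yi^2 - 4*hf^2*s*x^2*y^2*yi^2 - 2*hf^2*s*x^2*y^3*yi^2 - 2*hf^2*s*x^2*yi^2 -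
      16*hf^2*s*y*yi^2 - 16*hf^2*s*y^2*yi^2 - 8*hf^2*s*y^3*yi^2 - 8*hf^2*s*yi^2 -
      16*hf^2*s^2*x*y*yi^2 - 8*hf^2*s^2*x*y^2*yi^2 - 8*hf^2*s^2*x*yi^2 - 4*hf^2*s^2*x^2*y*yi^2 -
      2*hf^2*s^2*x^2*y^2*yi^2 - 2*hf^2*s^2*x^2*yi^2 - 16*hf^2*s^2*y*yi^2 - 8*hf^2*s^2*y^2*yi^2 -
      8*hf^2*s^2*yi^2 - 8*hf^2*s^3*x*y*yi^2 - 8*hf^2*s^3*x*yi^2 - 2*hf^2*s^3*x^2*y*yi^2 -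
      2*hf^2*s^3*x^2*yi^2 - 8*hf^2*s^3*y*yi^2 - 8*hf^2*s^3*yi^2 - 4*hf^2*s^4*x*yi^2 -
      hf^2*s^4*x^2*yi^2 - 4*hf^2*s^4*yi^2 - 16*hf^2*x*y*yi^2 - 20*hf^2*x*y^2*yi^2 -
      16*hf^2*x*y^3*yi^2 - 8*hf^2*x*y^4*yi^2 - 8*hf^2*x*yi^2 - 4*hf^2*x^2*y*yi^2 -
      5*hf^2*x^2*y^2*yi^2 - 4*hf^2*x^2*y^3*yi^2 - 2*hf^2*x^2*y^4*yi^2 - 2*hf^2*x^2*yi^2 -
      16*hf^2*y*yi^2 - 20*hf^2*y^2*yi^2 - 16*hf^2*y^3*yi^2 - 8*hf^2*y^4*yi^2 - 8*hf^2*yi^2 -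
      8*hf^3*s*x*y*yi^2 + 16*hf^3*s*x*y^2*yi^2 + 24*hf^3*s*x*y^2*yi^4 + 16*hf^3*s*x*y^3*yi^2 +
      24*hf^3*s*x*y^3*yi^4 - 8*hf^3*s*x*yi^2 - 2*hf^3*s*x^2*y*yi^2 + 4*hf^3*s*x^2*y^2*yi^2 +
      6*hf^3*s*x^2*y^2*yi^4 + 4*hf^3*s*x^2*y^3*yi^2 + 6*hf^3*s*x^2*y^3*yi^4 - 2*hf^3*s*x^2*yi^2
      - 8*hf^3*s*y*yi^2 + 16*hf^3*s*y^2*yi^2 + 24*hf^3*s*y^2*yi^4 + 16*hf^3*s*y^3*yi^2 +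
      24*hf^3*s*y^3*yi^4 - 8*hf^3*s*yi^2 + 8*hf^3*s^2*x*y^2*yi^2 + 12*hf^3*s^2*x*y^2*yi^4 -
      4*hf^3*s^2*x*yi^2 + 2*hf^3*s^2*x^2*y^2*yi^2 + 3*hf^3*s^2*x^2*y^2*yi^4 - hf^3*s^2*x^2*yi^2
      + 8*hf^3*s^2*y^2*yi^2 + 12*hf^3*s^2*y^2*yi^4 - 4*hf^3*s^2*yi^2 - 16*hf^3*x*y*yi^2 +
      8*hf^3*x*y^2*yi^2 + 24*hf^3*x*y^2*yi^4 + 32*hf^3*x*y^3*yi^2 + 48*hf^3*x*y^3*yi^4 +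
      16*hf^3*x*y^4*yi^2 + 24*hf^3*x*y^4*yi^4 - 8*hf^3*x*yi^2 - 4*hf^3*x^2*y*yi^2 +
      2*hf^3*x^2*y^2*yi^2 + 6*hf^3*x^2*y^2*yi^4 + 8*hf^3*x^2*y^3*yi^2 + 12*hf^3*x^2*y^3*yi^4 +
      4*hf^3*x^2*y^4*yi^2 + 6*hf^3*x^2*y^4*yi^4 - 2*hf^3*x^2*yi^2 - 16*hf^3*y*yi^2 +
      8*hf^3*y^2*yi^2 + 24*hf^3*y^2*yi^4 + 32*hf^3*y^3*yi^2 + 48*hf^3*y^3*yi^4 +
      16*hf^3*y^4*yi^2 + 24*hf^3*y^4*yi^4 - 8*hf^3*yi^2) * hs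
    + (-28*hf^2 - 24*hf^2*s - 24*hf^2*s*x - 24*hf^2*s*x*y - 24*hf^2*s*x*y*yi - 16*hf^2*s*x*y^2 -
      24*hf^2*s*x*y^2*yi - 8*hf^2*s*x*y^3 - 16*hf^2*s*x*y^3*yi - 8*hf^2*s*x*y^4*yi -
      16*hf^2*s*x*yi - 6*hf^2*s*x^2 - 6*hf^2*s*x^2*y - 6*hf^2*s*x^2*y*yi - 4*hf^2*s*x^2*y^2 -
      6*hf^2*s*x^2*y^2*yi - 2*hf^2*s*x^2*y^3 - 4*hf^2*s*x^2*y^3*yi - 2*hf^2*s*x^2*y^4*yi -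
      4*hf^2*s*x^2*yi - 24*hf^2*s*y - 24*hf^2*s*y*yi - 16*hf^2*s*y^2 - 24*hf^2*s*y^2*yi -
      8*hf^2*s*y^3 - 16*hf^2*s*y^3*yi - 8*hf^2*s*y^4*yi - 16*hf^2*s*yi - 28*hf^2*x - 32*hf^2*x*y
      - 28*hf^2*x*y*yi - 28*hf^2*x*y^2 - 32*hf^2*x*y^2*yi - 16*hf^2*x*y^3 - 28*hf^2*x*y^3*yi -
      8*hf^2*x*y^4 - 16*hf^2*x*y^4*yi - 8*hf^2*x*y^5*yi - 16*hf^2*x*yi - 7*hf^2*x^2 -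
      8*hf^2*x^2*y - 7*hf^2*x^2*y*yi - 7*hf^2*x^2*y^2 - 8*hf^2*x^2*y^2*yi - 4*hf^2*x^2*y^3 -
      7*hf^2*x^2*y^3*yi - 2*hf^2*x^2*y^4 - 4*hf^2*x^2*y^4*yi - 2*hf^2*x^2*y^5*yi - 4*hf^2*x^2*yi
      - 32*hf^2*y - 28*hf^2*y*yi - 28*hf^2*y^2 - 32*hf^2*y^2*yi - 16*hf^2*y^3 - 28*hf^2*y^3*yi -
      8*hf^2*y^4 - 16*hf^2*y^4*yi - 8*hf^2*y^5*yi - 16*hf^2*yi + 56*hf^3 + 48*hf^3*s +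
      48*hf^3*s*x + 48*hf^3*s*x*y + 48*hf^3*s*x*y*yi + 48*hf^3*s*x*y*yi^2 + 24*hf^3*s*x*y*yi^3 +
      32*hf^3*s*x*y^2 + 48*hf^3*s*x*y^2*yi + 48*hf^3*s*x*y^2*yi^2 + 48*hf^3*s*x*y^2*yi^3 +
      16*hf^3*s*x*y^3 + 32*hf^3*s*x*y^3*yi + 24*hf^3*s*x*y^3*yi^2 + 48*hf^3*s*x*y^3*yi^3 +
      16*hf^3*s*x*y^4*yi + 24*hf^3*s*x*y^4*yi^3 + 32*hf^3*s*x*yi + 24*hf^3*s*x*yi^2 +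
      12*hf^3*s*x^2 + 12*hf^3*s*x^2*y + 12*hf^3*s*x^2*y*yi + 12*hf^3*s*x^2*y*yi^2 +
      6*hf^3*s*x^2*y*yi^3 + 8*hf^3*s*x^2*y^2 + 12*hf^3*s*x^2*y^2*yi + 12*hf^3*s*x^2*y^2*yi^2 +
      12*hf^3*s*x^2*y^2*yi^3 + 4*hf^3*s*x^2*y^3 + 8*hf^3*s*x^2*y^3*yi + 6*hf^3*s*x^2*y^3*yi^2 +
      12*hf^3*s*x^2*y^3*yi^3 + 4*hf^3*s*x^2*y^4*yi + 6*hf^3*s*x^2*y^4*yi^3 + 8*hf^3*s*x^2*yi +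
      6*hf^3*s*x^2*yi^2 + 48*hf^3*s*y + 48*hf^3*s*y*yi + 48*hf^3*s*y*yi^2 + 24*hf^3*s*y*yi^3 +
      32*hf^3*s*y^2 + 48*hf^3*s*y^2*yi + 48*hf^3*s*y^2*yi^2 + 48*hf^3*s*y^2*yi^3 + 16*hf^3*s*y^3
      + 32*hf^3*s*y^3*yi + 24*hf^3*s*y^3*yi^2 + 48*hf^3*s*y^3*yi^3 + 16*hf^3*s*y^4*yi +
      24*hf^3*s*y^4*yi^3 + 32*hf^3*s*yi + 24*hf^3*s*yi^2 + 56*hf^3*x + 64*hf^3*x*y +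
      56*hf^3*x*y*yi + 48*hf^3*x*y*yi^2 + 24*hf^3*x*y*yi^3 + 56*hf^3*x*y^2 + 64*hf^3*x*y^2*yi +
      60*hf^3*x*y^2*yi^2 + 48*hf^3*x*y^2*yi^3 + 32*hf^3*x*y^3 + 56*hf^3*x*y^3*yi +
      48*hf^3*x*y^3*yi^2 + 60*hf^3*x*y^3*yi^3 + 16*hf^3*x*y^4 + 32*hf^3*x*y^4*yi +
      24*hf^3*x*y^4*yi^2 + 48*hf^3*x*y^4*yi^3 + 16*hf^3*x*y^5*yi + 24*hf^3*x*y^5*yi^3 +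
      32*hf^3*x*yi + 24*hf^3*x*yi^2 + 14*hf^3*x^2 + 16*hf^3*x^2*y + 14*hf^3*x^2*y*yi +
      12*hf^3*x^2*y*yi^2 + 6*hf^3*x^2*y*yi^3 + 14*hf^3*x^2*y^2 + 16*hf^3*x^2*y^2*yi +
      15*hf^3*x^2*y^2*yi^2 + 12*hf^3*x^2*y^2*yi^3 + 8*hf^3*x^2*y^3 + 14*hf^3*x^2*y^3*yi +
      12*hf^3*x^2*y^3*yi^2 + 15*hf^3*x^2*y^3*yi^3 + 4*hf^3*x^2*y^4 + 8*hf^3*x^2*y^4*yi +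
      6*hf^3*x^2*y^4*yi^2 + 12*hf^3*x^2*y^4*yi^3 + 4*hf^3*x^2*y^5*yi + 6*hf^3*x^2*y^5*yi^3 +
      8*hf^3*x^2*yi + 6*hf^3*x^2*yi^2 + 64*hf^3*y + 56*hf^3*y*yi + 48*hf^3*y*yi^2 +
      24*hf^3*y*yi^3 + 56*hf^3*y^2 + 64*hf^3*y^2*yi + 60*hf^3*y^2*yi^2 + 48*hf^3*y^2*yi^3 +
      32*hf^3*y^3 + 56*hf^3*y^3*yi + 48*hf^3*y^3*yi^2 + 60*hf^3*y^3*yi^3 + 16*hf^3*y^4 +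
      32*hf^3*y^4*yi + 24*hf^3*y^4*yi^2 + 48*hf^3*y^4*yi^3 + 16*hf^3*y^5*yi + 24*hf^3*y^5*yi^3 +
      32*hf^3*yi + 24*hf^3*yi^2) * hy
    + (28*hf^2 + 24*hf^2*s + 24*hf^2*s*x + 24*hf^2*s*x*y + 16*hf^2*s*x*y^2 + 8*hf^2*s*x*y^3 +
      16*hf^2*s*x*yi + 8*hf^2*s*x*yi^2 + 6*hf^2*s*x^2 + 6*hf^2*s*x^2*y + 4*hf^2*s*x^2*y^2 +
      2*hf^2*s*x^2*y^3 + 4*hf^2*s*x^2*yi + 2*hf^2*s*x^2*yi^2 + 24*hf^2*s*y + 16*hf^2*s*y^2 +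
      8*hf^2*s*y^3 + 16*hf^2*s*yi + 8*hf^2*s*yi^2 + 28*hf^2*x + 32*hf^2*x*y + 28*hf^2*x*y^2 +
      16*hf^2*x*y^3 + 8*hf^2*x*y^4 + 16*hf^2*x*yi + 8*hf^2*x*yi^2 + 7*hf^2*x^2 + 8*hf^2*x^2*y +
      7*hf^2*x^2*y^2 + 4*hf^2*x^2*y^3 + 2*hf^2*x^2*y^4 + 4*hf^2*x^2*yi + 2*hf^2*x^2*yi^2 +
      32*hf^2*y + 28*hf^2*y^2 + 16*hf^2*y^3 + 8*hf^2*y^4 + 16*hf^2*yi + 8*hf^2*yi^2) * h2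

variable (si a b c d Da Db Dc Dd : R)

theorem pi_core (hy : y * yi = 1) (hs : s ^ 2 = 1 + y ^ 2) (h2 : 2 * hf = 1)
    (hsi : s * si = 1) (hDa : x * Da = -(hf ^ 2 * (2 + x) * (b - a) * (s + y) ^ 2 * yi ^ 2 * si ^ 2))
    (hDb : x * (2 + x) * Db = hf ^ 2 * (s - y) ^ 2 * yi ^ 2 * si ^ 2 * (4 * a - (4 - x ^ 2) * b))
    (hDc : x * Dc = hf ^ 2 * (2 + x) * (d - c) * si ^ 2 * ((s + 1) ^ 2 * yi ^ 2))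
    (hDd : x * (2 + x) * Dd = -(hf ^ 2 * si ^ 2 * ((s - 1) ^ 2 * yi ^ 2) * (4 * c - (4 - x ^ 2) * d))) :
    (1 + x) * ((1 - y) * si * yi ^ 2) * ((5 + 2 * x) * (y ^ 2 - yi ^ 2) * (a * c) + (2 + x) * hf * (1 - 3 * y ^ 2) * ((s + 1) ^ 2 * yi ^ 2) * (a * d) + (2 + x) * hf * (3 * yi ^ 2 - 1) * (s + y) ^ 2 * (b * c)) + x * ((yi ^ 2 * hf ^ 2 - hf * si ^ 2 - (1 - y) * hf * si * yi ^ 2) * ((5 + 2 * x) * (y ^ 2 - yi ^ 2) * (a * c) + (2 + x) * hf * (1 - 3 * y ^ 2) * ((s + 1) ^ 2 * yi ^ 2) * (a * d) + (2 + x) * hf * (3 * yi ^ 2 - 1) * (s + y) ^ 2 * (b * c)) + ((5 + 2 * x) * ((1 + yi ^ 4) * (a * c) + (y ^ 2 - yi ^ 2) * (Da * c + a * Dc)) + (2 + x) * hf * (-3 * ((s + 1) ^ 2 * yi ^ 2) * (a * d) - (1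 - 3 * y ^ 2) * (si * yi ^ 2 * ((s + 1) ^ 2 * yi ^ 2)) * (a * d) + (1 - 3 * y ^ 2) * ((s + 1) ^ 2 * yi ^ 2) * (Da * d + a * Dd)) + (2 + x) * hf * (-3 * yi ^ 4 * (s + y) ^ 2 * (b * c) + (3 * yi ^ 2 - 1) * (si * yi * (s + y) ^ 2) * (b * c) + (3 * yi ^ 2 - 1) * (s + y) ^ 2 * (Db * c + b * Dc)))) =
      yi ^ 2 * ((1 + x) * (2 + x) * ((1 + 2 * y ^ 2) * a - hf * (s + y) ^ 2 * b) * ((1 + 2 * yi ^ 2) * c - hf * ((s + 1) ^ 2 * yi ^ 2) * d) - (17 + 17 * x + 5 * x ^ 2) * (a * c) + (2 + x) * hf ^ 2 * ((s + y) ^ 2 * ((s + 1) ^ 2 * yi ^ 2)) * (b * d)) := by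
  have hu : IsUnit (s ^ 2 * y ^ 2) :=
    ((IsUnit.of_mul_eq_one _ hsi).pow 2).mul ((IsUnit.of_mul_eq_one _ hy).pow 2)
  apply hu.mul_left_cancel
  have hy2 : y ^ 2 * yi ^ 2 = 1 := by linear_combination (y * yi + 1) * hy
  have hs2 : s ^ 2 * si ^ 2 = 1 := by linear_combination (s * si + 1) * hsi
  have e1 : s ^ 2 * y ^ 2 * (si * yi ^ 2) = s := by linear_combination s * hsi + s ^ 2 * si * hy2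
  have e4 : s ^ 2 * y ^ 2 * (yi ^ 2 * si ^ 2) = 1 := by
    linear_combination hs2 + s ^ 2 * si ^ 2 * hy2
  have e6 : s ^ 2 * y ^ 2 * (si * yi) = s * y := by
    linear_combination s * y * hsi + s ^ 2 * si * y * hy
  linear_combination (s ^ 2 * y ^ 2 * ((5 + 2 * x) * (y ^ 2 - yi ^ 2) * c + (2 + x) * hf * (1 - 3 * y ^ 2) * ((s + 1) ^ 2 * yi ^ 2) * d)) * hDa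
    + (s ^ 2 * y ^ 2 * (hf * (3 * yi ^ 2 - 1) * (s + y) ^ 2 * c)) * hDb
    + (s ^ 2 * y ^ 2 * ((5 + 2 * x) * (y ^ 2 - yi ^ 2) * a + (2 + x) * hf * (3 * yi ^ 2 - 1) * (s + y) ^ 2 * b)) * hDc
    + (s ^ 2 * y ^ 2 * (hf * (1 - 3 * y ^ 2) * ((s + 1) ^ 2 * yi ^ 2) * a)) * hDd
    + (a * c) * id_ac y yi s hf x hy hs h2 + (a * d) * id_ad y yi s hf x hy hs h2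
    + (b * c) * id_bc y yi s hf x hy hs h2 + (b * d) * id_bd y yi s hf x hy hs h2
    + ((1 + x) * (1 - y) * ((5 + 2 * x) * (y ^ 2 - yi ^ 2) * (a * c) + (2 + x) * hf * (1 - 3 * y ^ 2) * ((s + 1) ^ 2 * yi ^ 2) * (a * d) + (2 + x) * hf * (3 * yi ^ 2 - 1) * (s + y) ^ 2 * (b * c)) - x * (1 - y) * hf * ((5 + 2 * x) * (y ^ 2 - yi ^ 2) * (a * c) + (2 + x) * hf * (1 - 3 * y ^ 2) * ((s + 1) ^ 2 * yi ^ 2) * (a * d) + (2 + x) * hf * (3 * yi ^ 2 - 1) * (s + y) ^ 2 * (b * c))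
      - (2 + x) * x * hf * (1 - 3 * y ^ 2) * ((s + 1) ^ 2 * yi ^ 2) * (a * d)) * e1
    + (x * hf ^ 2 * s ^ 2 * ((5 + 2 * x) * (y ^ 2 - yi ^ 2) * (a * c) + (2 + x) * hf * (1 - 3 * y ^ 2) * ((s + 1) ^ 2 * yi ^ 2) * (a * d) + (2 + x) * hf * (3 * yi ^ 2 - 1) * (s + y) ^ 2 * (b * c)) + x * (5 + 2 * x) * (a * c) * s ^ 2 * yi ^ 2
      - 3 * (2 + x) * x * hf * s ^ 2 * yi ^ 2 * (s + y) ^ 2 * (b * c)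
      - s ^ 2 * ((1 + x) * (2 + x) * ((1 + 2 * y ^ 2) * a - hf * (s + y) ^ 2 * b) * ((1 + 2 * yi ^ 2) * c - hf * ((s + 1) ^ 2 * yi ^ 2) * d) - (17 + 17 * x + 5 * x ^ 2) * (a * c) + (2 + x) * hf ^ 2 * ((s + y) ^ 2 * ((s + 1) ^ 2 * yi ^ 2)) * (b * d))) * hy2
    + (-(x * hf * ((5 + 2 * x) * (y ^ 2 - yi ^ 2) * (a * c) + (2 + x) * hf * (1 - 3 * y ^ 2) * ((s + 1) ^ 2 * yi ^ 2) * (a * d) + (2 + x) * hf * (3 * yi ^ 2 - 1) * (s + y) ^ 2 * (b * c)) * y ^ 2)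
      + y ^ 2 * ((5 + 2 * x) * (y ^ 2 - yi ^ 2) * a + (2 + x) * hf * (3 * yi ^ 2 - 1) * (s + y) ^ 2 * b)
        * (hf ^ 2 * (2 + x) * (d - c) * ((s + 1) ^ 2 * yi ^ 2))
      - y ^ 2 * (hf * (1 - 3 * y ^ 2) * ((s + 1) ^ 2 * yi ^ 2) * a) * (hf ^ 2 * ((s - 1) ^ 2 * yi ^ 2) * (4 * c - (4 - x ^ 2) * d)))
      * hs2
    + (-((5 + 2 * x) * (y ^ 2 - yi ^ 2) * c + (2 + x) * hf * (1 - 3 * y ^ 2) * ((s + 1) ^ 2 * yi ^ 2) * d)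
        * (hf ^ 2 * (2 + x) * (b - a) * (s + y) ^ 2)
      + hf * (3 * yi ^ 2 - 1) * (s + y) ^ 2 * c * (hf ^ 2 * (s - y) ^ 2 * (4 * a - (4 - x ^ 2) * b))) * e4
    + ((2 + x) * x * hf * (3 * yi ^ 2 - 1) * (s + y) ^ 2 * (b * c)) * e6

end QS2.Sym
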