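import Pool.Agent.QS2.SymJ
import Pool.Agent.QS2.SymPI

/-!
# The three-term relation

`Sg a = J_a(Φ 𝒜_a(ω_X) 𝒜_a(ω_Y))`, `a = 1/2, 3/2, 5/2`.
-/

set_option autoImplicit false

namespace QS2.Sym

open PowerSeries Finset

variable {S : Type*} [CommRing S] {hf w : S}

namespace Dat

variable (d : Dat S hf w)

/-- `√t` -/
noncomputable def y : PowerSeries S := d.q ^ 2

/-- `1/√t` -/
noncomputable def yi : PowerSeries S := d.qi ^ 2

/-- `ω_X` -/
noncomputable def oX : PowerSeries S := -(C hf ^ 2 * (d.s - d.y) ^ 2 * (d.yi * d.si))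

/-- `ω_Y` -/
noncomputable def oY : PowerSeries S := -(C hf ^ 2 * (d.s - 1) ^ 2 * d.si)

/-- `n_0` -/
noncomputable def n0 : PowerSeries S := d.q * (d.si * ((d.s + d.y) * (d.s + 1) * d.yi))

/-- `Φ` -/
noncomputable def Ph : PowerSeries S := d.F * d.n0 * d.yi ^ 2

theorem io_y : io d.y = (io d.q) ^ 2 := map_pow _ _ _

theorem io_yi : io d.yi = (io d.qi) ^ 2 := map_pow _ _ _

include d in
theorem hH : 2 * C (C hf) = (1 : PowerSeries (PowerSeries S)) := C_h2 (C_h2 d.h2)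

theorem hQ : (io d.q) ^ 4 = 1 + X := by
  rw [← map_pow, d.hq, map_add, map_one, io_X]

theorem hQi : io d.q * io d.qi = 1 := by rw [← map_mul, d.hqi, map_one]

theorem hS : (io d.s) ^ 2 = 2 + X := by
  rw [← map_pow, d.hs, map_add, map_ofNat, io_X]

theorem hSi : io d.s * io d.si = 1 := by rw [← map_mul, d.hsi, map_one]

theorem hY : io d.y * io d.yi = 1 := by
  rw [io_y, io_yi]
  exact rel_y d.hQi

theorem hSY : (io d.s) ^ 2 = 1 + (io d.y) ^ 2 := by
  rw [io_y]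
  exact rel_s d.hQ d.hS

theorem Dy : derivative (PowerSeries S) (io d.y) = C (C hf) * io d.yi := by
  rw [io_y, io_yi]
  exact deriv_y (C_h2 d.h2) d.hQ d.hQi

theorem Dyi : derivative (PowerSeries S) (io d.yi) = -(C (C hf) * (io d.yi) ^ 3) := by
  rw [io_yi]
  exact deriv_yi (C_h2 d.h2) d.hQ d.hQi

theorem Ds : derivative (PowerSeries S) (io d.s) = C (C hf) * io d.si :=
  deriv_s (C_h2 d.h2) d.hS d.hSi

theorem Dsi : derivative (PowerSeries S) (io d.si) = -(C (C hf) * (io d.si) ^ 3) :=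
  deriv_si (C_h2 d.h2) d.hS d.hSi

theorem io_oX : io d.oX = -(C (C hf) ^ 2 * (io d.s - io d.y) ^ 2 * (io d.yi * io d.si)) := by
  unfold oX
  simp only [map_neg, map_mul, map_pow, map_sub, io_C]

theorem io_oY : io d.oY = -(C (C hf) ^ 2 * (io d.s - 1) ^ 2 * io d.si) := by
  unfold oY
  simp only [map_neg, map_mul, map_pow, map_sub, io_C, map_one]

theorem io_n0 : io d.n0 = io d.q * (io d.si * ((io d.s + io d.y) * (io d.s + 1) * io d.yi)) := by
  unfold n0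
  simp only [map_mul, map_add, map_one]

theorem io_F : io d.F = ((io d.s - io d.y) * (io d.s - 1) * io d.yi) ^ 2 := by
  unfold F y yi
  simp only [map_mul, map_pow, map_sub, map_one]

theorem io_Ph : io d.Ph = io d.F * io d.n0 * (io d.yi) ^ 2 := by
  unfold Ph
  simp only [map_mul, map_pow]

theorem DF : derivative (PowerSeries S) (io d.F) =
    io d.F * ((1 - io d.y) * io d.si * (io d.yi) ^ 2) := by
  rw [d.io_F, io_y, io_yi]
  exact deriv_F (C_h2 d.h2) d.hQ d.hQi d.hS d.hSi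

theorem Dq : derivative (PowerSeries S) (io d.q) = C (C hf) ^ 2 * (io d.qi) ^ 3 :=
  deriv_q (C_h2 d.h2) d.hQ d.hQi

theorem Dn0 : derivative (PowerSeries S) (io d.n0) =
    io d.n0 * ((io d.yi) ^ 2 * C (C hf) ^ 2 - C (C hf) * (io d.si) ^ 2 -
      (1 - io d.y) * C (C hf) * io d.si * (io d.yi) ^ 2) := by
  have hm := alg_m (io d.y) (io d.yi) (io d.s) (io d.si) (C (C hf)) d.hY d.hSY d.hH d.hSi
  have hqq : (io d.qi) ^ 3 = io d.q * (io d.yi) ^ 2 := by
    rw [io_yi]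
    linear_combination (-(io d.qi) ^ 3) * d.hQi
  rw [d.io_n0, deriv_mul, deriv_mul (io d.si), deriv_mul ((io d.s + io d.y) * (io d.s + 1)),
    deriv_mul (io d.s + io d.y), map_add, map_add, deriv_one, d.Dq, d.Dsi, d.Ds, d.Dy, d.Dyi, hqq]
  generalize io d.q = q at *
  generalize io d.s = s at *
  generalize io d.si = si at *
  generalize io d.y = y at *
  generalize io d.yi = yi at *
  generalize (C (C hf) : PowerSeries (PowerSeries S)) = H at *
  linear_combination q * hm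

theorem DoX : derivative (PowerSeries S) (io d.oX) =
    C (C hf) ^ 3 * (io d.yi) ^ 3 * (io d.si) ^ 3 := by
  have hm := alg_omX (io d.y) (io d.yi) (io d.s) (io d.si) (C (C hf)) d.hY d.hSY d.hH d.hSi
  have e : io d.oX = C (-(C hf ^ 2)) * ((io d.s - io d.y) ^ 2 * (io d.yi * io d.si)) := by
    rw [d.io_oX]
    simp only [map_neg, map_pow]
    ring
  rw [e, deriv_C_mul, deriv_mul, deriv_mul (io d.yi), deriv_sq, map_sub, d.Dsi, d.Ds, d.Dy,
    d.Dyi, ← hm]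
  simp only [map_neg, map_pow]
  ring

theorem DoY : derivative (PowerSeries S) (io d.oY) =
    -(C (C hf) ^ 3 * (io d.si) ^ 3 * (io d.y) ^ 2) := by
  have hm := alg_omY (io d.y) (io d.yi) (io d.s) (io d.si) (C (C hf)) d.hY d.hSY d.hH d.hSi
  have e : io d.oY = C (-(C hf ^ 2)) * ((io d.s - 1) ^ 2 * io d.si) := by
    rw [d.io_oY]
    simp only [map_neg, map_pow]
    ring
  rw [e, deriv_C_mul, deriv_mul, deriv_sq, map_sub, deriv_one, d.Dsi, d.Ds, ← hm]
  simp only [map_neg, map_pow]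
  ring

/-- `𝒜_a(ω_X)` -/
noncomputable def AX (a : S) : PowerSeries (PowerSeries S) := AA hf a (io d.oX)

/-- `𝒜_a(ω_Y)` -/
noncomputable def AY (a : S) : PowerSeries (PowerSeries S) := AA hf a (io d.oY)

theorem xDa : xx S * derivative (PowerSeries S) (d.AX (hf + 1)) =
    -(C (C hf) ^ 2 * (2 + xx S) * (d.AX hf - d.AX (hf + 1)) * (io d.s + io d.y) ^ 2 *
      (io d.yi) ^ 2 * (io d.si) ^ 2) := by
  have h1 := rel_I2 (io d.oX) d.h2
  have h2 := alg_lamX (io d.y) (io d.yi) (io d.s) (io d.si) (C (C hf)) d.hY d.hSY d.hH d.hSi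
  unfold AX
  rw [deriv_AA, d.DoX, h2, ← d.io_oX]
  generalize AA hf hf (io d.oX) = b at *
  generalize AA hf (hf + 1) (io d.oX) = a at *
  generalize BB hf (hf + 1) (io d.oX) = B at *
  generalize io d.oX = om at *
  generalize io d.s = s at *
  generalize io d.si = si at *
  generalize io d.y = y at *
  generalize io d.yi = yi at *
  have h3 := d.hH
  generalize (C (C hf) : PowerSeries (PowerSeries S)) = H at *
  linear_combination (H ^ 2 * (s + y) ^ 2 * yi ^ 2 * si ^ 2) * h1 +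
    (xx S * om * B * H * (s + y) ^ 2 * yi ^ 2 * si ^ 2) * h3

theorem xDb : xx S * (2 + xx S) * derivative (PowerSeries S) (d.AX hf) =
    C (C hf) ^ 2 * (io d.s - io d.y) ^ 2 * (io d.yi) ^ 2 * (io d.si) ^ 2 *
      (4 * d.AX (hf + 1) - (4 - xx S ^ 2) * d.AX hf) := by
  have h1 := rel_I3 (io d.oX) d.h2
  have h2 := alg_muX (io d.y) (io d.yi) (io d.s) (io d.si) (C (C hf)) d.hY d.hSY d.hH d.hSi
  have h4 := alg_omX1 (io d.y) (io d.yi) (io d.s) (io d.si) (C (C hf)) d.hY d.hSY d.hH d.hSi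
  rw [← h4, ← d.io_oX] at h2
  unfold AX
  rw [deriv_AA, d.DoX, h2]
  generalize AA hf hf (io d.oX) = b at *
  generalize AA hf (hf + 1) (io d.oX) = a at *
  generalize BB hf hf (io d.oX) = B at *
  generalize io d.oX = om at *
  generalize io d.s = s at *
  generalize io d.si = si at *
  generalize io d.y = y at *
  generalize io d.yi = yi at *
  have h3 := d.hH
  generalize (C (C hf) : PowerSeries (PowerSeries S)) = H at *
  linear_combination (H ^ 2 * (s - y) ^ 2 * yi ^ 2 * si ^ 2) * h1 +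
    (xx S * (2 + xx S) * B * (om - 1) * H * (s - y) ^ 2 * yi ^ 2 * si ^ 2) * h3

theorem xDc : xx S * derivative (PowerSeries S) (d.AY (hf + 1)) =
    C (C hf) ^ 2 * (2 + xx S) * (d.AY hf - d.AY (hf + 1)) * (io d.si) ^ 2 *
      ((io d.s + 1) ^ 2 * (io d.yi) ^ 2) := by
  have h1 := rel_I2 (io d.oY) d.h2
  have h2 := alg_lamY (io d.y) (io d.yi) (io d.s) (io d.si) (C (C hf)) d.hY d.hSY d.hH d.hSi
  unfold AY
  rw [deriv_AA, d.DoY, h2, ← d.io_oY]
  generalize AA hf hf (io d.oY) = b at *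
  generalize AA hf (hf + 1) (io d.oY) = a at *
  generalize BB hf (hf + 1) (io d.oY) = B at *
  generalize io d.oY = om at *
  generalize io d.s = s at *
  generalize io d.si = si at *
  generalize io d.y = y at *
  generalize io d.yi = yi at *
  have h3 := d.hH
  generalize (C (C hf) : PowerSeries (PowerSeries S)) = H at *
  linear_combination (-(H ^ 2 * si ^ 2 * ((s + 1) ^ 2 * yi ^ 2))) * h1 -
    (xx S * om * B * H * si ^ 2 * ((s + 1) ^ 2 * yi ^ 2)) * h3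

theorem xDd : xx S * (2 + xx S) * derivative (PowerSeries S) (d.AY hf) =
    -(C (C hf) ^ 2 * (io d.si) ^ 2 * ((io d.s - 1) ^ 2 * (io d.yi) ^ 2) *
      (4 * d.AY (hf + 1) - (4 - xx S ^ 2) * d.AY hf)) := by
  have h1 := rel_I3 (io d.oY) d.h2
  have h2 := alg_muY (io d.y) (io d.yi) (io d.s) (io d.si) (C (C hf)) d.hY d.hSY d.hH d.hSi
  have h4 := alg_omY1 (io d.y) (io d.yi) (io d.s) (io d.si) (C (C hf)) d.hY d.hSY d.hH d.hSi
  rw [← h4, ← d.io_oY] at h2
  unfold AY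
  rw [deriv_AA, d.DoY, h2]
  generalize AA hf hf (io d.oY) = b at *
  generalize AA hf (hf + 1) (io d.oY) = a at *
  generalize BB hf hf (io d.oY) = B at *
  generalize io d.oY = om at *
  generalize io d.s = s at *
  generalize io d.si = si at *
  generalize io d.y = y at *
  generalize io d.yi = yi at *
  have h3 := d.hH
  generalize (C (C hf) : PowerSeries (PowerSeries S)) = H at *
  linear_combination (-(H ^ 2 * si ^ 2 * ((s - 1) ^ 2 * yi ^ 2))) * h1 -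
    (xx S * (2 + xx S) * B * (om - 1) * H * si ^ 2 * ((s - 1) ^ 2 * yi ^ 2)) * h3

/-- the certificate -/
noncomputable def gt : PowerSeries (PowerSeries S) :=
  (5 + 2 * xx S) * ((io d.y) ^ 2 - (io d.yi) ^ 2) * (d.AX (hf + 1) * d.AY (hf + 1)) +
    (2 + xx S) * C (C hf) * (1 - 3 * (io d.y) ^ 2) * ((io d.s + 1) ^ 2 * (io d.yi) ^ 2) *
      (d.AX (hf + 1) * d.AY hf) +
    (2 + xx S) * C (C hf) * (3 * (io d.yi) ^ 2 - 1) * (io d.s + io d.y) ^ 2 *
      (d.AX hf * d.AY (hf + 1))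

theorem deriv_const_mul {R : Type*} [CommRing R] (g : R) (T : PowerSeries R) :
    derivative R (C g * T) = C g * derivative R T := deriv_C_mul g T

theorem Dgt : derivative (PowerSeries S) d.gt =
    ((5 + 2 * xx S) * ((1 + (io d.yi) ^ 4) * (d.AX (hf + 1) * d.AY (hf + 1)) +
      ((io d.y) ^ 2 - (io d.yi) ^ 2) *
        (derivative (PowerSeries S) (d.AX (hf + 1)) * d.AY (hf + 1) +
          d.AX (hf + 1) * derivative (PowerSeries S) (d.AY (hf + 1)))) +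
    (2 + xx S) * C (C hf) * (-3 * ((io d.s + 1) ^ 2 * (io d.yi) ^ 2) *
        (d.AX (hf + 1) * d.AY hf) - (1 - 3 * (io d.y) ^ 2) *
        (io d.si * (io d.yi) ^ 2 * ((io d.s + 1) ^ 2 * (io d.yi) ^ 2)) *
        (d.AX (hf + 1) * d.AY hf) + (1 - 3 * (io d.y) ^ 2) *
        ((io d.s + 1) ^ 2 * (io d.yi) ^ 2) *
        (derivative (PowerSeries S) (d.AX (hf + 1)) * d.AY hf +
          d.AX (hf + 1) * derivative (PowerSeries S) (d.AY hf))) +
    (2 + xx S) * C (C hf) * (-3 * (io d.yi) ^ 4 * (io d.s + io d.y) ^ 2 *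
        (d.AX hf * d.AY (hf + 1)) + (3 * (io d.yi) ^ 2 - 1) *
        (io d.si * io d.yi * (io d.s + io d.y) ^ 2) * (d.AX hf * d.AY (hf + 1)) +
        (3 * (io d.yi) ^ 2 - 1) * (io d.s + io d.y) ^ 2 *
        (derivative (PowerSeries S) (d.AX hf) * d.AY (hf + 1) +
          d.AX hf * derivative (PowerSeries S) (d.AY (hf + 1))))) := by
  have e : d.gt = C (5 + 2 * X) * (((io d.y) ^ 2 - (io d.yi) ^ 2) *
      (d.AX (hf + 1) * d.AY (hf + 1))) +
      C ((2 + X) * C hf) * (((1 - 3 * (io d.y) ^ 2) * ((io d.s + 1) ^ 2 * (io d.yi) ^ 2)) *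
        (d.AX (hf + 1) * d.AY hf)) +
      C ((2 + X) * C hf) * (((3 * (io d.yi) ^ 2 - 1) * (io d.s + io d.y) ^ 2) *
        (d.AX hf * d.AY (hf + 1))) := by
    unfold gt
    simp only [map_add, map_mul, map_ofNat]
    ring
  have a1 := alg_y2 (io d.y) (io d.yi) (io d.s) (io d.si) (C (C hf)) d.hY d.hSY d.hH d.hSi
  have a2 := alg_yi2 (io d.y) (io d.yi) (io d.s) (io d.si) (C (C hf)) d.hY d.hSY d.hH d.hSi
  have a3 := alg_Z (io d.y) (io d.yi) (io d.s) (io d.si) (C (C hf)) d.hY d.hSY d.hH d.hSi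
  have a4 := alg_ZY (io d.y) (io d.yi) (io d.s) (io d.si) (C (C hf)) d.hY d.hSY d.hH d.hSi
  have b1 : derivative (PowerSeries S) ((io d.y) ^ 2) = 1 := by
    rw [deriv_sq, d.Dy, a1]
  have b2 : derivative (PowerSeries S) ((io d.yi) ^ 2) = -((io d.yi) ^ 4) := by
    rw [deriv_sq, d.Dyi, a2]
  have b3 : derivative (PowerSeries S) ((io d.s + io d.y) ^ 2) =
      io d.si * io d.yi * (io d.s + io d.y) ^ 2 := by
    rw [deriv_sq, map_add, d.Ds, d.Dy, a3]
  have b4 : derivative (PowerSeries S) ((io d.s + 1) ^ 2 * (io d.yi) ^ 2) =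
      -(io d.si * (io d.yi) ^ 2 * ((io d.s + 1) ^ 2 * (io d.yi) ^ 2)) := by
    rw [deriv_mul, deriv_sq, deriv_sq, map_add, deriv_one, d.Ds, d.Dyi, ← a4]
    ring
  have c3 : (3 : PowerSeries (PowerSeries S)) = C 3 := (map_ofNat C 3).symm
  have b5 : derivative (PowerSeries S) (1 - 3 * (io d.y) ^ 2) = -3 := by
    rw [c3, map_sub, deriv_one, deriv_C_mul, b1]
    ring
  have b6 : derivative (PowerSeries S) (3 * (io d.yi) ^ 2 - 1) = -3 * (io d.yi) ^ 4 := by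
    rw [c3, map_sub, deriv_one, deriv_C_mul, b2]
    ring
  rw [e]
  generalize d.AX (hf + 1) = a
  generalize d.AY (hf + 1) = c
  generalize d.AX hf = b
  generalize d.AY hf = dd
  have t1 : derivative (PowerSeries S) (((io d.y) ^ 2 - (io d.yi) ^ 2) * (a * c)) =
      (1 + (io d.yi) ^ 4) * (a * c) + ((io d.y) ^ 2 - (io d.yi) ^ 2) *
        (derivative (PowerSeries S) a * c + a * derivative (PowerSeries S) c) := by
    rw [deriv_mul, deriv_mul a, map_sub, b1, b2]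
    ring
  have t2 : derivative (PowerSeries S) (((1 - 3 * (io d.y) ^ 2) *
      ((io d.s + 1) ^ 2 * (io d.yi) ^ 2)) * (a * dd)) =
      -3 * ((io d.s + 1) ^ 2 * (io d.yi) ^ 2) * (a * dd) - (1 - 3 * (io d.y) ^ 2) *
        (io d.si * (io d.yi) ^ 2 * ((io d.s + 1) ^ 2 * (io d.yi) ^ 2)) * (a * dd) +
        (1 - 3 * (io d.y) ^ 2) * ((io d.s + 1) ^ 2 * (io d.yi) ^ 2) *
        (derivative (PowerSeries S) a * dd + a * derivative (PowerSeries S) dd) := by
    rw [deriv_mul, deriv_mul (1 - 3 * (io d.y) ^ 2), deriv_mul a, b4, b5]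
    ring
  have t3 : derivative (PowerSeries S) (((3 * (io d.yi) ^ 2 - 1) * (io d.s + io d.y) ^ 2) *
      (b * c)) = -3 * (io d.yi) ^ 4 * (io d.s + io d.y) ^ 2 * (b * c) +
        (3 * (io d.yi) ^ 2 - 1) * (io d.si * io d.yi * (io d.s + io d.y) ^ 2) * (b * c) +
        (3 * (io d.yi) ^ 2 - 1) * (io d.s + io d.y) ^ 2 *
        (derivative (PowerSeries S) b * c + b * derivative (PowerSeries S) c) := by
    rw [deriv_mul, deriv_mul (3 * (io d.yi) ^ 2 - 1), deriv_mul b, b3, b6]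
    ring
  rw [map_add, map_add, deriv_C_mul, deriv_C_mul, deriv_C_mul, t1, t2, t3]
  simp only [map_add, map_mul, map_ofNat]

/-- the pointwise identity -/
theorem pointwise : (1 + xx S) * (derivative (PowerSeries S) (io d.F) * (io d.n0 * d.gt)) +
    xx S * (io d.F * derivative (PowerSeries S) (io d.n0 * d.gt)) =
    io d.Ph * ((1 + xx S) * (2 + xx S) * ((1 + 2 * (io d.y) ^ 2) * d.AX (hf + 1) -
      C (C hf) * (io d.s + io d.y) ^ 2 * d.AX hf) * ((1 + 2 * (io d.yi) ^ 2) * d.AY (hf + 1) -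
      C (C hf) * ((io d.s + 1) ^ 2 * (io d.yi) ^ 2) * d.AY hf) -
      (17 + 17 * xx S + 5 * xx S ^ 2) * (d.AX (hf + 1) * d.AY (hf + 1)) +
      (2 + xx S) * C (C hf) ^ 2 * ((io d.s + io d.y) ^ 2 * ((io d.s + 1) ^ 2 * (io d.yi) ^ 2)) *
      (d.AX hf * d.AY hf)) := by
  have h := pi_core (io d.y) (io d.yi) (io d.s) (C (C hf)) (xx S) (io d.si) (d.AX (hf + 1))
    (d.AX hf) (d.AY (hf + 1)) (d.AY hf) (derivative (PowerSeries S) (d.AX (hf + 1)))
    (derivative (PowerSeries S) (d.AX hf)) (derivative (PowerSeries S) (d.AY (hf + 1)))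
    (derivative (PowerSeries S) (d.AY hf)) d.hY d.hSY d.hH d.hSi d.xDa d.xDb d.xDc d.xDd
  rw [← d.Dgt] at h
  change (1 + xx S) * ((1 - io d.y) * io d.si * io d.yi ^ 2) * d.gt + xx S * ((io d.yi ^ 2 *
    C (C hf) ^ 2 - C (C hf) * io d.si ^ 2 - (1 - io d.y) * C (C hf) * io d.si * io d.yi ^ 2) *
    d.gt + derivative (PowerSeries S) d.gt) = _ at h
  rw [deriv_mul, d.DF, d.Dn0, d.io_Ph]
  generalize derivative (PowerSeries S) d.gt = Dg at *
  generalize d.gt = g at *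
  linear_combination (io d.F * io d.n0) * h

/-- (I1) for `X` -/
theorem relX : (1 + xx S) ^ 2 * ((io d.s - io d.y) ^ 2 * d.AX (hf + 1 + 1)) =
    (2 + xx S) * (1 + C (C (hf + 1)) * xx S) * ((1 + 2 * (io d.y) ^ 2) * d.AX (hf + 1) -
      C (C hf) * (io d.s + io d.y) ^ 2 * d.AX hf) := by
  have h1 := rel_I1 (io d.oX) d.h2
  have h4 := alg_omX1 (io d.y) (io d.yi) (io d.s) (io d.si) (C (C hf)) d.hY d.hSY d.hH d.hSi
  rw [← d.io_oX] at h4
  have h5 : 2 * io d.oX - 1 = io d.oX + (io d.oX - 1) := by ring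
  unfold AX
  have hy := d.hY
  have hs := d.hSi
  have hss := d.hSY
  have h3 := d.hH
  generalize AA hf hf (io d.oX) = b at *
  generalize AA hf (hf + 1) (io d.oX) = a at *
  generalize AA hf (hf + 1 + 1) (io d.oX) = a5 at *
  rw [h5, h4, d.io_oX] at h1
  generalize io d.s = s at *
  generalize io d.si = si at *
  generalize io d.y = y at *
  generalize io d.yi = yi at *
  generalize (1 + C (C (hf + 1)) * xx S : PowerSeries (PowerSeries S)) = k3 at *
  generalize (C (C hf) : PowerSeries (PowerSeries S)) = H at *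
  generalize xx S = x at *
  have hu : 4 * H ^ 2 * (y * yi) * (s * si) = 1 := by
    rw [hy, hs]
    linear_combination (2 * H + 1) * h3
  have h6 : 2 * (1 + x) ^ 2 * ((s - y) ^ 2 * a5) =
      (2 + x) * k3 * (((s - y) ^ 2 + (s + y) ^ 2) * a - (s + y) ^ 2 * b) := by
    linear_combination (-4 * (y * s)) * h1 - (2 * (1 + x) ^ 2 * ((s - y) ^ 2 * a5) -
      (2 + x) * k3 * (((s - y) ^ 2 + (s + y) ^ 2) * a - (s + y) ^ 2 * b)) * hu
  linear_combination H * h6 - ((1 + x) ^ 2 * ((s - y) ^ 2 * a5) -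
    (2 + x) * k3 * ((1 + 2 * y ^ 2) * a)) * h3 +
    (2 + x) * k3 * a * (2 * H) * hss

/-- (I1) for `Y` -/
theorem relY : (1 + xx S) ^ 2 * (((io d.s - 1) ^ 2 * (io d.yi) ^ 2) * d.AY (hf + 1 + 1)) =
    (2 + xx S) * (1 + C (C (hf + 1)) * xx S) * ((1 + 2 * (io d.yi) ^ 2) * d.AY (hf + 1) -
      C (C hf) * ((io d.s + 1) ^ 2 * (io d.yi) ^ 2) * d.AY hf) := by
  have h1 := rel_I1 (io d.oY) d.h2
  have h4 := alg_omY1 (io d.y) (io d.yi) (io d.s) (io d.si) (C (C hf)) d.hY d.hSY d.hH d.hSi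
  rw [← d.io_oY] at h4
  have h5 : 2 * io d.oY - 1 = io d.oY + (io d.oY - 1) := by ring
  unfold AY
  have hy := d.hY
  have hs := d.hSi
  have hss := d.hSY
  have h3 := d.hH
  generalize AA hf hf (io d.oY) = b at *
  generalize AA hf (hf + 1) (io d.oY) = a at *
  generalize AA hf (hf + 1 + 1) (io d.oY) = a5 at *
  rw [h5, h4, d.io_oY] at h1
  generalize io d.s = s at *
  generalize io d.si = si at *
  generalize io d.y = y at *
  generalize io d.yi = yi at *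
  generalize (1 + C (C (hf + 1)) * xx S : PowerSeries (PowerSeries S)) = k3 at *
  generalize (C (C hf) : PowerSeries (PowerSeries S)) = H at *
  generalize xx S = x at *
  have hu : 4 * H ^ 2 * (s * si) = 1 := by
    rw [hs]
    linear_combination (2 * H + 1) * h3
  have hy2 : y ^ 2 * yi ^ 2 = 1 := by linear_combination (y * yi + 1) * hy
  have h6 : 2 * (1 + x) ^ 2 * ((s - 1) ^ 2 * a5) =
      (2 + x) * k3 * (((s - 1) ^ 2 + (s + 1) ^ 2) * a - (s + 1) ^ 2 * b) := by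
    linear_combination (-4 * s) * h1 - (2 * (1 + x) ^ 2 * ((s - 1) ^ 2 * a5) -
      (2 + x) * k3 * (((s - 1) ^ 2 + (s + 1) ^ 2) * a - (s + 1) ^ 2 * b)) * hu
  linear_combination (H * yi ^ 2) * h6 - ((1 + x) ^ 2 * ((s - 1) ^ 2 * a5 * yi ^ 2) -
    (2 + x) * k3 * ((1 + 2 * yi ^ 2) * a)) * h3 +
    ((2 + x) * k3 * a * (2 * H) * yi ^ 2) * hss + ((2 + x) * k3 * a * (2 * H)) * hy2

/-- `Σ_a` -/
noncomputable def Sg (a : S) : PowerSeries S :=
  JJ hf w d.rho a (io d.Ph * (d.AX a * d.AY a))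

end Dat

theorem comb_ring {R : Type*} [CommRing R] (x k3 s y yi Ph H a5 c5 a3 c3 a1 c1 : R)
    (hX : (1 + x) ^ 2 * ((s - y) ^ 2 * a5) = (2 + x) * k3 * ((1 + 2 * y ^ 2) * a3 -
      H * (s + y) ^ 2 * a1))
    (hY : (1 + x) ^ 2 * (((s - 1) ^ 2 * yi ^ 2) * c5) = (2 + x) * k3 * ((1 + 2 * yi ^ 2) * c3 -
      H * ((s + 1) ^ 2 * yi ^ 2) * c1)) :
    ((2 + x) * k3 ^ 2) * (Ph * ((1 + x) * (2 + x) * ((1 + 2 * y ^ 2) * a3 -
      H * (s + y) ^ 2 * a1) * ((1 + 2 * yi ^ 2) * c3 -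
      H * ((s + 1) ^ 2 * yi ^ 2) * c1) -
      (17 + 17 * x + 5 * x ^ 2) * (a3 * c3) +
      (2 + x) * H ^ 2 * ((s + y) ^ 2 * ((s + 1) ^ 2 * yi ^ 2)) * (a1 * c1))) =
      ((1 + x) ^ 5) * (((s - y) * (s - 1) * yi) ^ 2 * (Ph * (a5 * c5))) -
      ((2 + x) * k3 ^ 2 * (17 + 17 * x + 5 * x ^ 2)) * (Ph * (a3 * c3)) +
      ((2 + x) ^ 2 * k3 ^ 2 * H ^ 2) *
        (Ph * (((s + y) ^ 2 * ((s + 1) ^ 2 * yi ^ 2)) * (a1 * c1))) := by
  linear_combination (-((1 + x) * Ph) * ((1 + x) ^ 2 * (((s - 1) ^ 2 * yi ^ 2) * c5))) * hX -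
    ((1 + x) * Ph * ((2 + x) * k3 * ((1 + 2 * y ^ 2) * a3 - H * (s + y) ^ 2 * a1))) * hY

theorem fin_ring {R : Type*} [CommRing R] (X k3 al ali H J5 J1 S5 S3 S1 : R)
    (h7 : k3 * J5 = al * (1 + X) * S5)
    (h6 : 0 = (1 + X) ^ 5 * J5 - (2 + X) * k3 ^ 2 * (17 + 17 * X + 5 * X ^ 2) * S3 +
      (2 + X) ^ 2 * k3 ^ 2 * H ^ 2 * J1)
    (h8 : (1 + H * X) * S1 = al * J1) (hal : ali * al = 1) (h9 : 2 * H = 1) :
    al * (1 + X) ^ 6 * S5 - (34 + 51 * X + 27 * X ^ 2 + 5 * X ^ 3) * k3 ^ 3 * S3 +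
      ali * k3 ^ 3 * (1 + H * X) ^ 3 * S1 = 0 := by
  linear_combination (-(1 + X) ^ 5) * h7 - k3 * h6 + (ali * k3 ^ 3 * (1 + H * X) ^ 2) * h8 +
    (k3 ^ 3 * (1 + H * X) ^ 2 * J1) * hal +
    (-(k3 ^ 3 * J1 * (1 + 2 * H + 2 * H * X))) * h9

namespace Dat

variable (d : Dat S hf w)

/-- the brace of the pointwise identity -/
noncomputable def br : PowerSeries (PowerSeries S) :=
  (1 + xx S) * (2 + xx S) * ((1 + 2 * (io d.y) ^ 2) * d.AX (hf + 1) -
      C (C hf) * (io d.s + io d.y) ^ 2 * d.AX hf) * ((1 + 2 * (io d.yi) ^ 2) * d.AY (hf + 1) -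
      C (C hf) * ((io d.s + 1) ^ 2 * (io d.yi) ^ 2) * d.AY hf) -
      (17 + 17 * xx S + 5 * xx S ^ 2) * (d.AX (hf + 1) * d.AY (hf + 1)) +
      (2 + xx S) * C (C hf) ^ 2 * ((io d.s + io d.y) ^ 2 * ((io d.s + 1) ^ 2 * (io d.yi) ^ 2)) *
      (d.AX hf * d.AY hf)

/-- `Z_X^{-1} Z_Y^{-1}` -/
noncomputable def zz : PowerSeries (PowerSeries S) :=
  (io d.s + io d.y) ^ 2 * ((io d.s + 1) ^ 2 * (io d.yi) ^ 2)

theorem main_eq : C ((2 + X) * (1 + C (hf + 1) * X) ^ 2) * (io d.Ph * d.br) =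
      C ((1 + X) ^ 5) * (io d.F * (io d.Ph * (d.AX (hf + 1 + 1) * d.AY (hf + 1 + 1)))) -
      C ((2 + X) * (1 + C (hf + 1) * X) ^ 2 * (17 + 17 * X + 5 * X ^ 2)) *
        (io d.Ph * (d.AX (hf + 1) * d.AY (hf + 1))) +
      C ((2 + X) ^ 2 * (1 + C (hf + 1) * X) ^ 2 * C hf ^ 2) *
        (io d.Ph * (d.zz * (d.AX hf * d.AY hf))) := by
  have h := comb_ring (xx S) (1 + C (C (hf + 1)) * xx S) (io d.s) (io d.y) (io d.yi) (io d.Ph)
    (C (C hf)) (d.AX (hf + 1 + 1)) (d.AY (hf + 1 + 1)) (d.AX (hf + 1)) (d.AY (hf + 1))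
    (d.AX hf) (d.AY hf) d.relX d.relY
  have c1 : (C ((2 + X) * (1 + C (hf + 1) * X) ^ 2) : PowerSeries (PowerSeries S)) =
      (2 + xx S) * (1 + C (C (hf + 1)) * xx S) ^ 2 := by
    rw [map_mul, map_pow, map_add, map_add, map_mul, map_one, map_ofNat]
  have c2 : (C ((1 + X) ^ 5) : PowerSeries (PowerSeries S)) = (1 + xx S) ^ 5 := by
    rw [map_pow, map_add, map_one]
  have c3 : (C ((2 + X) * (1 + C (hf + 1) * X) ^ 2 * (17 + 17 * X + 5 * X ^ 2)) :
      PowerSeries (PowerSeries S)) =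
      (2 + xx S) * (1 + C (C (hf + 1)) * xx S) ^ 2 * (17 + 17 * xx S + 5 * xx S ^ 2) := by
    rw [map_mul, c1]
    congr 1
    simp only [map_add, map_mul, map_pow, map_ofNat]
  have c4 : (C ((2 + X) ^ 2 * (1 + C (hf + 1) * X) ^ 2 * C hf ^ 2) :
      PowerSeries (PowerSeries S)) =
      (2 + xx S) ^ 2 * (1 + C (C (hf + 1)) * xx S) ^ 2 * C (C hf) ^ 2 := by
    simp only [map_add, map_mul, map_pow, map_one, map_ofNat]
  rw [c1, c2, c3, c4, d.io_F]
  exact h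

theorem hFT : io d.F * (io d.Ph * (d.zz * (d.AX hf * d.AY hf))) =
    io d.Ph * (d.AX hf * d.AY hf) := by
  have hZF := alg_ZF (io d.y) (io d.yi) (io d.s) (io d.si) (C (C hf)) d.hY d.hSY d.hH d.hSi
  rw [← d.io_F] at hZF
  unfold zz
  linear_combination (io d.Ph * (d.AX hf * d.AY hf)) * hZF

/-- the three-term relation -/
theorem three_term :
    C ((w - 1) ^ 4) * (1 + X) ^ 6 * d.Sg (hf + 1 + 1) -
      (34 + 51 * X + 27 * X ^ 2 + 5 * X ^ 3) * (1 + C (hf + 1) * X) ^ 3 * d.Sg (hf + 1) +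
      C ((w + 1) ^ 4) * (1 + C (hf + 1) * X) ^ 3 * (1 + C hf * X) ^ 3 * d.Sg hf = 0 := by
  have hpw := d.pointwise
  have hP2 := d.P2 (io d.n0 * d.gt)
  have hx1 : (1 + xx S : PowerSeries (PowerSeries S)) = C (1 + X) := by
    rw [map_add, map_one]
  rw [← JJ_C_mul, ← JJ_C_mul, ← JJ_add, ← hx1, hpw] at hP2
  change JJ hf w d.rho (hf + 1) (io d.Ph * d.br) = 0 at hP2
  have h6 := congrArg (JJ hf w d.rho (hf + 1)) d.main_eq
  rw [JJ_C_mul, hP2, mul_zero, JJ_add, JJ_sub, JJ_C_mul, JJ_C_mul, JJ_C_mul] at h6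
  have h7 := d.P1 (hf + 1) (io d.Ph * (d.AX (hf + 1 + 1) * d.AY (hf + 1 + 1)))
  have h8 := d.P1 hf (io d.Ph * (d.zz * (d.AX hf * d.AY hf)))
  rw [d.hFT, sub_self, map_zero, zero_mul, add_zero, mul_one] at h8
  rw [add_sub_cancel_left, map_one, one_mul] at h7
  have hal : (C ((w + 1) ^ 4) * C ((w - 1) ^ 4) : PowerSeries S) = 1 := by
    rw [← map_mul]
    have : (w + 1) ^ 4 * (w - 1) ^ 4 = (w ^ 2 - 1) ^ 4 := by ring
    rw [this, d.hw]
    have e : ((2 : S) - 1) ^ 4 = 1 := by norm_num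
    rw [e, map_one]
  exact fin_ring X _ _ _ _ _ _ _ _ _ h7 h6 h8 hal (C_h2 d.h2)

end Dat

end QS2.Sym
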