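import Pool.Agent.QS2.SymBase

/-!
# The saddle functional

`ck k T = (4w)^k [h^{2k}] (T ρ^{2k+1})` and `JJ a T = ∑_k ck k T (1/2)_k / (z+a)_k`; the two
rules (P1) (shift of `a`) and (P2) (integration by parts).
-/

set_option autoImplicit false

namespace QS2.Sym

open PowerSeries Finset

variable {S : Type*} [CommRing S] {hf w : S}

/-- `B → S⟦X⟧⟦h⟧` -/
noncomputable abbrev io : PowerSeries S →+* PowerSeries (PowerSeries S) :=
  PowerSeries.map (C : S →+* PowerSeries S)

theorem io_X : io (X : PowerSeries S) = X := PowerSeries.map_X _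

theorem io_C (a : S) : io (C a : PowerSeries S) = C (C a) := PowerSeries.map_C _ _

/-- the coefficient functional on `S⟦h⟧` -/
noncomputable def ckS (w : S) (rho : PowerSeries S) (k : ℕ) (p : PowerSeries S) : S :=
  (4 * w) ^ k * coeff (2 * k) (p * rho ^ (2 * k + 1))

/-- the coefficient functional on `S⟦X⟧⟦h⟧` -/
noncomputable def ck (w : S) (rho : PowerSeries S) (k : ℕ) (T : PowerSeries (PowerSeries S)) :
    PowerSeries S :=
  C ((4 * w) ^ k) * coeff (2 * k) (T * (io rho) ^ (2 * k + 1))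

variable (rho : PowerSeries S)

theorem ck_io (k : ℕ) (p : PowerSeries S) : ck w rho k (io p) = C (ckS w rho k p) := by
  unfold ck ckS
  rw [← map_pow, ← map_mul, coeff_map, ← map_mul]

theorem ck_C_mul (k : ℕ) (g : PowerSeries S) (T : PowerSeries (PowerSeries S)) :
    ck w rho k (C g * T) = g * ck w rho k T := by
  unfold ck
  rw [mul_assoc, coeff_C_mul]
  ring

theorem ck_add (k : ℕ) (T U : PowerSeries (PowerSeries S)) :
    ck w rho k (T + U) = ck w rho k T + ck w rho k U := by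
  unfold ck
  rw [add_mul, map_add]
  ring

theorem ck_sub (k : ℕ) (T U : PowerSeries (PowerSeries S)) :
    ck w rho k (T - U) = ck w rho k T - ck w rho k U := by
  unfold ck
  rw [sub_mul, map_sub]
  ring

theorem ck_hsum (k : ℕ) {u : ℕ → PowerSeries (PowerSeries S)} (hu : HS u) :
    ck w rho k (hsum u) = xsum fun j => ck w rho k (u j) := by
  unfold ck
  rw [mul_comm (hsum u), mul_hsum hu, coeff_hsum, mul_xsum ((hu.mul_left _) (2 * k))]
  refine xsum_congr fun j => ?_
  rw [mul_comm (u j)]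

/-- the functional `J_a` -/
noncomputable def JJ (hf w : S) (rho : PowerSeries S) (a : S) (T : PowerSeries (PowerSeries S)) :
    PowerSeries S := xsum fun k => ck w rho k T * EE hf a k

theorem XS_J (a : S) (c : ℕ → PowerSeries S) : XS fun k => c k * EE hf a k :=
  (XS_EE a).mul_left' _

theorem JJ_C_mul (a : S) (g : PowerSeries S) (T : PowerSeries (PowerSeries S)) :
    JJ hf w rho a (C g * T) = g * JJ hf w rho a T := by
  unfold JJ
  rw [mul_xsum (XS_J a _)]
  refine xsum_congr fun k => ?_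
  rw [ck_C_mul, mul_assoc]

theorem JJ_add (a : S) (T U : PowerSeries (PowerSeries S)) :
    JJ hf w rho a (T + U) = JJ hf w rho a T + JJ hf w rho a U := by
  unfold JJ
  rw [← xsum_add]
  refine xsum_congr fun k => ?_
  rw [ck_add, add_mul]

theorem JJ_sub (a : S) (T U : PowerSeries (PowerSeries S)) :
    JJ hf w rho a (T - U) = JJ hf w rho a T - JJ hf w rho a U := by
  unfold JJ
  rw [← xsum_sub]
  refine xsum_congr fun k => ?_
  rw [ck_sub, sub_mul]

namespace Dat

variable (d : Dat S hf w)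

/-- `F` -/
noncomputable def F : PowerSeries S := ((d.s - d.q ^ 2) * (d.s - 1) * d.qi ^ 2) ^ 2

theorem F_eq : d.F = C ((w - 1) ^ 4) * (1 - C (w * hf ^ 3) * X ^ 2 * d.rhoi ^ 2) := d.hF

theorem ioF_eq : io d.F = C (C ((w - 1) ^ 4)) *
    (1 - C (C (w * hf ^ 3)) * X ^ 2 * (io d.rhoi) ^ 2) := by
  rw [d.F_eq]
  simp only [map_mul, map_sub, map_one, map_pow, io_X, io_C]

theorem io_rho : io d.rho * io d.rhoi = 1 := by
  rw [← map_mul, d.hrho, map_one]

/-- (c1) -/
theorem ck_F_zero (T : PowerSeries (PowerSeries S)) :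
    ck w d.rho 0 (io d.F * T) = C ((w - 1) ^ 4) * ck w d.rho 0 T := by
  unfold ck
  rw [d.ioF_eq]
  have e : C (C ((w - 1) ^ 4)) * (1 - C (C (w * hf ^ 3)) * X ^ 2 * (io d.rhoi) ^ 2) * T *
      (io d.rho) ^ (2 * 0 + 1) = C (C ((w - 1) ^ 4)) * (T * (io d.rho) ^ (2 * 0 + 1)) -
      X * (C (C ((w - 1) ^ 4)) * C (C (w * hf ^ 3)) * X * (io d.rhoi) ^ 2 * T *
      (io d.rho) ^ (2 * 0 + 1)) := by ring
  rw [e, map_sub, coeff_C_mul, coeff_zero_X_mul, sub_zero]
  ring

theorem ck_F_succ (k : ℕ) (T : PowerSeries (PowerSeries S)) :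
    ck w d.rho (k + 1) (io d.F * T) =
      C ((w - 1) ^ 4) * (ck w d.rho (k + 1) T - ck w d.rho k T) := by
  unfold ck
  rw [d.ioF_eq]
  have h := d.io_rho
  have e : C (C ((w - 1) ^ 4)) * (1 - C (C (w * hf ^ 3)) * X ^ 2 * (io d.rhoi) ^ 2) * T *
      (io d.rho) ^ (2 * (k + 1) + 1) =
      C (C ((w - 1) ^ 4)) * (T * (io d.rho) ^ (2 * (k + 1) + 1)) -
      X ^ 2 * (C (C ((w - 1) ^ 4 * (w * hf ^ 3))) * (T * (io d.rho) ^ (2 * k + 1))) := by
    have e1 : (io d.rho) ^ (2 * (k + 1) + 1) = (io d.rho) ^ (2 * k + 1) * (io d.rho) ^ 2 := by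
      ring
    have e4 : (C (C ((w - 1) ^ 4 * (w * hf ^ 3))) : PowerSeries (PowerSeries S)) =
        C (C ((w - 1) ^ 4)) * C (C (w * hf ^ 3)) := by
      rw [map_mul, map_mul]
    rw [e1, e4]
    generalize (C (C (w * hf ^ 3)) : PowerSeries (PowerSeries S)) = u1
    generalize (C (C ((w - 1) ^ 4)) : PowerSeries (PowerSeries S)) = u2
    linear_combination (-(u2 * u1 * X ^ 2 * T *
      (io d.rho) ^ (2 * k + 1) * (io d.rho * io d.rhoi + 1))) * h
  have h2 : 2 * (k + 1) = 2 * k + 2 := by ring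
  rw [e, map_sub, coeff_C_mul, h2, coeff_X_pow_mul', if_pos (by omega), Nat.add_sub_cancel,
    coeff_C_mul]
  have h3 := d.h2
  have h4 := d.hw
  have e2 : (4 * w) ^ (k + 1) * ((w - 1) ^ 4 * (w * hf ^ 3)) = (w - 1) ^ 4 * (4 * w) ^ k := by
    linear_combination ((4 * w) ^ k * (w - 1) ^ 4 * 4 * hf ^ 3) * h4 +
      ((4 * w) ^ k * (w - 1) ^ 4 * (4 * hf ^ 2 + 2 * hf + 1)) * h3
  have e3 : C ((4 * w) ^ (k + 1)) * C ((w - 1) ^ 4 * (w * hf ^ 3)) =
      (C ((w - 1) ^ 4) * C ((4 * w) ^ k) : PowerSeries S) := by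
    rw [← map_mul, e2, map_mul]
  linear_combination (-(coeff (2 * k) (T * (io d.rho) ^ (2 * k + 1)))) * e3

/-- `H' ρ^2 = ρ - h ρ'` in the form `(h ρ^{-1})' ρ^2 = ρ - h ρ'` -/
theorem deriv_H : derivative (PowerSeries S) (X * io d.rhoi) * (io d.rho) ^ 2 =
    io d.rho - X * derivative (PowerSeries S) (io d.rho) := by
  have h := d.io_rho
  have h1 : derivative (PowerSeries S) (io d.rhoi) =
      -((io d.rhoi) ^ 2 * derivative (PowerSeries S) (io d.rho)) := deriv_inv h
  rw [deriv_mul, h1, deriv_X]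
  linear_combination (io d.rho - X * derivative (PowerSeries S) (io d.rho) *
    (io d.rho * io d.rhoi + 1)) * h

theorem deriv_ioF : derivative (PowerSeries S) (io d.F) =
    -(C (C ((w - 1) ^ 4)) * C (C (w * hf ^ 3)) *
      (2 * (X * io d.rhoi) * derivative (PowerSeries S) (X * io d.rhoi))) := by
  have e : io d.F = C (C ((w - 1) ^ 4)) - C (C ((w - 1) ^ 4) * C (w * hf ^ 3)) *
      (X * io d.rhoi) ^ 2 := by
    have e5 : (C (C ((w - 1) ^ 4) * C (w * hf ^ 3)) : PowerSeries (PowerSeries S)) =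
        C (C ((w - 1) ^ 4)) * C (C (w * hf ^ 3)) := map_mul _ _ _
    rw [d.ioF_eq, e5]
    generalize (C (C (w * hf ^ 3)) : PowerSeries (PowerSeries S)) = u1
    generalize (C (C ((w - 1) ^ 4)) : PowerSeries (PowerSeries S)) = u2
    ring
  have e5 : (C (C ((w - 1) ^ 4) * C (w * hf ^ 3)) : PowerSeries (PowerSeries S)) =
      C (C ((w - 1) ^ 4)) * C (C (w * hf ^ 3)) := map_mul _ _ _
  rw [e, map_sub, deriv_C, deriv_C_mul, deriv_sq, e5]
  generalize (C (C (w * hf ^ 3)) : PowerSeries (PowerSeries S)) = u1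
  generalize (C (C ((w - 1) ^ 4)) : PowerSeries (PowerSeries S)) = u2
  ring

/-- (c2), `k = 0` -/
theorem ck_dF_zero (T : PowerSeries (PowerSeries S)) :
    ck w d.rho 0 (derivative (PowerSeries S) (io d.F) * T) = 0 := by
  unfold ck
  rw [d.deriv_ioF]
  have e : -(C (C ((w - 1) ^ 4)) * C (C (w * hf ^ 3)) *
      (2 * (X * io d.rhoi) * derivative (PowerSeries S) (X * io d.rhoi))) * T *
      (io d.rho) ^ (2 * 0 + 1) = X * (-(C (C ((w - 1) ^ 4)) * C (C (w * hf ^ 3)) *
      (2 * io d.rhoi * derivative (PowerSeries S) (X * io d.rhoi))) * T *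
      (io d.rho) ^ (2 * 0 + 1)) := by ring
  rw [e, coeff_zero_X_mul, mul_zero]

/-- (c2) -/
theorem ck_dF_succ (k : ℕ) (T : PowerSeries (PowerSeries S)) :
    ((k : PowerSeries S) + C hf) * ck w d.rho (k + 1) (derivative (PowerSeries S) (io d.F) * T) =
      -(C ((w - 1) ^ 4) * ck w d.rho k (derivative (PowerSeries S) T)) := by
  have h := d.io_rho
  have h3 := C_h2 d.h2
  -- the coefficient identity
  set r := io d.rho with hr
  set H' := derivative (PowerSeries S) (X * io d.rhoi) with hH'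
  have key : coeff (2 * k) (derivative (PowerSeries S) T * r ^ (2 * k + 1)) =
      (2 * (k : PowerSeries S) + 1) * coeff (2 * k + 1) (T * (H' * r ^ (2 * k + 2))) := by
    have h1 := coeff_derivative (T * r ^ (2 * k + 1)) (2 * k)
    rw [deriv_mul, deriv_pow_succ, map_add] at h1
    have h4 : coeff (2 * k) (T * ((((2 * k : ℕ) : PowerSeries (PowerSeries S)) + 1) *
        (r ^ (2 * k) * derivative (PowerSeries S) r))) =
        (2 * (k : PowerSeries S) + 1) * coeff (2 * k + 1) (X * (T *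
        (r ^ (2 * k) * derivative (PowerSeries S) r))) := by
      rw [coeff_succ_X_mul]
      have e : T * ((((2 * k : ℕ) : PowerSeries (PowerSeries S)) + 1) *
        (r ^ (2 * k) * derivative (PowerSeries S) r)) =
        C (2 * (k : PowerSeries S) + 1) * (T * (r ^ (2 * k) * derivative (PowerSeries S) r)) := by
        simp only [map_add, map_mul, map_ofNat, map_natCast, map_one]
        push_cast
        ring
      rw [e, coeff_C_mul]
    rw [h4] at h1
    have h5 : T * (H' * r ^ (2 * k + 2)) = T * r ^ (2 * k + 1) -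
        X * (T * (r ^ (2 * k) * derivative (PowerSeries S) r)) := by
      have h6 : H' * r ^ 2 = r - X * derivative (PowerSeries S) r := d.deriv_H
      linear_combination (T * r ^ (2 * k)) * h6
    rw [h5, map_sub]
    push_cast at h1
    rw [mul_comm (derivative (PowerSeries S) T)]
    linear_combination h1
  unfold ck
  rw [← hr, key, d.deriv_ioF, ← hH']
  have e : -(C (C ((w - 1) ^ 4)) * C (C (w * hf ^ 3)) * (2 * (X * io d.rhoi) * H')) * T *
      r ^ (2 * (k + 1) + 1) = X * (C (-(2 * C ((w - 1) ^ 4) * C (w * hf ^ 3))) *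
      (T * (H' * r ^ (2 * k + 2)))) := by
    simp only [map_neg, map_mul, map_ofNat]
    linear_combination (-(2 * C (C ((w - 1) ^ 4)) * (C (C w) * C (C (hf ^ 3))) * X * H' * T *
      r ^ (2 * k + 2))) * h
  have h7 : 2 * (k + 1) = 2 * k + 1 + 1 := by ring
  rw [e, h7, coeff_succ_X_mul, coeff_C_mul]
  have h8 := d.h2
  have h9 := d.hw
  have e2 : (4 * w) ^ (k + 1) * (2 * (w * hf ^ 3)) = 2 * (4 * w) ^ k := by
    linear_combination ((4 * w) ^ k * 8 * hf ^ 3) * h9 +
      ((4 * w) ^ k * 2 * (4 * hf ^ 2 + 2 * hf + 1)) * h8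
  have e3 : C ((4 * w) ^ (k + 1)) * (2 * C (w * hf ^ 3)) =
      (2 * C ((4 * w) ^ k) : PowerSeries S) := by
    rw [← C_two, ← map_mul, ← map_mul, e2, map_mul]
  generalize coeff (2 * k + 1) (T * (H' * r ^ (2 * k + 2))) = Y
  linear_combination (-(((k : PowerSeries S) + C hf) * C ((w - 1) ^ 4) * Y)) * e3 -
    (C ((w - 1) ^ 4) * Y * C ((4 * w) ^ k)) * h3

/-- (P1) -/
theorem P1 (a : S) (T : PowerSeries (PowerSeries S)) :
    (1 + C a * X) * JJ hf w d.rho a (io d.F * T) =
      C ((w - 1) ^ 4) * (1 + C (a - hf) * X) * JJ hf w d.rho (a + 1) T := by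
  have h0 : JJ hf w d.rho a (io d.F * T) = C ((w - 1) ^ 4) *
      xsum fun k => ck w d.rho k T * (EE hf a k - EE hf a (k + 1)) := by
    have hX : XS fun k => ck w d.rho k T * EE hf a k := XS_J a _
    have hY : XS fun k => ck w d.rho k T * EE hf a (k + 1) := (XS_EE a).succ.mul_left' _
    have e1 : (xsum fun k => ck w d.rho k T * (EE hf a k - EE hf a (k + 1))) =
        (xsum fun k => ck w d.rho k T * EE hf a k) -
          xsum fun k => ck w d.rho k T * EE hf a (k + 1) := by
      rw [← xsum_sub]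
      exact xsum_congr fun k => mul_sub _ _ _
    rw [e1, xsum_succ hX, JJ, xsum_succ (XS_J a _), d.ck_F_zero]
    have e2 : (xsum fun k => ck w d.rho (k + 1) (io d.F * T) * EE hf a (k + 1)) =
        C ((w - 1) ^ 4) * ((xsum fun k => ck w d.rho (k + 1) T * EE hf a (k + 1)) -
          xsum fun k => ck w d.rho k T * EE hf a (k + 1)) := by
      rw [← xsum_sub, mul_xsum (hX.succ.sub hY)]
      refine xsum_congr fun k => ?_
      rw [d.ck_F_succ]
      ring
    rw [e2]
    ring
  have hZ : XS fun k => ck w d.rho k T * (EE hf a k - EE hf a (k + 1)) :=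
    ((XS_EE a).sub (XS_EE a).succ).mul_left' _
  have e3 : (1 + C a * X) * JJ hf w d.rho a (io d.F * T) = C ((w - 1) ^ 4) * ((1 + C a * X) *
      xsum fun k => ck w d.rho k T * (EE hf a k - EE hf a (k + 1))) := by
    rw [h0]; ring
  have e4 : C ((w - 1) ^ 4) * (1 + C (a - hf) * X) * JJ hf w d.rho (a + 1) T =
      C ((w - 1) ^ 4) * ((1 + C (a - hf) * X) * JJ hf w d.rho (a + 1) T) := by ring
  rw [e3, e4, mul_xsum hZ, JJ, mul_xsum (XS_J (a + 1) _)]
  congr 1
  refine xsum_congr fun k => ?_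
  have h1 := fr_shift a k
  have h2 := fr_shift_succ a k
  have e5 : (C (a + (k : S)) : PowerSeries S) = C a + (k : PowerSeries S) := by
    rw [map_add, map_natCast]
  rw [e5] at h1
  unfold EE
  rw [hp, map_sub, map_mul, map_add, map_natCast]
  linear_combination (ck w d.rho k T * C (hp hf k)) * h1 -
    (ck w d.rho k T * C (hp hf k) * ((k : PowerSeries S) + C hf)) * h2

omit d in
theorem JJ_parts {rho : PowerSeries S} (G D : PowerSeries (PowerSeries S)) (al : PowerSeries S)
    (h0 : ck w rho 0 G = 0)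
    (hs : ∀ k : ℕ, ((k : PowerSeries S) + C hf) * ck w rho (k + 1) G = -(al * ck w rho k D)) :
    (1 + C (hf + 1) * X) * JJ hf w rho (hf + 1) G =
      -(al * (X * JJ hf w rho (hf + 1 + 1) D)) := by
  have hG : XS fun k => ck w rho k G * EE hf (hf + 1) k := XS_J (hf + 1) _
  have hD : XS fun k => ck w rho k D * EE hf (hf + 1 + 1) k := XS_J (hf + 1 + 1) _
  have e6 : (0 : PowerSeries S) - (xsum fun k => al * (X * (ck w rho k D * EE hf (hf + 1 + 1) k))) =
      xsum fun k => 0 - (al * (X * (ck w rho k D * EE hf (hf + 1 + 1) k))) := by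
    have h7 := xsum_sub (fun _ : ℕ => (0 : PowerSeries S))
      (fun k => al * (X * (ck w rho k D * EE hf (hf + 1 + 1) k)))
    have h8 : xsum (fun _ : ℕ => (0 : PowerSeries S)) = 0 := by
      ext n
      simp [xsum]
    rw [h8] at h7
    exact h7.symm
  unfold JJ
  rw [xsum_succ hG, h0, zero_mul, zero_add, mul_xsum hG.succ,
    mul_xsum hD, mul_xsum (hD.mul_left _), ← zero_sub, e6]
  refine xsum_congr fun k => ?_
  have h3 := hs k
  have h4 := fr_shift_succ (hf + 1) k
  have e7 : (C (hp hf (k + 1)) : PowerSeries S) = ((k : PowerSeries S) + C hf) * C (hp hf k) := by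
    rw [hp, map_mul, map_add, map_natCast]
  unfold EE
  rw [e7]
  generalize ck w rho (k + 1) G = c1 at *
  generalize ck w rho k D = c0 at *
  generalize fr (hf + 1) (k + 1) = f1 at *
  generalize fr (hf + 1 + 1) k = f5 at *
  linear_combination (c1 * (((k : PowerSeries S) + C hf) * C (hp hf k))) * h4 +
    (C (hp hf k) * X * f5) * h3

/-- (P2) : integration by parts, `a = 3/2` -/
theorem P2 (T : PowerSeries (PowerSeries S)) :
    (1 + X) * JJ hf w d.rho (hf + 1) (derivative (PowerSeries S) (io d.F) * T) +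
      X * JJ hf w d.rho (hf + 1) (io d.F * derivative (PowerSeries S) T) = 0 := by
  have h1 := d.P1 (hf + 1) (derivative (PowerSeries S) T)
  have h2 := JJ_parts (derivative (PowerSeries S) (io d.F) * T) (derivative (PowerSeries S) T)
    (C ((w - 1) ^ 4)) (d.ck_dF_zero T) (fun k => d.ck_dF_succ k T)
  have e1 : (C (hf + 1 - hf) : PowerSeries S) = 1 := by
    rw [add_sub_cancel_left, map_one]
  rw [e1, one_mul] at h1
  apply (isUnit_lin (hf + 1)).mul_left_cancel
  generalize JJ hf w d.rho (hf + 1) (derivative (PowerSeries S) (io d.F) * T) = J1 at *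
  generalize JJ hf w d.rho (hf + 1) (io d.F * derivative (PowerSeries S) T) = J3 at *
  generalize JJ hf w d.rho (hf + 1 + 1) (derivative (PowerSeries S) T) = J5 at *
  generalize (C ((w - 1) ^ 4) : PowerSeries S) = al at *
  generalize (1 + C (hf + 1) * X : PowerSeries S) = A at *
  linear_combination (1 + X) * h2 + X * h1

end Dat

end QS2.Sym
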