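import Pool.Agent.QS2.SymSum

/-!
# The contiguity relations of `𝒜_a(ω) = ∑_m λ_m ω^m / (z+a)_m`

`a = 1/2, 3/2, 5/2` (with `hf = 1/2`); `x = C X` is the element `1/z` of `S⟦X⟧⟦h⟧`.
-/

set_option autoImplicit false

namespace QS2.Sym

open PowerSeries Finset

variable {S : Type*} [CommRing S] {hf : S}

/-- coefficients of `𝒜_a` -/
noncomputable def ga (hf a : S) (m : ℕ) : PowerSeries S := C (lam hf m) * fr a m

theorem XS_ga (a : S) : XS (ga hf a) := (XS_fr a).mul_left' _

/-- the terms of `𝒜_a(ω)` -/
noncomputable def tA (hf a : S) (om : PowerSeries (PowerSeries S)) (m : ℕ) :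
    PowerSeries (PowerSeries S) := C (ga hf a m) * om ^ m

/-- `𝒜_a(ω)` -/
noncomputable def AA (hf a : S) (om : PowerSeries (PowerSeries S)) :
    PowerSeries (PowerSeries S) := hsum (tA hf a om)

/-- the terms of `𝒜_a'(ω)` -/
noncomputable def tB (hf a : S) (om : PowerSeries (PowerSeries S)) (m : ℕ) :
    PowerSeries (PowerSeries S) := C (((m : PowerSeries S) + 1) * ga hf a (m + 1)) * om ^ m

/-- `𝒜_a'(ω)` -/
noncomputable def BB (hf a : S) (om : PowerSeries (PowerSeries S)) :
    PowerSeries (PowerSeries S) := hsum (tB hf a om)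

section Deriv

variable {R : Type*} [CommRing R]

theorem deriv_C_mul (g : R) (T : PowerSeries R) :
    derivative R (C g * T) = C g * derivative R T := by
  ext n
  rw [coeff_derivative, coeff_C_mul, coeff_C_mul, coeff_derivative, mul_assoc]

theorem deriv_one : derivative R (1 : PowerSeries R) = 0 := by
  ext n
  rw [coeff_derivative, coeff_one, if_neg (by omega), zero_mul, map_zero]

theorem deriv_mul (T U : PowerSeries R) :
    derivative R (T * U) = T * derivative R U + U * derivative R T := by
  have h := (derivative R).leibniz T U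
  exact h

theorem deriv_pow_succ (T : PowerSeries R) (k : ℕ) :
    derivative R (T ^ (k + 1)) = ((k : PowerSeries R) + 1) * (T ^ k * derivative R T) := by
  induction k with
  | zero => simp
  | succ k ih =>
    rw [pow_succ, deriv_mul, ih]
    push_cast
    ring

end Deriv

variable (om : PowerSeries (PowerSeries S)) (a : S)

theorem HS_tA : HS (tA hf a om) := HS_C (XS_ga a) _

theorem XS_gb : XS fun m => ((m : PowerSeries S) + 1) * ga hf a (m + 1) :=
  (XS_ga a).succ.mul_left' _

theorem HS_tB : HS (tB hf a om) := HS_C (XS_gb a) _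

/-- the derivative of `𝒜_a(ω)` -/
theorem deriv_AA : derivative (PowerSeries S) (AA hf a om) =
    BB hf a om * derivative (PowerSeries S) om := by
  have h0 : HS fun k => derivative (PowerSeries S) (tA hf a om k) := by
    intro n k
    change (X : PowerSeries S) ^ k ∣ coeff n (derivative (PowerSeries S) (tA hf a om k))
    rw [coeff_derivative]
    exact Dvd.dvd.mul_right (HS_tA om a (n + 1) k) _
  rw [AA, deriv_hsum _ (HS_tA om a), hsum_succ h0, BB, mul_comm, mul_hsum (HS_tB om a)]
  have e0 : derivative (PowerSeries S) (tA hf a om 0) = 0 := by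
    rw [tA, pow_zero, deriv_C_mul, deriv_one, mul_zero]
  rw [e0, zero_add]
  refine hsum_congr fun k => ?_
  rw [tA, tB, deriv_C_mul, deriv_pow_succ]
  simp only [map_mul, map_add, map_one, map_natCast]
  push_cast
  ring

/-- the parameter `x = 1/z` -/
noncomputable abbrev xx (S : Type*) [CommRing S] : PowerSeries (PowerSeries S) :=
  C (X : PowerSeries S)

/-- (I2), termwise -/
theorem term_I2 (h2 : 2 * hf = 1) (m : ℕ) :
    (2 + X : PowerSeries S) * (ga hf hf m - ga hf (hf + 1) m) =
      2 * X * ((m : PowerSeries S) * ga hf (hf + 1) m) := by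
  have h := fr_shift hf m
  have e : C (hf + (m : S)) = C hf + (m : PowerSeries S) := by
    rw [map_add, map_natCast]
  have h3 : 2 * C hf = (1 : PowerSeries S) := by
    rw [← map_ofNat C 2, ← map_mul, h2, map_one]
  rw [e] at h
  unfold ga
  linear_combination (2 * C (lam hf m)) * h - X * C (lam hf m) * (fr hf m - fr (hf + 1) m) * h3

/-- (I2) -/
theorem rel_I2 (h2 : 2 * hf = 1) :
    (2 + xx S) * (AA hf hf om - AA hf (hf + 1) om) =
      2 * xx S * (om * BB hf (hf + 1) om) := by
  rw [AA, AA, BB, ← hsum_sub, mul_hsum (HS_tB om _)]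
  have hL : HS fun k => tA hf hf om k - tA hf (hf + 1) om k :=
    (HS_tA om _).sub (HS_tA om _)
  rw [mul_hsum hL, hsum_succ (hL.mul_left _), mul_hsum ((HS_tB om _).mul_left _)]
  have e0 : (2 + xx S) * (tA hf hf om 0 - tA hf (hf + 1) om 0) = 0 := by
    simp [tA, ga, fr_zero]
  rw [e0, zero_add]
  refine hsum_congr fun k => ?_
  have h := congrArg (C : PowerSeries S → PowerSeries (PowerSeries S)) (term_I2 h2 (k + 1))
  simp only [map_mul, map_add, map_sub, map_ofNat, map_natCast] at h
  unfold tA tB
  simp only [map_mul, map_add, map_one, map_natCast]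
  push_cast at h ⊢
  linear_combination (om ^ (k + 1)) * h

/-- (I3), termwise -/
theorem term_I3 (h2 : 2 * hf = 1) (m : ℕ) :
    (4 - X ^ 2 : PowerSeries S) * ga hf hf m - 2 * X * (2 + X) * ((m : PowerSeries S) * ga hf hf m)
      + 2 * X * (2 + X) * (((m : PowerSeries S) + 1) * ga hf hf (m + 1)) =
      4 * ga hf (hf + 1) m := by
  have hs := fr_shift hf m
  have h1 := fr_succ hf m
  have hl := lam_succ h2 m
  have e : C (hf + (m : S)) = C hf + (m : PowerSeries S) := by
    rw [map_add, map_natCast]
  have h3 : 2 * C hf = (1 : PowerSeries S) := by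
    rw [← map_ofNat C 2, ← map_mul, h2, map_one]
  have hl' : ((m : PowerSeries S) + 1) * C (lam hf (m + 1)) =
      ((m : PowerSeries S) + C hf) ^ 2 * C (lam hf m) := by
    have := congrArg (C : S → PowerSeries S) hl
    simpa only [map_mul, map_add, map_one, map_natCast, map_pow] using this
  apply (isUnit_lin (hf + (m : S))).mul_left_cancel
  rw [e] at hs h1 ⊢
  unfold ga
  generalize C hf = u at *
  generalize (m : PowerSeries S) = n at *
  generalize (C (lam hf m) : PowerSeries S) = L at *
  generalize (C (lam hf (m + 1)) : PowerSeries S) = L' at *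
  generalize fr hf m = f at *
  generalize fr hf (m + 1) = f' at *
  generalize fr (hf + 1) m = f2 at *
  linear_combination (2 * X * (2 + X) * (n + 1) * L') * h1 + (2 * X ^ 2 * (2 + X) * f) * hl' -
    (-4) * L * hs + (L * f * X * (2 + X) * (n * X + u * X + 1) - 2 * X * L * f) * h3

/-- (I3) -/
theorem rel_I3 (h2 : 2 * hf = 1) :
    (4 - xx S ^ 2) * AA hf hf om - 2 * xx S * (2 + xx S) * ((om - 1) * BB hf hf om) =
      4 * AA hf (hf + 1) om := by
  have hmul : om * BB hf hf om = hsum fun m => C ((m : PowerSeries S) * ga hf hf m) * om ^ m := by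
    have hX : XS fun m => (m : PowerSeries S) * ga hf hf m := (XS_ga hf).mul_left' _
    rw [BB, mul_hsum (HS_tB om _), hsum_succ (HS_C hX _)]
    have e0 : (C (((0 : ℕ) : PowerSeries S) * ga hf hf 0) : PowerSeries (PowerSeries S)) * om ^ 0
        = 0 := by simp
    rw [e0, zero_add]
    refine hsum_congr fun k => ?_
    unfold tB
    push_cast
    ring
  have e : (om - 1) * BB hf hf om = om * BB hf hf om - BB hf hf om := by ring
  have hX : XS fun m => (m : PowerSeries S) * ga hf hf m := (XS_ga hf).mul_left' _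
  rw [e, hmul, BB, ← hsum_sub, AA, AA, mul_hsum (HS_tA om _), mul_hsum ((HS_C hX _).sub (HS_tB om _)),
    mul_hsum (HS_tA om _), ← hsum_sub]
  refine hsum_congr fun k => ?_
  have h := congrArg (C : PowerSeries S → PowerSeries (PowerSeries S)) (term_I3 h2 k)
  simp only [map_mul, map_add, map_sub, map_ofNat, map_natCast, map_pow, map_one] at h
  unfold tA tB
  simp only [map_mul, map_add, map_one, map_natCast]
  linear_combination (om ^ k) * h

/-- (I1), termwise -/
theorem term_I1 (h2 : 2 * hf = 1) (m : ℕ) :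
    2 * (1 + X) ^ 2 * ga hf (hf + 1 + 1) m =
      (2 + X : PowerSeries S) * (1 + C (hf + 1) * X) * (2 * ga hf (hf + 1) m - ga hf hf m +
        (ga hf hf (m + 1) - ga hf (hf + 1) (m + 1))) := by
  have R1 := fr_shift hf m
  have R2 := fr_shift (hf + 1) m
  have R3 := fr_succ (hf + 1) m
  have R4 := fr_shift hf (m + 1)
  have hl := lam_succ h2 m
  have e1 : C (hf + (m : S)) = C hf + (m : PowerSeries S) := by
    rw [map_add, map_natCast]
  have e2 : C (hf + 1 + (m : S)) = C hf + 1 + (m : PowerSeries S) := by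
    rw [map_add, map_add, map_natCast, map_one]
  have e3 : C (hf + ((m + 1 : ℕ) : S)) = C hf + (m : PowerSeries S) + 1 := by
    rw [map_add, map_natCast]
    push_cast
    ring
  have e4 : C (hf + 1 : S) = C hf + (1 : PowerSeries S) := by
    rw [map_add, map_one]
  have h3 : 2 * C hf = (1 : PowerSeries S) := by
    rw [← map_ofNat C 2, ← map_mul, h2, map_one]
  have hl' : ((m : PowerSeries S) + 1) * C (lam hf (m + 1)) =
      ((m : PowerSeries S) + C hf) ^ 2 * C (lam hf m) := by
    have := congrArg (C : S → PowerSeries S) hl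
    simpa only [map_mul, map_add, map_one, map_natCast, map_pow] using this
  apply (isUnit_lin (hf + 1 + (m : S))).mul_left_cancel
  rw [e1] at R1
  rw [e2] at R2 R3
  rw [e3] at R4
  rw [e4] at R2
  rw [e2, e4]
  unfold ga
  generalize C hf = u at *
  generalize (m : PowerSeries S) = n at *
  generalize (C (lam hf m) : PowerSeries S) = L at *
  generalize (C (lam hf (m + 1)) : PowerSeries S) = L' at *
  generalize fr hf m = f1 at *
  generalize fr hf (m + 1) = f1' at *
  generalize fr (hf + 1) m = f3 at *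
  generalize fr (hf + 1) (m + 1) = f3' at *
  generalize fr (hf + 1 + 1) m = f5 at *
  linear_combination (2 * (1 + (u + 1 + n) * X) * (1 + (u + 1) * X) * L) * R1
    - ((1 + (u + 1 + n) * X) * (1 + (u + 1) * X) * L * X * f1) * h3
    - (2 * (1 + (u + 1 + n) * X) * (1 + (u + 1) * X) * L') * R4
    + ((1 + (u + 1 + n) * X) * (1 + (u + 1) * X) * L' * X * (f1' - f3')) * h3
    - (2 * (1 + (u + 1 + n) * X) * (1 + (u + 1) * X) * X * f3') * hl'
    - (2 * (1 + (u + 1) * X) * (n + u) ^ 2 * L * X) * R3
    - (2 * (1 + X) ^ 2 * L) * R2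

/-- (I1) -/
theorem rel_I1 (h2 : 2 * hf = 1) :
    2 * (1 + xx S) ^ 2 * (om * AA hf (hf + 1 + 1) om) =
      (2 + xx S) * (1 + C (C (hf + 1)) * xx S) *
        ((2 * om - 1) * AA hf (hf + 1) om - (om - 1) * AA hf hf om) := by
  have hd : AA hf hf om - AA hf (hf + 1) om =
      hsum fun k => tA hf hf om (k + 1) - tA hf (hf + 1) om (k + 1) := by
    have hL : HS fun k => tA hf hf om k - tA hf (hf + 1) om k :=
      (HS_tA om _).sub (HS_tA om _)
    rw [AA, AA, ← hsum_sub, hsum_succ hL]
    have e0 : tA hf hf om 0 - tA hf (hf + 1) om 0 = 0 := by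
      simp [tA, ga, fr_zero]
    rw [e0, zero_add]
  have e : (2 * om - 1) * AA hf (hf + 1) om - (om - 1) * AA hf hf om =
      (2 * (om * AA hf (hf + 1) om) - om * AA hf hf om) +
        (AA hf hf om - AA hf (hf + 1) om) := by ring
  have hX : HS fun k => tA hf hf om (k + 1) - tA hf (hf + 1) om (k + 1) :=
    ((HS_tA om _).succ).sub ((HS_tA om _).succ)
  have hY : HS fun k => om * tA hf (hf + 1) om k := (HS_tA om _).mul_left _
  have hZ : HS fun k => om * tA hf hf om k := (HS_tA om _).mul_left _
  rw [e, hd, AA, AA, AA, mul_hsum (HS_tA om _), mul_hsum (HS_tA om _), mul_hsum (HS_tA om _),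
    mul_hsum ((HS_tA om _).mul_left _), mul_hsum hY, ← hsum_sub, ← hsum_add,
    mul_hsum (((hY.mul_left _).sub hZ).add hX)]
  refine hsum_congr fun k => ?_
  have h := congrArg (C : PowerSeries S → PowerSeries (PowerSeries S)) (term_I1 h2 k)
  simp only [map_mul, map_add, map_sub, map_ofNat, map_natCast, map_pow, map_one] at h
  unfold tA
  simp only [map_mul, map_add, map_one, map_natCast]
  linear_combination (om ^ (k + 1)) * h

end QS2.Sym
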