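import Mathlib

/-!
# `X`-adic sums, Pochhammer quotients, and the hypergeometric series `𝒜_a(ω)`

Helper file for the symmetric formula for the formal solution of the Apéry recurrence.
`fr a m = X^m ∏_{i<m} (1 + (a+i) X)⁻¹` is `1/(z+a)_m` with `X = 1/z`; the series
`AA a om = ∑_m λ_m om^m / (z+a)_m`, `λ_m = (1/2)_m² / m!`, is an element of `S⟦X⟧⟦h⟧`.
-/

set_option autoImplicit false

namespace QS2.Sym

open PowerSeries Finset

/-! ## `X`-adic sums in `S⟦X⟧` -/

section XSum

variable {S : Type*} [CommRing S]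

/-- families with `X ^ k ∣ u k` -/
def XS (u : ℕ → PowerSeries S) : Prop := ∀ k, (X : PowerSeries S) ^ k ∣ u k

/-- the `X`-adically convergent sum -/
noncomputable def xsum (u : ℕ → PowerSeries S) : PowerSeries S :=
  PowerSeries.mk fun n => ∑ k ∈ range (n + 1), coeff n (u k)

theorem XS.coeff_eq_zero {u : ℕ → PowerSeries S} (hu : XS u) {n k : ℕ} (h : n < k) :
    coeff n (u k) = 0 := X_pow_dvd_iff.1 (hu k) n h

theorem coeff_xsum {u : ℕ → PowerSeries S} (hu : XS u) {n N : ℕ} (h : n < N) :
    coeff n (xsum u) = ∑ k ∈ range N, coeff n (u k) := by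
  rw [xsum, coeff_mk]
  refine Finset.sum_subset ?_ ?_
  · intro k hk
    rw [Finset.mem_range] at hk ⊢
    omega
  · intro k _ hk
    rw [Finset.mem_range, not_lt] at hk
    exact hu.coeff_eq_zero (by omega)

theorem XS.mul_left {u : ℕ → PowerSeries S} (hu : XS u) (c : PowerSeries S) :
    XS fun k => c * u k := fun k => Dvd.dvd.mul_left (hu k) c

theorem XS.mul_right {u : ℕ → PowerSeries S} (hu : XS u) (c : ℕ → PowerSeries S) :
    XS fun k => u k * c k := fun k => Dvd.dvd.mul_right (hu k) (c k)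

theorem XS.mul_left' {u : ℕ → PowerSeries S} (hu : XS u) (c : ℕ → PowerSeries S) :
    XS fun k => c k * u k := fun k => Dvd.dvd.mul_left (hu k) (c k)

theorem XS.add {u v : ℕ → PowerSeries S} (hu : XS u) (hv : XS v) :
    XS fun k => u k + v k := fun k => dvd_add (hu k) (hv k)

theorem XS.sub {u v : ℕ → PowerSeries S} (hu : XS u) (hv : XS v) :
    XS fun k => u k - v k := fun k => dvd_sub (hu k) (hv k)

theorem XS.succ {u : ℕ → PowerSeries S} (hu : XS u) : XS fun k => u (k + 1) := fun k =>
  dvd_trans (pow_dvd_pow _ (Nat.le_succ k)) (hu (k + 1))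

theorem xsum_congr {u v : ℕ → PowerSeries S} (h : ∀ k, u k = v k) : xsum u = xsum v := by
  have : u = v := funext h
  rw [this]

theorem xsum_add (u v : ℕ → PowerSeries S) :
    xsum (fun k => u k + v k) = xsum u + xsum v := by
  ext n
  simp only [xsum, coeff_mk, map_add, Finset.sum_add_distrib]

theorem xsum_sub (u v : ℕ → PowerSeries S) :
    xsum (fun k => u k - v k) = xsum u - xsum v := by
  ext n
  simp only [xsum, coeff_mk, map_sub, Finset.sum_sub_distrib]

theorem xsum_sum {ι : Type*} (s : Finset ι) (u : ι → ℕ → PowerSeries S) :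
    xsum (fun k => ∑ i ∈ s, u i k) = ∑ i ∈ s, xsum (u i) := by
  ext n
  simp only [xsum, coeff_mk, map_sum]
  rw [Finset.sum_comm]

theorem mul_xsum {u : ℕ → PowerSeries S} (hu : XS u) (c : PowerSeries S) :
    c * xsum u = xsum fun k => c * u k := by
  ext n
  rw [coeff_mul, coeff_xsum (hu.mul_left c) (Nat.lt_succ_self n)]
  have h1 : ∀ p ∈ antidiagonal n, coeff p.1 c * coeff p.2 (xsum u) =
      ∑ k ∈ range (n + 1), coeff p.1 c * coeff p.2 (u k) := by
    intro p hp
    have hp2 : p.2 < n + 1 := by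
      have := Finset.HasAntidiagonal.mem_antidiagonal.1 hp
      omega
    rw [coeff_xsum hu hp2, Finset.mul_sum]
  rw [Finset.sum_congr rfl h1, Finset.sum_comm]
  refine Finset.sum_congr rfl fun k _ => ?_
  rw [coeff_mul]

theorem xsum_mul {u : ℕ → PowerSeries S} (hu : XS u) (c : PowerSeries S) :
    xsum u * c = xsum fun k => u k * c := by
  rw [mul_comm, mul_xsum hu c]
  exact xsum_congr fun k => mul_comm _ _

theorem xsum_succ {u : ℕ → PowerSeries S} (hu : XS u) :
    xsum u = u 0 + xsum fun k => u (k + 1) := by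
  ext n
  rw [map_add, coeff_xsum hu (show n < n + 2 by omega),
    coeff_xsum hu.succ (show n < n + 1 by omega), Finset.sum_range_succ']
  rw [add_comm]

theorem coeff_xsum_self {u : ℕ → PowerSeries S} (n : ℕ) :
    coeff n (xsum u) = ∑ k ∈ range (n + 1), coeff n (u k) := by
  rw [xsum, coeff_mk]

end XSum

/-! ## sums in `S⟦X⟧⟦h⟧` -/

section HSum

variable {S : Type*} [CommRing S]

/-- families in `S⟦X⟧⟦h⟧` with `X ^ k ∣ u k` -/
def HS (u : ℕ → PowerSeries (PowerSeries S)) : Prop := ∀ n, XS fun k => coeff n (u k)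

/-- the `X`-adically convergent sum in `S⟦X⟧⟦h⟧` -/
noncomputable def hsum (u : ℕ → PowerSeries (PowerSeries S)) : PowerSeries (PowerSeries S) :=
  PowerSeries.mk fun n => xsum fun k => coeff n (u k)

theorem coeff_hsum (u : ℕ → PowerSeries (PowerSeries S)) (n : ℕ) :
    coeff n (hsum u) = xsum fun k => coeff n (u k) := by
  rw [hsum, coeff_mk]

theorem HS.mul_left' {u : ℕ → PowerSeries (PowerSeries S)} (hu : HS u)
    (c : ℕ → PowerSeries (PowerSeries S)) : HS fun k => c k * u k := by
  intro n k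
  change (X : PowerSeries S) ^ k ∣ coeff n (c k * u k)
  rw [coeff_mul]
  exact Finset.dvd_sum fun p _ => Dvd.dvd.mul_left (hu p.2 k) _

theorem HS.mul_left {u : ℕ → PowerSeries (PowerSeries S)} (hu : HS u)
    (c : PowerSeries (PowerSeries S)) : HS fun k => c * u k := hu.mul_left' fun _ => c

theorem HS.mul_right' {u : ℕ → PowerSeries (PowerSeries S)} (hu : HS u)
    (c : ℕ → PowerSeries (PowerSeries S)) : HS fun k => u k * c k := by
  have h := hu.mul_left' c
  have e : (fun k => u k * c k) = fun k => c k * u k := funext fun k => mul_comm _ _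
  rw [e]
  exact h

theorem HS.add {u v : ℕ → PowerSeries (PowerSeries S)} (hu : HS u) (hv : HS v) :
    HS fun k => u k + v k := fun n k => by
  change (X : PowerSeries S) ^ k ∣ coeff n (u k + v k)
  rw [map_add]
  exact dvd_add (hu n k) (hv n k)

theorem HS.sub {u v : ℕ → PowerSeries (PowerSeries S)} (hu : HS u) (hv : HS v) :
    HS fun k => u k - v k := fun n k => by
  change (X : PowerSeries S) ^ k ∣ coeff n (u k - v k)
  rw [map_sub]
  exact dvd_sub (hu n k) (hv n k)

theorem HS.succ {u : ℕ → PowerSeries (PowerSeries S)} (hu : HS u) : HS fun k => u (k + 1) :=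
  fun n => (hu n).succ

/-- a family of constants times anything -/
theorem HS_C {g : ℕ → PowerSeries S} (hg : XS g) (T : ℕ → PowerSeries (PowerSeries S)) :
    HS fun k => C (g k) * T k := by
  intro n k
  change (X : PowerSeries S) ^ k ∣ coeff n (C (g k) * T k)
  rw [coeff_C_mul]
  exact Dvd.dvd.mul_right (hg k) _

theorem hsum_congr {u v : ℕ → PowerSeries (PowerSeries S)} (h : ∀ k, u k = v k) :
    hsum u = hsum v := by
  have : u = v := funext h
  rw [this]

theorem hsum_add (u v : ℕ → PowerSeries (PowerSeries S)) :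
    hsum (fun k => u k + v k) = hsum u + hsum v := by
  ext n : 1
  rw [map_add, coeff_hsum, coeff_hsum, coeff_hsum, ← xsum_add]
  exact xsum_congr fun k => map_add _ _ _

theorem hsum_sub (u v : ℕ → PowerSeries (PowerSeries S)) :
    hsum (fun k => u k - v k) = hsum u - hsum v := by
  ext n : 1
  rw [map_sub, coeff_hsum, coeff_hsum, coeff_hsum, ← xsum_sub]
  exact xsum_congr fun k => map_sub _ _ _

theorem mul_hsum {u : ℕ → PowerSeries (PowerSeries S)} (hu : HS u)
    (c : PowerSeries (PowerSeries S)) : c * hsum u = hsum fun k => c * u k := by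
  ext n : 1
  rw [coeff_hsum, coeff_mul]
  have h1 : ∀ p ∈ antidiagonal n, coeff p.1 c * coeff p.2 (hsum u) =
      xsum fun k => coeff p.1 c * coeff p.2 (u k) := by
    intro p _
    rw [coeff_hsum, mul_xsum (hu p.2)]
  rw [Finset.sum_congr rfl h1, ← xsum_sum]
  exact xsum_congr fun k => (coeff_mul _ _ _).symm

theorem hsum_succ {u : ℕ → PowerSeries (PowerSeries S)} (hu : HS u) :
    hsum u = u 0 + hsum fun k => u (k + 1) := by
  ext n : 1
  rw [coeff_hsum, map_add, coeff_hsum, xsum_succ (hu n)]

theorem deriv_hsum (u : ℕ → PowerSeries (PowerSeries S)) (hu : HS u) :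
    derivative (PowerSeries S) (hsum u) =
      hsum fun k => derivative (PowerSeries S) (u k) := by
  ext n : 1
  rw [coeff_hsum, coeff_derivative, coeff_hsum, xsum_mul (hu (n + 1))]
  exact xsum_congr fun k => (coeff_derivative _ _).symm

end HSum

/-! ## Pochhammer quotients -/

section Poch

variable {S : Type*} [CommRing S]

/-- `1 / (1 + c X)` -/
noncomputable def geo (c : S) : PowerSeries S := PowerSeries.mk fun n => (-c) ^ n

theorem geo_mul (c : S) : (1 + C c * X) * geo c = 1 := by
  ext n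
  rcases n with _ | n
  · simp [geo]
  · rw [add_mul, one_mul, map_add, mul_assoc, coeff_C_mul, coeff_succ_X_mul, geo, coeff_mk,
      coeff_mk, coeff_one, if_neg (by omega), pow_succ]
    ring

theorem isUnit_lin (c : S) : IsUnit (1 + C c * X : PowerSeries S) :=
  IsUnit.of_mul_eq_one _ (geo_mul c)

/-- `1 / (z + a)_m` as a power series in `X = 1 / z` -/
noncomputable def fr (a : S) : ℕ → PowerSeries S
  | 0 => 1
  | m + 1 => X * geo (a + m) * fr a m

theorem fr_zero (a : S) : fr a 0 = 1 := rfl

theorem XS_fr (a : S) : XS (fr a) := by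
  intro k
  induction k with
  | zero => simp
  | succ k ih =>
    rw [fr, pow_succ', mul_assoc]
    exact mul_dvd_mul_left _ (Dvd.dvd.mul_left ih _)

/-- (F1) -/
theorem fr_succ (a : S) (m : ℕ) : (1 + C (a + m) * X) * fr a (m + 1) = X * fr a m := by
  rw [fr]
  linear_combination (X * fr a m) * geo_mul (a + (m : S))

/-- (F2) -/
theorem fr_shift (a : S) (m : ℕ) :
    (1 + C a * X) * fr a m = (1 + C (a + m) * X) * fr (a + 1) m := by
  induction m with
  | zero => simp [fr_zero]
  | succ m ih =>
    have h1 := fr_succ (a + 1) m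
    have e : (a + 1 + (m : S)) = a + ((m + 1 : ℕ) : S) := by push_cast; ring
    rw [e] at h1
    rw [h1, fr]
    linear_combination (X * geo (a + (m : S))) * ih + (X * fr (a + 1) m) * geo_mul (a + (m : S))

/-- (F3) -/
theorem fr_shift_succ (a : S) (m : ℕ) :
    (1 + C a * X) * fr a (m + 1) = X * fr (a + 1) m := by
  apply (isUnit_lin (a + (m : S))).mul_left_cancel
  linear_combination (1 + C a * X) * fr_succ a m + X * fr_shift a m

variable (hf : S)

/-- `(1/2)_k` -/
noncomputable def hp : ℕ → S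
  | 0 => 1
  | k + 1 => (k + hf) * hp k

/-- `C(2m,m) / 4^m` -/
noncomputable def cb (m : ℕ) : S := (Nat.centralBinom m : S) * hf ^ (2 * m)

/-- `(1/2)_m ^ 2 / m!` -/
noncomputable def lam (m : ℕ) : S := cb hf m * hp hf m

variable {hf}

theorem cb_succ (h2 : 2 * hf = 1) (m : ℕ) : ((m : S) + 1) * cb hf (m + 1) = (m + hf) * cb hf m := by
  have h := Nat.succ_mul_centralBinom_succ m
  have h' : ((m : S) + 1) * (Nat.centralBinom (m + 1) : S) =
      2 * (2 * (m : S) + 1) * (Nat.centralBinom m : S) := by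
    exact_mod_cast congrArg (Nat.cast (R := S)) h
  unfold cb
  have e : hf ^ (2 * (m + 1)) = hf ^ (2 * m) * hf ^ 2 := by ring
  rw [e]
  linear_combination (hf ^ (2 * m) * hf ^ 2) * h' +
    (Nat.centralBinom m : S) * hf ^ (2 * m) * ((2 * (m : S) + 1) * hf + m) * h2

theorem lam_succ (h2 : 2 * hf = 1) (m : ℕ) :
    ((m : S) + 1) * lam hf (m + 1) = (m + hf) ^ 2 * lam hf m := by
  unfold lam
  rw [hp]
  linear_combination ((m + hf) * hp hf m) * cb_succ h2 m

/-- `(1/2)_m / (z+a)_m` -/
noncomputable def EE (hf a : S) (m : ℕ) : PowerSeries S := C (hp hf m) * fr a m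

theorem XS_EE (a : S) : XS (EE hf a) := (XS_fr a).mul_left' _

end Poch

end QS2.Sym
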