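import Pool.Agent.QS2.SymForm

/-!
# `Sg a` is the triple sum
-/

set_option autoImplicit false

namespace QS2.Sym

open PowerSeries Finset

variable {S : Type*} [CommRing S] {hf w : S}

theorem ga_eq (a : S) (m : ℕ) : ga hf a m = C (cb hf m) * EE hf a m := by
  unfold ga EE lam
  rw [map_mul]
  ring

/-- the defining property of `EE` -/
theorem fr_prod (a : S) (m : ℕ) :
    fr a m * ∏ i ∈ range m, (1 + C (a + (i : S)) * X) = X ^ m := by
  induction m with
  | zero => simp [fr_zero]
  | succ m ih =>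
    rw [Finset.prod_range_succ]
    linear_combination X * ih + (∏ i ∈ range m, (1 + C (a + (i : S)) * X)) * fr_succ a m

theorem EE_prod (a : S) (m : ℕ) :
    EE hf a m * ∏ i ∈ range m, (1 + C (a + (i : S)) * X) = C (hp hf m) * X ^ m := by
  unfold EE
  linear_combination C (hp hf m) * fr_prod a m

theorem hp_prod (m : ℕ) : hp hf m = ∏ i ∈ range m, (hf + (i : S)) := by
  induction m with
  | zero => simp [hp]
  | succ m ih =>
    rw [Finset.prod_range_succ, hp, ih]
    ring

namespace Dat

variable (d : Dat S hf w)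

/-- the coefficients of the triple sum -/
noncomputable def kap (m m' k : ℕ) : S :=
  cb hf m * cb hf m' * ckS w d.rho k (d.oX ^ m * (d.Ph * d.oY ^ m'))

theorem ck_triple (a : S) (k : ℕ) : ck w d.rho k (io d.Ph * (d.AX a * d.AY a)) =
    xsum fun m => ga hf a m * xsum fun m' => ga hf a m' *
      C (ckS w d.rho k (d.oX ^ m * (d.Ph * d.oY ^ m'))) := by
  have e1 : io d.Ph * (d.AX a * d.AY a) = (io d.Ph * d.AY a) * d.AX a := by ring
  rw [e1, AX, AA, mul_hsum (HS_tA _ _), ck_hsum _ _ ((HS_tA _ _).mul_left _)]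
  refine xsum_congr fun m => ?_
  have e2 : io d.Ph * d.AY a * tA hf a (io d.oX) m =
      C (ga hf a m) * ((io d.oX ^ m * io d.Ph) * d.AY a) := by
    unfold tA
    ring
  rw [e2, ck_C_mul]
  congr 1
  rw [AY, AA, mul_hsum (HS_tA _ _), ck_hsum _ _ ((HS_tA _ _).mul_left _)]
  refine xsum_congr fun m' => ?_
  have e3 : io d.oX ^ m * io d.Ph * tA hf a (io d.oY) m' =
      C (ga hf a m') * io (d.oX ^ m * (d.Ph * d.oY ^ m')) := by
    unfold tA
    rw [map_mul, map_mul, map_pow, map_pow]
    ring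
  rw [e3, ck_C_mul, ck_io]

theorem coeff_Sg (a : S) (n : ℕ) : coeff n (d.Sg a) =
    ∑ m ∈ range (n + 1), ∑ m' ∈ range (n + 1), ∑ k ∈ range (n + 1),
      d.kap m m' k * coeff n (EE hf a m * EE hf a m' * EE hf a k) := by
  rw [Sg, JJ, coeff_xsum_self]
  have h1 : ∀ k ∈ range (n + 1), coeff n (ck w d.rho k (io d.Ph * (d.AX a * d.AY a)) *
      EE hf a k) = ∑ m ∈ range (n + 1), ∑ m' ∈ range (n + 1),
      d.kap m m' k * coeff n (EE hf a m * EE hf a m' * EE hf a k) := by
    intro k _
    have hin : ∀ m : ℕ, XS fun m' => ga hf a m' *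
        C (ckS w d.rho k (d.oX ^ m * (d.Ph * d.oY ^ m'))) := fun m =>
      (XS_ga a).mul_right _
    have hout : XS fun m => ga hf a m * xsum fun m' => ga hf a m' *
        C (ckS w d.rho k (d.oX ^ m * (d.Ph * d.oY ^ m'))) := (XS_ga a).mul_right _
    rw [d.ck_triple, xsum_mul hout, coeff_xsum_self]
    refine Finset.sum_congr rfl fun m _ => ?_
    have e4 : (ga hf a m * xsum fun m' => ga hf a m' *
        C (ckS w d.rho k (d.oX ^ m * (d.Ph * d.oY ^ m')))) * EE hf a k =
        (ga hf a m * EE hf a k) * xsum fun m' => ga hf a m' *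
        C (ckS w d.rho k (d.oX ^ m * (d.Ph * d.oY ^ m'))) := by ring
    rw [e4, mul_xsum (hin m), coeff_xsum_self]
    refine Finset.sum_congr rfl fun m' _ => ?_
    have e5 : ga hf a m * EE hf a k * (ga hf a m' *
        C (ckS w d.rho k (d.oX ^ m * (d.Ph * d.oY ^ m')))) =
        C (d.kap m m' k) * (EE hf a m * EE hf a m' * EE hf a k) := by
      rw [ga_eq, ga_eq, kap, map_mul, map_mul]
      ring
    rw [e5, coeff_C_mul]
  rw [Finset.sum_congr rfl h1, Finset.sum_comm]
  refine Finset.sum_congr rfl fun m _ => ?_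
  rw [Finset.sum_comm]

theorem kap_zero : d.kap 0 0 0 = (w - 1) ^ 2 * w * hf := by
  have h0 : constantCoeff d.q = 1 := by
    rw [← coeff_zero_eq_constantCoeff]; exact d.hq0
  have h1 : constantCoeff d.s = w := by
    rw [← coeff_zero_eq_constantCoeff]; exact d.hs0
  have h2 : constantCoeff d.rho = 1 := by
    rw [← coeff_zero_eq_constantCoeff]; exact d.hrho0
  have h3 : constantCoeff d.qi = 1 := by
    have h := congrArg constantCoeff d.hqi
    rw [map_mul, h0, one_mul, map_one] at h
    exact h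
  have h4 : constantCoeff d.si = w * hf := by
    have h := congrArg constantCoeff d.hsi
    rw [map_mul, h1, map_one] at h
    linear_combination (w * hf) * h - (hf * constantCoeff d.si) * d.hw -
      (constantCoeff d.si) * d.h2
  have hc : cb hf 0 = 1 := by simp [cb]
  unfold kap ckS
  rw [hc, pow_zero, pow_zero, pow_zero, coeff_zero_eq_constantCoeff]
  simp only [one_mul, mul_one, mul_zero, zero_add, pow_one, map_mul, h2]
  unfold Ph n0 F y yi
  simp only [map_mul, map_pow, map_sub, map_add, map_one, h0, h1, h3, h4]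
  have h5 := d.hw
  have e : (w ^ 2 - 1) ^ 2 = 1 := by rw [h5]; norm_num
  linear_combination ((w - 1) ^ 2 * w * hf) * e

theorem kap_zero_mul : d.kap 0 0 0 * ((w + 1) ^ 2 * w) = 1 := by
  rw [d.kap_zero]
  have h5 := d.hw
  have h6 := d.h2
  have e : (w ^ 2 - 1) ^ 2 = 1 := by rw [h5]; norm_num
  linear_combination (w ^ 2 * hf) * e + hf * h5 + h6

end Dat

end QS2.Sym
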